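import Pool.Agent.H92F.Box
import Pool.Agent.H92F.Ded
import Pool.Agent.H92F.Unit

-- part H86M.Defs
section

/-! h86m: definitions for the second moment of the 3-torsion in characteristic 3. -/

set_option autoImplicit false
open Polynomial Finset UniqueFactorizationMonoid CL5
open scoped Classical

noncomputable section
namespace CL3

variable {k : Type*} [Field k] [Fintype k]

/-- a primitive additive character of `k` -/
def psi (c : k) : ℂ := AddChar.FiniteField.primitiveChar_to_Complex k c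

/-- `ψ` of the residue of `a / M` at infinity -/
def ee (a M : k[X]) : ℂ := psi ((a %ₘ M).coeff (M.natDegree - 1))

/-- the polynomial with cube coordinates `a0, a1, a2` -/
def Phi (a0 a1 a2 : k[X]) : k[X] := a0 ^ 3 + X * a1 ^ 3 + X ^ 2 * a2 ^ 3

/-- `3 ^ (unit rank)` -/
def uu (n : ℕ) : ℕ := if Even n then 3 else 1

/-- monic prime divisors -/
def pf (r : k[X]) : Finset k[X] := (prs k r.natDegree).filter (fun p => p ∣ r)

/-- product of the monic prime divisors of degree `> Y` -/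
def rr (Y : ℕ) (w : k[X]) : k[X] := ∏ p ∈ (pf w).filter (fun p => Y < p.natDegree), p

/-- product of the monic primes of degree `≤ Y` -/
def PP (k : Type*) [Field k] [Fintype k] (Y : ℕ) : k[X] := ∏ p ∈ prs k Y, p

/-- the targets of the model count -/
def UU (k : Type*) [Field k] [Fintype k] (Y K m : ℕ) : Finset k[X] :=
  (box k (m - K)).filter (fun v => PP k Y ^ K ∣ v)

/-- `g = M ^ (3) Z` -/
def Rep (m : ℕ) (g1 g2 Z1 Z2 M11 M12 M21 M22 : k[X]) (i1 i2 : ℕ) : Prop :=
  g1 = M11 ^ 3 * Z1 + M12 ^ 3 * Z2 ∧ g2 = M21 ^ 3 * Z1 + M22 ^ 3 * Z2 ∧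
    M11 * M22 - M12 * M21 ≠ 0 ∧ Z1 ≠ 0 ∧ Z2 ≠ 0 ∧
    Z1 ∈ box k (m - 3 * i1) ∧ Z2 ∈ box k (m - 3 * i2) ∧
    M11 ∈ box k (i1 + 1) ∧ M21 ∈ box k (i1 + 1) ∧ M12 ∈ box k (i2 + 1) ∧ M22 ∈ box k (i2 + 1) ∧
    3 * i1 < m ∧ 3 * i2 < m

/-- admissible divisors of the determinant -/
def Adm (D M11 M12 M21 M22 : k[X]) : Prop :=
  D.Monic ∧ Squarefree D ∧ D ∣ M11 * M22 - M12 * M21 ∧
    ∀ p : k[X], Irreducible p → p ∣ D →
      ¬ (p ∣ M11 ∧ p ∣ M12) ∧ ¬ (p ∣ M21 ∧ p ∣ M22) ∧
        ¬ (p ∣ M11 + M21 ∧ p ∣ M12 + M22) ∧ ¬ (p ∣ M11 - M21 ∧ p ∣ M12 - M22)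

/-- data attached to a good quadruple -/
def GoodQ (Y K1 E m : ℕ) (a1 a2 b1 b2 w0 r1 r2 μ : k[X]) : Prop :=
  a1 * b2 - a2 * b1 = w0 * (r1 * r2) ∧ w0 ≠ 0 ∧
    (m + 1) / 3 + m / 3 ≤ (a1 * b2 - a2 * b1).natDegree + K1 + 2 ∧
    r1.Monic ∧ r2.Monic ∧ r1 * r2 = rr Y (a1 * b2 - a2 * b1) ∧ Squarefree (r1 * r2) ∧
    IsCoprime (PP k Y) (r1 * r2) ∧ PP k Y * w0 ∣ PP k Y ^ K1 ∧
    E ≤ r1.natDegree ∧ 6 * r1.natDegree ≤ m ∧
    IsCoprime a1 (r1 * r2) ∧ r1 * r2 ∣ b1 - μ * a1 ∧ r1 * r2 ∣ b2 - μ * a2 ∧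
    IsCoprime (μ ^ 3 - μ) (r1 * r2)

/-- good quadruples -/
def IsGoodQ (Y K1 E m : ℕ) (a1 a2 b1 b2 : k[X]) : Prop :=
  ∃ w0 r1 r2 μ : k[X], GoodQ Y K1 E m a1 a2 b1 b2 w0 r1 r2 μ

/-- conditions (E1), (E2), (E4), (E5), (E6) on the determinant, `Y = 4 y` -/
def NiceW (y K1 E m : ℕ) (w : k[X]) : Prop :=
  w ≠ 0 ∧ (m + 1) / 3 + m / 3 ≤ w.natDegree + K1 + 2 ∧
    (∀ p ∈ prs k (4 * y), ¬ p ^ K1 ∣ w) ∧
    (∀ p ∈ pf w, 4 * y < p.natDegree → ¬ p ^ 2 ∣ w) ∧
    E ≤ ∑ p ∈ (pf w).filter (fun p => 4 * y < p.natDegree ∧ p.natDegree ≤ m / 12), p.natDegree ∧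
    ∑ p ∈ (pf w).filter (fun p => 4 * y < p.natDegree), 1 / nrm p ≤ 1 / qq k ^ (2 * y)

/-- the Cramer numerators put together -/
def Psi (a0 a1 a2 b0 b1 b2 T v1 v2 : k[X]) : k[X] :=
  Phi (a1 * (Phi b0 b1 b2 + v2 - b0 * T) - b1 * (Phi a0 a1 a2 + v1 - a0 * T))
    (b2 * (Phi a0 a1 a2 + v1 - a0 * T) - a2 * (Phi b0 b1 b2 + v2 - b0 * T))
    ((a1 * b2 - a2 * b1) * T)

/-- the conditions at the small primes and at infinity -/
def Chi (Y n : ℕ) (w0 a0 a1 a2 b0 b1 b2 T v1 v2 : k[X]) : Prop :=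
  w0 ^ 3 ∣ Psi a0 a1 a2 b0 b1 b2 T v1 v2 ∧
    (∀ p ∈ prs k Y, ¬ p ^ 2 * w0 ^ 3 ∣ Psi a0 a1 a2 b0 b1 b2 T v1 v2) ∧
    (Psi a0 a1 a2 b0 b1 b2 T v1 v2 - (a1 * b2 - a2 * b1) ^ 3 * X ^ n).degree <
      ((n + 3 * (a1 * b2 - a2 * b1).natDegree : ℕ) : WithBot ℕ)

variable [CharP k 3]

/-- the `j`-th cube coordinate -/
def co (j : ℕ) (w : k[X]) : k[X] :=
  ∑ i ∈ range (w.natDegree + 1), monomial i ((frobeniusEquiv k 3).symm (w.coeff (3 * i + j)))

/-- the Cartier operator -/
def car (w : k[X]) : k[X] := co 2 w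

/-- logarithmic forms `g dx / y` on `y ^ 2 = f` -/
def Sol (f : k[X]) : Finset k[X] := (box k (f.natDegree / 2)).filter (fun g => car (g * f) = g)

/-- independent pairs of solutions -/
def II (f : k[X]) : ℕ := ((Sol f ×ˢ Sol f).filter (fun z => wronskian z.1 z.2 ≠ 0)).card

/-- number of `f` with given values, one equation -/
def N1 (Y n : ℕ) (g v : k[X]) : ℕ :=
  ((mon k n).filter (fun f => Wsf Y f ∧ car (g * f) = g + v)).card

/-- model count, one equation -/
def mo1 (Y K n : ℕ) (g : k[X]) : ℝ :=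
  (∑ v ∈ UU k Y K (n / 2), (N1 Y n g v : ℝ)) / (UU k Y K (n / 2)).card

/-- kernel size, one equation -/
def kap1 (n : ℕ) (g : k[X]) : ℕ := ((box k n).filter (fun φ => car (g * φ) = 0)).card

/-- number of `f` with given values, two equations -/
def NN (Y n : ℕ) (g1 g2 v1 v2 : k[X]) : ℕ :=
  ((mon k n).filter (fun f => Wsf Y f ∧ car (g1 * f) = g1 + v1 ∧ car (g2 * f) = g2 + v2)).card

/-- real count -/
def re2 (Y n : ℕ) (g1 g2 : k[X]) : ℝ := (NN Y n g1 g2 0 0 : ℝ)

/-- model count -/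
def mo2 (Y K n : ℕ) (g1 g2 : k[X]) : ℝ :=
  (∑ v1 ∈ UU k Y K (n / 2), ∑ v2 ∈ UU k Y K (n / 2), (NN Y n g1 g2 v1 v2 : ℝ)) /
    ((UU k Y K (n / 2)).card : ℝ) ^ 2

/-- kernel size, two equations -/
def kap (n : ℕ) (g1 g2 : k[X]) : ℕ :=
  ((box k n).filter (fun φ => car (g1 * φ) = 0 ∧ car (g2 * φ) = 0)).card

/-- the hypothesis of the tail lemma -/
def Hyp (n : ℕ) (ν : k[X] → k[X] → ℝ) : Prop :=
  ∀ (g1 g2 Z1 Z2 M11 M12 M21 M22 D : k[X]) (i1 i2 : ℕ),
    Rep (n / 2) g1 g2 Z1 Z2 M11 M12 M21 M22 i1 i2 → Adm D M11 M12 M21 M22 → 0 < ν g1 g2 →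
      ∃ D1 D2 : k[X], D = D1 * D2 ∧ D1.Monic ∧ D2.Monic ∧ D1 ∣ g1 ∧ D1 ∣ g2 ∧
        ν g1 g2 ≤ kap n g1 g2 / nrm D2

/-- good pairs -/
def Gd (k : Type*) [Field k] [Fintype k] [CharP k 3] (Y K1 E m : ℕ) : Finset (k[X] × k[X]) :=
  (box k m ×ˢ box k m).filter (fun g =>
    IsGoodQ Y K1 E m (co 1 g.1) (co 2 g.1) (co 1 g.2) (co 2 g.2) ∧
      IsCoprime (co 1 g.1 * co 0 g.2 - co 1 g.2 * co 0 g.1)
        (rr Y (co 1 g.1 * co 2 g.2 - co 2 g.1 * co 1 g.2)))

end CL3

end
end

-- part H86M.Car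
section

/-! h86m: cube coordinates, Cartier operator, Sol (row CAR). -/

set_option autoImplicit false
set_option linter.unusedSectionVars false
open Polynomial Finset UniqueFactorizationMonoid Filter Topology CL5
open scoped Classical

noncomputable section
namespace CL3

variable {k : Type*} [Field k] [Fintype k]

variable [CharP k 3]

theorem three_le_qq : 3 ≤ qq k := by
  unfold qq
  obtain ⟨n, -, hn⟩ := FiniteField.card k 3
  rw [hn]
  have : 3 ^ 1 ≤ 3 ^ (n : ℕ) := Nat.pow_le_pow_right (by norm_num) n.pos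
  exact_mod_cast this

theorem car_co_coeff (j : ℕ) (w : k[X]) (i : ℕ) :
    (co j w).coeff i = (frobeniusEquiv k 3).symm (w.coeff (3 * i + j)) := by
  unfold co
  rw [finsetSum_coeff]
  simp only [coeff_monomial]
  rw [Finset.sum_ite_eq']
  split_ifs with h
  · rfl
  · rw [Finset.mem_range, not_lt] at h
    rw [coeff_eq_zero_of_natDegree_lt (by omega)]
    simp

theorem coeff_co (j : ℕ) (w : k[X]) (i : ℕ) : (co j w).coeff i ^ 3 = w.coeff (3 * i + j) := by
  rw [car_co_coeff]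
  exact (frobeniusEquiv k 3).apply_symm_apply _

theorem co_add (j : ℕ) (a b : k[X]) : co j (a + b) = co j a + co j b := by
  ext i; simp [car_co_coeff]

theorem car_coeff_eq (w : k[X]) (j : ℕ) :
    (car w).coeff j = (frobeniusEquiv k 3).symm (w.coeff (3 * j + 2)) := car_co_coeff 2 w j

theorem car_add (a b : k[X]) : car (a + b) = car a + car b := by
  ext j; simp [car_coeff_eq]

theorem car_sub (a b : k[X]) : car (a - b) = car a - car b := by
  ext j; simp [car_coeff_eq]

theorem car_neg (a : k[X]) : car (-a) = -car a := by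
  ext j; simp [car_coeff_eq]

theorem car_zero : car (0 : k[X]) = 0 := by
  ext j; simp [car_coeff_eq]

theorem coeff_car (w : k[X]) (j : ℕ) : (car w).coeff j ^ 3 = w.coeff (3 * j + 2) := by
  rw [car_coeff_eq]
  exact (frobeniusEquiv k 3).apply_symm_apply _

theorem car_three_inj {a b : k} (h : a ^ 3 = b ^ 3) : a = b :=
  (frobeniusEquiv k 3).injective h

theorem car_three_inj' {a b : k[X]} (h : a ^ 3 = b ^ 3) : a = b := by
  have : (a - b) ^ 3 = 0 := by rw [sub_pow_char, h, sub_self]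
  exact sub_eq_zero.mp (pow_eq_zero_iff (by norm_num) |>.mp this)

theorem car_three_eq_zero : (3 : k[X]) = 0 := by exact_mod_cast CharP.cast_eq_zero k[X] 3

theorem car_coeff_pow_three (a : k[X]) (n : ℕ) :
    (a ^ 3).coeff n = if 3 ∣ n then a.coeff (n / 3) ^ 3 else 0 := by
  rw [← map_frobenius_expand 3 a, coeff_map, coeff_expand (by norm_num)]
  split_ifs
  · rfl
  · simp

theorem car_pow_three (w : k[X]) : car w ^ 3 = - derivative^[2] w := by
  ext n
  rw [car_coeff_pow_three, coeff_neg, coeff_iterate_derivative]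
  have h3 : ((3 : ℕ) : k) = 0 := CharP.cast_eq_zero k 3
  have hd : (n + 2).descFactorial 2 = (n + 1) * (n + 2) := by
    simp [Nat.descFactorial_succ]
  rw [hd, nsmul_eq_mul]
  split_ifs with h
  · obtain ⟨j, rfl⟩ := h
    rw [Nat.mul_div_cancel_left _ (by norm_num), coeff_car]
    have : (((3 * j + 1) * (3 * j + 2) : ℕ) : k) = -1 := by
      have h3' : (3 : k) = 0 := by exact_mod_cast h3
      push_cast
      rw [h3']
      linear_combination h3'
    rw [this]; ring
  · have : 3 ∣ (n + 1) * (n + 2) := by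
      have : n % 3 = 1 ∨ n % 3 = 2 := by omega
      rcases this with h | h
      · exact Dvd.dvd.mul_left (by omega) _
      · exact (show 3 ∣ n + 1 by omega).mul_right _
    rw [(CharP.cast_eq_zero_iff k 3 _).mpr this]; simp

theorem car_der_pow (a : k[X]) : derivative (a ^ 3) = 0 := by
  have h3 : ((3 : ℕ) : k) = 0 := CharP.cast_eq_zero k 3
  rw [derivative_pow, h3]; simp

theorem car_der_pow_mul (a w : k[X]) : derivative (a ^ 3 * w) = a ^ 3 * derivative w := by
  rw [derivative_mul, car_der_pow]; simp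

theorem car_pow_mul (a w : k[X]) : car (a ^ 3 * w) = a * car w := by
  apply car_three_inj'
  rw [mul_pow, car_pow_three, car_pow_three]
  simp only [Function.iterate_succ, Function.comp, Function.iterate_zero, id, car_der_pow_mul]
  ring

theorem coeff_Phi (a0 a1 a2 : k[X]) (n : ℕ) : (Phi a0 a1 a2).coeff n =
    if n % 3 = 0 then a0.coeff (n / 3) ^ 3 else if n % 3 = 1 then a1.coeff (n / 3) ^ 3
      else a2.coeff (n / 3) ^ 3 := by
  have key : ∀ (a : k[X]) (i : ℕ), i ≤ 2 → (X ^ i * a ^ 3).coeff n =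
      if n % 3 = i then a.coeff (n / 3) ^ 3 else 0 := by
    intro a i hi
    rw [coeff_X_pow_mul', car_coeff_pow_three]
    by_cases h : n % 3 = i
    · rw [if_pos (by omega), if_pos (by omega), if_pos h]
      congr 2; omega
    · rw [if_neg h]
      split_ifs with h1 h2
      · exfalso; omega
      · rfl
      · rfl
  have k0 := key a0 0 (by norm_num)
  have k1 := key a1 1 (by norm_num)
  have k2 := key a2 2 (by norm_num)
  simp only [pow_zero, one_mul, pow_one] at k0 k1
  simp only [Phi, coeff_add, k0, k1, k2]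
  have : n % 3 = 0 ∨ n % 3 = 1 ∨ n % 3 = 2 := by omega
  rcases this with h | h | h <;> simp [h]

theorem car_Phi (a0 a1 a2 : k[X]) : car (Phi a0 a1 a2) = a2 := by
  ext j
  apply car_three_inj
  rw [coeff_car, coeff_Phi, if_neg (by omega), if_neg (by omega)]
  congr 2; omega

theorem X_mul_Phi (a0 a1 a2 : k[X]) : X * Phi a0 a1 a2 = Phi (X * a2) a0 a1 := by
  unfold Phi; ring

theorem car_X_Phi (a0 a1 a2 : k[X]) : car (X * Phi a0 a1 a2) = a1 := by
  rw [X_mul_Phi, car_Phi]

theorem car_X2_Phi (a0 a1 a2 : k[X]) : car (X ^ 2 * Phi a0 a1 a2) = a0 := by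
  rw [sq, mul_assoc, X_mul_Phi, X_mul_Phi, car_Phi]

theorem co0_Phi (a0 a1 a2 : k[X]) : co 0 (Phi a0 a1 a2) = a0 := by
  ext j
  apply car_three_inj
  rw [coeff_co, coeff_Phi, if_pos (by omega)]
  congr 2; omega

theorem co1_Phi (a0 a1 a2 : k[X]) : co 1 (Phi a0 a1 a2) = a1 := by
  ext j
  apply car_three_inj
  rw [coeff_co, coeff_Phi, if_neg (by omega), if_pos (by omega)]
  congr 2; omega

theorem co2_Phi (a0 a1 a2 : k[X]) : co 2 (Phi a0 a1 a2) = a2 := car_Phi a0 a1 a2

theorem Phi_co (w : k[X]) : Phi (co 0 w) (co 1 w) (co 2 w) = w := by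
  ext n
  rw [coeff_Phi, coeff_co, coeff_co, coeff_co]
  split_ifs with h0 h1 <;> (congr 1; omega)

theorem Phi_car (w : k[X]) : Phi (car (X ^ 2 * w)) (car (X * w)) (car w) = w := by
  ext n
  rw [coeff_Phi, coeff_car, coeff_car, coeff_car]
  split_ifs with h0 h1
  · rw [coeff_X_pow_mul]; congr 1; omega
  · rw [show 3 * (n / 3) + 2 = (3 * (n / 3) + 1) + 1 from rfl, coeff_X_mul]; congr 1; omega
  · congr 1; omega

theorem exists_Phi (w : k[X]) : ∃ a0 a1 a2 : k[X], w = Phi a0 a1 a2 :=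
  ⟨_, _, _, (Phi_car w).symm⟩

theorem Phi_inj {a0 a1 a2 b0 b1 b2 : k[X]} (h : Phi a0 a1 a2 = Phi b0 b1 b2) :
    a0 = b0 ∧ a1 = b1 ∧ a2 = b2 := by
  refine ⟨?_, ?_, ?_⟩
  · rw [← car_X2_Phi a0 a1 a2, h, car_X2_Phi]
  · rw [← car_X_Phi a0 a1 a2, h, car_X_Phi]
  · rw [← car_Phi a0 a1 a2, h, car_Phi]

theorem Phi_zero : Phi (0 : k[X]) 0 0 = 0 := by simp [Phi]

theorem Phi_eq_zero {a0 a1 a2 : k[X]} : Phi a0 a1 a2 = 0 ↔ a0 = 0 ∧ a1 = 0 ∧ a2 = 0 :=
  ⟨fun h => Phi_inj (h.trans Phi_zero.symm), fun h => by rw [h.1, h.2.1, h.2.2, Phi_zero]⟩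

theorem Phi_add (a0 a1 a2 b0 b1 b2 : k[X]) :
    Phi (a0 + b0) (a1 + b1) (a2 + b2) = Phi a0 a1 a2 + Phi b0 b1 b2 := by
  simp only [Phi, add_pow_char]; ring

theorem Phi_sub (a0 a1 a2 b0 b1 b2 : k[X]) :
    Phi (a0 - b0) (a1 - b1) (a2 - b2) = Phi a0 a1 a2 - Phi b0 b1 b2 := by
  simp only [Phi, sub_pow_char]; ring

theorem Phi_mul (t a0 a1 a2 : k[X]) :
    Phi (t * a0) (t * a1) (t * a2) = t ^ 3 * Phi a0 a1 a2 := by
  simp only [Phi]; ring

theorem co_pow_mul {j : ℕ} (hj : j < 3) (a w : k[X]) : co j (a ^ 3 * w) = a * co j w := by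
  obtain ⟨b0, b1, b2, rfl⟩ := exists_Phi w
  rw [← Phi_mul]
  interval_cases j
  · rw [co0_Phi, co0_Phi]
  · rw [co1_Phi, co1_Phi]
  · rw [co2_Phi, co2_Phi]

theorem car_Phi_prod (a0 a1 a2 b0 b1 b2 : k[X]) : Phi a0 a1 a2 * Phi b0 b1 b2 =
    Phi (a0 * b0 + X * (a1 * b2 + a2 * b1)) (a0 * b1 + a1 * b0 + X * (a2 * b2))
      (a0 * b2 + a1 * b1 + a2 * b0) := by
  simp only [Phi, add_pow_char, mul_pow]; ring

/-- (C1) -/
theorem car_Phi_mul (a0 a1 a2 F0 F1 F2 : k[X]) :
    car (Phi a0 a1 a2 * Phi F0 F1 F2) = a0 * F2 + a1 * F1 + a2 * F0 := by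
  rw [car_Phi_prod, car_Phi]

theorem cube_dvd_Phi {t a0 a1 a2 : k[X]} :
    t ^ 3 ∣ Phi a0 a1 a2 ↔ t ∣ a0 ∧ t ∣ a1 ∧ t ∣ a2 := by
  constructor
  · rintro ⟨w, hw⟩
    obtain ⟨b0, b1, b2, rfl⟩ := exists_Phi w
    rw [← Phi_mul] at hw
    obtain ⟨h0, h1, h2⟩ := Phi_inj hw
    exact ⟨⟨_, h0⟩, ⟨_, h1⟩, ⟨_, h2⟩⟩
  · rintro ⟨⟨b0, rfl⟩, ⟨b1, rfl⟩, ⟨b2, rfl⟩⟩
    exact ⟨_, Phi_mul _ _ _ _⟩

theorem degree_Phi_lt {a0 a1 a2 : k[X]} {N : ℕ} :
    (Phi a0 a1 a2).degree < N ↔
      a0.degree < ((N + 2) / 3 : ℕ) ∧ a1.degree < ((N + 1) / 3 : ℕ) ∧ a2.degree < (N / 3 : ℕ) := by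
  simp only [degree_lt_iff_coeff_zero]
  constructor
  · intro h
    refine ⟨fun j hj => ?_, fun j hj => ?_, fun j hj => ?_⟩
    · have := h (3 * j) (by omega)
      rw [coeff_Phi, if_pos (by omega), show 3 * j / 3 = j by omega] at this
      exact pow_eq_zero_iff (by norm_num) |>.mp this
    · have := h (3 * j + 1) (by omega)
      rw [coeff_Phi, if_neg (by omega), if_pos (by omega), show (3 * j + 1) / 3 = j by omega] at this
      exact pow_eq_zero_iff (by norm_num) |>.mp this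
    · have := h (3 * j + 2) (by omega)
      rw [coeff_Phi, if_neg (by omega), if_neg (by omega), show (3 * j + 2) / 3 = j by omega] at this
      exact pow_eq_zero_iff (by norm_num) |>.mp this
  · rintro ⟨h0, h1, h2⟩ n hn
    rw [coeff_Phi]
    split_ifs with e0 e1
    · rw [h0 _ (by omega)]; simp
    · rw [h1 _ (by omega)]; simp
    · rw [h2 _ (by omega)]; simp

theorem Phi_mem_box {a0 a1 a2 : k[X]} {N : ℕ} :
    Phi a0 a1 a2 ∈ box k N ↔
      a0 ∈ box k ((N + 2) / 3) ∧ a1 ∈ box k ((N + 1) / 3) ∧ a2 ∈ box k (N / 3) := by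
  simp only [mem_box, degree_Phi_lt]

theorem sum_box_Phi {M : Type*} [AddCommMonoid M] (N : ℕ) (F : k[X] → M) :
    ∑ g ∈ box k N, F g = ∑ a0 ∈ box k ((N + 2) / 3), ∑ a1 ∈ box k ((N + 1) / 3),
      ∑ a2 ∈ box k (N / 3), F (Phi a0 a1 a2) := by
  have h : ∑ g ∈ box k N, F g =
      ∑ z ∈ box k ((N + 2) / 3) ×ˢ (box k ((N + 1) / 3) ×ˢ box k (N / 3)),
        F (Phi z.1 z.2.1 z.2.2) := by
    refine Finset.sum_nbij' (fun g => (co 0 g, co 1 g, co 2 g)) (fun z => Phi z.1 z.2.1 z.2.2)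
      ?_ ?_ ?_ ?_ ?_
    · intro g hg
      rw [← Phi_co g, Phi_mem_box] at hg
      simpa only [Finset.mem_product] using hg
    · intro z hz
      simp only [Finset.mem_product] at hz
      exact Phi_mem_box.mpr hz
    · intro g _; exact Phi_co g
    · intro z _; simp only [co0_Phi, co1_Phi, co2_Phi]
    · intro g _; simp only [Phi_co]
  rw [h, Finset.sum_product]
  refine Finset.sum_congr rfl fun a0 _ => ?_
  rw [Finset.sum_product]

theorem derivative_Phi (a0 a1 a2 : k[X]) :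
    derivative (Phi a0 a1 a2) = a1 ^ 3 - X * a2 ^ 3 := by
  simp only [Phi, derivative_add, derivative_mul, car_der_pow, derivative_X, derivative_X_pow]
  simp only [Nat.cast_ofNat, map_ofNat, Nat.add_one_sub_one, pow_one]
  linear_combination (X * a2 ^ 3) * (car_three_eq_zero (k := k))

theorem wronskian_Phi (a0 a1 a2 b0 b1 b2 : k[X]) :
    wronskian (Phi a0 a1 a2) (Phi b0 b1 b2) =
      Phi (a0 * b1 - a1 * b0) (a2 * b0 - a0 * b2) (a1 * b2 - a2 * b1) := by
  unfold wronskian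
  rw [derivative_Phi, derivative_Phi]
  simp only [Phi, sub_pow_char, mul_pow]
  linear_combination (X ^ 2 * (a2 ^ 3 * b1 ^ 3 - a1 ^ 3 * b2 ^ 3)) * (car_three_eq_zero (k := k))

theorem degree_car_lt {w : k[X]} {N : ℕ} (h : w.degree < (3 * N + 2 : ℕ)) :
    (car w).degree < N := by
  rw [degree_lt_iff_coeff_zero] at h ⊢
  intro m hm
  rw [car_coeff_eq, h _ (by omega)]
  simp

/-- (C*) -/
theorem car_star (p w : k[X]) : p ∣ car (p ^ 2 * w) ^ 3 - derivative p ^ 2 * w := by
  rw [car_pow_three]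
  simp only [Function.iterate_succ, Function.comp, Function.iterate_zero, id, sq, derivative_mul,
    derivative_add]
  refine ⟨-(2 * derivative (derivative p) * w + 4 * derivative p * derivative w +
    p * derivative (derivative w)), ?_⟩
  linear_combination (-(derivative p * derivative p * w)) * (car_three_eq_zero (k := k))

theorem mem_Sol {f : k[X]} (hf : f.Monic) {g : k[X]} : g ∈ Sol f ↔ car (g * f) = g := by
  unfold Sol
  rw [Finset.mem_filter, mem_box]
  refine ⟨fun h => h.2, fun h => ⟨?_, h⟩⟩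
  by_cases hg : g = 0
  · rw [hg]; simp
  rw [← natDegree_lt_iff_degree_lt hg]
  by_contra hcon
  have h1 : (g * f).degree < (3 * g.natDegree + 2 : ℕ) := by
    rw [← natDegree_lt_iff_degree_lt (mul_ne_zero hg hf.ne_zero), natDegree_mul hg hf.ne_zero]
    omega
  have h2 := degree_car_lt h1
  rw [h, degree_eq_natDegree hg] at h2
  exact lt_irrefl _ h2

theorem mem_Sol' {f : k[X]} (hf : f.Monic) {g : k[X]} :
    g ∈ Sol f ↔ derivative^[2] (g * f) + g ^ 3 = 0 := by
  rw [mem_Sol hf]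
  constructor
  · intro h
    have := car_pow_three (g * f)
    rw [h] at this
    rw [this]; ring
  · intro h
    apply car_three_inj'
    rw [car_pow_three]
    linear_combination -h

theorem car_mem_box {n : ℕ} {f g : k[X]} (hf : f.natDegree ≤ n) (hg : g ∈ box k (n / 2)) :
    car (g * f) ∈ box k (n / 2) := by
  rw [mem_box] at hg ⊢
  apply degree_car_lt
  by_cases h0 : g * f = 0
  · rw [h0, degree_zero]; exact WithBot.bot_lt_coe _
  have hg0 : g ≠ 0 := left_ne_zero_of_mul h0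
  rw [← natDegree_lt_iff_degree_lt hg0] at hg
  rw [← natDegree_lt_iff_degree_lt h0]
  have := natDegree_mul_le (p := g) (q := f)
  omega

/-- (S3) -/
theorem card_Sol_sq_le {p f : k[X]} (hp : p.Monic) (hi : Irreducible p) (hf : f.Monic) :
    (Sol (p ^ 2 * f)).card ≤ 3 * (Sol f).card := by
  have hpf : (p ^ 2 * f).Monic := (hp.pow 2).mul hf
  have : Fact (Irreducible p) := ⟨hi⟩
  set c : AdjoinRoot p := AdjoinRoot.mk p (derivative p ^ 2 * f) with hc
  set Q : (AdjoinRoot p)[X] := X ^ 3 - C c * X with hQ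
  have hQd : Q.natDegree = 3 := by rw [hQ]; compute_degree!
  have hQ0 : Q ≠ 0 := by intro h; rw [h] at hQd; simp at hQd
  have him : ((Sol (p ^ 2 * f)).image (AdjoinRoot.mk p)).card ≤ 3 := by
    refine le_trans (Finset.card_le_card (t := Q.roots.toFinset) ?_) ?_
    · intro z hz
      obtain ⟨g, hg, rfl⟩ := Finset.mem_image.mp hz
      rw [mem_Sol hpf] at hg
      rw [Multiset.mem_toFinset, mem_roots hQ0, IsRoot.def, hQ]
      have h1 := car_star p (g * f)
      rw [show p ^ 2 * (g * f) = g * (p ^ 2 * f) by ring, hg] at h1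
      have h2 := AdjoinRoot.mk_eq_zero.mpr h1
      simp only [eval_sub, eval_pow, eval_X, eval_mul, eval_C, hc]
      simp only [map_sub, map_mul, map_pow] at h2 ⊢
      linear_combination h2
    · exact (Multiset.toFinset_card_le _).trans ((card_roots' Q).trans hQd.le)
  have hfib : ∀ z ∈ (Sol (p ^ 2 * f)).image (AdjoinRoot.mk p),
      ((Sol (p ^ 2 * f)).filter (fun g => AdjoinRoot.mk p g = z)).card ≤ (Sol f).card := by
    intro z hz
    obtain ⟨g0, hg0, rfl⟩ := Finset.mem_image.mp hz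
    have hsub : (Sol (p ^ 2 * f)).filter (fun g => AdjoinRoot.mk p g = AdjoinRoot.mk p g0) ⊆
        (Sol f).image (fun t => g0 + p * t) := by
      intro g hg
      obtain ⟨hg, hgg⟩ := Finset.mem_filter.mp hg
      obtain ⟨t, ht⟩ := AdjoinRoot.mk_eq_mk.mp hgg
      refine Finset.mem_image.mpr ⟨t, ?_, by linear_combination -ht⟩
      rw [mem_Sol hpf] at hg hg0
      rw [mem_Sol hf]
      have e : car ((g - g0) * (p ^ 2 * f)) = g - g0 := by rw [sub_mul, car_sub, hg, hg0]
      rw [ht, show p * t * (p ^ 2 * f) = p ^ 3 * (t * f) by ring, car_pow_mul] at e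
      exact mul_left_cancel₀ hp.ne_zero e
    exact (Finset.card_le_card hsub).trans Finset.card_image_le
  calc (Sol (p ^ 2 * f)).card
      ≤ (Sol f).card * ((Sol (p ^ 2 * f)).image (AdjoinRoot.mk p)).card :=
        Finset.card_le_mul_card_image _ _ hfib
    _ ≤ 3 * (Sol f).card := by rw [mul_comm]; exact Nat.mul_le_mul_right _ him

/-- cubing is onto modulo a squarefree polynomial -/
theorem exists_cube_mod {D : k[X]} (hD : Squarefree D) (y : k[X]) : ∃ z : k[X], D ∣ z ^ 3 - y := by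
  have hD0 : D ≠ 0 := hD.ne_zero
  have hm : (D * C (leadingCoeff D)⁻¹).Monic := monic_mul_leadingCoeff_inv hD0
  set E : k[X] := D * C (leadingCoeff D)⁻¹ with hE
  have hDE : D ∣ E := Dvd.intro _ rfl
  have hED : E ∣ D := ⟨C (leadingCoeff D), by
    rw [hE, mul_assoc, ← C_mul, inv_mul_cancel₀ (leadingCoeff_ne_zero.mpr hD0), C_1, mul_one]⟩
  let φ : k[X] → k[X] := fun z => (z ^ 3) %ₘ E
  have hmap : ∀ z : k[X], z %ₘ E ∈ box k E.natDegree := by
    intro z
    rw [mem_box, ← degree_eq_natDegree hm.ne_zero]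
    exact degree_modByMonic_lt _ hm
  have hinj : Set.InjOn φ (box k E.natDegree : Set k[X]) := by
    intro a ha b hb hab
    have h1 : E ∣ a ^ 3 - b ^ 3 := (modByMonic_eq_zero_iff_dvd hm).mp (by
      rw [sub_modByMonic]; exact sub_eq_zero.mpr hab)
    rw [← sub_pow_char] at h1
    have h2 : E ∣ a - b := hED.trans ((hD.dvd_pow_iff_dvd (by norm_num)).mp (hDE.trans h1))
    rw [Finset.mem_coe, mem_box] at ha hb
    refine sub_eq_zero.mp (eq_zero_of_dvd_of_degree_lt h2 ?_)
    rw [degree_eq_natDegree hm.ne_zero]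
    exact lt_of_le_of_lt (degree_sub_le _ _) (max_lt ha hb)
  have hsurj := Finset.surjOn_of_injOn_of_card_le (s := box k E.natDegree) (t := box k E.natDegree)
    φ (fun z _ => hmap _) hinj le_rfl
  obtain ⟨z, -, hz⟩ := hsurj (hmap y)
  refine ⟨z, hDE.trans ((modByMonic_eq_zero_iff_dvd hm).mp ?_)⟩
  rw [sub_modByMonic]
  exact sub_eq_zero.mpr hz

/-- (DEP), first part -/
theorem dep_of_wr {f g h : k[X]} (hg : car (g * f) = g) (hh : car (h * f) = h) (hW : wronskian g h = 0) :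
    g = 0 ∨ h = 0 ∨ g = h ∨ g = -h := by
  obtain ⟨a0, a1, a2, ha⟩ := exists_Phi g
  obtain ⟨b0, b1, b2, hb⟩ := exists_Phi h
  obtain ⟨f0, f1, f2, hf⟩ := exists_Phi f
  have eg : g = a0 * f2 + a1 * f1 + a2 * f0 := by rw [← car_Phi_mul, ← ha, ← hf, hg]
  have eh : h = b0 * f2 + b1 * f1 + b2 * f0 := by rw [← car_Phi_mul, ← hb, ← hf, hh]
  rw [ha, hb, wronskian_Phi, Phi_eq_zero] at hW
  obtain ⟨m0, m1, m2⟩ := hW
  have e0 : g * b0 = h * a0 := by rw [eg, eh]; linear_combination -f1 * m0 + f0 * m1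
  have e1 : g * b1 = h * a1 := by rw [eg, eh]; linear_combination f2 * m0 - f0 * m2
  have e2 : g * b2 = h * a2 := by rw [eg, eh]; linear_combination -f2 * m1 + f1 * m2
  have e : g ^ 3 * h = h ^ 3 * g := by
    have h1 := Phi_mul g b0 b1 b2
    have h2 := Phi_mul h a0 a1 a2
    rw [← hb] at h1
    rw [← ha] at h2
    rw [← h1, ← h2, e0, e1, e2]
  have e' : g * (h * ((g - h) * (g + h))) = 0 := by linear_combination e
  simp only [mul_eq_zero] at e'
  rcases e' with h1 | h1 | h1 | h1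
  · exact Or.inl h1
  · exact Or.inr (Or.inl h1)
  · exact Or.inr (Or.inr (Or.inl (sub_eq_zero.mp h1)))
  · exact Or.inr (Or.inr (Or.inr (eq_neg_of_add_eq_zero_left h1)))

theorem car_ne_neg {g : k[X]} (hg : g ≠ 0) : g ≠ -g := by
  intro h
  apply hg
  linear_combination -h + g * (car_three_eq_zero (k := k))

/-- (DEP) -/
theorem card_Sol_sq {f : k[X]} (hf : f.Monic) :
    (Sol f).card ^ 2 + 3 = II f + 4 * (Sol f).card := by
  unfold II
  have h0 : (0 : k[X]) ∈ Sol f := by rw [mem_Sol hf, zero_mul, car_zero]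
  have h1 := Finset.card_filter_add_card_filter_not (s := Sol f ×ˢ Sol f)
    (fun z : k[X] × k[X] => wronskian z.1 z.2 = 0)
  rw [Finset.card_product] at h1
  have h2 : ((Sol f ×ˢ Sol f).filter (fun z : k[X] × k[X] => wronskian z.1 z.2 = 0)).card =
      ∑ g ∈ Sol f, ((Sol f).filter (fun h => wronskian g h = 0)).card := by
    simp only [Finset.card_filter]
    rw [Finset.sum_product]
  have h3 : ((Sol f).filter (fun h => wronskian (0 : k[X]) h = 0)).card = (Sol f).card := by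
    rw [Finset.filter_true_of_mem]
    intro h _; simp [wronskian]
  have h4 : ∀ g ∈ (Sol f).erase 0, ((Sol f).filter (fun h => wronskian g h = 0)).card = 3 := by
    intro g hg
    obtain ⟨hg0, hg⟩ := Finset.mem_erase.mp hg
    rw [mem_Sol hf] at hg
    have e : (Sol f).filter (fun h => wronskian g h = 0) = {0, g, -g} := by
      ext h
      simp only [Finset.mem_filter, Finset.mem_insert, Finset.mem_singleton, mem_Sol hf]
      constructor
      · rintro ⟨hh, hW⟩
        rcases dep_of_wr hg hh hW with e | e | e | e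
        · exact absurd e hg0
        · exact Or.inl e
        · exact Or.inr (Or.inl e.symm)
        · exact Or.inr (Or.inr (by rw [e, neg_neg]))
      · rintro (rfl | rfl | rfl)
        · exact ⟨by rw [zero_mul, car_zero], by simp [wronskian]⟩
        · exact ⟨hg, by unfold wronskian; ring⟩
        · exact ⟨by rw [neg_mul, car_neg, hg], by unfold wronskian; rw [derivative_neg]; ring⟩
    rw [e, Finset.card_eq_three]
    exact ⟨0, g, -g, hg0.symm, (neg_ne_zero.mpr hg0).symm, car_ne_neg hg0, rfl⟩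
  rw [← Finset.add_sum_erase _ _ h0, h3, Finset.sum_congr rfl h4, Finset.sum_const, smul_eq_mul,
    Finset.card_erase_of_mem h0] at h2
  have h5 : 0 < (Sol f).card := Finset.card_pos.mpr ⟨0, h0⟩
  rw [sq, ← h1, h2]
  simp only [ne_eq]
  omega

end CL3

end
end

-- part H86M.Chr
section

/-! h86m: the characters psi and ee (row CHR). -/

set_option autoImplicit false
open Polynomial Finset UniqueFactorizationMonoid Filter Topology CL5
open scoped Classical

noncomputable section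
namespace CL3

variable {k : Type*} [Field k] [Fintype k]

theorem psi_add (a b : k) : psi (a + b) = psi a * psi b := AddChar.map_add_eq_mul _ _ _

theorem psi_zero : psi (0 : k) = 1 := AddChar.map_zero_eq_one _

theorem norm_psi (a : k) : ‖psi a‖ = 1 := AddChar.norm_apply _ _

theorem psi_neg (a : k) : psi (-a) = (starRingEnd ℂ) (psi a) := AddChar.map_neg_eq_conj _ _

theorem sum_psi_mul {a : k} (ha : a ≠ 0) : ∑ c : k, psi (a * c) = 0 := by
  have h := AddChar.sum_eq_zero_of_ne_one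
    (AddChar.FiniteField.primitiveChar_to_Complex_isPrimitive k ha)
  rw [← h]
  exact Finset.sum_congr rfl fun c _ => (AddChar.mulShift_apply).symm

theorem norm_ee (a M : k[X]) : ‖ee a M‖ = 1 := norm_psi _

theorem ee_add (a b M : k[X]) : ee (a + b) M = ee a M * ee b M := by
  unfold ee; rw [add_modByMonic, coeff_add, psi_add]

theorem ee_neg (a M : k[X]) : ee (-a) M = (starRingEnd ℂ) (ee a M) := by
  unfold ee; rw [neg_modByMonic, coeff_neg, psi_neg]

theorem ee_zero (M : k[X]) : ee (0 : k[X]) M = 1 := by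
  unfold ee; rw [zero_modByMonic, coeff_zero, psi_zero]

theorem ee_congr {a b M : k[X]} (hM : M.Monic) (h : M ∣ a - b) : ee a M = ee b M := by
  unfold ee; rw [modByMonic_eq_of_dvd_sub hM h]

theorem ee_of_degree_lt {a M : k[X]} (hM : M.Monic) (h : a.degree + 1 < M.natDegree) :
    ee a M = 1 := by
  by_cases ha : a = 0
  · rw [ha, ee_zero]
  rw [degree_eq_natDegree ha] at h
  have h' : a.natDegree + 1 < M.natDegree := by exact_mod_cast h
  unfold ee
  rw [(modByMonic_eq_self_iff hM).2 (degree_lt_degree (by omega)),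
    coeff_eq_zero_of_natDegree_lt (by omega), psi_zero]

theorem ee_mul_right {a M M' : k[X]} (hM : M.Monic) (hM' : M'.Monic) (h : 1 ≤ M.natDegree) :
    ee (a * M') (M * M') = ee a M := by
  have hMM := hM.mul hM'
  have hlt := degree_modByMonic_lt a hM
  have h1 : (a * M') %ₘ (M * M') = (a %ₘ M) * M' := by
    refine (div_modByMonic_unique (a /ₘ M) _ hMM ⟨?_, ?_⟩).2
    · have := modByMonic_add_div a M
      linear_combination M' * this
    · rw [degree_mul, degree_mul]
      exact WithBot.add_lt_add_right (degree_ne_bot.2 hM'.ne_zero) hlt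
  unfold ee
  rw [h1, hM.natDegree_mul hM']
  congr 1
  have hle : (a %ₘ M).natDegree ≤ M.natDegree - 1 := by
    by_cases h0 : a %ₘ M = 0
    · rw [h0]; simp
    · have := natDegree_lt_natDegree h0 hlt
      omega
  have e : M.natDegree + M'.natDegree - 1 = (M.natDegree - 1) + M'.natDegree := by omega
  rw [e, coeff_mul_add_eq_of_natDegree_le hle le_rfl, hM'.coeff_natDegree, mul_one]

/-- (e2) -/
theorem sum_ee_box {M : k[X]} (hM : M.Monic) {N : ℕ} (hN : N ≤ M.natDegree) (a : k[X]) :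
    ∑ v ∈ box k N, ee (a * v) M =
      if (a %ₘ M).degree < (M.natDegree - N : ℕ) then ((qq k ^ N : ℝ) : ℂ) else 0 := by
  have hb : ∀ v, ee (a * v) M = ee ((a %ₘ M) * v) M := fun v =>
    ee_congr hM ⟨(a /ₘ M) * v, by
      have := modByMonic_add_div a M
      linear_combination (-v) * this⟩
  simp only [hb]
  have hlt := degree_modByMonic_lt a hM
  generalize a %ₘ M = b at hlt ⊢
  split_ifs with hc
  · rw [Finset.sum_congr rfl (g := fun _ => (1 : ℂ))]
    · rw [Finset.sum_const, nsmul_eq_mul, mul_one, ← card_box (k := k) N]; simp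
    · intro v hv
      rw [mem_box] at hv
      by_cases hb0 : b = 0
      · rw [hb0, zero_mul, ee_zero]
      by_cases hv0 : v = 0
      · rw [hv0, mul_zero, ee_zero]
      apply ee_of_degree_lt hM
      have h1 := (natDegree_lt_iff_degree_lt hb0).2 hc
      have h2 := (natDegree_lt_iff_degree_lt hv0).2 hv
      rw [degree_eq_natDegree (mul_ne_zero hb0 hv0), natDegree_mul hb0 hv0]
      have : b.natDegree + v.natDegree + 1 < M.natDegree := by omega
      exact_mod_cast this
  · have hb0 : b ≠ 0 := by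
      rintro rfl
      exact hc (by rw [degree_zero]; exact WithBot.bot_lt_coe _)
    have h1 : M.natDegree - N ≤ b.natDegree := by
      by_contra h
      exact hc ((natDegree_lt_iff_degree_lt hb0).1 (by omega))
    have h2 := natDegree_lt_natDegree hb0 hlt
    obtain ⟨c, hc1⟩ : ∃ c : k, psi (b.leadingCoeff * c) ≠ 1 := by
      by_contra h
      push Not at h
      have := sum_psi_mul (leadingCoeff_ne_zero.2 hb0)
      simp only [h, Finset.sum_const, nsmul_eq_mul, mul_one, Finset.card_univ] at this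
      exact Fintype.card_ne_zero (by exact_mod_cast this)
    set j := M.natDegree - 1 - b.natDegree with hj
    have hv0 : (monomial j c : k[X]).degree < N :=
      (degree_monomial_le j c).trans_lt (by exact_mod_cast (by omega : j < N))
    have he : ee (b * monomial j c) M = psi (b.leadingCoeff * c) := by
      unfold ee
      have hd : (b * monomial j c).natDegree ≤ b.natDegree + j :=
        natDegree_mul_le.trans (by have := natDegree_monomial_le (m := j) c; omega)
      have hd' : (b * monomial j c).degree < M.degree := degree_lt_degree (by omega)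
      rw [(modByMonic_eq_self_iff hM).2 hd']
      have e : M.natDegree - 1 = b.natDegree + j := by omega
      rw [e, coeff_mul_monomial, coeff_natDegree]
    have hs : ∑ v ∈ box k N, ee (b * v) M = ∑ v ∈ box k N, ee (b * (v + monomial j c)) M := by
      symm
      refine Finset.sum_bij' (fun v _ => v + monomial j c) (fun v _ => v - monomial j c)
        ?_ ?_ ?_ ?_ ?_
      · intro v hv
        rw [mem_box] at hv ⊢
        exact (degree_add_le _ _).trans_lt (max_lt hv hv0)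
      · intro v hv
        rw [mem_box] at hv ⊢
        exact (degree_sub_le _ _).trans_lt (max_lt hv hv0)
      · intro v _; simp
      · intro v _; simp
      · intro v _; rfl
    simp only [mul_add, ee_add, he, ← Finset.sum_mul] at hs
    have : (∑ v ∈ box k N, ee (b * v) M) * (1 - psi (b.leadingCoeff * c)) = 0 := by
      linear_combination hs
    rcases mul_eq_zero.1 this with h | h
    · exact h
    · exact absurd (sub_eq_zero.1 h).symm hc1

/-- orthogonality modulo `M` -/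
theorem sum_ee_full {M : k[X]} (hM : M.Monic) (a : k[X]) :
    ∑ v ∈ box k M.natDegree, ee (a * v) M = if M ∣ a then ((nrm M : ℝ) : ℂ) else 0 := by
  rw [sum_ee_box hM le_rfl, Nat.sub_self]
  have : (a %ₘ M).degree < ((0 : ℕ) : WithBot ℕ) ↔ M ∣ a := by
    rw [← modByMonic_eq_zero_iff_dvd hM, ← degree_eq_bot]
    exact Nat.WithBot.lt_zero_iff
  simp only [this]
  rfl

/-- splitting of the modulus -/
theorem ee_split {r1 r2 c1 c2 : k[X]} (h1 : r1.Monic) (h2 : r2.Monic) (d1 : 1 ≤ r1.natDegree)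
    (d2 : 1 ≤ r2.natDegree) (hc : c1 * r2 + c2 * r1 = 1) (a : k[X]) :
    ee a (r1 * r2) = ee (c1 * a) r1 * ee (c2 * a) r2 := by
  rw [← ee_mul_right (a := c1 * a) h1 h2 d1, ← ee_mul_right (a := c2 * a) h2 h1 d2,
    mul_comm r2 r1, ← ee_add]
  congr 1
  linear_combination (-a) * hc

end CL3

end
end

-- part H86M.Alg3A
section

/-! Logarithmic derivatives and 3-torsion of the class group of a Dedekind domain of
characteristic 3 with a derivation. -/

set_option autoImplicit false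
open scoped nonZeroDivisors

namespace CL3.Alg

section Der
variable {R : Type*} [CommRing R] {δ : R →+ R}

theorem der_one (hδ : ∀ a b, δ (a * b) = δ a * b + a * δ b) : δ 1 = 0 := by
  have := hδ 1 1
  simp only [mul_one, one_mul] at this
  linear_combination -this

theorem der_pow (hδ : ∀ a b, δ (a * b) = δ a * b + a * δ b) (a : R) (n : ℕ) :
    δ (a ^ (n + 1)) = (n + 1 : R) * a ^ n * δ a := by
  induction n with
  | zero => simp
  | succ n ih => rw [pow_succ, hδ, ih]; push_cast; ring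

theorem der_three (hδ : ∀ a b, δ (a * b) = δ a * b + a * δ b) (h5 : (3 : R) = 0) (a : R) :
    δ (a ^ 3) = 0 := by
  have := der_pow hδ a 2
  rw [this]
  linear_combination (a ^ 2 * δ a) * h5

/-- Jacobson's formula for `p = 3`, direct half. -/
theorem jac_dir {D : R → R} (ha : ∀ a b, D (a + b) = D a + D b)
    (hD : ∀ a b, D (a * b) = D a * b + a * D b) (h5 : (3 : R) = 0) {α w : R}
    (h : D α = w * α) : D (D (D α)) = (w ^ 3 + D (D w)) * α := by
  have e2 : D (D α) = (w * w + D w) * α := by rw [h, hD, h]; ring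
  rw [e2]
  simp only [hD, ha, h]
  linear_combination (α * (w * D w)) * h5

/-- Jacobson's formula for `p = 3`, existence half. -/
theorem jac_ex [Nontrivial R] {D : R → R} (ha : ∀ a b, D (a + b) = D a + D b)
    (hD : ∀ a b, D (a * b) = D a * b + a * D b) (h5 : (3 : R) = 0)
    {w : R} (h : w ^ 3 + D (D w) = 0) : ∃ α : R, α ≠ 0 ∧ D α = w * α := by
  have h1 : D 1 = 0 := by
    have := hD 1 1
    simp only [mul_one, one_mul] at this
    linear_combination -this
  have hs : ∀ a b, D (a - b) = D a - D b := fun a b => by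
    have := ha (a - b) b
    rw [sub_add_cancel] at this
    linear_combination -this
  have h0 : D 0 = 0 := by
    have := hs 0 0
    rwa [sub_self, sub_self] at this
  let T : R → R := fun β => D β - w * β
  have hT : T (T (T 1)) = 0 := by
    simp only [T, hD, hs, h1, h0, mul_one]
    linear_combination (-1 : R) * h + (w * D w) * h5
  by_contra hne
  have key : ∀ β, T β = 0 → β = 0 := fun β hβ => by
    by_contra h0
    exact hne ⟨β, h0, sub_eq_zero.1 hβ⟩
  exact one_ne_zero (key _ (key _ (key _ hT)))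

end Der

section Ded
variable {R : Type*} [CommRing R] [IsDedekindDomain R] {δ : R →+ R}

theorem dvd_of_pow (hδ : ∀ a b, δ (a * b) = δ a * b + a * δ b) (h5 : (3 : R) = 0) {α : R}
    (hα : α ≠ 0) {I : Ideal R} (hI : I ^ 3 = Ideal.span {α}) : α ∣ δ α := by
  by_contra hnd
  have hne : (Ideal.span {α}).colon {δ α} ≠ ⊤ := by
    intro h
    have : (1 : R) ∈ (Ideal.span {α}).colon {δ α} := h ▸ Submodule.mem_top
    rw [Submodule.mem_colon_singleton, one_smul, Ideal.mem_span_singleton] at this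
    exact hnd this
  obtain ⟨P, hP, hle⟩ := Ideal.exists_le_maximal _ hne
  have I0 : I ≠ ⊥ := by
    rintro rfl
    rw [Ideal.bot_pow (by norm_num), eq_comm, Ideal.span_singleton_eq_bot] at hI
    exact hα hI
  have hlt : ¬ I ≤ I * P := by
    intro h
    have h1 : I * P = I * ⊤ := by
      rw [Ideal.mul_top]; exact le_antisymm Ideal.mul_le_left h
    exact hP.ne_top (mul_left_cancel₀ I0 h1)
  obtain ⟨t, htI, htP⟩ := SetLike.not_le_iff_exists.1 hlt
  obtain ⟨J, hJ⟩ : I ∣ Ideal.span {t} := Ideal.dvd_iff_le.2 ((Ideal.span_singleton_le_iff_mem _).2 htI)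
  have h5m : t ^ 3 ∈ Ideal.span {α} := hI ▸ Ideal.pow_mem_pow htI 3
  obtain ⟨s, hs⟩ := Ideal.mem_span_singleton.1 h5m
  have hsP : s ∈ P := by
    apply hle
    rw [Submodule.mem_colon_singleton, smul_eq_mul, Ideal.mem_span_singleton]
    have := der_three hδ h5 t
    rw [hs, hδ] at this
    exact ⟨-δ s, by linear_combination this⟩
  have h1 : I ^ 3 * J ^ 3 = I ^ 3 * Ideal.span {s} := by
    rw [← mul_pow, ← hJ, hI, Ideal.span_singleton_pow, Ideal.span_singleton_mul_span_singleton, hs]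
  have h2 : J ^ 3 ≤ P := by
    rw [mul_left_cancel₀ (pow_ne_zero 3 I0) h1]
    exact (Ideal.span_singleton_le_iff_mem _).2 hsP
  have h3 : J ≤ P := hP.isPrime.le_of_pow_le h2
  apply htP
  rw [← Ideal.span_singleton_le_iff_mem, hJ]
  exact Ideal.mul_mono_right h3

theorem three_dvd [CharP R 3] (hδ : ∀ a b, δ (a * b) = δ a * b + a * δ b) {α u : R}
    (h : δ α = u * α) {P J : Ideal R} (hP : P.IsPrime) (P0 : P ≠ ⊥) {t : R} (ht : t ∈ P)
    (ht' : δ t ∉ P) {e : ℕ} (he : Ideal.span {α} = P ^ e * J) (hJ : ¬ J ≤ P) : 3 ∣ e := by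
  rcases e with _ | e
  · exact dvd_zero _
  obtain ⟨J', hJ'⟩ : P ∣ Ideal.span {t} := Ideal.dvd_iff_le.2 ((Ideal.span_singleton_le_iff_mem _).2 ht)
  have t0 : t ≠ 0 := by rintro rfl; exact ht' (by simp)
  have hJP : ¬ J' ≤ P := by
    intro hle
    have h2 : t ∈ P * P := by
      rw [← Ideal.span_singleton_le_iff_mem, hJ']; exact Ideal.mul_mono_right hle
    apply ht'
    refine Submodule.mul_induction_on h2 (C := fun x => δ x ∈ P) (fun a ha b hb => ?_)
      (fun a b ha hb => ?_)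
    · rw [hδ]; exact P.add_mem (P.mul_mem_left _ hb) (P.mul_mem_right _ ha)
    · rw [map_add]; exact P.add_mem ha hb
  obtain ⟨s0, hs0, hs0P⟩ := SetLike.not_le_iff_exists.1 hJP
  obtain ⟨j, hj, hjP⟩ := SetLike.not_le_iff_exists.1 hJ
  have hsP : s0 ^ (e + 1) ∉ P := fun h => hs0P (hP.mem_of_pow_mem _ h)
  have hmem : s0 ^ (e + 1) * α ∈ Ideal.span {t ^ (e + 1)} := by
    rw [← Ideal.span_singleton_pow, hJ', mul_pow, mul_comm (P ^ (e + 1))]
    refine Ideal.mul_mem_mul (Ideal.pow_mem_pow hs0 _) ?_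
    have : α ∈ P ^ (e + 1) * J := he ▸ Ideal.mem_span_singleton_self α
    exact Ideal.mul_le_left this
  obtain ⟨r, hr⟩ := Ideal.mem_span_singleton.1 hmem
  have hrP : r ∉ P := by
    intro hrP
    have h1 : P ^ (e + 1) * (Ideal.span {s0 ^ (e + 1)} * J) =
        P ^ (e + 1) * (J' ^ (e + 1) * Ideal.span {r}) := by
      rw [← mul_assoc (P ^ (e + 1)) (J' ^ (e + 1)), ← mul_pow, ← hJ', Ideal.span_singleton_pow,
        Ideal.span_singleton_mul_span_singleton, ← hr, ← Ideal.span_singleton_mul_span_singleton, he]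
      ring
    have h2 := mul_left_cancel₀ (pow_ne_zero _ P0) h1
    have h3 : s0 ^ (e + 1) * j ∈ J' ^ (e + 1) * Ideal.span {r} :=
      h2 ▸ Ideal.mul_mem_mul (Ideal.mem_span_singleton_self _) hj
    have h4 : s0 ^ (e + 1) * j ∈ P :=
      ((Ideal.span_singleton_le_iff_mem _).2 hrP) (Ideal.mul_le_right h3)
    exact (hP.mem_or_mem h4).elim hsP hjP
  generalize s0 ^ (e + 1) = s at hr hsP
  have h1 := congrArg δ hr
  rw [hδ, hδ, der_pow hδ, h] at h1
  have h2 : t ^ e * (((e + 1 : ℕ) : R) * (s * δ t * r)) =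
      t ^ e * (t * ((δ s + s * u) * r - s * δ r)) := by
    push_cast
    linear_combination (-s) * h1 + (δ s + s * u) * hr
  have h3 := mul_left_cancel₀ (pow_ne_zero e t0) h2
  have h4 : ((e + 1 : ℕ) : R) * (s * δ t * r) ∈ P := h3 ▸ P.mul_mem_right _ ht
  have h5 : ((e + 1 : ℕ) : R) ∈ P := by
    rcases hP.mem_or_mem h4 with h | h
    · exact h
    · rcases hP.mem_or_mem h with h | h
      · exact ((hP.mem_or_mem h).elim hsP ht').elim
      · exact (hrP h).elim
  by_contra hnd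
  exact hP.ne_top (P.eq_top_of_isUnit_mem h5 ((CharP.isUnit_natCast_iff (by norm_num)).2 hnd))

theorem pow_of_dvd [CharP R 3] (hδ : ∀ a b, δ (a * b) = δ a * b + a * δ b)
    (hP : ∀ P : Ideal R, P.IsPrime → P ≠ ⊥ → ∃ t ∈ P, δ t ∉ P) {α u : R} (hα : α ≠ 0)
    (h : δ α = u * α) : ∃ I : Ideal R, I ^ 3 = Ideal.span {α} := by
  classical
  have h0 : Ideal.span {α} ≠ 0 := by
    rw [Ne, Ideal.zero_eq_bot, Ideal.span_singleton_eq_bot]; exact hα
  have hc : ∀ P ∈ UniqueFactorizationMonoid.normalizedFactors (Ideal.span {α}),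
      3 ∣ (UniqueFactorizationMonoid.normalizedFactors (Ideal.span {α})).count P := by
    intro P hPm
    have hpr : Prime P := UniqueFactorizationMonoid.prime_of_normalized_factor P hPm
    have hP1 : P.IsPrime := Ideal.isPrime_of_prime hpr
    obtain ⟨t, ht, ht'⟩ := hP P hP1 hpr.ne_zero
    obtain ⟨J, hJ1, hJ2⟩ := Ideal.eq_prime_pow_mul_coprime h0 P (hpm := hP1.isMaximal hpr.ne_zero)
    refine three_dvd hδ h hP1 hpr.ne_zero ht ht' hJ2 fun hle => hP1.ne_top ?_
    rw [← hJ1, sup_eq_left.2 hle]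
  obtain ⟨m, hm⟩ := Multiset.exists_smul_of_dvd_count _ hc
  refine ⟨m.prod, ?_⟩
  rw [← Multiset.prod_nsmul, ← hm]
  exact Ideal.prod_normalizedFactors_eq_self h0

/-- The logarithmic derivatives that lie in `R`. -/
def LogD (δ : R →+ R) (hδ : ∀ a b, δ (a * b) = δ a * b + a * δ b) (h5 : (3 : R) = 0) :
    AddSubgroup R where
  carrier := {u | ∃ α : R, α ≠ 0 ∧ δ α = u * α}
  zero_mem' := ⟨1, one_ne_zero, by rw [der_one hδ, zero_mul]⟩
  add_mem' := by
    rintro u v ⟨α, h0, h⟩ ⟨β, h0', h'⟩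
    exact ⟨α * β, mul_ne_zero h0 h0', by rw [hδ, h, h']; ring⟩
  neg_mem' := by
    rintro u ⟨α, h0, h⟩
    refine ⟨α ^ 2, pow_ne_zero _ h0, ?_⟩
    rw [der_pow hδ α 1, h]
    linear_combination (u * α ^ 2) * h5

theorem count [CharP R 3] (hδ : ∀ a b, δ (a * b) = δ a * b + a * δ b)
    (hP : ∀ P : Ideal R, P.IsPrime → P ≠ ⊥ → ∃ t ∈ P, δ t ∉ P)
    (hker : ∀ γ : R, δ γ = 0 → ∃ β, γ = β ^ 3) :
    Nat.card {u : R // ∃ α : R, α ≠ 0 ∧ δ α = u * α} =
      Nat.card {c : ClassGroup R // c ^ 3 = 1} *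
        Nat.card {u : R // ∃ ε : Rˣ, δ ε = u * ε} := by
  have h5 : (3 : R) = 0 := by exact_mod_cast CharP.cast_eq_zero R 3
  let Rel : R → ClassGroup R → Prop := fun u c => ∃ (α : R) (I : (Ideal R)⁰), α ≠ 0 ∧
    δ α = u * α ∧ (I : Ideal R) ^ 3 = Ideal.span {α} ∧ c = ClassGroup.mk0 I
  have rel5 : ∀ u c, Rel u c → c ^ 3 = 1 := by
    rintro u c ⟨α, I, -, -, hI, rfl⟩
    rw [← map_pow, ClassGroup.mk0_eq_one_iff (I ^ 3).2]
    exact ⟨α, by rw [SubmonoidClass.coe_pow, hI]⟩
  have relmul : ∀ u c v d, Rel u c → Rel v d → Rel (u + v) (c * d) := by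
    rintro u c v d ⟨α, I, h0, h1, h2, rfl⟩ ⟨β, J, g0, g1, g2, rfl⟩
    refine ⟨α * β, I * J, mul_ne_zero h0 g0, by rw [hδ, h1, g1]; ring, ?_, (map_mul _ _ _).symm⟩
    rw [Submonoid.coe_mul, mul_pow, h2, g2, Ideal.span_singleton_mul_span_singleton]
  have rel0 : ∀ c, Rel 0 c → c = 1 := by
    rintro c ⟨α, I, h0, h1, h2, rfl⟩
    rw [zero_mul] at h1
    obtain ⟨β, rfl⟩ := hker α h1
    rw [← Ideal.span_singleton_pow] at h2
    have e : (I : Ideal R) = Ideal.span {β} :=
      associated_iff_eq.1 (associated_of_dvd_dvd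
        ((UniqueFactorizationMonoid.pow_dvd_pow_iff_dvd (n := 3) (by norm_num)).1 h2.dvd)
        ((UniqueFactorizationMonoid.pow_dvd_pow_iff_dvd (n := 3) (by norm_num)).1 h2.symm.dvd))
    rw [ClassGroup.mk0_eq_one_iff I.2]
    exact ⟨β, e⟩
  have uniq : ∀ u c d, Rel u c → Rel u d → c = d := by
    intro u c d hc hd
    have h1 := relmul _ _ _ _ hc (relmul _ _ _ _ hd hd)
    have e : u + (u + u) = 0 := by linear_combination u * h5
    rw [e] at h1
    have h2 := rel0 _ h1
    have h3 := rel5 _ _ hd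
    calc c = c * d ^ 3 := by rw [h3, mul_one]
      _ = c * (d * d) * d := by simp only [pow_succ, pow_zero, one_mul, mul_assoc]
      _ = d := by rw [h2, one_mul]
  have ex : ∀ u : LogD δ hδ h5, ∃ c, Rel u c := by
    rintro ⟨u, α, h0, h1⟩
    obtain ⟨I, hI⟩ := pow_of_dvd hδ hP h0 h1
    have I0 : I ∈ (Ideal R)⁰ := by
      rw [mem_nonZeroDivisors_iff_ne_zero]
      rintro rfl
      rw [zero_pow (by norm_num), eq_comm, Ideal.zero_eq_bot, Ideal.span_singleton_eq_bot] at hI
      exact h0 hI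
    exact ⟨_, α, ⟨I, I0⟩, h0, h1, hI, rfl⟩
  choose φ hφ using ex
  let Φ : Multiplicative (LogD δ hδ h5) →* ClassGroup R := MonoidHom.mk'
    (fun u => φ u.toAdd) fun u v => uniq _ _ _ (hφ _) (relmul _ _ _ _ (hφ _) (hφ _))
  have e1 : Nat.card {u : R // ∃ α : R, α ≠ 0 ∧ δ α = u * α} =
      Nat.card (Multiplicative (LogD δ hδ h5)) := rfl
  have e2 : Nat.card {c : ClassGroup R // c ^ 3 = 1} = Nat.card Φ.range := by
    refine Nat.card_congr (Equiv.subtypeEquivRight fun c => ⟨fun hc => ?_, ?_⟩)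
    · obtain ⟨I, rfl⟩ := ClassGroup.mk0_surjective c
      rw [← map_pow, ClassGroup.mk0_eq_one_iff (I ^ 3).2] at hc
      obtain ⟨α, hα⟩ := hc
      have hα' : (I : Ideal R) ^ 3 = Ideal.span {α} := by rw [← SubmonoidClass.coe_pow]; exact hα
      have h0 : α ≠ 0 := by
        rintro rfl
        rw [Ideal.span_singleton_eq_bot.2 rfl] at hα'
        exact pow_ne_zero 3 (nonZeroDivisors.ne_zero I.2) hα'
      obtain ⟨u, hu⟩ := dvd_of_pow hδ h5 h0 hα'
      rw [mul_comm] at hu
      exact ⟨Multiplicative.ofAdd ⟨u, α, h0, hu⟩, 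
        uniq u _ _ (hφ ⟨u, α, h0, hu⟩) ⟨α, I, h0, hu, hα', rfl⟩⟩
    · rintro ⟨u, rfl⟩
      exact rel5 _ _ (hφ _)
  have e3 : Nat.card {u : R // ∃ ε : Rˣ, δ ε = u * ε} = Nat.card Φ.ker := by
    have hu : ∀ (u : R) (ε : Rˣ), δ ε = u * ε → Rel u 1 := fun u ε h =>
      ⟨ε, 1, ε.ne_zero, h, by
        rw [OneMemClass.coe_one, one_pow, Ideal.one_eq_top, Ideal.span_singleton_eq_top.2 ε.isUnit],
        (map_one _).symm⟩
    have hm : ∀ u : {u : R // ∃ ε : Rˣ, δ ε = u * ε}, u.1 ∈ LogD δ hδ h5 := fun u => by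
      obtain ⟨ε, h⟩ := u.2
      exact ⟨ε, ε.ne_zero, h⟩
    refine Nat.card_congr
      { toFun := fun u => ⟨Multiplicative.ofAdd ⟨u.1, hm u⟩, by
          obtain ⟨ε, h⟩ := u.2
          exact uniq u.1 _ _ (hφ ⟨u.1, hm u⟩) (hu _ _ h)⟩
        invFun := fun v => ⟨(v.1.toAdd : R), by
          obtain ⟨α, I, h0, h1, h2, h3⟩ := hφ v.1.toAdd
          have h4 : ClassGroup.mk0 I = 1 := h3.symm.trans v.2
          rw [ClassGroup.mk0_eq_one_iff I.2] at h4
          obtain ⟨β, hβ⟩ := h4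
          have hβ' : (I : Ideal R) = Ideal.span {β} := hβ
          rw [hβ', Ideal.span_singleton_pow, Ideal.span_singleton_eq_span_singleton] at h2
          obtain ⟨ε, hε⟩ := h2
          refine ⟨ε, ?_⟩
          have b0 : β ^ 3 ≠ 0 := by
            intro h; rw [h, zero_mul] at hε; exact h0 hε.symm
          apply mul_left_cancel₀ b0
          rw [← hε, hδ, der_three hδ h5] at h1
          linear_combination h1⟩
        left_inv := fun _ => rfl
        right_inv := fun _ => rfl }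
  rw [e1, e2, e3, ← Subgroup.index_ker, Subgroup.index_mul_card]

end Ded

end CL3.Alg

end

-- part H86M.Alg3B
section

/-! The derivation `y d/dx` on `k[x][y]/(y ^ 2 - f)` in characteristic 3. -/

set_option autoImplicit false
open Polynomial QuadraticAlgebra

noncomputable section
namespace CL3.Alg

variable {k : Type*} [Field k]

/-- the derivation `y d/dx` -/
def del (f : k[X]) : QuadraticAlgebra k[X] f 0 →+ QuadraticAlgebra k[X] f 0 where
  toFun z := ⟨derivative z.im * f + 2 * z.im * derivative f, derivative z.re⟩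
  map_zero' := by ext : 1 <;> simp
  map_add' a b := by
    ext : 1
    · simp only [re_add, im_add, map_add]; ring
    · simp only [re_add, im_add, map_add]

theorem del_re (f : k[X]) (z : QuadraticAlgebra k[X] f 0) :
    (del f z).re = derivative z.im * f + 2 * z.im * derivative f := rfl

theorem del_im (f : k[X]) (z : QuadraticAlgebra k[X] f 0) : (del f z).im = derivative z.re := rfl

/-- the derivation `f ^ 3 d/dx` -/
def dd (f : k[X]) : QuadraticAlgebra k[X] f 0 →+ QuadraticAlgebra k[X] f 0 :=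
  (AddMonoidHom.mulLeft (⟨0, f ^ 2⟩ : QuadraticAlgebra k[X] f 0)).comp (del f)

theorem dd_apply (f : k[X]) (z : QuadraticAlgebra k[X] f 0) :
    dd f z = ⟨0, f ^ 2⟩ * del f z := rfl

variable [CharP k 3]

theorem three_poly : (3 : k[X]) = 0 := by exact_mod_cast CharP.cast_eq_zero k[X] 3

theorem charO (f : k[X]) : CharP (QuadraticAlgebra k[X] f 0) 3 :=
  charP_of_injective_algebraMap (R := k[X]) algebraMap_injective 3

theorem three_O (f : k[X]) : (3 : QuadraticAlgebra k[X] f 0) = 0 := by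
  have := charO f
  exact_mod_cast CharP.cast_eq_zero (QuadraticAlgebra k[X] f 0) 3

theorem del_mul (f : k[X]) (a b : QuadraticAlgebra k[X] f 0) :
    del f (a * b) = del f a * b + a * del f b := by
  ext : 1
  · simp only [del_re, del_im, re_add, re_mul, im_mul, zero_mul, add_zero, map_add, derivative_mul]
    linear_combination (0 : k[X]) * three_poly (k := k)
  · simp only [del_re, del_im, im_add, re_mul, im_mul, zero_mul, add_zero, map_add, derivative_mul]
    linear_combination (-(derivative f * a.im * b.im)) * three_poly (k := k)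

theorem dd_mul (f : k[X]) (a b : QuadraticAlgebra k[X] f 0) :
    dd f (a * b) = dd f a * b + a * dd f b := by
  simp only [dd_apply, del_mul]; ring

theorem der_pow3 (a : k[X]) : derivative (a ^ 3) = 0 := by
  rw [derivative_pow]
  have : (C ((3 : ℕ) : k) : k[X]) = 0 := by rw [CharP.cast_eq_zero k 3, map_zero]
  rw [this, zero_mul, zero_mul]

theorem der_pow3_mul (a b : k[X]) : derivative (a ^ 3 * b) = a ^ 3 * derivative b := by
  rw [derivative_mul, der_pow3, zero_mul, zero_add]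

theorem dd_mk (f A B : k[X]) : dd f ⟨A, B * f⟩ =
    ⟨f ^ 3 * derivative A, f ^ 3 * derivative B * f⟩ := by
  ext : 1
  · simp only [dd_apply, del_re, del_im, re_mul]; ring
  · simp only [dd_apply, del_re, del_im, im_mul, derivative_mul]
    linear_combination (B * f ^ 3 * derivative f) * three_poly (k := k)

theorem dd_two (f A B : k[X]) : dd f (dd f ⟨A, B * f⟩) =
    ⟨f ^ 6 * derivative^[2] A, f ^ 6 * derivative^[2] B * f⟩ := by
  simp only [dd_mk, der_pow3_mul, Function.iterate_succ, Function.iterate_zero, Function.comp_apply,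
    id_eq]
  ext : 1
  · show f ^ 3 * (f ^ 3 * _) = f ^ 6 * _
    ring
  · show f ^ 3 * (f ^ 3 * _) * f = f ^ 6 * _ * f
    ring

theorem der_three_times (A : k[X]) : derivative (derivative^[2] A) = 0 := by
  rw [← Function.iterate_succ_apply' derivative 2 A]
  ext m
  rw [coeff_iterate_derivative, coeff_zero, nsmul_eq_mul]
  have : ((m + 3).descFactorial 3 : k) = 0 :=
    (CharP.cast_eq_zero_iff k 3 _).2
      ((Nat.dvd_factorial (by norm_num) le_rfl).trans (Nat.factorial_dvd_descFactorial _ 3))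
  rw [Nat.succ_eq_add_one, this, zero_mul]

theorem pow3 {f : k[X]} (z : QuadraticAlgebra k[X] f 0) :
    z ^ 3 = ⟨z.re ^ 3, z.im ^ 3 * f⟩ := by
  have e : z ^ 3 = z * z * z := by ring
  rw [e]
  ext : 1
  · simp only [re_mul, im_mul]
    linear_combination (z.re * z.im ^ 2 * f) * three_poly (k := k)
  · simp only [re_mul, im_mul]
    linear_combination (z.re ^ 2 * z.im) * three_poly (k := k)

theorem dd_three {f : k[X]} (hf : f ≠ 0) (z : QuadraticAlgebra k[X] f 0) :
    dd f (dd f (dd f z)) = 0 := by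
  have hc : ∀ z : QuadraticAlgebra k[X] f 0, dd f (algebraMap k[X] _ f ^ 3 * z) =
      algebraMap k[X] _ f ^ 3 * dd f z := fun z => by
    rw [dd_mul, der_three (dd_mul f) (three_O f), zero_mul, zero_add]
  have e : algebraMap k[X] (QuadraticAlgebra k[X] f 0) f ^ 3 * z =
      ⟨f ^ 3 * z.re, (f ^ 2 * z.im) * f⟩ := by
    rw [← map_pow]
    ext : 1
    · simp only [re_mul, algebraMap_re, algebraMap_im]; ring
    · simp only [im_mul, algebraMap_re, algebraMap_im]; ring
  have h1 : algebraMap k[X] (QuadraticAlgebra k[X] f 0) f ^ 3 *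
      dd f (dd f (dd f z)) = 0 := by
    rw [← hc, ← hc, ← hc, e, dd_two, dd_mk]
    have e20 : f ^ 6 = (f ^ 2) ^ 3 := by ring
    rw [e20, der_pow3_mul, der_pow3_mul, der_three_times, der_three_times]
    ext : 1 <;> simp
  rw [← map_pow] at h1
  have h2 := congrArg QuadraticAlgebra.re h1
  have h3 := congrArg QuadraticAlgebra.im h1
  simp only [re_mul, im_mul, algebraMap_re, algebraMap_im, zero_mul, mul_zero, add_zero, re_zero,
    im_zero, mul_eq_zero, pow_eq_zero_iff (show 3 ≠ 0 by norm_num), hf, false_or] at h2 h3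
  ext : 1
  · exact h2
  · exact h3

theorem jac_val {f : k[X]} (u : QuadraticAlgebra k[X] f 0) :
    ((⟨0, f ^ 2⟩ : QuadraticAlgebra k[X] f 0) * u) ^ 3 +
      dd f (dd f (⟨0, f ^ 2⟩ * u)) =
    ⟨f ^ 9 * (u.im ^ 3 + derivative^[2] u.im),
      f ^ 7 * (derivative^[2] (u.re * f) + u.re ^ 3)⟩ := by
  have e : (⟨0, f ^ 2⟩ : QuadraticAlgebra k[X] f 0) * u =
      ⟨f ^ 3 * u.im, (u.re * f) * f⟩ := by
    ext : 1
    · simp only [re_mul]; ring
    · simp only [im_mul]; ring
  have e4 : derivative^[2] (f ^ 3 * u.im) = f ^ 3 * derivative^[2] u.im := by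
    simp only [der_pow3_mul, Function.iterate_succ, Function.iterate_zero, Function.comp_apply,
      id_eq]
  rw [e, dd_two, pow3, e4]
  ext : 1
  · simp only [re_add]; ring
  · simp only [im_add]; ring

omit [CharP k 3] in
theorem eq_zero_of_pow3 {b : k[X]} (h : b ^ 3 + derivative^[2] b = 0) : b = 0 := by
  by_contra hb
  have e : b ^ 3 = -derivative^[2] b := eq_neg_of_add_eq_zero_left h
  have h1 := congrArg natDegree e
  rw [natDegree_pow, natDegree_neg] at h1
  have h2 := natDegree_iterate_derivative b 2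
  have h3 : b.natDegree = 0 := by omega
  rw [iterate_derivative_eq_zero (by omega), neg_zero] at e
  exact hb (pow_eq_zero_iff (by norm_num) |>.1 e)

theorem log_iff {f : k[X]} (hf : f ≠ 0) [IsDomain (QuadraticAlgebra k[X] f 0)]
    (u : QuadraticAlgebra k[X] f 0) : (∃ α, α ≠ 0 ∧ del f α = u * α) ↔
      u.im = 0 ∧ derivative^[2] (u.re * f) + u.re ^ 3 = 0 := by
  have y0 : (⟨0, f ^ 2⟩ : QuadraticAlgebra k[X] f 0) ≠ 0 := fun h =>
    pow_ne_zero 2 hf (congrArg QuadraticAlgebra.im h)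
  constructor
  · rintro ⟨α, h0, h⟩
    have h1 : dd f α = (⟨0, f ^ 2⟩ * u) * α := by rw [dd_apply, h, mul_assoc]
    have h2 := jac_dir (D := ⇑(dd f)) (map_add (dd f)) (dd_mul f) (three_O f) h1
    rw [dd_three hf] at h2
    have h2' := (mul_eq_zero.1 h2.symm).resolve_right h0
    rw [jac_val u] at h2'
    obtain ⟨h3, h4⟩ := (QuadraticAlgebra.mk.injEq _ _ _ _).mp
      (h2'.trans (show (0 : QuadraticAlgebra k[X] f 0) = ⟨0, 0⟩ from rfl))
    exact ⟨eq_zero_of_pow3 ((mul_eq_zero.1 h3).resolve_left (pow_ne_zero _ hf)),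
      (mul_eq_zero.1 h4).resolve_left (pow_ne_zero _ hf)⟩
  · rintro ⟨h1, h2⟩
    obtain ⟨α, h0, h⟩ := jac_ex (D := ⇑(dd f)) (map_add (dd f)) (dd_mul f) (three_O f)
      (w := ⟨0, f ^ 2⟩ * u) (by
      rw [jac_val, h1, h2]
      ext : 1 <;> simp)
    rw [dd_apply, mul_assoc] at h
    exact ⟨α, h0, mul_left_cancel₀ y0 h⟩

variable [Finite k]

theorem root3 {a : k[X]} (h : derivative a = 0) : ∃ b : k[X], a = b ^ 3 := by
  have : Fact (Nat.Prime 3) := ⟨by norm_num⟩
  refine ⟨(contract 3 a).map ((frobeniusEquiv k 3).symm : k →+* k), ?_⟩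
  rw [← map_frobenius_expand (p := 3), map_expand, Polynomial.map_map]
  have e : (frobenius k 3).comp ((frobeniusEquiv k 3).symm : k →+* k) = RingHom.id k := by
    ext x; simp
  rw [e, Polynomial.map_id, expand_contract 3 h (by norm_num)]

theorem ker_del {f : k[X]} (hf : Squarefree f) (γ : QuadraticAlgebra k[X] f 0) (h : del f γ = 0) :
    ∃ β, γ = β ^ 3 := by
  have h1 : derivative γ.im * f + 2 * γ.im * derivative f = 0 := congrArg QuadraticAlgebra.re h
  have h2 : derivative γ.re = 0 := congrArg QuadraticAlgebra.im h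
  obtain ⟨a, ha⟩ := root3 h2
  have h3 : derivative (γ.im * f ^ 2) = 0 := by
    have e : f ^ 2 = f * f := by ring
    rw [e]
    simp only [derivative_mul]
    linear_combination f * h1
  obtain ⟨c, hc⟩ := root3 h3
  obtain ⟨b, rfl⟩ : f ∣ c := (hf.dvd_pow_iff_dvd (n := 3) (by norm_num)).1
    ⟨γ.im * f, by rw [← hc]; ring⟩
  refine ⟨⟨a, b⟩, ?_⟩
  rw [pow3]
  ext : 1
  · exact ha
  · apply mul_right_cancel₀ (pow_ne_zero 2 hf.ne_zero)
    rw [hc]; ring

theorem prime_del {f : k[X]} (hf : Squarefree f) [IsDomain (QuadraticAlgebra k[X] f 0)]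
    (P : Ideal (QuadraticAlgebra k[X] f 0)) (hP : P.IsPrime) (P0 : P ≠ ⊥) :
    ∃ t ∈ P, del f t ∉ P := by
  have key : ∀ a : k[X], a.Separable → algebraMap k[X] _ a ∈ P →
      algebraMap k[X] _ (derivative a) ∈ P → False := by
    rintro a ⟨s, t, hst⟩ h1 h2
    apply hP.ne_top
    rw [Ideal.eq_top_iff_one, ← map_one (algebraMap k[X] _), ← hst, map_add, map_mul, map_mul]
    exact P.add_mem (P.mul_mem_left _ h1) (P.mul_mem_left _ h2)
  by_cases hy : (⟨0, 1⟩ : QuadraticAlgebra k[X] f 0) ∈ P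
  · refine ⟨_, hy, fun h => key f (PerfectField.separable_iff_squarefree.2 hf) ?_ ?_⟩
    · have e : algebraMap k[X] (QuadraticAlgebra k[X] f 0) f = ⟨0, 1⟩ * ⟨0, 1⟩ := by
        ext : 1 <;> simp
      rw [e]; exact P.mul_mem_left _ hy
    · have e : algebraMap k[X] (QuadraticAlgebra k[X] f 0) (derivative f) =
          algebraMap k[X] _ 2 * del f ⟨0, 1⟩ := by
        ext : 1
        · simp only [re_mul, algebraMap_re, algebraMap_im, del_re, del_im, derivative_one]
          linear_combination (-derivative f) * three_poly (k := k)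
        · simp only [im_mul, algebraMap_re, algebraMap_im, del_re, del_im, derivative_zero]
          ring
      rw [e]; exact P.mul_mem_left _ h
  · have hQ : (P.comap (algebraMap k[X] _)).IsPrime := Ideal.IsPrime.comap _
    have hQ0 : P.comap (algebraMap k[X] _) ≠ ⊥ := Ideal.IsIntegral.comap_ne_bot k[X] P0
    obtain ⟨p, hp⟩ := (IsPrincipalIdealRing.principal (P.comap (algebraMap k[X] _))).principal
    have hp' : P.comap (algebraMap k[X] _) = Ideal.span {p} := hp
    have p0 : p ≠ 0 := by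
      rintro rfl
      exact hQ0 (hp'.trans (Ideal.span_singleton_eq_bot.2 rfl))
    have hpr : Prime p := (Ideal.span_singleton_prime p0).1 (hp' ▸ hQ)
    have hm : algebraMap k[X] _ p ∈ P :=
      Ideal.mem_comap.1 (hp' ▸ Ideal.mem_span_singleton_self p)
    refine ⟨_, hm, fun h => key p (PerfectField.separable_of_irreducible hpr.irreducible) hm ?_⟩
    have e : del f (algebraMap k[X] _ p) = algebraMap k[X] _ (derivative p) * ⟨0, 1⟩ := by
      ext : 1 <;> simp [del_re, del_im]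
    rw [e] at h
    exact (hP.mem_or_mem h).resolve_right hy

omit [Finite k] in
theorem card_units_odd {f : k[X]}
    (h : ∀ e : (QuadraticAlgebra k[X] f 0)ˣ, ∃ c : k,
      (e : QuadraticAlgebra k[X] f 0) = algebraMap k[X] _ (C c)) :
    Nat.card {u : QuadraticAlgebra k[X] f 0 //
      ∃ ε : (QuadraticAlgebra k[X] f 0)ˣ, del f ε = u * ε} = 1 := by
  rw [Nat.card_eq_one_iff_exists]
  refine ⟨⟨0, 1, by rw [Units.val_one, der_one (del_mul f), zero_mul]⟩, ?_⟩
  rintro ⟨u, ε, hε⟩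
  obtain ⟨c, hc⟩ := h ε
  have : del f ε = 0 := by rw [hc]; ext : 1 <;> simp [del_re, del_im]
  rw [this, eq_comm, Units.mul_left_eq_zero] at hε
  exact Subtype.ext hε

theorem card_units_even {f : k[X]} (hf : Squarefree f) (hn : 0 < f.natDegree)
    (e0 : (QuadraticAlgebra k[X] f 0)ˣ)
    (h0 : ∀ a : k[X], (e0 : QuadraticAlgebra k[X] f 0) ≠ algebraMap _ _ a)
    (h : ∀ e : (QuadraticAlgebra k[X] f 0)ˣ, ∃ (c : k) (j : ℤ),
      (e : QuadraticAlgebra k[X] f 0) = algebraMap _ _ (C c) *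
        ((e0 ^ j : (QuadraticAlgebra k[X] f 0)ˣ) : QuadraticAlgebra k[X] f 0)) :
    Nat.card {u : QuadraticAlgebra k[X] f 0 //
      ∃ ε : (QuadraticAlgebra k[X] f 0)ˣ, del f ε = u * ε} = 3 := by
  let L : (QuadraticAlgebra k[X] f 0)ˣ →* Multiplicative (QuadraticAlgebra k[X] f 0) :=
    MonoidHom.mk' (fun e => Multiplicative.ofAdd (del f e * (e⁻¹ : (QuadraticAlgebra k[X] f 0)ˣ)))
      fun a b => by
        rw [← ofAdd_add, Units.val_mul, del_mul, mul_inv, Units.val_mul]
        congr 1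
        linear_combination (del f a * (a⁻¹ : (QuadraticAlgebra k[X] f 0)ˣ)) * b.mul_inv +
          (del f b * (b⁻¹ : (QuadraticAlgebra k[X] f 0)ˣ)) * a.mul_inv
  have hL : ∀ e, del f (e : (QuadraticAlgebra k[X] f 0)ˣ) = (L e).toAdd * e := fun e => by
    show _ = del f e * (e⁻¹ : (QuadraticAlgebra k[X] f 0)ˣ) * e
    rw [mul_assoc, Units.inv_mul, mul_one]
  have hall : ∀ e : (QuadraticAlgebra k[X] f 0)ˣ, ∃ j : ℤ,
      del f e = (j • (L e0).toAdd) * e := fun e => by
    obtain ⟨c, j, hc⟩ := h e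
    have hc0 : del f (algebraMap k[X] _ (C c)) = 0 := by ext : 1 <;> simp [del_re, del_im]
    refine ⟨j, ?_⟩
    rw [hc, del_mul, hc0, hL, map_zpow, toAdd_zpow]; ring
  have hne : (L e0).toAdd ≠ 0 := by
    intro hz
    have hdv : ∀ (r : ℕ) (e : (QuadraticAlgebra k[X] f 0)ˣ),
        f ^ r ∣ (e : QuadraticAlgebra k[X] f 0).im := by
      intro r
      induction r with
      | zero => intro e; rw [pow_zero]; exact one_dvd _
      | succ r ih =>
        intro e
        obtain ⟨j, hj⟩ := hall e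
        rw [hz, smul_zero, zero_mul] at hj
        obtain ⟨β, hβ⟩ := ker_del hf _ hj
        obtain ⟨b, rfl⟩ : IsUnit β := (isUnit_pow_iff (n := 3) (by norm_num)).1 (hβ ▸ e.isUnit)
        obtain ⟨t, ht⟩ := ih b
        rw [hβ, pow3]
        exact ⟨t * (b : QuadraticAlgebra k[X] f 0).im ^ 2, by
          show (b : QuadraticAlgebra k[X] f 0).im ^ 3 * f = _
          linear_combination ((b : QuadraticAlgebra k[X] f 0).im ^ 2 * f) * ht⟩
    have him : (e0 : QuadraticAlgebra k[X] f 0).im = 0 := by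
      by_contra hi
      have := natDegree_le_of_dvd (hdv ((e0 : QuadraticAlgebra k[X] f 0).im.natDegree + 1) e0) hi
      rw [natDegree_pow] at this
      nlinarith
    exact h0 (e0 : QuadraticAlgebra k[X] f 0).re (by ext : 1 <;> simp [him])
  have : Fact (Nat.Prime 3) := ⟨by norm_num⟩
  have ho : addOrderOf (L e0).toAdd = 3 := addOrderOf_eq_prime (by
    rw [nsmul_eq_mul]
    have := three_O f
    push_cast
    rw [this, zero_mul]) hne
  rw [← ho, ← Nat.card_zmultiples]
  refine Nat.card_congr (Equiv.subtypeEquivRight fun u => ⟨?_, ?_⟩)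
  · rintro ⟨ε, hε⟩
    obtain ⟨j, hj⟩ := hall ε
    rw [hε, Units.mul_left_inj] at hj
    exact ⟨j, hj.symm⟩
  · rintro ⟨j, rfl⟩
    exact ⟨e0 ^ j, by rw [hL, map_zpow, toAdd_zpow]⟩

theorem card_sol {f : k[X]} (hf : Squarefree f) [IsDedekindDomain (QuadraticAlgebra k[X] f 0)] :
    Nat.card {g : k[X] // derivative^[2] (g * f) + g ^ 3 = 0} =
      Nat.card {c : CommRing.Pic (QuadraticAlgebra k[X] f 0) // c ^ 3 = 1} *
        Nat.card {u : QuadraticAlgebra k[X] f 0 //
          ∃ ε : (QuadraticAlgebra k[X] f 0)ˣ, del f ε = u * ε} := by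
  have := charO f
  have e1 : Nat.card {c : CommRing.Pic (QuadraticAlgebra k[X] f 0) // c ^ 3 = 1} =
      Nat.card {c : ClassGroup (QuadraticAlgebra k[X] f 0) // c ^ 3 = 1} :=
    (Nat.card_congr ((ClassGroup.equivPic _).toEquiv.subtypeEquiv fun c => by
      rw [MulEquiv.toEquiv_eq_coe, MulEquiv.coe_toEquiv, ← map_pow, MulEquiv.map_eq_one_iff])).symm
  rw [e1, ← count (del_mul f) (prime_del hf) (ker_del hf)]
  exact Nat.card_congr
    { toFun := fun g => ⟨⟨g.1, 0⟩, (log_iff hf.ne_zero _).2 ⟨rfl, g.2⟩⟩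
      invFun := fun u => ⟨u.1.re, ((log_iff hf.ne_zero _).1 u.2).2⟩
      left_inv := fun _ => rfl
      right_inv := fun u => Subtype.ext (by
        ext : 1
        · rfl
        · exact ((log_iff hf.ne_zero _).1 u.2).1.symm) }

end CL3.Alg

end
end

-- part H86M.Alg
section

/-! h86m: logarithmic forms and the class group (row ALG). -/

set_option autoImplicit false
open Polynomial Finset
open scoped Classical

noncomputable section
namespace CL3

variable {k : Type*} [Field k] [Fintype k] [CharP k 3]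

theorem card_Sol {f : k[X]} (hf : f.Monic) (hs : Squarefree f) (h1 : 1 ≤ f.natDegree) :
    (Sol f).card = uu f.natDegree *
      Nat.card {c : CommRing.Pic (QuadraticAlgebra k[X] f 0) // c ^ 3 = 1} := by
  have h2 : (2 : k) ≠ 0 := by
    intro h
    have := (CharP.cast_eq_zero_iff k 3 2).1 (by exact_mod_cast h)
    omega
  have := CL5.Alg.isDedekind h2 f hs h1
  have e : (Sol f).card = Nat.card {g : k[X] // derivative^[2] (g * f) + g ^ 3 = 0} := by
    rw [← Nat.card_eq_finsetCard]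
    exact Nat.card_congr (Equiv.subtypeEquivRight fun g => mem_Sol' hf)
  rw [e, Alg.card_sol hs, mul_comm, uu]
  congr 1
  split_ifs with h
  · obtain ⟨e0, h0, hall⟩ := CL5.Alg.unit_even_gen h2 hf hs h h1
    exact Alg.card_units_even hs h1 e0 h0 hall
  · exact Alg.card_units_odd (CL5.Alg.unit_odd hf hs (Nat.not_even_iff_odd.1 h))

end CL3

end
end
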