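import Pool.Agent.H92F.Box
import Pool.Agent.MP_d0fd9b_nt.P3.M1

-- part H18M.Str28
section

/-! Structure of the fibres of the Cartier equation in characteristic three. -/

set_option autoImplicit false

open Polynomial

noncomputable section
namespace Pool.Agent.H18Str

variable {k : Type*} [Field k] [CharP k 3]

theorem st_three : (3 : k[X]) = 0 := by exact_mod_cast CharP.cast_eq_zero k[X] 3

theorem st_der_cube (a w : k[X]) : derivative (a ^ 3 * w) = a ^ 3 * derivative w := by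
  have h3 : ((3 : ℕ) : k) = 0 := CharP.cast_eq_zero k 3
  rw [derivative_mul, derivative_pow, h3]
  simp

theorem st_d3 (f : k[X]) : derivative (derivative (derivative f)) = 0 := by
  ext n
  simp only [coeff_derivative, coeff_zero]
  have : (((n + 1 + 1 + 1) * (n + 1 + 1) * (n + 1) : ℕ) : k) = 0 := by
    rw [CharP.cast_eq_zero_iff k 3]
    have : n % 3 = 0 ∨ n % 3 = 1 ∨ n % 3 = 2 := by omega
    rcases this with h | h | h
    · exact ((show 3 ∣ n + 1 + 1 + 1 by omega).mul_right _).mul_right _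
    · exact ((show 3 ∣ n + 1 + 1 by omega).mul_left _).mul_right _
    · exact (show 3 ∣ n + 1 by omega).mul_left _
  push_cast at this ⊢
  linear_combination f.coeff (n + 1 + 1 + 1) * this

theorem st_wr_l (a u w : k[X]) : wronskian (a ^ 3 * u) w = a ^ 3 * wronskian u w := by
  rw [wronskian, wronskian, st_der_cube]; ring

theorem st_wr_r (a u w : k[X]) : wronskian u (a ^ 3 * w) = a ^ 3 * wronskian u w := by
  rw [wronskian, wronskian, st_der_cube]; ring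

theorem st_sq (A W : k[X]) : A * wronskian A W = derivative (A ^ 2 * W) := by
  simp only [wronskian, sq, derivative_mul]
  linear_combination (-(A * derivative A * W)) * st_three (k := k)

omit [CharP k 3] in
theorem st_wr_mul (A a b : k[X]) : A ^ 2 * wronskian a b = wronskian (A * a) (A * b) := by
  simp only [wronskian, derivative_mul]; ring

omit [CharP k 3] in
theorem st_wr_der (a b : k[X]) : derivative (wronskian a b) =
    a * derivative (derivative b) - derivative (derivative a) * b := by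
  simp only [wronskian, derivative_mul, derivative_sub]; ring

omit [CharP k 3] in
theorem st_free {A : k[X]} (hA : A ≠ 0) : ∃ c u : k[X], c.Monic ∧ A = c ^ 3 * u ∧
    ∀ r : k[X], r ^ 3 ∣ u → IsUnit r := by
  induction h : A.natDegree using Nat.strong_induction_on generalizing A with
  | _ n ih =>
  by_cases hf : ∀ r : k[X], r ^ 3 ∣ A → IsUnit r
  · exact ⟨1, A, monic_one, by ring, hf⟩
  push Not at hf
  obtain ⟨r, h1, h2⟩ := hf
  obtain ⟨p, pm, pi, pd⟩ := Polynomial.exists_monic_irreducible_factor r h2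
  obtain ⟨B, rfl⟩ := (pow_dvd_pow_of_dvd pd 3).trans h1
  have hB : B ≠ 0 := right_ne_zero_of_mul hA
  obtain ⟨c, u, c1, c2, c3⟩ := ih B.natDegree (by
    rw [← h, natDegree_mul (pow_ne_zero 3 pm.ne_zero) hB, natDegree_pow]
    have := pi.natDegree_pos
    omega) hB rfl
  exact ⟨p * c, u, pm.mul c1, by rw [c2]; ring, c3⟩

omit [CharP k 3] in
theorem st_div {u w R : k[X]} (hu : u ≠ 0) (hf : ∀ r : k[X], r ^ 3 ∣ u → IsUnit r)
    (h : u ^ 2 * w = R ^ 3) : ∃ ρ : k[X], w = ρ ^ 3 * u := by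
  classical
  obtain ⟨R₁, u₁, g, hc, h1, h2⟩ : ∃ R₁ u₁ g : k[X], IsCoprime u₁ R₁ ∧ R = g * R₁ ∧ u = g * u₁ := by
    obtain ⟨a, b, h1, h2, h3⟩ := extract_gcd R u
    exact ⟨a, b, gcd R u, ((gcd_isUnit_iff a b).1 h3).symm, h1, h2⟩
  have hg : g ≠ 0 := fun e => hu (by rw [h2, e, zero_mul])
  have e : u₁ ^ 3 * w = R₁ ^ 3 * u := mul_left_cancel₀ (pow_ne_zero 3 hg) (by
    calc g ^ 3 * (u₁ ^ 3 * w) = u * (u ^ 2 * w) := by rw [h2]; ring
      _ = _ := by rw [h, h1]; ring)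
  obtain ⟨v, hv⟩ := (hf u₁ ((hc.pow (m := 3) (n := 3)).dvd_of_dvd_mul_left ⟨w, e.symm⟩)).exists_right_inv
  exact ⟨v * R₁, by linear_combination v ^ 3 * e -
    w * ((u₁ * v) ^ 2 + u₁ * v + 1) * hv⟩

omit [CharP k 3] in
theorem st_xd (q : k[X]) (n : ℕ) : (X * derivative q).coeff n = n * q.coeff n := by
  rcases n with _ | n
  · simp
  · rw [coeff_X_mul, coeff_derivative]; push_cast; ring

theorem st_wr_deg {a b : k[X]} (ha : a ≠ 0) (hb : b ≠ 0)
    (h : a.natDegree % 3 ≠ b.natDegree % 3) :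
    wronskian a b ≠ 0 ∧ (wronskian a b).natDegree + 1 = a.natDegree + b.natDegree := by
  have d : ∀ q : k[X], (X * derivative q).natDegree ≤ q.natDegree := fun q =>
    natDegree_le_iff_coeff_eq_zero.2 fun n hn => by
      rw [st_xd, coeff_eq_zero_of_natDegree_lt hn, mul_zero]
  have e : X * wronskian a b = a * (X * derivative b) - (X * derivative a) * b := by
    rw [wronskian]; ring
  have h1 : (X * wronskian a b).coeff (a.natDegree + b.natDegree) ≠ 0 := by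
    rw [e, coeff_sub, coeff_mul_add_eq_of_natDegree_le le_rfl (d b),
      coeff_mul_add_eq_of_natDegree_le (d a) le_rfl, st_xd, st_xd]
    have h2 : (b.natDegree : k) - a.natDegree ≠ 0 := fun e => h
      ((CharP.natCast_eq_natCast k 3).1 (sub_eq_zero.1 e)).symm
    have := mul_ne_zero h2 (mul_ne_zero (leadingCoeff_ne_zero.2 ha) (leadingCoeff_ne_zero.2 hb))
    rw [leadingCoeff, leadingCoeff] at this
    convert this using 1
    ring
  have h0 : wronskian a b ≠ 0 := fun e => h1 (by simp [e])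
  have h3 := le_natDegree_of_ne_zero h1
  rw [natDegree_X_mul h0] at h3
  have := natDegree_wronskian_lt_add h0
  exact ⟨h0, by omega⟩

omit [CharP k 3] in
theorem st_deg {h₁ h₂ : k[X]} (n₁ : h₁ ≠ 0) (n₂ : h₂ ≠ 0)
    (h : h₁.natDegree % 3 ≠ h₂.natDegree % 3) {α : k[X]} (hα : α ≠ 0) (β : k[X]) :
    3 * α.natDegree + h₁.natDegree ≤ (α ^ 3 * h₁ + β ^ 3 * h₂).natDegree ∧
      α ^ 3 * h₁ + β ^ 3 * h₂ ≠ 0 := by
  have e1 : (α ^ 3 * h₁).natDegree = 3 * α.natDegree + h₁.natDegree := by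
    rw [natDegree_mul (pow_ne_zero 3 hα) n₁, natDegree_pow]
  rcases eq_or_ne β 0 with rfl | hβ
  · simp only [ne_eq, OfNat.ofNat_ne_zero, not_false_eq_true, zero_pow, zero_mul, add_zero]
    exact ⟨e1.ge, mul_ne_zero (pow_ne_zero 3 hα) n₁⟩
  have e2 : (β ^ 3 * h₂).natDegree = 3 * β.natDegree + h₂.natDegree := by
    rw [natDegree_mul (pow_ne_zero 3 hβ) n₂, natDegree_pow]
  refine ⟨?_, fun e => ?_⟩
  · rcases lt_or_gt_of_ne (show (α ^ 3 * h₁).natDegree ≠ (β ^ 3 * h₂).natDegree by omega) with c | c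
    · rw [natDegree_add_eq_right_of_natDegree_lt c]; omega
    · rw [natDegree_add_eq_left_of_natDegree_lt c]; omega
  · rw [eq_neg_of_add_eq_zero_left e, natDegree_neg] at e1
    omega

theorem st_res {f : k[X]} (hf : f ≠ 0) (h : derivative (derivative f) = 0) :
    f.natDegree % 3 ≠ 2 := by
  intro e
  obtain ⟨n, hn⟩ : ∃ n, f.natDegree = 3 * n + 1 + 1 := ⟨f.natDegree / 3, by omega⟩
  have h1 := congrArg (coeff · (3 * n)) h
  simp only [coeff_derivative, coeff_zero] at h1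
  have h3 : (3 : k) = 0 := by exact_mod_cast CharP.cast_eq_zero k 3
  rw [← hn] at h1
  push_cast at h1
  refine leadingCoeff_ne_zero.2 hf ?_
  rw [leadingCoeff]
  linear_combination (-1) * h1 + f.coeff f.natDegree * (3 * (n : k) ^ 2 + 3 * n + 1) * h3

theorem st_c1 {A E g h : k[X]} (hA : A ≠ 0) (hE : derivative (derivative (A * E)) = -g ^ 3)
    (hh : derivative (derivative (A * h)) = 0) : wronskian A (wronskian E h) = g ^ 3 * h :=
  mul_left_cancel₀ hA (by rw [st_sq, st_wr_mul, st_wr_der, hE, hh]; ring)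

theorem st_c2 {A W g h : k[X]} (hg : g ≠ 0) (e : wronskian A W = g ^ 3 * h) :
    derivative (derivative (A * h)) = 0 := by
  have := st_d3 (A ^ 2 * W)
  rw [← st_sq, e, mul_left_comm, st_der_cube, st_der_cube] at this
  exact (mul_eq_zero.1 this).resolve_left (pow_ne_zero 3 hg)

theorem st_c5 {h₁ h₂ u : k[X]} (hw : wronskian h₁ h₂ = u) (E σ τ α β : k[X]) :
    wronskian (E + σ ^ 3 * h₁ + τ ^ 3 * h₂) (α ^ 3 * h₁ + β ^ 3 * h₂) =
      α ^ 3 * wronskian E h₁ + β ^ 3 * wronskian E h₂ + (σ * β - τ * α) ^ 3 * u := by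
  simp only [wronskian_add_left, wronskian_add_right, st_wr_l, st_wr_r, wronskian_self_eq_zero,
    ← wronskian_neg_eq h₁ h₂, hw]
  linear_combination (σ ^ 2 * β ^ 2 * τ * α - σ * β * τ ^ 2 * α ^ 2) * u * st_three (k := k)

theorem st_c4 {A c u E g h₁ h₂ : k[X]} (hA : A ≠ 0) (hc : A = c ^ 3 * u)
    (hE : derivative (derivative (A * E)) = -g ^ 3) (m₁ : derivative (derivative (A * h₁)) = 0)
    (m₂ : derivative (derivative (A * h₂)) = 0) (α β ρ : k[X]) :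
    wronskian A (α ^ 3 * wronskian E h₁ + β ^ 3 * wronskian E h₂ + ρ ^ 3 * u) =
      g ^ 3 * (α ^ 3 * h₁ + β ^ 3 * h₂) := by
  rw [wronskian_add_right, wronskian_add_right, st_wr_r, st_wr_r, st_wr_r, st_c1 hA hE m₁,
    st_c1 hA hE m₂, hc, st_wr_l, wronskian_self_eq_zero]
  ring

theorem st_cube_inj {a b : k[X]} (h : a ^ 3 = b ^ 3) : a = b := by
  have : (a - b) ^ 3 = 0 := by
    linear_combination h + (a * b ^ 2 - a ^ 2 * b) * st_three (k := k)
  exact sub_eq_zero.1 (pow_eq_zero_iff (by norm_num) |>.1 this)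

theorem st_uniq2 {h₁ h₂ : k[X]} (hw : wronskian h₁ h₂ ≠ 0) {α β α' β' : k[X]}
    (h : α ^ 3 * h₁ + β ^ 3 * h₂ = α' ^ 3 * h₁ + β' ^ 3 * h₂) : α = α' ∧ β = β' := by
  have a := congrArg (wronskian · h₂) h
  have b := congrArg (wronskian h₁ ·) h
  simp only [wronskian_add_left, wronskian_add_right, st_wr_l, st_wr_r, wronskian_self_eq_zero,
    mul_zero, add_zero, zero_add] at a b
  exact ⟨st_cube_inj (mul_right_cancel₀ hw a), st_cube_inj (mul_right_cancel₀ hw b)⟩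

theorem st_uniq3 {A c u E g h₁ h₂ : k[X]} (hA : A ≠ 0) (hg : g ≠ 0) (hc : A = c ^ 3 * u)
    (hE : derivative (derivative (A * E)) = -g ^ 3) (m₁ : derivative (derivative (A * h₁)) = 0)
    (m₂ : derivative (derivative (A * h₂)) = 0) (hw : wronskian h₁ h₂ = u)
    {α β ρ α' β' ρ' : k[X]}
    (h : α ^ 3 * wronskian E h₁ + β ^ 3 * wronskian E h₂ + ρ ^ 3 * u =
      α' ^ 3 * wronskian E h₁ + β' ^ 3 * wronskian E h₂ + ρ' ^ 3 * u) :
    α = α' ∧ β = β' ∧ ρ = ρ' := by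
  have hu : u ≠ 0 := fun e => hA (by rw [hc, e, mul_zero])
  have a := congrArg (wronskian A) h
  rw [st_c4 hA hc hE m₁ m₂, st_c4 hA hc hE m₁ m₂] at a
  obtain ⟨rfl, rfl⟩ := st_uniq2 (hw ▸ hu) (mul_left_cancel₀ (pow_ne_zero 3 hg) a)
  exact ⟨rfl, rfl, st_cube_inj (mul_right_cancel₀ hu (add_left_cancel h))⟩

variable [Finite k]

theorem st_root (a : k) : ∃ b : k, b ^ 3 = a := surjective_frobenius k 3 a

theorem st_cube {f : k[X]} (h : derivative f = 0) : ∃ r : k[X], f = r ^ 3 := by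
  obtain ⟨g, hg⟩ := map_surjective (frobenius k 3) (surjective_frobenius k 3) (contract 3 f)
  exact ⟨g, by rw [← map_frobenius_expand 3 g, map_expand, hg, expand_contract 3 h (by norm_num)]⟩

theorem st_dec (f : k[X]) : ∃ a b c : k[X], f = a ^ 3 + X * b ^ 3 + X ^ 2 * c ^ 3 ∧
    derivative f = b ^ 3 - X * c ^ 3 ∧ derivative (derivative f) = -c ^ 3 := by
  have d0 : ∀ a : k[X], derivative (a ^ 3) = 0 := fun a => by simpa using st_der_cube a 1
  have t := st_three (k := k)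
  obtain ⟨r, hr⟩ := st_cube (st_d3 f)
  obtain ⟨b, hb⟩ := st_cube (f := derivative f - X * r ^ 3) (by
    simp only [derivative_sub, derivative_mul, d0, derivative_X, hr]; ring)
  obtain ⟨a, ha⟩ := st_cube (f := f - X * b ^ 3 + X * X * r ^ 3) (by
    simp only [derivative_sub, derivative_add, derivative_mul, d0, derivative_X]
    linear_combination hb + X * r ^ 3 * t)
  exact ⟨a, b, -r, by linear_combination ha, by linear_combination hb, by rw [hr]; ring⟩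

theorem st_a {u w : k[X]} (hu : u ≠ 0) (hf : ∀ r : k[X], r ^ 3 ∣ u → IsUnit r)
    (h : wronskian u w = 0) : ∃ ρ : k[X], w = ρ ^ 3 * u := by
  obtain ⟨R, hR⟩ := st_cube (f := u ^ 2 * w) (by rw [← st_sq, h, mul_zero])
  exact st_div hu hf hR

theorem st_red {h₀ h : k[X]} (n₀ : h₀ ≠ 0) (n : h ≠ 0) (i : ℕ)
    (hd : h.natDegree = h₀.natDegree + 3 * i) : ∃ s : k[X], (h - s ^ 3 * h₀).degree < h.degree := by
  obtain ⟨b, hb⟩ := st_root (h.leadingCoeff / h₀.leadingCoeff)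
  have l0 := leadingCoeff_ne_zero.2 n₀
  have b0 : b ≠ 0 := fun e => div_ne_zero (leadingCoeff_ne_zero.2 n) l0 (by rw [← hb, e]; simp)
  have s0 : (monomial i b : k[X]) ≠ 0 := by simpa using b0
  refine ⟨monomial i b, degree_sub_lt ?_ n ?_⟩
  · rw [degree_eq_natDegree n, degree_eq_natDegree (mul_ne_zero (pow_ne_zero 3 s0) n₀),
      natDegree_mul (pow_ne_zero 3 s0) n₀, natDegree_pow, natDegree_monomial_eq _ b0, hd, add_comm]
  · rw [leadingCoeff_mul, leadingCoeff_pow, leadingCoeff_monomial, hb, div_mul_cancel₀ _ l0]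

theorem st_basis0 {u : k[X]} (hu : u ≠ 0) : ∃ h₁ h₂ : k[X], h₁ ≠ 0 ∧ h₂ ≠ 0 ∧
    derivative (derivative (u * h₁)) = 0 ∧ derivative (derivative (u * h₂)) = 0 ∧
    (u.natDegree + h₁.natDegree) % 3 = 0 ∧ (u.natDegree + h₂.natDegree) % 3 = 1 ∧
    ∀ h, derivative (derivative (u * h)) = 0 → ∃ α β : k[X], h = α ^ 3 * h₁ + β ^ 3 * h₂ := by
  classical
  have ex : ∀ j, j ≤ 1 → ∃ n, ∃ h : k[X], h ≠ 0 ∧ derivative (derivative (u * h)) = 0 ∧
      h.natDegree = n ∧ (u.natDegree + n) % 3 = j := fun j hj => by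
    refine ⟨_, u ^ 2 * X ^ j, mul_ne_zero (pow_ne_zero 2 hu) (pow_ne_zero j X_ne_zero), ?_, rfl, ?_⟩
    · rw [show u * (u ^ 2 * X ^ j) = u ^ 3 * X ^ j by ring, st_der_cube, st_der_cube]
      interval_cases j <;> simp
    · rw [natDegree_mul (pow_ne_zero 2 hu) (pow_ne_zero j X_ne_zero), natDegree_pow, natDegree_X_pow]
      omega
  obtain ⟨h₁, a1, a2, a3, a4⟩ := Nat.find_spec (ex 0 zero_le_one)
  obtain ⟨h₂, b1, b2, b3, b4⟩ := Nat.find_spec (ex 1 le_rfl)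
  refine ⟨h₁, h₂, a1, b1, a2, b2, a3 ▸ a4, b3 ▸ b4, fun h hh => ?_⟩
  induction h using degree_lt_wf.induction with
  | _ h ih =>
  rcases eq_or_ne h 0 with rfl | n
  · exact ⟨0, 0, by simp⟩
  have r := st_res (mul_ne_zero hu n) hh
  rw [natDegree_mul hu n] at r
  have sub : ∀ s h₀ : k[X], derivative (derivative (u * h₀)) = 0 →
      derivative (derivative (u * (h - s ^ 3 * h₀))) = 0 := fun s h₀ e => by
    rw [mul_sub, mul_left_comm, derivative_sub, derivative_sub, st_der_cube, st_der_cube, hh, e]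
    simp
  have t := st_three (k := k)
  by_cases c : (u.natDegree + h.natDegree) % 3 = 0
  · have := Nat.find_min' (ex 0 zero_le_one) ⟨h, n, hh, rfl, c⟩
    obtain ⟨s, hs⟩ := st_red a1 n ((h.natDegree - h₁.natDegree) / 3) (by omega)
    obtain ⟨α, β, e⟩ := ih _ hs (sub s h₁ a2)
    exact ⟨α + s, β, by linear_combination e - (α ^ 2 * s + α * s ^ 2) * h₁ * t⟩
  · have := Nat.find_min' (ex 1 le_rfl) ⟨h, n, hh, rfl, by omega⟩
    obtain ⟨s, hs⟩ := st_red b1 n ((h.natDegree - h₂.natDegree) / 3) (by omega)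
    obtain ⟨α, β, e⟩ := ih _ hs (sub s h₂ b2)
    exact ⟨α, β + s, by linear_combination e - (β ^ 2 * s + β * s ^ 2) * h₂ * t⟩

theorem st_basis {A : k[X]} (hA : A ≠ 0) : ∃ c u h₁ h₂ : k[X], c.Monic ∧ A = c ^ 3 * u ∧
    (∀ r : k[X], r ^ 3 ∣ u → IsUnit r) ∧ h₁ ≠ 0 ∧ h₂ ≠ 0 ∧
    derivative (derivative (A * h₁)) = 0 ∧ derivative (derivative (A * h₂)) = 0 ∧
    wronskian h₁ h₂ = u ∧ h₁.natDegree + h₂.natDegree = u.natDegree + 1 ∧
    (u.natDegree + h₁.natDegree) % 3 = 0 ∧ (u.natDegree + h₂.natDegree) % 3 = 1 ∧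
    ∀ h, derivative (derivative (A * h)) = 0 → ∃ α β : k[X], h = α ^ 3 * h₁ + β ^ 3 * h₂ := by
  obtain ⟨c, u, c1, c2, c3⟩ := st_free hA
  have hu : u ≠ 0 := fun e => hA (by rw [c2, e, mul_zero])
  obtain ⟨h₁, h₂, a1, b1, a2, b2, a3, b3, sp⟩ := st_basis0 hu
  have tr : ∀ h, derivative (derivative (A * h)) = c ^ 3 * derivative (derivative (u * h)) :=
    fun h => by rw [c2, mul_assoc, st_der_cube, st_der_cube]
  obtain ⟨R, hR⟩ := st_cube (f := u ^ 2 * wronskian h₁ h₂) (by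
    rw [st_wr_mul, st_wr_der, a2, b2]; simp)
  obtain ⟨r, hr⟩ := st_div hu c3 hR
  have key : ∀ v w : k[X], r ^ 3 ∣ u * (derivative v * derivative (derivative w) -
      derivative (derivative v) * derivative w) - v * (derivative u * derivative (derivative w) -
      derivative (derivative u) * derivative w) + w * (derivative u * derivative (derivative v) -
      derivative (derivative u) * derivative v) := fun v w => by
    obtain ⟨α, β, e⟩ := sp (wronskian u v) (by rw [st_sq, st_d3])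
    obtain ⟨γ, δ, e'⟩ := sp (wronskian u w) (by rw [st_sq, st_d3])
    have := st_c5 hr 0 α β γ δ
    rw [zero_add, ← e, ← e', wronskian_zero_left, wronskian_zero_left] at this
    refine ⟨(α * δ - β * γ) ^ 3, mul_left_cancel₀ hu ?_⟩
    rw [wronskian, st_wr_der, st_wr_der, wronskian, wronskian] at this
    linear_combination this
  have k1 := key 1 X
  have k2 := key 1 (X * X)
  have k3 := key X (X * X)
  simp only [derivative_one, derivative_X, derivative_mul, derivative_add, derivative_zero] at k1 k2 k3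
  have t := st_three (k := k)
  obtain ⟨x1, e1⟩ := k1
  obtain ⟨x2, e2⟩ := k2
  obtain ⟨x3, e3⟩ := k3
  obtain ⟨ρ, ρ1, rfl⟩ := isUnit_iff.1 (c3 r ⟨-x3 + X * x2 - X ^ 2 * x1, by
    linear_combination -e3 + X * e2 - X ^ 2 * e1 + u * t⟩)
  have ρ0 : ρ ≠ 0 := ρ1.ne_zero
  have inv : (C ρ⁻¹ : k[X]) * C ρ = 1 := by rw [← C_mul, inv_mul_cancel₀ ρ0, C_1]
  have n1 : (C ρ⁻¹ ^ 3 * h₁).natDegree = h₁.natDegree := by
    rw [← C_pow, natDegree_C_mul (pow_ne_zero 3 (inv_ne_zero ρ0))]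
  have w1 : wronskian (C ρ⁻¹ ^ 3 * h₁) h₂ = u := by
    rw [st_wr_l, hr, ← mul_assoc, ← mul_pow, inv, one_pow, one_mul]
  have z1 : C ρ⁻¹ ^ 3 * h₁ ≠ 0 := mul_ne_zero (pow_ne_zero 3 (C_ne_zero.2 (inv_ne_zero ρ0))) a1
  refine ⟨c, u, C ρ⁻¹ ^ 3 * h₁, h₂, c1, c2, c3, z1, b1, ?_, by rw [tr, b2, mul_zero], w1, ?_,
    n1 ▸ a3, b3, fun h hh => ?_⟩
  · rw [mul_left_comm, st_der_cube, st_der_cube, tr, a2]; simp
  · have := (st_wr_deg z1 b1 (by omega)).2
    rw [w1] at this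
    omega
  · rw [tr] at hh
    obtain ⟨α, β, e⟩ := sp h ((mul_eq_zero.1 hh).resolve_left (pow_ne_zero 3 c1.ne_zero))
    exact ⟨α * C ρ, β, by
      linear_combination e - α ^ 3 * h₁ * ((C ρ⁻¹ * C ρ) ^ 2 + C ρ⁻¹ * C ρ + 1) * inv⟩

theorem st_c3 {A c u E g h₁ h₂ : k[X]} (hA : A ≠ 0) (hg : g ≠ 0) (hc : A = c ^ 3 * u)
    (hf : ∀ r : k[X], r ^ 3 ∣ u → IsUnit r)
    (hE : derivative (derivative (A * E)) = -g ^ 3) (m₁ : derivative (derivative (A * h₁)) = 0)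
    (m₂ : derivative (derivative (A * h₂)) = 0)
    (sp : ∀ h, derivative (derivative (A * h)) = 0 → ∃ α β : k[X], h = α ^ 3 * h₁ + β ^ 3 * h₂)
    {W : k[X]} (hW : g ^ 3 ∣ wronskian A W) : ∃ α β ρ : k[X],
      W = α ^ 3 * wronskian E h₁ + β ^ 3 * wronskian E h₂ + ρ ^ 3 * u := by
  obtain ⟨h, e⟩ := hW
  obtain ⟨α, β, rfl⟩ := sp h (st_c2 hg e)
  have hu : u ≠ 0 := fun e => hA (by rw [hc, e, mul_zero])
  have a := st_c4 hA hc hE m₁ m₂ α β 0
  obtain ⟨ρ, hρ⟩ := st_a (w := W - (α ^ 3 * wronskian E h₁ + β ^ 3 * wronskian E h₂ + 0 ^ 3 * u))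
    hu hf (mul_left_cancel₀ (pow_ne_zero 3 (fun e : c = 0 => hA (by rw [hc, e]; simp))) (by
      rw [← st_wr_l, ← hc, sub_eq_add_neg, wronskian_add_right, wronskian_neg_right, e, a]
      ring))
  exact ⟨α, β, ρ, by linear_combination hρ⟩

end Pool.Agent.H18Str

end
end

-- part H18M.Eq28
section

/-! Coordinates of the Wronskians attached to a fibre: smallness, homogeneity and counting. -/

set_option autoImplicit false
set_option linter.unusedSectionVars false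

open Polynomial Finset
open scoped Classical

noncomputable section
namespace Pool.Agent.H18Str
open CL5

section Deg
variable {k : Type*} [Field k]

theorem dl_iff {a : k[X]} {n : ℕ} : a.degree < n ↔ a = 0 ∨ a.natDegree < n := by
  rcases eq_or_ne a 0 with rfl | h
  · simp
  · simp [h, natDegree_lt_iff_degree_lt h]

theorem dl_of {a : k[X]} {n : ℕ} (h : a ≠ 0 → a.natDegree < n) : a.degree < n := by
  rcases eq_or_ne a 0 with e | e
  · exact dl_iff.2 (Or.inl e)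
  · exact dl_iff.2 (Or.inr (h e))

theorem dl_nat {a : k[X]} {n : ℕ} (h : a.degree < n) (ha : a ≠ 0) : a.natDegree < n :=
  (dl_iff.1 h).resolve_left ha

theorem dl_mono {a : k[X]} {m n : ℕ} (h : a.degree < m) (e : m ≤ n) : a.degree < n :=
  h.trans_le (by exact_mod_cast e)

theorem dl_mul {a b : k[X]} {m n r : ℕ} (ha : a.natDegree ≤ m) (hb : b.degree < n)
    (e : m + n ≤ r) : (a * b).degree < r := dl_of fun h => by
  have := dl_nat hb (right_ne_zero_of_mul h)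
  have := natDegree_mul_le (p := a) (q := b)
  omega

theorem dl_add {a b : k[X]} {n : ℕ} (ha : a.degree < n) (hb : b.degree < n) :
    (a + b).degree < n := (degree_add_le a b).trans_lt (max_lt ha hb)

theorem dl_sub {a b : k[X]} {n : ℕ} (ha : a.degree < n) (hb : b.degree < n) :
    (a - b).degree < n := (degree_sub_le a b).trans_lt (max_lt ha hb)

theorem dl_cancel {a b : k[X]} {n r : ℕ} (ha : a ≠ 0) (h : (a * b).degree < r)
    (e : r ≤ a.natDegree + n) : b.degree < n := dl_of fun hb => by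
  have := dl_nat h (mul_ne_zero ha hb)
  rw [natDegree_mul ha hb] at this
  omega

theorem dl_wr {a b : k[X]} {m n r : ℕ} (ha : a.natDegree ≤ m) (hb : b.degree < n)
    (e : m + n ≤ r + 1) : (wronskian a b).degree < r := dl_of fun h => by
  have := natDegree_wronskian_lt_add h
  have := dl_nat hb fun e => h (by rw [e, wronskian_zero_right])
  omega

theorem dl_cube {a b : k[X]} {m n r : ℕ} (ha : a.degree < m) (hb : b.degree < n)
    (e : 3 * m + n ≤ r + 3) : (a ^ 3 * b).degree < r := dl_of fun h => by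
  have := dl_nat hb (right_ne_zero_of_mul h)
  have := dl_nat ha fun e => h (by simp [e])
  have := natDegree_mul_le (p := a ^ 3) (q := b)
  have := natDegree_pow a 3
  omega

end Deg

/-- counting in cosets -/
theorem eq_cnt {G H : Type*} [AddCommGroup G] [AddCommGroup H] (A : Finset G) (B S : Finset H)
    (φ : G → H) (hφ : ∀ a a', φ (a + a') = φ a + φ a')
    (hA : ∀ a ∈ A, ∀ a' ∈ A, a + a' ∈ A ∧ a - a' ∈ A)
    (hB : ∀ a ∈ A, ∀ s ∈ S, φ a + s ∈ B) (hS : ∀ s ∈ S, ∀ s' ∈ S, s - s' ∈ S)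
    (on : ∀ b ∈ B, ∃ a ∈ A, b - φ a ∈ S) :
    (A.filter (fun a => φ a ∈ S)).card * B.card = A.card * S.card := by
  rw [← card_product A S, card_eq_sum_card_fiberwise (f := fun z : G × H => φ z.1 + z.2) (t := B)
    (fun z hz => hB _ (mem_product.1 hz).1 _ (mem_product.1 hz).2), mul_comm, ← smul_eq_mul,
    ← sum_const]
  refine sum_congr rfl fun b hb => ?_
  obtain ⟨a₀, h₀, s₀⟩ := on b hb
  refine card_bij' (fun a _ => (a₀ + a, b - φ a₀ - φ a)) (fun z _ => z.1 - a₀) ?_ ?_ ?_ ?_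
  · intro a ha
    obtain ⟨h1, h2⟩ := mem_filter.1 ha
    exact mem_filter.2 ⟨mem_product.2 ⟨(hA _ h₀ _ h1).1, hS _ s₀ _ h2⟩, by simp only [hφ]; abel⟩
  · intro z hz
    obtain ⟨h1, h2⟩ := mem_filter.1 hz
    refine mem_filter.2 ⟨(hA _ (mem_product.1 h1).1 _ h₀).2, ?_⟩
    have e := hφ (z.1 - a₀) a₀
    rw [sub_add_cancel] at e
    have : φ (z.1 - a₀) = b - φ a₀ - z.2 := by rw [← h2, e]; abel
    rw [this]
    exact hS _ s₀ _ (mem_product.1 h1).2
  · intro a _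
    simp
  · intro z hz
    have h2 := (mem_filter.1 hz).2
    have e := hφ (z.1 - a₀) a₀
    rw [sub_add_cancel] at e
    refine Prod.ext (by simp) ?_
    simp only
    rw [← h2, e]; abel

variable {k : Type*} [Field k] [CharP k 3]

/-- the data of a fibre: `A = g κ`, a point `E` and a reduced basis `h₁, h₂` of directions -/
structure Bs (A g E c u h₁ h₂ : k[X]) : Prop where
  hA : A ≠ 0
  hg : g ≠ 0
  hc : A = c ^ 3 * u
  hf : ∀ r : k[X], r ^ 3 ∣ u → IsUnit r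
  n₁ : h₁ ≠ 0
  n₂ : h₂ ≠ 0
  m₁ : derivative (derivative (A * h₁)) = 0
  m₂ : derivative (derivative (A * h₂)) = 0
  hw : wronskian h₁ h₂ = u
  ne : h₁.natDegree % 3 ≠ h₂.natDegree % 3
  sp : ∀ h, derivative (derivative (A * h)) = 0 → ∃ α β : k[X], h = α ^ 3 * h₁ + β ^ 3 * h₂
  hE : derivative (derivative (A * E)) = -g ^ 3

/-- `W` has coordinates with prescribed divisors and degrees -/
def Co (E u h₁ h₂ t d : k[X]) (T₁ T₂ T₃ : ℕ) (W : k[X]) : Prop :=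
  ∃ α β ρ : k[X], W = α ^ 3 * wronskian E h₁ + β ^ 3 * wronskian E h₂ + ρ ^ 3 * u ∧
    t ∣ α ∧ t ∣ β ∧ d ∣ ρ ∧ α.degree < T₁ ∧ β.degree < T₂ ∧ ρ.degree < T₃

/-- the numerical condition under which elements of degree `< L` have small coordinates -/
def Sm (A g E u h₁ h₂ : k[X]) (T₁ T₂ T₃ L : ℕ) : Prop :=
  A.natDegree + L ≤ 3 * T₁ + h₁.natDegree + 3 * g.natDegree + 1 ∧
  A.natDegree + L ≤ 3 * T₂ + h₂.natDegree + 3 * g.natDegree + 1 ∧
  L ≤ 3 * T₃ + u.natDegree ∧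
  E.natDegree + A.natDegree + L ≤ 3 * T₃ + u.natDegree + 3 * g.natDegree + 2

variable {A g E c u h₁ h₂ t d : k[X]} {T₁ T₂ T₃ L : ℕ}

theorem Bs.hu (B : Bs A g E c u h₁ h₂) : u ≠ 0 := fun e => B.hA (by rw [B.hc, e, mul_zero])

theorem Bs.deg (B : Bs A g E c u h₁ h₂) : h₁.natDegree + h₂.natDegree = u.natDegree + 1 := by
  have := (st_wr_deg B.n₁ B.n₂ B.ne).2
  rw [B.hw] at this
  omega

theorem Bs.swap (B : Bs A g E c u h₁ h₂) : Bs A g E c u h₂ (-h₁) where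
  hA := B.hA
  hg := B.hg
  hc := B.hc
  hf := B.hf
  n₁ := B.n₂
  n₂ := neg_ne_zero.2 B.n₁
  m₁ := B.m₂
  m₂ := by rw [mul_neg, derivative_neg, derivative_neg, B.m₁, neg_zero]
  hw := by rw [wronskian_neg_right, wronskian_neg_eq, B.hw]
  ne := by rw [natDegree_neg]; exact B.ne.symm
  sp := fun h e => by
    obtain ⟨α, β, r⟩ := B.sp h e
    exact ⟨β, -α, by rw [r]; ring⟩
  hE := B.hE

theorem Bs.move (B : Bs A g E c u h₁ h₂) {E' : k[X]}
    (h : derivative (derivative (A * E')) = -g ^ 3) : Bs A g E' c u h₁ h₂ :=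
  { B with hE := h }

theorem co_zero : Co E u h₁ h₂ t d T₁ T₂ T₃ 0 :=
  ⟨0, 0, 0, by simp, by simp, by simp, by simp, by simp, by simp, by simp⟩

theorem Co.sub {W W' : k[X]} (h : Co E u h₁ h₂ t d T₁ T₂ T₃ W) (h' : Co E u h₁ h₂ t d T₁ T₂ T₃ W') :
    Co E u h₁ h₂ t d T₁ T₂ T₃ (W - W') := by
  obtain ⟨α, β, ρ, rfl, a1, a2, a3, a4, a5, a6⟩ := h
  obtain ⟨α', β', ρ', rfl, b1, b2, b3, b4, b5, b6⟩ := h'
  refine ⟨α - α', β - β', ρ - ρ', ?_, a1.sub b1, a2.sub b2, a3.sub b3, dl_sub a4 b4, dl_sub a5 b5,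
    dl_sub a6 b6⟩
  linear_combination ((α ^ 2 * α' - α * α' ^ 2) * wronskian E h₁ +
    (β ^ 2 * β' - β * β' ^ 2) * wronskian E h₂ + (ρ ^ 2 * ρ' - ρ * ρ' ^ 2) * u) * st_three (k := k)

theorem Co.add {W W' : k[X]} (h : Co E u h₁ h₂ t d T₁ T₂ T₃ W) (h' : Co E u h₁ h₂ t d T₁ T₂ T₃ W') :
    Co E u h₁ h₂ t d T₁ T₂ T₃ (W + W') := by
  have := h.sub (co_zero.sub h')
  rwa [zero_sub, sub_neg_eq_add] at this

theorem Co.smul {W s : k[X]} {j : ℕ} (h : Co E u h₁ h₂ t d T₁ T₂ T₃ W) (hs : s.natDegree ≤ j) :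
    Co E u h₁ h₂ t d (T₁ + j) (T₂ + j) (T₃ + j) (s ^ 3 * W) := by
  obtain ⟨α, β, ρ, rfl, a1, a2, a3, a4, a5, a6⟩ := h
  exact ⟨s * α, s * β, s * ρ, by ring, a1.mul_left s, a2.mul_left s, a3.mul_left s,
    dl_mul hs a4 (by omega), dl_mul hs a5 (by omega), dl_mul hs a6 (by omega)⟩

theorem Co.ww (B : Bs A g E c u h₁ h₂) {W : k[X]} (h : Co E u h₁ h₂ t d T₁ T₂ T₃ W) :
    g ^ 3 ∣ wronskian A W := by
  obtain ⟨α, β, ρ, rfl, -⟩ := h
  exact ⟨_, st_c4 B.hA B.hc B.hE B.m₁ B.m₂ α β ρ⟩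

theorem Co.deg {W : k[X]} {N : ℕ} (h : Co E u h₁ h₂ t d T₁ T₂ T₃ W)
    (e₁ : 3 * T₁ + h₁.natDegree + E.natDegree ≤ N + 3)
    (e₂ : 3 * T₂ + h₂.natDegree + E.natDegree ≤ N + 3) (e₃ : 3 * T₃ + u.natDegree ≤ N + 2) :
    W.degree < N := by
  obtain ⟨α, β, ρ, rfl, -, -, -, a4, a5, a6⟩ := h
  have w : ∀ h : k[X], (wronskian E h).degree < (E.natDegree + h.natDegree : ℕ) := fun h =>
    dl_wr le_rfl (dl_of fun _ => Nat.lt_succ_self _) (by omega)
  exact dl_add (dl_add (dl_cube a4 (w _) (by omega)) (dl_cube a5 (w _) (by omega)))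
    (dl_cube a6 (dl_of fun _ => Nat.lt_succ_self _) (by omega))

variable [Finite k]

theorem bs_ex (hA : A ≠ 0) (hg : g ≠ 0) (hE : derivative (derivative (A * E)) = -g ^ 3) :
    ∃ c u h₁ h₂ : k[X], c.Monic ∧ Bs A g E c u h₁ h₂ ∧ h₁.natDegree < h₂.natDegree := by
  obtain ⟨c, u, h₁, h₂, a1, a2, a3, a4, a5, a6, a7, a8, -, a9, a10, a11⟩ := st_basis hA
  have B : Bs A g E c u h₁ h₂ := ⟨hA, hg, a2, a3, a4, a5, a6, a7, a8, by omega, a11, hE⟩
  rcases lt_or_gt_of_ne (show h₁.natDegree ≠ h₂.natDegree by omega) with h | h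
  · exact ⟨c, u, h₁, h₂, a1, B, h⟩
  · exact ⟨c, u, h₂, -h₁, a1, B.swap, by rwa [natDegree_neg]⟩

theorem Co.cancel (B : Bs A g E c u h₁ h₂) {W s : k[X]} (hs : s ≠ 0) (ht : IsCoprime t s)
    (hd : IsCoprime d s) (hW : g ^ 3 ∣ wronskian A W)
    (h : Co E u h₁ h₂ t d (T₁ + s.natDegree) (T₂ + s.natDegree) (T₃ + s.natDegree) (s ^ 3 * W)) :
    Co E u h₁ h₂ t d T₁ T₂ T₃ W := by
  obtain ⟨α, β, ρ, e, a1, a2, a3, a4, a5, a6⟩ := h
  obtain ⟨α', β', ρ', rfl⟩ := st_c3 B.hA B.hg B.hc B.hf B.hE B.m₁ B.m₂ B.sp hW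
  obtain ⟨rfl, rfl, rfl⟩ := st_uniq3 B.hA B.hg B.hc B.hE B.m₁ B.m₂ B.hw
    (α := s * α') (β := s * β') (ρ := s * ρ') (α' := α) (β' := β) (ρ' := ρ) (by rw [← e]; ring)
  exact ⟨α', β', ρ', rfl, ht.dvd_of_dvd_mul_left a1, ht.dvd_of_dvd_mul_left a2,
    hd.dvd_of_dvd_mul_left a3, dl_cancel hs a4 (by omega), dl_cancel hs a5 (by omega),
    dl_cancel hs a6 (by omega)⟩

theorem co_small (B : Bs A g E c u h₁ h₂) (S : Sm A g E u h₁ h₂ T₁ T₂ T₃ L) {W : k[X]} {j : ℕ}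
    (hW : g ^ 3 ∣ wronskian A W) (hd : ((t * d) ^ 3 * W).degree < (L + 3 * j : ℕ)) :
    Co E u h₁ h₂ t d (T₁ + j) (T₂ + j) (T₃ + j) ((t * d) ^ 3 * W) := by
  obtain ⟨s1, s2, s3, s4⟩ := S
  obtain ⟨α, β, ρ, e⟩ := st_c3 B.hA B.hg B.hc B.hf B.hE B.m₁ B.m₂ B.sp hW
  generalize hV : (t * d) ^ 3 * W = V at hd
  have e' : V = (t * d * α) ^ 3 * wronskian E h₁ + (t * d * β) ^ 3 * wronskian E h₂ +
      (t * d * ρ) ^ 3 * u := by rw [← hV, e]; ring
  refine ⟨t * d * α, t * d * β, t * d * ρ, e', ⟨d * α, by ring⟩, ⟨d * β, by ring⟩,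
    ⟨t * ρ, by ring⟩, ?_⟩
  generalize t * d * α = a, t * d * β = b, t * d * ρ = r at e'
  have w := st_c4 B.hA B.hc B.hE B.m₁ B.m₂ a b r
  rw [← e'] at w
  have g3 : (g ^ 3).natDegree = 3 * g.natDegree := natDegree_pow g 3
  have hh : ∀ n : ℕ, A.natDegree + L + 3 * j ≤ n + 3 * g.natDegree + 1 →
      (a ^ 3 * h₁ + b ^ 3 * h₂).degree < n := fun n hn =>
    dl_cancel (pow_ne_zero 3 B.hg) (w ▸ dl_wr (r := n + 3 * g.natDegree) le_rfl hd (by omega))
      (by omega)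
  refine ⟨dl_of fun ha => ?_, dl_of fun hb => ?_, dl_of fun hr => ?_⟩
  · obtain ⟨x1, x2⟩ := st_deg B.n₁ B.n₂ B.ne ha b
    have := dl_nat (hh (3 * (T₁ + j) + h₁.natDegree) (by omega)) x2
    omega
  · obtain ⟨x1, x2⟩ := st_deg B.n₂ B.n₁ B.ne.symm hb a
    rw [add_comm (b ^ 3 * h₂)] at x1 x2
    have := dl_nat (hh (3 * (T₂ + j) + h₂.natDegree) (by omega)) x2
    omega
  · have x : r ^ 3 * u = V - wronskian E (a ^ 3 * h₁ + b ^ 3 * h₂) := by
      rw [wronskian_add_right, st_wr_r, st_wr_r, e']; ring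
    have y : (r ^ 3 * u).degree < (3 * (T₃ + j) + u.natDegree : ℕ) := by
      rw [x]
      refine dl_sub (dl_mono hd (by omega)) ?_
      by_cases z : a ^ 3 * h₁ + b ^ 3 * h₂ = 0
      · exact dl_iff.2 (Or.inl (by rw [z, wronskian_zero_right]))
      have z1 := dl_nat (hh (A.natDegree + L + 3 * j - (3 * g.natDegree + 1)) (by omega)) z
      exact dl_wr le_rfl (hh (A.natDegree + L + 3 * j - (3 * g.natDegree + 1)) (by omega)) (by omega)
    have := dl_nat y (mul_ne_zero (pow_ne_zero 3 hr) B.hu)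
    rw [natDegree_mul (pow_ne_zero 3 hr) B.hu, natDegree_pow] at this
    omega

/-- the homogenised predicate on the quotient `Z = W / gl` -/
def Ph (E u h₁ h₂ t d gl : k[X]) (T₁ T₂ T₃ j : ℕ) (Z : k[X]) : Prop :=
  Co E u h₁ h₂ t d (T₁ + (gl.natDegree + j)) (T₂ + (gl.natDegree + j)) (T₃ + (gl.natDegree + j))
    (gl ^ 4 * Z)

variable {gl g₂ κ : k[X]}

omit [Finite k] in
theorem ph_zero {j : ℕ} : Ph E u h₁ h₂ t d gl T₁ T₂ T₃ j 0 := by
  unfold Ph
  rw [mul_zero]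
  exact co_zero

omit [Finite k] in
theorem Ph.sub {Z Z' : k[X]} {j : ℕ} (h : Ph E u h₁ h₂ t d gl T₁ T₂ T₃ j Z)
    (h' : Ph E u h₁ h₂ t d gl T₁ T₂ T₃ j Z') : Ph E u h₁ h₂ t d gl T₁ T₂ T₃ j (Z - Z') := by
  unfold Ph
  rw [mul_sub]
  exact Co.sub h h'

omit [Finite k] in
theorem Ph.add {Z Z' : k[X]} {j : ℕ} (h : Ph E u h₁ h₂ t d gl T₁ T₂ T₃ j Z)
    (h' : Ph E u h₁ h₂ t d gl T₁ T₂ T₃ j Z') : Ph E u h₁ h₂ t d gl T₁ T₂ T₃ j (Z + Z') := by
  unfold Ph
  rw [mul_add]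
  exact Co.add h h'

omit [Finite k] in
theorem Ph.smul {Z s : k[X]} {i j : ℕ} (h : Ph E u h₁ h₂ t d gl T₁ T₂ T₃ j Z)
    (hs : s.natDegree ≤ i) : Ph E u h₁ h₂ t d gl T₁ T₂ T₃ (j + i) (s ^ 3 * Z) := by
  have := Co.smul h hs
  unfold Ph
  rw [mul_left_comm]
  simpa only [add_assoc] using this

omit [Finite k] in
theorem Ph.deg {Z : k[X]} {N : ℕ} (hgl : gl ≠ 0) (h : Ph E u h₁ h₂ t d gl T₁ T₂ T₃ 0 Z)
    (e₁ : 3 * T₁ + h₁.natDegree + E.natDegree ≤ N + gl.natDegree + 3)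
    (e₂ : 3 * T₂ + h₂.natDegree + E.natDegree ≤ N + gl.natDegree + 3)
    (e₃ : 3 * T₃ + u.natDegree ≤ N + gl.natDegree + 2) : Z.degree < N :=
  dl_cancel (pow_ne_zero 4 hgl)
    (Co.deg (N := N + 4 * gl.natDegree) h (by omega) (by omega) (by omega))
    (by rw [natDegree_pow]; omega)

theorem Ph.cancel (B : Bs A (gl * g₂) E c u h₁ h₂) {Z s : k[X]} {j : ℕ} (hs : s ≠ 0)
    (hc : IsCoprime (t * d * g₂) s)
    (h : Ph E u h₁ h₂ t d gl T₁ T₂ T₃ (j + s.natDegree) (s ^ 3 * Z)) :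
    Ph E u h₁ h₂ t d gl T₁ T₂ T₃ j Z := by
  have hgl : gl ≠ 0 := left_ne_zero_of_mul B.hg
  have w := Co.ww B h
  rw [show gl ^ 4 * (s ^ 3 * Z) = gl ^ 3 * (s ^ 3 * (gl * Z)) by ring, st_wr_r, st_wr_r, mul_pow,
    mul_dvd_mul_iff_left (pow_ne_zero 3 hgl)] at w
  have w' := (IsCoprime.pow (m := 3) (n := 3) hc.of_mul_left_right).dvd_of_dvd_mul_left w
  refine Co.cancel B hs hc.of_mul_left_left.of_mul_left_left hc.of_mul_left_left.of_mul_left_right
    ?_ ?_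
  · rw [show gl ^ 4 * Z = gl ^ 3 * (gl * Z) by ring, st_wr_r, mul_pow]
    exact mul_dvd_mul_left _ w'
  · unfold Ph at h
    rw [mul_left_comm] at h
    simpa only [add_assoc] using h

/-- (P) -/
theorem ph_small (B : Bs A (gl * g₂) E c u h₁ h₂) (S : Sm A (gl * g₂) E u h₁ h₂ T₁ T₂ T₃ L)
    {Z : k[X]} {j : ℕ} (hD : (t * d * g₂) ^ 3 ∣ Z) (hd : (gl * Z).degree < (L + 3 * j : ℕ)) :
    Ph E u h₁ h₂ t d gl T₁ T₂ T₃ j Z := by
  obtain ⟨Y, rfl⟩ := hD
  have e : gl ^ 4 * ((t * d * g₂) ^ 3 * Y) = (t * d) ^ 3 * ((gl * g₂) ^ 3 * (gl * Y)) := by ring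
  unfold Ph
  rw [e]
  refine co_small B S (by rw [st_wr_r]; exact dvd_mul_right _ _) ?_
  rw [← e, show gl ^ 4 * ((t * d * g₂) ^ 3 * Y) = gl ^ 3 * (gl * ((t * d * g₂) ^ 3 * Y)) by ring]
  exact dl_mul (natDegree_pow gl 3).le hd (by omega)

/-- HOM, one direction -/
theorem ph_hom (B : Bs A (gl * g₂) E c u h₁ h₂) (S : Sm A (gl * g₂) E u h₁ h₂ T₁ T₂ T₃ L)
    {P Q Z : k[X]} {De w dl : ℕ} (hP : P.natDegree ≤ De) (hQ : Q ≠ 0) (dQ : Q.natDegree = De)
    (cQ : IsCoprime (t * d * g₂) Q) (hD : (t * d * g₂) ^ 3 ∣ wronskian Q P)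
    (hw : (wronskian Q P).degree < w) (w2 : w ≤ 2 * De) (hZ : Z.degree < dl)
    (e : w + dl + gl.natDegree ≤ L + De) (h : Ph E u h₁ h₂ t d gl T₁ T₂ T₃ 0 (Q * Z)) :
    Ph E u h₁ h₂ t d gl T₁ T₂ T₃ 0 (P * Z) := by
  generalize hR : Q * wronskian Q P = R
  have r1 : derivative (Q ^ 2 * P) = R := by rw [← hR, st_sq]
  have r2 : derivative (derivative R) = 0 := by rw [← r1, st_d3]
  have r3 : R.degree < (De + w : ℕ) := hR ▸ dl_mul dQ.le hw le_rfl
  have r4 : (t * d * g₂) ^ 3 ∣ X * R + X * (X * derivative R) := by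
    obtain ⟨y, hy⟩ := hD.mul_left Q
    rw [← hR, hy, st_der_cube]
    exact ⟨X * y + X * (X * derivative y), by ring⟩
  have r5 : (X * R + X * (X * derivative R)).natDegree ≤ De + w := by
    refine Nat.le_of_lt_succ ?_
    by_cases z : X * R + X * (X * derivative R) = 0
    · simp [z]
    refine dl_nat (dl_add (dl_mul natDegree_X_le r3 (by omega)) (dl_mul natDegree_X_le
      (n := De + w) (dl_of fun x => ?_) (by omega))) z
    have x1 := right_ne_zero_of_mul x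
    have x2 : R ≠ 0 := fun y => x1 (by rw [y, derivative_zero])
    have := dl_nat r3 x2
    have := natDegree_derivative_lt (p := R) fun y => x1 (derivative_of_natDegree_zero y)
    rw [natDegree_X_mul x1]
    omega
  obtain ⟨a, ha⟩ := st_cube (f := Q ^ 2 * P - (X * R + X * (X * derivative R))) (by
    rw [derivative_sub, r1]
    simp only [derivative_add, derivative_mul, derivative_X, r2]
    linear_combination (-(X * derivative R)) * st_three (k := k))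
  generalize X * R + X * (X * derivative R) = ε at r4 r5 ha
  have da : a.natDegree ≤ De := by
    have x1 := natDegree_sub_le (Q ^ 2 * P) ε
    have := natDegree_mul_le (p := Q ^ 2) (q := P)
    rw [ha, natDegree_pow] at x1
    rw [natDegree_pow] at this
    omega
  have p1 := h.smul da
  have p2 : Ph E u h₁ h₂ t d gl T₁ T₂ T₃ (0 + De) (ε * (Q * Z)) :=
    ph_small B S (r4.mul_right _) (dl_mul le_rfl (dl_mul r5 (dl_mul dQ.le hZ le_rfl) le_rfl)
      (by omega))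
  refine Ph.cancel B hQ cQ ?_
  rw [dQ, show Q ^ 3 * (P * Z) = a ^ 3 * (Q * Z) + ε * (Q * Z) by rw [← ha]; ring]
  exact p1.add p2

/-- HOM: the predicate depends only on the logarithmic derivative and on the top digits -/
theorem ph_hom_lg (B : Bs A (gl * g₂) E c u h₁ h₂) (S : Sm A (gl * g₂) E u h₁ h₂ T₁ T₂ T₃ L)
    {P Q Z lP lQ : k[X]} {De n dl : ℕ} (hP : P.Monic) (hQ : Q.Monic) (dP : P.natDegree = De)
    (dQ : Q.natDegree = De) (cP : IsCoprime (t * d * g₂) P) (cQ : IsCoprime (t * d * g₂) Q)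
    (l1 : (t * d * g₂) ^ 3 ∣ P * lP - derivative P) (l2 : (t * d * g₂) ^ 3 ∣ Q * lQ - derivative Q)
    (l3 : (t * d * g₂) ^ 3 ∣ lP - lQ)
    (tp : (X ^ n * derivative P) /ₘ P = (X ^ n * derivative Q) /ₘ Q) (n2 : n ≤ 2 * De)
    (hZ : Z.degree < dl) (e : De + dl + gl.natDegree ≤ L + n) :
    Ph E u h₁ h₂ t d gl T₁ T₂ T₃ 0 (P * Z) ↔ Ph E u h₁ h₂ t d gl T₁ T₂ T₃ 0 (Q * Z) := by
  have hD : (t * d * g₂) ^ 3 ∣ wronskian Q P := by
    have := ((l2.mul_left P).sub (l1.mul_left Q)).add (l3.mul_left (P * Q))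
    rwa [show P * (Q * lQ - derivative Q) - Q * (P * lP - derivative P) + P * Q * (lP - lQ) =
      wronskian Q P by unfold wronskian; ring] at this
  have hw : (wronskian Q P).degree < (2 * De - n : ℕ) := by
    have a := modByMonic_add_div (X ^ n * derivative P) P
    have b := modByMonic_add_div (X ^ n * derivative Q) Q
    have a' := degree_modByMonic_lt (X ^ n * derivative P) hP
    have b' := degree_modByMonic_lt (X ^ n * derivative Q) hQ
    rw [degree_eq_natDegree hP.ne_zero, dP] at a'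
    rw [degree_eq_natDegree hQ.ne_zero, dQ] at b'
    refine dl_cancel (a := X ^ n) (r := De + De) (pow_ne_zero n X_ne_zero) ?_
      (by rw [natDegree_X_pow]; omega)
    rw [show X ^ n * wronskian Q P = Q * ((X ^ n * derivative P) %ₘ P) -
      P * ((X ^ n * derivative Q) %ₘ Q) by
        unfold wronskian; rw [tp] at a; linear_combination P * b - Q * a]
    exact dl_sub (dl_mul dQ.le a' le_rfl) (dl_mul dP.le b' le_rfl)
  refine ⟨ph_hom B S dQ.le hP.ne_zero dP cP (w := 2 * De - n) ?_ ?_ (by omega) hZ (by omega),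
    ph_hom B S dP.le hQ.ne_zero dQ cQ hD hw (by omega) hZ (by omega)⟩
  · rwa [← wronskian_neg_eq, dvd_neg]
  · rwa [← wronskian_neg_eq, degree_neg]

theorem ww_dvd {W : k[X]} (hs : Squarefree gl) (hc : IsCoprime gl (g₂ * κ))
    (h : (gl * g₂) ^ 3 ∣ wronskian (gl * g₂ * κ) W) :
    ∃ Z, W = gl * Z ∧ gl ∣ wronskian (g₂ * κ) Z := by
  have sep : IsCoprime gl (derivative gl) := PerfectField.separable_iff_squarefree.2 hs
  obtain ⟨y, hy⟩ := h
  obtain ⟨Z, rfl⟩ : gl ∣ W := by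
    refine (sep.mul_right hc).dvd_of_dvd_mul_left
      ⟨g₂ * κ * derivative W - derivative (g₂ * κ) * W - gl ^ 2 * g₂ ^ 3 * y, ?_⟩
    rw [mul_assoc gl, wronskian, derivative_mul] at hy
    linear_combination -hy
  refine ⟨Z, rfl, g₂ ^ 3 * y, mul_left_cancel₀ (pow_ne_zero 2 hs.ne_zero) ?_⟩
  rw [st_wr_mul, ← mul_assoc, hy]
  ring

/-- `S = gl {Z ∈ S' : gl ∣ Wr(A, Z)}` -/
theorem co_iff (B : Bs (gl * g₂ * κ) (gl * g₂) E c u h₁ h₂) (hs : Squarefree gl)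
    (hc : IsCoprime gl (g₂ * κ)) (ht : IsCoprime (t * d) gl) {W : k[X]} :
    Co E u h₁ h₂ t d T₁ T₂ T₃ W ↔ ∃ Z, W = gl * Z ∧ Ph E u h₁ h₂ t d gl T₁ T₂ T₃ 0 Z ∧
      gl ∣ wronskian (g₂ * κ) Z := by
  have e : ∀ Z : k[X], gl ^ 4 * Z = gl ^ 3 * (gl * Z) := fun Z => by ring
  constructor
  · intro h
    obtain ⟨Z, rfl, hZ⟩ := ww_dvd hs hc (h.ww B)
    exact ⟨Z, rfl, by unfold Ph; rw [e]; exact h.smul le_rfl, hZ⟩
  · rintro ⟨Z, rfl, h, hZ⟩
    unfold Ph at h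
    rw [e] at h
    have w := Co.ww B h
    rw [st_wr_r, mul_pow, mul_dvd_mul_iff_left (pow_ne_zero 3 hs.ne_zero)] at w
    refine Co.cancel B hs.ne_zero ht.of_mul_left_left ht.of_mul_left_right ?_ h
    rw [mul_pow]
    refine (IsCoprime.pow hc.of_mul_right_left).mul_dvd ?_ w
    rw [mul_assoc, ← st_wr_mul, pow_succ]
    exact mul_dvd_mul_left _ hZ

omit [CharP k 3] [Finite k] in
theorem eq_red {M : k[X]} (hM : M ≠ 0) (a : k[X]) :
    ∃ x r : k[X], a = M * x + r ∧ r.degree < M.natDegree :=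
  ⟨a / M, a % M, (EuclideanDomain.div_add_mod a M).symm, by
    rw [← degree_eq_natDegree hM]; exact degree_mod_lt a hM⟩

theorem ph_onto (B : Bs (gl * g₂ * κ) (gl * g₂) E c u h₁ h₂)
    (S : Sm (gl * g₂ * κ) (gl * g₂) E u h₁ h₂ T₁ T₂ T₃ L) (hs : Squarefree gl)
    (hc : IsCoprime gl (g₂ * κ)) (ht : IsCoprime (t * d) gl)
    (e₁ : h₁.natDegree + E.natDegree + 3 * (t * d * g₂).natDegree ≤ L)
    (e₂ : h₂.natDegree + E.natDegree + 3 * (t * d * g₂).natDegree ≤ L)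
    (e₃ : u.natDegree + 3 * (t * d * g₂).natDegree ≤ L) (y : k[X]) :
    ∃ Z, Ph E u h₁ h₂ t d gl T₁ T₂ T₃ 0 Z ∧ (gl * Z).degree < L ∧
      gl ∣ wronskian (g₂ * κ) Z - y := by
  have sep : IsCoprime gl (derivative gl) := PerfectField.separable_iff_squarefree.2 hs
  obtain ⟨v, x, hx⟩ := (sep.mul_right hc).mul_right
    (IsCoprime.pow_right (n := 3) (ht.symm.mul_right hc.of_mul_right_left))
  obtain ⟨α, β, ρ, e⟩ := st_c3 B.hA B.hg B.hc B.hf B.hE B.m₁ B.m₂ B.sp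
    (W := (gl * g₂) ^ 3 * (gl * (gl * (x * y)))) (by rw [st_wr_r]; exact dvd_mul_right _ _)
  obtain ⟨α₁, α₀, rfl, dα⟩ := eq_red B.hg α
  obtain ⟨β₁, β₀, rfl, dβ⟩ := eq_red B.hg β
  obtain ⟨ρ₁, ρ₀, rfl, dρ⟩ := eq_red B.hg ρ
  obtain ⟨Y, hY, r, hr⟩ := ww_dvd hs hc ⟨_, st_c4 B.hA B.hc B.hE B.m₁ B.m₂ α₁ β₁ ρ₁⟩
  have c0 : Co E u h₁ h₂ 1 1 (gl * g₂).natDegree (gl * g₂).natDegree (gl * g₂).natDegree
      ((gl * g₂) ^ 3 * (gl * (gl * (x * y) - Y))) := by
    refine ⟨α₀, β₀, ρ₀, ?_, one_dvd _, one_dvd _, one_dvd _, dα, dβ, dρ⟩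
    linear_combination e + (gl * g₂) ^ 3 * hY +
      (((gl * g₂ * α₁) ^ 2 * α₀ + gl * g₂ * α₁ * α₀ ^ 2) * wronskian E h₁ +
      ((gl * g₂ * β₁) ^ 2 * β₀ + gl * g₂ * β₁ * β₀ ^ 2) * wronskian E h₂ +
      ((gl * g₂ * ρ₁) ^ 2 * ρ₀ + gl * g₂ * ρ₁ * ρ₀ ^ 2) * u) * st_three (k := k)
  have d0 : (gl * ((t * d * g₂) ^ 3 * (gl * (x * y) - Y))).degree < L := by
    rw [mul_left_comm]
    exact dl_mul (natDegree_pow _ 3).le (dl_cancel (n := L - 3 * (t * d * g₂).natDegree)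
      (pow_ne_zero 3 B.hg) (c0.deg (N := 3 * (gl * g₂).natDegree + (L - 3 * (t * d * g₂).natDegree))
        (by omega) (by omega) (by omega)) (by rw [natDegree_pow])) (by omega)
  refine ⟨_, ph_small B S (dvd_mul_right _ _) d0, d0, (t * d * g₂) ^ 3 *
    (g₂ * κ * derivative (x * y) - derivative (g₂ * κ) * (x * y) - r) - v * y, ?_⟩
  rw [st_wr_r, sub_eq_add_neg (gl * _), wronskian_add_right, wronskian_neg_right, hr, wronskian,
    derivative_mul (f := gl)]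
  linear_combination y * hx

end Pool.Agent.H18Str

namespace Pool.Agent.H18Str
open CL5
variable {k : Type*} [Field k] [CharP k 3] [Fintype k]
variable {A E c u h₁ h₂ t d gl g₂ κ : k[X]} {T₁ T₂ T₃ L : ℕ}

/-- the count of `Z₀` in a box with `τ ∣ Z₀` and `P Z₀ ∈ S'` -/
theorem ph_count (B : Bs A (gl * g₂) E c u h₁ h₂) (S : Sm A (gl * g₂) E u h₁ h₂ T₁ T₂ T₃ L)
    {P τ : k[X]} {dl : ℕ} (hP : P ≠ 0) (hτ : τ ≠ 0) (hD : t * d * g₂ ≠ 0)
    (cP : IsCoprime (t * d * g₂) (P * τ))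
    (e₁ : τ.natDegree + 3 * (t * d * g₂).natDegree ≤ dl)
    (e₂ : τ.natDegree + 3 * (t * d * g₂).natDegree + P.natDegree + gl.natDegree ≤ L) :
    (((box k dl).filter fun Z => τ ∣ Z ∧ Ph E u h₁ h₂ t d gl T₁ T₂ T₃ 0 (P * Z)).card : ℝ) *
        qq k ^ (P.natDegree + dl) =
      qq k ^ (dl - τ.natDegree) *
        ((box k (P.natDegree + dl)).filter (Ph E u h₁ h₂ t d gl T₁ T₂ T₃ 0)).card := by
  have h := eq_cnt ((box k dl).filter fun Z => τ ∣ Z - 0) (box k (P.natDegree + dl))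
    ((box k (P.natDegree + dl)).filter (Ph E u h₁ h₂ t d gl T₁ T₂ T₃ 0)) (fun Z => P * Z)
    (fun _ _ => mul_add _ _ _) (fun a ha a' ha' => by
      simp only [mem_filter, mem_box, sub_zero] at ha ha' ⊢
      exact ⟨⟨dl_add ha.1 ha'.1, ha.2.add ha'.2⟩, dl_sub ha.1 ha'.1, ha.2.sub ha'.2⟩)
    (fun a ha s hs => by
      simp only [mem_filter, mem_box] at ha hs ⊢
      exact dl_add (dl_mul le_rfl ha.1 le_rfl) hs.1)
    (fun a ha a' ha' => by
      simp only [mem_filter, mem_box] at ha ha' ⊢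
      exact ⟨dl_sub ha.1 ha'.1, ha.2.sub ha'.2⟩)
    (fun b hb => by
      have n := natDegree_mul hP hτ
      obtain ⟨x, r, rfl, dr⟩ := eq_red (mul_ne_zero hP hτ) b
      obtain ⟨v, z, hz⟩ := IsCoprime.pow_left (m := 3) cP
      obtain ⟨x', r', e, dr'⟩ := eq_red (pow_ne_zero 3 hD) (z * r)
      rw [natDegree_pow] at dr'
      have dx : x.degree < (dl - τ.natDegree : ℕ) := by
        refine dl_cancel (r := P.natDegree + dl) (mul_ne_zero hP hτ) ?_ (by omega)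
        have := dl_sub (mem_box.1 hb) (dl_mono dr (by omega))
        rwa [add_sub_cancel_right] at this
      have d1 : (r - P * τ * r').degree <
          (τ.natDegree + 3 * (t * d * g₂).natDegree + P.natDegree : ℕ) :=
        dl_sub (dl_mono dr (by omega)) (dl_mul le_rfl dr' (by omega))
      refine ⟨τ * (x + r'), ?_, ?_⟩
      · simp only [mem_filter, mem_box, sub_zero]
        exact ⟨dl_mul le_rfl (dl_add dx (dl_mono dr' (by omega))) (by omega), dvd_mul_right _ _⟩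
      · rw [show P * τ * x + r - P * (τ * (x + r')) = r - P * τ * r' by ring]
        exact mem_filter.2 ⟨mem_box.2 (dl_mono d1 (by omega)), ph_small B S
          ⟨v * r + P * τ * x', by linear_combination (P * τ) * e - r * hz⟩
          (dl_mul le_rfl d1 (by omega))⟩)
  rw [← card_box_class hτ (by omega) 0, ← card_box]
  norm_cast
  rw [← h]
  congr 2
  ext Z
  simp only [mem_filter, mem_box, sub_zero, and_assoc]
  exact and_congr_right fun hZ => by simp only [dl_mul le_rfl hZ le_rfl, true_and]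

/-- sums over `S` as sums over `S'` -/
theorem co_sum (B : Bs (gl * g₂ * κ) (gl * g₂) E c u h₁ h₂) (hs : Squarefree gl)
    (hc : IsCoprime gl (g₂ * κ)) (ht : IsCoprime (t * d) gl) (N : ℕ) {M : Type*} [AddCommMonoid M]
    (F : k[X] → M) :
    ∑ W ∈ (box k (gl.natDegree + N)).filter (Co E u h₁ h₂ t d T₁ T₂ T₃), F W =
      ∑ Z ∈ ((box k N).filter (Ph E u h₁ h₂ t d gl T₁ T₂ T₃ 0)).filter
        (fun Z => gl ∣ wronskian (g₂ * κ) Z), F (gl * Z) := by
  rw [← sum_image (g := fun Z => gl * Z) fun _ _ _ _ e => mul_left_cancel₀ hs.ne_zero e]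
  refine sum_congr (Finset.ext fun W => ?_) fun _ _ => rfl
  simp only [mem_filter, mem_image, mem_box, co_iff B hs hc ht]
  constructor
  · rintro ⟨h, Z, rfl, a, b⟩
    exact ⟨Z, ⟨⟨dl_cancel hs.ne_zero h le_rfl, a⟩, b⟩, rfl⟩
  · rintro ⟨Z, ⟨⟨h, a⟩, b⟩, rfl⟩
    exact ⟨dl_mul le_rfl h le_rfl, Z, rfl, a, b⟩

/-- `|S| |gl| = |S'|` -/
theorem co_card (B : Bs (gl * g₂ * κ) (gl * g₂) E c u h₁ h₂)
    (S : Sm (gl * g₂ * κ) (gl * g₂) E u h₁ h₂ T₁ T₂ T₃ L) (hm : gl.Monic) (hs : Squarefree gl)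
    (hc : IsCoprime gl (g₂ * κ)) (ht : IsCoprime (t * d) gl) {N : ℕ} (e₀ : L ≤ gl.natDegree + N)
    (e₁ : h₁.natDegree + E.natDegree + 3 * (t * d * g₂).natDegree ≤ L)
    (e₂ : h₂.natDegree + E.natDegree + 3 * (t * d * g₂).natDegree ≤ L)
    (e₃ : u.natDegree + 3 * (t * d * g₂).natDegree ≤ L) :
    (((box k (gl.natDegree + N)).filter (Co E u h₁ h₂ t d T₁ T₂ T₃)).card : ℝ) *
        qq k ^ gl.natDegree = ((box k N).filter (Ph E u h₁ h₂ t d gl T₁ T₂ T₃ 0)).card := by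
  have h := eq_cnt ((box k N).filter (Ph E u h₁ h₂ t d gl T₁ T₂ T₃ 0)) (box k gl.natDegree) {0}
    (fun Z => wronskian (g₂ * κ) Z %ₘ gl)
    (fun _ _ => by rw [wronskian_add_right, add_modByMonic]) (fun a ha a' ha' => by
      simp only [mem_filter, mem_box] at ha ha' ⊢
      exact ⟨⟨dl_add ha.1 ha'.1, ha.2.add ha'.2⟩, dl_sub ha.1 ha'.1, ha.2.sub ha'.2⟩)
    (fun a _ s hs' => by
      rw [mem_singleton.1 hs', add_zero, mem_box, ← degree_eq_natDegree hm.ne_zero]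
      exact degree_modByMonic_lt _ hm)
    (fun a ha a' ha' => by simp_all)
    (fun b hb => by
      obtain ⟨Z, z1, z2, z3⟩ := ph_onto B S hs hc ht e₁ e₂ e₃ b
      refine ⟨Z, mem_filter.2 ⟨mem_box.2 (dl_cancel hs.ne_zero z2 e₀), z1⟩, ?_⟩
      rw [modByMonic_eq_of_dvd_sub hm z3, (modByMonic_eq_self_iff hm).2
        (by rw [degree_eq_natDegree hm.ne_zero]; exact mem_box.1 hb), sub_self]
      exact mem_singleton_self _)
  have s := co_sum (T₁ := T₁) (T₂ := T₂) (T₃ := T₃) B hs hc ht N (fun _ => (1 : ℕ))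
  simp only [← card_eq_sum_ones] at s
  simp only [mem_singleton, modByMonic_eq_zero_iff_dvd hm, card_singleton, mul_one] at h
  rw [s, ← card_box]
  exact_mod_cast h

/-- the coordinates parametrise `S` bijectively -/
theorem co_sum_coord {g : k[X]} (B : Bs A g E c u h₁ h₂) {N : ℕ}
    (e₁ : 3 * T₁ + h₁.natDegree + E.natDegree ≤ N + 3)
    (e₂ : 3 * T₂ + h₂.natDegree + E.natDegree ≤ N + 3) (e₃ : 3 * T₃ + u.natDegree ≤ N + 2)
    {M : Type*} [AddCommMonoid M] (F : k[X] → M) :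
    ∑ W ∈ (box k N).filter (Co E u h₁ h₂ t d T₁ T₂ T₃), F W =
      ∑ α ∈ (box k T₁).filter (t ∣ ·), ∑ β ∈ (box k T₂).filter (t ∣ ·),
        ∑ ρ ∈ (box k T₃).filter (d ∣ ·),
          F (α ^ 3 * wronskian E h₁ + β ^ 3 * wronskian E h₂ + ρ ^ 3 * u) := by
  simp only [← sum_product']
  rw [← sum_image (g := fun z : k[X] × k[X] × k[X] =>
    z.1 ^ 3 * wronskian E h₁ + z.2.1 ^ 3 * wronskian E h₂ + z.2.2 ^ 3 * u) fun _ _ _ _ e => by
      obtain ⟨a, b, c⟩ := st_uniq3 B.hA B.hg B.hc B.hE B.m₁ B.m₂ B.hw e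
      exact Prod.ext a (Prod.ext b c)]
  refine sum_congr (Finset.ext fun W => ?_) fun _ _ => rfl
  simp only [mem_filter, mem_image, mem_box, mem_product]
  constructor
  · rintro ⟨-, α, β, ρ, rfl, a1, a2, a3, a4, a5, a6⟩
    exact ⟨(α, β, ρ), ⟨⟨a4, a1⟩, ⟨a5, a2⟩, a6, a3⟩, rfl⟩
  · rintro ⟨⟨α, β, ρ⟩, ⟨⟨a4, a1⟩, ⟨a5, a2⟩, a6, a3⟩, rfl⟩
    have : Co E u h₁ h₂ t d T₁ T₂ T₃ _ := ⟨α, β, ρ, rfl, a1, a2, a3, a4, a5, a6⟩
    exact ⟨this.deg e₁ e₂ e₃, this⟩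

end Pool.Agent.H18Str

end
end

-- part H18M.Ad28
section

/-! The subgroup `S'` and the deviation over `S` as a count of quotients. -/

set_option autoImplicit false
set_option linter.unusedSectionVars false

open Polynomial Finset
open scoped Classical

noncomputable section
namespace Pool.Agent.H18Str
open CL5
variable {k : Type*} [Field k] [CharP k 3] [Fintype k]

/-- the subgroup `S'` -/
def PhG (E u h₁ h₂ t d gl : k[X]) (T₁ T₂ T₃ N : ℕ) : AddSubgroup k[X] where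
  carrier := {Z | Z.degree < N ∧ Ph E u h₁ h₂ t d gl T₁ T₂ T₃ 0 Z}
  zero_mem' := ⟨dl_iff.2 (Or.inl rfl), ph_zero⟩
  add_mem' := fun a b => ⟨dl_add a.1 b.1, a.2.add b.2⟩
  neg_mem' := fun {x} a => ⟨by rw [degree_neg]; exact a.1, by
    have := ph_zero.sub a.2
    rwa [zero_sub] at this⟩

variable {A E c u h₁ h₂ t d gl g₂ κ : k[X]} {T₁ T₂ T₃ L N : ℕ}

theorem mem_PhG {Z : k[X]} : Z ∈ PhG E u h₁ h₂ t d gl T₁ T₂ T₃ N ↔
    Z.degree < N ∧ Ph E u h₁ h₂ t d gl T₁ T₂ T₃ 0 Z := Iff.rfl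

theorem card_PhG : Nat.card (PhG E u h₁ h₂ t d gl T₁ T₂ T₃ N) =
    ((box k N).filter (Ph E u h₁ h₂ t d gl T₁ T₂ T₃ 0)).card := by
  rw [← Nat.card_eq_finsetCard]
  exact Nat.card_congr (Equiv.subtypeEquivRight fun Z => by rw [mem_filter, mem_box]; rfl)

theorem phG_small (B : Bs A (gl * g₂) E c u h₁ h₂) (S : Sm A (gl * g₂) E u h₁ h₂ T₁ T₂ T₃ L)
    {n : ℕ} (e : gl.natDegree + (N - n) ≤ L) {Z : k[X]} (hD : (t * d * g₂) ^ 3 ∣ Z)
    (hd : Z.degree < (N - n : ℕ)) : Z ∈ PhG E u h₁ h₂ t d gl T₁ T₂ T₃ N :=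
  ⟨dl_mono hd (by omega), ph_small B S hD (dl_mul le_rfl hd (by omega))⟩

theorem phG_hom (B : Bs A (gl * g₂) E c u h₁ h₂) (S : Sm A (gl * g₂) E u h₁ h₂ T₁ T₂ T₃ L)
    {n De dl : ℕ} (e : gl.natDegree + (dl + De) ≤ L + n) (e' : gl.natDegree + dl ≤ L + De)
    {P Q Z : k[X]} (hP : P.Monic) (hQ : Q.Monic) (dP : P.natDegree = De) (dQ : Q.natDegree = De)
    (cP : IsCoprime P (gl * (t * d * g₂) ^ 3)) (cQ : IsCoprime Q (gl * (t * d * g₂) ^ 3))
    (hD : (t * d * g₂) ^ 3 ∣ wronskian P Q) (hw : (wronskian P Q).degree < (2 * De - n : ℕ))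
    (hZ : Z.degree < dl) : P * Z ∈ PhG E u h₁ h₂ t d gl T₁ T₂ T₃ (dl + De) ↔
      Q * Z ∈ PhG E u h₁ h₂ t d gl T₁ T₂ T₃ (dl + De) := by
  have c : ∀ {R : k[X]}, IsCoprime R (gl * (t * d * g₂) ^ 3) → IsCoprime (t * d * g₂) R :=
    fun h => ((IsCoprime.pow_right_iff (by norm_num)).1 h.of_mul_right_right).symm
  refine ⟨fun h => ⟨dl_mul dQ.le hZ (by omega), ph_hom B S dQ.le hP.ne_zero dP (c cP) hD hw
    (by omega) hZ (by omega) h.2⟩, fun h => ⟨dl_mul dP.le hZ (by omega), ph_hom B S dP.le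
      hQ.ne_zero dQ (c cQ) (w := 2 * De - n) ?_ ?_ (by omega) hZ (by omega) h.2⟩⟩
  · rwa [← wronskian_neg_eq, dvd_neg]
  · rwa [← wronskian_neg_eq, degree_neg]

/-- the deviation over `S` in terms of `S'` -/
theorem dev_eq (B : Bs (gl * g₂ * κ) (gl * g₂) E c u h₁ h₂)
    (S : Sm (gl * g₂ * κ) (gl * g₂) E u h₁ h₂ T₁ T₂ T₃ L) (hm : gl.Monic) (hs : Squarefree gl)
    (hc : IsCoprime gl (g₂ * κ)) (ht : IsCoprime (t * d) gl) {dl De : ℕ}
    (e₀ : L ≤ gl.natDegree + (dl + De))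
    (e₁ : h₁.natDegree + E.natDegree + 3 * (t * d * g₂).natDegree ≤ L)
    (e₂ : h₂.natDegree + E.natDegree + 3 * (t * d * g₂).natDegree ≤ L)
    (e₃ : u.natDegree + 3 * (t * d * g₂).natDegree ≤ L)
    (f₁ : 3 * T₁ + h₁.natDegree + E.natDegree ≤ gl.natDegree + (dl + De) + 3)
    (f₂ : 3 * T₂ + h₂.natDegree + E.natDegree ≤ gl.natDegree + (dl + De) + 3)
    (f₃ : 3 * T₃ + u.natDegree ≤ gl.natDegree + (dl + De) + 2)
    {π : Type*} (Ps : Finset π) (f : π → k[X])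
    (hf : ∀ P ∈ Ps, f P ≠ 0 ∧ (f P).natDegree = De ∧ IsCoprime (f P) gl) (w : k[X] → ℝ)
    (w0 : w 0 = 0) (hw : ∀ W : k[X], W ≠ 0 → W.degree < (gl.natDegree + (dl + De) : ℕ) →
      w W = (Ps.filter fun P => f P ∣ W).card) (ro : ℝ) :
    ∑ p ∈ (box k T₁ ×ˢ box k T₂).filter (fun p => t ∣ p.1 ∧ t ∣ p.2),
      ∑ r ∈ (box k T₃).filter (fun r => d ∣ r),
        (w (p.1 ^ 3 * wronskian E h₁ + p.2 ^ 3 * wronskian E h₂ + r ^ 3 * u) - ro) =
      ∑ P ∈ Ps, ((((box k dl).erase 0).filter fun Z =>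
        f P * Z ∈ PhG E u h₁ h₂ t d gl T₁ T₂ T₃ (dl + De) ∧
          gl ∣ wronskian (g₂ * κ) (f P * Z)).card : ℝ) -
      ro * Nat.card (PhG E u h₁ h₂ t d gl T₁ T₂ T₃ (dl + De)) / qq k ^ gl.natDegree := by
  have hq : (0 : ℝ) < qq k ^ gl.natDegree := pow_pos (by linarith [two_le_qq (k := k)]) _
  rw [filter_product, sum_product, ← co_sum_coord B f₁ f₂ f₃ (fun W => w W - ro), sum_sub_distrib,
    sum_const, nsmul_eq_mul, card_PhG, ← co_card B S hm hs hc ht e₀ e₁ e₂ e₃, co_sum B hs hc ht,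
    ← mul_assoc, mul_div_cancel_right₀ _ hq.ne', mul_comm ro]
  congr 1
  rw [← sum_erase (a := 0) _ (by rw [mul_zero, w0]), sum_congr rfl fun Z hZ => hw (gl * Z)
    (mul_ne_zero hs.ne_zero (mem_erase.1 hZ).1)
    (dl_mul le_rfl (mem_box.1 (mem_filter.1 (mem_filter.1 (mem_erase.1 hZ).2).1).1) le_rfl)]
  simp only [card_filter, Nat.cast_sum]
  rw [sum_comm]
  refine sum_congr rfl fun P hP => ?_
  rw [← Nat.cast_sum, ← Nat.cast_sum, ← card_filter, ← card_filter, Nat.cast_inj]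
  obtain ⟨f0, fd, fc⟩ := hf P hP
  refine (card_nbij (fun Z => f P * Z) (fun Z h => ?_) (fun x _ y _ h => mul_left_cancel₀ f0 h)
    fun Z h => ?_).symm
  · simp only [coe_filter, mem_erase, mem_filter, mem_box, mem_PhG, Set.mem_ofPred_eq] at h ⊢
    exact ⟨⟨mul_ne_zero f0 h.1.1, ⟨h.2.1.1, h.2.1.2⟩, h.2.2⟩, (dvd_mul_right _ _).mul_left _⟩
  · simp only [coe_filter, mem_erase, mem_filter, mem_box, mem_PhG, Set.mem_ofPred_eq,
      Set.mem_image] at h ⊢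
    obtain ⟨x, rfl⟩ := fc.dvd_of_dvd_mul_left h.2
    exact ⟨x, ⟨⟨right_ne_zero_of_mul h.1.1, dl_cancel f0 h.1.2.1.1 (by omega)⟩, h.1.2.1, h.1.2.2⟩,
      rfl⟩

end Pool.Agent.H18Str

end
end

-- part H18M.Side28
section

/-! The splitting `g = gl g₂` and the linear side conditions. -/

set_option autoImplicit false
set_option linter.unusedSectionVars false

open Polynomial Finset
open scoped Classical

noncomputable section
namespace Pool.Agent.H18Str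
open CL5
variable {k : Type*} [Field k] [CharP k 3] [Fintype k]

theorem split28 {gf gs κ s : k[X]} (hm : gf.Monic) (hs : Squarefree gf)
    (hc : IsCoprime gf (gs * κ)) (h0 : gs ≠ 0) (s0 : s ≠ 0) :
    ∃ gl g₂ : k[X], gf * gs = gl * g₂ ∧ gl.Monic ∧ Squarefree gl ∧ IsCoprime gl (g₂ * κ) ∧
      IsCoprime s gl ∧ g₂ ≠ 0 ∧ g₂.natDegree ≤ gs.natDegree + s.natDegree := by
  have g0 : gcd gf s ≠ 0 := gcd_ne_zero_of_left hm.ne_zero
  have gm : (gcd gf s).Monic := by rw [← _root_.normalize_gcd]; exact monic_normalize g0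
  obtain ⟨gl, e⟩ := gcd_dvd_left gf s
  have c1 : IsCoprime (gcd gf s) gl := by
    rw [e] at hs
    exact (IsRelPrime.of_squarefree_mul hs).isCoprime
  have dv : gl ∣ gf := Dvd.intro_left _ e.symm
  refine ⟨gl, gcd gf s * gs, by rw [← mul_assoc, mul_comm gl, ← e], gm.of_mul_monic_left (e ▸ hm),
    hs.squarefree_of_dvd dv, ?_, ?_, mul_ne_zero g0 h0, ?_⟩
  · rw [mul_assoc]
    exact c1.symm.mul_right (hc.of_isCoprime_of_dvd_left dv)
  · exact IsRelPrime.isCoprime fun r r1 r2 =>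
      c1.isRelPrime (dvd_gcd (r2.trans dv) r1) r2
  · have := natDegree_le_of_dvd (gcd_dvd_right gf s) s0
    rw [natDegree_mul g0 h0]
    omega

theorem monic28 {D : k[X]} (h : D ≠ 0) : (normalize (D ^ 3)).Monic ∧
    (normalize (D ^ 3)).natDegree = 3 * D.natDegree ∧ (∀ Z, normalize (D ^ 3) ∣ Z ↔ D ^ 3 ∣ Z) ∧
    (∀ P, IsCoprime P (normalize (D ^ 3)) ↔ IsCoprime P D) ∧
    ∀ P gl, IsCoprime P (gl * normalize (D ^ 3)) ↔ IsCoprime P (gl * D ^ 3) := by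
  have a : ∀ P, IsCoprime P (normalize (D ^ 3)) ↔ IsCoprime P (D ^ 3) := fun P =>
    ⟨fun c => c.of_isCoprime_of_dvd_right (associated_normalize _).dvd,
      fun c => c.of_isCoprime_of_dvd_right (normalize_associated _).dvd⟩
  exact ⟨monic_normalize (pow_ne_zero 3 h),
    by rw [natDegree_eq_of_degree_eq degree_normalize, natDegree_pow],
    fun Z => normalize_dvd_iff, fun P => (a P).trans (IsCoprime.pow_right_iff (by norm_num)),
    fun P gl => by rw [IsCoprime.mul_right_iff, IsCoprime.mul_right_iff, a]⟩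

/-- the primes prime to `gl (t d g₂)³` of large degree are those not dividing `g` -/
theorem prime28 {gl g₂ s P : k[X]} (hP : Irreducible P) (s0 : s ≠ 0)
    (hd : s.natDegree < P.natDegree) : IsCoprime P (gl * (s * g₂) ^ 3) ↔ ¬ P ∣ gl * g₂ := by
  have n : ¬ P ∣ s := fun h => absurd (natDegree_le_of_dvd h s0) (by omega)
  have p := hP.prime
  rw [hP.coprime_iff_not_dvd, p.dvd_mul, p.dvd_mul, p.dvd_pow_iff_dvd (by norm_num), p.dvd_mul]
  tauto

/-- all linear side conditions, with `L = ν + H0 + 2 - n'`, `n' = 3 e1 + 2 y + 3` -/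
theorem side28 {A E c u h₁ h₂ gl g₂ t d : k[X]} (B : Bs A (gl * g₂) E c u h₁ h₂)
    {m ka ν y H0 t1 a T₂ e1 dl De : ℕ} (hA : A.natDegree = (gl * g₂).natDegree + ka)
    (hE : E.natDegree = ν) (hn : ka + ν ≤ 2 * m + 1) (hy : m ≤ (gl * g₂).natDegree + y)
    (b1 : 3 * a + h₂.natDegree ≤ 3 * t1 + h₁.natDegree)
    (b2 : 3 * t1 + h₁.natDegree < 3 * a + h₂.natDegree + 3)
    (b3 : H0 ≤ 3 * a + h₂.natDegree) (b4 : 3 * a + h₂.natDegree ≤ H0 + 2)
    (hT : T₂ = a ∨ T₂ = a + 1) (hd : d.natDegree ≤ e1)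
    (hN : gl.natDegree + (dl + De) = ν + H0 + 2)
    (c1 : h₁.natDegree + 3 * (t * d * g₂).natDegree + (3 * e1 + 2 * y + 3) ≤ H0 + 2)
    (c2 : h₂.natDegree + 3 * (t * d * g₂).natDegree + (3 * e1 + 2 * y + 3) ≤ H0 + 2)
    (c3 : h₁.natDegree + 3 * e1 ≤ ν) (c4 : 3 * e1 + 2 * y + 3 ≤ De) :
    Sm A (gl * g₂) E u h₁ h₂ t1 T₂ ((ν - h₁.natDegree + 2) / 3 - e1 + a + d.natDegree)
      (ν + H0 + 2 - (3 * e1 + 2 * y + 3)) ∧
    gl.natDegree + (dl + De - (3 * e1 + 2 * y + 3)) ≤ ν + H0 + 2 - (3 * e1 + 2 * y + 3) ∧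
    gl.natDegree + (dl + De) ≤ ν + H0 + 2 - (3 * e1 + 2 * y + 3) + (3 * e1 + 2 * y + 3) ∧
    gl.natDegree + dl ≤ ν + H0 + 2 - (3 * e1 + 2 * y + 3) + De ∧
    ν + H0 + 2 - (3 * e1 + 2 * y + 3) ≤ gl.natDegree + (dl + De) ∧
    h₁.natDegree + E.natDegree + 3 * (t * d * g₂).natDegree ≤ ν + H0 + 2 - (3 * e1 + 2 * y + 3) ∧
    h₂.natDegree + E.natDegree + 3 * (t * d * g₂).natDegree ≤ ν + H0 + 2 - (3 * e1 + 2 * y + 3) ∧
    u.natDegree + 3 * (t * d * g₂).natDegree ≤ ν + H0 + 2 - (3 * e1 + 2 * y + 3) ∧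
    3 * t1 + h₁.natDegree + E.natDegree ≤ gl.natDegree + (dl + De) + 3 ∧
    3 * T₂ + h₂.natDegree + E.natDegree ≤ gl.natDegree + (dl + De) + 3 ∧
    3 * ((ν - h₁.natDegree + 2) / 3 - e1 + a + d.natDegree) + u.natDegree ≤
      gl.natDegree + (dl + De) + 2 := by
  have := B.deg
  unfold Sm
  omega

end Pool.Agent.H18Str

end
end

-- part H18M.Badw32
section

/-! h18m: the weight of the pairs that are not good (row BADW). -/

set_option autoImplicit false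
set_option linter.unusedSectionVars false
open Polynomial Finset CL5
open scoped Classical

noncomputable section
namespace CL3

variable {k : Type*} [Field k] [Fintype k] [CharP k 3]

theorem car_eq_iff {f g : k[X]} : car f = g ↔ derivative (derivative f) = -g ^ 3 := by
  have h := car_pow_three f
  simp only [Function.iterate_succ, Function.comp, Function.iterate_zero, id] at h
  constructor
  · rintro rfl; rw [h, neg_neg]
  · intro e; apply car_three_inj'; rw [h, e, neg_neg]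

theorem car_eq_zero_iff {f : k[X]} : car f = 0 ↔ derivative (derivative f) = 0 := by
  rw [car_eq_iff]; simp

/-- a reduced basis of the kernel of `h ↦ car (A h)` -/
def Dat32 (A c u h1 h2 : k[X]) : Prop :=
  A = c ^ 3 * u ∧ c.Monic ∧ u ≠ 0 ∧ h1 ≠ 0 ∧ h2 ≠ 0 ∧ car (A * h1) = 0 ∧ car (A * h2) = 0 ∧
    h1.natDegree % 3 ≠ h2.natDegree % 3 ∧ h1.natDegree + h2.natDegree = u.natDegree + 1 ∧
    ∀ h : k[X], car (A * h) = 0 → ∃ α β : k[X], h = α ^ 3 * h1 + β ^ 3 * h2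

theorem Dat32.symm {A c u h1 h2 : k[X]} (h : Dat32 A c u h1 h2) : Dat32 A c u h2 h1 := by
  obtain ⟨a1, a2, a3, a4, a5, a6, a7, a8, a9, a10⟩ := h
  refine ⟨a1, a2, a3, a5, a4, a7, a6, a8.symm, by omega, fun h hh => ?_⟩
  obtain ⟨α, β, e⟩ := a10 h hh
  exact ⟨β, α, by rw [e, add_comm]⟩

theorem bw_deg {h1 h2 : k[X]} (hd : h1.natDegree % 3 ≠ h2.natDegree % 3) (α β : k[X]) :
    (α ^ 3 * h1 + β ^ 3 * h2).degree = max (α ^ 3 * h1).degree (β ^ 3 * h2).degree := by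
  by_cases a0 : α ^ 3 * h1 = 0
  · simp [a0]
  by_cases b0 : β ^ 3 * h2 = 0
  · simp [b0]
  have a1 := natDegree_mul (left_ne_zero_of_mul a0) (right_ne_zero_of_mul a0)
  have b1 := natDegree_mul (left_ne_zero_of_mul b0) (right_ne_zero_of_mul b0)
  rw [natDegree_pow] at a1 b1
  rcases lt_or_gt_of_ne (show (α ^ 3 * h1).natDegree ≠ (β ^ 3 * h2).natDegree by omega)
    with hlt | hlt
  · have := degree_lt_degree hlt
    rw [degree_add_eq_right_of_degree_lt this, max_eq_right this.le]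
  · have := degree_lt_degree hlt
    rw [degree_add_eq_left_of_degree_lt this, max_eq_left this.le]

theorem bw_cube_box {h : k[X]} (hh : h ≠ 0) (α : k[X]) (N : ℕ) :
    α ^ 3 * h ∈ box k N ↔ α ∈ box k ((N - h.natDegree + 2) / 3) := by
  rw [mem_box, mem_box]
  by_cases a0 : α = 0
  · simp [a0]
  have e := natDegree_mul (pow_ne_zero 3 a0) hh
  rw [natDegree_pow] at e
  rw [← natDegree_lt_iff_degree_lt (mul_ne_zero (pow_ne_zero 3 a0) hh),
    ← natDegree_lt_iff_degree_lt a0, e]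
  omega

theorem bw_comb_box {h1 h2 : k[X]} (a1 : h1 ≠ 0) (a2 : h2 ≠ 0)
    (hd : h1.natDegree % 3 ≠ h2.natDegree % 3) (α β : k[X]) (N : ℕ) :
    α ^ 3 * h1 + β ^ 3 * h2 ∈ box k N ↔
      α ∈ box k ((N - h1.natDegree + 2) / 3) ∧ β ∈ box k ((N - h2.natDegree + 2) / 3) := by
  rw [← bw_cube_box a1, ← bw_cube_box a2, mem_box, mem_box, mem_box, bw_deg hd, max_lt_iff]

theorem bw_F {A c u h1 h2 : k[X]} (hD : Dat32 A c u h1 h2) (g : k[X]) (ν : ℕ) :
    (#{E ∈ mon k ν | car (A * E) = g} : ℝ) ≤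
      qq k ^ ((ν - h1.natDegree + 2) / 3 + (ν - h2.natDegree + 2) / 3) := by
  obtain ⟨-, -, -, a4, a5, -, -, a8, -, a10⟩ := hD
  rcases Finset.eq_empty_or_nonempty ({E ∈ mon k ν | car (A * E) = g} : Finset k[X]) with h | ⟨E0, h0⟩
  · rw [h]; simp only [card_empty, Nat.cast_zero]
    exact pow_nonneg (by linarith [two_le_qq (k := k)]) _
  rw [mem_filter, mem_mon] at h0
  have hs : ({E ∈ mon k ν | car (A * E) = g} : Finset k[X]) ⊆
      (box k ((ν - h1.natDegree + 2) / 3) ×ˢ box k ((ν - h2.natDegree + 2) / 3)).image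
        fun z => E0 + (z.1 ^ 3 * h1 + z.2 ^ 3 * h2) := by
    intro E hE
    rw [mem_filter, mem_mon] at hE
    obtain ⟨α, β, e⟩ := a10 (E - E0) (by rw [mul_sub, car_sub, hE.2, h0.2, sub_self])
    have hb : E - E0 ∈ box k ν := by
      rw [mem_box, ← hE.1.2, ← degree_eq_natDegree hE.1.1.ne_zero]
      refine degree_sub_lt_left ?_ hE.1.1.ne_zero (by rw [hE.1.1.leadingCoeff, h0.1.1.leadingCoeff])
      rw [degree_eq_natDegree hE.1.1.ne_zero, degree_eq_natDegree h0.1.1.ne_zero, hE.1.2, h0.1.2]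
    rw [e, bw_comb_box a4 a5 a8] at hb
    exact mem_image.mpr ⟨(α, β), mem_product.mpr hb, by rw [← e]; ring⟩
  calc _ ≤ (#(box k ((ν - h1.natDegree + 2) / 3) ×ˢ box k ((ν - h2.natDegree + 2) / 3)) : ℝ) := by
        exact_mod_cast (card_le_card hs).trans card_image_le
    _ = _ := by rw [card_product, Nat.cast_mul, card_box, card_box, pow_add]

theorem bw_bU {ι : Type*} {β : Type*} [DecidableEq β] (s : Finset ι) (f : ι → Finset β) {M : ℝ}
    (h : ∀ x ∈ s, (#(f x) : ℝ) ≤ M) : (#(s.biUnion f) : ℝ) ≤ #s * M := by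
  calc (#(s.biUnion f) : ℝ) ≤ ∑ x ∈ s, (#(f x) : ℝ) := by exact_mod_cast card_biUnion_le
    _ ≤ ∑ _x ∈ s, M := sum_le_sum h
    _ = _ := by rw [sum_const, nsmul_eq_mul]

theorem bw_cover {ι β : Type*} (I : Finset ι) (B : Finset β) (F : β → ℝ) (hF : ∀ p, 0 ≤ F p)
    (Q : ι → β → Prop) (h : ∀ p ∈ B, ∃ i ∈ I, Q i p) :
    ∑ p ∈ B, F p ≤ ∑ i ∈ I, ∑ p ∈ B with Q i p, F p := by
  simp only [sum_filter]
  rw [sum_comm]
  refine sum_le_sum fun p hp => ?_
  obtain ⟨i, hi, hq⟩ := h p hp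
  refine le_trans (by rw [if_pos hq]) (single_le_sum (f := fun i => if Q i p then F p else 0)
    (fun j _ => by split_ifs; exacts [hF p, le_rfl]) hi)

/-- monic divisors of a nonzero polynomial of degree at most `L` -/
def bwMd (L : ℕ) (f : k[X]) : Finset k[X] :=
  {d ∈ box k (L + 1) | d.Monic ∧ d ∣ f ∧ f ≠ 0 ∧ f.natDegree ≤ L}

theorem mem_bwMd {L : ℕ} {f d : k[X]} (hd : d.Monic) (h : d ∣ f) (hf : f ≠ 0)
    (hL : f.natDegree ≤ L) : d ∈ bwMd L f := by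
  refine mem_filter.mpr ⟨?_, hd, h, hf, hL⟩
  rw [mem_box, ← natDegree_lt_iff_degree_lt hd.ne_zero]
  have := natDegree_le_of_dvd h hf
  omega

section
variable {L : ℕ} {τ : ℝ}
  (hτ : ∀ f : k[X], f ≠ 0 → f.natDegree ≤ L → ∀ S : Finset k[X],
    (∀ d ∈ S, d.Monic ∧ d ∣ f) → (#S : ℝ) ≤ τ)
include hτ

theorem bw_one : 1 ≤ τ := by
  simpa using hτ 1 one_ne_zero (by simp) {1} (by simp)

theorem card_bwMd (f : k[X]) : (#(bwMd L f) : ℝ) ≤ τ := by
  by_cases h : f ≠ 0 ∧ f.natDegree ≤ L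
  · exact hτ f h.1 h.2 _ fun d hd => ⟨(mem_filter.mp hd).2.1, (mem_filter.mp hd).2.2.1⟩
  · have : bwMd L f = ∅ := filter_eq_empty_iff.mpr fun d _ hd => h hd.2.2
    rw [this]; simp only [card_empty, Nat.cast_zero]; linarith [bw_one hτ]

theorem bw_pairs (A : k[X]) :
    (#((bwMd L A).image fun κ => (A /ₘ κ, κ)) : ℝ) ≤ τ :=
  le_trans (by exact_mod_cast card_image_le) (card_bwMd hτ A)

omit hτ in
theorem bw_pairs_mem {p : k[X] × k[X]} {A : k[X]} (hp : p.2.Monic) (e : p.1 * p.2 = A)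
    (hA : A ≠ 0) (hL : A.natDegree ≤ L) : p ∈ (bwMd L A).image fun κ => (A /ₘ κ, κ) := by
  refine mem_image.mpr ⟨p.2, mem_bwMd hp ⟨p.1, by rw [← e, mul_comm]⟩ hA hL, ?_⟩
  rw [← e, mul_comm, mul_divByMonic_cancel_left _ hp]

theorem bw_class (U a e : ℕ) (h1 : U + a ≤ L) (h2 : 3 * e + U ≤ L) (S : Finset (k[X] × k[X]))
    (hS : ∀ p ∈ S, p.2.Monic ∧ ∃ c u h : k[X], p.1 * p.2 = c ^ 3 * u ∧ c.Monic ∧ u ≠ 0 ∧ h ≠ 0 ∧
      car (p.1 * p.2 * h) = 0 ∧ c.natDegree = e ∧ u.natDegree = U ∧ h.natDegree = a) :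
    (#S : ℝ) ≤ τ ^ 2 * qq k ^ (2 * ((U + a) / 3 + 1) + 1 + e) := by
  have hq : 0 < qq k := by linarith [two_le_qq (k := k)]
  have hs : S ⊆ (box k ((U + a) / 3 + 1) ×ˢ box k ((U + a) / 3 + 1)).biUnion fun z =>
      ((univ : Finset k) ×ˢ bwMd L (Phi z.1 z.2 0)).biUnion fun w =>
        (mon k e).biUnion fun c =>
          (bwMd L (c ^ 3 * (C w.1 * w.2))).image fun κ => (c ^ 3 * (C w.1 * w.2) /ₘ κ, κ) := by
    intro p hp
    obtain ⟨hm, c, u, h, e1, hc, hu, hh, hz, d1, d2, d3⟩ := hS p hp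
    rw [e1, mul_assoc, car_pow_mul, mul_eq_zero, or_iff_right hc.ne_zero] at hz
    have hP := Phi_car (u * h)
    rw [hz] at hP
    have hdeg : (u * h).natDegree = U + a := by rw [natDegree_mul hu hh, d2, d3]
    have hb : u * h ∈ box k (U + a + 1) := by
      rw [mem_box, ← natDegree_lt_iff_degree_lt (mul_ne_zero hu hh)]; omega
    rw [← hP, Phi_mem_box, mem_box, mem_box] at hb
    have hl : u.leadingCoeff ≠ 0 := leadingCoeff_ne_zero.mpr hu
    have eu : C u.leadingCoeff * (u * C u.leadingCoeff⁻¹) = u := by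
      rw [mul_left_comm, ← C_mul, mul_inv_cancel₀ hl, C_1, mul_one]
    refine mem_biUnion.mpr ⟨(car (X ^ 2 * (u * h)), car (X * (u * h))), mem_product.mpr
      ⟨mem_box.mpr (hb.1.trans_le (by exact_mod_cast (by omega))),
        mem_box.mpr (hb.2.1.trans_le (by exact_mod_cast (by omega)))⟩, ?_⟩
    refine mem_biUnion.mpr ⟨(u.leadingCoeff, u * C u.leadingCoeff⁻¹), mem_product.mpr
      ⟨mem_univ _, ?_⟩, mem_biUnion.mpr ⟨c, mem_mon.mpr ⟨hc, d1⟩, ?_⟩⟩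
    · simp only [hP]
      refine mem_bwMd (monic_mul_leadingCoeff_inv hu) ⟨C u.leadingCoeff * h, ?_⟩
        (mul_ne_zero hu hh) (by omega)
      linear_combination -h * eu
    · simp only [eu]
      refine bw_pairs_mem hm e1 (mul_ne_zero (pow_ne_zero _ hc.ne_zero) hu) ?_
      rw [natDegree_mul (pow_ne_zero _ hc.ne_zero) hu, natDegree_pow]; omega
  have hτ0 : 0 ≤ τ := by linarith [bw_one hτ]
  refine le_trans (by exact_mod_cast card_le_card hs) ((bw_bU _ _ (M := qq k * τ * (qq k ^ e * τ))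
    fun z _ => ?_).trans_eq ?_)
  · refine (bw_bU _ _ (M := qq k ^ e * τ) fun w _ => ?_).trans ?_
    · exact (bw_bU _ _ fun c _ => bw_pairs hτ _).trans_eq (by rw [card_mon])
    · refine mul_le_mul_of_nonneg_right ?_ (by positivity)
      rw [card_product, Nat.cast_mul, card_univ]
      exact mul_le_mul_of_nonneg_left (card_bwMd hτ _) (Nat.cast_nonneg _)
  · rw [card_product, Nat.cast_mul, card_box]; ring

theorem bw_square (M y : ℕ) (hM : M ≤ L) (S : Finset (k[X] × k[X]))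
    (hS : ∀ p ∈ S, p.2.Monic ∧ p.1 * p.2 ≠ 0 ∧ (p.1 * p.2).natDegree < M ∧
      ∃ d : k[X], d ^ 2 ∣ p.1 * p.2 ∧ y < d.natDegree) :
    (#S : ℝ) ≤ (M + 1) * (τ * qq k ^ (M - y)) := by
  have hq : 1 ≤ qq k := by linarith [two_le_qq (k := k)]
  have hτ0 : 0 ≤ τ := by linarith [bw_one hτ]
  have hs : S ⊆ ({D ∈ range (M + 1) | y < D ∧ 2 * D ≤ M} : Finset ℕ).biUnion fun D =>
      (mon k D).biUnion fun d => (box k (M - 2 * D)).biUnion fun b =>
        (bwMd L (d ^ 2 * b)).image fun κ => (d ^ 2 * b /ₘ κ, κ) := by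
    intro p hp
    obtain ⟨hm, h0, hlt, d, hd, hy⟩ := hS p hp
    have d0 : d ≠ 0 := by rintro rfl; simp at hy
    obtain ⟨d', m', e', dv⟩ := exists_monic80 d0
    obtain ⟨b, hb⟩ : d' ^ 2 ∣ p.1 * p.2 := (pow_dvd_pow_of_dvd ((dv d).mpr dvd_rfl) 2).trans hd
    have b0 : b ≠ 0 := by rintro rfl; exact h0 (by rw [hb, mul_zero])
    have hn := natDegree_mul (pow_ne_zero 2 m'.ne_zero) b0
    rw [← hb, natDegree_pow] at hn
    refine mem_biUnion.mpr ⟨d'.natDegree, mem_filter.mpr ⟨mem_range.mpr (by omega), by omega,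
      by omega⟩, mem_biUnion.mpr ⟨d', mem_mon.mpr ⟨m', rfl⟩, mem_biUnion.mpr ⟨b, ?_, ?_⟩⟩⟩
    · rw [mem_box, ← natDegree_lt_iff_degree_lt b0]; omega
    · exact bw_pairs_mem hm hb (hb ▸ h0) (by rw [← hb]; omega)
  refine le_trans (by exact_mod_cast card_le_card hs) ((bw_bU _ _ (M := τ * qq k ^ (M - y))
    fun D hD => ?_).trans ?_)
  · obtain ⟨-, h1, h2⟩ := mem_filter.mp hD
    refine (bw_bU _ _ (M := qq k ^ (M - 2 * D) * τ) fun d _ => ?_).trans ?_
    · exact (bw_bU _ _ fun c _ => bw_pairs hτ _).trans_eq (by rw [card_box])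
    · rw [card_mon, ← mul_assoc, ← pow_add, mul_comm]
      exact mul_le_mul_of_nonneg_left (pow_le_pow_right₀ hq (by omega)) hτ0
  · refine mul_le_mul_of_nonneg_right ?_ (by positivity)
    exact_mod_cast (card_filter_le _ _).trans_eq (card_range _)

end

theorem bw_pow {E n y : ℕ} (h : E + y / 6 ≤ n + 5) :
    qq k ^ E ≤ qq k ^ (n + 5) / qq k ^ (y / 6) := by
  have hq : 1 ≤ qq k := by linarith [two_le_qq (k := k)]
  rw [le_div_iff₀ (by positivity), ← pow_add]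
  exact pow_le_pow_right₀ hq h

theorem dat32_exists {A : k[X]} (hA : A ≠ 0) : ∃ c u h1 h2 : k[X], Dat32 A c u h1 h2 := by
  obtain ⟨c, u, h1, h2, a1, a2, -, a4, a5, a6, a7, -, a9, a10, a11, a12⟩ :=
    Pool.Agent.H18Str.st_basis hA
  exact ⟨c, u, h1, h2, a2, a1, fun e => hA (by rw [a2, e, mul_zero]), a4, a5,
    car_eq_zero_iff.mpr a6, car_eq_zero_iff.mpr a7, by omega, a9,
    fun h hh => a12 h (car_eq_zero_iff.mp hh)⟩

/-- BADW -/
theorem badw32 (n ka y : ℕ) {τ : ℝ}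
    (hτ : ∀ f : k[X], f ≠ 0 → f.natDegree ≤ 9 * n → ∀ S : Finset k[X],
      (∀ d ∈ S, d.Monic ∧ d ∣ f) → (#S : ℝ) ≤ τ)
    (hka : ka ≤ n / 2) (hy : 1 ≤ y) (B : Finset (k[X] × k[X]))
    (hB : ∀ p ∈ B, p.1 ≠ 0 ∧ p.1 ∈ box k (n / 2) ∧ p.2 ∈ mon k ka ∧
      (p.1.natDegree + y < n / 2 ∨ (∃ d : k[X], d ^ 2 ∣ p.1 * p.2 ∧ y < d.natDegree) ∨
        ∃ c u h1 h2 : k[X], Dat32 (p.1 * p.2) c u h1 h2 ∧
          (n / 2 + ka + 3 * y < 2 * h1.natDegree ∨ n / 2 + ka + 3 * y < 2 * h2.natDegree))) :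
    ∑ p ∈ B, (#{E ∈ mon k (n - ka) | car (p.1 * p.2 * E) = p.1} : ℝ) ≤
      2 * ((n : ℝ) + 1) ^ 3 * τ ^ 2 * (qq k ^ (n + 5) / qq k ^ (y / 6)) := by
  have hq : 1 ≤ qq k := by linarith [two_le_qq (k := k)]
  have h1τ := bw_one hτ
  set F : k[X] × k[X] → ℝ := fun p => (#{E ∈ mon k (n - ka) | car (p.1 * p.2 * E) = p.1} : ℝ)
    with hF
  set W : ℝ := qq k ^ (n + 5) / qq k ^ (y / 6) with hW
  have W0 : 0 ≤ W := by positivity
  have basic : ∀ p ∈ B, p.2.Monic ∧ p.1 * p.2 ≠ 0 ∧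
      (p.1 * p.2).natDegree = p.1.natDegree + ka ∧ p.1.natDegree < n / 2 := by
    intro p hp
    obtain ⟨a, b, c, -⟩ := hB p hp
    rw [mem_mon] at c
    rw [mem_box, ← natDegree_lt_iff_degree_lt a] at b
    exact ⟨c.1, mul_ne_zero a c.1.ne_zero, by rw [natDegree_mul a c.1.ne_zero, c.2], b⟩
  let Q1 : ℕ × ℕ × ℕ → k[X] × k[X] → Prop := fun i p => ∃ c u h1 h2 : k[X],
    Dat32 (p.1 * p.2) c u h1 h2 ∧ h1.natDegree < h2.natDegree ∧ u.natDegree = i.1 ∧
      h1.natDegree = i.2.1 ∧ c.natDegree = i.2.2 ∧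
      y + 2 * i.2.1 + i.1 < 2 * (n / 2 + ka)
  let Q2 : k[X] × k[X] → Prop := fun p => (∃ d : k[X], d ^ 2 ∣ p.1 * p.2 ∧ y < d.natDegree) ∧
    F p ≤ qq k ^ ((4 * (n - ka) + y + 12 - 2 * (n / 2 + ka)) / 6)
  let Q : Option (ℕ × ℕ × ℕ) → k[X] × k[X] → Prop := fun i p => i.elim (Q2 p) fun j => Q1 j p
  have degs : ∀ p ∈ B, ∀ c u h1 h2 : k[X], Dat32 (p.1 * p.2) c u h1 h2 →
      3 * c.natDegree + u.natDegree = p.1.natDegree + ka ∧
        h1.natDegree + h2.natDegree = u.natDegree + 1 := by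
    intro p hp c u h1 h2 hD
    obtain ⟨-, -, b3, -⟩ := basic p hp
    refine ⟨?_, hD.2.2.2.2.2.2.2.2.1⟩
    rw [← b3, hD.1, natDegree_mul (pow_ne_zero _ hD.2.1.ne_zero) hD.2.2.1, natDegree_pow]
  have cov : ∀ p ∈ B, ∃ i ∈ insertNone (range (n + 1) ×ˢ range (n + 1) ×ˢ range (n + 1)),
      Q i p := by
    intro p hp
    obtain ⟨b1, b2, b3, b4⟩ := basic p hp
    obtain ⟨c, u, h1, h2, hD, hlt, hbad⟩ : ∃ c u h1 h2 : k[X], Dat32 (p.1 * p.2) c u h1 h2 ∧
        h1.natDegree < h2.natDegree ∧ (p.1.natDegree + y < n / 2 ∨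
          (∃ d : k[X], d ^ 2 ∣ p.1 * p.2 ∧ y < d.natDegree) ∨
          n / 2 + ka + 3 * y < 2 * h2.natDegree) := by
      have sw : ∀ c u h1 h2 : k[X], Dat32 (p.1 * p.2) c u h1 h2 →
          h1.natDegree < h2.natDegree ∨ h2.natDegree < h1.natDegree := by
        intro c u h1 h2 hD
        have := hD.2.2.2.2.2.2.2.1
        omega
      obtain ⟨c, u, h1, h2, hD⟩ := dat32_exists b2
      rcases (hB p hp).2.2.2 with h | h | ⟨c', u', g1, g2, hD', h⟩
      · rcases sw _ _ _ _ hD with l | l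
        exacts [⟨c, u, h1, h2, hD, l, Or.inl h⟩, ⟨c, u, h2, h1, hD.symm, l, Or.inl h⟩]
      · rcases sw _ _ _ _ hD with l | l
        exacts [⟨c, u, h1, h2, hD, l, Or.inr (Or.inl h)⟩,
          ⟨c, u, h2, h1, hD.symm, l, Or.inr (Or.inl h)⟩]
      · rcases sw _ _ _ _ hD' with l | l
        exacts [⟨c', u', g1, g2, hD', l, Or.inr (Or.inr (by omega))⟩,
          ⟨c', u', g2, g1, hD'.symm, l, Or.inr (Or.inr (by omega))⟩]
    obtain ⟨d1, d2⟩ := degs p hp c u h1 h2 hD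
    by_cases hc : y + 2 * h1.natDegree + u.natDegree < 2 * (n / 2 + ka)
    · refine ⟨some (u.natDegree, h1.natDegree, c.natDegree), ?_,
        c, u, h1, h2, hD, hlt, rfl, rfl, rfl, hc⟩
      simp only [some_mem_insertNone, mem_product, mem_range]
      omega
    · refine ⟨none, none_mem_insertNone, ?_, (bw_F hD _ _).trans (pow_le_pow_right₀ hq ?_)⟩
      · rcases hbad with h | h | h
        · omega
        · exact h
        · omega
      · omega
  refine (bw_cover _ B F (fun p => Nat.cast_nonneg _) Q cov).trans ?_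
  rw [sum_insertNone]
  have p2 : ∑ p ∈ B with Q none p, F p ≤ ((n : ℝ) + 1) ^ 3 * τ ^ 2 * W := by
    by_cases hyM : y ≤ n / 2 + ka
    · have c2 := bw_square hτ (n / 2 + ka) y (by omega) {p ∈ B | Q none p} fun p hp => by
        obtain ⟨hp, hq⟩ := mem_filter.mp hp
        obtain ⟨b1, b2, b3, b4⟩ := basic p hp
        exact ⟨b1, b2, by omega, hq.1⟩
      calc _ ≤ ∑ _p ∈ B with Q none _p,
            qq k ^ ((4 * (n - ka) + y + 12 - 2 * (n / 2 + ka)) / 6) :=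
            sum_le_sum fun p hp => (mem_filter.mp hp).2.2
        _ ≤ (((n / 2 + ka : ℕ) : ℝ) + 1) * (τ * qq k ^ (n / 2 + ka - y)) *
            qq k ^ ((4 * (n - ka) + y + 12 - 2 * (n / 2 + ka)) / 6) := by
            rw [sum_const, nsmul_eq_mul]
            exact mul_le_mul_of_nonneg_right c2 (by positivity)
        _ = (((n / 2 + ka : ℕ) : ℝ) + 1) * τ * qq k ^ (n / 2 + ka - y +
            (4 * (n - ka) + y + 12 - 2 * (n / 2 + ka)) / 6) := by rw [pow_add]; ring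
        _ ≤ _ := by
            have e1 : (((n / 2 + ka : ℕ) : ℝ) + 1) ≤ ((n : ℝ) + 1) ^ 3 := by
              have : ((n / 2 + ka : ℕ) : ℝ) ≤ n := by exact_mod_cast (by omega)
              exact le_trans (by linarith) (le_self_pow₀ (by linarith [Nat.cast_nonneg (α := ℝ) n])
                (by norm_num))
            have e2 : τ ≤ τ ^ 2 := le_self_pow₀ h1τ (by norm_num)
            exact mul_le_mul (mul_le_mul e1 e2 (by linarith) (by positivity))
              (bw_pow (by omega)) (by positivity) (by positivity)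
    · have : ({p ∈ B | Q none p} : Finset _) = ∅ := by
        refine filter_eq_empty_iff.mpr fun p hp hq => ?_
        obtain ⟨b1, b2, b3, b4⟩ := basic p hp
        obtain ⟨d, hd, hy'⟩ := hq.1
        have := natDegree_le_of_dvd hd b2
        rw [natDegree_pow] at this
        omega
      rw [this, sum_empty]; positivity
  have p1 : ∀ i ∈ range (n + 1) ×ˢ range (n + 1) ×ˢ range (n + 1),
      ∑ p ∈ B with Q (some i) p, F p ≤ τ ^ 2 * W := by
    rintro ⟨U, a, e⟩ hi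
    simp only [mem_product, mem_range] at hi
    rcases Finset.eq_empty_or_nonempty ({p ∈ B | Q (some (U, a, e)) p} : Finset _) with h | ⟨p0, h0⟩
    · rw [h, sum_empty]; positivity
    obtain ⟨hp0, c0, u0, g1, g2, hD0, l0, x1, x2, x3, x4⟩ := mem_filter.mp h0
    obtain ⟨d1, d2⟩ := degs p0 hp0 c0 u0 g1 g2 hD0
    obtain ⟨-, -, -, b4⟩ := basic p0 hp0
    simp only at x1 x2 x3 x4
    have c1 := bw_class hτ U a e (by omega) (by omega) {p ∈ B | Q (some (U, a, e)) p}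
      fun p hp => by
        obtain ⟨hp, c, u, h1, h2, hD, l, y1, y2, y3, -⟩ := mem_filter.mp hp
        exact ⟨(basic p hp).1, c, u, h1, hD.1, hD.2.1, hD.2.2.1, hD.2.2.2.1, hD.2.2.2.2.2.1,
          y3, y1, y2⟩
    calc _ ≤ ∑ _p ∈ B with Q (some (U, a, e)) _p,
          qq k ^ ((n - ka - a + 2) / 3 + (n - ka - (U + 1 - a) + 2) / 3) := by
          refine sum_le_sum fun p hp => ?_
          obtain ⟨hp, c, u, h1, h2, hD, l, y1, y2, y3, -⟩ := mem_filter.mp hp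
          obtain ⟨-, z2⟩ := degs p hp c u h1 h2 hD
          simp only at y1 y2 y3
          exact (bw_F hD _ _).trans (pow_le_pow_right₀ hq (by omega))
      _ ≤ τ ^ 2 * qq k ^ (2 * ((U + a) / 3 + 1) + 1 + e) *
          qq k ^ ((n - ka - a + 2) / 3 + (n - ka - (U + 1 - a) + 2) / 3) := by
          rw [sum_const, nsmul_eq_mul]
          exact mul_le_mul_of_nonneg_right c1 (by positivity)
      _ ≤ _ := by
          rw [mul_assoc, ← pow_add]
          exact mul_le_mul_of_nonneg_left (bw_pow (by omega)) (by positivity)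
  have p1' := sum_le_sum p1
  rw [sum_const, nsmul_eq_mul, card_product, card_product, card_range] at p1'
  push_cast at p1'
  calc _ ≤ ((n : ℝ) + 1) ^ 3 * τ ^ 2 * W + ((n : ℝ) + 1) * (((n : ℝ) + 1) * ((n : ℝ) + 1)) *
        (τ ^ 2 * W) := add_le_add p2 p1'
    _ = _ := by ring

theorem bw_sqf {A : k[X]} (hA : A ≠ 0) : ∃ a b : k[X], b ^ 2 * a = A ∧ Squarefree a := by
  induction hn : A.natDegree using Nat.strong_induction_on generalizing A with
  | _ n ih =>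
    by_cases h : Squarefree A
    · exact ⟨A, 1, by simp, h⟩
    · obtain ⟨r, hr'⟩ := not_forall.mp h
      obtain ⟨⟨B, hB⟩, hr⟩ := Classical.not_imp.mp hr'
      have hr0 : r ≠ 0 := by rintro rfl; exact hA (by rw [hB]; simp)
      have hB0 : B ≠ 0 := by rintro rfl; exact hA (by rw [hB]; simp)
      have hd : 0 < r.natDegree := natDegree_pos_iff_degree_pos.mpr
        (degree_pos_of_ne_zero_of_nonunit hr0 hr)
      have hlt : B.natDegree < n := by
        rw [← hn, hB, natDegree_mul (mul_ne_zero hr0 hr0) hB0, natDegree_mul hr0 hr0]; omega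
      obtain ⟨a, b, e, ha⟩ := ih _ hlt hB0 rfl
      exact ⟨a, r * b, by rw [hB, ← e]; ring, ha⟩

theorem bw_gcd (x y : k[X]) : ∃ d x' y' : k[X], x = d * x' ∧ y = d * y' ∧ IsCoprime x' y' := by
  obtain ⟨x', y', h1, h2, h3⟩ := extract_gcd x y
  exact ⟨_, x', y', h1, h2, (gcd_isUnit_iff _ _).mp h3⟩

/-- a good `g` is a squarefree part prime to the rest times a small part -/
theorem good_split32 {g κ : k[X]} (hg : g ≠ 0) (hκ : κ ≠ 0) {y : ℕ}
    (h : ∀ d : k[X], d ^ 2 ∣ g * κ → d.natDegree ≤ y) :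
    ∃ gf gs : k[X], g = gf * gs ∧ gf.Monic ∧ Squarefree gf ∧ IsCoprime gf (gs * κ) ∧
      gs.natDegree ≤ 3 * y := by
  obtain ⟨a, b, e, ha⟩ := bw_sqf (mul_ne_zero hg hκ)
  have hb : b.natDegree ≤ y := h b ⟨a, e.symm⟩
  have b0 : b ≠ 0 := by rintro rfl; exact mul_ne_zero hg hκ (by rw [← e]; simp)
  obtain ⟨g1, g', a', e1, e2, c1⟩ := bw_gcd g a
  obtain ⟨g2, f0, b', e3, e4, c2⟩ := bw_gcd g1 b
  have g10 : g1 ≠ 0 := by rintro rfl; exact hg (by rw [e1, zero_mul])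
  have f00 : f0 ≠ 0 := by rintro rfl; exact g10 (by rw [e3, mul_zero])
  have g20 : g2 ≠ 0 := by rintro rfl; exact g10 (by rw [e3, zero_mul])
  have g'0 : g' ≠ 0 := by rintro rfl; exact hg (by rw [e1, mul_zero])
  have e5 : g' * κ = b ^ 2 * a' := mul_left_cancel₀ g10 (by
    linear_combination -e - κ * e1 + b ^ 2 * e2)
  have hs : Squarefree (f0 * (g2 * a')) := by
    rw [show f0 * (g2 * a') = a by rw [e2, e3]; ring]; exact ha
  obtain ⟨r1, r2, -⟩ := squarefree_mul_iff.mp hs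
  have r3 : IsCoprime f0 (g2 * a') := r1.isCoprime
  have r4 : IsCoprime f0 b := e4 ▸ r3.of_mul_right_left.mul_right c2
  have r5 : IsCoprime f0 (g2 * g' * κ) := by
    rw [show g2 * g' * κ = b ^ 2 * (g2 * a') by linear_combination g2 * e5]
    exact r4.pow_right.mul_right r3
  have d1 := natDegree_le_of_dvd (c1.dvd_of_dvd_mul_right ⟨κ, e5.symm⟩) (pow_ne_zero 2 b0)
  have d2 := natDegree_le_of_dvd (⟨b', e4⟩ : g2 ∣ b) b0
  rw [natDegree_pow] at d1
  have hl : f0.leadingCoeff ≠ 0 := leadingCoeff_ne_zero.mpr f00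
  have eu : C f0.leadingCoeff⁻¹ * C f0.leadingCoeff = (1 : k[X]) := by
    rw [← C_mul, inv_mul_cancel₀ hl, C_1]
  have u1 : IsUnit (C f0.leadingCoeff⁻¹ : k[X]) := isUnit_C.mpr (IsUnit.mk0 _ (inv_ne_zero hl))
  have u2 : IsUnit (C f0.leadingCoeff : k[X]) := isUnit_C.mpr (IsUnit.mk0 _ hl)
  refine ⟨f0 * C f0.leadingCoeff⁻¹, C f0.leadingCoeff * (g2 * g'), ?_,
    monic_mul_leadingCoeff_inv f00, ?_, ?_, ?_⟩
  · rw [e1, e3]; linear_combination -(f0 * g2 * g') * eu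
  · exact r2.squarefree_of_dvd ⟨C f0.leadingCoeff, by linear_combination -f0 * eu⟩
  · rw [mul_assoc, isCoprime_mul_unit_right_left u1, isCoprime_mul_unit_left_right u2]
    exact r5
  · rw [natDegree_C_mul hl, natDegree_mul g20 g'0]; omega

end CL3

end
end

-- part H18M.LNum95
section

/-! h18m: numerics of the right-hand side of `line_main26`. -/

set_option autoImplicit false

open Polynomial Finset CL5
open scoped Classical

noncomputable section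
namespace H18M

variable {k : Type} [Field k] [Fintype k]

theorem ln95_pow {a b : ℕ} (h : a ≤ b) : qq k ^ a ≤ qq k ^ b :=
  pow_le_pow_right₀ (by linarith [two_le_qq (k := k)]) h

theorem ln95_two (a : ℕ) : (2 : ℝ) ^ a ≤ qq k ^ a :=
  pow_le_pow_left₀ (by norm_num) two_le_qq a

theorem ln95_add {a b c : ℕ} (ha : a ≤ c) (hb : b ≤ c) : qq k ^ a + qq k ^ b ≤ qq k ^ (c + 1) := by
  have q2 := two_le_qq (k := k)
  have h1 := ln95_pow (k := k) ha
  have h2 := ln95_pow (k := k) hb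
  have h3 : qq k ^ c * 2 ≤ qq k ^ c * qq k := by gcongr
  rw [pow_succ]
  linarith

theorem ln95_sqrt (a : ℕ) : √(qq k ^ (2 * a)) = qq k ^ a := by
  have q2 := two_le_qq (k := k)
  rw [pow_mul', Real.sqrt_sq (by positivity)]

/-- the hypothesis `hβ` of `line_main26` for `β = 1 / q ^ (2 * b)` -/
theorem beta95 {R' L h0 b : ℕ} (h1 : 2 * (2 * b * 2 ^ R' + R' + 4) ≤ L)
    (h2 : 2 * b * 2 ^ R' + R' + 1 ≤ h0) :
    5 * 2 ^ R' / √(qq k ^ L) + 2 ^ R' / qq k ^ h0 ≤ (1 / qq k ^ (2 * b)) ^ 2 ^ R' := by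
  have q2 := two_le_qq (k := k)
  rw [one_div_pow, ← pow_mul]
  generalize 2 * b * 2 ^ R' = B at h1 h2 ⊢
  have a1 : qq k ^ (B + R' + 4) ≤ √(qq k ^ L) := by
    rw [← ln95_sqrt]
    exact Real.sqrt_le_sqrt (ln95_pow h1)
  have a2 : qq k ^ (B + R' + 1) ≤ qq k ^ h0 := ln95_pow h2
  have a3 := ln95_two (k := k) R'
  have a4 := ln95_two (k := k) 4
  calc _ ≤ 5 * qq k ^ R' / qq k ^ (B + R' + 4) + qq k ^ R' / qq k ^ (B + R' + 1) := by gcongr
    _ = (5 / qq k ^ 4 + 1 / qq k) * (1 / qq k ^ B) := by field_simp; ring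
    _ ≤ (5 / 2 ^ 4 + 1 / 2) * (1 / qq k ^ B) := by gcongr
    _ ≤ 1 * (1 / qq k ^ B) := by gcongr; norm_num
    _ = _ := one_mul _

/-- the right-hand side of `line_main26` for `β = 1 / q ^ (2 * b)` -/
theorem rhs95 {m ka y len tt R l L De r T b nf X : ℕ} {τ NF : ℝ} (hτ0 : 0 ≤ τ)
    (hτ : τ ≤ qq k ^ T) (hka : (ka : ℝ) + 1 ≤ qq k ^ T) (hNF : NF ≤ qq k ^ nf)
    (n1 : ka + (3 * y + 1) + (De + l - L) + len + (r + 2) * T ≤ X)
    (n2 : m + (2 * ka + 2 * l + 2 * (3 * y + 1)) + (tt + R) + (len + max len m) +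
      (2 * r + 4) * T + 1 ≤ 2 * X)
    (n3 : m + (m + ka + 2 * (3 * y + 1) + l + (2 * y + 2)) + (tt + R) + (len + max len m) +
      (2 * r + 3) * T + 1 ≤ 2 * X)
    (n4 : nf + tt + r * T ≤ X + b) :
    ((ka : ℝ) + 1) * (qq k ^ (ka + (3 * y + 1) + (De + l - L)) * (τ * (qq k ^ len * τ ^ r))) +
      (√(qq k ^ m * τ) *
        √((qq k ^ (2 * ka + 2 * l + 2 * (3 * y + 1)) * τ +
            qq k ^ (m + ka + 2 * (3 * y + 1) + l + (2 * y + 2))) *
          (qq k ^ (tt + R) * (τ ^ r * τ) ^ 2) * (qq k ^ len * qq k ^ max len m)) +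
      √(1 / qq k ^ (2 * b)) * (NF * (qq k ^ tt * τ ^ r))) ≤ 3 * qq k ^ X := by
  have q2 := two_le_qq (k := k)
  generalize ka + (3 * y + 1) + (De + l - L) = A1 at n1 ⊢
  generalize 2 * ka + 2 * l + 2 * (3 * y + 1) = A2 at n2 ⊢
  generalize m + ka + 2 * (3 * y + 1) + l + (2 * y + 2) = A3 at n3 ⊢
  generalize tt + R = A4 at n2 n3 ⊢
  generalize max len m = A5 at n2 n3 ⊢
  have t1 : ((ka : ℝ) + 1) * (qq k ^ A1 * (τ * (qq k ^ len * τ ^ r))) ≤ qq k ^ X := by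
    calc _ ≤ qq k ^ T * (qq k ^ A1 * (qq k ^ T * (qq k ^ len * (qq k ^ T) ^ r))) := by gcongr
      _ = qq k ^ (A1 + len + (r + 2) * T) := by ring
      _ ≤ _ := ln95_pow n1
  have t2 : √(qq k ^ m * τ) * √((qq k ^ A2 * τ + qq k ^ A3) *
      (qq k ^ A4 * (τ ^ r * τ) ^ 2) * (qq k ^ len * qq k ^ A5)) ≤ qq k ^ X := by
    rw [← Real.sqrt_mul (by positivity), ← ln95_sqrt X]
    refine Real.sqrt_le_sqrt ?_
    obtain ⟨c, hc⟩ : ∃ c, c = max (A2 + T) A3 := ⟨_, rfl⟩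
    have a1 : qq k ^ A2 * τ + qq k ^ A3 ≤ qq k ^ (c + 1) := by
      refine le_trans ?_ (ln95_add (a := A2 + T) (b := A3) (by omega) (by omega))
      rw [pow_add]
      gcongr
    have a2 : (2 * r + 4) * T = (2 * r + 3) * T + T := by ring
    calc _ ≤ qq k ^ m * qq k ^ T * (qq k ^ (c + 1) *
          (qq k ^ A4 * ((qq k ^ T) ^ r * qq k ^ T) ^ 2) * (qq k ^ len * qq k ^ A5)) := by gcongr
      _ = qq k ^ (m + c + A4 + (len + A5) + (2 * r + 3) * T + 1) := by ring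
      _ ≤ _ := ln95_pow (by omega)
  have t3 : √(1 / qq k ^ (2 * b)) * (NF * (qq k ^ tt * τ ^ r)) ≤ qq k ^ X := by
    rw [Real.sqrt_div zero_le_one, Real.sqrt_one, ln95_sqrt, one_div_mul_eq_div,
      div_le_iff₀ (by positivity), ← pow_add]
    calc _ ≤ qq k ^ nf * (qq k ^ tt * (qq k ^ T) ^ r) := by gcongr
      _ = qq k ^ (nf + tt + r * T) := by ring
      _ ≤ _ := ln95_pow n4
  linarith

end H18M

end
end
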