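import Pool.Agent.MP_2033ac_nt.SI.P2
import Pool.Agent.MP_d0fd9b_nt.P3.M1
import Pool.Agent.H92F.Box

-- part H18M.Weilp5
section

/-! Prime sums of Hayes characters and of logarithmic derivative phases. -/

set_option autoImplicit false

open Polynomial Finset
open scoped Classical

noncomputable section
namespace Pool.Agent.H18M.W5
open Pool.Agent.MP_a4a062_nt.C2 Pool.Agent.MP_2033ac_nt.SI
open Pool.Agent.MP_1609a8_nt.H76 (ch mem_Mon ch_mem mp_int)

variable {k : Type} [Field k] [Fintype k]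

theorem hay2 {d : k[X]} (hd : d.Monic) (n : ℕ) : ∃ (Γ : Type) (_ : CommGroup Γ) (_ : Fintype Γ)
    (cl : k[X] → Γ),
    (∀ f g : k[X], f.Monic → g.Monic → IsCoprime f d → IsCoprime g d → cl (f * g) = cl f * cl g) ∧
    (∀ f g : k[X], f.Monic → g.Monic → IsCoprime f d → IsCoprime g d → f.natDegree = g.natDegree →
      cl f = cl g → d ∣ f - g ∧ (f - g).degree < (f.natDegree - n : ℕ)) ∧
    (∀ (N : ℕ) (c : Γ), d.natDegree + n ≤ N →
      ∃ f : k[X], f.Monic ∧ f.natDegree = N ∧ IsCoprime f d ∧ cl f = c) ∧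
    ∀ χ : Γ →* ℂ, χ ≠ 1 → ∀ e : ℕ, 0 < e →
      ‖∑ P ∈ prs k e with IsCoprime P d, χ (cl P)‖ ≤
        ((d.natDegree : ℝ) + n + 2) * √(qq k ^ e) := by
  obtain ⟨A, _, _, _, α, β, Γ, cl, h1, h2, h3, h4⟩ := cls hd n
  have : Fintype Γ := Fintype.ofFinite _
  refine ⟨Γ, inferInstance, inferInstance, cl, fun f g hf hg cf cg => ?_,
    fun f g hf hg cf cg e h => ?_, fun N c hN => ?_, fun χ hχ e he => ?_⟩
  · refine Subtype.ext (Units.ext ?_)
    rw [h2 _ (hf.mul hg) (cf.mul_left cg), hm_mul α β hf hg, ← h2 f hf cf, ← h2 g hg cg]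
    rfl
  · rw [← h3 f g hf hg e, ← h2 f hf cf, ← h2 g hg cg, h]
  · have h5 := h4 N c hN
    have h6 : 0 < qq k ^ (N - (d.natDegree + n)) := by
      refine pow_pos ?_ _
      unfold qq
      exact_mod_cast Fintype.card_pos
    rw [← h5, Nat.cast_pos, card_pos] at h6
    obtain ⟨f, hf⟩ := h6
    rw [mem_filter, mem_mon] at hf
    exact ⟨f, hf.1.1, hf.1.2, hf.2.1, hf.2.2⟩
  have hz : ∀ χ : Γ →* ℂ, χ ≠ 1 → ∀ N, d.natDegree + n ≤ N →
      ∑ f ∈ mon k N, (if IsUnit (hm α β f) then χ (cl f) else 0) = 0 := by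
    intro χ hχ N hN
    have e1 : ∑ f ∈ mon k N, (if IsUnit (hm α β f) then χ (cl f) else 0) =
        ∑ f ∈ mon k N with IsCoprime f d, χ (cl f) := by
      rw [sum_filter]
      exact sum_congr rfl fun f hf => by simp only [h1 f (mem_mon.1 hf).1]
    have e2 : ∀ c : Γ, ∑ f ∈ {f ∈ mon k N | IsCoprime f d} with cl f = c, χ (cl f) =
        ((qq k ^ (N - (d.natDegree + n)) : ℝ) : ℂ) * χ c := fun c => by
      rw [sum_congr rfl (g := fun _ => χ c) fun f hf => by rw [(mem_filter.1 hf).2], sum_const,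
        nsmul_eq_mul, filter_filter, ← h4 N c hN, Complex.ofReal_natCast]
    rw [e1, ← sum_fiberwise (g := cl), sum_congr rfl fun c _ => e2 c, ← mul_sum,
      sum_hom_units_eq_zero χ hχ, mul_zero]
  have hb : ∀ (E : Type) [Field E] [Fintype E] [Algebra k E],
      #{x : E | ¬ IsUnit (hm α β (ch k x))} ≤ d.natDegree := by
    intro E _ _ _
    refine le_trans (card_le_card (t := (d.aroots E).toFinset) fun x hx => ?_)
      ((Multiset.toFinset_card_le _).trans ((card_roots' _).trans natDegree_map_le))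
    rw [Multiset.mem_toFinset, mem_aroots]
    refine ⟨hd.ne_zero, ?_⟩
    by_contra h
    refine (mem_filter.1 hx).2 ((h1 _ (mem_Mon.1 (ch_mem x)).1).2 ?_)
    exact IsCoprime.pow_left ((minpoly.irreducible (mp_int x)).coprime_iff_not_dvd.2
      fun e => h (aeval_eq_zero_of_dvd_aeval_eq_zero e (minpoly.aeval k x)))
  have key := prs_le (fun f => if IsUnit (hm α β f) then χ (cl f) else 0) (fun f => ?_)
    (e := e) he (B := (d.natDegree + n - 1 : ℕ)) (Nat.cast_nonneg _) fun E _ _ _ _ =>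
      rha A α β Γ cl (fun f hf h => h2 f hf ((h1 f hf).1 h)) _ _ hz hb χ hχ E
  · rw [sum_congr rfl (g := fun P => if IsCoprime P d then χ (cl P) else 0) fun P hP => ?_,
      ← sum_filter] at key
    · refine key.trans (mul_le_mul_of_nonneg_right ?_ (Real.sqrt_nonneg _))
      have : ((d.natDegree + n - 1 : ℕ) : ℝ) ≤ (d.natDegree + n : ℕ) := by
        exact_mod_cast Nat.sub_le _ _
      push_cast at this
      linarith
    · simp only [h1 P (mem_mon.1 (mem_filter.1 hP).1).1]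
  · split_ifs
    · have h5 : χ (cl f) ^ orderOf (cl f) = 1 := by rw [← map_pow, pow_orderOf_eq_one, map_one]
      exact (Complex.norm_eq_one_of_pow_eq_one h5 (orderOf_pos _).ne').le
    · simp

/-- The Riemann hypothesis for an abstractly given Hayes character, on primes of degree `e`. -/
theorem hayes_le {d : k[X]} (hd : d.Monic) (n : ℕ) (l : k[X] → ℂ)
    (hm : ∀ f g : k[X], f.Monic → g.Monic → IsCoprime f d → IsCoprime g d → l (f * g) = l f * l g)
    (hn : ∀ f : k[X], f.Monic → IsCoprime f d → ‖l f‖ = 1)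
    (hi : ∀ f g : k[X], f.Monic → g.Monic → IsCoprime f d → IsCoprime g d →
      f.natDegree = g.natDegree → d ∣ f - g → (f - g).degree < (f.natDegree - n : ℕ) → l f = l g)
    (ht : ∃ f g : k[X], f.Monic ∧ g.Monic ∧ IsCoprime f d ∧ IsCoprime g d ∧
      f.natDegree = g.natDegree ∧ l f ≠ l g)
    {e : ℕ} (he : 0 < e) (S : Finset k[X])
    (hS : ∀ P, P ∈ S ↔ P.Monic ∧ Irreducible P ∧ P.natDegree = e ∧ IsCoprime P d) :
    ‖∑ P ∈ S, l P‖ ≤ ((d.natDegree : ℝ) + n + 2) * √((Fintype.card k : ℝ) ^ e) := by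
  obtain ⟨Γ, _, _, cl, h1, h2, h3, h4⟩ := hay2 hd n
  set N₀ := d.natDegree + n with hN
  choose! R R1 R2 R3 R4 using h3
  have a0 : ∀ (N : ℕ) (c : Γ), N₀ ≤ N → l (R N c) ≠ 0 := fun N c h e0 => by
    simpa [e0] using hn _ (R1 N c h) (R3 N c h)
  have a1 : ∀ f : k[X], f.Monic → IsCoprime f d → N₀ ≤ f.natDegree →
      l f = l (R f.natDegree (cl f)) := fun f f1 f2 h =>
    have := h2 f _ f1 (R1 _ (cl f) h) f2 (R3 _ _ h) (R2 _ _ h).symm (R4 _ _ h).symm
    hi f _ f1 (R1 _ _ h) f2 (R3 _ _ h) (R2 _ _ h).symm this.1 this.2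
  have a2 : ∀ (f : k[X]) (N : ℕ) (c : Γ), f.Monic → IsCoprime f d → N₀ ≤ N →
      l f * l (R N c) = l (R (f.natDegree + N) (cl f * c)) := fun f N c f1 f2 h => by
    have e1 : (f * R N c).natDegree = f.natDegree + N := by
      rw [f1.natDegree_mul (R1 N c h), R2 N c h]
    rw [← hm _ _ f1 (R1 N c h) f2 (R3 N c h), a1 _ (f1.mul (R1 N c h)) (f2.mul_left (R3 N c h))
      (by omega), e1, h1 _ _ f1 (R1 N c h) f2 (R3 N c h), R4 N c h]
  have a3 : ∀ (N N' : ℕ) (c c' : Γ), N₀ ≤ N → N₀ ≤ N' →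
      l (R N c) * l (R N' c') = l (R (N + N') (c * c')) := fun N N' c c' h h' => by
    rw [a2 _ N' c' (R1 N c h) (R3 N c h) h', R2 N c h, R4 N c h]
  let χ : Γ →* ℂ :=
    { toFun := fun c => l (R N₀ c) / l (R N₀ 1)
      map_one' := div_self (a0 _ _ le_rfl)
      map_mul' := fun c c' => by
        have e1 := a3 N₀ N₀ c c' le_rfl le_rfl
        have e2 := a3 N₀ N₀ (c * c') 1 le_rfl le_rfl
        rw [mul_one, ← e1] at e2
        have := a0 N₀ 1 le_rfl
        field_simp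
        exact e2 }
  have a4 : ∀ f : k[X], f.Monic → IsCoprime f d →
      l f = χ (cl f) * (l (R (f.natDegree + N₀) 1) / l (R N₀ 1)) := fun f f1 f2 => by
    have e1 := a2 f N₀ 1 f1 f2 le_rfl
    have e2 := a3 (f.natDegree + N₀) N₀ (cl f * 1) 1 (by omega) le_rfl
    have e3 := a3 (f.natDegree + N₀) N₀ 1 (cl f) (by omega) le_rfl
    rw [← e1, mul_one, mul_one] at e2
    rw [one_mul, ← e2] at e3
    have := a0 N₀ 1 le_rfl
    change l f = l (R N₀ (cl f)) / l (R N₀ 1) * _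
    field_simp
    linear_combination -e3
  have a5 : χ ≠ 1 := fun h => by
    obtain ⟨f, g, f1, g1, f2, g2, e1, e2⟩ := ht
    exact e2 (by rw [a4 f f1 f2, a4 g g1 g2, h, e1]; rfl)
  have a6 : S = {P ∈ prs k e | IsCoprime P d} := by
    ext P
    rw [hS, mem_filter, prs, mem_filter, mem_mon]
    tauto
  have a7 : ∑ P ∈ S, l P = (∑ P ∈ S, χ (cl P)) * (l (R (e + N₀) 1) / l (R N₀ 1)) := by
    rw [sum_mul]
    refine sum_congr rfl fun P hP => ?_
    obtain ⟨p1, -, p3, p4⟩ := (hS P).1 hP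
    rw [a4 P p1 p4, p3]
  rw [a7, norm_mul, norm_div, hn _ (R1 _ _ (by omega)) (R3 _ _ (by omega)),
    hn _ (R1 _ _ le_rfl) (R3 _ _ le_rfl), div_one, mul_one, a6]
  exact h4 χ a5 e he

omit [Fintype k] in
theorem lg_mul {M f g u v w : k[X]} (hf : IsCoprime f M) (hg : IsCoprime g M)
    (h1 : M ∣ f * u - derivative f) (h2 : M ∣ g * v - derivative g)
    (h3 : M ∣ f * g * w - derivative (f * g)) : M ∣ w - (u + v) := by
  refine (hf.mul_left hg).symm.dvd_of_dvd_mul_left ?_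
  have := (h3.sub (h1.mul_left g)).sub (h2.mul_left f)
  rw [derivative_mul] at this
  convert this using 1
  ring

omit [Fintype k] in
theorem lg_congr {M f g u v : k[X]} (hf : IsCoprime f M) (h : M ^ 2 ∣ f - g)
    (h1 : M ∣ f * u - derivative f) (h2 : M ∣ g * v - derivative g) : M ∣ u - v := by
  obtain ⟨s, hs⟩ := h
  have e1 : derivative f - derivative g = M * (2 * derivative M * s + M * derivative s) := by
    rw [← derivative_sub, hs, pow_two, derivative_mul, derivative_mul]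
    ring
  refine hf.symm.dvd_of_dvd_mul_left ?_
  have := ((h1.sub h2).add (Dvd.intro _ e1.symm)).sub (dvd_mul_right M (M * s * v))
  convert this using 1
  linear_combination (-v) * hs

omit [Fintype k] in
theorem top_mul (n : ℕ) {f g : k[X]} (hf : f.Monic) (hg : g.Monic) :
    (X ^ n * derivative (f * g)) /ₘ (f * g) =
      (X ^ n * derivative f) /ₘ f + (X ^ n * derivative g) /ₘ g := by
  refine (div_modByMonic_unique _ ((X ^ n * derivative f) %ₘ f * g + f * ((X ^ n * derivative g) %ₘ g))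
    (hf.mul hg) ⟨?_, ?_⟩).1
  · rw [derivative_mul]
    linear_combination g * modByMonic_add_div (X ^ n * derivative f) f +
      f * modByMonic_add_div (X ^ n * derivative g) g
  · refine (degree_add_le _ _).trans_lt (max_lt ?_ ?_)
    · rw [degree_mul, degree_mul]
      exact WithBot.add_lt_add_right (degree_ne_bot.2 hg.ne_zero) (degree_modByMonic_lt _ hf)
    · rw [degree_mul, degree_mul]
      exact WithBot.add_lt_add_left (degree_ne_bot.2 hf.ne_zero) (degree_modByMonic_lt _ hg)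

omit [Fintype k] in
theorem top_congr (n : ℕ) {f g : k[X]} (hf : f.Monic) (hg : g.Monic)
    (e : f.natDegree = g.natDegree) (h : (f - g).degree < (f.natDegree - n : ℕ)) :
    (X ^ n * derivative f) /ₘ f = (X ^ n * derivative g) /ₘ g := by
  by_cases h0 : f - g = 0
  · rw [sub_eq_zero.1 h0]
  set δ := f - g with hδ
  set Q := (X ^ n * derivative g) /ₘ g with hQ
  have d1 : δ.natDegree + n < f.natDegree := by
    rw [degree_eq_natDegree h0, Nat.cast_lt] at h
    omega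
  have d2 : Q.natDegree ≤ n := by
    rw [hQ, natDegree_divByMonic _ hg]
    have := natDegree_mul_le (p := (X ^ n : k[X])) (q := derivative g)
    have := natDegree_derivative_le g
    rw [natDegree_X_pow] at *
    omega
  refine (div_modByMonic_unique Q ((X ^ n * derivative g) %ₘ g + X ^ n * derivative δ - δ * Q)
    hf ⟨?_, ?_⟩).1
  · rw [hδ, derivative_sub]
    linear_combination modByMonic_add_div (X ^ n * derivative g) g
  · have d3 : f.degree = g.degree := by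
      rw [degree_eq_natDegree hf.ne_zero, degree_eq_natDegree hg.ne_zero, e]
    refine (degree_sub_le _ _).trans_lt (max_lt ((degree_add_le _ _).trans_lt (max_lt ?_ ?_)) ?_)
    · exact d3 ▸ degree_modByMonic_lt _ hg
    · refine degree_le_natDegree.trans_lt ?_
      rw [degree_eq_natDegree hf.ne_zero, Nat.cast_lt]
      have := natDegree_mul_le (p := (X ^ n : k[X])) (q := derivative δ)
      have := natDegree_derivative_le δ
      rw [natDegree_X_pow] at *
      omega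
    · refine degree_le_natDegree.trans_lt ?_
      rw [degree_eq_natDegree hf.ne_zero, Nat.cast_lt]
      have := natDegree_mul_le (p := δ) (q := Q)
      omega

/-- Prime sums of phases in the logarithmic derivative, abstract characters. -/
theorem weilp_abs {M₁ M₂ : k[X]} (h1 : M₁.Monic) (h2 : M₂.Monic) (hs : Squarefree M₁)
    (hc : IsCoprime M₁ M₂) (n : ℕ) (φ₁ φ₂ φ₃ : k[X] → ℂ)
    (a1 : ∀ u v, φ₁ (u + v) = φ₁ u * φ₁ v) (a2 : ∀ u v, φ₂ (u + v) = φ₂ u * φ₂ v)
    (a3 : ∀ u v, φ₃ (u + v) = φ₃ u * φ₃ v)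
    (n1 : ∀ u, ‖φ₁ u‖ = 1) (n2 : ∀ u, ‖φ₂ u‖ = 1) (n3 : ∀ u, ‖φ₃ u‖ = 1)
    (p1 : ∀ u v, M₁ ∣ u - v → φ₁ u = φ₁ v) (p2 : ∀ u v, M₂ ∣ u - v → φ₂ u = φ₂ v)
    (nt : ∃ u, φ₁ u ≠ 1) (lg₁ lg₂ : k[X] → k[X])
    (l1 : ∀ f : k[X], f.Monic → IsCoprime f (M₁ * M₂) → M₁ ∣ f * lg₁ f - derivative f)
    (l2 : ∀ f : k[X], f.Monic → IsCoprime f (M₁ * M₂) → M₂ ∣ f * lg₂ f - derivative f)
    {e : ℕ} (he : 0 < e) (S : Finset k[X])
    (hS : ∀ P, P ∈ S ↔ P.Monic ∧ Irreducible P ∧ P.natDegree = e ∧ IsCoprime P (M₁ * M₂)) :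
    ‖∑ P ∈ S, φ₁ (lg₁ P) * φ₂ (lg₂ P) * φ₃ ((X ^ n * derivative P) /ₘ P)‖ ≤
      (2 * (M₁.natDegree : ℝ) + 2 * M₂.natDegree + n + 2) * √((Fintype.card k : ℝ) ^ e) := by
  have hd : ((M₁ * M₂) ^ 2).Monic := (h1.mul h2).pow 2
  have hco : ∀ f : k[X], IsCoprime f ((M₁ * M₂) ^ 2) ↔ IsCoprime f (M₁ * M₂) := fun f =>
    IsCoprime.pow_right_iff two_pos
  have q1 : M₁ ^ 2 ∣ (M₁ * M₂) ^ 2 := pow_dvd_pow_of_dvd (dvd_mul_right _ _) 2
  have q2 : M₂ ^ 2 ∣ (M₁ * M₂) ^ 2 := pow_dvd_pow_of_dvd (dvd_mul_left _ _) 2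
  have key := hayes_le hd n
    (fun P => φ₁ (lg₁ P) * φ₂ (lg₂ P) * φ₃ ((X ^ n * derivative P) /ₘ P))
    (fun f g f1 g1 f2 g2 => ?_) (fun f _ _ => by rw [norm_mul, norm_mul, n1, n2, n3]; norm_num)
    (fun f g f1 g1 f2 g2 e1 e2 e3 => ?_) ?_ he S (fun P => by rw [hS, hco])
  · refine key.trans (le_of_eq ?_)
    rw [natDegree_pow, h1.natDegree_mul h2]
    push_cast
    ring
  · rw [hco] at f2 g2
    have fg := f2.mul_left g2
    rw [top_mul n f1 g1, a3, p1 _ _ (lg_mul f2.of_mul_right_left g2.of_mul_right_left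
      (l1 f f1 f2) (l1 g g1 g2) (l1 _ (f1.mul g1) fg)), p2 _ _ (lg_mul f2.of_mul_right_right
      g2.of_mul_right_right (l2 f f1 f2) (l2 g g1 g2) (l2 _ (f1.mul g1) fg)), a1, a2]
    ring
  · rw [hco] at f2 g2
    rw [top_congr n f1 g1 e1 e3, p1 _ _ (lg_congr f2.of_mul_right_left (q1.trans e2) (l1 f f1 f2)
      (l1 g g1 g2)), p2 _ _ (lg_congr f2.of_mul_right_right (q2.trans e2) (l2 f f1 f2)
      (l2 g g1 g2))]
  · obtain ⟨u, hu⟩ := nt
    have sep : IsCoprime M₁ (derivative M₁) := PerfectField.separable_iff_squarefree.2 hs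
    obtain ⟨b, c, hbc⟩ := sep.mul_right (hc.pow_right (n := 2))
    set d := (M₁ * M₂) ^ 2 with hdd
    set N := d.natDegree + n + 1 with hN
    set g : k[X] := 1 + d * X ^ (n + 1) with hg
    set r : k[X] := (M₁ * M₂ ^ 2 * (c * u)) %ₘ d with hr
    have t1 : (d * X ^ (n + 1)).Monic := hd.mul (monic_X_pow _)
    have t2 : (d * X ^ (n + 1)).natDegree = N := by
      rw [hd.natDegree_mul (monic_X_pow _), natDegree_X_pow, hN, add_assoc]
    have t3 : (1 : k[X]).degree < (d * X ^ (n + 1)).degree := by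
      rw [degree_eq_natDegree t1.ne_zero, t2, degree_one]
      exact_mod_cast (by omega : 0 < N)
    have g1 : g.Monic := t1.add_of_right t3
    have g2 : g.natDegree = N := by rw [hg, natDegree_add_eq_right_of_degree_lt t3, t2]
    have r1 : r.degree < (N - n : ℕ) := by
      refine (degree_modByMonic_lt _ hd).trans_le ?_
      rw [degree_eq_natDegree hd.ne_zero]
      exact_mod_cast (by omega : d.natDegree ≤ N - n)
    have r2 : r.degree < g.degree := by
      rw [degree_eq_natDegree g1.ne_zero, g2]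
      exact r1.trans_le (by exact_mod_cast Nat.sub_le _ _)
    have f1 : (g + r).Monic := g1.add_of_left r2
    have f2 : (g + r).natDegree = N := by rw [natDegree_add_eq_left_of_degree_lt r2, g2]
    obtain ⟨s, hs'⟩ : ∃ s, r = M₁ * M₂ ^ 2 * (c * u) - d * s :=
      ⟨(M₁ * M₂ ^ 2 * (c * u)) /ₘ d, by
        linear_combination modByMonic_add_div (M₁ * M₂ ^ 2 * (c * u)) d⟩
    have g3 : IsCoprime g (M₁ * M₂) :=
      ⟨1, -(M₁ * M₂ * X ^ (n + 1)), by rw [hg, hdd]; ring⟩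
    have f3 : IsCoprime (g + r) (M₁ * M₂) :=
      ⟨1, -(M₁ * M₂ * X ^ (n + 1) + M₂ * (c * u) - M₁ * M₂ * s), by rw [hg, hs', hdd]; ring⟩
    refine ⟨g + r, g, f1, g1, (hco _).2 f3, (hco _).2 g3, f2.trans g2.symm, fun h => hu ?_⟩
    have z1 : φ₁ 0 = 1 := by
      have := a1 0 0
      rw [add_zero] at this
      refine (mul_eq_left₀ fun e0 => ?_).1 this.symm
      simpa [e0] using n1 0
    have y1 : M₁ ∣ lg₁ g - 0 := lg_congr (g := 1) g3.of_mul_right_left
      (q1.trans ⟨X ^ (n + 1), by rw [hg]; ring⟩) (l1 g g1 g3) (by simp)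
    have y2 : M₁ ∣ lg₁ (g + r) - u := by
      refine lg_congr (g := 1 + M₁ * (M₂ ^ 2 * (c * u))) f3.of_mul_right_left
        (q1.trans ⟨X ^ (n + 1) - s, by rw [hg, hs']; ring⟩) (l1 _ f1 f3) ?_
      rw [derivative_add, derivative_one, derivative_mul]
      exact ⟨b * u + M₂ ^ 2 * (c * u) * u - derivative (M₂ ^ 2 * (c * u)), by
        linear_combination (-u) * hbc⟩
    have y3 : M₂ ∣ lg₂ (g + r) - lg₂ g := lg_congr f3.of_mul_right_right
      ⟨M₁ * (c * u) - M₁ ^ 2 * s, by rw [hs', hdd]; ring⟩ (l2 _ f1 f3) (l2 g g1 g3)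
    beta_reduce at h
    rw [top_congr n f1 g1 (f2.trans g2.symm) (by rw [add_sub_cancel_left, f2]; exact r1),
      p2 _ _ y3, p1 _ _ y2, p1 _ _ y1, z1] at h
    refine mul_right_cancel₀ (fun e0 => ?_) (mul_right_cancel₀ (fun e0 => ?_) h)
    · simpa [e0] using n2 (lg₂ g)
    · have := n3 ((X ^ n * derivative g) /ₘ g)
      rw [e0, norm_zero] at this
      exact zero_ne_one this

omit [Fintype k] in
theorem res_nondeg (ψ : AddChar k ℂ) (hψ : ψ ≠ 1) {M a : k[X]} (hM : M.Monic) (ha : ¬ M ∣ a) :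
    ∃ u, ψ (((a * u) %ₘ M).coeff (M.natDegree - 1)) ≠ 1 := by
  obtain ⟨t, ht⟩ := DFunLike.ne_iff.1 hψ
  set r := a %ₘ M with hr
  have r0 : r ≠ 0 := fun h => ha ((modByMonic_eq_zero_iff_dvd hM).1 h)
  have r1 : r.natDegree < M.natDegree := by
    have := degree_modByMonic_lt a hM
    rwa [← hr, degree_eq_natDegree r0, degree_eq_natDegree hM.ne_zero, Nat.cast_lt] at this
  set j := M.natDegree - 1 - r.natDegree with hj
  refine ⟨monomial j (t / r.leadingCoeff), ?_⟩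
  have e1 : (a * monomial j (t / r.leadingCoeff)) %ₘ M = r * monomial j (t / r.leadingCoeff) := by
    rw [modByMonic_eq_of_dvd_sub (p₂ := r * monomial j (t / r.leadingCoeff)) hM
      ⟨a /ₘ M * monomial j (t / r.leadingCoeff), by
        linear_combination (-monomial j (t / r.leadingCoeff)) * modByMonic_add_div a M⟩]
    refine (modByMonic_eq_self_iff hM).2 (degree_le_natDegree.trans_lt ?_)
    rw [degree_eq_natDegree hM.ne_zero, Nat.cast_lt]
    have := natDegree_mul_le (p := r) (q := monomial j (t / r.leadingCoeff))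
    have := natDegree_monomial_le (t / r.leadingCoeff) (m := j)
    omega
  rw [e1, show M.natDegree - 1 = r.natDegree + j by omega, coeff_mul_monomial, coeff_natDegree,
    mul_div_cancel₀ _ (leadingCoeff_ne_zero.2 r0)]
  simpa using ht

/-- Prime sums of phases in the logarithmic derivative, residue characters. -/
theorem weilp (ψ : AddChar k ℂ) (hψ : ψ ≠ 1) {M₁ M₂ : k[X]} (h1 : M₁.Monic) (h2 : M₂.Monic)
    (hs : Squarefree M₁) (hc : IsCoprime M₁ M₂) (a Y T M₃ : k[X]) (ha : ¬ M₁ ∣ a) (n : ℕ)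
    (lg₁ lg₂ : k[X] → k[X])
    (l1 : ∀ f : k[X], f.Monic → IsCoprime f (M₁ * M₂) → M₁ ∣ f * lg₁ f - derivative f)
    (l2 : ∀ f : k[X], f.Monic → IsCoprime f (M₁ * M₂) → M₂ ∣ f * lg₂ f - derivative f)
    {e : ℕ} (he : 0 < e) (S : Finset k[X])
    (hS : ∀ P, P ∈ S ↔ P.Monic ∧ Irreducible P ∧ P.natDegree = e ∧ IsCoprime P (M₁ * M₂)) :
    ‖∑ P ∈ S, ψ (((a * lg₁ P) %ₘ M₁).coeff (M₁.natDegree - 1)) *
        ψ (((Y * lg₂ P) %ₘ M₂).coeff (M₂.natDegree - 1)) *
        ψ (((T * ((X ^ n * derivative P) /ₘ P)) %ₘ M₃).coeff (M₃.natDegree - 1))‖ ≤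
      (2 * (M₁.natDegree : ℝ) + 2 * M₂.natDegree + n + 2) * √((Fintype.card k : ℝ) ^ e) := by
  have ad : ∀ b M u v : k[X], ψ (((b * (u + v)) %ₘ M).coeff (M.natDegree - 1)) =
      ψ (((b * u) %ₘ M).coeff (M.natDegree - 1)) * ψ (((b * v) %ₘ M).coeff (M.natDegree - 1)) :=
    fun b M u v => by rw [mul_add, add_modByMonic, coeff_add, AddChar.map_add_eq_mul]
  have pe : ∀ b M u v : k[X], M.Monic → M ∣ u - v → ψ (((b * u) %ₘ M).coeff (M.natDegree - 1)) =
      ψ (((b * v) %ₘ M).coeff (M.natDegree - 1)) := fun b M u v hM h => by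
    rw [modByMonic_eq_of_dvd_sub hM (mul_sub b u v ▸ h.mul_left b)]
  exact weilp_abs h1 h2 hs hc n (fun u => ψ (((a * u) %ₘ M₁).coeff (M₁.natDegree - 1)))
    (fun u => ψ (((Y * u) %ₘ M₂).coeff (M₂.natDegree - 1)))
    (fun u => ψ (((T * u) %ₘ M₃).coeff (M₃.natDegree - 1))) (ad a M₁) (ad Y M₂) (ad T M₃)
    (fun _ => AddChar.norm_apply _ _) (fun _ => AddChar.norm_apply _ _)
    (fun _ => AddChar.norm_apply _ _) (fun u v => pe a M₁ u v h1) (fun u v => pe Y M₂ u v h2)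
    (res_nondeg ψ hψ h1 ha) lg₁ lg₂ l1 l2 he S hS

omit [Fintype k] in
theorem prod_phase {d : k[X]} (l : k[X] → ℂ) (h1 : l 1 = 1)
    (hm : ∀ f g : k[X], f.Monic → g.Monic → IsCoprime f d → IsCoprime g d → l (f * g) = l f * l g)
    {ι : Type*} (s : Finset ι) (P : ι → k[X]) (hP : ∀ i ∈ s, (P i).Monic ∧ IsCoprime (P i) d) :
    l (∏ i ∈ s, P i) = ∏ i ∈ s, l (P i) := by
  induction s using Finset.induction_on with
  | empty => simpa using h1
  | insert j s hj ih =>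
    have h2 := fun i hi => hP i (mem_insert_of_mem hi)
    rw [prod_insert hj, prod_insert hj, hm _ _ (hP j (mem_insert_self _ _)).1
      (monic_prod_of_monic _ _ fun i hi => (h2 i hi).1) (hP j (mem_insert_self _ _)).2
      (IsCoprime.prod_left fun i hi => (h2 i hi).2), ih h2]

/-- The same for products of primes of prescribed degrees. -/
theorem weilp_prod (ψ : AddChar k ℂ) (hψ : ψ ≠ 1) {M₁ M₂ : k[X]} (h1 : M₁.Monic) (h2 : M₂.Monic)
    (hs : Squarefree M₁) (hc : IsCoprime M₁ M₂) (a Y T M₃ : k[X]) (ha : ¬ M₁ ∣ a) (n : ℕ)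
    (lg₁ lg₂ : k[X] → k[X])
    (l1 : ∀ f : k[X], f.Monic → IsCoprime f (M₁ * M₂) → M₁ ∣ f * lg₁ f - derivative f)
    (l2 : ∀ f : k[X], f.Monic → IsCoprime f (M₁ * M₂) → M₂ ∣ f * lg₂ f - derivative f)
    {ι : Type*} [Fintype ι] [DecidableEq ι] (e : ι → ℕ) (he : ∀ i, 0 < e i) (S : ι → Finset k[X])
    (hS : ∀ i P, P ∈ S i ↔
      P.Monic ∧ Irreducible P ∧ P.natDegree = e i ∧ IsCoprime P (M₁ * M₂)) :
    ‖∑ P ∈ Fintype.piFinset S, ψ (((a * lg₁ (∏ i, P i)) %ₘ M₁).coeff (M₁.natDegree - 1)) *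
        ψ (((Y * lg₂ (∏ i, P i)) %ₘ M₂).coeff (M₂.natDegree - 1)) *
        ψ (((T * ((X ^ n * derivative (∏ i, P i)) /ₘ ∏ i, P i)) %ₘ M₃).coeff (M₃.natDegree - 1))‖ ≤
      (2 * (M₁.natDegree : ℝ) + 2 * M₂.natDegree + n + 2) ^ Fintype.card ι *
        √((Fintype.card k : ℝ) ^ ∑ i, e i) := by
  set l : k[X] → ℂ := fun f => ψ (((a * lg₁ f) %ₘ M₁).coeff (M₁.natDegree - 1)) *
    ψ (((Y * lg₂ f) %ₘ M₂).coeff (M₂.natDegree - 1)) *
    ψ (((T * ((X ^ n * derivative f) /ₘ f)) %ₘ M₃).coeff (M₃.natDegree - 1)) with hl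
  have ad : ∀ b M u v : k[X], ψ (((b * (u + v)) %ₘ M).coeff (M.natDegree - 1)) =
      ψ (((b * u) %ₘ M).coeff (M.natDegree - 1)) * ψ (((b * v) %ₘ M).coeff (M.natDegree - 1)) :=
    fun b M u v => by rw [mul_add, add_modByMonic, coeff_add, AddChar.map_add_eq_mul]
  have pe : ∀ b M u v : k[X], M.Monic → M ∣ u - v → ψ (((b * u) %ₘ M).coeff (M.natDegree - 1)) =
      ψ (((b * v) %ₘ M).coeff (M.natDegree - 1)) := fun b M u v hM h => by
    rw [modByMonic_eq_of_dvd_sub hM (mul_sub b u v ▸ h.mul_left b)]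
  have hm : ∀ f g : k[X], f.Monic → g.Monic → IsCoprime f (M₁ * M₂) → IsCoprime g (M₁ * M₂) →
      l (f * g) = l f * l g := fun f g f1 g1 f2 g2 => by
    have fg := f2.mul_left g2
    simp only [hl]
    rw [top_mul n f1 g1, ad, pe a M₁ _ _ h1 (lg_mul f2.of_mul_right_left g2.of_mul_right_left
      (l1 f f1 f2) (l1 g g1 g2) (l1 _ (f1.mul g1) fg)), pe Y M₂ _ _ h2 (lg_mul
      f2.of_mul_right_right g2.of_mul_right_right (l2 f f1 f2) (l2 g g1 g2)
      (l2 _ (f1.mul g1) fg)), ad, ad]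
    ring
  have h0 : l 1 = 1 := by
    have := hm 1 1 monic_one monic_one isCoprime_one_left isCoprime_one_left
    rw [mul_one] at this
    refine (mul_eq_left₀ fun e0 => ?_).1 this.symm
    have h3 : ‖l 1‖ = 1 := by
      simp only [hl, norm_mul, AddChar.norm_apply, mul_one]
    rw [e0, norm_zero] at h3
    exact zero_ne_one h3
  have e1 : ∑ P ∈ Fintype.piFinset S, l (∏ i, P i) = ∏ i, ∑ P ∈ S i, l P := by
    rw [prod_univ_sum]
    refine sum_congr rfl fun P hP => prod_phase l h0 hm _ _ fun i _ => ?_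
    have := (hS i _).1 (Fintype.mem_piFinset.1 hP i)
    exact ⟨this.1, this.2.2.2⟩
  change ‖∑ P ∈ Fintype.piFinset S, l (∏ i, P i)‖ ≤ _
  rw [e1, norm_prod, ← prod_pow_eq_pow_sum, Real.sqrt_prod _ fun _ _ => by positivity,
    ← card_univ, ← prod_const, ← prod_mul_distrib]
  exact prod_le_prod (fun _ _ => norm_nonneg _) fun i _ =>
    weilp ψ hψ h1 h2 hs hc a Y T M₃ ha n lg₁ lg₂ l1 l2 (he i) (S i) (hS i)

end Pool.Agent.H18M.W5

end
end

-- part H18M.Eq5a
section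

/-! Fourier expansion, large sieve and counting lemmas for the equidistribution step. -/

set_option autoImplicit false
open Polynomial Finset UniqueFactorizationMonoid CL5 CL3
open scoped Classical

noncomputable section
namespace Pool.Agent.H18M.E5

variable {k : Type} [Field k] [Fintype k]

theorem qq_pos : 0 < qq k := by linarith [two_le_qq (k := k)]

theorem nrm_pos (a : k[X]) : 0 < nrm a := pow_pos qq_pos _

theorem ind_ee {M : k[X]} (hM : M.Monic) (a : k[X]) :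
    (if M ∣ a then (1 : ℂ) else 0) = (nrm M : ℂ)⁻¹ * ∑ v ∈ box k M.natDegree, ee (a * v) M := by
  have : (nrm M : ℂ) ≠ 0 := by exact_mod_cast (nrm_pos M).ne'
  rw [sum_ee_full hM]
  split_ifs
  · rw [inv_mul_cancel₀ this]
  · rw [mul_zero]

theorem four1 {M : k[X]} (hM : M.Monic) (Γ : k[X] → ℂ) (u : k[X]) :
    Γ (u %ₘ M) = ∑ Y ∈ box k M.natDegree,
      ((nrm M : ℂ)⁻¹ * ∑ l ∈ box k M.natDegree, Γ l * ee (-(l * Y)) M) * ee (Y * u) M := by
  have h1 : u %ₘ M ∈ box k M.natDegree := by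
    rw [mem_box, ← degree_eq_natDegree hM.ne_zero]
    exact degree_modByMonic_lt _ hM
  have h2 : Γ (u %ₘ M) = ∑ l ∈ box k M.natDegree, Γ l * (if M ∣ u - l then (1 : ℂ) else 0) := by
    rw [sum_eq_single_of_mem _ h1 fun l hl hne => ?_, if_pos, mul_one]
    · exact ⟨u /ₘ M, by linear_combination -modByMonic_add_div u M⟩
    · rw [if_neg fun h => hne ?_, mul_zero]
      rw [modByMonic_eq_of_dvd_sub hM h, (modByMonic_eq_self_iff hM).2]
      rw [degree_eq_natDegree hM.ne_zero]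
      exact mem_box.1 hl
  rw [h2]
  simp only [ind_ee hM, mul_sum, sum_mul]
  rw [sum_comm]
  refine sum_congr rfl fun Y _ => sum_congr rfl fun l _ => ?_
  rw [show (u - l) * Y = -(l * Y) + Y * u by ring, ee_add]
  ring

theorem coef_le {M : k[X]} (Γ : k[X] → ℂ) (h : ∀ l, ‖Γ l‖ ≤ 1) (Y : k[X]) :
    ‖(nrm M : ℂ)⁻¹ * ∑ l ∈ box k M.natDegree, Γ l * ee (-(l * Y)) M‖ ≤ 1 := by
  rw [norm_mul, norm_inv, Complex.norm_real, Real.norm_of_nonneg (nrm_pos M).le,
    inv_mul_le_iff₀ (nrm_pos M), mul_one]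
  refine (norm_sum_le _ _).trans ((sum_le_card_nsmul _ _ 1 fun l _ => ?_).trans ?_)
  · rw [norm_mul, norm_ee, mul_one]
    exact h l
  · rw [nsmul_one, card_box]
    exact le_rfl

theorem four2 {M M' : k[X]} (hM : M.Monic) (hM' : M'.Monic) (Γ : k[X] → k[X] → ℂ)
    (h : ∀ l t, ‖Γ l t‖ ≤ 1) : ∃ c : k[X] → k[X] → ℂ, (∀ Y T, ‖c Y T‖ ≤ 1) ∧ ∀ u v,
      Γ (u %ₘ M) (v %ₘ M') = ∑ Y ∈ box k M.natDegree, ∑ T ∈ box k M'.natDegree,
        c Y T * (ee (Y * u) M * ee (T * v) M') := by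
  refine ⟨fun Y T => (nrm M : ℂ)⁻¹ * ∑ l ∈ box k M.natDegree,
    ((nrm M' : ℂ)⁻¹ * ∑ t ∈ box k M'.natDegree, Γ l t * ee (-(t * T)) M') * ee (-(l * Y)) M,
    fun Y T => coef_le _ (fun l => coef_le _ (h l) T) Y, fun u v => ?_⟩
  rw [four1 hM' (Γ (u %ₘ M)) v, sum_comm]
  refine sum_congr rfl fun T _ => ?_
  rw [four1 hM (fun l => (nrm M' : ℂ)⁻¹ * ∑ t ∈ box k M'.natDegree, Γ l t * ee (-(t * T)) M') u,
    sum_mul]
  exact sum_congr rfl fun Y _ => by ring

/-- Large sieve at one modulus. -/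
theorem ls1 {M : k[X]} (hM : M.Monic) {κ : Type*} (K : Finset κ) (x : κ → k[X]) (Ys : Finset k[X])
    (hY : Ys ⊆ box k M.natDegree) (a : k[X] → ℂ) {B : ℝ} (hB : 0 ≤ B) (ha : ∀ y ∈ Ys, ‖a y‖ ≤ B) :
    ∑ j ∈ K, ‖(nrm M : ℂ)⁻¹ * ∑ y ∈ Ys, ee (x j * y) M * a y‖ ≤
      B * √(#{z ∈ K ×ˢ K | M ∣ x z.1 - x z.2} : ℝ) := by
  have hp := nrm_pos M
  set f : κ → ℂ := fun j => (nrm M : ℂ)⁻¹ * ∑ y ∈ Ys, ee (x j * y) M * a y with hf
  have h1 : ∀ j, ∃ θ : ℂ, ‖θ‖ ≤ 1 ∧ θ * f j = ‖f j‖ := fun j => by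
    by_cases h : f j = 0
    · exact ⟨0, by simp, by simp [h]⟩
    · exact ⟨‖f j‖ / f j, by rw [norm_div, Complex.norm_real, norm_norm,
        div_self (norm_ne_zero_iff.2 h)], div_mul_cancel₀ _ h⟩
  choose θ t1 t2 using h1
  set g : k[X] → ℂ := fun y => ∑ j ∈ K, θ j * ee (x j * y) M with hg
  have h2 : ((∑ j ∈ K, ‖f j‖ : ℝ) : ℂ) = (nrm M : ℂ)⁻¹ * ∑ y ∈ Ys, a y * g y := by
    push_cast
    rw [sum_congr rfl fun j _ => (t2 j).symm]
    simp only [hf, hg, mul_sum]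
    rw [sum_comm]
    exact sum_congr rfl fun y _ => sum_congr rfl fun j _ => by ring
  have h3 : ((∑ y ∈ box k M.natDegree, ‖g y‖ ^ 2 : ℝ) : ℂ) = ∑ z ∈ K ×ˢ K,
      θ z.1 * (starRingEnd ℂ) (θ z.2) * if M ∣ x z.1 - x z.2 then ((nrm M : ℝ) : ℂ) else 0 := by
    push_cast
    simp only [← sum_ee_full hM, mul_sum, ← Complex.mul_conj', hg, map_sum, sum_mul, map_mul,
      ← ee_neg]
    rw [sum_comm, sum_product_right]
    refine sum_congr rfl fun j _ => ?_
    rw [sum_comm]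
    refine sum_congr rfl fun j' _ => sum_congr rfl fun y _ => ?_
    rw [show (x j' - x j) * y = x j' * y + -(x j * y) by ring, ee_add]
    ring
  have h4 : ∑ y ∈ box k M.natDegree, ‖g y‖ ^ 2 ≤ nrm M * #{z ∈ K ×ˢ K | M ∣ x z.1 - x z.2} := by
    have h0 : 0 ≤ ∑ y ∈ box k M.natDegree, ‖g y‖ ^ 2 := sum_nonneg fun _ _ => sq_nonneg _
    rw [← Real.norm_of_nonneg h0, ← Complex.norm_real, h3, card_filter]
    push_cast
    rw [mul_sum]
    refine (norm_sum_le _ _).trans (sum_le_sum fun z _ => ?_)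
    split_ifs
    · rw [norm_mul, norm_mul, Complex.norm_conj, Complex.norm_real, Real.norm_of_nonneg hp.le,
        mul_one]
      exact mul_le_of_le_one_left hp.le (mul_le_one₀ (t1 _) (norm_nonneg _) (t1 _))
    · simp
  have h5 : ∑ y ∈ box k M.natDegree, ‖g y‖ ≤
      nrm M * √(#{z ∈ K ×ˢ K | M ∣ x z.1 - x z.2} : ℝ) := by
    refine abs_le_of_sq_le_sq' ?_ (by positivity) |>.2
    refine sq_sum_le_card_mul_sum_sq.trans ?_
    rw [card_box, mul_pow, Real.sq_sqrt (by positivity), pow_two (nrm M), mul_assoc]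
    exact mul_le_mul_of_nonneg_left h4 hp.le
  have h0 : 0 ≤ ∑ j ∈ K, ‖f j‖ := sum_nonneg fun _ _ => norm_nonneg _
  rw [← Real.norm_of_nonneg h0, ← Complex.norm_real, h2, norm_mul, norm_inv, Complex.norm_real,
    Real.norm_of_nonneg hp.le, inv_mul_le_iff₀ hp]
  calc ‖∑ y ∈ Ys, a y * g y‖ ≤ ∑ y ∈ Ys, B * ‖g y‖ :=
        (norm_sum_le _ _).trans (sum_le_sum fun y hy => by
          rw [norm_mul]
          exact mul_le_mul_of_nonneg_right (ha y hy) (norm_nonneg _))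
    _ ≤ ∑ y ∈ box k M.natDegree, B * ‖g y‖ :=
        sum_le_sum_of_subset_of_nonneg hY fun _ _ _ => by positivity
    _ ≤ _ := by
        rw [← mul_sum, mul_left_comm]
        exact mul_le_mul_of_nonneg_left h5 hB

theorem box_add {N : ℕ} {a b : k[X]} (ha : a ∈ box k N) (hb : b ∈ box k N) : a + b ∈ box k N :=
  mem_box.2 ((degree_add_le _ _).trans_lt (max_lt (mem_box.1 ha) (mem_box.1 hb)))

theorem box_sub {N : ℕ} {a b : k[X]} (ha : a ∈ box k N) (hb : b ∈ box k N) : a - b ∈ box k N :=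
  mem_box.2 ((degree_sub_le _ _).trans_lt (max_lt (mem_box.1 ha) (mem_box.1 hb)))

theorem box_mul {a : ℕ} {W s : k[X]} (hW : W ≠ 0) :
    W * s ∈ box k (W.natDegree + a) ↔ s ∈ box k a := by
  rw [mem_box, mem_box, degree_mul, degree_eq_natDegree hW, Nat.cast_add]
  exact WithBot.add_lt_add_iff_left (WithBot.natCast_ne_bot _)

/-- Multiples of `W` in a subgroup cut out modulo `M` and by the top digits. -/
theorem cnt0 {W M : k[X]} (hW : W.Monic) (hM : M.Monic) (hc : IsCoprime W M) {a n : ℕ}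
    (ha : M.natDegree + n ≤ a) (G : AddSubgroup k[X])
    (hG : ∀ Z, M ∣ Z → Z.degree < (W.natDegree + a - n : ℕ) → Z ∈ G) :
    qq k ^ (W.natDegree + a) * (#{s ∈ box k a | W * s ∈ G} : ℝ) =
      qq k ^ a * #{Z ∈ box k (W.natDegree + a) | Z ∈ G} := by
  have h1 : ∀ b ∈ box k (W.natDegree + a),
      #{s ∈ box k a | b - W * s ∈ G} = #{s ∈ box k a | W * s ∈ G} := by
    intro b hb
    obtain ⟨w, w', hw⟩ := hc
    set u := (w * (b %ₘ W)) %ₘ M with hu
    have u1 : u ∈ box k M.natDegree := by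
      rw [mem_box, ← degree_eq_natDegree hM.ne_zero]
      exact degree_modByMonic_lt _ hM
    have u2 : u ∈ box k a := mem_box.2 ((mem_box.1 u1).trans_le (by exact_mod_cast (by omega)))
    have r1 : b %ₘ W ∈ box k W.natDegree := by
      rw [mem_box, ← degree_eq_natDegree hW.ne_zero]
      exact degree_modByMonic_lt _ hW
    have r2 : b /ₘ W ∈ box k a := by
      rw [← box_mul hW.ne_zero, show W * (b /ₘ W) = b - b %ₘ W by
        linear_combination modByMonic_add_div b W]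
      exact box_sub hb (mem_box.2 ((mem_box.1 r1).trans_le (by exact_mod_cast (by omega))))
    have s0 : b /ₘ W + u ∈ box k a := box_add r2 u2
    have z0 : b - W * (b /ₘ W + u) ∈ G := by
      rw [show b - W * (b /ₘ W + u) = b %ₘ W - W * u by
        linear_combination -modByMonic_add_div b W]
      refine hG _ ⟨w' * (b %ₘ W) + W * ((w * (b %ₘ W)) /ₘ M), ?_⟩ ?_
      · linear_combination (-(b %ₘ W)) * hw - W * modByMonic_add_div (w * (b %ₘ W)) M
      · refine (degree_sub_le _ _).trans_lt (max_lt ((mem_box.1 r1).trans_le ?_)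
          ((mem_box.1 ((box_mul hW.ne_zero).2 u1)).trans_le ?_))
        · exact_mod_cast (by omega)
        · exact_mod_cast (by omega)
    refine card_bij' (fun s _ => s - (b /ₘ W + u)) (fun s _ => s + (b /ₘ W + u)) (fun s hs => ?_)
      (fun s hs => ?_) (fun _ _ => by ring) fun _ _ => by ring
    · rw [mem_filter] at hs ⊢
      refine ⟨box_sub hs.1 s0, ?_⟩
      convert G.sub_mem z0 hs.2 using 1
      ring
    · rw [mem_filter] at hs ⊢
      refine ⟨box_add hs.1 s0, ?_⟩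
      convert G.sub_mem z0 hs.2 using 1
      ring
  have h2 : ∀ s ∈ box k a, #{b ∈ box k (W.natDegree + a) | b - W * s ∈ G} =
      #{Z ∈ box k (W.natDegree + a) | Z ∈ G} := by
    intro s hs
    have s0 := (box_mul hW.ne_zero).2 hs
    refine card_bij' (fun b _ => b - W * s) (fun z _ => z + W * s) (fun b hb => ?_)
      (fun z hz => ?_) (fun _ _ => by ring) fun _ _ => by ring
    · rw [mem_filter] at hb ⊢
      exact ⟨box_sub hb.1 s0, hb.2⟩
    · rw [mem_filter] at hz ⊢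
      exact ⟨box_add hz.1 s0, by simpa using hz.2⟩
  have h3 : ∑ b ∈ box k (W.natDegree + a), #{s ∈ box k a | b - W * s ∈ G} =
      ∑ s ∈ box k a, #{b ∈ box k (W.natDegree + a) | b - W * s ∈ G} := by
    simp only [card_filter]
    exact sum_comm
  rw [sum_congr rfl h1, sum_congr rfl h2, sum_const, sum_const, smul_eq_mul, smul_eq_mul] at h3
  rw [← card_box, ← card_box]
  exact_mod_cast h3

theorem cnt1 {W t M : k[X]} (hW : W.Monic) (ht : t.Monic) (hM : M.Monic) (hc : IsCoprime W M)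
    (hc' : IsCoprime t M) {dl n : ℕ} (ha : t.natDegree + M.natDegree + n ≤ dl)
    (G : AddSubgroup k[X]) (hG : ∀ Z, M ∣ Z → Z.degree < (dl + W.natDegree - n : ℕ) → Z ∈ G) :
    (#{Z ∈ box k dl | W * Z ∈ G ∧ t ∣ Z} : ℝ) =
      #{Z ∈ box k (dl + W.natDegree) | Z ∈ G} / qq k ^ W.natDegree / nrm t := by
  obtain ⟨a, rfl⟩ : ∃ a, dl = t.natDegree + a := ⟨dl - t.natDegree, by omega⟩
  have e1 : (W * t).natDegree + a = t.natDegree + a + W.natDegree := by
    rw [hW.natDegree_mul ht]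
    ring
  have h1 := cnt0 (hW.mul ht) hM (hc.mul_left hc') (a := a) (n := n) (by omega) G (by
    rw [e1]
    exact hG)
  have h2 : #{Z ∈ box k (t.natDegree + a) | W * Z ∈ G ∧ t ∣ Z} =
      #{s ∈ box k a | W * t * s ∈ G} := by
    refine (card_bij (fun s _ => t * s) (fun s hs => ?_) (fun _ _ _ _ e => mul_left_cancel₀
      ht.ne_zero e) fun Z hZ => ?_).symm
    · rw [mem_filter] at hs ⊢
      exact ⟨(box_mul ht.ne_zero).2 hs.1, by rw [← mul_assoc]; exact hs.2, dvd_mul_right _ _⟩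
    · rw [mem_filter] at hZ
      obtain ⟨z1, z2, s, rfl⟩ := hZ
      exact ⟨s, mem_filter.2 ⟨(box_mul ht.ne_zero).1 z1, by rw [mul_assoc]; exact z2⟩, rfl⟩
  have hq := qq_pos (k := k)
  rw [e1, pow_add, pow_add] at h1
  rw [h2, nrm, eq_div_iff (by positivity), eq_div_iff (by positivity)]
  refine mul_left_cancel₀ (pow_pos hq a).ne' ?_
  linear_combination h1

end Pool.Agent.H18M.E5

end
end

-- part H18M.Eq5b
section

/-! The zero frequencies of the equidistribution step. -/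

set_option autoImplicit false
open Polynomial Finset UniqueFactorizationMonoid CL5 CL3
open scoped Classical

noncomputable section
namespace Pool.Agent.H18M.E5

variable {k : Type} [Field k] [Fintype k]

theorem nrm_mul {a b : k[X]} (ha : a.Monic) (hb : b.Monic) : nrm (a * b) = nrm a * nrm b := by
  rw [nrm, ha.natDegree_mul hb, pow_add]
  rfl

theorem nrm_one : nrm (1 : k[X]) = 1 := by simp [nrm]

theorem nrm_prod {ι : Type*} (s : Finset ι) (f : ι → k[X]) (h : ∀ i ∈ s, (f i).Monic) :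
    nrm (∏ i ∈ s, f i) = ∏ i ∈ s, nrm (f i) := by
  rw [nrm, natDegree_prod_of_monic _ _ h, ← prod_pow_eq_pow_sum]
  rfl

theorem nrm_pow {a : k[X]} (j : ℕ) : nrm (a ^ j) = nrm a ^ j := by
  rw [nrm, natDegree_pow, mul_comm, pow_mul]
  rfl

theorem ee_mul' {a M M' : k[X]} (hM : M.Monic) (hM' : M'.Monic) :
    ee (a * M') (M * M') = ee a M := by
  by_cases h : 1 ≤ M.natDegree
  · exact ee_mul_right hM hM' h
  · rw [hM.natDegree_eq_zero.1 (by omega), ee_congr (b := 0) (monic_one.mul hM') (by simp),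
      ee_congr (b := 0) monic_one (one_dvd _), ee_zero, ee_zero]

/-- The local weights. -/
def cw (π : k[X]) (j : ℕ) : ℝ := if j = 0 then 1 else if j = 1 then -1 else nrm π

/-- The monic prime factors. -/
def PF (g : k[X]) : Finset k[X] := (normalizedFactors g).toFinset

omit [Fintype k] in
theorem mem_PF {g π : k[X]} (hg : g.Monic) : π ∈ PF g ↔ Irreducible π ∧ π.Monic ∧ π ∣ g := by
  rw [PF, Multiset.mem_toFinset, Polynomial.mem_normalizedFactors_iff hg.ne_zero]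

omit [Fintype k] in
theorem prod_PF {g : k[X]} (hg : g.Monic) (hs : Squarefree g) : ∏ π ∈ PF g, π = g := by
  have h1 := (squarefree_iff_nodup_normalizedFactors hg.ne_zero).1 hs
  rw [PF, Finset.prod_eq_multiset_prod, Multiset.toFinset_val, h1.dedup, Multiset.map_id',
    prod_normalizedFactors_eq hg.ne_zero, hg.normalize_eq_self]

omit [Fintype k] in
theorem PF_cop {g a b : k[X]} (hg : g.Monic) (ha : a ∈ PF g) (hb : b ∈ PF g) (h : a ≠ b) :
    IsCoprime a b := by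
  rw [mem_PF hg] at ha hb
  exact ha.1.coprime_iff_not_dvd.2 fun e =>
    h (eq_of_monic_of_associated ha.2.1 hb.2.1 (ha.1.associated_of_dvd hb.1 e))

theorem sq_dvd_iff {π Z : k[X]} (hπ : Irreducible π) (h : π ∣ Z) :
    π ∣ derivative Z ↔ π ^ 2 ∣ Z := by
  obtain ⟨s, rfl⟩ := h
  have sep : IsCoprime π (derivative π) := PerfectField.separable_of_irreducible hπ
  rw [derivative_mul, dvd_add_left (dvd_mul_right _ _), pow_two, mul_dvd_mul_iff_left hπ.ne_zero]
  exact ⟨fun e => sep.dvd_of_dvd_mul_left e, fun e => e.mul_left _⟩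

theorem om_eq {g : k[X]} (hg : g.Monic) (hs : Squarefree g) (Z : k[X]) :
    ∑ y ∈ box k g.natDegree with g ∣ y * Z, ee (derivative Z * y) g =
      ((∏ π ∈ PF g, ∑ j ∈ range 3, cw π j * if π ^ j ∣ Z then 1 else 0 : ℝ) : ℂ) := by
  set ga := ∏ π ∈ PF g with π ∣ Z, π with hga
  set gb := ∏ π ∈ PF g with ¬ π ∣ Z, π with hgb
  have m : ∀ π ∈ PF g, π.Monic := fun π h => ((mem_PF hg).1 h).2.1
  have a1 : ga.Monic := monic_prod_of_monic _ _ fun π h => m π (mem_filter.1 h).1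
  have b1 : gb.Monic := monic_prod_of_monic _ _ fun π h => m π (mem_filter.1 h).1
  have e1 : ga * gb = g := by rw [hga, hgb, prod_filter_mul_prod_filter_not, prod_PF hg hs]
  have a2 : ∀ W : k[X], ga ∣ W ↔ ∀ π ∈ PF g, π ∣ Z → π ∣ W := fun W =>
    ⟨fun h π h1 h2 => (dvd_prod_of_mem _ (mem_filter.2 ⟨h1, h2⟩)).trans h, fun h =>
      Finset.prod_dvd_of_coprime (fun a ha b hb hab => PF_cop hg (mem_filter.1 ha).1
        (mem_filter.1 hb).1 hab) fun π hπ => h π (mem_filter.1 hπ).1 (mem_filter.1 hπ).2⟩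
  have a3 : ga ∣ Z := (a2 Z).2 fun _ _ h => h
  have b2 : IsCoprime gb Z := IsCoprime.prod_left fun π h =>
    ((mem_PF hg).1 (mem_filter.1 h).1).1.coprime_iff_not_dvd.2 (mem_filter.1 h).2
  have e2 : ∑ y ∈ box k g.natDegree with g ∣ y * Z, ee (derivative Z * y) g =
      ∑ v ∈ box k ga.natDegree, ee (derivative Z * v) ga := by
    have e3 : g.natDegree = gb.natDegree + ga.natDegree := by
      rw [← e1, a1.natDegree_mul b1, add_comm]
    refine (sum_bij (fun v _ => gb * v) (fun v hv => ?_) (fun _ _ _ _ e => mul_left_cancel₀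
      b1.ne_zero e) (fun y hy => ?_) fun v _ => ?_).symm
    · rw [mem_filter, e3, box_mul b1.ne_zero, ← e1, mul_comm ga, mul_assoc]
      exact ⟨hv, mul_dvd_mul_left _ (a3.mul_left _)⟩
    · rw [mem_filter] at hy
      obtain ⟨v, rfl⟩ := b2.dvd_of_dvd_mul_right ((Dvd.intro_left _ e1).trans hy.2)
      exact ⟨v, by rw [← box_mul b1.ne_zero, ← e3]; exact hy.1, rfl⟩
    · rw [← ee_mul' (a := derivative Z * v) a1 b1, e1]
      congr 1
      ring
  have e4 : ∏ π ∈ PF g, ∑ j ∈ range 3, (cw π j * if π ^ j ∣ Z then 1 else 0) =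
      if ga ∣ derivative Z then nrm ga else 0 := by
    rw [← prod_filter_mul_prod_filter_not (PF g) (· ∣ Z), prod_eq_one (s := filter (¬ · ∣ Z) _)
      fun π h => ?_, mul_one, prod_congr rfl (g := fun π => if π ∣ derivative Z then nrm π else 0)
      fun π h => ?_, prod_ite_zero, hga, nrm_prod _ _ fun π h => m π (mem_filter.1 h).1]
    · refine if_congr ?_ rfl rfl
      rw [← hga, a2]
      simp only [mem_filter, and_imp]
    · obtain ⟨h1, h2⟩ := mem_filter.1 h
      simp [sum_range_succ, cw, h2, sq_dvd_iff ((mem_PF hg).1 h1).1 h2]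
    · have h2 := (mem_filter.1 h).2
      have h3 : ¬ π ^ 2 ∣ Z := fun e => h2 ((dvd_pow_self π two_ne_zero).trans e)
      simp [sum_range_succ, cw, h2, h3]
  rw [e2, sum_ee_full a1, e4]
  split_ifs <;> simp

theorem three_le {g : k[X]} (hg : g.Monic) (hs : Squarefree g) : (3 : ℝ) ^ #(PF g) ≤
    (#{d ∈ box k (g.natDegree + 1) | d.Monic ∧ d ∣ g} : ℝ) ^ 2 := by
  have h1 : 2 ^ #(PF g) ≤ #{d ∈ box k (g.natDegree + 1) | d.Monic ∧ d ∣ g} := by
    rw [← card_powerset]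
    refine card_le_card_of_injOn (fun J => ∏ π ∈ J, π) (fun J hJ => ?_) fun J hJ J' hJ' e => ?_
    · have h2 : J ⊆ PF g := mem_powerset.1 hJ
      have h3 : ∏ π ∈ J, π ∣ g := (prod_dvd_prod_of_subset _ _ _ h2).trans (prod_PF hg hs).dvd
      refine mem_filter.2 ⟨mem_box.2 (degree_le_natDegree.trans_lt ?_),
        monic_prod_of_monic _ _ fun π h => ((mem_PF hg).1 (h2 h)).2.1, h3⟩
      exact_mod_cast Nat.lt_succ_of_le (natDegree_le_of_dvd h3 hg.ne_zero)
    · have key : ∀ I I' : Finset k[X], I ⊆ PF g → I' ⊆ PF g → ∏ π ∈ I, π = ∏ π ∈ I', π →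
          I ⊆ I' := fun I I' i1 i2 e π hπ => by
        by_contra c
        have h4 : IsCoprime π (∏ π ∈ I', π) := IsCoprime.prod_right fun ρ hρ =>
          PF_cop hg (i1 hπ) (i2 hρ) fun e => c (e ▸ hρ)
        exact ((mem_PF hg).1 (i1 hπ)).1.coprime_iff_not_dvd.1 h4 (e ▸ dvd_prod_of_mem _ hπ)
      exact subset_antisymm (key _ _ (mem_powerset.1 hJ) (mem_powerset.1 hJ') e)
        (key _ _ (mem_powerset.1 hJ') (mem_powerset.1 hJ) e.symm)
  calc (3 : ℝ) ^ #(PF g) ≤ 4 ^ #(PF g) := pow_le_pow_left₀ (by norm_num) (by norm_num) _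
    _ = (2 ^ #(PF g)) ^ 2 := by rw [← pow_mul, mul_comm, pow_mul]; norm_num
    _ ≤ _ := pow_le_pow_left₀ (by positivity) (by exact_mod_cast h1) _

/-- The mean of the zero frequency weight over a well distributed set. -/
theorem om_mean {g : k[X]} (hg : g.Monic) (hs : Squarefree g) {dl L : ℕ} (hL : L ≤ dl)
    (Q : k[X] → Prop) (h0 : Q 0) {V : ℝ}
    (hV : ∀ t : k[X], t.Monic → t ∣ g ^ 2 → t.natDegree ≤ L →
      (#{Z ∈ box k dl | Q Z ∧ t ∣ Z} : ℝ) = V / nrm t) :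
    |∑ Z ∈ (box k dl).erase 0 with Q Z,
        ∏ π ∈ PF g, ∑ j ∈ range 3, (cw π j * if π ^ j ∣ Z then 1 else 0) - V| ≤
      (#{d ∈ box k (g.natDegree + 1) | d.Monic ∧ d ∣ g} : ℝ) ^ 2 *
        (qq k ^ dl / √(qq k ^ L)) := by
  have hq := qq_pos (k := k)
  have hq1 : 1 ≤ qq k := by linarith [two_le_qq (k := k)]
  have m : ∀ π : PF g, (π : k[X]).Monic := fun π => ((mem_PF hg).1 π.2).2.1
  set Sg := Fintype.piFinset fun _ : PF g => range 3 with hSg
  set tt : (PF g → ℕ) → k[X] := fun σ => ∏ π : PF g, (π : k[X]) ^ σ π with htt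
  set cc : (PF g → ℕ) → ℝ := fun σ => ∏ π : PF g, cw (π : k[X]) (σ π) with hcc
  have t1 : ∀ σ, (tt σ).Monic := fun σ => monic_prod_of_monic _ _ fun π _ => (m π).pow _
  have t2 : ∀ σ, nrm (tt σ) = ∏ π : PF g, nrm (π : k[X]) ^ σ π := fun σ => by
    rw [htt, nrm_prod _ _ fun π _ => (m π).pow _]
    simp only [nrm_pow]
  have t3 : ∀ σ ∈ Sg, tt σ ∣ g ^ 2 := fun σ hσ => by
    conv_rhs => rw [← prod_PF hg hs, ← prod_pow, ← prod_coe_sort]
    exact prod_dvd_prod_of_dvd _ _ fun π _ => pow_dvd_pow _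
      (Nat.lt_succ_iff.1 (mem_range.1 (Fintype.mem_piFinset.1 hσ π)))
  have e1 : ∀ Z : k[X], ∏ π ∈ PF g, ∑ j ∈ range 3, (cw π j * if π ^ j ∣ Z then 1 else 0) =
      ∑ σ ∈ Sg, cc σ * if tt σ ∣ Z then 1 else 0 := fun Z => by
    rw [← prod_coe_sort, prod_univ_sum]
    refine sum_congr rfl fun σ _ => ?_
    rw [prod_mul_distrib]
    congr 1
    by_cases h : tt σ ∣ Z
    · rw [if_pos h]
      exact prod_eq_one fun π hπ => if_pos
        ((dvd_prod_of_mem (fun π : PF g => (π : k[X]) ^ σ π) hπ).trans h)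
    · rw [if_neg h]
      by_contra c
      refine h (Finset.prod_dvd_of_coprime (fun a _ b _ hab =>
        (PF_cop hg a.2 b.2 fun e => hab (Subtype.ext e)).pow) fun π hπ => ?_)
      by_contra c'
      exact c (prod_eq_zero hπ (if_neg c'))
  have e2 : ∑ σ ∈ Sg, cc σ * (V / nrm (tt σ)) = V := by
    have : ∑ σ ∈ Sg, cc σ / nrm (tt σ) = 1 := by
      simp only [t2, hcc, ← prod_div_distrib]
      rw [← prod_univ_sum (fun _ : PF g => range 3)
        fun (π : PF g) j => cw (π : k[X]) j / nrm (π : k[X]) ^ j]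
      refine prod_eq_one fun π _ => ?_
      have := (nrm_pos (π : k[X])).ne'
      simp only [sum_range_succ, cw, range_zero, sum_empty]
      norm_num
      field_simp
      ring
    calc _ = (∑ σ ∈ Sg, cc σ / nrm (tt σ)) * V := by
          rw [sum_mul]
          exact sum_congr rfl fun _ _ => by ring
      _ = V := by rw [this, one_mul]
  have c1 : ∀ σ ∈ Sg, |cc σ| ≤ √(nrm (tt σ)) := fun σ hσ => by
    refine Real.abs_le_sqrt ?_
    rw [t2, hcc, ← prod_pow]
    refine prod_le_prod (fun _ _ => sq_nonneg _) fun π _ => ?_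
    have h1 : σ π < 3 := mem_range.1 (Fintype.mem_piFinset.1 hσ π)
    have h2 : 1 ≤ nrm (π : k[X]) := one_le_pow₀ hq1
    generalize σ π = j at h1
    interval_cases j <;> simp [cw, h2]
  have v1 : V ≤ qq k ^ dl ∧ 0 ≤ V := by
    have := hV 1 monic_one (one_dvd _) (by simp)
    rw [nrm_one, div_one] at this
    rw [← this, ← card_box]
    exact ⟨by exact_mod_cast card_filter_le _ _, Nat.cast_nonneg _⟩
  have hs0 : 0 < √(qq k ^ L) := Real.sqrt_pos.2 (by positivity)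
  have c2 : ∀ σ ∈ Sg, |cc σ * ((#{Z ∈ (box k dl).erase 0 | Q Z ∧ tt σ ∣ Z} : ℝ) -
      V / nrm (tt σ))| ≤ qq k ^ dl / √(qq k ^ L) := fun σ hσ => by
    have n0 := nrm_pos (tt σ)
    have n1 : 0 < √(nrm (tt σ)) := Real.sqrt_pos.2 n0
    rw [abs_mul]
    by_cases h : (tt σ).natDegree ≤ L
    · have h1 : {Z ∈ (box k dl).erase 0 | Q Z ∧ tt σ ∣ Z} =
          {Z ∈ box k dl | Q Z ∧ tt σ ∣ Z}.erase 0 := filter_erase _ _ _
      have h2 : (0 : k[X]) ∈ {Z ∈ box k dl | Q Z ∧ tt σ ∣ Z} :=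
        mem_filter.2 ⟨mem_box.2 (by simp), h0, dvd_zero _⟩
      rw [h1, cast_card_erase_of_mem h2, hV _ (t1 σ) (t3 σ hσ) h, sub_sub_cancel_left, abs_neg,
        abs_one, mul_one, le_div_iff₀ hs0]
      calc _ ≤ √(qq k ^ L) * √(qq k ^ L) := mul_le_mul_of_nonneg_right
            ((c1 σ hσ).trans (Real.sqrt_le_sqrt (pow_le_pow_right₀ hq1 h))) hs0.le
        _ = qq k ^ L := Real.mul_self_sqrt (by positivity)
        _ ≤ _ := pow_le_pow_right₀ hq1 hL
    · have h1 : (#{Z ∈ (box k dl).erase 0 | Q Z ∧ tt σ ∣ Z} : ℝ) ≤ qq k ^ dl / nrm (tt σ) :=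
        le_trans (Nat.cast_le.2 (card_le_card fun Z hZ =>
          mem_filter.2 ⟨(mem_filter.1 hZ).1, (mem_filter.1 hZ).2.2⟩))
          (card_box_dvd_le (t1 σ).ne_zero)
      have h2 : V / nrm (tt σ) ≤ qq k ^ dl / nrm (tt σ) := div_le_div_of_nonneg_right v1.1 n0.le
      have h3 : 0 ≤ V / nrm (tt σ) := div_nonneg v1.2 n0.le
      have h4 : (0 : ℝ) ≤ #{Z ∈ (box k dl).erase 0 | Q Z ∧ tt σ ∣ Z} := Nat.cast_nonneg _
      calc _ ≤ √(nrm (tt σ)) * (qq k ^ dl / nrm (tt σ)) :=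
            mul_le_mul (c1 σ hσ) (abs_le.2 ⟨by linarith, by linarith⟩) (abs_nonneg _) n1.le
        _ = qq k ^ dl / √(nrm (tt σ)) := by
            rw [eq_div_iff n1.ne', mul_right_comm, Real.mul_self_sqrt n0.le,
              mul_div_cancel₀ _ n0.ne']
        _ ≤ _ := div_le_div_of_nonneg_left (by positivity) hs0
            (Real.sqrt_le_sqrt (pow_le_pow_right₀ hq1 (by omega)))
  have e3 : ∑ Z ∈ (box k dl).erase 0 with Q Z,
      ∏ π ∈ PF g, ∑ j ∈ range 3, (cw π j * if π ^ j ∣ Z then 1 else 0) - V =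
      ∑ σ ∈ Sg, cc σ * ((#{Z ∈ (box k dl).erase 0 | Q Z ∧ tt σ ∣ Z} : ℝ) - V / nrm (tt σ)) := by
    simp only [e1, mul_sub, sum_sub_distrib, e2]
    rw [sum_comm]
    congr 1
    refine sum_congr rfl fun σ _ => ?_
    rw [← mul_sum, sum_boole, filter_filter]
  rw [e3]
  refine (abs_sum_le_sum_abs _ _).trans ((sum_le_card_nsmul _ _ _ c2).trans ?_)
  rw [nsmul_eq_mul, hSg, Fintype.card_piFinset, prod_const, card_range, card_univ,
    Fintype.card_coe]
  push_cast
  exact mul_le_mul_of_nonneg_right (three_le hg hs) (by positivity)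

end Pool.Agent.H18M.E5

end
end

-- part H18M.Eq5
section

/-! Equidistribution of the prime weight on a subgroup, on average over a family. -/

set_option autoImplicit false
open Polynomial Finset UniqueFactorizationMonoid CL5 CL3
open scoped Classical

noncomputable section
namespace Pool.Agent.H18M.E5

variable {k : Type} [Field k] [Fintype k]

omit [Fintype k] in
theorem ex_lg (M : k[X]) : ∃ lg : k[X] → k[X], ∀ f, IsCoprime f M → M ∣ f * lg f - derivative f := by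
  have : ∀ f : k[X], IsCoprime f M → ∃ u, M ∣ f * u - derivative f := fun f ⟨a, b, h⟩ =>
    ⟨a * derivative f, -(b * derivative f), by linear_combination derivative f * h⟩
  choose! lg h using this
  exact ⟨lg, h⟩

theorem top_box {f : k[X]} (hf : f.Monic) (n : ℕ) : (X ^ n * derivative f) /ₘ f ∈ box k n := by
  rw [← box_mul hf.ne_zero, show f * ((X ^ n * derivative f) /ₘ f) =
    X ^ n * derivative f - (X ^ n * derivative f) %ₘ f by
      linear_combination modByMonic_add_div (X ^ n * derivative f) f]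
  refine box_sub ?_ (mem_box.2 ((degree_modByMonic_lt _ hf).trans_le ?_))
  · have := (box_mul (a := f.natDegree) (s := derivative f) (monic_X_pow (R := k) n).ne_zero).2
      (mem_box.2 (degree_eq_natDegree hf.ne_zero ▸ degree_derivative_lt hf.ne_zero))
    rwa [natDegree_X_pow, add_comm] at this
  · rw [degree_eq_natDegree hf.ne_zero]
    exact_mod_cast Nat.le_add_right _ _

omit [Fintype k] in
theorem wr_of_top {f g : k[X]} (hf : f.Monic) (hg : g.Monic) {D n : ℕ} (f1 : f.natDegree = D)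
    (g1 : g.natDegree = D) (h : (X ^ n * derivative f) /ₘ f = (X ^ n * derivative g) /ₘ g) :
    (wronskian f g).degree < (2 * D - n : ℕ) := by
  by_cases h0 : wronskian f g = 0
  · rw [h0, degree_zero]
    exact WithBot.bot_lt_coe _
  have e1 : X ^ n * wronskian f g =
      f * ((X ^ n * derivative g) %ₘ g) - (X ^ n * derivative f) %ₘ f * g := by
    rw [wronskian]
    linear_combination (-f) * modByMonic_add_div (X ^ n * derivative g) g +
      g * modByMonic_add_div (X ^ n * derivative f) f - f * g * h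
  have e2 : (X ^ n * wronskian f g).degree < (f * g).degree := by
    rw [e1]
    refine (degree_sub_le _ _).trans_lt (max_lt ?_ ?_)
    · rw [degree_mul, degree_mul]
      exact WithBot.add_lt_add_left (degree_ne_bot.2 hf.ne_zero) (degree_modByMonic_lt _ hg)
    · rw [degree_mul, degree_mul]
      exact WithBot.add_lt_add_right (degree_ne_bot.2 hg.ne_zero) (degree_modByMonic_lt _ hf)
  have e3 := natDegree_lt_natDegree (mul_ne_zero (monic_X_pow n).ne_zero h0) e2
  rw [(monic_X_pow n).natDegree_mul' h0, natDegree_X_pow, hf.natDegree_mul hg] at e3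
  rw [degree_eq_natDegree h0, Nat.cast_lt]
  omega

omit [Fintype k] in
theorem wr_iff {g A f Z a u : k[X]} (hA : IsCoprime A g) (hf : IsCoprime f g)
    (h1 : g ∣ A * a - derivative A) (h2 : g ∣ f * u - derivative f) :
    g ∣ wronskian A (f * Z) ↔ g ∣ Z * u + (derivative Z - Z * a) := by
  have e1 : g ∣ A * f * (Z * u + (derivative Z - Z * a)) - wronskian A (f * Z) := by
    rw [wronskian, derivative_mul]
    convert (h2.mul_left (A * Z)).sub (h1.mul_left (f * Z)) using 1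
    ring
  rw [← dvd_iff_dvd_of_dvd_sub e1]
  exact ⟨fun h => (hA.mul_left hf).symm.dvd_of_dvd_mul_left h, fun h => h.mul_left _⟩

/-- The weight of the zero frequencies. -/
def om (g Z : k[X]) : ℝ := ∏ π ∈ PF g, ∑ j ∈ range 3, cw π j * if π ^ j ∣ Z then 1 else 0

theorem ind_split {g : k[X]} (hg : g.Monic) (hs : Squarefree g) (Z u a : k[X]) :
    (if g ∣ Z * u + (derivative Z - Z * a) then (1 : ℂ) else 0) = (nrm g : ℂ)⁻¹ * om g Z +
      (nrm g : ℂ)⁻¹ * ∑ y ∈ box k g.natDegree with ¬ g ∣ y * Z,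
        ee ((derivative Z - Z * a) * y) g * ee (y * Z * u) g := by
  rw [ind_ee hg, ← mul_add, om, ← om_eq hg hs,
    ← sum_filter_add_sum_filter_not (box k g.natDegree) fun y => g ∣ y * Z]
  congr 2
  · refine sum_congr rfl fun y hy => ee_congr hg ?_
    convert (mem_filter.1 hy).2.mul_right (u - a) using 1
    ring
  · refine sum_congr rfl fun y _ => ?_
    rw [← ee_add]
    congr 1
    ring

/-- **Equidistribution.** -/
theorem eq5 {ι : Type*} [Fintype ι] [DecidableEq ι] (e : ι → ℕ) (he : ∀ i, 0 < e i)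
    {gl M : k[X]} (h1 : gl.Monic) (hs : Squarefree gl) (h2 : M.Monic) (hc : IsCoprime gl M)
    (S : ι → Finset k[X]) (hS : ∀ i P, P ∈ S i ↔
      P.Monic ∧ Irreducible P ∧ P.natDegree = e i ∧ IsCoprime P (gl * M))
    {n dl L De : ℕ} (hDe : ∑ i, e i = De) (hL : L + M.natDegree + n ≤ dl)
    {κ : Type*} (K : Finset κ) (A : κ → k[X]) (hA : ∀ j ∈ K, IsCoprime (A j) gl)
    (G : κ → AddSubgroup k[X])
    (hP : ∀ j ∈ K, ∀ Z, M ∣ Z → Z.degree < (dl + De - n : ℕ) → Z ∈ G j)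
    (hom : ∀ j ∈ K, ∀ f g : k[X], f.Monic → g.Monic → f.natDegree = De → g.natDegree = De →
      IsCoprime f (gl * M) → IsCoprime g (gl * M) → M ∣ wronskian f g →
      (wronskian f g).degree < (2 * De - n : ℕ) → ∀ Z ∈ box k dl, f * Z ∈ G j → g * Z ∈ G j) :
    ∑ j ∈ K, |∑ P ∈ Fintype.piFinset S, (#{Z ∈ (box k dl).erase 0 |
        (∏ i, P i) * Z ∈ G j ∧ gl ∣ wronskian (A j) ((∏ i, P i) * Z)} : ℝ) -
        #(Fintype.piFinset S) / qq k ^ De * (#{Z ∈ box k (dl + De) | Z ∈ G j} / nrm gl)| ≤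
      #K * (#(Fintype.piFinset S) * (#{d ∈ box k (gl.natDegree + 1) | d.Monic ∧ d ∣ gl} : ℝ) ^ 2 *
        (qq k ^ dl / √(qq k ^ L)) / nrm gl) +
      qq k ^ (M.natDegree + n) *
        ((2 * (gl.natDegree : ℝ) + 2 * M.natDegree + n + 2) ^ Fintype.card ι * √(qq k ^ De)) *
        ∑ Z ∈ (box k dl).erase 0,
          √(#{z ∈ K ×ˢ K | gl ∣ Z * wronskian (A z.1) (A z.2)} : ℝ) := by
  obtain ⟨l1, hl1⟩ := ex_lg gl
  obtain ⟨l2, hl2⟩ := ex_lg M
  set T := Fintype.piFinset S with hT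
  set B : ℝ := (2 * (gl.natDegree : ℝ) + 2 * M.natDegree + n + 2) ^ Fintype.card ι *
    √(qq k ^ De) with hB
  have n0 := nrm_pos gl
  have hX : (X ^ n : k[X]).Monic := monic_X_pow n
  have p1 : ∀ P ∈ T, (∏ i, P i).Monic ∧ (∏ i, P i).natDegree = De ∧
      IsCoprime (∏ i, P i) (gl * M) := fun P hP => by
    have h := fun i => (hS i _).1 (Fintype.mem_piFinset.1 hP i)
    exact ⟨monic_prod_of_monic _ _ fun i _ => (h i).1, by
      rw [natDegree_prod_of_monic _ _ fun i _ => (h i).1, ← hDe]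
      exact sum_congr rfl fun i _ => (h i).2.2.1, IsCoprime.prod_left fun i _ => (h i).2.2.2⟩
  set a : k[X] → k[X] → k[X] → k[X] → ℂ := fun Z Y U y => ∑ P ∈ T,
    ee (y * Z * l1 (∏ i, P i)) gl * ee (Y * l2 (∏ i, P i)) M *
      ee (U * ((X ^ n * derivative (∏ i, P i)) /ₘ ∏ i, P i)) (X ^ n) with ha
  have a1 : ∀ Z Y U y, ¬ gl ∣ y * Z → ‖a Z Y U y‖ ≤ B := fun Z Y U y hy => by
    have := W5.weilp_prod (AddChar.FiniteField.primitiveChar_to_Complex k) (by
      simpa using AddChar.FiniteField.primitiveChar_to_Complex_isPrimitive k one_ne_zero)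
      h1 h2 hs hc (y * Z) Y U (X ^ n) hy n l1 l2 (fun f _ h => hl1 f h.of_mul_right_left)
      (fun f _ h => hl2 f h.of_mul_right_right) e he S hS
    rw [hDe] at this
    exact this
  set Fn : κ → k[X] → k[X] → k[X] → ℂ := fun j Z Y U => (nrm gl : ℂ)⁻¹ *
    ∑ y ∈ box k gl.natDegree with ¬ gl ∣ y * Z,
      ee ((derivative Z - Z * l1 (A j)) * y) gl * a Z Y U y with hFn
  have s1 : ∀ j ∈ K, ∀ Z ∈ box k dl,
      |∑ P ∈ T, (if (∏ i, P i) * Z ∈ G j ∧ gl ∣ wronskian (A j) ((∏ i, P i) * Z) then (1 : ℝ)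
        else 0) - ∑ P ∈ T, (if (∏ i, P i) * Z ∈ G j then om gl Z else 0) / nrm gl| ≤
      ∑ Y ∈ box k M.natDegree, ∑ U ∈ box k n, ‖Fn j Z Y U‖ := by
    intro j hj Z hZ
    obtain ⟨c, c1, c2⟩ := four2 h2 hX (fun l t => if ∃ P ∈ T, l2 (∏ i, P i) %ₘ M = l ∧
      ((X ^ n * derivative (∏ i, P i)) /ₘ ∏ i, P i) %ₘ X ^ n = t ∧ (∏ i, P i) * Z ∈ G j
      then 1 else 0) fun l t => by split_ifs <;> simp
    rw [natDegree_X_pow] at c2
    have c3 : ∀ P ∈ T, (if (∏ i, P i) * Z ∈ G j then (1 : ℂ) else 0) =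
        ∑ Y ∈ box k M.natDegree, ∑ U ∈ box k n, c Y U * (ee (Y * l2 (∏ i, P i)) M *
          ee (U * ((X ^ n * derivative (∏ i, P i)) /ₘ ∏ i, P i)) (X ^ n)) := fun P hP => by
      rw [← c2]
      refine if_congr ⟨fun h => ⟨P, hP, rfl, rfl, h⟩, ?_⟩ rfl rfl
      rintro ⟨Q, hQ, q1, q2, q3⟩
      obtain ⟨u1, u2, u3⟩ := p1 P hP
      obtain ⟨v1, v2, v3⟩ := p1 Q hQ
      have tb : ∀ f : k[X], f.Monic → ((X ^ n * derivative f) /ₘ f) %ₘ X ^ n =
          (X ^ n * derivative f) /ₘ f := fun f hf =>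
        (modByMonic_eq_self_iff hX).2 (by rw [degree_X_pow]; exact mem_box.1 (top_box hf n))
      rw [tb _ u1, tb _ v1] at q2
      refine hom j hj _ _ v1 u1 v2 u2 v3 u3 ?_ (wr_of_top v1 u1 v2 u2 q2) Z hZ q3
      have w1 : M ∣ l2 (∏ i, Q i) - l2 (∏ i, P i) :=
        ⟨l2 (∏ i, Q i) /ₘ M - l2 (∏ i, P i) /ₘ M, by
          linear_combination q1 - modByMonic_add_div (l2 (∏ i, Q i)) M +
            modByMonic_add_div (l2 (∏ i, P i)) M⟩
      rw [wronskian]
      convert ((((hl2 _ v3.of_mul_right_right).mul_right (∏ i, P i)).sub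
        ((hl2 _ u3.of_mul_right_right).mul_left (∏ i, Q i))).sub
        (w1.mul_left ((∏ i, Q i) * ∏ i, P i))) using 1
      ring
    have c4 : ((∑ P ∈ T, (if (∏ i, P i) * Z ∈ G j ∧ gl ∣ wronskian (A j) ((∏ i, P i) * Z)
        then (1 : ℝ) else 0) - ∑ P ∈ T, (if (∏ i, P i) * Z ∈ G j then om gl Z else 0) / nrm gl :
        ℝ) : ℂ) = ∑ Y ∈ box k M.natDegree, ∑ U ∈ box k n, c Y U * Fn j Z Y U := by
      rw [← sum_sub_distrib, Complex.ofReal_sum, sum_congr rfl (g := fun P =>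
        (if (∏ i, P i) * Z ∈ G j then (1 : ℂ) else 0) * ((nrm gl : ℂ)⁻¹ *
          ∑ y ∈ box k gl.natDegree with ¬ gl ∣ y * Z,
            ee ((derivative Z - Z * l1 (A j)) * y) gl * ee (y * Z * l1 (∏ i, P i)) gl))
        fun P hP => ?_, sum_congr rfl fun P hP => by rw [c3 P hP]]
      · simp only [hFn, ha, sum_mul]
        rw [sum_comm]
        refine sum_congr rfl fun Y _ => ?_
        rw [sum_comm]
        refine sum_congr rfl fun U _ => ?_
        simp only [mul_sum]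
        rw [sum_comm]
        exact sum_congr rfl fun y _ => sum_congr rfl fun P _ => by ring
      · have := ind_split h1 hs Z (l1 (∏ i, P i)) (l1 (A j))
        rw [← wr_iff (hA j hj) (p1 P hP).2.2.of_mul_right_left (hl1 _ (hA j hj))
          (hl1 _ (p1 P hP).2.2.of_mul_right_left), ← sub_eq_iff_eq_add'] at this
        rw [← this]
        by_cases g1 : (∏ i, P i) * Z ∈ G j
        · by_cases g2 : gl ∣ wronskian (A j) ((∏ i, P i) * Z) <;>
            simp [g1, g2, div_eq_inv_mul]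
        · simp [g1]
    rw [← Real.norm_eq_abs, ← Complex.norm_real, c4]
    refine (norm_sum_le _ _).trans (sum_le_sum fun Y _ => (norm_sum_le _ _).trans
      (sum_le_sum fun U _ => ?_))
    rw [norm_mul]
    exact mul_le_of_le_one_left (norm_nonneg _) (c1 Y U)
  have s2 : ∀ Z Y U, ∑ j ∈ K, ‖Fn j Z Y U‖ ≤
      B * √(#{z ∈ K ×ˢ K | gl ∣ Z * wronskian (A z.1) (A z.2)} : ℝ) := fun Z Y U => by
    refine (ls1 h1 K (fun j => derivative Z - Z * l1 (A j)) _ (filter_subset _ _) (a Z Y U)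
      (by positivity) fun y hy => a1 Z Y U y (mem_filter.1 hy).2).trans ?_
    refine mul_le_mul_of_nonneg_left (Real.sqrt_le_sqrt (Nat.cast_le.2 (card_le_card
      fun z hz => ?_))) (by positivity)
    obtain ⟨z1, z2⟩ := mem_filter.1 hz
    obtain ⟨z3, z4⟩ := mem_product.1 z1
    refine mem_filter.2 ⟨z1, ?_⟩
    rw [wronskian]
    convert ((z2.mul_left (A z.1 * A z.2)).sub ((hl1 _ (hA _ z4)).mul_left (Z * A z.1))).add
      ((hl1 _ (hA _ z3)).mul_left (Z * A z.2)) using 1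
    ring
  have s3 : ∀ j ∈ K, ∀ P ∈ T, |∑ Z ∈ (box k dl).erase 0,
      (if (∏ i, P i) * Z ∈ G j then om gl Z else 0) -
        #{Z ∈ box k (dl + De) | Z ∈ G j} / qq k ^ De| ≤
      (#{d ∈ box k (gl.natDegree + 1) | d.Monic ∧ d ∣ gl} : ℝ) ^ 2 *
        (qq k ^ dl / √(qq k ^ L)) := fun j hj P hP' => by
    obtain ⟨u1, u2, u3⟩ := p1 P hP'
    rw [← sum_filter]
    refine om_mean h1 hs (by omega) (fun Z => (∏ i, P i) * Z ∈ G j) (by simp) fun t t1 t2 t3 => ?_
    have := cnt1 u1 t1 h2 u3.of_mul_right_right ((hc.pow_left (m := 2)).of_isCoprime_of_dvd_left t2)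
      (dl := dl) (n := n) (by omega) (G j) (by rw [u2]; exact hP j hj)
    rwa [u2] at this
  have s4 : ∀ j ∈ K, |∑ P ∈ T, (#{Z ∈ (box k dl).erase 0 |
        (∏ i, P i) * Z ∈ G j ∧ gl ∣ wronskian (A j) ((∏ i, P i) * Z)} : ℝ) -
        #T / qq k ^ De * (#{Z ∈ box k (dl + De) | Z ∈ G j} / nrm gl)| ≤
      #T * (#{d ∈ box k (gl.natDegree + 1) | d.Monic ∧ d ∣ gl} : ℝ) ^ 2 *
        (qq k ^ dl / √(qq k ^ L)) / nrm gl + ∑ Z ∈ (box k dl).erase 0,
        ∑ Y ∈ box k M.natDegree, ∑ U ∈ box k n, ‖Fn j Z Y U‖ := fun j hj => by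
    have e1 : ∑ P ∈ T, (#{Z ∈ (box k dl).erase 0 |
        (∏ i, P i) * Z ∈ G j ∧ gl ∣ wronskian (A j) ((∏ i, P i) * Z)} : ℝ) -
        #T / qq k ^ De * (#{Z ∈ box k (dl + De) | Z ∈ G j} / nrm gl) =
        (∑ P ∈ T, (∑ Z ∈ (box k dl).erase 0, (if (∏ i, P i) * Z ∈ G j then om gl Z else 0) -
          #{Z ∈ box k (dl + De) | Z ∈ G j} / qq k ^ De)) / nrm gl +
        ∑ Z ∈ (box k dl).erase 0, (∑ P ∈ T, (if (∏ i, P i) * Z ∈ G j ∧
          gl ∣ wronskian (A j) ((∏ i, P i) * Z) then (1 : ℝ) else 0) -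
          ∑ P ∈ T, (if (∏ i, P i) * Z ∈ G j then om gl Z else 0) / nrm gl) := by
      simp only [sum_sub_distrib, sub_div, sum_div, sum_const, nsmul_eq_mul]
      rw [sum_comm (s := (box k dl).erase 0), sum_comm (s := (box k dl).erase 0)]
      simp only [sum_boole]
      ring
    rw [e1]
    refine (abs_add_le _ _).trans (add_le_add ?_ ((abs_sum_le_sum_abs _ _).trans
      (sum_le_sum fun Z hZ => s1 j hj Z (mem_of_mem_erase hZ))))
    rw [abs_div, abs_of_pos n0, mul_assoc]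
    refine div_le_div_of_nonneg_right ((abs_sum_le_sum_abs _ _).trans
      ((sum_le_card_nsmul _ _ _ (s3 j hj)).trans ?_)) n0.le
    rw [nsmul_eq_mul]
  refine (sum_le_sum s4).trans ?_
  rw [sum_add_distrib, sum_const, nsmul_eq_mul, sum_comm, mul_sum]
  refine add_le_add le_rfl (sum_le_sum fun Z _ => ?_)
  rw [sum_comm]
  refine (sum_le_card_nsmul _ _ (qq k ^ n * (B * √(#{z ∈ K ×ˢ K |
    gl ∣ Z * wronskian (A z.1) (A z.2)} : ℝ))) fun Y _ => ?_).trans (le_of_eq ?_)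
  · rw [sum_comm]
    refine (sum_le_card_nsmul _ _ _ fun U _ => s2 Z Y U).trans (le_of_eq ?_)
    rw [nsmul_eq_mul, card_box]
  · rw [nsmul_eq_mul, card_box, pow_add]
    ring

end Pool.Agent.H18M.E5

end
end

-- part H18M.Lln27
section

/-! h18m rows FOU + MAJ (helper27): a second moment by Fourier expansion on a finite abelian group, and the
major characters of the pair of boxes. -/

set_option autoImplicit false
open Polynomial Finset
open scoped Classical

noncomputable section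
namespace H18M
open CL5

section Fou
variable {G : Type*} [AddCommGroup G] [Fintype G]

/-- unnormalised Fourier coefficient -/
def fc27 (f : G → ℂ) (ψ : AddChar G ℂ) : ℂ := ∑ x, f x * ψ x

theorem parseval27 (f : G → ℂ) :
    ∑ ψ : AddChar G ℂ, ‖fc27 f ψ‖ ^ 2 = (Fintype.card G : ℝ) * ∑ x, ‖f x‖ ^ 2 := by
  have h1 : ∀ ψ : AddChar G ℂ, ((‖fc27 f ψ‖ ^ 2 : ℝ) : ℂ) =
      ∑ x, ∑ y, f x * (starRingEnd ℂ) (f y) * ψ (x - y) := by
    intro ψ
    rw [← Complex.normSq_eq_norm_sq, Complex.normSq_eq_conj_mul_self, mul_comm, fc27, map_sum,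
      Finset.sum_mul_sum]
    refine Finset.sum_congr rfl fun x _ => Finset.sum_congr rfl fun y _ => ?_
    rw [map_mul, sub_eq_add_neg, AddChar.map_add_eq_mul, AddChar.map_neg_eq_conj]
    ring
  have h2 : ((∑ ψ : AddChar G ℂ, ‖fc27 f ψ‖ ^ 2 : ℝ) : ℂ) =
      (((Fintype.card G : ℝ) * ∑ x, ‖f x‖ ^ 2 : ℝ) : ℂ) := by
    rw [Complex.ofReal_sum, Finset.sum_congr rfl fun ψ _ => h1 ψ, Finset.sum_comm,
      Complex.ofReal_mul, Complex.ofReal_sum, Finset.mul_sum]
    refine Finset.sum_congr rfl fun x _ => ?_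
    rw [Finset.sum_comm, Finset.sum_eq_single x]
    · rw [← Finset.mul_sum, AddChar.sum_apply_eq_ite, if_pos (sub_self x),
        ← Complex.normSq_eq_norm_sq, Complex.normSq_eq_conj_mul_self]
      push_cast
      ring
    · intro y _ hy
      rw [← Finset.mul_sum, AddChar.sum_apply_eq_ite, if_neg (sub_ne_zero.mpr hy.symm), mul_zero]
    · intro h
      exact absurd (Finset.mem_univ x) h
  exact_mod_cast h2

theorem fc27_shift (f : G → ℂ) (ψ : AddChar G ℂ) (u : G) :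
    fc27 (fun x => f (x + u)) ψ * ψ u = fc27 f ψ := by
  unfold fc27
  rw [Finset.sum_mul, ← Equiv.sum_comp (Equiv.addRight u) (fun x => f x * ψ x)]
  refine Finset.sum_congr rfl fun x _ => ?_
  rw [Equiv.coe_addRight, AddChar.map_add_eq_mul, mul_assoc]

theorem fc27_sum {ι : Type*} (I : Finset ι) (F : ι → G → ℂ) (ψ : AddChar G ℂ) :
    fc27 (fun x => ∑ i ∈ I, F i x) ψ = ∑ i ∈ I, fc27 (F i) ψ := by
  unfold fc27
  rw [Finset.sum_comm]
  exact Finset.sum_congr rfl fun x _ => Finset.sum_mul _ _ _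

/-- FOU: `F i` is invariant under the shifts `U i a`, `a ∈ S`; every character is trivial on the shifts of at most
`T` indices, or on one of the families `La d`. -/
theorem fou27 {ι σ δ κ : Type*} (I : Finset ι) (S : Finset σ) (D : Finset δ) (K : Finset κ)
    (F : ι → G → ℂ) (U : ι → σ → G) (La : δ → κ → G) (T M : ℝ) (B : δ → ℝ) (hT : 0 ≤ T)
    (hK : K.Nonempty)
    (hinv : ∀ i ∈ I, ∀ a ∈ S, ∀ x, F i (x + U i a) = F i x)
    (hM : ∀ i ∈ I, ∀ x, ‖F i x‖ ≤ M)
    (hdi : ∀ ψ : AddChar G ℂ, ((I.filter fun i => ∀ a ∈ S, ψ (U i a) = 1).card : ℝ) ≤ T ∨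
      ∃ d ∈ D, ∀ v ∈ K, ψ (La d v) = 1)
    (hB : ∀ d ∈ D, ∀ x, ‖∑ v ∈ K, ∑ i ∈ I, F i (x + La d v)‖ ≤ B d * K.card) :
    ∑ x, ‖∑ i ∈ I, F i x‖ ^ 2 ≤ (Fintype.card G : ℝ) * (T * I.card * M ^ 2 + ∑ d ∈ D, B d ^ 2) := by
  have hG : (0 : ℝ) < Fintype.card G := by exact_mod_cast Fintype.card_pos
  have hKp : (0 : ℝ) < K.card := by exact_mod_cast hK.card_pos
  set P : δ → G → ℂ := fun d x => ((K.card : ℂ))⁻¹ * ∑ v ∈ K, ∑ i ∈ I, F i (x + La d v) with hP
  have key : ∀ ψ : AddChar G ℂ, ‖fc27 (fun x => ∑ i ∈ I, F i x) ψ‖ ^ 2 ≤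
      T * ∑ i ∈ I, ‖fc27 (F i) ψ‖ ^ 2 + ∑ d ∈ D, ‖fc27 (P d) ψ‖ ^ 2 := by
    intro ψ
    have n1 : 0 ≤ ∑ i ∈ I, ‖fc27 (F i) ψ‖ ^ 2 := Finset.sum_nonneg fun _ _ => sq_nonneg _
    have n2 : 0 ≤ ∑ d ∈ D, ‖fc27 (P d) ψ‖ ^ 2 := Finset.sum_nonneg fun _ _ => sq_nonneg _
    rcases hdi ψ with h | ⟨d, hd, h⟩
    · have e1 : fc27 (fun x => ∑ i ∈ I, F i x) ψ =
          ∑ i ∈ I.filter (fun i => ∀ a ∈ S, ψ (U i a) = 1), fc27 (F i) ψ := by
        rw [fc27_sum]
        refine (Finset.sum_subset (Finset.filter_subset _ _) fun i hi hn => ?_).symm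
        rw [Finset.mem_filter, not_and] at hn
        have hn' := hn hi
        push Not at hn'
        obtain ⟨a, ha, hne⟩ := hn'
        have e2 := fc27_shift (F i) ψ (U i a)
        rw [show (fun x => F i (x + U i a)) = F i from funext (hinv i hi a ha)] at e2
        have e3 : fc27 (F i) ψ * (ψ (U i a) - 1) = 0 := by rw [mul_sub, e2, mul_one, sub_self]
        exact (mul_eq_zero.mp e3).resolve_right (sub_ne_zero.mpr hne)
      have e4 : ‖fc27 (fun x => ∑ i ∈ I, F i x) ψ‖ ^ 2 ≤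
          (∑ i ∈ I.filter (fun i => ∀ a ∈ S, ψ (U i a) = 1), ‖fc27 (F i) ψ‖) ^ 2 := by
        rw [e1]
        exact pow_le_pow_left₀ (norm_nonneg _) (norm_sum_le _ _) 2
      have e5 := sq_sum_le_card_mul_sum_sq (s := I.filter (fun i => ∀ a ∈ S, ψ (U i a) = 1))
        (f := fun i => ‖fc27 (F i) ψ‖)
      have e6 : ∑ i ∈ I.filter (fun i => ∀ a ∈ S, ψ (U i a) = 1), ‖fc27 (F i) ψ‖ ^ 2 ≤
          ∑ i ∈ I, ‖fc27 (F i) ψ‖ ^ 2 :=
        Finset.sum_le_sum_of_subset_of_nonneg (Finset.filter_subset _ _) fun _ _ _ => sq_nonneg _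
      have e7 := mul_le_mul h e6 (Finset.sum_nonneg fun _ _ => sq_nonneg _) hT
      linarith
    · have e1 : fc27 (P d) ψ = fc27 (fun x => ∑ i ∈ I, F i x) ψ := by
        have e2 : fc27 (P d) ψ = ((K.card : ℂ))⁻¹ *
            fc27 (fun x => ∑ v ∈ K, ∑ i ∈ I, F i (x + La d v)) ψ := by
          unfold fc27
          rw [Finset.mul_sum]
          exact Finset.sum_congr rfl fun x _ => mul_assoc _ _ _
        have e3 : ∀ v ∈ K, fc27 (fun x => ∑ i ∈ I, F i (x + La d v)) ψ =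
            fc27 (fun x => ∑ i ∈ I, F i x) ψ := by
          intro v hv
          have e4 := fc27_shift (fun x => ∑ i ∈ I, F i x) ψ (La d v)
          rwa [h v hv, mul_one] at e4
        have hc : (K.card : ℂ) ≠ 0 := by exact_mod_cast hK.card_pos.ne'
        rw [e2, fc27_sum K (fun v x => ∑ i ∈ I, F i (x + La d v)) ψ, Finset.sum_congr rfl e3,
          Finset.sum_const, nsmul_eq_mul, ← mul_assoc, inv_mul_cancel₀ hc, one_mul]
      have e5 : ‖fc27 (P d) ψ‖ ^ 2 ≤ ∑ d ∈ D, ‖fc27 (P d) ψ‖ ^ 2 :=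
        Finset.single_le_sum (f := fun d => ‖fc27 (P d) ψ‖ ^ 2) (fun _ _ => sq_nonneg _) hd
      rw [← e1]
      have := mul_nonneg hT n1
      linarith
  have h1 := Finset.sum_le_sum fun ψ (_ : ψ ∈ (Finset.univ : Finset (AddChar G ℂ))) => key ψ
  rw [parseval27, Finset.sum_add_distrib, ← Finset.mul_sum, Finset.sum_comm,
    Finset.sum_comm (t := D), Finset.sum_congr rfl fun i _ => parseval27 (F i),
    Finset.sum_congr rfl fun d _ => parseval27 (P d)] at h1
  have h2 : ∑ i ∈ I, (Fintype.card G : ℝ) * ∑ x, ‖F i x‖ ^ 2 ≤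
      ∑ _i ∈ I, (Fintype.card G : ℝ) * ((Fintype.card G : ℝ) * M ^ 2) := by
    refine Finset.sum_le_sum fun i hi => mul_le_mul_of_nonneg_left ?_ hG.le
    calc ∑ x, ‖F i x‖ ^ 2 ≤ ∑ _x : G, M ^ 2 :=
          Finset.sum_le_sum fun x _ => pow_le_pow_left₀ (norm_nonneg _) (hM i hi x) 2
      _ = _ := by rw [Finset.sum_const, nsmul_eq_mul, Finset.card_univ]
  have h3 : ∑ d ∈ D, (Fintype.card G : ℝ) * ∑ x, ‖P d x‖ ^ 2 ≤
      ∑ d ∈ D, (Fintype.card G : ℝ) * ((Fintype.card G : ℝ) * B d ^ 2) := by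
    refine Finset.sum_le_sum fun d hd => mul_le_mul_of_nonneg_left ?_ hG.le
    have hx : ∀ x, ‖P d x‖ ≤ B d := by
      intro x
      rw [hP]
      simp only [norm_mul, norm_inv, Complex.norm_natCast]
      rw [inv_mul_le_iff₀ hKp, mul_comm]
      exact hB d hd x
    calc ∑ x, ‖P d x‖ ^ 2 ≤ ∑ _x : G, B d ^ 2 :=
          Finset.sum_le_sum fun x _ => pow_le_pow_left₀ (norm_nonneg _) (hx x) 2
      _ = _ := by rw [Finset.sum_const, nsmul_eq_mul, Finset.card_univ]
  rw [Finset.sum_const, nsmul_eq_mul] at h2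
  rw [← Finset.mul_sum, ← Finset.mul_sum, ← Finset.mul_sum] at h3
  rw [← Finset.mul_sum D] at h1
  have h4 := mul_le_mul_of_nonneg_left h2 hT
  refine le_of_mul_le_mul_left ?_ hG
  nlinarith

end Fou

variable {k : Type*} [Field k] [Fintype k]

theorem box_sub27 {N : ℕ} {a b : k[X]} (ha : a ∈ box k N) (hb : b ∈ box k N) : a - b ∈ box k N := by
  rw [mem_box] at *
  exact lt_of_le_of_lt (degree_sub_le a b) (max_lt ha hb)

theorem mem_box27 {N : ℕ} {a : k[X]} : a ∈ box k N ↔ a = 0 ∨ a.natDegree < N := by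
  rw [mem_box]
  by_cases h : a = 0
  · simp [h]
  · rw [← natDegree_lt_iff_degree_lt h]
    simp [h]

theorem box_mul27 {N A Bn : ℕ} {a b : k[X]} (ha : a ∈ box k A) (hb : b ∈ box k Bn)
    (h : A + Bn ≤ N + 1) : a * b ∈ box k N := by
  rw [mem_box27] at *
  rcases ha with ha | ha
  · exact Or.inl (by rw [ha, zero_mul])
  rcases hb with hb | hb
  · exact Or.inl (by rw [hb, mul_zero])
  have := natDegree_mul_le (p := a) (q := b)
  exact Or.inr (by omega)

/-- one coordinate of MAJ -/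
theorem maj1_27 (χ : AddChar k[X] ℂ) (t len e : ℕ) (het : e ≤ t) (hel : e ≤ len)
    (hp : ∀ a : k[X], a ≠ 0 → a.natDegree + e ≤ t →
      ∃ r ∈ box k e, r ≠ 0 ∧ ∀ s ∈ box k len, χ (s * (a * r)) = 1) :
    ∃ a ∈ box k e, a ≠ 0 ∧ ∀ s ∈ box k (len + t + 1 - 2 * e), χ (a * s) = 1 := by
  obtain ⟨a, hae, ha0, ha⟩ := hp 1 one_ne_zero (by simpa using het)
  have had : a.natDegree < e := (mem_box27.mp hae).resolve_left ha0
  have step : ∀ j : ℕ, j + 2 * e ≤ t + 1 → ∀ s ∈ box k (len + j), χ (a * s) = 1 := by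
    intro j
    induction j with
    | zero =>
      intro _ s hs
      have := ha s hs
      rwa [one_mul, mul_comm] at this
    | succ j ih =>
      intro hj s hs
      have ih' := ih (by omega)
      have hX : (X ^ (j + 1) : k[X]) ≠ 0 := pow_ne_zero _ X_ne_zero
      obtain ⟨r, hre, hr0, hr⟩ := hp (a * X ^ (j + 1)) (mul_ne_zero ha0 hX) (by
        rw [natDegree_mul ha0 hX, natDegree_X_pow]
        omega)
      have hrd : r.natDegree < e := (mem_box27.mp hre).resolve_left hr0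
      set w : k[X] := X ^ (j + 1) * r with hw
      have hw0 : w ≠ 0 := mul_ne_zero hX hr0
      have hwd : w.natDegree = j + 1 + r.natDegree := by rw [hw, natDegree_mul hX hr0, natDegree_X_pow]
      have hdiv : s = w * (s / w) + s % w := (EuclideanDomain.div_add_mod s w).symm
      have hmod : s % w ∈ box k (len + j) := by
        rw [mem_box]
        refine lt_of_lt_of_le (Polynomial.degree_mod_lt s hw0) ?_
        rw [degree_eq_natDegree hw0]
        exact_mod_cast (by omega : w.natDegree ≤ len + j)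
      have hq : s / w ∈ box k len := by
        rw [mem_box27]
        by_cases h0 : s / w = 0
        · exact Or.inl h0
        · right
          have h1 : w * (s / w) ∈ box k (len + (j + 1)) := by
            have h2 : w * (s / w) = s - s % w := by rw [eq_sub_iff_add_eq]; exact hdiv.symm
            rw [h2]
            refine box_sub27 hs ?_
            rw [mem_box27] at hmod ⊢
            rcases hmod with h | h
            · exact Or.inl h
            · exact Or.inr (by omega)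
          have h3 := (mem_box27.mp h1).resolve_left (mul_ne_zero hw0 h0)
          rw [natDegree_mul hw0 h0] at h3
          omega
      have e1 : a * s = s / w * (a * X ^ (j + 1) * r) + a * (s % w) := by
        conv_lhs => rw [hdiv]
        rw [hw]
        ring
      rw [e1, AddChar.map_add_eq_mul, hr _ hq, ih' _ hmod, one_mul]
  refine ⟨a, hae, ha0, fun s hs => ?_⟩
  by_cases hc : 2 * e ≤ t + 1
  · exact step (t + 1 - 2 * e) (by omega) s
      (by rwa [show len + (t + 1 - 2 * e) = len + t + 1 - 2 * e by omega])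
  · have hs' : s ∈ box k len := by
      rw [mem_box27] at hs ⊢
      rcases hs with h | h
      · exact Or.inl h
      · exact Or.inr (by omega)
    have := ha s hs'
    rwa [one_mul, mul_comm] at this

/-- pigeonhole: a set of pairs closed under subtraction, of index `< q^e`, meets every injective additive image of
`box e` -/
theorem pig27 (A H : Finset (k[X] × k[X])) (e : ℕ) (φ : k[X] →+ k[X] × k[X])
    (hA : ∀ r ∈ box k e, ∀ h ∈ H, φ r + h ∈ A) (hH : ∀ x ∈ H, ∀ y ∈ H, x - y ∈ H)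
    (hc : (A.card : ℝ) < qq k ^ e * H.card) : ∃ r ∈ box k e, r ≠ 0 ∧ φ r ∈ H := by
  have hc' : A.card < (box k e ×ˢ H).card := by
    rw [Finset.card_product]
    rw [← card_box] at hc
    exact_mod_cast hc
  obtain ⟨x, hx, y, hy, hne, hxy⟩ := Finset.exists_ne_map_eq_of_card_lt_of_maps_to hc'
    (f := fun z : k[X] × (k[X] × k[X]) => φ z.1 + z.2) (fun z hz => by
      have hz' := Finset.mem_product.mp (Finset.mem_coe.mp hz)
      exact Finset.mem_coe.mpr (hA _ hz'.1 _ hz'.2))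
  rw [Finset.mem_product] at hx hy
  refine ⟨x.1 - y.1, box_sub27 hx.1 hy.1, fun h0 => hne ?_, ?_⟩
  · have h1 : x.1 = y.1 := sub_eq_zero.mp h0
    rw [h1] at hxy
    exact Prod.ext h1 (add_left_cancel hxy)
  · have h1 : φ (x.1 - y.1) = y.2 - x.2 := by
      rw [map_sub, sub_eq_sub_iff_add_eq_add, hxy, add_comm]
    rw [h1]
    exact hH _ hy.2 _ hx.2

/-- MAJ: a character that kills the lines `s (al, be)`, `s ∈ box len`, for more than `q^(t1+t2-e)` directions kills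
`d (box (s1-3e) × box (s2-3e))` for a monic `d` of degree `≤ 2e`. -/
theorem maj27 (χ : AddChar (k[X] × k[X]) ℂ) (s1 s2 t1 t2 len e : ℕ) (h1 : e ≤ t1) (h2 : e ≤ t2)
    (hel : e ≤ len) (hs1 : s1 ≤ len + t1) (hs2 : s2 ≤ len + t2)
    (hc : qq k ^ (t1 + t2) < qq k ^ e * (((box k t1 ×ˢ box k t2).filter fun p =>
      ∀ s ∈ box k len, χ (s * p.1, s * p.2) = 1).card : ℝ)) :
    ∃ d ∈ (box k (2 * e + 1)).filter Monic, ∀ v ∈ box k (s1 - 3 * e) ×ˢ box k (s2 - 3 * e),
      χ (d * v.1, d * v.2) = 1 := by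
  set H := (box k t1 ×ˢ box k t2).filter fun p => ∀ s ∈ box k len, χ (s * p.1, s * p.2) = 1 with hH
  have hsub : ∀ x ∈ H, ∀ y ∈ H, x - y ∈ H := by
    intro x hx y hy
    rw [hH, Finset.mem_filter, Finset.mem_product] at hx hy ⊢
    refine ⟨⟨box_sub27 hx.1.1 hy.1.1, box_sub27 hx.1.2 hy.1.2⟩, fun s hs => ?_⟩
    have e1 : (s * (x - y).1, s * (x - y).2) = (s * x.1, s * x.2) - (s * y.1, s * y.2) := by
      exact Prod.ext (mul_sub _ _ _) (mul_sub _ _ _)
    rw [e1, AddChar.map_sub_eq_div, hx.2 s hs, hy.2 s hs, div_one]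
  have hcard : (((box k t1 ×ˢ box k t2).card : ℕ) : ℝ) < qq k ^ e * H.card := by
    rw [Finset.card_product, Nat.cast_mul, card_box, card_box, ← pow_add]
    exact hc
  have badd : ∀ {N : ℕ} {a b : k[X]}, a ∈ box k N → b ∈ box k N → a + b ∈ box k N := by
    intro N a b ha hb
    rw [mem_box] at *
    exact lt_of_le_of_lt (degree_add_le a b) (max_lt ha hb)
  have bmul : ∀ {t : ℕ} {a r : k[X]}, a.natDegree + e ≤ t → r ∈ box k e → a * r ∈ box k t := by
    intro t a r ha hr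
    exact box_mul27 (A := a.natDegree + 1) (mem_box27.mpr (Or.inr (by omega))) hr (by omega)
  obtain ⟨a, hae, ha0, ha⟩ := maj1_27 (χ.compAddMonoidHom (AddMonoidHom.inl _ _)) t1 len e h1 hel (by
    intro a _ had
    obtain ⟨r, hr, hr0, hm⟩ := pig27 (box k t1 ×ˢ box k t2) H e
      ((AddMonoidHom.inl _ _).comp (AddMonoidHom.mulLeft a)) (fun r hr h hh => by
        rw [hH, Finset.mem_filter, Finset.mem_product] at hh
        rw [Finset.mem_product]
        exact ⟨badd (bmul had hr) hh.1.1, by simpa using hh.1.2⟩) hsub hcard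
    refine ⟨r, hr, hr0, fun s hs => ?_⟩
    rw [hH, Finset.mem_filter] at hm
    have := hm.2 s hs
    simpa using this)
  obtain ⟨b, hbe, hb0, hb⟩ := maj1_27 (χ.compAddMonoidHom (AddMonoidHom.inr _ _)) t2 len e h2 hel (by
    intro a _ had
    obtain ⟨r, hr, hr0, hm⟩ := pig27 (box k t1 ×ˢ box k t2) H e
      ((AddMonoidHom.inr _ _).comp (AddMonoidHom.mulLeft a)) (fun r hr h hh => by
        rw [hH, Finset.mem_filter, Finset.mem_product] at hh
        rw [Finset.mem_product]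
        exact ⟨by simpa using hh.1.1, badd (bmul had hr) hh.1.2⟩) hsub hcard
    refine ⟨r, hr, hr0, fun s hs => ?_⟩
    rw [hH, Finset.mem_filter] at hm
    have := hm.2 s hs
    simpa using this)
  have had : a.natDegree < e := (mem_box27.mp hae).resolve_left ha0
  have hbd : b.natDegree < e := (mem_box27.mp hbe).resolve_left hb0
  have hab : a * b ≠ 0 := mul_ne_zero ha0 hb0
  set c : k[X] := C (a * b).leadingCoeff⁻¹ with hcdef
  have hc1 : c ∈ box k 1 := mem_box27.mpr (Or.inr (by rw [hcdef, natDegree_C]; omega))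
  refine ⟨a * b * c, Finset.mem_filter.mpr ⟨?_, monic_mul_leadingCoeff_inv hab⟩, fun v hv => ?_⟩
  · exact box_mul27 (A := 2 * e) (box_mul27 hae hbe (by omega)) hc1 (by omega)
  · rw [Finset.mem_product] at hv
    have small : ∀ {s t : ℕ} {x w : k[X]}, s ≤ len + t → x ∈ box k e → w ∈ box k (s - 3 * e) →
        x * c * w ∈ box k (len + t + 1 - 2 * e) := by
      intro s t x w hs hx hw
      by_cases h3 : 3 * e ≤ s
      · exact box_mul27 (A := e) (box_mul27 hx hc1 (by omega)) hw (by omega)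
      · rw [show s - 3 * e = 0 by omega, mem_box27] at hw
        rcases hw with hw | hw
        · exact mem_box27.mpr (Or.inl (by rw [hw, mul_zero]))
        · omega
    have e1 : (a * b * c * v.1, a * b * c * v.2) =
        AddMonoidHom.inl k[X] k[X] (a * (b * c * v.1)) + AddMonoidHom.inr k[X] k[X] (b * (a * c * v.2)) := by
      simp only [AddMonoidHom.inl_apply, AddMonoidHom.inr_apply, Prod.mk_add_mk, add_zero, zero_add]
      exact Prod.ext (by ring) (by ring)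
    have e2 := ha _ (small hs1 hbe hv.1)
    have e3 := hb _ (small hs2 hae hv.2)
    rw [AddChar.compAddMonoidHom_apply] at e2 e3
    rw [e1, AddChar.map_add_eq_mul, e2, e3, one_mul]

/-- FOU + MAJ on the pair of boxes (`e1 ≥ 3e`, e.g. `4e+3`) -/
theorem foumaj27 (s1 s2 t1 t2 len e e1 : ℕ) (h1 : e ≤ t1) (h2 : e ≤ t2) (hel : e ≤ len) (he1 : 3 * e ≤ e1)
    (hs1 : s1 ≤ len + t1) (hs1' : len + t1 ≤ s1 + 1) (hs2 : s2 ≤ len + t2) (hs2' : len + t2 ≤ s2 + 1)
    (I : Finset (k[X] × k[X])) (hI : I ⊆ box k t1 ×ˢ box k t2)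
    (F : k[X] × k[X] → k[X] × k[X] → ℂ) (M : ℝ) (B : k[X] → ℝ)
    (hinv : ∀ p ∈ I, ∀ s ∈ box k len, ∀ x ∈ box k s1 ×ˢ box k s2,
      F p (x.1 + s * p.1, x.2 + s * p.2) = F p x)
    (hM : ∀ p ∈ I, ∀ x ∈ box k s1 ×ˢ box k s2, ‖F p x‖ ≤ M)
    (hB : ∀ d ∈ (box k (2 * e + 1)).filter Monic, ∀ x ∈ box k s1 ×ˢ box k s2,
      ‖∑ v ∈ box k (s1 - e1) ×ˢ box k (s2 - e1), ∑ p ∈ I, F p (x.1 + d * v.1, x.2 + d * v.2)‖ ≤
        B d * qq k ^ (s1 - e1 + (s2 - e1))) :
    ∑ x ∈ box k s1 ×ˢ box k s2, ‖∑ p ∈ I, F p x‖ ^ 2 ≤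
      qq k ^ (s1 + s2) * (qq k ^ (t1 + t2) / qq k ^ e * I.card * M ^ 2 +
        ∑ d ∈ (box k (2 * e + 1)).filter Monic, B d ^ 2) := by
  set W : Submodule k (k[X] × k[X]) := (degreeLT k s1).prod (degreeLT k s2) with hW
  have hmem : ∀ x : k[X] × k[X], x ∈ box k s1 ×ˢ box k s2 ↔ x ∈ W := by
    intro x
    rw [hW, Submodule.mem_prod, mem_degreeLT, mem_degreeLT, Finset.mem_product, mem_box, mem_box]
  let _ : Fintype W := Fintype.subtype (box k s1 ×ˢ box k s2) hmem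
  obtain ⟨π, hπ⟩ := LinearMap.exists_leftInverse_of_injective W.subtype W.ker_subtype
  have hπ' : ∀ y ∈ box k s1 ×ˢ box k s2, ((π y : W) : k[X] × k[X]) = y := by
    intro y hy
    have := LinearMap.congr_fun hπ ⟨y, (hmem y).mp hy⟩
    exact congrArg Subtype.val this
  have hq : (0 : ℝ) < qq k := lt_of_lt_of_le two_pos two_le_qq
  have hcard : (Fintype.card W : ℝ) = qq k ^ (s1 + s2) := by
    rw [Fintype.card_of_subtype (box k s1 ×ˢ box k s2) hmem, Finset.card_product, Nat.cast_mul, card_box,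
      card_box, pow_add]
  have hKc : (((box k (s1 - e1) ×ˢ box k (s2 - e1)).card : ℕ) : ℝ) = qq k ^ (s1 - e1 + (s2 - e1)) := by
    rw [Finset.card_product, Nat.cast_mul, card_box, card_box, pow_add]
  have hU : ∀ p ∈ I, ∀ s ∈ box k len, (s * p.1, s * p.2) ∈ box k s1 ×ˢ box k s2 := by
    intro p hp s hs
    have hp' := Finset.mem_product.mp (hI hp)
    exact Finset.mem_product.mpr ⟨box_mul27 hs hp'.1 hs1', box_mul27 hs hp'.2 hs2'⟩
  have small : ∀ {s : ℕ} {d w : k[X]}, d ∈ box k (2 * e + 1) → w ∈ box k (s - e1) → d * w ∈ box k s := by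
    intro s d w hd hw
    by_cases h3 : e1 ≤ s
    · exact box_mul27 hd hw (by omega)
    · rw [show s - e1 = 0 by omega, mem_box27] at hw
      rcases hw with hw | hw
      · exact mem_box27.mpr (Or.inl (by rw [hw, mul_zero]))
      · omega
  have hL : ∀ d ∈ (box k (2 * e + 1)).filter Monic, ∀ v ∈ box k (s1 - e1) ×ˢ box k (s2 - e1),
      (d * v.1, d * v.2) ∈ box k s1 ×ˢ box k s2 := by
    intro d hd v hv
    have hv' := Finset.mem_product.mp hv
    have hd' := (Finset.mem_filter.mp hd).1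
    exact Finset.mem_product.mpr ⟨small hd' hv'.1, small hd' hv'.2⟩
  have mono : ∀ {s : ℕ} {w : k[X]}, w ∈ box k (s - e1) → w ∈ box k (s - 3 * e) := by
    intro s w hw
    rw [mem_box27] at hw ⊢
    rcases hw with hw | hw
    · exact Or.inl hw
    · exact Or.inr (by omega)
  have main := fou27 (G := W) I (box k len) ((box k (2 * e + 1)).filter Monic)
    (box k (s1 - e1) ×ˢ box k (s2 - e1)) (fun p x => F p x) (fun p s => π (s * p.1, s * p.2))
    (fun d v => π (d * v.1, d * v.2)) (qq k ^ (t1 + t2) / qq k ^ e) M B (by positivity)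
    ⟨(0, 0), Finset.mem_product.mpr ⟨mem_box27.mpr (Or.inl rfl), mem_box27.mpr (Or.inl rfl)⟩⟩
    (fun p hp s hs x => by
      rw [Submodule.coe_add, hπ' _ (hU p hp s hs)]
      exact hinv p hp s hs x ((hmem _).mpr x.2))
    (fun p hp x => hM p hp x ((hmem _).mpr x.2))
    (fun ψ => by
      by_cases hc : qq k ^ (t1 + t2) < qq k ^ e * (((box k t1 ×ˢ box k t2).filter fun p =>
          ∀ s ∈ box k len, ψ.compAddMonoidHom π.toAddMonoidHom (s * p.1, s * p.2) = 1).card : ℝ)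
      · obtain ⟨d, hd, hv⟩ := maj27 (ψ.compAddMonoidHom π.toAddMonoidHom) s1 s2 t1 t2 len e h1 h2 hel hs1 hs2 hc
        refine Or.inr ⟨d, hd, fun v hv' => hv v ?_⟩
        rw [Finset.mem_product] at hv' ⊢
        exact ⟨mono hv'.1, mono hv'.2⟩
      · left
        rw [le_div_iff₀ (by positivity), mul_comm]
        refine le_trans (mul_le_mul_of_nonneg_left ?_ (by positivity)) (not_lt.mp hc)
        exact_mod_cast Finset.card_le_card fun p hp => by
          rw [Finset.mem_filter] at hp ⊢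
          exact ⟨hI hp.1, hp.2⟩)
    (fun d hd x => by
      rw [hKc]
      refine le_of_eq_of_le (congrArg norm (Finset.sum_congr rfl fun v hv => Finset.sum_congr rfl fun p _ => ?_))
        (hB d hd x ((hmem _).mpr x.2))
      rw [Submodule.coe_add, hπ' _ (hL d hd v hv)]
      rfl)
  rw [hcard] at main
  rw [Finset.sum_subtype (p := fun x => x ∈ W) (box k s1 ×ˢ box k s2) hmem]
  exact main

/-- the same for real functions, in `L¹` -/
theorem foumaj27_l1 (s1 s2 t1 t2 len e e1 : ℕ) (h1 : e ≤ t1) (h2 : e ≤ t2) (hel : e ≤ len) (he1 : 3 * e ≤ e1)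
    (hs1 : s1 ≤ len + t1) (hs1' : len + t1 ≤ s1 + 1) (hs2 : s2 ≤ len + t2) (hs2' : len + t2 ≤ s2 + 1)
    (I : Finset (k[X] × k[X])) (hI : I ⊆ box k t1 ×ˢ box k t2)
    (F : k[X] × k[X] → k[X] × k[X] → ℝ) (M : ℝ) (B : k[X] → ℝ)
    (hinv : ∀ p ∈ I, ∀ s ∈ box k len, ∀ x ∈ box k s1 ×ˢ box k s2,
      F p (x.1 + s * p.1, x.2 + s * p.2) = F p x)
    (hM : ∀ p ∈ I, ∀ x ∈ box k s1 ×ˢ box k s2, |F p x| ≤ M)
    (hB : ∀ d ∈ (box k (2 * e + 1)).filter Monic, ∀ x ∈ box k s1 ×ˢ box k s2,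
      |∑ v ∈ box k (s1 - e1) ×ˢ box k (s2 - e1), ∑ p ∈ I, F p (x.1 + d * v.1, x.2 + d * v.2)| ≤
        B d * qq k ^ (s1 - e1 + (s2 - e1))) :
    ∑ x ∈ box k s1 ×ˢ box k s2, |∑ p ∈ I, F p x| ≤
      qq k ^ (s1 + s2) * Real.sqrt (qq k ^ (t1 + t2) / qq k ^ e * I.card * M ^ 2 +
        ∑ d ∈ (box k (2 * e + 1)).filter Monic, B d ^ 2) := by
  have hq : (0 : ℝ) < qq k := lt_of_lt_of_le two_pos two_le_qq
  have main := foumaj27 s1 s2 t1 t2 len e e1 h1 h2 hel he1 hs1 hs1' hs2 hs2' I hI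
    (fun p x => (F p x : ℂ)) M B (fun p hp s hs x hx => congrArg _ (hinv p hp s hs x hx))
    (fun p hp x hx => by rw [Complex.norm_real, Real.norm_eq_abs]; exact hM p hp x hx)
    (fun d hd x hx => by
      simp only [← Complex.ofReal_sum, Complex.norm_real, Real.norm_eq_abs]
      exact hB d hd x hx)
  simp only [← Complex.ofReal_sum, Complex.norm_real, Real.norm_eq_abs] at main
  have cs := sq_sum_le_card_mul_sum_sq (s := box k s1 ×ˢ box k s2) (f := fun x => |∑ p ∈ I, F p x|)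
  rw [Finset.card_product, Nat.cast_mul, card_box, card_box, ← pow_add] at cs
  have h3 := le_trans cs (mul_le_mul_of_nonneg_left main (by positivity))
  rw [← mul_assoc, ← sq] at h3
  have h4 := Real.le_sqrt_of_sq_le h3
  rwa [Real.sqrt_mul (sq_nonneg _), Real.sqrt_sq (by positivity)] at h4


/-- a surjective additive map between finite sets closed under subtraction has equal fibres -/
theorem fib27 {A B : Type*} [AddCommGroup A] [AddCommGroup B] (V : Finset A) (R : Finset B) (L : A →+ B)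
    (hV : ∀ x ∈ V, ∀ y ∈ V, x - y ∈ V) (hin : ∀ v ∈ V, L v ∈ R) (hon : ∀ r ∈ R, ∃ v ∈ V, L v = r)
    (φ : B → ℝ) : (R.card : ℝ) * ∑ v ∈ V, φ (L v) = V.card * ∑ r ∈ R, φ r := by
  have hadd : ∀ x ∈ V, ∀ y ∈ V, x + y ∈ V := by
    intro x hx y hy
    have h0 := hV x hx _ (hV _ (hV y hy y hy) y hy)
    rwa [sub_self, zero_sub, sub_neg_eq_add] at h0
  have hf : ∀ r ∈ R, (V.filter fun v => L v = r).card = (V.filter fun v => L v = 0).card := by
    intro r hr
    obtain ⟨v0, hv0, h0⟩ := hon r hr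
    refine Finset.card_nbij' (fun v => v - v0) (fun v => v + v0) ?_ ?_ ?_ ?_
    · intro v hv
      rw [Finset.mem_coe, Finset.mem_filter] at hv ⊢
      exact ⟨hV _ hv.1 _ hv0, by rw [map_sub, hv.2, h0, sub_self]⟩
    · intro v hv
      rw [Finset.mem_coe, Finset.mem_filter] at hv ⊢
      exact ⟨hadd _ hv.1 _ hv0, by rw [map_add, hv.2, h0, zero_add]⟩
    · intro v _
      exact sub_add_cancel v v0
    · intro v _
      exact add_sub_cancel_right v v0
  have key : ∀ ψ : B → ℝ, ∑ v ∈ V, ψ (L v) = ((V.filter fun v => L v = 0).card : ℝ) * ∑ r ∈ R, ψ r := by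
    intro ψ
    rw [← Finset.sum_fiberwise_of_maps_to hin, Finset.mul_sum]
    refine Finset.sum_congr rfl fun r hr => ?_
    rw [Finset.sum_congr rfl fun v hv => congrArg ψ (Finset.mem_filter.mp hv).2, Finset.sum_const,
      nsmul_eq_mul, hf r hr]
  have h1 := key fun _ => 1
  simp only [Finset.sum_const, nsmul_eq_mul, mul_one] at h1
  rw [key φ, h1]
  ring


theorem cb_sub27 {N : ℕ} {a b : k[X]} (ha : a ∈ box k N) (hb : b ∈ box k N) : a - b ∈ box k N := by
  rw [mem_box] at *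
  exact lt_of_le_of_lt (degree_sub_le a b) (max_lt ha hb)

theorem cb_mem27 {N : ℕ} {a : k[X]} : a ∈ box k N ↔ a = 0 ∨ a.natDegree < N := by
  rw [mem_box]
  by_cases h : a = 0
  · simp [h]
  · rw [← natDegree_lt_iff_degree_lt h]
    simp [h]

theorem cb_mul27 {N A Bn : ℕ} {a b : k[X]} (ha : a ∈ box k A) (hb : b ∈ box k Bn)
    (h : A + Bn ≤ N + 1) : a * b ∈ box k N := by
  rw [cb_mem27] at *
  rcases ha with ha | ha
  · exact Or.inl (by rw [ha, zero_mul])
  rcases hb with hb | hb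
  · exact Or.inl (by rw [hb, mul_zero])
  have := natDegree_mul_le (p := a) (q := b)
  exact Or.inr (by omega)

theorem cb_mono27 {N N' : ℕ} {a : k[X]} (ha : a ∈ box k N) (h : N ≤ N') : a ∈ box k N' := by
  rw [cb_mem27] at *
  exact ha.imp id fun h' => by omega

/-- Bezout: `(si, ta) ↦ si be - ta al` maps `box n1 × box n2` onto `box (n1 + deg be)` with equal fibres -/
theorem bez27 {n1 n2 t1 a : ℕ} (ha : a ≤ n2) (hn : n2 + t1 ≤ n1 + a + 1) {al be : k[X]}
    (hal : al ∈ box k t1) (hbe : be ∈ box k (a + 1) \ box k a) (hc : IsCoprime al be) (φ : k[X] → ℝ) :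
    qq k ^ (n1 + a) * ∑ v ∈ box k n1 ×ˢ box k n2, φ (v.1 * be - v.2 * al) =
      qq k ^ (n1 + n2) * ∑ r ∈ box k (n1 + a), φ r := by
  rw [Finset.mem_sdiff, cb_mem27, cb_mem27, not_or] at hbe
  have hb0 : be ≠ 0 := hbe.2.1
  have hbd : be.natDegree = a := by
    have := hbe.1.resolve_left hb0
    have := hbe.2.2
    omega
  have hb1 : be ∈ box k (a + 1) := cb_mem27.mpr hbe.1
  have h := fib27 (box k n1 ×ˢ box k n2) (box k (n1 + a))
    ((AddMonoidHom.mulRight be).comp (AddMonoidHom.fst _ _) -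
      (AddMonoidHom.mulRight al).comp (AddMonoidHom.snd _ _))
    (fun x hx y hy => by
      rw [Finset.mem_product] at hx hy ⊢
      exact ⟨cb_sub27 hx.1 hy.1, cb_sub27 hx.2 hy.2⟩)
    (fun v hv => by
      rw [Finset.mem_product] at hv
      exact cb_sub27 (cb_mul27 hv.1 hb1 (by omega)) (cb_mul27 hv.2 hal hn))
    (fun r hr => by
      obtain ⟨x, y, hxy⟩ := hc
      have hdiv := EuclideanDomain.div_add_mod (-(r * x)) be
      have hta : (-(r * x)) % be ∈ box k a := by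
        rw [mem_box, ← hbd, ← degree_eq_natDegree hb0]
        exact Polynomial.degree_mod_lt _ hb0
      have e1 : (r * y - (-(r * x)) / be * al) * be - (-(r * x)) % be * al = r := by
        linear_combination r * hxy - al * hdiv
      refine ⟨(r * y - (-(r * x)) / be * al, (-(r * x)) % be), Finset.mem_product.mpr
        ⟨?_, cb_mono27 hta ha⟩, e1⟩
      have h1 : (r * y - (-(r * x)) / be * al) * be ∈ box k (n1 + a) := by
        have h2 : (r * y - (-(r * x)) / be * al) * be = r - (0 - (-(r * x)) % be * al) := by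
          linear_combination e1
        rw [h2]
        exact cb_sub27 hr (cb_sub27 (cb_mem27.mpr (Or.inl rfl)) (cb_mul27 (cb_mono27 hta ha) hal hn))
      change r * y - (-(r * x)) / be * al ∈ box k n1
      rw [cb_mem27]
      by_cases h0 : r * y - (-(r * x)) / be * al = 0
      · exact Or.inl h0
      · have h3 := (cb_mem27.mp h1).resolve_left (mul_ne_zero h0 hb0)
        rw [natDegree_mul h0 hb0] at h3
        exact Or.inr (by omega)) φ
  rw [card_box, Finset.card_product, Nat.cast_mul, card_box, card_box, ← pow_add] at h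
  exact h

theorem prs_dvd27 {a : ℕ} {T : Finset k[X]} (hT : T ⊆ prs k a) {p : k[X]} (hp : p ∈ prs k a)
    (h : p ∣ ∏ x ∈ T, x) : p ∈ T := by
  rw [mem_prs] at hp
  obtain ⟨x, hx, hpx⟩ := (Prime.dvd_finsetProd_iff hp.2.1.prime _).mp h
  have hx' := mem_prs.mp (hT hx)
  rwa [eq_of_monic_of_associated hp.1 hx'.1 (hp.2.1.associated_of_dvd hx'.2.1 hpx)]

theorem ie27 {a : ℕ} (al : k[X]) {be : k[X]} (hb0 : be ≠ 0) (hb : be.natDegree ≤ a) :
    ∑ T ∈ (prs k a).powerset, (if (∏ x ∈ T, x) ∣ al ∧ (∏ x ∈ T, x) ∣ be then (-1 : ℝ) ^ T.card else 0) =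
      if IsCoprime al be then 1 else 0 := by
  have hdvd : ∀ T ⊆ prs k a, ∀ z : k[X], (∀ x ∈ T, x ∣ z) → (∏ x ∈ T, x) ∣ z := by
    intro T hT z hz
    refine Finset.prod_dvd_of_coprime (s := fun x : k[X] => x) (fun x hx y hy hxy => ?_) hz
    have hx' := mem_prs.mp (hT hx)
    have hy' := mem_prs.mp (hT hy)
    exact (hx'.2.1.coprime_iff_not_dvd).mpr fun h =>
      hxy (eq_of_monic_of_associated hx'.1 hy'.1 (hx'.2.1.associated_of_dvd hy'.2.1 h))
  have e1 : (prs k a).powerset.filter (fun T => (∏ x ∈ T, x) ∣ al ∧ (∏ x ∈ T, x) ∣ be) =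
      ((prs k a).filter fun p => p ∣ al ∧ p ∣ be).powerset := by
    ext T
    rw [Finset.mem_filter, Finset.mem_powerset, Finset.mem_powerset]
    constructor
    · rintro ⟨hT, h1, h2⟩ x hx
      exact Finset.mem_filter.mpr ⟨hT hx, (Finset.dvd_prod_of_mem (fun x => x) hx).trans h1,
        (Finset.dvd_prod_of_mem (fun x => x) hx).trans h2⟩
    · intro hT
      have hT' : T ⊆ prs k a := fun x hx => (Finset.mem_filter.mp (hT hx)).1
      exact ⟨hT', hdvd T hT' _ fun x hx => (Finset.mem_filter.mp (hT hx)).2.1,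
        hdvd T hT' _ fun x hx => (Finset.mem_filter.mp (hT hx)).2.2⟩
  have e2 : ((prs k a).filter fun p => p ∣ al ∧ p ∣ be) = ∅ ↔ IsCoprime al be := by
    rw [Finset.filter_eq_empty_iff]
    constructor
    · intro h
      refine isCoprime_of_irreducible_dvd (fun h0 => hb0 h0.2) fun z hz h1 h2 => ?_
      obtain ⟨M, hM, hd, hdv⟩ := exists_monic80 hz.ne_zero
      have hass : Associated z M := associated_of_dvd_dvd ((hdv M).mp dvd_rfl) ((hdv z).mpr dvd_rfl)
      exact h (mem_prs.mpr ⟨hM, hass.irreducible hz, hd ▸ (natDegree_le_of_dvd h2 hb0).trans hb⟩)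
        ⟨(hdv al).mpr h1, (hdv be).mpr h2⟩
    · intro h p hp hd
      exact (mem_prs.mp hp).2.1.not_isUnit (h.isUnit_of_dvd' hd.1 hd.2)
  rw [← Finset.sum_filter, e1]
  have e3 := Finset.sum_powerset_neg_one_pow_card (x := (prs k a).filter fun p => p ∣ al ∧ p ∣ be)
  have e4 : ∑ T ∈ ((prs k a).filter fun p => p ∣ al ∧ p ∣ be).powerset, (-1 : ℝ) ^ T.card =
      ((∑ T ∈ ((prs k a).filter fun p => p ∣ al ∧ p ∣ be).powerset, (-1 : ℤ) ^ T.card : ℤ) : ℝ) := by
    push_cast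
    rfl
  rw [e4, e3]
  by_cases hc : IsCoprime al be
  · rw [if_pos (e2.mpr hc), if_pos hc, Int.cast_one]
  · rw [if_neg (fun h => hc (e2.mp h)), if_neg hc, Int.cast_zero]

/-- removal of coprimality; `V` is any set of pairs whose second entry is nonzero of degree `≤ a` -/
theorem mob27 {a : ℕ} (V : Finset (k[X] × k[X])) (hV : ∀ p ∈ V, p.2 ≠ 0 ∧ p.2.natDegree ≤ a)
    (G : k[X] × k[X] → ℝ) :
    |∑ p ∈ V.filter (fun p => IsCoprime p.1 p.2), G p| ≤
      ∑ t ∈ (box k (a + 1)).filter Monic, |∑ p ∈ V.filter (fun p => t ∣ p.1 ∧ t ∣ p.2), G p| := by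
  have e1 : ∑ p ∈ V.filter (fun p => IsCoprime p.1 p.2), G p =
      ∑ T ∈ (prs k a).powerset, (-1 : ℝ) ^ T.card *
        ∑ p ∈ V.filter (fun p => (∏ x ∈ T, x) ∣ p.1 ∧ (∏ x ∈ T, x) ∣ p.2), G p := by
    have e2 : ∀ p ∈ V, (if IsCoprime p.1 p.2 then G p else 0) = ∑ T ∈ (prs k a).powerset,
        (if (∏ x ∈ T, x) ∣ p.1 ∧ (∏ x ∈ T, x) ∣ p.2 then (-1 : ℝ) ^ T.card * G p else 0) := by
      intro p hp
      have e3 := congrArg (· * G p) (ie27 p.1 (hV p hp).1 (hV p hp).2)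
      simp only [Finset.sum_mul, ite_mul, zero_mul, one_mul] at e3
      exact e3.symm
    rw [Finset.sum_filter, Finset.sum_congr rfl e2, Finset.sum_comm]
    refine Finset.sum_congr rfl fun T _ => ?_
    rw [← Finset.sum_filter, Finset.mul_sum]
  set H : k[X] → ℝ := fun t => |∑ p ∈ V.filter (fun p => t ∣ p.1 ∧ t ∣ p.2), G p| with hH
  have e4 : |∑ p ∈ V.filter (fun p => IsCoprime p.1 p.2), G p| ≤
      ∑ T ∈ (prs k a).powerset, H (∏ x ∈ T, x) := by
    rw [e1]
    refine (Finset.abs_sum_le_sum_abs _ _).trans (le_of_eq (Finset.sum_congr rfl fun T _ => ?_))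
    rw [abs_mul, abs_pow, abs_neg, abs_one, one_pow, one_mul]
  have e5 : ∑ T ∈ (prs k a).powerset, H (∏ x ∈ T, x) =
      ∑ t ∈ (prs k a).powerset.image (fun T => ∏ x ∈ T, x), H t := by
    rw [Finset.sum_image]
    intro T hT T' hT' h
    rw [Finset.mem_coe, Finset.mem_powerset] at hT hT'
    have h' : ∏ x ∈ T, x = ∏ x ∈ T', x := h
    ext x
    exact ⟨fun hx => prs_dvd27 hT' (hT hx) (h' ▸ Finset.dvd_prod_of_mem (fun x => x) hx),
      fun hx => prs_dvd27 hT (hT' hx) (h' ▸ Finset.dvd_prod_of_mem (fun x => x) hx)⟩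
  rw [e5] at e4
  refine e4.trans ?_
  rw [← Finset.sum_filter_ne_zero]
  refine Finset.sum_le_sum_of_subset_of_nonneg (fun t ht => ?_) fun _ _ _ => abs_nonneg _
  rw [Finset.mem_filter, Finset.mem_image] at ht
  obtain ⟨⟨T, hT, rfl⟩, hne⟩ := ht
  rw [Finset.mem_powerset] at hT
  obtain ⟨p, hp, -⟩ := Finset.exists_ne_zero_of_sum_ne_zero (abs_ne_zero.mp hne)
  rw [Finset.mem_filter] at hp
  have hd := natDegree_le_of_dvd hp.2.2 (hV p hp.1).1
  have hd' := (hV p hp.1).2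
  exact Finset.mem_filter.mpr ⟨cb_mem27.mpr (Or.inr (by omega)),
    monic_prod_of_monic _ _ fun x hx => (mem_prs.mp (hT hx)).1⟩

theorem sum_monic_inv27 (N : ℕ) : ∑ t ∈ (box k N).filter Monic, 1 / nrm t ≤ N := by
  have hq : (0 : ℝ) < qq k := lt_of_lt_of_le two_pos two_le_qq
  have hm : ∀ t ∈ (box k N).filter Monic, t.natDegree ∈ range N := by
    intro t ht
    rw [Finset.mem_filter] at ht
    exact Finset.mem_range.mpr ((cb_mem27.mp ht.1).resolve_left ht.2.ne_zero)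
  rw [← Finset.sum_fiberwise_of_maps_to hm]
  calc _ ≤ ∑ _j ∈ range N, (1 : ℝ) := by
        refine Finset.sum_le_sum fun j _ => ?_
        calc _ ≤ ∑ t ∈ mon k j, 1 / nrm t := by
              refine Finset.sum_le_sum_of_subset_of_nonneg (fun t ht => ?_) fun t _ _ => by
                unfold nrm
                positivity
              rw [Finset.mem_filter, Finset.mem_filter] at ht
              exact mem_mon.mpr ⟨ht.1.2, ht.2⟩
          _ = ∑ _t ∈ mon k j, 1 / qq k ^ j :=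
              Finset.sum_congr rfl fun t ht => by rw [nrm, (mem_mon.mp ht).2]
          _ = 1 := by
              rw [Finset.sum_const, nsmul_eq_mul, card_mon]
              field_simp
    _ = N := by simp

/-- removal of coprimality with the tail estimated -/
theorem mobtail27 {t1 a e1 : ℕ} (he : e1 ≤ t1) (G : k[X] × k[X] → ℝ) (M : ℝ) (hM : ∀ p, |G p| ≤ M) :
    |∑ p ∈ (box k t1 ×ˢ (box k (a + 1) \ box k a)).filter (fun p => IsCoprime p.1 p.2), G p| ≤
      ∑ t ∈ (box k (e1 + 1)).filter Monic,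
        (|∑ p ∈ (box k t1 ×ˢ box k (a + 1)).filter (fun p => t ∣ p.1 ∧ t ∣ p.2), G p| +
          |∑ p ∈ (box k t1 ×ˢ box k a).filter (fun p => t ∣ p.1 ∧ t ∣ p.2), G p|) +
      2 * (a + 1) * M * (qq k ^ (t1 + (a + 1)) / qq k ^ e1) := by
  have hq2 := two_le_qq (k := k)
  have hq : (0 : ℝ) < qq k := by linarith
  have hq1 : (1 : ℝ) ≤ qq k := by linarith
  have hM0 : 0 ≤ M := (abs_nonneg _).trans (hM 0)
  set V := box k t1 ×ˢ (box k (a + 1) \ box k a) with hVdef
  have hV : ∀ p ∈ V, p.2 ≠ 0 ∧ p.2.natDegree ≤ a := by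
    intro p hp
    have h := (Finset.mem_product.mp hp).2
    rw [Finset.mem_sdiff, cb_mem27, cb_mem27, not_or] at h
    have := h.1.resolve_left h.2.1
    exact ⟨h.2.1, by omega⟩
  set H : k[X] → ℝ := fun t => |∑ p ∈ V.filter (fun p => t ∣ p.1 ∧ t ∣ p.2), G p| with hH
  set Cc : ℝ := 2 * M * (qq k ^ (t1 + (a + 1)) / qq k ^ e1) with hC
  have hC0 : 0 ≤ Cc := by positivity
  have h0 : |∑ p ∈ V.filter (fun p => IsCoprime p.1 p.2), G p| ≤
      ∑ t ∈ (box k (a + 1)).filter Monic, H t := mob27 V hV G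
  rw [← Finset.sum_filter_add_sum_filter_not ((box k (a + 1)).filter Monic)
    (fun t => t.natDegree ≤ e1)] at h0
  have h1 : ∑ t ∈ ((box k (a + 1)).filter Monic).filter (fun t => t.natDegree ≤ e1), H t ≤
      ∑ t ∈ (box k (e1 + 1)).filter Monic, H t := by
    refine Finset.sum_le_sum_of_subset_of_nonneg (fun t ht => ?_) fun _ _ _ => abs_nonneg _
    rw [Finset.mem_filter, Finset.mem_filter] at ht
    exact Finset.mem_filter.mpr ⟨cb_mem27.mpr (Or.inr (by omega)), ht.1.2⟩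
  have h2 : ∀ t : k[X], H t ≤
      |∑ p ∈ (box k t1 ×ˢ box k (a + 1)).filter (fun p => t ∣ p.1 ∧ t ∣ p.2), G p| +
        |∑ p ∈ (box k t1 ×ˢ box k a).filter (fun p => t ∣ p.1 ∧ t ∣ p.2), G p| := by
    intro t
    have hsub : (box k t1 ×ˢ box k a).filter (fun p => t ∣ p.1 ∧ t ∣ p.2) ⊆
        (box k t1 ×ˢ box k (a + 1)).filter (fun p => t ∣ p.1 ∧ t ∣ p.2) := by
      intro p hp
      rw [Finset.mem_filter, Finset.mem_product] at hp ⊢
      exact ⟨⟨hp.1.1, cb_mono27 hp.1.2 (by omega)⟩, hp.2⟩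
    have hs : V.filter (fun p => t ∣ p.1 ∧ t ∣ p.2) =
        (box k t1 ×ˢ box k (a + 1)).filter (fun p => t ∣ p.1 ∧ t ∣ p.2) \
          (box k t1 ×ˢ box k a).filter (fun p => t ∣ p.1 ∧ t ∣ p.2) := by
      ext p
      simp only [hVdef, Finset.mem_filter, Finset.mem_product, Finset.mem_sdiff]
      tauto
    rw [hH]
    beta_reduce
    rw [hs, Finset.sum_sdiff_eq_sub hsub]
    exact abs_sub _ _
  have h3 : ∀ t ∈ ((box k (a + 1)).filter Monic).filter (fun t => ¬ t.natDegree ≤ e1),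
      H t ≤ Cc * (1 / nrm t) := by
    intro t ht
    rw [Finset.mem_filter, Finset.mem_filter, not_le] at ht
    have ht0 := ht.1.2.ne_zero
    have hn : 0 < nrm t := by unfold nrm; positivity
    have c1 : (((box k t1).filter fun x => t ∣ x).card : ℝ) ≤ 2 * (qq k ^ t1 / qq k ^ e1) := by
      have s1 : (box k t1).filter (fun x => t ∣ x) ⊆
          insert 0 (((box k t1).erase 0).filter fun x => t ∣ x) := by
        intro x hx
        rw [Finset.mem_filter] at hx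
        rw [Finset.mem_insert, Finset.mem_filter, Finset.mem_erase]
        tauto
      have s2 : (((box k t1).filter fun x => t ∣ x).card : ℝ) ≤
          ((((box k t1).erase 0).filter fun x => t ∣ x).card : ℝ) + 1 := by
        exact_mod_cast (Finset.card_le_card s1).trans (Finset.card_insert_le _ _)
      have s3 := card_box_dvd_le (N := t1) ht0
      have s4 : qq k ^ t1 / nrm t ≤ qq k ^ t1 / qq k ^ e1 :=
        div_le_div_of_nonneg_left (by positivity) (by positivity) (pow_le_pow_right₀ hq1 ht.2.le)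
      have s5 : 1 ≤ qq k ^ t1 / qq k ^ e1 := (one_le_div (by positivity)).mpr (pow_le_pow_right₀ hq1 he)
      linarith
    have c2 := card_box_dvd_le (N := a + 1) ht0
    have c3 : V.filter (fun p => t ∣ p.1 ∧ t ∣ p.2) ⊆ ((box k t1).filter fun x => t ∣ x) ×ˢ
        (((box k (a + 1)).erase 0).filter fun x => t ∣ x) := by
      intro p hp
      rw [Finset.mem_filter] at hp
      have hp' := Finset.mem_product.mp hp.1
      exact Finset.mem_product.mpr ⟨Finset.mem_filter.mpr ⟨hp'.1, hp.2.1⟩, Finset.mem_filter.mpr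
        ⟨Finset.mem_erase.mpr ⟨(hV p hp.1).1, (Finset.mem_sdiff.mp hp'.2).1⟩, hp.2.2⟩⟩
    have c4 : ((V.filter (fun p => t ∣ p.1 ∧ t ∣ p.2)).card : ℝ) ≤
        2 * (qq k ^ t1 / qq k ^ e1) * (qq k ^ (a + 1) / nrm t) := by
      have c5 := Finset.card_le_card c3
      rw [Finset.card_product] at c5
      refine le_trans (by exact_mod_cast c5) (mul_le_mul c1 c2 (Nat.cast_nonneg _) (by positivity))
    calc H t ≤ ∑ p ∈ V.filter (fun p => t ∣ p.1 ∧ t ∣ p.2), |G p| := Finset.abs_sum_le_sum_abs _ _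
      _ ≤ ∑ _p ∈ V.filter (fun p => t ∣ p.1 ∧ t ∣ p.2), M := Finset.sum_le_sum fun p _ => hM p
      _ = (V.filter (fun p => t ∣ p.1 ∧ t ∣ p.2)).card * M := by rw [Finset.sum_const, nsmul_eq_mul]
      _ ≤ 2 * (qq k ^ t1 / qq k ^ e1) * (qq k ^ (a + 1) / nrm t) * M := mul_le_mul_of_nonneg_right c4 hM0
      _ = Cc * (1 / nrm t) := by rw [hC, pow_add (qq k) t1]; ring
  have h4 : ∑ t ∈ ((box k (a + 1)).filter Monic).filter (fun t => ¬ t.natDegree ≤ e1), H t ≤
      Cc * (a + 1) := by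
    refine (Finset.sum_le_sum h3).trans ?_
    rw [← Finset.mul_sum]
    refine mul_le_mul_of_nonneg_left (le_trans (Finset.sum_le_sum_of_subset_of_nonneg
      (Finset.filter_subset _ _) fun t _ _ => by unfold nrm; positivity) ?_) hC0
    exact_mod_cast sum_monic_inv27 (k := k) (a + 1)
  have h5 := Finset.sum_le_sum fun t (_ : t ∈ (box k (e1 + 1)).filter Monic) => h2 t
  have h6 : Cc * (a + 1) = 2 * (a + 1) * M * (qq k ^ (t1 + (a + 1)) / qq k ^ e1) := by rw [hC]; ring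
  linarith

/-- COSET (`t2 = a + 1`, `n_i = s_i - e1`, `e' = n1 + a`) -/
theorem coset27 {n1 n2 t1 a e1 : ℕ} (ha : a ≤ n2) (hn : n2 + t1 ≤ n1 + a + 1) (he : e1 ≤ t1)
    (f : k[X] → k[X] → k[X] → ℝ) (M : ℝ) (hM : ∀ al be ro, |f al be ro| ≤ M) :
    |∑ v ∈ box k n1 ×ˢ box k n2,
        ∑ p ∈ (box k t1 ×ˢ (box k (a + 1) \ box k a)).filter (fun p => IsCoprime p.1 p.2),
          f p.1 p.2 (v.1 * p.2 - v.2 * p.1)| ≤
      ((∑ t ∈ (box k (e1 + 1)).filter Monic,
        (|∑ p ∈ (box k t1 ×ˢ box k (a + 1)).filter (fun p => t ∣ p.1 ∧ t ∣ p.2),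
            ∑ r ∈ box k (n1 + a), f p.1 p.2 r| +
          |∑ p ∈ (box k t1 ×ˢ box k a).filter (fun p => t ∣ p.1 ∧ t ∣ p.2),
            ∑ r ∈ box k (n1 + a), f p.1 p.2 r|)) / qq k ^ (n1 + a) +
        2 * (a + 1) * M * (qq k ^ (t1 + (a + 1)) / qq k ^ e1)) * qq k ^ (n1 + n2) := by
  have hq : (0 : ℝ) < qq k := lt_of_lt_of_le two_pos two_le_qq
  have hp : (0 : ℝ) < qq k ^ (n1 + a) := by positivity
  have e1' : ∑ v ∈ box k n1 ×ˢ box k n2,
        ∑ p ∈ (box k t1 ×ˢ (box k (a + 1) \ box k a)).filter (fun p => IsCoprime p.1 p.2),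
          f p.1 p.2 (v.1 * p.2 - v.2 * p.1) =
      (∑ p ∈ (box k t1 ×ˢ (box k (a + 1) \ box k a)).filter (fun p => IsCoprime p.1 p.2),
        ∑ r ∈ box k (n1 + a), f p.1 p.2 r) / qq k ^ (n1 + a) * qq k ^ (n1 + n2) := by
    rw [Finset.sum_comm, Finset.sum_div, Finset.sum_mul]
    refine Finset.sum_congr rfl fun p hp' => ?_
    rw [Finset.mem_filter, Finset.mem_product] at hp'
    have h := bez27 ha hn hp'.1.1 hp'.1.2 hp'.2 (f p.1 p.2)
    rw [div_mul_eq_mul_div, eq_div_iff hp.ne']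
    linarith
  have h := mobtail27 (a := a) he (fun p => ∑ r ∈ box k (n1 + a), f p.1 p.2 r) (qq k ^ (n1 + a) * M)
    (fun p => by
      refine (Finset.abs_sum_le_sum_abs _ _).trans ((Finset.sum_le_sum fun r _ => hM p.1 p.2 r).trans ?_)
      rw [Finset.sum_const, nsmul_eq_mul, card_box])
  rw [e1', abs_mul, abs_div, abs_of_pos hp, abs_of_pos (pow_pos hq (n1 + n2))]
  refine mul_le_mul_of_nonneg_right ?_ (by positivity)
  rw [div_le_iff₀ hp, add_mul, div_mul_cancel₀ _ hp.ne']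
  linarith

/-- dilation: `r ↦ d r` maps `box N` onto the multiples of `d` in `box (N + deg d)` -/
theorem sum_box_dil27 {β : Type*} [AddCommMonoid β] {d : k[X]} (hd : d ≠ 0) (N : ℕ) (φ : k[X] → β) :
    ∑ r ∈ box k N, φ (d * r) = ∑ r ∈ (box k (N + d.natDegree)).filter (fun r => d ∣ r), φ r := by
  refine Finset.sum_nbij (fun r => d * r) (fun r hr => ?_) (fun x _ y _ h => mul_left_cancel₀ hd h)
    (fun r hr => ?_) fun _ _ => rfl
  · exact Finset.mem_filter.mpr ⟨cb_mul27 (A := d.natDegree + 1) (cb_mem27.mpr (Or.inr (by omega))) hr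
      (by omega), dvd_mul_right _ _⟩
  · rw [Finset.mem_coe, Finset.mem_filter] at hr
    obtain ⟨h1, x, rfl⟩ := hr
    refine ⟨x, Finset.mem_coe.mpr (cb_mem27.mpr ?_), rfl⟩
    by_cases hx : x = 0
    · exact Or.inl hx
    · have h3 := (cb_mem27.mp h1).resolve_left (mul_ne_zero hd hx)
      rw [natDegree_mul hd hx] at h3
      exact Or.inr (by omega)

/-- LLN reduced to EQ: FOU + MAJ + COSET (`t2 = a + 1`) -/
theorem lln27 {s1 s2 t1 a len e e1 : ℕ} (h1 : e1 ≤ t1) (h2 : e ≤ a + 1) (hel : e1 ≤ len) (he1 : 3 * e ≤ e1)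
    (hs1 : s1 ≤ len + t1) (hs1' : len + t1 ≤ s1 + 1) (hs2 : s2 = len + a)
    (φ : k[X] → k[X] → k[X] → ℝ) (M Z : ℝ) (hM : ∀ al be ro, |φ al be ro| ≤ M) (hZ : 0 < Z)
    (hZe : Z ^ 2 ≤ qq k ^ e) (B : k[X] → k[X] → ℕ → ℝ)
    (hB : ∀ d ∈ (box k (2 * e + 1)).filter Monic, ∀ t ∈ (box k (e1 + 1)).filter Monic, ∀ t2 : ℕ,
      t2 = a ∨ t2 = a + 1 → ∀ x ∈ box k s1 ×ˢ box k s2,
      |∑ p ∈ (box k t1 ×ˢ box k t2).filter (fun p => t ∣ p.1 ∧ t ∣ p.2),
        ∑ r ∈ box k (s1 - e1 + a), φ p.1 p.2 (x.1 * p.2 - x.2 * p.1 + d * r)| ≤ B d t t2) :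
    ∑ x ∈ box k s1 ×ˢ box k s2,
      |∑ p ∈ (box k t1 ×ˢ (box k (a + 1) \ box k a)).filter (fun p => IsCoprime p.1 p.2),
        φ p.1 p.2 (x.1 * p.2 - x.2 * p.1)| ≤
      qq k ^ (s1 + s2) * (M * qq k ^ (t1 + (a + 1)) / Z +
        (∑ d ∈ (box k (2 * e + 1)).filter Monic, ∑ t ∈ (box k (e1 + 1)).filter Monic,
          (B d t (a + 1) + B d t a)) / qq k ^ (s1 - e1 + a) +
        qq k ^ (2 * e + 1) * (2 * (a + 1) * M * (qq k ^ (t1 + (a + 1)) / qq k ^ e1))) := by
  have hq : (0 : ℝ) < qq k := lt_of_lt_of_le two_pos two_le_qq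
  have hM0 : 0 ≤ M := (abs_nonneg _).trans (hM 0 0 0)
  set I := (box k t1 ×ˢ (box k (a + 1) \ box k a)).filter (fun p => IsCoprime p.1 p.2) with hI
  have hIs : I ⊆ box k t1 ×ˢ box k (a + 1) := fun p hp => by
    have h := Finset.mem_product.mp (Finset.mem_filter.mp hp).1
    exact Finset.mem_product.mpr ⟨h.1, (Finset.mem_sdiff.mp h.2).1⟩
  have hIc : (I.card : ℝ) ≤ qq k ^ (t1 + (a + 1)) := by
    have h := Finset.card_le_card hIs
    rw [Finset.card_product] at h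
    rw [pow_add, ← card_box, ← card_box]
    exact_mod_cast h
  set Tl : ℝ := 2 * (a + 1) * M * (qq k ^ (t1 + (a + 1)) / qq k ^ e1) with hTl
  have hTl0 : 0 ≤ Tl := by positivity
  set Bd : k[X] → ℝ := fun d => (∑ t ∈ (box k (e1 + 1)).filter Monic, (B d t (a + 1) + B d t a)) /
    qq k ^ (s1 - e1 + a) + Tl with hBd
  have h00 : ((0, 0) : k[X] × k[X]) ∈ box k s1 ×ˢ box k s2 :=
    Finset.mem_product.mpr ⟨cb_mem27.mpr (Or.inl rfl), cb_mem27.mpr (Or.inl rfl)⟩
  have hBd0 : ∀ d ∈ (box k (2 * e + 1)).filter Monic, 0 ≤ Bd d := fun d hd =>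
    add_nonneg (div_nonneg (Finset.sum_nonneg fun t ht => add_nonneg
      ((abs_nonneg _).trans (hB d hd t ht _ (Or.inr rfl) _ h00))
      ((abs_nonneg _).trans (hB d hd t ht _ (Or.inl rfl) _ h00))) (by positivity)) hTl0
  have main := foumaj27_l1 s1 s2 t1 (a + 1) len e e1 (by omega) h2 (by omega) he1 hs1 hs1' (by omega) (by omega)
    I hIs (fun p x => φ p.1 p.2 (x.1 * p.2 - x.2 * p.1)) M Bd
    (fun p _ s _ x _ => congrArg (φ p.1 p.2) (by ring)) (fun p _ x _ => hM _ _ _)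
    (fun d hd x hx => by
      have h := coset27 (n1 := s1 - e1) (n2 := s2 - e1) (t1 := t1) (a := a) (by omega) (by omega) h1
        (fun al be r => φ al be (x.1 * be - x.2 * al + d * r)) M (fun _ _ _ => hM _ _ _)
      refine le_trans (le_of_eq (congrArg abs (Finset.sum_congr rfl fun v _ =>
        Finset.sum_congr rfl fun p _ => congrArg (φ p.1 p.2) (by ring)))) (h.trans ?_)
      refine mul_le_mul_of_nonneg_right (add_le_add (div_le_div_of_nonneg_right
        (Finset.sum_le_sum fun t ht => add_le_add (hB d hd t ht _ (Or.inr rfl) x hx)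
          (hB d hd t ht _ (Or.inl rfl) x hx)) (by positivity)) le_rfl) (by positivity))
  refine main.trans (mul_le_mul_of_nonneg_left ?_ (by positivity))
  have hS0 : 0 ≤ ∑ d ∈ (box k (2 * e + 1)).filter Monic, Bd d := Finset.sum_nonneg hBd0
  have hA0 : 0 ≤ M * qq k ^ (t1 + (a + 1)) / Z := by positivity
  have b1 : ∑ d ∈ (box k (2 * e + 1)).filter Monic, Bd d ^ 2 ≤
      (∑ d ∈ (box k (2 * e + 1)).filter Monic, Bd d) ^ 2 := Finset.sum_sq_le_sq_sum_of_nonneg hBd0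
  have b2 : qq k ^ (t1 + (a + 1)) / qq k ^ e * I.card * M ^ 2 ≤ (M * qq k ^ (t1 + (a + 1)) / Z) ^ 2 := by
    have c1 : qq k ^ (t1 + (a + 1)) / qq k ^ e ≤ qq k ^ (t1 + (a + 1)) / Z ^ 2 :=
      div_le_div_of_nonneg_left (by positivity) (by positivity) hZe
    calc _ ≤ qq k ^ (t1 + (a + 1)) / Z ^ 2 * qq k ^ (t1 + (a + 1)) * M ^ 2 :=
          mul_le_mul_of_nonneg_right (mul_le_mul c1 hIc (Nat.cast_nonneg _) (by positivity)) (sq_nonneg _)
      _ = _ := by ring
  have b3 : Real.sqrt (qq k ^ (t1 + (a + 1)) / qq k ^ e * I.card * M ^ 2 +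
      ∑ d ∈ (box k (2 * e + 1)).filter Monic, Bd d ^ 2) ≤
      M * qq k ^ (t1 + (a + 1)) / Z + ∑ d ∈ (box k (2 * e + 1)).filter Monic, Bd d := by
    refine Real.sqrt_le_iff.mpr ⟨add_nonneg hA0 hS0, ?_⟩
    nlinarith [mul_nonneg hA0 hS0]
  have b4 : (((box k (2 * e + 1)).filter Monic).card : ℝ) ≤ qq k ^ (2 * e + 1) := by
    rw [← card_box]
    exact_mod_cast Finset.card_filter_le _ _
  have b5 : ∑ d ∈ (box k (2 * e + 1)).filter Monic, Bd d =
      (∑ d ∈ (box k (2 * e + 1)).filter Monic, ∑ t ∈ (box k (e1 + 1)).filter Monic,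
        (B d t (a + 1) + B d t a)) / qq k ^ (s1 - e1 + a) +
      (((box k (2 * e + 1)).filter Monic).card : ℝ) * Tl := by
    rw [hBd, Finset.sum_add_distrib, Finset.sum_const, nsmul_eq_mul, ← Finset.sum_div]
  have b6 := mul_le_mul_of_nonneg_right b4 hTl0
  linarith

end H18M

end
end
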