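import Pool.Agent.MP_a4a062_nt.H4O.B
import Pool.Agent.H92F.Box
import Pool.Agent.MP_d0fd9b_nt.P3.A1

-- part H18M.GR4
section

/-! One line: van der Corput with periodic factors, and the Moebius function on a general line. -/

set_option autoImplicit false

open Polynomial Finset Pool.Agent.H48P Pool.Agent.H48G Pool.Agent.H4O
open scoped Classical BigOperators

noncomputable section
namespace Pool.Agent.MP_d0fd9b_nt.M18

variable {k : Type} [Field k] [Fintype k]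

/-- One prime with the Jacobi symbol, all other factors periodic with short periods. -/
theorem gr_min (p : ℕ) [Fact p.Prime] [CharP k p] (hp : p ≠ 2) {π yy : k[X]} (hπ : π.Monic)
    (hi : Irreducible π) (hy : ¬π ∣ yy) (f : k[X]) {la T h0 R : ℕ} (Cs : Fin R → k[X])
    (hC : ∀ j, ¬π ∣ Cs j) (hT : ∀ j, (Cs j).natDegree ≤ T) (F : Fin R → k[X] → ℝ)
    (hF : ∀ j s, |F j s| ≤ 1) (hper : ∀ j s t, F j (s + Cs j * t) = F j s)
    (hN : T + h0 ≤ la) (h1 : h0 ≤ π.natDegree) {Ω : Finset k[X]}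
    (hΩ : ∀ s, s ∈ Ω ↔ s.degree < la) :
    |𝔼 s ∈ Ω, jac π (f + yy * s ^ p) * ∏ j, F j s| ^ 2 ^ R ≤
      5 * 2 ^ R * √((Fintype.card k : ℝ) ^ π.natDegree) /
        (Fintype.card k : ℝ) ^ min la π.natDegree + 2 ^ R / (Fintype.card k : ℝ) ^ h0 := by
  have := Fact.mk hi
  have hq1 : (1 : ℝ) ≤ Fintype.card k := by exact_mod_cast Fintype.card_pos
  have hcop : IsCoprime π yy := hi.coprime_iff_not_dvd.2 hy
  obtain ⟨f', hf'⟩ : ∃ f' : k[X], π ∣ f - yy * f' := by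
    obtain ⟨a, b, hab⟩ := hcop
    exact ⟨b * f, a * f, by linear_combination (-f) * hab⟩
  have e0 : ∀ s : k[X], jac π (f + yy * s ^ p) =
      jac π yy * jac π (f' + 1 ^ (p - 1) * s ^ p) := fun s => by
    rw [← jac_mul_right hπ]
    refine jac_congr hπ ?_
    obtain ⟨c, hc⟩ := hf'
    exact ⟨c, by rw [one_pow]; linear_combination hc⟩
  let A := AdjoinRoot π
  let mk : k[X] →+* A := AdjoinRoot.mk π
  let lf : A → k[X] := Function.surjInv (AdjoinRoot.mk_surjective (g := π))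
  have hlf : ∀ a, mk (lf a) = a := Function.surjInv_eq _
  let Ψ : A → k[X] → ℝ := fun a s => jac π (f' + 1 ^ (p - 1) * (s + lf a) ^ p)
  have cg : ∀ u v : k[X], mk u = mk v →
      jac π (f' + 1 ^ (p - 1) * u ^ p) = jac π (f' + 1 ^ (p - 1) * v ^ p) :=
    fun u v e => jac_congr hπ (AdjoinRoot.mk_eq_mk.1 (by
      change mk _ = mk _
      simp only [map_add, map_mul, map_pow, e]))
  let V : Finset k[X] := Ω.filter fun v => v.degree < (h0 : WithBot ℕ)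
  have hV : ∀ v, v ∈ V ↔ v.degree < (h0 : WithBot ℕ) := fun v => by
    rw [mem_filter, hΩ]
    exact ⟨fun e => e.2, fun e => ⟨e.trans_le (by exact_mod_cast (by omega : h0 ≤ la)), e⟩⟩
  have main := vdc_list Ω V ⟨0, (hV 0).2 (by simp)⟩
    (fun v hv w hw => (hV _).2 ((degree_sub_le _ _).trans_lt (max_lt ((hV _).1 hv) ((hV _).1 hw))))
    Ψ (fun a x => abs_jac_le _ _)
    (β := 5 * 2 ^ R * √((Fintype.card k : ℝ) ^ π.natDegree) /
        (Fintype.card k : ℝ) ^ min la π.natDegree) (by positivity) R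
    (fun i => AddMonoidHom.mulLeft (Cs i)) (fun i v => mk (Cs i * v)) F [0]
    (fun i x hx v hv => ?_) (fun i v hv w hw e => ?_) (fun i a x _ v _ => ?_)
    (fun i x _ => hF _ _) (fun i x _ v _ => ?_) ⟨0, by simp⟩ (fun L hL hL1 => ?_)
  · have e : ∀ s, jac π (f + yy * s ^ p) * ∏ j, F j s =
        jac π yy * ((∏ i, F i s) * (([0] : List A).map fun a => Ψ a s).prod) := fun s => by
      have : Ψ 0 s = jac π (f' + 1 ^ (p - 1) * s ^ p) := cg _ _ (by rw [map_add, hlf, add_zero])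
      simp only [List.map_cons, List.map_nil, List.prod_cons, List.prod_nil, this, e0]
      ring
    simp only [e]
    rw [← mul_expect, abs_mul, abs_jac hπ hcop, one_mul]
    refine main.trans ?_
    rw [card_box5 hV]
    push_cast
    gcongr
    simp
  · rw [hΩ] at hx ⊢
    refine (degree_add_le _ _).trans_lt (max_lt hx ?_)
    rcases eq_or_ne v 0 with rfl | v0
    · simp
    have z0 : Cs i ≠ 0 := fun e => hC i (e ▸ dvd_zero π)
    have d1 := (natDegree_lt_iff_degree_lt v0).2 ((hV v).1 hv)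
    have d2 := hT i
    rw [AddMonoidHom.coe_mulLeft, ← natDegree_lt_iff_degree_lt (mul_ne_zero z0 v0),
      natDegree_mul z0 v0]
    omega
  · have d1 : π ∣ Cs i * (v - w) := by rw [mul_sub]; exact AdjoinRoot.mk_eq_mk.1 e
    have d2 := (hi.prime.dvd_or_dvd d1).resolve_left (hC i)
    refine sub_eq_zero.1 (eq_zero_of_dvd_of_degree_lt d2 ?_)
    rw [degree_eq_natDegree hi.ne_zero]
    exact ((degree_sub_le _ _).trans_lt (max_lt ((hV _).1 hv) ((hV _).1 hw))).trans_le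
      (by exact_mod_cast h1)
  · exact cg _ _ (by
      simp only [AddMonoidHom.coe_mulLeft, map_add, hlf]
      ring)
  · rw [AddMonoidHom.coe_mulLeft, hper]
  · obtain ⟨a, ha⟩ := hL1
    obtain ⟨i₀, hi₀⟩ := get_simple L a (by convert ha)
    have hb := base_line p hp hπ hi (y := 1) (fun e => hi.not_isUnit (isUnit_of_dvd_one e)) f' hΩ
      (fun i : Fin L.length => lf (L.get i)) i₀ fun i e =>
      hi₀ i (by rw [← hlf (L.get i), ← hlf (L.get i₀)]; exact AdjoinRoot.mk_eq_mk.2 e)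
    have e : ∀ s, (L.map fun a => Ψ a s).prod =
        ∏ i : Fin L.length, jac π (f' + 1 ^ (p - 1) * (s + lf (L.get i)) ^ p) := fun s => by
      rw [← List.prod_ofFn, ← List.ofFn_getElem_eq_map]
      rfl
    simp only [e]
    rw [expect_eq_sum_div_card, card_box5 hΩ, abs_div, Nat.abs_cast]
    push_cast
    rw [div_le_iff₀ (by positivity)]
    refine hb.trans (le_of_eq ?_)
    rw [Fintype.card_fin, hL]
    simp

/-- Row GR: the prime is not longer than the line. -/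
theorem gr (p : ℕ) [Fact p.Prime] [CharP k p] (hp : p ≠ 2) {π yy : k[X]} (hπ : π.Monic)
    (hi : Irreducible π) (hy : ¬π ∣ yy) (f : k[X]) {la T h0 R : ℕ} (Cs : Fin R → k[X])
    (hC : ∀ j, ¬π ∣ Cs j) (hT : ∀ j, (Cs j).natDegree ≤ T) (F : Fin R → k[X] → ℝ)
    (hF : ∀ j s, |F j s| ≤ 1) (hper : ∀ j s t, F j (s + Cs j * t) = F j s)
    (hN : T + h0 ≤ la) (h1 : h0 ≤ π.natDegree) (h2 : π.natDegree ≤ la) {Ω : Finset k[X]}
    (hΩ : ∀ s, s ∈ Ω ↔ s.degree < la) :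
    |𝔼 s ∈ Ω, jac π (f + yy * s ^ p) * ∏ j, F j s| ^ 2 ^ R ≤
      5 * 2 ^ R / √((Fintype.card k : ℝ) ^ π.natDegree) + 2 ^ R / (Fintype.card k : ℝ) ^ h0 := by
  refine (gr_min p hp hπ hi hy f Cs hC hT F hF hper hN h1 hΩ).trans (le_of_eq ?_)
  have hq : (0 : ℝ) < (Fintype.card k : ℝ) ^ π.natDegree := by
    have : (0 : ℝ) < Fintype.card k := by exact_mod_cast Fintype.card_pos
    positivity
  rw [min_eq_right h2, mul_div_assoc, Real.sqrt_div_self', mul_one_div]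

/-- The Moebius function of a product. -/
theorem mu_mul {d a : k[X]} (hd : d.Monic) (ha : a ≠ 0) :
    (if Squarefree (d * a) then
      (-1 : ℝ) ^ (UniqueFactorizationMonoid.factors (d * a)).card else 0) =
      (if Squarefree d then (-1 : ℝ) ^ (UniqueFactorizationMonoid.factors d).card else 0) *
        (if Squarefree a then (-1 : ℝ) ^ (UniqueFactorizationMonoid.factors a).card else 0) *
          jac (d ^ 2) a := by
  rw [pow_two, jac_mul_left hd hd, card_factors_mul hd.ne_zero ha, pow_add]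
  by_cases hc : IsCoprime d a
  · rw [jac_mul_self hd hc, mul_one]
    have e : Squarefree (d * a) ↔ Squarefree d ∧ Squarefree a := by
      rw [squarefree_mul_iff]
      exact ⟨fun h => h.2, fun h => ⟨hc.isRelPrime, h⟩⟩
    by_cases h1 : Squarefree d <;> by_cases h2 : Squarefree a <;> simp [e, h1, h2]
  · have h0 : jac d a = 0 := by
      by_contra h
      exact hc ((jac_ne_zero hd).1 h)
    rw [h0, if_neg fun h => hc (squarefree_mul_iff.1 h).1.isCoprime]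
    simp

/-- Row FORM: the Moebius function on the line `E + h s ^ p`, no coprimality assumed. -/
theorem form (p : ℕ) [Fact p.Prime] [CharP k p] (hp : p ≠ 2) {d0 E1 h1 V : k[X]} {w : k}
    (hd : d0.Monic) (hE : E1.Monic) (hh : h1 ≠ 0) (hc : IsCoprime h1 E1) (hw : w ≠ 0)
    (hV : V.Monic) (hW : wronskian (d0 * E1) (d0 * h1) = C w * V) :
    d0 ^ 2 ∣ V ∧ ∃ c : ℝ, |c| ≤ 1 ∧ ∀ s : k[X], (h1 * s ^ p).degree < E1.degree →
      (if Squarefree (d0 * E1 + d0 * h1 * s ^ p) then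
        (-1 : ℝ) ^ (UniqueFactorizationMonoid.factors (d0 * E1 + d0 * h1 * s ^ p)).card else 0) =
        c * jac V (E1 + h1 * s ^ p) := by
  have hpp : p.Prime := Fact.out
  have h2 : (2 : k) ≠ 0 := fun e => hp ((Nat.prime_dvd_prime_iff_eq hpp Nat.prime_two).1
    ((CharP.cast_eq_zero_iff k p 2).1 (by exact_mod_cast e)))
  have hW1 : wronskian (d0 * E1) (d0 * h1) = d0 ^ 2 * wronskian E1 h1 := by
    simp only [wronskian, derivative_mul]
    ring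
  have hCw : C w⁻¹ * C w = (1 : k[X]) := by rw [← C_mul, inv_mul_cancel₀ hw, C_1]
  have hV1 : V = d0 ^ 2 * (C w⁻¹ * wronskian E1 h1) := by
    linear_combination (-C w⁻¹) * hW + C w⁻¹ * hW1 - V * hCw
  refine ⟨⟨_, hV1⟩, ?_⟩
  set V1 := C w⁻¹ * wronskian E1 h1 with hV1d
  have hV1m : V1.Monic := (hd.pow 2).of_mul_monic_left (hV1 ▸ hV)
  set l := h1.leadingCoeff with hl
  have l0 : l ≠ 0 := leadingCoeff_ne_zero.2 hh
  set g := h1 * C l⁻¹ with hg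
  have hgm : g.Monic := monic_mul_leadingCoeff_inv hh
  have hCl : C l⁻¹ * C l = (1 : k[X]) := by rw [← C_mul, inv_mul_cancel₀ l0, C_1]
  have hgc : IsCoprime g E1 := by
    obtain ⟨a, b, hab⟩ := hc
    exact ⟨a * C l, b, by rw [hg]; linear_combination hab + a * h1 * hCl⟩
  obtain ⟨c, hc1, hc2⟩ := mu_line h2 (f := E1) (V := V1) (w := -(w * l⁻¹)) hgm hgc
    (neg_ne_zero.2 (mul_ne_zero hw (inv_ne_zero l0))) (by
      rw [hg, hV1d, derivative_mul, derivative_C, C_neg, C_mul, wronskian]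
      linear_combination (C l⁻¹ * (E1 * derivative h1 - derivative E1 * h1)) * hCw)
    E1.natDegree
  refine ⟨(if Squarefree d0 then (-1 : ℝ) ^ (UniqueFactorizationMonoid.factors d0).card else 0) * c,
    ?_, fun s hs => ?_⟩
  · rw [abs_mul, hc1, mul_one]
    split_ifs <;> simp
  · have e1 : E1 + h1 * s ^ p = E1 + g * (C l * s ^ p) := by
      rw [hg]; linear_combination (-h1 * s ^ p) * hCl
    have hm : (E1 + h1 * s ^ p).Monic := hE.add_of_left hs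
    have hn : (E1 + h1 * s ^ p).natDegree = E1.natDegree := natDegree_add_eq_left_of_degree_lt hs
    have h3 := hc2 (C l * s ^ p) (by
      rw [derivative_mul, derivative_C, derivative_pow, CharP.cast_eq_zero]; simp)
      (e1 ▸ hm) (e1 ▸ hn)
    rw [← e1] at h3
    rw [show d0 * E1 + d0 * h1 * s ^ p = d0 * (E1 + h1 * s ^ p) by ring, mu_mul hd hm.ne_zero, h3,
      hV1, jac_mul_left (hd.pow 2) hV1m]
    ring

/-- Row FORM in the wording of the paper: `d0` is the monic gcd, `s` runs over a box. -/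
theorem form_box (p : ℕ) [Fact p.Prime] [CharP k p] (hp : p ≠ 2) {E h V : k[X]} {w : k}
    (hE : E.Monic) (hh : h ≠ 0) (hw : w ≠ 0) (hV : V.Monic) (hW : wronskian E h = C w * V)
    {len : ℕ} (hl : p * (len - 1) + h.natDegree < E.natDegree) :
    ∃ d0 E1 h1 : k[X], d0.Monic ∧ E1.Monic ∧ E = d0 * E1 ∧ h = d0 * h1 ∧ IsCoprime h1 E1 ∧
      d0 ^ 2 ∣ V ∧ ∃ c : ℝ, |c| ≤ 1 ∧ ∀ s : k[X], s.degree < len →
        (if Squarefree (E + s ^ p * h) then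
          (-1 : ℝ) ^ (UniqueFactorizationMonoid.factors (E + s ^ p * h)).card else 0) =
          c * jac V (E1 + s ^ p * h1) := by
  obtain ⟨E1, h1, d0, hcop, rfl, rfl, hd⟩ : ∃ E1 h1 d0 : k[X], IsCoprime h1 E1 ∧ E = d0 * E1 ∧
      h = d0 * h1 ∧ d0.Monic := by
    have hg : gcd E h ≠ 0 := gcd_ne_zero_of_left hE.ne_zero
    obtain ⟨a, b, ha, hb, hu⟩ := extract_gcd E h
    exact ⟨a, b, gcd E h, ((gcd_isUnit_iff a b).1 hu).symm, ha, hb, by
      have := monic_normalize hg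
      rwa [_root_.normalize_gcd] at this⟩
  have hE1 : E1.Monic := hd.of_mul_monic_left hE
  have hh1 : h1 ≠ 0 := right_ne_zero_of_mul hh
  obtain ⟨hv, c, hc, hs⟩ := form p hp hd hE1 hh1 hcop hw hV hW
  refine ⟨d0, E1, h1, hd, hE1, rfl, rfl, hcop, hv, c, hc, fun s hs' => ?_⟩
  have := hs s (by
    rcases eq_or_ne s 0 with rfl | s0
    · rw [zero_pow (Fact.out : p.Prime).ne_zero, mul_zero, degree_zero]
      exact bot_lt_iff_ne_bot.2 fun e => hE1.ne_zero (degree_eq_bot.1 e)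
    have d1 := (natDegree_lt_iff_degree_lt s0).2 hs'
    rw [natDegree_mul hd.ne_zero hh1, natDegree_mul hd.ne_zero hE1.ne_zero] at hl
    refine degree_lt_degree ?_
    rw [natDegree_mul hh1 (pow_ne_zero _ s0), natDegree_pow]
    have : p * s.natDegree ≤ p * (len - 1) := Nat.mul_le_mul_left _ (by omega)
    omega)
  rw [show d0 * E1 + s ^ p * (d0 * h1) = d0 * E1 + d0 * h1 * s ^ p by ring, this, mul_comm h1]

end Pool.Agent.MP_d0fd9b_nt.M18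

end
end

-- part H18M.Cau26
section

/-! h18m rows CAU, BL, DEG (helper26): Cauchy-Schwarz over keys and the counts of bad pairs. -/

set_option autoImplicit false
open Polynomial Finset
open scoped Classical BigOperators

noncomputable section
namespace H18M
open CL5

theorem cau26_one {τ σ : Type*} (T : Finset τ) (Ω : Finset σ) (hΩ : Ω.Nonempty)
    (J : σ → ℝ) (hJ : ∀ s ∈ Ω, |J s| ≤ 1) (Φ : τ → σ → ℝ) (hΦ : ∀ t ∈ T, ∀ s ∈ Ω, |Φ t s| ≤ 1)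
    (c : τ → ℝ) (hc : ∀ t ∈ T, |c t| ≤ 1) (bad : τ → τ → Prop) {β : ℝ} (hβ : 0 ≤ β)
    (hg : ∀ t₁ ∈ T, ∀ t₂ ∈ T, ¬ bad t₁ t₂ → |𝔼 s ∈ Ω, Φ t₁ s * Φ t₂ s| ≤ β) :
    |∑ t ∈ T, c t * 𝔼 s ∈ Ω, J s * Φ t s| ≤
      √(#((T ×ˢ T).filter (fun p => bad p.1 p.2)) : ℝ) + √β * #T := by
  have e1 : ∑ t ∈ T, c t * 𝔼 s ∈ Ω, J s * Φ t s = 𝔼 s ∈ Ω, J s * ∑ t ∈ T, c t * Φ t s := by
    simp only [mul_expect, mul_sum]
    rw [expect_sum_comm]
    exact sum_congr rfl fun t _ => expect_congr rfl fun s _ => by ring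
  have e2 : (𝔼 s ∈ Ω, J s * ∑ t ∈ T, c t * Φ t s) ^ 2 ≤
      (𝔼 s ∈ Ω, J s ^ 2) * 𝔼 s ∈ Ω, (∑ t ∈ T, c t * Φ t s) ^ 2 :=
    expect_mul_sq_le_sq_mul_sq Ω _ _
  have e3 : 𝔼 s ∈ Ω, J s ^ 2 ≤ 1 :=
    expect_le hΩ fun s hs => by rw [← sq_abs]; exact pow_le_one₀ (abs_nonneg _) (hJ s hs)
  have e4 : 𝔼 s ∈ Ω, (∑ t ∈ T, c t * Φ t s) ^ 2 =
      ∑ p ∈ T ×ˢ T, c p.1 * c p.2 * 𝔼 s ∈ Ω, Φ p.1 s * Φ p.2 s := by
    simp only [mul_expect]
    rw [← expect_sum_comm]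
    refine expect_congr rfl fun s _ => ?_
    rw [sq, sum_mul_sum, sum_product]
    exact sum_congr rfl fun _ _ => sum_congr rfl fun _ _ => by ring
  have e5 : ∑ p ∈ T ×ˢ T, c p.1 * c p.2 * 𝔼 s ∈ Ω, Φ p.1 s * Φ p.2 s ≤
      ∑ p ∈ T ×ˢ T, ((if bad p.1 p.2 then (1 : ℝ) else 0) + β) := by
    refine sum_le_sum fun p hp => ?_
    obtain ⟨h1, h2⟩ := mem_product.1 hp
    have h3 : c p.1 * c p.2 * 𝔼 s ∈ Ω, Φ p.1 s * Φ p.2 s ≤ |𝔼 s ∈ Ω, Φ p.1 s * Φ p.2 s| := by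
      refine (le_abs_self _).trans ?_
      rw [abs_mul, abs_mul]
      exact mul_le_of_le_one_left (abs_nonneg _) (mul_le_one₀ (hc _ h1) (abs_nonneg _) (hc _ h2))
    refine h3.trans ?_
    split_ifs with hb
    · have : |𝔼 s ∈ Ω, Φ p.1 s * Φ p.2 s| ≤ 1 := by
        have hh : ∀ s ∈ Ω, |Φ p.1 s * Φ p.2 s| ≤ 1 := fun s hs => by
          rw [abs_mul]; exact mul_le_one₀ (hΦ _ h1 s hs) (abs_nonneg _) (hΦ _ h2 s hs)
        exact abs_le.2 ⟨le_expect hΩ fun s hs => (abs_le.1 (hh s hs)).1,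
          expect_le hΩ fun s hs => (abs_le.1 (hh s hs)).2⟩
      linarith
    · simpa using hg _ h1 _ h2 hb
  rw [sum_add_distrib, sum_boole, sum_const, card_product, nsmul_eq_mul] at e5
  have e6 : 0 ≤ 𝔼 s ∈ Ω, (∑ t ∈ T, c t * Φ t s) ^ 2 := expect_nonneg fun _ _ => sq_nonneg _
  rw [e1]
  refine abs_le_of_sq_le_sq' ?_ (by positivity) |> abs_le.2
  obtain ⟨b, hb⟩ : ∃ b : ℝ, b = (#((T ×ˢ T).filter (fun p => bad p.1 p.2)) : ℝ) := ⟨_, rfl⟩
  have hb0 : 0 ≤ b := by rw [hb]; positivity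
  rw [← hb] at e5 ⊢
  have s1 := Real.sq_sqrt hb0
  have s2 := Real.sq_sqrt hβ
  have s3 : 0 ≤ √b * (√β * #T) := by positivity
  have e7 := e2.trans (mul_le_of_le_one_left e6 e3)
  rw [e4] at e7
  push_cast at e5
  calc _ ≤ b + #T * #T * β := e7.trans e5
    _ ≤ _ := by
      have : (√b + √β * #T) ^ 2 = √b ^ 2 + 2 * (√b * (√β * #T)) + √β ^ 2 * (#T * #T) := by ring
      rw [this, s1, s2]; linarith

/-- **CAU.** Weighted Cauchy-Schwarz over keys. -/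
theorem cau26 {τ κ σ : Type*} (T : Finset τ) (Ω : Finset σ) (hΩ : Ω.Nonempty) (key : τ → κ)
    (wt : κ → ℝ) (hwt : ∀ t ∈ T, 0 < wt (key t))
    (J : κ → σ → ℝ) (hJ : ∀ a, ∀ s ∈ Ω, |J a s| ≤ 1) (Φ : τ → σ → ℝ)
    (hΦ : ∀ t ∈ T, ∀ s ∈ Ω, |Φ t s| ≤ 1)
    (c : τ → ℝ) (hc : ∀ t ∈ T, |c t| ≤ 1) (bad : τ → τ → Prop) {β : ℝ} (hβ : 0 ≤ β)
    (hg : ∀ t₁ ∈ T, ∀ t₂ ∈ T, key t₁ = key t₂ → ¬ bad t₁ t₂ →
      |𝔼 s ∈ Ω, Φ t₁ s * Φ t₂ s| ≤ β) :
    |∑ t ∈ T, c t * 𝔼 s ∈ Ω, J (key t) s * Φ t s| ≤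
      √(∑ a ∈ T.image key, 1 / wt a) *
        √(∑ p ∈ (T ×ˢ T).filter (fun p => key p.1 = key p.2 ∧ bad p.1 p.2), wt (key p.1)) +
      √β * #T := by
  have hK : ∀ t ∈ T, key t ∈ T.image key := fun t ht => mem_image_of_mem key ht
  have hw : ∀ a ∈ T.image key, 0 < wt a := fun a ha => by
    obtain ⟨t, ht, rfl⟩ := mem_image.1 ha
    exact hwt t ht
  let Ta : κ → Finset τ := fun a => T.filter (fun t => key t = a)
  let b : κ → ℝ := fun a => (#((Ta a ×ˢ Ta a).filter (fun p => bad p.1 p.2)) : ℝ)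
  have h1 : ∀ a ∈ T.image key, |∑ t ∈ Ta a, c t * 𝔼 s ∈ Ω, J (key t) s * Φ t s| ≤
      √(b a) + √β * #(Ta a) := fun a _ => by
    have : ∑ t ∈ Ta a, c t * 𝔼 s ∈ Ω, J (key t) s * Φ t s =
        ∑ t ∈ Ta a, c t * 𝔼 s ∈ Ω, J a s * Φ t s :=
      sum_congr rfl fun t ht => by rw [(mem_filter.1 ht).2]
    rw [this]
    exact cau26_one (Ta a) Ω hΩ (J a) (hJ a) Φ (fun t ht => hΦ t (mem_filter.1 ht).1) c
      (fun t ht => hc t (mem_filter.1 ht).1) bad hβ fun t₁ h₁ t₂ h₂ =>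
        hg t₁ (mem_filter.1 h₁).1 t₂ (mem_filter.1 h₂).1
          ((mem_filter.1 h₁).2.trans (mem_filter.1 h₂).2.symm)
  have h2 : ∑ a ∈ T.image key, (#(Ta a) : ℝ) = #T := by
    rw [card_eq_sum_card_fiberwise (f := key) (t := T.image key) fun t ht => hK t ht]
    push_cast
    rfl
  have h3 : ∑ a ∈ T.image key, wt a * b a =
      ∑ p ∈ (T ×ˢ T).filter (fun p => key p.1 = key p.2 ∧ bad p.1 p.2), wt (key p.1) := by
    rw [← sum_fiberwise_of_maps_to (g := fun p : τ × τ => key p.1) (t := T.image key)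
      fun p hp => hK _ (mem_product.1 (mem_filter.1 hp).1).1]
    refine sum_congr rfl fun a _ => ?_
    rw [sum_congr rfl (g := fun _ => wt a) fun p hp => by rw [(mem_filter.1 hp).2], sum_const,
      nsmul_eq_mul, mul_comm]
    have : (Ta a ×ˢ Ta a).filter (fun p => bad p.1 p.2) =
        ((T ×ˢ T).filter (fun p => key p.1 = key p.2 ∧ bad p.1 p.2)).filter
          (fun p => key p.1 = a) := by
      ext p
      simp only [Ta, mem_filter, mem_product]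
      constructor
      · rintro ⟨⟨⟨a1, a2⟩, a3, a4⟩, a5⟩
        exact ⟨⟨⟨a1, a3⟩, a2.trans a4.symm, a5⟩, a2⟩
      · rintro ⟨⟨⟨a1, a3⟩, a4, a5⟩, a2⟩
        exact ⟨⟨⟨a1, a2⟩, a3, a4.symm.trans a2⟩, a5⟩
    simp only [b]
    rw [this]
  have h4 : ∑ a ∈ T.image key, √(b a) ≤
      √(∑ a ∈ T.image key, 1 / wt a) * √(∑ a ∈ T.image key, wt a * b a) := by
    have hb : ∀ a, 0 ≤ b a := fun a => Nat.cast_nonneg _
    have := sum_mul_sq_le_sq_mul_sq (T.image key) (fun a => √(1 / wt a)) (fun a => √(wt a * b a))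
    have e1 : ∑ a ∈ T.image key, √(1 / wt a) * √(wt a * b a) = ∑ a ∈ T.image key, √(b a) :=
      sum_congr rfl fun a ha => by
        have := hw a ha
        rw [← Real.sqrt_mul (by positivity), ← mul_assoc, one_div_mul_cancel this.ne', one_mul]
    have e2 : ∑ a ∈ T.image key, √(1 / wt a) ^ 2 = ∑ a ∈ T.image key, 1 / wt a :=
      sum_congr rfl fun a ha => Real.sq_sqrt (by have := hw a ha; positivity)
    have e3 : ∑ a ∈ T.image key, √(wt a * b a) ^ 2 = ∑ a ∈ T.image key, wt a * b a :=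
      sum_congr rfl fun a ha => Real.sq_sqrt (mul_nonneg (hw a ha).le (hb a))
    rw [e1, e2, e3] at this
    rw [← Real.sqrt_mul (sum_nonneg fun a ha => by have := hw a ha; positivity)]
    exact Real.le_sqrt_of_sq_le this
  rw [← sum_fiberwise_of_maps_to hK, ← h3, ← h2, mul_sum]
  refine (abs_sum_le_sum_abs _ _).trans ((sum_le_sum h1).trans ?_)
  rw [sum_add_distrib]
  linarith

section Alg26
variable {k : Type*} [Field k]

theorem wr_mul26 (d a b : k[X]) : wronskian (d * a) (d * b) = d ^ 2 * wronskian a b := by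
  simp only [wronskian, derivative_mul]; ring

theorem wr_four26 (A B C D : k[X]) :
    wronskian (A * D) (C * B) = C * D * wronskian A B - A * B * wronskian C D := by
  simp only [wronskian, derivative_mul]; ring

theorem wr_three26 (A u v : k[X]) :
    A * wronskian u v = u * wronskian A v - v * wronskian A u := by
  simp only [wronskian]; ring

theorem wr_deg26 (a b : k[X]) : (wronskian a b).natDegree ≤ a.natDegree + b.natDegree := by
  by_cases h : wronskian a b = 0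
  · simp [h]
  · exact (natDegree_wronskian_lt_add h).le

/-- a common factor of `g` and `W` divides the reduced Wronskian -/
theorem wr_red26 {g gc gs kk Z : k[X]} (hg : g = gc * gs) (h0 : gc ≠ 0)
    (h : g ^ 3 ∣ wronskian (g * kk) (gc * Z)) : gc ∣ wronskian (gs * kk) Z := by
  rw [hg, mul_assoc, wr_mul26] at h
  have : gc ^ 2 * gc ∣ gc ^ 2 * wronskian (gs * kk) Z :=
    Dvd.dvd.trans ⟨gs ^ 3, by ring⟩ h
  exact (mul_dvd_mul_iff_left (pow_ne_zero 2 h0)).1 this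

theorem wr_red_ne26 {g gc gs kk Z : k[X]} (hg : g = gc * gs)
    (h : wronskian (g * kk) (gc * Z) ≠ 0) : wronskian (gs * kk) Z ≠ 0 := fun e =>
  h (by rw [hg, mul_assoc, wr_mul26, e, mul_zero])

/-- **BL, identity.** -/
theorem blid26 {g gc gs P k₁ k₂ Y₁ Y₂ : k[X]} (hg : g = gc * gs) (h0 : gc ≠ 0)
    (hc : IsCoprime gc (gs * P)) (h₁ : g ^ 3 ∣ wronskian (g * k₁) (gc * P * Y₁))
    (h₂ : g ^ 3 ∣ wronskian (g * k₂) (gc * P * Y₂)) : gc ∣ wronskian (k₁ * Y₂) (k₂ * Y₁) := by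
  rw [mul_assoc gc] at h₁ h₂
  have a₁ := wr_red26 hg h0 h₁
  have a₂ := wr_red26 hg h0 h₂
  have e : (gs * P) ^ 2 * wronskian (k₁ * Y₂) (k₂ * Y₁) =
      gs * k₂ * (P * Y₂) * wronskian (gs * k₁) (P * Y₁) -
        gs * k₁ * (P * Y₁) * wronskian (gs * k₂) (P * Y₂) := by
    rw [← wr_four26, ← wr_mul26]
    exact congrArg₂ wronskian (by ring) (by ring)
  exact (hc.pow_right (n := 2)).dvd_of_dvd_mul_left
    (e ▸ dvd_sub (a₁.mul_left _) (a₂.mul_left _))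

variable [Fintype k]

/-- the squarefree part of `g` prime to the rest divides `W` -/
theorem gf_dvd26 {g gf gs kk W : k[X]} (hg : g = gf * gs) (hs : Squarefree gf)
    (hc : IsCoprime gf (gs * kk)) (h : g ^ 3 ∣ wronskian (g * kk) W) : gf ∣ W := by
  have h1 : gf ∣ wronskian (g * kk) W := Dvd.dvd.trans ⟨gf ^ 2 * gs ^ 3, by rw [hg]; ring⟩ h
  have h2 : derivative gf * (gs * kk) * W =
      gf * (gs * kk * derivative W - derivative (gs * kk) * W) - wronskian (g * kk) W := by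
    rw [hg, mul_assoc gf gs]
    simp only [wronskian, derivative_mul (f := gf)]; ring
  have h3 : IsCoprime gf (derivative gf) := PerfectField.separable_iff_squarefree.2 hs
  exact (h3.mul_right hc).dvd_of_dvd_mul_left (h2 ▸ dvd_sub (dvd_mul_right _ _) h1)

/-- a prime that divides `W` exactly once and not `A` does not divide `wronskian A W` -/
theorem not_dvd_wr26 {p A V : k[X]} (hp : Irreducible p) (hA : ¬ p ∣ A) (hV : ¬ p ∣ V) :
    ¬ p ∣ wronskian A (p * V) := fun h => by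
  have h2 : A * derivative p * V =
      wronskian A (p * V) - p * (A * derivative V - derivative A * V) := by
    simp only [wronskian, derivative_mul]; ring
  have h3 : IsCoprime p (derivative p) := PerfectField.separable_iff_squarefree.2 hp.squarefree
  have h4 : p ∣ A * derivative p * V := h2 ▸ dvd_sub h (dvd_mul_right _ _)
  rcases hp.prime.dvd_or_dvd h4 with h5 | h5
  · rcases hp.prime.dvd_or_dvd h5 with h6 | h6
    · exact hA h6
    · exact hp.not_isUnit (h3.isUnit_of_dvd' dvd_rfl h6)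
  · exact hV h5

variable [CharP k 3]

theorem cube_of_der26 {a : k[X]} (h : derivative a = 0) : ∃ s : k[X], a = s ^ 3 := by
  refine ⟨(contract 3 a).map ((frobeniusEquiv k 3).symm : k →+* k), ?_⟩
  have : (frobenius k 3).comp ((frobeniusEquiv k 3).symm : k →+* k) = RingHom.id k :=
    RingHom.ext fun x => (frobeniusEquiv k 3).apply_symm_apply x
  rw [← map_frobenius_expand 3, map_expand, Polynomial.map_map, this, Polynomial.map_id,
    expand_contract 3 h (by norm_num)]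

omit [Fintype k] in
theorem der_cube26 (a : k[X]) : derivative (a ^ 3) = 0 := by
  have h3 : ((3 : ℕ) : k) = 0 := CharP.cast_eq_zero k 3
  rw [derivative_pow, h3]; simp

omit [Fintype k] in
theorem wr_comb26 (si ta al be h₁ h₂ : k[X]) :
    wronskian (si ^ 3 * h₁ + ta ^ 3 * h₂) (al ^ 3 * h₁ + be ^ 3 * h₂) =
      (si * be - ta * al) ^ 3 * wronskian h₁ h₂ := by
  rw [sub_pow_char]
  simp only [wronskian, derivative_add, derivative_mul, der_cube26]; ring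

omit [Fintype k] in
theorem wr_shift26 (E s h : k[X]) : wronskian (E + s ^ 3 * h) h = wronskian E h := by
  simp only [wronskian, derivative_add, derivative_mul, der_cube26]; ring

omit [Fintype k] in
/-- **One line.** The same Wronskian with a primitive direction means the same line. -/
theorem line26 {E E' h si ta al be h₁ h₂ : k[X]} (hE : E - E' = si ^ 3 * h₁ + ta ^ 3 * h₂)
    (hh : h = al ^ 3 * h₁ + be ^ 3 * h₂) (hc : IsCoprime al be) (hw : wronskian h₁ h₂ ≠ 0)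
    (e : wronskian E h = wronskian E' h) : ∃ s : k[X], E = E' + s ^ 3 * h := by
  have h1 : wronskian (E - E') h = 0 := by
    rw [sub_eq_add_neg, wronskian_add_left, wronskian_neg_left, e, add_neg_cancel]
  rw [hE, hh, wr_comb26] at h1
  have h2 : si * be - ta * al = 0 :=
    pow_eq_zero_iff (by norm_num) |>.1 ((mul_eq_zero.1 h1).resolve_right hw)
  obtain ⟨u, v, huv⟩ := hc
  have a1 : (u * si + v * ta) * al = si := by linear_combination si * huv - v * h2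
  have a2 : (u * si + v * ta) * be = ta := by linear_combination ta * huv + u * h2
  refine ⟨u * si + v * ta, ?_⟩
  rw [hh, mul_add, ← mul_assoc, ← mul_assoc, ← mul_pow, ← mul_pow, a1, a2, ← hE]
  ring

theorem wr_zero26 {a b : k[X]} (ha : a ≠ 0) (h : wronskian a b = 0) :
    ∃ d s t : k[X], a = d * s ^ 3 ∧ b = d * t ^ 3 := by
  obtain ⟨a', ha'⟩ := EuclideanDomain.gcd_dvd_left a b
  obtain ⟨b', hb'⟩ := EuclideanDomain.gcd_dvd_right a b
  obtain ⟨d, hd⟩ : ∃ d, d = EuclideanDomain.gcd a b := ⟨_, rfl⟩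
  have hb := EuclideanDomain.gcd_eq_gcd_ab a b
  rw [← hd] at ha' hb' hb
  have d0 : d ≠ 0 := fun e => ha (by rw [ha', e, zero_mul])
  have hc : IsCoprime a' b' := ⟨EuclideanDomain.gcdA a b, EuclideanDomain.gcdB a b,
    mul_left_cancel₀ d0 (by
      linear_combination -hb - EuclideanDomain.gcdA a b * ha' - EuclideanDomain.gcdB a b * hb')⟩
  have h1 : d ^ 2 * wronskian a' b' = 0 := by rw [← wr_mul26, ← ha', ← hb', h]
  obtain ⟨e1, e2⟩ := hc.wronskian_eq_zero_iff.1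
    ((mul_eq_zero.1 h1).resolve_left (pow_ne_zero 2 d0))
  obtain ⟨s, hs⟩ := cube_of_der26 e1
  obtain ⟨t, ht⟩ := cube_of_der26 e2
  exact ⟨d, s, t, by rw [ha', hs], by rw [hb', ht]⟩

end Alg26

section Cnt26
variable {k : Type*} [Field k] [Fintype k]

theorem step26 {ι A : Type*} (Q : Finset ι) (f : ι → A) (B : Finset A) (hB : ∀ a ∈ Q, f a ∈ B)
    {b n : ℝ} (hb : (#B : ℝ) ≤ b) (hn : 0 ≤ n)
    (h : ∀ Q' : Finset ι, Q' ⊆ Q → ∀ a₀ ∈ Q', (∀ a ∈ Q', f a = f a₀) → (#Q' : ℝ) ≤ n) :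
    (#Q : ℝ) ≤ b * n := by
  rw [card_eq_sum_card_fiberwise (f := f) (t := B) fun a ha => hB a ha]
  push_cast
  refine (sum_le_card_nsmul _ _ n fun x _ => ?_).trans ?_
  · rcases (Q.filter fun a => f a = x).eq_empty_or_nonempty with e | ⟨a₀, ha₀⟩
    · rw [e]; simpa using hn
    · exact h _ (filter_subset _ _) a₀ ha₀ fun a ha =>
        (mem_filter.1 ha).2.trans (mem_filter.1 ha₀).2.symm
  · rw [nsmul_eq_mul]
    exact mul_le_mul_of_nonneg_right hb hn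

theorem one26 {ι : Type*} (Q : Finset ι) (a₀ : ι) (h : ∀ a ∈ Q, a = a₀) : (#Q : ℝ) ≤ 1 := by
  exact_mod_cast card_le_one.2 fun a ha b hb => (h a ha).trans (h b hb).symm

theorem box_nat26 {N : ℕ} {a : k[X]} (h : a.natDegree ≤ N) : a ∈ box k (N + 1) :=
  mem_box.2 (degree_le_natDegree.trans_lt (by exact_mod_cast Nat.lt_succ_of_le h))

theorem nat_box26 {N : ℕ} {a : k[X]} (h : a ∈ box k N) : a.natDegree ≤ N :=
  natDegree_le_iff_degree_le.2 (mem_box.1 h).le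

/-- polynomials with pairwise zero Wronskians and small square divisors are few -/
theorem wr0_26 [CharP k 3] (y : ℕ) (S : Finset k[X])
    (hS : ∀ a ∈ S, a ≠ 0 ∧ ∀ d : k[X], d ^ 2 ∣ a → d.natDegree ≤ y)
    (hw : ∀ a ∈ S, ∀ b ∈ S, wronskian a b = 0) : (#S : ℝ) ≤ qq k ^ (2 * y + 2) := by
  have hq : 0 < qq k := by linarith [two_le_qq (k := k)]
  rcases S.eq_empty_or_nonempty with rfl | ⟨b, hb⟩
  · simp only [card_empty, Nat.cast_zero]; positivity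
  choose! d s t h1 h2 using fun a (ha : a ∈ S) => wr_zero26 (hS a ha).1 (hw a ha b hb)
  rw [← mul_one (qq k ^ _)]
  refine step26 S (fun a => (s a, t a)) (box k (y + 1) ×ˢ box k (y + 1)) (fun a ha =>
    mem_product.2 ⟨box_nat26 ((hS a ha).2 _ ⟨d a * s a, (h1 a ha).trans (by ring)⟩),
      box_nat26 ((hS b hb).2 _ ⟨d a * t a, (h2 a ha).trans (by ring)⟩)⟩) ?_ zero_le_one
    fun Q' hQ a₀ h₀ e => one26 Q' a₀ fun a ha => ?_
  · rw [card_product]; push_cast; rw [card_box, ← pow_add]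
    exact le_of_eq (congrArg _ (by ring))
  · obtain ⟨e1, e2⟩ := Prod.mk.inj (e a ha)
    have t0 : t a₀ ^ 3 ≠ 0 := fun z => (hS b hb).1 (by rw [h2 a₀ (hQ h₀), z, mul_zero])
    have : d a = d a₀ := mul_right_cancel₀ t0 (by rw [← h2 a₀ (hQ h₀), ← e2, ← h2 a (hQ ha)])
    calc a = d a * s a ^ 3 := h1 a (hQ ha)
      _ = d a₀ * s a₀ ^ 3 := by rw [this, e1]
      _ = a₀ := (h1 a₀ (hQ h₀)).symm

/-- cubes in a class modulo a squarefree polynomial -/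
theorem cube26 [CharP k 3] {ga : k[X]} (hs : Squarefree ga) (len : ℕ) (r : k[X]) :
    qq k ^ ga.natDegree * (#((box k len).filter (fun s => ga ∣ s ^ 3 - r)) : ℝ) ≤
      qq k ^ max len ga.natDegree := by
  have hq : 0 < qq k := by linarith [two_le_qq (k := k)]
  rcases ((box k len).filter (fun s => ga ∣ s ^ 3 - r)).eq_empty_or_nonempty with e | ⟨s₀, h₀⟩
  · rw [e, card_empty, Nat.cast_zero, mul_zero]; positivity
  have key : ∀ s ∈ (box k len).filter (fun s => ga ∣ s ^ 3 - r), ga ∣ s - s₀ := fun s h => by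
    have : ga ∣ (s - s₀) ^ 3 := by
      rw [sub_pow_char, show s ^ 3 - s₀ ^ 3 = (s ^ 3 - r) - (s₀ ^ 3 - r) by ring]
      exact dvd_sub (mem_filter.1 h).2 (mem_filter.1 h₀).2
    exact hs.isRadical 3 _ this
  rcases le_total ga.natDegree len with hl | hl
  · have h1 : (#((box k len).filter (fun s => ga ∣ s ^ 3 - r)) : ℝ) ≤
        qq k ^ (len - ga.natDegree) := by
      rw [← card_box_class hs.ne_zero hl s₀]
      exact_mod_cast card_le_card fun s h => mem_filter.2 ⟨(mem_filter.1 h).1, key s h⟩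
    rw [max_eq_left hl]
    calc _ ≤ qq k ^ ga.natDegree * qq k ^ (len - ga.natDegree) :=
          mul_le_mul_of_nonneg_left h1 (by positivity)
      _ = _ := by rw [← pow_add, Nat.add_sub_cancel' hl]
  · rw [max_eq_right hl]
    refine mul_le_of_le_one_right (by positivity) (one26 _ s₀ fun s h => ?_)
    refine sub_eq_zero.1 (eq_zero_of_dvd_of_degree_lt (key s h) ?_)
    refine (degree_sub_le _ _).trans_lt ((max_lt (mem_box.1 (mem_filter.1 h).1)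
      (mem_box.1 (mem_filter.1 h₀).1)).trans_le ?_)
    rw [degree_eq_natDegree hs.ne_zero]
    exact_mod_cast hl

/-- **BL.** Pairs of tuples with a common product of primes. -/
theorem bl26 [CharP k 3] {ι π : Type*} (Q : Finset ι) (g k₁ k₂ W₁ W₂ : ι → k[X])
    (P₁ P₂ : ι → π) (pr : π → k[X]) (L : k[X] → k[X] → Finset k[X]) (D : k[X] → Finset π)
    (m ka z l y : ℕ) {NL M τ : ℝ} (hNL : 0 ≤ NL) (hM : 0 ≤ M) (hτ0 : 0 ≤ τ)
    (hinj : ∀ a ∈ Q, ∀ b ∈ Q, g a = g b → k₁ a = k₁ b → k₂ a = k₂ b → W₁ a = W₁ b →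
      W₂ a = W₂ b → P₁ a = P₁ b → P₂ a = P₂ b → a = b)
    (hL : ∀ a ∈ Q, W₁ a ∈ L (g a) (k₁ a) ∧ (#(L (g a) (k₁ a)) : ℝ) ≤ NL)
    (hD : ∀ a ∈ Q, P₁ a ∈ D (W₁ a) ∧ P₂ a ∈ D (W₂ a) ∧ (#(D (W₁ a)) : ℝ) ≤ M ∧
      (#(D (W₂ a)) : ℝ) ≤ M)
    (hτ : ∀ w : k[X], w ≠ 0 → w.natDegree ≤ 2 * ka + 2 * l → ∀ S : Finset k[X],
      (∀ d ∈ S, d.Monic ∧ d ∣ w) → (#S : ℝ) ≤ τ)
    (hk : ∀ a ∈ Q, g a ∈ box k m ∧ g a ≠ 0 ∧ k₁ a ∈ mon k ka ∧ k₂ a ∈ mon k ka ∧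
      W₁ a ≠ 0 ∧ W₂ a ≠ 0 ∧ ∀ d : k[X], d ^ 2 ∣ k₂ a → d.natDegree ≤ y)
    (hex : ∀ a ∈ Q, ∃ gc gs Y₁ Y₂ : k[X], gc.Monic ∧ g a = gc * gs ∧ gs ∈ box k z ∧
      Y₁ ∈ box k l ∧ Y₂ ∈ box k l ∧ W₁ a = gc * pr (P₁ a) * Y₁ ∧ W₂ a = gc * pr (P₁ a) * Y₂ ∧
      gc ∣ wronskian (k₁ a * Y₂) (k₂ a * Y₁)) :
    (#Q : ℝ) ≤ (qq k ^ (2 * ka + 2 * l + z) * τ + qq k ^ (m + ka + z + l + (2 * y + 2))) *
      (NL * M ^ 2) := by
  have hq : 0 < qq k := by linarith [two_le_qq (k := k)]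
  choose! gc gs Y₁ Y₂ c1 c2 c3 c4 c5 c6 c7 c8 using hex
  rw [← card_filter_add_card_filter_not (s := Q)
    (fun a => wronskian (k₁ a * Y₂ a) (k₂ a * Y₁ a) = 0), add_comm, add_mul]
  push_cast
  refine add_le_add ?_ ?_
  · rw [mul_assoc, sq]
    refine step26 _ (fun a => (k₁ a, k₂ a, Y₁ a, Y₂ a, gs a))
      (mon k ka ×ˢ mon k ka ×ˢ box k l ×ˢ box k l ×ˢ box k z) (fun a ha => ?_) ?_
      (by positivity) fun Q₁ hQ₁ a₁ h₁ e₁ => ?_
    · have ha' := (mem_filter.1 ha).1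
      simp only [mem_product]
      exact ⟨(hk a ha').2.2.1, (hk a ha').2.2.2.1, c4 a ha', c5 a ha', c3 a ha'⟩
    · simp only [card_product]; push_cast; simp only [card_box, card_mon, ← pow_add]
      exact le_of_eq (congrArg _ (by ring))
    have s₁ : ∀ a ∈ Q₁, a ∈ Q := fun a ha => (mem_filter.1 (hQ₁ ha)).1
    simp only [Prod.mk.injEq] at e₁
    refine step26 Q₁ gc (Q₁.image gc) (fun a ha => mem_image_of_mem _ ha)
      (hτ _ (mem_filter.1 (hQ₁ h₁)).2 ?_ _ fun d hd => ?_) (by positivity)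
      fun Q₂ hQ₂ a₂ h₂ e₂ => ?_
    · have b1 := (mem_mon.1 (hk a₁ (s₁ _ h₁)).2.2.1).2
      have b2 := (mem_mon.1 (hk a₁ (s₁ _ h₁)).2.2.2.1).2
      have b3 := nat_box26 (c4 a₁ (s₁ _ h₁))
      have b4 := nat_box26 (c5 a₁ (s₁ _ h₁))
      have b5 := wr_deg26 (k₁ a₁ * Y₂ a₁) (k₂ a₁ * Y₁ a₁)
      have b6 := natDegree_mul_le (p := k₁ a₁) (q := Y₂ a₁)
      have b7 := natDegree_mul_le (p := k₂ a₁) (q := Y₁ a₁)
      omega
    · obtain ⟨a, ha, rfl⟩ := mem_image.1 hd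
      obtain ⟨x1, x2, x3, x4, -⟩ := e₁ a ha
      refine ⟨c1 a (s₁ a ha), ?_⟩
      rw [← x1, ← x2, ← x3, ← x4]
      exact c8 a (s₁ a ha)
    have s₂ : ∀ a ∈ Q₂, a ∈ Q := fun a ha => s₁ a (hQ₂ ha)
    have t : ∀ a ∈ Q₂, ∀ b ∈ Q₂, k₁ a = k₁ b ∧ k₂ a = k₂ b ∧ Y₂ a = Y₂ b ∧ gc a = gc b ∧
        g a = g b := fun a ha b hb => by
      obtain ⟨x1, x2, -, x4, x5⟩ := e₁ a (hQ₂ ha)
      obtain ⟨y1, y2, -, y4, y5⟩ := e₁ b (hQ₂ hb)
      have z := (e₂ a ha).trans (e₂ b hb).symm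
      exact ⟨x1.trans y1.symm, x2.trans y2.symm, x4.trans y4.symm, z,
        by rw [c2 a (s₂ a ha), c2 b (s₂ b hb), z, x5, y5]⟩
    refine step26 Q₂ W₁ (L (g a₂) (k₁ a₂)) (fun a ha => ?_) (hL a₂ (s₂ _ h₂)).2 (by positivity)
      fun Q₃ hQ₃ a₃ h₃ e₃ => ?_
    · rw [← (t a ha a₂ h₂).1, ← (t a ha a₂ h₂).2.2.2.2]
      exact (hL a (s₂ a ha)).1
    refine step26 Q₃ P₁ (D (W₁ a₃)) (fun a ha => e₃ a ha ▸ (hD a (s₂ a (hQ₃ ha))).1)
      (hD a₃ (s₂ _ (hQ₃ h₃))).2.2.1 hM fun Q₄ hQ₄ a₄ h₄ e₄ => ?_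
    have u : ∀ a ∈ Q₄, W₂ a = W₂ a₄ := fun a ha => by
      obtain ⟨-, -, x3, x4, -⟩ := t a (hQ₃ (hQ₄ ha)) a₄ (hQ₃ (hQ₄ h₄))
      rw [c7 a (s₂ a (hQ₃ (hQ₄ ha))), c7 a₄ (s₂ _ (hQ₃ (hQ₄ h₄))), x3, x4, e₄ a ha]
    rw [← mul_one M]
    refine step26 Q₄ P₂ (D (W₂ a₄)) (fun a ha => u a ha ▸ (hD a (s₂ a (hQ₃ (hQ₄ ha)))).2.1)
      (hD a₄ (s₂ _ (hQ₃ (hQ₄ h₄)))).2.2.2 zero_le_one
      fun Q₅ hQ₅ a₅ h₅ e₅ => one26 Q₅ a₅ fun a ha => ?_
    have m1 := hQ₃ (hQ₄ (hQ₅ ha))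
    have m2 := hQ₃ (hQ₄ (hQ₅ h₅))
    obtain ⟨x1, x2, -, -, x5⟩ := t a m1 a₅ m2
    exact hinj a (s₂ a m1) a₅ (s₂ a₅ m2) x5 x1 x2
      ((e₃ a (hQ₄ (hQ₅ ha))).trans (e₃ a₅ (hQ₄ (hQ₅ h₅))).symm)
      ((u a (hQ₅ ha)).trans (u a₅ (hQ₅ h₅)).symm)
      ((e₄ a (hQ₅ ha)).trans (e₄ a₅ (hQ₅ h₅)).symm) (e₅ a ha)
  · rw [pow_add (qq k) (m + ka + z + l), show qq k ^ (m + ka + z + l) * qq k ^ (2 * y + 2) *
      (NL * M ^ 2) = qq k ^ (m + ka + z + l) * (NL * (M * (qq k ^ (2 * y + 2) * M))) by ring]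
    refine step26 _ (fun a => (g a, k₁ a, gs a, Y₂ a))
      (box k m ×ˢ mon k ka ×ˢ box k z ×ˢ box k l) (fun a ha => ?_) ?_
      (by positivity) fun Q₂ hQ₂ a₂ h₂ e₂ => ?_
    · have ha' := (mem_filter.1 ha).1
      simp only [mem_product]
      exact ⟨(hk a ha').1, (hk a ha').2.2.1, c3 a ha', c5 a ha'⟩
    · simp only [card_product]; push_cast; simp only [card_box, card_mon, ← pow_add]
      exact le_of_eq (congrArg _ (by ring))
    have s₂ : ∀ a ∈ Q₂, a ∈ Q := fun a ha => (mem_filter.1 (hQ₂ ha)).1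
    simp only [Prod.mk.injEq] at e₂
    have t : ∀ a ∈ Q₂, gc a = gc a₂ := fun a ha => by
      obtain ⟨x1, -, x3, -⟩ := e₂ a ha
      have z : gs a₂ ≠ 0 := fun z => (hk a₂ (s₂ _ h₂)).2.1 (by rw [c2 a₂ (s₂ _ h₂), z, mul_zero])
      exact mul_right_cancel₀ z (by rw [← c2 a₂ (s₂ _ h₂), ← x3, ← c2 a (s₂ a ha), x1])
    refine step26 Q₂ W₁ (L (g a₂) (k₁ a₂)) (fun a ha => ?_) (hL a₂ (s₂ _ h₂)).2 (by positivity)
      fun Q₃ hQ₃ a₃ h₃ e₃ => ?_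
    · rw [← (e₂ a ha).1, ← (e₂ a ha).2.1]
      exact (hL a (s₂ a ha)).1
    refine step26 Q₃ P₁ (D (W₁ a₃)) (fun a ha => e₃ a ha ▸ (hD a (s₂ a (hQ₃ ha))).1)
      (hD a₃ (s₂ _ (hQ₃ h₃))).2.2.1 (by positivity) fun Q₄ hQ₄ a₄ h₄ e₄ => ?_
    have s₄ : ∀ a ∈ Q₄, a ∈ Q₂ := fun a ha => hQ₃ (hQ₄ ha)
    have u : ∀ a ∈ Q₄, W₂ a = W₂ a₄ := fun a ha => by
      rw [c7 a (s₂ a (s₄ a ha)), c7 a₄ (s₂ _ (s₄ _ h₄)), t a (s₄ a ha), t a₄ (s₄ _ h₄), e₄ a ha,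
        (e₂ a (s₄ a ha)).2.2.2, (e₂ a₄ (s₄ _ h₄)).2.2.2]
    have w4 := (hk a₄ (s₂ _ (s₄ _ h₄))).2.2.2.2.1
    rw [c6 a₄ (s₂ _ (s₄ _ h₄))] at w4
    have v : ∀ a ∈ Q₄, Y₁ a = Y₁ a₄ := fun a ha =>
      mul_left_cancel₀ (left_ne_zero_of_mul w4) (by
        rw [← c6 a₄ (s₂ _ (s₄ _ h₄)), ← e₄ a ha, (t a₄ (s₄ _ h₄)).trans (t a (s₄ a ha)).symm,
          ← c6 a (s₂ a (s₄ a ha)), e₃ a (hQ₄ ha), e₃ a₄ (hQ₄ h₄)])
    have w : ∀ a ∈ Q₄, wronskian (k₁ a₂ * Y₂ a₂) (Y₁ a₄ * k₂ a) = 0 := fun a ha => by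
      rw [← (e₂ a (s₄ a ha)).2.1, ← (e₂ a (s₄ a ha)).2.2.2, ← v a ha, mul_comm (Y₁ a)]
      exact (mem_filter.1 (hQ₂ (s₄ a ha))).2
    have A0 : k₁ a₂ * Y₂ a₂ ≠ 0 := by
      have w5 := (hk a₂ (s₂ _ h₂)).2.2.2.2.2.1
      rw [c7 a₂ (s₂ _ h₂)] at w5
      exact mul_ne_zero (mem_mon.1 (hk a₂ (s₂ _ h₂)).2.2.1).1.ne_zero (right_ne_zero_of_mul w5)
    refine step26 Q₄ k₂ (Q₄.image k₂) (fun a ha => mem_image_of_mem _ ha)
      (wr0_26 y _ (fun d hd => ?_) fun d hd d' hd' => ?_) hM fun Q₅ hQ₅ a₅ h₅ e₅ => ?_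
    · obtain ⟨a, ha, rfl⟩ := mem_image.1 hd
      exact ⟨(mem_mon.1 (hk a (s₂ a (s₄ a ha))).2.2.2.1).1.ne_zero,
        (hk a (s₂ a (s₄ a ha))).2.2.2.2.2.2⟩
    · obtain ⟨a, ha, rfl⟩ := mem_image.1 hd
      obtain ⟨b, hb, rfl⟩ := mem_image.1 hd'
      have := wr_three26 (k₁ a₂ * Y₂ a₂) (Y₁ a₄ * k₂ a) (Y₁ a₄ * k₂ b)
      rw [w a ha, w b hb, mul_zero, mul_zero, sub_zero, wr_mul26] at this
      exact (mul_eq_zero.1 ((mul_eq_zero.1 this).resolve_left A0)).resolve_left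
        (pow_ne_zero 2 (right_ne_zero_of_mul w4))
    rw [← mul_one M]
    refine step26 Q₅ P₂ (D (W₂ a₄))
      (fun a ha => u a (hQ₅ ha) ▸ (hD a (s₂ a (s₄ a (hQ₅ ha)))).2.1)
      (hD a₄ (s₂ _ (s₄ _ h₄))).2.2.2 zero_le_one
      fun Q₆ hQ₆ a₆ h₆ e₆ => one26 Q₆ a₆ fun a ha => ?_
    have m1 := hQ₅ (hQ₆ ha)
    have m2 := hQ₅ (hQ₆ h₆)
    exact hinj a (s₂ a (s₄ a m1)) a₆ (s₂ a₆ (s₄ a₆ m2))
      ((e₂ a (s₄ a m1)).1.trans (e₂ a₆ (s₄ a₆ m2)).1.symm)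
      ((e₂ a (s₄ a m1)).2.1.trans (e₂ a₆ (s₄ a₆ m2)).2.1.symm)
      ((e₅ a (hQ₆ ha)).trans (e₅ a₆ (hQ₆ h₆)).symm)
      ((e₃ a (hQ₄ m1)).trans (e₃ a₆ (hQ₄ m2)).symm) ((u a m1).trans (u a₆ m2).symm)
      ((e₄ a m1).trans (e₄ a₆ m2).symm) (e₆ a ha)

/-- **DEG.** Tuples with a large monic common divisor of `k` and `W / gf`. -/
theorem deg26 {ι : Type*} (Q : Finset ι) (g kk W : ι → k[X]) (ka z NZ L : ℕ) {τ n : ℝ}
    (hτ0 : 0 ≤ τ) (hn : 0 ≤ n)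
    (hfib : ∀ Q' : Finset ι, Q' ⊆ Q → ∀ a₀ ∈ Q',
      (∀ a ∈ Q', g a = g a₀ ∧ kk a = kk a₀ ∧ W a = W a₀) → (#Q' : ℝ) ≤ n)
    (hτ : ∀ w : k[X], w ≠ 0 → w.natDegree ≤ z + ka + NZ → ∀ S : Finset k[X],
      (∀ d ∈ S, d.Monic ∧ d ∣ w) → (#S : ℝ) ≤ τ)
    (hex : ∀ a ∈ Q, kk a ∈ mon k ka ∧ ∃ gf gs Z p : k[X], gf.Monic ∧ g a = gf * gs ∧
      gs ∈ box k z ∧ W a = gf * Z ∧ Z ∈ box k NZ ∧ wronskian (gs * kk a) Z ≠ 0 ∧
      gf ∣ wronskian (gs * kk a) Z ∧ p.Monic ∧ L ≤ p.natDegree ∧ p ∣ kk a ∧ p ∣ Z) :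
    (#Q : ℝ) ≤ (ka + 1) * (qq k ^ (ka + z + (NZ - L)) * (τ * n)) := by
  have hq : 0 < qq k := by linarith [two_le_qq (k := k)]
  have hex' : ∀ a ∈ Q, ∃ gf gs p k' Z' : k[X], gf.Monic ∧ g a = gf * gs ∧ gs ∈ box k z ∧
      W a = gf * (p * Z') ∧ kk a = p * k' ∧ p.Monic ∧ p.natDegree ≤ ka ∧
      k' ∈ mon k (ka - p.natDegree) ∧ Z' ∈ box k (NZ - L) ∧
      wronskian (gs * (p * k')) (p * Z') ≠ 0 ∧ gf ∣ wronskian (gs * (p * k')) (p * Z') ∧
      (wronskian (gs * (p * k')) (p * Z')).natDegree ≤ z + ka + NZ := fun a ha => by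
    obtain ⟨hk, gf, gs, Z, p, c1, c2, c3, c4, c5, c6, c7, c8, c9, ⟨k', c10⟩, Z', c11⟩ := hex a ha
    obtain ⟨m1, m2⟩ := mem_mon.1 hk
    have m3 : k'.Monic := c8.of_mul_monic_left (c10 ▸ m1)
    have m4 : ka = p.natDegree + k'.natDegree := by rw [← m2, c10, c8.natDegree_mul m3]
    have Z0 : Z ≠ 0 := fun e => c6 (by rw [e, wronskian_zero_right])
    have Z1 : Z' ≠ 0 := fun e => Z0 (by rw [c11, e, mul_zero])
    have m5 : Z.natDegree < NZ := (natDegree_lt_iff_degree_lt Z0).2 (mem_box.1 c5)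
    have m6 : Z.natDegree = p.natDegree + Z'.natDegree := by
      rw [c11, natDegree_mul c8.ne_zero Z1]
    refine ⟨gf, gs, p, k', Z', c1, c2, c3, c11 ▸ c4, c10, c8, by omega,
      mem_mon.2 ⟨m3, by omega⟩, mem_box.2 ((natDegree_lt_iff_degree_lt Z1).1 (by omega)), ?_⟩
    rw [← c10, ← c11]
    have b1 := wr_deg26 (gs * kk a) Z
    have b2 := natDegree_mul_le (p := gs) (q := kk a)
    have b3 := nat_box26 c3
    exact ⟨c6, c7, by omega⟩
  choose! gf gs p k' Z' c1 c2 c3 c4 c5 c6 c7 c8 c9 c10 c11 c12 using hex'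
  refine step26 Q (fun a => (p a).natDegree) (range (ka + 1))
    (fun a ha => mem_range.2 (Nat.lt_succ_of_le (c7 a ha))) (by simp) (by positivity)
    fun Q₁ hQ₁ a₁ h₁ e₁ => ?_
  refine step26 Q₁ (fun a => (p a, k' a, gs a, Z' a))
    (mon k (p a₁).natDegree ×ˢ mon k (ka - (p a₁).natDegree) ×ˢ box k z ×ˢ box k (NZ - L))
    (fun a ha => ?_) ?_ (by positivity) fun Q₂ hQ₂ a₂ h₂ e₂ => ?_
  · simp only [mem_product]
    exact ⟨mem_mon.2 ⟨c6 a (hQ₁ ha), e₁ a ha⟩, e₁ a ha ▸ c8 a (hQ₁ ha), c3 a (hQ₁ ha),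
      c9 a (hQ₁ ha)⟩
  · simp only [card_product]; push_cast; simp only [card_box, card_mon, ← pow_add]
    have := c7 a₁ (hQ₁ h₁)
    exact le_of_eq (congrArg _ (by omega))
  simp only [Prod.mk.injEq] at e₂
  have s₂ : ∀ a ∈ Q₂, a ∈ Q := fun a ha => hQ₁ (hQ₂ ha)
  refine step26 Q₂ gf (Q₂.image gf) (fun a ha => mem_image_of_mem _ ha)
    (hτ _ (c10 a₂ (s₂ _ h₂)) (c12 a₂ (s₂ _ h₂)) _ fun d hd => ?_) hn
    fun Q₃ hQ₃ a₃ h₃ e₃ => hfib Q₃ (fun a ha => s₂ a (hQ₃ ha)) a₃ h₃ fun a ha => ?_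
  · obtain ⟨a, ha, rfl⟩ := mem_image.1 hd
    obtain ⟨x1, x2, x3, x4⟩ := e₂ a ha
    refine ⟨c1 a (s₂ a ha), ?_⟩
    rw [← x1, ← x2, ← x3, ← x4]
    exact c11 a (s₂ a ha)
  · obtain ⟨x1, x2, x3, x4⟩ := e₂ a (hQ₃ ha)
    obtain ⟨y1, y2, y3, y4⟩ := e₂ a₃ (hQ₃ h₃)
    have m1 := s₂ a (hQ₃ ha)
    have m2 := s₂ a₃ (hQ₃ h₃)
    rw [c2 a m1, c2 a₃ m2, c4 a m1, c4 a₃ m2, c5 a m1, c5 a₃ m2, e₃ a ha, x1, x2, x3, x4, y1, y2,
      y3, y4]
    exact ⟨rfl, rfl, rfl⟩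

/-- the keys, weighted by the inverse norm of the modulus -/
theorem keys26 (K : Finset (k[X] × k[X] × k[X])) (m : ℕ) {τ : ℝ} (hτ0 : 0 ≤ τ)
    (hτ : ∀ w : k[X], w ≠ 0 → w.natDegree ≤ m → ∀ S : Finset k[X],
      (∀ d ∈ S, d.Monic ∧ d ∣ w) → (#S : ℝ) ≤ τ)
    (hK : ∀ a ∈ K, a.1 ∈ box k m ∧ a.1 ≠ 0 ∧ a.2.1.Monic ∧ a.2.1 ∣ a.1 ∧
      a.2.2 ∈ box k a.2.1.natDegree) :
    ∑ a ∈ K, 1 / qq k ^ a.2.1.natDegree ≤ qq k ^ m * τ := by
  have hq : 0 < qq k := by linarith [two_le_qq (k := k)]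
  rw [← sum_fiberwise_of_maps_to (g := fun a : k[X] × k[X] × k[X] => (a.1, a.2.1))
    (t := K.image fun a => (a.1, a.2.1)) fun a ha => mem_image_of_mem _ ha]
  refine (sum_le_card_nsmul _ _ 1 fun x _ => ?_).trans ?_
  · rw [sum_congr rfl (g := fun _ => 1 / qq k ^ x.2.natDegree) fun a ha => by
      rw [← (mem_filter.1 ha).2], sum_const, nsmul_eq_mul, mul_one_div, div_le_one (by positivity),
      ← mul_one (qq k ^ _)]
    refine step26 _ (fun a => a.2.2) (box k x.2.natDegree) (fun a ha => ?_) (card_box _).le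
      zero_le_one fun Q' hQ a₀ h₀ e => one26 Q' a₀ fun a ha => ?_
    · rw [← (mem_filter.1 ha).2]
      exact (hK a (mem_filter.1 ha).1).2.2.2.2
    · obtain ⟨e1, e2⟩ := Prod.mk.inj ((mem_filter.1 (hQ ha)).2.trans (mem_filter.1 (hQ h₀)).2.symm)
      exact Prod.ext e1 (Prod.ext e2 (e a ha))
  · rw [nsmul_eq_mul, mul_one]
    refine step26 _ (fun x => x.1) (box k m) (fun x hx => ?_) (card_box _).le hτ0
      fun Q' hQ x₀ h₀ e => ?_
    · obtain ⟨a, ha, rfl⟩ := mem_image.1 hx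
      exact (hK a ha).1
    obtain ⟨a₀, ha₀, rfl⟩ := mem_image.1 (hQ h₀)
    rw [← mul_one τ]
    refine step26 Q' (fun x => x.2) (Q'.image fun x => x.2) (fun x hx => mem_image_of_mem _ hx)
      (hτ a₀.1 (hK a₀ ha₀).2.1 (nat_box26 (hK a₀ ha₀).1) _ fun d hd => ?_) zero_le_one
      fun Q₂ hQ₂ x₂ h₂ e₂ => one26 Q₂ x₂ fun x hx =>
        Prod.ext ((e x (hQ₂ hx)).trans (e x₂ (hQ₂ h₂)).symm) (e₂ x hx)
    obtain ⟨x, hx, rfl⟩ := mem_image.1 hd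
    obtain ⟨a, ha, rfl⟩ := mem_image.1 (hQ hx)
    exact ⟨(hK a ha).2.2.1, (show a.1 = a₀.1 from e _ hx) ▸ (hK a ha).2.2.2.1⟩

/-- pairs with the same key on two given lines, weighted by the norm of the modulus -/
theorem pairs26 [CharP k 3] {ι A : Type*} (Q : Finset ι) (x : ι → A) (ga E₁ E₂ h₁ h₂ : ι → k[X])
    (len m : ℕ) (hga : ∀ a ∈ Q, Squarefree (ga a) ∧ (ga a).natDegree ≤ m)
    (hx : ∀ a ∈ Q, ∀ b ∈ Q, x a = x b → ga a = ga b ∧
      (∃ s ∈ box k len, E₁ a = E₁ b + s ^ 3 * h₁ b) ∧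
      (E₁ a = E₁ b → ∃ s ∈ box k len, ga b ∣ s ^ 3 ∧ E₂ a = E₂ b + s ^ 3 * h₂ b))
    (hinj : ∀ a ∈ Q, ∀ b ∈ Q, x a = x b → E₁ a = E₁ b → E₂ a = E₂ b → a = b) :
    ∑ a ∈ Q, qq k ^ (ga a).natDegree ≤ #(Q.image x) * (qq k ^ len * qq k ^ max len m) := by
  have hq : 1 ≤ qq k := by linarith [two_le_qq (k := k)]
  rw [← sum_fiberwise_of_maps_to (g := x) (t := Q.image x) fun a ha => mem_image_of_mem _ ha,
    ← nsmul_eq_mul]
  refine sum_le_card_nsmul _ _ _ fun y hy => ?_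
  obtain ⟨b, hb, rfl⟩ := mem_image.1 hy
  rw [sum_congr rfl (g := fun _ => qq k ^ (ga b).natDegree) fun a ha => by
    rw [(hx a (mem_filter.1 ha).1 b hb (mem_filter.1 ha).2).1], sum_const, nsmul_eq_mul]
  have h1 : (#(Q.filter fun a => x a = x b) : ℝ) ≤ qq k ^ len *
      (#((box k len).filter (fun s => ga b ∣ s ^ 3 - 0)) : ℝ) := by
    refine step26 _ E₁ ((box k len).image fun s => E₁ b + s ^ 3 * h₁ b) (fun a ha => ?_) ?_
      (by positivity) fun Q₁ hQ₁ a₁ m₁ e₁ => ?_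
    · obtain ⟨s, hs, e⟩ := (hx a (mem_filter.1 ha).1 b hb (mem_filter.1 ha).2).2.1
      exact mem_image.2 ⟨s, hs, e.symm⟩
    · rw [← card_box]
      exact_mod_cast card_image_le
    have q₁ := mem_filter.1 (hQ₁ m₁)
    rw [← mul_one (#((box k len).filter (fun s => ga b ∣ s ^ 3 - 0)) : ℝ)]
    refine step26 _ E₂ (((box k len).filter (fun s => ga b ∣ s ^ 3 - 0)).image
      fun s => E₂ a₁ + s ^ 3 * h₂ a₁) (fun a ha => ?_) (by exact_mod_cast card_image_le)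
      zero_le_one fun Q₂ hQ₂ a₂ m₂ e₂ => one26 Q₂ a₂ fun a ha => ?_
    · have q := mem_filter.1 (hQ₁ ha)
      obtain ⟨s, hs, e, e'⟩ := (hx a q.1 a₁ q₁.1 (q.2.trans q₁.2.symm)).2.2 (e₁ a ha)
      refine mem_image.2 ⟨s, mem_filter.2 ⟨hs, ?_⟩, e'.symm⟩
      rwa [sub_zero, ← (hx a₁ q₁.1 b hb q₁.2).1]
    · have q := mem_filter.1 (hQ₁ (hQ₂ ha))
      have q₂ := mem_filter.1 (hQ₁ (hQ₂ m₂))
      exact hinj a q.1 a₂ q₂.1 (q.2.trans q₂.2.symm)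
        ((e₁ a (hQ₂ ha)).trans (e₁ a₂ (hQ₂ m₂)).symm) (e₂ a ha)
  have h2 := (cube26 (hga b hb).1 len 0).trans
    (pow_le_pow_right₀ hq (max_le_max le_rfl (hga b hb).2))
  calc _ ≤ qq k ^ len * (#((box k len).filter (fun s => ga b ∣ s ^ 3 - 0)) : ℝ) *
        qq k ^ (ga b).natDegree := mul_le_mul_of_nonneg_right h1 (by positivity)
    _ ≤ _ := by
      rw [mul_assoc, mul_comm _ (qq k ^ (ga b).natDegree)]
      exact mul_le_mul_of_nonneg_left h2 (by positivity)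

end Cnt26
end H18M

end
end

-- part H18M.Line26
section

/-! h18m row LINE (helper26): the Moebius function against the weight of the directions. -/

set_option autoImplicit false
open Polynomial Finset
open scoped Classical BigOperators

noncomputable section
namespace H18M
open CL5 Pool.Agent.H48P Pool.Agent.MP_d0fd9b_nt.M18

section A26
variable {k : Type} [Field k] [Fintype k]

/-- the Moebius function in the wording of `form_box` -/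
def mu26 (f : k[X]) : ℝ :=
  if Squarefree f then (-1 : ℝ) ^ (UniqueFactorizationMonoid.factors f).card else 0

omit [Fintype k] in
theorem abs_mu26 (f : k[X]) : |mu26 f| ≤ 1 := by
  unfold mu26
  split_ifs <;> simp

omit [Fintype k] in
theorem d0_eq26 {d d' E E' h h' s : k[X]} (hd : d.Monic) (hd' : d'.Monic) (hc : IsCoprime h E)
    (hc' : IsCoprime h' E') (e1 : d' * h' = d * h) (e2 : d' * E' = d * E + s * (d * h)) :
    d' = d := by
  obtain ⟨u, v, huv⟩ := hc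
  obtain ⟨u', v', huv'⟩ := hc'
  refine eq_of_monic_of_associated hd' hd (associated_of_dvd_dvd
    ⟨u * h' + v * (E' - s * h'), ?_⟩ ⟨u' * h + v' * (E + s * h), ?_⟩)
  · linear_combination (-d) * huv - (u - v * s) * e1 - v * e2
  · linear_combination (-d') * huv' + u' * e1 + v' * e2

variable [CharP k 3]

theorem dec26 {gf Pi E h : k[X]} {la : ℕ} (hgf : gf.Monic) (hs : Squarefree gf) (hPi : Pi.Monic)
    (hE : E.Monic) (hh : h ≠ 0) (hW : wronskian E h ≠ 0) (hd : gf * Pi ∣ wronskian E h)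
    (hl : 3 * (la - 1) + h.natDegree < E.natDegree) :
    ∃ (d0 E1 h1 Z0 ga rr : k[X]) (w : k) (c : ℝ), d0.Monic ∧ E = d0 * E1 ∧ h = d0 * h1 ∧
      IsCoprime h1 E1 ∧ Z0.Monic ∧ w ≠ 0 ∧ wronskian E h = C w * (gf * Pi * Z0) ∧ ga.Monic ∧
      ga ∣ gf ∧ IsCoprime ga h1 ∧ rr ∈ box k ga.natDegree ∧ ga ∣ E1 - rr * h1 ∧ |c| ≤ 1 ∧
      ∀ s ∈ box k la, mu26 (E + s ^ 3 * h) =
        c * (jac ga (rr + s ^ 3) * jac (Pi * Z0) (E1 + s ^ 3 * h1)) := by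
  obtain ⟨Z, hZ⟩ := hd
  have Z0 : Z ≠ 0 := fun e => hW (by rw [hZ, e, mul_zero])
  have w0 : Z.leadingCoeff ≠ 0 := leadingCoeff_ne_zero.2 Z0
  have hZm : (Z * C Z.leadingCoeff⁻¹).Monic := monic_mul_leadingCoeff_inv Z0
  obtain ⟨Zm, hZm'⟩ : ∃ Zm, Zm = Z * C Z.leadingCoeff⁻¹ := ⟨_, rfl⟩
  rw [← hZm'] at hZm
  have hW' : wronskian E h = C Z.leadingCoeff * (gf * Pi * Zm) := by
    rw [hZ, hZm']
    have : C Z.leadingCoeff * C Z.leadingCoeff⁻¹ = (1 : k[X]) := by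
      rw [← C_mul, mul_inv_cancel₀ w0, C_1]
    linear_combination (-(gf * Pi * Z)) * this
  obtain ⟨d0, E1, h1, a1, -, a3, a4, a5, -, c, a6, a7⟩ := form_box 3 (by norm_num) hE hh w0
    ((hgf.mul hPi).mul hZm) hW' hl
  obtain ⟨ga, hga⟩ := gcd_dvd_left gf h1
  have hb : (gcd gf h1).Monic := by
    rw [← _root_.normalize_gcd]; exact monic_normalize (gcd_ne_zero_of_left hgf.ne_zero)
  have hb2 := gcd_dvd_right gf h1
  have hb3 : ∀ p : k[X], p ∣ gf → p ∣ h1 → p ∣ gcd gf h1 := fun p => dvd_gcd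
  obtain ⟨gb, hgb⟩ : ∃ gb, gb = gcd gf h1 := ⟨_, rfl⟩
  rw [← hgb] at hga hb hb2 hb3
  have hm : ga.Monic := hb.of_mul_monic_left (hga ▸ hgf)
  have hco : IsCoprime ga h1 := by
    refine isCoprime_of_irreducible_dvd (fun e => hm.ne_zero e.1) fun p hp h1' h2' => ?_
    have : p * p ∣ gf := by
      rw [hga]
      exact mul_dvd_mul (hb3 p (hga ▸ h1'.mul_left gb) h2') h1'
    exact hp.not_isUnit (hs p this)
  obtain ⟨u, v, huv⟩ := hco
  have hr : ga ∣ E1 - (E1 * v) %ₘ ga * h1 :=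
    ⟨E1 * u + (E1 * v) /ₘ ga * h1, by
      linear_combination (-E1) * huv - h1 * modByMonic_add_div (E1 * v) ga⟩
  refine ⟨d0, E1, h1, Zm, ga, (E1 * v) %ₘ ga, Z.leadingCoeff, c * jac gb E1 * jac ga h1, a1, a3,
    a4, a5, hZm, w0, hW', hm, ⟨gb, by rw [hga, mul_comm]⟩, ⟨u, v, huv⟩,
    mem_box.2 (by rw [← degree_eq_natDegree hm.ne_zero]; exact degree_modByMonic_lt _ hm), hr,
    ?_, fun s hs' => ?_⟩
  · rw [abs_mul, abs_mul]
    exact mul_le_one₀ (mul_le_one₀ a6 (abs_nonneg _) (abs_jac_le _ _)) (abs_nonneg _)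
      (abs_jac_le _ _)
  · have e1 : jac gb (E1 + s ^ 3 * h1) = jac gb E1 :=
      jac_congr hb (by rw [add_sub_cancel_left]; exact hb2.mul_left _)
    have e2 : jac ga (E1 + s ^ 3 * h1) = jac ga h1 * jac ga ((E1 * v) %ₘ ga + s ^ 3) := by
      rw [← jac_mul_right hm]
      exact jac_congr hm (by
        rw [show E1 + s ^ 3 * h1 - h1 * ((E1 * v) %ₘ ga + s ^ 3) = E1 - (E1 * v) %ₘ ga * h1 by ring]
        exact hr)
    unfold mu26
    rw [a7 s (mem_box.1 hs'), mul_assoc gf, jac_mul_left hgf (hPi.mul hZm), hga,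
      jac_mul_left hb hm, e1, e2]
    ring

/-- two tuples that are not a bad pair are uncorrelated on the line -/
theorem pair26 {I : Type} [Fintype I] (P P' : I → k[X]) (Z Z' f f' y y' : k[X]) (i₀ : I)
    {la T h0 L : ℕ} {β : ℝ} (hβ0 : 0 ≤ β) (hP : ∀ i, (P i).Monic ∧ (P i).natDegree ≤ T)
    (hP' : ∀ i, (P' i).Monic ∧ (P' i).natDegree ≤ T) (hZ : Z.Monic ∧ Z.natDegree ≤ T)
    (hZ' : Z'.Monic ∧ Z'.natDegree ≤ T) (hi : Irreducible (P i₀)) (hL : L ≤ (P i₀).natDegree)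
    (n1 : ∀ i, i ≠ i₀ → ¬ P i₀ ∣ P i) (n2 : ¬ P i₀ ∣ Z) (n3 : ¬ P i₀ ∣ (∏ i, P' i) * Z')
    (n4 : ¬ P i₀ ∣ y) (hN : T + h0 ≤ la) (h1 : h0 ≤ L)
    (hβ : 5 * 2 ^ (2 * Fintype.card I + 2) / √(qq k ^ L) + 2 ^ (2 * Fintype.card I + 2) / qq k ^ h0
      ≤ β ^ 2 ^ (2 * Fintype.card I + 2)) :
    |𝔼 s ∈ box k la, jac ((∏ i, P i) * Z) (f + s ^ 3 * y) *
      jac ((∏ i, P' i) * Z') (f' + s ^ 3 * y')| ≤ β := by
  have hq : 1 ≤ qq k := by linarith [two_le_qq (k := k)]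
  let Cs : (I ⊕ I) ⊕ Bool → k[X] := Sum.elim (Sum.elim (fun i => if i = i₀ then 1 else P i) P')
    (fun b => if b then Z else Z')
  let F : (I ⊕ I) ⊕ Bool → k[X] → ℝ := fun j s => jac (Cs j)
    (Sum.elim (Sum.elim (fun _ => f + s ^ 3 * y) (fun _ => f' + s ^ 3 * y'))
      (fun b => if b then f + s ^ 3 * y else f' + s ^ 3 * y') j)
  have hc : Fintype.card ((I ⊕ I) ⊕ Bool) = 2 * Fintype.card I + 2 := by
    simp only [Fintype.card_sum, Fintype.card_bool]; ring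
  let ε := (Fintype.equivFinOfCardEq hc).symm
  have m : ∀ j, (Cs j).Monic ∧ (Cs j).natDegree ≤ T ∧ ¬ P i₀ ∣ Cs j := by
    rintro ((i | i) | b)
    · simp only [Cs, Sum.elim_inl]
      split_ifs with e
      · exact ⟨monic_one, by simp, fun e => hi.not_isUnit (isUnit_of_dvd_one e)⟩
      · exact ⟨(hP i).1, (hP i).2, n1 i e⟩
    · simp only [Cs, Sum.elim_inl, Sum.elim_inr]
      exact ⟨(hP' i).1, (hP' i).2, fun e =>
        n3 ((e.trans (dvd_prod_of_mem P' (mem_univ i))).mul_right _)⟩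
    · cases b
      · simp only [Cs, Sum.elim_inr, Bool.false_eq_true, if_false]
        exact ⟨hZ'.1, hZ'.2, fun e => n3 (Dvd.dvd.mul_left e _)⟩
      · simp only [Cs, Sum.elim_inr, if_true]
        exact ⟨hZ.1, hZ.2, n2⟩
  have per : ∀ (c g yy s t : k[X]), c.Monic →
      jac c (g + (s + c * t) ^ 3 * yy) = jac c (g + s ^ 3 * yy) := fun c g yy s t hm =>
    jac_congr hm ⟨t * (3 * s ^ 2 + 3 * s * (c * t) + (c * t) ^ 2) * yy, by ring⟩
  have key := gr 3 (by norm_num) (hP i₀).1 hi n4 f (fun j => Cs (ε j)) (fun j => (m _).2.2)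
    (fun j => (m _).2.1) (fun j => F (ε j)) (fun j s => abs_jac_le _ _) (fun j s t => by
      obtain ⟨x, hx⟩ : ∃ x, x = ε j := ⟨_, rfl⟩
      have := (m x).1
      simp only [← hx]
      rcases x with (i | i) | b
      · simp only [F, Sum.elim_inl]; exact per _ _ _ _ _ this
      · simp only [F, Sum.elim_inl, Sum.elim_inr]; exact per _ _ _ _ _ this
      · cases b
        · simp only [F, Sum.elim_inr, Bool.false_eq_true, if_false]; exact per _ _ _ _ _ this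
        · simp only [F, Sum.elim_inr, if_true]; exact per _ _ _ _ _ this) hN (h1.trans hL)
    ((hP i₀).2.trans (by omega)) (Ω := box k la) fun s => mem_box
  have e : ∀ s : k[X], jac ((∏ i, P i) * Z) (f + s ^ 3 * y) *
      jac ((∏ i, P' i) * Z') (f' + s ^ 3 * y') = jac (P i₀) (f + y * s ^ 3) * ∏ j, F (ε j) s := by
    intro s
    rw [ε.prod_comp (fun j => F j s), Fintype.prod_sum_type, Fintype.prod_sum_type,
      Fintype.prod_bool, jac_mul_left (monic_prod_of_monic _ _ fun i _ => (hP i).1) hZ.1,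
      jac_mul_left (monic_prod_of_monic _ _ fun i _ => (hP' i).1) hZ'.1,
      Pool.Agent.H4O.jac_prod_left _ _ (fun i => (hP i).1), Pool.Agent.H4O.jac_prod_left _ _ (fun i => (hP' i).1),
      ← mul_prod_erase _ _ (mem_univ i₀), ← mul_prod_erase _ (fun i => F (.inl (.inl i)) s)
        (mem_univ i₀), mul_comm y]
    have e1 : F (.inl (.inl i₀)) s = 1 := by simp [F, Cs, jac_one_left]
    have e2 : ∏ i ∈ univ.erase i₀, F (.inl (.inl i)) s =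
        ∏ i ∈ univ.erase i₀, jac (P i) (f + s ^ 3 * y) :=
      prod_congr rfl fun i hi => by simp [F, Cs, (mem_erase.1 hi).1]
    rw [e1, e2]
    simp only [F, Cs, Sum.elim_inl, Sum.elim_inr, if_true, Bool.false_eq_true, if_false]
    ring
  simp only [e]
  refine (pow_le_pow_iff_left₀ (abs_nonneg _) hβ0 (pow_pos two_pos _).ne').1
    (key.trans (le_trans (add_le_add ?_ le_rfl) hβ))
  exact div_le_div_of_nonneg_left (by positivity) (Real.sqrt_pos.2 (by positivity))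
    (Real.sqrt_le_sqrt (pow_le_pow_right₀ hq hL))

end A26

section B26
variable {k : Type} [Field k] [Fintype k]

omit [Fintype k] in
theorem split26 {gf : k[X]} (hgf : gf.Monic) (hs : Squarefree gf) (h : k[X]) :
    ∃ gb ga : k[X], gb.Monic ∧ gf = gb * ga ∧ gb ∣ h ∧ IsCoprime ga h := by
  obtain ⟨ga, hga⟩ := gcd_dvd_left gf h
  have hb : (gcd gf h).Monic := by
    rw [← _root_.normalize_gcd]; exact monic_normalize (gcd_ne_zero_of_left hgf.ne_zero)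
  refine ⟨gcd gf h, ga, hb, hga, gcd_dvd_right gf h, isCoprime_of_irreducible_dvd
    (fun e => hgf.ne_zero (by rw [hga, e.1, mul_zero])) fun p hp h1 h2 => ?_⟩
  have : p * p ∣ gf := by
    have h3 : p ∣ gcd gf h := dvd_gcd (by rw [hga]; exact h1.mul_left _) h2
    rw [hga]
    exact mul_dvd_mul h3 h1
  exact hp.not_isUnit (hs p this)

/-- the monic divisors -/
def dv26 (w : k[X]) : Finset k[X] := (box k (w.natDegree + 1)).filter (fun d => d.Monic ∧ d ∣ w)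

theorem mem_dv26 {w d : k[X]} (hw : w ≠ 0) (hd : d.Monic) (h : d ∣ w) : d ∈ dv26 w :=
  mem_filter.2 ⟨box_nat26 (natDegree_le_of_dvd h hw), hd, h⟩

theorem box_lt26 {N : ℕ} {a : k[X]} (h : a.natDegree < N) : a ∈ box k N :=
  mem_box.2 (degree_le_natDegree.trans_lt (by exact_mod_cast h))

theorem cau26' {τ κ σ : Type*} (T : Finset τ) (Ω : Finset σ) (hΩ : Ω.Nonempty) (key : τ → κ)
    (wt : κ → ℝ) (hwt : ∀ t ∈ T, 0 < wt (key t))
    (J : κ → σ → ℝ) (hJ : ∀ a, ∀ s ∈ Ω, |J a s| ≤ 1) (Φ : τ → σ → ℝ)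
    (hΦ : ∀ t ∈ T, ∀ s ∈ Ω, |Φ t s| ≤ 1)
    (c : τ → ℝ) (hc : ∀ t ∈ T, |c t| ≤ 1) (bad : τ → τ → Prop) {β A B : ℝ} (hβ : 0 ≤ β)
    (hg : ∀ t₁ ∈ T, ∀ t₂ ∈ T, key t₁ = key t₂ → ¬ bad t₁ t₂ →
      |𝔼 s ∈ Ω, Φ t₁ s * Φ t₂ s| ≤ β)
    (hA : ∀ K : Finset κ, (∀ a ∈ K, ∃ t ∈ T, key t = a) → ∑ a ∈ K, 1 / wt a ≤ A)
    (hB : ∀ Q : Finset (τ × τ),
      (∀ p ∈ Q, p.1 ∈ T ∧ p.2 ∈ T ∧ key p.1 = key p.2 ∧ bad p.1 p.2) →
      ∑ p ∈ Q, wt (key p.1) ≤ B) :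
    |∑ t ∈ T, c t * 𝔼 s ∈ Ω, J (key t) s * Φ t s| ≤ √A * √B + √β * #T :=
  (cau26 T Ω hΩ key wt hwt J hJ Φ hΦ c hc bad hβ hg).trans (add_le_add (mul_le_mul
    (Real.sqrt_le_sqrt (hA _ fun _ ha => mem_image.1 ha))
    (Real.sqrt_le_sqrt (hB _ fun _ hp => ⟨(mem_product.1 (mem_filter.1 hp).1).1,
      (mem_product.1 (mem_filter.1 hp).1).2, (mem_filter.1 hp).2⟩))
    (Real.sqrt_nonneg _) (Real.sqrt_nonneg _)) le_rfl)

variable [CharP k 3]

theorem pairs26' {ι A : Type*} (Q : Finset ι) (x : ι → A) (ga E₁ E₂ h₁ h₂ : ι → k[X])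
    (len m : ℕ) {b : ℝ} (hga : ∀ a ∈ Q, Squarefree (ga a) ∧ (ga a).natDegree ≤ m)
    (hx : ∀ a ∈ Q, ∀ b ∈ Q, x a = x b → ga a = ga b ∧
      (∃ s ∈ box k len, E₁ a = E₁ b + s ^ 3 * h₁ b) ∧
      (E₁ a = E₁ b → ∃ s ∈ box k len, ga b ∣ s ^ 3 ∧ E₂ a = E₂ b + s ^ 3 * h₂ b))
    (hinj : ∀ a ∈ Q, ∀ b ∈ Q, x a = x b → E₁ a = E₁ b → E₂ a = E₂ b → a = b)
    (hb : ∀ R : Finset A, (∀ r ∈ R, ∃ a ∈ Q, x a = r) → (#R : ℝ) ≤ b) :
    ∑ a ∈ Q, qq k ^ (ga a).natDegree ≤ b * (qq k ^ len * qq k ^ max len m) := by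
  have hq : 0 < qq k := by linarith [two_le_qq (k := k)]
  exact (pairs26 Q x ga E₁ E₂ h₁ h₂ len m hga hx hinj).trans
    (mul_le_mul_of_nonneg_right (hb _ fun _ hr => mem_image.1 hr) (by positivity))

theorem line_core26 {ι I : Type} [Fintype I] (T : Finset ι) (g kk E h gf gs : ι → k[X])
    (P : ι → I → k[X]) (sh : k[X] → ι → ι) (c : k[X] → k[X] → ℝ)
    (Ln : k[X] → k[X] → Finset k[X]) (e : I → ℕ) (m ka ν y z la len NW l Tm h0 L N : ℕ)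
    {τ β NL : ℝ} (hc : ∀ a b, |c a b| ≤ 1) (hτ0 : 0 ≤ τ) (hβ0 : 0 ≤ β) (hNL : 0 ≤ NL)
    (hτ : ∀ w : k[X], w ≠ 0 → w.natDegree ≤ N → ∀ S : Finset k[X],
      (∀ d ∈ S, d.Monic ∧ d ∣ w) → (#S : ℝ) ≤ τ)
    (hN1 : m ≤ N) (hN2 : NW ≤ N) (hN3 : 2 * ka + 2 * l ≤ N) (hN4 : z + ka + (∑ i, e i + l) ≤ N)
    (he : Function.Injective e) (heL : ∀ i, L ≤ e i ∧ e i ≤ Tm) (hl : l ≤ L) (hlT : l ≤ Tm)
    (hla : Tm + h0 ≤ la) (hh0 : h0 ≤ L)
    (hβ : 5 * 2 ^ (2 * Fintype.card I + 2) / √(qq k ^ L) + 2 ^ (2 * Fintype.card I + 2) / qq k ^ h0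
      ≤ β ^ 2 ^ (2 * Fintype.card I + 2))
    (hinj : ∀ t ∈ T, ∀ t' ∈ T, g t = g t' → kk t = kk t' → h t = h t' → P t = P t' →
      E t = E t' → t = t')
    (H1 : ∀ t ∈ T, g t ∈ box k m ∧ kk t ∈ mon k ka ∧
      (∀ d : k[X], d ^ 2 ∣ kk t → d.natDegree ≤ y) ∧ (gf t).Monic ∧ Squarefree (gf t) ∧
      g t = gf t * gs t ∧ IsCoprime (gf t) (gs t * kk t) ∧ gs t ∈ box k z ∧ gs t ≠ 0 ∧
      NW + 2 * z ≤ (g t).natDegree + ∑ i, e i + l)
    (H2 : ∀ t ∈ T, E t ∈ mon k ν ∧ h t ≠ 0 ∧ 3 * (la - 1) + (h t).natDegree < ν ∧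
      ν + (h t).natDegree ≤ NW ∧
      wronskian (g t * kk t) (wronskian (E t) (h t)) = g t ^ 3 * h t)
    (H3 : ∀ t ∈ T, (∀ i, (P t i).Monic ∧ Irreducible (P t i) ∧ (P t i).natDegree = e i ∧
      ¬ P t i ∣ g t) ∧ ∏ i, P t i ∣ wronskian (E t) (h t))
    (H4 : ∀ t ∈ T, ∀ t' ∈ T, g t = g t' → kk t = kk t' → h t = h t' →
      wronskian (E t) (h t) = wronskian (E t') (h t') →
      ∃ s ∈ box k len, E t = E t' + s ^ 3 * h t')
    (H5 : ∀ t ∈ T, ∀ s ∈ box k la, sh s t ∈ T ∧ g (sh s t) = g t ∧ kk (sh s t) = kk t ∧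
      h (sh s t) = h t ∧ P (sh s t) = P t ∧ E (sh s t) = E t + s ^ 3 * h t)
    (H6 : ∀ t ∈ T, wronskian (E t) (h t) ∈ Ln (g t) (kk t) ∧ (#(Ln (g t) (kk t)) : ℝ) ≤ NL) :
    |∑ t ∈ T, c (g t) (kk t) * mu26 (E t)| ≤
      (ka + 1) * (qq k ^ (ka + z + (∑ i, e i + l - L)) *
        (τ * (qq k ^ len * τ ^ Fintype.card I))) +
      (√(qq k ^ m * τ) *
        √((qq k ^ (2 * ka + 2 * l + 2 * z) * τ + qq k ^ (m + ka + 2 * z + l + (2 * y + 2))) *
          (NL * (τ ^ Fintype.card I * τ) ^ 2) * (qq k ^ len * qq k ^ max len m)) +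
      √β * #T) := by
  have hq : 0 < qq k := by linarith [two_le_qq (k := k)]
  obtain ⟨W, hW⟩ : ∃ W : ι → k[X], ∀ t, wronskian (E t) (h t) = W t := ⟨_, fun _ => rfl⟩
  simp only [hW] at H2 H3 H4 H6
  have g0 : ∀ t ∈ T, g t ≠ 0 := fun t ht => by
    obtain ⟨-, -, -, a4, -, a6, -, -, a9, -⟩ := H1 t ht
    rw [a6]; exact mul_ne_zero a4.ne_zero a9
  have R0 : ∀ t ∈ T, wronskian (g t * kk t) (W t) ≠ 0 := fun t ht => by
    rw [(H2 t ht).2.2.2.2]; exact mul_ne_zero (pow_ne_zero 3 (g0 t ht)) (H2 t ht).2.1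
  have W0 : ∀ t ∈ T, W t ≠ 0 := fun t ht e => R0 t ht (by rw [e, wronskian_zero_right])
  have Wd : ∀ t ∈ T, (W t).natDegree < NW := fun t ht => by
    have b1 := natDegree_wronskian_lt_add (a := E t) (b := h t) (by rw [hW]; exact W0 t ht)
    have b2 := (mem_mon.1 (H2 t ht).1).2
    have b3 := (H2 t ht).2.2.2.1
    rw [hW] at b1
    omega
  have dv : ∀ t ∈ T, g t ^ 3 ∣ wronskian (g t * kk t) (W t) := fun t ht =>
    ⟨_, (H2 t ht).2.2.2.2⟩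
  have gfW : ∀ t ∈ T, gf t ∣ W t := fun t ht => by
    obtain ⟨-, -, -, -, a5, a6, a7, -⟩ := H1 t ht
    exact gf_dvd26 a6 a5 a7 (dv t ht)
  have cop : ∀ t ∈ T, IsCoprime (g t) (∏ i, P t i) := fun t ht =>
    IsCoprime.prod_right fun i _ =>
      (((H3 t ht).1 i).2.1.coprime_iff_not_dvd.2 ((H3 t ht).1 i).2.2.2).symm
  have Pm : ∀ t ∈ T, (∏ i, P t i).Monic := fun t ht =>
    monic_prod_of_monic _ _ fun i _ => ((H3 t ht).1 i).1
  have Pd : ∀ t ∈ T, (∏ i, P t i).natDegree = ∑ i, e i := fun t ht => by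
    rw [natDegree_prod_of_monic _ _ fun i _ => ((H3 t ht).1 i).1]
    exact sum_congr rfl fun i _ => ((H3 t ht).1 i).2.2.1
  have Pn : ∀ t ∈ T, ∀ i j, j ≠ i → ¬ P t i ∣ P t j := fun t ht i j hij hd => by
    have := natDegree_eq_of_degree_eq (degree_eq_degree_of_associated
      (((H3 t ht).1 i).2.1.associated_of_dvd ((H3 t ht).1 j).2.1 hd))
    rw [((H3 t ht).1 i).2.2.1, ((H3 t ht).1 j).2.2.1] at this
    exact hij (he this).symm
  have gd : ∀ t ∈ T, (g t).natDegree = (gf t).natDegree + (gs t).natDegree := fun t ht => by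
    obtain ⟨-, -, -, a4, -, a6, -, -, a9, -⟩ := H1 t ht
    rw [a6, natDegree_mul a4.ne_zero a9]
  have gz : ∀ t ∈ T, (gs t).natDegree < z := fun t ht => by
    obtain ⟨-, -, -, -, -, -, -, a8, a9, -⟩ := H1 t ht
    exact (natDegree_lt_iff_degree_lt a9).2 (mem_box.1 a8)
  have heq : ∀ t ∈ T, ∀ t' ∈ T, g t = g t' → kk t = kk t' → W t = W t' → h t = h t' :=
    fun t ht t' ht' e1 e2 e3 => mul_left_cancel₀ (pow_ne_zero 3 (g0 t ht)) (by
      rw [← (H2 t ht).2.2.2.2, e1, e2, e3, (H2 t' ht').2.2.2.2])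
  have cdv : ∀ t ∈ T, (#(dv26 (W t)) : ℝ) ≤ τ := fun t ht =>
    hτ _ (W0 t ht) ((Wd t ht).le.trans hN2) _ fun d hd => (mem_filter.1 hd).2
  have cpi : ∀ t ∈ T, (#(Fintype.piFinset fun _ : I => dv26 (W t)) : ℝ) ≤ τ ^ Fintype.card I :=
    fun t ht => by
      rw [Fintype.card_piFinset, prod_const, card_univ, Nat.cast_pow]
      exact pow_le_pow_left₀ (Nat.cast_nonneg _) (cdv t ht) _
  have mpi : ∀ t ∈ T, P t ∈ Fintype.piFinset fun _ : I => dv26 (W t) := fun t ht =>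
    Fintype.mem_piFinset.2 fun i => mem_dv26 (W0 t ht) ((H3 t ht).1 i).1
      ((dvd_prod_of_mem _ (mem_univ i)).trans (H3 t ht).2)
  rw [← sum_filter_add_sum_filter_not T (fun t => ∃ i, P t i ∣ kk t)]
  refine (abs_add_le _ _).trans (add_le_add ?_ ?_)
  · refine (abs_sum_le_sum_abs _ _).trans ((sum_le_card_nsmul _ _ 1 fun t _ => ?_).trans ?_)
    · rw [abs_mul]; exact mul_le_one₀ (hc _ _) (abs_nonneg _) (abs_mu26 _)
    rw [nsmul_eq_mul, mul_one]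
    refine deg26 _ g kk W ka z (∑ i, e i + l) L hτ0 (by positivity)
      (fun Q hQ a₀ h₀ e₀ => ?_) (fun w hw hd => hτ w hw (hd.trans hN4)) fun t ht => ?_
    · have s : ∀ a ∈ Q, a ∈ T := fun a ha => (mem_filter.1 (hQ ha)).1
      have hh : ∀ a ∈ Q, h a = h a₀ := fun a ha =>
        heq a (s a ha) a₀ (s _ h₀) (e₀ a ha).1 (e₀ a ha).2.1 (e₀ a ha).2.2
      refine step26 Q E ((box k len).image fun s => E a₀ + s ^ 3 * h a₀) (fun a ha => ?_) ?_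
        (by positivity) fun Q₁ hQ₁ a₁ h₁ e₁ => ?_
      · obtain ⟨u, hu, eu⟩ := H4 a (s a ha) a₀ (s _ h₀) (e₀ a ha).1 (e₀ a ha).2.1 (hh a ha)
          (e₀ a ha).2.2
        exact mem_image.2 ⟨u, hu, eu.symm⟩
      · rw [← card_box]
        exact_mod_cast card_image_le
      rw [← mul_one (τ ^ _)]
      refine step26 Q₁ P _ (fun a ha => (e₀ a (hQ₁ ha)).2.2 ▸ mpi a (s a (hQ₁ ha)))
        (cpi a₀ (s _ h₀)) zero_le_one fun Q₂ hQ₂ a₂ h₂ e₂ => one26 Q₂ a₂ fun a ha => ?_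
      have m1 := hQ₁ (hQ₂ ha)
      have m2 := hQ₁ (hQ₂ h₂)
      exact hinj a (s a m1) a₂ (s a₂ m2) ((e₀ a m1).1.trans (e₀ a₂ m2).1.symm)
        ((e₀ a m1).2.1.trans (e₀ a₂ m2).2.1.symm) ((hh a m1).trans (hh a₂ m2).symm) (e₂ a ha)
        ((e₁ a (hQ₂ ha)).trans (e₁ a₂ (hQ₂ h₂)).symm)
    · obtain ⟨ht, i, hi⟩ := mem_filter.1 ht
      obtain ⟨Z, hZ⟩ := gfW t ht
      obtain ⟨-, a2, -, a4, -, a6, -, a8, -, a10⟩ := H1 t ht
      obtain ⟨p1, p2, p3, p4⟩ := (H3 t ht).1 i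
      have Z0 : Z ≠ 0 := fun e => W0 t ht (by rw [hZ, e, mul_zero])
      have b1 : (W t).natDegree = (gf t).natDegree + Z.natDegree := by
        rw [hZ, natDegree_mul a4.ne_zero Z0]
      have b2 := Wd t ht
      have b3 := gd t ht
      have b4 := gz t ht
      refine ⟨a2, gf t, gs t, Z, P t i, a4, a6, a8, hZ, box_lt26 (by omega),
        wr_red_ne26 a6 (hZ ▸ R0 t ht), wr_red26 a6 a4.ne_zero (hZ ▸ dv t ht), p1,
        p3 ▸ (heL i).1, hi, ?_⟩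
      exact (p2.prime.dvd_or_dvd (hZ ▸ (dvd_prod_of_mem _ (mem_univ i)).trans
        (H3 t ht).2)).resolve_left fun e => p4 (a6 ▸ e.mul_right _)
  obtain ⟨U, hU⟩ : ∃ U, U = T.filter (fun t => ¬ ∃ i, P t i ∣ kk t) := ⟨_, rfl⟩
  rw [← hU]
  have sU : ∀ t ∈ U, t ∈ T := fun t ht => (mem_filter.1 (hU ▸ ht)).1
  have nU : ∀ t ∈ U, ∀ i, ¬ P t i ∣ kk t := fun t ht i hi => by
    rw [hU] at ht
    exact (mem_filter.1 ht).2 ⟨i, hi⟩
  have shU : ∀ t ∈ U, ∀ s ∈ box k la, sh s t ∈ U := fun t ht s hs => by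
    obtain ⟨b1, -, b3, -, b5, -⟩ := H5 t (sU t ht) s hs
    rw [hU]
    exact mem_filter.2 ⟨b1, by rw [b3, b5]; exact fun ⟨i, hi⟩ => nU t ht i hi⟩
  choose! d0 E1 h1 Z0 ga rr w c' d1 d2 d3 d4 d5 d6 d7 d8 d9 d10 d11 d12 d13 d14 using
    fun t (ht : t ∈ T) => dec26 (la := la) (H1 t ht).2.2.2.1 (H1 t ht).2.2.2.2.1 (Pm t ht)
      (mem_mon.1 (H2 t ht).1).1 (H2 t ht).2.1 (by rw [hW]; exact W0 t ht)
      (by
        rw [hW]
        exact (IsCoprime.of_mul_left_left ((H1 t ht).2.2.2.2.2.1 ▸ cop t ht)).mul_dvd (gfW t ht)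
          (H3 t ht).2)
      (by rw [(mem_mon.1 (H2 t ht).1).2]; exact (H2 t ht).2.2.1)
  simp only [hW] at d7
  have Zd : ∀ t ∈ T, (Z0 t).natDegree < l := fun t ht => by
    have b1 : (W t).natDegree = (gf t).natDegree + ∑ i, e i + (Z0 t).natDegree := by
      rw [d7 t ht, natDegree_C_mul (d6 t ht), ((H1 t ht).2.2.2.1.mul (Pm t ht)).natDegree_mul
        (d5 t ht), (H1 t ht).2.2.2.1.natDegree_mul (Pm t ht), Pd t ht]
    have b2 := Wd t ht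
    have b3 := gd t ht
    have b4 := gz t ht
    have b5 := (H1 t ht).2.2.2.2.2.2.2.2.2
    omega
  have hΩ : (box k la).Nonempty := ⟨0, mem_box.2 (by simp)⟩
  have e1 : ∀ s ∈ box k la, ∑ t ∈ U, c (g t) (kk t) * mu26 (E t) =
      ∑ t ∈ U, c (g t) (kk t) * mu26 (E t + s ^ 3 * h t) := fun s hs => by
    have hs' : -s ∈ box k la := mem_box.2 (by rw [degree_neg]; exact mem_box.1 hs)
    refine (sum_nbij (sh s) (fun t ht => shU t ht s hs) (fun t ht t' ht' e => ?_)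
      (fun t ht => ⟨sh (-s) t, shU t ht _ hs', ?_⟩) fun t ht => ?_).symm
    · obtain ⟨-, b2, b3, b4, b5, b6⟩ := H5 t (sU t ht) s hs
      obtain ⟨-, c2, c3, c4, c5, c6⟩ := H5 t' (sU t' ht') s hs
      rw [e] at b2 b3 b4 b5 b6
      have x := b4.symm.trans c4
      exact hinj t (sU t ht) t' (sU t' ht') (b2.symm.trans c2) (b3.symm.trans c3) x
        (b5.symm.trans c5) (by linear_combination c6 - b6 - s ^ 3 * x)
    · obtain ⟨b1, b2, b3, b4, b5, b6⟩ := H5 t (sU t ht) _ hs'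
      obtain ⟨c1, c2, c3, c4, c5, c6⟩ := H5 _ b1 s hs
      exact hinj _ c1 t (sU t ht) (c2.trans b2) (c3.trans b3) (c4.trans b4) (c5.trans b5)
        (by rw [c6, b6, b4]; ring)
    · obtain ⟨-, b2, b3, -, -, b6⟩ := H5 t (sU t ht) s hs
      rw [b2, b3, b6]
  have e2 : ∑ t ∈ U, c (g t) (kk t) * mu26 (E t) = ∑ t ∈ U, (c (g t) (kk t) * c' t) *
      𝔼 s ∈ box k la, jac (ga t) (rr t + s ^ 3) *
        jac ((∏ i, P t i) * Z0 t) (E1 t + s ^ 3 * h1 t) := by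
    rw [← expect_const hΩ (∑ t ∈ U, c (g t) (kk t) * mu26 (E t)), expect_congr rfl e1,
      expect_sum_comm]
    refine sum_congr rfl fun t ht => ?_
    rw [mul_expect]
    exact expect_congr rfl fun s hs => by rw [d14 t (sU t ht) s hs, mul_assoc]
  rw [e2]
  refine (cau26' U (box k la) hΩ (fun t => (g t, ga t, rr t))
    (fun a : k[X] × k[X] × k[X] => qq k ^ a.2.1.natDegree) (fun _ _ => by positivity)
    (fun a s => jac a.2.1 (a.2.2 + s ^ 3)) (fun _ _ _ => abs_jac_le _ _)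
    (fun t s => jac ((∏ i, P t i) * Z0 t) (E1 t + s ^ 3 * h1 t)) (fun _ _ _ _ => abs_jac_le _ _)
    (fun t => c (g t) (kk t) * c' t) (fun t ht => ?_) (fun t t' => ∏ i, P t i ∣ W t') hβ0
    (fun t ht t' ht' _ hb => ?_) (fun K hK => ?_) fun Q hQ => ?_).trans (add_le_add le_rfl ?_)
  · rw [abs_mul]; exact mul_le_one₀ (hc _ _) (abs_nonneg _) (d13 t (sU t ht))
  · have ht1 := sU t ht
    have ht2 := sU t' ht'
    obtain ⟨i₀, hi₀⟩ : ∃ i, ¬ P t i ∣ W t' := by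
      by_contra hn
      push Not at hn
      exact hb (Fintype.prod_dvd_of_coprime (fun i j hij =>
        ((H3 t ht1).1 i).2.1.coprime_iff_not_dvd.2 (Pn t ht1 i j hij.symm)) hn)
    obtain ⟨p1, p2, p3, p4⟩ := (H3 t ht1).1 i₀
    have n2 : ¬ P t i₀ ∣ Z0 t := fun hd => by
      have b1 := natDegree_le_of_dvd hd (d5 t ht1).ne_zero
      have b2 := Zd t ht1
      have b3 := (heL i₀).1
      omega
    refine pair26 (P t) (P t') _ _ _ _ _ _ i₀ hβ0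
      (fun i => ⟨((H3 t ht1).1 i).1, ((H3 t ht1).1 i).2.2.1 ▸ (heL i).2⟩)
      (fun i => ⟨((H3 t' ht2).1 i).1, ((H3 t' ht2).1 i).2.2.1 ▸ (heL i).2⟩)
      ⟨d5 t ht1, (Zd t ht1).le.trans hlT⟩ ⟨d5 t' ht2, (Zd t' ht2).le.trans hlT⟩ p2
      (p3 ▸ (heL i₀).1) (Pn t ht1 i₀) n2
      (fun hd => hi₀ (hd.trans ⟨C (w t') * gf t', by rw [d7 t' ht2]; ring⟩)) (fun hd => ?_)
      hla hh0 hβ
    have x : W t = P t i₀ * (C (w t) * (gf t * (∏ i ∈ univ.erase i₀, P t i) * Z0 t)) := by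
      rw [d7 t ht1, ← mul_prod_erase _ _ (mem_univ i₀)]; ring
    refine not_dvd_wr26 (A := g t * kk t) p2
      (fun e => (p2.prime.dvd_or_dvd e).elim p4 (nU t ht i₀)) (fun e => ?_)
      (by
        rw [← x, (H2 t ht1).2.2.2.2, d3 t ht1]
        exact (hd.mul_left _).mul_left _)
    rcases p2.prime.dvd_or_dvd e with e | e
    · exact p2.not_isUnit (isUnit_of_dvd_unit e (isUnit_C.2 (IsUnit.mk0 _ (d6 t ht1))))
    rcases p2.prime.dvd_or_dvd e with e | e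
    · rcases p2.prime.dvd_or_dvd e with e | e
      · exact p4 ((H1 t ht1).2.2.2.2.2.1 ▸ e.mul_right _)
      · obtain ⟨j, hj, e⟩ := p2.prime.exists_mem_finset_dvd e
        exact Pn t ht1 i₀ j (mem_erase.1 hj).1 e
    · exact n2 e
  · refine keys26 _ m hτ0 (fun w hw hd => hτ w hw (hd.trans hN1)) fun a ha => ?_
    obtain ⟨t, ht, rfl⟩ := hK a ha
    have ht1 := sU t ht
    exact ⟨(H1 t ht1).1, g0 t ht1, d8 t ht1,
      (d9 t ht1).trans ⟨_, (H1 t ht1).2.2.2.2.2.1⟩, d11 t ht1⟩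
  · have mQ : ∀ p ∈ Q, p.1 ∈ T ∧ p.2 ∈ T ∧ g p.1 = g p.2 ∧ ga p.1 = ga p.2 ∧ rr p.1 = rr p.2 ∧
        ∏ i, P p.1 i ∣ W p.2 := fun p hp => by
      obtain ⟨b0, b1, b2, b3⟩ := hQ p hp
      simp only [Prod.mk.injEq] at b2
      exact ⟨sU _ b0, sU _ b1, b2.1, b2.2.1, b2.2.2, b3⟩
    refine pairs26' Q (fun p => (g p.1, kk p.1, kk p.2, W p.1, W p.2, (P p.1, ga p.1),
      (P p.2, ga p.1))) (fun p => ga p.1) (fun p => E p.1) (fun p => E p.2) (fun p => h p.1)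
      (fun p => h p.2) len m (fun p hp => ?_) (fun a ha b hb x => ?_)
      (fun a ha b hb x x1 x2 => ?_) fun R hR => ?_
    · have ht := (mQ p hp).1
      exact ⟨(H1 _ ht).2.2.2.2.1.squarefree_of_dvd (d9 _ ht), (natDegree_le_of_dvd
        ((d9 _ ht).trans ⟨_, (H1 _ ht).2.2.2.2.2.1⟩) (g0 _ ht)).trans (nat_box26 (H1 _ ht).1)⟩
    · simp only [Prod.mk.injEq] at x
      obtain ⟨x1, x2, x3, x4, x5, ⟨x6, x7⟩, -⟩ := x
      obtain ⟨a1, a2, a3, a4, a5, -⟩ := mQ a ha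
      obtain ⟨b1, b2, b3, b4, b5, -⟩ := mQ b hb
      have y1 := heq _ a1 _ b1 x1 x2 x4
      have y2 : g a.2 = g b.2 := a3.symm.trans (x1.trans b3)
      have y3 := heq _ a2 _ b2 y2 x3 x5
      refine ⟨x7, H4 _ a1 _ b1 x1 x2 y1 x4, fun y4 => ?_⟩
      obtain ⟨s, hs, es⟩ := H4 _ a2 _ b2 y2 x3 y3 x5
      refine ⟨s, hs, ?_, es⟩
      have y5 : a.1 = b.1 := hinj _ a1 _ b1 x1 x2 y1 x6 y4
      have y6 : d0 a.2 = d0 b.2 := d0_eq26 (s := s ^ 3) (d1 _ b2) (d1 _ a2) (d4 _ b2) (d4 _ a2)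
        (by rw [← d3 _ a2, ← d3 _ b2, y3]) (by rw [← d2 _ a2, ← d2 _ b2, ← d3 _ b2, es])
      have y7 : h1 a.2 = h1 b.2 := mul_left_cancel₀ (d1 _ b2).ne_zero (by
        rw [← d3 _ b2, ← y6, ← d3 _ a2, y3])
      have y8 : E1 a.2 = E1 b.2 + s ^ 3 * h1 b.2 := mul_left_cancel₀ (d1 _ b2).ne_zero (by
        linear_combination es - d2 _ a2 + d2 _ b2 + s ^ 3 * d3 _ b2 - E1 a.2 * y6)
      have y9 := d12 _ a2
      rw [← a4, ← a5, y5, b4, b5, y7, y8] at y9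
      rw [b4]
      refine (d10 _ b2).dvd_of_dvd_mul_right ?_
      have y10 := dvd_sub y9 (d12 _ b2)
      rwa [show E1 b.2 + s ^ 3 * h1 b.2 - rr b.2 * h1 b.2 - (E1 b.2 - rr b.2 * h1 b.2) =
        s ^ 3 * h1 b.2 by ring] at y10
    · simp only [Prod.mk.injEq] at x
      obtain ⟨z1, z2, z3, z4, z5, ⟨z6, -⟩, z7, -⟩ := x
      obtain ⟨a1, a2, a3, -⟩ := mQ a ha
      obtain ⟨b1, b2, b3, -⟩ := mQ b hb
      have y2 : g a.2 = g b.2 := a3.symm.trans (z1.trans b3)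
      exact Prod.ext (hinj _ a1 _ b1 z1 z2 (heq _ a1 _ b1 z1 z2 z4) z6 x1)
        (hinj _ a2 _ b2 y2 z3 (heq _ a2 _ b2 y2 z3 z5) z7 x2)
    refine bl26 _ (fun x => x.1) (fun x => x.2.1) (fun x => x.2.2.1) (fun x => x.2.2.2.1)
      (fun x => x.2.2.2.2.1) (fun x => x.2.2.2.2.2.1) (fun x => x.2.2.2.2.2.2)
      (fun x : (I → k[X]) × k[X] => ∏ i, x.1 i) Ln
      (fun w => (Fintype.piFinset fun _ : I => dv26 w) ×ˢ dv26 w) m ka (2 * z) l y hNL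
      (by positivity) hτ0
      (fun a _ b _ x1 x2 x3 x4 x5 x6 x7 => Prod.ext x1 (Prod.ext x2 (Prod.ext x3 (Prod.ext x4
        (Prod.ext x5 (Prod.ext x6 x7)))))) (fun a ha => ?_) (fun a ha => ?_)
      (fun w hw hd => hτ w hw (hd.trans hN3)) (fun a ha => ?_) fun a ha => ?_
    all_goals
      obtain ⟨p, hp, rfl⟩ := hR a ha
      obtain ⟨a1, a2, a3, a4, -, a6⟩ := mQ p hp
      dsimp only
    · exact H6 _ a1
    · have cc : ∀ t ∈ T, (#((Fintype.piFinset fun _ : I => dv26 (W t)) ×ˢ dv26 (W t)) : ℝ) ≤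
          τ ^ Fintype.card I * τ := fun t ht => by
        rw [card_product, Nat.cast_mul]
        exact mul_le_mul (cpi t ht) (cdv t ht) (Nat.cast_nonneg _) (by positivity)
      exact ⟨mem_product.2 ⟨mpi _ a1, mem_dv26 (W0 _ a1) (d8 _ a1) ((d9 _ a1).trans (gfW _ a1))⟩,
        mem_product.2 ⟨mpi _ a2, mem_dv26 (W0 _ a2) (d8 _ a1)
          (a4 ▸ (d9 _ a2).trans (gfW _ a2))⟩, cc _ a1, cc _ a2⟩
    · exact ⟨(H1 _ a1).1, g0 _ a1, (H1 _ a1).2.1, (H1 _ a2).2.1, W0 _ a1, W0 _ a2,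
        (H1 _ a2).2.2.1⟩
    · obtain ⟨-, -, -, u4, u5, u6, u7, -, u9, u10⟩ := H1 _ a1
      obtain ⟨-, -, -, v4, -, v6, -, -, v9, -⟩ := H1 _ a2
      obtain ⟨gc, a, s1, s2, s3, s4⟩ := split26 u4 u5 (gf p.2)
      have t1 : g p.1 = gc * (a * gs p.1) := by rw [u6, s2, mul_assoc]
      have t2 : a ∣ gs p.2 := s4.dvd_of_dvd_mul_left (by
        rw [← v6, ← a3, t1]; exact ⟨gc * gs p.1, by ring⟩)
      have a0 : a ≠ 0 := ne_zero_of_dvd_ne_zero v9 t2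
      have t3 : IsCoprime gc (∏ i, P p.1 i) := IsCoprime.of_mul_left_left (t1 ▸ cop _ a1)
      have t4 : IsCoprime gc (a * gs p.1 * ∏ i, P p.1 i) :=
        (((squarefree_mul_iff.1 (s2 ▸ u5)).1.isCoprime).mul_right
          (IsCoprime.of_mul_left_left (s2 ▸ u7.of_mul_right_left))).mul_right t3
      obtain ⟨Y₁, hY₁⟩ := t3.mul_dvd (Dvd.dvd.trans ⟨a, s2⟩ (gfW _ a1)) (H3 _ a1).2
      obtain ⟨Y₂, hY₂⟩ := t3.mul_dvd (s3.trans (gfW _ a2)) a6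
      have b1 := natDegree_le_of_dvd t2 v9
      have b2 := natDegree_mul a0 u9
      have b3 := gz _ a1
      have b4 := gz _ a2
      have b5 : (g p.1).natDegree = gc.natDegree + (a * gs p.1).natDegree := by
        rw [← natDegree_mul s1.ne_zero (mul_ne_zero a0 u9), ← t1]
      have b6 : ∀ t ∈ T, ∀ Y, W t = gc * (∏ i, P p.1 i) * Y → Y ∈ box k l := fun t ht Y hY => by
        have b7 : (W t).natDegree = gc.natDegree + ∑ i, e i + Y.natDegree := by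
          rw [hY, natDegree_mul (s1.mul (Pm _ a1)).ne_zero
            fun e => W0 t ht (by rw [hY, e, mul_zero]), s1.natDegree_mul (Pm _ a1), Pd _ a1]
        have b8 := Wd t ht
        exact box_lt26 (by omega)
      exact ⟨gc, a * gs p.1, Y₁, Y₂, s1, t1, box_lt26 (by omega), b6 _ a1 _ hY₁, b6 _ a2 _ hY₂,
        hY₁, hY₂, blid26 t1 s1.ne_zero t4 (hY₁ ▸ dv _ a1) (by rw [← hY₂, a3]; exact dv _ a2)⟩
  · exact mul_le_mul_of_nonneg_left (by exact_mod_cast card_le_card fun t ht => sU t ht)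
      (Real.sqrt_nonneg _)

end B26

section C26
variable {k : Type} [Field k] [Fintype k] [CharP k 3]

omit [CharP k 3] in
theorem dirdeg26 {h₁ h₂ al be : k[X]} {t1 a : ℕ} (n₂ : h₂ ≠ 0)
    (ht : 3 * t1 + h₁.natDegree < 3 * a + h₂.natDegree + 3) (ha : al ∈ box k t1)
    (hb : be ∈ box k (a + 1) \ box k a) :
    al ^ 3 * h₁ + be ^ 3 * h₂ ≠ 0 ∧
      (al ^ 3 * h₁ + be ^ 3 * h₂).natDegree = 3 * a + h₂.natDegree := by
  obtain ⟨b1, b2⟩ := mem_sdiff.1 hb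
  have b0 : be ≠ 0 := fun e => b2 (mem_box.2 (by rw [e]; simp))
  have b3 : be.natDegree < a + 1 := (natDegree_lt_iff_degree_lt b0).2 (mem_box.1 b1)
  have b4 : ¬ be.natDegree < a := fun e => b2 (box_lt26 e)
  have b5 : (be ^ 3 * h₂).natDegree = 3 * a + h₂.natDegree := by
    rw [natDegree_mul (pow_ne_zero 3 b0) n₂, natDegree_pow]; omega
  by_cases a0 : al = 0
  · rw [a0, zero_pow (by norm_num), zero_mul, zero_add]
    exact ⟨mul_ne_zero (pow_ne_zero 3 b0) n₂, b5⟩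
  have b6 : al.natDegree < t1 := (natDegree_lt_iff_degree_lt a0).2 (mem_box.1 ha)
  have b7 : (al ^ 3 * h₁).natDegree < (be ^ 3 * h₂).natDegree := by
    have := natDegree_mul_le (p := al ^ 3) (q := h₁)
    rw [natDegree_pow] at this
    omega
  have b8 := natDegree_add_eq_right_of_natDegree_lt b7
  exact ⟨fun e => by rw [e, natDegree_zero] at b8; omega, b8.trans b5⟩

omit [Fintype k] in
theorem dd_comb26 (A E s h : k[X]) : derivative (derivative (A * (E + s ^ 3 * h))) =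
    derivative (derivative (A * E)) + s ^ 3 * derivative (derivative (A * h)) := by
  rw [mul_add, mul_left_comm, derivative_add, derivative_add, Pool.Agent.H18Str.st_der_cube,
    Pool.Agent.H18Str.st_der_cube]

/-- **LINE.** The Moebius function against the weight of the directions. -/
theorem line_main26 {I : Type} [Fintype I] (G : Finset (k[X] × k[X]))
    (h₁ h₂ : k[X] × k[X] → k[X]) (t1 a : k[X] × k[X] → ℕ) (S : k[X] → I → Finset k[X])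
    (c w : k[X] → k[X] → ℝ) (e : I → ℕ) (m ka ν y la len H0 tt R l Tm h0 L N : ℕ)
    {τ β NF : ℝ} (hc : ∀ a b, |c a b| ≤ 1) (hτ0 : 0 ≤ τ) (hβ0 : 0 ≤ β)
    (hτ : ∀ f : k[X], f ≠ 0 → f.natDegree ≤ N → ∀ S : Finset k[X],
      (∀ d ∈ S, d.Monic ∧ d ∣ f) → (#S : ℝ) ≤ τ)
    (hN1 : m ≤ N) (hN2 : ν + H0 + 2 ≤ N) (hN3 : 2 * ka + 2 * l ≤ N)
    (hN4 : 3 * y + 1 + ka + (∑ i, e i + l) ≤ N)
    (hNW : ν + H0 + 7 * y + 4 ≤ m + ∑ i, e i + l) (hla1 : 3 * (la - 1) + H0 + 2 < ν)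
    (hlen : ν ≤ 3 * len + H0)
    (he : Function.Injective e) (heL : ∀ i, L ≤ e i ∧ e i ≤ Tm) (hl : l ≤ L) (hlT : l ≤ Tm)
    (hla : Tm + h0 ≤ la) (hh0 : h0 ≤ L)
    (hβ : 5 * 2 ^ (2 * Fintype.card I + 2) / √(qq k ^ L) + 2 ^ (2 * Fintype.card I + 2) / qq k ^ h0
      ≤ β ^ 2 ^ (2 * Fintype.card I + 2))
    (hG : ∀ x ∈ G, x.1 ≠ 0 ∧ x.1 ∈ box k m ∧ x.2 ∈ mon k ka ∧ m ≤ x.1.natDegree + y ∧
      (∀ d : k[X], d ^ 2 ∣ x.1 * x.2 → d.natDegree ≤ y) ∧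
      ∃ gf gs : k[X], x.1 = gf * gs ∧ gf.Monic ∧ Squarefree gf ∧ IsCoprime gf (gs * x.2) ∧
        gs.natDegree ≤ 3 * y)
    (hB : ∀ x ∈ G, h₂ x ≠ 0 ∧ derivative (derivative (x.1 * x.2 * h₁ x)) = 0 ∧
      derivative (derivative (x.1 * x.2 * h₂ x)) = 0 ∧ wronskian (h₁ x) (h₂ x) ≠ 0 ∧
      (∀ h, derivative (derivative (x.1 * x.2 * h)) = 0 →
        ∃ α β : k[X], h = α ^ 3 * h₁ x + β ^ 3 * h₂ x) ∧
      3 * t1 x + (h₁ x).natDegree < 3 * a x + (h₂ x).natDegree + 3 ∧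
      H0 ≤ 3 * a x + (h₂ x).natDegree ∧ 3 * a x + (h₂ x).natDegree ≤ H0 + 2 ∧
      t1 x + (a x + 1) ≤ tt ∧ ν + H0 + 2 ≤ 3 * R + (wronskian (h₁ x) (h₂ x)).natDegree)
    (hS : ∀ x ∈ G, ∀ i, ∀ P ∈ S x.1 i,
      P.Monic ∧ Irreducible P ∧ P.natDegree = e i ∧ ¬ P ∣ x.1)
    (hw : ∀ x ∈ G, ∀ W : k[X], W ≠ 0 → W.natDegree < ν + H0 + 2 →
      w x.1 W = #((Fintype.piFinset (S x.1)).filter (fun P => ∏ i, P i ∣ W)))
    (hF : ∑ x ∈ G, (#((mon k ν).filter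
      (fun E => derivative (derivative (x.1 * x.2 * E)) = -x.1 ^ 3)) : ℝ) ≤ NF) :
    |∑ x ∈ G, c x.1 x.2 * ∑ E ∈ (mon k ν).filter
        (fun E => derivative (derivative (x.1 * x.2 * E)) = -x.1 ^ 3), mu26 E *
        ∑ p ∈ (box k (t1 x) ×ˢ (box k (a x + 1) \ box k (a x))).filter
          (fun p => IsCoprime p.1 p.2),
          w x.1 (wronskian E (p.1 ^ 3 * h₁ x + p.2 ^ 3 * h₂ x))| ≤
      (ka + 1) * (qq k ^ (ka + (3 * y + 1) + (∑ i, e i + l - L)) *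
        (τ * (qq k ^ len * τ ^ Fintype.card I))) +
      (√(qq k ^ m * τ) *
        √((qq k ^ (2 * ka + 2 * l + 2 * (3 * y + 1)) * τ +
            qq k ^ (m + ka + 2 * (3 * y + 1) + l + (2 * y + 2))) *
          (qq k ^ (tt + R) * (τ ^ Fintype.card I * τ) ^ 2) * (qq k ^ len * qq k ^ max len m)) +
      √β * (NF * (qq k ^ tt * τ ^ Fintype.card I))) := by
  have hq : 1 ≤ qq k := by linarith [two_le_qq (k := k)]
  obtain ⟨F, hFd⟩ : ∃ F : k[X] × k[X] → Finset k[X], ∀ x, (mon k ν).filter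
    (fun E => derivative (derivative (x.1 * x.2 * E)) = -x.1 ^ 3) = F x := ⟨_, fun _ => rfl⟩
  obtain ⟨D, hDd⟩ : ∃ D : k[X] × k[X] → Finset (k[X] × k[X]), ∀ x,
    (box k (t1 x) ×ˢ (box k (a x + 1) \ box k (a x))).filter (fun p => IsCoprime p.1 p.2) = D x :=
    ⟨_, fun _ => rfl⟩
  obtain ⟨dr, hdr⟩ : ∃ dr : k[X] × k[X] → k[X] × k[X] → k[X], ∀ x p,
    p.1 ^ 3 * h₁ x + p.2 ^ 3 * h₂ x = dr x p := ⟨_, fun _ _ => rfl⟩
  simp only [hFd, hDd, hdr] at hF ⊢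
  have mF : ∀ x E, E ∈ F x ↔ E ∈ mon k ν ∧
      derivative (derivative (x.1 * x.2 * E)) = -x.1 ^ 3 := fun x E => by rw [← hFd, mem_filter]
  have mD : ∀ x, ∀ p ∈ D x, p.1 ∈ box k (t1 x) ∧ p.2 ∈ box k (a x + 1) \ box k (a x) ∧
      IsCoprime p.1 p.2 := fun x p hp => by
    rw [← hDd, mem_filter, mem_product] at hp
    exact ⟨hp.1.1, hp.1.2, hp.2⟩
  have cD : ∀ x ∈ G, (#(D x) : ℝ) ≤ qq k ^ tt := fun x hx => by
    have : D x ⊆ box k (t1 x) ×ˢ box k (a x + 1) := fun p hp =>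
      mem_product.2 ⟨(mD x p hp).1, (mem_sdiff.1 (mD x p hp).2.1).1⟩
    calc (#(D x) : ℝ) ≤ #(box k (t1 x) ×ˢ box k (a x + 1)) := by exact_mod_cast card_le_card this
      _ = qq k ^ (t1 x + (a x + 1)) := by
          rw [card_product, Nat.cast_mul, card_box, card_box, ← pow_add]
      _ ≤ _ := pow_le_pow_right₀ hq (hB x hx).2.2.2.2.2.2.2.2.1
  have dD : ∀ x ∈ G, ∀ p ∈ D x, dr x p ≠ 0 ∧ H0 ≤ (dr x p).natDegree ∧
      (dr x p).natDegree ≤ H0 + 2 ∧ derivative (derivative (x.1 * x.2 * dr x p)) = 0 :=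
    fun x hx p hp => by
      obtain ⟨b1, b2, b3, -, -, b6, b7, b8, -⟩ := hB x hx
      obtain ⟨c1, c2⟩ := dirdeg26 b1 b6 (mD x p hp).1 (mD x p hp).2.1
      rw [hdr] at c1 c2
      refine ⟨c1, c2 ▸ b7, c2 ▸ b8, ?_⟩
      rw [← hdr, dd_comb26, b3, mul_left_comm, Pool.Agent.H18Str.st_der_cube,
        Pool.Agent.H18Str.st_der_cube, b2]
      simp
  have cW : ∀ x ∈ G, ∀ E ∈ F x, ∀ p ∈ D x,
      wronskian (x.1 * x.2) (wronskian E (dr x p)) = x.1 ^ 3 * dr x p := fun x hx E hE p hp =>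
    Pool.Agent.H18Str.st_c1 (mul_ne_zero (hG x hx).1 (mem_mon.1 (hG x hx).2.2.1).1.ne_zero)
      ((mF x E).1 hE).2 (dD x hx p hp).2.2.2
  have W0 : ∀ x ∈ G, ∀ E ∈ F x, ∀ p ∈ D x, wronskian E (dr x p) ≠ 0 ∧
      (wronskian E (dr x p)).natDegree < ν + H0 + 2 := fun x hx E hE p hp => by
    have b0 : wronskian E (dr x p) ≠ 0 := fun e => mul_ne_zero (pow_ne_zero 3 (hG x hx).1)
      (dD x hx p hp).1 (by rw [← cW x hx E hE p hp, e, wronskian_zero_right])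
    have b1 := natDegree_wronskian_lt_add b0
    have b2 := (mem_mon.1 ((mF x E).1 hE).1).2
    have b3 := (dD x hx p hp).2.2.1
    exact ⟨b0, by omega⟩
  have sub : ∀ x ∈ G, ∀ E ∈ F x, ∀ E' ∈ F x, (E - E').degree < ν ∧
      ∃ si ta : k[X], E - E' = si ^ 3 * h₁ x + ta ^ 3 * h₂ x := fun x hx E hE E' hE' => by
    obtain ⟨b1, b2⟩ := (mF x E).1 hE
    obtain ⟨c1, c2⟩ := (mF x E').1 hE'
    obtain ⟨b3, b4⟩ := mem_mon.1 b1
    obtain ⟨c3, c4⟩ := mem_mon.1 c1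
    have b5 : E.degree = ν := by rw [degree_eq_natDegree b3.ne_zero, b4]
    refine ⟨b5 ▸ degree_sub_lt_left (by rw [b5, degree_eq_natDegree c3.ne_zero, c4]) b3.ne_zero
      (b3.leadingCoeff.trans c3.leadingCoeff.symm), (hB x hx).2.2.2.2.1 _ ?_⟩
    rw [mul_sub, derivative_sub, derivative_sub, b2, c2, sub_self]
  choose! gf gs g1 g2 g3 g4 g5 using fun x (hx : x ∈ G) => (hG x hx).2.2.2.2.2
  have hE0 : ∀ x, ∃ E0, ∀ E ∈ F x, E0 ∈ F x := fun x => by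
    rcases (F x).eq_empty_or_nonempty with e | ⟨E0, h0⟩
    · exact ⟨0, by simp [e]⟩
    · exact ⟨E0, fun _ _ => h0⟩
  choose E0 hE0 using hE0
  obtain ⟨T, hT⟩ : ∃ T : Finset (Σ _ : k[X] × k[X], Σ _ : k[X], Σ _ : k[X] × k[X], I → k[X]),
    T = G.sigma fun x => (F x).sigma fun E => (D x).sigma fun p =>
      (Fintype.piFinset (S x.1)).filter (fun P => ∏ i, P i ∣ wronskian E (dr x p)) := ⟨_, rfl⟩
  have mT : ∀ t, t ∈ T ↔ t.1 ∈ G ∧ t.2.1 ∈ F t.1 ∧ t.2.2.1 ∈ D t.1 ∧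
      (∀ i, t.2.2.2 i ∈ S t.1.1 i) ∧ ∏ i, t.2.2.2 i ∣ wronskian t.2.1 (dr t.1 t.2.2.1) := fun t => by
    simp only [hT, mem_sigma, mem_filter, Fintype.mem_piFinset]
  have e1 : ∑ x ∈ G, c x.1 x.2 * ∑ E ∈ F x, mu26 E * ∑ p ∈ D x, w x.1 (wronskian E (dr x p)) =
      ∑ t ∈ T, c t.1.1 t.1.2 * mu26 t.2.1 := by
    rw [hT, sum_sigma]
    refine sum_congr rfl fun x hx => ?_
    rw [sum_sigma, mul_sum]
    refine sum_congr rfl fun E hE => ?_
    rw [sum_sigma, mul_sum, mul_sum]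
    refine sum_congr rfl fun p hp => ?_
    rw [hw x hx _ (W0 x hx E hE p hp).1 (W0 x hx E hE p hp).2]
    simp only [sum_const, nsmul_eq_mul]
    ring
  have e2 : (#T : ℝ) ≤ NF * (qq k ^ tt * τ ^ Fintype.card I) := by
    refine le_trans ?_ (mul_le_mul_of_nonneg_right hF (by positivity))
    rw [hT, card_sigma, sum_mul]
    push_cast
    refine sum_le_sum fun x hx => ?_
    rw [card_sigma, ← nsmul_eq_mul]
    push_cast
    refine sum_le_card_nsmul _ _ _ fun E hE => ?_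
    refine le_trans ?_ (mul_le_mul_of_nonneg_right (cD x hx) (by positivity))
    rw [card_sigma, ← nsmul_eq_mul]
    push_cast
    refine sum_le_card_nsmul _ _ _ fun p hp => ?_
    obtain ⟨b1, b2⟩ := W0 x hx E hE p hp
    calc _ ≤ (#(Fintype.piFinset fun _ : I => dv26 (wronskian E (dr x p))) : ℝ) := by
          exact_mod_cast card_le_card fun P hP => Fintype.mem_piFinset.2 fun i => mem_dv26 b1
            (hS x hx i _ (Fintype.mem_piFinset.1 (mem_filter.1 hP).1 i)).1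
            ((dvd_prod_of_mem _ (mem_univ i)).trans (mem_filter.1 hP).2)
      _ ≤ _ := by
        rw [Fintype.card_piFinset, prod_const, card_univ, Nat.cast_pow]
        exact pow_le_pow_left₀ (Nat.cast_nonneg _)
          (hτ _ b1 (by omega) _ fun d hd => (mem_filter.1 hd).2) _
  rw [e1]
  refine (line_core26 T (fun t => t.1.1) (fun t => t.1.2) (fun t => t.2.1)
    (fun t => dr t.1 t.2.2.1) (fun t => gf t.1) (fun t => gs t.1) (fun t => t.2.2.2)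
    (fun s t => ⟨t.1, t.2.1 + s ^ 3 * dr t.1 t.2.2.1, t.2.2⟩) c
    (fun g κ => (D (g, κ) ×ˢ box k R).image fun z => wronskian (E0 (g, κ)) (dr (g, κ) z.1) +
      z.2 ^ 3 * wronskian (h₁ (g, κ)) (h₂ (g, κ))) e m ka ν y (3 * y + 1) la len (ν + H0 + 2) l Tm
    h0 L N hc hτ0 hβ0 (NL := qq k ^ (tt + R)) (by positivity) hτ hN1 hN2 hN3 hN4 he heL hl hlT hla
    hh0 hβ ?_ (fun t ht => ?_) (fun t ht => ?_) (fun t ht => ?_) ?_ (fun t ht s hs => ?_)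
    fun t ht => ?_).trans
    (add_le_add le_rfl (add_le_add le_rfl (mul_le_mul_of_nonneg_left e2 (Real.sqrt_nonneg _))))
  · rintro ⟨x, E, p, P⟩ ht ⟨x', E', p', P'⟩ - e1 e2 e3 e4 e5
    obtain rfl : x = x' := Prod.ext e1 e2
    obtain rfl : E = E' := e5
    obtain rfl : P = P' := e4
    obtain ⟨b1, b2⟩ := Pool.Agent.H18Str.st_uniq2 (hB x ((mT _).1 ht).1).2.2.2.1
      ((hdr x p).trans (e3.trans (hdr x p').symm))
    obtain rfl : p = p' := Prod.ext b1 b2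
    rfl
  · have hx := ((mT t).1 ht).1
    obtain ⟨b1, b2, b3, b4, b5, -⟩ := hG _ hx
    exact ⟨b2, b3, fun d hd => b5 d (hd.mul_left _), g2 _ hx, g3 _ hx, g1 _ hx, g4 _ hx,
      box_nat26 (g5 _ hx), fun e => b1 (by rw [g1 _ hx, e, mul_zero]), by omega⟩
  · obtain ⟨hx, hE, hp, -⟩ := (mT t).1 ht
    obtain ⟨b1, b2, b3, -⟩ := dD _ hx _ hp
    exact ⟨((mF _ _).1 hE).1, b1, by omega, by omega, cW _ hx _ hE _ hp⟩
  · obtain ⟨hx, -, -, hP, hd⟩ := (mT t).1 ht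
    exact ⟨fun i => hS _ hx i _ (hP i), hd⟩
  · rintro ⟨x, E, p, P⟩ ht ⟨x', E', p', P'⟩ ht' e1 e2 e3 e4
    obtain rfl : x = x' := Prod.ext e1 e2
    obtain ⟨hx, hE, -⟩ := (mT _).1 ht
    obtain ⟨-, hE', hp', -⟩ := (mT _).1 ht'
    dsimp only at hx hE hE' hp' e3 e4 ⊢
    obtain ⟨b1, si, ta, b2⟩ := sub x hx E hE E' hE'
    rw [e3] at e4
    obtain ⟨s, hs⟩ := line26 b2 (hdr x p').symm (mD x p' hp').2.2 (hB x hx).2.2.2.1 e4
    refine ⟨s, ?_, hs⟩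
    by_cases s0 : s = 0
    · exact mem_box.2 (by rw [s0]; simp)
    obtain ⟨c1, c2, -⟩ := dD x hx p' hp'
    rw [hs, add_sub_cancel_left,
      ← natDegree_lt_iff_degree_lt (mul_ne_zero (pow_ne_zero 3 s0) c1),
      natDegree_mul (pow_ne_zero 3 s0) c1, natDegree_pow] at b1
    exact box_lt26 (by omega)
  · obtain ⟨hx, hE, hp, hP, hd⟩ := (mT t).1 ht
    obtain ⟨b1, b2⟩ := (mF _ _).1 hE
    obtain ⟨b3, b4⟩ := mem_mon.1 b1
    obtain ⟨c1, -, c3, c4⟩ := dD _ hx _ hp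
    have b5 : (s ^ 3 * dr t.1 t.2.2.1).degree < t.2.1.degree := by
      by_cases s0 : s = 0
      · rw [s0, zero_pow (by norm_num), zero_mul, degree_zero]
        exact bot_lt_iff_ne_bot.2 (degree_ne_bot.2 b3.ne_zero)
      have := (natDegree_lt_iff_degree_lt s0).2 (mem_box.1 hs)
      refine degree_lt_degree ?_
      rw [natDegree_mul (pow_ne_zero 3 s0) c1, natDegree_pow]
      omega
    refine ⟨(mT _).2 ⟨hx, (mF _ _).2 ⟨mem_mon.2 ⟨b3.add_of_left b5,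
      (natDegree_add_eq_left_of_degree_lt b5).trans b4⟩, ?_⟩, hp, hP, ?_⟩, rfl, rfl, rfl, rfl, rfl⟩
    · dsimp only
      rw [dd_comb26, b2, c4, mul_zero, add_zero]
    · dsimp only
      rwa [wr_shift26]
  · obtain ⟨hx, hE, hp, -⟩ := (mT t).1 ht
    obtain ⟨x, E, p, P⟩ := t
    dsimp only at hx hE hp ⊢
    constructor
    · obtain ⟨b1, si, ta, b2⟩ := sub x hx E hE _ (hE0 x E hE)
      have b3 : wronskian (E - E0 x) (dr x p) =
          (si * p.2 - ta * p.1) ^ 3 * wronskian (h₁ x) (h₂ x) := by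
        rw [b2, ← hdr, wr_comb26]
      refine mem_image.2 ⟨(p, si * p.2 - ta * p.1), mem_product.2 ⟨hp, ?_⟩, ?_⟩
      · by_cases r0 : si * p.2 - ta * p.1 = 0
        · exact mem_box.2 (by rw [r0]; simp)
        have u0 := (hB x hx).2.2.2.1
        have b4 : wronskian (E - E0 x) (dr x p) ≠ 0 :=
          b3 ▸ mul_ne_zero (pow_ne_zero 3 r0) u0
        have b5 := natDegree_wronskian_lt_add b4
        rw [b3, natDegree_mul (pow_ne_zero 3 r0) u0, natDegree_pow] at b5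
        have b6 := natDegree_le_iff_degree_le.2 b1.le
        have b7 := (dD x hx p hp).2.2.1
        have b8 := (hB x hx).2.2.2.2.2.2.2.2.2
        exact box_lt26 (by dsimp only; omega)
      · dsimp only
        rw [← b3, ← wronskian_add_left, add_sub_cancel]
    · calc _ ≤ (#(D x ×ˢ box k R) : ℝ) := by exact_mod_cast card_image_le
        _ ≤ _ := by
          rw [card_product, Nat.cast_mul, card_box, pow_add]
          exact mul_le_mul_of_nonneg_right (cD x hx) (by positivity)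

end C26

end H18M

end
end

-- part H18M.Lsp27
section

/-! h18m row LS, pair count over the keys `(gl, g2)` (helper27); passage from `W` to `(Pi, Z0)`. -/

set_option autoImplicit false
open Polynomial Finset
open scoped Classical

noncomputable section
namespace H18M
open CL5

variable {k : Type*} [Field k] [Fintype k]

theorem lsp27_count [CharP k 3] (Keys : Finset (k[X] × k[X])) (K : k[X] × k[X] → Finset k[X])
    (m z ka y dl : ℕ) {τ : ℝ} (hτ0 : 0 ≤ τ)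
    (hτ : ∀ w : k[X], w ≠ 0 → w.natDegree ≤ dl + 2 * ka → ∀ S : Finset k[X],
      (∀ d ∈ S, d.Monic ∧ d ∣ w) → (#S : ℝ) ≤ τ)
    (hK : ∀ a ∈ Keys, a.1.Monic ∧ a.1 ∈ box k m ∧ a.2 ∈ box k z ∧ IsCoprime a.1 a.2 ∧
      ∀ j ∈ K a, j ∈ mon k ka ∧ ∀ d : k[X], d ^ 2 ∣ j → d.natDegree ≤ y)
    {Z0 : k[X]} (h0 : Z0 ≠ 0) (hZ : Z0.natDegree ≤ dl) :
    ∑ a ∈ Keys, (#((K a ×ˢ K a).filter fun x => a.1 ∣ Z0 * wronskian (a.2 * x.1) (a.2 * x.2)) : ℝ) ≤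
      qq k ^ (z + 2 * ka) * τ + qq k ^ (m + z + ka) * qq k ^ (2 * y + 2) := by
  have hq : (0 : ℝ) < qq k := lt_of_lt_of_le two_pos two_le_qq
  set Q := (Keys.sigma fun a => (K a ×ˢ K a).filter
    fun x => a.1 ∣ Z0 * wronskian (a.2 * x.1) (a.2 * x.2)) with hQ
  have e1 : ∑ a ∈ Keys, (#((K a ×ˢ K a).filter
      fun x => a.1 ∣ Z0 * wronskian (a.2 * x.1) (a.2 * x.2)) : ℝ) = #Q := by
    rw [hQ, Finset.card_sigma, Nat.cast_sum]
  have hm : ∀ x ∈ Q, x.1 ∈ Keys ∧ x.2.1 ∈ K x.1 ∧ x.2.2 ∈ K x.1 ∧ x.1.1 ∣ Z0 * wronskian x.2.1 x.2.2 := by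
    intro x hx
    rw [hQ, Finset.mem_sigma, Finset.mem_filter, Finset.mem_product, wr_mul26] at hx
    refine ⟨hx.1, hx.2.1.1, hx.2.1.2, ?_⟩
    have h := hx.2.2
    rw [mul_left_comm] at h
    exact ((hK _ hx.1).2.2.2.1.pow_right (n := 2)).dvd_of_dvd_mul_left h
  have ext : ∀ x ∈ Q, ∀ x' ∈ Q, x.1 = x'.1 → x.2 = x'.2 → x = x' := by
    rintro ⟨a, b⟩ _ ⟨a', b'⟩ _ h1 h2
    dsimp only at h1 h2
    rw [h1, h2]
  have c1 : (#(Q.filter fun x => ¬ wronskian x.2.1 x.2.2 = 0) : ℝ) ≤ qq k ^ (z + 2 * ka) * τ := by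
    refine step26 _ (fun x => (x.1.2, x.2)) (box k z ×ˢ mon k ka ×ˢ mon k ka) (fun x hx => ?_)
      (le_of_eq ?_) hτ0 fun Q' hQ' a₀ ha₀ h => ?_
    · have h := hm x (Finset.mem_filter.mp hx).1
      have h' := (hK _ h.1).2.2
      exact Finset.mem_product.mpr ⟨h'.1, Finset.mem_product.mpr ⟨(h'.2.2 _ h.2.1).1, (h'.2.2 _ h.2.2.1).1⟩⟩
    · rw [Finset.card_product, Finset.card_product, Nat.cast_mul, Nat.cast_mul, card_box, card_mon]
      ring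
    · have hinj : Set.InjOn (fun x : (Σ _ : k[X] × k[X], k[X] × k[X]) => x.1.1) Q' := by
        intro x hx x' hx' hxx
        have g1 := (h x hx).trans (h x' hx').symm
        rw [Prod.mk.injEq] at g1
        exact ext x (Finset.mem_filter.mp (hQ' hx)).1 x' (Finset.mem_filter.mp (hQ' hx')).1
          (Prod.ext hxx g1.1) g1.2
      rw [← Finset.card_image_of_injOn hinj]
      have g0 := Finset.mem_filter.mp (hQ' ha₀)
      have g2 := hm _ g0.1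
      have g3 := (hK _ g2.1).2.2.2.2
      refine hτ (Z0 * wronskian a₀.2.1 a₀.2.2) (mul_ne_zero h0 g0.2) ?_ _ fun d hd => ?_
      · have d1 := natDegree_mul_le (p := Z0) (q := wronskian a₀.2.1 a₀.2.2)
        have d2 := wr_deg26 a₀.2.1 a₀.2.2
        have d3 := (mem_mon.mp (g3 _ g2.2.1).1).2
        have d4 := (mem_mon.mp (g3 _ g2.2.2.1).1).2
        omega
      · obtain ⟨x, hx, rfl⟩ := Finset.mem_image.mp hd
        have g4 := hm x (Finset.mem_filter.mp (hQ' hx)).1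
        have g5 := h x hx
        rw [Prod.mk.injEq] at g5
        exact ⟨(hK _ g4.1).1, g5.2 ▸ g4.2.2.2⟩
  have c2 : (#(Q.filter fun x => wronskian x.2.1 x.2.2 = 0) : ℝ) ≤
      qq k ^ (m + z + ka) * qq k ^ (2 * y + 2) := by
    refine step26 _ (fun x => (x.1, x.2.1)) ((box k m ×ˢ box k z) ×ˢ mon k ka) (fun x hx => ?_)
      (le_of_eq ?_) (by positivity) fun Q' hQ' a₀ ha₀ h => ?_
    · have h := hm x (Finset.mem_filter.mp hx).1
      have h' := (hK _ h.1).2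
      exact Finset.mem_product.mpr ⟨Finset.mem_product.mpr ⟨h'.1, h'.2.1⟩, (h'.2.2.2 _ h.2.1).1⟩
    · rw [Finset.card_product, Finset.card_product, Nat.cast_mul, Nat.cast_mul, card_box, card_box, card_mon]
      ring
    · have hinj : Set.InjOn (fun x : (Σ _ : k[X] × k[X], k[X] × k[X]) => x.2.2) Q' := by
        intro x hx x' hx' hxx
        have g1 := (h x hx).trans (h x' hx').symm
        rw [Prod.mk.injEq] at g1
        exact ext x (Finset.mem_filter.mp (hQ' hx)).1 x' (Finset.mem_filter.mp (hQ' hx')).1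
          g1.1 (Prod.ext g1.2 hxx)
      rw [← Finset.card_image_of_injOn hinj]
      have g2 := hm _ (Finset.mem_filter.mp (hQ' ha₀)).1
      have j0 : a₀.2.1 ≠ 0 := (mem_mon.mp ((hK _ g2.1).2.2.2.2 _ g2.2.1).1).1.ne_zero
      have w0 : ∀ x ∈ Q', wronskian a₀.2.1 x.2.2 = 0 := fun x hx => by
        have g5 := h x hx
        rw [Prod.mk.injEq] at g5
        exact g5.2 ▸ (Finset.mem_filter.mp (hQ' hx)).2
      refine wr0_26 y _ (fun b hb => ?_) fun b hb b' hb' => ?_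
      · obtain ⟨x, hx, rfl⟩ := Finset.mem_image.mp hb
        have g4 := hm x (Finset.mem_filter.mp (hQ' hx)).1
        have g6 := (hK _ g4.1).2.2.2.2 _ g4.2.2.1
        exact ⟨(mem_mon.mp g6.1).1.ne_zero, g6.2⟩
      · obtain ⟨x, hx, rfl⟩ := Finset.mem_image.mp hb
        obtain ⟨x', hx', rfl⟩ := Finset.mem_image.mp hb'
        have g7 := wr_three26 a₀.2.1 x.2.2 x'.2.2
        rw [w0 x hx, w0 x' hx', mul_zero, mul_zero, sub_zero] at g7
        exact (mul_eq_zero.mp g7).resolve_left j0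
  have e2 := Finset.card_filter_add_card_filter_not (s := Q) (fun x => wronskian x.2.1 x.2.2 = 0)
  have e3 : (#Q : ℝ) = #(Q.filter fun x => wronskian x.2.1 x.2.2 = 0) +
      #(Q.filter fun x => ¬ wronskian x.2.1 x.2.2 = 0) := by exact_mod_cast e2.symm
  rw [e1, e3]
  linarith

/-- LS: Cauchy-Schwarz over the keys, summed over `Z0` -/
theorem lsp27 [CharP k 3] (Keys : Finset (k[X] × k[X])) (K : k[X] × k[X] → Finset k[X])
    (m z ka y dl : ℕ) {τ : ℝ} (hτ0 : 0 ≤ τ)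
    (hτ : ∀ w : k[X], w ≠ 0 → w.natDegree ≤ dl + 2 * ka → ∀ S : Finset k[X],
      (∀ d ∈ S, d.Monic ∧ d ∣ w) → (#S : ℝ) ≤ τ)
    (hK : ∀ a ∈ Keys, a.1.Monic ∧ a.1 ∈ box k m ∧ a.2 ∈ box k z ∧ IsCoprime a.1 a.2 ∧
      ∀ j ∈ K a, j ∈ mon k ka ∧ ∀ d : k[X], d ^ 2 ∣ j → d.natDegree ≤ y) :
    ∑ a ∈ Keys, ∑ Z0 ∈ (box k dl).erase 0,
      √(#((K a ×ˢ K a).filter fun x => a.1 ∣ Z0 * wronskian (a.2 * x.1) (a.2 * x.2)) : ℝ) ≤
      qq k ^ dl * √(qq k ^ (m + z) *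
        (qq k ^ (z + 2 * ka) * τ + qq k ^ (m + z + ka) * qq k ^ (2 * y + 2))) := by
  have hq : (0 : ℝ) < qq k := lt_of_lt_of_le two_pos two_le_qq
  have hc : (#Keys : ℝ) ≤ qq k ^ (m + z) := by
    have h := Finset.card_le_card (s := Keys) (t := box k m ×ˢ box k z) fun a ha =>
      Finset.mem_product.mpr ⟨(hK a ha).2.1, (hK a ha).2.2.1⟩
    rw [Finset.card_product] at h
    rw [pow_add, ← card_box, ← card_box]
    exact_mod_cast h
  rw [Finset.sum_comm]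
  refine (Finset.sum_le_card_nsmul _ _ (√(qq k ^ (m + z) *
    (qq k ^ (z + 2 * ka) * τ + qq k ^ (m + z + ka) * qq k ^ (2 * y + 2)))) fun Z0 hZ => ?_).trans ?_
  · rw [Finset.mem_erase] at hZ
    refine Real.le_sqrt_of_sq_le ((sq_sum_le_card_mul_sum_sq).trans ?_)
    rw [Finset.sum_congr rfl fun a _ => Real.sq_sqrt (Nat.cast_nonneg _)]
    exact mul_le_mul hc (lsp27_count Keys K m z ka y dl hτ0 hτ hK hZ.1 (nat_box26 hZ.2))
      (Finset.sum_nonneg fun _ _ => Nat.cast_nonneg _) (by positivity)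
  · rw [nsmul_eq_mul]
    refine mul_le_mul_of_nonneg_right ?_ (Real.sqrt_nonneg _)
    rw [← card_box]
    exact_mod_cast Finset.card_erase_le

/-- from `W = gl Z` to the tuples: `S ⊆ box (dl + De)` any set, `f P` of degree `De`, prime to `gl` -/
theorem swap27 {π : Type*} (Ps : Finset π) (f : π → k[X]) {gl : k[X]} (dl De : ℕ) (S : Finset k[X])
    (hf : ∀ P ∈ Ps, f P ≠ 0 ∧ (f P).natDegree = De ∧ IsCoprime (f P) gl) (hS : S ⊆ box k (dl + De)) :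
    ∑ Z ∈ S.erase 0, (#(Ps.filter fun P => f P ∣ gl * Z) : ℝ) =
      ∑ P ∈ Ps, (#(((box k dl).erase 0).filter fun Z0 => f P * Z0 ∈ S) : ℝ) := by
  simp only [Finset.card_filter, Nat.cast_sum]
  rw [Finset.sum_comm]
  refine Finset.sum_congr rfl fun P hP => ?_
  rw [← Nat.cast_sum, ← Nat.cast_sum, ← Finset.card_filter, ← Finset.card_filter, Nat.cast_inj]
  obtain ⟨f0, fd, fc⟩ := hf P hP
  refine (Finset.card_nbij (fun Z0 => f P * Z0) (fun Z0 h => ?_) (fun x _ y _ h => mul_left_cancel₀ f0 h)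
    fun Z h => ?_).symm
  · rw [Finset.mem_coe, Finset.mem_filter, Finset.mem_erase] at h ⊢
    exact ⟨⟨mul_ne_zero f0 h.1.1, h.2⟩, Dvd.dvd.mul_left (dvd_mul_right _ _) _⟩
  · rw [Finset.mem_coe, Finset.mem_filter, Finset.mem_erase] at h
    obtain ⟨Z0, rfl⟩ := fc.dvd_of_dvd_mul_left h.2
    have z0 : Z0 ≠ 0 := right_ne_zero_of_mul h.1.1
    refine ⟨Z0, ?_, rfl⟩
    rw [Finset.mem_coe, Finset.mem_filter, Finset.mem_erase]
    refine ⟨⟨z0, ?_⟩, h.1.2⟩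
    have h1 := mem_box.mp (hS h.1.2)
    rw [← natDegree_lt_iff_degree_lt h.1.1, natDegree_mul f0 z0] at h1
    rw [mem_box, ← natDegree_lt_iff_degree_lt z0]
    omega

end H18M

end
end
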