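import Pool.Agent.MP_d0fd9b_nt.P3.S0
import Pool.Agent.MP_d0fd9b_nt.P3.A3
import Pool.Agent.MP_d0fd9b_nt.P3.A1
import Pool.Agent.MP_d0fd9b_nt.P3.A2

-- part H18M.Par5
section

/-! Small counts for the choice of the parameters. -/

set_option autoImplicit false
open Polynomial Finset UniqueFactorizationMonoid CL5 Filter Topology
open scoped Classical

noncomputable section
namespace Pool.Agent.H18M.P5

variable {k : Type*} [Field k] [Fintype k]

theorem poly5 (A C κ : ℕ) (hκ : 0 < κ) : ∀ᶠ n : ℕ in atTop, (C * n + C) ^ A ≤ 2 ^ (n / κ) := by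
  have h := (tendsto_pow_const_div_const_pow_of_one_lt A (r := (2 : ℝ)) (by norm_num)).eventually
    (gt_mem_nhds (show (0 : ℝ) < 1 / (4 * (C : ℝ) * κ + 1) ^ A by positivity))
  filter_upwards [(Nat.tendsto_div_const_atTop hκ.ne').eventually h,
    (Nat.tendsto_div_const_atTop hκ.ne').eventually (eventually_ge_atTop 1)] with n h1 h2
  set m := n / κ with hm
  have h3 : n < κ * (m + 1) := by rw [hm]; exact Nat.lt_mul_div_succ n hκ
  have h4 : C * n + C ≤ (4 * C * κ + 1) * m := by nlinarith [Nat.mul_le_mul_left C h3, Nat.mul_le_mul_left (C * κ) h2]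
  rw [div_lt_div_iff₀ (by positivity) (by positivity), one_mul, ← mul_pow] at h1
  have h5 : (m * (4 * C * κ + 1)) ^ A < 2 ^ m := by exact_mod_cast h1
  exact (Nat.pow_le_pow_left (h4.trans_eq (mul_comm _ _)) A).trans h5.le

theorem prs_deg (f : k[X]) (hf : f ≠ 0) (S : Finset k[X])
    (hS : ∀ p ∈ S, p.Monic ∧ Irreducible p ∧ p ∣ f) : ∑ p ∈ S, p.natDegree ≤ f.natDegree := by
  rw [← natDegree_prod_of_monic _ _ fun p hp => (hS p hp).1]
  refine natDegree_le_of_dvd (Finset.prod_dvd_of_coprime (fun p hp p' hp' hne => ?_)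
    fun p hp => (hS p hp).2.2) hf
  exact p80_cop (hS p hp).1 (hS p hp).2.1 (hS p' hp').1 (hS p' hp').2.1 hne

theorem prs_card (f : k[X]) (hf : f ≠ 0) (S : Finset k[X])
    (hS : ∀ p ∈ S, p.Monic ∧ Irreducible p ∧ p ∣ f) : #S ≤ f.natDegree := by
  refine le_trans ?_ (prs_deg f hf S hS)
  rw [card_eq_sum_ones]
  exact sum_le_sum fun p hp => (hS p hp).2.1.natDegree_pos

theorem div_fin (f : k[X]) (hf : f ≠ 0) (s : ℕ) (hs : 0 < s) (S : Finset k[X])
    (hS : ∀ d ∈ S, d.Monic ∧ d ∣ f) :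
    #S ≤ (f.natDegree + 1) ^ #(box k s) * 2 ^ (f.natDegree / s) := by
  set F := normalizedFactors f with hF
  have m1 : ∀ p ∈ F, Irreducible p ∧ p.Monic := fun p hp =>
    ⟨((Polynomial.mem_normalizedFactors_iff hf).1 hp).1,
      ((Polynomial.mem_normalizedFactors_iff hf).1 hp).2.1⟩
  have d1 : ∑ p ∈ F.toFinset, F.count p * p.natDegree ≤ f.natDegree := by
    have h1 : F.prod ∣ f := (prod_normalizedFactors hf).dvd
    have h2 := natDegree_le_of_dvd h1 hf
    rw [natDegree_multiset_prod_of_monic _ fun p hp => (m1 p hp).2, Finset.sum_multiset_map_count] at h2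
    simpa using h2
  have c1 : #S ≤ #(Iic F) := by
    refine card_le_card_of_injOn normalizedFactors (fun d hd => ?_) fun d hd d' hd' e => ?_
    · exact mem_coe.2 (mem_Iic.2 ((dvd_iff_normalizedFactors_le_normalizedFactors
        (hS d hd).1.ne_zero hf).1 (hS d hd).2))
    · exact eq_of_monic_of_associated (hS d hd).1 (hS d' hd').1
        ((associated_iff_normalizedFactors_eq_normalizedFactors (hS d hd).1.ne_zero
          (hS d' hd').1.ne_zero).2 e)
  rw [Multiset.card_Iic, ← prod_filter_mul_prod_filter_not _ (fun p => p ∈ box k s)] at c1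
  refine c1.trans (Nat.mul_le_mul ?_ ?_)
  · refine (prod_le_pow_card _ _ (f.natDegree + 1) fun p hp => ?_).trans
      (Nat.pow_le_pow_right (by omega) (card_le_card fun p hp => (mem_filter.1 hp).2))
    have h1 := (mem_filter.1 hp).1
    have h2 := single_le_sum (f := fun p => F.count p * p.natDegree) (fun _ _ => Nat.zero_le _) h1
    have h3 := Nat.mul_le_mul_left (F.count p) (m1 p (Multiset.mem_toFinset.1 h1)).1.natDegree_pos
    omega
  · refine (prod_le_prod' fun p _ => Nat.lt_two_pow_self (n := F.count p)).trans ?_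
    rw [prod_pow_eq_pow_sum]
    refine Nat.pow_le_pow_right (by omega) ((Nat.le_div_iff_mul_le hs).2 (le_trans ?_ d1))
    rw [sum_mul]
    refine (sum_le_sum fun p hp => Nat.mul_le_mul_left _ ?_).trans
      (sum_le_sum_of_subset (filter_subset _ _))
    obtain ⟨h1, h2⟩ := mem_filter.1 hp
    rw [mem_box, ← natDegree_lt_iff_degree_lt (m1 p (Multiset.mem_toFinset.1 h1)).2.ne_zero] at h2
    omega

/-- Divisor bound. -/
theorem div5 (C κ : ℕ) (hκ : 0 < κ) : ∀ᶠ n : ℕ in atTop, ∀ f : k[X], f ≠ 0 → f.natDegree ≤ C * n →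
    ∀ S : Finset k[X], (∀ d ∈ S, d.Monic ∧ d ∣ f) → #S ≤ 2 ^ (n / κ) := by
  filter_upwards [poly5 #(box k (2 * κ * (C + 1))) (C + 1) (2 * κ) (by omega)] with n hn f hf hd S hS
  refine (div_fin f hf (2 * κ * (C + 1)) (by positivity) S hS).trans ?_
  have h1 : f.natDegree / (2 * κ * (C + 1)) ≤ n / (2 * κ) := by
    rw [← Nat.mul_div_mul_right n (2 * κ) (Nat.succ_pos C)]
    exact Nat.div_le_div_right (by nlinarith)
  have h2 : n / (2 * κ) + n / (2 * κ) ≤ n / κ := by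
    rw [mul_comm 2 κ, ← Nat.div_div_eq_div_mul]; omega
  calc _ ≤ 2 ^ (n / (2 * κ)) * 2 ^ (n / (2 * κ)) := Nat.mul_le_mul
        ((Nat.pow_le_pow_left (by nlinarith) _).trans hn) (Nat.pow_le_pow_right (by omega) h1)
    _ ≤ _ := by rw [← pow_add]; exact Nat.pow_le_pow_right (by omega) h2

theorem two_pow_le (j : ℕ) : ((2 ^ j : ℕ) : ℝ) ≤ qq k ^ j := by
  push_cast
  exact pow_le_pow_left₀ (by norm_num) two_le_qq j

/-- Primes of degree `e` not dividing `g`. -/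
theorem pri1 {g : k[X]} (hg : g ≠ 0) {e : ℕ} (he : 6 ≤ e) (hN : 4 * g.natDegree ≤ 2 ^ e)
    (S : Finset k[X]) (hS : ∀ P, P.Monic → Irreducible P → P.natDegree = e → IsCoprime P g → P ∈ S) :
    qq k ^ e ≤ 2 * e * #S := by
  have h1 := p80_pnt (k := k) (j := e) (by omega)
  have h2 := prs_deg g hg (((mon k e).filter Irreducible).filter (· ∣ g)) fun p hp => by
    simp only [mem_filter, mem_mon] at hp
    exact ⟨hp.1.1.1, hp.1.2, hp.2⟩
  rw [sum_congr rfl (g := fun _ => e) fun p hp => by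
    simp only [mem_filter, mem_mon] at hp
    exact hp.1.1.2, sum_const, smul_eq_mul] at h2
  have h3 := card_filter_add_card_filter_not (s := (mon k e).filter Irreducible) (· ∣ g)
  have h4 : #(((mon k e).filter Irreducible).filter (fun p => ¬ p ∣ g)) ≤ #S :=
    card_le_card fun p hp => by
      simp only [mem_filter, mem_mon] at hp
      exact hS p hp.1.1.1 hp.1.2 hp.1.1.2 (hp.1.2.coprime_iff_not_dvd.2 hp.2)
  have h5 : 4 * (e * #((mon k e).filter Irreducible)) ≤ 4 * (e * #S) + 2 ^ e := by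
    rw [← h3]; nlinarith [Nat.mul_le_mul_left e h4]
  have h6 : (4 : ℝ) * (e * #((mon k e).filter Irreducible)) ≤ 4 * (e * #S) + (2 ^ e : ℕ) := by
    exact_mod_cast h5
  have h7 := two_pow_le (k := k) e
  have q2 := two_le_qq (k := k)
  have h8 : 8 * qq k ^ (e / 2) ≤ qq k ^ e := by
    calc _ ≤ qq k ^ 3 * qq k ^ (e / 2) := by
          have := two_pow_le (k := k) 3
          norm_num at this
          gcongr
      _ ≤ _ := by rw [← pow_add]; exact pow_le_pow_right₀ (by linarith) (by omega)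
  linarith

theorem pri5 {ι : Type*} [Fintype ι] [DecidableEq ι] {g : k[X]} (hg : g ≠ 0) (e : ι → ℕ) {E : ℕ}
    (he : ∀ i, 6 ≤ e i ∧ e i ≤ E ∧ 4 * g.natDegree ≤ 2 ^ e i) (S : ι → Finset k[X])
    (hS : ∀ i P, P.Monic → Irreducible P → P.natDegree = e i → IsCoprime P g → P ∈ S i) :
    qq k ^ (∑ i, e i) ≤ (2 * (E : ℝ)) ^ Fintype.card ι * #(Fintype.piFinset S) := by
  have q2 := two_le_qq (k := k)
  rw [Fintype.card_piFinset, ← prod_pow_eq_pow_sum, Nat.cast_prod, ← card_univ, ← prod_const,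
    ← prod_mul_distrib]
  refine prod_le_prod (fun i _ => by positivity) fun i _ =>
    (pri1 hg (he i).1 (he i).2.2 _ (hS i)).trans ?_
  have : (e i : ℝ) ≤ E := by exact_mod_cast (he i).2.1
  gcongr

theorem pri5_le {ι : Type*} [Fintype ι] [DecidableEq ι] (e : ι → ℕ) (S : ι → Finset k[X])
    (hS : ∀ i, ∀ P ∈ S i, P.Monic ∧ P.natDegree = e i) :
    (#(Fintype.piFinset S) : ℝ) ≤ qq k ^ (∑ i, e i) := by
  rw [Fintype.card_piFinset, ← prod_pow_eq_pow_sum, Nat.cast_prod]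
  refine prod_le_prod (fun i _ => by positivity) fun i _ => ?_
  rw [← card_mon]
  exact_mod_cast card_le_card fun P hP => mem_mon.2 (hS i P hP)

/-- Bound for the weight. -/
theorem wt5 {ι : Type*} [Fintype ι] [DecidableEq ι] (S : ι → Finset k[X])
    (hS : ∀ i, ∀ P ∈ S i, P.Monic ∧ Irreducible P) {W : k[X]} (hW : W ≠ 0) {N : ℕ}
    (hN : W.natDegree ≤ N) :
    #{P ∈ Fintype.piFinset S | ∏ i, P i ∣ W} ≤ N ^ Fintype.card ι := by
  refine (card_le_card (t := Fintype.piFinset fun i => {p ∈ S i | p ∣ W}) fun P hP => ?_).trans ?_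
  · obtain ⟨h1, h2⟩ := mem_filter.1 hP
    exact Fintype.mem_piFinset.2 fun i => mem_filter.2 ⟨Fintype.mem_piFinset.1 h1 i,
      (dvd_prod_of_mem P (mem_univ i)).trans h2⟩
  · rw [Fintype.card_piFinset, ← card_univ]
    refine prod_le_pow_card _ _ _ fun i _ => (prs_card W hW _ fun p hp => ?_).trans hN
    obtain ⟨h1, h2⟩ := mem_filter.1 hp
    exact ⟨(hS i p h1).1, (hS i p h1).2, h2⟩

/-- Number of primitive directions. -/
theorem dir5 {t a : ℕ} (ht : 2 ≤ t) (ha : 6 ≤ a) : qq k ^ (t + a) ≤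
    4 * a * #{p ∈ box k t ×ˢ (box k (a + 1) \ box k a) | IsCoprime p.1 p.2} := by
  have q2 := two_le_qq (k := k)
  have h1 := pri1 (k := k) (g := 1) one_ne_zero ha (by simp) ((mon k a).filter Irreducible)
    fun P h1 h2 h3 _ => mem_filter.2 ⟨mem_mon.2 ⟨h1, h3⟩, h2⟩
  have h2 : ∀ b ∈ (mon k a).filter Irreducible, qq k ^ t ≤ 2 * #{x ∈ box k t | ¬ b ∣ x} := by
    intro b hb
    simp only [mem_filter, mem_mon] at hb
    have c1 := card_box_dvd_le (k := k) (N := t) hb.1.1.ne_zero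
    have c2 := card_filter_add_card_filter_not (s := box k t) (b ∣ ·)
    have c3 : #{x ∈ box k t | b ∣ x} ≤ #{x ∈ (box k t).erase 0 | b ∣ x} + 1 := by
      rw [filter_erase]
      have := pred_card_le_card_erase (s := {x ∈ box k t | b ∣ x}) (a := 0)
      omega
    have c4 : (#(box k t) : ℝ) ≤ #{x ∈ (box k t).erase 0 | b ∣ x} + 1 +
        #{x ∈ box k t | ¬ b ∣ x} := by
      have : #(box k t) ≤ #{x ∈ (box k t).erase 0 | b ∣ x} + 1 + #{x ∈ box k t | ¬ b ∣ x} := by omega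
      exact_mod_cast this
    rw [card_box] at c4
    have c5 : (4 : ℝ) ≤ qq k ^ t := by
      have := two_pow_le (k := k) 2
      norm_num at this
      exact this.trans (pow_le_pow_right₀ (by linarith) ht)
    have c6 : qq k ^ t / nrm b ≤ qq k ^ t / 4 := by
      have := two_pow_le (k := k) 2
      norm_num at this
      refine div_le_div_of_nonneg_left (by positivity) (by norm_num) ?_
      rw [nrm, hb.1.2]
      exact this.trans (pow_le_pow_right₀ (by linarith) (by omega))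
    linarith
  have h3 : ∑ b ∈ (mon k a).filter Irreducible, #{x ∈ box k t | ¬ b ∣ x} ≤
      #{p ∈ box k t ×ˢ (box k (a + 1) \ box k a) | IsCoprime p.1 p.2} := by
    rw [← card_sigma]
    refine card_le_card_of_injOn (fun z => (z.2, z.1)) (fun z hz => ?_) fun z _ z' _ e => ?_
    · simp only [coe_sigma, Set.mem_sigma_iff, mem_coe, mem_filter, mem_mon] at hz
      obtain ⟨⟨⟨z1, z2⟩, z3⟩, z4, z5⟩ := hz
      refine mem_coe.2 (mem_filter.2 ⟨mem_product.2 ⟨z4, mem_sdiff.2 ⟨mem_box.2 ?_,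
        fun h => ?_⟩⟩, (z3.coprime_iff_not_dvd.2 z5).symm⟩)
      · exact (natDegree_lt_iff_degree_lt z1.ne_zero).1 (by omega)
      · have := (natDegree_lt_iff_degree_lt z1.ne_zero).2 (mem_box.1 h)
        omega
    · obtain ⟨e1, e2⟩ := Prod.mk.inj e
      exact Sigma.ext e2 (heq_of_eq e1)
  have h4 := sum_le_sum h2
  rw [sum_const, nsmul_eq_mul, ← mul_sum] at h4
  have h5 : ∑ b ∈ (mon k a).filter Irreducible, (#{x ∈ box k t | ¬ b ∣ x} : ℝ) ≤
      #{p ∈ box k t ×ˢ (box k (a + 1) \ box k a) | IsCoprime p.1 p.2} := by exact_mod_cast h3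
  rw [pow_add]
  calc _ ≤ qq k ^ t * (2 * a * #((mon k a).filter Irreducible)) := by gcongr
    _ = 2 * a * (#((mon k a).filter Irreducible) * qq k ^ t) := by ring
    _ ≤ 2 * a * (2 * #{p ∈ box k t ×ˢ (box k (a + 1) \ box k a) | IsCoprime p.1 p.2}) := by
        exact mul_le_mul_of_nonneg_left (by linarith) (by positivity)
    _ = _ := by ring

theorem dir5_le (t a : ℕ) :
    (#{p ∈ box k t ×ˢ (box k (a + 1) \ box k a) | IsCoprime p.1 p.2} : ℝ) ≤ qq k ^ (t + a + 1) := by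
  rw [add_assoc, pow_add, ← card_box, ← card_box, ← Nat.cast_mul, ← card_product]
  exact_mod_cast card_le_card ((filter_subset _ _).trans
    (product_subset_product_right sdiff_subset))

/-- Choice of the degrees. -/
theorem deg5 {L D R : ℕ} (h1 : L ≤ D) (h2 : D ≤ R * L) (h3 : 200 * (R + 1) ≤ L) :
    ∃ r : ℕ, 0 < r ∧ r ≤ 5 * R + 1 ∧ ∃ e : Fin r → ℕ, Function.Injective e ∧
      (∀ i, L ≤ 8 * e i ∧ 4 * e i ≤ L) ∧ ∑ i, e i ≤ D ∧ D < ∑ i, e i + 2 * r := by
  have L0 : 0 < L := by omega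
  set r := 5 * D / L + 1 with hr
  have r1 : 5 * D < L * r := Nat.lt_mul_div_succ _ L0
  have r2 : L * r ≤ 6 * D := by
    have := Nat.mul_div_le (5 * D) L
    rw [hr, mul_add]; omega
  have r3 : r ≤ 5 * R + 1 := by
    have : 5 * D / L ≤ 5 * R := Nat.div_le_of_le_mul (by nlinarith)
    omega
  have r0 : 0 < r := Nat.succ_pos _
  clear_value r
  have s1 : ∀ b, ∑ i : Fin r, 2 * (b + (i : ℕ)) = 2 * r * b + r * (r - 1) := fun b => by
    rw [Fin.sum_univ_eq_sum_range (fun i => 2 * (b + i)), ← mul_sum, sum_add_distrib, sum_const,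
      card_range, smul_eq_mul, mul_add, ← Finset.sum_range_id_mul_two]
    ring
  have s2 : r * (r - 1) ≤ D := by
    have : r * (6 * (r - 1)) ≤ r * L := Nat.mul_le_mul_left _ (by omega)
    nlinarith
  set b := (D - r * (r - 1)) / (2 * r) with hb
  have b1 : 2 * r * b ≤ D - r * (r - 1) := Nat.mul_div_le _ _
  have b2 : D - r * (r - 1) < 2 * r * (b + 1) := Nat.lt_mul_div_succ _ (by omega)
  clear_value b
  obtain ⟨u, rfl⟩ : ∃ u, r = u + 1 := ⟨r - 1, by omega⟩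
  rw [Nat.add_sub_cancel] at *
  have b3 : (u + 1) * (5 * (2 * b + u)) < (u + 1) * L := by
    have : 2 * (u + 1) * b + (u + 1) * u ≤ D := by omega
    nlinarith
  have b4 : (u + 1) * L < (u + 1) * (6 * (2 * b + 2 + u)) := by
    have : D < 2 * (u + 1) * (b + 1) + (u + 1) * u := by omega
    nlinarith
  have b5 := Nat.lt_of_mul_lt_mul_left b3
  have b6 := Nat.lt_of_mul_lt_mul_left b4
  refine ⟨u + 1, r0, r3, fun i => 2 * (b + i), fun i j e => Fin.ext (by simp only at e; omega),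
    fun i => ?_, ?_, ?_⟩
  · have := i.2
    simp only
    omega
  · rw [s1]; omega
  · rw [s1]
    have : 2 * (u + 1) * (b + 1) = 2 * (u + 1) * b + 2 * (u + 1) := by ring
    omega

end Pool.Agent.H18M.P5

end
end

-- part H18M.End5a
section

/-! Normalisation: the Moebius sum is bounded by the bad pairs, the deviation and the lines. -/

set_option autoImplicit false
open Polynomial Finset CL5 CL3 Filter
open scoped Classical

noncomputable section
namespace Pool.Agent.H18M.P5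

variable {k : Type*} [Field k] [Fintype k]


omit [Fintype k] in
theorem abs_mu5 (f : k[X]) : |H68T.mu f| ≤ 1 := by
  unfold H68T.mu
  split_ifs
  · simp [Pool.Agent.MP_a4a062_nt.C2.lam]
  · simp

theorem swap5 [CharP k 3] {n j : ℕ} (hj : j ≤ n) (c : k[X] → ℝ) :
    ∑ x ∈ mon k j, c x * ∑ e ∈ mon k (n - j), H68T.mu e * H68T.aa (x * e) =
      ∑ z ∈ (box k (n / 2)).erase 0 ×ˢ mon k j, c z.2 *
        ∑ E ∈ mon k (n - j) with CL3.car (z.1 * z.2 * E) = z.1, H68T.mu E := by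
  rw [sum_product_right]
  refine sum_congr rfl fun x hx => ?_
  simp only [← mul_sum]
  congr 1
  simp only [sum_filter]
  rw [sum_comm]
  refine sum_congr rfl fun e he => ?_
  obtain ⟨x1, x2⟩ := mem_mon.1 hx
  obtain ⟨e1, e2⟩ := mem_mon.1 he
  have hd : (x * e).natDegree = n := by rw [x1.natDegree_mul e1]; omega
  rw [← sum_filter, sum_const, nsmul_eq_mul, mul_comm, H68T.aa, CL3.Sol, hd, filter_erase]
  simp only [mul_assoc]

/-- The abstract normalisation. -/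
theorem norm5 {ζ β : Type*} [DecidableEq ζ] (Z G : Finset ζ) (hG : G ⊆ Z) (F : ζ → Finset β) (μ : β → ℝ)
    (hμ : ∀ E, |μ E| ≤ 1) (c : ζ → ℝ) (hc : ∀ z, |c z| ≤ 1) (N : ζ → β → ℝ) (R : ζ → ℝ)
    {R0 b1 b2 b3 : ℝ} (h0 : 0 < R0) (hR : ∀ z ∈ G, R0 ≤ R z)
    (h1 : ∑ z ∈ Z \ G, (#(F z) : ℝ) ≤ b1)
    (h2 : ∑ z ∈ G, ∑ E ∈ F z, |N z E - R z| ≤ b2)
    (h3 : ∀ c' : ζ → ℝ, (∀ z, |c' z| ≤ 1) →
      |∑ z ∈ G, c' z * ∑ E ∈ F z, μ E * N z E| ≤ b3) :
    |∑ z ∈ Z, c z * ∑ E ∈ F z, μ E| ≤ b1 + (b2 + b3) / R0 := by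
  rw [← sum_sdiff hG]
  refine (abs_add_le _ _).trans (add_le_add ?_ ?_)
  · refine (abs_sum_le_sum_abs _ _).trans ((sum_le_sum fun z _ => ?_).trans h1)
    rw [abs_mul]
    refine (mul_le_of_le_one_left (abs_nonneg _) (hc z)).trans
      ((abs_sum_le_sum_abs _ _).trans ((sum_le_sum fun E _ => hμ E).trans_eq (by simp)))
  · set c' : ζ → ℝ := fun z => if z ∈ G then c z * (R0 / R z) else 0 with hc'
    have a1 : ∀ z, |c' z| ≤ 1 := fun z => by
      simp only [hc']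
      split_ifs with h
      · have := hR z h
        rw [abs_mul, abs_of_nonneg (div_nonneg h0.le (by linarith))]
        exact mul_le_one₀ (hc z) (div_nonneg h0.le (by linarith))
          ((div_le_one (by linarith)).2 this)
      · simp
    have a2 : (∑ z ∈ G, c z * ∑ E ∈ F z, μ E) * R0 =
        -(∑ z ∈ G, ∑ E ∈ F z, c' z * μ E * (N z E - R z)) +
          ∑ z ∈ G, c' z * ∑ E ∈ F z, μ E * N z E := by
      rw [← sum_neg_distrib, ← sum_add_distrib, sum_mul]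
      refine sum_congr rfl fun z hz => ?_
      have := hR z hz
      have r0 : R z ≠ 0 := by linarith [h0] |> fun h : 0 < R z => h.ne'
      simp only [hc', if_pos hz, mul_sum, sum_mul]
      rw [← sum_neg_distrib, ← sum_add_distrib]
      refine sum_congr rfl fun E _ => ?_
      field_simp
      ring
    rw [le_div_iff₀ h0, ← abs_of_pos h0, ← abs_mul, a2]
    refine (abs_add_le _ _).trans (add_le_add ?_ (h3 c' a1))
    rw [abs_neg]
    refine (abs_sum_le_sum_abs _ _).trans ((sum_le_sum fun z _ =>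
      (abs_sum_le_sum_abs _ _).trans (sum_le_sum fun E _ => ?_)).trans h2)
    rw [abs_mul, abs_mul]
    exact mul_le_of_le_one_left (abs_nonneg _)
      (mul_le_one₀ (a1 z) (abs_nonneg _) (hμ E))

/-- The choice of all parameters. -/
theorem par5 (κ : ℕ) (hκ : 0 < κ) : ∃ A : ℕ, 0 < A ∧ ∀ᶠ n : ℕ in atTop, ∀ ka : ℕ,
    ka + n / κ ≤ n / 2 → ∃ (s u σ la dd ep r : ℕ) (e : Fin r → ℕ), s = n / A ∧
      n / 2 = ka + 96 * la + dd ∧ dd < 96 ∧ n = 2 * (n / 2) + ep ∧ ep ≤ 1 ∧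
      10 ^ 4 * s ≤ la ∧ r + 100 ≤ s ∧ 200 * s * 2 ^ (2 * r + 2) ≤ la ∧ 4 * u ≤ s ∧ 5 ≤ u ∧
      (20 * n) ^ (r + 4) ≤ 2 ^ σ ∧ (2 * r + 4) * σ ≤ u ∧
      (∀ f : k[X], f ≠ 0 → f.natDegree ≤ 9 * n → ∀ S : Finset k[X],
        (∀ d ∈ S, d.Monic ∧ d ∣ f) → #S ≤ 2 ^ σ) ∧
      0 < r ∧ Function.Injective e ∧ (∀ i, 6 * la ≤ e i ∧ e i ≤ 12 * la) ∧
      ∑ i, e i + 3 * la + n / 2 ≤ (n - ka) + (n - ka - 48 * la) + 2 ∧
      (n - ka) + (n - ka - 48 * la) + 2 < ∑ i, e i + 3 * la + n / 2 + 2 * r := by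
  set B := 10 ^ 4 * 2 ^ (80 * κ + 4) with hB
  have B0 : 0 < B := by positivity
  have A0 : 0 < κ * 96 * B := by positivity
  refine ⟨κ * 96 * B, A0, ?_⟩
  filter_upwards [poly5 (40 * κ + 5) 20 (κ * 96 * B * 4 * (80 * κ + 6)) (by positivity),
    div5 (k := k) 9 (κ * 96 * B * 4 * (80 * κ + 6)) (by positivity),
    (Nat.tendsto_div_const_atTop A0.ne').eventually (eventually_ge_atTop (40 * κ + 101))]
    with n h1 h2 h3 ka hka
  set s := n / (κ * 96 * B) with hs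
  set la := (n / 2 - ka) / 96 with hla
  have b1 : s * B ≤ la := by
    have c1 : n / (κ * 96) ≤ la := by
      rw [← Nat.div_div_eq_div_mul]
      exact Nat.div_le_div_right (by omega)
    rw [hs, ← Nat.div_div_eq_div_mul n (κ * 96) B]
    exact (Nat.div_mul_le_self _ _).trans c1
  have b2 : 10 ^ 4 * s ≤ la := by
    refine le_trans ?_ b1
    rw [mul_comm]
    exact Nat.mul_le_mul_left _ (Nat.le_mul_of_pos_right _ (by positivity))
  have b3 : n ≤ 192 * (κ * la) := by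
    have c1 := Nat.lt_mul_div_succ n hκ
    have c2 : n / κ + 1 ≤ 192 * la := by omega
    nlinarith [Nat.mul_le_mul_left κ c2]
  obtain ⟨r, r0, r1, e, e1, e2, e3, e4⟩ := deg5 (L := 48 * la)
    (D := (n - ka) + (n - ka - 48 * la) + 2 - 3 * la - n / 2) (R := 8 * κ) (by omega)
    (by have : 8 * κ * (48 * la) = 2 * (192 * (κ * la)) := by ring
        omega) (by omega)
  have n0 : 0 < n := by omega
  rw [← Nat.div_div_eq_div_mul n _ (80 * κ + 6), ← Nat.div_div_eq_div_mul n _ 4, ← hs] at h1 h2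
  refine ⟨s, s / 4, _, la, (n / 2 - ka) % 96, n % 2, r, e, rfl, by omega, by omega, by omega,
    by omega, b2, by omega, ?_, by omega, by omega, ?_, ?_, h2, r0, e1,
    fun i => by have := e2 i; omega, by omega, by omega⟩
  · refine le_trans ?_ b1
    rw [hB, mul_comm 200 s, mul_assoc]
    exact Nat.mul_le_mul_left _ (Nat.mul_le_mul (by norm_num)
      (Nat.pow_le_pow_right (by norm_num) (by omega)))
  · exact (Nat.pow_le_pow_right (by omega) (by omega)).trans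
      ((Nat.pow_le_pow_left (by omega) (40 * κ + 5)).trans h1)
  · exact (Nat.mul_le_mul_right _ (by omega)).trans (Nat.mul_div_le _ (80 * κ + 6))

end Pool.Agent.H18M.P5

end
end

-- part H18M.Data26
section

/-! h18m (helper26): the data attached to a good pair, the weight, and the line bound with the
parameters of the proof. -/

set_option autoImplicit false
open Polynomial Finset
open scoped Classical BigOperators

noncomputable section
namespace H18M
open CL5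

variable {k : Type} [Field k] [Fintype k]

/-- everything known on a good pair `x = (g, k)` -/
structure Gd26 (m ka ν y H0 : ℕ) (x : k[X] × k[X]) (c u h₁ h₂ : k[X]) (t1 a len : ℕ) : Prop where
  g0 : x.1 ≠ 0
  gb : x.1 ∈ box k m
  km : x.2 ∈ mon k ka
  gd : m ≤ x.1.natDegree + y
  sq : ∀ d : k[X], d ^ 2 ∣ x.1 * x.2 → d.natDegree ≤ y
  spl : ∃ gf gs : k[X], x.1 = gf * gs ∧ gf.Monic ∧ Squarefree gf ∧ IsCoprime gf (gs * x.2) ∧
    gs.natDegree ≤ 3 * y
  cm : c.Monic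
  hc : x.1 * x.2 = c ^ 3 * u
  cd : c.natDegree ≤ y
  hf : ∀ r : k[X], r ^ 3 ∣ u → IsUnit r
  u0 : u ≠ 0
  ul : m + ka ≤ u.natDegree + 4 * y
  uu : u.natDegree < m + ka
  n₁ : h₁ ≠ 0
  n₂ : h₂ ≠ 0
  m₁ : derivative (derivative (x.1 * x.2 * h₁)) = 0
  m₂ : derivative (derivative (x.1 * x.2 * h₂)) = 0
  hw : wronskian h₁ h₂ = u
  ne : h₁.natDegree % 3 ≠ h₂.natDegree % 3
  sp : ∀ h, derivative (derivative (x.1 * x.2 * h)) = 0 →
    ∃ α β : k[X], h = α ^ 3 * h₁ + β ^ 3 * h₂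
  ds : h₁.natDegree + h₂.natDegree = u.natDegree + 1
  d₁ : 2 * h₁.natDegree ≤ m + ka + 3 * y
  d₂ : 2 * h₂.natDegree ≤ m + ka + 3 * y
  Hl : H0 ≤ 3 * a + h₂.natDegree
  Hu : 3 * a + h₂.natDegree ≤ H0 + 2
  ht : t1 = (3 * a + h₂.natDegree - h₁.natDegree + 2) / 3
  hl : len = (ν - (3 * a + h₂.natDegree) + 2) / 3
  s1u : (ν - h₁.natDegree + 2) / 3 ≤ len + t1
  s1l : len + t1 ≤ (ν - h₁.natDegree + 2) / 3 + 1
  s2 : (ν - h₂.natDegree + 2) / 3 = len + a

/-- the primes of degree `e i` not dividing `g` -/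
def S26 {I : Type} (e : I → ℕ) (g : k[X]) (i : I) : Finset k[X] :=
  (mon k (e i)).filter (fun P => Irreducible P ∧ ¬ P ∣ g)

theorem mem_S26 {I : Type} {e : I → ℕ} {g P : k[X]} {i : I} : P ∈ S26 e g i ↔
    P.Monic ∧ Irreducible P ∧ P.natDegree = e i ∧ ¬ P ∣ g := by
  rw [S26, mem_filter, mem_mon]
  tauto

/-- the weight -/
def w26 {I : Type} [Fintype I] (e : I → ℕ) (g W : k[X]) : ℝ :=
  if W = 0 then 0 else #((Fintype.piFinset (S26 e g)).filter (fun P => ∏ i, P i ∣ W))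

theorem w26_zero {I : Type} [Fintype I] (e : I → ℕ) (g : k[X]) : w26 e g 0 = 0 := if_pos rfl

theorem w26_ne {I : Type} [Fintype I] (e : I → ℕ) (g : k[X]) {W : k[X]} (h : W ≠ 0) :
    w26 e g W = #((Fintype.piFinset (S26 e g)).filter (fun P => ∏ i, P i ∣ W)) := if_neg h

theorem w26_nonneg {I : Type} [Fintype I] (e : I → ℕ) (g W : k[X]) : 0 ≤ w26 e g W := by
  unfold w26
  split_ifs <;> positivity

variable [CharP k 3]

/-- **DATA.** The good pairs with their data; the other pairs satisfy the hypothesis of `badw32`. -/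
theorem data26 (m ka ν y H0 : ℕ) (h1 : m + ka + 3 * y ≤ 2 * H0) (h2 : H0 + 2 ≤ ν) :
    ∃ (G : Finset (k[X] × k[X])) (c u h₁ h₂ : k[X] × k[X] → k[X])
      (t1 a len : k[X] × k[X] → ℕ), G ⊆ (box k m).erase 0 ×ˢ mon k ka ∧
      (∀ x ∈ G, Gd26 m ka ν y H0 x (c x) (u x) (h₁ x) (h₂ x) (t1 x) (a x) (len x)) ∧
      ∀ p ∈ ((box k m).erase 0 ×ˢ mon k ka) \ G, p.1 ≠ 0 ∧ p.1 ∈ box k m ∧ p.2 ∈ mon k ka ∧
        (p.1.natDegree + y < m ∨ (∃ d : k[X], d ^ 2 ∣ p.1 * p.2 ∧ y < d.natDegree) ∨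
          ∃ c u h1 h2 : k[X], CL3.Dat32 (p.1 * p.2) c u h1 h2 ∧
            (m + ka + 3 * y < 2 * h1.natDegree ∨ m + ka + 3 * y < 2 * h2.natDegree)) := by
  obtain ⟨G, hG⟩ : ∃ G : Finset (k[X] × k[X]), G = ((box k m).erase 0 ×ˢ mon k ka).filter
    (fun p => ¬ (p.1.natDegree + y < m ∨ (∃ d : k[X], d ^ 2 ∣ p.1 * p.2 ∧ y < d.natDegree) ∨
      ∃ c u h1 h2 : k[X], CL3.Dat32 (p.1 * p.2) c u h1 h2 ∧
        (m + ka + 3 * y < 2 * h1.natDegree ∨ m + ka + 3 * y < 2 * h2.natDegree))) := ⟨_, rfl⟩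
  have key : ∀ x ∈ G, ∃ (c u h₁ h₂ : k[X]) (t1 a len : ℕ),
      Gd26 m ka ν y H0 x c u h₁ h₂ t1 a len := fun x hx => by
    rw [hG, mem_filter, mem_product, mem_erase] at hx
    obtain ⟨⟨⟨g0, gb⟩, km⟩, hx⟩ := hx
    rw [not_or, not_or] at hx
    obtain ⟨x1, x2, x3⟩ := hx
    have k0 := (mem_mon.1 km).1.ne_zero
    have A0 := mul_ne_zero g0 k0
    have sq : ∀ d : k[X], d ^ 2 ∣ x.1 * x.2 → d.natDegree ≤ y := fun d hd =>
      not_lt.1 fun e => x2 ⟨d, hd, e⟩
    obtain ⟨c, u, h₁, h₂, a1, a2, a3, a4, a5, a6, a7, a8, a9, a10, a11, a12⟩ :=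
      Pool.Agent.H18Str.st_basis A0
    have u0 : u ≠ 0 := fun e => A0 (by rw [a2, e, mul_zero])
    have hD : CL3.Dat32 (x.1 * x.2) c u h₁ h₂ := ⟨a2, a1, u0, a4, a5,
      CL3.car_eq_zero_iff.mpr a6, CL3.car_eq_zero_iff.mpr a7, by omega, a9,
      fun h hh => a12 h (CL3.car_eq_zero_iff.mp hh)⟩
    have d₁ : 2 * h₁.natDegree ≤ m + ka + 3 * y :=
      not_lt.1 fun e => x3 ⟨c, u, h₁, h₂, hD, Or.inl e⟩
    have d₂ : 2 * h₂.natDegree ≤ m + ka + 3 * y :=
      not_lt.1 fun e => x3 ⟨c, u, h₁, h₂, hD, Or.inr e⟩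
    have cd : c.natDegree ≤ y := sq c ⟨c * u, by rw [a2]; ring⟩
    have b1 : x.1.natDegree + ka = 3 * c.natDegree + u.natDegree := by
      rw [← (mem_mon.1 km).2, ← natDegree_mul g0 k0, a2,
        natDegree_mul (pow_ne_zero 3 a1.ne_zero) u0, natDegree_pow]
    have b2 : x.1.natDegree < m := (natDegree_lt_iff_degree_lt g0).2 (mem_box.1 gb)
    refine ⟨c, u, h₁, h₂, _, (H0 - h₂.natDegree + 2) / 3, _, g0, gb, km, by omega, sq,
      CL3.good_split32 g0 k0 sq, a1, a2, cd, a3, u0, by omega, by omega, a4, a5, a6, a7, a8,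
      by omega, a12, a9, d₁, d₂, by omega, by omega, rfl, rfl, ?_, ?_, ?_⟩ <;> omega
  choose! c u h₁ h₂ t1 a len hk using key
  refine ⟨G, c, u, h₁, h₂, t1, a, len, hG ▸ filter_subset _ _, hk, fun p hp => ?_⟩
  obtain ⟨b1, b2⟩ := mem_sdiff.1 hp
  obtain ⟨b3, b4⟩ := mem_product.1 b1
  refine ⟨(mem_erase.1 b3).1, (mem_erase.1 b3).2, b4, ?_⟩
  by_contra hn
  exact b2 (hG ▸ mem_filter.2 ⟨b1, hn⟩)

/-- the size of a fibre -/
theorem Gd26.card_F {m ka ν y H0 : ℕ} {x : k[X] × k[X]} {c u h₁ h₂ : k[X]} {t1 a len : ℕ}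
    (H : Gd26 m ka ν y H0 x c u h₁ h₂ t1 a len) :
    (#((mon k ν).filter (fun E => derivative (derivative (x.1 * x.2 * E)) = -x.1 ^ 3)) : ℝ) ≤
      qq k ^ ((ν - h₁.natDegree + 2) / 3 + (ν - h₂.natDegree + 2) / 3) := by
  have := CL3.bw_F (k := k) ⟨H.hc, H.cm, H.u0, H.n₁, H.n₂, CL3.car_eq_zero_iff.mpr H.m₁,
    CL3.car_eq_zero_iff.mpr H.m₂, H.ne, H.ds, fun h hh => H.sp h (CL3.car_eq_zero_iff.mp hh)⟩
    x.1 ν
  simpa only [CL3.car_eq_iff] using this

/-- **DATA**, in the parameters of the final estimate. -/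
theorem data26p (n m ka s la dd ep : ℕ) (hm : m = ka + 96 * la + dd) (hn : n = 2 * m + ep)
    (hep : ep ≤ 1) (hs : 1 ≤ s) (hla : 10 ^ 4 * s ≤ la) :
    ∃ (G : Finset (k[X] × k[X])) (c u h₁ h₂ : k[X] × k[X] → k[X]) (t1 a : k[X] × k[X] → ℕ),
      G ⊆ (box k m).erase 0 ×ˢ mon k ka ∧
      (∀ x ∈ G, Gd26 m ka (n - ka) (12 * s) (m + 48 * la + dd + ep) x (c x) (u x) (h₁ x) (h₂ x)
        (t1 x) (a x) (16 * la)) ∧
      (∀ x ∈ G, x.1 ≠ 0 ∧ x.1 ∈ box k m ∧ x.2 ∈ mon k ka ∧ m ≤ x.1.natDegree + 12 * s ∧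
        (∀ d : k[X], d ^ 2 ∣ x.1 * x.2 → d.natDegree ≤ 12 * s) ∧
        ∃ gf gs : k[X], x.1 = gf * gs ∧ gf.Monic ∧ Squarefree gf ∧ IsCoprime gf (gs * x.2) ∧
          gs.natDegree ≤ 3 * (12 * s)) ∧
      (∀ x ∈ G, h₂ x ≠ 0 ∧ derivative (derivative (x.1 * x.2 * h₁ x)) = 0 ∧
        derivative (derivative (x.1 * x.2 * h₂ x)) = 0 ∧ wronskian (h₁ x) (h₂ x) ≠ 0 ∧
        (∀ h, derivative (derivative (x.1 * x.2 * h)) = 0 →
          ∃ α β : k[X], h = α ^ 3 * h₁ x + β ^ 3 * h₂ x) ∧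
        3 * t1 x + (h₁ x).natDegree < 3 * a x + (h₂ x).natDegree + 3 ∧
        m + 48 * la + dd + ep ≤ 3 * a x + (h₂ x).natDegree ∧
        3 * a x + (h₂ x).natDegree ≤ m + 48 * la + dd + ep + 2 ∧
        t1 x + (a x + 1) ≤ 64 * la + dd + 2 * (12 * s) + 4 ∧
        n - ka + (m + 48 * la + dd + ep) + 2 ≤ 3 * (80 * la + dd + 2 * (12 * s) + 2) +
          (wronskian (h₁ x) (h₂ x)).natDegree) ∧
      (∀ x ∈ G, 64 * la + dd ≤ t1 x + a x ∧ 31 * la ≤ t1 x ∧ 31 * la ≤ a x ∧ 2 ≤ t1 x ∧ 6 ≤ a x ∧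
        a x ≤ n ∧ 3 * a x + (h₂ x).natDegree ≤ 3 * t1 x + (h₁ x).natDegree) ∧
      ∑ x ∈ G, (#((mon k (n - ka)).filter
        (fun E => derivative (derivative (x.1 * x.2 * E)) = -x.1 ^ 3)) : ℝ) ≤
        qq k ^ (n + 2 * (12 * s) + 2) ∧
      ∀ p ∈ ((box k m).erase 0 ×ˢ mon k ka) \ G, p.1 ≠ 0 ∧ p.1 ∈ box k (n / 2) ∧ p.2 ∈ mon k ka ∧
        (p.1.natDegree + 12 * s < n / 2 ∨
          (∃ d : k[X], d ^ 2 ∣ p.1 * p.2 ∧ 12 * s < d.natDegree) ∨
          ∃ c u h1 h2 : k[X], CL3.Dat32 (p.1 * p.2) c u h1 h2 ∧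
            (n / 2 + ka + 3 * (12 * s) < 2 * h1.natDegree ∨
              n / 2 + ka + 3 * (12 * s) < 2 * h2.natDegree)) := by
  have hq : 1 ≤ qq k := by linarith [two_le_qq (k := k)]
  have h2 : n / 2 = m := by omega
  obtain ⟨G, c, u, h₁, h₂, t1, a, len, b1, b2, b3⟩ :=
    data26 (k := k) m ka (n - ka) (12 * s) (m + 48 * la + dd + ep) (by omega) (by omega)
  have hlen : ∀ x ∈ G, len x = 16 * la := fun x hx => by
    have c1 := (b2 x hx).hl
    have c2 := (b2 x hx).Hl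
    have c3 := (b2 x hx).Hu
    omega
  refine ⟨G, c, u, h₁, h₂, t1, a, b1, fun x hx => hlen x hx ▸ b2 x hx, fun x hx => ?_,
    fun x hx => ?_, fun x hx => ?_, ?_, h2 ▸ b3⟩
  · have H := b2 x hx
    exact ⟨H.g0, H.gb, H.km, H.gd, H.sq, H.spl⟩
  · have H := b2 x hx
    have c1 := H.ht
    have c2 := H.Hl
    have c3 := H.Hu
    have c4 := H.ds
    have c5 := H.ul
    have c6 := H.d₁
    refine ⟨H.n₂, H.m₁, H.m₂, H.hw ▸ H.u0, H.sp, by omega, c2, c3, by omega, ?_⟩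
    rw [H.hw]
    omega
  · have H := b2 x hx
    have c1 := H.ht
    have c2 := H.Hl
    have c3 := H.Hu
    have c4 := H.ds
    have c5 := H.uu
    have c6 := H.d₁
    have c7 := H.d₂
    omega
  · refine (sum_le_card_nsmul _ _ (qq k ^ (96 * la + dd + 2 * (12 * s) + 2)) fun x hx => ?_).trans ?_
    · have H := b2 x hx
      have c4 := H.ds
      have c5 := H.ul
      have c6 := H.d₁
      have c7 := H.d₂
      exact H.card_F.trans (pow_le_pow_right₀ hq (by omega))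
    have : (#G : ℝ) ≤ qq k ^ (m + ka) := by
      rw [pow_add, ← card_box, ← card_mon, ← Nat.cast_mul, ← card_product]
      exact_mod_cast card_le_card (b1.trans (product_subset_product_left (erase_subset _ _)))
    rw [nsmul_eq_mul]
    refine (mul_le_mul_of_nonneg_right this (by positivity)).trans ?_
    rw [← pow_add]
    exact pow_le_pow_right₀ hq (by omega)

end H18M

end
end

-- part H18M.Lln5Def
section

/-! The law of large numbers over the directions, as the last step uses it. -/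

set_option autoImplicit false
open Polynomial Finset CL5
open scoped Classical

noncomputable section
namespace H18M

/-- The deviation of the weight over the directions is small on average. -/
def LLN5 (k : Type) [Field k] [Fintype k] : Prop :=
  ∀ (n m ka s v σ la dd ep r : ℕ) (e : Fin r → ℕ), m = ka + 96 * la + dd → dd < 96 →
    n = 2 * m + ep → ep ≤ 1 → 10 ^ 4 * s ≤ la → r + 100 ≤ s → 4 * v ≤ s →
    (20 * n) ^ (r + 4) ≤ 2 ^ σ → (2 * r + 4) * σ ≤ v →
    (∀ f : k[X], f ≠ 0 → f.natDegree ≤ 9 * n → ∀ S : Finset k[X],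
      (∀ d ∈ S, d.Monic ∧ d ∣ f) → #S ≤ 2 ^ σ) →
    0 < r → Function.Injective e → (∀ i, 6 * la ≤ e i ∧ e i ≤ 12 * la) →
    ∑ i, e i + 3 * la + m ≤ n - ka + (m + 48 * la + dd + ep) + 2 →
    n - ka + (m + 48 * la + dd + ep) + 2 < ∑ i, e i + 3 * la + m + 2 * r →
    ∀ (G : Finset (k[X] × k[X])) (c u h₁ h₂ : k[X] × k[X] → k[X]) (t1 a : k[X] × k[X] → ℕ),
      (∀ x ∈ G, Gd26 m ka (n - ka) (12 * s) (m + 48 * la + dd + ep) x (c x) (u x) (h₁ x) (h₂ x)
        (t1 x) (a x) (16 * la)) →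
      ∑ x ∈ G, ∑ E ∈ (mon k (n - ka)).filter
          (fun E => derivative (derivative (x.1 * x.2 * E)) = -x.1 ^ 3),
        |∑ p ∈ (box k (t1 x) ×ˢ (box k (a x + 1) \ box k (a x))).filter
              (fun p => IsCoprime p.1 p.2),
            w26 e x.1 (wronskian E (p.1 ^ 3 * h₁ x + p.2 ^ 3 * h₂ x)) -
          (#(Fintype.piFinset (S26 e x.1)) : ℝ) / qq k ^ (∑ i, e i) *
            #((box k (t1 x) ×ˢ (box k (a x + 1) \ box k (a x))).filter
              (fun p => IsCoprime p.1 p.2))| ≤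
        qq k ^ (n + (64 * la + dd)) / qq k ^ (10 * s)

end H18M

end
end

-- part H18M.FamDef26
section

/-! The equidistribution of the weight on the sublattices, on average over the good pairs. -/

set_option autoImplicit false
open Polynomial Finset CL5
open scoped Classical

noncomputable section
namespace H18M

/-- The deviation of the weight over one sublattice is small on average. -/
def FAM26 (k : Type) [Field k] [Fintype k] : Prop :=
  ∀ (n m ka s v σ la dd ep r : ℕ) (e : Fin r → ℕ), m = ka + 96 * la + dd → dd < 96 →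
    n = 2 * m + ep → ep ≤ 1 → 10 ^ 4 * s ≤ la → r + 100 ≤ s → 4 * v ≤ s →
    (20 * n) ^ (r + 4) ≤ 2 ^ σ → (2 * r + 4) * σ ≤ v →
    (∀ f : k[X], f ≠ 0 → f.natDegree ≤ 9 * n → ∀ S : Finset k[X],
      (∀ d ∈ S, d.Monic ∧ d ∣ f) → #S ≤ 2 ^ σ) →
    0 < r → Function.Injective e → (∀ i, 6 * la ≤ e i ∧ e i ≤ 12 * la) →
    ∑ i, e i + 3 * la + m ≤ n - ka + (m + 48 * la + dd + ep) + 2 →
    n - ka + (m + 48 * la + dd + ep) + 2 < ∑ i, e i + 3 * la + m + 2 * r →
    ∀ (G : Finset (k[X] × k[X])) (c u h₁ h₂ : k[X] × k[X] → k[X]) (t1 a : k[X] × k[X] → ℕ),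
      (∀ x ∈ G, Gd26 m ka (n - ka) (12 * s) (m + 48 * la + dd + ep) x (c x) (u x) (h₁ x) (h₂ x)
        (t1 x) (a x) (16 * la)) →
      ∀ w : k[X] → k[X] → ℝ, (∀ g, w g 0 = 0) →
        (∀ g W : k[X], W.degree < (n - ka + (m + 48 * la + dd + ep) + 2 : ℕ) →
          w g W = w26 e g W) →
      ∀ d ∈ (box k (2 * (200 * s) + 1)).filter Monic, ∀ t ∈ (box k (600 * s + 1)).filter Monic,
      ∀ δ : ℕ, δ ≤ 1 → ∀ Es : k[X] × k[X] → k[X],
        (∀ x ∈ G, Es x ∈ (mon k (n - ka)).filter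
          (fun E => derivative (derivative (x.1 * x.2 * E)) = -x.1 ^ 3)) →
        ∑ x ∈ G, |∑ p ∈ (box k (t1 x) ×ˢ box k (a x + δ)).filter (fun p => t ∣ p.1 ∧ t ∣ p.2),
          ∑ ρ ∈ (box k ((n - ka - (h₁ x).natDegree + 2) / 3 - 600 * s + a x + d.natDegree)).filter
            (fun ρ => d ∣ ρ),
            (w x.1 (p.1 ^ 3 * wronskian (Es x) (h₁ x) + p.2 ^ 3 * wronskian (Es x) (h₂ x) +
              ρ ^ 3 * u x) - (#(Fintype.piFinset (S26 e x.1)) : ℝ) / qq k ^ (∑ i, e i))| ≤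
          qq k ^ (n + (48 * la + dd)) / qq k ^ (1700 * s)

end H18M

end
end

-- part H18M.Glue27
section

/-! h18m LLN glue (helper27): one pair `(g,k)`, `A = g k`. -/

set_option autoImplicit false
open Polynomial Finset
open scoped Classical

noncomputable section
namespace H18M
open CL5 Pool.Agent.H18Str

variable {k : Type*} [Field k] [Fintype k] [CharP k 3]

omit [CharP k 3] in
theorem cube_box27 {h : k[X]} (h0 : h ≠ 0) (α : k[X]) (N : ℕ) :
    α ^ 3 * h ∈ box k N ↔ α ∈ box k ((N - h.natDegree + 2) / 3) := by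
  rw [cb_mem27, cb_mem27]
  by_cases hα : α = 0
  · simp [hα]
  · rw [natDegree_mul (pow_ne_zero 3 hα) h0, natDegree_pow]
    constructor
    · intro h1
      have := h1.resolve_left (mul_ne_zero (pow_ne_zero 3 hα) h0)
      exact Or.inr (by omega)
    · intro h1
      have := h1.resolve_left hα
      exact Or.inr (by omega)

omit [CharP k 3] in
theorem comb_box27 {h₁ h₂ : k[X]} (n₁ : h₁ ≠ 0) (n₂ : h₂ ≠ 0) (hd : h₁.natDegree % 3 ≠ h₂.natDegree % 3)
    (α β : k[X]) (N : ℕ) : α ^ 3 * h₁ + β ^ 3 * h₂ ∈ box k N ↔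
      α ∈ box k ((N - h₁.natDegree + 2) / 3) ∧ β ∈ box k ((N - h₂.natDegree + 2) / 3) := by
  have one : ∀ {h₁ h₂ : k[X]}, h₁ ≠ 0 → h₂ ≠ 0 → h₁.natDegree % 3 ≠ h₂.natDegree % 3 → ∀ α β : k[X],
      α ^ 3 * h₁ + β ^ 3 * h₂ ∈ box k N → α ∈ box k ((N - h₁.natDegree + 2) / 3) := by
    intro h₁ h₂ n₁ n₂ hd α β h
    rw [cb_mem27]
    by_cases hα : α = 0
    · exact Or.inl hα
    · have h1 := st_deg n₁ n₂ hd hα β
      have h2 := (cb_mem27.mp h).resolve_left h1.2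
      have h3 := h1.1
      exact Or.inr (by omega)
  refine ⟨fun h => ⟨one n₁ n₂ hd α β h, one n₂ n₁ hd.symm β α (by rwa [add_comm])⟩, fun h => ?_⟩
  have h1 := cb_sub27 ((cube_box27 n₁ α N).mpr h.1)
    (cb_sub27 (cb_mem27.mpr (Or.inl rfl)) ((cube_box27 n₂ β N).mpr h.2))
  rwa [zero_sub, sub_neg_eq_add] at h1

/-- the fibre `F = {E monic of degree ν, (A E)'' = -g^3}` is parametrised by the pair of boxes -/
theorem sum_fibre27 {β' : Type*} [AddCommMonoid β'] {A g h₁ h₂ E0 : k[X]} {ν : ℕ} (n₁ : h₁ ≠ 0) (n₂ : h₂ ≠ 0)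
    (hd : h₁.natDegree % 3 ≠ h₂.natDegree % 3) (m₁ : derivative (derivative (A * h₁)) = 0)
    (m₂ : derivative (derivative (A * h₂)) = 0)
    (sp : ∀ h, derivative (derivative (A * h)) = 0 → ∃ α β : k[X], h = α ^ 3 * h₁ + β ^ 3 * h₂)
    (hE0 : E0 ∈ (mon k ν).filter fun E => derivative (derivative (A * E)) = -g ^ 3) (G : k[X] → β') :
    ∑ E ∈ (mon k ν).filter (fun E => derivative (derivative (A * E)) = -g ^ 3), G E =
      ∑ x ∈ box k ((ν - h₁.natDegree + 2) / 3) ×ˢ box k ((ν - h₂.natDegree + 2) / 3),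
        G (E0 + x.1 ^ 3 * h₁ + x.2 ^ 3 * h₂) := by
  rw [Finset.mem_filter, mem_mon] at hE0
  have hdeg : E0.degree = ν := by rw [degree_eq_natDegree hE0.1.1.ne_zero, hE0.1.2]
  refine (Finset.sum_nbij (fun x : k[X] × k[X] => E0 + x.1 ^ 3 * h₁ + x.2 ^ 3 * h₂) (fun x hx => ?_)
    (fun x _ y _ h => ?_) (fun E hE => ?_) fun _ _ => rfl).symm
  · have h1 := mem_box.mp ((comb_box27 n₁ n₂ hd x.1 x.2 ν).mpr (Finset.mem_product.mp hx))
    rw [← hdeg] at h1
    rw [Finset.mem_filter, mem_mon, add_assoc]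
    refine ⟨⟨hE0.1.1.add_of_left h1, ?_⟩, ?_⟩
    · rw [natDegree_add_eq_left_of_degree_lt h1, hE0.1.2]
    · rw [show A * (E0 + (x.1 ^ 3 * h₁ + x.2 ^ 3 * h₂)) = A * E0 + x.1 ^ 3 * (A * h₁) + x.2 ^ 3 * (A * h₂) by
        ring]
      simp only [derivative_add, st_der_cube, m₁, m₂, hE0.2, mul_zero, add_zero]
  · have h' : E0 + x.1 ^ 3 * h₁ + x.2 ^ 3 * h₂ = E0 + y.1 ^ 3 * h₁ + y.2 ^ 3 * h₂ := h
    rw [add_assoc, add_assoc] at h'
    have h1 := st_uniq2 (st_wr_deg n₁ n₂ hd).1 (add_left_cancel h')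
    exact Prod.ext h1.1 h1.2
  · rw [Finset.mem_coe, Finset.mem_filter, mem_mon] at hE
    obtain ⟨α, β, hαβ⟩ := sp (E - E0) (by
      rw [mul_sub, derivative_sub, derivative_sub, hE.2, hE0.2, sub_self])
    have h1 : E - E0 ∈ box k ν := by
      rw [mem_box]
      have hdE : E.degree = ν := by rw [degree_eq_natDegree hE.1.1.ne_zero, hE.1.2]
      rw [← hdE]
      exact degree_sub_lt_left (hdE.trans hdeg.symm) hE.1.1.ne_zero
        (hE.1.1.leadingCoeff.trans hE0.1.1.leadingCoeff.symm)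
    rw [hαβ] at h1
    refine ⟨(α, β), Finset.mem_coe.mpr (Finset.mem_product.mpr ((comb_box27 n₁ n₂ hd α β ν).mp h1)), ?_⟩
    change E0 + α ^ 3 * h₁ + β ^ 3 * h₂ = E
    linear_combination -hαβ

/-- LLN for one pair, reduced to the equidistribution on `S[t,d,t2]` at every base point `E ∈ F` -/
theorem glue27 {A g h₁ h₂ u : k[X]} {ν t1 a len e e1 : ℕ} (n₁ : h₁ ≠ 0) (n₂ : h₂ ≠ 0)
    (hd : h₁.natDegree % 3 ≠ h₂.natDegree % 3) (m₁ : derivative (derivative (A * h₁)) = 0)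
    (m₂ : derivative (derivative (A * h₂)) = 0) (hw : wronskian h₁ h₂ = u)
    (sp : ∀ h, derivative (derivative (A * h)) = 0 → ∃ α β : k[X], h = α ^ 3 * h₁ + β ^ 3 * h₂)
    (h1 : e1 ≤ t1) (h2 : e ≤ a + 1) (hel : e1 ≤ len) (he1 : 3 * e ≤ e1)
    (hs1 : (ν - h₁.natDegree + 2) / 3 ≤ len + t1) (hs1' : len + t1 ≤ (ν - h₁.natDegree + 2) / 3 + 1)
    (hs2 : (ν - h₂.natDegree + 2) / 3 = len + a)
    (w : k[X] → ℝ) (ro0 M Z : ℝ) (hM : ∀ W, |w W - ro0| ≤ M) (hZ : 0 < Z) (hZe : Z ^ 2 ≤ qq k ^ e)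
    (B : k[X] → k[X] → ℕ → ℝ)
    (hB : ∀ d ∈ (box k (2 * e + 1)).filter Monic, ∀ t ∈ (box k (e1 + 1)).filter Monic, ∀ t2 : ℕ,
      t2 = a ∨ t2 = a + 1 → ∀ E ∈ (mon k ν).filter (fun E => derivative (derivative (A * E)) = -g ^ 3),
      |∑ p ∈ (box k t1 ×ˢ box k t2).filter (fun p => t ∣ p.1 ∧ t ∣ p.2),
        ∑ r ∈ (box k ((ν - h₁.natDegree + 2) / 3 - e1 + a + d.natDegree)).filter (fun r => d ∣ r),
          (w (p.1 ^ 3 * wronskian E h₁ + p.2 ^ 3 * wronskian E h₂ + r ^ 3 * u) - ro0)| ≤ B d t t2) :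
    ∑ E ∈ (mon k ν).filter (fun E => derivative (derivative (A * E)) = -g ^ 3),
      |∑ p ∈ (box k t1 ×ˢ (box k (a + 1) \ box k a)).filter (fun p => IsCoprime p.1 p.2),
          w (wronskian E (p.1 ^ 3 * h₁ + p.2 ^ 3 * h₂)) -
        ro0 * ((box k t1 ×ˢ (box k (a + 1) \ box k a)).filter (fun p => IsCoprime p.1 p.2)).card| ≤
      ((mon k ν).filter (fun E => derivative (derivative (A * E)) = -g ^ 3)).card *
        (M * qq k ^ (t1 + (a + 1)) / Z +
        (∑ d ∈ (box k (2 * e + 1)).filter Monic, ∑ t ∈ (box k (e1 + 1)).filter Monic,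
          (B d t (a + 1) + B d t a)) / qq k ^ ((ν - h₁.natDegree + 2) / 3 - e1 + a) +
        qq k ^ (2 * e + 1) * (2 * (a + 1) * M * (qq k ^ (t1 + (a + 1)) / qq k ^ e1))) := by
  set F := (mon k ν).filter (fun E => derivative (derivative (A * E)) = -g ^ 3) with hF
  rcases F.eq_empty_or_nonempty with h0 | ⟨E0, hE0⟩
  · rw [h0]
    simp
  have hcard : (F.card : ℝ) = qq k ^ ((ν - h₁.natDegree + 2) / 3 + (ν - h₂.natDegree + 2) / 3) := by
    have h := sum_fibre27 n₁ n₂ hd m₁ m₂ sp hE0 (fun _ => (1 : ℝ))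
    simp only [Finset.sum_const, nsmul_eq_mul, mul_one] at h
    rw [hF, h, Finset.card_product, Nat.cast_mul, card_box, card_box, pow_add]
  have hmem : ∀ x ∈ box k ((ν - h₁.natDegree + 2) / 3) ×ˢ box k ((ν - h₂.natDegree + 2) / 3),
      E0 + x.1 ^ 3 * h₁ + x.2 ^ 3 * h₂ ∈ F := by
    intro x hx
    by_contra hn
    have h := sum_fibre27 n₁ n₂ hd m₁ m₂ sp hE0 (fun E => if E ∈ F then (0 : ℝ) else 1)
    rw [Finset.sum_eq_zero fun E hE => if_pos hE] at h
    have h3 := (Finset.sum_eq_zero_iff_of_nonneg fun y _ => by split_ifs <;> norm_num).mp h.symm x hx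
    rw [if_neg hn] at h3
    exact one_ne_zero h3
  have main := lln27 h1 h2 hel he1 hs1 hs1' hs2
    (fun al be ro => w (al ^ 3 * wronskian E0 h₁ + be ^ 3 * wronskian E0 h₂ + ro ^ 3 * u) - ro0) M Z
    (fun _ _ _ => hM _) hZ hZe B (fun d hd' t ht t2 ht2 x hx => by
      refine le_trans (le_of_eq (congrArg abs (Finset.sum_congr rfl fun p _ => ?_)))
        (hB d hd' t ht t2 ht2 _ (hmem x hx))
      rw [← sum_box_dil27 (Finset.mem_filter.mp hd').2.ne_zero]
      refine Finset.sum_congr rfl fun r _ => congrArg (fun y => w y - ro0) ?_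
      have c := st_c5 hw E0 x.1 x.2 p.1 p.2
      rw [wronskian_add_right, st_wr_r, st_wr_r] at c
      linear_combination -c + ((x.1 * p.2 - x.2 * p.1) ^ 2 * (d * r) +
        (x.1 * p.2 - x.2 * p.1) * (d * r) ^ 2) * u * st_three (k := k))
  rw [hcard, hF, sum_fibre27 n₁ n₂ hd m₁ m₂ sp hE0]
  refine le_trans (le_of_eq (Finset.sum_congr rfl fun x _ => congrArg abs ?_)) main
  rw [Finset.sum_sub_distrib, Finset.sum_const, nsmul_eq_mul, mul_comm ro0]
  exact congrArg (· - _) (Finset.sum_congr rfl fun p _ => congrArg w (st_c5 hw E0 x.1 x.2 p.1 p.2))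

end H18M

end
end

-- part H18M.Lln26
section

/-! h18m (helper26): the law of large numbers over the directions from the equidistribution on
sublattices. -/

set_option autoImplicit false
open Polynomial Finset CL5
open scoped Classical

noncomputable section
namespace H18M

variable {k : Type} [Field k] [Fintype k]

theorem pw26 {A B C D : ℕ} (h : A + D ≤ C + B) : qq k ^ A / qq k ^ B ≤ qq k ^ C / qq k ^ D := by
  have hq : 1 ≤ qq k := by linarith [two_le_qq (k := k)]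
  rw [div_le_div_iff₀ (by positivity) (by positivity), ← pow_add, ← pow_add]
  exact pow_le_pow_right₀ hq h

theorem w26_ne' {I : Type} [Fintype I] [i : DecidableEq I] (e : I → ℕ) (g : k[X]) {W : k[X]}
    (h : W ≠ 0) :
    w26 e g W = #((Fintype.piFinset (S26 e g)).filter (fun P => ∏ i, P i ∣ W)) := by
  obtain rfl : i = fun a b => Classical.propDecidable (a = b) := Subsingleton.elim _ _
  exact w26_ne e g h

theorem lln_of_fam26 [CharP k 3] (HF : FAM26 k) : LLN5 k := by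
  intro n m ka s v σ la dd ep r e hm hdd hn hep hla hr hv hσ hσv hτ hr0 he heL hD1 hD2 G c u h₁ h₂
    t1 a hG
  have HF' := HF n m ka s v σ la dd ep r e hm hdd hn hep hla hr hv hσ hσv hτ hr0 he heL hD1 hD2
  have hq2 := two_le_qq (k := k)
  have hq : 1 ≤ qq k := by linarith
  have hσv' : σ ≤ v := le_trans (Nat.le_mul_of_pos_left _ (by omega)) hσv
  have h20 : ∀ j : ℕ, j ≤ (20 * n) ^ (r + 4) → (j : ℝ) ≤ qq k ^ v := fun j hj =>
    le_trans (by exact_mod_cast hj.trans hσ)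
      ((Pool.Agent.H18M.P5.two_pow_le σ).trans (pow_le_pow_right₀ hq hσv'))
  obtain ⟨NW, hNW⟩ : ∃ NW, n - ka + (m + 48 * la + dd + ep) + 2 = NW := ⟨_, rfl⟩
  obtain ⟨F, hF⟩ : ∃ F : k[X] × k[X] → Finset k[X], ∀ x, (mon k (n - ka)).filter
    (fun E => derivative (derivative (x.1 * x.2 * E)) = -x.1 ^ 3) = F x := ⟨_, fun _ => rfl⟩
  obtain ⟨ro, hro⟩ : ∃ ro : k[X] → ℝ, ∀ g,
    (#(Fintype.piFinset (S26 e g)) : ℝ) / qq k ^ (∑ i, e i) = ro g := ⟨_, fun _ => rfl⟩
  obtain ⟨w, hw⟩ : ∃ w : k[X] → k[X] → ℝ, ∀ g W,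
    w g W = if W.degree < (NW : ℕ) then w26 e g W else 0 := ⟨_, fun _ _ => rfl⟩
  obtain ⟨dev, hdev⟩ : ∃ dev : k[X] × k[X] → k[X] → k[X] → ℕ → k[X] → ℝ, ∀ x d t t2 E,
    |∑ p ∈ (box k (t1 x) ×ˢ box k t2).filter (fun p => t ∣ p.1 ∧ t ∣ p.2),
      ∑ ρ ∈ (box k ((n - ka - (h₁ x).natDegree + 2) / 3 - 600 * s + a x + d.natDegree)).filter
        (fun ρ => d ∣ ρ), (w x.1 (p.1 ^ 3 * wronskian E (h₁ x) + p.2 ^ 3 * wronskian E (h₂ x) +
          ρ ^ 3 * u x) - ro x.1)| = dev x d t t2 E := ⟨_, fun _ _ _ _ _ => rfl⟩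
  simp only [hNW, hF, hro] at HF' ⊢
  have ro0 : ∀ g, 0 ≤ ro g ∧ ro g ≤ 1 := fun g => by
    rw [← hro]
    exact ⟨by positivity, (div_le_one (by positivity)).2 (Pool.Agent.H18M.P5.pri5_le e _
      fun i P hP => ⟨(mem_S26.1 hP).1, (mem_S26.1 hP).2.2.1⟩)⟩
  have hM : ∀ g W, |w g W - ro g| ≤ qq k ^ v := fun g W => by
    have b0 : 1 ≤ qq k ^ v := one_le_pow₀ hq
    have b1 : 0 ≤ w g W ∧ w g W ≤ qq k ^ v := by
      rw [hw]
      split_ifs with h
      · refine ⟨w26_nonneg _ _ _, ?_⟩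
        by_cases W0 : W = 0
        · rw [W0, w26_zero]; linarith
        rw [w26_ne' _ _ W0]
        have b2 := (natDegree_lt_iff_degree_lt W0).2 h
        refine h20 _ ((Pool.Agent.H18M.P5.wt5 _ (fun i P hP =>
          ⟨(mem_S26.1 hP).1, (mem_S26.1 hP).2.1⟩) W0 (N := 20 * n) (by omega)).trans ?_)
        rw [Fintype.card_fin]
        exact Nat.pow_le_pow_right (by omega) (by omega)
      · exact ⟨le_rfl, by linarith⟩
    rw [abs_le]
    constructor <;> linarith [ro0 g, b1.1, b1.2]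
  have hmax : ∀ x d t t2, ∃ E0, (F x).Nonempty → E0 ∈ F x ∧
      ∀ E ∈ F x, dev x d t t2 E ≤ dev x d t t2 E0 := fun x d t t2 => by
    by_cases h : (F x).Nonempty
    · obtain ⟨E0, b1, b2⟩ := exists_max_image (F x) (dev x d t t2) h
      exact ⟨E0, fun _ => ⟨b1, b2⟩⟩
    · exact ⟨0, fun h' => absurd h' h⟩
  choose Es hEs using hmax
  obtain ⟨G', hG'⟩ : ∃ G', G' = G.filter (fun x => (F x).Nonempty) := ⟨_, rfl⟩
  have mG : ∀ x ∈ G', x ∈ G ∧ (F x).Nonempty := fun x hx => by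
    rw [hG'] at hx; exact mem_filter.1 hx
  rw [← sum_subset (s₁ := G') (fun x hx => (mG x hx).1) fun x hx hx' => by
    have : F x = ∅ := not_nonempty_iff_eq_empty.1 fun h => hx' (hG' ▸ mem_filter.2 ⟨hx, h⟩)
    rw [this, sum_empty]]
  obtain ⟨Cc, hCc⟩ : ∃ Cc : ℝ, Cc = qq k ^ v * qq k ^ (64 * la + dd + 24 * s + 4) /
    qq k ^ (100 * s) + qq k ^ (2 * (200 * s) + 1) * (qq k ^ v * qq k ^ v *
      (qq k ^ (64 * la + dd + 24 * s + 4) / qq k ^ (600 * s))) := ⟨_, rfl⟩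
  have dev0 : ∀ x d t t2 E, 0 ≤ dev x d t t2 E := fun x d t t2 E => hdev x d t t2 E ▸ abs_nonneg _
  have one : ∀ x ∈ G', ∑ E ∈ F x, |∑ p ∈ (box k (t1 x) ×ˢ (box k (a x + 1) \ box k (a x))).filter
        (fun p => IsCoprime p.1 p.2), w26 e x.1 (wronskian E (p.1 ^ 3 * h₁ x + p.2 ^ 3 * h₂ x)) -
        ro x.1 * #((box k (t1 x) ×ˢ (box k (a x + 1) \ box k (a x))).filter
          (fun p => IsCoprime p.1 p.2))| ≤
      qq k ^ (96 * la + dd + 24 * s + 2) * Cc + qq k ^ (600 * s + 16 * la) *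
        ∑ d ∈ (box k (2 * (200 * s) + 1)).filter Monic, ∑ t ∈ (box k (600 * s + 1)).filter Monic,
          (dev x d t (a x + 1) (Es x d t (a x + 1)) + dev x d t (a x) (Es x d t (a x))) := by
    intro x hx
    have H := hG x (mG x hx).1
    have c1 := H.ht
    have c2 := H.Hl
    have c3 := H.Hu
    have c4 := H.ds
    have c5 := H.ul
    have c6 := H.d₁
    have c7 := H.d₂
    have c8 := H.s2
    have c9 := H.uu
    have key := glue27 (g := x.1) (t1 := t1 x) (a := a x) (len := 16 * la) (e := 200 * s)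
      (e1 := 600 * s) H.n₁ H.n₂ H.ne H.m₁ H.m₂ H.hw H.sp (by omega) (by omega) (by omega)
      (by omega) H.s1u H.s1l H.s2 (w x.1) (ro x.1) (qq k ^ v) (qq k ^ (100 * s)) (hM x.1)
      (by positivity) (by rw [← pow_mul]; exact le_of_eq (congrArg _ (by ring)))
      (fun d t t2 => dev x d t t2 (Es x d t t2)) (fun d _ t _ t2 _ E hE => by
        rw [hdev]; rw [hF] at hE; exact (hEs x d t t2 (mG x hx).2).2 E hE)
    have cF := H.card_F
    rw [hF] at key cF
    refine le_trans (le_of_eq (sum_congr rfl fun E hE => ?_)) (key.trans ?_)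
    · refine congrArg (fun z => |z - _|) (sum_congr rfl fun p hp => ?_)
      rw [hw, if_pos]
      obtain ⟨p1, p2⟩ := mem_product.1 (mem_filter.1 hp).1
      have b1 := (dirdeg26 (h₁ := h₁ x) H.n₂ (by omega) p1 p2).2
      rw [← hF] at hE
      have b2 := (mem_mon.1 (mem_filter.1 hE).1).2
      by_cases W0 : wronskian E (p.1 ^ 3 * h₁ x + p.2 ^ 3 * h₂ x) = 0
      · rw [W0, degree_zero]; exact WithBot.bot_lt_coe _
      have b3 := natDegree_wronskian_lt_add W0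
      exact (natDegree_lt_iff_degree_lt W0).1 (by omega)
    obtain ⟨SB, hSB⟩ : ∃ SB : ℝ, SB = ∑ d ∈ (box k (2 * (200 * s) + 1)).filter Monic,
      ∑ t ∈ (box k (600 * s + 1)).filter Monic,
        (dev x d t (a x + 1) (Es x d t (a x + 1)) + dev x d t (a x) (Es x d t (a x))) := ⟨_, rfl⟩
    have SB0 : 0 ≤ SB := hSB ▸ sum_nonneg fun _ _ => sum_nonneg fun _ _ =>
      add_nonneg (dev0 _ _ _ _ _) (dev0 _ _ _ _ _)
    rw [← hSB]
    have b1 : qq k ^ (t1 x + (a x + 1)) ≤ qq k ^ (64 * la + dd + 24 * s + 4) :=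
      pow_le_pow_right₀ hq (by omega)
    have b2 : (2 * ((a x : ℝ) + 1)) ≤ qq k ^ v := by
      have := h20 (2 * (a x + 1)) (le_trans (by omega) (Nat.le_self_pow (by omega) (20 * n)))
      exact_mod_cast this
    have b3 : (#(F x) : ℝ) ≤ qq k ^ (96 * la + dd + 24 * s + 2) :=
      cF.trans (pow_le_pow_right₀ hq (by omega))
    have b4 : (#(F x) : ℝ) * (SB / qq k ^ ((n - ka - (h₁ x).natDegree + 2) / 3 - 600 * s + a x)) ≤
        qq k ^ (600 * s + 16 * la) * SB := by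
      rw [mul_comm, div_mul_eq_mul_div, mul_div_assoc, mul_comm]
      refine mul_le_mul_of_nonneg_right ?_ SB0
      rw [div_le_iff₀ (by positivity), ← pow_add]
      exact cF.trans (pow_le_pow_right₀ hq (by omega))
    have b5 : qq k ^ v * qq k ^ (t1 x + (a x + 1)) / qq k ^ (100 * s) +
        qq k ^ (2 * (200 * s) + 1) * (2 * ((a x : ℝ) + 1) * qq k ^ v *
          (qq k ^ (t1 x + (a x + 1)) / qq k ^ (600 * s))) ≤ Cc := by
      rw [hCc]
      refine add_le_add (div_le_div_of_nonneg_right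
        (mul_le_mul_of_nonneg_left b1 (by positivity)) (by positivity))
        (mul_le_mul_of_nonneg_left (mul_le_mul (mul_le_mul_of_nonneg_right b2 (by positivity))
          (div_le_div_of_nonneg_right b1 (by positivity)) (by positivity) (by positivity))
          (by positivity))
    have b6 := mul_le_mul b3 b5 (by positivity) (by positivity)
    linarith
  have cG : (#G' : ℝ) ≤ qq k ^ (m + ka) := by
    rw [pow_add, ← card_box, ← card_mon, ← Nat.cast_mul, ← card_product]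
    exact_mod_cast card_le_card fun x hx =>
      mem_product.2 ⟨(hG x (mG x hx).1).gb, (hG x (mG x hx).1).km⟩
  have cb : ∀ N : ℕ, (#((box k N).filter Monic) : ℝ) ≤ qq k ^ N := fun N => by
    rw [← card_box]; exact_mod_cast card_filter_le _ _
  have fam : ∀ d ∈ (box k (2 * (200 * s) + 1)).filter Monic,
      ∀ t ∈ (box k (600 * s + 1)).filter Monic, ∀ δ : ℕ, δ ≤ 1 →
      ∑ x ∈ G', dev x d t (a x + δ) (Es x d t (a x + δ)) ≤
        qq k ^ (n + (48 * la + dd)) / qq k ^ (1700 * s) := fun d hd t ht δ hδ => by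
    have := HF' G' c u h₁ h₂ t1 a (fun x hx => hG x (mG x hx).1) w
      (fun g => by rw [hw, w26_zero, ite_self]) (fun g W h => by rw [hw, if_pos h]) d hd t ht δ hδ
      (fun x => Es x d t (a x + δ)) fun x hx => (hEs x d t _ (mG x hx).2).1
    simpa only [hdev] using this
  have two : ∑ x ∈ G', ∑ d ∈ (box k (2 * (200 * s) + 1)).filter Monic,
      ∑ t ∈ (box k (600 * s + 1)).filter Monic,
        (dev x d t (a x + 1) (Es x d t (a x + 1)) + dev x d t (a x) (Es x d t (a x))) ≤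
      qq k ^ (2 * (200 * s) + 1) * (qq k ^ (600 * s + 1) *
        (qq k * (qq k ^ (n + (48 * la + dd)) / qq k ^ (1700 * s)))) := by
    rw [sum_comm]
    refine le_trans (sum_le_card_nsmul _ _ _ fun d hd => ?_)
      (by rw [nsmul_eq_mul]; exact mul_le_mul_of_nonneg_right (cb _) (by positivity))
    rw [sum_comm]
    refine le_trans (sum_le_card_nsmul _ _ _ fun t ht => ?_)
      (by rw [nsmul_eq_mul]; exact mul_le_mul_of_nonneg_right (cb _) (by positivity))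
    rw [sum_add_distrib]
    have b1 := fam d hd t ht 1 le_rfl
    have b2 := fam d hd t ht 0 (by omega)
    simp only [Nat.add_zero] at b2
    have b3 : 0 ≤ qq k ^ (n + (48 * la + dd)) / qq k ^ (1700 * s) := by positivity
    nlinarith
  refine (sum_le_sum one).trans ?_
  rw [sum_add_distrib, sum_const, nsmul_eq_mul, ← mul_sum]
  obtain ⟨Y, hY⟩ : ∃ Y : ℝ, Y = qq k ^ (n + (64 * la + dd)) / qq k ^ (10 * s + 2) := ⟨_, rfl⟩
  have y1 : qq k ^ (m + ka) * (qq k ^ (96 * la + dd + 24 * s + 2) * Cc) ≤ Y + Y := by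
    rw [hCc, hY, mul_add, mul_add]
    refine add_le_add ?_ ?_
    · rw [← mul_div_assoc, ← mul_div_assoc, ← pow_add, ← pow_add, ← pow_add]
      exact pw26 (by omega)
    · simp only [← mul_div_assoc, ← pow_add]
      exact pw26 (by omega)
  have y2 : qq k ^ (600 * s + 16 * la) * (qq k ^ (2 * (200 * s) + 1) * (qq k ^ (600 * s + 1) *
      (qq k * (qq k ^ (n + (48 * la + dd)) / qq k ^ (1700 * s))))) ≤ Y := by
    rw [hY, ← mul_div_assoc, ← pow_succ']
    simp only [← mul_div_assoc, ← pow_add]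
    exact pw26 (by omega)
  have y3 : qq k ^ (n + (64 * la + dd)) / qq k ^ (10 * s) = Y * qq k ^ 2 := by
    rw [hY, pow_add (qq k) (10 * s)]
    field_simp
  have y4 : 0 ≤ Y := by rw [hY]; positivity
  have y5 := mul_le_mul_of_nonneg_right cG
    (show 0 ≤ qq k ^ (96 * la + dd + 24 * s + 2) * Cc by rw [hCc]; positivity)
  have y6 := mul_le_mul_of_nonneg_left two (show 0 ≤ qq k ^ (600 * s + 16 * la) by positivity)
  have y7 : Y * 4 ≤ Y * qq k ^ 2 := mul_le_mul_of_nonneg_left (by nlinarith) y4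
  linarith

end H18M

end
end

-- part H18M.Fam28
section

/-! The law of large numbers over the directions, for the family of good pairs. -/

set_option autoImplicit false
set_option linter.unusedSectionVars false
open Polynomial Finset CL5 Pool.Agent.H18Str Pool.Agent.H18M
open scoped Classical

noncomputable section
namespace H18M

variable {k : Type} [Field k] [Fintype k] [CharP k 3]

theorem Gd26.bs28 {m ka ν y H0 : ℕ} {x : k[X] × k[X]} {c u h₁ h₂ E : k[X]} {t1 a len : ℕ}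
    (H : Gd26 m ka ν y H0 x c u h₁ h₂ t1 a len)
    (hE : derivative (derivative (x.1 * x.2 * E)) = -x.1 ^ 3) : Bs (x.1 * x.2) x.1 E c u h₁ h₂ :=
  ⟨mul_ne_zero H.g0 (mem_mon.1 H.km).1.ne_zero, H.g0, H.hc, H.hf, H.n₁, H.n₂, H.m₁, H.m₂, H.hw,
    H.ne, H.sp, hE⟩

/-- one key -/
theorem key28 {I : Type} [Fintype I] [DecidableEq I] (e : I → ℕ) {n m ka s σ la dd ep : ℕ}
    (hm : m = ka + 96 * la + dd) (hdd : dd < 96) (hn : n = 2 * m + ep) (hep : ep ≤ 1)
    (hla : 10 ^ 4 * s ≤ la) (hr : Fintype.card I + 100 ≤ s) (hσ : 4 * σ ≤ s)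
    (hp : (20 * n) ^ Fintype.card I ≤ 2 ^ σ)
    (hτ : ∀ f : k[X], f ≠ 0 → f.natDegree ≤ 9 * n → ∀ S : Finset k[X],
      (∀ d ∈ S, d.Monic ∧ d ∣ f) → #S ≤ 2 ^ σ)
    (he : ∀ i, 6 * la ≤ e i) (hI : 6 * la ≤ ∑ i, e i)
    (D1 : ∑ i, e i + 3 * la + m ≤ n - ka + (m + 48 * la + dd + ep) + 2)
    (D2 : n - ka + (m + 48 * la + dd + ep) + 2 < ∑ i, e i + 3 * la + m + 2 * Fintype.card I)
    {t d gl g₂ : k[X]} (ht : t.Monic) (dt : t.natDegree ≤ 600 * s) (hd : d.Monic)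
    (dd' : d.natDegree ≤ 400 * s) (gm : gl.Monic) (gs : Squarefree gl) (ct : IsCoprime (t * d) gl)
    (g0 : g₂ ≠ 0) (dg : g₂.natDegree ≤ 1036 * s) (cg : IsCoprime gl g₂)
    (g1 : (gl * g₂).natDegree < m) (g2 : m ≤ (gl * g₂).natDegree + 12 * s)
    (K : Finset k[X]) (c u h₁ h₂ E : k[X] → k[X]) (t1 a T₂ : k[X] → ℕ)
    (hK : ∀ j ∈ K, Gd26 m ka (n - ka) (12 * s) (m + 48 * la + dd + ep) (gl * g₂, j) (c j) (u j)
      (h₁ j) (h₂ j) (t1 j) (a j) (16 * la) ∧ IsCoprime gl (g₂ * j) ∧ E j ∈ mon k (n - ka) ∧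
      derivative (derivative (gl * g₂ * j * E j)) = -(gl * g₂) ^ 3 ∧ (T₂ j = a j ∨ T₂ j = a j + 1))
    (w : k[X] → ℝ) (w0 : w 0 = 0)
    (hw : ∀ W : k[X], W ≠ 0 → W.degree < (n - ka + (m + 48 * la + dd + ep) + 2 : ℕ) →
      w W = #{P ∈ Fintype.piFinset (S26 e (gl * g₂)) | ∏ i, P i ∣ W}) :
    ∑ j ∈ K, |∑ p ∈ (box k (t1 j) ×ˢ box k (T₂ j)).filter (fun p => t ∣ p.1 ∧ t ∣ p.2),
      ∑ r ∈ (box k ((n - ka - (h₁ j).natDegree + 2) / 3 - 600 * s + a j + d.natDegree)).filter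
        (fun r => d ∣ r), (w (p.1 ^ 3 * wronskian (E j) (h₁ j) + p.2 ^ 3 * wronskian (E j) (h₂ j) +
          r ^ 3 * u j) - (#(Fintype.piFinset (S26 e (gl * g₂))) : ℝ) / qq k ^ (∑ i, e i))| ≤
      #K * qq k ^ (n - m - ka + 47 * la + dd + 2100 * s) +
      qq k ^ (7940 * s + (∑ i, e i) / 2) * ∑ Z ∈ (box k (3 * la + 1050 * s)).erase 0,
        √(#((K ×ˢ K).filter fun x => gl ∣ Z * wronskian (g₂ * x.1) (g₂ * x.2)) : ℝ) := by
  have q2 := two_le_qq (k := k)
  have q0 : 0 < qq k := by linarith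
  have td0 : t * d ≠ 0 := mul_ne_zero ht.ne_zero hd.ne_zero
  have D0 : t * d * g₂ ≠ 0 := mul_ne_zero td0 g0
  have n1 := natDegree_mul ht.ne_zero hd.ne_zero
  have n2 := natDegree_mul td0 g0
  have n3 := natDegree_mul gm.ne_zero g0
  obtain ⟨M1, M2, M3, M4, M5⟩ := monic28 D0
  generalize hDe : ∑ i, e i = De at *
  obtain ⟨dl, hdl⟩ : ∃ dl, gl.natDegree + (dl + De) = n - ka + (m + 48 * la + dd + ep) + 2 :=
    ⟨n - ka + (m + 48 * la + dd + ep) + 2 - De - gl.natDegree, by omega⟩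
  have hS : ∀ i P, P ∈ S26 e (gl * g₂) i ↔ P.Monic ∧ Irreducible P ∧ P.natDegree = e i ∧
      IsCoprime P (gl * normalize ((t * d * g₂) ^ 3)) := fun i P => by
    rw [mem_S26, M5]
    refine and_congr_right fun _ => and_congr_right fun p => and_congr_right fun q => ?_
    have := he i
    rw [prime28 p td0 (by omega)]
  have side := fun j (hj : j ∈ K) => by
    obtain ⟨H, c1, c2, c3, c4⟩ := hK j hj
    have := H.d₁
    have := H.d₂
    have := H.ht
    have := H.Hl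
    have := H.Hu
    exact side28 (t := t) (d := d) (H.bs28 c3) (m := m) (ka := ka) (y := 12 * s) (t1 := t1 j)
      (e1 := 600 * s) (by rw [natDegree_mul H.g0 (mem_mon.1 H.km).1.ne_zero, (mem_mon.1 H.km).2])
      (mem_mon.1 c2).2 (by omega) g2 (by omega) (by omega) H.Hl H.Hu c4 (by omega) hdl (by omega)
      (by omega) (by omega) (by omega)
  have key := E5.eq5 e (fun i => by have := he i; omega) gm gs M1
    ((M4 _).2 (ct.symm.mul_right cg)) _ hS (n := 3 * (600 * s) + 2 * (12 * s) + 3) (dl := dl)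
    (L := 2 * la) hDe (by omega) K (fun j => g₂ * j) (fun j hj => (hK j hj).2.1.symm)
    (fun j => PhG (E j) (u j) (h₁ j) (h₂ j) t d gl (t1 j) (T₂ j)
      ((n - ka - (h₁ j).natDegree + 2) / 3 - 600 * s + a j + d.natDegree) (dl + De))
    (fun j hj Z a b => phG_small ((hK j hj).1.bs28 (hK j hj).2.2.2.1) (side j hj).1 (side j hj).2.1
      ((M3 _).1 a) b)
    (fun j hj f g f1 f2 f3 f4 f5 f6 f7 f8 Z hZ => (phG_hom ((hK j hj).1.bs28 (hK j hj).2.2.2.1)
      (side j hj).1 (side j hj).2.2.1 (side j hj).2.2.2.1 f1 f2 f3 f4 ((M5 _ _).1 f5)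
      ((M5 _ _).1 f6) ((M3 _).1 f7) f8 (mem_box.1 hZ)).1)
  refine (sum_congr rfl fun j hj => ?_).trans_le (key.trans (add_le_add ?_ ?_))
  · obtain ⟨s1, -, -, -, s2, s3, s4, s5, s6, s7, s8⟩ := side j hj
    rw [dev_eq ((hK j hj).1.bs28 (hK j hj).2.2.2.1) s1 gm gs (hK j hj).2.1 ct s2 s3 s4 s5 s6 s7 s8
      (Fintype.piFinset (S26 e (gl * g₂))) (fun P => ∏ i, P i) (fun P hP => ?_) w w0
      (by rw [hdl]; exact hw), card_PhG, mul_div_assoc, nrm]
    · congr 4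
      rw [Nat.cast_inj]
      congr 1
      ext Z
      simp only [mem_filter, mem_PhG, mem_box, and_self_left]
    · have h := fun i => (hS i _).1 (Fintype.mem_piFinset.1 hP i)
      exact ⟨(monic_prod_of_monic _ _ fun i _ => (h i).1).ne_zero, by
        rw [natDegree_prod_of_monic _ _ fun i _ => (h i).1, ← hDe]
        exact sum_congr rfl fun i _ => (h i).2.2.1,
        IsCoprime.prod_left fun i _ => (h i).2.2.2.of_mul_right_left⟩
  · clear key side
    have a1 := P5.pri5_le e (S26 e (gl * g₂)) fun i P hP => ⟨(mem_S26.1 hP).1, (mem_S26.1 hP).2.2.1⟩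
    have a2 : (#{d ∈ box k (gl.natDegree + 1) | d.Monic ∧ d ∣ gl} : ℝ) ≤ qq k ^ σ :=
      le_trans (by exact_mod_cast hτ gl gm.ne_zero (by omega) _ fun d hd => (mem_filter.1 hd).2)
        (P5.two_pow_le σ)
    rw [hDe] at a1
    rw [ln95_sqrt, nrm]
    gcongr
    rw [div_le_iff₀ (by positivity), ← mul_div_assoc, div_le_iff₀ (by positivity)]
    calc _ ≤ qq k ^ De * (qq k ^ σ) ^ 2 * qq k ^ dl := by gcongr
      _ ≤ _ := by
        simp only [← pow_mul, ← pow_add]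
        exact ln95_pow (by omega)
  · clear key side
    have a1 : (2 * (gl.natDegree : ℝ) + 2 * (normalize ((t * d * g₂) ^ 3)).natDegree +
        (3 * (600 * s) + 2 * (12 * s) + 3 : ℕ) + 2) ^ Fintype.card I ≤ qq k ^ σ := by
      refine le_trans ?_ (P5.two_pow_le σ)
      exact_mod_cast le_trans (Nat.pow_le_pow_left (by omega) _) hp
    have a2 : √(qq k ^ De) ≤ qq k ^ (De / 2 + 1) := by
      rw [← ln95_sqrt (De / 2 + 1)]
      exact Real.sqrt_le_sqrt (ln95_pow (a := De) (b := 2 * (De / 2 + 1)) (by omega))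
    refine mul_le_mul ?_ (sum_le_sum_of_subset_of_nonneg (erase_subset_erase _ fun Z hZ =>
      mem_box.2 (dl_mono (mem_box.1 hZ) (by omega))) fun _ _ _ => Real.sqrt_nonneg _)
      (sum_nonneg fun _ _ => Real.sqrt_nonneg _) (pow_nonneg q0.le _)
    calc _ ≤ qq k ^ ((normalize ((t * d * g₂) ^ 3)).natDegree + (3 * (600 * s) + 2 * (12 * s) + 3)) *
          (qq k ^ σ * qq k ^ (De / 2 + 1)) := by gcongr
      _ ≤ _ := by
        simp only [← pow_add]
        exact ln95_pow (by omega)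

theorem fam28 : FAM26 k := by
  intro n m ka s v σ la dd ep r e hm hdd hn hep hla hr hv hp hσ hτ r0 _ he D1 D2 G c u h₁ h₂ t1 a hG
    w w0 hw d hd t ht δ hδ Es hE
  have q2 := two_le_qq (k := k)
  have q0 : 0 < qq k := by linarith
  obtain ⟨d1, d2⟩ := mem_filter.1 hd
  obtain ⟨t1', t2⟩ := mem_filter.1 ht
  have d3 := dl_nat (mem_box.1 d1) d2.ne_zero
  have t3 := dl_nat (mem_box.1 t1') t2.ne_zero
  have n1 := natDegree_mul t2.ne_zero d2.ne_zero
  have σ4 : 4 * σ ≤ v := le_trans (Nat.mul_le_mul_right _ (by omega)) hσ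
  have ex : ∀ x : k[X] × k[X], ∃ z : k[X] × k[X], x ∈ G → x.1 = z.1 * z.2 ∧ z.1.Monic ∧
      Squarefree z.1 ∧ IsCoprime z.1 (z.2 * x.2) ∧ IsCoprime (t * d) z.1 ∧ z.2 ≠ 0 ∧
      z.2.natDegree ≤ 1036 * s := fun x => by
    by_cases hx : x ∈ G
    · obtain ⟨gf, gs, a1, a2, a3, a4, a5⟩ := (hG x hx).spl
      obtain ⟨gl, g₂, b1, b2, b3, b4, b5, b6, b7⟩ := split28 a2 a3 a4
        (fun z => (hG x hx).g0 (by rw [a1, z, mul_zero])) (mul_ne_zero t2.ne_zero d2.ne_zero)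
      exact ⟨(gl, g₂), fun _ => ⟨a1.trans b1, b2, b3, b4, b5, b6, by simp only; omega⟩⟩
    · exact ⟨0, fun h => absurd h hx⟩
  choose ky hky using ex
  obtain ⟨K, hK⟩ : ∃ K : k[X] × k[X] → Finset k[X], ∀ z j, j ∈ K z ↔
      (z.1 * z.2, j) ∈ G ∧ ky (z.1 * z.2, j) = z :=
    ⟨fun z => (mon k ka).filter fun j => (z.1 * z.2, j) ∈ G ∧ ky (z.1 * z.2, j) = z, fun z j => by
      rw [mem_filter]
      exact and_iff_right_of_imp fun h => (hG _ h.1).km⟩
  have sg : ∀ f : k[X] × k[X] → ℝ, ∑ x ∈ G, f x = ∑ z ∈ G.image ky, ∑ j ∈ K z, f (z.1 * z.2, j) :=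
    fun f => by
    rw [← sum_fiberwise_of_maps_to (fun x hx => mem_image_of_mem ky hx)]
    refine sum_congr rfl fun z _ => sum_nbij' (fun x => x.2) (fun j => (z.1 * z.2, j))
      (fun x hx => ?_) (fun j hj => mem_filter.2 ((hK z j).1 hj)) (fun x hx => ?_) (fun _ _ => rfl)
      fun x hx => ?_
    all_goals
      obtain ⟨x1, rfl⟩ := mem_filter.1 hx
      try rw [hK]
      rw [← (hky x x1).1]
    exact ⟨x1, rfl⟩
  have kz : ∀ z ∈ G.image ky, z.1.Monic ∧ Squarefree z.1 ∧ IsCoprime z.1 z.2 ∧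
      IsCoprime (t * d) z.1 ∧ z.2 ≠ 0 ∧ z.2.natDegree ≤ 1036 * s ∧ (z.1 * z.2).natDegree < m ∧
      m ≤ (z.1 * z.2).natDegree + 12 * s := fun z hz => by
    obtain ⟨x, hx, rfl⟩ := mem_image.1 hz
    obtain ⟨b1, b2, b3, b4, b5, b6, b7⟩ := hky x hx
    exact ⟨b2, b3, b4.of_mul_right_left, b5, b6, b7, b1 ▸ dl_nat (mem_box.1 (hG x hx).gb)
      (hG x hx).g0, b1 ▸ (hG x hx).gd⟩
  have hI : 6 * la ≤ ∑ i, e i :=
    (he ⟨0, r0⟩).1.trans (single_le_sum (f := e) (fun _ _ => Nat.zero_le _) (mem_univ _))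
  have ls := lsp27 (G.image ky) K m (1036 * s + 1) ka (12 * s) (3 * la + 1050 * s)
    (τ := qq k ^ σ) (pow_nonneg q0.le _) (fun f f0 fd S hS => le_trans
      (by exact_mod_cast hτ f f0 (by omega) S hS) (P5.two_pow_le σ)) fun z hz => by
      obtain ⟨b1, -, b3, -, b5, b6, b7, -⟩ := kz z hz
      rw [natDegree_mul b1.ne_zero b5] at b7
      exact ⟨b1, mem_box.2 (dl_of fun _ => by omega), mem_box.2 (dl_of fun _ => by omega), b3,
        fun j hj => ⟨(hG _ ((hK z j).1 hj).1).km, fun d hd =>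
          (hG _ ((hK z j).1 hj).1).sq d (hd.mul_left _)⟩⟩
  have cG : ∑ z ∈ G.image ky, (#(K z) : ℝ) ≤ qq k ^ (m + ka) := by
    have := sg fun _ => 1
    simp only [sum_const, nsmul_eq_mul, mul_one] at this
    rw [← this, pow_add, ← card_box, ← card_mon, ← Nat.cast_mul, ← card_product]
    exact_mod_cast card_le_card fun x hx => mem_product.2 ⟨(hG x hx).gb, (hG x hx).km⟩
  rw [sg]
  refine (sum_le_sum fun z hz => ?_).trans (?_ : ∑ z ∈ G.image ky,
    ((#(K z) : ℝ) * qq k ^ (n - m - ka + 47 * la + dd + 2100 * s) +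
      qq k ^ (7940 * s + (∑ i, e i) / 2) * ∑ Z ∈ (box k (3 * la + 1050 * s)).erase 0,
        √(#((K z ×ˢ K z).filter fun x => z.1 ∣ Z * wronskian (z.2 * x.1) (z.2 * x.2)) : ℝ)) ≤ _)
  · obtain ⟨b1, b2, b3, b4, b5, b6, b7, b8⟩ := kz z hz
    refine key28 e hm hdd hn hep hla (by rwa [Fintype.card_fin]) (by omega) ?_ hτ
      (fun i => (he i).1) hI D1 (by rwa [Fintype.card_fin]) t2 (by omega) d2 (by omega) b1 b2 b4 b5
      b6 b3 b7 b8 (K z) (fun j => c (z.1 * z.2, j)) (fun j => u (z.1 * z.2, j))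
      (fun j => h₁ (z.1 * z.2, j)) (fun j => h₂ (z.1 * z.2, j)) (fun j => Es (z.1 * z.2, j))
      (fun j => t1 (z.1 * z.2, j)) (fun j => a (z.1 * z.2, j)) (fun j => a (z.1 * z.2, j) + δ)
      (fun j hj => ?_) (w (z.1 * z.2)) (w0 _) fun W W0 Wd => ?_
    · rw [Fintype.card_fin]
      exact le_trans (Nat.pow_le_pow_right (by omega) (by omega)) hp
    · obtain ⟨j1, j2⟩ := (hK z j).1 hj
      have := (hky _ j1).2.2.2.1
      rw [j2] at this
      exact ⟨hG _ j1, this, (mem_filter.1 (hE _ j1)).1, (mem_filter.1 (hE _ j1)).2, by omega⟩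
    · rw [hw _ _ Wd, w26_ne _ _ W0]
      refine congrArg (fun S : Finset (Fin r → k[X]) => (#S : ℝ)) (Finset.ext fun P => ?_)
      simp only [mem_filter, Fintype.mem_piFinset]
  · rw [sum_add_distrib, ← sum_mul, ← mul_sum, le_div_iff₀ (pow_pos q0 _)]
    generalize ∑ i, e i = De at *
    have a1 : qq k ^ (m + (1036 * s + 1)) * (qq k ^ (1036 * s + 1 + 2 * ka) * qq k ^ σ +
        qq k ^ (m + (1036 * s + 1) + ka) * qq k ^ (2 * (12 * s) + 2)) ≤
        qq k ^ (2 * (m + ka / 2 + 1050 * s)) := by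
      rw [← pow_add, ← pow_add]
      refine (mul_le_mul_of_nonneg_left (ln95_add (c := m + ka + 1061 * s) (by omega) (by omega))
        (pow_nonneg q0.le _)).trans ?_
      rw [← pow_add]
      exact ln95_pow (by omega)
    have a2 := ls.trans (mul_le_mul_of_nonneg_left ((Real.sqrt_le_sqrt a1).trans_eq (ln95_sqrt _))
      (pow_nonneg q0.le _))
    refine (mul_le_mul_of_nonneg_right (add_le_add (mul_le_mul_of_nonneg_right cG
      (pow_nonneg q0.le _)) (mul_le_mul_of_nonneg_left a2 (pow_nonneg q0.le _)))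
      (pow_nonneg q0.le _)).trans ?_
    simp only [← pow_add]
    refine (mul_le_mul_of_nonneg_right (ln95_add (c := n + 47 * la + dd + 2100 * s) (by omega)
      (by omega)) (pow_nonneg q0.le _)).trans ?_
    rw [← pow_add]
    exact ln95_pow (by omega)

end H18M

end
end

-- part H18M.End5
section

/-! The last step: Moebius cancellation of level one half. -/

set_option autoImplicit false
open Polynomial Finset CL5 Filter
open scoped Classical

noncomputable section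
namespace H18M
open Pool.Agent Pool.Agent.H18M.P5

variable {k : Type} [Field k] [Fintype k]

theorem end5_num {n s v σ T : ℕ} {q : ℝ} (hq : 2 ≤ q) (h1 : 4 * v ≤ s) (h2 : 100 ≤ s)
    (h3 : 4 * σ ≤ v) :
    q ^ σ * (q ^ σ) ^ 2 * (q ^ (n + 5) / q ^ (12 * s / 6)) +
      (q ^ (n + T) / q ^ (10 * s) + 3 * q ^ (n + T - 10 * s)) / (q ^ T / q ^ σ) ≤
        q ^ n / q ^ s ∨ n + T < 10 * s := by
  rcases lt_or_ge (n + T) (10 * s) with h | h
  · exact Or.inr h
  left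
  have q0 : 0 < q := by linarith
  have q1 : 1 ≤ q := by linarith
  rw [pow_sub₀ _ q0.ne' h, show 12 * s / 6 = 2 * s by omega]
  have a1 : 2 * (q ^ (3 * σ + 5) * q ^ s) ≤ q ^ (2 * s) := by
    calc _ ≤ q * (q ^ (3 * σ + 5) * q ^ s) := by gcongr
      _ = q ^ (3 * σ + 5 + s + 1) := by ring
      _ ≤ _ := pow_le_pow_right₀ q1 (by omega)
  have a2 : 2 ^ 3 * (q ^ σ * q ^ s) ≤ q ^ (10 * s) := by
    calc _ ≤ q ^ 3 * (q ^ σ * q ^ s) := by gcongr
      _ = q ^ (σ + s + 3) := by ring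
      _ ≤ _ := pow_le_pow_right₀ q1 (by omega)
  have a3 : q ^ (3 * σ + 5) / q ^ (2 * s) ≤ 1 / 2 / q ^ s := by
    rw [div_le_div_iff₀ (by positivity) (by positivity)]; linarith
  have a4 : 4 * q ^ σ / q ^ (10 * s) ≤ 1 / 2 / q ^ s := by
    rw [div_le_div_iff₀ (by positivity) (by positivity)]; linarith
  calc _ = q ^ n * (q ^ (3 * σ + 5) / q ^ (2 * s) + 4 * q ^ σ / q ^ (10 * s)) := by
        field_simp; ring
    _ ≤ q ^ n * (1 / 2 / q ^ s + 1 / 2 / q ^ s) := by gcongr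
    _ = _ := by ring

theorem hm_of_lln [CharP k 3] (hL : LLN5 k) : H68T.HM (H68T.aa (k := k)) := by
  intro κ hκ
  obtain ⟨A, A0, hA⟩ := par5 (k := k) κ hκ
  refine ⟨A, A0, hA.mono fun n hn ka c hka hc => ?_⟩
  obtain ⟨s, v, σ, la, dd, ep, r, e, p1, p2, p3, p4, p5, p6, p7, p8, p9, -, p11, p12, p13, r0,
    e1, e2, e3, e4⟩ := hn ka hka
  rw [← p1]
  clear hka p1 hA hn
  obtain ⟨m, hm⟩ : ∃ m, n / 2 = m := ⟨_, rfl⟩
  rw [hm] at p2 p4 e3 e4
  rw [show n - ka - 48 * la = m + 48 * la + dd + ep by omega] at e3 e4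
  obtain ⟨G, c', u, h₁, h₂, t1, a, d1, d2, d3, d4, d5, d6, d7⟩ :=
    data26p (k := k) n m ka s la dd ep p2 p4 p5 (by omega) p6
  have q2 := two_le_qq (k := k)
  have hτ : ∀ f : k[X], f ≠ 0 → f.natDegree ≤ 9 * n → ∀ S : Finset k[X],
      (∀ d ∈ S, d.Monic ∧ d ∣ f) → (#S : ℝ) ≤ qq k ^ σ := fun f f1 f2 S f3 =>
    le_trans (by exact_mod_cast p13 f f1 f2 S f3) (two_pow_le σ)
  have pw : ∀ x j : ℕ, x ≤ (20 * n) ^ j → j ≤ r + 4 → x ≤ 2 ^ σ := fun x j h1 h2 =>
    h1.trans ((Nat.pow_le_pow_right (by omega) h2).trans p11)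
  have pq : ∀ x : ℕ, x ≤ 2 ^ σ → (x : ℝ) ≤ qq k ^ σ := fun x h =>
    le_trans (by exact_mod_cast h) (two_pow_le σ)
  have s1 : 4 * σ ≤ v := le_trans (Nat.mul_le_mul_right _ (by omega)) p12
  have s2 : (2 * r + 3) * σ ≤ v := le_trans (Nat.mul_le_mul_right _ (by omega)) p12
  have s3 : (r + 2) * σ ≤ v := le_trans (Nat.mul_le_mul_right _ (by omega)) p12
  have s4 : r * σ ≤ v := le_trans (Nat.mul_le_mul_right _ (by omega)) p12
  have b1 := CL3.badw32 n ka (12 * s) hτ (by omega) (by omega) _ d7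
  simp only [CL3.car_eq_iff] at b1
  have b2 := hL n m ka s v σ la dd ep r e p2 p3 p4 p5 p6 p7 p9 p11 p12 p13 r0 e1 e2 e3 e4
    G c' u h₁ h₂ t1 a d2
  have b3 := fun (cc : k[X] × k[X] → ℝ) (hcc : ∀ z, |cc z| ≤ 1) =>
    (line_main26 G h₁ h₂ t1 a (S26 e) (fun x y => cc (x, y)) (w26 e) e m ka (n - ka) (12 * s)
      (16 * la) (16 * la) (m + 48 * la + dd + ep) (64 * la + dd + 2 * (12 * s) + 4)
      (80 * la + dd + 2 * (12 * s) + 2) (4 * la) (12 * la) (3 * la) (6 * la) (9 * n)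
      (β := 1 / qq k ^ (2 * (100 * s))) (fun _ _ => hcc _) (by positivity) (by positivity) hτ
      (by omega) (by omega) (by omega) (by omega) (by omega) (by omega) (by omega) e1 e2
      (by omega) (by omega) (by omega) (by omega)
      (beta95 (by rw [Fintype.card_fin, show 2 * (100 * s) = 200 * s by ring]; omega)
        (by rw [Fintype.card_fin, show 2 * (100 * s) = 200 * s by ring]; omega))
      d3 d4 (fun x _ i P hP => mem_S26.1 hP) (fun x _ W hW _ => w26_ne e _ hW) d6).trans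
    (rhs95 (T := σ) (X := n + (64 * la + dd) - 10 * s) (by positivity) le_rfl
      (by exact_mod_cast pq (ka + 1) (pw _ 1 (by rw [pow_one]; omega) (by omega))) le_rfl
      (by rw [Fintype.card_fin]; omega) (by rw [Fintype.card_fin]; omega)
      (by rw [Fintype.card_fin]; omega) (by rw [Fintype.card_fin]; omega))
  have b4 : ∀ x ∈ G, qq k ^ (64 * la + dd) / qq k ^ σ ≤
      (#(Fintype.piFinset (S26 e x.1)) : ℝ) / qq k ^ (∑ i, e i) *
        #((box k (t1 x) ×ˢ (box k (a x + 1) \ box k (a x))).filter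
          (fun p => IsCoprime p.1 p.2)) := fun x hx => by
    obtain ⟨y1, -, -, y2, y3, y4, -⟩ := d5 x hx
    have g0 := (d2 x hx).g0
    have g1 := (natDegree_lt_iff_degree_lt g0).2 (mem_box.1 (d2 x hx).gb)
    have c1 := pri5 g0 e (E := 12 * la) (fun i => ⟨by have := e2 i; omega, (e2 i).2,
      (pw _ 1 (by rw [pow_one]; omega) (by omega)).trans
        (Nat.pow_le_pow_right (by omega) (by have := e2 i; omega))⟩) (S26 e x.1)
      fun i P z1 z2 z3 z4 => mem_S26.2 ⟨z1, z2, z3, z2.coprime_iff_not_dvd.1 z4⟩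
    have c2 := dir5 (k := k) y2 y3
    have c3 := pq ((2 * (12 * la)) ^ r * (4 * a x)) (pw _ (r + 1) (by
      rw [pow_succ]
      exact Nat.mul_le_mul (Nat.pow_le_pow_left (by omega) r) (by omega)) (by omega))
    rw [Fintype.card_fin] at c1
    push_cast at c1 c3
    rw [div_mul_eq_mul_div, div_le_div_iff₀ (by positivity) (by positivity)]
    calc _ ≤ qq k ^ (t1 x + a x) * qq k ^ (∑ i, e i) := by
          gcongr
          linarith
      _ ≤ _ := (mul_le_mul c2 c1 (by positivity) (by positivity)).trans ?_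
    calc _ = (#(Fintype.piFinset (S26 e x.1)) : ℝ) *
          #((box k (t1 x) ×ˢ (box k (a x + 1) \ box k (a x))).filter
            (fun p => IsCoprime p.1 p.2)) * ((2 * (12 * (la : ℝ))) ^ r * (4 * a x)) := by ring
      _ ≤ _ := by gcongr
  have b5 : 2 * ((n : ℝ) + 1) ^ 3 ≤ qq k ^ σ := by
    have := pq (2 * (n + 1) ^ 3) (pw _ 4 (by
      rw [pow_succ' _ 3]
      exact Nat.mul_le_mul (by omega) (Nat.pow_le_pow_left (by omega) 3)) (by omega))
    exact_mod_cast this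
  have key := norm5 _ G d1 _ H68T.mu abs_mu5 (fun z => c z.2) (fun z => hc _) _ _
    (by positivity) b4 b1 b2 b3
  refine le_trans (le_of_eq ?_) (key.trans (le_trans ?_
    ((end5_num (n := n) (T := 64 * la + dd) q2 p9 (by omega) s1).resolve_right (by omega))))
  · refine congrArg _ ((swap5 (by omega) c).trans ?_)
    simp only [hm, CL3.car_eq_iff]
  · gcongr

end H18M

end
end
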