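import Pool.Agent.H92F.Box
import Pool.Agent.H92F.K5_24

-- part H86M.Cnt91
section

/-! h86m: the counting lemmas G, DT, LAT. -/

set_option autoImplicit false
open Polynomial Finset
open scoped Classical

noncomputable section
namespace CL5

variable {k : Type*} [Field k] [Fintype k]

theorem c91_pos : 0 < qq k := by linarith [two_le_qq (k := k)]

theorem c91_geom (t N : ℕ) : ∑ j ∈ Ico t N, 1 / qq k ^ j ≤ 2 / qq k ^ t := by
  have hq := two_le_qq (k := k)
  have h0 := c91_pos (k := k)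
  have h : ∀ z : ℕ, ∑ j ∈ Ico t (t + z), 1 / qq k ^ j ≤ 2 / qq k ^ t - 2 / qq k ^ (t + z) := by
    intro z
    induction z with
    | zero => simp
    | succ z ih =>
      rw [← add_assoc, sum_Ico_succ_top (by omega)]
      have a1 : 2 / qq k ^ (t + z + 1) ≤ 1 / qq k ^ (t + z) := by
        rw [div_le_div_iff₀ (by positivity) (by positivity), pow_succ]
        nlinarith [pow_pos h0 (t + z)]
      have a2 : 2 / qq k ^ (t + z) = 2 * (1 / qq k ^ (t + z)) := by ring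
      linarith
  refine le_trans (sum_le_sum_of_subset_of_nonneg (Ico_subset_Ico_right (Nat.le_add_left N t))
    fun _ _ _ => by positivity) ((h N).trans ?_)
  have : 0 ≤ 2 / qq k ^ (t + N) := by positivity
  linarith

theorem c91_lt {N : ℕ} {p : k[X]} (hp : p ∈ box k N) (h0 : p ≠ 0) : p.natDegree < N :=
  (natDegree_lt_iff_degree_lt h0).2 (mem_box.1 hp)

theorem c91_mem {N : ℕ} {p : k[X]} (h : p ≠ 0 → p.natDegree < N) : p ∈ box k N := by
  rw [mem_box]
  by_cases h0 : p = 0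
  · simp [h0]
  · exact (natDegree_lt_iff_degree_lt h0).1 (h h0)

theorem c91_sub {N : ℕ} {p r : k[X]} (hp : p ∈ box k N) (hr : r ∈ box k N) : p - r ∈ box k N := by
  rw [mem_box] at *
  exact (degree_sub_le _ _).trans_lt (max_lt hp hr)

/-- G: pairs of nonzero entries with a common monic divisor of degree at least `t` -/
theorem c91_G (a b t : ℕ) (T : Finset (k[X] × k[X]))
    (hT : ∀ p ∈ T, p.1 ∈ box k a ∧ p.2 ∈ box k b ∧ p.1 ≠ 0 ∧ p.2 ≠ 0 ∧
      ∃ c : k[X], c.Monic ∧ t ≤ c.natDegree ∧ c ∣ p.1 ∧ c ∣ p.2) :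
    (T.card : ℝ) ≤ 2 * qq k ^ (a + b) / qq k ^ t := by
  have h0 := c91_pos (k := k)
  have h1 : T ⊆ (Ico t a).biUnion fun j => (mon k j).biUnion fun c =>
      (((box k a).erase 0).filter (fun u => c ∣ u)) ×ˢ
        (((box k b).erase 0).filter (fun u => c ∣ u)) := by
    intro p hp
    obtain ⟨a1, a2, a3, a4, c, a5, a6, a7, a8⟩ := hT p hp
    simp only [mem_biUnion, mem_Ico, mem_mon, mem_product, mem_filter, mem_erase]
    exact ⟨c.natDegree, ⟨a6, (natDegree_le_of_dvd a7 a3).trans_lt (c91_lt a1 a3)⟩, c, ⟨a5, rfl⟩,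
      ⟨⟨a3, a1⟩, a7⟩, ⟨a4, a2⟩, a8⟩
  have h2 := (card_le_card h1).trans (card_biUnion_le.trans (sum_le_sum fun j _ => card_biUnion_le))
  have h3 : (T.card : ℝ) ≤ ∑ j ∈ Ico t a, ∑ c ∈ mon k j,
      ((((((box k a).erase 0).filter (fun u => c ∣ u)) ×ˢ
        (((box k b).erase 0).filter (fun u => c ∣ u))).card : ℕ) : ℝ) := by exact_mod_cast h2
  refine h3.trans ?_
  have h4 : ∀ j ∈ Ico t a, ∑ c ∈ mon k j,
      ((((((box k a).erase 0).filter (fun u => c ∣ u)) ×ˢ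
        (((box k b).erase 0).filter (fun u => c ∣ u))).card : ℕ) : ℝ) ≤
      qq k ^ (a + b) * (1 / qq k ^ j) := by
    intro j _
    refine (sum_le_card_nsmul _ _ (qq k ^ a / qq k ^ j * (qq k ^ b / qq k ^ j))
      fun c hc => ?_).trans ?_
    · rw [mem_mon] at hc
      rw [card_product, Nat.cast_mul]
      have b1 := card_box_dvd_le (N := a) hc.1.ne_zero
      have b2 := card_box_dvd_le (N := b) hc.1.ne_zero
      rw [nrm, hc.2] at b1 b2
      exact mul_le_mul b1 b2 (Nat.cast_nonneg _) (by positivity)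
    · rw [nsmul_eq_mul, card_mon, pow_add]
      apply le_of_eq
      field_simp
  refine (sum_le_sum h4).trans ?_
  rw [← mul_sum]
  refine (mul_le_mul_of_nonneg_left (c91_geom t a) (by positivity)).trans (le_of_eq ?_)
  ring

/-- a subset of the box inside one coset of `A w` -/
theorem c91_fib {a b e : ℕ} {w : k[X] × k[X]}
    (he : (w.1 ≠ 0 ∧ a ≤ w.1.natDegree + e) ∨ (w.2 ≠ 0 ∧ b ≤ w.2.natDegree + e))
    (F : Finset (k[X] × k[X])) (hF : ∀ p ∈ F, p.1 ∈ box k a ∧ p.2 ∈ box k b)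
    (h : ∀ x ∈ F, ∀ y ∈ F, ∃ s : k[X], x.1 - y.1 = s * w.1 ∧ x.2 - y.2 = s * w.2) :
    F.card ≤ Fintype.card k ^ e := by
  rcases F.eq_empty_or_nonempty with rfl | ⟨y, hy⟩
  · simp
  have h1 : F ⊆ (box k e).image fun s => (y.1 + s * w.1, y.2 + s * w.2) := by
    intro x hx
    obtain ⟨s, e1, e2⟩ := h x hx y hy
    refine mem_image.2 ⟨s, c91_mem fun hs => ?_, Prod.ext (by simp [← e1]) (by simp [← e2])⟩
    rcases he with ⟨h0, h2⟩ | ⟨h0, h2⟩
    · have := c91_lt (c91_sub (hF x hx).1 (hF y hy).1) (by rw [e1]; exact mul_ne_zero hs h0)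
      rw [e1, natDegree_mul hs h0] at this
      omega
    · have := c91_lt (c91_sub (hF x hx).2 (hF y hy).2) (by rw [e2]; exact mul_ne_zero hs h0)
      rw [e2, natDegree_mul hs h0] at this
      omega
  refine (card_le_card h1).trans (card_image_le.trans (le_of_eq ?_))
  have := card_box (k := k) e
  rw [qq] at this
  exact_mod_cast this

omit [Fintype k] in
theorem c91_prim (u v : k[X]) : ∃ g p1 p2 : k[X], u = g * p1 ∧ v = g * p2 ∧ IsCoprime p1 p2 := by
  obtain ⟨p1, p2, e1, e2, hu⟩ := extract_gcd u v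
  exact ⟨_, p1, p2, e1, e2, (gcd_isUnit_iff _ _).1 hu⟩

omit [Fintype k] in
theorem c91_ker {p1 p2 x1 x2 : k[X]} (hc : IsCoprime p1 p2) (h : p1 * x2 = p2 * x1) :
    ∃ s : k[X], x1 = s * p1 ∧ x2 = s * p2 := by
  obtain ⟨c1, c2, e⟩ := hc
  exact ⟨c1 * x1 + c2 * x2, by linear_combination -x1 * e - c2 * h,
    by linear_combination -x2 * e + c1 * h⟩

/-- DT: pairs of rows with determinant in `S` -/
theorem c91_DT (a b t : ℕ) (S : Finset k[X]) (T : Finset ((k[X] × k[X]) × (k[X] × k[X])))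
    (hT : ∀ p ∈ T, p.1.1 ∈ box k a ∧ p.1.2 ∈ box k b ∧ p.2.1 ∈ box k a ∧ p.2.2 ∈ box k b ∧
      p.1.1 ≠ 0 ∧ p.1.2 ≠ 0 ∧ p.1.1 * p.2.2 - p.1.2 * p.2.1 ∈ S) :
    (T.card : ℝ) ≤ qq k ^ (a + b + t) * S.card + 2 * qq k ^ (2 * a + 2 * b + 1) / qq k ^ t := by
  have h0 := c91_pos (k := k)
  let B : Finset (k[X] × k[X]) := (Ico t (min a b)).biUnion fun d =>
    (box k (d + 1) ×ˢ box k (a - d) ×ˢ box k (b - d)).image fun z => (z.1 * z.2.1, z.1 * z.2.2)
  have hB : (B.card : ℝ) ≤ 2 * qq k ^ (a + b + 1) / qq k ^ t := by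
    have h2 : B.card ≤ ∑ d ∈ Ico t (min a b),
        (box k (d + 1) ×ˢ box k (a - d) ×ˢ box k (b - d)).card :=
      card_biUnion_le.trans (sum_le_sum fun d _ => card_image_le)
    have h3 : (B.card : ℝ) ≤ ∑ d ∈ Ico t (min a b),
        (((box k (d + 1) ×ˢ box k (a - d) ×ˢ box k (b - d)).card : ℕ) : ℝ) := by exact_mod_cast h2
    have h4 : ∀ d ∈ Ico t (min a b),
        (((box k (d + 1) ×ˢ box k (a - d) ×ˢ box k (b - d)).card : ℕ) : ℝ) =
          qq k ^ (a + b + 1) * (1 / qq k ^ d) := by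
      intro d hd
      rw [mem_Ico] at hd
      rw [card_product, card_product, Nat.cast_mul, Nat.cast_mul, card_box, card_box, card_box,
        mul_one_div, eq_div_iff (by positivity), ← pow_add, ← pow_add, ← pow_add]
      congr 1
      omega
    rw [sum_congr rfl h4, ← mul_sum] at h3
    refine h3.trans ((mul_le_mul_of_nonneg_left (c91_geom t _) (by positivity)).trans (le_of_eq ?_))
    ring
  have h1 : ((T.filter fun p => p.1 ∈ B).card : ℝ) ≤ B.card * qq k ^ (a + b) := by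
    have : (T.filter fun p => p.1 ∈ B) ⊆ B ×ˢ (box k a ×ˢ box k b) := by
      intro p hp
      rw [mem_filter] at hp
      obtain ⟨-, -, a3, a4, -⟩ := hT p hp.1
      simp only [mem_product]
      exact ⟨hp.2, a3, a4⟩
    have h2 := card_le_card this
    rw [card_product, card_product] at h2
    rw [pow_add, ← card_box, ← card_box]
    exact_mod_cast h2
  have h5 : (T.filter fun p => ¬ p.1 ∈ B).card ≤
      Fintype.card k ^ t * ((box k a ×ˢ box k b) ×ˢ S).card := by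
    apply card_le_mul_card_image_of_maps_to
      (f := fun p : (k[X] × k[X]) × (k[X] × k[X]) => (p.1, p.1.1 * p.2.2 - p.1.2 * p.2.1))
    · intro p hp
      rw [mem_filter] at hp
      obtain ⟨a1, a2, -, -, -, -, a7⟩ := hT p hp.1
      simp only [mem_product]
      exact ⟨⟨a1, a2⟩, a7⟩
    · rintro ⟨⟨u, v⟩, D⟩ -
      set F := (T.filter fun p => ¬ p.1 ∈ B).filter fun p =>
        (p.1, p.1.1 * p.2.2 - p.1.2 * p.2.1) = ((u, v), D) with hF
      rcases F.eq_empty_or_nonempty with h | ⟨y, hy⟩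
      · simp [h]
      have hm : ∀ p ∈ F, p ∈ T ∧ p.1 ∉ B ∧ p.1 = (u, v) ∧ u * p.2.2 - v * p.2.1 = D := by
        intro p hp
        simp only [hF, mem_filter, Prod.mk.injEq] at hp
        refine ⟨hp.1.1, hp.1.2, hp.2.1, ?_⟩
        have := hp.2.2
        rwa [hp.2.1] at this
      obtain ⟨y1, y2, y3, -⟩ := hm y hy
      obtain ⟨a1, a2, -, -, a5, a6, -⟩ := hT y y1
      rw [y3] at a1 a2 a5 a6 y2
      simp only at a1 a2 a5 a6
      obtain ⟨g, p1, p2, e1, e2, hc⟩ := c91_prim u v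
      have hg : g ≠ 0 := left_ne_zero_of_mul (e1 ▸ a5)
      have hp1 : p1 ≠ 0 := right_ne_zero_of_mul (e1 ▸ a5)
      have hp2 : p2 ≠ 0 := right_ne_zero_of_mul (e2 ▸ a6)
      have d1 := c91_lt a1 a5
      have d2 := c91_lt a2 a6
      rw [e1, natDegree_mul hg hp1] at d1
      rw [e2, natDegree_mul hg hp2] at d2
      have he : a ≤ p1.natDegree + t ∨ b ≤ p2.natDegree + t := by
        by_contra hn
        apply y2
        simp only [B, mem_biUnion, mem_Ico, mem_image, mem_product]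
        exact ⟨min (a - 1 - p1.natDegree) (b - 1 - p2.natDegree), by omega, (g, p1, p2),
          ⟨c91_mem fun _ => by simp only; omega, c91_mem fun _ => by simp only; omega,
            c91_mem fun _ => by simp only; omega⟩, by simp [e1, e2]⟩
      rw [← card_image_of_injOn (f := Prod.snd) (s := F) (fun p hp p' hp' e =>
        Prod.ext ((hm p hp).2.2.1.trans (hm p' hp').2.2.1.symm) e)]
      refine c91_fib (a := a) (b := b) (w := (p1, p2)) (he.imp (⟨hp1, ·⟩) (⟨hp2, ·⟩)) _ ?_ ?_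
      · intro x hx
        obtain ⟨p, hp, rfl⟩ := mem_image.1 hx
        obtain ⟨-, -, a3, a4, -⟩ := hT p (hm p hp).1
        exact ⟨a3, a4⟩
      · intro x hx x' hx'
        obtain ⟨p, hp, rfl⟩ := mem_image.1 hx
        obtain ⟨p', hp', rfl⟩ := mem_image.1 hx'
        apply c91_ker hc
        apply mul_left_cancel₀ hg
        have b1 := (hm p hp).2.2.2
        have b2 := (hm p' hp').2.2.2
        rw [e1, e2] at b1 b2
        linear_combination b1 - b2
  have h6 : ((T.filter fun p => ¬ p.1 ∈ B).card : ℝ) ≤ qq k ^ (a + b + t) * S.card := by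
    rw [card_product, card_product] at h5
    have : qq k ^ (a + b + t) * S.card =
        qq k ^ t * (((box k a).card * (box k b).card) * S.card) := by
      rw [card_box, card_box]
      ring
    rw [this, qq]
    exact_mod_cast h5
  have h7 : (T.card : ℝ) = (T.filter fun p => p.1 ∈ B).card + (T.filter fun p => ¬ p.1 ∈ B).card := by
    exact_mod_cast (card_filter_add_card_filter_not (s := T) fun p => p.1 ∈ B).symm
  have h8 : (B.card : ℝ) * qq k ^ (a + b) ≤ 2 * qq k ^ (2 * a + 2 * b + 1) / qq k ^ t := by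
    refine (mul_le_mul_of_nonneg_right hB (by positivity)).trans (le_of_eq ?_)
    ring
  linarith

/-- LAT: points of a submodule in the box -/
theorem c91_LAT (a b : ℕ) (L : Submodule k[X] (k[X] × k[X])) {D : k[X]}
    (hD : ∀ v ∈ L, ∀ v' ∈ L, D ∣ v.1 * v'.2 - v.2 * v'.1) {r r' : k[X] × k[X]}
    (hr : r ∈ L) (hr' : r' ∈ L) (h1 : r.1 ∈ box k a) (h2 : r.2 ∈ box k b) (h3 : r'.1 ∈ box k a)
    (h4 : r'.2 ∈ box k b) (hd : r.1 * r'.2 - r.2 * r'.1 ≠ 0) (T : Finset (k[X] × k[X]))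
    (hT : ∀ v ∈ T, v ∈ L ∧ v.1 ∈ box k a ∧ v.2 ∈ box k b) :
    (T.card : ℝ) * qq k ^ D.natDegree ≤ qq k ^ (a + b) := by
  obtain ⟨g, p1, p2, e1, e2, hc⟩ := c91_prim r.1 r.2
  let I : Ideal k[X] := L.comap (LinearMap.toSpanSingleton k[X] (k[X] × k[X]) (p1, p2))
  have hI : ∀ s, s ∈ I ↔ (s * p1, s * p2) ∈ L := fun s => by
    simp [I, LinearMap.toSpanSingleton_apply]
  obtain ⟨c, hc'⟩ := (IsPrincipalIdealRing.principal I).principal
  have hI' : ∀ s, (s * p1, s * p2) ∈ L ↔ c ∣ s := fun s => by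
    rw [← hI, hc']
    exact Ideal.mem_span_singleton
  obtain ⟨g', eg⟩ : c ∣ g := (hI' g).1 (by rw [← e1, ← e2]; exact hr)
  have hw : (c * p1, c * p2) ∈ L := (hI' c).2 dvd_rfl
  have f1 : r.1 = g' * (c * p1) := by rw [e1, eg]; ring
  have f2 : r.2 = g' * (c * p2) := by rw [e2, eg]; ring
  have hker : ∀ v ∈ L, c * p1 * v.2 - c * p2 * v.1 = 0 → c ≠ 0 →
      ∃ s : k[X], v.1 = s * (c * p1) ∧ v.2 = s * (c * p2) := by
    intro v hv h hc0
    obtain ⟨s, b1, b2⟩ := c91_ker (x1 := v.1) (x2 := v.2) hc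
      (mul_left_cancel₀ hc0 (by linear_combination h))
    obtain ⟨s', es⟩ := (hI' s).1 (by rw [← b1, ← b2]; exact hv)
    exact ⟨s', by rw [b1, es]; ring, by rw [b2, es]; ring⟩
  have hc0 : c ≠ 0 := by
    rintro rfl
    apply hd
    simp [f1, f2]
  generalize c * p1 = w1 at *
  generalize c * p2 = w2 at *
  have hd' : w1 * r'.2 - w2 * r'.1 ≠ 0 := by
    intro h
    apply hd
    rw [f1, f2]
    linear_combination g' * h
  have hg' : g' ≠ 0 := by
    rintro rfl
    apply hd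
    simp [f1, f2]
  have d1 : w1 ≠ 0 → w1.natDegree < a := fun h => by
    have := c91_lt h1 (by rw [f1]; exact mul_ne_zero hg' h)
    rw [f1, natDegree_mul hg' h] at this
    omega
  have d2 : w2 ≠ 0 → w2.natDegree < b := fun h => by
    have := c91_lt h2 (by rw [f2]; exact mul_ne_zero hg' h)
    rw [f2, natDegree_mul hg' h] at this
    omega
  obtain ⟨e, k0, k1, k2, k3⟩ : ∃ e : ℕ, e ≤ a + b ∧ (w1 ≠ 0 → w1.natDegree + e ≤ a) ∧
      (w2 ≠ 0 → w2.natDegree + e ≤ b) ∧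
      ((w1 ≠ 0 ∧ a ≤ w1.natDegree + e) ∨ (w2 ≠ 0 ∧ b ≤ w2.natDegree + e)) := by
    by_cases z1 : w1 = 0
    · have z2 : w2 ≠ 0 := by
        rintro rfl
        apply hd'
        simp [z1]
      have := d2 z2
      exact ⟨b - w2.natDegree, by omega, fun h => absurd z1 h, fun _ => by omega,
        Or.inr ⟨z2, by omega⟩⟩
    · have := d1 z1
      by_cases z2 : w2 = 0
      · exact ⟨a - w1.natDegree, by omega, fun _ => by omega, fun h => absurd z2 h,
          Or.inl ⟨z1, by omega⟩⟩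
      · have := d2 z2
        refine ⟨min (a - w1.natDegree) (b - w2.natDegree), by omega, fun _ => by omega,
          fun _ => by omega, ?_⟩
        rcases le_total (a - w1.natDegree) (b - w2.natDegree) with h | h
        · exact Or.inl ⟨z1, by omega⟩
        · exact Or.inr ⟨z2, by omega⟩
  have hdet : ∀ v : k[X] × k[X], v.1 ∈ box k a → v.2 ∈ box k b →
      w1 * v.2 - w2 * v.1 ∈ box k (a + b - e) := by
    intro v b1 b2
    refine c91_sub (c91_mem fun h => ?_) (c91_mem fun h => ?_)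
    · have z1 := left_ne_zero_of_mul h
      have z2 := right_ne_zero_of_mul h
      have := c91_lt b2 z2
      have := k1 z1
      rw [natDegree_mul z1 z2]
      omega
    · have z1 := left_ne_zero_of_mul h
      have z2 := right_ne_zero_of_mul h
      have := c91_lt b1 z2
      have := k2 z1
      rw [natDegree_mul z1 z2]
      omega
  have hDd := hD _ hw _ hr'
  have hD0 : D ≠ 0 := by
    rintro rfl
    exact hd' (zero_dvd_iff.1 hDd)
  have hDn : D.natDegree ≤ a + b - e :=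
    (natDegree_le_of_dvd hDd hd').trans (c91_lt (hdet r' h3 h4) hd').le
  have h5 : T.card ≤ Fintype.card k ^ e *
      ((box k (a + b - e)).filter (fun z => D ∣ z - 0)).card := by
    apply card_le_mul_card_image_of_maps_to (f := fun v : k[X] × k[X] => w1 * v.2 - w2 * v.1)
    · intro v hv
      obtain ⟨b1, b2, b3⟩ := hT v hv
      rw [mem_filter, sub_zero]
      exact ⟨hdet v b2 b3, hD _ hw _ b1⟩
    · intro z _
      refine c91_fib (a := a) (b := b) (w := (w1, w2)) k3 _ ?_ ?_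
      · intro p hp
        exact (hT p (mem_filter.1 hp).1).2
      · intro x hx y hy
        rw [mem_filter] at hx hy
        refine hker (x - y) (L.sub_mem (hT x hx.1).1 (hT y hy.1).1) ?_ hc0
        simp only [Prod.fst_sub, Prod.snd_sub]
        linear_combination hx.2 - hy.2
  have h6 : (T.card : ℝ) ≤ qq k ^ e * qq k ^ (a + b - e - D.natDegree) := by
    rw [← card_box_class hD0 hDn 0, qq]
    exact_mod_cast h5
  refine (mul_le_mul_of_nonneg_right h6 (pow_pos c91_pos _).le).trans (le_of_eq ?_)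
  rw [← pow_add, ← pow_add]
  congr 1
  omega

end CL5

end
end

-- part H86M.Tail91
section

/-! h86m: the tail lemma. -/

set_option autoImplicit false
open Polynomial Finset UniqueFactorizationMonoid Filter Topology
open scoped Classical

noncomputable section
namespace CL5

variable {k : Type*} [Field k] [Fintype k]

/-- `D` is admissible for the matrix with rows `M.1`, `M.2` -/
def T91Adm (M : (k[X] × k[X]) × (k[X] × k[X])) (D : k[X]) : Prop :=
  D.Monic ∧ Squarefree D ∧ D ∣ M.1.1 * M.2.2 - M.1.2 * M.2.1 ∧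
    ∀ p : k[X], Irreducible p → p ∣ D → ¬ (p ∣ M.1.1 ∧ p ∣ M.1.2) ∧ ¬ (p ∣ M.2.1 ∧ p ∣ M.2.2) ∧
      ¬ (p ∣ M.1.1 + M.2.1 ∧ p ∣ M.1.2 + M.2.2) ∧ ¬ (p ∣ M.1.1 - M.2.1 ∧ p ∣ M.1.2 - M.2.2)

/-- REP and HYP for the pair `g` with weight `ν` -/
def T91Data (m i1 i2 : ℕ) (g : k[X] × k[X]) (ν : ℝ) : Prop :=
  ∃ (Z : k[X] × k[X]) (M : (k[X] × k[X]) × (k[X] × k[X])), Z.1 ≠ 0 ∧ Z.2 ≠ 0 ∧
    g.1 = M.1.1 ^ 3 * Z.1 + M.1.2 ^ 3 * Z.2 ∧ g.2 = M.2.1 ^ 3 * Z.1 + M.2.2 ^ 3 * Z.2 ∧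
    M.1.1 * M.2.2 - M.1.2 * M.2.1 ≠ 0 ∧ Z.1 ∈ box k (m - 3 * i1) ∧ Z.2 ∈ box k (m - 3 * i2) ∧
    M.1.1 ∈ box k (i1 + 1) ∧ M.1.2 ∈ box k (i2 + 1) ∧ M.2.1 ∈ box k (i1 + 1) ∧
    M.2.2 ∈ box k (i2 + 1) ∧ ν ≤ qq k ^ (i1 + i2 + 3) ∧
    ∀ D : k[X], T91Adm M D → ∃ D1 D2 : k[X], D = D1 * D2 ∧ D1 ∣ g.1 ∧ D1 ∣ g.2 ∧
      ν ≤ qq k ^ (i1 + i2 + 3) / qq k ^ D2.natDegree

/-- pairs with one of four combinations in `U` -/
def t91Four {G : Type*} [AddCommGroup G] [DecidableEq G] (B U : Finset G) : Finset (G × G) :=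
  (B ×ˢ B).filter fun p => p.1 ∈ U ∨ p.2 ∈ U ∨ p.1 + p.2 ∈ U ∨ p.1 - p.2 ∈ U

theorem t91_four {G : Type*} [AddCommGroup G] [DecidableEq G] (B U : Finset G) :
    ((t91Four B U).card : ℝ) ≤ 4 * (U.card * B.card) := by
  have h : t91Four B U ⊆ U ×ˢ B ∪ (B ×ˢ U ∪ ((U ×ˢ B).image (fun p => (p.1 - p.2, p.2)) ∪
      (U ×ˢ B).image (fun p => (p.1 + p.2, p.2)))) := by
    intro p hp
    simp only [t91Four, mem_filter, mem_product] at hp
    simp only [mem_union, mem_product, mem_image]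
    obtain ⟨⟨h1, h2⟩, h | h | h | h⟩ := hp
    · exact Or.inl ⟨h, h2⟩
    · exact Or.inr (Or.inl ⟨h1, h⟩)
    · exact Or.inr (Or.inr (Or.inl ⟨(p.1 + p.2, p.2), ⟨h, h2⟩, by simp⟩))
    · exact Or.inr (Or.inr (Or.inr ⟨(p.1 - p.2, p.2), ⟨h, h2⟩, by simp⟩))
  have h1 := (card_le_card h).trans ((card_union_le _ _).trans (Nat.add_le_add_left
    ((card_union_le _ _).trans (Nat.add_le_add_left ((card_union_le _ _).trans
      (Nat.add_le_add card_image_le card_image_le)) _)) _))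
  simp only [card_product] at h1
  have h2 : (t91Four B U).card ≤ 4 * (U.card * B.card) := by
    rw [mul_comm B.card] at h1
    omega
  exact_mod_cast h2

theorem t91_rad (i s : ℕ) (S : Finset k[X])
    (hS : ∀ c ∈ S, c ≠ 0 ∧ c.natDegree ≤ i ∧ (radical c).natDegree ≤ s) :
    (S.card : ℝ) ≤ qq k * (Real.exp 16 * (Real.sqrt (qq k) ^ i * qq k ^ s)) := by
  have h0 := c91_pos (k := k)
  let S' := (box k (i + 1)).filter fun c => c.Monic ∧ (radical c).natDegree ≤ s
  have h1 : S ⊆ ((univ : Finset k) ×ˢ S').image fun p => C p.1 * p.2 := by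
    intro c hc
    obtain ⟨a1, a2, a3⟩ := hS c hc
    have hl : c.leadingCoeff ≠ 0 := leadingCoeff_ne_zero.2 a1
    refine mem_image.2 ⟨(c.leadingCoeff, c * C c.leadingCoeff⁻¹), ?_, ?_⟩
    · simp only [S', mem_product, mem_univ, mem_filter, true_and]
      refine ⟨c91_mem fun _ => ?_, monic_mul_leadingCoeff_inv a1, ?_⟩
      · have := natDegree_mul_C_le c c.leadingCoeff⁻¹
        omega
      · rwa [radical_mul_of_isUnit_right (isUnit_C.2 (IsUnit.mk0 _ (inv_ne_zero hl)))]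
    · simp only
      rw [mul_left_comm, ← C_mul, mul_inv_cancel₀ hl, C_1, mul_one]
  have h2 := (card_le_card h1).trans card_image_le
  rw [card_product, card_univ] at h2
  have h3 := Pool.Agent.MP_d0fd9b_nt.H92F.K5.sstar S' fun c hc => (mem_filter.1 hc).2.1
  have hs : 1 ≤ Real.sqrt (qq k) := Real.one_le_sqrt.2 (by linarith [two_le_qq (k := k)])
  have hq : 1 ≤ qq k := by linarith [two_le_qq (k := k)]
  have h4 : (S'.card : ℝ) * (Real.sqrt (qq k) ^ i * qq k ^ s)⁻¹ ≤ Real.exp 16 := by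
    refine le_trans ?_ h3
    rw [← nsmul_eq_mul]
    refine card_nsmul_le_sum _ _ _ fun c hc => ?_
    rw [mem_filter] at hc
    have := c91_lt hc.1 hc.2.1.ne_zero
    exact inv_anti₀ (by positivity) (mul_le_mul (pow_le_pow_right₀ hs (by omega))
      (pow_le_pow_right₀ hq hc.2.2) (by positivity) (by positivity))
  rw [← div_eq_mul_inv, div_le_iff₀ (by positivity)] at h4
  refine le_trans ?_ (mul_le_mul_of_nonneg_left h4 h0.le)
  rw [qq]
  exact_mod_cast h2

/-- the lattice of rows killed modulo `D` -/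
def t91L [CharP k 3] (Z : k[X] × k[X]) (D : k[X]) : Submodule k[X] (k[X] × k[X]) where
  carrier := {v | D ∣ v.1 ^ 3 * Z.1 + v.2 ^ 3 * Z.2}
  add_mem' := by
    intro v w hv hw
    have : Fact (Nat.Prime 3) := ⟨by norm_num⟩
    have := dvd_add hv hw
    simp only [Set.mem_ofPred_eq, Prod.fst_add, Prod.snd_add, add_pow_char]
    convert this using 1
    ring
  zero_mem' := by simp
  smul_mem' := by
    intro c v hv
    have := Dvd.dvd.mul_left hv (c ^ 3)
    simp only [Set.mem_ofPred_eq, Prod.smul_fst, Prod.smul_snd, smul_eq_mul]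
    convert this using 1
    ring

omit [Fintype k] in
theorem t91_memL [CharP k 3] {Z : k[X] × k[X]} {D : k[X]} {v : k[X] × k[X]} :
    v ∈ t91L Z D ↔ D ∣ v.1 ^ 3 * Z.1 + v.2 ^ 3 * Z.2 := Iff.rfl

omit [Fintype k] in
theorem t91_det [CharP k 3] {Z : k[X] × k[X]} {D : k[X]} (hD : Squarefree D)
    (h : ∀ p : k[X], Irreducible p → p ∣ D → ¬ (p ∣ Z.1 ∧ p ∣ Z.2)) :
    ∀ v ∈ t91L Z D, ∀ v' ∈ t91L Z D, D ∣ v.1 * v'.2 - v.2 * v'.1 := by
  intro v hv v' hv'
  have : Fact (Nat.Prime 3) := ⟨by norm_num⟩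
  rw [t91_memL] at hv hv'
  have hc : IsCoprime D (EuclideanDomain.gcd Z.1 Z.2) := by
    refine isCoprime_of_irreducible_dvd (fun h0 => hD.ne_zero h0.1) fun p hp h1 h2 => ?_
    exact h p hp h1 ⟨h2.trans (EuclideanDomain.gcd_dvd_left _ _),
      h2.trans (EuclideanDomain.gcd_dvd_right _ _)⟩
  rw [← hD.dvd_pow_iff_dvd (n := 3) (by norm_num), sub_pow_char]
  apply hc.dvd_of_dvd_mul_right
  rw [EuclideanDomain.gcd_eq_gcd_ab]
  obtain ⟨u, hu⟩ := hv
  obtain ⟨u', hu'⟩ := hv'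
  refine ⟨(v'.2 ^ 3 * u - v.2 ^ 3 * u') * EuclideanDomain.gcdA Z.1 Z.2 +
    (v.1 ^ 3 * u' - v'.1 ^ 3 * u) * EuclideanDomain.gcdB Z.1 Z.2, ?_⟩
  linear_combination (v'.2 ^ 3 * EuclideanDomain.gcdA Z.1 Z.2 -
    v'.1 ^ 3 * EuclideanDomain.gcdB Z.1 Z.2) * hu + (v.1 ^ 3 * EuclideanDomain.gcdB Z.1 Z.2 -
    v.2 ^ 3 * EuclideanDomain.gcdA Z.1 Z.2) * hu'

theorem t91_detbox {a b : ℕ} {v w : k[X] × k[X]} (h1 : v.1 ∈ box k (a + 1))
    (h2 : v.2 ∈ box k (b + 1)) (h3 : w.1 ∈ box k (a + 1)) (h4 : w.2 ∈ box k (b + 1)) :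
    v.1 * w.2 - v.2 * w.1 ∈ box k (a + b + 1) := by
  refine c91_sub (c91_mem fun h => ?_) (c91_mem fun h => ?_)
  · have := c91_lt h1 (left_ne_zero_of_mul h)
    have := c91_lt h4 (right_ne_zero_of_mul h)
    have := natDegree_mul_le (p := v.1) (q := w.2)
    omega
  · have := c91_lt h2 (left_ne_zero_of_mul h)
    have := c91_lt h3 (right_ne_zero_of_mul h)
    have := natDegree_mul_le (p := v.2) (q := w.1)
    omega

/-- matrices with both rows in a lattice of large index -/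
def t91W [CharP k 3] (a b t : ℕ) (Z : k[X] × k[X]) : Finset ((k[X] × k[X]) × (k[X] × k[X])) :=
  ((box k a ×ˢ box k b) ×ˢ (box k a ×ˢ box k b)).filter fun M => ∃ D : k[X], D.Monic ∧
    t ≤ D.natDegree ∧ D.natDegree < a + b ∧
    (∀ v ∈ t91L Z D, ∀ v' ∈ t91L Z D, D ∣ v.1 * v'.2 - v.2 * v'.1) ∧ M.1 ∈ t91L Z D ∧
    M.2 ∈ t91L Z D ∧ M.1.1 * M.2.2 - M.1.2 * M.2.1 ≠ 0

theorem t91_W [CharP k 3] (a b t : ℕ) (Z : k[X] × k[X]) :
    ((t91W a b t Z).card : ℝ) ≤ 2 * qq k ^ (2 * (a + b)) / qq k ^ t := by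
  have h0 := c91_pos (k := k)
  let V : k[X] → Finset ((k[X] × k[X]) × (k[X] × k[X])) := fun D =>
    ((box k a ×ˢ box k b) ×ˢ (box k a ×ˢ box k b)).filter fun M =>
      (∀ v ∈ t91L Z D, ∀ v' ∈ t91L Z D, D ∣ v.1 * v'.2 - v.2 * v'.1) ∧ M.1 ∈ t91L Z D ∧
      M.2 ∈ t91L Z D ∧ M.1.1 * M.2.2 - M.1.2 * M.2.1 ≠ 0
  have hV : ∀ D, ((V D).card : ℝ) ≤ (qq k ^ (a + b) / qq k ^ D.natDegree) ^ 2 := by
    intro D
    rcases (V D).eq_empty_or_nonempty with h | ⟨M, hM⟩
    · rw [h]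
      simp only [card_empty, Nat.cast_zero]
      positivity
    simp only [V, mem_filter, mem_product] at hM
    obtain ⟨⟨⟨a1, a2⟩, a3, a4⟩, a5, a6, a7, a8⟩ := hM
    let T := (box k a ×ˢ box k b).filter fun v => v ∈ t91L Z D
    have h1 := c91_LAT a b (t91L Z D) a5 a6 a7 a1 a2 a3 a4 a8 T fun v hv => by
      simp only [T, mem_filter, mem_product] at hv
      exact ⟨hv.2, hv.1.1, hv.1.2⟩
    rw [← le_div_iff₀ (by positivity)] at h1
    have h2 : V D ⊆ T ×ˢ T := by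
      intro M hM
      simp only [V, mem_filter, mem_product] at hM
      simp only [T, mem_filter, mem_product]
      exact ⟨⟨hM.1.1, hM.2.2.1⟩, hM.1.2, hM.2.2.2.1⟩
    have h3 := card_le_card h2
    rw [card_product] at h3
    have h4 : ((V D).card : ℝ) ≤ T.card * T.card := by exact_mod_cast h3
    rw [sq]
    exact h4.trans (mul_le_mul h1 h1 (Nat.cast_nonneg _) (by positivity))
  have h1 : t91W a b t Z ⊆ (Ico t (a + b)).biUnion fun j => (mon k j).biUnion V := by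
    intro M hM
    simp only [t91W, mem_filter] at hM
    obtain ⟨a1, D, a2, a3, a4, a5⟩ := hM
    simp only [mem_biUnion, mem_Ico, mem_mon, V, mem_filter]
    exact ⟨D.natDegree, ⟨a3, a4⟩, D, ⟨a2, rfl⟩, a1, a5⟩
  have h2 := (card_le_card h1).trans (card_biUnion_le.trans (sum_le_sum fun j _ => card_biUnion_le))
  have h3 : ((t91W a b t Z).card : ℝ) ≤ ∑ j ∈ Ico t (a + b), ∑ D ∈ mon k j, ((V D).card : ℝ) := by
    exact_mod_cast h2
  have h4 : ∀ j ∈ Ico t (a + b), ∑ D ∈ mon k j, ((V D).card : ℝ) ≤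
      qq k ^ (2 * (a + b)) * (1 / qq k ^ j) := by
    intro j _
    refine (sum_le_card_nsmul _ _ ((qq k ^ (a + b) / qq k ^ j) ^ 2) fun D hD => ?_).trans ?_
    · rw [← (mem_mon.1 hD).2]
      exact hV D
    · rw [nsmul_eq_mul, card_mon]
      apply le_of_eq
      field_simp
      ring
  refine h3.trans ((sum_le_sum h4).trans ?_)
  rw [← mul_sum]
  refine (mul_le_mul_of_nonneg_left (c91_geom t _) (by positivity)).trans (le_of_eq ?_)
  ring

omit [Fintype k] in
theorem t91_prod_dvd (P : Finset k[X]) (hP : ∀ p ∈ P, p.Monic ∧ Irreducible p) {u : k[X]}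
    (h : ∀ p ∈ P, p ∣ u) : ∏ p ∈ P, p ∣ u := by
  refine Finset.prod_dvd_of_coprime (fun p hp r hr hne => ?_) h
  refine ((hP p hp).2.coprime_iff_not_dvd).2 fun hd => hne ?_
  exact eq_of_monic_of_associated (hP p hp).1 (hP r hr).1
    ((hP p hp).2.associated_of_dvd (hP r hr).2 hd)

omit [Fintype k] in
theorem t91_small (P : Finset k[X]) (hP : ∀ p ∈ P, p.Monic ∧ Irreducible p) {u v : k[X]} {t : ℕ}
    (h : ¬ ∃ c : k[X], c.Monic ∧ t ≤ c.natDegree ∧ c ∣ u ∧ c ∣ v) :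
    ∑ p ∈ P, (if p ∣ u ∧ p ∣ v then p.natDegree else 0) ≤ t := by
  rw [← sum_filter]
  have hP' : ∀ p ∈ P.filter (fun p => p ∣ u ∧ p ∣ v), p.Monic ∧ Irreducible p :=
    fun p hp => hP p (mem_filter.1 hp).1
  by_contra hlt
  refine h ⟨∏ p ∈ P.filter (fun p => p ∣ u ∧ p ∣ v), p, monic_prod_of_monic _ _
    fun p hp => (hP' p hp).1, ?_, t91_prod_dvd _ hP' fun p hp => (mem_filter.1 hp).2.1,
    t91_prod_dvd _ hP' fun p hp => (mem_filter.1 hp).2.2⟩
  rw [natDegree_prod_of_monic _ _ fun p hp => (hP' p hp).1]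
  omega

omit [Fintype k] in
theorem t91_exD {M : (k[X] × k[X]) × (k[X] × k[X])} {Z : k[X] × k[X]} {t : ℕ}
    (hr : 7 * t ≤ (radical (M.1.1 * M.2.2 - M.1.2 * M.2.1)).natDegree)
    (h1 : ¬ ∃ c : k[X], c.Monic ∧ t ≤ c.natDegree ∧ c ∣ M.1.1 ∧ c ∣ M.1.2)
    (h2 : ¬ ∃ c : k[X], c.Monic ∧ t ≤ c.natDegree ∧ c ∣ M.2.1 ∧ c ∣ M.2.2)
    (h3 : ¬ ∃ c : k[X], c.Monic ∧ t ≤ c.natDegree ∧ c ∣ M.1.1 + M.2.1 ∧ c ∣ M.1.2 + M.2.2)
    (h4 : ¬ ∃ c : k[X], c.Monic ∧ t ≤ c.natDegree ∧ c ∣ M.1.1 - M.2.1 ∧ c ∣ M.1.2 - M.2.2)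
    (h5 : ¬ ∃ c : k[X], c.Monic ∧ t ≤ c.natDegree ∧ c ∣ Z.1 ∧ c ∣ Z.2) :
    ∃ D : k[X], T91Adm M D ∧ 2 * t ≤ D.natDegree ∧
      ∀ p : k[X], Irreducible p → p ∣ D → ¬ (p ∣ Z.1 ∧ p ∣ Z.2) := by
  set d := M.1.1 * M.2.2 - M.1.2 * M.2.1 with hd
  have hP : ∀ p ∈ primeFactors d, p.Monic ∧ Irreducible p := by
    intro p hp
    have hp' := mem_primeFactors.1 hp
    have hi := irreducible_of_normalized_factor p hp'
    exact ⟨normalize_normalized_factor p hp' ▸ monic_normalize hi.ne_zero, hi⟩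
  let good : k[X] → Prop := fun p => (¬ (p ∣ M.1.1 ∧ p ∣ M.1.2) ∧ ¬ (p ∣ M.2.1 ∧ p ∣ M.2.2) ∧
    ¬ (p ∣ M.1.1 + M.2.1 ∧ p ∣ M.1.2 + M.2.2) ∧ ¬ (p ∣ M.1.1 - M.2.1 ∧ p ∣ M.1.2 - M.2.2)) ∧
    ¬ (p ∣ Z.1 ∧ p ∣ Z.2)
  have hP' : ∀ p ∈ (primeFactors d).filter good, p.Monic ∧ Irreducible p :=
    fun p hp => hP p (mem_filter.1 hp).1
  have hrad : ∏ p ∈ (primeFactors d).filter good, p ∣ radical d :=
    prod_dvd_prod_of_subset _ _ _ (filter_subset _ _)
  have hg : ∀ p : k[X], Irreducible p → p ∣ ∏ p ∈ (primeFactors d).filter good, p → good p := by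
    intro p hp h
    obtain ⟨r, hr, hpr⟩ := (Prime.dvd_finsetProd_iff hp.prime _).1 h
    have ha := hp.associated_of_dvd (hP' r hr).2 hpr
    have := (mem_filter.1 hr).2
    simpa only [good, ha.dvd_iff_dvd_left] using this
  refine ⟨∏ p ∈ (primeFactors d).filter good, p, ⟨monic_prod_of_monic _ _ fun p hp => (hP' p hp).1,
    squarefree_radical.squarefree_of_dvd hrad, hrad.trans radical_dvd_self,
    fun p hp h => (hg p hp h).1⟩, ?_, fun p hp h => (hg p hp h).2⟩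
  have e : (radical d).natDegree = ∑ p ∈ primeFactors d, p.natDegree :=
    natDegree_prod_of_monic _ _ fun p hp => (hP p hp).1
  rw [natDegree_prod_of_monic _ _ fun p hp => (hP' p hp).1, sum_filter]
  have b1 := t91_small _ hP h1
  have b2 := t91_small _ hP h2
  have b3 := t91_small _ hP h3
  have b4 := t91_small _ hP h4
  have b5 := t91_small _ hP h5
  have b6 : ∑ p ∈ primeFactors d, p.natDegree ≤ ∑ p ∈ primeFactors d,
      ((if good p then p.natDegree else 0) + (if p ∣ M.1.1 ∧ p ∣ M.1.2 then p.natDegree else 0) +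
      (if p ∣ M.2.1 ∧ p ∣ M.2.2 then p.natDegree else 0) +
      (if p ∣ M.1.1 + M.2.1 ∧ p ∣ M.1.2 + M.2.2 then p.natDegree else 0) +
      (if p ∣ M.1.1 - M.2.1 ∧ p ∣ M.1.2 - M.2.2 then p.natDegree else 0) +
      (if p ∣ Z.1 ∧ p ∣ Z.2 then p.natDegree else 0)) := by
    refine sum_le_sum fun p _ => ?_
    by_cases c1 : p ∣ M.1.1 ∧ p ∣ M.1.2
    · rw [if_pos c1]; omega
    by_cases c2 : p ∣ M.2.1 ∧ p ∣ M.2.2
    · rw [if_pos c2]; omega
    by_cases c3 : p ∣ M.1.1 + M.2.1 ∧ p ∣ M.1.2 + M.2.2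
    · rw [if_pos c3]; omega
    by_cases c4 : p ∣ M.1.1 - M.2.1 ∧ p ∣ M.1.2 - M.2.2
    · rw [if_pos c4]; omega
    by_cases c5 : p ∣ Z.1 ∧ p ∣ Z.2
    · rw [if_pos c5]; omega
    rw [if_pos (show good p from ⟨⟨c1, c2, c3, c4⟩, c5⟩)]
    omega
  simp only [sum_add_distrib] at b6
  have b7 : 2 * t ≤ ∑ p ∈ primeFactors d, if good p then p.natDegree else 0 := by omega
  exact b7

/-- rows with a zero entry in a long coordinate or with a large common divisor -/
def t91U (k : Type*) [Field k] [Fintype k] (i1 i2 t : ℕ) : Finset (k[X] × k[X]) :=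
  (box k (i1 + 1) ×ˢ box k (i2 + 1)).filter fun l => (l.1 = 0 ∧ t ≤ i1) ∨ (l.2 = 0 ∧ t ≤ i2) ∨
    (l.1 ≠ 0 ∧ l.2 ≠ 0 ∧ ∃ c : k[X], c.Monic ∧ t ≤ c.natDegree ∧ c ∣ l.1 ∧ c ∣ l.2)

theorem t91_pow {x y t : ℕ} (h : x + t ≤ y) : qq k ^ x ≤ qq k ^ y / qq k ^ t := by
  rw [le_div_iff₀ (pow_pos c91_pos _), ← pow_add]
  exact pow_le_pow_right₀ (by linarith [two_le_qq (k := k)]) h

theorem t91_U (i1 i2 t : ℕ) :
    ((t91U k i1 i2 t).card : ℝ) ≤ 4 * (qq k ^ (i1 + i2 + 2) / qq k ^ t) := by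
  have h0 := c91_pos (k := k)
  let B := box k (i1 + 1) ×ˢ box k (i2 + 1)
  have h1 : ((B.filter fun l => l.1 = 0 ∧ t ≤ i1).card : ℝ) ≤ qq k ^ (i1 + i2 + 2) / qq k ^ t := by
    by_cases h : t ≤ i1
    · refine le_trans ?_ (t91_pow (x := i2 + 1) (by omega))
      rw [← card_box]
      refine Nat.cast_le.2 (card_le_card_of_injOn Prod.snd (fun l hl => ?_) fun l hl l' hl' e => ?_)
      · simp only [B, coe_filter, mem_product, Set.mem_ofPred_eq] at hl
        exact hl.1.2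
      · simp only [B, coe_filter, mem_product, Set.mem_ofPred_eq] at hl hl'
        exact Prod.ext (hl.2.1.trans hl'.2.1.symm) e
    · simp only [h, and_false, filter_false, card_empty, Nat.cast_zero]
      positivity
  have h2 : ((B.filter fun l => l.2 = 0 ∧ t ≤ i2).card : ℝ) ≤ qq k ^ (i1 + i2 + 2) / qq k ^ t := by
    by_cases h : t ≤ i2
    · refine le_trans ?_ (t91_pow (x := i1 + 1) (by omega))
      rw [← card_box]
      refine Nat.cast_le.2 (card_le_card_of_injOn Prod.fst (fun l hl => ?_) fun l hl l' hl' e => ?_)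
      · simp only [B, coe_filter, mem_product, Set.mem_ofPred_eq] at hl
        exact hl.1.1
      · simp only [B, coe_filter, mem_product, Set.mem_ofPred_eq] at hl hl'
        exact Prod.ext e (hl.2.1.trans hl'.2.1.symm)
    · simp only [h, and_false, filter_false, card_empty, Nat.cast_zero]
      positivity
  have h3 := c91_G (i1 + 1) (i2 + 1) t (B.filter fun l => l.1 ≠ 0 ∧ l.2 ≠ 0 ∧
      ∃ c : k[X], c.Monic ∧ t ≤ c.natDegree ∧ c ∣ l.1 ∧ c ∣ l.2) fun p hp => by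
    simp only [B, mem_filter, mem_product] at hp
    exact ⟨hp.1.1, hp.1.2, hp.2⟩
  have h4 : (t91U k i1 i2 t).card ≤ (B.filter fun l => l.1 = 0 ∧ t ≤ i1).card +
      ((B.filter fun l => l.2 = 0 ∧ t ≤ i2).card + (B.filter fun l => l.1 ≠ 0 ∧ l.2 ≠ 0 ∧
      ∃ c : k[X], c.Monic ∧ t ≤ c.natDegree ∧ c ∣ l.1 ∧ c ∣ l.2).card) := by
    refine le_trans (card_le_card fun l hl => ?_)
      ((card_union_le _ _).trans (Nat.add_le_add_left (card_union_le _ _) _))
    simp only [t91U, mem_filter] at hl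
    simp only [mem_union, mem_filter, B]
    tauto
  have h5 : ((t91U k i1 i2 t).card : ℝ) ≤ _ := Nat.cast_le.2 h4
  rw [Nat.cast_add, Nat.cast_add] at h5
  rw [show i1 + 1 + (i2 + 1) = i1 + i2 + 2 by ring, mul_div_assoc] at h3
  linarith

/-- polynomials `s ^ 3 * Z` -/
def t91C (k : Type*) [Field k] [Fintype k] (m i j t : ℕ) : Finset k[X] :=
  if j < t then (box k (i + 1) ×ˢ box k (m - 3 * i)).image fun z => z.1 ^ 3 * z.2 else ∅

theorem t91_C {m i j t : ℕ} (h : 3 * i ≤ m) (ht : 3 * t ≤ i + j) :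
    ((t91C k m i j t).card : ℝ) * qq k ^ m * qq k ^ (i + j + 3) ≤
      qq k ^ (2 * m + 7) / qq k ^ t := by
  have h0 := c91_pos (k := k)
  unfold t91C
  split_ifs with hj
  · have h1 : (((box k (i + 1) ×ˢ box k (m - 3 * i)).image fun z => z.1 ^ 3 * z.2).card : ℝ) ≤
        qq k ^ (i + 1) * qq k ^ (m - 3 * i) := by
      rw [← card_box, ← card_box, ← Nat.cast_mul, ← card_product]
      exact Nat.cast_le.2 card_image_le
    refine (mul_le_mul_of_nonneg_right (mul_le_mul_of_nonneg_right h1 (by positivity))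
      (by positivity)).trans ?_
    rw [← pow_add, ← pow_add, ← pow_add]
    exact t91_pow (by omega)
  · simp only [card_empty, Nat.cast_zero, zero_mul]
    positivity

theorem t91_add {N : ℕ} {p r : k[X]} (hp : p ∈ box k N) (hr : r ∈ box k N) : p + r ∈ box k N := by
  rw [mem_box] at *
  exact (degree_add_le _ _).trans_lt (max_lt hp hr)

theorem t91_row {m i1 i2 t : ℕ} {l Z : k[X] × k[X]} (h1 : l.1 ∈ box k (i1 + 1))
    (h2 : l.2 ∈ box k (i2 + 1)) (h3 : Z.1 ∈ box k (m - 3 * i1)) (h4 : Z.2 ∈ box k (m - 3 * i2))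
    (hU : l ∉ t91U k i1 i2 t)
    (hC : l.1 ^ 3 * Z.1 + l.2 ^ 3 * Z.2 ∉ t91C k m i1 i2 t ∪ t91C k m i2 i1 t) :
    l.1 ≠ 0 ∧ l.2 ≠ 0 ∧ ¬ ∃ c : k[X], c.Monic ∧ t ≤ c.natDegree ∧ c ∣ l.1 ∧ c ∣ l.2 := by
  simp only [t91U, mem_filter, mem_product, h1, h2, true_and, not_or] at hU
  have a1 : l.1 ≠ 0 := by
    intro h
    apply hC
    have : i1 < t := not_le.1 fun h' => hU.1 ⟨h, h'⟩
    refine mem_union_right _ ?_
    rw [t91C, if_pos this]
    exact mem_image.2 ⟨(l.2, Z.2), mem_product.2 ⟨h2, h4⟩, by simp [h]⟩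
  have a2 : l.2 ≠ 0 := by
    intro h
    apply hC
    have : i2 < t := not_le.1 fun h' => hU.2.1 ⟨h, h'⟩
    refine mem_union_left _ ?_
    rw [t91C, if_pos this]
    exact mem_image.2 ⟨(l.1, Z.1), mem_product.2 ⟨h1, h3⟩, by simp [h]⟩
  exact ⟨a1, a2, fun h => hU.2.2 ⟨a1, a2, h⟩⟩

/-- exceptional pairs `(Z, M)` -/
def t91Bad (k : Type*) [Field k] [Fintype k] [CharP k 3] (m i1 i2 t : ℕ) :
    Finset ((k[X] × k[X]) × ((k[X] × k[X]) × (k[X] × k[X]))) :=
  (box k (m - 3 * i1) ×ˢ box k (m - 3 * i2)) ×ˢ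
      t91Four (box k (i1 + 1) ×ˢ box k (i2 + 1)) (t91U k i1 i2 t) ∪
    ((box k (m - 3 * i1) ×ˢ box k (m - 3 * i2)) ×ˢ
      (((box k (i1 + 1) ×ˢ box k (i2 + 1)) ×ˢ (box k (i1 + 1) ×ˢ box k (i2 + 1))).filter fun M =>
        M.1.1 ≠ 0 ∧ M.1.2 ≠ 0 ∧ M.1.1 * M.2.2 - M.1.2 * M.2.1 ∈
          (box k (i1 + i2 + 1)).filter fun c => c ≠ 0 ∧ (radical c).natDegree ≤ 7 * t) ∪
    (((box k (m - 3 * i1) ×ˢ box k (m - 3 * i2)).filter fun Z => Z.1 ≠ 0 ∧ Z.2 ≠ 0 ∧
        ∃ c : k[X], c.Monic ∧ t ≤ c.natDegree ∧ c ∣ Z.1 ∧ c ∣ Z.2) ×ˢ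
      ((box k (i1 + 1) ×ˢ box k (i2 + 1)) ×ˢ (box k (i1 + 1) ×ˢ box k (i2 + 1))) ∪
    (box k (m - 3 * i1) ×ˢ box k (m - 3 * i2)).biUnion fun Z =>
      (t91W (i1 + 1) (i2 + 1) t Z).image fun M => (Z, M)))

theorem t91_bad [CharP k 3] (m i1 i2 t : ℕ) (ht : 18 * t ≤ i1 + i2) :
    ((t91Bad k m i1 i2 t).card : ℝ) ≤ (22 + qq k * Real.exp 16 + 2 * qq k) *
      (qq k ^ (m - 3 * i1 + (m - 3 * i2)) * (qq k ^ (2 * (i1 + i2 + 2)) / qq k ^ t)) := by
  have h0 := c91_pos (k := k)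
  have hq : 1 ≤ qq k := by linarith [two_le_qq (k := k)]
  set z := qq k ^ (m - 3 * i1 + (m - 3 * i2)) with hz
  set w := qq k ^ (2 * (i1 + i2 + 2)) / qq k ^ t with hw
  have z0 : 0 ≤ z := by positivity
  have cZ : (((box k (m - 3 * i1) ×ˢ box k (m - 3 * i2)).card : ℕ) : ℝ) = z := by
    rw [card_product, Nat.cast_mul, card_box, card_box, ← pow_add]
  have cB : (((box k (i1 + 1) ×ˢ box k (i2 + 1)).card : ℕ) : ℝ) = qq k ^ (i1 + i2 + 2) := by
    rw [card_product, Nat.cast_mul, card_box, card_box, ← pow_add]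
    congr 1
    ring
  have b1 : ((t91Four (box k (i1 + 1) ×ˢ box k (i2 + 1)) (t91U k i1 i2 t)).card : ℝ) ≤ 16 * w := by
    refine (t91_four _ _).trans ?_
    rw [cB]
    have := mul_le_mul_of_nonneg_right (t91_U (k := k) i1 i2 t)
      (by positivity : 0 ≤ qq k ^ (i1 + i2 + 2))
    have e : 4 * (qq k ^ (i1 + i2 + 2) / qq k ^ t) * qq k ^ (i1 + i2 + 2) = 4 * w := by
      rw [hw]
      ring
    linarith
  have b2 : ((((box k (i1 + 1) ×ˢ box k (i2 + 1)) ×ˢ (box k (i1 + 1) ×ˢ box k (i2 + 1))).filter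
      fun M => M.1.1 ≠ 0 ∧ M.1.2 ≠ 0 ∧ M.1.1 * M.2.2 - M.1.2 * M.2.1 ∈
        (box k (i1 + i2 + 1)).filter fun c => c ≠ 0 ∧ (radical c).natDegree ≤ 7 * t).card : ℝ) ≤
      (qq k * Real.exp 16 + 2 * qq k) * w := by
    refine (c91_DT (i1 + 1) (i2 + 1) t
      ((box k (i1 + i2 + 1)).filter fun c => c ≠ 0 ∧ (radical c).natDegree ≤ 7 * t) _
      fun p hp => ?_).trans ?_
    · simp only [mem_filter (s := _ ×ˢ _), mem_product] at hp
      exact ⟨hp.1.1.1, hp.1.1.2, hp.1.2.1, hp.1.2.2, hp.2⟩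
    have r1 := t91_rad (i1 + i2) (7 * t)
      ((box k (i1 + i2 + 1)).filter fun c => c ≠ 0 ∧ (radical c).natDegree ≤ 7 * t) fun c hc => by
        rw [mem_filter] at hc
        exact ⟨hc.2.1, Nat.lt_succ_iff.1 (c91_lt hc.1 hc.2.1), hc.2.2⟩
    have hs : 1 ≤ Real.sqrt (qq k) := Real.one_le_sqrt.2 hq
    have r2 : Real.sqrt (qq k) ^ (i1 + i2) * qq k ^ (9 * t) ≤ qq k ^ (i1 + i2) := by
      have e := Real.sq_sqrt h0.le
      generalize Real.sqrt (qq k) = s at *
      rw [← e, ← pow_mul, ← pow_mul, ← pow_add]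
      exact pow_le_pow_right₀ hs (by omega)
    have r3 : qq k ^ (i1 + 1 + (i2 + 1) + t) * (Real.sqrt (qq k) ^ (i1 + i2) * qq k ^ (7 * t)) ≤
        w := by
      rw [hw, le_div_iff₀ (by positivity)]
      have e : qq k ^ (i1 + 1 + (i2 + 1) + t) * (Real.sqrt (qq k) ^ (i1 + i2) * qq k ^ (7 * t)) *
          qq k ^ t = qq k ^ (i1 + i2 + 2) * (Real.sqrt (qq k) ^ (i1 + i2) * qq k ^ (9 * t)) := by
        ring
      rw [e]
      refine (mul_le_mul_of_nonneg_left r2 (by positivity)).trans ?_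
      rw [← pow_add]
      exact pow_le_pow_right₀ hq (by omega)
    have r4 := mul_le_mul_of_nonneg_left r1 (by positivity : 0 ≤ qq k ^ (i1 + 1 + (i2 + 1) + t))
    have r5 := mul_le_mul_of_nonneg_left r3 (by positivity : 0 ≤ qq k * Real.exp 16)
    have e : 2 * qq k ^ (2 * (i1 + 1) + 2 * (i2 + 1) + 1) / qq k ^ t = 2 * qq k * w := by
      rw [hw]
      ring
    rw [e]
    linarith
  have b3 : ((((box k (m - 3 * i1) ×ˢ box k (m - 3 * i2)).filter fun Z => Z.1 ≠ 0 ∧ Z.2 ≠ 0 ∧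
      ∃ c : k[X], c.Monic ∧ t ≤ c.natDegree ∧ c ∣ Z.1 ∧ c ∣ Z.2).card : ℕ) : ℝ) ≤
      2 * z / qq k ^ t :=
    c91_G _ _ t _ fun p hp => by
      simp only [mem_filter, mem_product] at hp
      exact ⟨hp.1.1, hp.1.2, hp.2⟩
  have b4 : ((((box k (m - 3 * i1) ×ˢ box k (m - 3 * i2)).biUnion fun Z =>
      (t91W (i1 + 1) (i2 + 1) t Z).image fun M => (Z, M)).card : ℕ) : ℝ) ≤ z * (2 * w) := by
    have c1 : ((box k (m - 3 * i1) ×ˢ box k (m - 3 * i2)).biUnion fun Z =>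
        (t91W (i1 + 1) (i2 + 1) t Z).image fun M => (Z, M)).card ≤
        ∑ Z ∈ box k (m - 3 * i1) ×ˢ box k (m - 3 * i2), (t91W (i1 + 1) (i2 + 1) t Z).card :=
      card_biUnion_le.trans (sum_le_sum fun _ _ => card_image_le)
    refine (Nat.cast_le.2 c1).trans ?_
    rw [Nat.cast_sum]
    refine (sum_le_card_nsmul _ _ (2 * w) fun Z _ => (t91_W _ _ t Z).trans (le_of_eq ?_)).trans ?_
    · rw [hw]
      ring
    · rw [nsmul_eq_mul, cZ]
  have c2 := (card_union_le _ _).trans (Nat.add_le_add_left ((card_union_le _ _).trans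
    (Nat.add_le_add_left (card_union_le _ _) _)) _) |>.trans' (le_refl (t91Bad k m i1 i2 t).card)
  have c3 : ((t91Bad k m i1 i2 t).card : ℝ) ≤ _ := Nat.cast_le.2 c2
  rw [Nat.cast_add, Nat.cast_add, Nat.cast_add, card_product _ (t91Four _ _), Nat.cast_mul,
    card_product _ (filter _ _), Nat.cast_mul, card_product (filter _ _), Nat.cast_mul,
    card_product (_ ×ˢ _) (_ ×ˢ _), Nat.cast_mul, cZ, cB] at c3
  have d1 := mul_le_mul_of_nonneg_left b1 z0
  have d2 := mul_le_mul_of_nonneg_left b2 z0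
  have d3 := mul_le_mul_of_nonneg_right b3
    (by positivity : 0 ≤ qq k ^ (i1 + i2 + 2) * qq k ^ (i1 + i2 + 2))
  have e : 2 * z / qq k ^ t * (qq k ^ (i1 + i2 + 2) * qq k ^ (i1 + i2 + 2)) = 2 * (z * w) := by
    rw [hw]
    ring
  have w0 : 0 ≤ z * w := by positivity
  linarith

/-- the pair attached to `(Z, M)` -/
def t91Phi (x : (k[X] × k[X]) × ((k[X] × k[X]) × (k[X] × k[X]))) : k[X] × k[X] :=
  (x.2.1.1 ^ 3 * x.1.1 + x.2.1.2 ^ 3 * x.1.2, x.2.2.1 ^ 3 * x.1.1 + x.2.2.2 ^ 3 * x.1.2)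

theorem t91_cube {m i : ℕ} (h : 3 * i ≤ m) {s Z : k[X]} (hs : s ∈ box k (i + 1))
    (hZ : Z ∈ box k (m - 3 * i)) : s ^ 3 * Z ∈ box k m := by
  refine c91_mem fun h0 => ?_
  have := c91_lt hs (pow_ne_zero_iff (by norm_num) |>.1 (left_ne_zero_of_mul h0))
  have := c91_lt hZ (right_ne_zero_of_mul h0)
  have := natDegree_mul_le (p := s ^ 3) (q := Z)
  rw [natDegree_pow] at this
  omega

theorem t91_class [CharP k 3] {m i1 i2 : ℕ} (t : ℕ) (h1 : 3 * i1 ≤ m) (h2 : 3 * i2 ≤ m)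
    {g : k[X] × k[X]} {ν : ℝ} (h : T91Data m i1 i2 g ν) :
    g ∈ t91Four (box k m) (t91C k m i1 i2 t ∪ t91C k m i2 i1 t) ∨
      g ∈ (t91Bad k m i1 i2 t).image t91Phi ∨
      (g ∈ ((box k (m - 3 * i1) ×ˢ box k (m - 3 * i2)) ×ˢ ((box k (i1 + 1) ×ˢ box k (i2 + 1)) ×ˢ
        (box k (i1 + 1) ×ˢ box k (i2 + 1)))).image t91Phi ∧
        ν ≤ qq k ^ (i1 + i2 + 3) / qq k ^ t) := by
  have : Fact (Nat.Prime 3) := ⟨by norm_num⟩
  obtain ⟨Z, M, z1, z2, e1, e2, hd, bz1, bz2, b11, b12, b21, b22, -, hyp⟩ := h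
  have eg : t91Phi (Z, M) = g := Prod.ext e1.symm e2.symm
  have bZ : Z ∈ box k (m - 3 * i1) ×ˢ box k (m - 3 * i2) := mem_product.2 ⟨bz1, bz2⟩
  have bM : M ∈ (box k (i1 + 1) ×ˢ box k (i2 + 1)) ×ˢ (box k (i1 + 1) ×ˢ box k (i2 + 1)) :=
    mem_product.2 ⟨mem_product.2 ⟨b11, b12⟩, mem_product.2 ⟨b21, b22⟩⟩
  by_cases cA : g ∈ t91Four (box k m) (t91C k m i1 i2 t ∪ t91C k m i2 i1 t)
  · exact Or.inl cA
  by_cases cB : (Z, M) ∈ t91Bad k m i1 i2 t
  · exact Or.inr (Or.inl (mem_image.2 ⟨_, cB, eg⟩))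
  refine Or.inr (Or.inr ⟨mem_image.2 ⟨(Z, M), mem_product.2 ⟨bZ, bM⟩, eg⟩, ?_⟩)
  have g1 : g.1 ∈ box k m := e1 ▸ t91_add (t91_cube h1 b11 bz1) (t91_cube h2 b12 bz2)
  have g2 : g.2 ∈ box k m := e2 ▸ t91_add (t91_cube h1 b21 bz1) (t91_cube h2 b22 bz2)
  rw [t91Four, mem_filter, mem_product] at cA
  simp only [g1, g2, true_and, not_or] at cA
  rw [t91Bad, mem_union, mem_union, mem_union, not_or, not_or, not_or] at cB
  obtain ⟨c1, c2, c3, c4⟩ := cB
  rw [mem_product, t91Four, mem_filter] at c1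
  simp only [bZ, bM, true_and, not_or] at c1
  have r1 := t91_row b11 b12 bz1 bz2 c1.1 (e1 ▸ cA.1)
  have r2 := t91_row b21 b22 bz1 bz2 c1.2.1 (e2 ▸ cA.2.1)
  have r3 := t91_row (l := M.1 + M.2) (t91_add b11 b21) (t91_add b12 b22) bz1 bz2 c1.2.2.1 (by
    convert cA.2.2.1 using 2
    rw [e1, e2, Prod.fst_add, Prod.snd_add, add_pow_char, add_pow_char]
    ring)
  have r4 := t91_row (l := M.1 - M.2) (c91_sub b11 b21) (c91_sub b12 b22) bz1 bz2 c1.2.2.2 (by
    convert cA.2.2.2 using 2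
    rw [e1, e2, Prod.fst_sub, Prod.snd_sub, sub_pow_char, sub_pow_char]
    ring)
  have hdb := t91_detbox b11 b12 b21 b22
  have hr : 7 * t ≤ (radical (M.1.1 * M.2.2 - M.1.2 * M.2.1)).natDegree := by
    by_contra hlt
    exact c2 (mem_product.2 ⟨bZ, mem_filter.2 ⟨bM, r1.1, r1.2.1,
      mem_filter.2 ⟨hdb, hd, (not_le.1 hlt).le⟩⟩⟩)
  have h5 : ¬ ∃ c : k[X], c.Monic ∧ t ≤ c.natDegree ∧ c ∣ Z.1 ∧ c ∣ Z.2 := fun h =>
    c3 (mem_product.2 ⟨mem_filter.2 ⟨bZ, z1, z2, h⟩, bM⟩)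
  obtain ⟨D, hA, hD, hZ⟩ := t91_exD hr r1.2.2 r2.2.2 r3.2.2 r4.2.2 h5
  obtain ⟨D1, D2, e, d1, d2, hν⟩ := hyp D hA
  have hD0 : D1 * D2 ≠ 0 := e ▸ hA.1.ne_zero
  rw [e, natDegree_mul (left_ne_zero_of_mul hD0) (right_ne_zero_of_mul hD0)] at hD
  by_cases ht : t ≤ D2.natDegree
  · refine hν.trans (div_le_div_of_nonneg_left (pow_pos c91_pos _).le (pow_pos c91_pos _) ?_)
    exact pow_le_pow_right₀ (by linarith [two_le_qq (k := k)]) ht
  exfalso
  obtain ⟨D', m1, m2, m3⟩ := exists_monic80 (left_ne_zero_of_mul hD0)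
  have hdv : D' ∣ D := (m3 D).2 ⟨D2, e⟩
  apply c4
  refine mem_biUnion.2 ⟨Z, bZ, mem_image.2 ⟨M, mem_filter.2 ⟨bM, D', m1, by omega, ?_,
    t91_det (hA.2.1.squarefree_of_dvd hdv) fun p hp h => hZ p hp (h.trans hdv), ?_, ?_, hd⟩, rfl⟩⟩
  · have := natDegree_le_of_dvd (hdv.trans hA.2.2.1) hd
    have := c91_lt hdb hd
    omega
  · rw [t91_memL, m3, ← e1]
    exact d1
  · rw [t91_memL, m3, ← e2]
    exact d2

omit [Fintype k] in
theorem t91_ind {α : Type*} [DecidableEq α] (S U : Finset α) {c : ℝ} (hc : 0 ≤ c) :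
    ∑ g ∈ S, (if g ∈ U then c else 0) ≤ U.card * c := by
  rw [← sum_filter, sum_const, nsmul_eq_mul]
  exact mul_le_mul_of_nonneg_right (Nat.cast_le.2 (card_le_card fun g hg => (mem_filter.1 hg).2)) hc

theorem t91_fixed [CharP k 3] {m i1 i2 : ℕ} (h1 : 3 * i1 ≤ m) (h2 : 3 * i2 ≤ m)
    (S : Finset (k[X] × k[X])) (ν : k[X] × k[X] → ℝ) (hS : ∀ g ∈ S, T91Data m i1 i2 g (ν g)) :
    ∑ g ∈ S, ν g ≤ (31 + qq k * Real.exp 16 + 2 * qq k) *
      (qq k ^ (2 * m + 7) / qq k ^ ((i1 + i2) / 18)) := by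
  have h0 := c91_pos (k := k)
  set t := (i1 + i2) / 18 with ht
  have p0 : 0 ≤ qq k ^ (i1 + i2 + 3) := by positivity
  have p1 : 0 ≤ qq k ^ (i1 + i2 + 3) / qq k ^ t := by positivity
  have a1 : ∀ g ∈ S, ν g ≤
      (if g ∈ t91Four (box k m) (t91C k m i1 i2 t ∪ t91C k m i2 i1 t) then
        qq k ^ (i1 + i2 + 3) else 0) +
      (if g ∈ (t91Bad k m i1 i2 t).image t91Phi then qq k ^ (i1 + i2 + 3) else 0) +
      (if g ∈ ((box k (m - 3 * i1) ×ˢ box k (m - 3 * i2)) ×ˢ ((box k (i1 + 1) ×ˢ box k (i2 + 1)) ×ˢ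
        (box k (i1 + 1) ×ˢ box k (i2 + 1)))).image t91Phi then
        qq k ^ (i1 + i2 + 3) / qq k ^ t else 0) := by
    intro g hg
    have hν : ν g ≤ qq k ^ (i1 + i2 + 3) := by
      obtain ⟨_, _, -, -, -, -, -, -, -, -, -, -, -, h, -⟩ := hS g hg
      exact h
    rcases t91_class t h1 h2 (hS g hg) with h | h | ⟨h, h'⟩
    · rw [if_pos h]
      split_ifs <;> linarith
    · rw [if_pos h]
      split_ifs <;> linarith
    · rw [if_pos h]
      split_ifs <;> linarith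
  refine (sum_le_sum a1).trans ?_
  rw [sum_add_distrib, sum_add_distrib]
  set w := qq k ^ (2 * m + 7) / qq k ^ t with hw
  have b1 : ((t91Four (box k m) (t91C k m i1 i2 t ∪ t91C k m i2 i1 t)).card : ℝ) *
      qq k ^ (i1 + i2 + 3) ≤ 8 * w := by
    have c1 := t91_C (k := k) (j := i2) (t := t) h1 (by omega)
    have c2 := t91_C (k := k) (j := i1) (t := t) h2 (by omega)
    rw [add_comm i2 i1] at c2
    have c3 : (((t91C k m i1 i2 t ∪ t91C k m i2 i1 t).card : ℕ) : ℝ) ≤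
        (t91C k m i1 i2 t).card + (t91C k m i2 i1 t).card := by exact_mod_cast card_union_le _ _
    have c4 := t91_four (box k m) (t91C k m i1 i2 t ∪ t91C k m i2 i1 t)
    rw [card_box] at c4
    have c5 := mul_le_mul_of_nonneg_right c4 p0
    have c6 := mul_le_mul_of_nonneg_right c3 (by positivity : 0 ≤ qq k ^ m * qq k ^ (i1 + i2 + 3))
    linarith
  have ez : qq k ^ (m - 3 * i1 + (m - 3 * i2)) * qq k ^ (2 * (i1 + i2 + 2)) *
      qq k ^ (i1 + i2 + 3) = qq k ^ (2 * m + 7) := by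
    rw [← pow_add, ← pow_add]
    congr 1
    omega
  have b2 : (((t91Bad k m i1 i2 t).image t91Phi).card : ℝ) * qq k ^ (i1 + i2 + 3) ≤
      (22 + qq k * Real.exp 16 + 2 * qq k) * w := by
    refine (mul_le_mul_of_nonneg_right ((Nat.cast_le.2 card_image_le).trans
      (t91_bad m i1 i2 t (by omega))) p0).trans (le_of_eq ?_)
    rw [hw, ← ez]
    ring
  have b3 : ((((box k (m - 3 * i1) ×ˢ box k (m - 3 * i2)) ×ˢ
      ((box k (i1 + 1) ×ˢ box k (i2 + 1)) ×ˢ (box k (i1 + 1) ×ˢ box k (i2 + 1)))).image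
        t91Phi).card : ℝ) * (qq k ^ (i1 + i2 + 3) / qq k ^ t) ≤ w := by
    refine (mul_le_mul_of_nonneg_right (Nat.cast_le.2 card_image_le) p1).trans (le_of_eq ?_)
    simp only [card_product, Nat.cast_mul, card_box]
    rw [hw, ← ez]
    ring
  linarith [t91_ind S (t91Four (box k m) (t91C k m i1 i2 t ∪ t91C k m i2 i1 t)) p0,
    t91_ind S ((t91Bad k m i1 i2 t).image t91Phi) p0,
    t91_ind S (((box k (m - 3 * i1) ×ˢ box k (m - 3 * i2)) ×ˢ
      ((box k (i1 + 1) ×ˢ box k (i2 + 1)) ×ˢ (box k (i1 + 1) ×ˢ box k (i2 + 1)))).image t91Phi) p1]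

theorem t91_summable : Summable fun i : ℕ => ((i : ℝ) + 1) / qq k ^ (i / 18) := by
  have h0 := c91_pos (k := k)
  have h1 : Summable fun i : ℕ => 2 * ((i : ℝ) ^ 1 * (0.97 : ℝ) ^ i + (0.97 : ℝ) ^ i) :=
    ((summable_pow_mul_geometric_of_norm_lt_one 1 (by norm_num [abs_of_pos])).add
      (summable_geometric_of_lt_one (by norm_num) (by norm_num))).mul_left 2
  refine Summable.of_nonneg_of_le (fun i => by positivity) (fun i => ?_) h1
  have a1 : 1 / qq k ^ (i / 18) ≤ ((0.97 : ℝ) ^ 18) ^ (i / 18) := by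
    rw [one_div, ← inv_pow]
    refine pow_le_pow_left₀ (by positivity) ?_ _
    exact (inv_anti₀ (by norm_num) two_le_qq).trans (by norm_num)
  have a2 : ((0.97 : ℝ) ^ 18) ^ (i / 18) * 0.97 ^ 17 ≤ 0.97 ^ i := by
    rw [← pow_mul, ← pow_add]
    exact pow_le_pow_of_le_one (by norm_num) (by norm_num) (by omega)
  have a3 : (1 / 2 : ℝ) ≤ 0.97 ^ 17 := by norm_num
  have a4 : (0 : ℝ) ≤ ((0.97 : ℝ) ^ 18) ^ (i / 18) := by positivity
  have a5 : 1 / qq k ^ (i / 18) ≤ 2 * 0.97 ^ i := by nlinarith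
  have a6 := mul_le_mul_of_nonneg_left a5 (by positivity : (0 : ℝ) ≤ (i : ℝ) + 1)
  rw [mul_one_div] at a6
  refine a6.trans (le_of_eq ?_)
  ring

/-- TAIL -/
theorem t91_tail [CharP k 3] : ∃ τ : ℕ → ℝ, Tendsto τ atTop (𝓝 0) ∧
    ∀ (m i0 : ℕ) (S : Finset (k[X] × k[X])) (ν : k[X] × k[X] → ℝ),
      (∀ g ∈ S, 0 < ν g → ∃ i1 i2 : ℕ, i0 ≤ i1 + i2 ∧ 3 * i1 ≤ m ∧ 3 * i2 ≤ m ∧
        T91Data m i1 i2 g (ν g)) → ∑ g ∈ S, ν g ≤ τ i0 * qq k ^ (2 * m) := by
  have h0 := c91_pos (k := k)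
  set A := (31 + qq k * Real.exp 16 + 2 * qq k) * qq k ^ 7 with hA
  have A0 : 0 ≤ A := by positivity
  refine ⟨fun i0 => A * ∑' j : ℕ, (((j + i0 : ℕ) : ℝ) + 1) / qq k ^ ((j + i0) / 18), ?_, ?_⟩
  · simpa using (tendsto_sum_nat_add fun i : ℕ => ((i : ℝ) + 1) / qq k ^ (i / 18)).const_mul A
  intro m i0 S ν hS
  have a1 : ∑ g ∈ S, ν g ≤ ∑ g ∈ S.filter (fun g => 0 < ν g), ν g := by
    rw [sum_filter]
    refine sum_le_sum fun g _ => ?_
    split_ifs with h
    · exact le_rfl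
    · exact not_lt.1 h
  have hS' : ∀ g ∈ S.filter (fun g => 0 < ν g), ∃ i1 i2 : ℕ, i0 ≤ i1 + i2 ∧ 3 * i1 ≤ m ∧
      3 * i2 ≤ m ∧ T91Data m i1 i2 g (ν g) := fun g hg =>
    hS g (mem_filter.1 hg).1 (mem_filter.1 hg).2
  generalize S.filter (fun g => 0 < ν g) = S' at *
  choose! i1 i2 h using hS'
  refine a1.trans ?_
  rw [← sum_fiberwise_of_maps_to (s := S') (t := range (m + 1)) (g := fun g => i1 g + i2 g - i0)
    (fun g hg => by have := h g hg; rw [mem_range]; omega)]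
  have a2 : ∀ j ∈ range (m + 1), ∑ g ∈ S'.filter (fun g => i1 g + i2 g - i0 = j), ν g ≤
      A * qq k ^ (2 * m) * ((((j + i0 : ℕ) : ℝ) + 1) / qq k ^ ((j + i0) / 18)) := by
    intro j _
    rw [← sum_fiberwise_of_maps_to (s := S'.filter (fun g => i1 g + i2 g - i0 = j))
      (t := range (j + i0 + 1)) (g := i1) (fun g hg => by
        rw [mem_filter] at hg
        have := h g hg.1
        rw [mem_range]
        omega)]
    refine (sum_le_card_nsmul _ _ (A * qq k ^ (2 * m) / qq k ^ ((j + i0) / 18))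
      fun a ha => ?_).trans (le_of_eq ?_)
    · rcases ((S'.filter (fun g => i1 g + i2 g - i0 = j)).filter
        (fun g => i1 g = a)).eq_empty_or_nonempty with he | ⟨g0, hg0⟩
      · rw [he, sum_empty]
        positivity
      simp only [mem_filter] at hg0
      have c0 := h g0 hg0.1.1
      rw [mem_range] at ha
      refine (t91_fixed (m := m) (i1 := a) (i2 := j + i0 - a) (by omega) (by omega) _ ν
        fun g hg => ?_).trans (le_of_eq ?_)
      · simp only [mem_filter] at hg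
        have c1 := h g hg.1.1
        have e2 : j + i0 - a = i2 g := by omega
        rw [e2, ← hg.2]
        exact c1.2.2.2
      · rw [show a + (j + i0 - a) = j + i0 by omega, hA]
        ring
    · rw [card_range, nsmul_eq_mul]
      push_cast
      ring
  refine (sum_le_sum a2).trans ?_
  rw [← mul_sum, mul_right_comm]
  refine mul_le_mul_of_nonneg_right (mul_le_mul_of_nonneg_left ?_ A0) (by positivity)
  exact ((summable_nat_add_iff i0).2 t91_summable).sum_le_tsum _ fun _ _ => by positivity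

end CL5

end
end

-- part H86M.Cok10
section

/-! h86m: the index computation COK, for any map with the coefficient formula of the Cartier operator. -/

set_option autoImplicit false
set_option linter.unusedSectionVars false
open Polynomial Finset
open scoped Classical

noncomputable section
namespace CL5

variable {k : Type*} [Field k] [Fintype k] [CharP k 3]

theorem c10_inj {a b : k} (h : a ^ 3 = b ^ 3) : a = b :=
  (frobeniusEquiv k 3).injective h

theorem c10_inj' {a b : k[X]} (h : a ^ 3 = b ^ 3) : a = b := by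
  have : (a - b) ^ 3 = 0 := by rw [sub_pow_char, h, sub_self]
  exact sub_eq_zero.mp (pow_eq_zero_iff (by norm_num) |>.mp this)

theorem c10_coeff_pow (a : k[X]) (n : ℕ) :
    (a ^ 3).coeff n = if 3 ∣ n then a.coeff (n / 3) ^ 3 else 0 := by
  rw [← map_frobenius_expand 3 a, coeff_map, coeff_expand (by norm_num)]
  split_ifs
  · rfl
  · simp

section
variable {Ca : k[X] → k[X]} (hCa : ∀ w j, (Ca w).coeff j ^ 3 = w.coeff (3 * j + 2))
include hCa

theorem c10_add (a b : k[X]) : Ca (a + b) = Ca a + Ca b := by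
  ext j; apply c10_inj
  rw [coeff_add, add_pow_char, hCa, hCa, hCa, coeff_add]

theorem c10_zero : Ca 0 = 0 := by
  ext j; apply c10_inj
  rw [hCa]; simp

theorem c10_pow (w : k[X]) : Ca w ^ 3 = - derivative^[2] w := by
  ext n
  rw [c10_coeff_pow, coeff_neg, coeff_iterate_derivative]
  have hd : (n + 2).descFactorial 2 = (n + 1) * (n + 2) := by
    simp [Nat.descFactorial_succ]
  rw [hd, nsmul_eq_mul]
  split_ifs with h
  · obtain ⟨j, rfl⟩ := h
    rw [Nat.mul_div_cancel_left _ (by norm_num), hCa]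
    have : (((3 * j + 1) * (3 * j + 2) : ℕ) : k) = -1 := by
      have h3 : (3 : k) = 0 := by exact_mod_cast CharP.cast_eq_zero k 3
      push_cast
      rw [h3]
      linear_combination h3
    rw [this]; ring
  · have : 3 ∣ (n + 1) * (n + 2) := by
      have : n % 3 = 1 ∨ n % 3 = 2 := by omega
      rcases this with h | h
      · exact Dvd.dvd.mul_left (by omega) _
      · exact (show 3 ∣ n + 1 by omega).mul_right _
    rw [(CharP.cast_eq_zero_iff k 3 _).mpr this]; simp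

theorem c10_pow_mul (a w : k[X]) : Ca (a ^ 3 * w) = a * Ca w := by
  have hd : ∀ w : k[X], derivative (a ^ 3 * w) = a ^ 3 * derivative w := by
    intro w
    have h3 : ((3 : ℕ) : k) = 0 := CharP.cast_eq_zero k 3
    rw [derivative_mul, derivative_pow, h3]; simp
  apply c10_inj'
  rw [mul_pow, c10_pow hCa, c10_pow hCa]
  simp only [Function.iterate_succ, Function.comp, Function.iterate_zero, id, hd]
  ring

theorem c10_decomp (w : k[X]) :
    w = Ca (X ^ 2 * w) ^ 3 + X * Ca (X * w) ^ 3 + X ^ 2 * Ca w ^ 3 := by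
  have key : ∀ i n : ℕ, i ≤ 2 → (X ^ i * Ca (X ^ (2 - i) * w) ^ 3).coeff n =
      if n % 3 = i then w.coeff n else 0 := by
    intro i n hi
    rw [coeff_X_pow_mul', c10_coeff_pow, hCa, coeff_X_pow_mul']
    by_cases h : n % 3 = i
    · rw [if_pos (by omega), if_pos (by omega), if_pos (by omega), if_pos h]
      congr 1; omega
    · rw [if_neg h]
      split_ifs with h1 h2
      · exfalso; omega
      · rfl
      · rfl
      · rfl
  ext n
  have k0 := key 0 n (by norm_num)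
  have k1 := key 1 n (by norm_num)
  have k2 := key 2 n (by norm_num)
  simp only [pow_zero, one_mul, Nat.sub_zero, Nat.sub_self, pow_one, Nat.reduceSub] at k0 k1 k2
  simp only [coeff_add, k0, k1, k2]
  have : n % 3 = 0 ∨ n % 3 = 1 ∨ n % 3 = 2 := by omega
  rcases this with h | h | h <;> simp [h]

theorem c10_degree {w : k[X]} {N : ℕ} (h : w.degree < (3 * N + 2 : ℕ)) : (Ca w).degree < N := by
  rw [degree_lt_iff_coeff_zero] at h ⊢
  intro m hm
  apply c10_inj
  rw [hCa, h _ (by omega)]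
  simp

theorem c10_onto {P h : k[X]} (hP : P ≠ 0) (hh : ∀ p, Irreducible p → p ∣ P → ¬ p ^ 3 ∣ h)
    (a : k[X]) : ∃ g, P ∣ Ca (g * h) - a := by
  set h0 := Ca (X ^ 2 * h) with e0
  set h1 := Ca (X * h) with e1
  set h2 := Ca h with e2
  have hc : IsCoprime P (EuclideanDomain.gcd h0 (EuclideanDomain.gcd h1 h2)) := by
    apply isCoprime_of_irreducible_dvd (fun H => hP H.1)
    intro p hp hpP hd
    apply hh p hp hpP
    have d0 : p ∣ h0 := hd.trans (EuclideanDomain.gcd_dvd_left _ _)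
    have d12 := hd.trans (EuclideanDomain.gcd_dvd_right _ _)
    have d1 : p ∣ h1 := d12.trans (EuclideanDomain.gcd_dvd_left _ _)
    have d2 : p ∣ h2 := d12.trans (EuclideanDomain.gcd_dvd_right _ _)
    rw [c10_decomp hCa h]
    exact dvd_add (dvd_add (pow_dvd_pow_of_dvd d0 3) ((pow_dvd_pow_of_dvd d1 3).mul_left _))
      ((pow_dvd_pow_of_dvd d2 3).mul_left _)
  obtain ⟨u, v, huv⟩ := hc
  rw [EuclideanDomain.gcd_eq_gcd_ab h0, EuclideanDomain.gcd_eq_gcd_ab h1] at huv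
  set s0 := EuclideanDomain.gcdA h0 (h1 * EuclideanDomain.gcdA h1 h2 + h2 * EuclideanDomain.gcdB h1 h2)
  set s1 := EuclideanDomain.gcdB h0 (h1 * EuclideanDomain.gcdA h1 h2 + h2 * EuclideanDomain.gcdB h1 h2)
  set t1 := EuclideanDomain.gcdA h1 h2
  set t2 := EuclideanDomain.gcdB h1 h2
  refine ⟨(a * v * s0) ^ 3 * X ^ 2 + (a * v * s1 * t1) ^ 3 * X + (a * v * s1 * t2) ^ 3, -(a * u), ?_⟩
  rw [add_mul, add_mul, c10_add hCa, c10_add hCa, mul_assoc _ (X ^ 2) h, mul_assoc _ X h,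
    c10_pow_mul hCa, c10_pow_mul hCa, c10_pow_mul hCa, ← e0, ← e1, ← e2]
  linear_combination a * huv

theorem c10_onto_pow {P f : k[X]} (hP : P ≠ 0) (hs : Squarefree P)
    (hf : ∀ p, Irreducible p → p ∣ P → ¬ p ^ 2 ∣ f) (j : ℕ) (a : k[X]) :
    ∃ g, P ^ (j + 1) ∣ Ca (g * f) - g - a := by
  induction j with
  | zero =>
    obtain ⟨g, hg⟩ := c10_onto hCa (h := P * f) hP (by
      intro p hp hpP hd
      apply hf p hp hpP
      obtain ⟨P', rfl⟩ := hpP
      have hn : ¬ p ∣ P' := fun H => hp.not_isUnit (hs p (mul_dvd_mul_left p H))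
      have h2 : p ^ 2 ∣ P' * f := by
        rw [pow_succ', mul_assoc] at hd
        exact (mul_dvd_mul_iff_left hp.ne_zero).mp hd
      exact (hp.prime.pow_dvd_of_dvd_mul_left 2 hn h2)) a
    refine ⟨g * P, ?_⟩
    rw [zero_add, pow_one, mul_assoc]
    have : Ca (g * (P * f)) - g * P - a = (Ca (g * (P * f)) - a) - P * g := by ring
    rw [this]
    exact dvd_sub hg (dvd_mul_right _ _)
  | succ j ih =>
    obtain ⟨g, b, hb⟩ := ih
    obtain ⟨g', c, hc⟩ := c10_onto hCa (h := f) hP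
      (fun p hp hpP hd => hf p hp hpP ((pow_dvd_pow p (by norm_num)).trans hd)) (-b)
    refine ⟨g + (P ^ (j + 1)) ^ 3 * g', c - P ^ (2 * j + 1) * g', ?_⟩
    rw [add_mul, c10_add hCa, mul_assoc, c10_pow_mul hCa]
    linear_combination hb + P ^ (j + 1) * hc

/-- step (i): small targets -/
theorem c10_small {P f : k[X]} (hP : P.Monic) (hs : Squarefree P) {K n : ℕ} (hK : 1 ≤ K)
    (hfd : f.natDegree = n) (hf : ∀ p, Irreducible p → p ∣ P → ¬ p ^ 2 ∣ f)
    (hn : 3 * ((P ^ K).natDegree + K) ≤ n / 2) {a : k[X]} (ha : a.degree < (n / 2 - K : ℕ)) :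
    ∃ g s : k[X], g.degree < (n / 2 : ℕ) ∧ s.degree < (n / 2 - K - (P ^ K).natDegree : ℕ) ∧
      Ca (g * f) - g - P ^ K * s = a := by
  obtain ⟨j, rfl⟩ : ∃ j, K = j + 1 := ⟨K - 1, by omega⟩
  obtain ⟨g, hg⟩ := c10_onto_pow hCa hP.ne_zero hs hf j a
  set R := P ^ (j + 1) with hR
  have hRm : R.Monic := hP.pow _
  have hR3 : (R ^ 3).Monic := hRm.pow _
  set g0 := g %ₘ R ^ 3 with hg0
  have hdeg : g0.degree < (3 * R.natDegree : ℕ) := by
    have := degree_modByMonic_lt g hR3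
    rwa [degree_eq_natDegree hR3.ne_zero, hRm.natDegree_pow] at this
  have hdv : R ∣ Ca (g0 * f) - g0 - a := by
    have e : g = g0 + R ^ 3 * (g /ₘ R ^ 3) := (modByMonic_add_div g (R ^ 3)).symm
    rw [e, add_mul, c10_add hCa, mul_assoc, c10_pow_mul hCa] at hg
    have : Ca (g0 * f) - g0 - a =
        (Ca (g0 * f) + R * Ca (g /ₘ R ^ 3 * f) - (g0 + R ^ 3 * (g /ₘ R ^ 3)) - a) -
          R * (Ca (g /ₘ R ^ 3 * f) - R ^ 2 * (g /ₘ R ^ 3)) := by ring
    rw [this]
    exact dvd_sub hg (dvd_mul_right _ _)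
  obtain ⟨s, hs'⟩ := hdv
  have h1 : g0.degree < (n / 2 - (j + 1) : ℕ) :=
    hdeg.trans_le (by exact_mod_cast (by omega))
  have h2 : (Ca (g0 * f)).degree < (n / 2 - (j + 1) : ℕ) := by
    apply c10_degree hCa
    by_cases h0 : g0 = 0
    · rw [h0, zero_mul, degree_zero]; exact WithBot.bot_lt_coe _
    · have := (natDegree_lt_iff_degree_lt h0).mpr hdeg
      have h3 : (g0 * f).natDegree ≤ g0.natDegree + f.natDegree := natDegree_mul_le
      exact degree_le_natDegree.trans_lt (by exact_mod_cast (by omega))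
  have h4 : (R * s).degree < (n / 2 - (j + 1) : ℕ) := by
    rw [← hs']
    exact (degree_sub_le _ _).trans_lt (max_lt ((degree_sub_le _ _).trans_lt (max_lt h2 h1)) ha)
  refine ⟨g0, s, h1.trans_le (by exact_mod_cast (by omega)), ?_, by rw [← hs']; ring⟩
  by_cases h0 : s = 0
  · rw [h0, degree_zero]; exact WithBot.bot_lt_coe _
  · have := (natDegree_lt_iff_degree_lt (mul_ne_zero hRm.ne_zero h0)).mpr h4
    rw [natDegree_mul hRm.ne_zero h0] at this
    exact (natDegree_lt_iff_degree_lt h0).mp (by omega)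

/-- step (ii): all targets with admissible top coefficient -/
theorem c10_all {P f : k[X]} (hP : P.Monic) (hs : Squarefree P) {K n : ℕ} (hK : 1 ≤ K)
    (hfm : f.Monic) (hfd : f.natDegree = n) (hf : ∀ p, Irreducible p → p ∣ P → ¬ p ^ 2 ∣ f)
    (hn : 3 * ((P ^ K).natDegree + K) ≤ n / 2) (t : ℕ) (ht : t ≤ K) {a : k[X]}
    (ha : a.degree < (n / 2 - K + t : ℕ))
    (hc : Even n → ∃ e : k, a.coeff (n / 2 - 1) = e - e ^ 3) :
    ∃ g s : k[X], g.degree < (n / 2 : ℕ) ∧ s.degree < (n / 2 - K - (P ^ K).natDegree : ℕ) ∧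
      Ca (g * f) - g - P ^ K * s = a := by
  induction t generalizing a with
  | zero => exact c10_small hCa hP hs hK hfd hf hn ha
  | succ t ih =>
    set j := n / 2 - K + t with hj
    set d := 3 * j + 2 - n with hd
    have hdj : d ≤ j := by omega
    obtain ⟨e, he⟩ : ∃ e : k, a.coeff j = e - if d = j then e ^ 3 else 0 := by
      by_cases h : d = j
      · have hev : Even n := ⟨j + 1, by omega⟩
        obtain ⟨e, he⟩ := hc hev
        refine ⟨e, ?_⟩
        rw [if_pos h, ← he]; congr 1; omega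
      · exact ⟨a.coeff j, by rw [if_neg h, sub_zero]⟩
    set g1 : k[X] := monomial d (e ^ 3) with hg1
    have hg1d : g1.natDegree ≤ d := natDegree_monomial_le _
    have hC : (Ca (g1 * f)).degree < (j + 1 : ℕ) := by
      apply c10_degree hCa
      have h3 : (g1 * f).natDegree ≤ g1.natDegree + f.natDegree := natDegree_mul_le
      exact degree_le_natDegree.trans_lt (by exact_mod_cast (by omega))
    have hCj : (Ca (g1 * f)).coeff j = e := by
      apply c10_inj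
      rw [hCa, show 3 * j + 2 = d + n by omega, coeff_mul_add_eq_of_natDegree_le hg1d hfd.le, hg1,
        coeff_monomial_same, ← hfd, hfm.coeff_natDegree, mul_one]
    have hlt : (a - (Ca (g1 * f) - g1)).degree < (j : ℕ) := by
      rw [degree_lt_iff_coeff_zero] at ha hC ⊢
      intro i hi
      rcases hi.eq_or_lt with h | h
      · rw [← h, coeff_sub, coeff_sub, hCj, he, hg1, coeff_monomial, sub_self]
      · rw [coeff_sub, coeff_sub, ha i (by omega), hC i (by omega),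
          coeff_eq_zero_of_natDegree_lt (by omega)]
        simp
    obtain ⟨g, s, h1, h2, h3⟩ := ih (by omega) hlt (fun _ => ⟨0, by
      rw [degree_lt_iff_coeff_zero] at hlt
      rw [hlt _ (by omega)]; simp⟩)
    refine ⟨g + g1, s, (degree_add_le _ _).trans_lt (max_lt h1 ?_), h2, ?_⟩
    · exact degree_le_natDegree.trans_lt (by exact_mod_cast (by omega))
    · rw [add_mul, c10_add hCa]
      linear_combination h3

end

theorem c10_mem_of_mul {R s : k[X]} (hR : R.Monic) {N : ℕ} (h : (R * s).degree < N) :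
    s ∈ box k (N - R.natDegree) := by
  rw [mem_box]
  by_cases h0 : s = 0
  · rw [h0, degree_zero]; exact WithBot.bot_lt_coe _
  · have := (natDegree_lt_iff_degree_lt (mul_ne_zero hR.ne_zero h0)).mpr h
    rw [natDegree_mul hR.ne_zero h0] at this
    exact (natDegree_lt_iff_degree_lt h0).mp (by omega)

theorem c10_mul_lt {R s : k[X]} {N : ℕ} (hN : R.natDegree ≤ N) (h : s ∈ box k (N - R.natDegree)) :
    (R * s).degree < N := by
  by_cases h0 : s = 0
  · rw [h0, mul_zero, degree_zero]; exact WithBot.bot_lt_coe _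
  · have := (natDegree_lt_iff_degree_lt h0).mpr (mem_box.mp h)
    have h3 : (R * s).natDegree ≤ R.natDegree + s.natDegree := natDegree_mul_le
    exact degree_le_natDegree.trans_lt (by exact_mod_cast (by omega))

theorem c10_card_lt (N : ℕ) : Nat.card (degreeLT k N) = Fintype.card k ^ N := by
  rw [Nat.card_congr (degreeLTEquiv k N).toEquiv]
  simp

/-- the map `e ↦ e - e ^ 3` -/
def c10_wp (k : Type*) [Field k] [CharP k 3] : k →+ k where
  toFun e := e - e ^ 3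
  map_zero' := by simp
  map_add' a b := by rw [add_pow_char]; ring

theorem c10_index : (c10_wp k).range.index = 3 := by
  rw [AddSubgroup.index_range]
  have h3 : (3 : k) = 0 := by exact_mod_cast CharP.cast_eq_zero k 3
  have e : ((c10_wp k).ker : Set k) = {0, 1, -1} := by
    ext x
    simp only [SetLike.mem_coe, AddMonoidHom.mem_ker, Set.mem_insert_iff, Set.mem_singleton_iff]
    change x - x ^ 3 = 0 ↔ _
    constructor
    · intro h
      have : x * ((x - 1) * (x + 1)) = 0 := by linear_combination -h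
      rcases mul_eq_zero.mp this with h | h
      · exact Or.inl h
      · rcases mul_eq_zero.mp h with h | h
        · exact Or.inr (Or.inl (by linear_combination h))
        · exact Or.inr (Or.inr (by linear_combination h))
    · rintro (rfl | rfl | rfl) <;> ring
  change ((c10_wp k).ker : Set k).ncard = 3
  rw [e]
  refine Set.ncard_eq_three.mpr ⟨0, 1, -1, by simp, by simp, ?_, rfl⟩
  intro h
  have : (1 : k) = 0 := by linear_combination h3 - h
  exact one_ne_zero this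

/-- COK -/
theorem c10_COK {Ca : k[X] → k[X]} (hCa : ∀ w j, (Ca w).coeff j ^ 3 = w.coeff (3 * j + 2))
    {P f : k[X]} (hP : P.Monic) (hs : Squarefree P) {K n : ℕ} (hK : 1 ≤ K)
    (hfm : f.Monic) (hfd : f.natDegree = n) (hf : ∀ p, Irreducible p → p ∣ P → ¬ p ^ 2 ∣ f)
    (hn : 3 * ((P ^ K).natDegree + K) ≤ n / 2) (T : Finset k[X])
    (hT : ∀ g, g ∈ T ↔ g ∈ box k (n / 2) ∧ ∃ s ∈ box k (n / 2 - K - (P ^ K).natDegree),
      Ca (g * f) - g = P ^ K * s) :
    T.card = (if Even n then 3 else 1) * Fintype.card k ^ (n / 2 - K - (P ^ K).natDegree) := by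
  set m := n / 2 with hm
  set R := P ^ K with hR
  set NU := m - K - R.natDegree with hNU
  have hRm : R.Monic := hP.pow _
  have hRs : ∀ s : k[X], s.degree < (NU : ℕ) → (R * s).degree < (m - 1 : ℕ) := by
    intro s hs'
    by_cases h0 : s = 0
    · rw [h0, mul_zero, degree_zero]; exact WithBot.bot_lt_coe _
    · have := (natDegree_lt_iff_degree_lt h0).mpr hs'
      have h3 : (R * s).natDegree ≤ R.natDegree + s.natDegree := natDegree_mul_le
      exact degree_le_natDegree.trans_lt (by exact_mod_cast (by omega))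
  have hmem : ∀ g s : k[X], g.degree < (m : ℕ) → s.degree < (NU : ℕ) →
      (Ca (g * f) - g - R * s).degree < (m : ℕ) := by
    intro g s hg hs'
    have h2 : (Ca (g * f)).degree < (m : ℕ) := by
      apply c10_degree hCa
      by_cases h0 : g = 0
      · rw [h0, zero_mul, degree_zero]; exact WithBot.bot_lt_coe _
      · have := (natDegree_lt_iff_degree_lt h0).mpr hg
        have h3 : (g * f).natDegree ≤ g.natDegree + f.natDegree := natDegree_mul_le
        exact degree_le_natDegree.trans_lt (by exact_mod_cast (by omega))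
    exact (degree_sub_le _ _).trans_lt (max_lt ((degree_sub_le _ _).trans_lt (max_lt h2 hg))
      ((hRs s hs').trans_le (by exact_mod_cast (by omega))))
  let Ψ : degreeLT k m × degreeLT k NU →+ degreeLT k m := AddMonoidHom.mk'
    (fun x => ⟨Ca (x.1.1 * f) - x.1.1 - R * x.2.1,
      mem_degreeLT.mpr (hmem _ _ (mem_degreeLT.mp x.1.2) (mem_degreeLT.mp x.2.2))⟩)
    (by
      intro x y
      apply Subtype.ext
      change Ca ((x.1.1 + y.1.1) * f) - (x.1.1 + y.1.1) - R * (x.2.1 + y.2.1) =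
        (Ca (x.1.1 * f) - x.1.1 - R * x.2.1) + (Ca (y.1.1 * f) - y.1.1 - R * y.2.1)
      rw [add_mul, c10_add hCa]; ring)
  let W : AddSubgroup k := if Even n then (c10_wp k).range else ⊤
  let co : degreeLT k m →+ k := AddMonoidHom.mk' (fun x => x.1.coeff (m - 1))
    (fun x y => coeff_add _ _ _)
  have hco : Function.Surjective co := fun c =>
    ⟨⟨monomial (m - 1) c, mem_degreeLT.mpr ((degree_monomial_le _ _).trans_lt
      (by exact_mod_cast (by omega)))⟩, coeff_monomial_same _ _⟩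
  have hW : W.index = if Even n then 3 else 1 := by
    simp only [W]
    split_ifs
    · exact c10_index
    · exact AddSubgroup.index_top
  have hr : Ψ.range = W.comap co := by
    ext a
    rw [AddMonoidHom.mem_range, AddSubgroup.mem_comap]
    constructor
    · rintro ⟨⟨g, s⟩, rfl⟩
      simp only [W]
      split_ifs with hev
      · refine ⟨(Ca (g.1 * f)).coeff (m - 1), ?_⟩
        change _ - _ ^ 3 = (Ca (g.1 * f) - g.1 - R * s.1).coeff (m - 1)
        have h1 := hRs _ (mem_degreeLT.mp s.2)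
        rw [degree_lt_iff_coeff_zero] at h1
        have hg : g.1.natDegree ≤ m - 1 := by
          by_cases h0 : g.1 = 0
          · rw [h0]; simp
          · have := (natDegree_lt_iff_degree_lt h0).mpr (mem_degreeLT.mp g.2)
            omega
        obtain ⟨r, hr⟩ := hev
        rw [coeff_sub, coeff_sub, h1 _ le_rfl, hCa, show 3 * (m - 1) + 2 = m - 1 + n by omega,
          coeff_mul_add_eq_of_natDegree_le hg hfd.le, ← hfd, hfm.coeff_natDegree, mul_one, sub_zero]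
      · trivial
    · intro h
      obtain ⟨g, s, h1, h2, h3⟩ := c10_all hCa hP hs hK hfm hfd hf hn K le_rfl (a := a.1)
        ((mem_degreeLT.mp a.2).trans_le (by exact_mod_cast (by omega))) (fun hev => by
          simp only [W, if_pos hev] at h
          obtain ⟨e, he⟩ := h
          exact ⟨e, he.symm⟩)
      exact ⟨(⟨g, mem_degreeLT.mpr h1⟩, ⟨s, mem_degreeLT.mpr h2⟩), Subtype.ext h3⟩
  have e1 := Ψ.ker.card_mul_index
  rw [AddSubgroup.index_ker, Nat.card_prod, c10_card_lt, c10_card_lt] at e1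
  have e2 := Ψ.range.card_mul_index
  rw [c10_card_lt] at e2
  have e3 : Ψ.range.index = if Even n then 3 else 1 := by
    rw [hr, AddSubgroup.index_comap_of_surjective _ hco, hW]
  have hpos : 0 < Nat.card Ψ.range := by
    rcases Nat.eq_zero_or_pos (Nat.card Ψ.range) with h | h
    · rw [h, zero_mul] at e2
      exact absurd e2 (pow_pos Fintype.card_pos m).ne
    · exact h
  have e4 : Nat.card Ψ.ker = (if Even n then 3 else 1) * Fintype.card k ^ NU := by
    apply Nat.eq_of_mul_eq_mul_right hpos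
    rw [e1, ← e2, e3]; ring
  rw [← e4, ← Nat.card_eq_finsetCard]
  symm
  refine Nat.card_congr (Equiv.ofBijective (fun x => ⟨x.1.1.1, (hT _).mpr
    ⟨mem_box.mpr (mem_degreeLT.mp x.1.1.2), x.1.2.1, mem_box.mpr (mem_degreeLT.mp x.1.2.2),
      sub_eq_zero.mp (congrArg Subtype.val x.2)⟩⟩) ⟨?_, ?_⟩)
  · intro x y h
    have h1 : x.1.1.1 = y.1.1.1 := congrArg (fun z : T => (z : k[X])) h
    have hx : Ca (x.1.1.1 * f) - x.1.1.1 - R * x.1.2.1 = 0 := congrArg Subtype.val x.2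
    have hy : Ca (y.1.1.1 * f) - y.1.1.1 - R * y.1.2.1 = 0 := congrArg Subtype.val y.2
    have h2 : x.1.2.1 = y.1.2.1 := by
      apply mul_left_cancel₀ hRm.ne_zero
      rw [h1] at hx
      linear_combination hy - hx
    exact Subtype.ext (Prod.ext (Subtype.ext h1) (Subtype.ext h2))
  · rintro ⟨g, hg⟩
    obtain ⟨h1, s, h2, h3⟩ := (hT _).mp hg
    exact ⟨⟨(⟨g, mem_degreeLT.mpr (mem_box.mp h1)⟩, ⟨s, mem_degreeLT.mpr (mem_box.mp h2)⟩),
      Subtype.ext (sub_eq_zero.mpr h3)⟩, rfl⟩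

end CL5

end
end

-- part H86M.EqA9
section

/-! h86m: row EQ, part A (shift averaging and characters), definition-free. -/

set_option autoImplicit false
open Polynomial Finset Filter Topology
open scoped Classical

noncomputable section
namespace CL3.Eq9
open CL5

variable {k : Type*} [Field k] [Fintype k]

theorem add_mem_box {N : ℕ} {a b : k[X]} (ha : a ∈ box k N) (hb : b ∈ box k N) :
    a + b ∈ box k N := by
  rw [mem_box] at ha hb ⊢
  exact (degree_add_le _ _).trans_lt (max_lt ha hb)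

theorem sub_mem_box {N : ℕ} {a b : k[X]} (ha : a ∈ box k N) (hb : b ∈ box k N) :
    a - b ∈ box k N := by
  rw [mem_box] at ha hb ⊢
  exact (degree_sub_le _ _).trans_lt (max_lt ha hb)

theorem zero_mem_box (N : ℕ) : (0 : k[X]) ∈ box k N := by
  rw [mem_box, degree_zero]; exact WithBot.bot_lt_coe _

theorem mem_box_iff {N : ℕ} {a : k[X]} : a ∈ box k N ↔ (a ≠ 0 → a.natDegree < N) := by
  rw [mem_box]
  by_cases ha : a = 0
  · subst ha; simp only [degree_zero, ne_eq, not_true_eq_false, false_imp_iff, iff_true]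
    exact WithBot.bot_lt_coe _
  · rw [← natDegree_lt_iff_degree_lt ha]; simp [ha]

theorem box_mono {N M : ℕ} (h : N ≤ M) {a : k[X]} (ha : a ∈ box k N) : a ∈ box k M := by
  rw [mem_box_iff] at ha ⊢
  intro h0; have := ha h0; omega

theorem mul_mem_box {N M : ℕ} {R a : k[X]} (h : R.natDegree + N ≤ M) (ha : a ∈ box k N) :
    R * a ∈ box k M := by
  rw [mem_box_iff] at ha ⊢
  intro h0
  have h1 := ha (right_ne_zero_of_mul h0)
  have := natDegree_mul_le (p := R) (q := a)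
  omega

theorem sum_shift {M : Type*} [AddCommMonoid M] {N : ℕ} {s : k[X]} (hs : s ∈ box k N)
    (G : k[X] → M) : ∑ a ∈ box k N, G (a + s) = ∑ a ∈ box k N, G a := by
  refine Finset.sum_bij' (fun v _ => v + s) (fun v _ => v - s) ?_ ?_ ?_ ?_ ?_
  · intro v hv; exact add_mem_box hv hs
  · intro v hv; exact sub_mem_box hv hs
  · intro v _; simp
  · intro v _; simp
  · intro v _; rfl

theorem qq_pos : 0 < qq k := by linarith [two_le_qq (k := k)]

theorem nrm_pos (a : k[X]) : 0 < nrm a := pow_pos qq_pos _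

theorem card_box_c (N : ℕ) : ((box k N).card : ℂ) = ((qq k ^ N : ℝ) : ℂ) := by
  rw [← card_box (k := k) N]; simp

/-- averaging over shifts of three variables -/
theorem avg3 {m0 nT N1 N2 : ℕ} {R : k[X]} (hN1 : R.natDegree + N1 ≤ m0)
    (hN2 : R.natDegree + N2 ≤ nT) (G : k[X] → k[X] → k[X] → ℂ) :
    ((qq k ^ (2 * N1 + N2) : ℝ) : ℂ) * ∑ a ∈ box k m0, ∑ b ∈ box k m0, ∑ T ∈ box k nT, G a b T =
      ∑ a ∈ box k m0, ∑ b ∈ box k m0, ∑ T ∈ box k nT, ∑ al ∈ box k N1, ∑ be ∈ box k N1,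
        ∑ t ∈ box k N2, G (a + R * al) (b + R * be) (T + R * t) := by
  have h1 : ∀ al ∈ box k N1, ∀ be ∈ box k N1, ∀ t ∈ box k N2,
      ∑ a ∈ box k m0, ∑ b ∈ box k m0, ∑ T ∈ box k nT, G (a + R * al) (b + R * be) (T + R * t) =
      ∑ a ∈ box k m0, ∑ b ∈ box k m0, ∑ T ∈ box k nT, G a b T := by
    intro al hal be hbe t ht
    rw [← sum_shift (mul_mem_box hN1 hal) (fun a => ∑ b ∈ box k m0, ∑ T ∈ box k nT, G a b T)]
    refine Finset.sum_congr rfl fun a _ => ?_
    rw [← sum_shift (mul_mem_box hN1 hbe) (fun b => ∑ T ∈ box k nT, G (a + R * al) b T)]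
    refine Finset.sum_congr rfl fun b _ => ?_
    exact sum_shift (mul_mem_box hN2 ht) (fun T => G (a + R * al) (b + R * be) T)
  have h2 : ∑ a ∈ box k m0, ∑ b ∈ box k m0, ∑ T ∈ box k nT, ∑ al ∈ box k N1, ∑ be ∈ box k N1,
        ∑ t ∈ box k N2, G (a + R * al) (b + R * be) (T + R * t) =
      ∑ al ∈ box k N1, ∑ be ∈ box k N1, ∑ t ∈ box k N2,
        ∑ a ∈ box k m0, ∑ b ∈ box k m0, ∑ T ∈ box k nT,
          G (a + R * al) (b + R * be) (T + R * t) := by
    have := Finset.sum_comm (s := box k m0 ×ˢ box k m0 ×ˢ box k nT)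
      (t := box k N1 ×ˢ box k N1 ×ˢ box k N2)
      (f := fun p s => G (p.1 + R * s.1) (p.2.1 + R * s.2.1) (p.2.2 + R * s.2.2))
    simpa only [Finset.sum_product] using this
  rw [h2, Finset.sum_congr rfl fun al hal => Finset.sum_congr rfl fun be hbe =>
    Finset.sum_congr rfl fun t ht => h1 al hal be hbe t ht]
  simp only [Finset.sum_const, nsmul_eq_mul, card_box_c]
  push_cast
  ring

theorem card_dual {r R : k[X]} (hr : r.Monic) (hRr : IsCoprime R r) (j : ℕ) :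
    (((box k r.natDegree).filter (fun h => ((R * h) %ₘ r).degree < (j : ℕ))).card : ℝ) ≤
      qq k ^ j := by
  rw [← card_box (k := k) j]
  have : ((box k r.natDegree).filter (fun h => ((R * h) %ₘ r).degree < (j : ℕ))).card ≤
      (box k j).card := by
    refine Finset.card_le_card_of_injOn (fun h => (R * h) %ₘ r) ?_ ?_
    · intro h hh
      rw [Finset.mem_coe, Finset.mem_filter] at hh
      exact Finset.mem_coe.2 (mem_box.2 hh.2)
    · intro h hh h' hh' e
      rw [Finset.mem_coe, Finset.mem_filter] at hh hh'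
      have e1 := modByMonic_add_div (R * h) r
      have e2 := modByMonic_add_div (R * h') r
      have e' : (R * h) %ₘ r = (R * h') %ₘ r := e
      have hd : r ∣ R * (h - h') :=
        ⟨(R * h) /ₘ r - (R * h') /ₘ r, by linear_combination e2 - e1 + e'⟩
      have hd2 : r ∣ h - h' := hRr.symm.dvd_of_dvd_mul_left hd
      have hlt := mem_box.1 (sub_mem_box hh.1 hh'.1)
      rw [← degree_eq_natDegree hr.ne_zero] at hlt
      exact sub_eq_zero.1 (eq_zero_of_dvd_of_degree_lt hd2 hlt)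
  exact_mod_cast this

/-- EQ, part A -/
theorem eqA (e : k[X] → ℂ) {r R : k[X]} (hr : r.Monic) (hRr : IsCoprime R r)
    (hadd : ∀ a b, e (a + b) = e a * e b) (hnorm : ∀ a, ‖e a‖ = 1)
    (he2 : ∀ N ≤ r.natDegree, ∀ a, ∑ v ∈ box k N, e (a * v) =
      if (a %ₘ r).degree < (r.natDegree - N : ℕ) then ((qq k ^ N : ℝ) : ℂ) else 0)
    {m0 nT N1 N2 K3 : ℕ} (hN1 : R.natDegree + N1 ≤ m0) (hN2 : R.natDegree + N2 ≤ nT)
    (hK3 : r.natDegree ≤ N2 + K3)
    (chi : k[X] → k[X] → k[X] → ℝ) (hchi : ∀ a b T, |chi a b T| ≤ 1)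
    (hinv : ∀ a ∈ box k m0, ∀ b ∈ box k m0, ∀ T ∈ box k nT, ∀ al ∈ box k N1, ∀ be ∈ box k N1,
      ∀ t ∈ box k N2, chi (a + R * al) (b + R * be) (T + R * t) = chi a b T)
    (z c T0 : k[X] → k[X] → k[X])
    (hT0 : ∀ a b, IsCoprime (z a b) r → r ∣ z a b * T0 a b - c a b)
    {B : ℝ} (hB0 : 0 ≤ B)
    (hB : ∀ a b h l : k[X], l ≠ 0 → l.natDegree < K3 → r ∣ h * R - l →
      ‖∑ al ∈ box k N1, ∑ be ∈ box k N1,
        if IsCoprime (z (a + R * al) (b + R * be)) r then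
          e (h * T0 (a + R * al) (b + R * be)) else 0‖ ≤ B) :
    |∑ a ∈ box k m0, ∑ b ∈ box k m0, ∑ T ∈ box k nT,
      if IsCoprime (z a b) r then
        chi a b T * ((if r ∣ z a b * T - c a b then 1 else 0) - 1 / nrm r) else 0| ≤
      qq k ^ (2 * m0 + nT + K3) / nrm r * (B / qq k ^ (2 * N1)) := by
  wlog hle : N2 ≤ r.natDegree generalizing N2
  · refine this (N2 := r.natDegree) (by omega) (by omega) ?_ le_rfl
    intro a ha b hb T hT al hal be hbe t ht
    exact hinv a ha b hb T hT al hal be hbe t (box_mono (by omega) ht)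
  have hq := qq_pos (k := k)
  have hn := nrm_pos r
  have e0 : e 0 = 1 := by
    have h1 := hadd 0 0
    rw [add_zero] at h1
    have h2 : e 0 ≠ 0 := fun h => by have := hnorm 0; rw [h] at this; simp at this
    exact (mul_right_cancel₀ h2 (by rw [one_mul]; exact h1)).symm
  set F : k[X] → k[X] → k[X] → ℝ := fun a b T => if IsCoprime (z a b) r then
    ((if r ∣ z a b * T - c a b then 1 else 0) - 1 / nrm r) else 0 with hF
  -- expansion in characters
  have hexp : ∀ a b T, (F a b T : ℂ) = ((1 / nrm r : ℝ) : ℂ) * ∑ h ∈ (box k r.natDegree).erase 0,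
      e (T * h) * (if IsCoprime (z a b) r then e (-h * T0 a b) else 0) := by
    intro a b T
    by_cases hc : IsCoprime (z a b) r
    · simp only [hF, if_pos hc]
      have h1 := he2 r.natDegree le_rfl (T - T0 a b)
      rw [← Finset.add_sum_erase _ _ (zero_mem_box _), mul_zero, e0] at h1
      have h2 : ∑ h ∈ (box k r.natDegree).erase 0, e (T * h) * e (-h * T0 a b) =
          ∑ h ∈ (box k r.natDegree).erase 0, e ((T - T0 a b) * h) :=
        Finset.sum_congr rfl fun h _ => by rw [← hadd]; congr 1; ring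
      have h3 : (r ∣ z a b * T - c a b) ↔
          ((T - T0 a b) %ₘ r).degree < (r.natDegree - r.natDegree : ℕ) := by
        rw [Nat.sub_self, Nat.cast_zero, Nat.WithBot.lt_zero_iff, degree_eq_bot,
          modByMonic_eq_zero_iff_dvd hr]
        constructor
        · intro h
          refine hc.symm.dvd_of_dvd_mul_left ?_
          have := dvd_sub h (hT0 a b hc)
          convert this using 1; ring
        · intro h
          have := dvd_add (h.mul_left (z a b)) (hT0 a b hc)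
          convert this using 1; ring
      rw [h2, eq_sub_of_add_eq' h1]
      have hn' : ((nrm r : ℝ) : ℂ) ≠ 0 := by exact_mod_cast hn.ne'
      have hqq : ((qq k ^ r.natDegree : ℝ) : ℂ) = ((nrm r : ℝ) : ℂ) := rfl
      by_cases hd : r ∣ z a b * T - c a b
      · rw [if_pos hd, if_pos (h3.1 hd), hqq]; push_cast; field_simp
      · rw [if_neg hd, if_neg (fun h => hd (h3.2 h))]; push_cast; field_simp; ring
    · simp only [hF, if_neg hc]; simp
  -- the shifted sum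
  have hsh : ∀ a b T, ‖∑ al ∈ box k N1, ∑ be ∈ box k N1, ∑ t ∈ box k N2,
      (F (a + R * al) (b + R * be) (T + R * t) : ℂ)‖ ≤ 1 / nrm r * (qq k ^ K3 * (qq k ^ N2 * B)) := by
    intro a b T
    have h1 : ∑ al ∈ box k N1, ∑ be ∈ box k N1, ∑ t ∈ box k N2,
        (F (a + R * al) (b + R * be) (T + R * t) : ℂ) =
        ((1 / nrm r : ℝ) : ℂ) * ∑ h ∈ (box k r.natDegree).erase 0,
          e (T * h) * (∑ t ∈ box k N2, e ((R * h) * t)) * ∑ al ∈ box k N1, ∑ be ∈ box k N1,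
            if IsCoprime (z (a + R * al) (b + R * be)) r then
              e (-h * T0 (a + R * al) (b + R * be)) else 0 := by
      simp only [hexp, ← Finset.mul_sum]
      congr 1
      symm
      simp only [Finset.mul_sum, Finset.sum_mul]
      rw [Finset.sum_comm]
      refine Finset.sum_congr rfl fun al _ => ?_
      rw [Finset.sum_comm]
      refine Finset.sum_congr rfl fun be _ => ?_
      rw [Finset.sum_comm]
      refine Finset.sum_congr rfl fun t _ => Finset.sum_congr rfl fun h _ => ?_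
      rw [← hadd]; congr 2; ring
    rw [h1, norm_mul, Complex.norm_real, Real.norm_of_nonneg (by positivity)]
    refine mul_le_mul_of_nonneg_left ?_ (by positivity)
    refine (norm_sum_le _ _).trans ?_
    have h2 : ∀ h ∈ (box k r.natDegree).erase 0,
        ‖e (T * h) * (∑ t ∈ box k N2, e ((R * h) * t)) * ∑ al ∈ box k N1, ∑ be ∈ box k N1,
            if IsCoprime (z (a + R * al) (b + R * be)) r then
              e (-h * T0 (a + R * al) (b + R * be)) else 0‖ ≤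
        if ((R * h) %ₘ r).degree < (K3 : ℕ) then qq k ^ N2 * B else 0 := by
      intro h hh
      rw [Finset.mem_erase] at hh
      rw [he2 N2 hle, norm_mul, norm_mul, hnorm, one_mul]
      by_cases hd : ((R * h) %ₘ r).degree < (r.natDegree - N2 : ℕ)
      · have hd' : ((R * h) %ₘ r).degree < (K3 : ℕ) :=
          hd.trans_le (by exact_mod_cast (by omega : r.natDegree - N2 ≤ K3))
        rw [if_pos hd, if_pos hd', Complex.norm_real, Real.norm_of_nonneg (by positivity)]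
        refine mul_le_mul_of_nonneg_left ?_ (by positivity)
        have hl0 : (R * h) %ₘ r ≠ 0 := by
          intro h0
          rw [modByMonic_eq_zero_iff_dvd hr] at h0
          have hd2 : r ∣ h := hRr.symm.dvd_of_dvd_mul_left h0
          have hlt := mem_box.1 hh.2
          rw [← degree_eq_natDegree hr.ne_zero] at hlt
          exact hh.1 (eq_zero_of_dvd_of_degree_lt hd2 hlt)
        refine hB a b (-h) (-((R * h) %ₘ r)) (neg_ne_zero.2 hl0) ?_ ?_
        · rw [natDegree_neg]; exact (natDegree_lt_iff_degree_lt hl0).2 hd'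
        · have e1 := modByMonic_add_div (R * h) r
          exact ⟨-((R * h) /ₘ r), by linear_combination e1⟩
      · rw [if_neg hd, norm_zero, zero_mul]
        split_ifs
        · positivity
        · exact le_rfl
    refine (Finset.sum_le_sum h2).trans ?_
    refine (Finset.sum_le_sum_of_subset_of_nonneg (Finset.erase_subset _ _) ?_).trans ?_
    · intro h _ _; split_ifs
      · positivity
      · exact le_rfl
    · rw [← Finset.sum_filter, Finset.sum_const, nsmul_eq_mul]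
      exact mul_le_mul_of_nonneg_right (card_dual hr hRr K3) (by positivity)
  have hav := avg3 hN1 hN2 (fun a b T => ((chi a b T * F a b T : ℝ) : ℂ))
  have hS : (∑ a ∈ box k m0, ∑ b ∈ box k m0, ∑ T ∈ box k nT,
      if IsCoprime (z a b) r then
        chi a b T * ((if r ∣ z a b * T - c a b then 1 else 0) - 1 / nrm r) else 0) =
      ∑ a ∈ box k m0, ∑ b ∈ box k m0, ∑ T ∈ box k nT, chi a b T * F a b T := by
    refine Finset.sum_congr rfl fun a _ => Finset.sum_congr rfl fun b _ =>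
      Finset.sum_congr rfl fun T _ => ?_
    simp only [hF]; split_ifs <;> simp
  rw [hS]
  set S := ∑ a ∈ box k m0, ∑ b ∈ box k m0, ∑ T ∈ box k nT, chi a b T * F a b T with hSd
  have hSc : (∑ a ∈ box k m0, ∑ b ∈ box k m0, ∑ T ∈ box k nT,
      ((chi a b T * F a b T : ℝ) : ℂ)) = (S : ℂ) := by rw [hSd]; push_cast; rfl
  rw [hSc] at hav
  have hbd : qq k ^ (2 * N1 + N2) * |S| ≤
      qq k ^ (2 * m0 + nT) * (1 / nrm r * (qq k ^ K3 * (qq k ^ N2 * B))) := by
    have h1 : qq k ^ (2 * N1 + N2) * |S| = ‖((qq k ^ (2 * N1 + N2) : ℝ) : ℂ) * (S : ℂ)‖ := by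
      rw [norm_mul, Complex.norm_real, Complex.norm_real, Real.norm_of_nonneg (by positivity),
        Real.norm_eq_abs]
    rw [h1, hav]
    have h2 : ∀ a ∈ box k m0, ∀ b ∈ box k m0, ∀ T ∈ box k nT,
        ‖∑ al ∈ box k N1, ∑ be ∈ box k N1, ∑ t ∈ box k N2,
          ((chi (a + R * al) (b + R * be) (T + R * t) *
            F (a + R * al) (b + R * be) (T + R * t) : ℝ) : ℂ)‖ ≤
          1 / nrm r * (qq k ^ K3 * (qq k ^ N2 * B)) := by
      intro a ha b hb T hT
      rw [Finset.sum_congr rfl fun al hal => Finset.sum_congr rfl fun be hbe =>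
        Finset.sum_congr rfl fun t ht => by
          rw [hinv a ha b hb T hT al hal be hbe t ht, Complex.ofReal_mul]]
      simp only [← Finset.mul_sum]
      rw [norm_mul, Complex.norm_real, Real.norm_eq_abs]
      exact (mul_le_mul (hchi a b T) (hsh a b T) (norm_nonneg _) zero_le_one).trans (by rw [one_mul])
    refine (norm_sum_le_of_le _ fun a ha => norm_sum_le_of_le _ fun b hb =>
      norm_sum_le_of_le _ fun T hT => h2 a ha b hb T hT).trans ?_
    simp only [Finset.sum_const, nsmul_eq_mul, card_box]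
    apply le_of_eq; ring
  have hp : 0 < qq k ^ (2 * N1 + N2) := by positivity
  refine le_of_mul_le_mul_left (hbd.trans (le_of_eq ?_)) hp
  field_simp
  ring

end CL3.Eq9

end
end

-- part H86M.Rep56
section

/-! h86m: reduced representation of a pair with nonzero Wronskian in characteristic 3
(block REP). -/

set_option autoImplicit false
set_option linter.unusedSectionVars false
open Polynomial Finset
open scoped Classical

noncomputable section
namespace CL3.Rep56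

variable {k : Type*} [Field k] [Fintype k] [CharP k 3]

theorem three_eq : (3 : k[X]) = 0 := by
  exact_mod_cast CharP.cast_eq_zero k[X] 3

theorem cube_add (a b : k[X]) : (a + b) ^ 3 = a ^ 3 + b ^ 3 := by
  linear_combination (a ^ 2 * b + a * b ^ 2) * (three_eq (k := k))

theorem der_cube (a : k[X]) : derivative (a ^ 3) = 0 := by
  rw [derivative_pow]
  have : (C ((3 : ℕ) : k) : k[X]) = 0 := by rw [CharP.cast_eq_zero k 3, C_0]
  rw [this, zero_mul, zero_mul]

theorem der_cube_mul (a w : k[X]) : derivative (a ^ 3 * w) = a ^ 3 * derivative w := by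
  rw [derivative_mul, der_cube, zero_mul, zero_add]

theorem cube_of_der {w : k[X]} (h : derivative w = 0) : ∃ s : k[X], w = s ^ 3 := by
  have : Fact (Nat.Prime 3) := ⟨by norm_num⟩
  refine ⟨(contract 3 w).map (frobeniusEquiv k 3).symm.toRingHom, ?_⟩
  rw [← map_frobenius_expand 3, map_expand, Polynomial.map_map]
  have : (frobenius k 3).comp (frobeniusEquiv k 3).symm.toRingHom = RingHom.id k := by
    ext a
    exact frobenius_apply_frobeniusEquiv_symm k 3 a
  rw [this, Polynomial.map_id, expand_contract 3 h (by norm_num)]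

theorem der3 (w : k[X]) : derivative (derivative (derivative w)) = 0 := by
  ext j
  simp only [coeff_derivative, coeff_zero]
  have h3 : (3 : k) = 0 := by exact_mod_cast CharP.cast_eq_zero k 3
  obtain ⟨t, ht | ht | ht⟩ : ∃ t : ℕ, j = 3 * t ∨ j = 3 * t + 1 ∨ j = 3 * t + 2 := ⟨j / 3, by omega⟩
  · have : ((j + 1 + 1 : ℕ) : k) + 1 = 0 := by
      rw [ht]; push_cast; linear_combination ((t : k) + 1) * h3
    rw [this]; simp
  · have : ((j + 1 : ℕ) : k) + 1 = 0 := by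
      rw [ht]; push_cast; linear_combination ((t : k) + 1) * h3
    rw [this]; simp
  · have : (j : k) + 1 = 0 := by
      rw [ht]; push_cast; linear_combination ((t : k) + 1) * h3
    rw [this]; simp

theorem decomp (w : k[X]) : ∃ a0 a1 a2 : k[X], w = a0 ^ 3 + X * a1 ^ 3 + X ^ 2 * a2 ^ 3 := by
  have h3 := three_eq (k := k)
  obtain ⟨a2, h2⟩ := cube_of_der (w := -derivative (derivative w)) (by rw [map_neg, der3, neg_zero])
  obtain ⟨a1, h1⟩ := cube_of_der (w := derivative w + a2 ^ 3 * X) (by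
    rw [map_add, der_cube_mul, derivative_X, ← h2]; ring)
  obtain ⟨a0, h0⟩ := cube_of_der (w := w - a1 ^ 3 * X - a2 ^ 3 * (X * X)) (by
    rw [map_sub, map_sub, der_cube_mul, der_cube_mul, derivative_mul, derivative_X, ← h1]
    linear_combination (-(a2 ^ 3 * X)) * h3)
  exact ⟨a0, a1, a2, by rw [← h0]; ring⟩

theorem der_phi (a0 a1 a2 : k[X]) :
    derivative (a0 ^ 3 + X * a1 ^ 3 + X ^ 2 * a2 ^ 3) = a1 ^ 3 - X * a2 ^ 3 := by
  have e : a0 ^ 3 + X * a1 ^ 3 + X ^ 2 * a2 ^ 3 = a0 ^ 3 + a1 ^ 3 * X + a2 ^ 3 * (X * X) := by ring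
  rw [e, map_add, map_add, der_cube, der_cube_mul, der_cube_mul, derivative_mul, derivative_X]
  linear_combination (a2 ^ 3 * X) * (three_eq (k := k))

/-- a cube divides `Phi c` only if its root divides the coordinates -/
theorem dvd_coords {p c0 c1 c2 : k[X]} (hp : Prime p)
    (h : p ^ 3 ∣ c0 ^ 3 + X * c1 ^ 3 + X ^ 2 * c2 ^ 3) : p ∣ c0 ∧ p ∣ c1 ∧ p ∣ c2 := by
  obtain ⟨u, hu⟩ := h
  have h1 : c1 ^ 3 - X * c2 ^ 3 = p ^ 3 * derivative u := by
    rw [← der_phi c0, hu, der_cube_mul]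
  have h2 : -c2 ^ 3 = p ^ 3 * derivative (derivative u) := by
    rw [← der_cube_mul, ← h1, map_sub, der_cube, mul_comm X, der_cube_mul, derivative_X]; ring
  have d2 : p ∣ c2 ^ 3 := ⟨-(p ^ 2 * derivative (derivative u)), by linear_combination -h2⟩
  have d1 : p ∣ c1 ^ 3 := by
    have : c1 ^ 3 = p * (p ^ 2 * derivative u) + X * c2 ^ 3 := by linear_combination h1
    rw [this]; exact dvd_add (dvd_mul_right _ _) (d2.mul_left _)
  have d0 : p ∣ c0 ^ 3 := by
    have : c0 ^ 3 = p * (p ^ 2 * u) - X * c1 ^ 3 - X ^ 2 * c2 ^ 3 := by linear_combination hu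
    rw [this]; exact dvd_sub (dvd_sub (dvd_mul_right _ _) (d1.mul_left _)) (d2.mul_left _)
  exact ⟨hp.dvd_of_dvd_pow d0, hp.dvd_of_dvd_pow d1, hp.dvd_of_dvd_pow d2⟩

theorem cube_dvd_phi {p c0 c1 c2 : k[X]} (h0 : p ∣ c0) (h1 : p ∣ c1) (h2 : p ∣ c2) :
    p ^ 3 ∣ c0 ^ 3 + X * c1 ^ 3 + X ^ 2 * c2 ^ 3 :=
  dvd_add (dvd_add (pow_dvd_pow_of_dvd h0 3) ((pow_dvd_pow_of_dvd h1 3).mul_left _))
    ((pow_dvd_pow_of_dvd h2 3).mul_left _)

/-- the Wronskian in coordinates -/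
theorem wr_phi (a0 a1 a2 b0 b1 b2 : k[X]) :
    (a0 ^ 3 + X * a1 ^ 3 + X ^ 2 * a2 ^ 3) * derivative (b0 ^ 3 + X * b1 ^ 3 + X ^ 2 * b2 ^ 3) -
      derivative (a0 ^ 3 + X * a1 ^ 3 + X ^ 2 * a2 ^ 3) * (b0 ^ 3 + X * b1 ^ 3 + X ^ 2 * b2 ^ 3) =
    (a0 * b1 - a1 * b0) ^ 3 + X * (a2 * b0 - a0 * b2) ^ 3 + X ^ 2 * (a1 * b2 - a2 * b1) ^ 3 := by
  rw [der_phi, der_phi, sub_eq_add_neg (a0 * b1), sub_eq_add_neg (a2 * b0),
    sub_eq_add_neg (a1 * b2), cube_add, cube_add, cube_add]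
  linear_combination (X ^ 2 * (a2 ^ 3 * b1 ^ 3 - a1 ^ 3 * b2 ^ 3)) * (three_eq (k := k))

theorem wr_comb (M11 M12 M21 M22 Z1 Z2 : k[X]) :
    (M11 ^ 3 * Z1 + M12 ^ 3 * Z2) * derivative (M21 ^ 3 * Z1 + M22 ^ 3 * Z2) -
      derivative (M11 ^ 3 * Z1 + M12 ^ 3 * Z2) * (M21 ^ 3 * Z1 + M22 ^ 3 * Z2) =
    (M11 * M22 - M12 * M21) ^ 3 * (Z1 * derivative Z2 - derivative Z1 * Z2) := by
  rw [map_add, map_add, der_cube_mul, der_cube_mul, der_cube_mul, der_cube_mul,
    sub_eq_add_neg (M11 * M22), cube_add]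
  ring

/-- a cube in the Wronskian gives a divisible combination -/
theorem comb_of_cube {p Z1 Z2 : k[X]} (hp : Irreducible p)
    (h : p ^ 3 ∣ Z1 * derivative Z2 - derivative Z1 * Z2) :
    p ^ 3 ∣ Z2 ∨ ∃ t : k[X], t.natDegree < p.natDegree ∧ p ^ 3 ∣ Z1 + t ^ 3 * Z2 := by
  obtain ⟨a0, a1, a2, rfl⟩ := decomp Z1
  obtain ⟨b0, b1, b2, rfl⟩ := decomp Z2
  have hpp := hp.prime
  rw [wr_phi] at h
  obtain ⟨m0, m1, m2⟩ := dvd_coords hpp h
  by_cases hb : p ∣ b0 ∧ p ∣ b1 ∧ p ∣ b2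
  · exact Or.inl (cube_dvd_phi hb.1 hb.2.1 hb.2.2)
  right
  have key : ∀ a b : k[X], ¬ p ∣ b → p ∣ a0 * b - a * b0 → p ∣ a1 * b - a * b1 →
      p ∣ a2 * b - a * b2 → ∃ t : k[X], p ∣ a0 + t * b0 ∧ p ∣ a1 + t * b1 ∧ p ∣ a2 + t * b2 := by
    intro a b hb e0 e1 e2
    obtain ⟨u, v, huv⟩ := (hp.coprime_iff_not_dvd.2 hb)
    have st : ∀ c d : k[X], p ∣ c * b - a * d → p ∣ c + -(a * v) * d := by
      intro c d e
      have : c + -(a * v) * d = p * (u * c) + v * (c * b - a * d) := by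
        linear_combination (-c) * huv
      rw [this]; exact dvd_add (dvd_mul_right _ _) (e.mul_left _)
    exact ⟨-(a * v), st _ _ e0, st _ _ e1, st _ _ e2⟩
  have neg : ∀ {x y : k[X]}, p ∣ x → y = -x → p ∣ y := fun h e => e ▸ (dvd_neg.2 h)
  obtain ⟨t, t0, t1, t2⟩ : ∃ t : k[X], p ∣ a0 + t * b0 ∧ p ∣ a1 + t * b1 ∧ p ∣ a2 + t * b2 := by
    by_cases c0 : p ∣ b0
    · by_cases c1 : p ∣ b1
      · exact key a2 b2 (fun c2 => hb ⟨c0, c1, c2⟩) (neg m1 (by ring)) m2 (by simp)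
      · exact key a1 b1 c1 m0 (by simp) (neg m2 (by ring))
    · exact key a0 b0 c0 (by simp) (neg m0 (by ring)) m1
  have hd : p ∣ t % p - t := by
    have := EuclideanDomain.div_add_mod t p
    exact ⟨-(t / p), by linear_combination this⟩
  have st : ∀ c d : k[X], p ∣ c + t * d → p ∣ c + t % p * d := by
    intro c d e
    have : c + t % p * d = c + t * d + (t % p - t) * d := by ring
    rw [this]; exact dvd_add e (hd.mul_right _)
  refine ⟨t % p, natDegree_mod_lt t hp.natDegree_pos.ne', ?_⟩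
  have := cube_dvd_phi (st _ _ t0) (st _ _ t1) (st _ _ t2)
  rw [cube_add, cube_add, cube_add] at this
  convert this using 1
  ring

/-- `g` lies in the span of `Z` over cubes -/
def Sp (g1 g2 Z1 Z2 : k[X]) : Prop :=
  ∃ M11 M12 M21 M22 : k[X], g1 = M11 ^ 3 * Z1 + M12 ^ 3 * Z2 ∧ g2 = M21 ^ 3 * Z1 + M22 ^ 3 * Z2

omit [Fintype k] [CharP k 3] in
theorem Sp.swap {g1 g2 Z1 Z2 : k[X]} (h : Sp g1 g2 Z1 Z2) : Sp g1 g2 Z2 Z1 := by
  obtain ⟨a, b, c, d, h1, h2⟩ := h
  exact ⟨b, a, d, c, by rw [h1, add_comm], by rw [h2, add_comm]⟩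

theorem Sp.trans {g1 g2 Z1 Z2 Y1 Y2 : k[X]} (h : Sp g1 g2 Z1 Z2) (h' : Sp Z1 Z2 Y1 Y2) :
    Sp g1 g2 Y1 Y2 := by
  obtain ⟨a, b, c, d, h1, h2⟩ := h
  obtain ⟨a', b', c', d', h1', h2'⟩ := h'
  refine ⟨a * a' + b * c', a * b' + b * d', c * a' + d * c', c * b' + d * d', ?_, ?_⟩
  · rw [h1, h1', h2', cube_add, cube_add]; ring
  · rw [h2, h1', h2', cube_add, cube_add]; ring

theorem Sp.ne {g1 g2 Z1 Z2 : k[X]} (h : Sp g1 g2 Z1 Z2)
    (hW : g1 * derivative g2 - derivative g1 * g2 ≠ 0) : Z1 ≠ 0 ∧ Z2 ≠ 0 := by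
  obtain ⟨a, b, c, d, rfl, rfl⟩ := h
  rw [wr_comb] at hW
  constructor <;> rintro rfl <;> simp at hW

theorem step {g1 g2 Z1 Z2 : k[X]} (h : Sp g1 g2 Z1 Z2)
    (hW : g1 * derivative g2 - derivative g1 * g2 ≠ 0) (hle : Z2.natDegree ≤ Z1.natDegree)
    (hb : Z1.natDegree % 3 = Z2.natDegree % 3 ∨
      ∃ p : k[X], Irreducible p ∧ p ^ 3 ∣ Z1 * derivative Z2 - derivative Z1 * Z2) :
    ∃ Y1 Y2 : k[X], Sp g1 g2 Y1 Y2 ∧
      Y1.natDegree + Y2.natDegree < Z1.natDegree + Z2.natDegree := by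
  obtain ⟨n1, n2⟩ := h.ne hW
  rcases hb with hb | ⟨p, hp, hd⟩
  · have : Fact (Nat.Prime 3) := ⟨by norm_num⟩
    obtain ⟨e, he⟩ : ∃ e, Z1.natDegree = 3 * e + Z2.natDegree :=
      ⟨(Z1.natDegree - Z2.natDegree) / 3, by omega⟩
    obtain ⟨c, hc⟩ := surjective_frobenius k 3 (Z1.leadingCoeff / Z2.leadingCoeff)
    rw [frobenius_def] at hc
    have l1 : Z1.leadingCoeff ≠ 0 := leadingCoeff_ne_zero.2 n1
    have l2 : Z2.leadingCoeff ≠ 0 := leadingCoeff_ne_zero.2 n2
    have c0 : c ≠ 0 := by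
      rintro rfl
      exact div_ne_zero l1 l2 (by rw [← hc]; simp)
    have hs : Sp g1 g2 (Z1 - (C c * X ^ e) ^ 3 * Z2) Z2 :=
      h.trans ⟨1, C c * X ^ e, 0, 1, by ring, by ring⟩
    refine ⟨_, _, hs, Nat.add_lt_add_right (natDegree_lt_natDegree (hs.ne hW).1 ?_) _⟩
    have t0 : (C c * X ^ e : k[X]) ≠ 0 := mul_ne_zero (C_ne_zero.2 c0) (pow_ne_zero _ X_ne_zero)
    refine degree_sub_lt_left ?_ n1 ?_
    · rw [degree_eq_natDegree n1, degree_eq_natDegree (mul_ne_zero (pow_ne_zero _ t0) n2),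
        natDegree_mul (pow_ne_zero _ t0) n2, natDegree_pow, natDegree_C_mul_X_pow _ _ c0, he]
    · rw [leadingCoeff_mul, leadingCoeff_pow, leadingCoeff_C_mul_X_pow, hc]
      field_simp
  · have p0 : p ^ 3 ≠ 0 := pow_ne_zero _ hp.ne_zero
    have pd := hp.natDegree_pos
    rcases comb_of_cube hp hd with ⟨Y, hY⟩ | ⟨t, ht, Y, hY⟩
    · have hs : Sp g1 g2 Z1 Y := h.trans ⟨1, 0, 0, p, by ring, by rw [hY]; ring⟩
      refine ⟨_, _, hs, ?_⟩
      have := congrArg natDegree hY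
      rw [natDegree_mul p0 (hs.ne hW).2, natDegree_pow] at this
      omega
    · have hs : Sp g1 g2 Y Z2 := h.trans ⟨p, -t, 0, 1, by linear_combination hY, by ring⟩
      refine ⟨_, _, hs, ?_⟩
      have e1 := congrArg natDegree hY
      rw [natDegree_mul p0 (hs.ne hW).1, natDegree_pow] at e1
      have e2 := natDegree_add_le Z1 (t ^ 3 * Z2)
      have e3 : (t ^ 3 * Z2).natDegree ≤ 3 * t.natDegree + Z2.natDegree :=
        natDegree_mul_le.trans (by rw [natDegree_pow])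
      omega

theorem exists_red {g1 g2 : k[X]} (hW : g1 * derivative g2 - derivative g1 * g2 ≠ 0) :
    ∃ Z1 Z2 : k[X], Sp g1 g2 Z1 Z2 ∧ Z1.natDegree % 3 ≠ Z2.natDegree % 3 ∧
      ∀ p : k[X], Irreducible p → ¬ p ^ 3 ∣ Z1 * derivative Z2 - derivative Z1 * Z2 := by
  have ex : ∃ N, ∃ Z1 Z2 : k[X], Sp g1 g2 Z1 Z2 ∧ Z1.natDegree + Z2.natDegree = N :=
    ⟨_, g1, g2, ⟨1, 0, 0, 1, by ring, by ring⟩, rfl⟩
  obtain ⟨Z1, Z2, hs, hN⟩ := Nat.find_spec ex
  have mn : ∀ Y1 Y2 : k[X], Sp g1 g2 Y1 Y2 →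
      ¬ Y1.natDegree + Y2.natDegree < Z1.natDegree + Z2.natDegree := fun Y1 Y2 h hl =>
    Nat.find_min ex (hN ▸ hl) ⟨Y1, Y2, h, rfl⟩
  refine ⟨Z1, Z2, hs, ?_⟩
  by_contra hc
  have hb : Z1.natDegree % 3 = Z2.natDegree % 3 ∨
      ∃ p : k[X], Irreducible p ∧ p ^ 3 ∣ Z1 * derivative Z2 - derivative Z1 * Z2 := by
    by_contra hn
    exact hc ⟨fun e => hn (Or.inl e), fun p hp hd => hn (Or.inr ⟨p, hp, hd⟩)⟩
  rcases le_total Z2.natDegree Z1.natDegree with hle | hle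
  · obtain ⟨Y1, Y2, h, hl⟩ := step hs hW hle hb
    exact mn _ _ h hl
  · obtain ⟨Y1, Y2, h, hl⟩ := step hs.swap hW hle (hb.imp Eq.symm fun ⟨p, hp, hd⟩ =>
      ⟨p, hp, by rw [← dvd_neg]; convert hd using 1; ring⟩)
    exact mn _ _ h (by omega)

omit [Fintype k] [CharP k 3] in
theorem deg_comb {s t Z1 Z2 : k[X]} (n1 : Z1 ≠ 0) (n2 : Z2 ≠ 0)
    (h : Z1.natDegree % 3 ≠ Z2.natDegree % 3) (hs : s ≠ 0) :
    3 * s.natDegree + Z1.natDegree ≤ (s ^ 3 * Z1 + t ^ 3 * Z2).natDegree := by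
  have e1 : (s ^ 3 * Z1).natDegree = 3 * s.natDegree + Z1.natDegree := by
    rw [natDegree_mul (pow_ne_zero _ hs) n1, natDegree_pow]
  by_cases ht : t = 0
  · simp [ht, e1]
  have e2 : (t ^ 3 * Z2).natDegree = 3 * t.natDegree + Z2.natDegree := by
    rw [natDegree_mul (pow_ne_zero _ ht) n2, natDegree_pow]
  rcases lt_or_gt_of_ne (show (s ^ 3 * Z1).natDegree ≠ (t ^ 3 * Z2).natDegree by omega) with c | c
  · rw [natDegree_add_eq_right_of_natDegree_lt c]; omega
  · rw [natDegree_add_eq_left_of_natDegree_lt c]; omega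

omit [Fintype k] in
theorem deg_wr {Z1 Z2 : k[X]} (n1 : Z1 ≠ 0) (n2 : Z2 ≠ 0)
    (h : Z1.natDegree % 3 ≠ Z2.natDegree % 3) :
    Z1.natDegree + Z2.natDegree ≤ (Z1 * derivative Z2 - derivative Z1 * Z2).natDegree + 1 := by
  have cx : ∀ (Z : k[X]) (j : ℕ), (X * derivative Z).coeff j = Z.coeff j * j := by
    intro Z j
    cases j with
    | zero => simp
    | succ j => rw [coeff_X_mul, coeff_derivative]; push_cast; ring
  have dx : ∀ Z : k[X], (X * derivative Z).natDegree ≤ Z.natDegree := fun Z =>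
    natDegree_le_iff_coeff_eq_zero.2 fun j hj => by
      rw [cx, coeff_eq_zero_of_natDegree_lt hj, zero_mul]
  have e : X * (Z1 * derivative Z2 - derivative Z1 * Z2) =
      Z1 * (X * derivative Z2) - X * derivative Z1 * Z2 := by ring
  have hc : (X * (Z1 * derivative Z2 - derivative Z1 * Z2)).coeff (Z1.natDegree + Z2.natDegree)
      ≠ 0 := by
    rw [e, coeff_sub, coeff_mul_add_eq_of_natDegree_le le_rfl (dx Z2),
      coeff_mul_add_eq_of_natDegree_le (dx Z1) le_rfl, cx, cx]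
    intro h0
    have h1 : Z1.leadingCoeff * Z2.leadingCoeff * ((Z2.natDegree : k) - Z1.natDegree) = 0 := by
      unfold leadingCoeff
      linear_combination h0
    rcases mul_eq_zero.1 h1 with h2 | h2
    · exact mul_ne_zero (leadingCoeff_ne_zero.2 n1) (leadingCoeff_ne_zero.2 n2) h2
    · exact h ((CharP.natCast_eq_natCast k 3).1 (sub_eq_zero.1 h2)).symm
  refine (le_natDegree_of_ne_zero hc).trans (natDegree_mul_le.trans ?_)
  rw [natDegree_X]; omega

/-- the common kernel is generated by the primitive Wronskian -/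
theorem ker_eq {g1 g2 φ D W : k[X]} (hD : D ≠ 0) (hW : W ≠ 0)
    (e : g1 * derivative g2 - derivative g1 * g2 = D ^ 3 * W)
    (hf : ∀ p : k[X], Irreducible p → ¬ p ^ 3 ∣ W)
    (h1 : derivative^[2] (g1 * φ) = 0) (h2 : derivative^[2] (g2 * φ) = 0) :
    ∃ t : k[X], φ = t ^ 3 * W := by
  have h3 := three_eq (k := k)
  simp only [Function.iterate_succ, Function.iterate_zero, Function.comp_apply, id_eq,
    derivative_mul, map_add] at h1 h2
  have e' := congrArg derivative e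
  rw [der_cube_mul, map_sub, derivative_mul, derivative_mul] at e'
  have a1 : D ^ 3 * (W * derivative φ - derivative W * φ) = 0 := by
    linear_combination g2 * h1 - g1 * h2 - derivative φ * e + φ * e' +
      ((g1 * derivative g2 - derivative g1 * g2) * derivative φ) * h3
  have a2 := (mul_eq_zero.1 a1).resolve_left (pow_ne_zero _ hD)
  obtain ⟨s, hs⟩ := cube_of_der (w := φ * (W * W)) (by
    rw [derivative_mul, derivative_mul]
    linear_combination W * a2 + (φ * W * derivative W) * h3)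
  obtain ⟨a, b, ha, hb, hab⟩ := extract_gcd s W
  have g0 : gcd s W ≠ 0 := fun h => hW (by rw [hb, h, zero_mul])
  have b0 : b ≠ 0 := fun h => hW (by rw [hb, h, mul_zero])
  have k1 : φ * b ^ 3 = a ^ 3 * W := by
    refine mul_left_cancel₀ (pow_ne_zero 3 g0) ?_
    have x1 : W ^ 3 = gcd s W ^ 3 * b ^ 3 := by rw [← mul_pow, ← hb]
    have x2 : s ^ 3 = gcd s W ^ 3 * a ^ 3 := by rw [← mul_pow, ← ha]
    linear_combination W * hs - φ * x1 + W * x2
  have cop : IsCoprime (b ^ 3) (a ^ 3) := ((gcd_isUnit_iff a b).1 hab).symm.pow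
  have k2 : b ^ 3 ∣ W := cop.dvd_of_dvd_mul_left ⟨φ, by rw [← k1, mul_comm]⟩
  have ub : IsUnit b := by
    by_contra hu
    obtain ⟨p, hp, hd⟩ := WfDvdMonoid.exists_irreducible_factor hu b0
    exact hf p hp ((pow_dvd_pow_of_dvd hd 3).trans k2)
  obtain ⟨c, hc⟩ := ub.exists_right_inv
  refine ⟨a * c, ?_⟩
  have x3 : b ^ 3 * c ^ 3 = 1 := by rw [← mul_pow, hc, one_pow]
  linear_combination c ^ 3 * k1 - φ * x3

open CL5 in
/-- block REP -/
theorem rep {m : ℕ} {g1 g2 : k[X]} (h1 : g1 ∈ box k m) (h2 : g2 ∈ box k m)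
    (hW : g1 * derivative g2 - derivative g1 * g2 ≠ 0) :
    ∃ (Z1 Z2 M11 M12 M21 M22 : k[X]) (i1 i2 : ℕ),
      g1 = M11 ^ 3 * Z1 + M12 ^ 3 * Z2 ∧ g2 = M21 ^ 3 * Z1 + M22 ^ 3 * Z2 ∧
      M11 * M22 - M12 * M21 ≠ 0 ∧ Z1 ≠ 0 ∧ Z2 ≠ 0 ∧
      Z1 ∈ box k (m - 3 * i1) ∧ Z2 ∈ box k (m - 3 * i2) ∧
      M11 ∈ box k (i1 + 1) ∧ M21 ∈ box k (i1 + 1) ∧ M12 ∈ box k (i2 + 1) ∧ M22 ∈ box k (i2 + 1) ∧
      3 * i1 < m ∧ 3 * i2 < m ∧ ∀ n : ℕ, n ≤ 2 * m + 1 →
        (((box k n).filter (fun φ => derivative^[2] (g1 * φ) = 0 ∧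
          derivative^[2] (g2 * φ) = 0)).card : ℝ) ≤ qq k ^ (i1 + i2 + 3) := by
  obtain ⟨Z1, Z2, hs, hy, hf⟩ := exists_red hW
  obtain ⟨n1, n2⟩ := hs.ne hW
  obtain ⟨M11, M12, M21, M22, e1, e2⟩ := hs
  have ew : g1 * derivative g2 - derivative g1 * g2 =
      (M11 * M22 - M12 * M21) ^ 3 * (Z1 * derivative Z2 - derivative Z1 * Z2) := by
    rw [e1, e2, wr_comb]
  have hD : M11 * M22 - M12 * M21 ≠ 0 := fun h => hW (by rw [ew, h]; simp)
  have hWZ : Z1 * derivative Z2 - derivative Z1 * Z2 ≠ 0 := fun h => hW (by rw [ew, h]; simp)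
  have g10 : g1 ≠ 0 := by rintro rfl; simp at hW
  have g20 : g2 ≠ 0 := by rintro rfl; simp at hW
  have d1 : g1.natDegree < m := (natDegree_lt_iff_degree_lt g10).2 (mem_box.1 h1)
  have d2 : g2.natDegree < m := (natDegree_lt_iff_degree_lt g20).2 (mem_box.1 h2)
  have b11 : M11 ≠ 0 → 3 * M11.natDegree + Z1.natDegree < m := fun h =>
    (deg_comb (t := M12) n1 n2 hy h).trans_lt (e1 ▸ d1)
  have b21 : M21 ≠ 0 → 3 * M21.natDegree + Z1.natDegree < m := fun h =>
    (deg_comb (t := M22) n1 n2 hy h).trans_lt (e2 ▸ d2)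
  have b12 : M12 ≠ 0 → 3 * M12.natDegree + Z2.natDegree < m := fun h =>
    (deg_comb (t := M11) n2 n1 hy.symm h).trans_lt (by rw [add_comm, ← e1]; exact d1)
  have b22 : M22 ≠ 0 → 3 * M22.natDegree + Z2.natDegree < m := fun h =>
    (deg_comb (t := M21) n2 n1 hy.symm h).trans_lt (by rw [add_comm, ← e2]; exact d2)
  have y1 : Z1.natDegree < m := by
    by_cases c : M11 = 0
    · have := b21 (fun c' => hD (by rw [c, c']; simp)); omega
    · have := b11 c; omega
  have y2 : Z2.natDegree < m := by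
    by_cases c : M12 = 0
    · have := b22 (fun c' => hD (by rw [c, c']; simp)); omega
    · have := b12 c; omega
  have bx : ∀ {a : k[X]} {N : ℕ}, (a ≠ 0 → a.natDegree < N) → a ∈ box k N := by
    intro a N h
    by_cases c : a = 0
    · rw [mem_box, c, degree_zero]; exact WithBot.bot_lt_coe _
    · exact mem_box.2 ((natDegree_lt_iff_degree_lt c).1 (h c))
  refine ⟨Z1, Z2, M11, M12, M21, M22, (m - 1 - Z1.natDegree) / 3, (m - 1 - Z2.natDegree) / 3,
    e1, e2, hD, n1, n2, bx fun _ => by omega, bx fun _ => by omega,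
    bx fun h => by have := b11 h; omega, bx fun h => by have := b21 h; omega,
    bx fun h => by have := b12 h; omega, bx fun h => by have := b22 h; omega,
    by omega, by omega, fun n hn => ?_⟩
  rw [← card_box]
  refine Nat.cast_le.2 (le_trans (card_le_card ?_) (card_image_le
    (f := fun t : k[X] => t ^ 3 * (Z1 * derivative Z2 - derivative Z1 * Z2))))
  intro φ hφ
  obtain ⟨hb, k1, k2⟩ := mem_filter.1 hφ
  obtain ⟨t, ht⟩ := ker_eq hD hWZ ew hf k1 k2
  refine mem_image.2 ⟨t, bx fun t0 => ?_, ht.symm⟩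
  have φ0 : φ ≠ 0 := ht ▸ mul_ne_zero (pow_ne_zero _ t0) hWZ
  have x1 : φ.natDegree < n := (natDegree_lt_iff_degree_lt φ0).2 (mem_box.1 hb)
  rw [ht, natDegree_mul (pow_ne_zero _ t0) hWZ, natDegree_pow] at x1
  have x2 := deg_wr n1 n2 hy
  omega

end CL3.Rep56

end
end
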