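import Pool.Agent.H92F.Ar2
import Pool.Agent.H92F.Box

-- part H86M.Den53
section

/-! h86m: densities of good determinants (block DENS). -/

set_option autoImplicit false
open Polynomial Finset UniqueFactorizationMonoid
open scoped Classical

noncomputable section
namespace CL3.Den

open CL5

variable {k : Type*} [Field k] [Fintype k]

theorem q_pos : 0 < qq k := by linarith [two_le_qq (k := k)]

theorem nrm_pos (a : k[X]) : 0 < nrm a := pow_pos q_pos _

theorem mem_Rg {h N : ℕ} {t : k[X]} :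
    t ∈ Rg k h N ↔ (t.Monic ∧ t.natDegree = N) ∧ ∀ p ∈ prs k h, ¬ p ∣ t := by
  unfold Rg
  rw [Finset.mem_filter, mem_mon]

theorem rough_rec {h N : ℕ} (hh : 1 ≤ h) (hN : 1 ≤ N) :
    ((Rg k h N).card : ℝ) ≤ ∑ M ∈ range N, qq k ^ (N - M) / h * ((Rg k h M).card : ℝ) := by
  have hsub : Rg k h N ⊆ (range N).biUnion fun M =>
      ((((mon k (N - M)).filter Irreducible).filter fun _ => h < N - M) ×ˢ Rg k h M).image
        fun z => z.1 * z.2 := by
    intro t ht
    obtain ⟨⟨hm, hd⟩, hr⟩ := mem_Rg.1 ht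
    have hnu : ¬ IsUnit t := fun hu => by
      have := Polynomial.natDegree_eq_zero_of_isUnit hu
      omega
    obtain ⟨p, hpm, hpi, s, hs⟩ := Polynomial.exists_monic_irreducible_factor t hnu
    have hsm : s.Monic := hpm.of_mul_monic_left (hs ▸ hm)
    have hdeg : p.natDegree + s.natDegree = N := by rw [← hd, hs, hpm.natDegree_mul hsm]
    have hp1 : h < p.natDegree := by
      by_contra hc
      exact hr p (mem_prs.2 ⟨hpm, hpi, not_lt.1 hc⟩) ⟨s, hs⟩
    refine Finset.mem_biUnion.2 ⟨s.natDegree, Finset.mem_range.2 (by omega), ?_⟩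
    refine Finset.mem_image.2 ⟨(p, s), Finset.mem_product.2 ⟨?_, ?_⟩, hs.symm⟩
    · exact Finset.mem_filter.2 ⟨Finset.mem_filter.2 ⟨mem_mon.2 ⟨hpm, by simp only; omega⟩, hpi⟩,
        by omega⟩
    · exact mem_Rg.2 ⟨⟨hsm, rfl⟩, fun u hu hd' => hr u hu (hs ▸ hd'.mul_left p)⟩
  have h1 := (Finset.card_le_card hsub).trans Finset.card_biUnion_le
  have h2 : ((Rg k h N).card : ℝ) ≤ ∑ M ∈ range N,
      (((((((mon k (N - M)).filter Irreducible).filter fun _ => h < N - M) ×ˢ Rg k h M).image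
        fun z : k[X] × k[X] => z.1 * z.2).card : ℕ) : ℝ) := by exact_mod_cast h1
  refine h2.trans (Finset.sum_le_sum fun M _ => ?_)
  have h3 : (((((mon k (N - M)).filter Irreducible).filter fun _ => h < N - M).card : ℕ) : ℝ) ≤
      qq k ^ (N - M) / h := by
    have hh' : (0 : ℝ) < h := by exact_mod_cast hh
    by_cases hc : h < N - M
    · rw [Finset.filter_true_of_mem fun _ _ => hc, le_div_iff₀ hh']
      have h4 := card_prs_deg (k := k) (N - M)
      have h5 : (h : ℝ) ≤ ((N - M : ℕ) : ℝ) := by exact_mod_cast hc.le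
      have h6 : (0 : ℝ) ≤ (((mon k (N - M)).filter Irreducible).card : ℝ) := Nat.cast_nonneg _
      nlinarith
    · rw [Finset.filter_false_of_mem fun _ _ => hc]
      have := q_pos (k := k)
      simp only [Finset.card_empty, Nat.cast_zero]
      positivity
  refine le_trans (Nat.cast_le.2 Finset.card_image_le) ?_
  rw [Finset.card_product, Nat.cast_mul]
  exact mul_le_mul_of_nonneg_right h3 (Nat.cast_nonneg _)

theorem rough_sum {h : ℕ} (hh : 1 ≤ h) (N : ℕ) :
    ∑ M ∈ range (N + 1), ((Rg k h M).card : ℝ) / qq k ^ M ≤ (1 + 1 / (h : ℝ)) ^ N := by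
  have hq := q_pos (k := k)
  have hh' : (0 : ℝ) < h := by exact_mod_cast hh
  induction N with
  | zero =>
    have h1 : ((Rg k h 0).card : ℝ) ≤ (mon k 0).card :=
      Nat.cast_le.2 (Finset.card_le_card (Finset.filter_subset _ _))
    rw [card_mon] at h1
    simpa using h1
  | succ N ih =>
    rw [Finset.sum_range_succ, pow_succ (1 + 1 / (h : ℝ))]
    have h1 := rough_rec (k := k) hh (Nat.le_add_left 1 N)
    have h2 : ((Rg k h (N + 1)).card : ℝ) / qq k ^ (N + 1) ≤
        (∑ M ∈ range (N + 1), ((Rg k h M).card : ℝ) / qq k ^ M) / h := by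
      rw [div_le_iff₀ (by positivity), Finset.sum_div, Finset.sum_mul]
      refine h1.trans (le_of_eq (Finset.sum_congr rfl fun M hM => ?_))
      have hM' : M ≤ N + 1 := (Finset.mem_range.1 hM).le
      rw [pow_sub₀ _ hq.ne' hM']
      field_simp
    have h3 : (∑ M ∈ range (N + 1), ((Rg k h M).card : ℝ) / qq k ^ M) / h ≤
        (1 + 1 / (h : ℝ)) ^ N / h := div_le_div_of_nonneg_right ih hh'.le
    have h4 : (1 + 1 / (h : ℝ)) ^ N * (1 + 1 / (h : ℝ)) =
        (1 + 1 / (h : ℝ)) ^ N + (1 + 1 / (h : ℝ)) ^ N / h := by ring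
    linarith

/-- rough polynomials are rare -/
theorem card_rough {h N D : ℕ} (hh : 1 ≤ h) (hN : 1 ≤ N) (hD : N ≤ D) :
    ((Rg k h N).card : ℝ) ≤ qq k ^ N * (Real.exp (D / h) / h) := by
  have hq := q_pos (k := k)
  have hh' : (0 : ℝ) < h := by exact_mod_cast hh
  obtain ⟨N, rfl⟩ : ∃ n, N = n + 1 := ⟨N - 1, by omega⟩
  have h1 := rough_rec (k := k) hh hN
  have h2 : ∑ M ∈ range (N + 1), qq k ^ (N + 1 - M) / h * ((Rg k h M).card : ℝ) =
      qq k ^ (N + 1) * ((∑ M ∈ range (N + 1), ((Rg k h M).card : ℝ) / qq k ^ M) / h) := by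
    rw [Finset.sum_div, Finset.mul_sum]
    refine Finset.sum_congr rfl fun M hM => ?_
    have hM' : M ≤ N + 1 := (Finset.mem_range.1 hM).le
    rw [pow_sub₀ _ hq.ne' hM']
    field_simp
  have h3 : (1 + 1 / (h : ℝ)) ^ N ≤ Real.exp (D / h) := by
    have h4 : 1 + 1 / (h : ℝ) ≤ Real.exp (1 / h) := by
      have := Real.add_one_le_exp (1 / (h : ℝ)); linarith
    refine (pow_le_pow_left₀ (by positivity) h4 N).trans ?_
    rw [← Real.exp_nat_mul]
    refine Real.exp_le_exp.2 ?_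
    rw [mul_one_div]
    exact div_le_div_of_nonneg_right (by exact_mod_cast (by omega : N ≤ D)) hh'.le
  rw [h2] at h1
  exact h1.trans (mul_le_mul_of_nonneg_left
    (div_le_div_of_nonneg_right ((rough_sum hh N).trans h3) hh'.le) (by positivity))

theorem geom_le (n : ℕ) : ∑ N ∈ range (n + 1), qq k ^ N ≤ 2 * qq k ^ n := by
  have h2 := two_le_qq (k := k)
  induction n with
  | zero => simp
  | succ n ih =>
    rw [Finset.sum_range_succ, pow_succ]
    have : 0 < qq k ^ n := by positivity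
    nlinarith

/-- a short factor times a rough factor -/
theorem card_E5 {h : ℕ} (hh : 1 ≤ h) (D J : ℕ) :
    (((box k (D + 1)).filter fun w => ∃ a t : k[X], w = a * t ∧ a ≠ 0 ∧ a.natDegree ≤ J ∧
      1 ≤ t.natDegree ∧ t ∈ Rg k h t.natDegree).card : ℝ) ≤
      qq k ^ (D + 1) * (2 * (J + 1) * (Real.exp (D / h) / h)) := by
  have hq := q_pos (k := k)
  have hh' : (0 : ℝ) < h := by exact_mod_cast hh
  have hsub : ((box k (D + 1)).filter fun w => ∃ a t : k[X], w = a * t ∧ a ≠ 0 ∧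
      a.natDegree ≤ J ∧ 1 ≤ t.natDegree ∧ t ∈ Rg k h t.natDegree) ⊆
      ((range (J + 1)).filter (· ≤ D)).biUnion fun i =>
        ((range (D - i + 1)).filter (1 ≤ ·)).biUnion fun N =>
          (box k (i + 1) ×ˢ Rg k h N).image fun z => z.1 * z.2 := by
    intro w hw
    obtain ⟨hw1, a, t, rfl, ha, hJ, h1, ht⟩ := Finset.mem_filter.1 hw
    have ht0 : t ≠ 0 := (mem_Rg.1 ht).1.1.ne_zero
    have hd : (a * t).natDegree < D + 1 :=
      (natDegree_lt_iff_degree_lt (mul_ne_zero ha ht0)).2 (mem_box.1 hw1)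
    rw [natDegree_mul ha ht0] at hd
    refine Finset.mem_biUnion.2 ⟨a.natDegree,
      Finset.mem_filter.2 ⟨Finset.mem_range.2 (by omega), by omega⟩, ?_⟩
    refine Finset.mem_biUnion.2 ⟨t.natDegree,
      Finset.mem_filter.2 ⟨Finset.mem_range.2 (by omega), h1⟩, ?_⟩
    exact Finset.mem_image.2 ⟨(a, t), Finset.mem_product.2
      ⟨mem_box.2 ((natDegree_lt_iff_degree_lt ha).1 (Nat.lt_succ_self _)), ht⟩, rfl⟩
  have h1 := (Finset.card_le_card hsub).trans Finset.card_biUnion_le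
  refine le_trans (Nat.cast_le.2 h1) ?_
  rw [Nat.cast_sum]
  have h2 : ∀ i ∈ (range (J + 1)).filter (· ≤ D),
      (((((range (D - i + 1)).filter (1 ≤ ·)).biUnion fun N =>
        (box k (i + 1) ×ˢ Rg k h N).image fun z : k[X] × k[X] => z.1 * z.2).card : ℕ) : ℝ) ≤
        qq k ^ (D + 1) * (2 * (Real.exp (D / h) / h)) := by
    intro i hi
    have hiD : i ≤ D := (Finset.mem_filter.1 hi).2
    refine le_trans (Nat.cast_le.2 Finset.card_biUnion_le) ?_
    rw [Nat.cast_sum]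
    have h3 : ∀ N ∈ (range (D - i + 1)).filter (1 ≤ ·),
        ((((box k (i + 1) ×ˢ Rg k h N).image fun z : k[X] × k[X] => z.1 * z.2).card : ℕ) : ℝ) ≤
          qq k ^ (i + 1) * (Real.exp (D / h) / h) * qq k ^ N := by
      intro N hN
      obtain ⟨hN1, hN2⟩ := Finset.mem_filter.1 hN
      have hN3 := Finset.mem_range.1 hN1
      refine le_trans (Nat.cast_le.2 Finset.card_image_le) ?_
      rw [Finset.card_product, Nat.cast_mul, card_box, mul_assoc, mul_comm _ (qq k ^ N)]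
      exact mul_le_mul_of_nonneg_left (card_rough hh hN2 (by omega)) (by positivity)
    refine (Finset.sum_le_sum h3).trans ?_
    refine (Finset.sum_le_sum_of_subset_of_nonneg (Finset.filter_subset _ _)
      fun _ _ _ => by positivity).trans ?_
    rw [← Finset.mul_sum]
    refine (mul_le_mul_of_nonneg_left (geom_le (D - i)) (by positivity)).trans (le_of_eq ?_)
    have : qq k ^ (D + 1) = qq k ^ (i + 1) * qq k ^ (D - i) := by
      rw [← pow_add]; congr 1; omega
    rw [this]; ring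
  refine (Finset.sum_le_card_nsmul _ _ _ h2).trans ?_
  rw [nsmul_eq_mul]
  have h4 : ((((range (J + 1)).filter (· ≤ D)).card : ℕ) : ℝ) ≤ J + 1 := by
    have := Finset.card_filter_le (range (J + 1)) (· ≤ D)
    rw [Finset.card_range] at this
    exact_mod_cast this
  refine (mul_le_mul_of_nonneg_right h4 (by positivity)).trans (le_of_eq (by ring))

/-- the monic primes of degree `> Y` dividing `w` -/
def big (Y D : ℕ) (w : k[X]) : Finset k[X] :=
  (box k (D + 1)).filter fun p => p.Monic ∧ Irreducible p ∧ Y < p.natDegree ∧ p ∣ w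

theorem mem_big {Y D : ℕ} {w p : k[X]} (hw : w ≠ 0) (hD : w.natDegree ≤ D) :
    p ∈ big Y D w ↔ p.Monic ∧ Irreducible p ∧ Y < p.natDegree ∧ p ∣ w := by
  unfold big
  rw [Finset.mem_filter]
  refine ⟨fun h => h.2, fun h => ⟨mem_box.2 ?_, h⟩⟩
  exact (natDegree_lt_iff_degree_lt h.1.ne_zero).1
    (Nat.lt_succ_of_le ((natDegree_le_of_dvd h.2.2.2 hw).trans hD))

theorem card_E2 (Y K N : ℕ) :
    ((((box k N).erase 0).filter fun w => ∃ p ∈ prs k Y, p ^ K ∣ w).card : ℝ) ≤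
      qq k ^ N * (qq k ^ (Y + 1) / qq k ^ K) := by
  have hq := q_pos (k := k)
  have hsub : (((box k N).erase 0).filter fun w => ∃ p ∈ prs k Y, p ^ K ∣ w) ⊆
      (prs k Y).biUnion fun p => ((box k N).erase 0).filter fun w => p ^ K ∣ w := by
    intro w hw
    obtain ⟨h1, p, hp, h2⟩ := Finset.mem_filter.1 hw
    exact Finset.mem_biUnion.2 ⟨p, hp, Finset.mem_filter.2 ⟨h1, h2⟩⟩
  refine le_trans (Nat.cast_le.2 ((Finset.card_le_card hsub).trans Finset.card_biUnion_le)) ?_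
  rw [Nat.cast_sum]
  have h2 : ∀ p ∈ prs k Y, (((((box k N).erase 0).filter fun w => p ^ K ∣ w).card : ℕ) : ℝ) ≤
      qq k ^ N / qq k ^ K := by
    intro p hp
    obtain ⟨hm, hi, -⟩ := mem_prs.1 hp
    refine (card_box_dvd_le (pow_ne_zero K hm.ne_zero)).trans ?_
    refine div_le_div_of_nonneg_left (by positivity) (by positivity) ?_
    unfold nrm
    refine pow_le_pow_right₀ (by linarith [two_le_qq (k := k)]) ?_
    rw [hm.natDegree_pow]
    exact Nat.le_mul_of_pos_right K hi.natDegree_pos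
  refine (Finset.sum_le_card_nsmul _ _ _ h2).trans ?_
  rw [nsmul_eq_mul]
  have h3 : ((prs k Y).card : ℝ) ≤ qq k ^ (Y + 1) := by
    rw [← card_box]
    exact Nat.cast_le.2 (Finset.card_le_card (Finset.filter_subset _ _))
  refine (mul_le_mul_of_nonneg_right h3 (by positivity)).trans (le_of_eq (by ring))

theorem card_E4 (Y N : ℕ) :
    ((((box k N).erase 0).filter fun w =>
      ∃ p : k[X], p.Monic ∧ Y < p.natDegree ∧ p ^ 2 ∣ w).card : ℝ) ≤
      qq k ^ N * (1 / qq k ^ Y) := by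
  have hq := q_pos (k := k)
  have hsub : (((box k N).erase 0).filter fun w =>
      ∃ p : k[X], p.Monic ∧ Y < p.natDegree ∧ p ^ 2 ∣ w) ⊆
      ((box k N).filter fun p => p.Monic ∧ Y < p.natDegree).biUnion fun p =>
        ((box k N).erase 0).filter fun w => p ^ 2 ∣ w := by
    intro w hw
    obtain ⟨h1, p, hm, hY, h2⟩ := Finset.mem_filter.1 hw
    obtain ⟨h0, hb⟩ := Finset.mem_erase.1 h1
    refine Finset.mem_biUnion.2 ⟨p, Finset.mem_filter.2 ⟨mem_box.2 ?_, hm, hY⟩,
      Finset.mem_filter.2 ⟨h1, h2⟩⟩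
    exact (degree_le_of_dvd ((dvd_pow_self p two_ne_zero).trans h2) h0).trans_lt (mem_box.1 hb)
  refine le_trans (Nat.cast_le.2 ((Finset.card_le_card hsub).trans Finset.card_biUnion_le)) ?_
  rw [Nat.cast_sum]
  have h2 : ∀ p ∈ (box k N).filter fun p => p.Monic ∧ Y < p.natDegree,
      (((((box k N).erase 0).filter fun w => p ^ 2 ∣ w).card : ℕ) : ℝ) ≤
        qq k ^ N * (1 / nrm p ^ 2) := by
    intro p hp
    obtain ⟨-, hm, -⟩ := Finset.mem_filter.1 hp
    refine (card_box_dvd_le (pow_ne_zero 2 hm.ne_zero)).trans (le_of_eq ?_)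
    unfold nrm
    rw [hm.natDegree_pow, mul_one_div, ← pow_mul, mul_comm 2]
  refine (Finset.sum_le_sum h2).trans ?_
  rw [← Finset.mul_sum]
  exact mul_le_mul_of_nonneg_left
    (sum_inv_sq_le Y _ fun p hp => (Finset.mem_filter.1 hp).2) (by positivity)

theorem card_E6 (Y D N : ℕ) {δ : ℝ} (hδ : 0 < δ) :
    ((((box k N).erase 0).filter fun w => δ < ∑ p ∈ big Y D w, 1 / nrm p).card : ℝ) ≤
      qq k ^ N * (1 / (δ * qq k ^ Y)) := by
  have hq := q_pos (k := k)
  set B := (box k (D + 1)).filter fun p => p.Monic ∧ Irreducible p ∧ Y < p.natDegree with hB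
  have h1 : ∀ w : k[X], ∑ p ∈ big Y D w, 1 / nrm p = ∑ p ∈ B, if p ∣ w then 1 / nrm p else 0 := by
    intro w
    rw [← Finset.sum_filter, hB, Finset.filter_filter]
    unfold big
    exact Finset.sum_congr (Finset.filter_congr fun p _ => by tauto) fun _ _ => rfl
  have h2 : ∑ w ∈ (box k N).erase 0, ∑ p ∈ big Y D w, 1 / nrm p ≤ qq k ^ N * (1 / qq k ^ Y) := by
    simp only [h1]
    rw [Finset.sum_comm]
    have h3 : ∀ p ∈ B, ∑ w ∈ (box k N).erase 0, (if p ∣ w then 1 / nrm p else 0) ≤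
        qq k ^ N * (1 / nrm p ^ 2) := by
      intro p hp
      obtain ⟨-, hm, -⟩ := Finset.mem_filter.1 hp
      rw [← Finset.sum_filter, Finset.sum_const, nsmul_eq_mul]
      have hn := nrm_pos p
      refine (mul_le_mul_of_nonneg_right (card_box_dvd_le hm.ne_zero) (by positivity)).trans
        (le_of_eq ?_)
      field_simp
    refine (Finset.sum_le_sum h3).trans ?_
    rw [← Finset.mul_sum]
    exact mul_le_mul_of_nonneg_left (sum_inv_sq_le Y _ fun p hp =>
      ⟨(Finset.mem_filter.1 hp).2.1, (Finset.mem_filter.1 hp).2.2.2⟩) (by positivity)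
  have h4 : ((((box k N).erase 0).filter fun w => δ < ∑ p ∈ big Y D w, 1 / nrm p).card : ℝ) * δ ≤
      ∑ w ∈ (box k N).erase 0, ∑ p ∈ big Y D w, 1 / nrm p := by
    rw [← nsmul_eq_mul]
    refine (Finset.card_nsmul_le_sum _ _ _ fun w hw => (Finset.mem_filter.1 hw).2.le).trans ?_
    exact Finset.sum_le_sum_of_subset_of_nonneg (Finset.filter_subset _ _) fun w _ _ =>
      Finset.sum_nonneg fun p _ => (one_div_pos.2 (nrm_pos p)).le
  rw [← le_div_iff₀ hδ] at h4
  refine h4.trans ((div_le_div_of_nonneg_right h2 hδ.le).trans (le_of_eq ?_))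
  field_simp

omit [Fintype k] in
theorem mem_of_dvd_prod {s : Finset k[X]} (hs : ∀ p ∈ s, p.Monic ∧ Irreducible p) {u : k[X]}
    (hu : Irreducible u) (h : u ∣ ∏ p ∈ s, p) : ∃ p ∈ s, Associated u p := by
  obtain ⟨p, hp, h1⟩ := (Prime.dvd_finsetProd_iff hu.prime _).1 h
  exact ⟨p, hp, (hu.dvd_irreducible_iff_associated (hs p hp).2).1 h1⟩

omit [Fintype k] in
theorem pair_cop {s : Finset k[X]} (hs : ∀ p ∈ s, p.Monic ∧ Irreducible p) :
    (s : Set k[X]).Pairwise (Function.onFun IsCoprime fun p => p) := by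
  intro p hp p' hp' hne
  refine ((hs p hp).2.coprime_iff_not_dvd).2 fun h => hne ?_
  exact Polynomial.eq_of_monic_of_associated (hs p hp).1 (hs p' hp').1
    (((hs p hp).2.dvd_irreducible_iff_associated (hs p' hp').2).1 h)

omit [Fintype k] in
theorem greedy (s : Finset k[X]) (h E : ℕ) (hs : ∀ p ∈ s, p.natDegree ≤ h)
    (hE : E ≤ ∑ p ∈ s, p.natDegree) :
    ∃ t ⊆ s, E ≤ ∑ p ∈ t, p.natDegree ∧ ∑ p ∈ t, p.natDegree ≤ E + h := by
  induction s using Finset.induction_on with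
  | empty => exact ⟨∅, Finset.Subset.refl _, hE, by simp⟩
  | insert a s ha ih =>
    by_cases hc : E ≤ ∑ p ∈ s, p.natDegree
    · obtain ⟨t, ht, h1⟩ := ih (fun p hp => hs p (Finset.mem_insert_of_mem hp)) hc
      exact ⟨t, ht.trans (Finset.subset_insert _ _), h1⟩
    · refine ⟨insert a s, Finset.Subset.refl _, hE, ?_⟩
      rw [Finset.sum_insert ha]
      have := hs a (Finset.mem_insert_self _ _)
      omega

theorem smooth_dvd {Y K : ℕ} {a : k[X]} (ha : a ≠ 0)
    (h1 : ∀ p : k[X], p.Monic → Irreducible p → p ∣ a → p.natDegree ≤ Y)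
    (h2 : ∀ p ∈ prs k Y, ¬ p ^ (K + 1) ∣ a) : a ∣ (∏ p ∈ prs k Y, p) ^ K := by
  rw [UniqueFactorizationMonoid.dvd_iff_emultiplicity_le ha]
  intro u hu
  by_cases hd : u ∣ a
  · obtain ⟨p, hm, hdeg, hp⟩ := exists_monic80 hu.ne_zero
    have has : Associated p u := associated_of_dvd_dvd ((hp u).2 dvd_rfl) ((hp p).1 dvd_rfl)
    have hpi : Irreducible p := has.symm.irreducible hu.irreducible
    have hpp : p ∈ prs k Y := mem_prs.2 ⟨hm, hpi, h1 p hm hpi ((hp a).2 hd)⟩
    have h3 : emultiplicity u a < (K + 1 : ℕ) := by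
      rw [emultiplicity_lt_iff_not_dvd]
      exact fun h => h2 p hpp ((has.pow_pow (n := K + 1)).dvd.trans h)
    rw [Nat.cast_add_one] at h3
    refine (Order.le_of_lt_add_one h3).trans (le_emultiplicity_of_pow_dvd ?_)
    exact pow_dvd_pow_of_dvd (has.symm.dvd.trans (Finset.dvd_prod_of_mem (fun p => p) hpp)) K
  · rw [emultiplicity_eq_zero.2 hd]
    exact zero_le

/-- non-units modulo `r` in a box -/
theorem card_not_coprime {r : k[X]} (hr : r ≠ 0) {δ : ℝ}
    (hs : ∀ s : Finset k[X], (∀ p ∈ s, p.Monic ∧ Irreducible p ∧ p ∣ r) → ∑ p ∈ s, 1 / nrm p ≤ δ)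
    (m : ℕ) (c : k[X]) :
    (((box k m).filter fun b => ¬ IsCoprime (b - c) r).card : ℝ) ≤ qq k ^ m * δ + r.natDegree := by
  have hq := q_pos (k := k)
  set B := big 0 r.natDegree r with hB
  have hBm : ∀ p ∈ B, p.Monic ∧ Irreducible p ∧ p ∣ r := fun p hp =>
    ⟨((mem_big hr le_rfl).1 hp).1, ((mem_big hr le_rfl).1 hp).2.1,
      ((mem_big hr le_rfl).1 hp).2.2.2⟩
  have hsub : ((box k m).filter fun b => ¬ IsCoprime (b - c) r) ⊆
      B.biUnion fun p => (box k m).filter fun b => p ∣ b - c := by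
    intro b hb
    obtain ⟨h1, h2⟩ := Finset.mem_filter.1 hb
    have hnu : ¬ IsUnit (EuclideanDomain.gcd (b - c) r) := fun hu =>
      h2 (EuclideanDomain.gcd_isUnit_iff.1 hu)
    obtain ⟨p, hpm, hpi, hd⟩ := Polynomial.exists_monic_irreducible_factor _ hnu
    exact Finset.mem_biUnion.2 ⟨p, (mem_big hr le_rfl).2 ⟨hpm, hpi, hpi.natDegree_pos,
      hd.trans (EuclideanDomain.gcd_dvd_right _ _)⟩,
      Finset.mem_filter.2 ⟨h1, hd.trans (EuclideanDomain.gcd_dvd_left _ _)⟩⟩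
  refine le_trans (Nat.cast_le.2 ((Finset.card_le_card hsub).trans Finset.card_biUnion_le)) ?_
  rw [Nat.cast_sum]
  have h2 : ∀ p ∈ B, ((((box k m).filter fun b => p ∣ b - c).card : ℕ) : ℝ) ≤
      qq k ^ m * (1 / nrm p) + 1 := by
    intro p hp
    obtain ⟨hm, -, -⟩ := hBm p hp
    have hn := nrm_pos p
    by_cases hd : p.natDegree ≤ m
    · rw [card_box_class hm.ne_zero hd, pow_sub₀ _ hq.ne' hd, one_div]
      unfold nrm
      linarith
    · have h3 : ((box k m).filter fun b => p ∣ b - c).card ≤ 1 := by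
        refine Finset.card_le_one.2 fun a ha b hb => ?_
        obtain ⟨a1, a2⟩ := Finset.mem_filter.1 ha
        obtain ⟨b1, b2⟩ := Finset.mem_filter.1 hb
        have h4 : p ∣ a - b := by simpa using dvd_sub a2 b2
        refine sub_eq_zero.1 (eq_zero_of_dvd_of_degree_lt h4 ?_)
        refine ((degree_sub_le a b).trans_lt (max_lt (mem_box.1 a1) (mem_box.1 b1))).trans_le ?_
        rw [degree_eq_natDegree hm.ne_zero]
        exact_mod_cast (not_le.1 hd).le
      have h5 : ((((box k m).filter fun b => p ∣ b - c).card : ℕ) : ℝ) ≤ 1 := by exact_mod_cast h3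
      have : 0 ≤ qq k ^ m * (1 / nrm p) := by positivity
      linarith
  refine (Finset.sum_le_sum h2).trans ?_
  rw [Finset.sum_add_distrib, ← Finset.mul_sum, Finset.sum_const, nsmul_eq_mul, mul_one]
  refine add_le_add (mul_le_mul_of_nonneg_left (hs B hBm) (by positivity)) (Nat.cast_le.2 ?_)
  have h6 : ∏ p ∈ B, p ∣ r := Finset.prod_dvd_of_coprime
    (pair_cop fun p hp => ⟨(hBm p hp).1, (hBm p hp).2.1⟩) fun p hp => (hBm p hp).2.2
  have h7 := natDegree_le_of_dvd h6 hr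
  rw [natDegree_prod_of_monic _ _ fun p hp => (hBm p hp).1] at h7
  refine le_trans ?_ h7
  rw [Finset.card_eq_sum_ones]
  exact Finset.sum_le_sum fun p hp => (hBm p hp).2.1.natDegree_pos

end CL3.Den

end
end

-- part H86M.One20
section

/-! h86m: the first moment in characteristic 3 (block ONE). -/

set_option autoImplicit false
open Polynomial Finset
open scoped Classical

noncomputable section
namespace CL5
namespace One20

variable {k : Type*} [Field k] [Fintype k] [CharP k 3]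

/-- coefficient description of the Cartier operator -/
def IsCa (Ca : k[X] → k[X]) : Prop := ∀ (w : k[X]) (j : ℕ), (Ca w).coeff j ^ 3 = w.coeff (3 * j + 2)

omit [Fintype k] in
theorem cube_inj {a b : k} (h : a ^ 3 = b ^ 3) : a = b :=
  (frobenius k 3).injective (by simpa [frobenius_def] using h)

omit [Fintype k] in
theorem add_cube (a b : k) : (a + b) ^ 3 = a ^ 3 + b ^ 3 := add_pow_char a b 3

omit [Fintype k] in
theorem add_cubeP (a b : k[X]) : (a + b) ^ 3 = a ^ 3 + b ^ 3 := add_pow_char a b 3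

omit [Fintype k] in
theorem coeff_cube (a : k[X]) (i : ℕ) :
    (a ^ 3).coeff i = if 3 ∣ i then a.coeff (i / 3) ^ 3 else 0 := by
  rw [← Polynomial.map_frobenius_expand 3 a, coeff_map, coeff_expand (by norm_num)]
  split_ifs with h
  · rw [frobenius_def]
  · simp

variable {Ca : k[X] → k[X]}

omit [Fintype k] in
theorem ca_add (h : IsCa Ca) (a b : k[X]) : Ca (a + b) = Ca a + Ca b := by
  ext j
  apply cube_inj
  rw [coeff_add, add_cube, h, h, h, coeff_add]

omit [Fintype k] in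
theorem ca_zero (h : IsCa Ca) : Ca 0 = 0 := by
  ext j
  apply cube_inj
  rw [h]; simp

omit [Fintype k] in
theorem ca_sub (h : IsCa Ca) (a b : k[X]) : Ca (a - b) = Ca a - Ca b := by
  have := ca_add h (a - b) b
  rw [sub_add_cancel] at this
  rw [this]; ring

omit [Fintype k] in
theorem ca_cube_mul (h : IsCa Ca) (t w : k[X]) : Ca (t ^ 3 * w) = t * Ca w := by
  induction t using Polynomial.induction_on' with
  | add p q hp hq => rw [add_cubeP, add_mul, ca_add h, hp, hq, add_mul]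
  | monomial i c =>
    ext j
    apply cube_inj
    rw [h, monomial_pow, ← C_mul_X_pow_eq_monomial, ← C_mul_X_pow_eq_monomial, mul_assoc, mul_assoc,
      coeff_C_mul, coeff_C_mul, coeff_X_pow_mul', coeff_X_pow_mul', mul_pow]
    by_cases hij : i ≤ j
    · rw [if_pos hij, if_pos (by omega), h]
      congr 2
      omega
    · rw [if_neg hij, if_neg (by omega)]
      simp

omit [Fintype k] in
theorem ca_one (h : IsCa Ca) : Ca 1 = 0 := by
  ext j
  apply cube_inj
  rw [h, coeff_one, if_neg (by omega)]; simp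

omit [Fintype k] in
theorem ca_X (h : IsCa Ca) : Ca X = 0 := by
  ext j
  apply cube_inj
  rw [h, coeff_X, if_neg (by omega)]; simp

omit [Fintype k] in
theorem ca_X2 (h : IsCa Ca) : Ca (X ^ 2) = 1 := by
  ext j
  apply cube_inj
  rw [h, coeff_X_pow, coeff_one]
  by_cases hj : j = 0
  · subst hj; simp
  · rw [if_neg (by omega), if_neg hj]; simp

/-- the bijection `A ^ 3 → A` -/
def Ph (a0 a1 a2 : k[X]) : k[X] := a0 ^ 3 + X * a1 ^ 3 + X ^ 2 * a2 ^ 3

omit [Fintype k] in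
theorem ca_Ph_mul (h : IsCa Ca) (a0 a1 a2 F0 F1 F2 : k[X]) :
    Ca (Ph a0 a1 a2 * Ph F0 F1 F2) = a0 * F2 + a1 * F1 + a2 * F0 := by
  have e : Ph a0 a1 a2 * Ph F0 F1 F2 =
      (a0 * F0) ^ 3 * 1 + (a0 * F1) ^ 3 * X + (a1 * F0) ^ 3 * X + (a0 * F2) ^ 3 * X ^ 2 +
        (a1 * F1) ^ 3 * X ^ 2 + (a2 * F0) ^ 3 * X ^ 2 + (X * a1 * F2) ^ 3 * 1 +
        (X * a2 * F1) ^ 3 * 1 + (X * a2 * F2) ^ 3 * X := by
    unfold Ph; ring
  rw [e]
  simp only [ca_add h, ca_cube_mul h, ca_one h, ca_X h, ca_X2 h]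
  ring

omit [Fintype k] in
theorem Ph_ca (h : IsCa Ca) (g : k[X]) : Ph (Ca (X ^ 2 * g)) (Ca (X * g)) (Ca g) = g := by
  ext i
  unfold Ph
  rw [coeff_add, coeff_add, coeff_X_pow_mul', ← pow_one (X : k[X]), coeff_X_pow_mul']
  have h' : ∀ (w : k[X]) (j : ℕ), (Ca w).coeff j ^ 3 = w.coeff (3 * j + 2) := h
  simp only [coeff_cube, h', pow_one]
  have h1 : ∀ j, (X * g).coeff (3 * j + 2) = g.coeff (3 * j + 1) := fun j => coeff_X_mul g (3 * j + 1)
  have h2 : ∀ j, (X ^ 2 * g).coeff (3 * j + 2) = g.coeff (3 * j) := fun j => by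
    rw [coeff_X_pow_mul', if_pos (by omega)]; congr 1
  simp only [h1, h2]
  obtain ⟨j, hj | hj | hj⟩ : ∃ j, i = 3 * j ∨ i = 3 * j + 1 ∨ i = 3 * j + 2 := ⟨i / 3, by omega⟩
  · subst hj
    have e1 : 3 * j / 3 = j := by omega
    rw [if_pos (by omega), e1]
    have : (if 1 ≤ 3 * j then if 3 ∣ 3 * j - 1 then g.coeff (3 * ((3 * j - 1) / 3) + 1) else 0 else 0)
        = 0 := by
      split_ifs with a b
      · omega
      · rfl
      · rfl
    rw [this]
    have : (if 2 ≤ 3 * j then if 3 ∣ 3 * j - 2 then g.coeff (3 * ((3 * j - 2) / 3) + 2) else 0 else 0)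
        = 0 := by
      split_ifs with a b
      · omega
      · rfl
      · rfl
    rw [this]; ring
  · subst hj
    have e1 : (3 * j + 1 - 1) / 3 = j := by omega
    rw [if_neg (by omega), if_pos (by omega), if_pos (by omega), e1]
    have : (if 2 ≤ 3 * j + 1 then if 3 ∣ 3 * j + 1 - 2 then
        g.coeff (3 * ((3 * j + 1 - 2) / 3) + 2) else 0 else 0) = 0 := by
      split_ifs with a b
      · omega
      · rfl
      · rfl
    rw [this]; ring
  · subst hj
    have e1 : (3 * j + 2 - 2) / 3 = j := by omega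
    rw [if_neg (by omega), if_pos (by omega), if_neg (by omega), if_pos (by omega),
      if_pos (by omega), e1]
    ring

omit [Fintype k] [CharP k 3] in
theorem ca_natDegree (h : IsCa Ca) (w : k[X]) (h0 : Ca w ≠ 0) :
    3 * (Ca w).natDegree + 2 ≤ w.natDegree := by
  apply le_natDegree_of_ne_zero
  rw [← h]
  exact pow_ne_zero _ (leadingCoeff_ne_zero.2 h0)

omit [Fintype k] [CharP k 3] in
theorem deg_mul_lt {b G : k[X]} {s N : ℕ} (hb : b.natDegree ≤ s) (hG : G.degree < N) :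
    (b * G).degree < ((s + N : ℕ) : WithBot ℕ) := by
  by_cases hb0 : b = 0
  · simp [hb0]
  by_cases hG0 : G = 0
  · simp [hG0]
  have h1 := (natDegree_lt_iff_degree_lt hG0).2 hG
  rw [← natDegree_lt_iff_degree_lt (mul_ne_zero hb0 hG0), natDegree_mul hb0 hG0]
  omega

omit [Fintype k] [CharP k 3] in
theorem bz {a b c x y z : k[X]} {s : ℕ} (h1 : a * x + b * y + c * z = 1) (ha : a ≠ 0)
    (has : a.natDegree = s) (hb : b.natDegree ≤ s) (hc : c.natDegree ≤ s) {N : ℕ} (hN : s ≤ N)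
    {v : k[X]} (hv : v.degree < ((s + N : ℕ) : WithBot ℕ)) :
    ∃ F G H : k[X], F.degree < N ∧ G.degree < N ∧ H.degree < N ∧ a * F + b * G + c * H = v := by
  have hm : ∀ w : k[X], (w % a).degree < N := fun w =>
    lt_of_lt_of_le (degree_mod_lt w ha) (by
      rw [degree_eq_natDegree ha, has]; exact_mod_cast hN)
  have e1 := EuclideanDomain.div_add_mod (v * y) a
  have e2 := EuclideanDomain.div_add_mod (v * z) a
  have e : a * (v * x + b * (v * y / a) + c * (v * z / a)) + b * (v * y % a) + c * (v * z % a) = v := by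
    linear_combination v * h1 + b * e1 + c * e2
  refine ⟨_, _, _, ?_, hm (v * y), hm (v * z), e⟩
  set F := v * x + b * (v * y / a) + c * (v * z / a) with hF
  by_cases hF0 : F = 0
  · rw [hF0]; simp
  have e' : a * F = v - b * (v * y % a) - c * (v * z % a) := by linear_combination e
  have hd : (a * F).degree < ((s + N : ℕ) : WithBot ℕ) := by
    rw [e']
    exact lt_of_le_of_lt (degree_sub_le _ _) (max_lt (lt_of_le_of_lt (degree_sub_le _ _)
      (max_lt hv (deg_mul_lt hb (hm _)))) (deg_mul_lt hc (hm _)))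
  rw [← natDegree_lt_iff_degree_lt (mul_ne_zero ha hF0), natDegree_mul ha hF0] at hd
  rw [← natDegree_lt_iff_degree_lt hF0]
  omega

/-- `g = d ^ 3 * Φ(a)` with coprime coordinates of height `s` -/
def Dec (g d a0 a1 a2 : k[X]) (s : ℕ) : Prop :=
  g = d ^ 3 * Ph a0 a1 a2 ∧ d ≠ 0 ∧ a0.natDegree ≤ s ∧ a1.natDegree ≤ s ∧ a2.natDegree ≤ s ∧
    3 * (d.natDegree + s) ≤ g.natDegree ∧
    ∀ (N : ℕ) (v : k[X]), s ≤ N → v.degree < ((s + N : ℕ) : WithBot ℕ) →
      ∃ F0 F1 F2 : k[X], F0.degree < N ∧ F1.degree < N ∧ F2.degree < N ∧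
        a0 * F2 + a1 * F1 + a2 * F0 = v

omit [Fintype k] in
theorem exists_dec (h : IsCa Ca) {g : k[X]} (hg : g ≠ 0) :
    ∃ (d a0 a1 a2 : k[X]) (s : ℕ), Dec g d a0 a1 a2 s := by
  set b0 := Ca (X ^ 2 * g) with hb0
  set b1 := Ca (X * g) with hb1
  set b2 := Ca g with hb2
  have hP : Ph b0 b1 b2 = g := Ph_ca h g
  have d0 : 3 * b0.natDegree ≤ g.natDegree := by
    by_cases z : b0 = 0
    · simp [z]
    · have := ca_natDegree h _ z
      rw [natDegree_mul (pow_ne_zero _ X_ne_zero) hg, natDegree_X_pow, ← hb0] at this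
      omega
  have d1 : 3 * b1.natDegree ≤ g.natDegree := by
    by_cases z : b1 = 0
    · simp [z]
    · have := ca_natDegree h _ z
      rw [natDegree_mul X_ne_zero hg, natDegree_X, ← hb1] at this
      omega
  have d2 : 3 * b2.natDegree ≤ g.natDegree := by
    by_cases z : b2 = 0
    · simp [z]
    · have := ca_natDegree h _ z
      rw [← hb2] at this
      omega
  set e := EuclideanDomain.gcd b1 b2 with he
  set d := EuclideanDomain.gcd b0 e with hd
  obtain ⟨a0, h0⟩ : d ∣ b0 := EuclideanDomain.gcd_dvd_left _ _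
  obtain ⟨a1, h1⟩ : d ∣ b1 := (EuclideanDomain.gcd_dvd_right _ _).trans (EuclideanDomain.gcd_dvd_left _ _)
  obtain ⟨a2, h2⟩ : d ∣ b2 := (EuclideanDomain.gcd_dvd_right _ _).trans (EuclideanDomain.gcd_dvd_right _ _)
  have hgd : g = d ^ 3 * Ph a0 a1 a2 := by
    rw [← hP]
    unfold Ph
    rw [h0, h1, h2]; ring
  have hd0 : d ≠ 0 := by
    intro z
    apply hg
    rw [hgd, z]; ring
  have B1 := EuclideanDomain.gcd_eq_gcd_ab b0 e
  have B2 := EuclideanDomain.gcd_eq_gcd_ab b1 b2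
  rw [← hd] at B1
  rw [← he] at B2
  obtain ⟨x, y, z, hb⟩ : ∃ x y z : k[X], a0 * x + a1 * y + a2 * z = 1 := by
    refine ⟨EuclideanDomain.gcdA b0 e, EuclideanDomain.gcdA b1 b2 * EuclideanDomain.gcdB b0 e,
      EuclideanDomain.gcdB b1 b2 * EuclideanDomain.gcdB b0 e, mul_left_cancel₀ hd0 ?_⟩
    linear_combination (-1 : k[X]) * B1 - EuclideanDomain.gcdB b0 e * B2
      - EuclideanDomain.gcdA b0 e * h0
      - EuclideanDomain.gcdA b1 b2 * EuclideanDomain.gcdB b0 e * h1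
      - EuclideanDomain.gcdB b1 b2 * EuclideanDomain.gcdB b0 e * h2
  have key : ∀ {a b : k[X]}, b = d * a → a ≠ 0 → 3 * b.natDegree ≤ g.natDegree →
      3 * (d.natDegree + a.natDegree) ≤ g.natDegree := fun hb ha hh => by
    rw [hb, natDegree_mul hd0 ha] at hh; exact hh
  have c0 : a0 ≠ 0 → a1.natDegree ≤ a0.natDegree → a2.natDegree ≤ a0.natDegree →
      ∃ (d a0 a1 a2 : k[X]) (s : ℕ), Dec g d a0 a1 a2 s := fun n0 l1 l2 =>
    ⟨d, a0, a1, a2, a0.natDegree, hgd, hd0, le_rfl, l1, l2, key h0 n0 d0, fun N v hN hv => by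
      obtain ⟨F, G, H, f1, f2, f3, f4⟩ := bz hb n0 rfl l1 l2 hN hv
      exact ⟨H, G, F, f3, f2, f1, f4⟩⟩
  have c1 : a1 ≠ 0 → a0.natDegree ≤ a1.natDegree → a2.natDegree ≤ a1.natDegree →
      ∃ (d a0 a1 a2 : k[X]) (s : ℕ), Dec g d a0 a1 a2 s := fun n0 l1 l2 =>
    ⟨d, a0, a1, a2, a1.natDegree, hgd, hd0, l1, le_rfl, l2, key h1 n0 d1, fun N v hN hv => by
      obtain ⟨F, G, H, f1, f2, f3, f4⟩ :=
        bz (a := a1) (b := a0) (c := a2) (x := y) (y := x) (z := z) (by linear_combination hb)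
          n0 rfl l1 l2 hN hv
      exact ⟨H, F, G, f3, f1, f2, by linear_combination f4⟩⟩
  have c2 : a2 ≠ 0 → a0.natDegree ≤ a2.natDegree → a1.natDegree ≤ a2.natDegree →
      ∃ (d a0 a1 a2 : k[X]) (s : ℕ), Dec g d a0 a1 a2 s := fun n0 l1 l2 =>
    ⟨d, a0, a1, a2, a2.natDegree, hgd, hd0, l1, l2, le_rfl, key h2 n0 d2, fun N v hN hv => by
      obtain ⟨F, G, H, f1, f2, f3, f4⟩ :=
        bz (a := a2) (b := a0) (c := a1) (x := z) (y := x) (z := y) (by linear_combination hb)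
          n0 rfl l1 l2 hN hv
      exact ⟨F, H, G, f1, f3, f2, by linear_combination f4⟩⟩
  by_cases z0 : a0 = 0
  · by_cases z1 : a1 = 0
    · have z2 : a2 ≠ 0 := by
        intro z2
        rw [z0, z1, z2] at hb
        simp at hb
      exact c2 z2 (by simp [z0]) (by simp [z1])
    · by_cases z2 : a2 = 0
      · exact c1 z1 (by simp [z0]) (by simp [z2])
      · rcases le_total a1.natDegree a2.natDegree with l | l
        · exact c2 z2 (by simp [z0]) l
        · exact c1 z1 (by simp [z0]) l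
  · by_cases l1 : a1.natDegree ≤ a0.natDegree
    · by_cases l2 : a2.natDegree ≤ a0.natDegree
      · exact c0 z0 l1 l2
      · refine c2 (fun z => l2 (by simp [z])) (by omega) (by omega)
    · by_cases l2 : a2.natDegree ≤ a1.natDegree
      · exact c1 (fun z => l1 (by simp [z])) (by omega) l2
      · exact c2 (fun z => l2 (by simp [z])) (by omega) (by omega)

omit [Fintype k] [CharP k 3] in
theorem Ph_degree {F0 F1 F2 : k[X]} {N : ℕ} (h0 : F0.degree < N) (h1 : F1.degree < N)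
    (h2 : F2.degree < N) : (Ph F0 F1 F2).degree < ((3 * N : ℕ) : WithBot ℕ) := by
  have key : ∀ (F : k[X]) (j : ℕ), j ≤ 2 → F.degree < N →
      (X ^ j * F ^ 3).degree < ((3 * N : ℕ) : WithBot ℕ) := fun F j hj hF => by
    by_cases z : F = 0
    · rw [z, zero_pow (by norm_num), mul_zero, degree_zero]
      exact WithBot.bot_lt_coe _
    have := (natDegree_lt_iff_degree_lt z).2 hF
    rw [← natDegree_lt_iff_degree_lt (mul_ne_zero (pow_ne_zero _ X_ne_zero) (pow_ne_zero _ z)),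
      natDegree_mul (pow_ne_zero _ X_ne_zero) (pow_ne_zero _ z), natDegree_X_pow, natDegree_pow]
    omega
  have a0 := key F0 0 (by omega) h0
  have a1 := key F1 1 (by omega) h1
  have a2 := key F2 2 (by omega) h2
  rw [pow_zero, one_mul] at a0
  rw [pow_one] at a1
  exact lt_of_le_of_lt (degree_add_le _ _) (max_lt (lt_of_le_of_lt (degree_add_le _ _)
    (max_lt a0 a1)) a2)

omit [Fintype k] in
theorem dec_solve (h : IsCa Ca) {g d a0 a1 a2 : k[X]} {s : ℕ} (hD : Dec g d a0 a1 a2 s) {N : ℕ}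
    (hN : s ≤ N) {v : k[X]} (hv : v.degree < ((s + N : ℕ) : WithBot ℕ)) :
    ∃ φ : k[X], φ.degree < ((3 * N : ℕ) : WithBot ℕ) ∧ ∀ t, Ca (g * (t ^ 3 * φ)) = d * t * v := by
  obtain ⟨F0, F1, F2, f0, f1, f2, e⟩ := hD.2.2.2.2.2.2 N v hN hv
  refine ⟨Ph F0 F1 F2, Ph_degree f0 f1 f2, fun t => ?_⟩
  have : g * (t ^ 3 * Ph F0 F1 F2) = (d * t) ^ 3 * (Ph a0 a1 a2 * Ph F0 F1 F2) := by
    rw [hD.1]; ring
  rw [this, ca_cube_mul h, ca_Ph_mul h, e]

/-- size of the kernel -/
def kp (Ca : k[X] → k[X]) (n : ℕ) (g : k[X]) : ℕ := ((box k n).filter (fun φ => Ca (g * φ) = 0)).card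

/-- number of `f` for `g` and a target `v` -/
def N1 (Ca : k[X] → k[X]) (W : k[X] → Prop) (n : ℕ) (g v : k[X]) : ℕ :=
  ((mon k n).filter (fun f => W f ∧ Ca (g * f) = g + v)).card

omit [CharP k 3] in
theorem qpos : (0 : ℝ) < qq k := lt_of_lt_of_le (by norm_num) two_le_qq

theorem kp_le (h : IsCa Ca) {g d a0 a1 a2 : k[X]} {s n : ℕ} (hD : Dec g d a0 a1 a2 s)
    (hs : s ≤ n / 3) : (kp Ca n g : ℝ) * qq k ^ (s + n / 3) ≤ qq k ^ n := by
  have hσ : ∀ v : k[X], ∃ φ : k[X], v ∈ box k (s + n / 3) → φ ∈ box k n ∧ Ca (g * φ) = d * v := by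
    intro v
    by_cases hv : v ∈ box k (s + n / 3)
    · obtain ⟨φ, h1, h2⟩ := dec_solve h hD hs (mem_box.1 hv)
      refine ⟨φ, fun _ => ⟨mem_box.2 (lt_of_lt_of_le h1 (by exact_mod_cast (by omega))), ?_⟩⟩
      simpa using h2 1
    · exact ⟨0, fun hh => absurd hh hv⟩
  choose σ hσ using hσ
  have hc : (((box k n).filter (fun φ => Ca (g * φ) = 0)) ×ˢ box k (s + n / 3)).card ≤
      (box k n).card := by
    refine Finset.card_le_card_of_injOn (fun z => z.1 + σ z.2) ?_ ?_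
    · intro z hz
      obtain ⟨h1, h2⟩ := mem_product.1 (mem_coe.1 hz)
      exact mem_coe.2 (mem_box.2 (lt_of_le_of_lt (degree_add_le _ _)
        (max_lt (mem_box.1 (mem_filter.1 h1).1) (mem_box.1 (hσ _ h2).1))))
    · intro z hz w hw e
      obtain ⟨h1, h2⟩ := mem_product.1 (mem_coe.1 hz)
      obtain ⟨h3, h4⟩ := mem_product.1 (mem_coe.1 hw)
      have e' : z.1 + σ z.2 = w.1 + σ w.2 := e
      have e2 : Ca (g * (z.1 + σ z.2)) = Ca (g * (w.1 + σ w.2)) := by rw [e']
      rw [mul_add, mul_add, ca_add h, ca_add h, (mem_filter.1 h1).2, (mem_filter.1 h3).2,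
        (hσ _ h2).2, (hσ _ h4).2, zero_add, zero_add] at e2
      have e3 : z.2 = w.2 := mul_left_cancel₀ hD.2.1 e2
      rw [e3] at e'
      exact Prod.ext (add_right_cancel e') e3
  rw [card_product] at hc
  rw [← card_box, ← card_box]
  unfold kp
  exact_mod_cast hc

omit [CharP k 3] in
theorem mon_sub {n : ℕ} {f f' : k[X]} (hf : f ∈ mon k n) (hf' : f' ∈ mon k n) : f - f' ∈ box k n := by
  obtain ⟨a1, a2⟩ := mem_mon.1 hf
  obtain ⟨b1, b2⟩ := mem_mon.1 hf'
  have := degree_sub_lt_left (p := f) (q := f') (by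
    rw [degree_eq_natDegree a1.ne_zero, degree_eq_natDegree b1.ne_zero, a2, b2]) a1.ne_zero
    (by rw [a1.leadingCoeff, b1.leadingCoeff])
  rw [degree_eq_natDegree a1.ne_zero, a2] at this
  exact mem_box.2 this

omit [CharP k 3] in
theorem mon_add {n : ℕ} {f φ : k[X]} (hf : f ∈ mon k n) (hφ : φ.degree < n) : f + φ ∈ mon k n := by
  obtain ⟨a1, a2⟩ := mem_mon.1 hf
  have hd : φ.degree < f.degree := by rw [degree_eq_natDegree a1.ne_zero, a2]; exact hφ
  exact mem_mon.2 ⟨a1.add_of_left hd, by rw [natDegree_add_eq_left_of_degree_lt hd, a2]⟩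

theorem N1_le (h : IsCa Ca) (W : k[X] → Prop) (n : ℕ) (g v : k[X]) : N1 Ca W n g v ≤ kp Ca n g := by
  unfold N1 kp
  rcases ((mon k n).filter (fun f => W f ∧ Ca (g * f) = g + v)).eq_empty_or_nonempty with e | ⟨f0, h0⟩
  · rw [e]; simp
  refine Finset.card_le_card_of_injOn (fun f => f - f0) ?_ ?_
  · intro f hf
    obtain ⟨h1, h2⟩ := mem_filter.1 (mem_coe.1 hf)
    obtain ⟨h3, h4⟩ := mem_filter.1 h0
    refine mem_coe.2 (mem_filter.2 ⟨mon_sub h1 h3, ?_⟩)
    show Ca (g * (f - f0)) = 0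
    rw [mul_sub, ca_sub h, h2.2, h4.2, sub_self]
  · intro f _ f' _ e
    exact sub_left_injective e

theorem N1_shift (h : IsCa Ca) {W : k[X] → Prop} {n : ℕ} {g v φ : k[X]} (hφ : φ.degree < n)
    (hv : Ca (g * φ) = v) (hW : ∀ f, W (f + φ) ↔ W f) : N1 Ca W n g v = N1 Ca W n g 0 := by
  unfold N1
  symm
  refine Finset.card_bij' (fun f _ => f + φ) (fun f _ => f + -φ) ?_ ?_ ?_ ?_
  · intro f hf
    obtain ⟨h1, h2, h3⟩ := mem_filter.1 hf
    refine mem_filter.2 ⟨mon_add h1 hφ, (hW f).2 h2, ?_⟩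
    rw [mul_add, ca_add h, h3, hv, add_zero]
  · intro f hf
    obtain ⟨h1, h2, h3⟩ := mem_filter.1 hf
    refine mem_filter.2 ⟨mon_add h1 (by rwa [degree_neg]), (hW _).1 (by simpa using h2), ?_⟩
    rw [← sub_eq_add_neg, mul_sub, ca_sub h, h3, hv]; ring
  · intro f _; ring
  · intro f _; ring

omit [CharP k 3] in
theorem geom_le (M i0 : ℕ) :
    ∑ s ∈ (range (M + 1)).filter (fun s => s + i0 ≤ M), 1 / qq k ^ (M - s) ≤ 2 / qq k ^ i0 := by
  have hq := qpos (k := k)
  have h1 : ∑ s ∈ (range (M + 1)).filter (fun s => s + i0 ≤ M), 1 / qq k ^ (M - s) ≤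
      ∑ j ∈ insert i0 (Finset.Ioc i0 (i0 + M)), 1 / qq k ^ j := by
    rw [← Finset.sum_image (s := (range (M + 1)).filter (fun s => s + i0 ≤ M)) (g := fun s => M - s)
      (f := fun j => 1 / qq k ^ j) (by
        intro a ha b hb e
        have h1 := (mem_filter.1 (mem_coe.1 ha)).2
        have h2 := (mem_filter.1 (mem_coe.1 hb)).2
        have e' : M - a = M - b := e
        omega)]
    refine Finset.sum_le_sum_of_subset_of_nonneg ?_ (fun _ _ _ => by positivity)
    intro j hj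
    obtain ⟨s, hs, rfl⟩ := mem_image.1 hj
    have := (mem_filter.1 hs).2
    rw [mem_insert, Finset.mem_Ioc]
    omega
  rw [Finset.sum_insert (by simp)] at h1
  have h2 := a27_geom (k := k) i0 M
  have h3 : 0 ≤ 1 / qq k ^ (i0 + M) := by positivity
  have h4 : 2 / qq k ^ i0 = 1 / qq k ^ i0 + 1 / qq k ^ i0 := by ring
  linarith

theorem sum_kp_tail (h : IsCa Ca) {dd b0 b1 b2 : k[X] → k[X]} {ss : k[X] → ℕ}
    (hD : ∀ g, g ≠ 0 → Dec g (dd g) (b0 g) (b1 g) (b2 g) (ss g)) (n i0 : ℕ) :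
    ∑ g ∈ ((box k (n / 2)).erase 0).filter (fun g => ss g + i0 ≤ (n / 2 - 1) / 3),
      (kp Ca n g : ℝ) ≤ 2 * qq k ^ 4 * qq k ^ n / qq k ^ i0 := by
  have hq := qpos (k := k)
  have hq1 : (1 : ℝ) ≤ qq k := le_trans (by norm_num) two_le_qq
  set M := (n / 2 - 1) / 3 with hM
  set S := ((box k (n / 2)).erase 0).filter (fun g => ss g + i0 ≤ M) with hS
  have hmem : ∀ g ∈ S, g ≠ 0 ∧ (dd g).natDegree + ss g ≤ M ∧ ss g + i0 ≤ M := fun g hg => by
    obtain ⟨h1, h2⟩ := mem_filter.1 hg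
    obtain ⟨h3, h4⟩ := mem_erase.1 h1
    have h5 := (natDegree_lt_iff_degree_lt h3).2 (mem_box.1 h4)
    have h6 := (hD g h3).2.2.2.2.2.1
    exact ⟨h3, by omega, h2⟩
  rw [← Finset.sum_fiberwise_of_maps_to (s := S)
    (t := (range (M + 1)).filter (fun s => s + i0 ≤ M)) (g := ss) (fun g hg => by
      have := hmem g hg
      exact mem_filter.2 ⟨mem_range.2 (by omega), this.2.2⟩)]
  have hterm : ∀ s ∈ (range (M + 1)).filter (fun s => s + i0 ≤ M),
      ∑ g ∈ S.filter (fun g => ss g = s), (kp Ca n g : ℝ) ≤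
        qq k ^ 4 * qq k ^ n * (1 / qq k ^ (M - s)) := by
    intro s hs
    have hsM := (mem_filter.1 hs).2
    have hc : ((S.filter (fun g => ss g = s)).card : ℝ) ≤
        qq k ^ (M - s + 1) * (qq k ^ (s + 1) * (qq k ^ (s + 1) * qq k ^ (s + 1))) := by
      have : (S.filter (fun g => ss g = s)).card ≤
          (box k (M - s + 1) ×ˢ (box k (s + 1) ×ˢ (box k (s + 1) ×ˢ box k (s + 1)))).card := by
        refine Finset.card_le_card_of_injOn (fun g => (dd g, b0 g, b1 g, b2 g)) ?_ ?_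
        · intro g hg
          obtain ⟨h1, h2⟩ := mem_filter.1 (mem_coe.1 hg)
          obtain ⟨h3, h4, _⟩ := hmem g h1
          obtain ⟨_, _, e0, e1, e2, _⟩ := hD g h3
          have bx : ∀ (a : k[X]) (N : ℕ), a.natDegree ≤ N → a ∈ box k (N + 1) := fun a N ha =>
            mem_box.2 (lt_of_le_of_lt degree_le_natDegree (by exact_mod_cast (by omega)))
          exact mem_coe.2 (mem_product.2 ⟨bx _ _ (by show (dd g).natDegree ≤ _; omega),
            mem_product.2 ⟨bx _ _ (h2 ▸ e0), mem_product.2 ⟨bx _ _ (h2 ▸ e1), bx _ _ (h2 ▸ e2)⟩⟩⟩)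
        · intro g hg g' hg' e
          have h1 := (hD g (hmem g (mem_filter.1 (mem_coe.1 hg)).1).1).1
          have h2 := (hD g' (hmem g' (mem_filter.1 (mem_coe.1 hg')).1).1).1
          simp only [Prod.mk.injEq] at e
          rw [h1, h2, e.1, e.2.1, e.2.2.1, e.2.2.2]
      rw [card_product, card_product, card_product] at this
      rw [← card_box, ← card_box]
      exact_mod_cast this
    have hk : ∀ g ∈ S.filter (fun g => ss g = s), (kp Ca n g : ℝ) ≤ qq k ^ n / qq k ^ (s + n / 3) := by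
      intro g hg
      obtain ⟨h1, h2⟩ := mem_filter.1 hg
      have := kp_le h (hD g (hmem g h1).1) (n := n) (by omega)
      rw [h2] at this
      rwa [le_div_iff₀ (by positivity)]
    refine (Finset.sum_le_card_nsmul _ _ _ hk).trans ?_
    rw [nsmul_eq_mul]
    refine (mul_le_mul_of_nonneg_right hc (by positivity)).trans ?_
    have e1 : qq k ^ (M - s + 1) * (qq k ^ (s + 1) * (qq k ^ (s + 1) * qq k ^ (s + 1))) *
        qq k ^ (M - s) ≤ qq k ^ 4 * qq k ^ (s + n / 3) := by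
      simp only [← pow_add]
      exact pow_le_pow_right₀ hq1 (by omega)
    rw [mul_one_div, ← mul_div_assoc, div_le_div_iff₀ (by positivity) (by positivity)]
    have := mul_le_mul_of_nonneg_right e1 (pow_pos hq n).le
    linarith
  refine (Finset.sum_le_sum hterm).trans ?_
  rw [← Finset.mul_sum]
  refine (mul_le_mul_of_nonneg_left (geom_le M i0) (by positivity)).trans (le_of_eq ?_)
  ring

omit [CharP k 3] in
theorem card_big_prime (m Y : ℕ) (S : Finset k[X]) (hS : ∀ g ∈ S, g ∈ (box k m).erase 0 ∧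
    ∃ p : k[X], p.Monic ∧ Y < p.natDegree ∧ p ^ 2 ∣ g) : (S.card : ℝ) ≤ qq k ^ m / qq k ^ Y := by
  have hq := qpos (k := k)
  set T := (box k (m + 1)).filter (fun p => p.Monic ∧ Y < p.natDegree) with hT
  have hsub : S ⊆ T.biUnion (fun p => ((box k m).erase 0).filter (fun a => p ^ 2 ∣ a)) := by
    intro g hg
    obtain ⟨h1, p, h2, h3, h4⟩ := hS g hg
    obtain ⟨h5, h6⟩ := mem_erase.1 h1
    refine mem_biUnion.2 ⟨p, mem_filter.2 ⟨mem_box.2 ?_, h2, h3⟩, mem_filter.2 ⟨h1, h4⟩⟩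
    have h7 := natDegree_le_of_dvd ((dvd_pow_self p (by norm_num)).trans h4) h5
    have h8 := (natDegree_lt_iff_degree_lt h5).2 (mem_box.1 h6)
    exact lt_of_le_of_lt degree_le_natDegree (by exact_mod_cast (by omega))
  have h1 : (S.card : ℝ) ≤ ∑ p ∈ T, ((((box k m).erase 0).filter (fun a => p ^ 2 ∣ a)).card : ℝ) := by
    exact_mod_cast (card_le_card hsub).trans card_biUnion_le
  have h2 : ∀ p ∈ T, ((((box k m).erase 0).filter (fun a => p ^ 2 ∣ a)).card : ℝ) ≤
      qq k ^ m * (1 / nrm p ^ 2) := fun p hp => by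
    have hp0 := (mem_filter.1 hp).2.1.ne_zero
    have := card_box_dvd_le (N := m) (pow_ne_zero 2 hp0)
    have e : nrm (p ^ 2) = nrm p ^ 2 := by
      unfold nrm; rw [natDegree_pow, ← pow_mul, mul_comm]
    rw [e] at this
    rwa [mul_one_div]
  have h3 := sum_inv_sq_le Y T (fun p hp => (mem_filter.1 hp).2)
  refine h1.trans ((Finset.sum_le_sum h2).trans ?_)
  rw [← Finset.mul_sum]
  refine (mul_le_mul_of_nonneg_left h3 (by positivity)).trans (le_of_eq ?_)
  unfold eta0; ring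

omit [CharP k 3] in
theorem dvd_pow_of_small {Y : ℕ} {P : k[X]} (hP : ∀ p ∈ prs k Y, p ∣ P) (d : k[X]) (hd : d ≠ 0)
    (hs : ∀ p : k[X], p.Monic → Irreducible p → p ∣ d → p.natDegree ≤ Y) : d ∣ P ^ d.natDegree := by
  induction d using WfDvdMonoid.induction_on_irreducible with
  | zero => exact absurd rfl hd
  | unit u hu => exact hu.dvd
  | mul a i ha hi ih =>
    have hi0 := hi.ne_zero
    have h1 : a ∣ P ^ a.natDegree := ih ha fun p h1 h2 h3 => hs p h1 h2 (h3.mul_left i)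
    have hn : Irreducible (normalize i) := (associated_normalize i).irreducible hi
    have h2 : normalize i ∣ P := hP _ (mem_prs.2 ⟨monic_normalize hi0, hn,
      hs _ (monic_normalize hi0) hn ((normalize_dvd_iff.2 dvd_rfl).mul_right a)⟩)
    have h3 : i ∣ P := normalize_dvd_iff.1 h2
    have h4 := hi.natDegree_pos
    rw [natDegree_mul hi0 ha]
    refine (mul_dvd_mul h3 h1).trans ?_
    rw [← pow_succ']
    exact pow_dvd_pow _ (by omega)

theorem N1_good (h : IsCa Ca) {Y K n i0 : ℕ} {P : k[X]} (hP0 : P ≠ 0) (hP : ∀ p ∈ prs k Y, p ∣ P)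
    (hK : i0 + 1 ≤ K) (hn : 6 * P.natDegree + 6 ≤ n) {g d a0 a1 a2 : k[X]} {s : ℕ}
    (hD : Dec g d a0 a1 a2 s) (hg : g.natDegree < n / 2) (hs : (n / 2 - 1) / 3 < s + i0)
    (hd : ∀ p : k[X], p.Monic → Irreducible p → p ∣ d → p.natDegree ≤ Y) {v : k[X]}
    (hv : v.degree < ((n / 2 - K : ℕ) : WithBot ℕ)) (hPv : P ^ K ∣ v) :
    N1 Ca (Wsf Y) n g v = N1 Ca (Wsf Y) n g 0 := by
  by_cases hv0 : v = 0
  · rw [hv0]
  have h6 := hD.2.2.2.2.2.1
  have hd0 := hD.2.1
  have h1 : d * P ∣ v := by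
    refine (mul_dvd_mul_right (dvd_pow_of_small hP d hd0 hd) P).trans (dvd_trans ?_ hPv)
    rw [← pow_succ]
    exact pow_dvd_pow _ (by omega)
  obtain ⟨w, hw⟩ := h1
  have hw0 : w ≠ 0 := fun z => hv0 (by rw [hw, z, mul_zero])
  have hvn := (natDegree_lt_iff_degree_lt hv0).2 hv
  rw [hw, natDegree_mul (mul_ne_zero hd0 hP0) hw0, natDegree_mul hd0 hP0] at hvn
  obtain ⟨φ, f1, f2⟩ := dec_solve h hD (N := n / 3 - P.natDegree) (by omega) (v := w)
    ((natDegree_lt_iff_degree_lt hw0).1 (by omega))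
  refine N1_shift h (φ := P ^ 3 * φ) ?_ (by rw [f2, hw]) fun f => ?_
  · refine lt_of_lt_of_le (deg_mul_lt (s := 3 * P.natDegree) (by rw [natDegree_pow]) f1) ?_
    exact_mod_cast (by omega)
  · unfold Wsf
    refine forall₂_congr fun p hp => not_congr ?_
    have : p ^ 2 ∣ P ^ 3 * φ :=
      ((pow_dvd_pow_of_dvd (hP p hp) 2).trans (pow_dvd_pow P (by norm_num))).mul_right φ
    exact dvd_add_left this

omit [CharP k 3] in
theorem sum_N1 (W : k[X] → Prop) (n m : ℕ) (U : Finset k[X]) :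
    ∑ g ∈ box k m, ∑ v ∈ U, (N1 Ca W n g v : ℝ) =
      ∑ f ∈ (mon k n).filter W, (((box k m).filter (fun g => Ca (g * f) - g ∈ U)).card : ℝ) := by
  have e1 : ∀ g, ∑ v ∈ U, (N1 Ca W n g v : ℝ) =
      ∑ f ∈ (mon k n).filter W, if Ca (g * f) - g ∈ U then (1 : ℝ) else 0 := by
    intro g
    have : ∀ v, (N1 Ca W n g v : ℝ) =
        ∑ f ∈ (mon k n).filter W, if Ca (g * f) - g = v then (1 : ℝ) else 0 := by
      intro v
      unfold N1
      rw [← Finset.filter_filter, Finset.card_filter]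
      push_cast
      exact Finset.sum_congr rfl fun f _ => by simp only [sub_eq_iff_eq_add']
    simp only [this]
    rw [Finset.sum_comm]
    exact Finset.sum_congr rfl fun f _ => by rw [Finset.sum_ite_eq]
  simp only [e1]
  rw [Finset.sum_comm]
  refine Finset.sum_congr rfl fun f _ => ?_
  rw [Finset.card_filter]
  push_cast
  rfl

omit [CharP k 3] in
theorem sum_sol (W : k[X] → Prop) (n m : ℕ) :
    ∑ f ∈ (mon k n).filter W, (((box k m).filter (fun g => Ca (g * f) = g)).card : ℝ) =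
      ∑ g ∈ box k m, (N1 Ca W n g 0 : ℝ) := by
  have := sum_N1 (Ca := Ca) W n m {0}
  simp only [Finset.sum_singleton, Finset.mem_singleton, sub_eq_zero] at this
  exact this.symm

theorem N1_zero (h : IsCa Ca) (W : k[X] → Prop) (n : ℕ) (v : k[X]) :
    (N1 Ca W n 0 v : ℝ) = if v = 0 then (((mon k n).filter W).card : ℝ) else 0 := by
  unfold N1
  simp only [zero_mul, ca_zero h, zero_add]
  split_ifs with hv
  · simp [hv]
  · rw [Finset.filter_false_of_mem fun f _ hf => hv hf.2.symm]; simp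

omit [Fintype k] in
theorem exists_fun_dec (h : IsCa Ca) : ∃ (dd b0 b1 b2 : k[X] → k[X]) (ss : k[X] → ℕ),
    ∀ g, g ≠ 0 → Dec g (dd g) (b0 g) (b1 g) (b2 g) (ss g) := by
  have : ∀ g : k[X], ∃ (d a0 a1 a2 : k[X]) (s : ℕ), g ≠ 0 → Dec g d a0 a1 a2 s := fun g => by
    by_cases hg : g = 0
    · exact ⟨0, 0, 0, 0, 0, fun hh => absurd hg hh⟩
    · obtain ⟨d, a0, a1, a2, s, e⟩ := exists_dec h hg
      exact ⟨d, a0, a1, a2, s, fun _ => e⟩
  choose dd b0 b1 b2 ss e using this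
  exact ⟨dd, b0, b1, b2, ss, e⟩

omit [CharP k 3] in
theorem zero_mem_box (m : ℕ) : (0 : k[X]) ∈ box k m :=
  mem_box.2 (by rw [degree_zero]; exact WithBot.bot_lt_coe _)

omit [CharP k 3] in
theorem card_filter_le (W : k[X] → Prop) (n : ℕ) : (((mon k n).filter W).card : ℝ) ≤ qq k ^ n := by
  rw [← card_mon]
  exact_mod_cast Finset.card_filter_le _ _

theorem sum_kp_le (h : IsCa Ca) (n : ℕ) :
    ∑ g ∈ (box k (n / 2)).erase 0, (kp Ca n g : ℝ) ≤ 2 * qq k ^ 4 * qq k ^ n := by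
  obtain ⟨dd, b0, b1, b2, ss, hD⟩ := exists_fun_dec h
  have := sum_kp_tail h hD n 0
  rw [pow_zero, div_one, Finset.filter_true_of_mem] at this
  · exact this
  · intro g hg
    obtain ⟨h3, h4⟩ := mem_erase.1 hg
    have h5 := (natDegree_lt_iff_degree_lt h3).2 (mem_box.1 h4)
    have h6 := (hD g h3).2.2.2.2.2.1
    omega

/-- uniform bound for the first moment -/
theorem one_unif (h : IsCa Ca) (n : ℕ) :
    ∑ f ∈ mon k n, (((box k (n / 2)).filter (fun g => Ca (g * f) = g)).card : ℝ) ≤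
      (1 + 2 * qq k ^ 4) * qq k ^ n := by
  have e := sum_sol (Ca := Ca) (fun _ => True) n (n / 2)
  rw [Finset.filter_true] at e
  rw [e, ← Finset.add_sum_erase _ _ (zero_mem_box (n / 2)), N1_zero h, if_pos rfl]
  have h1 := card_filter_le (k := k) (fun _ => True) n
  have h2 : ∑ g ∈ (box k (n / 2)).erase 0, (N1 Ca (fun _ => True) n g 0 : ℝ) ≤
      ∑ g ∈ (box k (n / 2)).erase 0, (kp Ca n g : ℝ) :=
    Finset.sum_le_sum fun g _ => by exact_mod_cast N1_le h _ n g 0
  have h3 := sum_kp_le h n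
  linarith

/-- the first moment, given the cokernel count -/
theorem one_est (h : IsCa Ca) {Y K n i0 : ℕ} {P : k[X]} (hP0 : P ≠ 0) (hP : ∀ p ∈ prs k Y, p ∣ P)
    (hK : i0 + 1 ≤ K) (hn : 6 * P.natDegree + 6 ≤ n) {U : Finset k[X]} (h0 : 0 ∈ U)
    (hU : ∀ v ∈ U, v.degree < ((n / 2 - K : ℕ) : WithBot ℕ) ∧ P ^ K ∣ v) {c : ℝ}
    (hc : ∀ f ∈ mon k n, Wsf Y f →
      (((box k (n / 2)).filter (fun g => Ca (g * f) - g ∈ U)).card : ℝ) = c * U.card) :
    |∑ f ∈ (mon k n).filter (Wsf Y), (((box k (n / 2)).filter (fun g => Ca (g * f) = g)).card : ℝ) -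
      (1 + c) * (((mon k n).filter (Wsf Y)).card : ℝ)| ≤
      (2 * qq k ^ 4 / qq k ^ i0 + qq k ^ i0 / qq k ^ Y + 1 / U.card) * qq k ^ n := by
  have hq := qpos (k := k)
  have hq1 : (1 : ℝ) ≤ qq k := le_trans (by norm_num) two_le_qq
  obtain ⟨dd, b0, b1, b2, ss, hD⟩ := exists_fun_dec h
  have hUp : (0 : ℝ) < U.card := by exact_mod_cast card_pos.2 ⟨0, h0⟩
  set F : ℝ := (((mon k n).filter (Wsf Y)).card : ℝ) with hF
  set md : k[X] → ℝ := fun g => (∑ v ∈ U, (N1 Ca (Wsf Y) n g v : ℝ)) / U.card with hmd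
  have s1 : ∑ g ∈ box k (n / 2), md g = c * F := by
    rw [← Finset.sum_div, sum_N1, Finset.sum_congr rfl fun f hf =>
      hc f (mem_filter.1 hf).1 (mem_filter.1 hf).2, Finset.sum_const, nsmul_eq_mul]
    rw [← hF]
    field_simp
  have s2 : md 0 = F / U.card := by
    simp only [hmd, N1_zero h]
    rw [Finset.sum_ite_eq', if_pos h0]
  rw [← Finset.add_sum_erase _ _ (zero_mem_box (n / 2)), s2] at s1
  rw [sum_sol, ← Finset.add_sum_erase _ _ (zero_mem_box (n / 2)), N1_zero h, if_pos rfl, ← hF]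
  set E := (box k (n / 2)).erase 0 with hE
  have e : F + ∑ g ∈ E, (N1 Ca (Wsf Y) n g 0 : ℝ) - (1 + c) * F =
      ∑ g ∈ E, ((N1 Ca (Wsf Y) n g 0 : ℝ) - md g) - F / U.card := by
    rw [Finset.sum_sub_distrib]; linarith
  rw [e]
  have hab : ∀ g, |(N1 Ca (Wsf Y) n g 0 : ℝ) - md g| ≤ kp Ca n g := fun g => by
    have a1 : (N1 Ca (Wsf Y) n g 0 : ℝ) ≤ kp Ca n g := by exact_mod_cast N1_le h _ n g 0
    have a2 : (0 : ℝ) ≤ N1 Ca (Wsf Y) n g 0 := Nat.cast_nonneg _
    have a3 : 0 ≤ md g := div_nonneg (Finset.sum_nonneg fun _ _ => Nat.cast_nonneg _) hUp.le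
    have a4 : md g ≤ kp Ca n g := by
      rw [hmd, div_le_iff₀ hUp]
      refine (Finset.sum_le_card_nsmul _ _ (kp Ca n g : ℝ) fun v _ => by
        exact_mod_cast N1_le h _ n g v).trans (le_of_eq ?_)
      rw [nsmul_eq_mul, mul_comm]
    rw [abs_le]; constructor <;> linarith
  set M := (n / 2 - 1) / 3 with hM
  set B := E.filter (fun g => ¬ ss g + i0 ≤ M ∧
    ∃ p : k[X], p.Monic ∧ Y < p.natDegree ∧ p ∣ dd g) with hB
  have hpt : ∀ g ∈ E, |(N1 Ca (Wsf Y) n g 0 : ℝ) - md g| ≤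
      (if ss g + i0 ≤ M then (kp Ca n g : ℝ) else 0) +
      (if ¬ ss g + i0 ≤ M ∧ ∃ p : k[X], p.Monic ∧ Y < p.natDegree ∧ p ∣ dd g then
        qq k ^ n * qq k ^ i0 / qq k ^ (n / 2) else 0) := by
    intro g hg
    obtain ⟨h3, h4⟩ := mem_erase.1 hg
    have h5 := (natDegree_lt_iff_degree_lt h3).2 (mem_box.1 h4)
    have h6 := (hD g h3).2.2.2.2.2.1
    by_cases c1 : ss g + i0 ≤ M
    · rw [if_pos c1, if_neg (fun hh => hh.1 c1), add_zero]; exact hab g
    rw [if_neg c1, zero_add]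
    by_cases c2 : ∃ p : k[X], p.Monic ∧ Y < p.natDegree ∧ p ∣ dd g
    · rw [if_pos ⟨c1, c2⟩]
      refine (hab g).trans ?_
      have t1 := kp_le h (hD g h3) (n := n) (by omega)
      have t2 : qq k ^ (n / 2) ≤ qq k ^ (ss g + n / 3) * qq k ^ i0 := by
        rw [← pow_add]; exact pow_le_pow_right₀ hq1 (by omega)
      rw [le_div_iff₀ (by positivity)]
      calc (kp Ca n g : ℝ) * qq k ^ (n / 2)
          ≤ kp Ca n g * (qq k ^ (ss g + n / 3) * qq k ^ i0) :=
            mul_le_mul_of_nonneg_left t2 (by positivity)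
        _ = kp Ca n g * qq k ^ (ss g + n / 3) * qq k ^ i0 := by ring
        _ ≤ _ := mul_le_mul_of_nonneg_right t1 (by positivity)
    · rw [if_neg (fun hh => c2 hh.2)]
      have : md g = N1 Ca (Wsf Y) n g 0 := by
        rw [hmd]
        simp only
        rw [Finset.sum_congr rfl fun v hv => congrArg Nat.cast
          (N1_good h hP0 hP hK hn (hD g h3) h5 (by omega) (fun p p1 _ p3 => by
            by_contra hh
            exact c2 ⟨p, p1, by omega, p3⟩) (hU v hv).1 (hU v hv).2),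
          Finset.sum_const, nsmul_eq_mul]
        field_simp
      rw [this, sub_self, abs_zero]
  have b1' := sum_kp_tail h hD n i0
  have b2' : (B.card : ℝ) ≤ qq k ^ (n / 2) / qq k ^ Y := card_big_prime _ _ _ fun g hg => by
    obtain ⟨h1, _, p, p1, p2, p3⟩ := mem_filter.1 hg
    refine ⟨h1, p, p1, p2, ?_⟩
    rw [(hD g (mem_erase.1 h1).1).1]
    exact ((pow_dvd_pow_of_dvd p3 2).trans (pow_dvd_pow _ (by norm_num))).mul_right _
  have tot : |∑ g ∈ E, ((N1 Ca (Wsf Y) n g 0 : ℝ) - md g)| ≤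
      2 * qq k ^ 4 * qq k ^ n / qq k ^ i0 + qq k ^ i0 / qq k ^ Y * qq k ^ n := by
    refine (Finset.abs_sum_le_sum_abs _ _).trans ((Finset.sum_le_sum hpt).trans ?_)
    rw [Finset.sum_add_distrib, ← Finset.sum_filter, ← Finset.sum_filter, Finset.sum_const,
      nsmul_eq_mul]
    refine add_le_add b1' ((mul_le_mul_of_nonneg_right b2' (by positivity)).trans (le_of_eq ?_))
    field_simp
  have hF1 : F ≤ qq k ^ n := card_filter_le _ n
  have hF0 : 0 ≤ F := Nat.cast_nonneg _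
  have hF2 : |F / U.card| ≤ 1 / U.card * qq k ^ n := by
    rw [abs_of_nonneg (div_nonneg hF0 hUp.le), one_div_mul_eq_div]
    exact div_le_div_of_nonneg_right hF1 hUp.le
  refine (abs_sub _ _).trans ((add_le_add tot hF2).trans (le_of_eq ?_))
  ring

end One20
end CL5

end
end

-- part H86M.Vdc50
section

/-! h86m: one van der Corput shift and the complete sums (row VDC). -/

set_option autoImplicit false
open Polynomial Finset
open scoped Classical

noncomputable section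
namespace CL3.Vdc

open CL5

/-- van der Corput's inequality for a group of shifts -/
theorem vdc_abs {V T : Type*} [AddCommGroup V] [AddCommGroup T] (B : Finset V) (Hs : Finset T)
    (σ : T →+ V) (hne : Hs.Nonempty) (hB : ∀ v ∈ B, ∀ t ∈ Hs, v + σ t ∈ B)
    (hsub : ∀ t ∈ Hs, ∀ t' ∈ Hs, t - t' ∈ Hs) (f1 f2 : V → ℂ) (h1 : ∀ v, ‖f1 v‖ ≤ 1)
    (hinv : ∀ v t, f1 (v + σ t) = f1 v) :
    (Hs.card : ℝ) * ‖∑ v ∈ B, f1 v * f2 v‖ ^ 2 ≤
      B.card * ∑ t ∈ Hs, ‖∑ v ∈ B, f2 (v + σ t) * (starRingEnd ℂ) (f2 v)‖ := by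
  have hneg : ∀ t ∈ Hs, -t ∈ Hs := fun t ht => by
    simpa using hsub _ (hsub t ht t ht) t ht
  have hshift : ∀ t ∈ Hs, ∀ F : V → ℂ, ∑ v ∈ B, F (v + σ t) = ∑ v ∈ B, F v := by
    intro t ht F
    refine Finset.sum_bij' (fun v _ => v + σ t) (fun v _ => v + σ (-t)) ?_ ?_ ?_ ?_ ?_
    · exact fun v hv => hB v hv t ht
    · exact fun v hv => hB v hv _ (hneg t ht)
    · intro v _; simp
    · intro v _; simp
    · intro v _; rfl
  set G : T → ℂ := fun t => ∑ v ∈ B, f2 (v + σ t) * (starRingEnd ℂ) (f2 v) with hG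
  have hpos : (0 : ℝ) < Hs.card := by exact_mod_cast hne.card_pos
  have e1 : (Hs.card : ℂ) * ∑ v ∈ B, f1 v * f2 v = ∑ v ∈ B, f1 v * ∑ t ∈ Hs, f2 (v + σ t) := by
    simp only [Finset.mul_sum (s := Hs)]
    rw [Finset.sum_comm, ← nsmul_eq_mul, ← Finset.sum_const]
    refine Finset.sum_congr rfl fun t ht => ?_
    rw [← hshift t ht fun v => f1 v * f2 v]
    simp only [hinv]
  have e2 : (Hs.card : ℝ) * ‖∑ v ∈ B, f1 v * f2 v‖ ≤ ∑ v ∈ B, ‖∑ t ∈ Hs, f2 (v + σ t)‖ := by
    have := congrArg norm e1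
    rw [norm_mul, Complex.norm_natCast] at this
    rw [this]
    refine (norm_sum_le _ _).trans (Finset.sum_le_sum fun v _ => ?_)
    rw [norm_mul]
    exact mul_le_of_le_one_left (norm_nonneg _) (h1 v)
  have e3 : ((∑ v ∈ B, ‖∑ t ∈ Hs, f2 (v + σ t)‖ ^ 2 : ℝ) : ℂ) =
      ∑ t' ∈ Hs, ∑ t ∈ Hs, G (t - t') := by
    push_cast
    simp only [← Complex.mul_conj', map_sum, Finset.sum_mul, Finset.mul_sum]
    rw [Finset.sum_comm]
    refine Finset.sum_congr rfl fun t' ht' => ?_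
    rw [Finset.sum_comm]
    refine Finset.sum_congr rfl fun t _ => ?_
    simp only [hG]
    rw [← hshift t' ht' fun v => f2 (v + σ (t - t')) * (starRingEnd ℂ) (f2 v)]
    refine Finset.sum_congr rfl fun v _ => ?_
    rw [map_sub]
    congr 2
    abel
  have e4 : ∑ v ∈ B, ‖∑ t ∈ Hs, f2 (v + σ t)‖ ^ 2 ≤ Hs.card * ∑ t ∈ Hs, ‖G t‖ := by
    have := congrArg norm e3
    rw [Complex.norm_real, Real.norm_of_nonneg (by positivity)] at this
    rw [this, ← nsmul_eq_mul, ← Finset.sum_const]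
    refine (norm_sum_le _ _).trans (Finset.sum_le_sum fun t' ht' => ?_)
    refine (norm_sum_le _ _).trans (le_of_eq ?_)
    refine Finset.sum_bij' (fun t _ => t - t') (fun t _ => t - (-t')) ?_ ?_ ?_ ?_ ?_
    · exact fun t ht => hsub t ht t' ht'
    · exact fun t ht => hsub t ht _ (hneg t' ht')
    · intro v _; simp
    · intro v _; simp
    · intro v _; rfl
  have e5 := sq_sum_le_card_mul_sum_sq (s := B) (f := fun v => ‖∑ t ∈ Hs, f2 (v + σ t)‖)
  have e6 : ((Hs.card : ℝ) * ‖∑ v ∈ B, f1 v * f2 v‖) ^ 2 ≤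
      B.card * (Hs.card * ∑ t ∈ Hs, ‖G t‖) :=
    (pow_le_pow_left₀ (by positivity) e2 2).trans
      (e5.trans (mul_le_mul_of_nonneg_left e4 (by positivity)))
  refine le_of_mul_le_mul_left ?_ hpos
  calc _ = ((Hs.card : ℝ) * ‖∑ v ∈ B, f1 v * f2 v‖) ^ 2 := by ring
    _ ≤ _ := e6
    _ = _ := by ring

section ring

variable {Q : Type*} [CommRing Q] [Fintype Q]

/-- the phase as a function on residue classes -/
def ph {Q : Type*} [CommRing Q] (χ : Q → ℂ) (H ν κ : Q) (v : Q × Q) : ℂ :=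
  if IsUnit v.2 then χ (H * ((v.2 ^ 3 + ν * (v.1 ^ 3 + κ)) * Ring.inverse v.2)) else 0

theorem sum_char {χ : Q → ℂ} (hadd : ∀ x y, χ (x + y) = χ x * χ y) (φ : Q → Q)
    (hφ : ∀ x y, φ (x + y) = φ x + φ y) {y : Q} (hy : χ (φ y) ≠ 1) : ∑ x, χ (φ x) = 0 := by
  have hs : ∑ x, χ (φ (x + y)) = ∑ x, χ (φ x) :=
    Fintype.sum_equiv (Equiv.addRight y) _ _ fun _ => rfl
  simp only [hφ, hadd, ← Finset.sum_mul] at hs
  have : (∑ x, χ (φ x)) * (χ (φ y) - 1) = 0 := by linear_combination hs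
  exact (mul_eq_zero.1 this).resolve_right (sub_ne_zero.2 hy)

theorem complete {χ : Q → ℂ} (hn : ∀ x, ‖χ x‖ = 1) (hadd : ∀ x y, χ (x + y) = χ x * χ y)
    (hneg : ∀ x, χ (-x) = (starRingEnd ℂ) (χ x)) (hprim : ∀ A, (∀ x, χ (A * x) = 1) → A = 0)
    (h3 : (3 : Q) = 0) (hcube : ∀ y : Q, ∃ x, x ^ 3 = y) (H ν κ η ξ1 ξ2 c0 : Q) :
    ∃ A0 : Q, ‖∑ v : Q × Q, ph χ H ν κ (v.1, v.2 + η) * (starRingEnd ℂ) (ph χ H ν κ v) *
        χ (ξ1 * v.1 + ξ2 * v.2 + c0)‖ ≤
      Fintype.card Q * ((univ.filter fun z : Q =>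
        A0 * z ^ 2 + A0 * η * z + H * ν * η = 0).card : ℝ) := by
  set A : Q → Q := fun z => H * ν * (Ring.inverse (z + η) - Ring.inverse z) with hA
  set P : Q → Prop := fun z => IsUnit z ∧ IsUnit (z + η) ∧ ∀ x, χ (A z * x ^ 3 + ξ1 * x) = 1
    with hP
  have huniq : ∃ A0, ∀ z, P z → A z = A0 := by
    by_cases h : ∃ z0, P z0
    · obtain ⟨z0, h0⟩ := h
      refine ⟨A z0, fun z hz => sub_eq_zero.1 (hprim _ fun y => ?_)⟩
      obtain ⟨x, rfl⟩ := hcube y
      have e : A z * x ^ 3 + ξ1 * x = (A z - A z0) * x ^ 3 + (A z0 * x ^ 3 + ξ1 * x) := by ring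
      have h1 := hz.2.2 x
      rwa [e, hadd, h0.2.2 x, mul_one] at h1
    · exact ⟨0, fun z hz => absurd ⟨z, hz⟩ h⟩
  obtain ⟨A0, hA0⟩ := huniq
  refine ⟨A0, ?_⟩
  rw [Fintype.sum_prod_type_right]
  refine (norm_sum_le _ _).trans ?_
  rw [Finset.card_filter, Nat.cast_sum, Finset.mul_sum]
  refine Finset.sum_le_sum fun z _ => ?_
  by_cases hu : IsUnit z ∧ IsUnit (z + η)
  swap
  · have : ∀ x : Q, ph χ H ν κ (x, z + η) * (starRingEnd ℂ) (ph χ H ν κ (x, z)) = 0 := by
      intro x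
      rcases not_and_or.1 hu with h | h
      · simp [ph, h]
      · simp [ph, h]
    simp only [this, zero_mul, Finset.sum_const_zero, norm_zero]
    positivity
  obtain ⟨u1, u2⟩ := hu
  have e : ∀ x : Q, ph χ H ν κ (x, z + η) * (starRingEnd ℂ) (ph χ H ν κ (x, z)) *
      χ (ξ1 * x + ξ2 * z + c0) = χ (A z * x ^ 3 + ξ1 * x) *
        χ (H * (((z + η) ^ 3 + ν * κ) * Ring.inverse (z + η)) -
          H * ((z ^ 3 + ν * κ) * Ring.inverse z) + ξ2 * z + c0) := by
    intro x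
    simp only [ph, if_pos u1, if_pos u2, ← hneg, ← hadd, hA]
    congr 1
    ring
  simp only [e, ← Finset.sum_mul, norm_mul, hn, mul_one]
  by_cases hall : ∀ x, χ (A z * x ^ 3 + ξ1 * x) = 1
  · have h1 : A z = A0 := hA0 z ⟨u1, u2, hall⟩
    have i1 := Ring.mul_inverse_cancel z u1
    have i2 := Ring.mul_inverse_cancel (z + η) u2
    have h2 : A0 * z ^ 2 + A0 * η * z + H * ν * η = 0 := by
      rw [← h1]
      simp only [hA]
      linear_combination (H * ν * z) * i2 - (H * ν * (z + η)) * i1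
    rw [if_pos h2]
    simp [hall]
  · obtain ⟨y, hy⟩ := not_forall.1 hall
    rw [sum_char hadd (fun x => A z * x ^ 3 + ξ1 * x) (fun x y => by
      linear_combination (A z * (x ^ 2 * y + x * y ^ 2)) * h3) hy, norm_zero]
    positivity

end ring

variable {k : Type*} [Field k] [Fintype k]

omit [Fintype k] in
theorem two_roots {p a0 a1 c : k[X]} (hp : Prime p) (hc : ¬ p ∣ c) :
    ∃ b1 b2 : k[X], ∀ a, p ∣ a0 * a ^ 2 + a1 * a + c → p ∣ a - b1 ∨ p ∣ a - b2 := by
  by_cases h : ∃ b1 b2, p ∣ a0 * b1 ^ 2 + a1 * b1 + c ∧ p ∣ a0 * b2 ^ 2 + a1 * b2 + c ∧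
      ¬ p ∣ b2 - b1
  · obtain ⟨b1, b2, h1, h2, h12⟩ := h
    have key : ∀ a, p ∣ a0 * a ^ 2 + a1 * a + c → ¬ p ∣ a - b1 → p ∣ a0 * (a + b1) + a1 := by
      intro a ha hab
      have h4 := dvd_sub ha h1
      rw [show a0 * a ^ 2 + a1 * a + c - (a0 * b1 ^ 2 + a1 * b1 + c) =
        (a - b1) * (a0 * (a + b1) + a1) by ring] at h4
      exact (hp.dvd_or_dvd h4).resolve_left hab
    refine ⟨b1, b2, fun a ha => ?_⟩
    by_contra hn
    rw [not_or] at hn
    have h5 := dvd_sub (key a ha hn.1) (key b2 h2 h12)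
    rw [show a0 * (a + b1) + a1 - (a0 * (b2 + b1) + a1) = a0 * (a - b2) by ring] at h5
    have h6 : p ∣ a0 := (hp.dvd_or_dvd h5).resolve_right hn.2
    have h7 : p ∣ a1 := (dvd_add_right (h6.mul_right _)).1 (key b2 h2 h12)
    exact hc ((dvd_add_right ((h6.mul_right _).add (h7.mul_right _))).1 h1)
  · by_cases h0 : ∃ b, p ∣ a0 * b ^ 2 + a1 * b + c
    · obtain ⟨b, hb⟩ := h0
      refine ⟨b, b, fun a ha => Or.inl ?_⟩
      by_contra hn
      exact h ⟨b, a, hb, ha, hn⟩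
    · exact ⟨0, 0, fun a ha => absurd ⟨a, ha⟩ h0⟩

omit [Fintype k] in
theorem cop_of {s : Finset k[X]} (hs : ∀ p ∈ s, p.Monic ∧ Irreducible p) :
    (s : Set k[X]).Pairwise (fun i j => IsCoprime i j) := fun i hi j hj hij =>
  (hs i hi).2.coprime_iff_not_dvd.2 fun h => hij
    (eq_of_monic_of_associated (hs i hi).1 (hs j hj).1
      ((hs i hi).2.associated_of_dvd (hs j hj).2 h))

theorem nrm_prod {s : Finset k[X]} (hs : ∀ p ∈ s, p.Monic) :
    nrm (∏ p ∈ s, p) = ∏ p ∈ s, nrm p := by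
  unfold nrm
  rw [natDegree_prod_of_monic s (fun p => p) hs, Finset.prod_pow_eq_pow_sum]

theorem root_count {s : Finset k[X]} (hs : ∀ p ∈ s, p.Monic ∧ Irreducible p) (a0 a1 c : k[X]) :
    (((box k (∏ p ∈ s, p).natDegree).filter fun a =>
      (∏ p ∈ s, p) ∣ a0 * a ^ 2 + a1 * a + c).card : ℝ) ≤
      ∏ p ∈ s, (if p ∣ c then nrm p else 2) := by
  have hq : 0 < qq k := by linarith [two_le_qq (k := k)]
  set N := (∏ p ∈ s, p).natDegree with hN
  have hN' : N = ∑ p ∈ s, p.natDegree := natDegree_prod_of_monic s (fun p => p) fun p hp => (hs p hp).1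
  have h := ind_box s (fun p => p) (fun p hp => (hs p hp).1.ne_zero) (cop_of hs)
    (fun p a => if p ∣ a0 * a ^ 2 + a1 * a + c then (1 : ℝ) else 0) (fun p _ a b hab => by
      have : p ∣ (a0 * a ^ 2 + a1 * a + c) - (a0 * b ^ 2 + a1 * b + c) := by
        rw [show (a0 * a ^ 2 + a1 * a + c) - (a0 * b ^ 2 + a1 * b + c) =
          (a - b) * (a0 * (a + b) + a1) by ring]
        exact hab.mul_right _
      simp only [dvd_iff_dvd_of_dvd_sub this]) (N := N) hN'.ge
  have h2 : ∏ p ∈ s, (∑ a ∈ box k N,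
      if p ∣ a0 * a ^ 2 + a1 * a + c then (1 : ℝ) else 0) / qq k ^ N ≤
      ∏ p ∈ s, (if p ∣ c then nrm p else 2) / nrm p := by
    refine Finset.prod_le_prod (fun p _ => by positivity) fun p hp => ?_
    have hpN : p.natDegree ≤ N := hN' ▸ Finset.single_le_sum (f := fun p : k[X] => p.natDegree)
      (fun _ _ => Nat.zero_le _) hp
    have hnp : 0 < nrm p := pow_pos hq _
    split_ifs with hc
    · rw [div_self hnp.ne', div_le_one (by positivity), ← card_box, Finset.card_eq_sum_ones,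
        Nat.cast_sum]
      refine Finset.sum_le_sum fun a _ => ?_
      split_ifs <;> simp
    · obtain ⟨b1, b2, hb⟩ := two_roots (a0 := a0) (a1 := a1) (hs p hp).2.prime hc
      have h3 : ∑ a ∈ box k N, (if p ∣ a0 * a ^ 2 + a1 * a + c then (1 : ℝ) else 0) ≤
          ∑ a ∈ box k N, ((if p ∣ a - b1 then (1 : ℝ) else 0) + if p ∣ a - b2 then 1 else 0) := by
        refine Finset.sum_le_sum fun a _ => ?_
        by_cases ha : p ∣ a0 * a ^ 2 + a1 * a + c
        · rcases hb a ha with h4 | h4 <;> rw [if_pos ha, if_pos h4] <;> split_ifs <;> norm_num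
        · rw [if_neg ha]
          positivity
      rw [Finset.sum_add_distrib, sum_box_class80 (hs p hp).1 hpN, sum_box_class80 (hs p hp).1 hpN,
        pow_sub₀ _ hq.ne' hpN] at h3
      rw [div_le_div_iff₀ (by positivity) hnp]
      calc _ ≤ (qq k ^ N * (qq k ^ p.natDegree)⁻¹ + qq k ^ N * (qq k ^ p.natDegree)⁻¹) * nrm p := by
            gcongr
        _ = _ := by
            unfold nrm
            field_simp
            ring
  rw [← h, Finset.prod_div_distrib, ← nrm_prod fun p hp => (hs p hp).1, nrm, ← hN,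
    div_le_div_iff_of_pos_right (by positivity)] at h2
  refine le_trans ?_ h2
  rw [Finset.card_filter, Nat.cast_sum]
  refine Finset.sum_le_sum fun a _ => ?_
  split_ifs with ha
  · rw [Finset.prod_eq_one fun p hp => if_pos ((Finset.dvd_prod_of_mem _ hp).trans ha)]
    simp
  · rw [Nat.cast_zero]
    exact Finset.prod_nonneg fun p _ => by positivity

theorem gcd_sum {s : Finset k[X]} (hs : ∀ p ∈ s, p.Monic ∧ Irreducible p) (L : ℕ) :
    ∑ t ∈ (box k L).erase 0, ∏ p ∈ s, (if p ∣ t then nrm p else 1) ≤ 2 ^ s.card * qq k ^ L := by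
  have hq : 0 < qq k := by linarith [two_le_qq (k := k)]
  have hnp : ∀ p : k[X], 0 < nrm p := fun p => pow_pos hq _
  have h1 : ∀ t : k[X], ∏ p ∈ s, (if p ∣ t then nrm p else 1) ≤
      ∑ T ∈ s.powerset, (if (∏ p ∈ T, p) ∣ t then nrm (∏ p ∈ T, p) else 0) := by
    intro t
    have h2 : s.filter (fun p => p ∣ t) ∈ s.powerset := Finset.mem_powerset.2 (filter_subset _ _)
    refine le_trans (le_of_eq ?_) (Finset.single_le_sum (f := fun T : Finset k[X] =>
      if (∏ p ∈ T, p) ∣ t then nrm (∏ p ∈ T, p) else 0) (fun T _ => by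
        have := hnp (∏ p ∈ T, p)
        positivity) h2)
    rw [if_pos, nrm_prod fun p hp => (hs p (mem_filter.1 hp).1).1, Finset.prod_filter]
    exact Finset.prod_dvd_of_coprime ((cop_of hs).mono (Finset.coe_subset.2 (filter_subset _ _)))
      fun p hp => (mem_filter.1 hp).2
  refine (Finset.sum_le_sum fun t _ => h1 t).trans ?_
  rw [Finset.sum_comm, ← Nat.cast_ofNat, ← Nat.cast_pow, ← Finset.card_powerset, ← nsmul_eq_mul,
    ← Finset.sum_const]
  refine Finset.sum_le_sum fun T hT => ?_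
  have hm : (∏ p ∈ T, p).Monic :=
    monic_prod_of_monic _ _ fun p hp => (hs p (Finset.mem_powerset.1 hT hp)).1
  rw [← Finset.sum_filter, Finset.sum_const, nsmul_eq_mul, ← le_div_iff₀ (hnp _)]
  exact card_box_dvd_le hm.ne_zero

/-- the properties of the characters `e(a, M)` that are used -/
structure IsE (E : k[X] → k[X] → ℂ) : Prop where
  norm : ∀ a M, ‖E a M‖ = 1
  add : ∀ a b M, E (a + b) M = E a M * E b M
  neg : ∀ a M, E (-a) M = (starRingEnd ℂ) (E a M)
  congr : ∀ {a b M : k[X]}, M.Monic → M ∣ a - b → E a M = E b M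
  mul_right : ∀ {a M M' : k[X]}, M.Monic → M'.Monic → 1 ≤ M.natDegree →
    E (a * M') (M * M') = E a M
  sum_box : ∀ {M : k[X]}, M.Monic → ∀ {N : ℕ}, N ≤ M.natDegree → ∀ a : k[X],
    ∑ v ∈ box k N, E (a * v) M =
      if (a %ₘ M).degree < (M.natDegree - N : ℕ) then ((qq k ^ N : ℝ) : ℂ) else 0

omit [Fintype k] in
theorem unit_iff {M z : k[X]} : IsUnit (AdjoinRoot.mk M z) ↔ IsCoprime z M := by
  constructor
  · intro h
    obtain ⟨y, hy⟩ := h.exists_right_inv
    obtain ⟨y, rfl⟩ := AdjoinRoot.mk_surjective y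
    rw [← map_mul, ← map_one (AdjoinRoot.mk M), AdjoinRoot.mk_eq_mk] at hy
    obtain ⟨c, hc⟩ := hy
    exact ⟨y, -c, by linear_combination hc⟩
  · rintro ⟨a, b, h⟩
    refine IsUnit.of_mul_eq_one (AdjoinRoot.mk M a) ?_
    rw [← map_mul, ← map_one (AdjoinRoot.mk M), AdjoinRoot.mk_eq_mk]
    exact ⟨-b, by linear_combination h⟩

omit [Fintype k] in
theorem mk_rep {M : k[X]} (hM : M.Monic) (x : AdjoinRoot M) :
    AdjoinRoot.mk M (AdjoinRoot.modByMonicHom hM x) = x := AdjoinRoot.mk_leftInverse hM x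

theorem sum_mk {M : k[X]} (hM : M.Monic) [Fintype (AdjoinRoot M)] {W : Type*} [AddCommMonoid W]
    (F : AdjoinRoot M → W) :
    ∑ a ∈ box k M.natDegree, F (AdjoinRoot.mk M a) = ∑ x, F x := by
  refine Finset.sum_bij' (fun a _ => AdjoinRoot.mk M a)
    (fun x _ => AdjoinRoot.modByMonicHom hM x) (fun _ _ => mem_univ _) ?_ ?_ ?_ fun _ _ => rfl
  · intro x _
    obtain ⟨a, rfl⟩ := AdjoinRoot.mk_surjective x
    rw [mem_box, AdjoinRoot.modByMonicHom_mk, ← degree_eq_natDegree hM.ne_zero]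
    exact degree_modByMonic_lt a hM
  · intro a ha
    rw [mem_box, ← degree_eq_natDegree hM.ne_zero] at ha
    rw [AdjoinRoot.modByMonicHom_mk, (modByMonic_eq_self_iff hM).2 ha]
  · exact fun x _ => mk_rep hM x

theorem box_add {N : ℕ} {a b : k[X]} (ha : a ∈ box k N) (hb : b ∈ box k N) : a + b ∈ box k N := by
  rw [mem_box] at *
  exact (degree_add_le _ _).trans_lt (max_lt ha hb)

theorem box_sub {N : ℕ} {a b : k[X]} (ha : a ∈ box k N) (hb : b ∈ box k N) : a - b ∈ box k N := by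
  rw [mem_box] at *
  exact (degree_sub_le _ _).trans_lt (max_lt ha hb)

/-- completion of a two-variable sum -/
theorem completion {E : k[X] → k[X] → ℂ} (hE : IsE E) {M : k[X]} (hM : M.Monic) {N : ℕ}
    (hN : N ≤ M.natDegree) (g : k[X] × k[X] → ℂ) {B : ℝ}
    (hB : ∀ ξ1 ξ2 : k[X], ‖∑ v ∈ box k M.natDegree ×ˢ box k M.natDegree,
      g v * E (v.1 * ξ1 + v.2 * ξ2) M‖ ≤ B) : ‖∑ v ∈ box k N ×ˢ box k N, g v‖ ≤ B := by
  have hq : 0 < qq k := by linarith [two_le_qq (k := k)]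
  set L := M.natDegree - N with hL
  have h1 : ∀ a ∈ box k M.natDegree, ∑ ξ ∈ box k L, E (a * ξ) M =
      if a ∈ box k N then ((qq k ^ L : ℝ) : ℂ) else 0 := by
    intro a ha
    rw [mem_box, ← degree_eq_natDegree hM.ne_zero] at ha
    rw [hE.sum_box hM (Nat.sub_le _ _), (modByMonic_eq_self_iff hM).2 ha,
      show M.natDegree - (M.natDegree - N) = N by omega]
    simp only [mem_box, hL]
  have hsub : box k N ⊆ box k M.natDegree := fun a ha => by
    rw [mem_box] at *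
    exact ha.trans_le (by exact_mod_cast hN)
  have h2 : ((qq k ^ L * qq k ^ L : ℝ) : ℂ) * ∑ v ∈ box k N ×ˢ box k N, g v =
      ∑ ξ ∈ box k L ×ˢ box k L, ∑ v ∈ box k M.natDegree ×ˢ box k M.natDegree,
        g v * E (v.1 * ξ.1 + v.2 * ξ.2) M := by
    rw [Finset.sum_comm, Finset.mul_sum]
    have h3 : ∀ v ∈ box k M.natDegree ×ˢ box k M.natDegree,
        ∑ ξ ∈ box k L ×ˢ box k L, g v * E (v.1 * ξ.1 + v.2 * ξ.2) M =
          if v ∈ box k N ×ˢ box k N then ((qq k ^ L * qq k ^ L : ℝ) : ℂ) * g v else 0 := by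
      intro v hv
      rw [mem_product] at hv
      simp only [hE.add]
      rw [← Finset.mul_sum, Finset.sum_product]
      dsimp only
      rw [← Finset.sum_mul_sum, h1 _ hv.1, h1 _ hv.2]
      simp only [mem_product]
      by_cases a1 : v.1 ∈ box k N <;> by_cases a2 : v.2 ∈ box k N <;> simp [a1, a2, mul_comm]
    rw [Finset.sum_congr rfl h3, ← Finset.sum_filter, Finset.filter_mem_eq_inter,
      Finset.inter_eq_right.2 (Finset.product_subset_product hsub hsub)]
  have h4 := congrArg norm h2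
  rw [norm_mul, Complex.norm_real, Real.norm_of_nonneg (by positivity)] at h4
  refine le_of_mul_le_mul_left ?_ (show 0 < qq k ^ L * qq k ^ L by positivity)
  rw [h4]
  refine (norm_sum_le _ _).trans ((Finset.sum_le_sum fun ξ _ => hB ξ.1 ξ.2).trans (le_of_eq ?_))
  rw [Finset.sum_const, nsmul_eq_mul, Finset.card_product, Nat.cast_mul, card_box]

theorem norm_ph {Q : Type*} [CommRing Q] {χ : Q → ℂ} (hn : ∀ x, ‖χ x‖ = 1) (H ν κ : Q)
    (v : Q × Q) : ‖ph χ H ν κ v‖ ≤ 1 := by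
  unfold ph
  split_ifs
  · exact (hn _).le
  · simp

theorem vdc [CharP k 3] {E : k[X] → k[X] → ℂ} (hE : IsE E) {r1 : k[X]} {s : Finset k[X]}
    (h1 : r1.Monic) (hs : ∀ p ∈ s, p.Monic ∧ Irreducible p) {r2 : k[X]} (hr2 : r2 = ∏ p ∈ s, p)
    (h12 : IsCoprime r1 r2) {R ν μ κ a b h : k[X]} (hR : IsCoprime R r2) (hν : IsCoprime ν r2)
    {K3 N : ℕ} (hh : ∀ d, d ∣ h → d ∣ r2 → d.natDegree ≤ K3) (hN1 : r1.natDegree ≤ N)
    (hN2 : N ≤ r2.natDegree) (T0 : k[X] → k[X] → k[X])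
    (hT : ∀ α ∈ box k N, ∀ β ∈ box k N, IsCoprime (b + R * β - μ * (a + R * α)) (r1 * r2) →
      r1 * r2 ∣ T0 α β * (b + R * β - μ * (a + R * α)) -
        ((b + R * β - μ * (a + R * α)) ^ 3 + ν * ((a + R * α) ^ 3 + κ))) :
    ‖∑ α ∈ box k N, ∑ β ∈ box k N,
      if IsCoprime (b + R * β - μ * (a + R * α)) (r1 * r2) then E (h * T0 α β) (r1 * r2)
      else 0‖ ^ 2 ≤
      qq k ^ (2 * N) * (qq k ^ (N + r1.natDegree) + nrm r2 * qq k ^ K3 * 4 ^ s.card) := by
  have hq : 0 < qq k := by linarith [two_le_qq (k := k)]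
  have hnp : ∀ p : k[X], 0 < nrm p := fun p => pow_pos hq _
  have h2 : r2.Monic := hr2 ▸ monic_prod_of_monic _ _ fun p hp => (hs p hp).1
  have hcB : (((box k N ×ˢ box k N).card : ℕ) : ℝ) = qq k ^ (2 * N) := by
    rw [Finset.card_product, Nat.cast_mul, card_box, two_mul, pow_add]
  rw [← Finset.sum_product']
  rcases hN1.eq_or_lt with hN1 | hN1
  · have h3 : ‖∑ v ∈ box k N ×ˢ box k N,
        if IsCoprime (b + R * v.2 - μ * (a + R * v.1)) (r1 * r2) then E (h * T0 v.1 v.2) (r1 * r2)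
        else 0‖ ≤ qq k ^ (2 * N) := by
      rw [← hcB, Finset.card_eq_sum_ones, Nat.cast_sum]
      refine (norm_sum_le _ _).trans (Finset.sum_le_sum fun v _ => ?_)
      split_ifs <;> simp [hE.norm]
    refine (pow_le_pow_left₀ (norm_nonneg _) h3 2).trans ?_
    rw [hN1, ← two_mul, sq]
    have := hnp r2
    gcongr
    exact le_add_of_nonneg_right (by positivity)
  obtain ⟨c2, c1, hc⟩ := h12
  have h12 : IsCoprime r1 r2 := ⟨c2, c1, hc⟩
  have hfin : Finite (AdjoinRoot r2) := Finite.of_surjective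
    (fun a : box k r2.natDegree => AdjoinRoot.mk r2 a) fun x => by
      obtain ⟨a, rfl⟩ := AdjoinRoot.mk_surjective x
      refine ⟨⟨a %ₘ r2, ?_⟩, ?_⟩
      · rw [mem_box, ← degree_eq_natDegree h2.ne_zero]
        exact degree_modByMonic_lt a h2
      · exact mk_rep h2 (AdjoinRoot.mk r2 a)
  have := Fintype.ofFinite (AdjoinRoot r2)
  set m1 := AdjoinRoot.mk r1 with hm1
  set m2 := AdjoinRoot.mk r2 with hm2
  set χ1 : AdjoinRoot r1 → ℂ := fun x =>
    E (h * c1 * r2 * AdjoinRoot.modByMonicHom h1 x) (r1 * r2) with hχ1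
  set χ : AdjoinRoot r2 → ℂ := fun x => E (AdjoinRoot.modByMonicHom h2 x) r2 with hχ
  have χm : ∀ x, χ (m2 x) = E x r2 := fun x =>
    hE.congr h2 (AdjoinRoot.mk_eq_mk.1 (mk_rep h2 _))
  have hn : ∀ x, ‖χ x‖ = 1 := fun x => hE.norm _ _
  have hadd : ∀ x y, χ (x + y) = χ x * χ y := fun x y => by simp only [hχ, map_add, hE.add]
  have hneg : ∀ x, χ (-x) = (starRingEnd ℂ) (χ x) := fun x => by simp only [hχ, map_neg, hE.neg]
  have hcard : (Fintype.card (AdjoinRoot r2) : ℝ) = nrm r2 := by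
    have := sum_mk h2 (fun _ => (1 : ℝ))
    rw [Finset.sum_const, Finset.sum_const, nsmul_eq_mul, nsmul_eq_mul, card_box,
      Finset.card_univ] at this
    simpa [nrm] using this.symm
  have hprim : ∀ A, (∀ x, χ (A * x) = 1) → A = 0 := by
    intro A hA
    obtain ⟨A, rfl⟩ := AdjoinRoot.mk_surjective A
    have h3 := hE.sum_box h2 le_rfl A
    have h4 : ∀ v, E (A * v) r2 = 1 := fun v => by rw [← χm, map_mul]; exact hA _
    simp only [h4, Finset.sum_const, nsmul_eq_mul, mul_one, Nat.sub_self] at h3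
    split_ifs at h3 with h5
    · rw [AdjoinRoot.mk_eq_zero, ← modByMonic_eq_zero_iff_dvd h2]
      exact degree_eq_bot.1 (Nat.WithBot.lt_zero_iff.1 h5)
    · have h6 : ((box k r2.natDegree).card : ℝ) = 0 := by exact_mod_cast h3
      rw [card_box] at h6
      exact absurd h6 (by positivity)
  have h3 : (3 : AdjoinRoot r2) = 0 := by
    have : (3 : k[X]) = 0 := by exact_mod_cast CharP.cast_eq_zero k[X] 3
    rw [← map_ofNat m2 3, this, map_zero]
  have hcube : ∀ y : AdjoinRoot r2, ∃ x, x ^ 3 = y := by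
    refine Finite.surjective_of_injective (f := fun x : AdjoinRoot r2 => x ^ 3) fun x y hxy => ?_
    have h4 : (x - y) ^ 3 = 0 := by
      have : x ^ 3 = y ^ 3 := hxy
      linear_combination this + (x * y ^ 2 - x ^ 2 * y) * h3
    obtain ⟨w, hw⟩ := AdjoinRoot.mk_surjective (x - y)
    rw [← hw, ← map_pow, AdjoinRoot.mk_eq_zero] at h4
    rw [← sub_eq_zero, ← hw, AdjoinRoot.mk_eq_zero, hr2]
    exact Finset.prod_dvd_of_coprime (cop_of hs) fun p hp => (hs p hp).2.prime.dvd_of_dvd_pow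
      ((hr2 ▸ Finset.dvd_prod_of_mem _ hp : p ∣ r2).trans h4)
  set f1 : k[X] × k[X] → ℂ := fun v => ph χ1 1 (m1 ν) (m1 κ)
    (m1 (a + R * v.1), m1 (b + R * v.2 - μ * (a + R * v.1))) with hf1
  set f2 : k[X] × k[X] → ℂ := fun v => ph χ (m2 (h * c2)) (m2 ν) (m2 κ)
    (m2 (a + R * v.1), m2 (b + R * v.2 - μ * (a + R * v.1))) with hf2
  have hsplit : ∀ v ∈ box k N ×ˢ box k N,
      (if IsCoprime (b + R * v.2 - μ * (a + R * v.1)) (r1 * r2) then E (h * T0 v.1 v.2) (r1 * r2)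
        else 0) = f1 v * f2 v := by
    intro v hv
    rw [mem_product] at hv
    have hT' := hT v.1 hv.1 v.2 hv.2
    simp only [hf1, hf2, ph, hm1, hm2, unit_iff]
    generalize b + R * v.2 - μ * (a + R * v.1) = z at hT' ⊢
    generalize a + R * v.1 = a' at hT' ⊢
    generalize T0 v.1 v.2 = T at hT' ⊢
    have key : ∀ M : k[X], IsCoprime z M → M ∣ T * z - (z ^ 3 + ν * (a' ^ 3 + κ)) →
        (AdjoinRoot.mk M z ^ 3 + AdjoinRoot.mk M ν * (AdjoinRoot.mk M a' ^ 3 + AdjoinRoot.mk M κ)) *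
          Ring.inverse (AdjoinRoot.mk M z) = AdjoinRoot.mk M T := by
      intro M hz hd
      have i1 := Ring.mul_inverse_cancel _ (unit_iff.2 hz)
      have i2 := AdjoinRoot.mk_eq_mk.2 hd
      simp only [map_mul, map_add, map_pow] at i2
      rw [← i2, mul_assoc, i1, mul_one]
    by_cases hz : IsCoprime z (r1 * r2)
    · have z1 := hz.of_mul_right_left
      have z2 := hz.of_mul_right_right
      rw [if_pos hz, if_pos z1, if_pos z2, key r1 z1 ((dvd_mul_right _ _).trans (hT' hz)),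
        key r2 z2 ((dvd_mul_left _ _).trans (hT' hz)), one_mul, ← map_mul, χm,
        ← hE.mul_right (a := h * c2 * T) h2 h1 (by omega), mul_comm r2 r1, hχ1]
      simp only [← hE.add]
      refine hE.congr (h1.mul h2) ?_
      obtain ⟨w, hw⟩ := AdjoinRoot.mk_eq_mk.1 (mk_rep h1 (AdjoinRoot.mk r1 T))
      exact ⟨-(h * c1 * w), by linear_combination (-(h * T)) * hc - (h * c1 * r2) * hw⟩
    · rw [if_neg hz]
      by_cases z1 : IsCoprime z r1
      · rw [if_neg (fun z2 : IsCoprime z r2 => hz (z1.mul_right z2)), mul_zero]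
      · rw [if_neg z1, zero_mul]
  rw [Finset.sum_congr rfl hsplit]
  set L := N - r1.natDegree with hL
  set σ : k[X] →+ k[X] × k[X] := (AddMonoidHom.inr _ _).comp (AddMonoidHom.mulLeft r1) with hσ
  have hσ' : ∀ (v : k[X] × k[X]) t, v + σ t = (v.1, v.2 + r1 * t) := fun v t => by
    ext <;> simp [hσ]
  have h0 : (0 : k[X]) ∈ box k L := by
    rw [mem_box, degree_zero]
    exact WithBot.bot_lt_coe _
  have hv := vdc_abs (box k N ×ˢ box k N) (box k L) σ ⟨0, h0⟩ (fun v hv t ht => by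
      rw [hσ', mem_product]
      rw [mem_product] at hv
      refine ⟨hv.1, box_add hv.2 ?_⟩
      by_cases ht0 : t = 0
      · rw [ht0, mul_zero, mem_box, degree_zero]
        exact WithBot.bot_lt_coe _
      · rw [mem_box, ← natDegree_lt_iff_degree_lt ht0] at ht
        rw [mem_box, ← natDegree_lt_iff_degree_lt (mul_ne_zero h1.ne_zero ht0),
          natDegree_mul h1.ne_zero ht0]
        omega) (fun t ht t' ht' => box_sub ht ht') f1 f2
    (fun v => norm_ph (fun x => hE.norm _ _) _ _ _ _) (fun v t => by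
      rw [hσ']
      simp only [hf1]
      congr 2
      exact AdjoinRoot.mk_eq_mk.2 ⟨R * t, by ring⟩)
  obtain ⟨ρ, hρ⟩ := (unit_iff.2 hR).exists_right_inv
  have hG : ∀ t : k[X], ‖∑ v ∈ box k N ×ˢ box k N, f2 (v + σ t) * (starRingEnd ℂ) (f2 v)‖ ≤
      nrm r2 * qq k ^ K3 * 2 ^ s.card * ∏ p ∈ s, (if p ∣ t then nrm p else 1) := by
    intro t
    refine completion hE h2 hN2 _ fun ξ1 ξ2 => ?_
    obtain ⟨A0, hA0⟩ := complete hn hadd hneg hprim h3 hcube (m2 (h * c2)) (m2 ν) (m2 κ)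
      (m2 (R * r1 * t)) (ρ * (m2 ξ1 + m2 μ * m2 ξ2)) (ρ * m2 ξ2)
      (-(ρ * (m2 a * m2 ξ1 + m2 b * m2 ξ2)))
    set Ψ : AdjoinRoot r2 × AdjoinRoot r2 → AdjoinRoot r2 × AdjoinRoot r2 := fun w =>
      (m2 a + m2 R * w.1, m2 b + m2 R * w.2 - m2 μ * (m2 a + m2 R * w.1)) with hΨ
    have hbij : Function.Bijective Ψ := Finite.injective_iff_bijective.1 fun w w' hw => by
      have e1 : m2 a + m2 R * w.1 = m2 a + m2 R * w'.1 := congrArg Prod.fst hw
      have e2 : m2 b + m2 R * w.2 - m2 μ * (m2 a + m2 R * w.1) =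
        m2 b + m2 R * w'.2 - m2 μ * (m2 a + m2 R * w'.1) := congrArg Prod.snd hw
      refine Prod.ext ?_ ?_
      · linear_combination ρ * e1 - (w.1 - w'.1) * hρ
      · linear_combination ρ * e2 + ρ * m2 μ * e1 - (w.2 - w'.2) * hρ
    rw [← hbij.sum_comp, Fintype.sum_prod_type, ← sum_mk h2] at hA0
    simp only [← sum_mk h2] at hA0
    rw [Finset.sum_product]
    refine le_trans (le_of_eq (congrArg norm (Finset.sum_congr rfl fun α _ =>
      Finset.sum_congr rfl fun β _ => ?_))) (hA0.trans ?_)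
    · rw [hσ', ← χm]
      simp only [hf2, hΨ, map_add, map_mul, map_sub, ← hm2]
      congr 2
      · congr 2
        ring
      · linear_combination (-(m2 α * m2 ξ1 + m2 β * m2 ξ2)) * hρ
    · obtain ⟨A0, rfl⟩ := AdjoinRoot.mk_surjective A0
      have h5 := root_count hs A0 (A0 * (R * r1 * t)) (h * c2 * ν * (R * r1 * t))
      rw [← hr2, Finset.card_filter, Nat.cast_sum] at h5
      rw [hcard, Finset.card_filter, Nat.cast_sum, ← sum_mk h2, mul_assoc (nrm r2 * _),
        mul_assoc (nrm r2)]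
      refine mul_le_mul_of_nonneg_left (le_trans (le_of_eq ?_) (h5.trans ?_)) (hnp r2).le
      · refine Finset.sum_congr rfl fun z _ => ?_
        simp only [← AdjoinRoot.mk_eq_zero, map_add, map_mul, map_pow, hm2]
      · have h6 : ∏ p ∈ s, (if p ∣ h then nrm p else 1) ≤ qq k ^ K3 := by
          rw [← Finset.prod_filter, ← nrm_prod fun p hp => (hs p (mem_filter.1 hp).1).1]
          refine pow_le_pow_right₀ (by linarith [two_le_qq (k := k)]) (hh _ ?_ ?_)
          · exact Finset.prod_dvd_of_coprime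
              ((cop_of hs).mono (Finset.coe_subset.2 (filter_subset _ _)))
              fun p hp => (mem_filter.1 hp).2
          · rw [hr2]
            exact Finset.prod_dvd_prod_of_subset _ _ _ (filter_subset _ _)
        refine le_trans ?_ (mul_le_mul_of_nonneg_right h6 (mul_nonneg (by positivity)
          (Finset.prod_nonneg fun p _ => by have := hnp p; positivity)))
        rw [← Finset.prod_const, ← Finset.prod_mul_distrib, ← Finset.prod_mul_distrib]
        refine Finset.prod_le_prod (fun p _ => by have := hnp p; positivity) fun p hp => ?_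
        have hp1 : 1 ≤ nrm p := one_le_pow₀ (by linarith [two_le_qq (k := k)])
        have hpr : p ∣ r2 := hr2 ▸ Finset.dvd_prod_of_mem _ hp
        have hP := (hs p hp).2.prime
        have hno : ∀ u, IsCoprime u r2 → ¬ p ∣ u := fun u hu hd =>
          hP.not_isUnit (hu.isUnit_of_dvd' hd hpr)
        by_cases a1 : p ∣ h <;> by_cases a2 : p ∣ t
        · rw [if_pos a1, if_pos a2]
          split_ifs <;> nlinarith
        · rw [if_pos a1, if_neg a2]
          split_ifs <;> nlinarith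
        · rw [if_neg a1, if_pos a2]
          split_ifs <;> nlinarith
        · rw [if_neg a1, if_neg a2, if_neg]
          · norm_num
          · exact hP.not_dvd_mul (hP.not_dvd_mul (hP.not_dvd_mul a1
              (hno c2 ⟨r1, c1, by linear_combination hc⟩)) (hno ν hν))
              (hP.not_dvd_mul (hP.not_dvd_mul (hno R hR) (hno r1 h12)) a2)
  have hG0 : ‖∑ v ∈ box k N ×ˢ box k N, f2 (v + σ 0) * (starRingEnd ℂ) (f2 v)‖ ≤
      qq k ^ (2 * N) := by
    rw [← hcB, Finset.card_eq_sum_ones, Nat.cast_sum]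
    refine (norm_sum_le _ _).trans (Finset.sum_le_sum fun v _ => ?_)
    rw [norm_mul, Complex.norm_conj, Nat.cast_one]
    exact mul_le_one₀ (norm_ph hn _ _ _ _) (norm_nonneg _) (norm_ph hn _ _ _ _)
  have hsum := Finset.sum_le_sum (s := (box k L).erase 0) fun t _ => hG t
  rw [← Finset.mul_sum] at hsum
  have hgs := mul_le_mul_of_nonneg_left (gcd_sum hs L)
    (show 0 ≤ nrm r2 * qq k ^ K3 * 2 ^ s.card by have := hnp r2; positivity)
  rw [← Finset.add_sum_erase _ _ h0, card_box, hcB] at hv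
  refine le_of_mul_le_mul_left (hv.trans ?_) (pow_pos hq L)
  rw [mul_left_comm]
  refine mul_le_mul_of_nonneg_left ?_ (by positivity)
  have e4 : (4 : ℝ) ^ s.card = 2 ^ s.card * 2 ^ s.card := by rw [← mul_pow]; norm_num
  have e5 : qq k ^ L * qq k ^ (N + r1.natDegree) = qq k ^ (2 * N) := by
    rw [← pow_add]
    congr 1
    omega
  rw [mul_add, e5, e4]
  linarith

end CL3.Vdc

end
end
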