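import Pool.Agent.MP_d0fd9b_nt.P3.M1
import Pool.Agent.H92F.Ar1
import Pool.Agent.H92F.Ar2
import Pool.Agent.MP_d0fd9b_nt.P3.M2
import Pool.Agent.MP_d0fd9b_nt.P3.M3

-- part H86M.Cnt
section

/-! h86m: counting lemmas G, DT, LAT, RAD and prime divisors (row CNT). -/

set_option autoImplicit false
open Polynomial Finset UniqueFactorizationMonoid Filter Topology CL5
open scoped Classical

noncomputable section
namespace CL3

variable {k : Type*} [Field k] [Fintype k]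

theorem mem_pf {r p : k[X]} (hr : r ≠ 0) : p ∈ pf r ↔ p.Monic ∧ Irreducible p ∧ p ∣ r := by
  unfold pf
  rw [mem_filter, mem_prs]
  exact ⟨fun h => ⟨h.1.1, h.1.2.1, h.2⟩,
    fun h => ⟨⟨h.1, h.2.1, natDegree_le_of_dvd h.2.2 hr⟩, h.2.2⟩⟩

omit [Fintype k] in
theorem cnt_coprime {p p' : k[X]} (hm : p.Monic) (hi : Irreducible p) (hm' : p'.Monic)
    (hi' : Irreducible p') (hne : p ≠ p') : IsCoprime p p' :=
  hi.coprime_iff_not_dvd.2 fun h =>
    hne (eq_of_monic_of_associated hm hm' (hi.associated_of_dvd hi' h))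

theorem PP_monic (Y : ℕ) : (PP k Y).Monic := by
  exact monic_prod_of_monic _ _ fun p hp => (mem_prs.1 hp).1

theorem PP_squarefree (Y : ℕ) : Squarefree (PP k Y) := by
  refine Finset.squarefree_prod_of_pairwise_isCoprime (fun p hp p' hp' hne => ?_)
    fun p hp => (mem_prs.1 hp).2.1.squarefree
  exact (cnt_coprime (mem_prs.1 hp).1 (mem_prs.1 hp).2.1 (mem_prs.1 hp').1 (mem_prs.1 hp').2.1
    hne).isRelPrime

theorem dvd_PP {Y : ℕ} {p : k[X]} (hp : p ∈ prs k Y) : p ∣ PP k Y := by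
  exact Finset.dvd_prod_of_mem _ hp

theorem mem_prs_of_dvd_PP {Y : ℕ} {p : k[X]} (hm : p.Monic) (hi : Irreducible p)
    (hp : p ∣ PP k Y) : p ∈ prs k Y := by
  obtain ⟨p', hp', h⟩ := (hi.prime.dvd_finsetProd_iff _).1 hp
  rw [eq_of_monic_of_associated hm (mem_prs.1 hp').1 (hi.associated_of_dvd (mem_prs.1 hp').2.1 h)]
  exact hp'

theorem mem_UU {Y K m : ℕ} {v : k[X]} :
    v ∈ UU k Y K m ↔ v.degree < (m - K : ℕ) ∧ PP k Y ^ K ∣ v := by
  unfold UU
  rw [mem_filter, mem_box]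

theorem card_UU {Y K m : ℕ} (h : K + K * (PP k Y).natDegree ≤ m) :
    ((UU k Y K m).card : ℝ) = qq k ^ (m - K - K * (PP k Y).natDegree) := by
  have hm := (PP_monic (k := k) Y).pow K
  have hd : (PP k Y ^ K).natDegree = K * (PP k Y).natDegree := (PP_monic Y).natDegree_pow K
  have h1 := card_box_class (N := m - K) hm.ne_zero (by rw [hd]; omega) 0
  rw [hd] at h1
  unfold UU
  simpa only [sub_zero] using h1

theorem sum_UU {M : Type*} [AddCommMonoid M] {Y K m : ℕ} (h : K + K * (PP k Y).natDegree ≤ m)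
    (F : k[X] → M) : ∑ v ∈ UU k Y K m, F v =
      ∑ s ∈ box k (m - K - K * (PP k Y).natDegree), F (PP k Y ^ K * s) := by
  have hm := (PP_monic (k := k) Y).pow K
  have hd : (PP k Y ^ K).natDegree = K * (PP k Y).natDegree := (PP_monic Y).natDegree_pow K
  symm
  refine Finset.sum_bij (fun s _ => PP k Y ^ K * s) (fun s hs => ?_)
    (fun a _ b _ hab => mul_left_cancel₀ hm.ne_zero hab) (fun v hv => ?_) fun _ _ => rfl
  · unfold UU
    rw [mem_filter]
    refine ⟨c91_mem fun h0 => ?_, dvd_mul_right _ _⟩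
    have hs0 : s ≠ 0 := right_ne_zero_of_mul h0
    have := c91_lt hs hs0
    rw [natDegree_mul hm.ne_zero hs0, hd]
    omega
  · unfold UU at hv
    rw [mem_filter] at hv
    obtain ⟨hv, s, rfl⟩ := hv
    refine ⟨s, c91_mem fun h0 => ?_, rfl⟩
    have := c91_lt hv (mul_ne_zero hm.ne_zero h0)
    rw [natDegree_mul hm.ne_zero h0, hd] at this
    omega

/-- `4 ^ ω (r)` is small -/
theorem exists_pow_pf (L : ℕ) : ∃ C : ℝ, 0 < C ∧ ∀ r : k[X], r ≠ 0 →
    ((4 : ℝ) ^ (pf r).card) ^ L ≤ C * qq k ^ r.natDegree := by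
  have hq := two_le_qq (k := k)
  refine ⟨((4 : ℝ) ^ L) ^ (prs k (2 * L)).card, by positivity, fun r hr => ?_⟩
  have hdv : ∏ p ∈ pf r, p ∣ r :=
    Finset.prod_dvd_of_coprime (fun p hp p' hp' hne =>
      cnt_coprime ((mem_pf hr).1 hp).1 ((mem_pf hr).1 hp).2.1 ((mem_pf hr).1 hp').1
        ((mem_pf hr).1 hp').2.1 hne) fun p hp => ((mem_pf hr).1 hp).2.2
  have hdeg : ∑ p ∈ pf r, p.natDegree ≤ r.natDegree := by
    rw [← natDegree_prod_of_monic _ _ fun p hp => ((mem_pf hr).1 hp).1]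
    exact natDegree_le_of_dvd hdv hr
  have h4 : (1 : ℝ) ≤ 4 ^ L := one_le_pow₀ (by norm_num)
  calc ((4 : ℝ) ^ (pf r).card) ^ L = ∏ _p ∈ pf r, (4 : ℝ) ^ L := by
        rw [prod_const, ← pow_mul, ← pow_mul, mul_comm]
    _ ≤ ∏ p ∈ pf r, ((if p ∈ prs k (2 * L) then (4 : ℝ) ^ L else 1) * qq k ^ p.natDegree) := by
        refine prod_le_prod (fun _ _ => by positivity) fun p hp => ?_
        split_ifs with h
        · exact le_mul_of_one_le_right (by positivity) (one_le_pow₀ (by linarith))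
        · have h2 : 2 * L ≤ p.natDegree := by
            by_contra h3
            exact h (mem_prs.2 ⟨((mem_pf hr).1 hp).1, ((mem_pf hr).1 hp).2.1, by omega⟩)
          calc (4 : ℝ) ^ L = 2 ^ (2 * L) := by rw [pow_mul]; norm_num
            _ ≤ qq k ^ (2 * L) := pow_le_pow_left₀ (by norm_num) hq _
            _ ≤ qq k ^ p.natDegree := pow_le_pow_right₀ (by linarith) h2
            _ = 1 * qq k ^ p.natDegree := (one_mul _).symm
    _ = ((4 : ℝ) ^ L) ^ ((pf r).filter (fun p => p ∈ prs k (2 * L))).card *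
          qq k ^ ∑ p ∈ pf r, p.natDegree := by
        rw [prod_mul_distrib, prod_pow_eq_pow_sum, ← prod_filter, prod_const]
    _ ≤ _ := by
        refine mul_le_mul (pow_le_pow_right₀ h4 (card_le_card fun p hp => (mem_filter.1 hp).2))
          (pow_le_pow_right₀ (by linarith) hdeg) (by positivity) (by positivity)

/-- (G) -/
theorem card_gcd_le (a b t : ℕ) :
    ((((box k a).erase 0 ×ˢ (box k b).erase 0).filter (fun z =>
      ∃ c : k[X], c.Monic ∧ t ≤ c.natDegree ∧ c ∣ z.1 ∧ c ∣ z.2)).card : ℝ) ≤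
      2 * qq k ^ (a + b) / qq k ^ t := by
  refine c91_G a b t _ fun p hp => ?_
  rw [mem_filter, mem_product, mem_erase, mem_erase] at hp
  exact ⟨hp.1.1.2, hp.1.2.2, hp.1.1.1, hp.1.2.1, hp.2⟩

/-- (DT) -/
theorem card_det_le (a b t : ℕ) (S : Finset k[X]) :
    ((((box k a ×ˢ box k b) ×ˢ (box k a ×ˢ box k b)).filter (fun z =>
      z.1.1 ≠ 0 ∧ z.1.2 ≠ 0 ∧ z.1.1 * z.2.2 - z.1.2 * z.2.1 ∈ S)).card : ℝ) ≤
      qq k ^ (a + b + t) * S.card + 2 * qq k ^ (2 * a + 2 * b + 1) / qq k ^ t := by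
  refine c91_DT a b t S _ fun p hp => ?_
  rw [mem_filter, mem_product, mem_product, mem_product] at hp
  exact ⟨hp.1.1.1, hp.1.1.2, hp.1.2.1, hp.1.2.2, hp.2⟩

/-- (LAT) -/
theorem card_lat_le (L : Submodule k[X] (k[X] × k[X])) {D : k[X]} (hD : D.Monic)
    (hL : ∀ v ∈ L, ∀ w ∈ L, D ∣ v.1 * w.2 - v.2 * w.1) (a b : ℕ) {r1 r2 : k[X] × k[X]}
    (h1 : r1 ∈ L) (h2 : r2 ∈ L) (b1 : r1 ∈ box k a ×ˢ box k b) (b2 : r2 ∈ box k a ×ˢ box k b)
    (hdet : r1.1 * r2.2 - r1.2 * r2.1 ≠ 0) :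
    (((box k a ×ˢ box k b).filter (fun v => v ∈ L)).card : ℝ) * nrm D ≤ qq k ^ (a + b) := by
  rw [mem_product] at b1 b2
  refine c91_LAT a b L hL h1 h2 b1.1 b1.2 b2.1 b2.2 hdet _ fun v hv => ?_
  rw [mem_filter, mem_product] at hv
  exact ⟨hv.2, hv.1⟩

/-- (RAD) -/
theorem exists_card_rad : ∃ C : ℝ, 0 < C ∧ ∀ i s : ℕ,
    ((((box k (i + 1)).erase 0).filter (fun c => (radical c).natDegree ≤ s)).card : ℝ) ≤
      C * Real.sqrt (qq k) ^ i * qq k ^ s := by
  have h0 := c91_pos (k := k)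
  refine ⟨qq k * Real.exp 16, by positivity, fun i s => ?_⟩
  refine (t91_rad i s _ fun c hc => ?_).trans_eq (by ring)
  rw [mem_filter, mem_erase] at hc
  exact ⟨hc.1.1, Nat.lt_succ_iff.1 (c91_lt hc.1.2 hc.1.1), hc.2⟩

end CL3

end
end

-- part H86M.Cok
section

/-! h86m: the index of the image and the total mass of the model (row COK). -/

set_option autoImplicit false
set_option linter.unusedSectionVars false
open Polynomial Finset UniqueFactorizationMonoid Filter Topology CL5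
open scoped Classical

noncomputable section
namespace CL3

variable {k : Type*} [Field k] [Fintype k]

variable [CharP k 3]

theorem cok (Y : ℕ) {K : ℕ} (hK : 1 ≤ K) : ∀ᶠ n : ℕ in atTop, ∀ f ∈ mon k n, Wsf Y f →
    ((box k (n / 2)).filter (fun g => car (g * f) - g ∈ UU k Y K (n / 2))).card =
      uu n * (UU k Y K (n / 2)).card := by
  filter_upwards [eventually_ge_atTop (6 * (K * (PP k Y).natDegree + K))] with n hn f hf hW
  obtain ⟨hfm, hfd⟩ := mem_mon.mp hf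
  have hP := PP_monic (k := k) Y
  have hd : (PP k Y ^ K).natDegree = K * (PP k Y).natDegree := hP.natDegree_pow K
  have hU : (UU k Y K (n / 2)).card = Fintype.card k ^ (n / 2 - K - (PP k Y ^ K).natDegree) := by
    have := card_UU (k := k) (Y := Y) (K := K) (m := n / 2) (by omega)
    rw [qq, ← hd] at this
    exact_mod_cast this
  rw [hU]
  refine c10_COK (Ca := car) (fun w j => coeff_co 2 w j) hP (PP_squarefree Y) hK hfm hfd ?_
    (by omega) _ ?_
  · intro p hp hpP hd2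
    have hn0 := hp.ne_zero
    have ha := normalize_associated p
    refine hW (normalize p) (mem_prs_of_dvd_PP (Polynomial.monic_normalize hn0)
      (ha.irreducible_iff.mpr hp) (ha.dvd.trans hpP)) ?_
    exact (pow_dvd_pow_of_dvd ha.dvd 2).trans hd2
  · intro g
    rw [mem_filter, mem_UU]
    refine and_congr_right fun _ => ⟨?_, ?_⟩
    · rintro ⟨h1, s, h2⟩
      refine ⟨s, c10_mem_of_mul (hP.pow K) (h2 ▸ h1), h2⟩
    · rintro ⟨s, h1, h2⟩
      exact ⟨h2 ▸ c10_mul_lt (by omega) h1, s, h2⟩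

theorem cok_UU_pos (Y K m : ℕ) : (0 : ℝ) < (UU k Y K m).card := by
  have : (0 : k[X]) ∈ UU k Y K m := mem_UU.mpr ⟨by rw [degree_zero]; exact WithBot.bot_lt_coe _, dvd_zero _⟩
  exact_mod_cast card_pos.mpr ⟨0, this⟩

theorem cok_sum_ite (U : Finset k[X]) (a g : k[X]) :
    ∑ v ∈ U, (if a = g + v then (1 : ℝ) else 0) = if a - g ∈ U then 1 else 0 := by
  rw [← Finset.sum_ite_eq U (a - g) (fun _ => (1 : ℝ))]
  refine sum_congr rfl fun v _ => ?_
  congr 1
  exact propext ⟨fun h => by rw [h]; ring, fun h => by rw [← h]; ring⟩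

theorem sum_mo1 (Y : ℕ) {K : ℕ} (hK : 1 ≤ K) : ∀ᶠ n : ℕ in atTop,
    ∑ g ∈ box k (n / 2), mo1 Y K n g = uu n * ((mon k n).filter (Wsf Y)).card := by
  filter_upwards [cok (k := k) Y hK] with n hn
  have hpos := cok_UU_pos (k := k) Y K (n / 2)
  have e1 : ∀ g v : k[X], (N1 Y n g v : ℝ) =
      ∑ f ∈ (mon k n).filter (Wsf Y), if car (g * f) = g + v then (1 : ℝ) else 0 := by
    intro g v
    rw [N1, ← filter_filter, natCast_card_filter]
  have e2 : ∀ f ∈ (mon k n).filter (Wsf Y),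
      ∑ g ∈ box k (n / 2), (if car (g * f) - g ∈ UU k Y K (n / 2) then (1 : ℝ) else 0) =
        uu n * (UU k Y K (n / 2)).card := by
    intro f hf
    rw [← natCast_card_filter, hn f (mem_filter.mp hf).1 (mem_filter.mp hf).2]
    push_cast; rfl
  simp only [mo1]
  rw [← sum_div, div_eq_iff hpos.ne']
  simp only [e1]
  have e3 : ∀ g : k[X], ∑ v ∈ UU k Y K (n / 2), ∑ f ∈ (mon k n).filter (Wsf Y),
      (if car (g * f) = g + v then (1 : ℝ) else 0) = ∑ f ∈ (mon k n).filter (Wsf Y),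
      (if car (g * f) - g ∈ UU k Y K (n / 2) then (1 : ℝ) else 0) := by
    intro g
    rw [sum_comm]
    exact sum_congr rfl fun f _ => cok_sum_ite _ _ _
  simp only [e3]
  rw [sum_comm, sum_congr rfl e2, sum_const, nsmul_eq_mul]
  ring

theorem sum_mo2 (Y : ℕ) {K : ℕ} (hK : 1 ≤ K) : ∀ᶠ n : ℕ in atTop,
    ∑ g ∈ box k (n / 2) ×ˢ box k (n / 2), mo2 Y K n g.1 g.2 =
      (uu n : ℝ) ^ 2 * ((mon k n).filter (Wsf Y)).card := by
  filter_upwards [cok (k := k) Y hK] with n hn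
  have hpos := cok_UU_pos (k := k) Y K (n / 2)
  have e1 : ∀ g1 g2 v1 v2 : k[X], (NN Y n g1 g2 v1 v2 : ℝ) =
      ∑ f ∈ (mon k n).filter (Wsf Y), (if car (g1 * f) = g1 + v1 then (1 : ℝ) else 0) *
        (if car (g2 * f) = g2 + v2 then (1 : ℝ) else 0) := by
    intro g1 g2 v1 v2
    rw [NN, ← filter_filter, natCast_card_filter]
    refine sum_congr rfl fun f _ => ?_
    by_cases h1 : car (g1 * f) = g1 + v1 <;> by_cases h2 : car (g2 * f) = g2 + v2 <;> simp [h1, h2]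
  have e2 : ∀ f ∈ (mon k n).filter (Wsf Y),
      ∑ g ∈ box k (n / 2), (if car (g * f) - g ∈ UU k Y K (n / 2) then (1 : ℝ) else 0) =
        uu n * (UU k Y K (n / 2)).card := by
    intro f hf
    rw [← natCast_card_filter, hn f (mem_filter.mp hf).1 (mem_filter.mp hf).2]
    push_cast; rfl
  simp only [mo2]
  rw [← sum_div, div_eq_iff (pow_pos hpos 2).ne']
  simp only [e1]
  have e3 : ∀ g1 g2 : k[X], ∑ v1 ∈ UU k Y K (n / 2), ∑ v2 ∈ UU k Y K (n / 2),
      ∑ f ∈ (mon k n).filter (Wsf Y), (if car (g1 * f) = g1 + v1 then (1 : ℝ) else 0) *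
        (if car (g2 * f) = g2 + v2 then (1 : ℝ) else 0) = ∑ f ∈ (mon k n).filter (Wsf Y),
      (if car (g1 * f) - g1 ∈ UU k Y K (n / 2) then (1 : ℝ) else 0) *
        (if car (g2 * f) - g2 ∈ UU k Y K (n / 2) then (1 : ℝ) else 0) := by
    intro g1 g2
    rw [sum_congr rfl (fun v1 _ => sum_comm), sum_comm]
    refine sum_congr rfl fun f _ => ?_
    rw [← sum_mul_sum, cok_sum_ite, cok_sum_ite]
  simp only [e3]
  rw [sum_comm]
  have e4 : ∀ f ∈ (mon k n).filter (Wsf Y), ∑ g ∈ box k (n / 2) ×ˢ box k (n / 2),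
      (if car (g.1 * f) - g.1 ∈ UU k Y K (n / 2) then (1 : ℝ) else 0) *
        (if car (g.2 * f) - g.2 ∈ UU k Y K (n / 2) then (1 : ℝ) else 0) =
      ((uu n : ℝ) * (UU k Y K (n / 2)).card) ^ 2 := by
    intro f hf
    rw [sum_product, sq, ← e2 f hf, sum_mul_sum]
  rw [sum_congr rfl e4, sum_const, nsmul_eq_mul]
  ring

end CL3

end
end

-- part H86M.EqA
section

/-! h86m: Cramer, invariance, the model on a good quadruple (row EQA). -/

set_option autoImplicit false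
open Polynomial Finset UniqueFactorizationMonoid Filter Topology CL5
open scoped Classical

noncomputable section
namespace CL3

variable {k : Type*} [Field k] [Fintype k]

omit [Fintype k] in
theorem eqa_mul_lt {a b : k[X]} {A B D : ℕ} (ha : a.degree < A) (hb : b.degree < B)
    (h : 0 < A → 0 < B → A + B ≤ D + 1) : (a * b).degree < D := by
  rcases eq_or_ne a 0 with rfl | ha0
  · rw [zero_mul, degree_zero]
    exact WithBot.bot_lt_coe _
  rcases eq_or_ne b 0 with rfl | hb0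
  · rw [mul_zero, degree_zero]
    exact WithBot.bot_lt_coe _
  rw [← natDegree_lt_iff_degree_lt ha0] at ha
  rw [← natDegree_lt_iff_degree_lt hb0] at hb
  rw [← natDegree_lt_iff_degree_lt (mul_ne_zero ha0 hb0), natDegree_mul ha0 hb0]
  omega

omit [Fintype k] in
theorem eqa_cube_lt {a : k[X]} {A D : ℕ} (ha : a.degree < A) (h : 0 < A → 3 * A ≤ D + 2) :
    (a ^ 3).degree < D := by
  rcases eq_or_ne a 0 with rfl | ha0
  · rw [zero_pow (by norm_num), degree_zero]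
    exact WithBot.bot_lt_coe _
  rw [← natDegree_lt_iff_degree_lt ha0] at ha
  rw [← natDegree_lt_iff_degree_lt (pow_ne_zero 3 ha0), natDegree_pow]
  omega

omit [Fintype k] in
theorem eqa_add_lt {a b : k[X]} {D : WithBot ℕ} (ha : a.degree < D) (hb : b.degree < D) :
    (a + b).degree < D := (degree_add_le a b).trans_lt (max_lt ha hb)

omit [Fintype k] in
theorem eqa_sub_lt {a b : k[X]} {D : WithBot ℕ} (ha : a.degree < D) (hb : b.degree < D) :
    (a - b).degree < D := (degree_sub_le a b).trans_lt (max_lt ha hb)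

omit [Fintype k] in
theorem eqa_lt_mono {a : k[X]} {A D : ℕ} (ha : a.degree < A) (h : A ≤ D) : a.degree < D :=
  ha.trans_le (by exact_mod_cast h)

omit [Fintype k] in
theorem eqa_deg_iff {w f : k[X]} (hw : w ≠ 0) (n : ℕ) :
    (w ^ 3 * f - w ^ 3 * X ^ n).degree < ((n + 3 * w.natDegree : ℕ) : WithBot ℕ) ↔
      (f - X ^ n).degree < (n : WithBot ℕ) := by
  rw [← mul_sub]
  rcases eq_or_ne (f - X ^ n) 0 with h | h
  · rw [h, mul_zero, degree_zero]
    exact iff_of_true (WithBot.bot_lt_coe _) (WithBot.bot_lt_coe _)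
  rw [← natDegree_lt_iff_degree_lt h,
    ← natDegree_lt_iff_degree_lt (mul_ne_zero (pow_ne_zero 3 hw) h),
    natDegree_mul (pow_ne_zero 3 hw) h, natDegree_pow]
  omega

theorem eqa_mem_mon {f : k[X]} {n : ℕ} :
    f ∈ mon k n ↔ (f - X ^ n).degree < (n : WithBot ℕ) := by
  unfold mon
  rw [Finset.mem_image]
  constructor
  · rintro ⟨a, ha, rfl⟩
    rwa [add_sub_cancel_left, ← mem_box]
  · intro h
    exact ⟨f - X ^ n, mem_box.2 h, by ring⟩

theorem eqa_count {r Q : k[X]} (hr : r ≠ 0) (hc : IsCoprime Q r) {N : ℕ} (hN : r.natDegree ≤ N)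
    (c : k[X]) :
    ∑ s ∈ box k N, (if r ∣ c - Q * s then (1 : ℝ) else 0) = qq k ^ (N - r.natDegree) := by
  obtain ⟨u, t, hu⟩ := hc
  rw [← card_box_class hr hN (u * c), Finset.card_filter]
  push_cast
  refine Finset.sum_congr rfl fun s _ => if_congr ⟨fun h => ?_, fun h => ?_⟩ rfl rfl
  · have e : s - u * c = -u * (c - Q * s) + r * (t * s) := by linear_combination (-s) * hu
    rw [e]
    exact dvd_add (h.mul_left _) (dvd_mul_right _ _)
  · have e : c - Q * s = -Q * (s - u * c) + r * (t * c) := by linear_combination (-c) * hu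
    rw [e]
    exact dvd_add (h.mul_left _) (dvd_mul_right _ _)

variable [CharP k 3]

theorem eqa_Psi {a0 a1 a2 b0 b1 b2 v1 v2 F0 F1 T : k[X]}
    (h1 : a0 * T + a1 * F1 + a2 * F0 = Phi a0 a1 a2 + v1)
    (h2 : b0 * T + b1 * F1 + b2 * F0 = Phi b0 b1 b2 + v2) :
    Psi a0 a1 a2 b0 b1 b2 T v1 v2 = (a1 * b2 - a2 * b1) ^ 3 * Phi F0 F1 T := by
  unfold Psi
  rw [← Phi_mul, ← h1, ← h2]
  congr 1 <;> ring

theorem cramer {Y K1 E m n : ℕ} {a1 a2 b1 b2 w0 r1 r2 μ : k[X]}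
    (hQ : GoodQ Y K1 E m a1 a2 b1 b2 w0 r1 r2 μ) (a0 b0 v1 v2 : k[X]) :
    NN Y n (Phi a0 a1 a2) (Phi b0 b1 b2) v1 v2 =
      ((box k (n / 3 + 1)).filter (fun T => Chi Y n w0 a0 a1 a2 b0 b1 b2 T v1 v2 ∧
        r1 * r2 ∣ (b0 - μ * a0) * T - (Phi b0 b1 b2 + v2) + μ * (Phi a0 a1 a2 + v1))).card := by
  obtain ⟨hw, hw0, -, hr1, hr2, -, -, hPr, hPw, -, -, -, hb1, hb2, -⟩ := hQ
  have hr0 : r1 * r2 ≠ 0 := (hr1.mul hr2).ne_zero
  generalize r1 * r2 = r at *
  have hwne : a1 * b2 - a2 * b1 ≠ 0 := hw ▸ mul_ne_zero hw0 hr0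
  have hw0r : IsCoprime w0 r :=
    (hPr.pow_left (m := K1)).of_isCoprime_of_dvd_left ((dvd_mul_left _ _).trans hPw)
  have hcar : ∀ c0 c1 c2 f : k[X],
      car (Phi c0 c1 c2 * f) = c0 * co 2 f + c1 * co 1 f + c2 * co 0 f := by
    intro c0 c1 c2 f
    rw [← car_Phi_mul, Phi_co]
  unfold NN
  refine Finset.card_bij (fun f _ => co 2 f) ?_ ?_ ?_
  · intro f hf
    rw [Finset.mem_filter] at hf
    obtain ⟨hf, hW, h1, h2⟩ := hf
    rw [hcar] at h1 h2
    have hP := eqa_Psi h1 h2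
    rw [Phi_co] at hP
    rw [Finset.mem_filter]
    refine ⟨?_, ⟨?_, ?_, ?_⟩, ?_⟩
    · have hb : Phi (co 0 f) (co 1 f) (co 2 f) ∈ box k (n + 1) := by
        rw [Phi_co, mem_box, degree_eq_natDegree (mem_mon.1 hf).1.ne_zero, (mem_mon.1 hf).2]
        exact_mod_cast Nat.lt_succ_self n
      exact mem_box.2 (eqa_lt_mono (mem_box.1 (Phi_mem_box.1 hb).2.2) (by omega))
    · rw [hP, hw, mul_pow, mul_assoc]
      exact dvd_mul_right _ _
    · intro p hp hd
      rw [hP, hw, mul_pow, mul_assoc, mul_comm (p ^ 2),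
        mul_dvd_mul_iff_left (pow_ne_zero 3 hw0)] at hd
      exact hW p hp
        (((hPr.of_isCoprime_of_dvd_left (dvd_PP hp)).pow (m := 2) (n := 3)).dvd_of_dvd_mul_left hd)
    · rw [hP, eqa_deg_iff hwne]
      exact eqa_mem_mon.1 hf
    · have e : (b0 - μ * a0) * co 2 f - (Phi b0 b1 b2 + v2) + μ * (Phi a0 a1 a2 + v1) =
          -((b1 - μ * a1) * co 1 f + (b2 - μ * a2) * co 0 f) := by
        rw [← h1, ← h2]
        ring
      rw [e, dvd_neg]
      exact dvd_add (hb1.mul_right _) (hb2.mul_right _)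
  · intro f hf g hg hfg
    rw [Finset.mem_filter] at hf hg
    obtain ⟨-, -, h1, h2⟩ := hf
    obtain ⟨-, -, h3, h4⟩ := hg
    rw [hcar] at h1 h2 h3 h4
    have hP := eqa_Psi h1 h2
    have hP' := eqa_Psi h3 h4
    rw [Phi_co] at hP hP'
    rw [hfg, hP'] at hP
    exact (mul_left_cancel₀ (pow_ne_zero 3 hwne) hP).symm
  · intro T hT
    rw [Finset.mem_filter] at hT
    obtain ⟨-, ⟨c1, c2, c3⟩, hd⟩ := hT
    have c1' := c1
    unfold Psi at c1'
    obtain ⟨d0, d1, -⟩ := cube_dvd_Phi.1 c1'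
    have e0 : r ∣ a1 * (Phi b0 b1 b2 + v2 - b0 * T) - b1 * (Phi a0 a1 a2 + v1 - a0 * T) := by
      have e : a1 * (Phi b0 b1 b2 + v2 - b0 * T) - b1 * (Phi a0 a1 a2 + v1 - a0 * T) =
          -a1 * ((b0 - μ * a0) * T - (Phi b0 b1 b2 + v2) + μ * (Phi a0 a1 a2 + v1)) -
            (b1 - μ * a1) * (Phi a0 a1 a2 + v1 - a0 * T) := by ring
      rw [e]
      exact dvd_sub (hd.mul_left _) (hb1.mul_right _)
    have e1 : r ∣ b2 * (Phi a0 a1 a2 + v1 - a0 * T) - a2 * (Phi b0 b1 b2 + v2 - b0 * T) := by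
      have e : b2 * (Phi a0 a1 a2 + v1 - a0 * T) - a2 * (Phi b0 b1 b2 + v2 - b0 * T) =
          a2 * ((b0 - μ * a0) * T - (Phi b0 b1 b2 + v2) + μ * (Phi a0 a1 a2 + v1)) +
            (b2 - μ * a2) * (Phi a0 a1 a2 + v1 - a0 * T) := by ring
      rw [e]
      exact dvd_add (hd.mul_left _) (hb2.mul_right _)
    obtain ⟨F0, hF0⟩ := hw0r.mul_dvd d0 e0
    obtain ⟨F1, hF1⟩ := hw0r.mul_dvd d1 e1
    rw [← hw] at hF0 hF1
    have h1 : a0 * T + a1 * F1 + a2 * F0 = Phi a0 a1 a2 + v1 := by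
      apply mul_left_cancel₀ hwne
      linear_combination (-a2) * hF0 - a1 * hF1
    have h2 : b0 * T + b1 * F1 + b2 * F0 = Phi b0 b1 b2 + v2 := by
      apply mul_left_cancel₀ hwne
      linear_combination (-b2) * hF0 - b1 * hF1
    have hP := eqa_Psi h1 h2
    refine ⟨Phi F0 F1 T, ?_, co2_Phi _ _ _⟩
    rw [Finset.mem_filter]
    refine ⟨?_, fun p hp hd' => c2 p hp ?_, ?_, ?_⟩
    · rw [hP, eqa_deg_iff hwne] at c3
      exact eqa_mem_mon.2 c3
    · rw [hP, hw, mul_pow, mul_comm (p ^ 2), mul_assoc]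
      exact mul_dvd_mul_left _ (hd'.mul_left _)
    · rw [car_Phi_mul, h1]
    · rw [car_Phi_mul, h2]

theorem eqa_Phi_shift (a0 a1 a2 α : k[X]) : Phi (a0 + α) a1 a2 = Phi a0 a1 a2 + α ^ 3 := by
  have h := Phi_add a0 a1 a2 α 0 0
  rw [add_zero, add_zero] at h
  have e : Phi α 0 0 = α ^ 3 := by
    unfold Phi
    ring
  rw [h, e]

theorem chi_inv {Y K1 K E n : ℕ} {a1 a2 b1 b2 w0 r1 r2 μ : k[X]}
    (hQ : GoodQ Y K1 E (n / 2) a1 a2 b1 b2 w0 r1 r2 μ) (hK : K1 + 4 ≤ K)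
    (ha1 : a1 ∈ box k ((n / 2 + 1) / 3)) (hb1 : b1 ∈ box k ((n / 2 + 1) / 3))
    (ha2 : a2 ∈ box k (n / 2 / 3)) (hb2 : b2 ∈ box k (n / 2 / 3)) {a0 b0 T α β τ v1 v2 : k[X]}
    (ha0 : a0 ∈ box k ((n / 2 + 2) / 3)) (hb0 : b0 ∈ box k ((n / 2 + 2) / 3))
    (hT : T ∈ box k (n / 3 + 1)) (hα : α ∈ UU k Y K ((n / 2 + 2) / 3))
    (hβ : β ∈ UU k Y K ((n / 2 + 2) / 3)) (hτ : τ ∈ UU k Y K (n / 3 + 1))
    (h1 : v1 ∈ UU k Y K (n / 2)) (h2 : v2 ∈ UU k Y K (n / 2)) :
    Chi Y n w0 (a0 + α) a1 a2 (b0 + β) b1 b2 (T + τ) v1 v2 ↔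
      Chi Y n w0 a0 a1 a2 b0 b1 b2 T 0 0 := by
  obtain ⟨hw, hw0, hdeg, hr1, hr2, -, -, -, hPw, -⟩ := hQ
  have hwne : a1 * b2 - a2 * b1 ≠ 0 := hw ▸ mul_ne_zero hw0 (hr1.mul hr2).ne_zero
  rw [mem_box] at ha1 hb1 ha2 hb2 ha0 hb0 hT
  rw [mem_UU] at hα hβ hτ h1 h2
  have hδ : ∀ {c γ v : k[X]}, c.degree < ((n / 2 + 2) / 3 : ℕ) →
      (γ.degree < ((n / 2 + 2) / 3 - K : ℕ) ∧ PP k Y ^ K ∣ γ) →
      (v.degree < (n / 2 - K : ℕ) ∧ PP k Y ^ K ∣ v) →
      (γ ^ 3 + v - (c * τ + γ * T + γ * τ)).degree < (n / 2 + 1 - K : ℕ) ∧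
        PP k Y ^ K ∣ γ ^ 3 + v - (c * τ + γ * T + γ * τ) := by
    intro c γ v hc hγ hv
    refine ⟨eqa_sub_lt (eqa_add_lt (eqa_cube_lt hγ.1 (by omega)) (eqa_lt_mono hv.1 (by omega)))
      (eqa_add_lt (eqa_add_lt (eqa_mul_lt hc hτ.1 (by omega)) (eqa_mul_lt hγ.1 hT (by omega)))
        (eqa_mul_lt hγ.1 hτ.1 (by omega))), ?_⟩
    exact dvd_sub (dvd_add (dvd_pow hγ.2 (by norm_num)) hv.2)
      (dvd_add (dvd_add (hτ.2.mul_left _) (hγ.2.mul_right _)) (hγ.2.mul_right _))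
  obtain ⟨g1, d1⟩ := hδ ha0 hα h1
  obtain ⟨g2, d2⟩ := hδ hb0 hβ h2
  have hP : Psi (a0 + α) a1 a2 (b0 + β) b1 b2 (T + τ) v1 v2 =
      Psi a0 a1 a2 b0 b1 b2 T 0 0 +
        Phi (a1 * (β ^ 3 + v2 - (b0 * τ + β * T + β * τ)) -
            b1 * (α ^ 3 + v1 - (a0 * τ + α * T + α * τ)))
          (b2 * (α ^ 3 + v1 - (a0 * τ + α * T + α * τ)) -
            a2 * (β ^ 3 + v2 - (b0 * τ + β * T + β * τ))) ((a1 * b2 - a2 * b1) * τ) := by
    unfold Psi
    rw [← Phi_add, eqa_Phi_shift a0, eqa_Phi_shift b0]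
    congr 1 <;> ring
  generalize α ^ 3 + v1 - (a0 * τ + α * T + α * τ) = δ1 at *
  generalize β ^ 3 + v2 - (b0 * τ + β * T + β * τ) = δ2 at *
  have hD : (PP k Y * w0) ^ 3 ∣
      Phi (a1 * δ2 - b1 * δ1) (b2 * δ1 - a2 * δ2) ((a1 * b2 - a2 * b1) * τ) := by
    have hK' : PP k Y * w0 ∣ PP k Y ^ K := hPw.trans (pow_dvd_pow _ (by omega))
    exact cube_dvd_Phi.2 ⟨hK'.trans (dvd_sub (d2.mul_left _) (d1.mul_left _)),
      hK'.trans (dvd_sub (d1.mul_left _) (d2.mul_left _)), hK'.trans (hτ.2.mul_left _)⟩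
  have hwd : (a1 * b2 - a2 * b1).degree < ((a1 * b2 - a2 * b1).natDegree + 1 : ℕ) := by
    rw [← natDegree_lt_iff_degree_lt hwne]
    exact Nat.lt_succ_self _
  have hG : (Phi (a1 * δ2 - b1 * δ1) (b2 * δ1 - a2 * δ2) ((a1 * b2 - a2 * b1) * τ)).degree <
      ((n + 3 * (a1 * b2 - a2 * b1).natDegree : ℕ) : WithBot ℕ) :=
    degree_Phi_lt.2 ⟨eqa_sub_lt (eqa_mul_lt ha1 g2 (by omega)) (eqa_mul_lt hb1 g1 (by omega)),
      eqa_sub_lt (eqa_mul_lt hb2 g1 (by omega)) (eqa_mul_lt ha2 g2 (by omega)),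
      eqa_mul_lt hwd hτ.1 (by omega)⟩
  unfold Chi
  rw [hP]
  generalize Phi (a1 * δ2 - b1 * δ1) (b2 * δ1 - a2 * δ2) ((a1 * b2 - a2 * b1) * τ) = Δ at *
  generalize Psi a0 a1 a2 b0 b1 b2 T 0 0 = S at *
  refine and_congr (dvd_add_left ((pow_dvd_pow_of_dvd (dvd_mul_left _ _) 3).trans hD))
    (and_congr (forall₂_congr fun p hp => not_congr (dvd_add_left (Dvd.dvd.trans ?_ hD))) ?_)
  · rw [mul_pow]
    exact mul_dvd_mul_right ((pow_dvd_pow_of_dvd (dvd_PP hp) 2).trans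
      (pow_dvd_pow _ (by norm_num))) _
  · constructor
    · intro h
      have e : S - (a1 * b2 - a2 * b1) ^ 3 * X ^ n =
        S + Δ - (a1 * b2 - a2 * b1) ^ 3 * X ^ n - Δ := by ring
      rw [e]
      exact eqa_sub_lt h hG
    · intro h
      have e : S + Δ - (a1 * b2 - a2 * b1) ^ 3 * X ^ n =
        S - (a1 * b2 - a2 * b1) ^ 3 * X ^ n + Δ := by ring
      rw [e]
      exact eqa_add_lt h hG

theorem mo2_eq {Y K1 K E n : ℕ} {a1 a2 b1 b2 w0 r1 r2 μ : k[X]}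
    (hQ : GoodQ Y K1 E (n / 2) a1 a2 b1 b2 w0 r1 r2 μ) (hK : K1 + 4 ≤ K)
    (ha1 : a1 ∈ box k ((n / 2 + 1) / 3)) (hb1 : b1 ∈ box k ((n / 2 + 1) / 3))
    (ha2 : a2 ∈ box k (n / 2 / 3)) (hb2 : b2 ∈ box k (n / 2 / 3)) {a0 b0 : k[X]}
    (ha0 : a0 ∈ box k ((n / 2 + 2) / 3)) (hb0 : b0 ∈ box k ((n / 2 + 2) / 3))
    (hn : (r1 * r2).natDegree + K + K * (PP k Y).natDegree ≤ n / 2) :
    mo2 Y K n (Phi a0 a1 a2) (Phi b0 b1 b2) =
      (((box k (n / 3 + 1)).filter (fun T => Chi Y n w0 a0 a1 a2 b0 b1 b2 T 0 0)).card : ℝ) /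
        nrm (r1 * r2) := by
  have hz : ∀ m : ℕ, (0 : k[X]) ∈ UU k Y K m := fun m =>
    mem_UU.2 ⟨by rw [degree_zero]; exact WithBot.bot_lt_coe _, dvd_zero _⟩
  have hr0 : r1 * r2 ≠ 0 := (hQ.2.2.2.1.mul hQ.2.2.2.2.1).ne_zero
  have hPr : IsCoprime (PP k Y ^ K) (r1 * r2) := hQ.2.2.2.2.2.2.2.1.pow_left
  have hU : K + K * (PP k Y).natDegree ≤ n / 2 := by omega
  have hN : (r1 * r2).natDegree ≤ n / 2 - K - K * (PP k Y).natDegree := by omega
  have hq : 0 < qq k := by linarith [two_le_qq (k := k)]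
  have key : ∀ v1 ∈ UU k Y K (n / 2),
      ∑ v2 ∈ UU k Y K (n / 2), (NN Y n (Phi a0 a1 a2) (Phi b0 b1 b2) v1 v2 : ℝ) =
        (((box k (n / 3 + 1)).filter (fun T => Chi Y n w0 a0 a1 a2 b0 b1 b2 T 0 0)).card : ℝ) *
          qq k ^ (n / 2 - K - K * (PP k Y).natDegree - (r1 * r2).natDegree) := by
    intro v1 h1
    have e1 : ∀ v2 ∈ UU k Y K (n / 2), (NN Y n (Phi a0 a1 a2) (Phi b0 b1 b2) v1 v2 : ℝ) =
        ∑ T ∈ (box k (n / 3 + 1)).filter (fun T => Chi Y n w0 a0 a1 a2 b0 b1 b2 T 0 0),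
          (if r1 * r2 ∣ (b0 - μ * a0) * T - Phi b0 b1 b2 + μ * (Phi a0 a1 a2 + v1) - v2
            then (1 : ℝ) else 0) := by
      intro v2 h2
      rw [cramer hQ, Finset.sum_boole, Finset.filter_filter]
      refine congrArg (fun s : Finset k[X] => (s.card : ℝ)) ?_
      refine Finset.filter_congr fun T hT => and_congr ?_ ?_
      · have h := chi_inv hQ hK ha1 hb1 ha2 hb2 ha0 hb0 hT (hz _) (hz _) (hz _) h1 h2
        rwa [add_zero, add_zero, add_zero] at h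
      · rw [show (b0 - μ * a0) * T - (Phi b0 b1 b2 + v2) + μ * (Phi a0 a1 a2 + v1) =
          (b0 - μ * a0) * T - Phi b0 b1 b2 + μ * (Phi a0 a1 a2 + v1) - v2 by ring]
    rw [Finset.sum_congr rfl e1, Finset.sum_comm, Finset.sum_congr rfl fun T _ =>
      (sum_UU hU _).trans (eqa_count hr0 hPr hN _), Finset.sum_const, nsmul_eq_mul]
  unfold mo2
  rw [Finset.sum_congr rfl key, Finset.sum_const, nsmul_eq_mul, card_UU hU, pow_sub₀ _ hq.ne' hN,
    nrm]
  field_simp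

end CL3

end
end

-- part H86M.EqB
section

/-! h86m: averaging over shifts (row EQB, no Cartier operator). -/

set_option autoImplicit false
open Polynomial Finset UniqueFactorizationMonoid Filter Topology CL5
open scoped Classical

noncomputable section
namespace CL3

variable {k : Type*} [Field k] [Fintype k]

/-- `χ` is invariant under the shifts, `u` is the unit condition, `T0` the class of `T` -/
theorem shift_bound {r R : k[X]} (hr : r.Monic) (hR : R.Monic) (hc : IsCoprime R r)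
    {M MT N1 N2 K3 : ℕ} (h1 : N1 + R.natDegree ≤ M) (h2 : N2 + R.natDegree ≤ MT)
    (h3 : N2 ≤ r.natDegree) (h4 : r.natDegree ≤ N2 + K3)
    (χ : k[X] → k[X] → k[X] → Prop) (u : k[X] → k[X] → Prop) (T0 : k[X] → k[X] → k[X])
    (hχ : ∀ a ∈ box k M, ∀ b ∈ box k M, ∀ T ∈ box k MT, ∀ α ∈ box k N1, ∀ β ∈ box k N1,
      ∀ τ ∈ box k N2, (χ (a + R * α) (b + R * β) (T + R * τ) ↔ χ a b T)) {B : ℝ}
    (hB : ∀ a b h : k[X], (∀ e : k[X], e ∣ h → e ∣ r → e.natDegree ≤ K3) →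
      ‖∑ z ∈ (box k N1 ×ˢ box k N1).filter (fun z => u (a + R * z.1) (b + R * z.2)),
        ee (h * T0 (a + R * z.1) (b + R * z.2)) r‖ ≤ B) :
    |∑ z ∈ (box k M ×ˢ box k M).filter (fun z => u z.1 z.2),
      ((((box k MT).filter (fun T => χ z.1 z.2 T ∧ r ∣ T - T0 z.1 z.2)).card : ℝ) -
        (((box k MT).filter (fun T => χ z.1 z.2 T)).card : ℝ) / nrm r)| ≤
      qq k ^ (2 * (M - N1) + (MT - N2)) * B := by
  have hq := Eq9.qq_pos (k := k)
  have hn := Eq9.nrm_pos r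
  have hB0 : 0 ≤ B := (norm_nonneg _).trans (hB 0 0 1 fun e he _ => by
    rw [natDegree_eq_zero_of_isUnit (isUnit_of_dvd_one he)]; exact Nat.zero_le _)
  set F : k[X] → k[X] → k[X] → ℝ := fun a b T => if u a b then
    ((if r ∣ T - T0 a b then 1 else 0) - 1 / nrm r) else 0 with hF
  set chi : k[X] → k[X] → k[X] → ℝ := fun a b T => if χ a b T then 1 else 0 with hchi
  -- expansion in characters
  have hexp : ∀ a b T, (F a b T : ℂ) = ((1 / nrm r : ℝ) : ℂ) * ∑ h ∈ (box k r.natDegree).erase 0,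
      ee (T * h) r * (if u a b then ee (-h * T0 a b) r else 0) := by
    intro a b T
    by_cases hu : u a b
    · simp only [hF, if_pos hu]
      have e1 := sum_ee_full hr (T - T0 a b)
      rw [← Finset.add_sum_erase _ _ (Eq9.zero_mem_box _), mul_zero, ee_zero] at e1
      have e2 : ∑ h ∈ (box k r.natDegree).erase 0, ee (T * h) r * ee (-h * T0 a b) r =
          ∑ h ∈ (box k r.natDegree).erase 0, ee ((T - T0 a b) * h) r :=
        Finset.sum_congr rfl fun h _ => by rw [← ee_add]; congr 1; ring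
      rw [e2, eq_sub_of_add_eq' e1]
      have hn' : ((nrm r : ℝ) : ℂ) ≠ 0 := by exact_mod_cast hn.ne'
      by_cases hd : r ∣ T - T0 a b
      · rw [if_pos hd, if_pos hd]; push_cast; field_simp
      · rw [if_neg hd, if_neg hd]; push_cast; field_simp; ring
    · simp only [hF, if_neg hu]; simp
  -- the shifted sum
  have hsh : ∀ a b T, ‖∑ al ∈ box k N1, ∑ be ∈ box k N1, ∑ t ∈ box k N2,
      (F (a + R * al) (b + R * be) (T + R * t) : ℂ)‖ ≤
      1 / nrm r * (qq k ^ (r.natDegree - N2) * (qq k ^ N2 * B)) := by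
    intro a b T
    have e1 : ∑ al ∈ box k N1, ∑ be ∈ box k N1, ∑ t ∈ box k N2,
        (F (a + R * al) (b + R * be) (T + R * t) : ℂ) =
        ((1 / nrm r : ℝ) : ℂ) * ∑ h ∈ (box k r.natDegree).erase 0,
          ee (T * h) r * (∑ t ∈ box k N2, ee ((R * h) * t) r) * ∑ al ∈ box k N1, ∑ be ∈ box k N1,
            if u (a + R * al) (b + R * be) then
              ee (-h * T0 (a + R * al) (b + R * be)) r else 0 := by
      simp only [hexp, ← Finset.mul_sum]
      congr 1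
      symm
      simp only [Finset.mul_sum, Finset.sum_mul]
      rw [Finset.sum_comm]
      refine Finset.sum_congr rfl fun al _ => ?_
      rw [Finset.sum_comm]
      refine Finset.sum_congr rfl fun be _ => ?_
      rw [Finset.sum_comm]
      refine Finset.sum_congr rfl fun t _ => Finset.sum_congr rfl fun h _ => ?_
      rw [← ee_add]; congr 2; ring
    rw [e1, norm_mul, Complex.norm_real, Real.norm_of_nonneg (by positivity)]
    refine mul_le_mul_of_nonneg_left ?_ (by positivity)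
    refine (norm_sum_le _ _).trans ?_
    have e2 : ∀ h ∈ (box k r.natDegree).erase 0,
        ‖ee (T * h) r * (∑ t ∈ box k N2, ee ((R * h) * t) r) * ∑ al ∈ box k N1, ∑ be ∈ box k N1,
            if u (a + R * al) (b + R * be) then
              ee (-h * T0 (a + R * al) (b + R * be)) r else 0‖ ≤
        if ((R * h) %ₘ r).degree < (r.natDegree - N2 : ℕ) then qq k ^ N2 * B else 0 := by
      intro h hh
      rw [Finset.mem_erase] at hh
      rw [sum_ee_box hr h3, norm_mul, norm_mul, norm_ee, one_mul]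
      by_cases hd : ((R * h) %ₘ r).degree < (r.natDegree - N2 : ℕ)
      · rw [if_pos hd, if_pos hd, Complex.norm_real, Real.norm_of_nonneg (by positivity)]
        refine mul_le_mul_of_nonneg_left ?_ (by positivity)
        have hl0 : (R * h) %ₘ r ≠ 0 := by
          intro h0
          rw [modByMonic_eq_zero_iff_dvd hr] at h0
          have hd2 : r ∣ h := hc.symm.dvd_of_dvd_mul_left h0
          have hlt := mem_box.1 hh.2
          rw [← degree_eq_natDegree hr.ne_zero] at hlt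
          exact hh.1 (eq_zero_of_dvd_of_degree_lt hd2 hlt)
        have := hB a b (-h) fun e he her => by
          have e3 := modByMonic_add_div (R * h) r
          have e4 : e ∣ (R * h) %ₘ r := by
            have := dvd_sub ((dvd_neg.1 he).mul_left R) (her.mul_right ((R * h) /ₘ r))
            convert this using 1; linear_combination e3
          have e5 := natDegree_le_of_dvd e4 hl0
          have e6 := (natDegree_lt_iff_degree_lt hl0).2 hd
          omega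
        rwa [Finset.sum_filter, Finset.sum_product] at this
      · rw [if_neg hd, if_neg hd, norm_zero, zero_mul]
    refine (Finset.sum_le_sum e2).trans ?_
    refine (Finset.sum_le_sum_of_subset_of_nonneg (Finset.erase_subset _ _) ?_).trans ?_
    · intro h _ _; split_ifs
      · positivity
      · exact le_rfl
    · rw [← Finset.sum_filter, Finset.sum_const, nsmul_eq_mul]
      exact mul_le_mul_of_nonneg_right (Eq9.card_dual hr hc _) (by positivity)
  have hav := Eq9.avg3 (m0 := M) (nT := MT) (N1 := N1) (N2 := N2) (R := R) (by omega) (by omega)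
    (fun a b T => ((chi a b T * F a b T : ℝ) : ℂ))
  have hS : (∑ z ∈ (box k M ×ˢ box k M).filter (fun z => u z.1 z.2),
      ((((box k MT).filter (fun T => χ z.1 z.2 T ∧ r ∣ T - T0 z.1 z.2)).card : ℝ) -
        (((box k MT).filter (fun T => χ z.1 z.2 T)).card : ℝ) / nrm r)) =
      ∑ a ∈ box k M, ∑ b ∈ box k M, ∑ T ∈ box k MT, chi a b T * F a b T := by
    rw [Finset.sum_filter, Finset.sum_product]
    refine Finset.sum_congr rfl fun a _ => Finset.sum_congr rfl fun b _ => ?_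
    by_cases hu : u a b
    · simp only [hF, hchi, if_pos hu, Finset.card_filter]
      push_cast
      rw [Finset.sum_div, ← Finset.sum_sub_distrib]
      refine Finset.sum_congr rfl fun T _ => ?_
      by_cases c1 : χ a b T <;> by_cases c2 : r ∣ T - T0 a b <;> simp [c1, c2]
    · simp only [hF, if_neg hu]; simp
  rw [hS]
  set S := ∑ a ∈ box k M, ∑ b ∈ box k M, ∑ T ∈ box k MT, chi a b T * F a b T with hSd
  have hSc : (∑ a ∈ box k M, ∑ b ∈ box k M, ∑ T ∈ box k MT,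
      ((chi a b T * F a b T : ℝ) : ℂ)) = (S : ℂ) := by rw [hSd]; push_cast; rfl
  rw [hSc] at hav
  have hbd : qq k ^ (2 * N1 + N2) * |S| ≤
      qq k ^ (2 * M + MT) * (1 / nrm r * (qq k ^ (r.natDegree - N2) * (qq k ^ N2 * B))) := by
    have e1 : qq k ^ (2 * N1 + N2) * |S| = ‖((qq k ^ (2 * N1 + N2) : ℝ) : ℂ) * (S : ℂ)‖ := by
      rw [norm_mul, Complex.norm_real, Complex.norm_real, Real.norm_of_nonneg (by positivity),
        Real.norm_eq_abs]
    rw [e1, hav]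
    have e2 : ∀ a ∈ box k M, ∀ b ∈ box k M, ∀ T ∈ box k MT,
        ‖∑ al ∈ box k N1, ∑ be ∈ box k N1, ∑ t ∈ box k N2,
          ((chi (a + R * al) (b + R * be) (T + R * t) *
            F (a + R * al) (b + R * be) (T + R * t) : ℝ) : ℂ)‖ ≤
          1 / nrm r * (qq k ^ (r.natDegree - N2) * (qq k ^ N2 * B)) := by
      intro a ha b hb T hT
      have hinv : ∀ al ∈ box k N1, ∀ be ∈ box k N1, ∀ t ∈ box k N2,
          chi (a + R * al) (b + R * be) (T + R * t) = chi a b T := fun al hal be hbe t ht => by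
        simp only [hchi, hχ a ha b hb T hT al hal be hbe t ht]
      rw [Finset.sum_congr rfl fun al hal => Finset.sum_congr rfl fun be hbe =>
        Finset.sum_congr rfl fun t ht => by rw [hinv al hal be hbe t ht, Complex.ofReal_mul]]
      simp only [← Finset.mul_sum]
      rw [norm_mul, Complex.norm_real, Real.norm_eq_abs]
      have e3 : |chi a b T| ≤ 1 := by simp only [hchi]; split_ifs <;> simp
      exact (mul_le_mul e3 (hsh a b T) (norm_nonneg _) zero_le_one).trans (by rw [one_mul])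
    refine (norm_sum_le_of_le _ fun a ha => norm_sum_le_of_le _ fun b hb =>
      norm_sum_le_of_le _ fun T hT => e2 a ha b hb T hT).trans ?_
    simp only [Finset.sum_const, nsmul_eq_mul, card_box]
    apply le_of_eq; ring
  have hp : 0 < qq k ^ (2 * N1 + N2) := by positivity
  refine le_of_mul_le_mul_left (hbd.trans (le_of_eq ?_)) hp
  have e1 : qq k ^ (r.natDegree - N2) * qq k ^ N2 = nrm r := by
    rw [← pow_add, Nat.sub_add_cancel h3]; rfl
  have e2 : qq k ^ (2 * M + MT) =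
      qq k ^ (2 * N1 + N2) * qq k ^ (2 * (M - N1) + (MT - N2)) := by
    rw [← pow_add]; congr 1; omega
  rw [← mul_assoc (qq k ^ (r.natDegree - N2)), e1, e2]
  field_simp

end CL3

end
end

-- part H86M.Vdc
section

/-! h86m: one van der Corput step (row VDC). -/

set_option autoImplicit false
open Polynomial Finset UniqueFactorizationMonoid Filter Topology CL5
open scoped Classical

noncomputable section
namespace CL3

variable {k : Type*} [Field k] [Fintype k]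

theorem vdc_pf {r : k[X]} (hr : r.Monic) (hs : Squarefree r) :
    (∀ p ∈ pf r, p.Monic ∧ Irreducible p) ∧ r = ∏ p ∈ pf r, p := by
  have h1 : ∀ p, p ∈ pf r ↔ Irreducible p ∧ p.Monic ∧ p ∣ r := fun p => by
    rw [pf, mem_filter, mem_prs]
    exact ⟨fun h => ⟨h.1.2.1, h.1.1, h.2⟩, fun h =>
      ⟨⟨h.2.1, h.1, natDegree_le_of_dvd h.2.2 hr.ne_zero⟩, h.2.2⟩⟩
  refine ⟨fun p hp => ⟨((h1 p).1 hp).2.1, ((h1 p).1 hp).1⟩, ?_⟩
  have hn := (squarefree_iff_nodup_normalizedFactors hr.ne_zero).1 hs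
  have h2 : pf r = ⟨normalizedFactors r, hn⟩ := by
    ext p
    rw [h1, Finset.mem_mk, Polynomial.mem_normalizedFactors_iff hr.ne_zero]
  rw [h2, Finset.prod_mk, Multiset.map_id', prod_normalizedFactors_eq hr.ne_zero,
    hr.normalize_eq_self]

variable [CharP k 3]

theorem vdc {r1 r2 R ν μ κ a b h : k[X]} (h1 : r1.Monic) (h2 : r2.Monic)
    (hs : Squarefree (r1 * r2)) (hR : IsCoprime R (r1 * r2)) (hν : IsCoprime ν (r1 * r2))
    {N K3 : ℕ} (hh : ∀ e : k[X], e ∣ h → e ∣ r2 → e.natDegree ≤ K3) (_d1 : 1 ≤ r1.natDegree)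
    (hN1 : r1.natDegree ≤ N) (hN2 : N ≤ r2.natDegree) (T0 : k[X] → k[X] → k[X])
    (hT : ∀ α β : k[X], IsCoprime (b + R * β - μ * (a + R * α)) (r1 * r2) →
      r1 * r2 ∣ T0 α β * (b + R * β - μ * (a + R * α)) -
        ((b + R * β - μ * (a + R * α)) ^ 3 + ν * ((a + R * α) ^ 3 + κ))) :
    ‖∑ z ∈ (box k N ×ˢ box k N).filter
        (fun z => IsCoprime (b + R * z.2 - μ * (a + R * z.1)) (r1 * r2)),
      ee (h * T0 z.1 z.2) (r1 * r2)‖ ^ 2 ≤
      qq k ^ (2 * N) * (qq k ^ (N + r1.natDegree) + nrm r2 * qq k ^ K3 * 4 ^ (pf r2).card) := by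
  obtain ⟨p1, p2⟩ := vdc_pf h2 hs.of_mul_right
  rw [Finset.sum_filter, Finset.sum_product]
  exact Vdc.vdc ⟨norm_ee, ee_add, ee_neg, ee_congr, ee_mul_right, fun hM _ hN => sum_ee_box hM hN⟩
    h1 p1 p2 (IsRelPrime.of_squarefree_mul hs).isCoprime hR.of_mul_right_right
    hν.of_mul_right_right hh hN1 hN2 T0 fun α _ β _ => hT α β

end CL3

end
end

-- part H86M.Eq
section

/-! h86m: real minus model on good pairs (row EQ). -/

set_option autoImplicit false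
open Polynomial Finset UniqueFactorizationMonoid Filter Topology CL5
open scoped Classical

noncomputable section
namespace CL3

variable {k : Type*} [Field k] [Fintype k]

theorem eq_le_of_sq {a b : ℝ} (h : a ^ 2 ≤ b ^ 2) (hb : 0 ≤ b) : a ≤ b :=
  (abs_le_of_sq_le_sq' h hb).2

theorem eq_num {q ε C x : ℝ} (hq : 1 ≤ q) (hε : 0 < ε) {K3 N1 M d1 d2 E j1 : ℕ} (hN : N1 ≤ M)
    (h1 : d1 + j1 ≤ M) (h2 : d2 + E ≤ 2 * M) (hj1 : 2 * q ^ (6 * K3) ≤ ε ^ 2 * q ^ j1)
    (hx0 : 0 ≤ x) (hx : x ^ 2 ≤ C * q ^ E) (hj2 : 4 * C * q ^ (14 * K3) ≤ ε ^ 4 * q ^ E) :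
    q ^ (3 * K3) * Real.sqrt (q ^ (2 * N1) * (q ^ (N1 + d1) + q ^ d2 * q ^ K3 * x)) ≤
      ε * q ^ (2 * M) := by
  have hq0 : 0 < q := by linarith
  refine eq_le_of_sq ?_ (by positivity)
  rw [mul_pow, Real.sq_sqrt (by positivity)]
  have t1 : 2 * (q ^ (6 * K3) * q ^ (3 * N1 + d1)) ≤ ε ^ 2 * q ^ (4 * M) := by
    have e1 : q ^ j1 * q ^ (3 * N1 + d1) ≤ q ^ (4 * M) := by
      rw [← pow_add]; exact pow_le_pow_right₀ hq (by omega)
    calc 2 * (q ^ (6 * K3) * q ^ (3 * N1 + d1)) = (2 * q ^ (6 * K3)) * q ^ (3 * N1 + d1) := by ring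
      _ ≤ (ε ^ 2 * q ^ j1) * q ^ (3 * N1 + d1) := by gcongr
      _ = ε ^ 2 * (q ^ j1 * q ^ (3 * N1 + d1)) := by ring
      _ ≤ _ := by gcongr
  have t2 : 2 * q ^ (7 * K3) * x ≤ ε ^ 2 * q ^ E := by
    refine eq_le_of_sq ?_ (by positivity)
    calc (2 * q ^ (7 * K3) * x) ^ 2 = 4 * q ^ (14 * K3) * x ^ 2 := by ring
      _ ≤ 4 * q ^ (14 * K3) * (C * q ^ E) := by gcongr
      _ = (4 * C * q ^ (14 * K3)) * q ^ E := by ring
      _ ≤ (ε ^ 4 * q ^ E) * q ^ E := by gcongr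
      _ = _ := by ring
  have t3 : 2 * (q ^ (7 * K3) * x * q ^ (2 * N1 + d2)) ≤ ε ^ 2 * q ^ (4 * M) := by
    have e1 : q ^ E * q ^ (2 * N1 + d2) ≤ q ^ (4 * M) := by
      rw [← pow_add]; exact pow_le_pow_right₀ hq (by omega)
    calc 2 * (q ^ (7 * K3) * x * q ^ (2 * N1 + d2)) =
          (2 * q ^ (7 * K3) * x) * q ^ (2 * N1 + d2) := by ring
      _ ≤ (ε ^ 2 * q ^ E) * q ^ (2 * N1 + d2) := by gcongr
      _ = ε ^ 2 * (q ^ E * q ^ (2 * N1 + d2)) := by ring
      _ ≤ _ := by gcongr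
  have e : (q ^ (3 * K3)) ^ 2 * (q ^ (2 * N1) * (q ^ (N1 + d1) + q ^ d2 * q ^ K3 * x)) =
      q ^ (6 * K3) * q ^ (3 * N1 + d1) + q ^ (7 * K3) * x * q ^ (2 * N1 + d2) := by ring
  have e' : (ε * q ^ (2 * M)) ^ 2 = ε ^ 2 * q ^ (4 * M) := by ring
  rw [e, e']; linarith

theorem eq_mul_mem_box {i j N : ℕ} {a b : k[X]} (ha : a ∈ box k i) (hb : b ∈ box k j)
    (h : i + j ≤ N + 1) : a * b ∈ box k N := by
  rw [Eq9.mem_box_iff] at ha hb ⊢
  intro h0
  have h1 := ha (left_ne_zero_of_mul h0)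
  have h2 := hb (right_ne_zero_of_mul h0)
  have := natDegree_mul_le (p := a) (q := b)
  omega

theorem eq_exists_pow (A : ℝ) {c : ℝ} (hc : 0 < c) : ∃ j : ℕ, ∀ i, j ≤ i → A ≤ c * qq k ^ i := by
  have h1 : (1 : ℝ) < qq k := by linarith [two_le_qq (k := k)]
  obtain ⟨j, hj⟩ := eventually_atTop.1
    ((tendsto_pow_atTop_atTop_of_one_lt h1).eventually_ge_atTop (A / c))
  exact ⟨j, fun i hi => by have := hj i hi; rwa [div_le_iff₀' hc] at this⟩

variable [CharP k 3]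

theorem eq_small (Y K1 : ℕ) {K L : ℕ} (hK : K1 + 4 ≤ K) (hL : 12 ≤ L) {ε : ℝ} (hε : 0 < ε) :
    ∀ᶠ n : ℕ in atTop, ∀ a1 ∈ box k ((n / 2 + 1) / 3), ∀ a2 ∈ box k (n / 2 / 3),
      ∀ b1 ∈ box k ((n / 2 + 1) / 3), ∀ b2 ∈ box k (n / 2 / 3),
        IsGoodQ Y K1 (n / 2 / L) (n / 2) a1 a2 b1 b2 →
        |∑ z ∈ (box k ((n / 2 + 2) / 3) ×ˢ box k ((n / 2 + 2) / 3)).filter
            (fun z => IsCoprime (a1 * z.2 - b1 * z.1) (rr Y (a1 * b2 - a2 * b1))),
          (re2 Y n (Phi z.1 a1 a2) (Phi z.2 b1 b2) - mo2 Y K n (Phi z.1 a1 a2) (Phi z.2 b1 b2))| ≤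
          ε * qq k ^ (2 * ((n / 2 + 2) / 3)) := by
  obtain ⟨C, hC, hpf⟩ := exists_pow_pf (k := k) (4 * L)
  have hq1 : (1 : ℝ) ≤ qq k := by linarith [two_le_qq (k := k)]
  have hq0 : (0 : ℝ) < qq k := by linarith
  set d := (PP k Y).natDegree with hd
  set K3 := K + K * d with hK3
  obtain ⟨j1, hj1⟩ := eq_exists_pow (k := k) (2 * qq k ^ (6 * K3)) (c := ε ^ 2) (by positivity)
  obtain ⟨j2, hj2⟩ := eq_exists_pow (k := k) (4 * (C + 1) * qq k ^ (14 * K3)) (c := ε ^ 4)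
    (by positivity)
  filter_upwards [eventually_ge_atTop (2 * (L * (j2 + 1)) + 12 * j1 + 24 * K3 + 100)]
    with n hn a1 ha1 a2 ha2 b1 hb1 b2 hb2 hG
  obtain ⟨w0, r1, r2, μ, hQ⟩ := hG
  have hQ' := hQ
  obtain ⟨hw, hw0, hdw, m1, m2, hrr, hsq, hPr, hPw, hE, h6, hca, hμ1, hμ2, hν⟩ := hQ'
  have hr : (r1 * r2).Monic := m1.mul m2
  have hdr : (r1 * r2).natDegree = r1.natDegree + r2.natDegree := m1.natDegree_mul m2
  have hPm := PP_monic (k := k) Y
  have hRm : (PP k Y ^ K).Monic := hPm.pow K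
  have hdR : (PP k Y ^ K).natDegree = K * d := hPm.natDegree_pow K
  have hRr : IsCoprime (PP k Y ^ K) (r1 * r2) := hPr.pow_left
  have hwne : a1 * b2 - a2 * b1 ≠ 0 := by rw [hw]; exact mul_ne_zero hw0 hr.ne_zero
  have hdw1 : (a1 * b2 - a2 * b1).natDegree = w0.natDegree + (r1.natDegree + r2.natDegree) := by
    rw [hw, natDegree_mul hw0 hr.ne_zero, hdr]
  have hdw2 : (a1 * b2 - a2 * b1).natDegree < (n / 2 + 1) / 3 + n / 2 / 3 - 1 := by
    refine Eq9.mem_box_iff.1 (Eq9.sub_mem_box ?_ ?_) hwne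
    · exact eq_mul_mem_box ha1 hb2 (by omega)
    · exact eq_mul_mem_box ha2 hb1 (by omega)
  have hdw0 : w0.natDegree ≤ K1 * d := by
    have := natDegree_le_of_dvd hPw (hPm.pow K1).ne_zero
    rw [natDegree_mul hPm.ne_zero hw0, hPm.natDegree_pow, ← hd] at this
    omega
  have hKd : K1 * d ≤ K * d := Nat.mul_le_mul_right d (by omega)
  have hE1 : j2 + 1 ≤ n / 2 / L := by
    rw [Nat.le_div_iff_mul_le (by omega), mul_comm]; omega
  have hE2 : n / 2 ≤ 2 * L * (n / 2 / L) := by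
    have e1 := Nat.div_add_mod (n / 2) L
    have e2 := Nat.mod_lt (n / 2) (by omega : 0 < L)
    have e3 : L * 1 ≤ L * (n / 2 / L) := Nat.mul_le_mul_left L (by omega)
    have e4 : 2 * L * (n / 2 / L) = 2 * (L * (n / 2 / L)) := by ring
    omega
  have hu : ∀ a b : k[X], IsCoprime (a1 * b - b1 * a) (r1 * r2) ↔
      IsCoprime (b - μ * a) (r1 * r2) := by
    intro a b
    obtain ⟨s, hs⟩ := hμ1
    have e : a1 * b - b1 * a = a1 * (b - μ * a) + r1 * r2 * (-(s * a)) := by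
      linear_combination (-a) * hs
    rw [e, IsCoprime.add_mul_left_left_iff]
    exact ⟨fun h => h.of_mul_left_right, fun h => hca.mul_left h⟩
  have hex : ∀ a b : k[X], ∃ T : k[X], IsCoprime (b - μ * a) (r1 * r2) →
      r1 * r2 ∣ T * (b - μ * a) - (Phi b b1 b2 - μ * Phi a a1 a2) := by
    intro a b
    by_cases h : IsCoprime (b - μ * a) (r1 * r2)
    · obtain ⟨s, t, hst⟩ := h
      exact ⟨s * (Phi b b1 b2 - μ * Phi a a1 a2), fun _ =>
        ⟨-(t * (Phi b b1 b2 - μ * Phi a a1 a2)), by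
          linear_combination (Phi b b1 b2 - μ * Phi a a1 a2) * hst⟩⟩
    · exact ⟨0, fun h' => absurd h' h⟩
  choose T0 hT0 using hex
  rw [← hrr]
  set N1 := (n / 2 + 2) / 3 - K3 with hN1
  set N2 := n / 3 + 1 - K3 with hN2
  have hUU : ∀ {M : ℕ} {s : k[X]}, K3 ≤ M → s ∈ box k (M - K3) → PP k Y ^ K * s ∈ UU k Y K M := by
    intro M s hM hs
    exact mem_UU.2 ⟨mem_box.1 (Eq9.mul_mem_box (by omega) hs), dvd_mul_right _ _⟩
  have h0U : (0 : k[X]) ∈ UU k Y K (n / 2) :=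
    mem_UU.2 ⟨mem_box.1 (Eq9.zero_mem_box _), dvd_zero _⟩
  have key := shift_bound (M := (n / 2 + 2) / 3) (MT := n / 3 + 1) (N1 := N1) (N2 := N2) (K3 := K3)
    hr hRm hRr (by omega) (by omega) (by omega) (by omega)
    (fun a b T => Chi Y n w0 a a1 a2 b b1 b2 T 0 0)
    (fun a b => IsCoprime (a1 * b - b1 * a) (r1 * r2)) T0
    (fun a ha b hb T hT α hα β hβ τ hτ => chi_inv hQ hK ha1 hb1 ha2 hb2 ha hb hT
      (hUU (by omega) hα) (hUU (by omega) hβ) (hUU (by omega) hτ) h0U h0U)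
    (B := Real.sqrt (qq k ^ (2 * N1) *
      (qq k ^ (N1 + r1.natDegree) + nrm r2 * qq k ^ K3 * 4 ^ (pf r2).card))) ?_
  · refine le_trans (le_of_eq ?_) (key.trans ?_)
    · congr 1
      refine Finset.sum_congr rfl fun z hz => ?_
      have hz' := (hu _ _).1 (Finset.mem_filter.1 hz).2
      rw [mo2_eq hQ hK ha1 hb1 ha2 hb2 (Finset.mem_product.1 (Finset.mem_filter.1 hz).1).1
        (Finset.mem_product.1 (Finset.mem_filter.1 hz).1).2 (by rw [← hd]; omega), re2, cramer hQ]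
      congr 3
      refine Finset.filter_congr fun T _ => and_congr_right fun _ => ?_
      have h3 := hT0 z.1 z.2 hz'
      constructor
      · intro h
        refine hz'.symm.dvd_of_dvd_mul_left ?_
        have := dvd_sub h h3
        convert this using 1; ring
      · intro h
        have := dvd_add (h.mul_left (z.2 - μ * z.1)) h3
        convert this using 1; ring
    · have e : 2 * ((n / 2 + 2) / 3 - N1) + (n / 3 + 1 - N2) = 3 * K3 := by omega
      rw [e]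
      refine eq_num (C := C + 1) (E := n / 2 / L) (j1 := j1) hq1 hε (by omega) (by omega)
        (by omega) (hj1 _ le_rfl) (by positivity) ?_ (hj2 _ (by omega))
      refine le_of_pow_le_pow_left₀ (n := 2 * L) (by omega) (by positivity) ?_
      have e1 := hpf r2 m2.ne_zero
      have e2 : qq k ^ r2.natDegree ≤ (qq k ^ (n / 2 / L)) ^ (2 * L) := by
        rw [← pow_mul]; exact pow_le_pow_right₀ hq1 (by rw [mul_comm]; omega)
      have e3 : C ≤ (C + 1) ^ (2 * L) :=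
        (by linarith : C ≤ C + 1).trans (le_self_pow₀ (by linarith) (by omega))
      rw [← pow_mul, mul_pow, show 2 * (2 * L) = 4 * L by ring]
      exact e1.trans (mul_le_mul e3 e2 (by positivity) (by positivity))
  · intro a b h hh
    apply Real.le_sqrt_of_sq_le
    rw [Finset.filter_congr fun z _ => hu (a + PP k Y ^ K * z.1) (b + PP k Y ^ K * z.2)]
    refine vdc (ν := μ ^ 3 - μ) (κ := X * a1 ^ 3 + X ^ 2 * a2 ^ 3) m1 m2 hsq hRr hν
      (fun e he her => hh e he (her.mul_left r1)) (by omega) (by omega) (by omega)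
      (fun α β => T0 (a + PP k Y ^ K * α) (b + PP k Y ^ K * β)) fun α β hc => ?_
    generalize a + PP k Y ^ K * α = a' at hc ⊢
    generalize b + PP k Y ^ K * β = b' at hc ⊢
    have c1 := (hμ1.trans (sub_dvd_pow_sub_pow b1 (μ * a1) 3)).mul_left X
    have c2 := (hμ2.trans (sub_dvd_pow_sub_pow b2 (μ * a2) 3)).mul_left (X ^ 2)
    have := dvd_add (hT0 a' b' hc) (dvd_add c1 c2)
    convert this using 1
    rw [sub_pow_char]; unfold Phi; ring

theorem eq_total (Y K1 : ℕ) {K L : ℕ} (hK : K1 + 4 ≤ K) (hL : 12 ≤ L) {ε : ℝ} (hε : 0 < ε) :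
    ∀ᶠ n : ℕ in atTop,
      |∑ g ∈ Gd k Y K1 (n / 2 / L) (n / 2), (re2 Y n g.1 g.2 - mo2 Y K n g.1 g.2)| ≤
        ε * qq k ^ (2 * (n / 2)) := by
  filter_upwards [eq_small (k := k) Y K1 hK hL hε] with n hn
  have hq0 : (0 : ℝ) < qq k := Eq9.qq_pos
  set m := n / 2 with hm
  set G : k[X] → k[X] → k[X] → k[X] → ℝ := fun a1 a2 b1 b2 =>
    if IsGoodQ Y K1 (m / L) m a1 a2 b1 b2 then
      ∑ z ∈ (box k ((m + 2) / 3) ×ˢ box k ((m + 2) / 3)).filter
        (fun z => IsCoprime (a1 * z.2 - b1 * z.1) (rr Y (a1 * b2 - a2 * b1))),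
        (re2 Y n (Phi z.1 a1 a2) (Phi z.2 b1 b2) - mo2 Y K n (Phi z.1 a1 a2) (Phi z.2 b1 b2))
    else 0 with hG
  have e : ∑ g ∈ Gd k Y K1 (m / L) m, (re2 Y n g.1 g.2 - mo2 Y K n g.1 g.2) =
      ∑ a1 ∈ box k ((m + 1) / 3), ∑ a2 ∈ box k (m / 3), ∑ b1 ∈ box k ((m + 1) / 3),
        ∑ b2 ∈ box k (m / 3), G a1 a2 b1 b2 := by
    unfold Gd
    rw [Finset.sum_filter, Finset.sum_product, sum_box_Phi, Finset.sum_comm]
    refine Finset.sum_congr rfl fun a1 _ => ?_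
    rw [Finset.sum_comm]
    refine Finset.sum_congr rfl fun a2 _ => ?_
    simp only [sum_box_Phi m, co0_Phi, co1_Phi, co2_Phi]
    rw [← Finset.sum_product', Finset.sum_comm]
    refine Finset.sum_congr rfl fun b1 _ => ?_
    rw [Finset.sum_comm]
    refine Finset.sum_congr rfl fun b2 _ => ?_
    simp only [hG]
    split_ifs with h
    · rw [Finset.sum_filter]; simp only [h, true_and]
    · simp only [h, false_and, if_false, Finset.sum_const_zero]
  rw [e]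
  have h2 : ∀ a1 ∈ box k ((m + 1) / 3), ∀ a2 ∈ box k (m / 3), ∀ b1 ∈ box k ((m + 1) / 3),
      ∀ b2 ∈ box k (m / 3), ‖G a1 a2 b1 b2‖ ≤ ε * qq k ^ (2 * ((m + 2) / 3)) := by
    intro a1 ha1 a2 ha2 b1 hb1 b2 hb2
    simp only [hG]
    split_ifs with h
    · exact hn a1 ha1 a2 ha2 b1 hb1 b2 hb2 h
    · rw [norm_zero]; positivity
  refine (norm_sum_le_of_le _ fun a1 ha1 => norm_sum_le_of_le _ fun a2 ha2 =>
    norm_sum_le_of_le _ fun b1 hb1 => norm_sum_le_of_le _ fun b2 hb2 =>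
      h2 a1 ha1 a2 ha2 b1 hb1 b2 hb2).trans (le_of_eq ?_)
  simp only [Finset.sum_const, nsmul_eq_mul, card_box]
  have e2 : 2 * m = (m + 1) / 3 + (m / 3 + ((m + 1) / 3 + (m / 3 + 2 * ((m + 2) / 3)))) := by omega
  conv_rhs => rw [e2]
  simp only [pow_add]
  ring

end CL3

end
end

-- part H86M.Nice
section

/-! h86m: determinants that are not nice are rare (row NICE). -/

set_option autoImplicit false
open Polynomial Finset UniqueFactorizationMonoid Filter Topology CL5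
open scoped Classical

noncomputable section
namespace CL3

variable {k : Type*} [Field k] [Fintype k]

/-- polynomials all of whose prime divisors are large -/
theorem exists_card_rough : ∃ C : ℝ, 0 < C ∧ ∀ h N : ℕ, 1 ≤ h → 1 ≤ N → N ≤ 9 * h →
    (((mon k N).filter (fun t => ∀ p ∈ pf t, h < p.natDegree)).card : ℝ) ≤ C * qq k ^ N / h := by
  refine ⟨Real.exp 9, Real.exp_pos _, fun h N hh hN h9 => ?_⟩
  have hsub : (mon k N).filter (fun t => ∀ p ∈ pf t, h < p.natDegree) ⊆ Rg k h N := by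
    intro t ht
    obtain ⟨h1, h2⟩ := (@Finset.mem_filter _ _ (_) _ _).1 ht
    refine Den.mem_Rg.2 ⟨mem_mon.1 h1, fun p hp hd => ?_⟩
    obtain ⟨hm, hi, hdeg⟩ := mem_prs.1 hp
    exact absurd (h2 p ((mem_pf (mem_mon.1 h1).1.ne_zero).2 ⟨hm, hi, hd⟩)) (not_lt.2 hdeg)
  refine (Nat.cast_le.2 (Finset.card_le_card hsub)).trans
    ((Den.card_rough hh hN h9).trans (le_of_eq ?_))
  have hh' : (h : ℝ) ≠ 0 := by exact_mod_cast (by omega : h ≠ 0)
  rw [Nat.cast_mul, mul_div_assoc, div_self hh', mul_one]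
  push_cast
  ring

theorem n53_prime {w : k[X]} (hw : w ≠ 0) {s : Finset k[X]} (hs : s ⊆ pf w) :
    ∀ p ∈ s, p.Monic ∧ Irreducible p := fun _ hp =>
  ⟨((mem_pf hw).1 (hs hp)).1, ((mem_pf hw).1 (hs hp)).2.1⟩

theorem n53_fact {Y K : ℕ} {w : k[X]} (hw : w ≠ 0) (e2 : ∀ p ∈ prs k Y, ¬ p ^ (K + 1) ∣ w)
    (e4 : ∀ p ∈ pf w, Y < p.natDegree → ¬ p ^ 2 ∣ w) :
    ∃ w0 : k[X], w = w0 * rr Y w ∧ w0 ≠ 0 ∧ w0 ∣ PP k Y ^ K := by
  have hr : rr Y w ∣ w := Finset.prod_dvd_of_coprime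
    (Den.pair_cop (n53_prime hw (Finset.filter_subset _ _)))
    fun p hp => ((mem_pf hw).1 (Finset.mem_filter.1 hp).1).2.2
  obtain ⟨w0, hw0⟩ := hr
  have hw00 : w0 ≠ 0 := by rintro rfl; exact hw (by simpa using hw0)
  have hdw : w0 ∣ w := Dvd.intro_left _ hw0.symm
  refine ⟨w0, hw0.trans (mul_comm _ _), hw00, Den.smooth_dvd hw00 (fun p hm hi hd => ?_)
    fun p hp hd => e2 p hp (hd.trans hdw)⟩
  by_contra hc
  have hp : p ∈ pf w := (mem_pf hw).2 ⟨hm, hi, hd.trans hdw⟩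
  refine e4 p hp (not_le.1 hc) ?_
  have h1 : p ∣ rr Y w :=
    Finset.dvd_prod_of_mem (fun p => p) (Finset.mem_filter.2 ⟨hp, not_le.1 hc⟩)
  have h2 : p * p ∣ rr Y w * w0 := mul_dvd_mul h1 hd
  rw [← hw0] at h2
  rwa [pow_two]

theorem n53_medium {Y K h E D : ℕ} {w : k[X]} (hw : w ≠ 0)
    (hK : K + 1 + (K + 1) * (PP k Y).natDegree + E ≤ D) (e1 : D ≤ w.natDegree + (K + 1))
    (e2 : ∀ p ∈ prs k Y, ¬ p ^ (K + 1) ∣ w) (e4 : ∀ p ∈ pf w, Y < p.natDegree → ¬ p ^ 2 ∣ w)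
    (e5 : ¬ ∃ a t : k[X], w = a * t ∧ a ≠ 0 ∧ a.natDegree ≤ (K + 1) * (PP k Y).natDegree + E ∧
      1 ≤ t.natDegree ∧ t ∈ Rg k h t.natDegree) :
    E ≤ ∑ p ∈ (pf w).filter (fun p => Y < p.natDegree ∧ p.natDegree ≤ h), p.natDegree := by
  obtain ⟨w0, hw0, hw00, hsm⟩ := n53_fact hw e2 e4
  have hw0d : w0.natDegree ≤ K * (PP k Y).natDegree := by
    have := natDegree_le_of_dvd hsm ((PP_monic Y).pow K).ne_zero
    rwa [(PP_monic Y).natDegree_pow] at this
  rw [← Finset.filter_filter]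
  set B := (pf w).filter (fun p => Y < p.natDegree) with hB
  have hBm : ∀ p ∈ B, p.Monic ∧ Irreducible p := n53_prime hw (Finset.filter_subset _ _)
  by_contra hc
  have hsplit : (∏ p ∈ B.filter (fun p => p.natDegree ≤ h), p) *
      ∏ p ∈ B.filter (fun p => ¬ p.natDegree ≤ h), p = rr Y w :=
    Finset.prod_filter_mul_prod_filter_not B (fun p => p.natDegree ≤ h) fun p => p
  have hs1 : (∏ p ∈ B.filter (fun p => p.natDegree ≤ h), p).Monic :=
    monic_prod_of_monic _ _ fun p hp => (hBm p (Finset.mem_filter.1 hp).1).1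
  have hs2 : (∏ p ∈ B.filter (fun p => ¬ p.natDegree ≤ h), p).Monic :=
    monic_prod_of_monic _ _ fun p hp => (hBm p (Finset.mem_filter.1 hp).1).1
  have hd1 : (∏ p ∈ B.filter (fun p => p.natDegree ≤ h), p).natDegree =
      ∑ p ∈ B.filter (fun p => p.natDegree ≤ h), p.natDegree :=
    natDegree_prod_of_monic _ _ fun p hp => (hBm p (Finset.mem_filter.1 hp).1).1
  have hweq : w = (w0 * ∏ p ∈ B.filter (fun p => p.natDegree ≤ h), p) *
      ∏ p ∈ B.filter (fun p => ¬ p.natDegree ≤ h), p := by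
    rw [mul_assoc, hsplit]; exact hw0
  have ha0 := mul_ne_zero hw00 hs1.ne_zero
  have hda := natDegree_mul hw00 hs1.ne_zero
  have hdw := natDegree_mul ha0 hs2.ne_zero
  rw [← hweq] at hdw
  rw [add_mul, one_mul] at hK e5
  refine e5 ⟨_, _, hweq, ha0, by omega, by omega, Den.mem_Rg.2 ⟨⟨hs2, rfl⟩, fun u hu hd => ?_⟩⟩
  obtain ⟨-, hui, hud⟩ := mem_prs.1 hu
  obtain ⟨p, hp, has⟩ := Den.mem_of_dvd_prod
    (fun p hp => hBm p (Finset.filter_subset _ _ hp)) hui hd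
  have := natDegree_eq_of_degree_eq (degree_eq_degree_of_associated has)
  exact (Finset.mem_filter.1 hp).2 (by omega)

theorem n53_count {y K E m D : ℕ} (hD : D + 2 = (m + 1) / 3 + m / 3) (hh : 1 ≤ m / 12)
    (hK : K + 1 + (K + 1) * (PP k (4 * y)).natDegree + E ≤ D) :
    (((box k (D + 1)).filter fun w => ¬ NiceW y (K + 1) E m w).card : ℝ) ≤
      qq k ^ (D + 1) * (1 / qq k ^ (K + 1) + qq k ^ (4 * y + 1) / qq k ^ (K + 1) +
        1 / qq k ^ (4 * y) + 1 / (1 / qq k ^ (2 * y) * qq k ^ (4 * y)) +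
        2 * ((((K + 1) * (PP k (4 * y)).natDegree + E : ℕ) : ℝ) + 1) *
          (Real.exp (D / (m / 12 : ℕ)) / (m / 12 : ℕ))) := by
  have hq := Den.q_pos (k := k)
  have hsub : ((box k (D + 1)).filter fun w => ¬ NiceW y (K + 1) E m w) ⊆
      (((box k (D + 1 - (K + 1)) ∪
        ((box k (D + 1)).erase 0).filter fun w => ∃ p ∈ prs k (4 * y), p ^ (K + 1) ∣ w) ∪
        ((box k (D + 1)).erase 0).filter fun w =>
          ∃ p : k[X], p.Monic ∧ 4 * y < p.natDegree ∧ p ^ 2 ∣ w) ∪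
        ((box k (D + 1)).erase 0).filter fun w =>
          1 / qq k ^ (2 * y) < ∑ p ∈ Den.big (4 * y) D w, 1 / nrm p) ∪
        (box k (D + 1)).filter fun w => ∃ a t : k[X], w = a * t ∧ a ≠ 0 ∧
          a.natDegree ≤ (K + 1) * (PP k (4 * y)).natDegree + E ∧
          1 ≤ t.natDegree ∧ t ∈ Rg k (m / 12) t.natDegree := by
    intro w hw
    obtain ⟨hb, hn⟩ := Finset.mem_filter.1 hw
    by_contra hc
    simp only [Finset.mem_union, not_or, Finset.mem_filter, Finset.mem_erase] at hc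
    obtain ⟨⟨⟨⟨c1, c2⟩, c4⟩, c6⟩, c5⟩ := hc
    have hw0 : w ≠ 0 := by
      rintro rfl
      exact c1 (mem_box.2 (by rw [degree_zero]; exact WithBot.bot_lt_coe _))
    have hD' : w.natDegree < D + 1 := (natDegree_lt_iff_degree_lt hw0).2 (mem_box.1 hb)
    have h1 : ¬ w.natDegree < D + 1 - (K + 1) := fun h1 =>
      c1 (mem_box.2 ((natDegree_lt_iff_degree_lt hw0).1 h1))
    have e2 : ∀ p ∈ prs k (4 * y), ¬ p ^ (K + 1) ∣ w := fun p hp hd => c2 ⟨⟨hw0, hb⟩, p, hp, hd⟩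
    have e4 : ∀ p ∈ pf w, 4 * y < p.natDegree → ¬ p ^ 2 ∣ w := fun p hp hY hd =>
      c4 ⟨⟨hw0, hb⟩, p, ((mem_pf hw0).1 hp).1, hY, hd⟩
    refine hn ⟨hw0, by omega, e2, e4,
      n53_medium hw0 hK (by omega) e2 e4 fun h5 => c5 ⟨hb, h5⟩, ?_⟩
    have hbig : (pf w).filter (fun p => 4 * y < p.natDegree) = Den.big (4 * y) D w := by
      ext p
      rw [Finset.mem_filter, mem_pf hw0, Den.mem_big hw0 (by omega)]
      tauto
    rw [hbig]
    exact not_lt.1 fun h6 => c6 ⟨⟨hw0, hb⟩, h6⟩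
  have h0 := (Finset.card_le_card hsub).trans ((Finset.card_union_le _ _).trans
    (Nat.add_le_add_right ((Finset.card_union_le _ _).trans (Nat.add_le_add_right
      ((Finset.card_union_le _ _).trans (Nat.add_le_add_right (Finset.card_union_le _ _) _)) _)) _))
  have h1 : ((box k (D + 1 - (K + 1))).card : ℝ) = qq k ^ (D + 1) * (1 / qq k ^ (K + 1)) := by
    rw [card_box, pow_sub₀ _ hq.ne' (by omega), one_div]
  have h2 := Den.card_E2 (k := k) (4 * y) (K + 1) (D + 1)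
  have h4 := Den.card_E4 (k := k) (4 * y) (D + 1)
  have h6 := Den.card_E6 (k := k) (4 * y) D (D + 1) (δ := 1 / qq k ^ (2 * y)) (by positivity)
  have h5 := Den.card_E5 (k := k) hh D ((K + 1) * (PP k (4 * y)).natDegree + E)
  have h7 := (Nat.cast_le (α := ℝ)).2 h0
  simp only [Nat.cast_add (R := ℝ) (Finset.card _), Nat.cast_add (R := ℝ) _ (Finset.card _)] at h7
  linarith

theorem exists_card_not_nice : ∃ C : ℝ, 0 < C ∧ ∀ y : ℕ, ∃ K1 L : ℕ, 1 ≤ K1 ∧ 12 ≤ L ∧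
    ∀ᶠ m : ℕ in atTop,
      (((box k ((m + 1) / 3 + m / 3 - 1)).filter (fun w => ¬ NiceW y K1 (m / L) m w)).card : ℝ) ≤
        C * qq k ^ ((m + 1) / 3 + m / 3) / qq k ^ (2 * y) := by
  have hq := Den.q_pos (k := k)
  have hq1 : 1 ≤ qq k := by linarith [two_le_qq (k := k)]
  refine ⟨4 + 4 * Real.exp 9, by positivity, fun y => ?_⟩
  obtain ⟨Q, hQ⟩ : ∃ Q : ℕ, Q = Fintype.card k ^ (2 * y) := ⟨_, rfl⟩
  have hQ1 : 1 ≤ Q := hQ ▸ Nat.one_le_pow _ _ Fintype.card_pos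
  have hQr : (Q : ℝ) = qq k ^ (2 * y) := by rw [hQ, qq]; push_cast; rfl
  obtain ⟨A, hA⟩ : ∃ A : ℕ, A = (6 * y + 1) * (PP k (4 * y)).natDegree := ⟨_, rfl⟩
  refine ⟨6 * y + 1, 12 * Q, by omega, by omega, ?_⟩
  filter_upwards [eventually_ge_atTop (12 * ((A + 1) * Q + A + 6 * y + 10))] with m hm
  obtain ⟨D, hD⟩ : ∃ D, D + 2 = (m + 1) / 3 + m / 3 := ⟨(m + 1) / 3 + m / 3 - 2, by omega⟩
  have hE : m / (12 * Q) * Q ≤ m / 12 := by
    rw [← Nat.div_div_eq_div_mul]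
    exact Nat.div_mul_le_self _ _
  have hE' : m / (12 * Q) ≤ m / 12 := le_trans (Nat.le_mul_of_pos_right _ hQ1) hE
  have h1 := n53_count (k := k) (y := y) (K := 6 * y) (E := m / (12 * Q)) hD (by omega)
    (by rw [← hA]; omega)
  rw [← hD, show D + 2 - 1 = D + 1 from rfl]
  refine h1.trans ?_
  rw [← hA]
  have hh : (0 : ℝ) < (m / 12 : ℕ) := by exact_mod_cast (by omega : 0 < m / 12)
  have hy : 0 < qq k ^ (2 * y) := by positivity
  have t1 : 1 / qq k ^ (6 * y + 1) ≤ 1 / qq k ^ (2 * y) :=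
    one_div_le_one_div_of_le hy (pow_le_pow_right₀ hq1 (by omega))
  have t2 : qq k ^ (4 * y + 1) / qq k ^ (6 * y + 1) = 1 / qq k ^ (2 * y) := by
    rw [show 6 * y + 1 = (4 * y + 1) + 2 * y by ring, pow_add _ (4 * y + 1)]
    field_simp
  have t3 : 1 / qq k ^ (4 * y) ≤ 1 / qq k ^ (2 * y) :=
    one_div_le_one_div_of_le hy (pow_le_pow_right₀ hq1 (by omega))
  have t4 : 1 / (1 / qq k ^ (2 * y) * qq k ^ (4 * y)) = 1 / qq k ^ (2 * y) := by
    rw [show 4 * y = 2 * y + 2 * y by ring, pow_add]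
    field_simp
  have t5 : Real.exp (D / (m / 12 : ℕ)) ≤ Real.exp 9 := by
    refine Real.exp_le_exp.2 ?_
    rw [div_le_iff₀ hh]
    exact_mod_cast (by omega : D ≤ 9 * (m / 12))
  have t6 : (((A + m / (12 * Q) : ℕ) : ℝ) + 1) * qq k ^ (2 * y) ≤ 2 * (m / 12 : ℕ) := by
    rw [← hQr]
    have : (A + m / (12 * Q) + 1) * Q ≤ 2 * (m / 12) := by
      have : (A + m / (12 * Q) + 1) * Q = (A + 1) * Q + m / (12 * Q) * Q := by ring
      omega
    exact_mod_cast this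
  have t7 : 2 * (((A + m / (12 * Q) : ℕ) : ℝ) + 1) *
      (Real.exp (D / (m / 12 : ℕ)) / (m / 12 : ℕ)) ≤ 4 * Real.exp 9 * (1 / qq k ^ (2 * y)) := by
    have t8 : (((A + m / (12 * Q) : ℕ) : ℝ) + 1) / (m / 12 : ℕ) ≤ 2 * (1 / qq k ^ (2 * y)) := by
      rw [mul_one_div, div_le_div_iff₀ hh hy]
      exact t6
    have t9 := mul_le_mul t8 t5 (Real.exp_pos _).le (by positivity)
    calc _ = 2 * ((((A + m / (12 * Q) : ℕ) : ℝ) + 1) / (m / 12 : ℕ) *
          Real.exp (D / (m / 12 : ℕ))) := by ring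
      _ ≤ _ := by linarith
  have t10 : qq k ^ (D + 1) ≤ qq k ^ (D + 2) := pow_le_pow_right₀ hq1 (by omega)
  calc _ ≤ qq k ^ (D + 2) * ((4 + 4 * Real.exp 9) * (1 / qq k ^ (2 * y))) := by
        refine mul_le_mul t10 (by linarith) (by positivity) (by positivity)
    _ = _ := by ring

theorem isGoodQ_of_nice53 {y K1 L m : ℕ} (hK : 1 ≤ K1) (hL : 12 ≤ L) {a1 a2 b1 b2 : k[X]}
    (hn : NiceW y K1 (m / L) m (a1 * b2 - a2 * b1))
    (h3 : IsCoprime (a1 * b1 * (b1 - a1) * (b1 + a1)) (rr (4 * y) (a1 * b2 - a2 * b1))) :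
    IsGoodQ (4 * y) K1 (m / L) m a1 a2 b1 b2 := by
  obtain ⟨hw, e1, e2, e4, e5, -⟩ := hn
  obtain ⟨K, rfl⟩ : ∃ K, K1 = K + 1 := ⟨K1 - 1, by omega⟩
  obtain ⟨w0, hw0, hw00, hsm⟩ := n53_fact hw e2 e4
  obtain ⟨t, ht, hE1, hE2⟩ := Den.greedy _ (m / 12) (m / L)
    (fun p hp => (Finset.mem_filter.1 hp).2.2) e5
  set B := (pf (a1 * b2 - a2 * b1)).filter (fun p => 4 * y < p.natDegree) with hB
  have hBm : ∀ p ∈ B, p.Monic ∧ Irreducible p := n53_prime hw (Finset.filter_subset _ _)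
  have htB : t ⊆ B := fun p hp => Finset.mem_filter.2
    ⟨(Finset.mem_filter.1 (ht hp)).1, (Finset.mem_filter.1 (ht hp)).2.1⟩
  have hrB : rr (4 * y) (a1 * b2 - a2 * b1) = ∏ p ∈ B, p := rfl
  have hprod : (∏ p ∈ t, p) * ∏ p ∈ B \ t, p = rr (4 * y) (a1 * b2 - a2 * b1) := by
    rw [mul_comm]; exact Finset.prod_sdiff htB
  have hdeg : (∏ p ∈ t, p).natDegree = ∑ p ∈ t, p.natDegree :=
    natDegree_prod_of_monic _ _ fun p hp => (hBm p (htB hp)).1
  have hrw : rr (4 * y) (a1 * b2 - a2 * b1) ∣ a1 * b2 - a2 * b1 := Dvd.intro_left _ hw0.symm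
  have hsq : Squarefree (rr (4 * y) (a1 * b2 - a2 * b1)) := by
    rw [hrB]
    exact Finset.squarefree_prod_of_pairwise_isCoprime
      (fun p hp p' hp' hne => (Den.pair_cop hBm hp hp' hne).isRelPrime)
      fun p hp => (hBm p hp).2.squarefree
  have hcP : IsCoprime (PP k (4 * y)) (rr (4 * y) (a1 * b2 - a2 * b1)) := by
    rw [hrB]
    refine IsCoprime.prod_right fun p hp => (((hBm p hp).2.coprime_iff_not_dvd).2 fun hd => ?_).symm
    have := (mem_prs.1 (mem_prs_of_dvd_PP (hBm p hp).1 (hBm p hp).2 hd)).2.2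
    exact absurd (Finset.mem_filter.1 hp).2 (not_lt.2 this)
  have hLm : m / L ≤ m / 12 := Nat.div_le_div_left hL (by norm_num)
  generalize rr (4 * y) (a1 * b2 - a2 * b1) = r at hw0 hprod hrw hsq hcP h3 hrB
  have ha : IsCoprime a1 r := h3.of_mul_left_left.of_mul_left_left.of_mul_left_left
  obtain ⟨u, v, huv⟩ := ha
  have ha : IsCoprime a1 r := ⟨u, v, huv⟩
  have hb1 : r ∣ b1 - u * b1 * a1 := ⟨v * b1, by linear_combination (-b1) * huv⟩
  have hb2 : r ∣ b2 - u * b1 * a2 := by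
    refine ha.symm.dvd_of_dvd_mul_left ?_
    have : a1 * (b2 - u * b1 * a2) = (a1 * b2 - a2 * b1) + a2 * (b1 - u * b1 * a1) := by ring
    rw [this]
    exact dvd_add hrw (hb1.mul_left _)
  have hmu : IsCoprime ((u * b1) ^ 3 - u * b1) r := by
    obtain ⟨c, hc⟩ := hb1
    have h4 : IsCoprime (b1 * (b1 - a1) * (b1 + a1)) r := by
      have h5 : a1 * b1 * (b1 - a1) * (b1 + a1) = a1 * (b1 * (b1 - a1) * (b1 + a1)) := by ring
      rw [h5] at h3
      exact h3.of_mul_left_right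
    have h6 : b1 * (b1 - a1) * (b1 + a1) = ((u * b1) ^ 3 - u * b1) * a1 ^ 3 +
        r * (c * (b1 ^ 2 + b1 * (u * b1 * a1) + (u * b1 * a1) ^ 2 - a1 ^ 2)) := by
      linear_combination (b1 ^ 2 + b1 * (u * b1 * a1) + (u * b1 * a1) ^ 2 - a1 ^ 2) * hc
    rw [h6] at h4
    exact (IsCoprime.of_add_mul_left_left h4).of_mul_left_left
  refine ⟨w0, ∏ p ∈ t, p, ∏ p ∈ B \ t, p, u * b1, ?_⟩
  unfold GoodQ
  rw [hprod]
  refine ⟨hw0, hw00, e1, monic_prod_of_monic _ _ fun p hp => (hBm p (htB hp)).1,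
    monic_prod_of_monic _ _ fun p hp => (hBm p (Finset.mem_sdiff.1 hp).1).1, hrB, hsq, hcP,
    ?_, by omega, by omega, ha, hb1, hb2, hmu⟩
  rw [pow_succ']
  exact mul_dvd_mul_left _ hsm

end CL3

end
end

-- part H86M.Good
section

/-! h86m: good pairs are generic (row GOOD). -/

set_option autoImplicit false
open Polynomial Finset UniqueFactorizationMonoid Filter Topology CL5
open scoped Classical

noncomputable section
namespace CL3

variable {k : Type*} [Field k] [Fintype k]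

theorem good_qq_pos : 0 < qq k := by linarith [two_le_qq (k := k)]

theorem good_one_le : 1 ≤ qq k := by linarith [two_le_qq (k := k)]

theorem good_sub_mem {N : ℕ} {a b : k[X]} (ha : a ∈ box k N) (hb : b ∈ box k N) :
    a - b ∈ box k N :=
  mem_box.2 ((degree_sub_le a b).trans_lt (max_lt (mem_box.1 ha) (mem_box.1 hb)))

theorem good_add_mem {N : ℕ} {a b : k[X]} (ha : a ∈ box k N) (hb : b ∈ box k N) :
    a + b ∈ box k N :=
  mem_box.2 ((degree_add_le a b).trans_lt (max_lt (mem_box.1 ha) (mem_box.1 hb)))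

theorem good_mul_mem {s t : ℕ} {a b : k[X]} (ha : a ∈ box k s) (hb : b ∈ box k t) :
    a * b ∈ box k (s + t - 1) := by
  rw [mem_box] at *
  by_cases h0 : a = 0
  · rw [h0, zero_mul, degree_zero]; exact WithBot.bot_lt_coe _
  by_cases h1 : b = 0
  · rw [h1, mul_zero, degree_zero]; exact WithBot.bot_lt_coe _
  rw [← natDegree_lt_iff_degree_lt h0] at ha
  rw [← natDegree_lt_iff_degree_lt h1] at hb
  rw [← natDegree_lt_iff_degree_lt (mul_ne_zero h0 h1), natDegree_mul h0 h1]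
  omega

/-- a zero entry or a large common divisor -/
def goodH (t : ℕ) (z : k[X] × k[X]) : Prop :=
  z.1 = 0 ∨ z.2 = 0 ∨ ∃ c : k[X], c.Monic ∧ t ≤ c.natDegree ∧ c ∣ z.1 ∧ c ∣ z.2

theorem good_card_H {a b t : ℕ} (ha : t ≤ a) (hb : t ≤ b) :
    (((box k a ×ˢ box k b).filter (goodH t)).card : ℝ) ≤ 4 * qq k ^ (a + b) / qq k ^ t := by
  have hq := good_qq_pos (k := k)
  have hsub : (box k a ×ˢ box k b).filter (goodH t) ⊆
      (({0} : Finset k[X]) ×ˢ box k b ∪ box k a ×ˢ ({0} : Finset k[X])) ∪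
        ((box k a).erase 0 ×ˢ (box k b).erase 0).filter (fun z =>
          ∃ c : k[X], c.Monic ∧ t ≤ c.natDegree ∧ c ∣ z.1 ∧ c ∣ z.2) := by
    intro z hz
    simp only [mem_filter, mem_product, mem_union, mem_singleton, mem_erase] at hz ⊢
    obtain ⟨⟨h1, h2⟩, h⟩ := hz
    by_cases z1 : z.1 = 0
    · exact Or.inl (Or.inl ⟨z1, h2⟩)
    by_cases z2 : z.2 = 0
    · exact Or.inl (Or.inr ⟨h1, z2⟩)
    rcases h with h | h | h
    · exact absurd h z1
    · exact absurd h z2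
    · exact Or.inr ⟨⟨⟨z1, h1⟩, ⟨z2, h2⟩⟩, h⟩
  have h1 := (card_le_card hsub).trans ((card_union_le _ _).trans
    (Nat.add_le_add_right (card_union_le _ _) _))
  have h2 : ((_ : ℕ) : ℝ) ≤ ((_ : ℕ) : ℝ) := Nat.cast_le.2 h1
  rw [card_product, card_product, card_singleton, one_mul, mul_one] at h2
  push_cast at h2
  rw [card_box, card_box] at h2
  have h3 := card_gcd_le (k := k) a b t
  have hqt : 0 < qq k ^ t := pow_pos hq t
  have h4 : qq k ^ b ≤ qq k ^ (a + b) / qq k ^ t := by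
    rw [le_div_iff₀ hqt, ← pow_add]
    exact pow_le_pow_right₀ good_one_le (by omega)
  have h5 : qq k ^ a ≤ qq k ^ (a + b) / qq k ^ t := by
    rw [le_div_iff₀ hqt, ← pow_add]
    exact pow_le_pow_right₀ good_one_le (by omega)
  have h6 : 4 * qq k ^ (a + b) / qq k ^ t = qq k ^ (a + b) / qq k ^ t + qq k ^ (a + b) / qq k ^ t +
      2 * qq k ^ (a + b) / qq k ^ t := by ring
  linarith

theorem good_card_inj {α β γ : Type*} (s : Finset α) (u : Finset β) (v : Finset γ)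
    (φ : α → β × γ) (hφ : Function.Injective φ) (h : ∀ x ∈ s, (φ x).1 ∈ u ∧ (φ x).2 ∈ v) :
    (s.card : ℝ) ≤ (u.card : ℝ) * v.card := by
  have h1 : s.card ≤ (u ×ˢ v).card :=
    card_le_card_of_injOn φ (fun x hx => mem_coe.2 (mem_product.2 (h x (mem_coe.1 hx))))
      hφ.injOn
  rw [card_product] at h1
  exact_mod_cast h1

omit [Fintype k] in
theorem good_H_of {t : ℕ} {p u v : k[X]} (hp : p.Monic) (ht : t ≤ p.natDegree) (hu : p ∣ u)
    (hv : p ∣ v) : goodH t (u, v) :=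
  Or.inr (Or.inr ⟨p, hp, ht, hu, hv⟩)

theorem good_not_coprime {Y : ℕ} {w z : k[X]} (hw : w ≠ 0) (h : ¬ IsCoprime z (rr Y w)) :
    ∃ p ∈ (pf w).filter (fun p => Y < p.natDegree), p ∣ z := by
  by_contra hc
  refine h (IsCoprime.prod_right fun p hp => ?_)
  have hi := ((mem_pf hw).1 (mem_filter.1 hp).1).2.1
  exact (hi.coprime_iff_not_dvd.2 fun hd => hc ⟨p, hp, hd⟩).symm

/-- the five gcd events -/
theorem good_five {y : ℕ} {a1 a2 b1 b2 : k[X]} (hw : a1 * b2 - a2 * b1 ≠ 0)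
    (h : ¬ IsCoprime (a1 * b1 * (b1 - a1) * (b1 + a1)) (rr (4 * y) (a1 * b2 - a2 * b1))) :
    goodH y (a1, a2) ∨ goodH y (a1, b1) ∨ goodH y (b1, b2) ∨ goodH y (b1 - a1, b2 - a2) ∨
      goodH y (b1 + a1, b2 + a2) := by
  obtain ⟨p, hp, hd⟩ := good_not_coprime hw h
  obtain ⟨hp1, hp2⟩ := mem_filter.1 hp
  obtain ⟨hm, hi, hpw⟩ := (mem_pf hw).1 hp1
  have hpr : Prime p := hi.prime
  have ht : y ≤ p.natDegree := by omega
  have hA : p ∣ a1 → goodH y (a1, a2) ∨ goodH y (a1, b1) := by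
    intro h1
    have h2 : p ∣ a2 * b1 := by
      have e : a2 * b1 = a1 * b2 - (a1 * b2 - a2 * b1) := by ring
      rw [e]
      exact dvd_sub (h1.mul_right _) hpw
    rcases hpr.dvd_or_dvd h2 with h3 | h3
    · exact Or.inl (good_H_of hm ht h1 h3)
    · exact Or.inr (good_H_of hm ht h1 h3)
  by_cases h1 : p ∣ a1
  · rcases hA h1 with h3 | h3
    · exact Or.inl h3
    · exact Or.inr (Or.inl h3)
  refine Or.inr (Or.inr ?_)
  rcases hpr.dvd_or_dvd hd with hd | hd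
  · rcases hpr.dvd_or_dvd hd with hd | hd
    · rcases hpr.dvd_or_dvd hd with hd | hd
      · exact absurd hd h1
      · have h2 : p ∣ a1 * b2 := by
          have e : a1 * b2 = (a1 * b2 - a2 * b1) + a2 * b1 := by ring
          rw [e]
          exact dvd_add hpw (hd.mul_left _)
        exact Or.inl (good_H_of hm ht hd ((hpr.dvd_or_dvd h2).resolve_left h1))
    · have h2 : p ∣ a1 * (b2 - a2) := by
        have e : a1 * (b2 - a2) = (a1 * b2 - a2 * b1) + a2 * (b1 - a1) := by ring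
        rw [e]
        exact dvd_add hpw (hd.mul_left _)
      exact Or.inr (Or.inl (good_H_of hm ht hd ((hpr.dvd_or_dvd h2).resolve_left h1)))
  · have h2 : p ∣ a1 * (b2 + a2) := by
      have e : a1 * (b2 + a2) = (a1 * b2 - a2 * b1) + a2 * (b1 + a1) := by ring
      rw [e]
      exact dvd_add hpw (hd.mul_left _)
    exact Or.inr (Or.inr (good_H_of hm ht hd ((hpr.dvd_or_dvd h2).resolve_left h1)))

/-- nice determinant and (E3) -/
def goodF (y K1 E m : ℕ) (z : (k[X] × k[X]) × (k[X] × k[X])) : Prop :=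
  NiceW y K1 E m (z.1.1 * z.2.2 - z.1.2 * z.2.1) ∧
    IsCoprime (z.1.1 * z.2.1 * (z.2.1 - z.1.1) * (z.2.1 + z.1.1))
      (rr (4 * y) (z.1.1 * z.2.2 - z.1.2 * z.2.1))

theorem good_card_notF {y K1 E m a b : ℕ} (ha : y ≤ a) (hb : y ≤ b) {C : ℝ}
    (hS : (((box k (a + b - 1)).filter (fun w => ¬ NiceW y K1 E m w)).card : ℝ) ≤
      C * qq k ^ (a + b) / qq k ^ (2 * y)) :
    ((((box k a ×ˢ box k b) ×ˢ (box k a ×ˢ box k b)).filter
      (fun z => ¬ goodF y K1 E m z)).card : ℝ) ≤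
      (20 + C + 2 * qq k) * (qq k ^ (2 * a + 2 * b) / qq k ^ y) := by
  have hq := good_qq_pos (k := k)
  set B := box k a ×ˢ box k b with hB
  set S := (box k (a + b - 1)).filter (fun w => ¬ NiceW y K1 E m w) with hSd
  set E1 := (B ×ˢ B).filter (fun z => goodH y z.1) with hE1
  set E2 := (B ×ˢ B).filter (fun z => goodH y (z.1.1, z.2.1)) with hE2
  set E3 := (B ×ˢ B).filter (fun z => goodH y z.2) with hE3
  set E4 := (B ×ˢ B).filter (fun z => goodH y (z.2 - z.1)) with hE4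
  set E5 := (B ×ˢ B).filter (fun z => goodH y (z.2 + z.1)) with hE5
  set E6 := (B ×ˢ B).filter (fun z =>
      z.1.1 ≠ 0 ∧ z.1.2 ≠ 0 ∧ z.1.1 * z.2.2 - z.1.2 * z.2.1 ∈ S) with hE6
  have hsub : (B ×ˢ B).filter (fun z => ¬ goodF y K1 E m z) ⊆ E1 ∪ E2 ∪ E3 ∪ E4 ∪ E5 ∪ E6 := by
    intro z hz
    obtain ⟨hz1, hz2⟩ := mem_filter.1 hz
    simp only [mem_union, hE1, hE2, hE3, hE4, hE5, hE6, mem_filter, hz1, true_and]
    by_cases hn : NiceW y K1 E m (z.1.1 * z.2.2 - z.1.2 * z.2.1)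
    · rcases good_five hn.1 (fun hc => hz2 ⟨hn, hc⟩) with h | h | h | h | h
      · exact Or.inl (Or.inl (Or.inl (Or.inl (Or.inl h))))
      · exact Or.inl (Or.inl (Or.inl (Or.inl (Or.inr h))))
      · exact Or.inl (Or.inl (Or.inl (Or.inr h)))
      · exact Or.inl (Or.inl (Or.inr h))
      · exact Or.inl (Or.inr h)
    · by_cases h1 : z.1.1 = 0
      · exact Or.inl (Or.inl (Or.inl (Or.inl (Or.inl (Or.inl h1)))))
      by_cases h2 : z.1.2 = 0
      · exact Or.inl (Or.inl (Or.inl (Or.inl (Or.inl (Or.inr (Or.inl h2))))))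
      refine Or.inr ⟨h1, h2, mem_filter.2 ⟨?_, hn⟩⟩
      obtain ⟨u1, u2⟩ := mem_product.1 hz1
      obtain ⟨u11, u12⟩ := mem_product.1 u1
      obtain ⟨u21, u22⟩ := mem_product.1 u2
      refine good_sub_mem (good_mul_mem u11 u22) ?_
      rw [add_comm a b]
      exact good_mul_mem u12 u21
  have hBc : (B.card : ℝ) = qq k ^ (a + b) := by
    rw [hB, card_product]
    push_cast
    rw [card_box, card_box, pow_add]
  have hH := good_card_H (k := k) ha hb
  have hH2 := good_card_H (k := k) ha ha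
  rw [← hB] at hH
  set T := qq k ^ (2 * a + 2 * b) / qq k ^ y with hT
  have hqy : 0 < qq k ^ y := pow_pos hq y
  have hfin : ∀ x : ℝ, x ≤ (B.card : ℝ) * (B.filter (goodH y)).card → x ≤ 4 * T := by
    intro x hx
    refine hx.trans ?_
    rw [hBc]
    refine (mul_le_mul_of_nonneg_left hH (pow_pos hq _).le).trans (le_of_eq ?_)
    rw [hT, show 2 * a + 2 * b = (a + b) + (a + b) by ring, pow_add (qq k) (a + b)]
    ring
  have c1 : (E1.card : ℝ) ≤ 4 * T := by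
    refine hfin _ (good_card_inj E1 _ _ Prod.swap Prod.swap_injective fun z hz => ?_)
    obtain ⟨hz1, hz2⟩ := mem_filter.1 hz
    exact ⟨(mem_product.1 hz1).2, mem_filter.2 ⟨(mem_product.1 hz1).1, hz2⟩⟩
  have c3 : (E3.card : ℝ) ≤ 4 * T := by
    refine hfin _ (good_card_inj E3 _ _ id Function.injective_id fun z hz => ?_)
    obtain ⟨hz1, hz2⟩ := mem_filter.1 hz
    exact ⟨(mem_product.1 hz1).1, mem_filter.2 ⟨(mem_product.1 hz1).2, hz2⟩⟩
  have c4 : (E4.card : ℝ) ≤ 4 * T := by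
    refine hfin _ (good_card_inj E4 _ _ (fun z => (z.1, z.2 - z.1)) ?_ fun z hz => ?_)
    · intro z z' h
      obtain ⟨h1, h2⟩ := Prod.mk.inj h
      rw [h1] at h2
      exact Prod.ext h1 (sub_left_inj.1 h2)
    · obtain ⟨hz1, hz2⟩ := mem_filter.1 hz
      obtain ⟨u1, u2⟩ := mem_product.1 hz1
      refine ⟨u1, mem_filter.2 ⟨mem_product.2 ⟨?_, ?_⟩, hz2⟩⟩
      · exact good_sub_mem (mem_product.1 u2).1 (mem_product.1 u1).1
      · exact good_sub_mem (mem_product.1 u2).2 (mem_product.1 u1).2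
  have c5 : (E5.card : ℝ) ≤ 4 * T := by
    refine hfin _ (good_card_inj E5 _ _ (fun z => (z.1, z.2 + z.1)) ?_ fun z hz => ?_)
    · intro z z' h
      obtain ⟨h1, h2⟩ := Prod.mk.inj h
      rw [h1] at h2
      exact Prod.ext h1 (add_left_inj _ |>.1 h2)
    · obtain ⟨hz1, hz2⟩ := mem_filter.1 hz
      obtain ⟨u1, u2⟩ := mem_product.1 hz1
      refine ⟨u1, mem_filter.2 ⟨mem_product.2 ⟨?_, ?_⟩, hz2⟩⟩
      · exact good_add_mem (mem_product.1 u2).1 (mem_product.1 u1).1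
      · exact good_add_mem (mem_product.1 u2).2 (mem_product.1 u1).2
  have c2 : (E2.card : ℝ) ≤ 4 * T := by
    refine (good_card_inj E2 ((box k a ×ˢ box k a).filter (goodH y)) (box k b ×ˢ box k b)
      (fun z => ((z.1.1, z.2.1), (z.1.2, z.2.2))) ?_ fun z hz => ?_).trans ?_
    · intro z z' h
      obtain ⟨h1, h2⟩ := Prod.mk.inj h
      obtain ⟨h11, h12⟩ := Prod.mk.inj h1
      obtain ⟨h21, h22⟩ := Prod.mk.inj h2
      exact Prod.ext (Prod.ext h11 h21) (Prod.ext h12 h22)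
    · obtain ⟨hz1, hz2⟩ := mem_filter.1 hz
      obtain ⟨u1, u2⟩ := mem_product.1 hz1
      exact ⟨mem_filter.2 ⟨mem_product.2 ⟨(mem_product.1 u1).1, (mem_product.1 u2).1⟩, hz2⟩,
        mem_product.2 ⟨(mem_product.1 u1).2, (mem_product.1 u2).2⟩⟩
    · rw [card_product]
      push_cast
      rw [card_box]
      refine (mul_le_mul_of_nonneg_right hH2 (by positivity)).trans (le_of_eq ?_)
      rw [hT, show 2 * a + 2 * b = (a + a) + (b + b) by ring, pow_add (qq k) (a + a),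
        pow_add (qq k) b]
      ring
  have c6 : (E6.card : ℝ) ≤ C * T + 2 * qq k * T := by
    refine (card_det_le a b y S).trans (add_le_add ?_ (le_of_eq ?_))
    · refine (mul_le_mul_of_nonneg_left hS (pow_pos hq _).le).trans (le_of_eq ?_)
      rw [hT, show 2 * a + 2 * b = (a + b) + (a + b) by ring, pow_add (qq k) (a + b),
        pow_add (qq k) (a + b), two_mul y, pow_add (qq k) y]
      field_simp
    · rw [hT, pow_succ]
      ring
  have h1 := (card_le_card hsub).trans ((card_union_le _ _).trans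
    (Nat.add_le_add_right ((card_union_le _ _).trans (Nat.add_le_add_right
      ((card_union_le _ _).trans (Nat.add_le_add_right ((card_union_le _ _).trans
        (Nat.add_le_add_right (card_union_le _ _) _)) _)) _)) _))
  have h2 : ((_ : ℕ) : ℝ) ≤ ((_ : ℕ) : ℝ) := Nat.cast_le.2 h1
  push_cast at h2
  linarith

/-- one residue class modulo a prime -/
theorem good_card_class (N : ℕ) {p a : k[X]} (hp : Prime p) (ha : ¬ p ∣ a) (c : k[X]) :
    (((box k N).filter (fun b => p ∣ a * b - c)).card : ℝ) ≤ qq k ^ N / nrm p + 1 := by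
  have hq := good_qq_pos (k := k)
  have hn : 0 < nrm p := pow_pos hq _
  have h0 : 0 ≤ qq k ^ N / nrm p := by positivity
  rcases ((box k N).filter (fun b => p ∣ a * b - c)).eq_empty_or_nonempty with he | ⟨b0, hb0⟩
  · rw [he, card_empty]
    push_cast
    linarith
  obtain ⟨hb1, hb2⟩ := mem_filter.1 hb0
  have hd : ∀ b ∈ (box k N).filter (fun b => p ∣ a * b - c), p ∣ b - b0 := by
    intro b hb
    have h2 : p ∣ a * (b - b0) := by
      have e : a * (b - b0) = (a * b - c) - (a * b0 - c) := by ring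
      rw [e]
      exact dvd_sub (mem_filter.1 hb).2 hb2
    exact (hp.dvd_or_dvd h2).resolve_left ha
  have h1 : ((box k N).filter (fun b => p ∣ a * b - c)).card ≤
      (insert 0 (((box k N).erase 0).filter (fun u => p ∣ u))).card := by
    refine card_le_card_of_injOn (fun b => b - b0) (fun b hb => ?_)
      (fun b _ b' _ h => sub_left_inj.1 h)
    have hb' := mem_coe.1 hb
    refine mem_coe.2 ?_
    by_cases hz : b - b0 = 0
    · exact mem_insert.2 (Or.inl hz)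
    · exact mem_insert.2 (Or.inr (mem_filter.2 ⟨mem_erase.2 ⟨hz,
        good_sub_mem (mem_filter.1 hb').1 hb1⟩, hd b hb'⟩))
  have h2 : ((_ : ℕ) : ℝ) ≤ ((_ : ℕ) : ℝ) := Nat.cast_le.2 (h1.trans (card_insert_le _ _))
  push_cast at h2
  have h3 := card_box_dvd_le (N := N) hp.ne_zero
  linarith

/-- non-units `z` -/
theorem good_card_z (N : ℕ) {Y : ℕ} {w a : k[X]} (hw : w ≠ 0) (ha : IsCoprime a (rr Y w))
    (c : k[X]) :
    (((box k N).filter (fun b => ¬ IsCoprime (a * b - c) (rr Y w))).card : ℝ) ≤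
      qq k ^ N * ∑ p ∈ (pf w).filter (fun p => Y < p.natDegree), 1 / nrm p +
        ((pf w).filter (fun p => Y < p.natDegree)).card := by
  have hsub : (box k N).filter (fun b => ¬ IsCoprime (a * b - c) (rr Y w)) ⊆
      ((pf w).filter (fun p => Y < p.natDegree)).biUnion
        (fun p => (box k N).filter (fun b => p ∣ a * b - c)) := by
    intro b hb
    obtain ⟨hb1, hb2⟩ := mem_filter.1 hb
    obtain ⟨p, hp, hd⟩ := good_not_coprime hw hb2
    exact mem_biUnion.2 ⟨p, hp, mem_filter.2 ⟨hb1, hd⟩⟩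
  have h2 : ((_ : ℕ) : ℝ) ≤ ((_ : ℕ) : ℝ) :=
    Nat.cast_le.2 ((card_le_card hsub).trans card_biUnion_le)
  push_cast at h2
  refine h2.trans ?_
  rw [mul_sum, card_eq_sum_ones ((pf w).filter _)]
  push_cast
  rw [← sum_add_distrib]
  refine sum_le_sum fun p hp => ?_
  have hi := ((mem_pf hw).1 (mem_filter.1 hp).1).2.1
  have hpa : ¬ p ∣ a := fun hd =>
    hi.not_isUnit (ha.isUnit_of_dvd' hd (dvd_prod_of_mem _ hp))
  rw [mul_one_div]
  exact good_card_class N hi.prime hpa c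

theorem good_card_pf {Y : ℕ} {w w0 : k[X]} (hw : w ≠ 0) (h : w = w0 * rr Y w) :
    ((pf w).filter (fun p => Y < p.natDegree)).card ≤ w.natDegree := by
  have h1 : (rr Y w).natDegree ≤ w.natDegree := natDegree_le_of_dvd (Dvd.intro_left _ h.symm) hw
  refine le_trans ?_ h1
  unfold rr
  rw [natDegree_prod_of_monic _ _ fun p hp => ((mem_pf hw).1 (mem_filter.1 hp).1).1,
    card_eq_sum_ones]
  refine sum_le_sum fun p hp => ?_
  have := (mem_filter.1 hp).2
  omega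

theorem good_ev (y : ℕ) : ∀ᶠ m : ℕ in atTop, (m : ℝ) * qq k ^ y ≤ qq k ^ ((m + 2) / 3) := by
  have hq := good_qq_pos (k := k)
  have h1 : 1 < qq k := by linarith [two_le_qq (k := k)]
  have h2 := tendsto_pow_const_div_const_pow_of_one_lt 1 h1
  have h3 : ∀ᶠ j : ℕ in atTop, (j : ℝ) ^ 1 / qq k ^ j ≤ 1 / (3 * qq k ^ y) :=
    h2.eventually (ge_mem_nhds (by positivity))
  have h4 : Tendsto (fun m : ℕ => (m + 2) / 3) atTop atTop :=
    (Nat.tendsto_div_const_atTop (by norm_num)).comp (tendsto_add_atTop_nat 2)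
  filter_upwards [h4.eventually h3] with m hm
  rw [pow_one, div_le_div_iff₀ (by positivity) (by positivity), one_mul] at hm
  refine le_trans ?_ hm
  have h5 : (m : ℝ) ≤ 3 * (((m + 2) / 3 : ℕ) : ℝ) := by
    exact_mod_cast (by omega : m ≤ 3 * ((m + 2) / 3))
  have h6 := mul_le_mul_of_nonneg_right h5 (pow_pos hq y).le
  linarith

variable [CharP k 3]

omit [CharP k 3] in
theorem isGoodQ_of_nice {y K1 L m : ℕ} (hK : 1 ≤ K1) (hL : 12 ≤ L) {a1 a2 b1 b2 : k[X]}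
    (hn : NiceW y K1 (m / L) m (a1 * b2 - a2 * b1))
    (h3 : IsCoprime (a1 * b1 * (b1 - a1) * (b1 + a1)) (rr (4 * y) (a1 * b2 - a2 * b1))) :
    IsGoodQ (4 * y) K1 (m / L) m a1 a2 b1 b2 := by
  exact isGoodQ_of_nice53 hK hL hn h3

theorem good_sum (m : ℕ) (F : k[X] × k[X] → ℝ) :
    ∑ g ∈ box k m ×ˢ box k m, F g =
      ∑ z ∈ (box k ((m + 1) / 3) ×ˢ box k (m / 3)) ×ˢ (box k ((m + 1) / 3) ×ˢ box k (m / 3)),
        ∑ a0 ∈ box k ((m + 2) / 3), ∑ b0 ∈ box k ((m + 2) / 3),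
          F (Phi a0 z.1.1 z.1.2, Phi b0 z.2.1 z.2.2) := by
  have h : ∀ G : k[X] → ℝ, ∑ g ∈ box k m, G g =
      ∑ u ∈ box k ((m + 1) / 3) ×ˢ box k (m / 3), ∑ a0 ∈ box k ((m + 2) / 3),
        G (Phi a0 u.1 u.2) := by
    intro G
    rw [sum_box_Phi, sum_comm (s := box k ((m + 1) / 3) ×ˢ box k (m / 3))]
    exact sum_congr rfl fun a0 _ => (sum_product' _ _ (fun a1 a2 => G (Phi a0 a1 a2))).symm
  rw [sum_product, h, sum_product (s := box k ((m + 1) / 3) ×ˢ box k (m / 3))]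
  refine sum_congr rfl fun u _ => ?_
  rw [sum_comm (s := box k ((m + 1) / 3) ×ˢ box k (m / 3))]
  exact sum_congr rfl fun a0 _ => h _

theorem exists_card_not_Gd : ∃ C : ℝ, 0 < C ∧ ∀ y : ℕ, ∃ K1 L : ℕ, 1 ≤ K1 ∧ 12 ≤ L ∧
    ∀ᶠ m : ℕ in atTop,
      (((box k m ×ˢ box k m) \ Gd k (4 * y) K1 (m / L) m).card : ℝ) ≤
        C * qq k ^ (2 * m) / qq k ^ y := by
  have hq := good_qq_pos (k := k)
  obtain ⟨C, hC, hN⟩ := exists_card_not_nice (k := k)
  refine ⟨22 + C + 2 * qq k, by positivity, fun y => ?_⟩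
  obtain ⟨K1, L, hK, hL, hev⟩ := hN y
  refine ⟨K1, L, hK, hL, ?_⟩
  filter_upwards [hev, good_ev (k := k) y, eventually_ge_atTop (3 * y)] with m hS hm hy
  have hF := good_card_notF (k := k) (by omega) (by omega) hS
  set Q := (box k ((m + 1) / 3) ×ˢ box k (m / 3)) ×ˢ (box k ((m + 1) / 3) ×ˢ box k (m / 3))
    with hQ
  set N := (m + 2) / 3 with hNd
  have hqy : 0 < qq k ^ y := pow_pos hq y
  have hqN : 0 < qq k ^ N := pow_pos hq N
  have e1 : (((box k m ×ˢ box k m) \ Gd k (4 * y) K1 (m / L) m).card : ℝ) =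
      ∑ g ∈ box k m ×ˢ box k m, if ¬ (IsGoodQ (4 * y) K1 (m / L) m (co 1 g.1) (co 2 g.1)
        (co 1 g.2) (co 2 g.2) ∧ IsCoprime (co 1 g.1 * co 0 g.2 - co 1 g.2 * co 0 g.1)
          (rr (4 * y) (co 1 g.1 * co 2 g.2 - co 2 g.1 * co 1 g.2))) then (1 : ℝ) else 0 := by
    unfold Gd
    rw [← filter_not, card_filter]
    push_cast
    rfl
  rw [e1, good_sum, ← hQ, ← hNd]
  simp only [co0_Phi, co1_Phi, co2_Phi]
  have key : ∀ z ∈ Q, ∑ a0 ∈ box k N, ∑ b0 ∈ box k N,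
      (if ¬ (IsGoodQ (4 * y) K1 (m / L) m z.1.1 z.1.2 z.2.1 z.2.2 ∧
        IsCoprime (z.1.1 * b0 - z.2.1 * a0) (rr (4 * y) (z.1.1 * z.2.2 - z.1.2 * z.2.1)))
        then (1 : ℝ) else 0) ≤
      qq k ^ N * qq k ^ N * ((if ¬ goodF y K1 (m / L) m z then (1 : ℝ) else 0) +
        2 / qq k ^ y) := by
    intro z hz
    by_cases hf : goodF y K1 (m / L) m z
    · have hG := isGoodQ_of_nice hK hL hf.1 hf.2
      have hw := hf.1.1
      have ha : IsCoprime z.1.1 (rr (4 * y) (z.1.1 * z.2.2 - z.1.2 * z.2.1)) :=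
        hf.2.of_mul_left_left.of_mul_left_left.of_mul_left_left
      have hc : (((pf (z.1.1 * z.2.2 - z.1.2 * z.2.1)).filter
          (fun p => 4 * y < p.natDegree)).card : ℝ) ≤ m := by
        obtain ⟨w0, r1, r2, μ, hg⟩ := hG
        have h1 := good_card_pf (Y := 4 * y) (w0 := w0) hw (by rw [← hg.2.2.2.2.2.1]; exact hg.1)
        obtain ⟨u1, u2⟩ := mem_product.1 hz
        have h2 : z.1.1 * z.2.2 - z.1.2 * z.2.1 ∈ box k ((m + 1) / 3 + m / 3 - 1) := by
          refine good_sub_mem (good_mul_mem (mem_product.1 u1).1 (mem_product.1 u2).2) ?_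
          rw [add_comm ((m + 1) / 3) (m / 3)]
          exact good_mul_mem (mem_product.1 u1).2 (mem_product.1 u2).1
        rw [mem_box, ← natDegree_lt_iff_degree_lt hw] at h2
        exact_mod_cast (by omega : _ ≤ m)
      have hb : ∀ a0 ∈ box k N, ∑ b0 ∈ box k N,
          (if ¬ (IsGoodQ (4 * y) K1 (m / L) m z.1.1 z.1.2 z.2.1 z.2.2 ∧
            IsCoprime (z.1.1 * b0 - z.2.1 * a0) (rr (4 * y) (z.1.1 * z.2.2 - z.1.2 * z.2.1)))
            then (1 : ℝ) else 0) ≤ qq k ^ N * (2 / qq k ^ y) := by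
        intro a0 _
        have h1 := good_card_z N hw ha (z.2.1 * a0)
        rw [card_filter] at h1
        push_cast at h1
        have h2 := mul_le_mul_of_nonneg_left hf.1.2.2.2.2.2 hqN.le
        have h3 : 1 / qq k ^ (2 * y) ≤ 1 / qq k ^ y :=
          one_div_le_one_div_of_le hqy (pow_le_pow_right₀ good_one_le (by omega))
        have h4 := mul_le_mul_of_nonneg_left h3 hqN.le
        have h5 : (m : ℝ) ≤ qq k ^ N * (1 / qq k ^ y) := by
          rw [mul_one_div, le_div_iff₀ hqy]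
          exact hm
        have h6 : qq k ^ N * (2 / qq k ^ y) =
            qq k ^ N * (1 / qq k ^ y) + qq k ^ N * (1 / qq k ^ y) := by ring
        simp only [hG, true_and]
        linarith
      refine (sum_le_sum hb).trans (le_of_eq ?_)
      rw [sum_const, nsmul_eq_mul, card_box, if_neg (not_not.2 hf)]
      ring
    · have hb : ∀ a0 ∈ box k N, ∑ b0 ∈ box k N,
          (if ¬ (IsGoodQ (4 * y) K1 (m / L) m z.1.1 z.1.2 z.2.1 z.2.2 ∧
            IsCoprime (z.1.1 * b0 - z.2.1 * a0) (rr (4 * y) (z.1.1 * z.2.2 - z.1.2 * z.2.1)))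
            then (1 : ℝ) else 0) ≤ qq k ^ N := by
        intro a0 _
        refine (sum_le_sum (g := fun _ => (1 : ℝ)) fun b0 _ => ?_).trans (le_of_eq ?_)
        · split_ifs <;> norm_num
        · rw [sum_const, nsmul_eq_mul, card_box, mul_one]
      refine (sum_le_sum hb).trans ?_
      rw [sum_const, nsmul_eq_mul, card_box, if_pos hf]
      have h1 : 0 ≤ qq k ^ N * qq k ^ N * (2 / qq k ^ y) := by positivity
      linarith
  refine (sum_le_sum key).trans ?_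
  rw [← mul_sum, sum_add_distrib, sum_const, nsmul_eq_mul]
  rw [card_filter] at hF
  push_cast at hF
  have hQc : (Q.card : ℝ) = qq k ^ (2 * ((m + 1) / 3) + 2 * (m / 3)) := by
    rw [hQ, card_product, card_product]
    push_cast
    rw [card_box, card_box]
    ring
  rw [hQc]
  refine (mul_le_mul_of_nonneg_left (add_le_add hF le_rfl) (by positivity)).trans (le_of_eq ?_)
  rw [show 2 * m = N + N + (2 * ((m + 1) / 3) + 2 * (m / 3)) by omega, pow_add (qq k) (N + N),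
    pow_add (qq k) N]
  ring

theorem wronskian_ne_of_Gd {Y K1 E m : ℕ} {g : k[X] × k[X]} (hg : g ∈ Gd k Y K1 E m) :
    wronskian g.1 g.2 ≠ 0 := by
  obtain ⟨w0, r1, r2, μ, h⟩ := (mem_filter.1 hg).2.1
  intro hz
  rw [← Phi_co g.1, ← Phi_co g.2, wronskian_Phi, Phi_eq_zero] at hz
  have h2 := hz.2.2
  rw [h.1] at h2
  exact mul_ne_zero h.2.1 (mul_ne_zero h.2.2.2.1.ne_zero h.2.2.2.2.1.ne_zero) h2

/-- degenerate pairs are rare -/
theorem card_wr_zero {ε : ℝ} (hε : 0 < ε) : ∀ᶠ m : ℕ in atTop,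
    (((box k m ×ˢ box k m).filter (fun g => wronskian g.1 g.2 = 0)).card : ℝ) ≤
      ε * qq k ^ (2 * m) := by
  have hq := good_qq_pos (k := k)
  have h1 : 1 < qq k := by linarith [two_le_qq (k := k)]
  obtain ⟨C, hC, h⟩ := exists_card_not_Gd (k := k)
  obtain ⟨y, hy⟩ := pow_unbounded_of_one_lt (C / ε) h1
  obtain ⟨K1, L, _, _, hev⟩ := h y
  filter_upwards [hev] with m hm
  have hsub : (box k m ×ˢ box k m).filter (fun g => wronskian g.1 g.2 = 0) ⊆
      (box k m ×ˢ box k m) \ Gd k (4 * y) K1 (m / L) m := by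
    intro g hg
    exact mem_sdiff.2 ⟨(mem_filter.1 hg).1, fun hG => wronskian_ne_of_Gd hG (mem_filter.1 hg).2⟩
  refine ((Nat.cast_le.2 (card_le_card hsub)).trans hm).trans ?_
  rw [div_lt_iff₀ hε] at hy
  rw [div_le_iff₀ (pow_pos hq y)]
  have h2 := mul_le_mul_of_nonneg_right hy.le (pow_pos hq (2 * m)).le
  linarith

end CL3

end
end

-- part H86M.Hyp
section

/-! h86m: the real and the model count satisfy Hyp (row HYP). -/

set_option autoImplicit false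
set_option linter.unusedSectionVars false
open Polynomial Finset UniqueFactorizationMonoid Filter Topology CL5
open scoped Classical

noncomputable section
namespace CL3

theorem hyp_dom0 {R : Type*} [CommRing R] [IsDomain R] {a b c d z1 z2 g1 g2 : R}
    (e1 : g1 = a ^ 3 * z1 + b ^ 3 * z2) (e2 : g2 = c ^ 3 * z1 + d ^ 3 * z2)
    (hd : a * d - b * c = 0) (h1 : a * g2 - c * g1 = 0) (ha : a ≠ 0)
    (n2 : ¬ (c = 0 ∧ d = 0)) (n3 : ¬ (a + c = 0 ∧ b + d = 0)) (n4 : ¬ (a - c = 0 ∧ b - d = 0)) :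
    g1 = 0 ∧ g2 = 0 := by
  have key : c * (a - c) * (a + c) * g1 = 0 := by
    have h3 : a ^ 3 * g2 - c ^ 3 * g1 = 0 := by
      rw [e1, e2]
      linear_combination (z2 * ((a * d) ^ 2 + (a * d) * (b * c) + (b * c) ^ 2)) * hd
    linear_combination h3 - a ^ 2 * h1
  have hc : c ≠ 0 := fun h => n2 ⟨h, by
    have : a * d = 0 := by linear_combination hd + b * h
    exact (mul_eq_zero.mp this).resolve_left ha⟩
  have hm : a - c ≠ 0 := fun h => n4 ⟨h, by
    have : a * (b - d) = 0 := by linear_combination b * h - hd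
    exact (mul_eq_zero.mp this).resolve_left ha⟩
  have hp : a + c ≠ 0 := fun h => n3 ⟨h, by
    have : a * (b + d) = 0 := by linear_combination b * h + hd
    exact (mul_eq_zero.mp this).resolve_left ha⟩
  have hg : g1 = 0 :=
    (mul_eq_zero.mp key).resolve_left (mul_ne_zero (mul_ne_zero hc hm) hp)
  refine ⟨hg, ?_⟩
  have : a * g2 = 0 := by linear_combination h1 + c * hg
  exact (mul_eq_zero.mp this).resolve_left ha

theorem hyp_dom {R : Type*} [CommRing R] [IsDomain R] {a b c d z1 z2 g1 g2 : R}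
    (e1 : g1 = a ^ 3 * z1 + b ^ 3 * z2) (e2 : g2 = c ^ 3 * z1 + d ^ 3 * z2)
    (hd : a * d - b * c = 0) (h1 : a * g2 - c * g1 = 0) (h2 : b * g2 - d * g1 = 0)
    (n1 : ¬ (a = 0 ∧ b = 0))
    (n2 : ¬ (c = 0 ∧ d = 0)) (n3 : ¬ (a + c = 0 ∧ b + d = 0)) (n4 : ¬ (a - c = 0 ∧ b - d = 0)) :
    g1 = 0 ∧ g2 = 0 := by
  by_cases ha : a = 0
  · have hb : b ≠ 0 := fun h => n1 ⟨ha, h⟩
    exact hyp_dom0 (a := b) (b := a) (c := d) (d := c) (z1 := z2) (z2 := z1)
      (by rw [e1]; ring) (by rw [e2]; ring) (by linear_combination -hd) h2 hb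
      (fun h => n2 h.symm) (fun h => n3 h.symm) (fun h => n4 h.symm)
  · exact hyp_dom0 e1 e2 hd h1 ha n2 n3 n4

variable {k : Type*} [Field k] [Fintype k]

theorem hyp_prime {p a b c d z1 z2 g1 g2 : k[X]} (hp : Irreducible p)
    (e1 : g1 = a ^ 3 * z1 + b ^ 3 * z2) (e2 : g2 = c ^ 3 * z1 + d ^ 3 * z2)
    (hd : p ∣ a * d - b * c) (h1 : p ∣ a * g2 - c * g1) (h2 : p ∣ b * g2 - d * g1)
    (n1 : ¬ (p ∣ a ∧ p ∣ b)) (n2 : ¬ (p ∣ c ∧ p ∣ d)) (n3 : ¬ (p ∣ a + c ∧ p ∣ b + d))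
    (n4 : ¬ (p ∣ a - c ∧ p ∣ b - d)) : p ∣ g1 ∧ p ∣ g2 := by
  have : Fact (Irreducible p) := ⟨hp⟩
  simp only [← AdjoinRoot.mk_eq_zero, map_sub, map_mul, map_add] at hd h1 h2 n1 n2 n3 n4 ⊢
  refine hyp_dom (z1 := AdjoinRoot.mk p z1) (z2 := AdjoinRoot.mk p z2) ?_ ?_ hd h1 h2 n1 n2 n3 n4
  · rw [e1]; simp only [map_add, map_mul, map_pow]
  · rw [e2]; simp only [map_add, map_mul, map_pow]

theorem hyp_sqf_dvd {D g : k[X]} (hD : Squarefree D)
    (h : ∀ p : k[X], Irreducible p → p ∣ D → p ∣ g) : D ∣ g := by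
  induction D using UniqueFactorizationMonoid.induction_on_prime with
  | h₁ => exact absurd hD not_squarefree_zero
  | h₂ x hx => exact hx.dvd
  | h₃ a p ha hp ih =>
    have hc : IsRelPrime p a := (squarefree_mul_iff.mp hD).1
    exact hc.mul_dvd (h p hp.irreducible (dvd_mul_right _ _))
      (ih hD.of_mul_right fun q hq hqa => h q hq (hqa.mul_left p))

theorem hyp_split {D P : k[X]} (hm : D.Monic) (hD : Squarefree D) :
    ∃ D1 D2 : k[X], D = D1 * D2 ∧ D1.Monic ∧ D2.Monic ∧ D1 ∣ P ∧ IsCoprime D2 P := by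
  obtain ⟨D2, h2⟩ := gcd_dvd_left D P
  have h0 : gcd D P ≠ 0 := fun h => hm.ne_zero (by rw [h2, h, zero_mul])
  have h1 : (gcd D P).Monic := by
    have := Polynomial.monic_normalize h0
    rwa [_root_.normalize_gcd] at this
  have h3 : D2.Monic := h1.of_mul_monic_left (h2 ▸ hm)
  refine ⟨gcd D P, D2, h2, h1, h3, gcd_dvd_right D P, ?_⟩
  refine isCoprime_of_irreducible_dvd (fun h => h3.ne_zero h.1) fun z hz hz2 hzP => ?_
  have hzD : z ∣ D := hz2.trans (Dvd.intro_left _ h2.symm)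
  have : z * z ∣ D := by
    have := mul_dvd_mul (dvd_gcd hzD hzP) hz2
    rwa [← h2] at this
  exact hz.not_isUnit (hD z this)

theorem hyp_UU_pos (Y K m : ℕ) : (0 : ℝ) < (UU k Y K m).card := by
  have : (0 : k[X]) ∈ UU k Y K m :=
    mem_UU.mpr ⟨by rw [degree_zero]; exact WithBot.bot_lt_coe _, dvd_zero _⟩
  exact_mod_cast card_pos.mpr ⟨0, this⟩

variable [CharP k 3]

theorem hyp_rel {f g1 g2 v1 v2 Z1 Z2 a b c d : k[X]}
    (e1 : g1 = a ^ 3 * Z1 + b ^ 3 * Z2) (e2 : g2 = c ^ 3 * Z1 + d ^ 3 * Z2)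
    (h1 : car (g1 * f) = g1 + v1) (h2 : car (g2 * f) = g2 + v2) :
    a * d - b * c ∣ a * (g2 + v2) - c * (g1 + v1) ∧
      a * d - b * c ∣ b * (g2 + v2) - d * (g1 + v1) := by
  have k1 : g1 + v1 = a * car (Z1 * f) + b * car (Z2 * f) := by
    rw [← h1, e1, add_mul, mul_assoc, mul_assoc, car_add, car_pow_mul, car_pow_mul]
  have k2 : g2 + v2 = c * car (Z1 * f) + d * car (Z2 * f) := by
    rw [← h2, e2, add_mul, mul_assoc, mul_assoc, car_add, car_pow_mul, car_pow_mul]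
  rw [k1, k2]
  exact ⟨⟨car (Z2 * f), by ring⟩, ⟨-car (Z1 * f), by ring⟩⟩

theorem hyp_NN_pos {Y n : ℕ} {g1 g2 v1 v2 : k[X]} (h : NN Y n g1 g2 v1 v2 ≠ 0) :
    ∃ f : k[X], car (g1 * f) = g1 + v1 ∧ car (g2 * f) = g2 + v2 := by
  obtain ⟨f, hf⟩ := card_ne_zero.mp h
  exact ⟨f, (mem_filter.mp hf).2.2⟩

theorem NN_le_kap (Y n : ℕ) (g1 g2 v1 v2 : k[X]) : NN Y n g1 g2 v1 v2 ≤ kap n g1 g2 := by
  by_cases h : NN Y n g1 g2 v1 v2 = 0
  · rw [h]; exact Nat.zero_le _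
  obtain ⟨f0, hf0⟩ := card_ne_zero.mp h
  obtain ⟨m0, -, a0, b0⟩ := mem_filter.mp hf0
  obtain ⟨m1, m2⟩ := mem_mon.mp m0
  unfold NN kap
  refine card_le_card_of_injOn (fun f => f - f0) (fun f hf => ?_) fun f _ f' _ e => ?_
  · obtain ⟨n0, -, a, b⟩ := mem_filter.mp (mem_coe.mp hf)
    obtain ⟨n1, n2⟩ := mem_mon.mp n0
    refine mem_coe.mpr (mem_filter.mpr ⟨mem_box.mpr ?_, ?_, ?_⟩)
    · have d1 : f.degree = n := by rw [degree_eq_natDegree n1.ne_zero, n2]
      have d0 : f0.degree = n := by rw [degree_eq_natDegree m1.ne_zero, m2]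
      rw [← d1]
      exact degree_sub_lt_left (d1.trans d0.symm) n1.ne_zero (by rw [n1.leadingCoeff, m1.leadingCoeff])
    · rw [mul_sub, car_sub, a, a0, sub_self]
    · rw [mul_sub, car_sub, b, b0, sub_self]
  · exact sub_left_injective e

theorem re2_nonneg (Y n : ℕ) (g1 g2 : k[X]) : 0 ≤ re2 Y n g1 g2 := Nat.cast_nonneg _

theorem mo2_nonneg (Y K n : ℕ) (g1 g2 : k[X]) : 0 ≤ mo2 Y K n g1 g2 := by
  unfold mo2
  positivity

theorem re2_le_kap (Y n : ℕ) (g1 g2 : k[X]) : re2 Y n g1 g2 ≤ kap n g1 g2 := by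
  unfold re2
  exact_mod_cast NN_le_kap Y n g1 g2 0 0

theorem hyp_mo2_le {Y K n : ℕ} {g1 g2 : k[X]} {B : ℝ}
    (h : ∀ v1 ∈ UU k Y K (n / 2), ∑ v2 ∈ UU k Y K (n / 2), (NN Y n g1 g2 v1 v2 : ℝ) ≤
      (UU k Y K (n / 2)).card * B) : mo2 Y K n g1 g2 ≤ B := by
  have hU := hyp_UU_pos (k := k) Y K (n / 2)
  unfold mo2
  rw [div_le_iff₀ (by positivity)]
  refine (sum_le_card_nsmul _ _ _ h).trans (le_of_eq ?_)
  rw [nsmul_eq_mul]; ring

theorem mo2_le_kap (Y K n : ℕ) (g1 g2 : k[X]) : mo2 Y K n g1 g2 ≤ kap n g1 g2 := by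
  refine hyp_mo2_le fun v1 _ => ?_
  rw [← nsmul_eq_mul]
  exact sum_le_card_nsmul _ _ _ fun v2 _ => by exact_mod_cast NN_le_kap Y n g1 g2 v1 v2

theorem mo2_le_triv (Y K n : ℕ) (g1 g2 : k[X]) :
    mo2 Y K n g1 g2 ≤ qq k ^ n / ((UU k Y K (n / 2)).card : ℝ) ^ 2 := by
  unfold mo2
  refine div_le_div_of_nonneg_right ?_ (by positivity)
  rw [← card_mon, ← sum_product']
  have h1 := sum_card_fiberwise_eq_card_filter (mon k n) (UU k Y K (n / 2) ×ˢ UU k Y K (n / 2))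
    (fun f => (car (g1 * f) - g1, car (g2 * f) - g2))
  have h2 : ∑ z ∈ UU k Y K (n / 2) ×ˢ UU k Y K (n / 2), NN Y n g1 g2 z.1 z.2 ≤ (mon k n).card := by
    refine le_trans (sum_le_sum fun z _ => ?_) (h1.le.trans (card_filter_le _ _))
    refine card_le_card fun f hf => ?_
    obtain ⟨n0, -, a, b⟩ := mem_filter.mp hf
    refine mem_filter.mpr ⟨n0, Prod.ext ?_ ?_⟩
    · simp only [a]; ring
    · simp only [b]; ring
  exact_mod_cast h2

theorem hyp_dvd {f g1 g2 v1 v2 Z1 Z2 a b c d D D1 : k[X]}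
    (e1 : g1 = a ^ 3 * Z1 + b ^ 3 * Z2) (e2 : g2 = c ^ 3 * Z1 + d ^ 3 * Z2)
    (h1 : car (g1 * f) = g1 + v1) (h2 : car (g2 * f) = g2 + v2) (hA : Adm D a b c d)
    (hD : D1 ∣ D) (hv1 : D1 ∣ v1) (hv2 : D1 ∣ v2) : D1 ∣ g1 ∧ D1 ∣ g2 := by
  obtain ⟨-, hs, hdet, hp⟩ := hA
  obtain ⟨r1, r2⟩ := hyp_rel e1 e2 h1 h2
  have key : ∀ p : k[X], Irreducible p → p ∣ D1 → p ∣ g1 ∧ p ∣ g2 := by
    intro p hi hpD
    obtain ⟨n1, n2, n3, n4⟩ := hp p hi (hpD.trans hD)
    have hd := (hpD.trans hD).trans hdet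
    have w1 := hpD.trans hv1
    have w2 := hpD.trans hv2
    refine hyp_prime hi e1 e2 hd ?_ ?_ n1 n2 n3 n4
    · have := ((hd.trans r1).sub (w2.mul_left a)).add (w1.mul_left c)
      convert this using 1; ring
    · have := ((hd.trans r2).sub (w2.mul_left b)).add (w1.mul_left d)
      convert this using 1; ring
  have hs1 : Squarefree D1 := hs.squarefree_of_dvd hD
  exact ⟨hyp_sqf_dvd hs1 fun p hi h => (key p hi h).1, hyp_sqf_dvd hs1 fun p hi h => (key p hi h).2⟩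

theorem hyp_re2 (Y n : ℕ) : Hyp (k := k) n (re2 Y n) := by
  intro g1 g2 Z1 Z2 M11 M12 M21 M22 D i1 i2 hR hA hpos
  have h0 : NN Y n g1 g2 0 0 ≠ 0 := by
    intro h
    unfold re2 at hpos
    rw [h] at hpos
    simp at hpos
  obtain ⟨f, h1, h2⟩ := hyp_NN_pos h0
  obtain ⟨d1, d2⟩ := hyp_dvd hR.1 hR.2.1 h1 h2 hA dvd_rfl (dvd_zero _) (dvd_zero _)
  refine ⟨D, 1, (mul_one D).symm, hA.1, monic_one, d1, d2, ?_⟩
  rw [nrm, natDegree_one, pow_zero, div_one]
  exact re2_le_kap Y n g1 g2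

theorem hyp_class {f f' g1 g2 v1 v2 v2' Z1 Z2 a b c d D D2 : k[X]}
    (e1 : g1 = a ^ 3 * Z1 + b ^ 3 * Z2) (e2 : g2 = c ^ 3 * Z1 + d ^ 3 * Z2)
    (h1 : car (g1 * f) = g1 + v1) (h2 : car (g2 * f) = g2 + v2)
    (h1' : car (g1 * f') = g1 + v1) (h2' : car (g2 * f') = g2 + v2') (hA : Adm D a b c d)
    (hD : D2 ∣ D) : D2 ∣ v2 - v2' := by
  obtain ⟨-, hs, hdet, hp⟩ := hA
  obtain ⟨r1, r2⟩ := hyp_rel e1 e2 h1 h2
  obtain ⟨s1, s2⟩ := hyp_rel e1 e2 h1' h2'
  refine hyp_sqf_dvd (hs.squarefree_of_dvd hD) fun p hi hpD => ?_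
  have n1 := (hp p hi (hpD.trans hD)).1
  have hd := (hpD.trans hD).trans hdet
  have w1 : p ∣ a * (v2 - v2') := by
    have := hd.trans (r1.sub s1)
    convert this using 1; ring
  have w2 : p ∣ b * (v2 - v2') := by
    have := hd.trans (r2.sub s2)
    convert this using 1; ring
  by_contra hn
  exact n1 ⟨(hi.prime.dvd_or_dvd w1).resolve_right hn, (hi.prime.dvd_or_dvd w2).resolve_right hn⟩

theorem hyp_nat_le {a : k[X]} {i : ℕ} (h : a ∈ box k (i + 1)) : a.natDegree ≤ i := by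
  rw [mem_box] at h
  by_cases h0 : a = 0
  · rw [h0, natDegree_zero]; exact Nat.zero_le _
  · rw [degree_eq_natDegree h0] at h
    exact Nat.lt_succ_iff.mp (by exact_mod_cast h)

theorem hyp_mo2 (Y : ℕ) {K : ℕ} (hK : 1 ≤ K) :
    ∀ᶠ n : ℕ in atTop, Hyp (k := k) n (mo2 Y K n) := by
  filter_upwards [eventually_ge_atTop (6 * (K + K * (PP k Y).natDegree) + 6)] with n hn
  intro g1 g2 Z1 Z2 M11 M12 M21 M22 D i1 i2 hR hA hpos
  obtain ⟨e1, e2, hdet, -, -, -, -, b11, b21, b12, b22, l1, l2⟩ := hR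
  obtain ⟨D1, D2, hD, m1, m2, hP, hc⟩ := hyp_split (P := PP k Y) hA.1 hA.2.1
  have hD1 : D1 ∣ D := Dvd.intro _ hD.symm
  have hD2 : D2 ∣ D := Dvd.intro_left _ hD.symm
  have hPK : D1 ∣ PP k Y ^ K := hP.trans (dvd_pow_self _ (by omega))
  have hex : ∃ v1 ∈ UU k Y K (n / 2), ∃ v2 ∈ UU k Y K (n / 2), NN Y n g1 g2 v1 v2 ≠ 0 := by
    by_contra hne
    push Not at hne
    unfold mo2 at hpos
    rw [sum_eq_zero fun v1 h1 => sum_eq_zero fun v2 h2 => by rw [hne v1 h1 v2 h2, Nat.cast_zero]]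
      at hpos
    simp at hpos
  obtain ⟨u1, hu1, u2, hu2, hu⟩ := hex
  obtain ⟨f, h1, h2⟩ := hyp_NN_pos hu
  obtain ⟨d1, d2⟩ := hyp_dvd e1 e2 h1 h2 hA hD1 (hPK.trans (mem_UU.mp hu1).2)
    (hPK.trans (mem_UU.mp hu2).2)
  refine ⟨D1, D2, hD, m1, m2, d1, d2, hyp_mo2_le fun v1 _ => ?_⟩
  have hq : (0 : ℝ) < qq k := lt_of_lt_of_le two_pos two_le_qq
  have hnr : 0 < nrm D2 := pow_pos hq _
  by_cases hz : ∀ v2 ∈ UU k Y K (n / 2), NN Y n g1 g2 v1 v2 = 0
  · rw [sum_eq_zero fun v2 h2 => by rw [hz v2 h2, Nat.cast_zero]]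
    positivity
  push Not at hz
  obtain ⟨v0, hv0, hz⟩ := hz
  obtain ⟨f0, k1, k2⟩ := hyp_NN_pos hz
  obtain ⟨s0, hs0⟩ := (mem_UU.mp hv0).2
  have hm : K + K * (PP k Y).natDegree ≤ n / 2 := by omega
  have hdeg : D2.natDegree ≤ n / 2 - K - K * (PP k Y).natDegree := by
    have a1 := natDegree_le_of_dvd (hD2.trans hA.2.2.1) hdet
    have a2 := natDegree_sub_le (M11 * M22) (M12 * M21)
    have a3 := natDegree_mul_le (p := M11) (q := M22)
    have a4 := natDegree_mul_le (p := M12) (q := M21)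
    have := hyp_nat_le b11
    have := hyp_nat_le b12
    have := hyp_nat_le b21
    have := hyp_nat_le b22
    omega
  rw [card_UU hm, sum_UU hm (fun v2 => (NN Y n g1 g2 v1 v2 : ℝ))]
  set N := n / 2 - K - K * (PP k Y).natDegree with hN
  calc ∑ s ∈ box k N, (NN Y n g1 g2 v1 (PP k Y ^ K * s) : ℝ)
      ≤ ∑ s ∈ box k N, (if D2 ∣ s - s0 then (1 : ℝ) else 0) * kap n g1 g2 := by
        refine sum_le_sum fun s _ => ?_
        split_ifs with hs
        · rw [one_mul]; exact_mod_cast NN_le_kap Y n g1 g2 v1 _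
        · rw [zero_mul]
          by_contra hlt
          have hne : NN Y n g1 g2 v1 (PP k Y ^ K * s) ≠ 0 := fun h => hlt (by rw [h, Nat.cast_zero])
          obtain ⟨f1, j1, j2⟩ := hyp_NN_pos hne
          have := hyp_class e1 e2 j1 j2 k1 k2 hA hD2
          rw [hs0, ← mul_sub] at this
          exact hs ((hc.pow_right (n := K)).dvd_of_dvd_mul_left this)
    _ = qq k ^ (N - D2.natDegree) * kap n g1 g2 := by
        rw [← sum_mul, sum_box_class80 m2 hdeg]
    _ = qq k ^ N * (kap n g1 g2 / nrm D2) := by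
        rw [pow_sub₀ _ hq.ne' hdeg, nrm]; ring
    _ ≤ _ := le_rfl

theorem sum_II (Y n : ℕ) : ∑ f ∈ (mon k n).filter (Wsf Y), (II f : ℝ) =
    ∑ g ∈ (box k (n / 2) ×ˢ box k (n / 2)).filter (fun g => wronskian g.1 g.2 ≠ 0),
      re2 Y n g.1 g.2 := by
  have h1 : ∀ f ∈ (mon k n).filter (Wsf Y), (II f : ℝ) =
      ∑ g ∈ (box k (n / 2) ×ˢ box k (n / 2)).filter (fun g => wronskian g.1 g.2 ≠ 0),
        if car (g.1 * f) = g.1 ∧ car (g.2 * f) = g.2 then (1 : ℝ) else 0 := by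
    intro f hf
    have hd := (mem_mon.mp (mem_filter.mp hf).1).2
    rw [sum_boole]
    unfold II Sol
    rw [hd]
    congr 2
    ext z
    simp only [mem_filter, mem_product]
    tauto
  rw [sum_congr rfl h1, sum_comm]
  refine sum_congr rfl fun g _ => ?_
  rw [sum_boole]
  unfold re2 NN
  congr 2
  ext f
  simp only [mem_filter, add_zero]
  tauto

end CL3

end
end

-- part H86M.Rep
section

/-! h86m: the representation g = M^(3) Z (row REP). -/

set_option autoImplicit false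
open Polynomial Finset UniqueFactorizationMonoid Filter Topology CL5
open scoped Classical

noncomputable section
namespace CL3

variable {k : Type*} [Field k] [Fintype k]

variable [CharP k 3]

theorem exists_rep {n : ℕ} {g1 g2 : k[X]} (h1 : g1 ∈ box k (n / 2)) (h2 : g2 ∈ box k (n / 2))
    (hW : wronskian g1 g2 ≠ 0) : ∃ (Z1 Z2 M11 M12 M21 M22 : k[X]) (i1 i2 : ℕ),
      Rep (n / 2) g1 g2 Z1 Z2 M11 M12 M21 M22 i1 i2 ∧
        (kap n g1 g2 : ℝ) ≤ qq k ^ (i1 + i2 + 3) := by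
  obtain ⟨Z1, Z2, M11, M12, M21, M22, i1, i2, a1, a2, a3, a4, a5, a6, a7, a8, a9, b1, b2, b3, b4,
    hk⟩ := Rep56.rep h1 h2 hW
  refine ⟨Z1, Z2, M11, M12, M21, M22, i1, i2,
    ⟨a1, a2, a3, a4, a5, a6, a7, a8, a9, b1, b2, b3, b4⟩, le_trans ?_ (hk n (by omega))⟩
  have hz : ∀ w : k[X], car w = 0 → derivative^[2] w = 0 := fun w h => by
    have := car_pow_three w
    rw [h, zero_pow (by norm_num)] at this
    exact neg_eq_zero.1 this.symm
  refine Nat.cast_le.2 (card_le_card fun φ hφ => ?_)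
  obtain ⟨c0, c1, c2⟩ := mem_filter.1 hφ
  exact mem_filter.2 ⟨c0, hz _ c1, hz _ c2⟩

end CL3

end
end

-- part H86M.Tail
section

/-! h86m: the tail lemma (row TAIL). -/

set_option autoImplicit false
open Polynomial Finset UniqueFactorizationMonoid Filter Topology CL5
open scoped Classical

noncomputable section
namespace CL3

variable {k : Type*} [Field k] [Fintype k]

variable [CharP k 3]

theorem tail : ∃ τ : ℕ → ℝ, Tendsto τ atTop (𝓝 0) ∧
    ∀ (n i0 : ℕ) (ν : k[X] → k[X] → ℝ), (∀ g1 g2, 0 ≤ ν g1 g2) → Hyp n ν →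
      ∑ g ∈ (box k (n / 2) ×ˢ box k (n / 2)).filter (fun g =>
        wronskian g.1 g.2 ≠ 0 ∧ qq k ^ (i0 + 3) < (kap n g.1 g.2 : ℝ)), ν g.1 g.2 ≤
        τ i0 * qq k ^ (2 * (n / 2)) := by
  obtain ⟨τ, h1, h2⟩ := t91_tail (k := k)
  refine ⟨τ, h1, fun n i0 ν _ hyp => h2 (n / 2) i0 _ (fun g => ν g.1 g.2) fun g hg hν => ?_⟩
  simp only [mem_filter, mem_product] at hg
  obtain ⟨⟨b1, b2⟩, hW, hk⟩ := hg
  obtain ⟨Z1, Z2, M11, M12, M21, M22, i1, i2, hR, hκ⟩ := exists_rep b1 b2 hW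
  have hq : 1 < qq k := by linarith [two_le_qq (k := k)]
  have hi := (pow_lt_pow_iff_right₀ hq).1 (hk.trans_le hκ)
  have hH : ∀ D : k[X], Adm D M11 M12 M21 M22 → ∃ D1 D2 : k[X], D = D1 * D2 ∧ D1 ∣ g.1 ∧
      D1 ∣ g.2 ∧ ν g.1 g.2 ≤ qq k ^ (i1 + i2 + 3) / qq k ^ D2.natDegree := by
    intro D hD
    obtain ⟨D1, D2, e, -, -, d1, d2, h⟩ := hyp _ _ _ _ _ _ _ _ D i1 i2 hR hD hν
    exact ⟨D1, D2, e, d1, d2, h.trans (div_le_div_of_nonneg_right hκ (pow_pos c91_pos _).le)⟩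
  obtain ⟨e1, e2, hd, z1, z2, c1, c2, c3, c4, c5, c6, l1, l2⟩ := hR
  refine ⟨i1, i2, by omega, l1.le, l2.le, (Z1, Z2), ((M11, M12), (M21, M22)), z1, z2, e1, e2, hd,
    c1, c2, c3, c5, c4, c6, ?_, hH⟩
  obtain ⟨D1, D2, -, -, -, h⟩ := hH 1 ⟨monic_one, squarefree_one, one_dvd _,
    fun p hp h => absurd (isUnit_of_dvd_one h) hp.not_isUnit⟩
  exact h.trans (div_le_self (pow_pos c91_pos _).le (one_le_pow₀ hq.le))

end CL3

end
end

-- part H86M.One
section

/-! h86m: the first moment (row ONE). -/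

set_option autoImplicit false
open Polynomial Finset UniqueFactorizationMonoid Filter Topology CL5
open scoped Classical

noncomputable section
namespace CL3

variable {k : Type*} [Field k] [Fintype k]

variable [CharP k 3]

theorem one_isCa : One20.IsCa (car : k[X] → k[X]) := fun w j => coeff_co 2 w j

theorem one_Sol {n : ℕ} {f : k[X]} (hf : f ∈ mon k n) :
    Sol f = (box k (n / 2)).filter (fun g => car (g * f) = g) := by
  unfold Sol
  rw [(mem_mon.1 hf).2]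

theorem one_unif : ∃ K : ℝ, 0 < K ∧ ∀ n : ℕ,
    ∑ f ∈ mon k n, ((Sol f).card : ℝ) ≤ K * qq k ^ n := by
  have hq := One20.qpos (k := k)
  refine ⟨1 + 2 * qq k ^ 4, by positivity, fun n => ?_⟩
  rw [Finset.sum_congr rfl fun f hf => by rw [one_Sol hf]]
  exact One20.one_unif one_isCa n

omit [CharP k 3] in
theorem one_tendsto {a : ℕ → ℕ} (ha : Tendsto a atTop atTop) :
    Tendsto (fun n => 1 / qq k ^ a n) atTop (𝓝 0) := by
  have hq1 : (1 : ℝ) < qq k := lt_of_lt_of_le (by norm_num) two_le_qq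
  simp only [one_div]
  exact ((tendsto_pow_atTop_atTop_of_one_lt hq1).comp ha).inv_tendsto_atTop

theorem one_half (c : ℕ) : Tendsto (fun n : ℕ => n / 2 - c) atTop atTop :=
  tendsto_atTop.2 fun b => (eventually_ge_atTop (2 * (b + c))).mono fun n hn => by omega

theorem one_near : ∃ τ : ℕ → ℝ, Tendsto τ atTop (𝓝 0) ∧ ∀ (Y : ℕ) (ε : ℝ), 0 < ε →
    ∀ᶠ n : ℕ in atTop,
      |∑ f ∈ (mon k n).filter (Wsf Y), ((Sol f).card : ℝ) -
        (uu n + 1) * ((mon k n).filter (Wsf Y)).card| ≤ (τ Y + ε) * qq k ^ n := by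
  have hq := One20.qpos (k := k)
  have hq1 : (1 : ℝ) ≤ qq k := le_trans (by norm_num) two_le_qq
  refine ⟨fun Y => (2 * qq k ^ 4 + 1) * (1 / qq k ^ (Y / 2 - 0)), ?_, fun Y ε hε => ?_⟩
  · simpa using (one_tendsto (k := k) (one_half 0)).const_mul (2 * qq k ^ 4 + 1)
  set K := Y / 2 + 1 with hK
  set L := K + K * (PP k Y).natDegree with hL
  filter_upwards [cok (k := k) Y (K := K) (by omega), eventually_ge_atTop (2 * L),
    eventually_ge_atTop (6 * (PP k Y).natDegree + 6),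
    (one_tendsto (k := k) (one_half L)).eventually (ge_mem_nhds hε)] with n h1 h2 h3 h4
  have hc := card_UU (k := k) (Y := Y) (K := K) (m := n / 2) (by omega)
  have h5 := One20.one_est one_isCa (Y := Y) (K := K) (n := n) (i0 := Y / 2)
    (PP_monic (k := k) Y).ne_zero (fun p hp => dvd_PP hp) le_rfl h3 (U := UU k Y K (n / 2))
    (mem_UU.2 ⟨by rw [degree_zero]; exact WithBot.bot_lt_coe _, dvd_zero _⟩)
    (fun v hv => mem_UU.1 hv) (c := uu n) (fun f hf hW => by exact_mod_cast h1 f hf hW)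
  rw [Finset.sum_congr rfl fun f hf => by rw [one_Sol (mem_filter.1 hf).1], add_comm (uu n : ℝ) 1]
  refine h5.trans (mul_le_mul_of_nonneg_right ?_ (by positivity))
  rw [hc, Nat.sub_sub, ← hL]
  have h6 : qq k ^ (Y / 2) / qq k ^ Y ≤ 1 / qq k ^ (Y / 2) := by
    rw [div_le_div_iff₀ (by positivity) (by positivity), ← pow_add, one_mul]
    exact pow_le_pow_right₀ hq1 (by omega)
  have h7 : (2 * qq k ^ 4 + 1) * (1 / qq k ^ (Y / 2 - 0)) =
      2 * qq k ^ 4 / qq k ^ (Y / 2) + 1 / qq k ^ (Y / 2) := by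
    rw [Nat.sub_zero]; ring
  rw [h7]
  linarith

end CL3

end
end

-- part H86M.Two
section

/-! h86m: the sieved count of independent pairs (row TWO). -/

set_option autoImplicit false
open Polynomial Finset UniqueFactorizationMonoid Filter Topology CL5
open scoped Classical

noncomputable section
namespace CL3

variable {k : Type*} [Field k] [Fintype k]

variable [CharP k 3]

/-- split a sum over independent pairs by the size of the kernel -/
theorem two_split {n : ℕ} {ν : k[X] → k[X] → ℝ} (h0 : ∀ g1 g2, 0 ≤ ν g1 g2)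
    (hk : ∀ g1 g2, ν g1 g2 ≤ kap n g1 g2) {c T : ℝ} (hc : 0 ≤ c) {S A : Finset (k[X] × k[X])}
    (hA : A ⊆ S.filter (fun g => wronskian g.1 g.2 ≠ 0))
    (hT : ∑ g ∈ S.filter (fun g => wronskian g.1 g.2 ≠ 0 ∧ c < (kap n g.1 g.2 : ℝ)),
      ν g.1 g.2 ≤ T) :
    ∑ g ∈ A, ν g.1 g.2 ≤ T + c * A.card := by
  rw [← sum_filter_add_sum_filter_not A (fun g => c < (kap n g.1 g.2 : ℝ))]
  refine add_le_add (le_trans (sum_le_sum_of_subset_of_nonneg ?_ fun g _ _ => h0 _ _) hT) ?_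
  · intro g hg
    obtain ⟨hg1, hg2⟩ := mem_filter.1 hg
    obtain ⟨h1, h2⟩ := mem_filter.1 (hA hg1)
    exact mem_filter.2 ⟨h1, h2, hg2⟩
  · calc _ ≤ ∑ _g ∈ A.filter (fun g => ¬ c < (kap n g.1 g.2 : ℝ)), c :=
          sum_le_sum fun g hg => (hk _ _).trans (not_lt.1 (mem_filter.1 hg).2)
      _ = c * (A.filter (fun g => ¬ c < (kap n g.1 g.2 : ℝ))).card := by
          rw [sum_const, nsmul_eq_mul, mul_comm]
      _ ≤ _ := by
          gcongr
          exact filter_subset _ _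

theorem two_pow_le (n : ℕ) : qq k ^ (2 * (n / 2)) ≤ qq k ^ n :=
  pow_le_pow_right₀ (by linarith [three_le_qq (k := k)]) (by omega)

omit [CharP k 3] in
theorem two_Wsf_zero (f : k[X]) : Wsf 0 f := by
  intro p hp
  obtain ⟨h1, h2, h3⟩ := mem_filter.1 hp
  have := mem_box.1 h1
  have h4 := h3.degree_pos
  have h5 : p.degree < 1 := by simpa using this
  exact absurd (Nat.WithBot.lt_one_iff_le_zero.1 h5) (not_le.2 h4)

theorem two_unif : ∃ K : ℝ, 0 < K ∧ ∀ n : ℕ, ∑ f ∈ mon k n, (II f : ℝ) ≤ K * qq k ^ n := by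
  obtain ⟨τ, -, hτ⟩ := tail (k := k)
  have hq : (0 : ℝ) < qq k := by linarith [three_le_qq (k := k)]
  refine ⟨|τ 0| + qq k ^ 3, by positivity, fun n => ?_⟩
  have h1 := sum_II (k := k) 0 n
  rw [filter_true_of_mem fun f _ => two_Wsf_zero f] at h1
  have h2 := two_split (re2_nonneg 0 n) (re2_le_kap 0 n) (by positivity) subset_rfl
    (hτ n 0 _ (re2_nonneg 0 n) (hyp_re2 0 n))
  have h3 : (((box k (n / 2) ×ˢ box k (n / 2)).filter
      (fun g => wronskian g.1 g.2 ≠ 0)).card : ℝ) ≤ qq k ^ (2 * (n / 2)) := by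
    calc _ ≤ ((box k (n / 2) ×ˢ box k (n / 2)).card : ℝ) := by
          exact_mod_cast card_filter_le _ _
      _ = _ := by rw [card_product, Nat.cast_mul, card_box, two_mul, pow_add]
  have h4 := two_pow_le (k := k) n
  have h5 : τ 0 * qq k ^ (2 * (n / 2)) ≤ |τ 0| * qq k ^ n := by
    gcongr
    exact le_abs_self _
  have h6 : qq k ^ (0 + 3) * (((box k (n / 2) ×ˢ box k (n / 2)).filter
      (fun g => wronskian g.1 g.2 ≠ 0)).card : ℝ) ≤ qq k ^ 3 * qq k ^ n := by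
    rw [zero_add]
    gcongr
    exact h3.trans h4
  rw [h1, add_mul]
  linarith

theorem two_near : ∃ τ : ℕ → ℝ, Tendsto τ atTop (𝓝 0) ∧ ∀ (y : ℕ) (ε : ℝ), 0 < ε →
    ∀ᶠ n : ℕ in atTop,
      |∑ f ∈ (mon k n).filter (Wsf (4 * y)), (II f : ℝ) -
        (uu n : ℝ) ^ 2 * ((mon k n).filter (Wsf (4 * y))).card| ≤ (τ y + ε) * qq k ^ n := by
  obtain ⟨τ, hτ0, hτ⟩ := tail (k := k)
  obtain ⟨C, hC, hG⟩ := exists_card_not_Gd (k := k)
  have hq3 := three_le_qq (k := k)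
  have hq : (0 : ℝ) < qq k := by linarith
  have hq1 : (1 : ℝ) ≤ qq k := by linarith
  have hhalf : Tendsto (fun y : ℕ => y / 2) atTop atTop := Nat.tendsto_div_const_atTop two_ne_zero
  refine ⟨fun y => |τ (y / 2)| + C * qq k ^ 3 * (1 / qq k) ^ (y / 2), ?_, fun y ε hε => ?_⟩
  · have a1 : Tendsto (fun y : ℕ => |τ (y / 2)|) atTop (𝓝 0) := by
      simpa using (hτ0.comp hhalf).abs
    have a2 : Tendsto (fun y : ℕ => (1 / qq k) ^ (y / 2)) atTop (𝓝 0) :=
      (tendsto_pow_atTop_nhds_zero_of_lt_one (by positivity)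
        ((div_lt_one hq).2 (by linarith))).comp hhalf
    simpa using a1.add (a2.const_mul (C * qq k ^ 3))
  obtain ⟨K1, L, hK1, hL, hGd⟩ := hG y
  set K := K1 + 4 with hK
  set e := K + K * (PP k (4 * y)).natDegree with he
  have hε2 : 0 < ε / 2 := by positivity
  have hε3 : 0 < ε / 2 / qq k ^ (2 * e) := by positivity
  filter_upwards [sum_mo2 (k := k) (4 * y) (K := K) (by omega),
    eq_total (k := k) (4 * y) K1 (K := K) le_rfl hL hε2, hhalf.eventually hGd,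
    hhalf.eventually (card_wr_zero (k := k) hε3), hyp_mo2 (k := k) (4 * y) (K := K) (by omega),
    hhalf.eventually (eventually_ge_atTop e)] with n h1 h2 h3 h4 h5 h6
  set S := box k (n / 2) ×ˢ box k (n / 2) with hS
  set A := S.filter (fun g => wronskian g.1 g.2 ≠ 0) with hA
  set G := Gd k (4 * y) K1 (n / 2 / L) (n / 2) with hGdef
  have hGA : G ⊆ A := fun g hg =>
    mem_filter.2 ⟨(mem_filter.1 hg).1, wronskian_ne_of_Gd hg⟩
  have hp := two_pow_le (k := k) n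
  have hcard : qq k ^ (y / 2 + 3) * ((A \ G).card : ℝ) ≤
      C * qq k ^ 3 * (1 / qq k) ^ (y / 2) * qq k ^ n := by
    have b1 : ((A \ G).card : ℝ) ≤ C * qq k ^ n / qq k ^ (y / 2 + y / 2) := by
      calc _ ≤ ((S \ G).card : ℝ) := by
            exact_mod_cast card_le_card (sdiff_subset_sdiff (filter_subset _ _) subset_rfl)
        _ ≤ _ := h3
        _ ≤ _ := by
            gcongr
            omega
    calc _ ≤ qq k ^ (y / 2 + 3) * (C * qq k ^ n / qq k ^ (y / 2 + y / 2)) := by gcongr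
      _ = _ := by
          rw [one_div, inv_pow, pow_add, pow_add]
          field_simp
  have ht : τ (y / 2) * qq k ^ (2 * (n / 2)) ≤ |τ (y / 2)| * qq k ^ n := by
    gcongr
    exact le_abs_self _
  have r1 := two_split (re2_nonneg (4 * y) n) (re2_le_kap (4 * y) n) (by positivity)
    (sdiff_subset (s := A) (t := G)) (hτ n (y / 2) _ (re2_nonneg (4 * y) n) (hyp_re2 (4 * y) n))
  have m1 := two_split (mo2_nonneg (4 * y) K n) (mo2_le_kap (4 * y) K n) (by positivity)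
    (sdiff_subset (s := A) (t := G)) (hτ n (y / 2) _ (mo2_nonneg (4 * y) K n) h5)
  have r0 : 0 ≤ ∑ g ∈ A \ G, re2 (4 * y) n g.1 g.2 := sum_nonneg fun g _ => re2_nonneg _ _ _ _
  have m0 : 0 ≤ ∑ g ∈ A \ G, mo2 (4 * y) K n g.1 g.2 :=
    sum_nonneg fun g _ => mo2_nonneg _ _ _ _ _
  have z0 : 0 ≤ ∑ g ∈ S.filter (fun g => ¬ wronskian g.1 g.2 ≠ 0), mo2 (4 * y) K n g.1 g.2 :=
    sum_nonneg fun g _ => mo2_nonneg _ _ _ _ _
  have z1 : ∑ g ∈ S.filter (fun g => ¬ wronskian g.1 g.2 ≠ 0), mo2 (4 * y) K n g.1 g.2 ≤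
      ε / 2 * qq k ^ n := by
    have hU := card_UU (k := k) (Y := 4 * y) (K := K) (m := n / 2) h6
    have hm : 2 * (n / 2) = 2 * e + (n / 2 - K - K * (PP k (4 * y)).natDegree) * 2 := by omega
    calc _ ≤ ∑ _g ∈ S.filter (fun g => ¬ wronskian g.1 g.2 ≠ 0),
            qq k ^ n / ((UU k (4 * y) K (n / 2)).card : ℝ) ^ 2 :=
          sum_le_sum fun g _ => mo2_le_triv _ _ _ _ _
      _ = (S.filter (fun g => wronskian g.1 g.2 = 0)).card *
            (qq k ^ n / ((UU k (4 * y) K (n / 2)).card : ℝ) ^ 2) := by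
          simp only [sum_const, nsmul_eq_mul, ne_eq, not_not]
      _ ≤ ε / 2 / qq k ^ (2 * e) * qq k ^ (2 * (n / 2)) *
            (qq k ^ n / ((UU k (4 * y) K (n / 2)).card : ℝ) ^ 2) := by gcongr
      _ = _ := by
          rw [hU, hm, pow_add, ← pow_mul]
          field_simp
  have s1 := sum_filter_add_sum_filter_not S (fun g => wronskian g.1 g.2 ≠ 0)
    (fun g => mo2 (4 * y) K n g.1 g.2)
  have s2 := sum_sdiff hGA (f := fun g => re2 (4 * y) n g.1 g.2)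
  have s3 := sum_sdiff hGA (f := fun g => mo2 (4 * y) K n g.1 g.2)
  have h7 : ε / 2 * qq k ^ (2 * (n / 2)) ≤ ε / 2 * qq k ^ n := by gcongr
  rw [sum_sub_distrib, abs_le] at h2
  rw [sum_II, ← h1, abs_le, add_mul, add_mul]
  rw [← hS, ← hA] at *
  constructor <;> linarith [h2.1, h2.2]

end CL3

end
end
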