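import Pool.Agent.MP_d0fd9b_nt.P3.M4
import Pool.Agent.MP_d0fd9b_nt.P3.M1

-- part H49Q.CokR
section

/-! h49q MODEL (helper70): the index of the image for an arbitrary monic modulus. -/

set_option autoImplicit false
set_option linter.unusedSectionVars false
open Polynomial Finset UniqueFactorizationMonoid Filter Topology
open scoped Classical

noncomputable section
namespace CL5

variable {k : Type*} [Field k] [Fintype k] [CharP k 3]

section
variable {Ca : k[X] → k[X]} (hCa : ∀ w j, (Ca w).coeff j ^ 3 = w.coeff (3 * j + 2))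
include hCa

theorem m70_small {R f : k[X]} (hRm : R.Monic) {K n : ℕ} (hK : 1 ≤ K)
    (hfd : f.natDegree = n) (hon : ∀ a : k[X], ∃ g, R ∣ Ca (g * f) - g - a)
    (hn : 3 * (R.natDegree + K) ≤ n / 2) {a : k[X]} (ha : a.degree < (n / 2 - K : ℕ)) :
    ∃ g s : k[X], g.degree < (n / 2 : ℕ) ∧ s.degree < (n / 2 - K - R.natDegree : ℕ) ∧
      Ca (g * f) - g - R * s = a := by
  obtain ⟨j, rfl⟩ : ∃ j, K = j + 1 := ⟨K - 1, by omega⟩
  obtain ⟨g, hg⟩ := hon a
  have hR3 : (R ^ 3).Monic := hRm.pow _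
  set g0 := g %ₘ R ^ 3 with hg0
  have hdeg : g0.degree < (3 * R.natDegree : ℕ) := by
    have := degree_modByMonic_lt g hR3
    rwa [degree_eq_natDegree hR3.ne_zero, hRm.natDegree_pow] at this
  have hdv : R ∣ Ca (g0 * f) - g0 - a := by
    have e : g = g0 + R ^ 3 * (g /ₘ R ^ 3) := (modByMonic_add_div g (R ^ 3)).symm
    rw [e, add_mul, c10_add hCa, mul_assoc, c10_pow_mul hCa] at hg
    have : Ca (g0 * f) - g0 - a =
        (Ca (g0 * f) + R * Ca (g /ₘ R ^ 3 * f) - (g0 + R ^ 3 * (g /ₘ R ^ 3)) - a) -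
          R * (Ca (g /ₘ R ^ 3 * f) - R ^ 2 * (g /ₘ R ^ 3)) := by ring
    rw [this]
    exact dvd_sub hg (dvd_mul_right _ _)
  obtain ⟨s, hs'⟩ := hdv
  have h1 : g0.degree < (n / 2 - (j + 1) : ℕ) :=
    hdeg.trans_le (by exact_mod_cast (by omega))
  have h2 : (Ca (g0 * f)).degree < (n / 2 - (j + 1) : ℕ) := by
    apply c10_degree hCa
    by_cases h0 : g0 = 0
    · rw [h0, zero_mul, degree_zero]; exact WithBot.bot_lt_coe _
    · have := (natDegree_lt_iff_degree_lt h0).mpr hdeg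
      have h3 : (g0 * f).natDegree ≤ g0.natDegree + f.natDegree := natDegree_mul_le
      exact degree_le_natDegree.trans_lt (by exact_mod_cast (by omega))
  have h4 : (R * s).degree < (n / 2 - (j + 1) : ℕ) := by
    rw [← hs']
    exact (degree_sub_le _ _).trans_lt (max_lt ((degree_sub_le _ _).trans_lt (max_lt h2 h1)) ha)
  refine ⟨g0, s, h1.trans_le (by exact_mod_cast (by omega)), ?_, by rw [← hs']; ring⟩
  by_cases h0 : s = 0
  · rw [h0, degree_zero]; exact WithBot.bot_lt_coe _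
  · have := (natDegree_lt_iff_degree_lt (mul_ne_zero hRm.ne_zero h0)).mpr h4
    rw [natDegree_mul hRm.ne_zero h0] at this
    exact (natDegree_lt_iff_degree_lt h0).mp (by omega)

theorem m70_all {R f : k[X]} (hRm : R.Monic) {K n : ℕ} (hK : 1 ≤ K)
    (hfm : f.Monic) (hfd : f.natDegree = n) (hon : ∀ a : k[X], ∃ g, R ∣ Ca (g * f) - g - a)
    (hn : 3 * (R.natDegree + K) ≤ n / 2) (t : ℕ) (ht : t ≤ K) {a : k[X]}
    (ha : a.degree < (n / 2 - K + t : ℕ))
    (hc : Even n → ∃ e : k, a.coeff (n / 2 - 1) = e - e ^ 3) :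
    ∃ g s : k[X], g.degree < (n / 2 : ℕ) ∧ s.degree < (n / 2 - K - R.natDegree : ℕ) ∧
      Ca (g * f) - g - R * s = a := by
  induction t generalizing a with
  | zero => exact m70_small hCa hRm hK hfd hon hn ha
  | succ t ih =>
    set j := n / 2 - K + t with hj
    set d := 3 * j + 2 - n with hd
    have hdj : d ≤ j := by omega
    obtain ⟨e, he⟩ : ∃ e : k, a.coeff j = e - if d = j then e ^ 3 else 0 := by
      by_cases h : d = j
      · have hev : Even n := ⟨j + 1, by omega⟩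
        obtain ⟨e, he⟩ := hc hev
        refine ⟨e, ?_⟩
        rw [if_pos h, ← he]; congr 1; omega
      · exact ⟨a.coeff j, by rw [if_neg h, sub_zero]⟩
    set g1 : k[X] := monomial d (e ^ 3) with hg1
    have hg1d : g1.natDegree ≤ d := natDegree_monomial_le _
    have hC : (Ca (g1 * f)).degree < (j + 1 : ℕ) := by
      apply c10_degree hCa
      have h3 : (g1 * f).natDegree ≤ g1.natDegree + f.natDegree := natDegree_mul_le
      exact degree_le_natDegree.trans_lt (by exact_mod_cast (by omega))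
    have hCj : (Ca (g1 * f)).coeff j = e := by
      apply c10_inj
      rw [hCa, show 3 * j + 2 = d + n by omega, coeff_mul_add_eq_of_natDegree_le hg1d hfd.le, hg1,
        coeff_monomial_same, ← hfd, hfm.coeff_natDegree, mul_one]
    have hlt : (a - (Ca (g1 * f) - g1)).degree < (j : ℕ) := by
      rw [degree_lt_iff_coeff_zero] at ha hC ⊢
      intro i hi
      rcases hi.eq_or_lt with h | h
      · rw [← h, coeff_sub, coeff_sub, hCj, he, hg1, coeff_monomial, sub_self]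
      · rw [coeff_sub, coeff_sub, ha i (by omega), hC i (by omega),
          coeff_eq_zero_of_natDegree_lt (by omega)]
        simp
    obtain ⟨g, s, h1, h2, h3⟩ := ih (by omega) hlt (fun _ => ⟨0, by
      rw [degree_lt_iff_coeff_zero] at hlt
      rw [hlt _ (by omega)]; simp⟩)
    refine ⟨g + g1, s, (degree_add_le _ _).trans_lt (max_lt h1 ?_), h2, ?_⟩
    · exact degree_le_natDegree.trans_lt (by exact_mod_cast (by omega))
    · rw [add_mul, c10_add hCa]
      linear_combination h3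

end

theorem m70_COK {Ca : k[X] → k[X]} (hCa : ∀ w j, (Ca w).coeff j ^ 3 = w.coeff (3 * j + 2))
    {R f : k[X]} (hRm : R.Monic) {K n : ℕ} (hK : 1 ≤ K)
    (hfm : f.Monic) (hfd : f.natDegree = n) (hon : ∀ a : k[X], ∃ g, R ∣ Ca (g * f) - g - a)
    (hn : 3 * (R.natDegree + K) ≤ n / 2) (T : Finset k[X])
    (hT : ∀ g, g ∈ T ↔ g ∈ box k (n / 2) ∧ ∃ s ∈ box k (n / 2 - K - R.natDegree),
      Ca (g * f) - g = R * s) :
    T.card = (if Even n then 3 else 1) * Fintype.card k ^ (n / 2 - K - R.natDegree) := by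
  set m := n / 2 with hm
  set NU := m - K - R.natDegree with hNU
  have hRs : ∀ s : k[X], s.degree < (NU : ℕ) → (R * s).degree < (m - 1 : ℕ) := by
    intro s hs'
    by_cases h0 : s = 0
    · rw [h0, mul_zero, degree_zero]; exact WithBot.bot_lt_coe _
    · have := (natDegree_lt_iff_degree_lt h0).mpr hs'
      have h3 : (R * s).natDegree ≤ R.natDegree + s.natDegree := natDegree_mul_le
      exact degree_le_natDegree.trans_lt (by exact_mod_cast (by omega))
  have hmem : ∀ g s : k[X], g.degree < (m : ℕ) → s.degree < (NU : ℕ) →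
      (Ca (g * f) - g - R * s).degree < (m : ℕ) := by
    intro g s hg hs'
    have h2 : (Ca (g * f)).degree < (m : ℕ) := by
      apply c10_degree hCa
      by_cases h0 : g = 0
      · rw [h0, zero_mul, degree_zero]; exact WithBot.bot_lt_coe _
      · have := (natDegree_lt_iff_degree_lt h0).mpr hg
        have h3 : (g * f).natDegree ≤ g.natDegree + f.natDegree := natDegree_mul_le
        exact degree_le_natDegree.trans_lt (by exact_mod_cast (by omega))
    exact (degree_sub_le _ _).trans_lt (max_lt ((degree_sub_le _ _).trans_lt (max_lt h2 hg))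
      ((hRs s hs').trans_le (by exact_mod_cast (by omega))))
  let Ψ : degreeLT k m × degreeLT k NU →+ degreeLT k m := AddMonoidHom.mk'
    (fun x => ⟨Ca (x.1.1 * f) - x.1.1 - R * x.2.1,
      mem_degreeLT.mpr (hmem _ _ (mem_degreeLT.mp x.1.2) (mem_degreeLT.mp x.2.2))⟩)
    (by
      intro x y
      apply Subtype.ext
      change Ca ((x.1.1 + y.1.1) * f) - (x.1.1 + y.1.1) - R * (x.2.1 + y.2.1) =
        (Ca (x.1.1 * f) - x.1.1 - R * x.2.1) + (Ca (y.1.1 * f) - y.1.1 - R * y.2.1)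
      rw [add_mul, c10_add hCa]; ring)
  let W : AddSubgroup k := if Even n then (c10_wp k).range else ⊤
  let co : degreeLT k m →+ k := AddMonoidHom.mk' (fun x => x.1.coeff (m - 1))
    (fun x y => coeff_add _ _ _)
  have hco : Function.Surjective co := fun c =>
    ⟨⟨monomial (m - 1) c, mem_degreeLT.mpr ((degree_monomial_le _ _).trans_lt
      (by exact_mod_cast (by omega)))⟩, coeff_monomial_same _ _⟩
  have hW : W.index = if Even n then 3 else 1 := by
    simp only [W]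
    split_ifs
    · exact c10_index
    · exact AddSubgroup.index_top
  have hr : Ψ.range = W.comap co := by
    ext a
    rw [AddMonoidHom.mem_range, AddSubgroup.mem_comap]
    constructor
    · rintro ⟨⟨g, s⟩, rfl⟩
      simp only [W]
      split_ifs with hev
      · refine ⟨(Ca (g.1 * f)).coeff (m - 1), ?_⟩
        change _ - _ ^ 3 = (Ca (g.1 * f) - g.1 - R * s.1).coeff (m - 1)
        have h1 := hRs _ (mem_degreeLT.mp s.2)
        rw [degree_lt_iff_coeff_zero] at h1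
        have hg : g.1.natDegree ≤ m - 1 := by
          by_cases h0 : g.1 = 0
          · rw [h0]; simp
          · have := (natDegree_lt_iff_degree_lt h0).mpr (mem_degreeLT.mp g.2)
            omega
        obtain ⟨r, hr⟩ := hev
        rw [coeff_sub, coeff_sub, h1 _ le_rfl, hCa, show 3 * (m - 1) + 2 = m - 1 + n by omega,
          coeff_mul_add_eq_of_natDegree_le hg hfd.le, ← hfd, hfm.coeff_natDegree, mul_one, sub_zero]
      · trivial
    · intro h
      obtain ⟨g, s, h1, h2, h3⟩ := m70_all hCa hRm hK hfm hfd hon hn K le_rfl (a := a.1)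
        ((mem_degreeLT.mp a.2).trans_le (by exact_mod_cast (by omega))) (fun hev => by
          simp only [W, if_pos hev] at h
          obtain ⟨e, he⟩ := h
          exact ⟨e, he.symm⟩)
      exact ⟨(⟨g, mem_degreeLT.mpr h1⟩, ⟨s, mem_degreeLT.mpr h2⟩), Subtype.ext h3⟩
  have e1 := Ψ.ker.card_mul_index
  rw [AddSubgroup.index_ker, Nat.card_prod, c10_card_lt, c10_card_lt] at e1
  have e2 := Ψ.range.card_mul_index
  rw [c10_card_lt] at e2
  have e3 : Ψ.range.index = if Even n then 3 else 1 := by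
    rw [hr, AddSubgroup.index_comap_of_surjective _ hco, hW]
  have hpos : 0 < Nat.card Ψ.range := by
    rcases Nat.eq_zero_or_pos (Nat.card Ψ.range) with h | h
    · rw [h, zero_mul] at e2
      exact absurd e2 (pow_pos Fintype.card_pos m).ne
    · exact h
  have e4 : Nat.card Ψ.ker = (if Even n then 3 else 1) * Fintype.card k ^ NU := by
    apply Nat.eq_of_mul_eq_mul_right hpos
    rw [e1, ← e2, e3]; ring
  rw [← e4, ← Nat.card_eq_finsetCard]
  symm
  refine Nat.card_congr (Equiv.ofBijective (fun x => ⟨x.1.1.1, (hT _).mpr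
    ⟨mem_box.mpr (mem_degreeLT.mp x.1.1.2), x.1.2.1, mem_box.mpr (mem_degreeLT.mp x.1.2.2),
      sub_eq_zero.mp (congrArg Subtype.val x.2)⟩⟩) ⟨?_, ?_⟩)
  · intro x y h
    have h1 : x.1.1.1 = y.1.1.1 := congrArg (fun z : T => (z : k[X])) h
    have hx : Ca (x.1.1.1 * f) - x.1.1.1 - R * x.1.2.1 = 0 := congrArg Subtype.val x.2
    have hy : Ca (y.1.1.1 * f) - y.1.1.1 - R * y.1.2.1 = 0 := congrArg Subtype.val y.2
    have h2 : x.1.2.1 = y.1.2.1 := by
      apply mul_left_cancel₀ hRm.ne_zero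
      rw [h1] at hx
      linear_combination hy - hx
    exact Subtype.ext (Prod.ext (Subtype.ext h1) (Subtype.ext h2))
  · rintro ⟨g, hg⟩
    obtain ⟨h1, s, h2, h3⟩ := (hT _).mp hg
    exact ⟨⟨(⟨g, mem_degreeLT.mpr (mem_box.mp h1)⟩, ⟨s, mem_degreeLT.mpr (mem_box.mp h2)⟩),
      Subtype.ext (sub_eq_zero.mpr h3)⟩, rfl⟩

end CL5

namespace CL3
open CL5

variable {k : Type*} [Field k] [Fintype k] [CharP k 3]

theorem m70_onto {R f : k[X]} (hR : R ≠ 0) (hf : Squarefree f) (a : k[X]) :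
    ∃ g, R ∣ car (g * f) - g - a := by
  obtain ⟨j, hj⟩ := exists_dvd_radical_self_pow hR
  obtain ⟨g, hg⟩ := c10_onto_pow (Ca := car) (fun w j => coeff_co 2 w j) (P := radical R) (f := f)
    radical_ne_zero squarefree_radical
    (fun p hp _ hd => hp.not_isUnit (hf p (by rwa [← sq]))) j a
  exact ⟨g, (hj.trans (pow_dvd_pow _ (Nat.le_succ j))).trans hg⟩

theorem m70_card_U {R : k[X]} (hR : R.Monic) {N : ℕ} (hN : R.natDegree ≤ N) :
    ((box k N).filter (fun v => R ∣ v)).card = Fintype.card k ^ (N - R.natDegree) := by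
  have h := card_box_class (k := k) hR.ne_zero hN 0
  simp only [sub_zero, qq] at h
  exact_mod_cast h

/-- COK for an arbitrary monic modulus -/
theorem cok_R {R f : k[X]} (hR : R.Monic) {K n : ℕ} (hK : 1 ≤ K) (hf : f ∈ mon k n)
    (hs : Squarefree f) (hn : 3 * (R.natDegree + K) ≤ n / 2) :
    ((box k (n / 2)).filter
        (fun g => car (g * f) - g ∈ (box k (n / 2 - K)).filter (fun v => R ∣ v))).card =
      uu n * ((box k (n / 2 - K)).filter (fun v => R ∣ v)).card := by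
  obtain ⟨hfm, hfd⟩ := mem_mon.mp hf
  rw [m70_card_U hR (by omega)]
  refine m70_COK (Ca := car) (fun w j => coeff_co 2 w j) hR hK hfm hfd
    (m70_onto hR.ne_zero hs) hn _ ?_
  intro g
  rw [mem_filter, mem_filter, mem_box (N := n / 2 - K)]
  refine and_congr_right fun _ => ⟨?_, ?_⟩
  · rintro ⟨h1, s, h2⟩
    exact ⟨s, c10_mem_of_mul hR (h2 ▸ h1), h2⟩
  · rintro ⟨s, h1, h2⟩
    exact ⟨h2 ▸ c10_mul_lt (by omega) h1, s, h2⟩

end CL3

end
end

-- part H49Q.Mob
section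

/-! h49q MODEL (helper70): truncated Moebius combination, stability, the model count. -/

set_option autoImplicit false
set_option linter.unusedSectionVars false
open Polynomial Finset UniqueFactorizationMonoid Filter Topology CL5
open scoped Classical

noncomputable section
namespace CL3

variable {k : Type*} [Field k] [Fintype k]

/-- monic divisors -/
def dvs (d : k[X]) : Finset k[X] := (box k (d.natDegree + 1)).filter (fun c => c.Monic ∧ c ∣ d)

/-- the Moebius transform -/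
def xi (ph : k[X] → ℝ) (de : k[X]) : ℝ :=
  ∑ S ∈ (pf de).powerset, (-1) ^ S.card * ph (de /ₘ ∏ p ∈ S, p)

/-- the truncated sum of the Moebius transform -/
def tr (t : ℕ) (ph : k[X] → ℝ) : ℝ := ∑ de ∈ (box k (t + 1)).filter Monic, xi ph de

/-- `ph D` depends only on the greatest common divisor of `D` and `d` -/
def Stab (ph : k[X] → ℝ) (d : k[X]) (t : ℕ) : Prop :=
  ∀ D D' : k[X], D.Monic → D'.Monic → D' ∣ D → D.natDegree ≤ t →
    (∃ a b : k[X], D' = a * D + b * d) → ph D = ph D'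

theorem mem_ml {t : ℕ} {a : k[X]} :
    a ∈ (box k (t + 1)).filter Monic ↔ a.Monic ∧ a.natDegree ≤ t := by
  rw [mem_filter, mem_box]
  constructor
  · rintro ⟨h, hm⟩
    exact ⟨hm, Nat.lt_succ_iff.1 ((natDegree_lt_iff_degree_lt hm.ne_zero).2 h)⟩
  · rintro ⟨hm, h⟩
    exact ⟨(natDegree_lt_iff_degree_lt hm.ne_zero).1 (Nat.lt_succ_of_le h), hm⟩

theorem mem_dvs {d c : k[X]} (hd : d ≠ 0) : c ∈ dvs d ↔ c.Monic ∧ c ∣ d := by
  unfold dvs
  rw [mem_filter, mem_box, and_iff_right_iff_imp]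
  rintro ⟨-, h⟩
  exact degree_le_natDegree.trans_lt
    (by exact_mod_cast Nat.lt_succ_of_le (natDegree_le_of_dvd h hd))

theorem mob_prod {de : k[X]} (h : de ≠ 0) {S : Finset k[X]} (hS : S ⊆ pf de) :
    (∏ p ∈ S, p).Monic ∧ (∏ p ∈ S, p) ∣ de :=
  ⟨monic_prod_of_monic _ _ fun _ hp => ((mem_pf h).1 (hS hp)).1,
    Finset.prod_dvd_of_coprime (fun _ hp _ hp' hne =>
      cnt_coprime ((mem_pf h).1 (hS hp)).1 ((mem_pf h).1 (hS hp)).2.1
        ((mem_pf h).1 (hS hp')).1 ((mem_pf h).1 (hS hp')).2.1 hne)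
      fun _ hp => ((mem_pf h).1 (hS hp)).2.2⟩

omit [Fintype k] in
theorem mob_div {a d : k[X]} (ha : a.Monic) (hd : d.Monic) (h : a ∣ d) :
    (d /ₘ a).Monic ∧ a * (d /ₘ a) = d := by
  obtain ⟨c, rfl⟩ := h
  rw [mul_divByMonic_cancel_left _ ha]
  exact ⟨ha.of_mul_monic_left hd, rfl⟩

theorem mob_quot {de : k[X]} (h : de.Monic) {S : Finset k[X]} (hS : S ⊆ pf de) :
    (de /ₘ ∏ p ∈ S, p).Monic ∧ (∏ p ∈ S, p) * (de /ₘ ∏ p ∈ S, p) = de :=
  mob_div (mob_prod h.ne_zero hS).1 h (mob_prod h.ne_zero hS).2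

/-- MOB (0) -/
theorem xi_eq_zero {ph : k[X] → ℝ} {d de : k[X]} {t : ℕ} (hs : Stab ph d t) (hm : de.Monic)
    (ht : de.natDegree ≤ t) (hn : ¬ de ∣ d) : xi ph de = 0 := by
  obtain ⟨e, he⟩ := EuclideanDomain.gcd_dvd_left de d
  have hu : ¬ IsUnit e := fun hu => hn (by
    have : de ∣ EuclideanDomain.gcd de d := by
      nth_rewrite 1 [he]
      exact (IsUnit.mul_right_dvd hu).2 dvd_rfl
    exact this.trans (EuclideanDomain.gcd_dvd_right de d))
  obtain ⟨π, hπm, hπi, e', rfl⟩ := exists_monic_irreducible_factor e hu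
  have hπ : π ∈ pf de := (mem_pf hm.ne_zero).2 ⟨hπm, hπi, ⟨EuclideanDomain.gcd de d * e', by
    linear_combination he⟩⟩
  unfold xi
  rw [← insert_erase hπ, sum_powerset_insert (notMem_erase _ _), ← sum_add_distrib]
  refine sum_eq_zero fun S hS => ?_
  rw [mem_powerset] at hS
  have hS1 : S ⊆ pf de := hS.trans (erase_subset _ _)
  have hπS : π ∉ S := fun h => notMem_erase _ _ (hS h)
  have hS2 : insert π S ⊆ pf de := insert_subset hπ hS1
  obtain ⟨m1, e1⟩ := mob_quot hm hS1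
  obtain ⟨m2, e2⟩ := mob_quot hm hS2
  rw [card_insert_of_notMem hπS]
  rw [prod_insert hπS] at m2 e2 ⊢
  set s := ∏ p ∈ S, p with hsd
  set D := de /ₘ s
  set D' := de /ₘ (π * s)
  have hs0 : s ≠ 0 := (mob_prod hm.ne_zero hS1).1.ne_zero
  have hD : D = π * D' := mul_left_cancel₀ hs0 (by linear_combination e1 - e2)
  have hc : IsCoprime π s := IsCoprime.prod_right fun p hp =>
    cnt_coprime hπm hπi ((mem_pf hm.ne_zero).1 (hS1 hp)).1 ((mem_pf hm.ne_zero).1 (hS1 hp)).2.1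
      fun h => hπS (h ▸ hp)
  obtain ⟨u, v, huv⟩ := hc
  have h1 : EuclideanDomain.gcd de d * e' = s * D' :=
    mul_left_cancel₀ hπm.ne_zero (by linear_combination - he - e2)
  have g1 : EuclideanDomain.gcd D d ∣ π * D' := hD ▸ EuclideanDomain.gcd_dvd_left D d
  have g2 : EuclideanDomain.gcd D d ∣ s * D' := by
    rw [← h1]
    refine Dvd.dvd.mul_right (EuclideanDomain.dvd_gcd ?_ (EuclideanDomain.gcd_dvd_right D d)) _
    exact (EuclideanDomain.gcd_dvd_left D d).trans ⟨s, by linear_combination - e1⟩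
  have g3 : EuclideanDomain.gcd D d ∣ D' := by
    have : D' = u * (π * D') + v * (s * D') := by linear_combination (-D') * huv
    rw [this]
    exact dvd_add (g1.mul_left _) (g2.mul_left _)
  obtain ⟨c, hc⟩ := g3
  have hb := EuclideanDomain.gcd_eq_gcd_ab D d
  have hdeg : D.natDegree ≤ t :=
    (natDegree_le_of_dvd ⟨s, by linear_combination - e1⟩ hm.ne_zero).trans ht
  have := hs D D' m1 m2 ⟨π, by rw [hD]; ring⟩ hdeg
    ⟨EuclideanDomain.gcdA D d * c, EuclideanDomain.gcdB D d * c, by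
      linear_combination hc + c * hb⟩
  rw [this]; ring

/-- Moebius inversion -/
theorem sum_xi_dvs (ph : k[X] → ℝ) {d : k[X]} (hd : d.Monic) :
    ∑ de ∈ dvs d, xi ph de = ph d := by
  have h0 := hd.ne_zero
  have e1 : ∑ de ∈ dvs d, xi ph de =
      ∑ D ∈ dvs d, ∑ S ∈ (pf (d /ₘ D)).powerset, (-1) ^ S.card * ph D := by
    unfold xi
    rw [sum_sigma', sum_sigma']
    refine sum_nbij' (fun x => ⟨x.1 /ₘ ∏ p ∈ x.2, p, x.2⟩) (fun x => ⟨(∏ p ∈ x.2, p) * x.1, x.2⟩)
      ?_ ?_ ?_ ?_ ?_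
    · rintro ⟨de, S⟩ hx
      simp only [mem_sigma, mem_powerset, mem_dvs h0] at hx ⊢
      obtain ⟨⟨hm, c, hc⟩, hS⟩ := hx
      obtain ⟨m1, e1⟩ := mob_quot hm hS
      have hdv : de /ₘ ∏ p ∈ S, p ∣ d := ⟨(∏ p ∈ S, p) * c, by linear_combination hc - c * e1⟩
      refine ⟨⟨m1, hdv⟩, fun p hp => ?_⟩
      obtain ⟨m2, e2⟩ := mob_div m1 hd hdv
      have e3 : d /ₘ (de /ₘ ∏ p ∈ S, p) = (∏ p ∈ S, p) * c :=
        mul_left_cancel₀ m1.ne_zero (by linear_combination e2 + hc - c * e1)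
      have := (mem_pf hm.ne_zero).1 (hS hp)
      refine (mem_pf m2.ne_zero).2 ⟨this.1, this.2.1, ?_⟩
      rw [e3]
      exact (dvd_prod_of_mem _ hp).mul_right _
    · rintro ⟨D, S⟩ hx
      simp only [mem_sigma, mem_powerset, mem_dvs h0] at hx ⊢
      obtain ⟨⟨hm, hdv⟩, hS⟩ := hx
      obtain ⟨m2, e2⟩ := mob_div hm hd hdv
      obtain ⟨m3, c, hc⟩ := mob_prod m2.ne_zero hS
      refine ⟨⟨m3.mul hm, c, by linear_combination D * hc - e2⟩, fun p hp => ?_⟩
      have := (mem_pf m2.ne_zero).1 (hS hp)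
      exact (mem_pf (m3.mul hm).ne_zero).2
        ⟨this.1, this.2.1, (dvd_prod_of_mem _ hp).mul_right _⟩
    · rintro ⟨de, S⟩ hx
      simp only [mem_sigma, mem_powerset, mem_dvs h0] at hx
      simp only [(mob_quot hx.1.1 hx.2).2]
    · rintro ⟨D, S⟩ hx
      simp only [mem_sigma, mem_powerset, mem_dvs h0] at hx
      obtain ⟨⟨hm, hdv⟩, hS⟩ := hx
      have m3 := (mob_prod (mob_div hm hd hdv).1.ne_zero hS).1
      simp only [mul_divByMonic_cancel_left _ m3]
    · intro x _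
      rfl
  rw [e1, sum_eq_single_of_mem d ((mem_dvs h0).2 ⟨hd, dvd_rfl⟩)]
  · have : d /ₘ d = 1 := mul_left_cancel₀ h0 (by rw [(mob_div hd hd dvd_rfl).2, mul_one])
    have h2 : pf (1 : k[X]) = ∅ := eq_empty_of_forall_notMem fun p hp =>
      ((mem_pf one_ne_zero).1 hp).2.1.not_isUnit (isUnit_of_dvd_one ((mem_pf one_ne_zero).1 hp).2.2)
    rw [this, h2]
    simp
  · intro D hD hne
    obtain ⟨hm, hdv⟩ := (mem_dvs h0).1 hD
    obtain ⟨m2, e2⟩ := mob_div hm hd hdv
    have hu : ¬ IsUnit (d /ₘ D) := fun hu => hne (by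
      rw [← e2, m2.eq_one_of_isUnit hu, mul_one])
    obtain ⟨π, h1, h2, h3⟩ := exists_monic_irreducible_factor _ hu
    have hne' : (pf (d /ₘ D)).Nonempty := ⟨π, (mem_pf m2.ne_zero).2 ⟨h1, h2, h3⟩⟩
    have := Finset.sum_powerset_neg_one_pow_card_of_nonempty hne'
    have h4 : ∑ S ∈ (pf (d /ₘ D)).powerset, (-1 : ℝ) ^ S.card = 0 := by exact_mod_cast this
    rw [← sum_mul, h4, zero_mul]

theorem tr_eq_sum {ph : k[X] → ℝ} {d : k[X]} {t : ℕ} (hs : Stab ph d t) :
    tr t ph = ∑ de ∈ ((box k (t + 1)).filter Monic).filter (fun c => c ∣ d), xi ph de := by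
  unfold tr
  rw [sum_filter (fun c => c ∣ d)]
  refine sum_congr rfl fun de hde => ?_
  split_ifs with h
  · rfl
  · exact xi_eq_zero hs (mem_ml.1 hde).1 (mem_ml.1 hde).2 h

/-- MOB (a) -/
theorem tr_eq {ph : k[X] → ℝ} {d : k[X]} {t : ℕ} (hs : Stab ph d t) (hd : d.Monic)
    (ht : d.natDegree ≤ t) : tr t ph = ph d := by
  rw [tr_eq_sum hs, ← sum_xi_dvs ph hd]
  congr 1
  ext c
  rw [mem_filter, mem_ml, mem_dvs hd.ne_zero]
  exact ⟨fun h => ⟨h.1.1, h.2⟩,
    fun h => ⟨⟨h.1, (natDegree_le_of_dvd h.2 hd.ne_zero).trans ht⟩, h.2⟩⟩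

theorem abs_xi_le {ph : k[X] → ℝ} {de : k[X]} (hm : de.Monic) {B : ℝ}
    (hB : ∀ D : k[X], D.Monic → D ∣ de → |ph D| ≤ B) : |xi ph de| ≤ 2 ^ (pf de).card * B := by
  unfold xi
  refine (abs_sum_le_sum_abs _ _).trans ((sum_le_card_nsmul _ _ B fun S hS => ?_).trans_eq ?_)
  · obtain ⟨m1, e1⟩ := mob_quot hm (mem_powerset.1 hS)
    rw [abs_mul, abs_pow, abs_neg, abs_one, one_pow, one_mul]
    exact hB _ m1 ⟨∏ p ∈ S, p, by linear_combination - e1⟩
  · rw [card_powerset, nsmul_eq_mul]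
    push_cast
    rfl

theorem two_pow_pf_le {de d : k[X]} (hd : d ≠ 0) (h : de ∣ d) :
    2 ^ (pf de).card ≤ (dvs d).card := by
  have h0 : de ≠ 0 := ne_zero_of_dvd_ne_zero hd h
  rw [← card_powerset]
  have key : ∀ S T : Finset k[X], S ⊆ pf de → T ⊆ pf de → ∏ p ∈ S, p = ∏ p ∈ T, p → S ⊆ T := by
    intro S T hS hT e p hp
    obtain ⟨h1, h2, -⟩ := (mem_pf h0).1 (hS hp)
    obtain ⟨r, hr, hdv⟩ := (h2.prime.dvd_finsetProd_iff _).1 (e ▸ dvd_prod_of_mem (fun p => p) hp)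
    obtain ⟨h3, h4, -⟩ := (mem_pf h0).1 (hT hr)
    rw [eq_of_monic_of_associated h1 h3 (h2.associated_of_dvd h4 hdv)]
    exact hr
  refine card_le_card_of_injOn (fun S => ∏ p ∈ S, p) (fun S hS => ?_) fun S hS T hT e => ?_
  · have := mob_prod h0 (mem_powerset.1 hS)
    exact (mem_dvs hd).2 ⟨this.1, this.2.trans h⟩
  · have hS' := mem_powerset.1 (mem_coe.1 hS)
    have hT' := mem_powerset.1 (mem_coe.1 hT)
    exact Subset.antisymm (key S T hS' hT' e) (key T S hT' hS' e.symm)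

/-- MOB (b) -/
theorem abs_tr_le_dvs {ph : k[X] → ℝ} {d : k[X]} {t : ℕ} (hs : Stab ph d t) (hd : d ≠ 0) {B : ℝ}
    (hB : ∀ D : k[X], D.Monic → D.natDegree ≤ t → |ph D| ≤ B) :
    |tr t ph| ≤ ((dvs d).card : ℝ) ^ 2 * B := by
  have hB0 : 0 ≤ B := (abs_nonneg _).trans (hB 1 monic_one (by simp))
  rw [tr_eq_sum hs]
  refine (abs_sum_le_sum_abs _ _).trans
    ((sum_le_card_nsmul _ _ ((dvs d).card * B) fun de hde => ?_).trans ?_)
  · obtain ⟨h1, h2⟩ := mem_filter.1 hde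
    obtain ⟨h3, h4⟩ := mem_ml.1 h1
    refine (abs_xi_le h3 fun D hD hdv =>
      hB D hD ((natDegree_le_of_dvd hdv h3.ne_zero).trans h4)).trans ?_
    exact mul_le_mul_of_nonneg_right (by exact_mod_cast two_pow_pf_le hd h2) hB0
  · rw [nsmul_eq_mul, sq, mul_assoc]
    refine mul_le_mul_of_nonneg_right ?_ (by positivity)
    exact_mod_cast card_le_card fun c hc =>
      (mem_dvs hd).2 ⟨(mem_ml.1 (mem_filter.1 hc).1).1, (mem_filter.1 hc).2⟩

theorem card_pf_le {de : k[X]} (h : de ≠ 0) : (pf de).card ≤ de.natDegree := by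
  obtain ⟨-, h2⟩ := mob_prod h (Subset.refl _)
  refine le_trans ?_ (natDegree_le_of_dvd h2 h)
  rw [natDegree_prod_of_monic _ _ fun p hp => ((mem_pf h).1 hp).1, card_eq_sum_ones]
  exact sum_le_sum fun p hp => ((mem_pf h).1 hp).2.1.natDegree_pos

/-- MOB (c) -/
theorem abs_tr_le {ph : k[X] → ℝ} {t : ℕ} {B : ℝ}
    (hB : ∀ D : k[X], D.Monic → D.natDegree ≤ t → |ph D| ≤ B) :
    |tr t ph| ≤ qq k ^ (2 * t + 1) * B := by
  have hB0 : 0 ≤ B := (abs_nonneg _).trans (hB 1 monic_one (by simp))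
  have hq := two_le_qq (k := k)
  unfold tr
  refine (abs_sum_le_sum_abs _ _).trans
    ((sum_le_card_nsmul _ _ (qq k ^ t * B) fun de hde => ?_).trans ?_)
  · obtain ⟨h3, h4⟩ := mem_ml.1 hde
    refine (abs_xi_le h3 fun D hD hdv =>
      hB D hD ((natDegree_le_of_dvd hdv h3.ne_zero).trans h4)).trans ?_
    refine mul_le_mul_of_nonneg_right ?_ hB0
    exact (pow_le_pow_right₀ one_le_two ((card_pf_le h3.ne_zero).trans h4)).trans
      (pow_le_pow_left₀ zero_le_two hq t)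
  · rw [nsmul_eq_mul, show 2 * t + 1 = (t + 1) + t by ring, pow_add, mul_assoc]
    refine mul_le_mul_of_nonneg_right ?_ (by positivity)
    rw [← card_box]
    exact_mod_cast card_filter_le _ _

theorem tr_congr {ph ph' : k[X] → ℝ} {t : ℕ}
    (h : ∀ D : k[X], D.Monic → D.natDegree ≤ t → ph D = ph' D) : tr t ph = tr t ph' := by
  unfold tr xi
  refine sum_congr rfl fun de hde => sum_congr rfl fun S hS => ?_
  obtain ⟨h3, h4⟩ := mem_ml.1 hde
  obtain ⟨m1, e1⟩ := mob_quot h3 (mem_powerset.1 hS)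
  rw [h _ m1 ((natDegree_le_of_dvd ⟨∏ p ∈ S, p, by linear_combination - e1⟩ h3.ne_zero).trans h4)]

theorem tr_sum {ι : Type*} (s : Finset ι) (F : ι → k[X] → ℝ) (t : ℕ) :
    tr t (fun D => ∑ i ∈ s, F i D) = ∑ i ∈ s, tr t (F i) := by
  unfold tr xi
  simp only [mul_sum]
  rw [sum_comm (s := s)]
  exact sum_congr rfl fun de _ => sum_comm

theorem tr_mul_left (c : ℝ) (ph : k[X] → ℝ) (t : ℕ) :
    tr t (fun D => c * ph D) = c * tr t ph := by
  unfold tr xi
  simp only [mul_sum]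
  exact sum_congr rfl fun de _ => sum_congr rfl fun S _ => by ring

theorem tr_mul_right (c : ℝ) (ph : k[X] → ℝ) (t : ℕ) :
    tr t (fun D => ph D * c) = tr t ph * c := by
  rw [mul_comm, ← tr_mul_left]
  simp only [mul_comm]

theorem tr_add (ph ph' : k[X] → ℝ) (t : ℕ) :
    tr t (fun D => ph D + ph' D) = tr t ph + tr t ph' := by
  unfold tr xi
  simp only [mul_add, sum_add_distrib]

theorem tr_sub (ph ph' : k[X] → ℝ) (t : ℕ) :
    tr t (fun D => ph D - ph' D) = tr t ph - tr t ph' := by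
  unfold tr xi
  simp only [mul_sub, sum_sub_distrib]

theorem tr_const (c : ℝ) (t : ℕ) : tr t (fun _ : k[X] => c) = c :=
  tr_eq (d := 1) (fun _ _ _ _ _ _ _ => rfl) monic_one (by simp)

theorem tr_comm (F : k[X] → k[X] → ℝ) (t t' : ℕ) :
    tr t (fun D => tr t' (F D)) = tr t' (fun E => tr t (fun D => F D E)) := by
  have e : ∀ D, tr t' (F D) = ∑ x ∈ ((box k (t' + 1)).filter Monic).sigma
      (fun de => (pf de).powerset), (-1) ^ x.2.card * F D (x.1 /ₘ ∏ p ∈ x.2, p) := fun D => by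
    unfold tr xi
    rw [sum_sigma']
  simp only [e]
  rw [tr_sum]
  simp only [tr_mul_left]
  conv_rhs => unfold tr xi
  rw [sum_sigma']
  rfl

end CL3

end
end

-- part H49Q.Model
section

/-! h49q MODEL (helper70): the model count, M01 and COK'. -/

set_option autoImplicit false
set_option linter.unusedSectionVars false
open Polynomial Finset UniqueFactorizationMonoid Filter Topology CL5
open scoped Classical

noncomputable section
namespace CL3

variable {k : Type*} [Field k] [Fintype k]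

/-- the targets of level `D` -/
def UD (K M : ℕ) (D : k[X]) : Finset k[X] := (box k (M - K)).filter (fun v => D ∣ v)

theorem mem_UD {K M : ℕ} {D v : k[X]} : v ∈ UD K M D ↔ v.degree < (M - K : ℕ) ∧ D ∣ v := by
  unfold UD
  rw [mem_filter, mem_box]

theorem card_UD {K M : ℕ} {D : k[X]} (hD : D.Monic) (h : K + D.natDegree ≤ M) :
    ((UD K M D).card : ℝ) = qq k ^ (M - K - D.natDegree) := by
  have h1 := card_box_class (k := k) (N := M - K) hD.ne_zero (by omega) 0
  unfold UD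
  simpa only [sub_zero] using h1

theorem UD_pos (K M : ℕ) (D : k[X]) : (0 : ℝ) < (UD K M D).card := by
  have : (0 : k[X]) ∈ UD K M D :=
    mem_UD.mpr ⟨by rw [degree_zero]; exact WithBot.bot_lt_coe _, dvd_zero _⟩
  exact_mod_cast card_pos.mpr ⟨0, this⟩

theorem sum_UD {A : Type*} [AddCommMonoid A] {K M : ℕ} {D : k[X]} (hD : D.Monic)
    (h : K + D.natDegree ≤ M) (F : k[X] → A) :
    ∑ v ∈ UD K M D, F v = ∑ s ∈ box k (M - K - D.natDegree), F (D * s) := by
  symm
  refine Finset.sum_bij (fun s _ => D * s) (fun s hs => ?_)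
    (fun a _ b _ hab => mul_left_cancel₀ hD.ne_zero hab) (fun v hv => ?_) fun _ _ => rfl
  · refine mem_UD.2 ⟨?_, dvd_mul_right _ _⟩
    by_cases h0 : s = 0
    · rw [h0, mul_zero, degree_zero]; exact WithBot.bot_lt_coe _
    · have := (natDegree_lt_iff_degree_lt h0).mpr (mem_box.mp hs)
      have h3 : (D * s).natDegree ≤ D.natDegree + s.natDegree := natDegree_mul_le
      exact degree_le_natDegree.trans_lt (by exact_mod_cast (by omega))
  · obtain ⟨hv, s, rfl⟩ := mem_UD.1 hv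
    refine ⟨s, mem_box.2 ?_, rfl⟩
    by_cases h0 : s = 0
    · rw [h0, degree_zero]; exact WithBot.bot_lt_coe _
    · have := (natDegree_lt_iff_degree_lt (mul_ne_zero hD.ne_zero h0)).mpr hv
      rw [natDegree_mul hD.ne_zero h0] at this
      exact (natDegree_lt_iff_degree_lt h0).mp (by omega)

/-- `H` kills the targets of level `D` -/
def Kil (K M : ℕ) (H D : k[X]) : Prop := ((H * D) %ₘ X ^ M).degree < (K + D.natDegree : ℕ)

theorem sum_UD_ee {K M : ℕ} {D : k[X]} (hD : D.Monic) (h : K + D.natDegree ≤ M) (H : k[X]) :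
    ∑ v ∈ UD K M D, ee (H * v) (X ^ M) =
      if Kil K M H D then (((UD K M D).card : ℝ) : ℂ) else 0 := by
  rw [sum_UD hD h, card_UD hD h]
  simp only [← mul_assoc]
  rw [sum_ee_box (monic_X_pow M) (by rw [natDegree_X_pow]; omega), natDegree_X_pow,
    show M - (M - K - D.natDegree) = K + D.natDegree by omega]
  exact if_congr Iff.rfl rfl rfl

omit [Fintype k] in
theorem m70_mod {M : ℕ} {a b : k[X]} (h : X ^ M ∣ a - b) (hb : b.degree < (M : ℕ)) :
    a %ₘ X ^ M = b := by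
  rw [modByMonic_eq_of_dvd_sub (monic_X_pow M) h]
  exact (modByMonic_eq_self_iff (monic_X_pow M)).2 (by rwa [degree_X_pow])

omit [Fintype k] in
theorem m70_deg_mul {a b : k[X]} {A : ℕ} (ha : a.degree < (A : ℕ)) :
    (a * b).degree < (A + b.natDegree : ℕ) := by
  by_cases h0 : a = 0
  · rw [h0, zero_mul, degree_zero]; exact WithBot.bot_lt_coe _
  · have := (natDegree_lt_iff_degree_lt h0).mpr ha
    have h3 : (a * b).natDegree ≤ a.natDegree + b.natDegree := natDegree_mul_le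
    exact degree_le_natDegree.trans_lt (by exact_mod_cast (by omega))

omit [Fintype k] in
theorem m70_dvd_mod (a : k[X]) (M : ℕ) : X ^ M ∣ a - a %ₘ X ^ M :=
  ⟨a /ₘ X ^ M, by linear_combination - modByMonic_add_div a (X ^ M)⟩

omit [Fintype k] in
theorem Kil_mul {K M : ℕ} {H r s : k[X]} (hr : r.Monic) (hs : s.Monic)
    (h : K + (r * s).natDegree ≤ M) (hk : Kil K M H r) : Kil K M H (r * s) := by
  unfold Kil at hk ⊢
  have h1 := m70_deg_mul (b := s) hk
  rw [hr.natDegree_mul hs] at h ⊢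
  rw [m70_mod (b := (H * r) %ₘ X ^ M * s) _ (h1.trans_le (by exact_mod_cast (by omega)))]
  · rwa [← add_assoc]
  · have := (m70_dvd_mod (H * r) M).mul_right s
    rwa [sub_mul, mul_assoc] at this

omit [Fintype k] in
theorem Kil_gcd {K M : ℕ} {H g r D : k[X]} (hg : g.Monic) (hr : r.Monic) (hD : D.Monic)
    (hc : IsCoprime r D) (h : K + (g * r).natDegree + (g * D).natDegree ≤ M)
    (h1 : Kil K M H (g * r)) (h2 : Kil K M H (g * D)) : Kil K M H g := by
  unfold Kil at h1 h2 ⊢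
  set ρ1 := (H * (g * r)) %ₘ X ^ M
  set ρ2 := (H * (g * D)) %ₘ X ^ M
  have d1 : X ^ M ∣ H * (g * r) - ρ1 := m70_dvd_mod _ M
  have d2 : X ^ M ∣ H * (g * D) - ρ2 := m70_dvd_mod _ M
  rw [hg.natDegree_mul hr] at h h1
  rw [hg.natDegree_mul hD] at h h2
  have e : ρ1 * D = ρ2 * r := by
    have hd : X ^ M ∣ ρ1 * D - ρ2 * r := by
      have : ρ1 * D - ρ2 * r = (H * (g * D) - ρ2) * r - (H * (g * r) - ρ1) * D := by ring
      rw [this]
      exact dvd_sub (d2.mul_right _) (d1.mul_right _)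
    refine sub_eq_zero.1 (eq_zero_of_dvd_of_degree_lt hd ?_)
    rw [degree_X_pow]
    exact (degree_sub_le _ _).trans_lt (max_lt
      ((m70_deg_mul h1).trans_le (by exact_mod_cast (by omega)))
      ((m70_deg_mul h2).trans_le (by exact_mod_cast (by omega))))
  obtain ⟨σ, hσ⟩ : r ∣ ρ1 := hc.dvd_of_dvd_mul_right (e ▸ dvd_mul_left _ _)
  have e2 : ρ2 = D * σ := mul_right_cancel₀ hr.ne_zero (by linear_combination - e + D * hσ)
  obtain ⟨a, b, hab⟩ := hc
  have hσd : σ.degree < (K + g.natDegree : ℕ) := by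
    by_cases h0 : σ = 0
    · rw [h0, degree_zero]; exact WithBot.bot_lt_coe _
    · rw [hσ] at h1
      have := (natDegree_lt_iff_degree_lt (mul_ne_zero hr.ne_zero h0)).mpr h1
      rw [natDegree_mul hr.ne_zero h0] at this
      exact (natDegree_lt_iff_degree_lt h0).mp (by omega)
  rw [m70_mod (b := σ) _ (hσd.trans_le (by exact_mod_cast (by omega)))]
  · exact hσd
  · have : H * g - σ = a * (H * (g * r) - ρ1) + b * (H * (g * D) - ρ2) := by
      linear_combination (σ - H * g) * hab + a * hσ + b * e2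
    rw [this]
    exact dvd_add (d1.mul_left _) (d2.mul_left _)

/-- the Fourier transform of the model takes the values `0` and `1` -/
theorem tr_Kil {K M t : ℕ} (h : 2 * t + K ≤ M) (H : k[X]) :
    tr t (fun D => if Kil K M H D then (1 : ℝ) else 0) =
      if ∃ D : k[X], D.Monic ∧ D.natDegree ≤ t ∧ Kil K M H D then 1 else 0 := by
  split_ifs with hex
  · have hex' : ∃ j, ∃ D : k[X], D.Monic ∧ D.natDegree ≤ t ∧ Kil K M H D ∧ D.natDegree = j := by
      obtain ⟨D, h1, h2, h3⟩ := hex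
      exact ⟨_, D, h1, h2, h3, rfl⟩
    obtain ⟨r, hr, hrt, hk, hj⟩ := Nat.find_spec hex'
    have key : ∀ D : k[X], D.Monic → D.natDegree ≤ t → (Kil K M H D ↔ r ∣ D) := by
      intro D hD hDt
      constructor
      · intro hkD
        have hg0 : EuclideanDomain.gcd r D ≠ 0 := fun e =>
          hr.ne_zero (EuclideanDomain.gcd_eq_zero_iff.1 e).1
        have hg : (normalize (EuclideanDomain.gcd r D)).Monic := monic_normalize hg0
        set g := normalize (EuclideanDomain.gcd r D) with hgd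
        have ha : Associated g (EuclideanDomain.gcd r D) := normalize_associated _
        obtain ⟨r', hr'⟩ := ha.dvd.trans (EuclideanDomain.gcd_dvd_left r D)
        obtain ⟨D', hD'⟩ := ha.dvd.trans (EuclideanDomain.gcd_dvd_right r D)
        have m1 : r'.Monic := hg.of_mul_monic_left (hr' ▸ hr)
        have m2 : D'.Monic := hg.of_mul_monic_left (hD' ▸ hD)
        have hc : IsCoprime r' D' := by
          obtain ⟨u, hu⟩ := ha.symm.dvd
          refine ⟨EuclideanDomain.gcdA r D * u, EuclideanDomain.gcdB r D * u,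
            mul_left_cancel₀ hg.ne_zero ?_⟩
          have hb := EuclideanDomain.gcd_eq_gcd_ab r D
          linear_combination - hu - u * hb - EuclideanDomain.gcdA r D * u * hr' -
            EuclideanDomain.gcdB r D * u * hD'
        have hkg : Kil K M H g :=
          Kil_gcd hg m1 m2 hc (by rw [← hr', ← hD']; omega) (hr' ▸ hk) (hD' ▸ hkD)
        have hdeg : r.natDegree = g.natDegree + r'.natDegree := by
          rw [← hg.natDegree_mul m1, ← hr']
        have hmin := Nat.find_min' hex' ⟨g, hg, by omega, hkg, rfl⟩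
        have h1 : r' = 1 := m1.natDegree_eq_zero.1 (by omega)
        rw [hr', h1, mul_one]
        exact ⟨D', hD'⟩
      · rintro ⟨s, rfl⟩
        exact Kil_mul hr (hr.of_mul_monic_left hD) (by omega) hk
    rw [tr_eq (d := r) _ hr hrt, if_pos hk]
    intro D D' hD hD' hdv hDt ⟨a, b, hab⟩
    have hD't := (natDegree_le_of_dvd hdv hD.ne_zero).trans hDt
    simp only [key D hD hDt, key D' hD' hD't]
    congr 1
    exact propext ⟨fun h => hab ▸ dvd_add (h.mul_left _) (dvd_mul_left _ _), fun h => h.trans hdv⟩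
  · rw [tr_congr (ph' := fun _ => 0) fun D h1 h2 => if_neg fun h3 => hex ⟨D, h1, h2, h3⟩, tr_const]

variable [CharP k 3]

/-- the normalised number of solutions with target of level `D` -/
def cn (K : ℕ) (f D : k[X]) : ℝ :=
  (((box k (f.natDegree / 2)).filter
    (fun g => car (g * f) - g ∈ UD K (f.natDegree / 2) D)).card : ℝ) /
      (UD K (f.natDegree / 2) D).card

/-- `H` kills the image -/
def Dual (f H : k[X]) : Prop :=
  ∀ g ∈ box k (f.natDegree / 2), ee (H * (car (g * f) - g)) (X ^ (f.natDegree / 2)) = 1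

theorem sum_ee_L (f H : k[X]) :
    ∑ g ∈ box k (f.natDegree / 2), ee (H * (car (g * f) - g)) (X ^ (f.natDegree / 2)) =
      if Dual f H then ((qq k ^ (f.natDegree / 2) : ℝ) : ℂ) else 0 := by
  split_ifs with h
  · rw [sum_congr rfl h, sum_const, nsmul_eq_mul, mul_one, ← card_box]
    norm_cast
  · unfold Dual at h
    push Not at h
    obtain ⟨g0, hg0, hne⟩ := h
    have e : ∑ g ∈ box k (f.natDegree / 2), ee (H * (car (g * f) - g)) (X ^ (f.natDegree / 2)) =
        ∑ g ∈ box k (f.natDegree / 2),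
          ee (H * (car ((g0 + g) * f) - (g0 + g))) (X ^ (f.natDegree / 2)) := by
      symm
      refine sum_nbij' (fun g => g0 + g) (fun g => g - g0) ?_ ?_ ?_ ?_ ?_
      · intro g hg
        rw [mem_box] at hg hg0 ⊢
        exact (degree_add_le _ _).trans_lt (max_lt hg0 hg)
      · intro g hg
        rw [mem_box] at hg hg0 ⊢
        exact (degree_sub_le _ _).trans_lt (max_lt hg hg0)
      · intro g _; ring
      · intro g _; ring
      · intro g _; rfl
    have e2 : ∀ g, ee (H * (car ((g0 + g) * f) - (g0 + g))) (X ^ (f.natDegree / 2)) =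
        ee (H * (car (g0 * f) - g0)) (X ^ (f.natDegree / 2)) *
          ee (H * (car (g * f) - g)) (X ^ (f.natDegree / 2)) := fun g => by
      rw [← ee_add, add_mul, car_add]
      congr 1
      ring
    simp only [e2, ← mul_sum] at e
    by_contra h0
    exact hne (mul_right_cancel₀ h0 (by rw [one_mul]; exact e.symm))

omit [CharP k 3] in
theorem sum_ee_zero {M : ℕ} {v : k[X]} (hv : v.degree < (M : ℕ)) :
    ∑ H ∈ box k M, ee (H * v) (X ^ M) = if v = 0 then ((qq k ^ M : ℝ) : ℂ) else 0 := by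
  have h := sum_ee_full (monic_X_pow M) v
  rw [natDegree_X_pow, nrm, natDegree_X_pow] at h
  simp only [mul_comm _ v]
  rw [h]
  congr 1
  exact propext ⟨fun hd => eq_zero_of_dvd_of_degree_lt hd (by rwa [degree_X_pow]),
    fun e => e ▸ dvd_zero _⟩

theorem L_degree (f : k[X]) {g : k[X]} (hg : g ∈ box k (f.natDegree / 2)) :
    (car (g * f) - g).degree < (f.natDegree / 2 : ℕ) :=
  (degree_sub_le _ _).trans_lt (max_lt (mem_box.1 (car_mem_box le_rfl hg)) (mem_box.1 hg))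

theorem card_Dual (f : k[X]) :
    ∑ H ∈ box k (f.natDegree / 2), (if Dual f H then (1 : ℝ) else 0) = (Sol f).card := by
  have hq : (0 : ℝ) < qq k ^ (f.natDegree / 2) := pow_pos (by linarith [two_le_qq (k := k)]) _
  have e : ∑ H ∈ box k (f.natDegree / 2),
        (if Dual f H then ((qq k ^ (f.natDegree / 2) : ℝ) : ℂ) else 0) =
      ∑ g ∈ box k (f.natDegree / 2),
        (if car (g * f) - g = 0 then ((qq k ^ (f.natDegree / 2) : ℝ) : ℂ) else 0) := by
    simp only [← sum_ee_L]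
    rw [sum_comm]
    exact sum_congr rfl fun g hg => sum_ee_zero (L_degree f hg)
  have e2 : ∑ H ∈ box k (f.natDegree / 2), (if Dual f H then qq k ^ (f.natDegree / 2) else 0) =
      ∑ g ∈ box k (f.natDegree / 2),
        (if car (g * f) - g = 0 then qq k ^ (f.natDegree / 2) else 0) := by
    apply Complex.ofReal_injective
    push_cast [apply_ite ((↑) : ℝ → ℂ)] at e ⊢
    exact e
  apply mul_left_cancel₀ hq.ne'
  unfold Sol
  rw [natCast_card_filter, mul_sum, mul_sum]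
  simp only [mul_ite, mul_one, mul_zero, ← sub_eq_zero (a := car _)]
  exact e2

theorem cn_eq {K : ℕ} (f : k[X]) {D : k[X]} (hD : D.Monic) (h : K + D.natDegree ≤ f.natDegree / 2) :
    cn K f D = ∑ H ∈ box k (f.natDegree / 2),
      (if Dual f H then (1 : ℝ) else 0) * if Kil K (f.natDegree / 2) H D then 1 else 0 := by
  set M := f.natDegree / 2 with hM
  have hq : (0 : ℝ) < qq k ^ M := pow_pos (by linarith [two_le_qq (k := k)]) _
  have hU := UD_pos K M D
  have e : ∑ H ∈ box k M, (if Dual f H then ((qq k ^ M : ℝ) : ℂ) else 0) *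
        (if Kil K M H D then (((UD K M D).card : ℝ) : ℂ) else 0) =
      ∑ g ∈ box k M, (if car (g * f) - g ∈ UD K M D then ((qq k ^ M : ℝ) : ℂ) else 0) := by
    simp only [hM, ← sum_ee_L]
    simp only [← hM, ← sum_UD_ee hD h, sum_mul_sum, ← ee_add, ← mul_add]
    rw [sum_comm]
    refine sum_congr rfl fun g hg => ?_
    rw [sum_comm, sum_congr rfl fun v hv => sum_ee_zero ((degree_add_le _ _).trans_lt
      (max_lt (L_degree f hg) ((mem_UD.1 hv).1.trans_le (by exact_mod_cast Nat.sub_le _ _))))]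
    simp only [add_eq_zero_iff_neg_eq]
    rw [sum_ite_eq]
    congr 1
    simp only [mem_UD, degree_neg, dvd_neg]
  have e2 : ∑ H ∈ box k M, (if Dual f H then qq k ^ M else 0) *
        (if Kil K M H D then ((UD K M D).card : ℝ) else 0) =
      ∑ g ∈ box k M, (if car (g * f) - g ∈ UD K M D then qq k ^ M else 0) := by
    apply Complex.ofReal_injective
    push_cast [apply_ite ((↑) : ℝ → ℂ)] at e ⊢
    exact e
  unfold cn
  rw [← hM, div_eq_iff hU.ne', natCast_card_filter]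
  apply mul_left_cancel₀ hq.ne'
  rw [mul_sum, sum_mul, mul_sum]
  simp only [mul_ite, mul_one, mul_zero] at e2 ⊢
  rw [← e2]
  refine sum_congr rfl fun H _ => ?_
  split_ifs <;> simp

theorem tr_cn_eq {K t : ℕ} {f : k[X]} (h : 2 * t + K ≤ f.natDegree / 2) :
    tr t (cn K f) = ∑ H ∈ box k (f.natDegree / 2), (if Dual f H then (1 : ℝ) else 0) *
      if ∃ D : k[X], D.Monic ∧ D.natDegree ≤ t ∧ Kil K (f.natDegree / 2) H D then 1 else 0 := by
  rw [tr_congr fun D hD hDt => cn_eq f hD (by omega), tr_sum]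
  exact sum_congr rfl fun H _ => by rw [tr_mul_left, tr_Kil h]

/-- M01 -/
theorem m01 {K t : ℕ} {f : k[X]} (h : 2 * t + K ≤ f.natDegree / 2) :
    0 ≤ tr t (cn K f) ∧ tr t (cn K f) ≤ (Sol f).card := by
  rw [tr_cn_eq h, ← card_Dual]
  refine ⟨sum_nonneg fun H _ => ?_, sum_le_sum fun H _ => ?_⟩ <;> split_ifs <;> norm_num

theorem cn_nonneg (K : ℕ) (f D : k[X]) : 0 ≤ cn K f D := by
  unfold cn
  positivity

/-- COK' (a) -/
theorem cn_le {K : ℕ} (f : k[X]) {D : k[X]} (hD : D.Monic)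
    (h : K + D.natDegree ≤ f.natDegree / 2) : cn K f D ≤ (Sol f).card := by
  rw [cn_eq f hD h, ← card_Dual]
  refine sum_le_sum fun H _ => ?_
  split_ifs <;> norm_num

/-- COK' on squarefree polynomials -/
theorem cn_sf {K : ℕ} (hK : 1 ≤ K) {f D : k[X]} (hf : f.Monic) (hs : Squarefree f) (hD : D.Monic)
    (h : 3 * (D.natDegree + K) ≤ f.natDegree / 2) : cn K f D = uu f.natDegree := by
  have hU := UD_pos K (f.natDegree / 2) D
  unfold cn
  rw [div_eq_iff hU.ne']
  unfold UD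
  exact_mod_cast cok_R hD hK (mem_mon.2 ⟨hf, rfl⟩) hs h

theorem tr_cn_sf {K t : ℕ} (hK : 1 ≤ K) {f : k[X]} (hf : f.Monic) (hs : Squarefree f)
    (h : 3 * (t + K) ≤ f.natDegree / 2) : tr t (cn K f) = uu f.natDegree := by
  rw [tr_congr fun D hD hDt => cn_sf hK hf hs hD (by omega), tr_const]

end CL3

end
end

-- part H49Q.Stab
section

/-! h49q MODEL (helper70): covolume and stability of the local counts (COV, STAB, mixed levels). -/

set_option autoImplicit false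
set_option linter.unusedSectionVars false
open Polynomial Finset UniqueFactorizationMonoid Filter Topology CL5
open scoped Classical

noncomputable section
namespace CL3

variable {k : Type*} [Field k] [Fintype k]

/-- the mean over the targets of level `D` -/
def av (K M : ℕ) (D : k[X]) (N : k[X] → ℝ) : ℝ := (∑ v ∈ UD K M D, N v) / (UD K M D).card

theorem UD_add {K M : ℕ} {D u v : k[X]} (hu : u ∈ UD K M D) (hv : v ∈ UD K M D) :
    u + v ∈ UD K M D := by
  rw [mem_UD] at hu hv ⊢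
  exact ⟨(degree_add_le _ _).trans_lt (max_lt hu.1 hv.1), dvd_add hu.2 hv.2⟩

theorem UD_sub {K M : ℕ} {D u v : k[X]} (hu : u ∈ UD K M D) (hv : v ∈ UD K M D) :
    u - v ∈ UD K M D := by
  rw [mem_UD] at hu hv ⊢
  exact ⟨(degree_sub_le _ _).trans_lt (max_lt hu.1 hv.1), dvd_sub hu.2 hv.2⟩

theorem sum_UD_shift {K M : ℕ} {D u : k[X]} (hu : u ∈ UD K M D) (N : k[X] → ℝ) :
    ∑ v ∈ UD K M D, N (v + u) = ∑ v ∈ UD K M D, N v :=
  sum_nbij' (fun v => v + u) (fun v => v - u) (fun _ hv => UD_add hv hu) (fun _ hv => UD_sub hv hu)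
    (fun _ _ => by ring) (fun _ _ => by ring) fun _ _ => rfl

/-- averaging over a larger group of targets -/
theorem av_eq {K M : ℕ} {D D' : k[X]} (hdv : D' ∣ D) {N : k[X] → ℝ}
    (h : ∀ u ∈ UD K M D', ∃ s : k[X], u - s ∈ UD K M D ∧ ∀ v, N (v + s) = N v) :
    av K M D N = av K M D' N := by
  have p1 := UD_pos K M D
  have p2 := UD_pos K M D'
  have e1 : ∑ u ∈ UD K M D', ∑ v ∈ UD K M D, N (v + u) =
      (UD K M D').card * ∑ v ∈ UD K M D, N v := by
    rw [← nsmul_eq_mul, ← sum_const]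
    refine sum_congr rfl fun u hu => ?_
    obtain ⟨s, h1, h2⟩ := h u hu
    rw [← sum_UD_shift h1 N]
    exact sum_congr rfl fun v _ => by rw [← h2 (v + (u - s))]; congr 1; ring
  have e2 : ∑ u ∈ UD K M D', ∑ v ∈ UD K M D, N (v + u) =
      (UD K M D).card * ∑ u ∈ UD K M D', N u := by
    rw [sum_comm, ← nsmul_eq_mul, ← sum_const]
    refine sum_congr rfl fun v hv => ?_
    have hv' : v ∈ UD K M D' := mem_UD.2 ⟨(mem_UD.1 hv).1, hdv.trans (mem_UD.1 hv).2⟩
    rw [← sum_UD_shift hv' N]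
    exact sum_congr rfl fun u _ => by rw [add_comm]
  unfold av
  rw [div_eq_div_iff p1.ne' p2.ne']
  linear_combination e2 - e1

theorem av_comm (K M : ℕ) (D E : k[X]) (N : k[X] → k[X] → ℝ) :
    av K M D (fun v => av K M E (N v)) = av K M E (fun w => av K M D (fun v => N v w)) := by
  unfold av
  rw [← sum_div, ← sum_div, sum_comm]
  ring

theorem av_congr {K M : ℕ} {D : k[X]} {N N' : k[X] → ℝ} (h : ∀ v ∈ UD K M D, N v = N' v) :
    av K M D N = av K M D N' := by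
  unfold av
  rw [sum_congr rfl h]

theorem av_sum {ι : Type*} (s : Finset ι) (K M : ℕ) (D : k[X]) (N : ι → k[X] → ℝ) :
    av K M D (fun v => ∑ i ∈ s, N i v) = ∑ i ∈ s, av K M D (N i) := by
  unfold av
  rw [sum_comm, sum_div]

theorem av_nonneg {K M : ℕ} {D : k[X]} {N : k[X] → ℝ} (h : ∀ v ∈ UD K M D, 0 ≤ N v) :
    0 ≤ av K M D N := div_nonneg (sum_nonneg h) (Nat.cast_nonneg _)

theorem av_le {K M : ℕ} {D : k[X]} {N : k[X] → ℝ} {B : ℝ} (h : ∀ v ∈ UD K M D, N v ≤ B) :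
    av K M D N ≤ B := by
  unfold av
  rw [div_le_iff₀ (UD_pos K M D), mul_comm, ← nsmul_eq_mul]
  exact sum_le_card_nsmul _ _ _ h

theorem Stab.mono {ph : k[X] → ℝ} {d : k[X]} {t T : ℕ} (h : Stab ph d T) (ht : t ≤ T) :
    Stab ph d t := fun D D' h1 h2 h3 h4 h5 => h D D' h1 h2 h3 (h4.trans ht) h5

/-- a multiple of `d` in place of `d` -/
theorem Stab.eq_of_dvd {ph : k[X] → ℝ} {d R : k[X]} {T : ℕ} (h : Stab ph d T) (hd : d.Monic)
    (hR : R.Monic) (hdv : d ∣ R) (hT : R.natDegree ≤ T) : ph R = ph d :=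
  h R d hR hd hdv hT ⟨0, 1, by ring⟩

theorem Stab.av {F : k[X] → k[X] → ℝ} {d : k[X]} {T : ℕ} (h : ∀ w, Stab (fun D => F D w) d T)
    (K M : ℕ) (E : k[X]) : Stab (fun D => av K M E (F D)) d T :=
  fun D D' h1 h2 h3 h4 h5 => av_congr fun w _ => h w D D' h1 h2 h3 h4 h5

theorem Stab.tr {F : k[X] → k[X] → ℝ} {d : k[X]} {T t : ℕ}
    (h : ∀ E : k[X], E.Monic → E.natDegree ≤ t → Stab (fun D => F D E) d T) :
    Stab (fun D => tr t (F D)) d T :=
  fun D D' h1 h2 h3 h4 h5 => tr_congr fun E e1 e2 => h E e1 e2 D D' h1 h2 h3 h4 h5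

variable [CharP k 3]

/-- the number of monic `m` of degree `n` with two prescribed values -/
def NM (n : ℕ) (G1 G2 w1 w2 : k[X]) : ℝ :=
  ((mon k n).filter (fun m => car (G1 * m) = w1 ∧ car (G2 * m) = w2)).card

/-- `d` lies in the ideal of the three minors -/
def InMin (G1 G2 d : k[X]) : Prop :=
  ∃ c0 c1 c2 : k[X], d = c0 * co 0 (wronskian G1 G2) + c1 * co 1 (wronskian G1 G2) +
    c2 * co 2 (wronskian G1 G2)

theorem NM_comm (n : ℕ) (G1 G2 w1 w2 : k[X]) : NM n G1 G2 w1 w2 = NM n G2 G1 w2 w1 := by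
  unfold NM
  simp only [and_comm]

theorem NM_nonneg (n : ℕ) (G1 G2 w1 w2 : k[X]) : 0 ≤ NM n G1 G2 w1 w2 := Nat.cast_nonneg _

theorem co_wr (G1 G2 : k[X]) :
    co 0 (wronskian G1 G2) = co 0 G1 * co 1 G2 - co 1 G1 * co 0 G2 ∧
    co 1 (wronskian G1 G2) = co 2 G1 * co 0 G2 - co 0 G1 * co 2 G2 ∧
    co 2 (wronskian G1 G2) = co 1 G1 * co 2 G2 - co 2 G1 * co 1 G2 := by
  have h := wronskian_Phi (co 0 G1) (co 1 G1) (co 2 G1) (co 0 G2) (co 1 G2) (co 2 G2)
  rw [Phi_co, Phi_co] at h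
  rw [h]
  exact ⟨co0_Phi _ _ _, co1_Phi _ _ _, co2_Phi _ _ _⟩

theorem InMin.symm {G1 G2 d : k[X]} (h : InMin G1 G2 d) : InMin G2 G1 d := by
  obtain ⟨c0, c1, c2, h⟩ := h
  obtain ⟨a0, a1, a2⟩ := co_wr G1 G2
  obtain ⟨b0, b1, b2⟩ := co_wr G2 G1
  exact ⟨-c0, -c1, -c2, by rw [h, a0, a1, a2, b0, b1, b2]; ring⟩

omit [CharP k 3] in
theorem mon_add {n : ℕ} {m φ : k[X]} (hm : m ∈ mon k n) (hφ : φ.degree < (n : ℕ)) :
    m + φ ∈ mon k n := by
  obtain ⟨h1, h2⟩ := mem_mon.1 hm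
  have hd : φ.degree < m.degree := by rwa [degree_eq_natDegree h1.ne_zero, h2]
  exact mem_mon.2 ⟨h1.add_of_left hd, by rw [natDegree_add_eq_left_of_degree_lt hd, h2]⟩

theorem NM_shift {n : ℕ} {G1 G2 φ : k[X]} (hφ : φ.degree < (n : ℕ)) (w1 w2 : k[X]) :
    NM n G1 G2 (w1 + car (G1 * φ)) (w2 + car (G2 * φ)) = NM n G1 G2 w1 w2 := by
  unfold NM
  congr 1
  symm
  refine card_nbij' (fun m => m + φ) (fun m => m + -φ) ?_ ?_ (fun _ _ => by ring)
    fun _ _ => by ring
  · intro m hm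
    obtain ⟨h1, h2, h3⟩ := mem_filter.1 (mem_coe.1 hm)
    refine mem_coe.2 (mem_filter.2 ⟨mon_add h1 hφ, ?_, ?_⟩)
    · rw [mul_add, car_add, h2]
    · rw [mul_add, car_add, h3]
  · intro m hm
    obtain ⟨h1, h2, h3⟩ := mem_filter.1 (mem_coe.1 hm)
    refine mem_coe.2 (mem_filter.2 ⟨mon_add h1 (by rwa [degree_neg]), ?_, ?_⟩)
    · rw [mul_add, car_add, h2, mul_neg, car_neg]; ring
    · rw [mul_add, car_add, h3, mul_neg, car_neg]; ring

omit [Fintype k] [CharP k 3] in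
theorem st_deg {a b : k[X]} {A B : ℕ} (ha : a.degree < (A : ℕ)) (hb : b.degree < (B : ℕ)) :
    (a * b).degree < (A + B : ℕ) := by
  by_cases h0 : b = 0
  · rw [h0, mul_zero, degree_zero]; exact WithBot.bot_lt_coe _
  · have := (natDegree_lt_iff_degree_lt h0).2 hb
    exact (m70_deg_mul ha).trans_le (by exact_mod_cast (by omega))

theorem co_degree {G : k[X]} {N : ℕ} (hG : G ∈ box k N) :
    (co 0 G).degree < ((N + 2) / 3 : ℕ) ∧ (co 1 G).degree < ((N + 2) / 3 : ℕ) ∧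
      (co 2 G).degree < ((N + 2) / 3 : ℕ) := by
  rw [mem_box, ← Phi_co G, degree_Phi_lt] at hG
  exact ⟨hG.1, hG.2.1.trans_le (by exact_mod_cast (by omega)),
    hG.2.2.trans_le (by exact_mod_cast (by omega))⟩

/-- F1: the first value may be moved by a short combination of the minors -/
theorem NM_shift_min {n M' T : ℕ} {G1 G2 t0 t1 t2 : k[X]} (h2 : G2 ∈ box k M')
    (hn : 3 * T + M' + 2 ≤ n) (d0 : t0.degree < (T : ℕ)) (d1 : t1.degree < (T : ℕ))
    (d2 : t2.degree < (T : ℕ)) (w1 w2 : k[X]) :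
    NM n G1 G2 (w1 + (t0 * co 0 (wronskian G1 G2) + t1 * co 1 (wronskian G1 G2) +
      t2 * co 2 (wronskian G1 G2))) w2 = NM n G1 G2 w1 w2 := by
  obtain ⟨b0, b1, b2⟩ := co_degree h2
  obtain ⟨a0, a1, a2⟩ := co_wr G1 G2
  set φ := Phi (t1 * co 0 G2 - t2 * co 1 G2) (t2 * co 2 G2 - t0 * co 0 G2)
    (t0 * co 1 G2 - t1 * co 2 G2) with hφ
  have hs : ∀ {x y u v : k[X]}, x.degree < (T : ℕ) → y.degree < ((M' + 2) / 3 : ℕ) →
      u.degree < (T : ℕ) → v.degree < ((M' + 2) / 3 : ℕ) →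
      (x * y - u * v).degree < (T + (M' + 2) / 3 : ℕ) := fun hx hy hu hv =>
    (degree_sub_le _ _).trans_lt (max_lt (st_deg hx hy) (st_deg hu hv))
  have hd : φ.degree < (n : ℕ) := by
    rw [hφ, degree_Phi_lt]
    exact ⟨(hs d1 b0 d2 b1).trans_le (by exact_mod_cast (by omega)),
      (hs d2 b2 d0 b0).trans_le (by exact_mod_cast (by omega)),
      (hs d0 b1 d1 b2).trans_le (by exact_mod_cast (by omega))⟩
  have e1 : car (G1 * φ) = t0 * co 0 (wronskian G1 G2) + t1 * co 1 (wronskian G1 G2) +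
      t2 * co 2 (wronskian G1 G2) := by
    nth_rewrite 1 [← Phi_co G1]
    rw [hφ, car_Phi_mul, a0, a1, a2]; ring
  have e2 : car (G2 * φ) = 0 := by
    nth_rewrite 1 [← Phi_co G2]
    rw [hφ, car_Phi_mul]; ring
  have := NM_shift (G1 := G1) (G2 := G2) hd w1 w2
  rwa [e1, e2, add_zero] at this

/-- STAB in the first level, second value fixed -/
theorem stab1 {n M M' K T : ℕ} {G1 G2 d : k[X]} (h1 : G1 ∈ box k M') (h2 : G2 ∈ box k M')
    (hd : InMin G1 G2 d) (hn : 3 * T + M' + 2 ≤ n) (hM : K + T + 2 * ((M' + 2) / 3) ≤ M)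
    (g1 w2 : k[X]) :
    Stab (fun D => av K M D (fun v => NM n G1 G2 (g1 + v) w2)) d T := by
  intro D D' hD hD' hdv hT ⟨a, b, hab⟩
  refine av_eq hdv fun u hu => ?_
  obtain ⟨hu1, c, hc⟩ := mem_UD.1 hu
  obtain ⟨c0, c1, c2, hd⟩ := hd
  have hlt : ∀ x : k[X], (x %ₘ D).degree < (T : ℕ) := fun x =>
    (degree_modByMonic_lt x hD).trans_le (degree_le_natDegree.trans (by exact_mod_cast hT))
  obtain ⟨a0, a1, a2⟩ := co_degree h1
  obtain ⟨b0, b1, b2⟩ := co_degree h2
  obtain ⟨e0, e1, e2⟩ := co_wr G1 G2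
  have hs : ∀ {t x y u v : k[X]}, t.degree < (T : ℕ) → x.degree < ((M' + 2) / 3 : ℕ) →
      y.degree < ((M' + 2) / 3 : ℕ) → u.degree < ((M' + 2) / 3 : ℕ) →
      v.degree < ((M' + 2) / 3 : ℕ) → (t * (x * y - u * v)).degree < (M - K : ℕ) :=
    fun ht hx hy hu hv => (st_deg ht ((degree_sub_le _ _).trans_lt
      (max_lt (st_deg hx hy) (st_deg hu hv)))).trans_le (by exact_mod_cast (by omega))
  refine ⟨(b * c * c0) %ₘ D * co 0 (wronskian G1 G2) + (b * c * c1) %ₘ D * co 1 (wronskian G1 G2) +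
    (b * c * c2) %ₘ D * co 2 (wronskian G1 G2), mem_UD.2 ⟨?_, ?_⟩, fun v => ?_⟩
  · refine (degree_sub_le _ _).trans_lt (max_lt hu1 ?_)
    rw [e0, e1, e2]
    exact (degree_add_le _ _).trans_lt (max_lt ((degree_add_le _ _).trans_lt
      (max_lt (hs (hlt _) a0 b1 a1 b0) (hs (hlt _) a2 b0 a0 b2))) (hs (hlt _) a1 b2 a2 b1))
  · refine ⟨a * c + (b * c * c0) /ₘ D * co 0 (wronskian G1 G2) +
      (b * c * c1) /ₘ D * co 1 (wronskian G1 G2) + (b * c * c2) /ₘ D * co 2 (wronskian G1 G2), ?_⟩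
    linear_combination hc + c * hab + b * c * hd -
      co 0 (wronskian G1 G2) * modByMonic_add_div (b * c * c0) D -
      co 1 (wronskian G1 G2) * modByMonic_add_div (b * c * c1) D -
      co 2 (wronskian G1 G2) * modByMonic_add_div (b * c * c2) D
  · simp only [← add_assoc g1 v]
    exact NM_shift_min h2 hn (hlt _) (hlt _) (hlt _) _ _

/-- STAB in the second level, first value fixed -/
theorem stab2 {n M M' K T : ℕ} {G1 G2 d : k[X]} (h1 : G1 ∈ box k M') (h2 : G2 ∈ box k M')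
    (hd : InMin G1 G2 d) (hn : 3 * T + M' + 2 ≤ n) (hM : K + T + 2 * ((M' + 2) / 3) ≤ M)
    (w1 g2 : k[X]) :
    Stab (fun D => av K M D (fun v => NM n G1 G2 w1 (g2 + v))) d T := by
  simp only [NM_comm n G1 G2]
  exact stab1 h2 h1 hd.symm hn hM g2 w1

/-- the model count with two levels -/
def md (n K M : ℕ) (G1 G2 g1 g2 D1 D2 : k[X]) : ℝ :=
  av K M D1 (fun v1 => av K M D2 (fun v2 => NM n G1 G2 (g1 + v1) (g2 + v2)))

theorem stab_md1 {n M M' K T : ℕ} {G1 G2 d : k[X]} (h1 : G1 ∈ box k M') (h2 : G2 ∈ box k M')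
    (hd : InMin G1 G2 d) (hn : 3 * T + M' + 2 ≤ n) (hM : K + T + 2 * ((M' + 2) / 3) ≤ M)
    (g1 g2 D2 : k[X]) : Stab (fun D1 => md n K M G1 G2 g1 g2 D1 D2) d T := by
  unfold md
  simp only [av_comm K M _ D2]
  exact Stab.av (fun w => stab1 h1 h2 hd hn hM g1 (g2 + w)) K M D2

theorem stab_md2 {n M M' K T : ℕ} {G1 G2 d : k[X]} (h1 : G1 ∈ box k M') (h2 : G2 ∈ box k M')
    (hd : InMin G1 G2 d) (hn : 3 * T + M' + 2 ≤ n) (hM : K + T + 2 * ((M' + 2) / 3) ≤ M)
    (g1 g2 D1 : k[X]) : Stab (fun D2 => md n K M G1 G2 g1 g2 D1 D2) d T :=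
  Stab.av (fun w => stab2 h1 h2 hd hn hM (g1 + w) g2) K M D1

/-- STAB on the diagonal -/
theorem stab_md {n M M' K T : ℕ} {G1 G2 d : k[X]} (h1 : G1 ∈ box k M') (h2 : G2 ∈ box k M')
    (hd : InMin G1 G2 d) (hn : 3 * T + M' + 2 ≤ n) (hM : K + T + 2 * ((M' + 2) / 3) ≤ M)
    (g1 g2 : k[X]) : Stab (fun D => md n K M G1 G2 g1 g2 D D) d T :=
  fun D D' a b c e f => (stab_md1 h1 h2 hd hn hM g1 g2 D D D' a b c e f).trans
    (stab_md2 h1 h2 hd hn hM g1 g2 D' D D' a b c e f)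

/-- COV -/
theorem cov {G1 G2 : k[X]} (hW : wronskian G1 G2 ≠ 0) : ∃ d : k[X], d.Monic ∧ InMin G1 G2 d ∧
    d ∣ co 0 (wronskian G1 G2) ∧ d ∣ co 1 (wronskian G1 G2) ∧ d ∣ co 2 (wronskian G1 G2) ∧
    3 * d.natDegree ≤ (wronskian G1 G2).natDegree ∧
    ∀ N : ℕ, (wronskian G1 G2).degree < (N : ℕ) → qq k ^ (d.natDegree + 1) ≤ kap N G1 G2 := by
  obtain ⟨e0, e1, e2⟩ := co_wr G1 G2
  set W := wronskian G1 G2 with hWd
  set g := EuclideanDomain.gcd (co 0 W) (EuclideanDomain.gcd (co 1 W) (co 2 W)) with hg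
  have g0 : g ∣ co 0 W := EuclideanDomain.gcd_dvd_left _ _
  have g1 : g ∣ co 1 W :=
    (EuclideanDomain.gcd_dvd_right _ _).trans (EuclideanDomain.gcd_dvd_left _ _)
  have g2 : g ∣ co 2 W :=
    (EuclideanDomain.gcd_dvd_right _ _).trans (EuclideanDomain.gcd_dvd_right _ _)
  have hg0 : g ≠ 0 := fun e => hW (by
    rw [e, zero_dvd_iff] at g0 g1 g2
    rw [← Phi_co W, g0, g1, g2, Phi_zero])
  have ha : Associated (normalize g) g := normalize_associated g
  have hm : (normalize g).Monic := monic_normalize hg0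
  obtain ⟨u, hu⟩ := ha.symm.dvd
  obtain ⟨x0, hx0⟩ := ha.dvd.trans g0
  obtain ⟨x1, hx1⟩ := ha.dvd.trans g1
  obtain ⟨x2, hx2⟩ := ha.dvd.trans g2
  set d := normalize g
  have hWx : W = d ^ 3 * Phi x0 x1 x2 := by rw [← Phi_mul, ← hx0, ← hx1, ← hx2, Phi_co]
  have hx : Phi x0 x1 x2 ≠ 0 := fun e => hW (by rw [hWx, e, mul_zero])
  have hdeg : W.natDegree = 3 * d.natDegree + (Phi x0 x1 x2).natDegree := by
    rw [hWx, natDegree_mul (hm.pow 3).ne_zero hx, hm.natDegree_pow]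
  refine ⟨d, hm, ?_, ⟨x0, hx0⟩, ⟨x1, hx1⟩, ⟨x2, hx2⟩, by omega, fun N hN => ?_⟩
  · have b1 := EuclideanDomain.gcd_eq_gcd_ab (co 0 W) (EuclideanDomain.gcd (co 1 W) (co 2 W))
    have b2 := EuclideanDomain.gcd_eq_gcd_ab (co 1 W) (co 2 W)
    set A := EuclideanDomain.gcdA (co 0 W) (EuclideanDomain.gcd (co 1 W) (co 2 W))
    set B := EuclideanDomain.gcdB (co 0 W) (EuclideanDomain.gcd (co 1 W) (co 2 W))
    exact ⟨u * A, u * B * EuclideanDomain.gcdA (co 1 W) (co 2 W),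
      u * B * EuclideanDomain.gcdB (co 1 W) (co 2 W), by
        linear_combination hu + u * b1 + u * B * b2⟩
  · have hN' := (natDegree_lt_iff_degree_lt hW).2 hN
    have k1 : car (G1 * Phi x0 x1 x2) = 0 := by
      nth_rewrite 1 [← Phi_co G1]
      rw [car_Phi_mul]
      apply mul_left_cancel₀ hm.ne_zero
      linear_combination co 0 G1 * (e2 - hx2) + co 1 G1 * (e1 - hx1) + co 2 G1 * (e0 - hx0)
    have k2 : car (G2 * Phi x0 x1 x2) = 0 := by
      nth_rewrite 1 [← Phi_co G2]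
      rw [car_Phi_mul]
      apply mul_left_cancel₀ hm.ne_zero
      linear_combination co 0 G2 * (e2 - hx2) + co 1 G2 * (e1 - hx1) + co 2 G2 * (e0 - hx0)
    rw [← card_box]
    unfold kap
    refine Nat.cast_le.2 (card_le_card_of_injOn (fun s => s ^ 3 * Phi x0 x1 x2)
      (fun s hs => ?_) fun s _ s' _ e => car_three_inj' (mul_right_cancel₀ hx e))
    refine mem_coe.2 (mem_filter.2 ⟨mem_box.2 ?_, ?_, ?_⟩)
    · have h3 : (s ^ 3 * Phi x0 x1 x2).natDegree ≤ (s ^ 3).natDegree + (Phi x0 x1 x2).natDegree :=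
        natDegree_mul_le
      have h4 : s.natDegree ≤ d.natDegree := by
        by_cases h0 : s = 0
        · rw [h0, natDegree_zero]; exact Nat.zero_le _
        · exact Nat.lt_succ_iff.1 ((natDegree_lt_iff_degree_lt h0).2 (mem_box.1 (mem_coe.1 hs)))
      rw [natDegree_pow] at h3
      have h5 : (s ^ 3 * Phi x0 x1 x2).natDegree < N := by omega
      exact degree_le_natDegree.trans_lt (by exact_mod_cast h5)
    · rw [mul_left_comm, car_pow_mul, k1, mul_zero]
    · rw [mul_left_comm, car_pow_mul, k2, mul_zero]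

end CL3

end
end

-- part H49Q.HypP
section

/-! h49q (helper70): HYP' with mixed levels. -/

set_option autoImplicit false
set_option linter.unusedSectionVars false
open Polynomial Finset UniqueFactorizationMonoid Filter Topology CL5
open scoped Classical

noncomputable section
namespace CL3

theorem hq_dom0 {R : Type*} [CommRing R] [IsDomain R] {a b c d z1 z2 g1 g2 H1 H2 : R}
    (e1 : H1 * g1 = a ^ 3 * z1 + b ^ 3 * z2) (e2 : H2 * g2 = c ^ 3 * z1 + d ^ 3 * z2)
    (hd : a * d - b * c = 0) (h1 : a * g2 - c * g1 = 0) (ha : a ≠ 0)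
    (n2 : ¬ (c = 0 ∧ d = 0))
    (n3 : ¬ (H2 * a ^ 2 - H1 * c ^ 2 = 0 ∧ H2 * b ^ 2 - H1 * d ^ 2 = 0)) :
    g1 = 0 ∧ g2 = 0 := by
  have key : c * (H2 * a ^ 2 - H1 * c ^ 2) * g1 = 0 := by
    have h3 : a ^ 3 * (H2 * g2) - c ^ 3 * (H1 * g1) = 0 := by
      rw [e1, e2]
      linear_combination (z2 * ((a * d) ^ 2 + (a * d) * (b * c) + (b * c) ^ 2)) * hd
    linear_combination h3 - H2 * a ^ 2 * h1
  have hc : c ≠ 0 := fun h => n2 ⟨h, by
    have : a * d = 0 := by linear_combination hd + b * h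
    exact (mul_eq_zero.mp this).resolve_left ha⟩
  have hm : H2 * a ^ 2 - H1 * c ^ 2 ≠ 0 := fun h => n3 ⟨h, by
    have : a ^ 2 * (H2 * b ^ 2 - H1 * d ^ 2) = 0 := by
      linear_combination b ^ 2 * h - H1 * (a * d + b * c) * hd
    exact (mul_eq_zero.mp this).resolve_left (pow_ne_zero 2 ha)⟩
  have hg : g1 = 0 := (mul_eq_zero.mp key).resolve_left (mul_ne_zero hc hm)
  refine ⟨hg, ?_⟩
  have : a * g2 = 0 := by linear_combination h1 + c * hg
  exact (mul_eq_zero.mp this).resolve_left ha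

theorem hq_dom {R : Type*} [CommRing R] [IsDomain R] {a b c d z1 z2 g1 g2 H1 H2 : R}
    (e1 : H1 * g1 = a ^ 3 * z1 + b ^ 3 * z2) (e2 : H2 * g2 = c ^ 3 * z1 + d ^ 3 * z2)
    (hd : a * d - b * c = 0) (h1 : a * g2 - c * g1 = 0) (h2 : b * g2 - d * g1 = 0)
    (n1 : ¬ (a = 0 ∧ b = 0)) (n2 : ¬ (c = 0 ∧ d = 0))
    (n3 : ¬ (H2 * a ^ 2 - H1 * c ^ 2 = 0 ∧ H2 * b ^ 2 - H1 * d ^ 2 = 0)) :
    g1 = 0 ∧ g2 = 0 := by
  by_cases ha : a = 0
  · have hb : b ≠ 0 := fun h => n1 ⟨ha, h⟩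
    exact hq_dom0 (a := b) (b := a) (c := d) (d := c) (z1 := z2) (z2 := z1) (H1 := H1) (H2 := H2)
      (by rw [e1]; ring) (by rw [e2]; ring) (by linear_combination -hd) h2 hb
      (fun h => n2 h.symm) (fun h => n3 h.symm)
  · exact hq_dom0 e1 e2 hd h1 ha n2 n3

variable {k : Type*} [Field k] [Fintype k]

theorem hq_prime {p a b c d z1 z2 g1 g2 H1 H2 : k[X]} (hp : Irreducible p)
    (e1 : H1 * g1 = a ^ 3 * z1 + b ^ 3 * z2) (e2 : H2 * g2 = c ^ 3 * z1 + d ^ 3 * z2)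
    (hd : p ∣ a * d - b * c) (h1 : p ∣ a * g2 - c * g1) (h2 : p ∣ b * g2 - d * g1)
    (n1 : ¬ (p ∣ a ∧ p ∣ b)) (n2 : ¬ (p ∣ c ∧ p ∣ d))
    (n3 : ¬ (p ∣ H2 * a ^ 2 - H1 * c ^ 2 ∧ p ∣ H2 * b ^ 2 - H1 * d ^ 2)) : p ∣ g1 ∧ p ∣ g2 := by
  have : Fact (Irreducible p) := ⟨hp⟩
  simp only [← AdjoinRoot.mk_eq_zero, map_sub, map_mul, map_pow] at hd h1 h2 n1 n2 n3 ⊢
  refine hq_dom (z1 := AdjoinRoot.mk p z1) (z2 := AdjoinRoot.mk p z2) ?_ ?_ hd h1 h2 n1 n2 n3
  · rw [← map_mul, e1]; simp only [map_add, map_mul, map_pow]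
  · rw [← map_mul, e2]; simp only [map_add, map_mul, map_pow]

/-- admissible divisors of the determinant for the pair `H1, H2` -/
def AdmQ (H1 H2 D a b c d : k[X]) : Prop :=
  D.Monic ∧ Squarefree D ∧ D ∣ a * d - b * c ∧ ∀ p : k[X], Irreducible p → p ∣ D →
    ¬ (p ∣ a ∧ p ∣ b) ∧ ¬ (p ∣ c ∧ p ∣ d) ∧
      ¬ (p ∣ H2 * a ^ 2 - H1 * c ^ 2 ∧ p ∣ H2 * b ^ 2 - H1 * d ^ 2)

/-- a function on the targets that lives on one residue class -/
theorem av_class {K M : ℕ} {dl E : k[X]} (hl : dl = 0 ∨ dl.Monic) (hE : E.Monic)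
    (hc : IsCoprime E dl) (h : K + dl.natDegree + E.natDegree ≤ M) {N : k[X] → ℝ} {B : ℝ}
    (hB0 : 0 ≤ B) (hB : ∀ v ∈ UD K M dl, N v ≤ B)
    (hcl : ∀ v ∈ UD K M dl, ∀ v' ∈ UD K M dl, 0 < N v → 0 < N v' → E ∣ v - v') :
    av K M dl N ≤ B / nrm E := by
  have hq : (0 : ℝ) < qq k := lt_of_lt_of_le two_pos two_le_qq
  have hnr : 0 < nrm E := pow_pos hq _
  rcases hl with rfl | hl
  · rw [hE.eq_one_of_isUnit (isCoprime_zero_right.1 hc), nrm, natDegree_one, pow_zero, div_one]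
    exact av_le hB
  by_cases hz : ∀ v ∈ UD K M dl, N v ≤ 0
  · exact (av_le hz).trans (by positivity)
  push Not at hz
  obtain ⟨v0, hv0, hz⟩ := hz
  obtain ⟨s0, hs0⟩ := (mem_UD.1 hv0).2
  have hm : K + dl.natDegree ≤ M := by omega
  have hdeg : E.natDegree ≤ M - K - dl.natDegree := by omega
  have hsum : ∑ v ∈ UD K M dl, N v ≤
      ∑ v ∈ UD K M dl, (if E ∣ v - v0 then (1 : ℝ) else 0) * B := by
    refine sum_le_sum fun v hv => ?_
    split_ifs with hs
    · rw [one_mul]; exact hB v hv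
    · rw [zero_mul]
      by_contra hlt
      exact hs (hcl v hv v0 hv0 (not_le.1 hlt) hz)
  unfold av
  rw [div_le_iff₀ (UD_pos K M dl)]
  refine hsum.trans (le_of_eq ?_)
  rw [card_UD hl hm, sum_UD hl hm, ← sum_mul]
  have e : ∀ s : k[X], (E ∣ dl * s - v0) ↔ E ∣ s - s0 := fun s => by
    rw [hs0, ← mul_sub]
    exact ⟨hc.dvd_of_dvd_mul_left, fun h => h.mul_left _⟩
  simp only [e]
  rw [sum_box_class80 hE hdeg, pow_sub₀ _ hq.ne' hdeg, nrm]
  ring

theorem av_pos {K M : ℕ} {D : k[X]} {N : k[X] → ℝ} (h : 0 < av K M D N) :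
    ∃ v ∈ UD K M D, 0 < N v := by
  by_contra hne
  push Not at hne
  exact absurd (av_le hne) (not_le.2 h)

variable [CharP k 3]

theorem NM_pos {n : ℕ} {G1 G2 w1 w2 : k[X]} (h : 0 < NM n G1 G2 w1 w2) :
    ∃ m ∈ mon k n, car (G1 * m) = w1 ∧ car (G2 * m) = w2 := by
  unfold NM at h
  obtain ⟨f, hf⟩ := card_pos.mp (Nat.cast_pos.1 h)
  exact ⟨f, (mem_filter.mp hf).1, (mem_filter.mp hf).2⟩

theorem NM_le_kap (n : ℕ) (G1 G2 w1 w2 : k[X]) : NM n G1 G2 w1 w2 ≤ kap n G1 G2 := by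
  by_cases h : 0 < NM n G1 G2 w1 w2
  swap
  · exact (not_lt.1 h).trans (Nat.cast_nonneg _)
  obtain ⟨f0, m0, a0, b0⟩ := NM_pos h
  obtain ⟨m1, m2⟩ := mem_mon.mp m0
  unfold NM kap
  refine Nat.cast_le.2 (card_le_card_of_injOn (fun f => f - f0) (fun f hf => ?_)
    fun f _ f' _ e => sub_left_injective e)
  obtain ⟨n0, a, b⟩ := mem_filter.mp (mem_coe.mp hf)
  obtain ⟨n1, n2⟩ := mem_mon.mp n0
  refine mem_coe.mpr (mem_filter.mpr ⟨mem_box.mpr ?_, ?_, ?_⟩)
  · have d1 : f.degree = n := by rw [degree_eq_natDegree n1.ne_zero, n2]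
    have d0 : f0.degree = n := by rw [degree_eq_natDegree m1.ne_zero, m2]
    rw [← d1]
    exact degree_sub_lt_left (d1.trans d0.symm) n1.ne_zero
      (by rw [n1.leadingCoeff, m1.leadingCoeff])
  · rw [mul_sub, car_sub, a, a0, sub_self]
  · rw [mul_sub, car_sub, b, b0, sub_self]

theorem kap_mono {n n' : ℕ} (h : n ≤ n') (G1 G2 : k[X]) : kap n G1 G2 ≤ kap n' G1 G2 := by
  unfold kap
  refine card_le_card (filter_subset_filter _ fun a ha => ?_)
  exact mem_box.2 ((mem_box.1 ha).trans_le (by exact_mod_cast h))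

theorem md_nonneg (n K M : ℕ) (G1 G2 g1 g2 D1 D2 : k[X]) : 0 ≤ md n K M G1 G2 g1 g2 D1 D2 :=
  av_nonneg fun _ _ => av_nonneg fun _ _ => NM_nonneg _ _ _ _ _

theorem md_le_kap (n K M : ℕ) (G1 G2 g1 g2 D1 D2 : k[X]) :
    md n K M G1 G2 g1 g2 D1 D2 ≤ kap n G1 G2 :=
  av_le fun _ _ => av_le fun _ _ => NM_le_kap _ _ _ _ _

omit [CharP k 3] in
theorem UD_zero (K M : ℕ) : UD K M (0 : k[X]) = {0} := by
  ext v
  rw [mem_UD, zero_dvd_iff, mem_singleton, and_iff_right_iff_imp]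
  rintro rfl
  rw [degree_zero]; exact WithBot.bot_lt_coe _

omit [CharP k 3] in
theorem av_zero (K M : ℕ) (N : k[X] → ℝ) : av K M 0 N = N 0 := by
  unfold av
  rw [UD_zero]
  simp

theorem md_zero (n K M : ℕ) (G1 G2 g1 g2 : k[X]) :
    md n K M G1 G2 g1 g2 0 0 = NM n G1 G2 g1 g2 := by
  unfold md
  simp only [av_zero, add_zero]

theorem hq_rel {m G1 G2 w1 w2 Z1 Z2 a b c d : k[X]}
    (e1 : G1 = a ^ 3 * Z1 + b ^ 3 * Z2) (e2 : G2 = c ^ 3 * Z1 + d ^ 3 * Z2)
    (h1 : car (G1 * m) = w1) (h2 : car (G2 * m) = w2) :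
    a * d - b * c ∣ a * w2 - c * w1 ∧ a * d - b * c ∣ b * w2 - d * w1 := by
  have k1 : w1 = a * car (Z1 * m) + b * car (Z2 * m) := by
    rw [← h1, e1, add_mul, mul_assoc, mul_assoc, car_add, car_pow_mul, car_pow_mul]
  have k2 : w2 = c * car (Z1 * m) + d * car (Z2 * m) := by
    rw [← h2, e2, add_mul, mul_assoc, mul_assoc, car_add, car_pow_mul, car_pow_mul]
  rw [k1, k2]
  exact ⟨⟨car (Z2 * m), by ring⟩, ⟨-car (Z1 * m), by ring⟩⟩

/-- HYP' for every pair of levels -/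
theorem hyp_md {n K M : ℕ} {H1 H2 g1 g2 Z1 Z2 a b c d D dl1 dl2 : k[X]}
    (e1 : H1 * g1 = a ^ 3 * Z1 + b ^ 3 * Z2) (e2 : H2 * g2 = c ^ 3 * Z1 + d ^ 3 * Z2)
    (hA : AdmQ H1 H2 D a b c d) (l1 : dl1 = 0 ∨ dl1.Monic) (l2 : dl2 = 0 ∨ dl2.Monic)
    (h1 : K + dl1.natDegree + D.natDegree ≤ M) (h2 : K + dl2.natDegree + D.natDegree ≤ M)
    (hpos : 0 < md n K M (H1 * g1) (H2 * g2) g1 g2 dl1 dl2) :
    ∃ D1 D2 : k[X], D = D1 * D2 ∧ D1.Monic ∧ D2.Monic ∧ D1 ∣ g1 ∧ D1 ∣ g2 ∧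
      md n K M (H1 * g1) (H2 * g2) g1 g2 dl1 dl2 ≤ kap n (H1 * g1) (H2 * g2) / nrm D2 := by
  obtain ⟨hm, hs, hdet, hp⟩ := hA
  obtain ⟨A, E1, hD, mA, m1, hA1, c1⟩ := hyp_split (P := dl1) hm hs
  have hAD : A ∣ D := Dvd.intro _ hD.symm
  have hE1 : E1 ∣ D := Dvd.intro_left _ hD.symm
  obtain ⟨D1, E2, hA', mD, m2, hD2, c2⟩ := hyp_split (P := dl2) mA (hs.squarefree_of_dvd hAD)
  have hD1 : D1 ∣ A := Dvd.intro _ hA'.symm
  have hE2 : E2 ∣ A := Dvd.intro_left _ hA'.symm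
  have rel : ∀ {v1 v2 : k[X]}, 0 < NM n (H1 * g1) (H2 * g2) (g1 + v1) (g2 + v2) →
      D ∣ a * (g2 + v2) - c * (g1 + v1) ∧ D ∣ b * (g2 + v2) - d * (g1 + v1) := fun h => by
    obtain ⟨m, -, k1, k2⟩ := NM_pos h
    obtain ⟨r1, r2⟩ := hq_rel e1 e2 k1 k2
    exact ⟨hdet.trans r1, hdet.trans r2⟩
  refine ⟨D1, E2 * E1, by rw [hD, hA', mul_assoc], mD, m2.mul m1, ?_⟩
  rw [← and_assoc]
  constructor
  · obtain ⟨v1, hv1, hp1⟩ := av_pos hpos
    obtain ⟨v2, hv2, hp2⟩ := av_pos hp1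
    obtain ⟨r1, r2⟩ := rel hp2
    have key : ∀ p : k[X], Irreducible p → p ∣ D1 → p ∣ g1 ∧ p ∣ g2 := by
      intro p hi hpD
      have hpD' := (hpD.trans hD1).trans hAD
      obtain ⟨n1, n2, n3⟩ := hp p hi hpD'
      have w1 := ((hpD.trans hD1).trans hA1).trans (mem_UD.1 hv1).2
      have w2 := (hpD.trans hD2).trans (mem_UD.1 hv2).2
      refine hq_prime hi e1 e2 (hpD'.trans hdet) ?_ ?_ n1 n2 n3
      · have := ((hpD'.trans r1).sub (w2.mul_left a)).add (w1.mul_left c)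
        rwa [show a * (g2 + v2) - c * (g1 + v1) - a * v2 + c * v1 = a * g2 - c * g1 by ring] at this
      · have := ((hpD'.trans r2).sub (w2.mul_left b)).add (w1.mul_left d)
        rwa [show b * (g2 + v2) - d * (g1 + v1) - b * v2 + d * v1 = b * g2 - d * g1 by ring] at this
    have hs1 : Squarefree D1 := hs.squarefree_of_dvd (hD1.trans hAD)
    exact ⟨hyp_sqf_dvd hs1 fun p hi h => (key p hi h).1,
      hyp_sqf_dvd hs1 fun p hi h => (key p hi h).2⟩
  · have hq : (0 : ℝ) < qq k := lt_of_lt_of_le two_pos two_le_qq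
    have n1 : 0 < nrm E1 := pow_pos hq _
    have d1 := natDegree_le_of_dvd hE1 hm.ne_zero
    have d2 := natDegree_le_of_dvd (hE2.trans hAD) hm.ne_zero
    have hn : nrm (E2 * E1) = nrm E1 * nrm E2 := by
      rw [nrm, nrm, nrm, m2.natDegree_mul m1, pow_add, mul_comm]
    unfold md
    rw [av_comm, hn, ← div_div]
    refine av_class l2 m2 c2 (by omega) (by positivity) (fun v2 _ => ?_) fun v2 _ v2' _ p1 p2 => ?_
    · refine av_class l1 m1 c1 (by omega) (by positivity) (fun v1 _ => NM_le_kap _ _ _ _ _)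
        fun v1 _ v1' _ p1 p2 => ?_
      obtain ⟨r1, r2⟩ := rel p1
      obtain ⟨s1, s2⟩ := rel p2
      refine hyp_sqf_dvd (hs.squarefree_of_dvd hE1) fun p hi hpD => ?_
      have hpD' := hpD.trans hE1
      have w1 := hpD'.trans (s1.sub r1)
      have w2 := hpD'.trans (s2.sub r2)
      rw [show a * (g2 + v2) - c * (g1 + v1') - (a * (g2 + v2) - c * (g1 + v1)) =
        c * (v1 - v1') by ring] at w1
      rw [show b * (g2 + v2) - d * (g1 + v1') - (b * (g2 + v2) - d * (g1 + v1)) =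
        d * (v1 - v1') by ring] at w2
      by_contra hn
      exact (hp p hi hpD').2.1
        ⟨(hi.prime.dvd_or_dvd w1).resolve_right hn, (hi.prime.dvd_or_dvd w2).resolve_right hn⟩
    · obtain ⟨v1, hv1, p1⟩ := av_pos p1
      obtain ⟨v1', hv1', p2⟩ := av_pos p2
      obtain ⟨r1, r2⟩ := rel p1
      obtain ⟨s1, s2⟩ := rel p2
      refine hyp_sqf_dvd (hs.squarefree_of_dvd (hE2.trans hAD)) fun p hi hpD => ?_
      have hpD' := (hpD.trans hE2).trans hAD
      have w0 : p ∣ v1 - v1' :=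
        ((hpD.trans hE2).trans hA1).trans (mem_UD.1 (UD_sub hv1 hv1')).2
      have w1 := (hpD'.trans (r1.sub s1)).add (w0.mul_left c)
      have w2 := (hpD'.trans (r2.sub s2)).add (w0.mul_left d)
      rw [show a * (g2 + v2) - c * (g1 + v1) - (a * (g2 + v2') - c * (g1 + v1')) + c * (v1 - v1') =
        a * (v2 - v2') by ring] at w1
      rw [show b * (g2 + v2) - d * (g1 + v1) - (b * (g2 + v2') - d * (g1 + v1')) + d * (v1 - v1') =
        b * (v2 - v2') by ring] at w2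
      by_contra hn
      exact (hp p hi hpD').1
        ⟨(hi.prime.dvd_or_dvd w1).resolve_right hn, (hi.prime.dvd_or_dvd w2).resolve_right hn⟩

end CL3

end
end
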