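import Pool.Agent.MP_a4a062_nt.C2.P1
import Pool.Agent.H92F.Ar2
import Pool.Agent.MP_d0fd9b_nt.P3.M1

-- part H68T.Base
section

/-! Moments of the divisor function and Brun's pure sieve weight over `k[X]`. -/

set_option autoImplicit false

open Polynomial Finset Filter
open scoped Classical BigOperators

noncomputable section
namespace Pool.Agent.H68T

open Pool.Agent.MP_a4a062_nt.C2

section Defs
variable (k : Type*) [Field k] [Fintype k]

/-- Monic polynomials of degree at most `n`. -/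
def mle (n : ℕ) : Finset k[X] := (range (n + 1)).biUnion (mon k)

/-- Monic primes of degree at most `z`. -/
def sp (z : ℕ) : Finset k[X] := {p ∈ mle k z | Irreducible p}

/-- The moduli of Brun's pure sieve. -/
def bset (z m : ℕ) : Finset k[X] :=
  {S ∈ (sp k z).powerset | #S ≤ 2 * m}.image fun S => ∏ p ∈ S, p

variable {k}

/-- The monic divisors. -/
def dv (f : k[X]) : Finset k[X] := {d ∈ mle k f.natDegree | d ∣ f}

/-- The number of monic divisors. -/
def nd (f : k[X]) : ℝ := #(dv f)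

/-- No prime factor of degree at most `z`. -/
def Rough (z : ℕ) (f : k[X]) : Prop := ∀ p : k[X], Irreducible p → p ∣ f → z < p.natDegree

/-- Brun's weight. -/
def brun (z m : ℕ) (f : k[X]) : ℝ := ∑ e ∈ bset k z m, if e ∣ f then lam e else 0

end Defs

variable {k : Type*} [Field k] [Fintype k]

theorem mem_mle {n : ℕ} {a : k[X]} : a ∈ mle k n ↔ a.Monic ∧ a.natDegree ≤ n := by
  unfold mle
  simp only [mem_biUnion, mem_range, mem_mon]
  exact ⟨fun ⟨_, h1, h2, h3⟩ => ⟨h2, by omega⟩, fun ⟨h1, h2⟩ => ⟨_, by omega, h1, rfl⟩⟩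

theorem sum_mle (n : ℕ) (G : k[X] → ℝ) :
    ∑ a ∈ mle k n, G a = ∑ i ∈ range (n + 1), ∑ a ∈ mon k i, G a := by
  refine sum_biUnion fun a _ b _ hab => ?_
  rw [Function.onFun, disjoint_left]
  exact fun π ha hb => hab ((mem_mon.1 ha).2.symm.trans (mem_mon.1 hb).2)

theorem card_mle (n : ℕ) : (#(mle k n) : ℝ) ≤ qq k ^ (n + 1) := by
  have h2 := two_le_qq (k := k)
  have h := sum_mle (k := k) n fun _ => 1
  simp only [sum_const, nsmul_eq_mul, mul_one, card_mon] at h
  rw [h]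
  clear h
  induction n with
  | zero => simp; linarith
  | succ n ih =>
    rw [sum_range_succ, pow_succ (qq k) (n + 1)]
    nlinarith [pow_pos (by linarith : 0 < qq k) (n + 1)]

theorem mem_sp {z : ℕ} {p : k[X]} : p ∈ sp k z ↔ p.Monic ∧ Irreducible p ∧ p.natDegree ≤ z := by
  unfold sp
  rw [mem_filter, mem_mle]
  tauto

theorem mem_dv {f d : k[X]} (hf : f ≠ 0) : d ∈ dv f ↔ d.Monic ∧ d ∣ f := by
  unfold dv
  rw [mem_filter, mem_mle]
  exact ⟨fun h => ⟨h.1.1, h.2⟩, fun h => ⟨⟨h.1, natDegree_le_of_dvd h.2 hf⟩, h.2⟩⟩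

theorem one_le_nd (f : k[X]) : 1 ≤ nd f := by
  have h : (1 : k[X]) ∈ dv f := mem_filter.2 ⟨mem_mle.2 ⟨monic_one, by simp⟩, one_dvd _⟩
  unfold nd
  exact_mod_cast card_pos.2 ⟨1, h⟩

theorem nd_nonneg (f : k[X]) : 0 ≤ nd f := Nat.cast_nonneg _

theorem nd_mono {a f : k[X]} (hf : f ≠ 0) (h : a ∣ f) : nd a ≤ nd f := by
  have h1 : dv a ⊆ dv f := fun d hd =>
    (mem_dv hf).2 ⟨(mem_mle.1 (mem_filter.1 hd).1).1, dvd_trans (mem_filter.1 hd).2 h⟩
  unfold nd
  exact_mod_cast card_le_card h1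

theorem nd_mul_le {a b : k[X]} (ha : a ≠ 0) (hb : b ≠ 0) : nd (a * b) ≤ nd a * nd b := by
  unfold nd
  have h : dv (a * b) ⊆ image₂ (· * ·) (dv a) (dv b) := fun d hd => by
    obtain ⟨hm, hd⟩ := (mem_dv (mul_ne_zero ha hb)).1 hd
    obtain ⟨u, v, hu, hv, rfl⟩ := exists_dvd_and_dvd_of_dvd_mul hd
    have hu0 : u ≠ 0 := left_ne_zero_of_mul hm.ne_zero
    have hv0 : v ≠ 0 := right_ne_zero_of_mul hm.ne_zero
    refine mem_image₂.2 ⟨normalize u, (mem_dv ha).2 ⟨monic_normalize hu0,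
      normalize_dvd_iff.2 hu⟩, normalize v, (mem_dv hb).2 ⟨monic_normalize hv0,
      normalize_dvd_iff.2 hv⟩, ?_⟩
    rw [← normalize_mul, hm.normalize_eq_self]
  exact_mod_cast (card_le_card h).trans (card_image₂_le _ _ _)

/-- Sums over factorisations. -/
theorem sum_dv (n : ℕ) (G : k[X] → k[X] → ℝ) :
    ∑ f ∈ mon k n, ∑ a ∈ dv f, G a (f /ₘ a) =
      ∑ i ∈ range (n + 1), ∑ a ∈ mon k i, ∑ b ∈ mon k (n - i), G a b := by
  have e : ∑ i ∈ range (n + 1), ∑ a ∈ mon k i, ∑ b ∈ mon k (n - i), G a b =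
      ∑ a ∈ mle k n, ∑ b ∈ mon k (n - a.natDegree), G a b := by
    rw [sum_mle]
    exact sum_congr rfl fun i _ => sum_congr rfl fun a ha => by rw [(mem_mon.1 ha).2]
  rw [e, sum_sigma', sum_sigma']
  refine sum_bij' (fun x _ => ⟨x.2, x.1 /ₘ x.2⟩) (fun x _ => ⟨x.1 * x.2, x.1⟩) ?_ ?_ ?_ ?_ ?_
  · rintro ⟨f, a⟩ h
    simp only [mem_sigma] at h ⊢
    obtain ⟨hf, rfl⟩ := mem_mon.1 h.1
    obtain ⟨ha, b, rfl⟩ := (mem_dv hf.ne_zero).1 h.2
    have hb := ha.of_mul_monic_left hf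
    rw [mul_divByMonic_cancel_left _ ha, mem_mle, mem_mon, ha.natDegree_mul hb]
    exact ⟨⟨ha, by omega⟩, hb, by omega⟩
  · rintro ⟨a, b⟩ h
    simp only [mem_sigma] at h ⊢
    obtain ⟨ha, h1⟩ := mem_mle.1 h.1
    obtain ⟨hb, h2⟩ := mem_mon.1 h.2
    exact ⟨mem_mon.2 ⟨ha.mul hb, by rw [ha.natDegree_mul hb]; omega⟩,
      (mem_dv (ha.mul hb).ne_zero).2 ⟨ha, dvd_mul_right _ _⟩⟩
  · rintro ⟨f, a⟩ h
    simp only [mem_sigma] at h
    obtain ⟨ha, b, rfl⟩ := (mem_dv (mem_mon.1 h.1).1.ne_zero).1 h.2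
    simp only [mul_divByMonic_cancel_left _ ha]
  · rintro ⟨a, b⟩ h
    simp only [mem_sigma] at h
    simp only [mul_divByMonic_cancel_left _ (mem_mle.1 h.1).1]
  · rintro ⟨f, a⟩ _
    rfl

/-- Moments of the divisor function. -/
theorem sum_nd_pow (j : ℕ) : ∀ n : ℕ,
    ∑ f ∈ mon k n, nd f ^ j ≤ ((n : ℝ) + 1) ^ (2 ^ j - 1) * qq k ^ n := by
  have h2 := two_le_qq (k := k)
  induction j with
  | zero => intro n; simp [card_mon]
  | succ j ih =>
    intro n
    have h1 : ∑ f ∈ mon k n, nd f ^ (j + 1) ≤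
        ∑ f ∈ mon k n, ∑ a ∈ dv f, nd a ^ j * nd (f /ₘ a) ^ j := by
      refine sum_le_sum fun f hf => ?_
      have hf0 := (mem_mon.1 hf).1.ne_zero
      rw [pow_succ', show nd f * nd f ^ j = ∑ _a ∈ dv f, nd f ^ j by
        rw [sum_const, nsmul_eq_mul]; rfl]
      refine sum_le_sum fun a ha => ?_
      obtain ⟨hm, b, rfl⟩ := (mem_dv hf0).1 ha
      rw [mul_divByMonic_cancel_left _ hm, ← mul_pow]
      exact pow_le_pow_left₀ (nd_nonneg _) (nd_mul_le hm.ne_zero (right_ne_zero_of_mul hf0)) _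
    rw [sum_dv n fun a b => nd a ^ j * nd b ^ j] at h1
    refine h1.trans ((sum_le_card_nsmul _ _
      ((((n : ℝ) + 1) ^ (2 ^ j - 1)) ^ 2 * qq k ^ n) fun i hi => ?_).trans (le_of_eq ?_))
    · rw [← sum_mul_sum]
      have hi' : i ≤ n := by rw [mem_range] at hi; omega
      have a1 : ((i : ℝ) + 1) ^ (2 ^ j - 1) ≤ ((n : ℝ) + 1) ^ (2 ^ j - 1) := by
        gcongr
      have a2 : (((n - i : ℕ) : ℝ) + 1) ^ (2 ^ j - 1) ≤ ((n : ℝ) + 1) ^ (2 ^ j - 1) := by
        gcongr; omega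
      calc _ ≤ (((n : ℝ) + 1) ^ (2 ^ j - 1) * qq k ^ i) *
            (((n : ℝ) + 1) ^ (2 ^ j - 1) * qq k ^ (n - i)) :=
            mul_le_mul ((ih i).trans (by gcongr)) ((ih (n - i)).trans (by gcongr))
              (sum_nonneg fun _ _ => pow_nonneg (nd_nonneg _) _) (by positivity)
        _ = _ := by
            rw [show qq k ^ n = qq k ^ i * qq k ^ (n - i) by rw [← pow_add]; congr 1; omega]
            ring
    · rw [card_range, nsmul_eq_mul, ← pow_mul, ← mul_assoc, Nat.cast_succ, ← pow_succ']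
      congr 2
      have := Nat.one_le_two_pow (n := j)
      rw [pow_succ]
      omega

omit [Fintype k] in
theorem rough_mul {z : ℕ} {a b : k[X]} : Rough z (a * b) ↔ Rough z a ∧ Rough z b :=
  ⟨fun h => ⟨fun p hp hd => h p hp (hd.mul_right _), fun p hp hd => h p hp (hd.mul_left _)⟩,
    fun h p hp hd => (hp.prime.dvd_or_dvd hd).elim (h.1 p hp) (h.2 p hp)⟩

theorem rough_iff {z : ℕ} {f : k[X]} : Rough z f ↔ ∀ p ∈ sp k z, ¬ p ∣ f := by
  refine ⟨fun h p hp hd => ?_, fun h p hp hd => ?_⟩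
  · obtain ⟨-, h2, h3⟩ := mem_sp.1 hp
    exact absurd (h p h2 hd) (by omega)
  · by_contra hz
    have ha := normalize_associated p
    refine h (normalize p) (mem_sp.2 ⟨monic_normalize hp.ne_zero, ha.symm.irreducible hp, ?_⟩)
      (normalize_dvd_iff.2 hd)
    rw [natDegree_eq_of_degree_eq (degree_eq_degree_of_associated ha)]
    omega

theorem br_dvd {z : ℕ} {S : Finset k[X]} (hS : S ⊆ sp k z) {p : k[X]} (hp : p ∈ sp k z) :
    p ∣ ∏ r ∈ S, r ↔ p ∈ S := by
  refine ⟨fun h => ?_, fun h => dvd_prod_of_mem _ h⟩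
  obtain ⟨h1, h2, -⟩ := mem_sp.1 hp
  obtain ⟨r, hr, hd⟩ := (h2.prime.dvd_finsetProd_iff _).1 h
  obtain ⟨h3, h4, -⟩ := mem_sp.1 (hS hr)
  rwa [eq_of_monic_of_associated h1 h3 (h2.associated_of_dvd h4 hd)]

theorem br_inj {z : ℕ} {S T : Finset k[X]} (hS : S ⊆ sp k z) (hT : T ⊆ sp k z)
    (h : ∏ r ∈ S, r = ∏ r ∈ T, r) : S = T := by
  ext p
  exact ⟨fun hp => (br_dvd hT (hS hp)).1 (h ▸ dvd_prod_of_mem _ hp),
    fun hp => (br_dvd hS (hT hp)).1 (h ▸ dvd_prod_of_mem _ hp)⟩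

theorem br_cop {z : ℕ} {a b : k[X]} (ha : a ∈ sp k z) (hb : b ∈ sp k z) (hab : a ≠ b) :
    IsCoprime a b := by
  obtain ⟨h1, h2, -⟩ := mem_sp.1 ha
  obtain ⟨h3, h4, -⟩ := mem_sp.1 hb
  exact h2.coprime_iff_not_dvd.2 fun hd =>
    hab (eq_of_monic_of_associated h1 h3 (h2.associated_of_dvd h4 hd))

theorem br_prod_dvd {z : ℕ} {S : Finset k[X]} (hS : S ⊆ sp k z) (f : k[X]) :
    ∏ r ∈ S, r ∣ f ↔ ∀ p ∈ S, p ∣ f :=
  ⟨fun h _ hp => (dvd_prod_of_mem _ hp).trans h,
    fun h => Finset.prod_dvd_of_coprime (fun _ ha _ hb hab => br_cop (hS ha) (hS hb) hab) h⟩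

theorem br_monic {z : ℕ} {S : Finset k[X]} (hS : S ⊆ sp k z) : (∏ r ∈ S, r).Monic :=
  monic_prod_of_monic _ _ fun _ h => (mem_sp.1 (hS h)).1

theorem br_lam {z : ℕ} {S : Finset k[X]} (hS : S ⊆ sp k z) : lam (∏ r ∈ S, r) = (-1) ^ #S := by
  induction S using Finset.induction_on with
  | empty => simp [lam]
  | insert a S ha ih =>
    have h1 := mem_sp.1 (hS (mem_insert_self _ _))
    have hS' := (subset_insert a S).trans hS
    rw [prod_insert ha, lam_mul h1.1.ne_zero (br_monic hS').ne_zero, ih hS',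
      card_insert_of_notMem ha, pow_succ', lam,
      UniqueFactorizationMonoid.card_factors_of_irreducible h1.2.1, pow_one]

/-- The moduli are monic, squarefree, of small degree and made of small primes. -/
theorem bset_spec {z m : ℕ} {e : k[X]} (he : e ∈ bset k z m) : e.Monic ∧ Squarefree e ∧
    e.natDegree ≤ 2 * m * z ∧ ∀ p : k[X], Irreducible p → p ∣ e → p.natDegree ≤ z := by
  obtain ⟨S, hS, rfl⟩ := mem_image.1 he
  obtain ⟨hS, hc⟩ := mem_filter.1 hS
  rw [mem_powerset] at hS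
  refine ⟨br_monic hS, ?_, ?_, fun p hp hd => ?_⟩
  · exact Finset.squarefree_prod_of_pairwise_isCoprime
      (fun _ ha _ hb hab => (br_cop (hS ha) (hS hb) hab).isRelPrime)
      fun _ h => (mem_sp.1 (hS h)).2.1.squarefree
  · rw [natDegree_prod_of_monic _ _ fun _ h => (mem_sp.1 (hS h)).1]
    exact (sum_le_card_nsmul _ _ z fun _ h => (mem_sp.1 (hS h)).2.2).trans
      (Nat.mul_le_mul_right _ hc)
  · obtain ⟨r, hr, hd⟩ := (hp.prime.dvd_finsetProd_iff _).1 hd
    exact (natDegree_le_of_dvd hd (mem_sp.1 (hS hr)).1.ne_zero).trans (mem_sp.1 (hS hr)).2.2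

theorem card_bset (z m : ℕ) : (#(bset k z m) : ℝ) ≤ qq k ^ (2 * m * z + 1) := by
  refine le_trans ?_ (card_mle _)
  exact_mod_cast card_le_card fun e he => mem_mle.2 ⟨(bset_spec he).1, (bset_spec he).2.2.1⟩

theorem brun_eq_sum (z m : ℕ) (f : k[X]) : brun z m f =
    ∑ S ∈ {p ∈ sp k z | p ∣ f}.powerset, if #S ≤ 2 * m then (-1 : ℝ) ^ #S else 0 := by
  unfold brun bset
  rw [sum_image fun S hS T hT h => br_inj (mem_powerset.1 (mem_filter.1 hS).1)
    (mem_powerset.1 (mem_filter.1 hT).1) h, ← sum_filter, ← sum_filter]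
  refine sum_congr ?_ fun S hS => br_lam (z := z) fun p hp =>
    (mem_filter.1 (mem_powerset.1 (mem_filter.1 hS).1 hp)).1
  ext S
  simp only [mem_filter, mem_powerset]
  refine ⟨fun ⟨⟨h1, h2⟩, h3⟩ => ⟨fun p hp => mem_filter.2 ⟨h1 hp, (br_prod_dvd h1 f).1 h3 p hp⟩,
    h2⟩, fun ⟨h1, h2⟩ => ?_⟩
  have h3 : S ⊆ sp k z := fun p hp => (mem_filter.1 (h1 hp)).1
  exact ⟨⟨h3, h2⟩, (br_prod_dvd h3 f).2 fun p hp => (mem_filter.1 (h1 hp)).2⟩

theorem br_alt (w M : ℕ) : ∑ l ∈ range (w + 1 + 1),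
    (w + 1).choose l • (if l ≤ M then (-1 : ℝ) ^ l else 0) = (-1) ^ M * w.choose M := by
  have h := Int.alternating_sum_range_choose_eq_choose (n := w) (m := M)
  have h' : ∑ l ∈ range (M + 1), (-1 : ℝ) ^ l * (w + 1).choose l = (-1) ^ M * w.choose M := by
    exact_mod_cast h
  rw [← h']
  have e1 : ∑ l ∈ range (w + 1 + 1), (w + 1).choose l • (if l ≤ M then (-1 : ℝ) ^ l else 0) =
      ∑ l ∈ range (w + 1 + 1 + (M + 1)), (w + 1).choose l • (if l ≤ M then (-1 : ℝ) ^ l else 0) :=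
    sum_subset (range_mono (by omega)) fun l _ hl => by
      rw [Nat.choose_eq_zero_of_lt (by rw [mem_range] at hl; omega), zero_smul]
  rw [e1]
  refine (sum_subset (range_mono (by omega)) fun l _ hl => ?_).symm.trans
    (sum_congr rfl fun l hl => ?_)
  · rw [if_neg (by rw [mem_range] at hl; omega), smul_zero]
  · rw [if_pos (by rw [mem_range] at hl; omega), nsmul_eq_mul, mul_comm]

theorem two_pow_le_nd {z : ℕ} {f : k[X]} (hf : f ≠ 0) :
    (2 : ℝ) ^ #{p ∈ sp k z | p ∣ f} ≤ nd f := by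
  have h : #({p ∈ sp k z | p ∣ f}.powerset) ≤ #(dv f) := by
    have hs : ∀ S ∈ {p ∈ sp k z | p ∣ f}.powerset, S ⊆ sp k z := fun S hS p hp =>
      (mem_filter.1 (mem_powerset.1 hS hp)).1
    refine card_le_card_of_injOn (fun S => ∏ r ∈ S, r) (fun S hS => ?_)
      fun S hS T hT h => br_inj (hs S hS) (hs T hT) h
    exact (mem_dv hf).2 ⟨br_monic (hs S hS), (br_prod_dvd (hs S hS) f).2 fun p hp =>
      (mem_filter.1 (mem_powerset.1 hS hp)).2⟩
  rw [card_powerset] at h
  unfold nd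
  exact_mod_cast h

theorem brun_of_rough {z : ℕ} (m : ℕ) {f : k[X]} (h : Rough z f) : brun z m f = 1 := by
  rw [brun_eq_sum, filter_eq_empty_iff.2 (rough_iff.1 h)]
  simp

theorem brun_of_not {z : ℕ} (m : ℕ) {f : k[X]} (h : ¬ Rough z f) :
    ∃ w, #{p ∈ sp k z | p ∣ f} = w + 1 ∧ brun z m f = w.choose (2 * m) := by
  have h0 : #{p ∈ sp k z | p ∣ f} ≠ 0 := fun e =>
    h (rough_iff.2 (filter_eq_empty_iff.1 (card_eq_zero.1 e)))
  obtain ⟨w, hw⟩ := Nat.exists_eq_succ_of_ne_zero h0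
  refine ⟨w, hw, ?_⟩
  rw [brun_eq_sum, sum_powerset_apply_card fun l => if l ≤ 2 * m then (-1 : ℝ) ^ l else 0, hw,
    br_alt, pow_mul]
  simp

theorem brun_ge (z m : ℕ) (f : k[X]) : (if Rough z f then (1 : ℝ) else 0) ≤ brun z m f := by
  split_ifs with h
  · exact (brun_of_rough m h).ge
  · obtain ⟨w, -, e⟩ := brun_of_not m h
    rw [e]; positivity

theorem brun_nonneg (z m : ℕ) (f : k[X]) : 0 ≤ brun z m f :=
  le_trans (by split_ifs <;> norm_num) (brun_ge z m f)

theorem brun_le_nd (z m : ℕ) {f : k[X]} (hf : f ≠ 0) : brun z m f ≤ nd f := by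
  by_cases h : Rough z f
  · rw [brun_of_rough m h]; exact one_le_nd f
  · obtain ⟨w, hw, e⟩ := brun_of_not m h
    refine le_trans ?_ (two_pow_le_nd (z := z) hf)
    rw [e, hw]
    exact_mod_cast (Nat.choose_le_two_pow w _).trans (Nat.pow_le_pow_right two_pos (by omega))

/-- The pointwise error of Brun's weight. -/
theorem brun_sub_le (z m : ℕ) {f : k[X]} (hf : f ≠ 0) :
    brun z m f - (if Rough z f then (1 : ℝ) else 0) ≤ nd f ^ 2 / 4 ^ m := by
  split_ifs with h
  · rw [brun_of_rough m h, sub_self]; positivity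
  · obtain ⟨w, hw, e⟩ := brun_of_not m h
    have h1 := two_pow_le_nd (z := z) hf
    rw [e, sub_zero, le_div_iff₀ (by positivity)]
    rw [hw] at h1
    rcases lt_or_ge w (2 * m) with l | l
    · rw [Nat.choose_eq_zero_of_lt l]; simp only [Nat.cast_zero, zero_mul]; positivity
    · have a1 : (w.choose (2 * m) : ℝ) ≤ 2 ^ (w + 1) := by
        exact_mod_cast (Nat.choose_le_two_pow w _).trans (Nat.pow_le_pow_right two_pos (by omega))
      have a2 : (4 : ℝ) ^ m ≤ 2 ^ (w + 1) := by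
        rw [show (4 : ℝ) = 2 ^ 2 by norm_num, ← pow_mul]
        exact pow_le_pow_right₀ one_le_two (by omega)
      calc _ ≤ (2 : ℝ) ^ (w + 1) * 2 ^ (w + 1) := by gcongr
        _ ≤ nd f * nd f := mul_le_mul h1 h1 (by positivity) (nd_nonneg f)
        _ = _ := (sq _).symm

theorem abs_brun_sub_le (z m : ℕ) {f : k[X]} (hf : f ≠ 0) :
    |brun z m f - (if Rough z f then (1 : ℝ) else 0)| ≤ nd f ^ 2 / 4 ^ m := by
  rw [abs_of_nonneg (sub_nonneg.2 (brun_ge z m f))]
  exact brun_sub_le z m hf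

omit [Fintype k] in
theorem id_rough_prime {z : ℕ} {f : k[X]} (hf : Irreducible f) (hz : z < f.natDegree) :
    Rough z f := by
  intro p h2 h3
  have := (h2.associated_of_dvd hf h3)
  rw [natDegree_eq_of_degree_eq (degree_eq_degree_of_associated this)]
  exact hz

theorem id_dv_sub {p g : k[X]} (hp : p.Monic) (hi : Irreducible p) (hg : g ≠ 0) :
    dv (p * g) = dv g ∪ (dv g).image (fun a => p * a) := by
  ext a
  have h0 : p * g ≠ 0 := mul_ne_zero hp.ne_zero hg
  rw [mem_union, mem_image, mem_dv h0, mem_dv hg]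
  constructor
  · rintro ⟨h1, h2⟩
    by_cases h : p ∣ a
    · obtain ⟨a', rfl⟩ := h
      right
      refine ⟨a', (mem_dv hg).2 ⟨hp.of_mul_monic_left h1, ?_⟩, rfl⟩
      exact (mul_dvd_mul_iff_left hp.ne_zero).1 h2
    · left
      exact ⟨h1, ((hi.coprime_iff_not_dvd.2 h).symm).dvd_of_dvd_mul_left h2⟩
  · rintro (⟨h1, h2⟩ | ⟨a', h1, rfl⟩)
    · exact ⟨h1, h2.mul_left _⟩
    · have h2 := (mem_dv hg).1 h1
      exact ⟨hp.mul h2.1, mul_dvd_mul_left _ h2.2⟩

theorem id_sum_split {p g : k[X]} (hp : p.Monic) (hi : Irreducible p) (hg : g ≠ 0)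
    (hn : ¬ p ∣ g) (G : k[X] → ℝ) :
    ∑ a ∈ dv (p * g), G a = ∑ a ∈ dv g, G a + ∑ a ∈ dv g, G (p * a) := by
  rw [id_dv_sub hp hi hg, sum_union, sum_image]
  · intro a _ b _ h
    exact mul_left_cancel₀ hp.ne_zero h
  · rw [disjoint_left]
    intro a h1 h2
    obtain ⟨a', _, rfl⟩ := mem_image.1 h2
    exact hn ((dvd_mul_right p a').trans ((mem_dv hg).1 h1).2)

omit [Fintype k] in
theorem id_lam_prime {p : k[X]} (hi : Irreducible p) : lam p = -1 := by
  unfold lam
  rw [UniqueFactorizationMonoid.card_factors_of_irreducible hi]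
  simp

omit [Fintype k] in
theorem id_lam_one : lam (1 : k[X]) = 1 := by
  unfold lam
  simp

omit [Fintype k] in
theorem id_fac {f : k[X]} (hf : f.Monic) (h1 : f ≠ 1) :
    ∃ p g : k[X], p.Monic ∧ Irreducible p ∧ g.Monic ∧ f = p * g := by
  have hu : ¬ IsUnit f := fun h => h1 (hf.eq_one_of_isUnit h)
  obtain ⟨p, hp, hi, g, rfl⟩ := exists_monic_irreducible_factor f hu
  exact ⟨p, g, hp, hi, hp.of_mul_monic_left hf, rfl⟩

theorem id_dv_one : dv (1 : k[X]) = {1} := by
  ext a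
  rw [mem_dv one_ne_zero, mem_singleton]
  exact ⟨fun h => h.1.eq_one_of_isUnit (isUnit_of_dvd_one h.2), fun h => by simp [h]⟩

theorem id_S0 {f : k[X]} (hf : f.Monic) (hs : Squarefree f) (h1 : f ≠ 1) :
    ∑ a ∈ dv f, lam a = 0 := by
  obtain ⟨p, g, hp, hi, hg, rfl⟩ := id_fac hf h1
  have hn : ¬ p ∣ g := fun h => hi.not_isUnit (hs p (mul_dvd_mul_left p h))
  rw [id_sum_split hp hi hg.ne_zero hn, ← sum_add_distrib]
  refine sum_eq_zero fun a ha => ?_
  rw [lam_mul hp.ne_zero ((mem_dv hg.ne_zero).1 ha).1.ne_zero, id_lam_prime hi]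
  ring

theorem id_S1 {f : k[X]} (hf : f.Monic) (hs : Squarefree f) (h1 : f ≠ 1) :
    ∑ a ∈ dv f, lam a * (a.natDegree : ℝ) =
      if Irreducible f then -(f.natDegree : ℝ) else 0 := by
  obtain ⟨p, g, hp, hi, hg, rfl⟩ := id_fac hf h1
  have hn : ¬ p ∣ g := fun h => hi.not_isUnit (hs p (mul_dvd_mul_left p h))
  rw [id_sum_split hp hi hg.ne_zero hn, ← sum_add_distrib]
  have e : ∑ a ∈ dv g, (lam a * (a.natDegree : ℝ) + lam (p * a) * ((p * a).natDegree : ℝ)) =
      -(p.natDegree : ℝ) * ∑ a ∈ dv g, lam a := by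
    rw [mul_sum]
    refine sum_congr rfl fun a ha => ?_
    have h2 := ((mem_dv hg.ne_zero).1 ha).1
    rw [lam_mul hp.ne_zero h2.ne_zero, id_lam_prime hi, hp.natDegree_mul h2]
    push_cast
    ring
  rw [e]
  by_cases h : g = 1
  · subst h
    rw [id_dv_one, sum_singleton, id_lam_one, mul_one, mul_one, if_pos hi]
  · rw [id_S0 hg (Squarefree.of_mul_right hs) h, mul_zero, if_neg]
    intro h2
    rcases h2.isUnit_or_isUnit rfl with h3 | h3
    · exact hi.not_isUnit h3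
    · exact h (hg.eq_one_of_isUnit h3)

theorem id_card_dv (z : ℕ) : ∀ (n : ℕ) (f : k[X]), f.natDegree = n → f.Monic → Rough z f →
    #(dv f) ≤ 2 ^ (n / (z + 1)) := by
  intro n
  induction n using Nat.strong_induction_on with
  | _ n ih =>
    intro f hn hf hr
    by_cases h1 : f = 1
    · subst h1
      rw [id_dv_one, card_singleton]
      exact Nat.one_le_two_pow
    · obtain ⟨p, g, hp, hi, hg, rfl⟩ := id_fac hf h1
      have h2 := hr p hi (dvd_mul_right _ _)
      rw [hp.natDegree_mul hg] at hn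
      have h3 := ih g.natDegree (by omega) g rfl hg (rough_mul.1 hr).2
      have h4 : g.natDegree / (z + 1) + 1 ≤ n / (z + 1) := by
        rw [← Nat.add_div_right _ (Nat.succ_pos z)]
        exact Nat.div_le_div_right (by omega)
      rw [id_dv_sub hp hi hg.ne_zero]
      calc _ ≤ #(dv g) + #((dv g).image fun a => p * a) := card_union_le _ _
        _ ≤ #(dv g) + #(dv g) := Nat.add_le_add_left card_image_le _
        _ ≤ 2 ^ (g.natDegree / (z + 1) + 1) := by rw [pow_succ]; omega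
        _ ≤ _ := Nat.pow_le_pow_right (by norm_num) h4

/-- Factorisations of `f` by degrees are the monic divisors. -/
theorem id_pairs {n : ℕ} {f : k[X]} (hf : f ∈ mon k n) (G : k[X] → ℕ → ℝ) :
    ∑ i ∈ range (n + 1), ∑ a ∈ mon k (n - i), ∑ b ∈ mon k i, (if a * b = f then G a i else 0) =
      ∑ a ∈ dv f, G a (n - a.natDegree) := by
  have h := mem_mon.1 hf
  have e1 : ∀ i ∈ range (n + 1), ∑ a ∈ mon k (n - i), ∑ b ∈ mon k i,
      (if a * b = f then G a i else 0) =
      ∑ a ∈ dv f, if n - a.natDegree = i then G a (n - a.natDegree) else 0 := by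
    intro i hi
    have hi' := mem_range.1 hi
    rw [← sum_filter]
    have e2 : ∀ a ∈ mon k (n - i), ∑ b ∈ mon k i, (if a * b = f then G a i else 0) =
        if a ∣ f then G a i else 0 := by
      intro a ha
      have h2 := mem_mon.1 ha
      split_ifs with h3
      · obtain ⟨b, rfl⟩ := h3
        have hb := h2.1.of_mul_monic_left h.1
        have hd := h.2
        rw [h2.1.natDegree_mul hb, h2.2] at hd
        rw [sum_eq_single b, if_pos rfl]
        · intro b' _ hb'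
          rw [if_neg fun h4 => hb' (mul_left_cancel₀ h2.1.ne_zero h4)]
        · intro h4
          exact absurd (mem_mon.2 ⟨hb, by omega⟩) h4
      · exact sum_eq_zero fun b _ => if_neg fun h4 => h3 ⟨b, h4.symm⟩
    rw [sum_congr rfl e2, ← sum_filter]
    refine sum_congr ?_ fun a ha => by rw [(mem_filter.1 ha).2]
    ext a
    rw [mem_filter, mem_filter, mem_mon, mem_dv h.1.ne_zero]
    constructor
    · rintro ⟨⟨h1, h2⟩, h3⟩
      exact ⟨⟨h1, h3⟩, by omega⟩
    · rintro ⟨⟨h1, h3⟩, h2⟩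
      have := natDegree_le_of_dvd h3 h.1.ne_zero
      exact ⟨⟨h1, by omega⟩, h3⟩
  rw [sum_congr rfl e1, sum_comm]
  refine sum_congr rfl fun a _ => ?_
  rw [sum_ite_eq, if_pos (mem_range.2 (by omega))]

omit [Fintype k] in
theorem id_big {z : ℕ} {f : k[X]} (rf : Rough z f) (h : ¬ Squarefree f) :
    Big (z + 1) f := by
  unfold Squarefree at h
  push Not at h
  obtain ⟨x, h1, h2⟩ := h
  obtain ⟨p, hp, hi, h3⟩ := exists_monic_irreducible_factor x h2
  have h4 : p * p ∣ f := (mul_dvd_mul h3 h3).trans h1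
  exact ⟨p, hp, rf p hi ((dvd_mul_right p p).trans h4), by rwa [sq]⟩

theorem id_sum_big (n L : ℕ) :
    ∑ f ∈ mon k n, (if Big L f then (1 : ℝ) else 0) ≤ 2 * qq k ^ n / qq k ^ L := by
  have h := exp_big (k := k) n L
  have h2 := two_le_qq (k := k)
  rw [expect_eq_sum_div_card, card_mon, div_le_iff₀ (by positivity)] at h
  refine h.trans (le_of_eq ?_)
  ring

/-- The indicator of `Rough`. -/
def rho (z : ℕ) (f : k[X]) : ℝ := if Rough z f then 1 else 0

/-- The Moebius function. -/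
def mu (f : k[X]) : ℝ := if Squarefree f then lam f else 0

variable (k) in
/-- The normalised Moebius sum over rough polynomials of degree `i`. -/
def mm (z i : ℕ) : ℝ := (∑ a ∈ mon k i, rho z a * mu a) / qq k ^ i

theorem fr_prs_le (e : ℕ) : (e : ℝ) * #(prs k e) ≤ qq k ^ e := by
  rcases Nat.eq_zero_or_pos e with rfl | he
  · simp
  have h1 : 1 < Fintype.card k := Fintype.one_lt_card
  have hd := FiniteField.X_pow_card_pow_sub_X_natDegree_eq k he.ne' h1
  have hm : (X ^ Fintype.card k ^ e - X : k[X]).Monic := monic_X_pow_sub (by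
    rw [degree_X]; exact_mod_cast Nat.one_lt_pow he.ne' h1)
  have hS : ∀ p ∈ prs k e, p.Monic ∧ p.natDegree = e ∧ Irreducible p := fun p hp =>
    ⟨(mem_mon.1 (mem_filter.1 hp).1).1, (mem_mon.1 (mem_filter.1 hp).1).2, (mem_filter.1 hp).2⟩
  have h3 : ∏ p ∈ prs k e, p ∣ X ^ Fintype.card k ^ e - X := by
    refine Finset.prod_dvd_of_coprime (fun a ha b hb hab => ?_) fun a ha => ?_
    · exact (hS a ha).2.2.coprime_iff_not_dvd.2 fun hd => hab (eq_of_monic_of_associated
        (hS a ha).1 (hS b hb).1 ((hS a ha).2.2.associated_of_dvd (hS b hb).2.2 hd))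
    · rw [← Nat.card_eq_fintype_card,
        ← (hS a ha).2.2.natDegree_dvd_iff_dvd_X_pow_card_pow_sub_X, (hS a ha).2.1]
  have h4 := natDegree_le_of_dvd h3 hm.ne_zero
  rw [natDegree_prod_of_monic _ _ fun p hp => (hS p hp).1, hd,
    sum_congr rfl fun p hp => (hS p hp).2.1, sum_const, smul_eq_mul, mul_comm] at h4
  unfold qq
  exact_mod_cast h4

/-- All prime factors of `f` have their degree in `Q`. -/
def FrQ (Q : ℕ → Prop) (f : k[X]) : Prop :=
  ∀ p : k[X], p.Monic → Irreducible p → p ∣ f → Q p.natDegree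

/-- The density of such polynomials in degree `j`. -/
def frD (k : Type*) [Field k] [Fintype k] (Q : ℕ → Prop) (j : ℕ) : ℝ :=
  #{f ∈ mon k j | FrQ Q f} / qq k ^ j

theorem fr_q : 0 < qq k := by have := two_le_qq (k := k); linarith

theorem frD_nonneg (Q : ℕ → Prop) (j : ℕ) : 0 ≤ frD k Q j :=
  div_nonneg (Nat.cast_nonneg _) (pow_pos fr_q _).le

theorem frD_le (Q : ℕ → Prop) (j : ℕ) : frD k Q j ≤ 1 := by
  rw [frD, div_le_one (pow_pos fr_q _), ← card_mon]
  exact_mod_cast card_filter_le _ _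

theorem fr_deg (j : ℕ) : ∀ f : k[X], f.Monic → f.natDegree ≤ j → (f.natDegree : ℝ) ≤
    ∑ d ∈ Icc 1 j, ∑ e ∈ Icc 1 j, ∑ p ∈ prs k d, if p ^ e ∣ f then (d : ℝ) else 0 := by
  intro f hf hj
  have h0 := hf.ne_zero
  have h1 : f.natDegree = ∑ p ∈ (UniqueFactorizationMonoid.normalizedFactors f).toFinset,
      (UniqueFactorizationMonoid.normalizedFactors f).count p * p.natDegree := by
    conv_lhs => rw [← hf.normalize_eq_self, ← UniqueFactorizationMonoid.prod_normalizedFactors_eq h0]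
    rw [natDegree_multiset_prod_of_monic _ fun p hp =>
      ((Polynomial.mem_normalizedFactors_iff h0).1 hp).2.1, Finset.sum_multiset_map_count]
    rfl
  set s := UniqueFactorizationMonoid.normalizedFactors f with hs
  have h2 : ∀ p ∈ s.toFinset, Irreducible p ∧ p.Monic ∧ p ∣ f := fun p hp =>
    (Polynomial.mem_normalizedFactors_iff h0).1 (Multiset.mem_toFinset.1 hp)
  have h3 : ∀ p ∈ s.toFinset, p ^ s.count p ∣ f := fun p hp => by
    have := Multiset.prod_dvd_prod_of_le (Multiset.le_count_iff_replicate_le.1 (le_refl (s.count p)))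
    rwa [Multiset.prod_replicate, hs, UniqueFactorizationMonoid.prod_normalizedFactors_eq h0,
      hf.normalize_eq_self] at this
  have h4 : ∀ p ∈ s.toFinset, ((s.count p * p.natDegree : ℕ) : ℝ) ≤
      ∑ e ∈ Icc 1 j, if p ^ e ∣ f then (p.natDegree : ℝ) else 0 := fun p hp => by
    have a1 := natDegree_le_of_dvd (h3 p hp) h0
    rw [natDegree_pow] at a1
    have a2 := Nat.mul_le_mul_left (s.count p) (h2 p hp).1.natDegree_pos
    rw [← sum_filter, sum_const, nsmul_eq_mul, Nat.cast_mul]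
    refine mul_le_mul_of_nonneg_right ?_ (Nat.cast_nonneg _)
    have : Icc 1 (s.count p) ⊆ {e ∈ Icc 1 j | p ^ e ∣ f} := fun e he => by
      have := mem_Icc.1 he
      exact mem_filter.2 ⟨mem_Icc.2 ⟨this.1, by omega⟩, (pow_dvd_pow p this.2).trans (h3 p hp)⟩
    have := card_le_card this
    rw [Nat.card_Icc] at this
    exact_mod_cast this
  rw [h1, Nat.cast_sum]
  refine (sum_le_sum h4).trans ?_
  rw [← sum_fiberwise_of_maps_to (s := s.toFinset) (t := Icc 1 j) (g := natDegree) fun p hp =>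
    mem_Icc.2 ⟨(h2 p hp).1.natDegree_pos, (natDegree_le_of_dvd (h2 p hp).2.2 h0).trans hj⟩]
  refine sum_le_sum fun d _ => ?_
  rw [sum_comm (s := Icc 1 j)]
  refine le_trans (le_of_eq (sum_congr rfl fun p hp => by rw [(mem_filter.1 hp).2]))
    (sum_le_sum_of_subset_of_nonneg (fun p hp => ?_) fun _ _ _ =>
      sum_nonneg fun _ _ => by split_ifs <;> positivity)
  have := mem_filter.1 hp
  exact mem_filter.2 ⟨mem_mon.2 ⟨(h2 p this.1).2.1, this.2⟩, (h2 p this.1).1⟩

theorem fr_div (Q : ℕ → Prop) (j : ℕ) {g : k[X]} (hg : g.Monic) :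
    (#{f ∈ {f ∈ mon k j | FrQ Q f} | g ∣ f} : ℝ) ≤ if g.natDegree ≤ j then
      frD k Q (j - g.natDegree) * qq k ^ (j - g.natDegree) else 0 := by
  have key : ∀ f ∈ {f ∈ {f ∈ mon k j | FrQ Q f} | g ∣ f}, g.natDegree ≤ j ∧
      f ∈ ({f ∈ mon k (j - g.natDegree) | FrQ Q f} : Finset k[X]).image (g * ·) := by
    intro f hf
    obtain ⟨h1, c, rfl⟩ := mem_filter.1 hf
    obtain ⟨h2, h3⟩ := mem_filter.1 h1
    obtain ⟨h4, h5⟩ := mem_mon.1 h2
    have h6 := hg.of_mul_monic_left h4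
    rw [hg.natDegree_mul h6] at h5
    exact ⟨by omega, mem_image.2 ⟨c, mem_filter.2 ⟨mem_mon.2 ⟨h6, by omega⟩,
      fun p a1 a2 a3 => h3 p a1 a2 (a3.mul_left _)⟩, rfl⟩⟩
  split_ifs with h
  · rw [frD, div_mul_cancel₀ _ (pow_pos fr_q _).ne']
    exact_mod_cast (card_le_card fun f hf => (key f hf).2).trans card_image_le
  · rw [eq_empty_of_forall_notMem fun f hf => h (key f hf).1]
    simp

/-- the recursion of Hall and Tenenbaum -/
theorem fr_rec (Q : ℕ → Prop) (j : ℕ) : j * frD k Q j ≤ ∑ d ∈ Icc 1 j, ∑ e ∈ Icc 1 j,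
    if Q d ∧ e * d ≤ j then (1 / 2) ^ ((e - 1) * d) * frD k Q (j - e * d) else 0 := by
  have hq := pow_pos (fr_q (k := k)) j
  rw [frD, ← mul_div_assoc, div_le_iff₀ hq, mul_comm (j : ℝ), ← nsmul_eq_mul, ← sum_const]
  refine (sum_le_sum (g := fun f => ∑ d ∈ Icc 1 j, ∑ e ∈ Icc 1 j, ∑ p ∈ prs k d,
    if p ^ e ∣ f then (d : ℝ) else 0) fun f hf => ?_).trans ?_
  · have := mem_mon.1 (mem_filter.1 hf).1
    exact this.2 ▸ fr_deg _ f this.1 le_rfl
  rw [sum_comm, sum_mul]
  refine sum_le_sum fun d hd => ?_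
  rw [sum_comm, sum_mul]
  refine sum_le_sum fun e he => ?_
  rw [sum_comm]
  have he1 := (mem_Icc.1 he).1
  have h1 : ∀ p ∈ prs k d, ∑ f ∈ {f ∈ mon k j | FrQ Q f}, (if p ^ e ∣ f then (d : ℝ) else 0) ≤
      d * if Q d ∧ e * d ≤ j then frD k Q (j - e * d) * qq k ^ (j - e * d) else 0 := by
    intro p hp
    obtain ⟨a1, a2⟩ := mem_filter.1 hp
    obtain ⟨a3, a4⟩ := mem_mon.1 a1
    rw [← sum_filter, sum_const, nsmul_eq_mul, mul_comm]
    refine mul_le_mul_of_nonneg_left ?_ (Nat.cast_nonneg _)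
    by_cases hQ : Q d
    · have := fr_div Q j (a3.pow (n := e))
      rw [natDegree_pow, a4] at this
      simpa only [hQ, true_and] using this
    · have : {f ∈ {f ∈ mon k j | FrQ Q f} | p ^ e ∣ f} = ∅ :=
        eq_empty_of_forall_notMem fun f hf => hQ (by
          obtain ⟨b1, b2⟩ := mem_filter.1 hf
          exact a4 ▸ (mem_filter.1 b1).2 p a3 a2 ((dvd_pow_self p (by omega)).trans b2))
      rw [if_neg fun h => hQ h.1, this]
      simp
  refine (sum_le_sum h1).trans ?_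
  rw [sum_const, nsmul_eq_mul, ← mul_assoc, mul_comm (#(prs k d) : ℝ)]
  split_ifs with h
  · have h2 := frD_nonneg (k := k) Q (j - e * d)
    have h3 : j = d + (j - e * d) + (e - 1) * d := by
      obtain ⟨e, rfl⟩ : ∃ e', e = e' + 1 := ⟨e - 1, by omega⟩
      have := h.2
      rw [add_mul] at this ⊢
      simp only [add_tsub_cancel_right]
      omega
    have h4 : 1 ≤ (1 / 2) ^ ((e - 1) * d) * qq k ^ ((e - 1) * d) := by
      rw [← mul_pow]
      exact one_le_pow₀ (by have := two_le_qq (k := k); linarith)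
    have h5 := pow_pos (fr_q (k := k)) (j - e * d)
    have h6 := pow_pos (fr_q (k := k)) d
    calc _ ≤ qq k ^ d * (frD k Q (j - e * d) * qq k ^ (j - e * d)) * 1 := by
          rw [mul_one]
          exact mul_le_mul_of_nonneg_right (fr_prs_le d) (by positivity)
      _ ≤ qq k ^ d * (frD k Q (j - e * d) * qq k ^ (j - e * d)) *
          ((1 / 2) ^ ((e - 1) * d) * qq k ^ ((e - 1) * d)) :=
          mul_le_mul_of_nonneg_left h4 (by positivity)
      _ = _ := by
          conv_rhs => rw [show qq k ^ j = qq k ^ (d + (j - e * d) + (e - 1) * d) by rw [← h3]]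
          ring
  · simp

theorem fr_one (Q : ℕ → Prop) (j : ℕ) (h : ∀ d, 1 ≤ d → d ≤ j → Q d) : frD k Q j = 1 := by
  rw [frD, filter_true_of_mem fun f hf p _ a2 a3 => h _ a2.natDegree_pos
    ((mem_mon.1 hf).2 ▸ natDegree_le_of_dvd a3 (mem_mon.1 hf).1.ne_zero), card_mon,
    div_self (pow_pos fr_q _).ne']

theorem fr_geo (M : ℕ) : ∑ e ∈ Icc 1 M, (3 / 4 : ℝ) ^ (e - 1) ≤ 4 := by
  have : ∑ e ∈ Icc 1 M, (3 / 4 : ℝ) ^ (e - 1) = 4 - 4 * (3 / 4) ^ M := by
    induction M with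
    | zero => simp
    | succ M ih => rw [sum_Icc_succ_top (by omega), ih, pow_succ, add_tsub_cancel_right]; ring
  rw [this]
  have : (0 : ℝ) ≤ (3 / 4) ^ M := by positivity
  linarith

theorem fr_rankin0 (Q : ℕ → Prop) (z : ℕ) (hQ : ∀ d, Q d → d ≤ z) (s : ℝ) (h1 : 2 / 3 ≤ s)
    (h2 : s ≤ 1) (h3 : 1 / 2 ≤ s ^ z) (j : ℕ) : frD k Q j ≤ 256 * s ^ j := by
  have hs : 0 < s := by linarith
  induction j using Nat.strong_induction_on with
  | _ j ih =>
  by_cases hj : j ≤ 8 * z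
  · have a1 : s ^ (z * 8) ≤ s ^ j := pow_le_pow_of_le_one hs.le h2 (by omega)
    have a2 : (1 / 2 : ℝ) ^ 8 ≤ (s ^ z) ^ 8 := pow_le_pow_left₀ (by norm_num) h3 8
    rw [← pow_mul] at a2
    have := frD_le (k := k) Q j
    linarith
  · have hB : 0 < 256 * s ^ j := by positivity
    have a1 : j * frD k Q j ≤ ∑ d ∈ Icc 1 j, if d ≤ z then 8 * (256 * s ^ j) else 0 := by
      refine (fr_rec Q j).trans (sum_le_sum fun d hd => ?_)
      have hd1 := (mem_Icc.1 hd).1
      by_cases hq : Q d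
      · rw [if_pos (hQ d hq)]
        refine (sum_le_sum (g := fun e => (3 / 4 : ℝ) ^ (e - 1) * (2 * (256 * s ^ j)))
          fun e he => ?_).trans ?_
        · obtain ⟨e, rfl⟩ : ∃ e', e = e' + 1 := ⟨e - 1, by have := mem_Icc.1 he; omega⟩
          rw [add_tsub_cancel_right]
          split_ifs with h
          · have b0 := h.2
            rw [add_mul, one_mul] at b0 ⊢
            have b1 := ih (j - (e * d + d)) (by omega)
            have b2 : 1 / 2 ≤ s ^ d := h3.trans (pow_le_pow_of_le_one hs.le h2 (hQ d hq))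
            have b3 : (1 / 2 : ℝ) ^ (e * d) ≤ (3 / 4) ^ e * s ^ (e * d) := by
              calc (1 / 2 : ℝ) ^ (e * d) = (3 / 4) ^ (e * d) * (2 / 3) ^ (e * d) := by
                    rw [← mul_pow]; norm_num
                _ ≤ _ := mul_le_mul (pow_le_pow_of_le_one (by norm_num) (by norm_num)
                    (Nat.le_mul_of_pos_right e hd1)) (pow_le_pow_left₀ (by norm_num) h1 _)
                    (by positivity) (by positivity)
            have b4 : s ^ j = s ^ (e * d) * s ^ d * s ^ (j - (e * d + d)) := by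
              rw [← pow_add, ← pow_add]; congr 1; omega
            calc _ ≤ (3 / 4) ^ e * s ^ (e * d) * (256 * s ^ (j - (e * d + d))) * 1 := by
                  rw [mul_one]
                  exact mul_le_mul b3 b1 (frD_nonneg _ _) (by positivity)
              _ ≤ (3 / 4) ^ e * s ^ (e * d) * (256 * s ^ (j - (e * d + d))) * (2 * s ^ d) :=
                  mul_le_mul_of_nonneg_left (by linarith) (by positivity)
              _ = _ := by rw [b4]; ring
          · positivity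
        · rw [← sum_mul]
          have := fr_geo j
          nlinarith
      · rw [sum_eq_zero fun e _ => if_neg fun h => hq h.1]
        split_ifs <;> positivity
    rw [← sum_filter, sum_const, nsmul_eq_mul] at a1
    have a2 : (#{d ∈ Icc 1 j | d ≤ z} : ℝ) ≤ z := by
      have : {d ∈ Icc 1 j | d ≤ z} ⊆ Icc 1 z := fun d hd =>
        mem_Icc.2 ⟨(mem_Icc.1 (mem_filter.1 hd).1).1, (mem_filter.1 hd).2⟩
      have := card_le_card this
      rw [Nat.card_Icc] at this
      exact_mod_cast this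
    have a3 : (8 * z : ℝ) < j := by exact_mod_cast not_le.1 hj
    have a4 : (0 : ℝ) ≤ z := Nat.cast_nonneg _
    have a5 : j * frD k Q j ≤ j * (256 * s ^ j) := by nlinarith
    exact le_of_mul_le_mul_left a5 (by linarith)

omit [Fintype k] in
theorem fr_mob (P R : ℕ → Prop) (h : ∀ d, R d ↔ ¬ P d) (f : k[X]) (D : Finset k[X])
    (hD : ∀ a, a ∈ D ↔ a.Monic ∧ a ∣ f ∧ FrQ R a) :
    ∑ a ∈ D, (UniqueFactorizationMonoid.moebius a : ℝ) = if FrQ P f then 1 else 0 := by
  rw [← Int.cast_sum]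
  split_ifs with hf
  · have : D = {1} := by
      ext a
      rw [hD, mem_singleton]
      refine ⟨fun ⟨h1, h2, h3⟩ => h1.isUnit_iff.1 ?_, fun e => ?_⟩
      · by_contra hu
        obtain ⟨p, pm, pi, pd⟩ := Polynomial.exists_monic_irreducible_factor a hu
        exact (h _).1 (h3 p pm pi pd) (hf p pm pi (pd.trans h2))
      · subst e
        exact ⟨monic_one, one_dvd _, fun p _ a2 a3 => (a2.not_isUnit (isUnit_of_dvd_one a3)).elim⟩
    rw [this, sum_singleton, UniqueFactorizationMonoid.moebius_one, Int.cast_one]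
  · obtain ⟨p, pm, pi, pd, pR⟩ : ∃ p : k[X], p.Monic ∧ Irreducible p ∧ p ∣ f ∧ R p.natDegree := by
      by_contra hc
      exact hf fun p a1 a2 a3 => by
        by_contra h'
        exact hc ⟨p, a1, a2, a3, (h _).2 h'⟩
    rw [← sum_filter_add_sum_filter_not D (fun d => p ∣ d),
      ← sum_filter_add_sum_filter_not (D.filter fun d => p ∣ d) (fun d => p * p ∣ d)]
    have a1 : ∑ d ∈ (D.filter fun d => p ∣ d).filter (fun d => p * p ∣ d),
        UniqueFactorizationMonoid.moebius d = 0 :=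
      sum_eq_zero fun d hd => UniqueFactorizationMonoid.moebius_of_not_squarefree fun s =>
        pi.not_isUnit (s p (mem_filter.1 hd).2)
    have a2 : ∑ d ∈ D.filter (fun d => ¬ p ∣ d), -UniqueFactorizationMonoid.moebius d
        = ∑ d ∈ (D.filter fun d => p ∣ d).filter (fun d => ¬ p * p ∣ d),
          UniqueFactorizationMonoid.moebius d := by
      refine sum_bij (fun d _ => p * d) ?_ ?_ ?_ ?_
      · intro d hd
        obtain ⟨h1, h2⟩ := mem_filter.1 hd
        obtain ⟨h3, h4, h5⟩ := (hD d).1 h1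
        refine mem_filter.2 ⟨mem_filter.2 ⟨(hD _).2 ⟨pm.mul h3, ?_, fun r r1 r2 r3 => ?_⟩,
          dvd_mul_right _ _⟩, ?_⟩
        · exact (pi.coprime_iff_not_dvd.2 h2).mul_dvd pd h4
        · rcases r2.prime.dvd_or_dvd r3 with e | e
          · rw [eq_of_monic_of_associated r1 pm (r2.associated_of_dvd pi e)]
            exact pR
          · exact h5 r r1 r2 e
        · exact fun h5 => h2 ((mul_dvd_mul_iff_left pi.ne_zero).1 h5)
      · intro a _ b _ hab
        exact mul_left_cancel₀ pi.ne_zero hab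
      · intro d hd
        obtain ⟨h1, h2⟩ := mem_filter.1 hd
        obtain ⟨h3, e, rfl⟩ := mem_filter.1 h1
        obtain ⟨h4, h5, h6⟩ := (hD _).1 h3
        exact ⟨e, mem_filter.2 ⟨(hD e).2 ⟨pm.of_mul_monic_left h4, (dvd_mul_left _ _).trans h5,
          fun r r1 r2 r3 => h6 r r1 r2 (r3.mul_left _)⟩,
          fun h7 => h2 (mul_dvd_mul_left p h7)⟩, rfl⟩
      · intro d hd
        rw [(pi.isRelPrime_iff_not_dvd.2 (mem_filter.1 hd).2).moebius_mul, pi.moebius_eq]
        ring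
    rw [a1, ← a2, sum_neg_distrib]
    push_cast
    ring

theorem fr_mult {a : k[X]} (ha : a.Monic) {N : ℕ} (h : a.natDegree ≤ N) :
    (#{f ∈ mon k N | a ∣ f} : ℝ) = qq k ^ (N - a.natDegree) := by
  rw [← card_mon, ← card_image_of_injective (mon k (N - a.natDegree))
    (mul_right_injective₀ ha.ne_zero)]
  congr 2
  ext f
  rw [mem_filter, mem_image]
  constructor
  · rintro ⟨h1, c, rfl⟩
    obtain ⟨h2, h3⟩ := mem_mon.1 h1
    have h4 := ha.of_mul_monic_left h2
    rw [ha.natDegree_mul h4] at h3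
    exact ⟨c, mem_mon.2 ⟨h4, by omega⟩, rfl⟩
  · rintro ⟨c, h1, rfl⟩
    obtain ⟨h2, h3⟩ := mem_mon.1 h1
    exact ⟨mem_mon.2 ⟨ha.mul h2, by rw [ha.natDegree_mul h2]; omega⟩, dvd_mul_right _ _⟩

/-- The mean of the Moebius function over polynomials with prime factors in `R`. -/
def frM (k : Type*) [Field k] [Fintype k] (R : ℕ → Prop) (i : ℕ) : ℝ :=
  (∑ a ∈ {a ∈ mon k i | FrQ R a}, (UniqueFactorizationMonoid.moebius a : ℝ)) / qq k ^ i

theorem fr_mi (P R : ℕ → Prop) (h : ∀ d, R d ↔ ¬ P d) (N : ℕ) :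
    ∑ i ∈ range (N + 1), frM k R i = frD k P N := by
  have hq := fr_q (k := k)
  have a1 : ∀ f ∈ mon k N, (if FrQ P f then (1 : ℝ) else 0) = ∑ i ∈ range (N + 1),
      ∑ a ∈ {a ∈ mon k i | FrQ R a}, if a ∣ f then (UniqueFactorizationMonoid.moebius a : ℝ) else 0 := by
    intro f hf
    obtain ⟨f1, f2⟩ := mem_mon.1 hf
    rw [← sum_biUnion (fun i _ j _ hij => disjoint_left.2 fun a a1 a2 => hij
      ((mem_mon.1 (mem_filter.1 a1).1).2.symm.trans (mem_mon.1 (mem_filter.1 a2).1).2)),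
      ← sum_filter]
    refine (fr_mob P R h f _ fun a => ?_).symm
    simp only [mem_filter, mem_biUnion, mem_range, mem_mon]
    refine ⟨fun ⟨⟨_, _, ⟨b1, _⟩, b2⟩, b3⟩ => ⟨b1, b3, b2⟩, fun ⟨b1, b2, b3⟩ =>
      ⟨⟨_, ?_, ⟨b1, rfl⟩, b3⟩, b2⟩⟩
    have := natDegree_le_of_dvd b2 f1.ne_zero
    omega
  rw [frD, card_filter, Nat.cast_sum]
  simp only [Nat.cast_ite, Nat.cast_one, Nat.cast_zero]
  rw [sum_congr rfl a1, sum_comm, sum_div]
  refine sum_congr rfl fun i hi => ?_
  have hi1 := mem_range.1 hi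
  rw [sum_comm, frM, div_eq_div_iff (by positivity) (by positivity), sum_mul, sum_mul]
  refine sum_congr rfl fun a ha => ?_
  obtain ⟨b1, b2⟩ := mem_mon.1 (mem_filter.1 ha).1
  rw [← sum_filter, sum_const, nsmul_eq_mul, fr_mult b1 (by omega), b2,
    show qq k ^ N = qq k ^ (N - i) * qq k ^ i by rw [← pow_add]; congr 1; omega]
  ring

theorem fr_mi_succ (P R : ℕ → Prop) (h : ∀ d, R d ↔ ¬ P d) (i : ℕ) :
    frM k R (i + 1) = frD k P (i + 1) - frD k P i := by
  rw [← fr_mi P R h, ← fr_mi P R h, sum_range_succ _ (i + 1)]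
  ring

theorem fr_mi_abs (P R : ℕ → Prop) (h : ∀ d, R d ↔ ¬ P d) (i : ℕ) : |frM k R i| ≤ 1 := by
  rcases i with _ | i
  · have := fr_mi (k := k) P R h 0
    rw [sum_range_one] at this
    rw [this, abs_of_nonneg (frD_nonneg _ _)]
    exact frD_le _ _
  · rw [fr_mi_succ P R h, abs_le]
    have := frD_nonneg (k := k) P i
    have := frD_nonneg (k := k) P (i + 1)
    have := frD_le (k := k) P i
    have := frD_le (k := k) P (i + 1)
    constructor <;> linarith

theorem fr_first (P R : ℕ → Prop) (h : ∀ d, R d ↔ ¬ P d) (N : ℕ) :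
    ∑ i ∈ range (N + 1), i * frM k R i = N * frD k P N - ∑ i ∈ range N, frD k P i := by
  induction N with
  | zero => simp
  | succ N ih =>
    rw [sum_range_succ, ih, sum_range_succ, fr_mi_succ P R h]
    push_cast
    ring

omit [Fintype k] in
theorem frQ_iff (Q : ℕ → Prop) (f : k[X]) :
    FrQ Q f ↔ ∀ p : k[X], Irreducible p → p ∣ f → Q p.natDegree := by
  refine ⟨fun h p h1 h2 => ?_, fun h p _ h1 h2 => h p h1 h2⟩
  have a := associated_normalize p
  rw [natDegree_eq_of_degree_eq (degree_eq_degree_of_associated a)]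
  exact h _ (monic_normalize h1.ne_zero) (a.irreducible h1) (a.symm.dvd.trans h2)

theorem psi_mm (z i : ℕ) : mm k z i = frM k (z < ·) i := by
  rw [mm, frM, sum_filter]
  congr 1
  refine sum_congr rfl fun a _ => ?_
  have e : mu a = (UniqueFactorizationMonoid.moebius a : ℝ) := by
    by_cases h : Squarefree a
    · rw [mu, if_pos h, h.moebius_eq, lam]
      push_cast
      rfl
    · rw [mu, if_neg h, UniqueFactorizationMonoid.moebius_of_not_squarefree h, Int.cast_zero]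
  rw [e, rho, ite_mul, one_mul, zero_mul]
  exact if_congr (frQ_iff (z < ·) a).symm rfl rfl

theorem psi_root {z : ℕ} (hz : 1 ≤ z) : ∃ s : ℝ, 2 / 3 ≤ s ∧ s ≤ 1 ∧
    (∀ j, frD k (· ≤ z) j ≤ 256 * s ^ j) ∧ ∀ j, s ^ j ≤ (1 / 2) ^ (j / (2 * z)) := by
  obtain ⟨s, s0, hs⟩ : ∃ s : ℝ, 0 ≤ s ∧ s ^ (2 * z) = 1 / 2 :=
    ⟨(1 / 2 : ℝ) ^ (((2 * z : ℕ) : ℝ)⁻¹), by positivity,
      Real.rpow_inv_natCast_pow (by norm_num) (by omega)⟩
  have s1 : s ≤ 1 := by
    by_contra h
    have := one_le_pow₀ (n := 2 * z) (not_le.1 h).le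
    linarith
  have s2 : 2 / 3 ≤ s := by
    by_contra h
    have := pow_le_pow_of_le_one s0 s1 (by omega : 2 ≤ 2 * z)
    nlinarith [not_le.1 h]
  refine ⟨s, s2, s1, fr_rankin0 _ z (fun _ h => h) s s2 s1
    (hs ▸ pow_le_pow_of_le_one s0 s1 (by omega)), fun j => ?_⟩
  rw [← hs, ← pow_mul]
  exact pow_le_pow_of_le_one s0 s1 (Nat.mul_div_le _ _)

theorem mm_abs_pf (z i : ℕ) : |mm k z i| ≤ 1 :=
  psi_mm (k := k) z i ▸ fr_mi_abs (· ≤ z) (z < ·) (fun _ => not_le.symm) i

theorem mm_tail_pf {z : ℕ} (hz : 1 ≤ z) (i : ℕ) :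
    |mm k z i| ≤ 2048 * (1 / 2) ^ (i / (2 * z)) := by
  rcases i with _ | i
  · have := mm_abs_pf (k := k) z 0
    rw [Nat.zero_div, pow_zero]
    linarith
  obtain ⟨s, s1, s2, s3, s4⟩ := psi_root (k := k) hz
  rw [psi_mm, fr_mi_succ (· ≤ z) (z < ·) fun _ => not_le.symm, abs_le]
  have := frD_nonneg (k := k) (· ≤ z) i
  have := frD_nonneg (k := k) (· ≤ z) (i + 1)
  have := s3 i
  have := s3 (i + 1)
  have := s4 (i + 1)
  have a : 0 ≤ s ^ i := pow_nonneg (by linarith) _
  have b : s ^ i * (2 / 3) ≤ s ^ (i + 1) := by rw [pow_succ]; exact mul_le_mul_of_nonneg_left s1 a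
  constructor <;> linarith

end Pool.Agent.H68T

end
end

-- part H68T.Pnt80
section

/-! h68p: prime counts (row PNT) and the number of squarefree polynomials. -/

set_option autoImplicit false
open Polynomial Finset UniqueFactorizationMonoid
open scoped Classical

noncomputable section
namespace CL5

variable {k : Type*} [Field k] [Fintype k]

theorem p80_cop {p p' : k[X]} (hm : p.Monic) (hi : Irreducible p) (hm' : p'.Monic)
    (hi' : Irreducible p') (hne : p ≠ p') : IsCoprime p p' := by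
  rw [hi.coprime_iff_not_dvd]
  intro hd
  exact hne (eq_of_monic_of_associated hm hm' (hi.associated_of_dvd hi' hd))

omit [Fintype k] in
/-- a monic squarefree polynomial is the product of a set of monic primes -/
theorem p80_sf_prod {f : k[X]} (hm : f.Monic) (hs : Squarefree f) :
    ∃ S : Finset k[X], (∀ p ∈ S, p.Monic ∧ Irreducible p ∧ p ∣ f) ∧ ∏ p ∈ S, p = f := by
  have h0 := hm.ne_zero
  refine ⟨(normalizedFactors f).toFinset, fun p hp => ?_, ?_⟩
  · have := (Polynomial.mem_normalizedFactors_iff h0).1 (Multiset.mem_toFinset.1 hp)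
    exact ⟨this.2.1, this.1, this.2.2⟩
  · have hn := (squarefree_iff_nodup_normalizedFactors h0).1 hs
    have h1 : ∏ p ∈ (normalizedFactors f).toFinset, p = (normalizedFactors f).prod := by
      rw [Finset.prod_eq_multiset_prod, Multiset.toFinset_val, Multiset.dedup_eq_self.2 hn,
        Multiset.map_id']
    rw [h1, prod_normalizedFactors_eq h0, hm.normalize_eq_self]

theorem p80_geom (N : ℕ) : ∑ d ∈ range (N + 1), qq k ^ d ≤ 2 * qq k ^ N := by
  have h2 := two_le_qq (k := k)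
  induction N with
  | zero => simp
  | succ N ih =>
    rw [Finset.sum_range_succ, pow_succ]
    have : 0 < qq k ^ N := by positivity
    nlinarith

/-- prime number theorem, lower bound -/
theorem p80_pnt {j : ℕ} (hj : 1 ≤ j) :
    qq k ^ j - 2 * qq k ^ (j / 2) ≤ (j : ℝ) * (((mon k j).filter Irreducible).card : ℝ) := by
  have h1 : 1 < Fintype.card k := Fintype.one_lt_card
  have hj0 : j ≠ 0 := by omega
  set P : k[X] := X ^ Fintype.card k ^ j - X with hP
  have hdeg : P.natDegree = Fintype.card k ^ j :=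
    FiniteField.X_pow_card_pow_sub_X_natDegree_eq k hj0 h1
  have hlt : 1 < Fintype.card k ^ j := Nat.one_lt_pow hj0 h1
  have hm : P.Monic := by
    refine (monic_X_pow _).sub_of_left ?_
    rw [degree_X, degree_X_pow]
    exact_mod_cast hlt
  have hs : Squarefree P := by
    refine Separable.squarefree ?_
    have hd : derivative P = -1 := by
      rw [hP, derivative_sub, derivative_X_pow, derivative_X]
      have : ((Fintype.card k ^ j : ℕ) : k) = 0 := by
        rw [Nat.cast_pow, FiniteField.cast_card_eq_zero, zero_pow hj0]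
      rw [this]
      simp
    rw [separable_def, hd]
    exact ⟨0, -1, by simp⟩
  obtain ⟨S, hS, hprod⟩ := p80_sf_prod hm hs
  have hdvd : ∀ p ∈ S, p.natDegree ∣ j := fun p hp => by
    have a := hS p hp
    have := a.2.2
    rw [hP, ← Nat.card_eq_fintype_card] at this
    exact a.2.1.natDegree_dvd_of_dvd_X_pow_card_pow_sub_X this
  have hsum : ∑ p ∈ S, (p.natDegree : ℝ) = qq k ^ j := by
    have := natDegree_prod_of_monic S (fun p => p) (fun p hp => (hS p hp).1)
    rw [hprod, hdeg] at this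
    unfold qq
    exact_mod_cast this.symm
  have hfib : ∀ d : ℕ, ∑ p ∈ S.filter (fun p => p.natDegree = d), (p.natDegree : ℝ) ≤
      (d : ℝ) * (((mon k d).filter Irreducible).card : ℝ) := fun d => by
    rw [Finset.sum_congr rfl (g := fun _ => (d : ℝ))
      (fun p hp => by rw [(mem_filter.1 hp).2]), sum_const, nsmul_eq_mul, mul_comm]
    refine mul_le_mul_of_nonneg_left ?_ (by positivity)
    refine Nat.cast_le.2 (card_le_card fun p hp => ?_)
    obtain ⟨a, b⟩ := mem_filter.1 hp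
    exact mem_filter.2 ⟨mem_mon.2 ⟨(hS p a).1, b⟩, (hS p a).2.1⟩
  have hrest : ∑ p ∈ S.filter (fun p => ¬ p.natDegree = j), (p.natDegree : ℝ) ≤
      2 * qq k ^ (j / 2) := by
    rw [← Finset.sum_fiberwise_of_maps_to (t := range (j / 2 + 1)) (g := fun p => p.natDegree)]
    · refine le_trans (sum_le_sum fun d _ => ?_) (p80_geom (j / 2))
      refine le_trans ?_ ((hfib d).trans (card_prs_deg d))
      refine sum_le_sum_of_subset_of_nonneg (fun p hp => ?_) (fun _ _ _ => by positivity)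
      obtain ⟨a, b⟩ := mem_filter.1 hp
      exact mem_filter.2 ⟨(mem_filter.1 a).1, b⟩
    · intro p hp
      obtain ⟨a, b⟩ := mem_filter.1 hp
      obtain ⟨c, hc⟩ := hdvd p a
      rw [mem_range]
      have hc2 : 2 ≤ c := by
        rcases c with _ | _ | c
        · omega
        · exact absurd (by omega) b
        · omega
      have : p.natDegree * 2 ≤ j := hc ▸ Nat.mul_le_mul_left _ hc2
      omega
  have := Finset.sum_filter_add_sum_filter_not S (fun p => p.natDegree = j)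
    (fun p => (p.natDegree : ℝ))
  have h3 := hfib j
  linarith

/-- most monic polynomials are squarefree -/
theorem p80_sf (j : ℕ) :
    (1 - 2 / qq k) * qq k ^ j ≤ (((mon k j).filter Squarefree).card : ℝ) := by
  have hq : (0 : ℝ) < qq k := by linarith [two_le_qq (k := k)]
  have h0 := card_filter_add_card_filter_not (s := mon k j) Squarefree
  set T := (range (j + 1)).biUnion (fun i => (mon k i).filter (fun _ => 1 < i)) with hT
  have hTm : ∀ p ∈ T, p.Monic ∧ 1 < p.natDegree := fun p hp => by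
    obtain ⟨i, -, hi⟩ := mem_biUnion.1 hp
    obtain ⟨a, b⟩ := mem_filter.1 hi
    exact ⟨(mem_mon.1 a).1, (mem_mon.1 a).2 ▸ b⟩
  have h1 : (mon k j).filter (fun f => ¬ Squarefree f) ⊆
      (mon k 1 ∪ T).biUnion (fun p => (mon k j).filter (fun f => p ^ 2 ∣ f)) := by
    intro f hf
    obtain ⟨hm, hs⟩ := mem_filter.1 hf
    have hf0 := (mem_mon.1 hm).1.ne_zero
    rw [squarefree_iff_no_irreducibles hf0] at hs
    push Not at hs
    obtain ⟨p, hp, hd⟩ := hs
    have hp0 := hp.ne_zero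
    have hn : normalize p ∣ p := (normalize_associated p).dvd
    have hdn : (normalize p).natDegree = p.natDegree :=
      natDegree_eq_of_degree_eq (degree_normalize (p := p))
    have hpos := hp.natDegree_pos
    have hle : p.natDegree ≤ j := by
      have := natDegree_le_of_dvd ((dvd_mul_right p p).trans hd) hf0
      rwa [(mem_mon.1 hm).2] at this
    refine mem_biUnion.2 ⟨normalize p, ?_, mem_filter.2 ⟨hm, ?_⟩⟩
    · rw [mem_union]
      by_cases h : p.natDegree = 1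
      · exact Or.inl (mem_mon.2 ⟨monic_normalize hp0, hdn.trans h⟩)
      · exact Or.inr (mem_biUnion.2 ⟨p.natDegree, mem_range.2 (by omega),
          mem_filter.2 ⟨mem_mon.2 ⟨monic_normalize hp0, hdn⟩, by omega⟩⟩)
    · rw [sq]
      exact (mul_dvd_mul hn hn).trans hd
  have h2 : (((mon k j).filter (fun f => ¬ Squarefree f)).card : ℝ) ≤
      ∑ p ∈ mon k 1 ∪ T, (((mon k j).filter (fun f => p ^ 2 ∣ f)).card : ℝ) := by
    exact_mod_cast (card_le_card h1).trans card_biUnion_le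
  have h3 : ∀ p : k[X], p.Monic → (((mon k j).filter (fun f => p ^ 2 ∣ f)).card : ℝ) ≤
      qq k ^ j * (1 / nrm p ^ 2) := by
    intro p hp
    have := card_mon_dvd_le (N := j) (pow_ne_zero 2 hp.ne_zero)
    rw [nrm, natDegree_pow, mul_comm, pow_mul] at this
    rwa [mul_one_div]
  have hdis : Disjoint (mon k 1) T := by
    rw [Finset.disjoint_left]
    intro p hp hp'
    have := (hTm p hp').2
    have := (mem_mon.1 hp).2
    omega
  rw [sum_union hdis] at h2
  have h4 : ∑ p ∈ mon k 1, (((mon k j).filter (fun f => p ^ 2 ∣ f)).card : ℝ) ≤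
      qq k ^ j / qq k := by
    refine (sum_le_sum (g := fun _ => qq k ^ j * (1 / qq k ^ 2)) fun p hp => ?_).trans (le_of_eq ?_)
    · have := h3 p (mem_mon.1 hp).1
      rwa [nrm, (mem_mon.1 hp).2, pow_one] at this
    · rw [sum_const, nsmul_eq_mul, card_mon]
      field_simp
  have h5 : ∑ p ∈ T, (((mon k j).filter (fun f => p ^ 2 ∣ f)).card : ℝ) ≤ qq k ^ j / qq k := by
    refine (sum_le_sum fun p hp => h3 p (hTm p hp).1).trans ?_
    rw [← mul_sum]
    have := sum_inv_sq_le (k := k) 1 T hTm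
    unfold eta0 at this
    rw [pow_one] at this
    rw [div_eq_mul_one_div]
    exact mul_le_mul_of_nonneg_left this (by positivity)
  have h6 : (((mon k j).filter Squarefree).card : ℝ) +
      (((mon k j).filter (fun f => ¬ Squarefree f)).card : ℝ) = qq k ^ j := by
    rw [← card_mon]; exact_mod_cast h0
  have h7 : (1 - 2 / qq k) * qq k ^ j = qq k ^ j - 2 * (qq k ^ j / qq k) := by ring
  linarith

end CL5

end
end

-- part H68T.Sieve80
section

/-! h68p: Selberg's upper bound sieve in `k[X]` (row SIEVE). -/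

set_option autoImplicit false
open Polynomial Finset UniqueFactorizationMonoid
open scoped Classical

noncomputable section
namespace CL5

variable (k : Type*) [Field k] [Fintype k]

/-- sets of monic primes of total degree `≤ z` -/
def s80S (z : ℕ) : Finset (Finset k[X]) :=
  (prs k z).powerset.filter (fun S => ∑ p ∈ S, p.natDegree ≤ z)

/-- the normalising sum -/
def s80G (z : ℕ) : ℝ := ∑ S ∈ s80S k z, ∏ p ∈ S, 1 / nrm p

variable {k}

/-- local factor of mean zero -/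
def s80t (p f : k[X]) : ℝ := 1 / nrm p - if p ∣ f then 1 else 0

/-- Selberg's coefficient, not yet normalised -/
def s80l (z : ℕ) (A : Finset k[X]) : ℝ :=
  (-1) ^ A.card * ∑ S ∈ (s80S k z).filter (fun S => A ⊆ S), ∏ p ∈ S \ A, 1 / nrm p

theorem s80_nrm_pos (a : k[X]) : 0 < nrm a := by
  have := two_le_qq (k := k)
  unfold nrm
  positivity

theorem s80_mem {z : ℕ} {S : Finset k[X]} : S ∈ s80S k z ↔
    (∀ p ∈ S, p.Monic ∧ Irreducible p ∧ p.natDegree ≤ z) ∧ ∑ p ∈ S, p.natDegree ≤ z := by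
  unfold s80S
  rw [mem_filter, mem_powerset]
  exact and_congr_left fun _ => ⟨fun h p hp => mem_prs.1 (h hp), fun h p hp => mem_prs.2 (h p hp)⟩

theorem s80_sub {z : ℕ} {S A : Finset k[X]} (hS : S ∈ s80S k z) (h : A ⊆ S) : A ∈ s80S k z := by
  rw [s80_mem] at hS ⊢
  exact ⟨fun p hp => hS.1 p (h hp), (sum_le_sum_of_subset h).trans hS.2⟩

theorem s80_nrm_prod {S : Finset k[X]} (h : ∀ p ∈ S, p.Monic) :
    ∏ p ∈ S, 1 / nrm p = 1 / nrm (∏ p ∈ S, p) := by
  unfold nrm
  rw [natDegree_prod_of_monic S (fun p => p) h, ← Finset.prod_pow_eq_pow_sum]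
  simp

theorem s80_G_ge (z : ℕ) : (1 - 2 / qq k) * (z + 1) ≤ s80G k z := by
  have hq : (0 : ℝ) < qq k := by linarith [two_le_qq (k := k)]
  set T := (range (z + 1)).biUnion (fun j => (mon k j).filter Squarefree) with hT
  have hTm : ∀ f ∈ T, f.Monic ∧ Squarefree f ∧ f.natDegree ≤ z := fun f hf => by
    obtain ⟨j, hj, hf⟩ := mem_biUnion.1 hf
    obtain ⟨a, b⟩ := mem_filter.1 hf
    have := mem_range.1 hj
    exact ⟨(mem_mon.1 a).1, b, by rw [(mem_mon.1 a).2]; omega⟩
  have h1 : (1 - 2 / qq k) * (z + 1) ≤ ∑ f ∈ T, 1 / nrm f := by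
    rw [hT, sum_biUnion]
    · have : (1 - 2 / qq k) * (z + 1) = ∑ _j ∈ range (z + 1), (1 - 2 / qq k) := by
        rw [sum_const, card_range, nsmul_eq_mul]
        push_cast
        ring
      rw [this]
      refine sum_le_sum fun j _ => ?_
      rw [Finset.sum_congr rfl (g := fun _ => 1 / qq k ^ j) (fun f hf => by
        rw [nrm, (mem_mon.1 (mem_filter.1 hf).1).2]), sum_const, nsmul_eq_mul, mul_one_div,
        le_div_iff₀ (by positivity)]
      exact p80_sf j
    · intro i _ j _ hij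
      rw [Function.onFun, Finset.disjoint_left]
      intro f hf hf'
      exact hij ((mem_mon.1 (mem_filter.1 hf).1).2.symm.trans (mem_mon.1 (mem_filter.1 hf').1).2)
  refine h1.trans ?_
  choose! F hF hP using fun f (hf : f ∈ T) => p80_sf_prod (hTm f hf).1 (hTm f hf).2.1
  have hinj : Set.InjOn F T := fun f hf g hg h => by rw [← hP f hf, ← hP g hg, h]
  have h2 : ∑ f ∈ T, 1 / nrm f = ∑ S ∈ T.image F, ∏ p ∈ S, 1 / nrm p := by
    rw [sum_image hinj]
    refine sum_congr rfl fun f hf => ?_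
    rw [s80_nrm_prod (fun p hp => (hF f hf p hp).1), hP f hf]
  rw [h2]
  refine sum_le_sum_of_subset_of_nonneg (fun S hS => ?_)
    (fun S _ _ => prod_nonneg fun p _ => (one_div_pos.2 (s80_nrm_pos p)).le)
  obtain ⟨f, hf, rfl⟩ := mem_image.1 hS
  have hm := hTm f hf
  refine s80_mem.2 ⟨fun p hp => ⟨(hF f hf p hp).1, (hF f hf p hp).2.1,
    (natDegree_le_of_dvd (hF f hf p hp).2.2 hm.1.ne_zero).trans hm.2.2⟩, ?_⟩
  rw [← natDegree_prod_of_monic (F f) (fun p => p) (fun p hp => (hF f hf p hp).1), hP f hf]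
  exact hm.2.2

theorem s80_G_pos (z : ℕ) : 0 < s80G k z := by
  refine lt_of_lt_of_le (b := ∏ p ∈ (∅ : Finset k[X]), 1 / nrm p) (by simp) ?_
  exact single_le_sum (f := fun S : Finset k[X] => ∏ p ∈ S, 1 / nrm p)
    (fun S _ => prod_nonneg fun p _ => (one_div_pos.2 (s80_nrm_pos p)).le)
    (s80_mem.2 ⟨by simp, by simp⟩)

theorem s80_l_le (z : ℕ) (A : Finset k[X]) : |s80l z A| ≤ s80G k z := by
  have hn : ∀ S : Finset k[X], 0 ≤ ∏ p ∈ S, 1 / nrm p :=
    fun S => prod_nonneg fun p _ => (one_div_pos.2 (s80_nrm_pos p)).le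
  unfold s80l
  rw [abs_mul, abs_pow, abs_neg, abs_one, one_pow, one_mul,
    abs_of_nonneg (sum_nonneg fun S _ => hn _)]
  have hinj : Set.InjOn (fun S => S \ A) ((s80S k z).filter (fun S => A ⊆ S) : Finset _) := by
    intro S hS S' hS' h
    have a := (mem_filter.1 (mem_coe.1 hS)).2
    have b := (mem_filter.1 (mem_coe.1 hS')).2
    rw [← sdiff_union_of_subset a, ← sdiff_union_of_subset b]
    exact congrArg (· ∪ A) h
  rw [← sum_image (f := fun S : Finset k[X] => ∏ p ∈ S, 1 / nrm p) hinj]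
  refine sum_le_sum_of_subset_of_nonneg (fun S hS => ?_) (fun S _ _ => hn S)
  obtain ⟨S', h, rfl⟩ := mem_image.1 hS
  exact s80_sub (mem_filter.1 h).1 sdiff_subset

theorem s80_expand (z : ℕ) (f : k[X]) : ∑ S ∈ s80S k z, ∏ p ∈ S, s80t p f =
    ∑ A ∈ s80S k z, s80l z A * if ∀ p ∈ A, p ∣ f then 1 else 0 := by
  have h1 : ∀ S : Finset k[X], ∏ p ∈ S, s80t p f = ∑ A ∈ S.powerset,
      ((-1) ^ A.card * if ∀ p ∈ A, p ∣ f then 1 else 0) * ∏ p ∈ S \ A, 1 / nrm p := fun S => by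
    rw [Finset.prod_congr rfl (g := fun p => (-1) * (if p ∣ f then (1 : ℝ) else 0) + 1 / nrm p)
      (fun p _ => by unfold s80t; ring), Finset.prod_add]
    refine sum_congr rfl fun A _ => ?_
    rw [prod_mul_distrib, prod_const, Finset.prod_boole]
  simp_rw [h1]
  rw [Finset.sum_comm' (t' := s80S k z) (s' := fun A => (s80S k z).filter (fun S => A ⊆ S))]
  · refine sum_congr rfl fun A _ => ?_
    unfold s80l
    rw [← mul_sum]
    ring
  · intro S A
    rw [mem_powerset, mem_filter]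
    exact ⟨fun h => ⟨⟨h.1, h.2⟩, s80_sub h.1 h.2⟩, fun h => ⟨h.1.1, h.1.2⟩⟩

theorem s80_dvd {A : Finset k[X]} (hA : ∀ p ∈ A, p.Monic ∧ Irreducible p) (f : k[X]) :
    ∏ p ∈ A, p ∣ f ↔ ∀ p ∈ A, p ∣ f :=
  ⟨fun h p hp => (dvd_prod_of_mem (fun p => p) hp).trans h, fun h =>
    Finset.prod_dvd_of_coprime (fun p hp p' hp' hne =>
      p80_cop (hA p hp).1 (hA p hp).2 (hA p' hp').1 (hA p' hp').2 hne) h⟩

theorem s80_ind {n : ℕ} {p : k[X]} (hp : p ≠ 0) (h : p.natDegree ≤ n) :
    ∑ f ∈ mon k n, (if p ∣ f then (1 : ℝ) else 0) = qq k ^ n / nrm p := by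
  have hq : (0 : ℝ) < qq k := by linarith [two_le_qq (k := k)]
  have := card_mon_class (k := k) hp h 0
  simp only [sub_zero] at this
  rw [sum_boole, this, nrm, pow_sub₀ _ hq.ne' h, div_eq_mul_inv]

theorem s80_orth {n z : ℕ} (h : 2 * z ≤ n) {S S' : Finset k[X]} (hS : S ∈ s80S k z)
    (hS' : S' ∈ s80S k z) :
    (∑ f ∈ mon k n, (∏ p ∈ S, s80t p f) * ∏ p ∈ S', s80t p f) / qq k ^ n ≤
      if S = S' then ∏ p ∈ S, 1 / nrm p else 0 := by
  have hq : (0 : ℝ) < qq k := by linarith [two_le_qq (k := k)]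
  rw [s80_mem] at hS hS'
  have hU : ∀ p ∈ S ∪ S', p.Monic ∧ Irreducible p ∧ p.natDegree ≤ z := fun p hp =>
    (mem_union.1 hp).elim (hS.1 p) (hS'.1 p)
  have hdeg : ∑ p ∈ S ∪ S', p.natDegree ≤ n := by
    have := sum_union_inter (s₁ := S) (s₂ := S') (f := fun p : k[X] => p.natDegree)
    omega
  have hi := ind_mon (k := k) (S ∪ S') (fun p => p) (fun p hp => (hU p hp).1.ne_zero)
    (fun p hp p' hp' hne => p80_cop (hU p hp).1 (hU p hp).2.1 (hU p' hp').1 (hU p' hp').2.1 hne)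
    (fun p f => (if p ∈ S then s80t p f else 1) * (if p ∈ S' then s80t p f else 1))
    (fun p _ a b hab => by unfold s80t; simp only [dvd_iff_dvd_of_dvd_sub hab]) hdeg
  have he : ∀ f : k[X], (∏ p ∈ S, s80t p f) * ∏ p ∈ S', s80t p f = ∏ p ∈ S ∪ S',
      (if p ∈ S then s80t p f else 1) * (if p ∈ S' then s80t p f else 1) := fun f => by
    rw [prod_mul_distrib, prod_ite_mem, prod_ite_mem, union_inter_cancel_left,
      union_inter_cancel_right]
  simp_rw [he]
  rw [hi]
  have h1 : ∀ p ∈ S ∪ S', ∑ f ∈ mon k n, s80t p f = 0 := fun p hp => by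
    unfold s80t
    rw [sum_sub_distrib, s80_ind (hU p hp).1.ne_zero ((hU p hp).2.2.trans (by omega)), sum_const,
      nsmul_eq_mul, card_mon]
    ring
  have h2 : ∀ p ∈ S ∪ S', (∑ f ∈ mon k n, s80t p f * s80t p f) / qq k ^ n ≤ 1 / nrm p := by
    intro p hp
    have hn := s80_nrm_pos p
    have : ∀ f : k[X], s80t p f * s80t p f =
        (1 / nrm p) ^ 2 + (1 - 2 * (1 / nrm p)) * if p ∣ f then 1 else 0 := fun f => by
      unfold s80t
      split_ifs <;> ring
    simp_rw [this]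
    rw [sum_add_distrib, ← mul_sum,
      s80_ind (hU p hp).1.ne_zero ((hU p hp).2.2.trans (by omega)), sum_const, nsmul_eq_mul,
      card_mon, div_le_iff₀ (by positivity), div_eq_mul_one_div (qq k ^ n)]
    have : 0 ≤ qq k ^ n * (1 / nrm p) ^ 2 := by positivity
    nlinarith
  split_ifs with hSS
  · subst hSS
    rw [union_self] at *
    refine prod_le_prod (fun p hp => ?_) (fun p hp => ?_)
    · simp only [hp, if_true]
      exact div_nonneg (sum_nonneg fun f _ => mul_self_nonneg _) (by positivity)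
    · simp only [hp, if_true]
      exact h2 p hp
  · have : ∃ p ∈ S ∪ S', ¬ (p ∈ S ∧ p ∈ S') := by
      by_contra hc
      push Not at hc
      exact hSS (Subset.antisymm (fun p hp => (hc p (mem_union_left _ hp)).2)
        (fun p hp => (hc p (mem_union_right _ hp)).1))
    obtain ⟨p, hp, hne⟩ := this
    refine le_of_eq (prod_eq_zero hp ?_)
    by_cases a : p ∈ S
    · have b : p ∉ S' := fun b => hne ⟨a, b⟩
      simp only [a, b, if_true, if_false, mul_one]
      rw [h1 p hp, zero_div]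
    · have b : p ∈ S' := (mem_union.1 hp).resolve_left a
      simp only [a, b, if_true, if_false, one_mul]
      rw [h1 p hp, zero_div]

theorem s80_card {z : ℕ} {f : k[X]} (hf : f ≠ 0) :
    (((s80S k z).filter (fun A => ∀ p ∈ A, p ∣ f)).card : ℝ) ≤ 2 ^ f.natDegree := by
  set T := (prs k z).filter (fun p => p ∣ f) with hT
  have hTm : ∀ p ∈ T, p.Monic ∧ Irreducible p := fun p hp =>
    ⟨(mem_prs.1 (mem_filter.1 hp).1).1, (mem_prs.1 (mem_filter.1 hp).1).2.1⟩
  have h1 : T.card ≤ f.natDegree := by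
    have := natDegree_le_of_dvd ((s80_dvd hTm f).2 fun p hp => (mem_filter.1 hp).2) hf
    rw [natDegree_prod_of_monic T (fun p => p) (fun p hp => (hTm p hp).1)] at this
    refine le_trans ?_ this
    rw [card_eq_sum_ones]
    exact sum_le_sum fun p hp => (hTm p hp).2.natDegree_pos
  have h2 : (s80S k z).filter (fun A => ∀ p ∈ A, p ∣ f) ⊆ T.powerset := fun A hA => by
    obtain ⟨a, b⟩ := mem_filter.1 hA
    exact mem_powerset.2 fun p hp => mem_filter.2 ⟨mem_prs.2 ((s80_mem.1 a).1 p hp), b p hp⟩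
  have h3 := card_le_card h2
  rw [card_powerset] at h3
  exact_mod_cast h3.trans (Nat.pow_le_pow_right two_pos h1)

end CL5

end
end

-- part H68T.Defs
section

/-! h49p: interfaces of the sieve for the mean of the 3-torsion over prime discriminants. -/

set_option autoImplicit false

open Polynomial Finset Filter Topology
open scoped Classical BigOperators

noncomputable section
namespace Pool.Agent.H68T
open Pool.Agent.MP_a4a062_nt.C2

variable {k : Type*} [Field k] [Fintype k]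

/-- The cell sum over `f = e x`, `deg e = i`, `x` rough. -/
def TT (z n i : ℕ) (F α : k[X] → ℝ) : ℝ :=
  ∑ e ∈ mon k i, ∑ x ∈ mon k (n - i), α e * rho z x * F (e * x)

/-- Bounded second moment. -/
def HL2 (a : k[X] → ℝ) : Prop :=
  ∃ K : ℝ, 1 ≤ K ∧ ∀ n : ℕ, ∑ f ∈ mon k n, a f ^ 2 ≤ K * qq k ^ n

/-- `b` is a minorant of `a` that agrees with it on most rough polynomials. -/
def HAB (a b : k[X] → ℝ) : Prop :=
  (∀ f, 0 ≤ b f) ∧ (∀ f, b f ≤ a f) ∧ ∃ K : ℝ, 1 ≤ K ∧ ∀ n z : ℕ,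
    ∑ f ∈ mon k n, rho z f * (a f - b f) ≤ K * qq k ^ n / qq k ^ (z / 2)

/-- Type I information of level `1 / 2`. -/
def HI (b : k[X] → ℝ) (c : ℕ → ℝ) : Prop :=
  ∀ κ : ℕ, 0 < κ → ∃ κ' : ℕ, 0 < κ' ∧ ∀ᶠ n : ℕ in atTop, ∀ D : k[X], D.Monic → Squarefree D →
    D.natDegree + n / κ ≤ n / 2 →
    |∑ f ∈ mon k (n - D.natDegree), (b (D * f) - c n)| ≤
      qq k ^ (n - D.natDegree) / qq k ^ (n / κ')

/-- Moebius cancellation of level `1 / 2`. -/
def HM (a : k[X] → ℝ) : Prop :=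
  ∀ κ : ℕ, 0 < κ → ∃ κ' : ℕ, 0 < κ' ∧ ∀ᶠ n : ℕ in atTop, ∀ (j : ℕ) (c : k[X] → ℝ),
    j + n / κ ≤ n / 2 → (∀ x, |c x| ≤ 1) →
    |∑ x ∈ mon k j, c x * ∑ e ∈ mon k (n - j), mu e * a (x * e)| ≤ qq k ^ n / qq k ^ (n / κ')

/-- Type II information for small primes, weak form. -/
def HII (a : k[X] → ℝ) (c : ℕ → ℝ) : Prop :=
  ∃ κ : ℕ, 0 < κ ∧ ∀ᶠ t : ℕ in atTop, ∀ n y : ℕ, t ^ 10 ≤ n → n ≤ (t + 1) ^ 10 → t ^ 7 < y →
    κ * y ≤ n →
    ∑ m ∈ mon k (n - y), rho (t ^ 7) m * (if Squarefree m then 1 else 0) *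
        (∑ p ∈ prs k y with ¬ p ∣ m, (a (p * m) - c n)) ^ 2 ≤ qq k ^ (n + y) / (n : ℝ) ^ 10

/-- Type II information for small primes, with a power saving. -/
def HIIs (a : k[X] → ℝ) (c : ℕ → ℝ) : Prop :=
  ∃ (κ κ' : ℕ) (K : ℝ), 0 < κ ∧ 0 < κ' ∧ ∀ᶠ n : ℕ in atTop, ∀ y : ℕ, 1 ≤ y → κ * y ≤ n →
    ∑ m ∈ mon k (n - y) with Squarefree m,
        (∑ p ∈ prs k y with ¬ p ∣ m, (a (p * m) - c n)) ^ 2 ≤
      (n : ℝ) ^ 2 * K * qq k ^ n + qq k ^ (n + y) / qq k ^ (n / κ')

/-- The mean over primes. -/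
def GOAL (a : k[X] → ℝ) (c : ℕ → ℝ) : Prop :=
  Tendsto (fun n : ℕ => (n : ℝ) * (∑ f ∈ prs k n, (a f - c n)) / qq k ^ n) atTop (𝓝 0)

/-- Cube-free polynomials. -/
def CF (H : k[X]) : Prop := H ≠ 0 ∧ ∀ p : k[X], Irreducible p → ¬ p ^ 3 ∣ H

/-- A cube times a squarefree polynomial. -/
def Tame (g : k[X]) : Prop := ∃ t g0 : k[X], t.Monic ∧ Squarefree g0 ∧ g = t ^ 3 * g0

variable (k) in
/-- The parameters of the tame polynomials of degree `< n / 2`. -/
def PG (n : ℕ) : Finset (k[X] × k[X]) :=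
  {x ∈ box k (n / 2) ×ˢ box k (n / 2) |
    x.1.Monic ∧ Squarefree x.2 ∧ 3 * x.1.natDegree + x.2.natDegree < n / 2}

/-- The condition at infinity. -/
def Adm (n : ℕ) (x : k[X] × k[X]) : Prop :=
  (3 * x.1.natDegree + x.2.natDegree + n) % 3 ≠ 2 ∨
    (n = 2 * (3 * x.1.natDegree + x.2.natDegree) + 2 ∧ x.2.leadingCoeff ^ 3 = x.2.leadingCoeff)

variable (k) in
/-- The density of the tame solutions. -/
def cs (n : ℕ) : ℝ := ∑ x ∈ PG k n, if Adm n x then 1 / qq k ^ ((x.2.natDegree + n) / 3) else 0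

variable [CharP k 3]

/-- The number of non-zero logarithmic forms. -/
def aa (f : k[X]) : ℝ := #((CL3.Sol f).erase 0)

/-- The number of tame logarithmic forms. -/
def bb (f : k[X]) : ℝ := #{g ∈ CL3.Sol f | Tame g}

/-- The number of monic `f` of degree `N` with prescribed image. -/
def NT (N : ℕ) (H T : k[X]) : ℝ := #{f ∈ mon k N | CL3.car (H * f) = T}

end Pool.Agent.H68T

end
end
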