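import Pool.Agent.MP_d0fd9b_nt.P3.S0

-- part H68T.A
section

/-! h49p: the abstract sieve. -/

set_option autoImplicit false

open Polynomial Finset Filter Topology
open scoped Classical BigOperators

noncomputable section
namespace Pool.Agent.H68T
open Pool.Agent.MP_a4a062_nt.C2

variable {k : Type*} [Field k] [Fintype k]

section
omit [Fintype k] in
theorem gen_rho_nonneg (z : ℕ) (f : k[X]) : 0 ≤ rho z f := by
  unfold rho; split_ifs <;> norm_num

omit [Fintype k] in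
theorem gen_rho_le_one (z : ℕ) (f : k[X]) : rho z f ≤ 1 := by
  unfold rho; split_ifs <;> norm_num

omit [Fintype k] in
theorem gen_rho_mul (z : ℕ) (a b : k[X]) : rho z (a * b) = rho z a * rho z b := by
  unfold rho
  by_cases ha : Rough z a <;> by_cases hb : Rough z b <;> simp [rough_mul, ha, hb]

theorem conv_le {n i : ℕ} (hi : i ≤ n) (H : k[X] → ℝ) (hH : ∀ f, 0 ≤ H f) :
    ∑ e ∈ mon k i, ∑ x ∈ mon k (n - i), H (e * x) ≤ ∑ f ∈ mon k n, nd f * H f := by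
  have h := sum_dv (k := k) n fun a b => H (a * b)
  have h1 : ∑ f ∈ mon k n, nd f * H f = ∑ f ∈ mon k n, ∑ a ∈ dv f, H (a * (f /ₘ a)) := by
    refine sum_congr rfl fun f hf => ?_
    have hf0 := (mem_mon.1 hf).1.ne_zero
    rw [show nd f * H f = ∑ _a ∈ dv f, H f by rw [sum_const, nsmul_eq_mul]; rfl]
    refine sum_congr rfl fun a ha => ?_
    obtain ⟨hm, b, rfl⟩ := (mem_dv hf0).1 ha
    rw [mul_divByMonic_cancel_left _ hm]
  rw [h1, h]
  exact single_le_sum (f := fun i => ∑ a ∈ mon k i, ∑ b ∈ mon k (n - i), H (a * b))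
    (fun j _ => sum_nonneg fun _ _ => sum_nonneg fun _ _ => hH _) (mem_range.2 (by omega))

theorem gen_cs {n : ℕ} {K B : ℝ} (hK : 1 ≤ K) (hB : 0 ≤ B) {F G : k[X] → ℝ}
    (hF : ∑ f ∈ mon k n, F f ^ 2 ≤ K * qq k ^ n)
    (hG : ∑ f ∈ mon k n, G f ^ 2 ≤ B ^ 2 * qq k ^ n) :
    ∑ f ∈ mon k n, G f * |F f| ≤ K * B * qq k ^ n := by
  have h2 := two_le_qq (k := k)
  have hq : 0 < qq k ^ n := by positivity
  have h := sum_mul_sq_le_sq_mul_sq (mon k n) G fun f => |F f|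
  simp only [sq_abs] at h
  refine abs_le_of_sq_le_sq' (h.trans ?_) (by positivity) |>.2
  calc _ ≤ (B ^ 2 * qq k ^ n) * (K * qq k ^ n) :=
        mul_le_mul hG hF (sum_nonneg fun _ _ => sq_nonneg _) (by positivity)
    _ ≤ (B ^ 2 * qq k ^ n) * (K ^ 2 * qq k ^ n) := by
        gcongr
        nlinarith
    _ = _ := by ring

theorem cs_nd {n : ℕ} {K : ℝ} (hK : 1 ≤ K) {F : k[X] → ℝ}
    (hF : ∑ f ∈ mon k n, F f ^ 2 ≤ K * qq k ^ n) :
    ∑ f ∈ mon k n, nd f ^ 3 * |F f| ≤ K * ((n : ℝ) + 1) ^ 32 * qq k ^ n := by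
  have h2 := two_le_qq (k := k)
  refine gen_cs hK (by positivity) hF ?_
  have h := sum_nd_pow (k := k) 6 n
  simp only [← pow_mul]
  refine h.trans ?_
  gcongr
  · linarith [(Nat.cast_nonneg n : (0 : ℝ) ≤ n)]
  · norm_num

theorem cs_big {n : ℕ} (z : ℕ) {K : ℝ} (hK : 1 ≤ K) {F : k[X] → ℝ}
    (hF : ∑ f ∈ mon k n, F f ^ 2 ≤ K * qq k ^ n) :
    ∑ f ∈ mon k n, rho z f * (if Squarefree f then 0 else 1) * |F f| ≤
      K * qq k ^ n / qq k ^ (z / 2) := by
  have h2 := two_le_qq (k := k)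
  have h := gen_cs (B := 1 / qq k ^ (z / 2)) (G := fun f => rho z f *
    (if Squarefree f then 0 else 1)) hK (by positivity) hF ?_
  · exact h.trans (le_of_eq (by ring))
  refine le_trans (sum_le_sum fun f _ => ?_) ((id_sum_big (k := k) n (z + 1)).trans ?_)
  · unfold rho
    by_cases h1 : Rough z f <;> by_cases h3 : Squarefree f
    · simp only [h1, h3, if_true]; split_ifs <;> norm_num
    · simp [h1, h3, id_big h1 h3]
    · simp only [h1, h3, if_true, if_false]; split_ifs <;> norm_num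
    · simp only [h1, h3, if_false]; split_ifs <;> norm_num
  · have h3 : (qq k ^ (z / 2)) ^ 2 ≤ qq k ^ z := by
      rw [← pow_mul]
      exact pow_le_pow_right₀ (by linarith) (by omega)
    rw [div_pow, one_pow, div_mul_eq_mul_div, one_mul, div_le_div_iff₀ (by positivity)
      (by positivity), pow_succ (qq k) z]
    have h4 : 0 < qq k ^ n := by positivity
    have h5 : 0 < qq k ^ z := by positivity
    have h6 : 2 * (qq k ^ (z / 2)) ^ 2 ≤ qq k ^ z * qq k := by nlinarith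
    nlinarith

theorem nd_rough {n : ℕ} (z : ℕ) {f : k[X]} (hf : f ∈ mon k n) :
    rho z f * nd f ≤ 2 ^ (n / (z + 1)) * rho z f := by
  unfold rho
  split_ifs with h
  · have h1 := id_card_dv z n f (mem_mon.1 hf).2 (mem_mon.1 hf).1 h
    rw [one_mul, mul_one]
    unfold nd
    exact_mod_cast h1
  · simp

theorem TT_le {z n i : ℕ} (hi : i ≤ n) (F α : k[X] → ℝ) (hα : ∀ e ∈ mon k i, |α e| ≤ rho z e) :
    |TT z n i F α| ≤ 2 ^ (n / (z + 1)) * ∑ f ∈ mon k n, rho z f * |F f| := by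
  unfold TT
  calc _ ≤ ∑ e ∈ mon k i, ∑ x ∈ mon k (n - i), rho z (e * x) * |F (e * x)| := by
        refine (abs_sum_le_sum_abs _ _).trans (sum_le_sum fun e he => ?_)
        refine (abs_sum_le_sum_abs _ _).trans (sum_le_sum fun x _ => ?_)
        rw [abs_mul, abs_mul, abs_of_nonneg (gen_rho_nonneg z x), gen_rho_mul]
        exact mul_le_mul_of_nonneg_right
          (mul_le_mul_of_nonneg_right (hα e he) (gen_rho_nonneg z x)) (abs_nonneg _)
    _ ≤ ∑ f ∈ mon k n, nd f * (rho z f * |F f|) :=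
        conv_le hi (fun f => rho z f * |F f|) fun f =>
          mul_nonneg (gen_rho_nonneg z f) (abs_nonneg _)
    _ ≤ _ := by
        rw [mul_sum]
        refine sum_le_sum fun f hf => ?_
        have h := mul_le_mul_of_nonneg_right (nd_rough z hf) (abs_nonneg (F f))
        calc _ = rho z f * nd f * |F f| := by ring
          _ ≤ _ := h
          _ = _ := by ring

end

section
omit [Fintype k] in
theorem idr_rho_nonneg (z : ℕ) (f : k[X]) : 0 ≤ rho z f := by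
  unfold rho; split_ifs <;> norm_num

omit [Fintype k] in
theorem idr_rho_le_one (z : ℕ) (f : k[X]) : rho z f ≤ 1 := by
  unfold rho; split_ifs <;> norm_num

omit [Fintype k] in
theorem idr_rho_mul (z : ℕ) (a b : k[X]) : rho z (a * b) = rho z a * rho z b := by
  unfold rho
  by_cases ha : Rough z a <;> by_cases hb : Rough z b <;> simp [rough_mul, ha, hb]

theorem idr_abs_mu (f : k[X]) : |mu f| ≤ 1 := by
  unfold mu
  split_ifs
  · exact (abs_lam f).le
  · simp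

/-- A weighted sum of the cells as a sum over `f`. -/
theorem idr_sum_TT (z n : ℕ) (φ : ℕ → ℝ) (F : k[X] → ℝ) :
    ∑ i ∈ range (n + 1), φ i * TT z n i F (fun e => rho z e * mu e) =
      ∑ f ∈ mon k n, rho z f * F f * ∑ e ∈ dv f, mu e * φ e.natDegree := by
  have h := sum_dv (k := k) n fun a b => rho z (a * b) * F (a * b) * (mu a * φ a.natDegree)
  have h1 : ∑ f ∈ mon k n, rho z f * F f * ∑ e ∈ dv f, mu e * φ e.natDegree =
      ∑ f ∈ mon k n, ∑ a ∈ dv f,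
        rho z (a * (f /ₘ a)) * F (a * (f /ₘ a)) * (mu a * φ a.natDegree) := by
    refine sum_congr rfl fun f hf => ?_
    have hf0 := (mem_mon.1 hf).1.ne_zero
    rw [mul_sum]
    refine sum_congr rfl fun a ha => ?_
    obtain ⟨hm, b, rfl⟩ := (mem_dv hf0).1 ha
    rw [mul_divByMonic_cancel_left _ hm]
  rw [h1, h]
  refine sum_congr rfl fun i _ => ?_
  unfold TT
  rw [mul_sum]
  refine sum_congr rfl fun a ha => ?_
  rw [mul_sum]
  refine sum_congr rfl fun b _ => ?_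
  rw [idr_rho_mul, (mem_mon.1 ha).2]
  ring

theorem idr_I_sqf {n : ℕ} (hn : 0 < n) (m : ℝ) {f : k[X]} (hf : f ∈ mon k n) (hs : Squarefree f) :
    ∑ e ∈ dv f, mu e * (m - e.natDegree) = if Irreducible f then (n : ℝ) else 0 := by
  obtain ⟨hm, hd⟩ := mem_mon.1 hf
  have h1 : f ≠ 1 := by
    rintro rfl
    simp at hd
    omega
  have e : ∑ e ∈ dv f, mu e * (m - e.natDegree) =
      m * ∑ e ∈ dv f, lam e - ∑ e ∈ dv f, lam e * (e.natDegree : ℝ) := by
    rw [mul_sum, ← sum_sub_distrib]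
    refine sum_congr rfl fun e he => ?_
    unfold mu
    rw [if_pos (hs.squarefree_of_dvd ((mem_dv hm.ne_zero).1 he).2)]
    ring
  rw [e, id_S0 hm hs h1, id_S1 hm hs h1, hd]
  split_ifs <;> ring

theorem idr_I_le {n m : ℕ} (hm : m ≤ n) {f : k[X]} (hf : f ∈ mon k n) :
    |∑ e ∈ dv f, mu e * ((m : ℝ) - e.natDegree)| ≤ n * nd f := by
  obtain ⟨hf1, hd⟩ := mem_mon.1 hf
  refine (abs_sum_le_sum_abs _ _).trans ((sum_le_card_nsmul _ _ (n : ℝ) fun e he => ?_).trans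
    (le_of_eq (by rw [nsmul_eq_mul, mul_comm]; rfl)))
  have h1 := natDegree_le_of_dvd ((mem_dv hf1.ne_zero).1 he).2 hf1.ne_zero
  rw [hd] at h1
  have h2 : (e.natDegree : ℝ) ≤ n := by exact_mod_cast h1
  have h3 : (m : ℝ) ≤ n := by exact_mod_cast hm
  have h4 : |(m : ℝ) - e.natDegree| ≤ n := by
    rw [abs_le]
    constructor <;> linarith [(Nat.cast_nonneg m : (0 : ℝ) ≤ m),
      (Nat.cast_nonneg e.natDegree : (0 : ℝ) ≤ e.natDegree)]
  rw [abs_mul]
  calc _ ≤ 1 * (n : ℝ) := mul_le_mul (idr_abs_mu e) h4 (abs_nonneg _) zero_le_one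
    _ = _ := one_mul _

theorem id_row {z n m : ℕ} (hz : z < n) (hm : m ≤ n) {K : ℝ} (hK : 1 ≤ K) {F : k[X] → ℝ}
    (hF : ∑ f ∈ mon k n, F f ^ 2 ≤ K * qq k ^ n) :
    |(n : ℝ) * ∑ f ∈ prs k n, F f -
        ∑ i ∈ range (n + 1), ((m : ℝ) - i) * TT z n i F fun e => rho z e * mu e| ≤
      n * 2 ^ (n / (z + 1)) * (K * qq k ^ n / qq k ^ (z / 2)) := by
  rw [idr_sum_TT z n (fun i => (m : ℝ) - i) F]
  unfold prs
  rw [sum_filter, mul_sum, ← sum_sub_distrib]
  refine (abs_sum_le_sum_abs _ _).trans (le_trans ?_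
    (mul_le_mul_of_nonneg_left (cs_big z hK hF) (by positivity)))
  rw [mul_sum]
  refine sum_le_sum fun f hf => ?_
  by_cases hs : Squarefree f
  · rw [idr_I_sqf (by omega) _ hf hs, if_pos hs]
    by_cases hi : Irreducible f
    · have hr : Rough z f := id_rough_prime hi (by rw [(mem_mon.1 hf).2]; exact hz)
      simp only [hi, if_true, rho, hr]
      rw [show (n : ℝ) * F f - 1 * F f * n = 0 by ring]
      simp
    · simp [hi]
  · have hi : ¬ Irreducible f := fun h => hs h.squarefree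
    rw [if_neg hi, if_neg hs, mul_zero, zero_sub, abs_neg, abs_mul, abs_mul,
      abs_of_nonneg (idr_rho_nonneg z f), mul_one]
    have h1 := idr_I_le hm hf
    have h2 := nd_rough z hf
    have h3 := idr_rho_nonneg z f
    have h4 := abs_nonneg (F f)
    calc _ ≤ rho z f * |F f| * (n * nd f) := mul_le_mul_of_nonneg_left h1 (by positivity)
      _ = n * |F f| * (rho z f * nd f) := by ring
      _ ≤ n * |F f| * (2 ^ (n / (z + 1)) * rho z f) :=
          mul_le_mul_of_nonneg_left h2 (by positivity)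
      _ = _ := by ring

end

section
section T1

omit [Fintype k] in
theorem t1_lam (f : k[X]) : |lam f| ≤ 1 := by
  unfold lam
  rw [abs_pow, abs_neg, abs_one, one_pow]

omit [Fintype k] in
theorem t1_mu (f : k[X]) : |mu f| ≤ 1 := by
  unfold mu
  split_ifs
  exacts [t1_lam f, by simp]

omit [Fintype k] in
theorem t1_rho (z : ℕ) (f : k[X]) : |rho z f| ≤ 1 := by
  unfold rho
  split_ifs <;> simp

theorem t1_dvd {N : ℕ} {d : k[X]} (hd : d.Monic) (hN : d.natDegree ≤ N) (G : k[X] → ℝ) :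
    ∑ x ∈ mon k N, (if d ∣ x then G x else 0) = ∑ f ∈ mon k (N - d.natDegree), G (d * f) := by
  rw [← sum_filter]
  symm
  refine sum_bij (fun f _ => d * f) (fun f hf => ?_) (fun a _ b _ e => mul_left_cancel₀ hd.ne_zero e)
    (fun x hx => ?_) fun _ _ => rfl
  · obtain ⟨h1, h2⟩ := mem_mon.1 hf
    refine mem_filter.2 ⟨mem_mon.2 ⟨hd.mul h1, ?_⟩, dvd_mul_right _ _⟩
    rw [hd.natDegree_mul h1, h2]
    omega
  · obtain ⟨h1, f, rfl⟩ := mem_filter.1 hx
    obtain ⟨h2, h3⟩ := mem_mon.1 h1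
    have h4 : f.Monic := hd.of_mul_monic_left h2
    rw [hd.natDegree_mul h4] at h3
    exact ⟨f, mem_mon.2 ⟨h4, by omega⟩, rfl⟩

theorem t1_err {u n i : ℕ} (hi : i ≤ n) {K : ℝ} (hK : 1 ≤ K) {F : k[X] → ℝ}
    (hF : ∑ f ∈ mon k n, F f ^ 2 ≤ K * qq k ^ n) {β : k[X] → k[X] → ℝ}
    (hβ : ∀ e ∈ mon k i, ∀ x ∈ mon k (n - i), |β e x| ≤ nd (e * x) ^ 2 / 4 ^ u) :
    |∑ e ∈ mon k i, ∑ x ∈ mon k (n - i), β e x * F (e * x)| ≤
      K * ((n : ℝ) + 1) ^ 32 * qq k ^ n / 4 ^ u := by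
  have h1 := conv_le hi (fun f : k[X] => nd f ^ 2 / 4 ^ u * |F f|) fun f => by positivity
  have h2 : ∑ f ∈ mon k n, nd f * (nd f ^ 2 / 4 ^ u * |F f|) =
      (∑ f ∈ mon k n, nd f ^ 3 * |F f|) / 4 ^ u := by
    rw [sum_div]
    exact sum_congr rfl fun f _ => by ring
  refine le_trans ?_ (h1.trans (h2.le.trans
    (div_le_div_of_nonneg_right (cs_nd hK hF) (by positivity))))
  refine (abs_sum_le_sum_abs _ _).trans (sum_le_sum fun e he =>
    (abs_sum_le_sum_abs _ _).trans (sum_le_sum fun x hx => ?_))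
  rw [abs_mul]
  exact mul_le_mul_of_nonneg_right (hβ e he x hx) (abs_nonneg _)

theorem t1_brun (z u : ℕ) {a f : k[X]} (hf : f ≠ 0) (h : a ∣ f) {c : ℝ} (hc : |c| ≤ 1) :
    |c * (rho z a - brun z u a)| ≤ nd f ^ 2 / 4 ^ u := by
  have h1 := abs_brun_sub_le z u (ne_zero_of_dvd_ne_zero hf h)
  rw [abs_mul, abs_sub_comm]
  refine (mul_le_of_le_one_left (abs_nonneg _) hc).trans (h1.trans ?_)
  have := nd_nonneg a
  have := nd_mono hf h
  gcongr

theorem t1_sum {z u : ℕ} {G : k[X] → ℝ} {B : ℝ} (hB : 0 ≤ B) (h : ∀ d ∈ bset k z u, |G d| ≤ B) :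
    |∑ d ∈ bset k z u, lam d * G d| ≤ qq k ^ (2 * u * z + 1) * B := by
  refine (abs_sum_le_sum_abs _ _).trans ((sum_le_card_nsmul _ _ B fun d hd => ?_).trans ?_)
  · rw [abs_mul]
    exact (mul_le_of_le_one_left (abs_nonneg _) (t1_lam d)).trans (h d hd)
  · rw [nsmul_eq_mul]
    exact mul_le_mul_of_nonneg_right (card_bset z u) hB

theorem t1_row {z u n i : ℕ} (hi : i + 2 * u * z ≤ n) {K ε : ℝ} (hK : 1 ≤ K) (hε : 0 ≤ ε)
    {F α : k[X] → ℝ} (hF : ∑ f ∈ mon k n, F f ^ 2 ≤ K * qq k ^ n)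
    (hα : ∀ e ∈ mon k i, |α e| ≤ 1 ∧ (α e ≠ 0 → Rough z e ∧ Squarefree e))
    (hI : ∀ D : k[X], D.Monic → Squarefree D → D.natDegree ≤ i + 2 * u * z →
      |∑ f ∈ mon k (n - D.natDegree), F (D * f)| ≤ qq k ^ (n - D.natDegree) * ε) :
    |TT z n i F α| ≤ K * ((n : ℝ) + 1) ^ 32 * qq k ^ n / 4 ^ u +
      qq k ^ (2 * u * z + 1) * qq k ^ n * ε := by
  have hq := two_le_qq (k := k)
  have hi' : i ≤ n := le_trans (Nat.le_add_right _ _) hi
  have e1 : TT z n i F α =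
      ∑ e ∈ mon k i, ∑ x ∈ mon k (n - i), α e * (rho z x - brun z u x) * F (e * x) +
        ∑ e ∈ mon k i, α e * ∑ d ∈ bset k z u, lam d *
          ∑ x ∈ mon k (n - i), if d ∣ x then F (e * x) else 0 := by
    unfold TT
    rw [← sum_add_distrib]
    refine sum_congr rfl fun e _ => ?_
    have e2 : ∑ d ∈ bset k z u, lam d * ∑ x ∈ mon k (n - i), (if d ∣ x then F (e * x) else 0) =
        ∑ x ∈ mon k (n - i), brun z u x * F (e * x) := by
      simp only [mul_sum, brun, sum_mul]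
      rw [sum_comm]
      exact sum_congr rfl fun x _ => sum_congr rfl fun d _ => by split_ifs <;> simp
    rw [e2, mul_sum, ← sum_add_distrib]
    exact sum_congr rfl fun x _ => by ring
  rw [e1]
  refine (abs_add_le _ _).trans (add_le_add (t1_err hi' hK hF fun e he x hx =>
    t1_brun z u ((mem_mon.1 he).1.mul (mem_mon.1 hx).1).ne_zero (dvd_mul_left _ _) (hα e he).1) ?_)
  have e3 : qq k ^ (2 * u * z + 1) * qq k ^ n * ε =
      #(mon k i) • (qq k ^ (2 * u * z + 1) * (qq k ^ (n - i) * ε)) := by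
    rw [nsmul_eq_mul, card_mon, ← pow_mul_pow_sub (qq k) hi']
    ring
  rw [e3]
  refine (abs_sum_le_sum_abs _ _).trans (sum_le_card_nsmul _ _ _ fun e he => ?_)
  by_cases a0 : α e = 0
  · rw [a0, zero_mul, abs_zero]
    positivity
  obtain ⟨r1, r2⟩ := (hα e he).2 a0
  obtain ⟨m1, m2⟩ := mem_mon.1 he
  rw [abs_mul]
  refine (mul_le_of_le_one_left (abs_nonneg _) (hα e he).1).trans
    (t1_sum (by positivity) fun d hd => ?_)
  obtain ⟨d1, d2, d3, d4⟩ := bset_spec hd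
  have d5 : (e * d).natDegree = i + d.natDegree := by rw [m1.natDegree_mul d1, m2]
  have d6 := hI (e * d) (m1.mul d1) (squarefree_mul_iff.2 ⟨
    WfDvdMonoid.isRelPrime_of_no_irreducible_factors (fun h => d1.ne_zero h.2)
      fun p p1 p2 p3 => (r1 p p1 p2).not_ge (d4 p p1 p3), r2, d2⟩) (by omega)
  rw [t1_dvd d1 (by omega) fun x => F (e * x)]
  rw [d5, ← Nat.sub_sub] at d6
  simp only [← mul_assoc]
  refine d6.trans (mul_le_mul_of_nonneg_right (pow_le_pow_right₀ (by linarith) (Nat.sub_le _ _)) hε)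

end T1

end

section
theorem musm_mul {p a : k[X]} (hi : Irreducible p) (ha : a ≠ 0) :
    mu (p * a) = if p ∣ a then 0 else -mu a := by
  unfold mu
  by_cases h : p ∣ a
  · rw [if_pos h, if_neg fun s => hi.not_isUnit (s p (mul_dvd_mul_left p h))]
  · rw [if_neg h]
    by_cases s : Squarefree a
    · rw [if_pos s, if_pos (squarefree_mul_iff.2 ⟨hi.isRelPrime_iff_not_dvd.2 h, hi.squarefree, s⟩),
        lam_mul hi.ne_zero ha, id_lam_prime hi, neg_one_mul]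
    · rw [if_neg s, if_neg fun t => s t.of_mul_right, neg_zero]

theorem musm_dv {p g : k[X]} (hp : p.Monic) (hi : Irreducible p) (hg : g ≠ 0) :
    dv (p * g) = dv g ∪ {r ∈ dv g | ¬ p ∣ g /ₘ r}.image (fun r => p * r) := by
  ext r
  rw [mem_union, mem_image, mem_dv (mul_ne_zero hp.ne_zero hg), mem_dv hg]
  constructor
  · rintro ⟨h1, a, h2⟩
    by_cases h : p ∣ a
    · obtain ⟨a, rfl⟩ := h
      exact .inl ⟨h1, a, mul_left_cancel₀ hp.ne_zero (by rw [h2]; ring)⟩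
    · obtain ⟨r, rfl⟩ := (hi.prime.dvd_or_dvd (h2 ▸ dvd_mul_right p g)).resolve_right h
      obtain rfl : g = r * a := mul_left_cancel₀ hp.ne_zero (by rw [h2]; ring)
      have h3 := hp.of_mul_monic_left h1
      exact .inr ⟨r, mem_filter.2 ⟨(mem_dv hg).2 ⟨h3, dvd_mul_right _ _⟩, by
        rwa [mul_divByMonic_cancel_left _ h3]⟩, rfl⟩
  · rintro (⟨h1, h2⟩ | ⟨r, h1, rfl⟩)
    · exact ⟨h1, h2.mul_left _⟩
    · have h2 := (mem_dv hg).1 (mem_filter.1 h1).1
      exact ⟨hp.mul h2.1, mul_dvd_mul_left _ h2.2⟩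

theorem mu_smooth (z : ℕ) {e : k[X]} (he : e.Monic) :
    ∑ r ∈ dv e, (if FrQ (· ≤ z) r then mu (e /ₘ r) else 0) = rho z e * mu e := by
  unfold rho
  by_cases h : Rough z e
  · rw [if_pos h, one_mul, sum_eq_single_of_mem 1 ((mem_dv he.ne_zero).2 ⟨monic_one, one_dvd _⟩),
      if_pos (show FrQ (· ≤ z) (1 : k[X]) from fun p _ h2 h3 =>
        (h2.not_isUnit (isUnit_of_dvd_one h3)).elim), divByMonic_one]
    intro r hr h1
    obtain ⟨h2, h3⟩ := (mem_dv he.ne_zero).1 hr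
    obtain ⟨p, g, p1, p2, -, rfl⟩ := id_fac h2 h1
    exact if_neg fun s => (h p p2 ((dvd_mul_right p g).trans h3)).not_ge
      (s p p1 p2 (dvd_mul_right p g))
  rw [if_neg h, zero_mul]
  obtain ⟨p, hp, g, rfl⟩ : ∃ p ∈ sp k z, p ∣ e := by
    by_contra s
    exact h (rough_iff.2 fun p h1 h2 => s ⟨p, h1, h2⟩)
  obtain ⟨p1, p2, p3⟩ := mem_sp.1 hp
  have g0 : g ≠ 0 := right_ne_zero_of_mul he.ne_zero
  rw [musm_dv p1 p2 g0, sum_union, sum_image fun a _ b _ s => mul_left_cancel₀ p1.ne_zero s,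
    sum_filter, ← sum_add_distrib]
  · refine sum_eq_zero fun r hr => ?_
    obtain ⟨r1, a, rfl⟩ := (mem_dv g0).1 hr
    have e1 : FrQ (· ≤ z) (p * r) ↔ FrQ (· ≤ z) r :=
      ⟨fun s t t1 t2 t3 => s t t1 t2 (t3.mul_left _), fun s t t1 t2 t3 =>
        (t2.prime.dvd_or_dvd t3).elim (fun u => (natDegree_le_of_dvd u p1.ne_zero).trans p3)
          (s t t1 t2)⟩
    rw [mul_divByMonic_cancel_left _ r1, ← mul_assoc, mul_divByMonic_cancel_left _ (p1.mul r1),
      mul_comm p r, mul_assoc, mul_divByMonic_cancel_left _ r1, mul_comm r p,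
      musm_mul p2 (right_ne_zero_of_mul g0)]
    simp only [e1]
    split_ifs <;> ring
  · rw [disjoint_left]
    intro r h1 h2
    obtain ⟨r, h3, rfl⟩ := mem_image.1 h2
    obtain ⟨h4, h5⟩ := mem_filter.1 h3
    obtain ⟨c, rfl⟩ := ((mem_dv g0).1 h1).2
    rw [mul_comm p r, mul_assoc, mul_divByMonic_cancel_left _ ((mem_dv g0).1 h4).1] at h5
    exact h5 (dvd_mul_right p c)

end

section
section TM

omit [Fintype k] in
theorem tm_mu (f : k[X]) : |mu f| ≤ 1 := by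
  unfold mu lam
  split_ifs
  · rw [abs_pow, abs_neg, abs_one, one_pow]
  · simp

omit [Fintype k] in
theorem tm_rho (z : ℕ) (f : k[X]) : |rho z f| ≤ 1 := by
  unfold rho
  split_ifs <;> simp

theorem tm_dvd {N : ℕ} {d : k[X]} (hd : d.Monic) (hN : d.natDegree ≤ N) (G : k[X] → ℝ) :
    ∑ x ∈ mon k N, (if d ∣ x then G x else 0) = ∑ f ∈ mon k (N - d.natDegree), G (d * f) := by
  rw [← sum_filter]
  symm
  refine sum_bij (fun f _ => d * f) (fun f hf => ?_) (fun a _ b _ e => mul_left_cancel₀ hd.ne_zero e)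
    (fun x hx => ?_) fun _ _ => rfl
  · obtain ⟨h1, h2⟩ := mem_mon.1 hf
    refine mem_filter.2 ⟨mem_mon.2 ⟨hd.mul h1, ?_⟩, dvd_mul_right _ _⟩
    rw [hd.natDegree_mul h1, h2]
    omega
  · obtain ⟨h1, f, rfl⟩ := mem_filter.1 hx
    obtain ⟨h2, h3⟩ := mem_mon.1 h1
    have h4 : f.Monic := hd.of_mul_monic_left h2
    rw [hd.natDegree_mul h4] at h3
    exact ⟨f, mem_mon.2 ⟨h4, by omega⟩, rfl⟩

/-- The number of smooth divisors of large degree. -/
def tm_W (z R : ℕ) (f : k[X]) : ℝ := #{r ∈ dv f | FrQ (· ≤ z) r ∧ R < r.natDegree}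

/-- The part of the weight that comes from smooth divisors of large degree. -/
def tm_b (z R : ℕ) (e : k[X]) : ℝ :=
  ∑ r ∈ dv e, if FrQ (· ≤ z) r ∧ R < r.natDegree then mu (e /ₘ r) else 0

theorem tm_W_cases (z R : ℕ) (f : k[X]) : tm_W z R f = 0 ∨ 1 ≤ tm_W z R f := by
  unfold tm_W
  rcases Nat.eq_zero_or_pos #{r ∈ dv f | FrQ (· ≤ z) r ∧ R < r.natDegree} with h | h
  · exact Or.inl (Nat.cast_eq_zero.2 h)
  · exact Or.inr (Nat.one_le_cast.2 h)

theorem tm_W_le (z R : ℕ) (f : k[X]) : tm_W z R f ≤ nd f :=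
  Nat.cast_le.2 (card_filter_le _ _)

theorem tm_W_mono (z R : ℕ) {a f : k[X]} (hf : f ≠ 0) (h : a ∣ f) : tm_W z R a ≤ tm_W z R f := by
  refine Nat.cast_le.2 (card_le_card fun r hr => ?_)
  obtain ⟨h1, h2⟩ := mem_filter.1 hr
  obtain ⟨h3, h4⟩ := (mem_dv (ne_zero_of_dvd_ne_zero hf h)).1 h1
  exact mem_filter.2 ⟨(mem_dv hf).2 ⟨h3, h4.trans h⟩, h2⟩

theorem tm_b_le (z R : ℕ) (e : k[X]) : |tm_b z R e| ≤ tm_W z R e := by
  rw [tm_b, tm_W, ← sum_boole]
  refine (abs_sum_le_sum_abs _ _).trans (sum_le_sum fun r _ => ?_)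
  split_ifs
  exacts [tm_mu _, abs_zero.le]

theorem tm_W_sum {z : ℕ} (hz : 1 ≤ z) (u n : ℕ) : ∑ f ∈ mon k n, tm_W z (8 * u * z) f ≤
    ((n : ℝ) + 1) * (256 * (1 / 2) ^ (4 * u) * qq k ^ n) := by
  have hq := fr_q (k := k)
  obtain ⟨s, s1, s2, s3, s4⟩ := psi_root (k := k) hz
  have e := sum_dv (k := k) n fun r _ =>
    if FrQ (· ≤ z) r ∧ 8 * u * z < r.natDegree then (1 : ℝ) else 0
  have e2 : ∑ f ∈ mon k n, tm_W z (8 * u * z) f = ∑ f ∈ mon k n, ∑ r ∈ dv f,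
      if FrQ (· ≤ z) r ∧ 8 * u * z < r.natDegree then (1 : ℝ) else 0 :=
    sum_congr rfl fun f _ => by rw [tm_W, sum_boole]
  rw [e2, e]
  refine (sum_le_card_nsmul _ _ (256 * (1 / 2) ^ (4 * u) * qq k ^ n) fun l hl => ?_).trans_eq
    (by rw [card_range, nsmul_eq_mul, Nat.cast_succ])
  have hl' : l ≤ n := Nat.lt_succ_iff.1 (mem_range.1 hl)
  by_cases h : 8 * u * z < l
  · have a1 : ∑ r ∈ mon k l, ∑ _b ∈ mon k (n - l),
        (if FrQ (· ≤ z) r ∧ 8 * u * z < r.natDegree then (1 : ℝ) else 0) ≤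
        frD k (· ≤ z) l * qq k ^ n := by
      simp only [sum_const, nsmul_eq_mul, card_mon]
      rw [← mul_sum, sum_boole, frD, ← pow_mul_pow_sub (qq k) hl', ← mul_assoc,
        div_mul_cancel₀ _ (by positivity), mul_comm]
      refine mul_le_mul_of_nonneg_right (Nat.cast_le.2 (card_le_card fun r hr => ?_)) (by positivity)
      exact mem_filter.2 ⟨(mem_filter.1 hr).1, (mem_filter.1 hr).2.1⟩
    refine a1.trans (mul_le_mul_of_nonneg_right ((s3 l).trans (mul_le_mul_of_nonneg_left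
      ((s4 l).trans ?_) (by norm_num))) (by positivity))
    refine pow_le_pow_of_le_one (by norm_num) (by norm_num)
      ((Nat.le_div_iff_mul_le (by omega)).2 ?_)
    have : 4 * u * (2 * z) = 8 * u * z := by ring
    omega
  · refine le_of_eq_of_le (sum_eq_zero fun a ha => sum_eq_zero fun b _ => if_neg fun h' => h ?_)
      (by positivity)
    rw [← (mem_mon.1 ha).2]
    exact h'.2

theorem tm_pt {N W a T : ℝ} (hT : 0 < T) (hN : 0 ≤ N) (h0 : W = 0 ∨ 1 ≤ W) (hW : W ≤ N) :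
    N * (W * |a|) ≤ a ^ 2 / (2 * T) + N ^ 8 / (4 * T) + T ^ 3 * W / 4 := by
  rcases h0 with rfl | h1
  · simp only [zero_mul, mul_zero, zero_div, add_zero]
    positivity
  have h2 : N * (W * |a|) ≤ N ^ 2 * |a| := by
    rw [sq, mul_assoc]
    gcongr
  have h3 : N ^ 2 * |a| ≤ a ^ 2 / (2 * T) + T * N ^ 4 / 2 := by
    rw [← sq_abs a, ← sub_nonneg]
    have : |a| ^ 2 / (2 * T) + T * N ^ 4 / 2 - N ^ 2 * |a| = (|a| - T * N ^ 2) ^ 2 / (2 * T) := by
      field_simp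
      ring
    rw [this]
    positivity
  have h4 : T * N ^ 4 / 2 ≤ N ^ 8 / (4 * T) + T ^ 3 / 4 := by
    rw [← sub_nonneg]
    have : N ^ 8 / (4 * T) + T ^ 3 / 4 - T * N ^ 4 / 2 = (N ^ 4 - T ^ 2) ^ 2 / (4 * T) := by
      field_simp
      ring
    rw [this]
    positivity
  have h5 : T ^ 3 * 1 ≤ T ^ 3 * W := mul_le_mul_of_nonneg_left h1 (pow_pos hT 3).le
  linarith

theorem tm_num {K P M Q T A B C : ℝ} (hK : 1 ≤ K) (hM : 1 ≤ M) (hP : M ≤ P) (hQ : 0 < Q)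
    (hT : 0 < T) (hA : A ≤ K * Q) (hB : B ≤ P * Q) (hC : C ≤ M * (256 * (1 / T ^ 4) * Q)) :
    A / (2 * T) + B / (4 * T) + T ^ 3 * C / 4 ≤ 300 * K * P * Q / T := by
  have p1 : 1 ≤ P := hM.trans hP
  have a1 : K * 1 * Q ≤ K * P * Q := by gcongr
  have a2 : 1 * P * Q ≤ K * P * Q := by gcongr
  have a3 : M * Q ≤ P * Q := by gcongr
  have b1 : A / T ≤ K * P * Q / T := div_le_div_of_nonneg_right (by linarith) hT.le
  have b2 : B / T ≤ K * P * Q / T := div_le_div_of_nonneg_right (by linarith) hT.le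
  have b3 : M * Q / T ≤ K * P * Q / T := div_le_div_of_nonneg_right (by linarith) hT.le
  have b4 : T ^ 3 * C ≤ T ^ 3 * (M * (256 * (1 / T ^ 4) * Q)) :=
    mul_le_mul_of_nonneg_left hC (pow_pos hT 3).le
  have c1 : T ^ 3 * (M * (256 * (1 / T ^ 4) * Q)) = 256 * (M * Q / T) := by field_simp
  have c2 : A / (2 * T) = A / T / 2 := by field_simp
  have c3 : B / (4 * T) = B / T / 4 := by field_simp
  have c4 : 300 * K * P * Q / T = 300 * (K * P * Q / T) := by ring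
  have c5 : 0 ≤ K * P * Q / T := by positivity
  linarith

theorem tm_big {z u n i : ℕ} (hz : 1 ≤ z) (hi : i ≤ n) {K : ℝ} (hK : 1 ≤ K) {a : k[X] → ℝ}
    (hF : ∑ f ∈ mon k n, a f ^ 2 ≤ K * qq k ^ n) :
    |∑ e ∈ mon k i, ∑ x ∈ mon k (n - i), tm_b z (8 * u * z) e * rho z x * a (e * x)| ≤
      300 * K * ((n : ℝ) + 1) ^ 255 * qq k ^ n / 2 ^ u := by
  have hq := fr_q (k := k)
  have hT : (0 : ℝ) < 2 ^ u := by positivity
  have h1 := conv_le hi (fun f : k[X] => tm_W z (8 * u * z) f * |a f|) fun f =>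
    mul_nonneg (Nat.cast_nonneg _) (abs_nonneg _)
  have h2 : ∑ f ∈ mon k n, nd f * (tm_W z (8 * u * z) f * |a f|) ≤
      (∑ f ∈ mon k n, a f ^ 2) / (2 * 2 ^ u) + (∑ f ∈ mon k n, nd f ^ 8) / (4 * 2 ^ u) +
        (2 ^ u) ^ 3 * (∑ f ∈ mon k n, tm_W z (8 * u * z) f) / 4 := by
    rw [sum_div, sum_div, mul_sum, sum_div, ← sum_add_distrib, ← sum_add_distrib]
    exact sum_le_sum fun f _ => tm_pt hT (nd_nonneg f) (tm_W_cases _ _ f) (tm_W_le _ _ f)
  have h3 : ∑ f ∈ mon k n, nd f ^ 8 ≤ ((n : ℝ) + 1) ^ 255 * qq k ^ n := sum_nd_pow 8 n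
  have h4 := tm_W_sum (k := k) hz u n
  have h5 : (1 / 2 : ℝ) ^ (4 * u) = 1 / (2 ^ u) ^ 4 := by
    rw [one_div_pow, ← pow_mul, mul_comm]
  have h6 : (1 : ℝ) ≤ (n : ℝ) + 1 := le_add_of_nonneg_left (Nat.cast_nonneg n)
  rw [h5] at h4
  refine le_trans ?_ (h1.trans (h2.trans (tm_num hK h6 (le_self_pow₀ h6 (by norm_num))
    (pow_pos hq n) hT hF h3 h4)))
  refine (abs_sum_le_sum_abs _ _).trans (sum_le_sum fun e he =>
    (abs_sum_le_sum_abs _ _).trans (sum_le_sum fun x hx => ?_))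
  rw [abs_mul, abs_mul]
  exact mul_le_mul_of_nonneg_right ((mul_le_of_le_one_right (abs_nonneg _) (tm_rho z x)).trans
    ((tm_b_le _ _ e).trans (tm_W_mono _ _ ((mem_mon.1 he).1.mul (mem_mon.1 hx).1).ne_zero
      (dvd_mul_right _ _)))) (abs_nonneg _)

theorem tm_small {z R n i : ℕ} (hi : i ≤ n) {B : ℝ} (hB : 0 ≤ B) {a : k[X] → ℝ}
    (hM : ∀ (j : ℕ) (γ : k[X] → ℝ), j ≤ n - i + R → (∀ x, |γ x| ≤ 1) →
      |∑ x ∈ mon k j, γ x * ∑ e ∈ mon k (n - j), mu e * a (x * e)| ≤ B) :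
    |∑ e ∈ mon k i, ∑ x ∈ mon k (n - i), (rho z e * mu e - tm_b z R e) * rho z x * a (e * x)| ≤
      qq k ^ (R + 1) * B := by
  have e := sum_dv (k := k) i fun r b => if FrQ (· ≤ z) r ∧ r.natDegree ≤ R then
    mu b * ∑ x ∈ mon k (n - i), rho z x * a (r * b * x) else 0
  have e4 : ∀ e ∈ mon k i,
      ∑ x ∈ mon k (n - i), (rho z e * mu e - tm_b z R e) * rho z x * a (e * x) =
      ∑ r ∈ dv e, if FrQ (· ≤ z) r ∧ r.natDegree ≤ R then
        mu (e /ₘ r) * ∑ x ∈ mon k (n - i), rho z x * a (r * (e /ₘ r) * x) else 0 := by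
    intro e he
    have hm := (mem_mon.1 he).1
    simp only [mul_assoc (rho z e * mu e - tm_b z R e)]
    rw [← mul_sum, ← mu_smooth z hm, tm_b, ← sum_sub_distrib, sum_mul]
    refine sum_congr rfl fun r hr => ?_
    obtain ⟨r1, r2⟩ := (mem_dv hm.ne_zero).1 hr
    have r3 : r * (e /ₘ r) = e := by
      obtain ⟨b, rfl⟩ := r2
      rw [mul_divByMonic_cancel_left _ r1]
    rw [r3]
    by_cases h1 : FrQ (· ≤ z) r
    · by_cases h2 : R < r.natDegree
      · rw [if_pos h1, if_pos ⟨h1, h2⟩, if_neg fun h => h2.not_ge h.2, sub_self, zero_mul]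
      · rw [if_pos h1, if_neg fun h => h2 h.2, if_pos ⟨h1, not_lt.1 h2⟩, sub_zero]
    · rw [if_neg h1, if_neg fun h => h1 h.1, if_neg fun h => h1 h.1, sub_self, zero_mul]
  have e5 : ∑ r ∈ mle k i, (if r.natDegree ≤ R then B else 0) ≤ qq k ^ (R + 1) * B := by
    rw [← sum_filter, sum_const, nsmul_eq_mul]
    refine mul_le_mul_of_nonneg_right (le_trans (Nat.cast_le.2 (card_le_card fun r hr => ?_))
      (card_mle R)) hB
    exact mem_mle.2 ⟨(mem_mle.1 (mem_filter.1 hr).1).1, (mem_filter.1 hr).2⟩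
  rw [sum_congr rfl e4, e]
  rw [sum_mle] at e5
  refine le_trans ?_ e5
  refine (abs_sum_le_sum_abs _ _).trans (sum_le_sum fun l hl =>
    (abs_sum_le_sum_abs _ _).trans (sum_le_sum fun r hr => ?_))
  have hl' : l ≤ i := Nat.lt_succ_iff.1 (mem_range.1 hl)
  obtain ⟨r1, r2⟩ := mem_mon.1 hr
  by_cases h : FrQ (· ≤ z) r ∧ r.natDegree ≤ R
  · simp only [if_pos h, if_pos h.2]
    have h0 := h.2
    have h1 := hM (n - i + l) (fun x => if r ∣ x then rho z (x /ₘ r) else 0) (by omega) fun x => by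
      split_ifs
      exacts [tm_rho _ _, by simp]
    have h2 := tm_dvd (N := n - i + l) r1 (by omega) fun x =>
      rho z (x /ₘ r) * ∑ b ∈ mon k (i - l), mu b * a (x * b)
    rw [show n - (n - i + l) = i - l by omega] at h1
    simp only [ite_mul, zero_mul] at h1
    rw [h2, r2, Nat.add_sub_cancel] at h1
    refine le_of_eq_of_le (congrArg _ ?_) h1
    simp only [mul_sum, mul_divByMonic_cancel_left _ r1]
    rw [sum_comm]
    exact sum_congr rfl fun x _ => sum_congr rfl fun b _ => by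
      rw [mul_right_comm r b x]
      ring
  · simp only [if_neg h, sum_const_zero, abs_zero]
    split_ifs
    exacts [hB, le_rfl]

theorem tm_row {z u n i : ℕ} (hz : 1 ≤ z) (hi : i ≤ n) {K ε c : ℝ} (hK : 1 ≤ K) (hε : 0 ≤ ε)
    (hc : 0 ≤ c) {a : k[X] → ℝ} (hF : ∑ f ∈ mon k n, a f ^ 2 ≤ K * qq k ^ n)
    (hM : ∀ (j : ℕ) (γ : k[X] → ℝ), j ≤ n - i + 8 * u * z → (∀ x, |γ x| ≤ 1) →
      |∑ x ∈ mon k j, γ x * ∑ e ∈ mon k (n - j), mu e * a (x * e)| ≤ qq k ^ n * ε) :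
    |TT z n i (fun f => a f - c) fun e => rho z e * mu e| ≤
      300 * K * ((n : ℝ) + 1) ^ 255 * qq k ^ n / 2 ^ u + qq k ^ (8 * u * z + 1) * qq k ^ n * ε +
        c * 2048 * (1 / 2) ^ (i / (2 * z)) * qq k ^ n := by
  have hq := fr_q (k := k)
  have e3 : c * (mm k z i * qq k ^ i * ∑ x ∈ mon k (n - i), rho z x) =
      ∑ e ∈ mon k i, ∑ x ∈ mon k (n - i), c * (rho z e * mu e * rho z x) := by
    unfold mm
    rw [div_mul_cancel₀ _ (by positivity), sum_mul_sum, mul_sum]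
    exact sum_congr rfl fun e _ => mul_sum _ _ _
  have e1 : TT z n i (fun f => a f - c) (fun e => rho z e * mu e) =
      ∑ e ∈ mon k i, ∑ x ∈ mon k (n - i), tm_b z (8 * u * z) e * rho z x * a (e * x) +
        ∑ e ∈ mon k i, ∑ x ∈ mon k (n - i),
          (rho z e * mu e - tm_b z (8 * u * z) e) * rho z x * a (e * x) -
        c * (mm k z i * qq k ^ i * ∑ x ∈ mon k (n - i), rho z x) := by
    rw [e3]
    unfold TT
    simp only [← sum_add_distrib, ← sum_sub_distrib]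
    exact sum_congr rfl fun e _ => sum_congr rfl fun x _ => by ring
  rw [e1]
  refine (abs_sub _ _).trans (add_le_add ((abs_add_le _ _).trans (add_le_add (tm_big hz hi hK hF)
    ((tm_small hi (by positivity) hM).trans_eq (mul_assoc _ _ _).symm))) ?_)
  have h1 : |∑ x ∈ mon k (n - i), rho z x| ≤ qq k ^ (n - i) := by
    refine (abs_sum_le_sum_abs _ _).trans
      ((sum_le_card_nsmul _ _ 1 fun x _ => tm_rho z x).trans_eq ?_)
    rw [nsmul_one, card_mon]
  have h2 := mm_tail_pf (k := k) hz i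
  rw [abs_mul, abs_mul, abs_mul, abs_of_nonneg hc, abs_of_pos (pow_pos hq i),
    ← pow_mul_pow_sub (qq k) hi]
  calc _ ≤ c * (2048 * (1 / 2) ^ (i / (2 * z)) * qq k ^ i * qq k ^ (n - i)) := by gcongr
    _ = _ := by ring

end TM

end

section
theorem ada_poly (C : ℝ) (d : ℕ) : ∀ᶠ t : ℕ in atTop, C * ((t : ℝ) + 1) ^ d ≤ 2 ^ t := by
  have h1 := (tendsto_pow_const_div_const_pow_of_one_lt d (show (1 : ℝ) < 2 by norm_num)).comp
    (tendsto_add_atTop_nat 1)
  have h2 := h1.const_mul (2 * C)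
  rw [mul_zero] at h2
  filter_upwards [h2.eventually (gt_mem_nhds (show (0 : ℝ) < 1 by norm_num))] with t ht
  simp only [Function.comp, Nat.cast_add, Nat.cast_one] at ht
  rw [← mul_div_assoc, div_lt_one (by positivity), pow_succ] at ht
  linarith

theorem ada_div {κ : ℕ} (hκ : 0 < κ) : ∀ᶠ n : ℕ in atTop, 2 * (n : ℝ) ^ 10 ≤ 2 ^ (n / κ) := by
  have h := (Nat.tendsto_div_const_atTop hκ.ne').eventually (ada_poly (2 * (κ : ℝ) ^ 10) 10)
  filter_upwards [h] with n hn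
  refine le_trans ?_ hn
  have h1 : n ≤ κ * (n / κ + 1) := (Nat.lt_mul_div_succ n hκ).le
  have h2 : (n : ℝ) ≤ κ * (((n / κ : ℕ) : ℝ) + 1) := by exact_mod_cast h1
  rw [mul_assoc, ← mul_pow]
  exact mul_le_mul_of_nonneg_left (pow_le_pow_left₀ (Nat.cast_nonneg _) h2 10) (by norm_num)

theorem hii_of {a : k[X] → ℝ} {c : ℕ → ℝ} (h : HIIs a c) : HII a c := by
  obtain ⟨κ, κ', K, hκ, hκ', h⟩ := h
  refine ⟨κ, hκ, ?_⟩
  obtain ⟨N, hN⟩ := eventually_atTop.1 (h.and (ada_div hκ'))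
  filter_upwards [ada_poly (2 * |K|) 120, eventually_ge_atTop (N + 1)] with t ht htN n y h1 h2 h3 h4
  have ht1 : 1 ≤ t := by omega
  have htn : t ≤ n := (Nat.le_self_pow (by norm_num) t).trans h1
  have hty : t ≤ y := (Nat.le_self_pow (by norm_num) t).trans h3.le
  obtain ⟨hA, hB⟩ := hN n (by omega)
  have hq := two_le_qq (k := k)
  have hn1 : (1 : ℝ) ≤ n := by exact_mod_cast ht1.trans htn
  have hle : ∑ m ∈ mon k (n - y), rho (t ^ 7) m * (if Squarefree m then 1 else 0) *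
      (∑ p ∈ prs k y with ¬ p ∣ m, (a (p * m) - c n)) ^ 2 ≤
      ∑ m ∈ mon k (n - y) with Squarefree m,
        (∑ p ∈ prs k y with ¬ p ∣ m, (a (p * m) - c n)) ^ 2 := by
    rw [Finset.sum_filter (p := fun m : k[X] => Squarefree m)]
    refine Finset.sum_le_sum fun m _ => ?_
    unfold rho
    split_ifs <;> simp [sq_nonneg]
  refine hle.trans ((hA y (by omega) h4).trans ?_)
  have e1 : 2 * |K| * (n : ℝ) ^ 12 ≤ qq k ^ y := by
    have h5 : (n : ℝ) ≤ ((t : ℝ) + 1) ^ 10 := by exact_mod_cast h2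
    have h6 : (n : ℝ) ^ 12 ≤ ((t : ℝ) + 1) ^ 120 :=
      (pow_le_pow_left₀ (Nat.cast_nonneg _) h5 12).trans (le_of_eq (by rw [← pow_mul]))
    calc _ ≤ 2 * |K| * ((t : ℝ) + 1) ^ 120 := mul_le_mul_of_nonneg_left h6 (by positivity)
      _ ≤ 2 ^ t := ht
      _ ≤ 2 ^ y := pow_le_pow_right₀ one_le_two hty
      _ ≤ _ := pow_le_pow_left₀ (by norm_num) hq y
  have e2 : 2 * (n : ℝ) ^ 10 ≤ qq k ^ (n / κ') :=
    hB.trans (pow_le_pow_left₀ (by norm_num) hq _)
  have hQ : 0 < qq k ^ n := by positivity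
  have f1 : (n : ℝ) ^ 2 * |K| * qq k ^ n ≤ qq k ^ (n + y) / (2 * (n : ℝ) ^ 10) := by
    rw [le_div_iff₀ (by positivity), pow_add]
    calc _ = qq k ^ n * (2 * |K| * (n : ℝ) ^ 12) := by ring
      _ ≤ _ := mul_le_mul_of_nonneg_left e1 hQ.le
  have f2 : qq k ^ (n + y) / qq k ^ (n / κ') ≤ qq k ^ (n + y) / (2 * (n : ℝ) ^ 10) :=
    div_le_div_of_nonneg_left (by positivity) (by positivity) e2
  have f3 : qq k ^ (n + y) / (n : ℝ) ^ 10 = qq k ^ (n + y) / (2 * (n : ℝ) ^ 10) +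
      qq k ^ (n + y) / (2 * (n : ℝ) ^ 10) := by
    field_simp
    ring
  have g1 : (n : ℝ) * K * qq k ^ n ≤ (n : ℝ) ^ 2 * |K| * qq k ^ n := by
    refine mul_le_mul_of_nonneg_right ?_ hQ.le
    exact (mul_le_mul_of_nonneg_left (le_abs_self K) (Nat.cast_nonneg _)).trans
      (mul_le_mul_of_nonneg_right (by nlinarith) (abs_nonneg _))
  have g2 : (n : ℝ) ^ 2 * K * qq k ^ n ≤ (n : ℝ) ^ 2 * |K| * qq k ^ n :=
    mul_le_mul_of_nonneg_right (mul_le_mul_of_nonneg_left (le_abs_self K) (by positivity)) hQ.le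
  linarith

end

section
/-- The truncated Moebius sum. -/
def ram_T (φ : ℕ → ℝ) (f : k[X]) : ℝ := ∑ e ∈ dv f, mu e * φ e.natDegree

/-- The number of small prime factors. -/
def ram_O (Z : ℕ) (f : k[X]) : ℝ := #{p ∈ sp k Z | p ∣ f}

/-- The weight after removing one prime. -/
def ram_B (φ : ℕ → ℝ) (Z y : ℕ) (x : k[X]) : ℝ :=
  ram_T (fun i => φ i - φ (i + y)) x / (ram_O Z x + 1)

theorem ram_mu (e : k[X]) : |mu e| ≤ 1 := by
  unfold mu
  split_ifs
  · exact (abs_lam e).le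
  · simp

theorem ram_T_le {φ : ℕ → ℝ} {w : ℝ} (hφ : ∀ i, |φ i| ≤ w) (f : k[X]) :
    |ram_T φ f| ≤ w * nd f := by
  refine (abs_sum_le_sum_abs _ _).trans ?_
  have : ∀ e ∈ dv f, |mu e * φ e.natDegree| ≤ w := fun e _ => by
    rw [abs_mul]
    nlinarith [ram_mu e, hφ e.natDegree, abs_nonneg (mu e), abs_nonneg (φ e.natDegree)]
  refine (sum_le_sum this).trans (le_of_eq ?_)
  rw [sum_const, nsmul_eq_mul, nd, mul_comm]

theorem ram_O_nonneg (Z : ℕ) (f : k[X]) : 0 ≤ ram_O Z f := Nat.cast_nonneg _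

theorem ram_B_le {φ : ℕ → ℝ} {w : ℝ} (hφ : ∀ i, |φ i| ≤ w) (Z y : ℕ) (x : k[X]) :
    |ram_B φ Z y x| ≤ 2 * w * nd x := by
  have h := ram_T_le (φ := fun i => φ i - φ (i + y)) (w := 2 * w)
    (fun i => (abs_sub _ _).trans (by linarith [hφ i, hφ (i + y)])) x
  have h0 := ram_O_nonneg Z x
  unfold ram_B
  rw [abs_div, abs_of_pos (by linarith : 0 < ram_O Z x + 1)]
  exact (div_le_self (abs_nonneg _) (by linarith)).trans h

theorem ram_O_pos {Z : ℕ} {p f : k[X]} (hp : p ∈ sp k Z) (h : p ∣ f) : 1 ≤ ram_O Z f := by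
  unfold ram_O
  exact_mod_cast card_pos.2 ⟨p, mem_filter.2 ⟨hp, h⟩⟩

theorem ram_sf {φ : ℕ → ℝ} {Z : ℕ} {p x : k[X]} (hp : p ∈ sp k Z) (hx : x.Monic)
    (hs : Squarefree (p * x)) : ram_T φ (p * x) / ram_O Z (p * x) = ram_B φ Z p.natDegree x := by
  obtain ⟨hm, hi, -⟩ := mem_sp.1 hp
  have hn : ¬ p ∣ x := fun h => hi.not_isUnit (hs p (mul_dvd_mul_left p h))
  have e1 : ram_O Z (p * x) = ram_O Z x + 1 := by
    unfold ram_O
    have : {r ∈ sp k Z | r ∣ p * x} = insert p {r ∈ sp k Z | r ∣ x} := by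
      ext r
      simp only [mem_filter, mem_insert]
      constructor
      · rintro ⟨h1, h2⟩
        obtain ⟨h3, h4, -⟩ := mem_sp.1 h1
        rcases h4.prime.dvd_or_dvd h2 with h5 | h5
        · exact Or.inl (eq_of_monic_of_associated h3 hm (h4.associated_of_dvd hi h5))
        · exact Or.inr ⟨h1, h5⟩
      · rintro (rfl | ⟨h1, h2⟩)
        · exact ⟨hp, dvd_mul_right _ _⟩
        · exact ⟨h1, h2.mul_left _⟩
    have hn' : p ∉ {r ∈ sp k Z | r ∣ x} := fun h => hn (mem_filter.1 h).2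
    rw [this, card_insert_of_notMem hn']
    push_cast
    rfl
  have e2 : ram_T φ (p * x) = ram_T (fun i => φ i - φ (i + p.natDegree)) x := by
    unfold ram_T
    rw [id_sum_split hm hi hx.ne_zero hn, ← sum_add_distrib]
    refine sum_congr rfl fun a ha => ?_
    obtain ⟨h1, h2⟩ := (mem_dv hx.ne_zero).1 ha
    have s1 : Squarefree (p * a) := hs.squarefree_of_dvd (mul_dvd_mul_left p h2)
    have s2 : Squarefree a := s1.of_mul_right
    unfold mu
    rw [if_pos s1, if_pos s2, lam_mul hm.ne_zero h1.ne_zero, id_lam_prime hi, hm.natDegree_mul h1,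
      add_comm p.natDegree]
    ring
  rw [e1, e2, ram_B]

theorem ram_split {z Z : ℕ} (hz : z ≤ Z) {f : k[X]} (hf : f ≠ 0) (T : ℝ) :
    rho z f * T = rho Z f * T +
      ∑ a ∈ dv f, if a ∈ sp k Z then rho z f * (T / ram_O Z f) else 0 := by
  have e : ∑ a ∈ dv f, (if a ∈ sp k Z then rho z f * (T / ram_O Z f) else 0) =
      ram_O Z f * (rho z f * (T / ram_O Z f)) := by
    rw [← sum_filter, sum_const, nsmul_eq_mul]
    congr 2
    congr 1
    ext a
    simp only [mem_filter, mem_dv hf]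
    exact ⟨fun h => ⟨h.2, h.1.2⟩, fun h => ⟨⟨(mem_sp.1 h.1).1, h.2⟩, h.1⟩⟩
  rw [e]
  by_cases h : Rough Z f
  · have h0 : ram_O Z f = 0 := by
      unfold ram_O
      rw [filter_eq_empty_iff.2 (rough_iff.1 h)]
      simp
    have h1 : Rough z f := fun p hp hd => lt_of_le_of_lt hz (h p hp hd)
    rw [h0, rho, rho, if_pos h, if_pos h1]
    ring
  · have h1 := h
    rw [rough_iff] at h1
    push Not at h1
    obtain ⟨p, hp, hd⟩ := h1
    have h2 := ram_O_pos hp hd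
    have h3 : rho Z f = 0 := if_neg h
    rw [h3]
    field_simp
    ring

omit [Fintype k] in
theorem ram_rho_mul (z : ℕ) (a b : k[X]) : rho z (a * b) = rho z a * rho z b := by
  unfold rho
  rw [rough_mul]
  by_cases h1 : Rough z a <;> by_cases h2 : Rough z b <;> simp [h1, h2]

omit [Fintype k] in
theorem ram_rho_nonneg (z : ℕ) (a : k[X]) : 0 ≤ rho z a := by
  unfold rho
  split_ifs <;> norm_num

theorem ram_nd {n : ℕ} {z : ℕ} {f : k[X]} (hf : f ∈ mon k n) (h : Rough z f) :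
    nd f ≤ 2 ^ (n / (z + 1)) := by
  have := id_card_dv z n f (mem_mon.1 hf).2 (mem_mon.1 hf).1 h
  unfold nd
  exact_mod_cast this

theorem ram_lhs (z n : ℕ) (F : k[X] → ℝ) (φ : ℕ → ℝ) :
    ∑ i ∈ range (n + 1), φ i * TT z n i F (fun e => rho z e * mu e) =
      ∑ f ∈ mon k n, rho z f * ram_T φ f * F f := by
  have h := sum_dv (k := k) n fun a b => rho z (a * b) * (mu a * φ a.natDegree) * F (a * b)
  have e1 : ∑ f ∈ mon k n, rho z f * ram_T φ f * F f = ∑ f ∈ mon k n, ∑ a ∈ dv f,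
      rho z (a * (f /ₘ a)) * (mu a * φ a.natDegree) * F (a * (f /ₘ a)) := by
    refine sum_congr rfl fun f hf => ?_
    rw [ram_T, mul_sum, sum_mul]
    refine sum_congr rfl fun a ha => ?_
    obtain ⟨h1, b, rfl⟩ := (mem_dv (mem_mon.1 hf).1.ne_zero).1 ha
    rw [mul_divByMonic_cancel_left _ h1]
  rw [e1, h]
  refine sum_congr rfl fun i _ => ?_
  rw [TT, mul_sum]
  refine sum_congr rfl fun a ha => ?_
  rw [mul_sum]
  refine sum_congr rfl fun b _ => ?_
  rw [ram_rho_mul, (mem_mon.1 ha).2]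
  ring

omit [Fintype k] in
theorem ram_sq {a : k[X]} (h : Irreducible a) (b : k[X]) :
    Squarefree (a * b) ↔ Squarefree b ∧ ¬ a ∣ b := by
  rw [squarefree_mul_iff, h.isRelPrime_iff_not_dvd]
  exact ⟨fun h1 => ⟨h1.2.2, h1.1⟩, fun h1 => ⟨h1.2, h.squarefree, h1.1⟩⟩

theorem ram_cell {z Z n i : ℕ} (hi : i ≤ n) {V w : ℝ} (hV : 0 ≤ V)
    {F : k[X] → ℝ} {φ : ℕ → ℝ} (hφ : ∀ i, |φ i| ≤ w)
    (hvar : ∀ y, z < y → y ≤ Z →
      ∑ m ∈ mon k (n - y), rho z m * (if Squarefree m then 1 else 0) *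
        (∑ p ∈ prs k y with ¬ p ∣ m, F (p * m)) ^ 2 ≤ V ^ 2 * qq k ^ (n + y)) :
    |∑ a ∈ mon k i, ∑ b ∈ mon k (n - i), if a ∈ sp k Z ∧ Squarefree (a * b) then
        rho z (a * b) * ram_B φ Z a.natDegree b * F (a * b) else 0| ≤
      if i = 0 then 0 else 2 * w * ((n : ℝ) + 1) ^ 2 * V * qq k ^ n := by
  have hw : 0 ≤ w := (abs_nonneg _).trans (hφ 0)
  have hq := fr_q (k := k)
  by_cases h : z < i ∧ i ≤ Z
  · rw [if_neg (by omega)]
    have e : ∑ a ∈ mon k i, ∑ b ∈ mon k (n - i), (if a ∈ sp k Z ∧ Squarefree (a * b) then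
        rho z (a * b) * ram_B φ Z a.natDegree b * F (a * b) else 0) =
        ∑ b ∈ mon k (n - i), ram_B φ Z i b * (rho z b * (if Squarefree b then 1 else 0) *
          ∑ p ∈ prs k i with ¬ p ∣ b, F (p * b)) := by
      rw [sum_comm]
      refine sum_congr rfl fun b _ => ?_
      rw [mul_sum, mul_sum, sum_filter, prs, sum_filter]
      refine sum_congr rfl fun a ha => ?_
      obtain ⟨h1, h2⟩ := mem_mon.1 ha
      by_cases h3 : Irreducible a
      · have h4 : rho z a = 1 := if_pos (id_rough_prime h3 (by omega))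
        have h5 : a ∈ sp k Z := mem_sp.2 ⟨h1, h3, by omega⟩
        rw [if_pos h3, ram_rho_mul, h4, h2]
        by_cases h6 : Squarefree b <;> by_cases h7 : a ∣ b <;>
          simp [ram_sq h3, h5, h6, h7]
        ring
      · rw [if_neg h3, if_neg fun h4 => h3 (mem_sp.1 h4.1).2.1]
    rw [e]
    refine abs_le_of_sq_le_sq' ?_ (by positivity) |> abs_le.2
    refine (sum_mul_sq_le_sq_mul_sq _ _ _).trans ?_
    have h1 : ∑ b ∈ mon k (n - i), ram_B φ Z i b ^ 2 ≤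
        4 * w ^ 2 * (((n : ℝ) + 1) ^ 4 * qq k ^ (n - i)) := by
      have h2 := sum_nd_pow (k := k) 2 (n - i)
      have h3 : (((n - i : ℕ) : ℝ) + 1) ^ (2 ^ 2 - 1) ≤ ((n : ℝ) + 1) ^ 4 := by
        have h4 : ((n - i : ℕ) : ℝ) ≤ n := by exact_mod_cast Nat.sub_le n i
        calc _ ≤ ((n : ℝ) + 1) ^ (2 ^ 2 - 1) := by gcongr
          _ ≤ _ := pow_le_pow_right₀ (by linarith [Nat.cast_nonneg (α := ℝ) n]) (by norm_num)
      calc _ ≤ ∑ b ∈ mon k (n - i), 4 * w ^ 2 * nd b ^ 2 := sum_le_sum fun b _ => by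
            have h5 := ram_B_le hφ Z i b
            rw [← sq_abs]
            calc _ ≤ (2 * w * nd b) ^ 2 := by gcongr
              _ = _ := by ring
        _ = 4 * w ^ 2 * ∑ b ∈ mon k (n - i), nd b ^ 2 := by rw [mul_sum]
        _ ≤ _ := by
            gcongr
            exact h2.trans (by gcongr)
    have h2 : ∑ b ∈ mon k (n - i), (rho z b * (if Squarefree b then 1 else 0) *
        ∑ p ∈ prs k i with ¬ p ∣ b, F (p * b)) ^ 2 ≤ V ^ 2 * qq k ^ (n + i) := by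
      refine le_trans (le_of_eq (sum_congr rfl fun b _ => ?_)) (hvar i h.1 h.2)
      unfold rho
      split_ifs <;> ring
    calc _ ≤ 4 * w ^ 2 * (((n : ℝ) + 1) ^ 4 * qq k ^ (n - i)) * (V ^ 2 * qq k ^ (n + i)) := by
          gcongr
      _ = 4 * w ^ 2 * ((n : ℝ) + 1) ^ 4 * V ^ 2 * (qq k ^ (n - i) * qq k ^ (n + i)) := by ring
      _ = _ := by
          rw [← pow_add, show n - i + (n + i) = n * 2 by omega, pow_mul]
          ring
  · rw [sum_eq_zero, abs_zero]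
    · split_ifs
      · exact le_rfl
      · positivity
    · intro a ha
      refine sum_eq_zero fun b _ => ?_
      split_ifs with h1
      · obtain ⟨-, h2, h3⟩ := mem_sp.1 h1.1
        have h4 := (mem_mon.1 ha).2
        have h5 : rho z (a * b) = 0 := if_neg fun h6 => by
          have := h6 a h2 (dvd_mul_right _ _)
          omega
        rw [h5]
        ring
      · rfl

theorem ram_row {z Z n : ℕ} (hz : z ≤ Z) (hZ : Z ≤ n) {K V w : ℝ} (hK : 1 ≤ K) (hV : 0 ≤ V)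
    {F : k[X] → ℝ} (hF : ∑ f ∈ mon k n, F f ^ 2 ≤ K * qq k ^ n) {φ : ℕ → ℝ} (hφ : ∀ i, |φ i| ≤ w)
    (hvar : ∀ y, z < y → y ≤ Z →
      ∑ m ∈ mon k (n - y), rho z m * (if Squarefree m then 1 else 0) *
        (∑ p ∈ prs k y with ¬ p ∣ m, F (p * m)) ^ 2 ≤ V ^ 2 * qq k ^ (n + y)) :
    |∑ i ∈ range (n + 1), φ i * TT z n i F fun e => rho z e * mu e| ≤
      w * 2 ^ (n / (Z + 1)) * ∑ f ∈ mon k n, rho Z f * |F f| +
        w * 2 ^ (n / (z + 1)) * (K * qq k ^ n / qq k ^ (z / 2)) +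
        2 * w * n * ((n : ℝ) + 1) ^ 2 * V * qq k ^ n := by
  have hw : 0 ≤ w := (abs_nonneg _).trans (hφ 0)
  have _ := hZ
  have hM := sum_dv (k := k) n fun a b => if a ∈ sp k Z ∧ Squarefree (a * b) then
    rho z (a * b) * ram_B φ Z a.natDegree b * F (a * b) else 0
  have e : ∑ f ∈ mon k n, rho z f * ram_T φ f * F f =
      ∑ f ∈ mon k n, (if Squarefree f then rho Z f * ram_T φ f * F f else 0) +
      ∑ f ∈ mon k n, (if Squarefree f then 0 else rho z f * ram_T φ f * F f) +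
      ∑ f ∈ mon k n, ∑ a ∈ dv f, (if a ∈ sp k Z ∧ Squarefree (a * (f /ₘ a)) then
        rho z (a * (f /ₘ a)) * ram_B φ Z a.natDegree (f /ₘ a) * F (a * (f /ₘ a)) else 0) := by
    rw [← sum_add_distrib, ← sum_add_distrib]
    refine sum_congr rfl fun f hf => ?_
    have hm := (mem_mon.1 hf).1
    have h0 := hm.ne_zero
    by_cases hs : Squarefree f
    · rw [if_pos hs, if_pos hs, add_zero, ram_split hz h0, add_mul, sum_mul]
      congr 1
      refine sum_congr rfl fun a ha => ?_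
      obtain ⟨h1, b, rfl⟩ := (mem_dv h0).1 ha
      rw [mul_divByMonic_cancel_left _ h1]
      by_cases h2 : a ∈ sp k Z
      · rw [if_pos h2, if_pos ⟨h2, hs⟩, ram_sf h2 (h1.of_mul_monic_left hm) hs]
      · rw [if_neg h2, if_neg fun h3 => h2 h3.1, zero_mul]
    · rw [if_neg hs, if_neg hs, zero_add, sum_eq_zero, add_zero]
      intro a ha
      obtain ⟨h1, b, rfl⟩ := (mem_dv h0).1 ha
      rw [mul_divByMonic_cancel_left _ h1, if_neg fun h3 => hs h3.2]
  have key : ∀ (y : ℕ), ∀ f ∈ mon k n, |rho y f * ram_T φ f * F f| ≤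
      w * 2 ^ (n / (y + 1)) * (rho y f * |F f|) := fun y f hf => by
    unfold rho
    split_ifs with h
    · rw [one_mul, one_mul, abs_mul]
      have h1 := ram_T_le hφ f
      have h2 := ram_nd hf h
      gcongr
      exact h1.trans (by gcongr)
    · simp
  rw [ram_lhs, e, hM]
  refine (abs_add_three _ _ _).trans (add_le_add (add_le_add ?_ ?_) ?_)
  · rw [mul_sum]
    refine (abs_sum_le_sum_abs _ _).trans (sum_le_sum fun f hf => ?_)
    split_ifs
    · exact key Z f hf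
    · have := ram_rho_nonneg Z f
      rw [abs_zero]
      positivity
  · refine le_trans ?_ (mul_le_mul_of_nonneg_left (cs_big z hK hF) (by positivity))
    rw [mul_sum]
    refine (abs_sum_le_sum_abs _ _).trans (sum_le_sum fun f hf => ?_)
    split_ifs
    · simp
    · rw [mul_one]
      exact key z f hf
  · refine (abs_sum_le_sum_abs _ _).trans ?_
    refine (sum_le_sum fun i hi => ram_cell (by have := mem_range.1 hi; omega) hV hφ hvar).trans ?_
    rw [sum_range_succ']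
    simp only [Nat.add_eq_zero_iff, one_ne_zero, and_false, if_false, if_true, sum_const,
      card_range, nsmul_eq_mul, add_zero]
    exact le_of_eq (by ring)

end

section
theorem up_mon (n : ℕ) : CL5.mon k n = mon k n := by
  ext f
  rw [CL5.mem_mon, mem_mon]

theorem up_mult {D : k[X]} (hD : D.Monic) {n : ℕ} (h : D.natDegree ≤ n) (F : k[X] → ℝ) :
    ∑ f ∈ mon k n, (if D ∣ f then F f else 0) = ∑ g ∈ mon k (n - D.natDegree), F (D * g) := by
  rw [← Finset.sum_filter, ← Finset.sum_image (s := mon k (n - D.natDegree)) (g := fun g => D * g)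
    (f := F) (fun x _ y _ hxy => mul_right_injective₀ hD.ne_zero hxy)]
  refine Finset.sum_congr ?_ fun _ _ => rfl
  ext f
  rw [mem_filter, mem_image]
  constructor
  · rintro ⟨h1, c, rfl⟩
    obtain ⟨h2, h3⟩ := mem_mon.1 h1
    have h4 := hD.of_mul_monic_left h2
    rw [hD.natDegree_mul h4] at h3
    exact ⟨c, mem_mon.2 ⟨h4, by omega⟩, rfl⟩
  · rintro ⟨c, h1, rfl⟩
    obtain ⟨h2, h3⟩ := mem_mon.1 h1
    exact ⟨mem_mon.2 ⟨hD.mul h2, by rw [hD.natDegree_mul h2]; omega⟩, dvd_mul_right _ _⟩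

theorem up_card (Z : ℕ) : (#(CL5.s80S k Z) : ℝ) ≤ qq k ^ (Z + 1) := by
  refine le_trans ?_ (card_mle (k := k) Z)
  have hs : ∀ A ∈ CL5.s80S k Z, A ⊆ sp k Z := fun A hA p hp =>
    mem_sp.2 ((CL5.s80_mem.1 hA).1 p hp)
  have : #(CL5.s80S k Z) ≤ #(mle k Z) := by
    refine Finset.card_le_card_of_injOn (fun A => ∏ p ∈ A, p) (fun A hA => ?_)
      (fun A hA B hB hAB => br_inj (hs A hA) (hs B hB) hAB)
    have hA' : A ∈ CL5.s80S k Z := hA
    refine Finset.mem_coe.2 (mem_mle.2 ⟨br_monic (hs A hA'), ?_⟩)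
    rw [natDegree_prod_of_monic A (fun p => p) fun p hp => ((CL5.s80_mem.1 hA').1 p hp).1]
    exact (CL5.s80_mem.1 hA').2
  exact_mod_cast this

theorem up_row (hq : 3 ≤ qq k) {Z n : ℕ} (hZ : 2 * Z ≤ n) {ε c : ℝ} (hε : 0 ≤ ε) (hc : 0 ≤ c)
    {b : k[X] → ℝ} (hb : ∀ f, 0 ≤ b f)
    (hI : ∀ D : k[X], D.Monic → Squarefree D → D.natDegree ≤ 2 * Z →
      |∑ f ∈ mon k (n - D.natDegree), (b (D * f) - c)| ≤ qq k ^ (n - D.natDegree) * ε) :
    ∑ f ∈ mon k n, rho Z f * (b f + c) ≤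
      6 * c * qq k ^ n / ((Z : ℝ) + 1) + qq k ^ (2 * Z + 2) * qq k ^ n * ε := by
  have hq0 : (0 : ℝ) < qq k := by linarith
  have hG := CL5.s80_G_pos (k := k) Z
  have hGge : ((Z : ℝ) + 1) / 3 ≤ CL5.s80G k Z := by
    refine le_trans ?_ (CL5.s80_G_ge (k := k) Z)
    have h1 : 2 / qq k ≤ 2 / 3 := div_le_div_of_nonneg_left (by norm_num) (by norm_num) hq
    have h2 : (1 : ℝ) / 3 ≤ 1 - 2 / CL5.qq k := by
      change (1 : ℝ) / 3 ≤ 1 - 2 / qq k
      linarith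
    have h3 : (0 : ℝ) ≤ (Z : ℝ) + 1 := by positivity
    nlinarith [mul_le_mul_of_nonneg_right h2 h3]
  set G := CL5.s80G k Z with hGd
  set a : Finset k[X] → ℝ := fun A => CL5.s80l Z A / G with ha
  have ha1 : ∀ A, |a A| ≤ 1 := fun A => by
    rw [ha]
    simp only
    rw [abs_div, abs_of_pos hG, div_le_one hG]
    exact CL5.s80_l_le Z A
  set si : k[X] → ℝ := fun f =>
    (∑ A ∈ CL5.s80S k Z, a A * if ∀ p ∈ A, p ∣ f then 1 else 0) ^ 2 with hsi
  have hv : ∀ f : k[X], ∑ A ∈ CL5.s80S k Z, a A * (if ∀ p ∈ A, p ∣ f then 1 else 0) =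
      (∑ S ∈ CL5.s80S k Z, ∏ p ∈ S, CL5.s80t p f) / G := fun f => by
    rw [CL5.s80_expand, sum_div]
    refine sum_congr rfl fun A _ => ?_
    rw [ha]
    ring
  have h1 : ∀ f, rho Z f ≤ si f := fun f => by
    unfold rho
    split_ifs with hr
    · rw [hsi]
      simp only
      rw [hv]
      have : ∑ S ∈ CL5.s80S k Z, ∏ p ∈ S, CL5.s80t p f = G := by
        refine sum_congr rfl fun S hS => prod_congr rfl fun p hp => ?_
        obtain ⟨-, b2, b3⟩ := (CL5.s80_mem.1 hS).1 p hp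
        have : ¬ p ∣ f := fun hd => by
          have := hr p b2 hd
          omega
        unfold CL5.s80t
        rw [if_neg this, sub_zero]
      rw [this, div_self hG.ne', one_pow]
    · exact sq_nonneg _
  have h2 : ∑ f ∈ mon k n, si f ≤ 3 * qq k ^ n / ((Z : ℝ) + 1) := by
    have e1 : ∑ f ∈ mon k n, (∑ S ∈ CL5.s80S k Z, ∏ p ∈ S, CL5.s80t p f) ^ 2 ≤ G * qq k ^ n := by
      simp_rw [sq, sum_mul_sum]
      rw [sum_comm, hGd, CL5.s80G, sum_mul]
      refine sum_le_sum fun S hS => ?_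
      rw [sum_comm, ← div_le_iff₀ (by positivity), sum_div]
      refine (sum_le_sum fun S' hS' => ?_).trans
        (le_of_eq (b := ∏ p ∈ S, 1 / CL5.nrm p) (a := ∑ S' ∈ CL5.s80S k Z,
          if S = S' then ∏ p ∈ S, 1 / CL5.nrm p else 0) (by rw [sum_ite_eq, if_pos hS]))
      have := CL5.s80_orth hZ hS hS'
      rw [up_mon] at this
      exact this
    rw [hsi]
    simp_rw [hv, div_pow]
    rw [← sum_div]
    calc _ ≤ G * qq k ^ n / G ^ 2 := div_le_div_of_nonneg_right e1 (by positivity)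
      _ = qq k ^ n / G := by field_simp
      _ ≤ qq k ^ n / (((Z : ℝ) + 1) / 3) :=
          div_le_div_of_nonneg_left (by positivity) (by positivity) hGge
      _ = _ := by field_simp
  have h3 : ∀ A ∈ CL5.s80S k Z, ∀ B ∈ CL5.s80S k Z,
      ∑ f ∈ mon k n, (a A * if ∀ p ∈ A, p ∣ f then 1 else 0) *
        (a B * if ∀ p ∈ B, p ∣ f then 1 else 0) * (b f - c) ≤ qq k ^ n * ε := by
    intro A hA B hB
    have hU : A ∪ B ⊆ sp k Z := fun p hp =>
      mem_sp.2 ((mem_union.1 hp).elim ((CL5.s80_mem.1 hA).1 p) ((CL5.s80_mem.1 hB).1 p))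
    have hm := br_monic hU
    have hs : Squarefree (∏ p ∈ A ∪ B, p) :=
      Finset.squarefree_prod_of_pairwise_isCoprime
        (fun p hp p' hp' hne => (br_cop (hU hp) (hU hp') hne).isRelPrime)
        (fun p hp => (mem_sp.1 (hU hp)).2.1.squarefree)
    have hd : (∏ p ∈ A ∪ B, p).natDegree ≤ 2 * Z := by
      rw [natDegree_prod_of_monic _ (fun p => p) fun p hp => (mem_sp.1 (hU hp)).1]
      have := sum_union_inter (s₁ := A) (s₂ := B) (f := fun p : k[X] => p.natDegree)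
      have := (CL5.s80_mem.1 hA).2
      have := (CL5.s80_mem.1 hB).2
      omega
    have e : ∑ f ∈ mon k n, (a A * if ∀ p ∈ A, p ∣ f then 1 else 0) *
        (a B * if ∀ p ∈ B, p ∣ f then 1 else 0) * (b f - c) =
        a A * a B * ∑ f ∈ mon k n, (if (∏ p ∈ A ∪ B, p) ∣ f then b f - c else 0) := by
      rw [mul_sum]
      refine sum_congr rfl fun f _ => ?_
      have : (∏ p ∈ A ∪ B, p) ∣ f ↔ (∀ p ∈ A, p ∣ f) ∧ ∀ p ∈ B, p ∣ f := by
        rw [br_prod_dvd hU]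
        simp only [mem_union, or_imp, forall_and]
      by_cases g1 : ∀ p ∈ A, p ∣ f
      · by_cases g2 : ∀ p ∈ B, p ∣ f
        · rw [if_pos (this.2 ⟨g1, g2⟩), if_pos g1, if_pos g2]
          ring
        · rw [if_neg (fun h => g2 (this.1 h).2), if_neg g2]
          ring
      · rw [if_neg (fun h => g1 (this.1 h).1), if_neg g1]
        ring
    rw [e, up_mult hm (hd.trans hZ) fun f => b f - c]
    refine (le_abs_self _).trans ?_
    rw [abs_mul, abs_mul]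
    refine (mul_le_of_le_one_left (abs_nonneg _)
      (mul_le_one₀ (ha1 _) (abs_nonneg _) (ha1 _))).trans ((hI _ hm hs hd).trans ?_)
    exact mul_le_mul_of_nonneg_right (pow_le_pow_right₀ (by linarith) (Nat.sub_le _ _)) hε
  have h4 : ∑ f ∈ mon k n, si f * (b f - c) ≤ qq k ^ (2 * Z + 2) * qq k ^ n * ε := by
    have e : ∑ f ∈ mon k n, si f * (b f - c) = ∑ A ∈ CL5.s80S k Z, ∑ B ∈ CL5.s80S k Z,
        ∑ f ∈ mon k n, (a A * if ∀ p ∈ A, p ∣ f then 1 else 0) *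
          (a B * if ∀ p ∈ B, p ∣ f then 1 else 0) * (b f - c) := by
      rw [hsi]
      simp_rw [sq, sum_mul_sum, sum_mul]
      rw [sum_comm]
      refine sum_congr rfl fun A _ => ?_
      rw [sum_comm]
    rw [e]
    refine (sum_le_sum fun A hA => sum_le_sum fun B hB => h3 A hA B hB).trans ?_
    rw [sum_const, sum_const, nsmul_eq_mul, nsmul_eq_mul, ← mul_assoc, mul_assoc (qq k ^ _)]
    refine mul_le_mul_of_nonneg_right ?_ (by positivity)
    rw [show 2 * Z + 2 = (Z + 1) + (Z + 1) by ring, pow_add]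
    exact mul_le_mul (up_card Z) (up_card Z) (Nat.cast_nonneg _) (by positivity)
  calc ∑ f ∈ mon k n, rho Z f * (b f + c) ≤ ∑ f ∈ mon k n, si f * (b f + c) :=
        sum_le_sum fun f _ => mul_le_mul_of_nonneg_right (h1 f) (add_nonneg (hb f) hc)
    _ = 2 * c * ∑ f ∈ mon k n, si f + ∑ f ∈ mon k n, si f * (b f - c) := by
        rw [mul_sum, ← sum_add_distrib]
        exact sum_congr rfl fun f _ => by ring
    _ ≤ 2 * c * (3 * qq k ^ n / ((Z : ℝ) + 1)) + qq k ^ (2 * Z + 2) * qq k ^ n * ε :=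
        add_le_add (mul_le_mul_of_nonneg_left h2 (by positivity)) h4
    _ = _ := by ring

end

section
theorem top_abs (z : ℕ) (e : k[X]) : |rho z e * mu e| ≤ rho z e ∧ 0 ≤ rho z e ∧
    |rho z e * mu e| ≤ 1 ∧ (rho z e * mu e ≠ 0 → Rough z e ∧ Squarefree e) := by
  unfold rho mu lam
  split_ifs <;> simp [*]

theorem top_split (z n i : ℕ) (a b : k[X] → ℝ) (c : ℝ) (α : k[X] → ℝ) :
    TT z n i (fun f => a f - c) α =
      TT z n i (fun f => a f - b f) α + TT z n i (fun f => b f - c) α := by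
  unfold TT
  simp only [← sum_add_distrib]
  exact sum_congr rfl fun e _ => sum_congr rfl fun x _ => by ring

theorem top_r {K V W Q T δ : ℝ} (hK : 0 ≤ K) (hV : V ≤ W) (hW : 0 ≤ W) (hQ : 0 ≤ Q) (hT : 0 < T)
    (h : 1 / T ≤ δ) : K * V * Q / T ≤ K * W * δ * Q := by
  calc _ = K * V * (1 / T) * Q := by ring
    _ ≤ K * W * (1 / T) * Q := by gcongr
    _ ≤ _ := by gcongr

theorem top_core (hq : 3 ≤ qq k) {z u Z r n : ℕ} {K Y δ B e1 e3 e4 c : ℝ} {a b : k[X] → ℝ}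
    (h1 : 1 ≤ z) (h2 : z ≤ Z) (h3 : Z ≤ n / 8) (h5 : 8 * u * z ≤ r) (h7 : r ≤ n / 8) (hK : 1 ≤ K) (hc : 0 ≤ c) (hc3 : c ≤ 3) (hb : ∀ f, 0 ≤ b f)
    (hab : ∀ f, b f ≤ a f) (L1 : ∑ f ∈ mon k n, a f ^ 2 ≤ K * qq k ^ n)
    (L2 : ∑ f ∈ mon k n, (a f - c) ^ 2 ≤ K * qq k ^ n)
    (L3 : ∑ f ∈ mon k n, (b f - c) ^ 2 ≤ K * qq k ^ n)
    (hA : ∀ z, ∑ f ∈ mon k n, rho z f * (a f - b f) ≤ K * qq k ^ n / qq k ^ (z / 2))
    (he1 : 0 ≤ e1) (he3 : 0 ≤ e3) (he4 : 0 ≤ e4)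
    (hI1 : ∀ D : k[X], D.Monic → Squarefree D → D.natDegree + n / 4 ≤ n / 2 →
      |∑ f ∈ mon k (n - D.natDegree), (b (D * f) - c)| ≤ qq k ^ (n - D.natDegree) * e1)
    (hI3 : ∀ D : k[X], D.Monic → Squarefree D → D.natDegree + r ≤ n / 2 →
      |∑ f ∈ mon k (n - D.natDegree), (b (D * f) - c)| ≤ qq k ^ (n - D.natDegree) * e3)
    (hM : ∀ (j : ℕ) (γ : k[X] → ℝ), j + r ≤ n / 2 → (∀ x, |γ x| ≤ 1) →
      |∑ x ∈ mon k j, γ x * ∑ e ∈ mon k (n - j), mu e * a (x * e)| ≤ qq k ^ n * e4)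
    (hII : ∀ y, z < y → y ≤ Z →
      ∑ m ∈ mon k (n - y), rho z m * (if Squarefree m then 1 else 0) *
        (∑ p ∈ prs k y with ¬ p ∣ m, (a (p * m) - c)) ^ 2 ≤ qq k ^ (n + y) / (n : ℝ) ^ 10)
    (s1 : 1 / 2 ^ u ≤ δ) (s2 : qq k ^ (8 * u * z + 1) * e3 ≤ δ)
    (s2' : qq k ^ (8 * u * z + 1) * e4 ≤ δ)
    (s3 : 2 ^ (n / (z + 1)) / qq k ^ (z / 2) ≤ δ) (s5 : qq k ^ (2 * Z + 2) * e1 ≤ δ)
    (s6 : 1 / qq k ^ (Z / 2) ≤ δ) (s7 : (1 / 2 : ℝ) ^ (n / 2 / (2 * z)) ≤ δ)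
    (hW : ∀ j ≤ 255, ((n : ℝ) + 1) ^ j ≤ Y) (hB : 2 ^ (n / (Z + 1)) ≤ B) :
    |(n : ℝ) * ∑ f ∈ prs k n, (a f - c)| ≤
      (8192 * B * (K * Y ^ 3 * δ) + 36 * B * (r / (Z + 1)) + 16 / n) * qq k ^ n := by
  have q2 := two_le_qq (k := k)
  have uz : 8 * u * z = 4 * (2 * u * z) := by ring
  have n1 : (1 : ℝ) ≤ n := by exact_mod_cast (by omega : 1 ≤ n)
  have d0 : 0 ≤ δ := le_trans (by positivity) s1
  have hY : (n : ℝ) + 1 ≤ Y := by simpa using hW 1 (by norm_num)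
  have Y1 : 1 ≤ Y := by linarith
  have B1 : 1 ≤ B := (one_le_pow₀ one_le_two).trans hB
  have Q0 : 0 < qq k ^ n := by positivity
  have rR : (r : ℝ) ≤ n := by exact_mod_cast (by omega : r ≤ n)
  have key : K * Y ^ 1 * δ ≤ K * Y ^ 3 * δ := by
    gcongr
    norm_num
  have s4 : (2 : ℝ) ^ (n / (z + 1)) * (K * qq k ^ n / qq k ^ (z / 2)) ≤ K * δ * qq k ^ n := by
    calc _ = K * (2 ^ (n / (z + 1)) / qq k ^ (z / 2)) * qq k ^ n := by ring
      _ ≤ _ := by gcongr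
  have b1 : K * δ ≤ K * Y * δ := by
    rw [mul_assoc]
    gcongr
    exact le_mul_of_one_le_left d0 Y1
  have b2 : δ ≤ K * δ := le_mul_of_one_le_left d0 hK
  have b3 : (1 : ℝ) / 4 ^ u ≤ δ := le_trans (by gcongr; norm_num) s1
  have b4 : ∀ e, qq k ^ (8 * u * z + 1) * e ≤ δ →
      qq k ^ (8 * u * z + 1) * qq k ^ n * e ≤ δ * qq k ^ n := fun e h => by
    rw [mul_right_comm]
    gcongr
  have b5 : qq k ^ (2 * u * z + 1) * qq k ^ n * e3 ≤ δ * qq k ^ n := by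
    refine le_trans ?_ (b4 _ s2)
    gcongr
    · linarith
    · norm_num
  set φ : ℕ → ℝ := fun i => if i + 2 * r ≤ n / 2 ∨ n - i + 2 * r ≤ n / 2 then 0
    else ((n / 2 : ℕ) : ℝ) - i with hφ
  have cell : ∀ i ∈ range (n + 1), |(((n / 2 : ℕ) : ℝ) - i - φ i) *
      TT z n i (fun f => a f - c) fun e => rho z e * mu e| ≤
      Y * (6445 * (K * Y * δ) * qq k ^ n) := fun i hi => by
    have hi := Nat.lt_succ_iff.1 (mem_range.1 hi)
    have w : |((n / 2 : ℕ) : ℝ) - i| ≤ Y := by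
      have a1 : ((n / 2 : ℕ) : ℝ) ≤ n := by exact_mod_cast Nat.div_le_self n 2
      have a2 : (i : ℝ) ≤ n := by exact_mod_cast hi
      have a3 : (0 : ℝ) ≤ (n / 2 : ℕ) := Nat.cast_nonneg _
      have a4 : (0 : ℝ) ≤ i := Nat.cast_nonneg _
      rw [abs_le]
      constructor <;> linarith
    simp only [hφ]
    split_ifs with h
    · rw [sub_zero, abs_mul]
      refine mul_le_mul w ?_ (abs_nonneg _) (by linarith)
      have g1 := mul_le_mul_of_nonneg_right b1 Q0.le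
      have g2 := mul_le_mul_of_nonneg_right b2 Q0.le
      have g3 : 0 ≤ δ * qq k ^ n := by positivity
      rcases h with h | h
      · have a1 := TT_le (z := z) hi (fun f => a f - b f) (fun e => rho z e * mu e)
          fun e _ => (top_abs z e).1
        rw [sum_congr rfl fun f _ => by rw [abs_of_nonneg (sub_nonneg.2 (hab f))]] at a1
        have a2 := (a1.trans (mul_le_mul_of_nonneg_left (hA z) (by positivity))).trans s4
        have a3 := (t1_row (z := z) (u := u) (i := i) (by omega) hK he3 L3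
          (α := fun e => rho z e * mu e) (fun e _ => (top_abs z e).2.2)
          fun D a1 a2 a3 => hI3 D a1 a2 (by omega)).trans (add_le_add (top_r (by linarith)
            (hW 32 (by norm_num)) (by linarith) Q0.le (by positivity) b3) b5)
        rw [top_split z n i a b]
        refine (abs_add_le _ _).trans ?_
        linarith
      · have a5 : c * 2048 * (1 / 2) ^ (i / (2 * z)) * qq k ^ n ≤ 3 * 2048 * δ * qq k ^ n := by
          gcongr
          exact (pow_le_pow_of_le_one (by norm_num) (by norm_num)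
            (Nat.div_le_div_right (by omega))).trans s7
        have a3 := (tm_row (u := u) h1 hi hK he4 hc L1
          fun j γ a1 a2 => hM j γ (by omega) a2).trans (add_le_add (add_le_add (top_r
            (by linarith) (hW 255 le_rfl) (by linarith) Q0.le (by positivity) s1) (b4 _ s2')) a5)
        linarith
    · rw [sub_self, zero_mul, abs_zero]
      positivity
  have off := (abs_sum_le_sum_abs _ _).trans (sum_le_card_nsmul _ _ _ cell)
  rw [card_range, nsmul_eq_mul, Nat.cast_succ] at off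
  have off' : ((n : ℝ) + 1) * (Y * (6445 * (K * Y * δ) * qq k ^ n)) ≤
      6445 * (K * Y ^ 3 * δ) * qq k ^ n := by
    calc _ ≤ Y * (Y * (6445 * (K * Y * δ) * qq k ^ n)) := by gcongr
      _ = _ := by ring
  have ram := ram_row (φ := φ) (w := 2 * r) (V := 1 / (n : ℝ) ^ 5) h2 (by omega) hK
    (by positivity) L2 (fun i => by
      simp only [hφ]
      split_ifs with h
      · rw [abs_zero]
        positivity
      · have a1 : ((n / 2 : ℕ) : ℝ) ≤ i + 2 * r := by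
          exact_mod_cast (by omega : n / 2 ≤ i + 2 * r)
        have a2 : (i : ℝ) ≤ (n / 2 : ℕ) + 2 * r := by
          exact_mod_cast (by omega : i ≤ n / 2 + 2 * r)
        rw [abs_le]
        constructor <;> linarith)
    fun y a1 a2 => (hII y a1 a2).trans_eq (by ring)
  have up := up_row hq (Z := Z) (n := n) (by omega) he1 hc hb fun D a1 a2 a3 =>
    hI1 D a1 a2 (by omega)
  have u1 : ∑ f ∈ mon k n, rho Z f * |a f - c| ≤ (2 * (K * δ) + 18 / (Z + 1)) * qq k ^ n := by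
    have a1 : ∑ f ∈ mon k n, rho Z f * |a f - c| ≤ ∑ f ∈ mon k n, rho Z f * (a f - b f) +
        ∑ f ∈ mon k n, rho Z f * (b f + c) := by
      rw [← sum_add_distrib]
      refine sum_le_sum fun f _ => ?_
      rw [← mul_add]
      refine mul_le_mul_of_nonneg_left ?_ (top_abs Z f).2.1
      have := hb f
      have := hab f
      rw [abs_le]
      constructor <;> linarith
    have a2 : K * qq k ^ n / qq k ^ (Z / 2) ≤ K * δ * qq k ^ n := by
      calc _ = K * (1 / qq k ^ (Z / 2)) * qq k ^ n := by ring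
        _ ≤ _ := by gcongr
    have a3 : qq k ^ (2 * Z + 2) * qq k ^ n * e1 ≤ K * δ * qq k ^ n := by
      rw [mul_right_comm]
      exact mul_le_mul_of_nonneg_right (s5.trans b2) Q0.le
    have a4 : 6 * c * qq k ^ n / ((Z : ℝ) + 1) ≤ 18 / (Z + 1) * qq k ^ n := by
      calc _ ≤ 6 * 3 * qq k ^ n / ((Z : ℝ) + 1) := by gcongr
        _ = _ := by ring
    have := hA Z
    linarith
  have r1 : 2 * (r : ℝ) * 2 ^ (n / (Z + 1)) * ∑ f ∈ mon k n, rho Z f * |a f - c| ≤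
      (4 * B * (K * Y ^ 3 * δ) + 36 * B * (r / (Z + 1))) * qq k ^ n := by
    have a1 : r * (K * δ) ≤ K * Y ^ 3 * δ := by
      refine le_trans ?_ key
      calc _ ≤ Y * (K * δ) := by gcongr; linarith
        _ = _ := by ring
    calc _ ≤ 2 * (r : ℝ) * B * ((2 * (K * δ) + 18 / (Z + 1)) * qq k ^ n) :=
          (mul_le_mul_of_nonneg_left u1 (by positivity)).trans (by gcongr)
      _ = (4 * B * (r * (K * δ)) + 36 * B * (r / (Z + 1))) * qq k ^ n := by ring
      _ ≤ _ := by gcongr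
  have r2 : 2 * (r : ℝ) * 2 ^ (n / (z + 1)) * (K * qq k ^ n / qq k ^ (z / 2)) ≤
      2 * (K * Y ^ 1 * δ * qq k ^ n) := by
    rw [mul_assoc]
    calc _ ≤ 2 * Y * (K * δ * qq k ^ n) := by gcongr; linarith
      _ = _ := by ring
  have r3 : 2 * (2 * (r : ℝ)) * n * ((n : ℝ) + 1) ^ 2 * (1 / (n : ℝ) ^ 5) * qq k ^ n ≤
      16 / n * qq k ^ n := by
    calc _ ≤ 2 * (2 * (n : ℝ)) * n * (2 * n) ^ 2 * (1 / (n : ℝ) ^ 5) * qq k ^ n := by
          gcongr; linarith
      _ = _ := by field_simp; ring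
  have id := id_row (z := z) (m := n / 2) (by omega) (Nat.div_le_self n 2) hK L2
  have i1 : (n : ℝ) * 2 ^ (n / (z + 1)) * (K * qq k ^ n / qq k ^ (z / 2)) ≤
      K * Y ^ 1 * δ * qq k ^ n := by
    rw [mul_assoc]
    calc _ ≤ Y * (K * δ * qq k ^ n) := by gcongr; linarith
      _ = _ := by ring
  simp only [sub_mul _ (φ _), sum_sub_distrib] at off
  have k1 := mul_le_mul_of_nonneg_right key Q0.le
  have k0 : 0 ≤ K * Y ^ 3 * δ * qq k ^ n := by positivity
  have k3 : K * Y ^ 3 * δ * qq k ^ n ≤ B * (K * Y ^ 3 * δ * qq k ^ n) :=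
    le_mul_of_one_le_left k0 B1
  have f1 := abs_le.1 (id.trans i1)
  have f2 := abs_le.1 (off.trans off')
  have f3 := abs_le.1 (ram.trans (add_le_add (add_le_add r1 r2) r3))
  rw [abs_le]
  constructor <;> linarith
theorem top_poly (C : ℝ) (d : ℕ) : ∀ᶠ t : ℕ in atTop, C * (t : ℝ) ^ d ≤ 2 ^ t := by
  have h := (tendsto_pow_const_div_const_pow_of_one_lt d (by norm_num : (1 : ℝ) < 2)).const_mul C
  rw [mul_zero] at h
  filter_upwards [h.eventually (gt_mem_nhds one_pos)] with t ht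
  rw [← mul_div_assoc, div_lt_one (by positivity)] at ht
  exact ht.le

theorem top_pow {a b t : ℕ} (h : a + t ≤ b) : qq k ^ a * (1 / qq k ^ b) ≤ 1 / 2 ^ t := by
  have q2 := two_le_qq (k := k)
  rw [mul_one_div, div_le_div_iff₀ (by positivity) (by positivity), one_mul]
  calc qq k ^ a * 2 ^ t ≤ qq k ^ a * qq k ^ t := by gcongr
    _ = qq k ^ (a + t) := (pow_add _ _ _).symm
    _ ≤ _ := pow_le_pow_right₀ (by linarith) h

theorem top_l2 {n : ℕ} {K c : ℝ} {a b : k[X] → ℝ} (hc : 0 ≤ c ∧ c ≤ 3) (hb : ∀ f, b f ^ 2 ≤ a f ^ 2)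
    (h : ∑ f ∈ mon k n, a f ^ 2 ≤ K * qq k ^ n) :
    ∑ f ∈ mon k n, (b f - c) ^ 2 ≤ (2 * K + 18) * qq k ^ n := by
  have a1 : ∑ f ∈ mon k n, (b f - c) ^ 2 ≤ ∑ f ∈ mon k n, (2 * a f ^ 2 + 18) :=
    sum_le_sum fun f _ => by nlinarith [hb f, sq_nonneg (b f + c)]
  rw [sum_add_distrib, ← mul_sum, sum_const, nsmul_eq_mul, card_mon] at a1
  linarith

theorem top_nat {t n : ℕ} (ht : 10 ≤ t) (t1 : t ^ 10 ≤ n) (t2 : n ≤ (t + 1) ^ 10) :
    1 ≤ t ^ 7 ∧ n + 1 ≤ 2048 * t ^ 10 ∧ n / (t ^ 7 + 1) + t ≤ t ^ 7 / 2 ∧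
      t ≤ n / 2 / (2 * t ^ 7) ∧ ∀ j, 0 < j → j ≤ t →
        8 * t * t ^ 7 + 1 + t ≤ n / j ∧ t ^ 7 ≤ n / j ∧ 10 * t ≤ n / j := by
  have p7 : t ≤ t ^ 7 := Nat.le_self_pow (by norm_num) t
  have p3 : t ≤ t ^ 3 := Nat.le_self_pow (by norm_num) t
  have p10 : t ≤ t ^ 10 := Nat.le_self_pow (by norm_num) t
  have a1 : (t + 1) ^ 10 ≤ (2 * t) ^ 10 := Nat.pow_le_pow_left (by omega) 10
  rw [mul_pow] at a1
  have a2 : ∀ j, 0 < j → j ≤ t → 10 * (t * t ^ 7) ≤ n / j := fun j j0 jt =>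
    (Nat.le_div_iff_mul_le j0).2 (by
      calc 10 * (t * t ^ 7) * j ≤ t * (t * t ^ 7) * t := by gcongr
        _ = t ^ 10 := by ring
        _ ≤ n := t1)
  have a3 : t ^ 7 ≤ t * t ^ 7 := Nat.le_mul_of_pos_left _ (by omega)
  refine ⟨by omega, by omega, ?_, ?_, fun j j0 jt => ?_⟩
  · have b1 : n / (t ^ 7 + 1) ≤ 1024 * t ^ 3 := Nat.div_le_of_le_mul (by
      have : (t ^ 7 + 1) * (1024 * t ^ 3) = 1024 * t ^ 10 + 1024 * t ^ 3 := by ring
      omega)
    have b2 : 10 ^ 4 * t ^ 3 ≤ t ^ 7 := by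
      calc _ ≤ t ^ 4 * t ^ 3 := by gcongr
        _ = _ := by ring
    omega
  · refine (Nat.le_div_iff_mul_le (by omega)).2 ?_
    have b1 := a2 2 (by norm_num) (by omega)
    have b2 : t * (2 * t ^ 7) = 2 * (t * t ^ 7) := by ring
    omega
  · have b1 := a2 j j0 jt
    rw [mul_assoc]
    omega

theorem top_row (hq : 3 ≤ qq k) {a b : k[X] → ℝ} {c : ℕ → ℝ} (hc : ∀ n, 0 ≤ c n ∧ c n ≤ 3)
    (h2 : HL2 a) (hab : HAB a b) (hI : HI b c) (hM : HM a) (hII : HII a c) : GOAL a c := by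
  obtain ⟨K0, K01, hK0⟩ := h2
  obtain ⟨hb, hab, K1, K11, hK1⟩ := hab
  obtain ⟨κ1, κ10, h1⟩ := hI 4 (by norm_num)
  obtain ⟨κ2, κ20, h2⟩ := hII
  rw [GOAL, Metric.tendsto_nhds]
  intro ε ε0
  obtain ⟨κ5, h5⟩ : ∃ κ5, κ5 = κ2 + 4 * κ1 + 8 := ⟨_, rfl⟩
  obtain ⟨B, hB⟩ : ∃ B : ℝ, B = 2 ^ κ5 := ⟨_, rfl⟩
  have B0 : 0 < B := by rw [hB]; positivity
  obtain ⟨κ, hκ⟩ := exists_nat_ge (144 * B * κ5 / ε + 8)
  have κ0 : 0 ≤ 144 * B * κ5 / ε := by positivity
  have κ8 : 8 ≤ κ := by exact_mod_cast (by linarith : (8 : ℝ) ≤ κ)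
  obtain ⟨κ3, κ30, h3⟩ := hI κ (by omega)
  obtain ⟨κ4, κ40, h4⟩ := hM κ (by omega)
  obtain ⟨C, d, hC⟩ : ∃ (C : ℝ) (d : ℕ), ∀ t : ℝ, ((2048 * t ^ 10) ^ 255) ^ 3 = C * t ^ d :=
    ⟨_, _, fun t => by rw [← pow_mul, mul_pow, ← pow_mul]⟩
  obtain ⟨K, hK⟩ : ∃ K, K = 2 * K0 + 18 + K1 := ⟨_, rfl⟩
  obtain ⟨T, hT⟩ := eventually_atTop.1 (h2.and ((top_poly (32768 * B * K * C / ε) d).and
    (eventually_ge_atTop (κ + κ1 + κ3 + κ4 + κ5 + 10))))
  obtain ⟨N, hN⟩ := exists_nat_gt (64 / ε)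
  filter_upwards [h1, h3, h4, eventually_ge_atTop (T ^ 10), eventually_ge_atTop N]
    with n g1 g3 g4 hn hn'
  obtain ⟨t, t1, t2, tT⟩ : ∃ t, t ^ 10 ≤ n ∧ n ≤ (t + 1) ^ 10 ∧ T ≤ t :=
    ⟨Nat.nthRoot 10 n, Nat.pow_nthRoot_le (Or.inl (by norm_num)),
      (Nat.lt_pow_nthRoot_add_one (by norm_num) n).le, (Nat.le_nthRoot_iff (by norm_num)).2 hn⟩
  obtain ⟨g2, hP, ht⟩ := hT t tT
  obtain ⟨n1, n2, n3, n4, n5⟩ := top_nat (by omega) t1 t2
  have q2 := two_le_qq (k := k)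
  have Q0 : 0 < qq k ^ n := by positivity
  have up : ∀ {x L : ℝ}, L ≤ K → x ≤ L * qq k ^ n → x ≤ K * qq k ^ n := fun h1 h2 =>
    h2.trans (mul_le_mul_of_nonneg_right h1 Q0.le)
  have m1 := n5 κ1 κ10 (by omega)
  have m3 := n5 κ3 κ30 (by omega)
  have m4 := n5 κ4 κ40 (by omega)
  have m5 := n5 κ5 (by omega) (by omega)
  have m0 := n5 κ (by omega) (by omega)
  have Z4 : n / κ5 ≤ n / κ1 / 4 := by
    rw [Nat.div_div_eq_div_mul]
    exact Nat.div_le_div_left (by omega) (by omega)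
  have nZ : n ≤ (n / κ5 + 1) * κ5 := by
    rw [mul_comm]
    exact (Nat.lt_mul_div_succ n (by omega)).le
  have core := top_core hq (z := t ^ 7) (u := t) (Z := n / κ5) (r := n / κ) (n := n) (K := K)
    (Y := (2048 * (t : ℝ) ^ 10) ^ 255) (δ := 1 / 2 ^ t) (B := B) (e1 := 1 / qq k ^ (n / κ1))
    (e3 := 1 / qq k ^ (n / κ3)) (e4 := 1 / qq k ^ (n / κ4)) (c := c n) (a := a) (b := b) n1 m5.2.1
    (Nat.div_le_div_left (by omega) (by norm_num)) (by omega)
    (Nat.div_le_div_left κ8 (by norm_num)) (by linarith) (hc n).1 (hc n).2 hb hab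
    (up (by linarith) (hK0 n)) (up (by linarith) (top_l2 (hc n) (fun _ => le_rfl) (hK0 n)))
    (up (by linarith) (top_l2 (hc n) (fun f => pow_le_pow_left₀ (hb f) (hab f) 2) (hK0 n)))
    (fun z => (hK1 n z).trans (by gcongr; linarith)) (by positivity) (by positivity) (by positivity)
    (fun D a1 a2 a3 => (g1 D a1 a2 a3).trans_eq (mul_one_div _ _).symm)
    (fun D a1 a2 a3 => (g3 D a1 a2 a3).trans_eq (mul_one_div _ _).symm)
    (fun j γ a1 a2 => (g4 j γ a1 a2).trans_eq (mul_one_div _ _).symm)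
    (fun y a1 a2 => g2 n y t1 t2 a1 ((Nat.mul_le_mul (by omega : κ2 ≤ κ5) a2).trans
      (Nat.mul_div_le n κ5))) le_rfl (top_pow m3.1) (top_pow m4.1)
    (le_trans (by rw [mul_one_div]; gcongr) (top_pow (k := k) n3)) (top_pow (by omega))
    (by simpa using top_pow (k := k) (a := 0) (b := n / κ5 / 2) (t := t) (by omega))
    ((pow_le_pow_of_le_one (by norm_num) (by norm_num) n4).trans_eq (one_div_pow _ _))
    (fun j hj => by
      have a1 : (n : ℝ) + 1 ≤ 2048 * (t : ℝ) ^ 10 := by exact_mod_cast n2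
      have a2 : (0 : ℝ) ≤ n := Nat.cast_nonneg n
      exact (pow_le_pow_left₀ (by linarith) a1 j).trans (pow_le_pow_right₀ (by linarith) hj))
    (hB ▸ pow_le_pow_right₀ one_le_two (Nat.div_le_of_le_mul nZ))
  rw [hC] at core
  rw [Real.dist_eq, sub_zero, abs_div, abs_of_pos Q0, div_lt_iff₀ Q0]
  refine core.trans_lt (mul_lt_mul_of_pos_right ?_ Q0)
  have e1 : 8192 * B * (K * (C * (t : ℝ) ^ d) * (1 / 2 ^ t)) ≤ ε / 4 := by
    calc _ = ε / 4 * (32768 * B * K * C / ε * (t : ℝ) ^ d / 2 ^ t) := by field_simp; ring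
      _ ≤ ε / 4 * 1 := by
          gcongr
          exact (div_le_one (by positivity)).2 hP
      _ = _ := mul_one _
  have e2 : 36 * B * (((n / κ : ℕ) : ℝ) / (((n / κ5 : ℕ) : ℝ) + 1)) ≤ ε / 4 := by
    have a1 : ((n / κ : ℕ) : ℝ) * κ ≤ (((n / κ5 : ℕ) : ℝ) + 1) * κ5 := by
      exact_mod_cast (Nat.div_mul_le_self n κ).trans nZ
    have a2 : 144 * B * κ5 ≤ κ * ε := (div_le_iff₀ ε0).1 (by linarith)
    have a3 : (0 : ℝ) < κ := by linarith
    calc _ ≤ 36 * B * (κ5 / κ) := by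
          rw [mul_comm _ (κ5 : ℝ)] at a1
          exact mul_le_mul_of_nonneg_left ((div_le_div_iff₀ (by positivity) a3).2 a1)
            (by positivity)
      _ ≤ _ := by
          rw [← mul_div_assoc, div_le_iff₀ a3]
          linarith
  have e3 : (16 : ℝ) / n ≤ ε / 4 := by
    have a1 : (N : ℝ) ≤ n := by exact_mod_cast hn'
    have a2 : 0 < 64 / ε := by positivity
    have a3 : 64 ≤ n * ε := (div_le_iff₀ ε0).1 (by linarith)
    rw [div_le_iff₀ (by linarith)]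
    linarith
  linarith

end

end Pool.Agent.H68T

end
end
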