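import Pool.Agent.MP_d0fd9b_nt.P3.SA
import Pool.Agent.MP_d0fd9b_nt.P3.M4
import Pool.Agent.MP_d0fd9b_nt.P3.M1

-- part H68T.B
section

/-! h49p: type I information and the reduction to the two bilinear bounds. -/

set_option autoImplicit false

open Polynomial Finset Filter Topology
open scoped Classical BigOperators

noncomputable section
namespace Pool.Agent.H68T
open Pool.Agent.MP_a4a062_nt.C2

variable {k : Type*} [Field k] [Fintype k]

section
omit [Fintype k] in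
theorem sqf_ex : ∀ (n : ℕ) (f : k[X]), f.natDegree = n → f.Monic →
    ∃ a b : k[X], a.Monic ∧ b.Monic ∧ Squarefree b ∧ f = a ^ 2 * b := by
  intro n
  induction n using Nat.strong_induction_on with
  | _ n ih =>
  intro f hn hf
  by_cases hs : Squarefree f
  · exact ⟨1, f, monic_one, hf, hs, by ring⟩
  unfold Squarefree at hs
  push Not at hs
  obtain ⟨x, h1, h2⟩ := hs
  obtain ⟨p, hp, hi, h3⟩ := exists_monic_irreducible_factor x h2
  obtain ⟨g, rfl⟩ : p * p ∣ f := (mul_dvd_mul h3 h3).trans h1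
  have hg : g.Monic := (hp.mul hp).of_mul_monic_left hf
  have hd := hi.natDegree_pos
  rw [(hp.mul hp).natDegree_mul hg, hp.natDegree_mul hp] at hn
  obtain ⟨a, b, ha, hb, hs, rfl⟩ := ih g.natDegree (by omega) g rfl hg
  exact ⟨p * a, b, hp.mul ha, hb, hs, by ring⟩

omit [Fintype k] in
theorem sqf_dvd {a b a' b' : k[X]} (ha : a ≠ 0) (hs : Squarefree b')
    (h : a ^ 2 * b = a' ^ 2 * b') : a ∣ a' := by
  have hg : gcd a a' ≠ 0 := fun h0 => ha (gcd_eq_zero_iff _ _ |>.1 h0).1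
  obtain ⟨u, hu⟩ := gcd_dvd_left a a'
  obtain ⟨v, hv⟩ := gcd_dvd_right a a'
  have hc : IsCoprime u v := by
    have h1 : IsCoprime (a / gcd a a') (a' / gcd a a') := isCoprime_div_gcd_div_gcd_of_gcd_ne_zero hg
    have e1 : a / gcd a a' = u := (EuclideanDomain.eq_div_of_mul_eq_right hg hu.symm).symm
    have e2 : a' / gcd a a' = v := (EuclideanDomain.eq_div_of_mul_eq_right hg hv.symm).symm
    rwa [e1, e2] at h1
  have h2 : u ^ 2 * b = v ^ 2 * b' := by
    apply mul_left_cancel₀ (pow_ne_zero 2 hg)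
    calc gcd a a' ^ 2 * (u ^ 2 * b) = (gcd a a' * u) ^ 2 * b := by ring
      _ = (gcd a a' * v) ^ 2 * b' := by rw [← hu, ← hv, h]
      _ = _ := by ring
  have h3 : u ^ 2 ∣ b' := (hc.pow (m := 2) (n := 2)).dvd_of_dvd_mul_left ⟨b, h2.symm⟩
  have h4 : IsUnit u := hs u (by rwa [← sq])
  obtain ⟨w, hw⟩ := h4.exists_right_inv
  refine ⟨w * v, ?_⟩
  calc a' = gcd a a' * v := hv
    _ = gcd a a' * (u * w) * v := by rw [hw, mul_one]
    _ = (gcd a a' * u) * (w * v) := by ring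
    _ = _ := by rw [← hu]

theorem sqf_sum (y : ℕ) : qq k ^ y = ∑ j ∈ range (y + 1),
    if 2 * j ≤ y then qq k ^ j * (#{g ∈ mon k (y - 2 * j) | Squarefree g} : ℝ) else 0 := by
  have e : #{x ∈ mle k y ×ˢ mle k y | Squarefree x.2 ∧ 2 * x.1.natDegree + x.2.natDegree = y} =
      #(mon k y) := by
    refine card_bij (fun x _ => x.1 ^ 2 * x.2) ?_ ?_ ?_
    · rintro ⟨a, b⟩ h
      simp only [mem_filter, mem_product, mem_mle] at h
      exact mem_mon.2 ⟨(h.1.1.1.pow 2).mul h.1.2.1, by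
        rw [(h.1.1.1.pow 2).natDegree_mul h.1.2.1, h.1.1.1.natDegree_pow]; exact h.2.2⟩
    · rintro ⟨a, b⟩ h ⟨a', b'⟩ h' hh
      simp only [mem_filter, mem_product, mem_mle] at h h' hh
      have h1 : a = a' := eq_of_monic_of_associated h.1.1.1 h'.1.1.1 (associated_of_dvd_dvd
        (sqf_dvd h.1.1.1.ne_zero h'.2.1 hh) (sqf_dvd h'.1.1.1.ne_zero h.2.1 hh.symm))
      subst h1
      rw [mul_left_cancel₀ (pow_ne_zero 2 h.1.1.1.ne_zero) hh]
    · intro f hf
      obtain ⟨h1, h2⟩ := mem_mon.1 hf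
      obtain ⟨a, b, ha, hb, hs, rfl⟩ := sqf_ex _ f rfl h1
      rw [(ha.pow 2).natDegree_mul hb, ha.natDegree_pow] at h2
      refine ⟨(a, b), ?_, rfl⟩
      simp only [mem_filter, mem_product, mem_mle]
      exact ⟨⟨⟨ha, by omega⟩, hb, by omega⟩, hs, h2⟩
  rw [← card_mon, ← e, card_filter, Nat.cast_sum, sum_product, sum_mle]
  refine sum_congr rfl fun j _ => ?_
  have e2 : ∀ a ∈ mon k j, ∑ b ∈ mle k y, ((if Squarefree b ∧ 2 * a.natDegree + b.natDegree = y
      then 1 else 0 : ℕ) : ℝ) =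
      if 2 * j ≤ y then (#{g ∈ mon k (y - 2 * j) | Squarefree g} : ℝ) else 0 := by
    intro a ha
    rw [← Nat.cast_sum, ← card_filter, (mem_mon.1 ha).2]
    split_ifs with h
    · congr 2
      ext b
      simp only [mem_filter, mem_mle, mem_mon]
      constructor
      · rintro ⟨⟨h1, h2⟩, h3, h4⟩
        exact ⟨⟨h1, by omega⟩, h3⟩
      · rintro ⟨⟨h1, h2⟩, h3⟩
        exact ⟨⟨h1, by omega⟩, h3, by omega⟩
    · rw [Nat.cast_eq_zero, card_eq_zero, filter_eq_empty_iff]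
      rintro b - ⟨-, h4⟩
      omega
  rw [sum_congr rfl e2, sum_const, nsmul_eq_mul, card_mon]
  split_ifs <;> simp

theorem card_sqf (y : ℕ) : (#{g ∈ mon k y | Squarefree g} : ℝ) =
    if y ≤ 1 then qq k ^ y else qq k ^ y - qq k ^ (y - 1) := by
  have h := sqf_sum (k := k) y
  rw [sum_range_succ'] at h
  simp only [mul_zero, zero_le, if_true, pow_zero, one_mul, Nat.sub_zero] at h
  split_ifs with hy
  · rw [sum_eq_zero fun j _ => if_neg (by omega), zero_add] at h
    exact h.symm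
  · obtain ⟨z, rfl⟩ : ∃ z, y = z + 2 := ⟨y - 2, by omega⟩
    have h2 := sqf_sum (k := k) z
    rw [sum_range_succ, if_neg (by omega), add_zero] at h
    have e : ∑ j ∈ range (z + 1), (if 2 * (j + 1) ≤ z + 2 then qq k ^ (j + 1) *
        (#{g ∈ mon k (z + 2 - 2 * (j + 1)) | Squarefree g} : ℝ) else 0) = qq k * qq k ^ z := by
      rw [h2, mul_sum]
      refine sum_congr rfl fun j _ => ?_
      rw [show z + 2 - 2 * (j + 1) = z - 2 * j by omega]
      by_cases hj : 2 * j ≤ z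
      · rw [if_pos hj, if_pos (by omega)]; ring
      · rw [if_neg hj, if_neg (by omega), mul_zero]
    rw [e] at h
    rw [show z + 2 - 1 = z + 1 by omega, pow_succ' (qq k) z]
    linarith

end

section
theorem cst_L1 (m : ℕ) (F : ℕ → ℝ) :
    ∑ t ∈ box k m, (if t.Monic then F t.natDegree else 0) = ∑ τ ∈ range m, qq k ^ τ * F τ := by
  rw [← sum_filter, ← sum_fiberwise_of_maps_to (t := range m) (g := fun t : k[X] => t.natDegree)]
  · refine sum_congr rfl fun τ hτ => ?_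
    have e : {t ∈ {t ∈ box k m | t.Monic} | t.natDegree = τ} = mon k τ := by
      ext t
      simp only [mem_filter, mem_box, mem_mon]
      constructor
      · rintro ⟨⟨-, h1⟩, h2⟩
        exact ⟨h1, h2⟩
      · rintro ⟨h1, h2⟩
        refine ⟨⟨?_, h1⟩, h2⟩
        rw [degree_eq_natDegree h1.ne_zero, h2]
        exact_mod_cast mem_range.1 hτ
    rw [e, sum_congr rfl fun t ht => by rw [(mem_mon.1 ht).2], sum_const, nsmul_eq_mul, card_mon]
  · intro t ht
    obtain ⟨h1, h2⟩ := mem_filter.1 ht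
    exact mem_range.2 ((natDegree_lt_iff_degree_lt h2.ne_zero).2 (mem_box.1 h1))

theorem cst_L2 (m : ℕ) (F : ℕ → k → ℝ) :
    ∑ g ∈ box k m, (if Squarefree g then F g.natDegree g.leadingCoeff else 0) =
      ∑ y ∈ range m, (#{g ∈ mon k y | Squarefree g} : ℝ) * ∑ c ∈ {c : k | c ≠ 0}, F y c := by
  have e : ∀ y ∈ range m, (#{g ∈ mon k y | Squarefree g} : ℝ) * ∑ c ∈ {c : k | c ≠ 0}, F y c =
      ∑ x ∈ {g ∈ mon k y | Squarefree g} ×ˢ ({c : k | c ≠ 0} : Finset k), F y x.2 := by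
    intro y _
    rw [sum_product]
    dsimp only
    rw [sum_const, nsmul_eq_mul]
  rw [sum_congr rfl e, sum_sigma', ← sum_filter]
  symm
  refine sum_bij (fun x _ => C x.2.2 * x.2.1) ?_ ?_ ?_ ?_
  · rintro ⟨y, g, c⟩ h
    simp only [mem_sigma, mem_product, mem_filter, mem_range, mem_mon, mem_univ, true_and] at h
    obtain ⟨hy, ⟨⟨h1, h2⟩, h3⟩, hc⟩ := h
    refine mem_filter.2 ⟨mem_box.2 ?_, ?_⟩
    · rw [degree_C_mul hc, degree_eq_natDegree h1.ne_zero, h2]
      exact_mod_cast hy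
    · exact (associated_unit_mul_right g _ (isUnit_C.2 (Ne.isUnit hc))).squarefree_iff.1 h3
  · rintro ⟨y, g, c⟩ h ⟨y', g', c'⟩ h' hh
    simp only [mem_sigma, mem_product, mem_filter, mem_range, mem_mon, mem_univ, true_and] at h h' hh
    obtain ⟨hy, ⟨⟨h1, h2⟩, h3⟩, hc⟩ := h
    obtain ⟨hy', ⟨⟨h1', h2'⟩, h3'⟩, hc'⟩ := h'
    have e1 : c = c' := by
      have := congrArg leadingCoeff hh
      simpa [leadingCoeff_mul, h1.leadingCoeff, h1'.leadingCoeff] using this
    subst e1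
    have e2 : g = g' := mul_left_cancel₀ (C_ne_zero.2 hc) hh
    subst e2
    subst h2
    subst h2'
    rfl
  · intro g hg
    obtain ⟨h1, h2⟩ := mem_filter.1 hg
    have h0 : g ≠ 0 := h2.ne_zero
    have hc : g.leadingCoeff ≠ 0 := leadingCoeff_ne_zero.2 h0
    refine ⟨⟨g.natDegree, g * C g.leadingCoeff⁻¹, g.leadingCoeff⟩, ?_, ?_⟩
    · simp only [mem_sigma, mem_product, mem_filter, mem_range, mem_mon, mem_univ, true_and]
      refine ⟨(natDegree_lt_iff_degree_lt h0).2 (mem_box.1 h1), ⟨⟨monic_mul_leadingCoeff_inv h0,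
        natDegree_mul_C (inv_ne_zero hc)⟩, ?_⟩, hc⟩
      exact (associated_mul_unit_right g _ (isUnit_C.2 (Ne.isUnit (inv_ne_zero hc)))).squarefree_iff.1 h2
    · show C g.leadingCoeff * (g * C g.leadingCoeff⁻¹) = g
      rw [mul_comm g, ← mul_assoc, ← C_mul, mul_inv_cancel₀ hc, C_1, one_mul]
  · rintro ⟨y, g, c⟩ h
    simp only [mem_sigma, mem_product, mem_filter, mem_range, mem_mon, mem_univ, true_and] at h
    obtain ⟨hy, ⟨⟨h1, h2⟩, h3⟩, hc⟩ := h
    show F y c = F (C c * g).natDegree (C c * g).leadingCoeff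
    rw [natDegree_C_mul hc, h2, leadingCoeff_mul, leadingCoeff_C, h1.leadingCoeff, mul_one]

theorem cst_L3 (m : ℕ) (B : ℕ → ℝ) (s : ℕ → ℕ → ℝ) :
    ∑ τ ∈ range m, ∑ y ∈ range m, (if 3 * τ + y < m then B (3 * τ + y) * s τ y else 0) =
      ∑ d ∈ range m, B d * ∑ τ ∈ range m, if 3 * τ ≤ d then s τ (d - 3 * τ) else 0 := by
  simp only [mul_sum]
  rw [sum_comm (s := range m) (t := range m)
    (f := fun d τ => B d * if 3 * τ ≤ d then s τ (d - 3 * τ) else 0)]
  refine sum_congr rfl fun τ _ => ?_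
  simp only [mul_ite, mul_zero]
  rw [← sum_filter, ← sum_filter]
  refine sum_bij' (fun y _ => 3 * τ + y) (fun d _ => d - 3 * τ) ?_ ?_ ?_ ?_ ?_
  · intro y h
    simp only [mem_filter, mem_range] at h ⊢
    omega
  · intro y h
    simp only [mem_filter, mem_range] at h ⊢
    omega
  · intro y h
    show 3 * τ + y - 3 * τ = y
    omega
  · intro y h
    simp only [mem_filter, mem_range] at h
    show 3 * τ + (y - 3 * τ) = y
    omega
  · intro y h
    rw [show 3 * τ + y - 3 * τ = y by omega]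

theorem cst_W : ∀ d M : ℕ, d < M → ∑ τ ∈ range M, (if 3 * τ ≤ d then
      qq k ^ (2 * τ) * (#{g ∈ mon k (d - 3 * τ) | Squarefree g} : ℝ) else 0) =
    qq k ^ d - if d % 3 = 2 then qq k ^ (d - d / 3 - 1) else 0 := by
  intro d
  induction d using Nat.strong_induction_on with
  | _ d ih =>
  intro M hM
  obtain ⟨M, rfl⟩ : ∃ N, M = N + 1 := ⟨M - 1, by omega⟩
  rw [sum_range_succ']
  simp only [mul_zero, zero_le, if_true, pow_zero, one_mul, Nat.sub_zero]
  rw [card_sqf]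
  by_cases hd : d < 3
  · rw [sum_eq_zero fun j _ => if_neg (by omega), zero_add]
    interval_cases d <;> simp
  · obtain ⟨z, rfl⟩ : ∃ z, d = z + 3 := ⟨d - 3, by omega⟩
    have e : ∑ τ ∈ range M, (if 3 * (τ + 1) ≤ z + 3 then qq k ^ (2 * (τ + 1)) *
        (#{g ∈ mon k (z + 3 - 3 * (τ + 1)) | Squarefree g} : ℝ) else 0) =
        qq k ^ 2 * (qq k ^ z - if z % 3 = 2 then qq k ^ (z - z / 3 - 1) else 0) := by
      rw [← ih z (by omega) M (by omega), mul_sum]
      refine sum_congr rfl fun j _ => ?_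
      rw [show z + 3 - 3 * (j + 1) = z - 3 * j by omega]
      by_cases hj : 3 * j ≤ z
      · rw [if_pos hj, if_pos (by omega)]; ring
      · rw [if_neg hj, if_neg (by omega), mul_zero]
    rw [e, if_neg (show ¬ z + 3 ≤ 1 by omega), show z + 3 - 1 = z + 2 by omega]
    by_cases hz : z % 3 = 2
    · rw [if_pos hz, if_pos (by omega),
        show z + 3 - (z + 3) / 3 - 1 = (z - z / 3 - 1) + 2 by omega]
      ring
    · rw [if_neg hz, if_neg (by omega)]
      ring

theorem cst_G (q : ℝ) (hq : 0 < q) (n : ℕ) : ∀ m : ℕ,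
    ∑ d ∈ range m, (if (d + n) % 3 ≠ 2 then q - 1 else 0) * (q ^ d / q ^ ((d + n) / 3)) =
      q ^ m / q ^ ((m + n) / 3) - 1 / q ^ (n / 3) := by
  intro m
  induction m with
  | zero => simp
  | succ m ih =>
    rw [sum_range_succ, ih]
    by_cases h : (m + n) % 3 ≠ 2
    · rw [if_pos h, show (m + 1 + n) / 3 = (m + n) / 3 by omega]
      ring
    · rw [if_neg h, show (m + 1 + n) / 3 = (m + n) / 3 + 1 by omega, pow_succ, pow_succ,
        mul_div_mul_right _ _ hq.ne']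
      ring

theorem cst_row (hq : 3 ≤ qq k) (h3 : #{c : k | c ≠ 0 ∧ c ^ 3 = c} = 2) {n : ℕ} (hn : 2 ≤ n) :
    |cs k n - CL3.uu n| ≤ ((n : ℝ) + 1) * qq k ^ 2 / qq k ^ (n / 6) := by
  have hq0 : 0 < qq k := by linarith
  have hq1 : 1 ≤ qq k := by linarith
  set A : ℕ → ℝ := fun d =>
    (if (d + n) % 3 ≠ 2 then qq k - 1 else 0) + if n = 2 * d + 2 then 2 else 0 with hA
  have hc : ∀ (d : ℕ) (r : ℝ), ∑ c ∈ {c : k | c ≠ 0},
      (if (d + n) % 3 ≠ 2 ∨ (n = 2 * d + 2 ∧ c ^ 3 = c) then r else 0) = A d * r := by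
    intro d r
    by_cases h1 : (d + n) % 3 ≠ 2
    · have h2 : ¬ n = 2 * d + 2 := by omega
      have h4 : (#{c : k | c ≠ 0} : ℝ) = qq k - 1 := by
        rw [filter_ne' univ (0 : k), card_erase_of_mem (mem_univ _), card_univ,
          Nat.cast_sub Fintype.card_pos]
        simp [qq]
      simp only [hA, h1, h2, true_or, if_true, if_false, add_zero, ne_eq, not_false_eq_true,
        sum_const, nsmul_eq_mul]
      rw [h4]
    · by_cases h2 : n = 2 * d + 2
      · have : ∀ c : k, ((d + n) % 3 ≠ 2 ∨ (n = 2 * d + 2 ∧ c ^ 3 = c)) ↔ c ^ 3 = c :=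
          fun c => ⟨fun h => (h.resolve_left h1).2, fun h => Or.inr ⟨h2, h⟩⟩
        simp only [this]
        rw [← sum_filter, filter_filter, sum_const, h3, nsmul_eq_mul]
        simp only [hA]
        rw [if_neg h1, if_pos h2]
        norm_num
      · rw [sum_eq_zero fun c _ => if_neg fun h => h.elim h1 fun h => h2 h.1]
        simp only [hA]
        rw [if_neg h1, if_neg h2]
        ring
  have e1 : cs k n = ∑ d ∈ range (n / 2), A d / qq k ^ ((d + n) / 3) *
      (qq k ^ d - if d % 3 = 2 then qq k ^ (d - d / 3 - 1) else 0) := by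
    unfold cs PG
    rw [sum_filter, sum_product]
    have a1 : ∀ t ∈ box k (n / 2), ∑ g ∈ box k (n / 2),
        (if t.Monic ∧ Squarefree g ∧ 3 * t.natDegree + g.natDegree < n / 2 then
          if Adm n (t, g) then 1 / qq k ^ ((g.natDegree + n) / 3) else 0 else 0) =
        if t.Monic then (fun τ : ℕ => ∑ y ∈ range (n / 2), (#{g ∈ mon k y | Squarefree g} : ℝ) *
          (if 3 * τ + y < n / 2 then A (3 * τ + y) * (1 / qq k ^ ((y + n) / 3)) else 0))
          t.natDegree else 0 := by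
      intro t _
      by_cases ht : t.Monic
      · rw [if_pos ht]
        have := cst_L2 (k := k) (n / 2) fun y c => if 3 * t.natDegree + y < n / 2 then
          if (3 * t.natDegree + y + n) % 3 ≠ 2 ∨ (n = 2 * (3 * t.natDegree + y) + 2 ∧ c ^ 3 = c)
            then 1 / qq k ^ ((y + n) / 3) else 0 else 0
        refine Eq.trans (sum_congr rfl fun g _ => ?_) (this.trans (sum_congr rfl fun y _ => ?_))
        · by_cases h1 : Squarefree g
          · by_cases h2 : 3 * t.natDegree + g.natDegree < n / 2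
            · rw [if_pos ⟨ht, h1, h2⟩, if_pos h1, if_pos h2]
              exact if_congr Iff.rfl rfl rfl
            · rw [if_neg fun h => h2 h.2.2, if_pos h1, if_neg h2]
          · rw [if_neg fun h => h1 h.2.1, if_neg h1]
        · by_cases h2 : 3 * t.natDegree + y < n / 2
          · simp only [if_pos h2]
            rw [hc]
          · simp only [if_neg h2, sum_const_zero]
      · rw [if_neg ht]
        exact sum_eq_zero fun g _ => if_neg fun h => ht h.1
    refine (sum_congr rfl a1).trans ((cst_L1 (n / 2) fun τ : ℕ => ∑ y ∈ range (n / 2),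
      (#{g ∈ mon k y | Squarefree g} : ℝ) * (if 3 * τ + y < n / 2 then
        A (3 * τ + y) * (1 / qq k ^ ((y + n) / 3)) else 0)).trans ?_)
    have a2 := cst_L3 (n / 2) (fun d => A d / qq k ^ ((d + n) / 3))
      fun τ y => qq k ^ (2 * τ) * (#{g ∈ mon k y | Squarefree g} : ℝ)
    refine Eq.trans ?_ (a2.trans (sum_congr rfl fun d hd => ?_))
    · refine sum_congr rfl fun τ _ => ?_
      rw [mul_sum]
      refine sum_congr rfl fun y _ => ?_
      split_ifs with h
      · rw [show (3 * τ + y + n) / 3 = (y + n) / 3 + τ by omega, pow_add, two_mul, pow_add]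
        field_simp
      · simp
    · rw [cst_W d _ (mem_range.1 hd)]
  have e2 : ∑ d ∈ range (n / 2), A d * (qq k ^ d / qq k ^ ((d + n) / 3)) =
      CL3.uu n - 1 / qq k ^ (n / 3) := by
    simp only [hA, add_mul, sum_add_distrib]
    rw [cst_G _ hq0, show (n / 2 + n) / 3 = n / 2 by omega, div_self (by positivity)]
    unfold CL3.uu
    by_cases he : Even n
    · obtain ⟨j, hj⟩ := he
      rw [if_pos ⟨j, hj⟩, sum_eq_single (n / 2 - 1) (fun d _ hd => by
        rw [if_neg (by omega), zero_mul]) (fun h => (h (mem_range.2 (by omega))).elim),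
        if_pos (by omega), show (n / 2 - 1 + n) / 3 = n / 2 - 1 by omega,
        div_self (by positivity)]
      push_cast
      ring
    · rw [if_neg he, sum_eq_zero fun d _ => by
        rw [if_neg fun h => he ⟨d + 1, by omega⟩, zero_mul]]
      push_cast
      ring
  have e3 : cs k n - CL3.uu n = -(1 / qq k ^ (n / 3) + ∑ d ∈ range (n / 2),
      A d / qq k ^ ((d + n) / 3) * if d % 3 = 2 then qq k ^ (d - d / 3 - 1) else 0) := by
    rw [e1]
    simp only [mul_sub, sum_sub_distrib]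
    rw [sum_congr rfl fun d _ => show A d / qq k ^ ((d + n) / 3) * qq k ^ d =
      A d * (qq k ^ d / qq k ^ ((d + n) / 3)) by ring, e2]
    ring
  have hA0 : ∀ d, 0 ≤ A d ∧ A d ≤ qq k := by
    intro d
    simp only [hA]
    by_cases h1 : (d + n) % 3 ≠ 2
    · rw [if_pos h1, if_neg (by omega)]
      constructor <;> linarith
    · rw [if_neg h1]
      split_ifs <;> constructor <;> linarith
  have b1 : ∀ d ∈ range (n / 2), (0 ≤ A d / qq k ^ ((d + n) / 3) *
      if d % 3 = 2 then qq k ^ (d - d / 3 - 1) else 0) ∧ (A d / qq k ^ ((d + n) / 3) *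
      if d % 3 = 2 then qq k ^ (d - d / 3 - 1) else 0) ≤ qq k ^ 2 / qq k ^ (n / 6) := by
    intro d hd
    have hd := mem_range.1 hd
    obtain ⟨h1, h2⟩ := hA0 d
    split_ifs with h
    · refine ⟨by positivity, ?_⟩
      rw [div_mul_eq_mul_div, div_le_div_iff₀ (by positivity) (by positivity)]
      calc A d * qq k ^ (d - d / 3 - 1) * qq k ^ (n / 6)
          ≤ qq k * qq k ^ (d - d / 3 - 1) * qq k ^ (n / 6) := by gcongr
        _ = qq k ^ (1 + (d - d / 3 - 1) + n / 6) := by ring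
        _ ≤ qq k ^ (2 + (d + n) / 3) := pow_le_pow_right₀ hq1 (by omega)
        _ = _ := by ring
    · rw [mul_zero]
      exact ⟨le_rfl, by positivity⟩
  have b2 : 1 / qq k ^ (n / 3) ≤ qq k ^ 2 / qq k ^ (n / 6) := by
    rw [div_le_div_iff₀ (by positivity) (by positivity), one_mul, ← pow_add]
    exact pow_le_pow_right₀ hq1 (by omega)
  have b3 := sum_le_card_nsmul _ _ _ fun d hd => (b1 d hd).2
  have b4 := sum_nonneg fun d hd => (b1 d hd).1
  rw [card_range, nsmul_eq_mul] at b3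
  have b5 : ((n / 2 : ℕ) : ℝ) ≤ n := by exact_mod_cast Nat.div_le_self n 2
  have b6 : 0 ≤ qq k ^ 2 / qq k ^ (n / 6) := by positivity
  have b7 : 0 ≤ 1 / qq k ^ (n / 3) := by positivity
  rw [e3, abs_neg, abs_of_nonneg (by linarith), mul_div_assoc]
  nlinarith

end

section
variable [CharP k 3]
theorem lat_car_iff (w : k[X]) : CL3.car w = 0 ↔ derivative^[2] w = 0 := by
  have h := CL3.car_pow_three w
  constructor
  · intro h0
    rw [h0] at h
    have h1 : -derivative^[2] w = 0 := by rw [← h]; ring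
    exact neg_eq_zero.1 h1
  · intro h0
    rw [h0, neg_zero] at h
    exact pow_eq_zero_iff (by norm_num) |>.mp h

theorem lat_d2 (w : k[X]) : derivative^[2] w = derivative (derivative w) := rfl

theorem lat_d2_cube (a w : k[X]) : derivative^[2] (a ^ 3 * w) = a ^ 3 * derivative^[2] w := by
  rw [lat_d2, lat_d2, CL3.Rep56.der_cube_mul, CL3.Rep56.der_cube_mul]

theorem lat_d2_add (a b : k[X]) : derivative^[2] (a + b) = derivative^[2] a + derivative^[2] b := by
  rw [lat_d2, lat_d2, lat_d2, map_add, map_add]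

theorem lat_det (a b c : k[X]) : derivative^[2] (a * (b * derivative c - derivative b * c)) =
    derivative (derivative a) * (b * derivative c - derivative b * c) -
      derivative a * (b * derivative (derivative c) - derivative (derivative b) * c) +
      a * (derivative b * derivative (derivative c) - derivative (derivative b) * derivative c) := by
  have h3 := CL3.Rep56.three_eq (k := k)
  rw [lat_d2]
  simp only [derivative_mul, map_add, map_sub, CL3.Rep56.der3]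
  linear_combination
    (derivative a * (b * derivative (derivative c) - derivative (derivative b) * c)) * h3

theorem lat_cf {Z1 Z2 : k[X]} (n1 : Z1 ≠ 0)
    (hf : ∀ p : k[X], Irreducible p → ¬ p ^ 3 ∣ Z1 * derivative Z2 - derivative Z1 * Z2) :
    CF Z1 := by
  refine ⟨n1, fun p hp hd => hf p hp ?_⟩
  obtain ⟨u, rfl⟩ := hd
  rw [CL3.Rep56.der_cube_mul]
  exact ⟨u * derivative Z2 - derivative u * Z2, by ring⟩

theorem lat_core {H : k[X]} (hH : CF H) : ∃ Z1 Z2 : k[X], CF Z1 ∧ CF Z2 ∧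
    Z1.natDegree + Z2.natDegree = H.natDegree + 1 ∧
    Z1.natDegree % 3 ≠ Z2.natDegree % 3 ∧ CL3.car (H * Z1) = 0 ∧ CL3.car (H * Z2) = 0 ∧
    ∀ φ : k[X], CL3.car (H * φ) = 0 → ∃ s t : k[X], φ = s ^ 3 * Z1 + t ^ 3 * Z2 := by
  have h3 := CL3.Rep56.three_eq (k := k)
  have e0 : H ^ 2 * derivative (H ^ 2 * X) - derivative (H ^ 2) * (H ^ 2 * X) = H ^ 4 := by
    rw [derivative_mul, derivative_X]; ring
  have hW : H ^ 2 * derivative (H ^ 2 * X) - derivative (H ^ 2) * (H ^ 2 * X) ≠ 0 := by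
    rw [e0]; exact pow_ne_zero _ hH.1
  obtain ⟨Z1, Z2, hs, hy, hf⟩ := CL3.Rep56.exists_red hW
  obtain ⟨n1, n2⟩ := hs.ne hW
  obtain ⟨M11, M12, M21, M22, e1, e2⟩ := hs
  have ew : H ^ 2 * derivative (H ^ 2 * X) - derivative (H ^ 2) * (H ^ 2 * X) =
      (M11 * M22 - M12 * M21) ^ 3 * (Z1 * derivative Z2 - derivative Z1 * Z2) := by
    rw [e2, e1, CL3.Rep56.wr_comb]
  have hD : M11 * M22 - M12 * M21 ≠ 0 := fun h => hW (by rw [ew, h]; simp)
  have hWZ : Z1 * derivative Z2 - derivative Z1 * Z2 ≠ 0 := fun h => hW (by rw [ew, h]; simp)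
  have c1 : M11 ^ 3 * derivative^[2] (Z1 * H) + M12 ^ 3 * derivative^[2] (Z2 * H) = 0 := by
    rw [← lat_d2_cube, ← lat_d2_cube, ← lat_d2_add]
    have : M11 ^ 3 * (Z1 * H) + M12 ^ 3 * (Z2 * H) = H ^ 3 * 1 := by
      linear_combination (-H) * e1
    rw [this, lat_d2_cube, lat_d2]; simp
  have c2 : M21 ^ 3 * derivative^[2] (Z1 * H) + M22 ^ 3 * derivative^[2] (Z2 * H) = 0 := by
    rw [← lat_d2_cube, ← lat_d2_cube, ← lat_d2_add]
    have : M21 ^ 3 * (Z1 * H) + M22 ^ 3 * (Z2 * H) = H ^ 3 * X := by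
      linear_combination (-H) * e2
    rw [this, lat_d2_cube, lat_d2]; simp
  have cD : (M11 * M22 - M12 * M21) ^ 3 = M11 ^ 3 * M22 ^ 3 - M12 ^ 3 * M21 ^ 3 := by
    rw [sub_eq_add_neg, CL3.Rep56.cube_add]; ring
  have k1 : derivative^[2] (Z1 * H) = 0 := by
    refine (mul_eq_zero.1 ?_).resolve_left (pow_ne_zero 3 hD)
    rw [cD]
    linear_combination M22 ^ 3 * c1 - M12 ^ 3 * c2
  have k2 : derivative^[2] (Z2 * H) = 0 := by
    refine (mul_eq_zero.1 ?_).resolve_left (pow_ne_zero 3 hD)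
    rw [cD]
    linear_combination M11 ^ 3 * c2 - M21 ^ 3 * c1
  have eW : Z1 * derivative Z2 - derivative Z1 * Z2 =
      (1 : k[X]) ^ 3 * (Z1 * derivative Z2 - derivative Z1 * Z2) := by ring
  obtain ⟨t, ht⟩ := CL3.Rep56.ker_eq one_ne_zero hWZ eW hf k1 k2
  have t0 : t ≠ 0 := by
    rintro rfl
    exact hH.1 (by rw [ht]; simp)
  have ut : IsUnit t := by
    by_contra hu
    obtain ⟨p, hp, hd⟩ := WfDvdMonoid.exists_irreducible_factor hu t0
    exact hH.2 p hp ((pow_dvd_pow_of_dvd hd 3).trans ⟨_, ht⟩)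
  have dH : H.natDegree = (Z1 * derivative Z2 - derivative Z1 * Z2).natDegree := by
    have := congrArg natDegree ht
    rw [natDegree_mul (pow_ne_zero _ t0) hWZ, natDegree_pow, natDegree_eq_zero_of_isUnit ut] at this
    omega
  have d1 := CL3.Rep56.deg_wr n1 n2 hy
  have d2 : (Z1 * derivative Z2 - derivative Z1 * Z2).natDegree < Z1.natDegree + Z2.natDegree :=
    natDegree_wronskian_lt_add (a := Z1) (b := Z2) hWZ
  refine ⟨Z1, Z2, lat_cf n1 hf, lat_cf (Z2 := Z1) n2 fun p hp hd => hf p hp ?_, by omega, hy,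
    (lat_car_iff _).2 (by rw [mul_comm]; exact k1), (lat_car_iff _).2 (by rw [mul_comm]; exact k2),
    fun φ hφ => ?_⟩
  · rw [← dvd_neg]; convert hd using 1; ring
  have p0 : derivative^[2] (φ * (Z1 * derivative Z2 - derivative Z1 * Z2)) = 0 := by
    refine (mul_eq_zero.1 ?_).resolve_left (pow_ne_zero 3 t0)
    rw [← lat_d2_cube, ← (lat_car_iff _).1 hφ]
    congr 1
    linear_combination (-φ) * ht
  rw [lat_det] at p0
  obtain ⟨s, hs⟩ := CL3.Rep56.ker_eq (φ := Z2 * derivative φ - derivative Z2 * φ) one_ne_zero hWZ eW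
    hf (by rw [lat_det]; linear_combination p0) (by rw [lat_det]; ring)
  obtain ⟨u, hu⟩ := CL3.Rep56.ker_eq (φ := φ * derivative Z1 - derivative φ * Z1) one_ne_zero hWZ eW
    hf (by rw [lat_det]; ring) (by rw [lat_det]; linear_combination p0)
  refine ⟨-s, -u, mul_right_cancel₀ hWZ ?_⟩
  linear_combination (-Z1) * hs - Z2 * hu

theorem lat_row {H : k[X]} (hH : CF H) : ∃ Z1 Z2 : k[X], CF Z1 ∧ Z2 ≠ 0 ∧
    Z1.natDegree ≤ Z2.natDegree ∧ Z1.natDegree + Z2.natDegree = H.natDegree + 1 ∧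
    Z1.natDegree % 3 ≠ Z2.natDegree % 3 ∧ CL3.car (H * Z1) = 0 ∧
    ∀ φ : k[X], CL3.car (H * φ) = 0 → ∃ s t : k[X], φ = s ^ 3 * Z1 + t ^ 3 * Z2 := by
  obtain ⟨Z1, Z2, c1, c2, hd, hy, k1, k2, hs⟩ := lat_core hH
  rcases le_total Z1.natDegree Z2.natDegree with h | h
  · exact ⟨Z1, Z2, c1, c2.1, h, hd, hy, k1, hs⟩
  · refine ⟨Z2, Z1, c2, c1.1, h, by omega, hy.symm, k2, fun φ hφ => ?_⟩
    obtain ⟨s, t, e⟩ := hs φ hφ
    exact ⟨t, s, by rw [e, add_comm]⟩

end

section
variable [CharP k 3]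
omit [CharP k 3] in
theorem ker_mem {s Z : k[X]} {N : ℕ} (h : s ≠ 0 → 3 * s.natDegree + Z.natDegree < N) :
    s ∈ box k ((N + 2 - Z.natDegree) / 3) := by
  rw [mem_box]
  by_cases hs : s = 0
  · rw [hs, degree_zero]; exact WithBot.bot_lt_coe _
  · have := h hs
    rw [degree_eq_natDegree hs, Nat.cast_lt]
    omega

omit [CharP k 3] in
/-- Coordinates of a kernel element of small degree lie in small boxes. -/
theorem ker_coord {Z1 Z2 φ : k[X]} (n1 : Z1 ≠ 0) (n2 : Z2 ≠ 0)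
    (hy : Z1.natDegree % 3 ≠ Z2.natDegree % 3) {N : ℕ} (hφ : φ ∈ box k N)
    (h : ∃ s t : k[X], φ = s ^ 3 * Z1 + t ^ 3 * Z2) :
    ∃ s ∈ box k ((N + 2 - Z1.natDegree) / 3), ∃ t ∈ box k ((N + 2 - Z2.natDegree) / 3),
      φ = s ^ 3 * Z1 + t ^ 3 * Z2 := by
  by_cases h0 : φ = 0
  · exact ⟨0, ker_mem fun h => absurd rfl h, 0, ker_mem fun h => absurd rfl h, by simp [h0]⟩
  obtain ⟨s, t, rfl⟩ := h
  have hd : (s ^ 3 * Z1 + t ^ 3 * Z2).natDegree < N := by
    rw [mem_box, degree_eq_natDegree h0, Nat.cast_lt] at hφ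
    exact hφ
  refine ⟨s, ker_mem fun hs => (CL3.Rep56.deg_comb (t := t) n1 n2 hy hs).trans_lt hd, t,
    ker_mem fun ht => (CL3.Rep56.deg_comb (t := s) n2 n1 hy.symm ht).trans_lt ?_, rfl⟩
  rwa [add_comm]

omit [CharP k 3] in
theorem ker_card {Z1 Z2 : k[X]} {S : Finset k[X]} {a b : ℕ}
    (h : ∀ φ ∈ S, ∃ s ∈ box k a, ∃ t ∈ box k b, φ = s ^ 3 * Z1 + t ^ 3 * Z2) :
    (#S : ℝ) ≤ qq k ^ (a + b) := by
  have h1 : S ⊆ (box k a ×ˢ box k b).image fun x => x.1 ^ 3 * Z1 + x.2 ^ 3 * Z2 := fun φ hφ => by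
    obtain ⟨s, hs, t, ht, e⟩ := h φ hφ
    exact mem_image.2 ⟨(s, t), mem_product.2 ⟨hs, ht⟩, e.symm⟩
  have h2 := (card_le_card h1).trans card_image_le
  rw [card_product] at h2
  rw [pow_add, ← card_box, ← card_box]
  exact_mod_cast h2

theorem ker_num {u v w N : ℕ} (h : u + v + w = 3 * N + 3) (huv : u % 3 ≠ v % 3) :
    u / 3 + v / 3 + w / 3 ≤ N := by
  have h1 : u % 3 = 0 ∨ u % 3 = 1 ∨ u % 3 = 2 := by omega
  have h2 : v % 3 = 0 ∨ v % 3 = 1 ∨ v % 3 = 2 := by omega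
  rcases h1 with h1 | h1 | h1 <;> rcases h2 with h2 | h2 | h2 <;> omega

theorem ker_cases {H : k[X]} (hH : CF H) (N : ℕ) :
    (CL3.kap1 N H : ℝ) * qq k ^ ((H.natDegree + N) / 3) ≤ qq k ^ N ∨
      ∃ V : k[X], CF V ∧ V.natDegree + N + 2 ≤ H.natDegree ∧ CL3.car (H * V) = 0 ∧
        (CL3.kap1 N H : ℝ) ≤ qq k ^ ((N + 2 - V.natDegree) / 3) := by
  obtain ⟨Z1, Z2, c1, n2, h12, hs, hy, hz, hk⟩ := lat_row hH
  have hq : 1 ≤ qq k := by have := two_le_qq (k := k); linarith
  have h1 : (CL3.kap1 N H : ℝ) ≤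
      qq k ^ ((N + 2 - Z1.natDegree) / 3 + (N + 2 - Z2.natDegree) / 3) :=
    ker_card fun φ hφ => ker_coord c1.1 n2 hy (mem_filter.1 hφ).1 (hk φ (mem_filter.1 hφ).2)
  by_cases hc : Z2.natDegree ≤ N + 2
  · left
    refine (mul_le_mul_of_nonneg_right h1 (by positivity)).trans ?_
    rw [← pow_add]
    refine pow_le_pow_right₀ hq (ker_num (by omega) fun h => hy ?_)
    obtain ⟨u, hu⟩ : ∃ u, N + 2 = Z1.natDegree + u := ⟨N + 2 - Z1.natDegree, by omega⟩
    obtain ⟨v, hv⟩ : ∃ v, N + 2 = Z2.natDegree + v := ⟨N + 2 - Z2.natDegree, by omega⟩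
    rw [show N + 2 - Z1.natDegree = u by omega, show N + 2 - Z2.natDegree = v by omega] at h
    omega
  · right
    refine ⟨Z1, c1, by omega, hz, h1.trans (le_of_eq ?_)⟩
    congr 1
    omega

theorem ker_cf {U : k[X]} (hU : CF U) (y : ℕ) :
    (#{g ∈ box k (y + 1) | CF g ∧ CL3.car (U * g) = 0} : ℝ) ≤
      qq k ^ ((2 * y + 5 - U.natDegree) / 3) + qq k := by
  obtain ⟨Z1, Z2, c1, n2, h12, hs, hy, hz, hk⟩ := lat_row hU
  have hq : 1 ≤ qq k := by have := two_le_qq (k := k); linarith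
  have h0 : ∀ φ ∈ {g ∈ box k (y + 1) | CF g ∧ CL3.car (U * g) = 0}, _ := fun φ hφ =>
    ker_coord c1.1 n2 hy (mem_filter.1 hφ).1 (hk φ (mem_filter.1 hφ).2.2)
  by_cases hc : Z2.natDegree ≤ y
  · refine (ker_card h0).trans (le_add_of_le_of_nonneg (pow_le_pow_right₀ hq (by omega)) ?_)
    linarith
  · have h1 := ker_card (Z1 := Z1) (Z2 := Z2) (a := 1) (b := 0)
      (S := {g ∈ box k (y + 1) | CF g ∧ CL3.car (U * g) = 0}) fun φ hφ => by
        obtain ⟨s, -, t, ht, e⟩ := h0 φ hφ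
        rw [show (y + 1 + 2 - Z2.natDegree) / 3 = 0 by omega] at ht
        refine ⟨s, ?_, t, ht, e⟩
        have ht0 : t = 0 := by
          rw [mem_box] at ht
          exact degree_eq_bot.1 (Nat.WithBot.lt_zero_iff.1 ht)
        obtain ⟨g0, g1⟩ := (mem_filter.1 hφ).2.1
        rw [ht0, zero_pow three_ne_zero, zero_mul, add_zero] at e
        have hs0 : s ≠ 0 := fun h => g0 (by rw [e, h, zero_pow three_ne_zero, zero_mul])
        have hu : IsUnit s := by
          by_contra hu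
          obtain ⟨p, hp, hps⟩ := WfDvdMonoid.exists_irreducible_factor hu hs0
          exact g1 p hp (e ▸ (pow_dvd_pow_of_dvd hps 3).mul_right _)
        rw [mem_box, degree_eq_zero_of_isUnit hu]
        exact_mod_cast Nat.zero_lt_one
    rw [add_zero, pow_one] at h1
    exact le_add_of_nonneg_of_le (by positivity) h1

end

section
variable [CharP k 3]
theorem cnt_kap (N : ℕ) (H : k[X]) :
    CL3.kap1 N H = #{φ ∈ box k N | CL3.car (H * φ) = 0} := by
  unfold CL3.kap1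
  congr 1

theorem cnt_le (N : ℕ) (H v : k[X]) :
    #{φ ∈ box k N | CL3.car (H * φ) = v} ≤ CL3.kap1 N H := by
  rw [cnt_kap]
  rcases ({φ ∈ box k N | CL3.car (H * φ) = v} : Finset k[X]).eq_empty_or_nonempty with h | ⟨a, ha⟩
  · rw [h]; exact Nat.zero_le _
  · obtain ⟨a1, a2⟩ := mem_filter.1 ha
    refine card_le_card_of_injOn (fun φ => φ - a) (fun φ hφ => ?_) fun x _ y _ e =>
      sub_left_injective e
    obtain ⟨b1, b2⟩ := mem_filter.1 hφ
    refine mem_filter.2 ⟨mem_box.2 ((degree_sub_le _ _).trans_lt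
      (max_lt (mem_box.1 b1) (mem_box.1 a1))), ?_⟩
    rw [mul_sub, CL3.car_sub, a2, b2, sub_self]

theorem cnt_deg {N : ℕ} (H : k[X]) {φ : k[X]} (h : φ ∈ box k N) :
    CL3.car (H * φ) ∈ box k ((H.natDegree + N) / 3) := by
  refine mem_box.2 (CL3.degree_car_lt ?_)
  rcases eq_or_ne (H * φ) 0 with e | e
  · rw [e, degree_zero]; exact WithBot.bot_lt_coe _
  · have h1 : φ ≠ 0 := right_ne_zero_of_mul e
    have h2 := (natDegree_lt_iff_degree_lt h1).2 (mem_box.1 h)
    rw [← natDegree_lt_iff_degree_lt e, natDegree_mul (left_ne_zero_of_mul e) h1]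
    omega

theorem cnt_sum (N : ℕ) (H : k[X]) :
    ∑ v ∈ box k ((H.natDegree + N) / 3), (#{φ ∈ box k N | CL3.car (H * φ) = v} : ℝ) =
      qq k ^ N := by
  rw [← card_box, card_eq_sum_card_fiberwise (f := fun φ => CL3.car (H * φ))
    fun φ h => cnt_deg H h]
  push_cast
  rfl

theorem cnt_NT (N : ℕ) (H T : k[X]) :
    NT N H T = #{φ ∈ box k N | CL3.car (H * φ) = T - CL3.car (H * X ^ N)} := by
  unfold NT mon
  rw [filter_image, card_image_of_injective _ (add_right_injective _)]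
  congr 2
  refine filter_congr fun φ _ => ?_
  rw [mul_add, CL3.car_add, eq_sub_iff_add_eq, add_comm]

theorem NT_le (N : ℕ) (H T : k[X]) : NT N H T ≤ CL3.kap1 N H := by
  rw [cnt_NT]
  exact_mod_cast cnt_le N H _

theorem le_kap (N : ℕ) (H : k[X]) :
    qq k ^ N ≤ (CL3.kap1 N H : ℝ) * qq k ^ ((H.natDegree + N) / 3) := by
  rw [← cnt_sum N H, ← card_box ((H.natDegree + N) / 3), mul_comm, ← nsmul_eq_mul]
  exact sum_le_card_nsmul _ _ _ fun v _ => by exact_mod_cast cnt_le N H v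

theorem NT_eq {N : ℕ} {H : k[X]}
    (h : (CL3.kap1 N H : ℝ) * qq k ^ ((H.natDegree + N) / 3) ≤ qq k ^ N) (T : k[X]) :
    NT N H T = if (T - CL3.car (H * X ^ N)).degree < (((H.natDegree + N) / 3 : ℕ) : WithBot ℕ) then
      qq k ^ N / qq k ^ ((H.natDegree + N) / 3) else 0 := by
  have hq : (0 : ℝ) < qq k ^ ((H.natDegree + N) / 3) :=
    pow_pos (by unfold qq; exact_mod_cast Fintype.card_pos) _
  have e := le_antisymm h (le_kap N H)
  rw [cnt_NT]
  split_ifs with c
  · rw [← e, mul_div_cancel_right₀ _ hq.ne']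
    refine (sum_eq_sum_iff_of_le (s := box k ((H.natDegree + N) / 3))
      (f := fun v => (#{φ ∈ box k N | CL3.car (H * φ) = v} : ℝ))
      (g := fun _ => (CL3.kap1 N H : ℝ)) fun v _ => by exact_mod_cast cnt_le N H v).1 ?_ _
      (mem_box.2 c)
    rw [cnt_sum, sum_const, nsmul_eq_mul, card_box, mul_comm, e]
  · rw [Nat.cast_eq_zero, card_eq_zero, filter_eq_empty_iff]
    exact fun φ hφ e' => c (e' ▸ mem_box.1 (cnt_deg H hφ))

end

section
variable [CharP k 3]
theorem adm_row {n : ℕ} {x : k[X] × k[X]} (hx : x ∈ PG k n) {D : k[X]} (hD : D.Monic)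
    (hn : D.natDegree ≤ n) :
    (x.1 ^ 2 * x.2 - CL3.car (x.2 * D * X ^ (n - D.natDegree))).degree <
      (((x.2.natDegree + n) / 3 : ℕ) : WithBot ℕ) ↔ Adm n x := by
  obtain ⟨t, g⟩ := x
  obtain ⟨ht, hg, hd⟩ := (mem_filter.1 hx).2
  dsimp only at ht hg hd ⊢
  have g0 : g ≠ 0 := hg.ne_zero
  have l0 : g.leadingCoeff ≠ 0 := leadingCoeff_ne_zero.2 g0
  have mW : (D * X ^ (n - D.natDegree)).Monic := hD.mul (monic_X_pow _)
  have dW : (g * D * X ^ (n - D.natDegree)).natDegree = g.natDegree + n := by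
    rw [mul_assoc, natDegree_mul g0 mW.ne_zero, hD.natDegree_mul (monic_X_pow _), natDegree_X_pow]
    omega
  have lW : (g * D * X ^ (n - D.natDegree)).coeff (g.natDegree + n) = g.leadingCoeff := by
    rw [← dW, coeff_natDegree, mul_assoc, leadingCoeff_mul, mW.leadingCoeff, mul_one]
  have dT : (t ^ 2 * g).natDegree = 2 * t.natDegree + g.natDegree := by
    rw [natDegree_mul (ht.pow 2).ne_zero g0, ht.natDegree_pow]
  have lT : (t ^ 2 * g).coeff (2 * t.natDegree + g.natDegree) = g.leadingCoeff := by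
    rw [← dT, coeff_natDegree, leadingCoeff_mul, (ht.pow 2).leadingCoeff, one_mul]
  generalize g * D * X ^ (n - D.natDegree) = W at dW lW ⊢
  generalize t ^ 2 * g = T at dT lT ⊢
  have zW : ∀ j, g.natDegree + n < 3 * j + 2 → (CL3.car W).coeff j = 0 := fun j hj => by
    have := CL3.coeff_car W j
    rw [coeff_eq_zero_of_natDegree_lt (p := W) (by omega)] at this
    exact pow_eq_zero_iff (by norm_num) |>.1 this
  have zT : ∀ j, 2 * t.natDegree + g.natDegree < j → T.coeff j = 0 := fun j hj =>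
    coeff_eq_zero_of_natDegree_lt (by omega)
  rw [degree_lt_iff_coeff_zero]
  unfold Adm
  dsimp only
  by_cases h3 : (3 * t.natDegree + g.natDegree + n) % 3 = 2
  · have e1 : 3 * ((g.natDegree + n) / 3) + 2 = g.natDegree + n := by omega
    have c1 := CL3.coeff_car W ((g.natDegree + n) / 3)
    rw [e1, lW] at c1
    constructor
    · intro h
      have h1 := h _ le_rfl
      rw [coeff_sub, sub_eq_zero] at h1
      rw [← h1] at c1
      by_cases e2 : (g.natDegree + n) / 3 = 2 * t.natDegree + g.natDegree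
      · rw [e2, lT] at c1
        exact Or.inr ⟨by omega, c1⟩
      · rw [zT _ (by omega)] at c1
        exact absurd (by simpa using c1.symm) l0
    · rintro (h | ⟨h1, h2⟩) j hj
      · exact absurd h3 h
      · rw [coeff_sub, sub_eq_zero]
        rcases eq_or_lt_of_le hj with rfl | hj'
        · refine CL3.car_three_inj ?_
          rw [c1, show (g.natDegree + n) / 3 = 2 * t.natDegree + g.natDegree by omega, lT, h2]
        · rw [zT _ (by omega), zW _ (by omega)]
  · refine ⟨fun _ => Or.inl h3, fun _ j hj => ?_⟩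
    rw [coeff_sub, zT _ (by omega), zW _ (by omega), sub_zero]

theorem card_fix : #{c : k | c ≠ 0 ∧ c ^ 3 = c} = 2 := by
  have h3 : (3 : k) = 0 := by exact_mod_cast CharP.cast_eq_zero k 3
  have h1 : (1 : k) ≠ -1 := fun h => one_ne_zero (α := k) (by linear_combination h3 - h)
  rw [← card_pair h1]
  congr 1
  ext c
  simp only [mem_filter, mem_univ, true_and, mem_insert, mem_singleton]
  constructor
  · rintro ⟨h, h'⟩
    refine mul_self_eq_one_iff.1 (mul_left_cancel₀ h ?_)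
    linear_combination h'
  · rintro (rfl | rfl)
    · simp
    · exact ⟨by simp, by ring⟩

end

section
omit [Fintype k] in
theorem dec_dvd {t t' g g' : k[X]} (ht : t ≠ 0) (hg' : Squarefree g')
    (h : t ^ 3 * g = t' ^ 3 * g') : t ∣ t' := by
  obtain ⟨a, b, ha, hb, hu⟩ := extract_gcd t t'
  have hc : IsCoprime a b := (gcd_isUnit_iff a b).1 hu
  have hd : gcd t t' ≠ 0 := fun h0 => ht (by rw [ha, h0, zero_mul])
  have h1 : a ^ 3 * g = b ^ 3 * g' := by
    apply mul_left_cancel₀ (pow_ne_zero 3 hd)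
    calc gcd t t' ^ 3 * (a ^ 3 * g) = (gcd t t' * a) ^ 3 * g := by ring
      _ = (gcd t t' * b) ^ 3 * g' := by rw [← ha, ← hb, h]
      _ = _ := by ring
  have h2 : a ^ 3 ∣ g' := (IsCoprime.pow (m := 3) (n := 3) hc).dvd_of_dvd_mul_left ⟨g, h1.symm⟩
  have h3 : IsUnit a := hg' a (Dvd.dvd.trans ⟨a, by ring⟩ h2)
  calc t = gcd t t' * a := ha
    _ ∣ gcd t t' := by
      obtain ⟨u, rfl⟩ := h3
      exact ⟨↑u⁻¹, by rw [mul_assoc, Units.mul_inv, mul_one]⟩
    _ ∣ t' := gcd_dvd_right t t'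

omit [Fintype k] in
theorem dec_inj {t t' g g' : k[X]} (ht : t.Monic) (ht' : t'.Monic) (hg : Squarefree g)
    (hg' : Squarefree g') (h : t ^ 3 * g = t' ^ 3 * g') : t = t' ∧ g = g' := by
  have h1 : t = t' := eq_of_monic_of_associated ht ht'
    (associated_of_dvd_dvd (dec_dvd ht.ne_zero hg' h) (dec_dvd ht'.ne_zero hg h.symm))
  subst h1
  exact ⟨rfl, mul_left_cancel₀ (pow_ne_zero 3 ht.ne_zero) h⟩

theorem dec_mem_PG {n : ℕ} {x : k[X] × k[X]} : x ∈ PG k n ↔
    x.1.Monic ∧ Squarefree x.2 ∧ 3 * x.1.natDegree + x.2.natDegree < n / 2 := by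
  unfold PG
  rw [mem_filter, mem_product, mem_box, mem_box]
  refine ⟨fun h => h.2, fun h => ⟨⟨?_, ?_⟩, h⟩⟩
  · exact (natDegree_lt_iff_degree_lt h.1.ne_zero).1 (by have := h.2.2; omega)
  · exact (natDegree_lt_iff_degree_lt h.2.1.ne_zero).1 (by have := h.2.2; omega)

variable [CharP k 3]

theorem dec_one {n : ℕ} {F : k[X]} (hn : F.natDegree = n) :
    bb F = #{x ∈ PG k n | CL3.car (x.2 * F) = x.1 ^ 2 * x.2} := by
  unfold bb
  congr 1
  symm
  have key : ∀ t g : k[X], t.Monic →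
      (CL3.car (t ^ 3 * g * F) = t ^ 3 * g ↔ CL3.car (g * F) = t ^ 2 * g) := by
    intro t g ht
    rw [mul_assoc, CL3.car_pow_mul]
    constructor
    · intro h
      apply mul_left_cancel₀ ht.ne_zero
      rw [h]; ring
    · intro h
      rw [h]; ring
  have hdeg : ∀ t g : k[X], t.Monic → g ≠ 0 →
      (t ^ 3 * g).natDegree = 3 * t.natDegree + g.natDegree := by
    intro t g ht hg
    rw [natDegree_mul (pow_ne_zero 3 ht.ne_zero) hg, natDegree_pow]
  refine card_bij (fun x _ => x.1 ^ 3 * x.2) ?_ ?_ ?_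
  · intro x hx
    obtain ⟨h1, h2⟩ := mem_filter.1 hx
    obtain ⟨ha, hb, hc⟩ := dec_mem_PG.1 h1
    refine mem_filter.2 ⟨?_, x.1, x.2, ha, hb, rfl⟩
    unfold CL3.Sol
    refine mem_filter.2 ⟨CL5.mem_box.2 ?_, (key _ _ ha).2 h2⟩
    refine (natDegree_lt_iff_degree_lt (mul_ne_zero (pow_ne_zero 3 ha.ne_zero) hb.ne_zero)).1 ?_
    rw [hdeg _ _ ha hb.ne_zero, hn]
    exact hc
  · intro x hx y hy hxy
    obtain ⟨ha, hb, -⟩ := dec_mem_PG.1 (mem_filter.1 hx).1
    obtain ⟨ha', hb', -⟩ := dec_mem_PG.1 (mem_filter.1 hy).1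
    obtain ⟨h1, h2⟩ := dec_inj ha ha' hb hb' hxy
    exact Prod.ext h1 h2
  · intro g hg
    obtain ⟨h1, t, g0, ha, hb, rfl⟩ := mem_filter.1 hg
    unfold CL3.Sol at h1
    obtain ⟨h2, h3⟩ := mem_filter.1 h1
    refine ⟨(t, g0), mem_filter.2 ⟨dec_mem_PG.2 ⟨ha, hb, ?_⟩, (key _ _ ha).1 h3⟩, rfl⟩
    have h4 := (natDegree_lt_iff_degree_lt
      (mul_ne_zero (pow_ne_zero 3 ha.ne_zero) hb.ne_zero)).2 (CL5.mem_box.1 h2)
    rw [hdeg _ _ ha hb.ne_zero, hn] at h4
    exact h4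

theorem dec_row {n : ℕ} {D : k[X]} (hD : D.Monic) (hn : D.natDegree ≤ n) :
    ∑ f ∈ mon k (n - D.natDegree), bb (D * f) =
      ∑ x ∈ PG k n, NT (n - D.natDegree) (x.2 * D) (x.1 ^ 2 * x.2) := by
  have h1 : ∀ f ∈ mon k (n - D.natDegree), bb (D * f) =
      ∑ x ∈ PG k n, (if CL3.car (x.2 * D * f) = x.1 ^ 2 * x.2 then (1 : ℝ) else 0) := by
    intro f hf
    obtain ⟨hm, hd⟩ := mem_mon.1 hf
    have : (D * f).natDegree = n := by rw [hD.natDegree_mul hm, hd]; omega
    rw [dec_one this, card_filter]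
    push_cast
    refine sum_congr rfl fun x _ => ?_
    rw [mul_assoc]
  rw [sum_congr rfl h1, sum_comm]
  refine sum_congr rfl fun x _ => ?_
  unfold NT
  rw [card_filter]
  push_cast
  rfl

end

section
omit [Fintype k] in
theorem bad_cf_sq {g : k[X]} (hg : Squarefree g) : CF g :=
  ⟨hg.ne_zero, fun p hp h => hp.not_isUnit (hg p (dvd_trans ⟨p, by ring⟩ h))⟩

omit [Fintype k] in
theorem bad_cf_mul {g D : k[X]} (hg : Squarefree g) (hD : Squarefree D) : CF (g * D) := by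
  refine ⟨mul_ne_zero hg.ne_zero hD.ne_zero, fun p hp h => ?_⟩
  have h2 : p ^ 2 ∣ D := hg.pow_dvd_of_squarefree_of_pow_succ_dvd_mul_right hp.prime h
  exact hp.not_isUnit (hD p (by rw [← sq]; exact h2))

omit [Fintype k] in
theorem bad_cube : ∀ (n : ℕ) (W : k[X]), W.natDegree = n → W ≠ 0 →
    ∃ s U : k[X], s.Monic ∧ CF U ∧ W = s ^ 3 * U := by
  intro n
  induction n using Nat.strong_induction_on with
  | _ n ih =>
    intro W hn hW
    by_cases h : CF W
    · exact ⟨1, W, monic_one, h, by ring⟩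
    · have h1 : ∃ p : k[X], Irreducible p ∧ p ^ 3 ∣ W := by
        by_contra h2
        exact h ⟨hW, fun p hp hd => h2 ⟨p, hp, hd⟩⟩
      obtain ⟨p, hp, hd⟩ := h1
      have hm : (p * C (leadingCoeff p)⁻¹).Monic := monic_mul_leadingCoeff_inv hp.ne_zero
      have hdeg : (p * C (leadingCoeff p)⁻¹).natDegree = p.natDegree :=
        natDegree_mul_leadingCoeff_inv p hp.ne_zero
      have hd2 : (p * C (leadingCoeff p)⁻¹) ^ 3 ∣ W := by
        have hu : IsUnit (C (leadingCoeff p)⁻¹ : k[X]) :=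
          isUnit_C.2 (IsUnit.mk0 _ (inv_ne_zero (leadingCoeff_ne_zero.2 hp.ne_zero)))
        rw [mul_pow]
        exact (hu.pow 3).mul_right_dvd.2 hd
      obtain ⟨W1, hW1⟩ := hd2
      have h0 : W1 ≠ 0 := fun e => hW (by rw [hW1, e, mul_zero])
      have hlt : W1.natDegree < n := by
        have h3 := congrArg natDegree hW1
        rw [natDegree_mul (pow_ne_zero _ hm.ne_zero) h0, natDegree_pow, hdeg] at h3
        have := hp.natDegree_pos
        omega
      obtain ⟨s, U, hs, hU, e⟩ := ih _ hlt W1 rfl h0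
      exact ⟨p * C (leadingCoeff p)⁻¹ * s, U, hm.mul hs, hU, by rw [hW1, e]; ring⟩

omit [Fintype k] in
theorem bad_split {D V : k[X]} (hs : Squarefree D) (hV : V ≠ 0) :
    ∃ s W : k[X], s.Monic ∧ CF (D * W /ₘ s) ∧ V = s ^ 2 * W ∧ D * V = s ^ 3 * (D * W /ₘ s) := by
  obtain ⟨s, U, hm, hU, e⟩ := bad_cube _ (D * V) rfl (mul_ne_zero hs.ne_zero hV)
  have h1 : s ∣ V := hs.dvd_of_squarefree_of_mul_dvd_mul_right ⟨s * U, by rw [e]; ring⟩
  obtain ⟨V1, rfl⟩ := h1
  have e1 : D * V1 = s ^ 2 * U := mul_left_cancel₀ hm.ne_zero (by linear_combination e)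
  have h2 : s ∣ V1 := hs.dvd_of_squarefree_of_mul_dvd_mul_right ⟨U, by rw [e1]; ring⟩
  obtain ⟨W, rfl⟩ := h2
  have e2 : D * W = s * U := mul_left_cancel₀ hm.ne_zero (by linear_combination e1)
  have e3 : D * W /ₘ s = U := by rw [e2, mul_divByMonic_cancel_left _ hm]
  exact ⟨s, W, hm, e3 ▸ hU, by ring, by rw [e3]; exact e⟩

theorem bad_PG (n : ℕ) (F : ℕ → k[X] → ℝ) (hF : ∀ y g, 0 ≤ F y g) :
    ∑ x ∈ PG k n, F x.2.natDegree x.2 ≤ ∑ τ ∈ range (n + 1), ∑ y ∈ range (n + 1),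
      if 3 * τ + y < n / 2 then qq k ^ τ * ∑ g ∈ box k (y + 1), F y g else 0 := by
  rw [← sum_product', ← sum_fiberwise_of_maps_to (t := range (n + 1) ×ˢ range (n + 1))
    (g := fun x : k[X] × k[X] => (x.1.natDegree, x.2.natDegree))]
  · refine sum_le_sum fun j _ => ?_
    split_ifs with h
    · calc ∑ x ∈ PG k n with (x.1.natDegree, x.2.natDegree) = j, F x.2.natDegree x.2
          = ∑ x ∈ PG k n with (x.1.natDegree, x.2.natDegree) = j, F j.2 x.2 :=
            sum_congr rfl fun x hx => by rw [← (mem_filter.1 hx).2]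
        _ ≤ ∑ x ∈ mon k j.1 ×ˢ box k (j.2 + 1), F j.2 x.2 := by
            refine sum_le_sum_of_subset_of_nonneg (fun x hx => ?_) fun _ _ _ => hF _ _
            obtain ⟨h1, h2⟩ := mem_filter.1 hx
            obtain ⟨-, h3, -, -⟩ := mem_filter.1 h1
            rw [← h2]
            refine mem_product.2 ⟨mem_mon.2 ⟨h3, rfl⟩, mem_box.2 ?_⟩
            exact lt_of_le_of_lt degree_le_natDegree (by exact_mod_cast Nat.lt_succ_self _)
        _ = qq k ^ j.1 * ∑ g ∈ box k (j.2 + 1), F j.2 g := by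
            rw [sum_product]
            dsimp only
            rw [sum_const, nsmul_eq_mul, card_mon]
    · refine le_of_eq (sum_eq_zero fun x hx => ?_)
      obtain ⟨h1, h2⟩ := mem_filter.1 hx
      obtain ⟨-, -, -, h3⟩ := mem_filter.1 h1
      exact absurd (by rw [← h2]; exact h3) h
  · intro x hx
    obtain ⟨-, -, -, h3⟩ := mem_filter.1 hx
    simp only [mem_product, mem_range]
    omega

variable [CharP k 3]

/-- The weight of an exceptional configuration. -/
def bad_W (D : k[X]) (N y v σ : ℕ) (s W g : k[X]) : ℝ :=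
  if (v + N + 2 ≤ y + D.natDegree ∧ 2 * σ ≤ v ∧ CF (D * W /ₘ s) ∧
      (D * W /ₘ s).natDegree + 3 * σ = D.natDegree + v) ∧ CF g ∧ CL3.car (D * W /ₘ s * g) = 0 then
    qq k ^ ((N + 2 - v) / 3) else 0

theorem bad_W_nonneg (D : k[X]) (N y v σ : ℕ) (s W g : k[X]) : 0 ≤ bad_W D N y v σ s W g := by
  unfold bad_W
  split_ifs
  · exact (pow_pos fr_q _).le
  · exact le_rfl

theorem bad_pt {n N : ℕ} {D g : k[X]} (hs : Squarefree D) (hg : Squarefree g)
    (hn : g.natDegree + D.natDegree ≤ n) (e : ℕ) (he : e = g.natDegree + D.natDegree + N) :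
    (if (CL3.kap1 N (g * D) : ℝ) * qq k ^ (e / 3) ≤ qq k ^ N then (0 : ℝ) else CL3.kap1 N (g * D)) ≤
      ∑ v ∈ range (n + 1), ∑ σ ∈ range (n + 1), ∑ s ∈ mon k σ, ∑ W ∈ box k (v - 2 * σ + 1),
        bad_W D N g.natDegree v σ s W g := by
  have hdeg : (g * D).natDegree = g.natDegree + D.natDegree := natDegree_mul hg.ne_zero hs.ne_zero
  split_ifs with h
  · exact sum_nonneg fun _ _ => sum_nonneg fun _ _ => sum_nonneg fun _ _ => sum_nonneg fun _ _ =>
      bad_W_nonneg ..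
  · rcases ker_cases (bad_cf_mul hg hs) N with h1 | ⟨V, hV, h1, h2, h3⟩
    · rw [hdeg, ← he] at h1
      exact absurd h1 h
    · obtain ⟨s, W, hm, hU, e1, e2⟩ := bad_split hs hV.1
      have hW : W ≠ 0 := fun e0 => hV.1 (by rw [e1, e0, mul_zero])
      have d1 : V.natDegree = 2 * s.natDegree + W.natDegree := by
        rw [e1, natDegree_mul (pow_ne_zero _ hm.ne_zero) hW, natDegree_pow]
      have d2 : D.natDegree + V.natDegree = 3 * s.natDegree + (D * W /ₘ s).natDegree := by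
        rw [← natDegree_mul hs.ne_zero hV.1, e2, natDegree_mul (pow_ne_zero _ hm.ne_zero) hU.1,
          natDegree_pow]
      have h4 : CL3.car (D * W /ₘ s * g) = 0 := by
        have h5 : g * D * V = s ^ 3 * (D * W /ₘ s * g) := by linear_combination g * e2
        rw [h5, CL3.car_pow_mul] at h2
        exact (mul_eq_zero.1 h2).resolve_left hm.ne_zero
      rw [hdeg] at h1
      have hb : bad_W D N g.natDegree V.natDegree s.natDegree s W g =
          qq k ^ ((N + 2 - V.natDegree) / 3) :=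
        if_pos ⟨⟨h1, by omega, hU, by omega⟩, bad_cf_sq hg, h4⟩
      refine h3.trans (hb.ge.trans ?_)
      refine le_trans ?_ (single_le_sum (a := V.natDegree) (fun _ _ => sum_nonneg fun _ _ =>
        sum_nonneg fun _ _ => sum_nonneg fun _ _ => bad_W_nonneg ..) (mem_range.2 (by omega)))
      refine le_trans ?_ (single_le_sum (a := s.natDegree) (fun _ _ =>
        sum_nonneg fun _ _ => sum_nonneg fun _ _ => bad_W_nonneg ..) (mem_range.2 (by omega)))
      refine le_trans ?_ (single_le_sum (a := s) (fun _ _ => sum_nonneg fun _ _ => bad_W_nonneg ..)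
        (mem_mon.2 ⟨hm, rfl⟩))
      refine single_le_sum (a := W) (f := fun W => bad_W D N g.natDegree V.natDegree s.natDegree s W g)
        (fun _ _ => bad_W_nonneg ..) (mem_box.2 ?_)
      refine lt_of_le_of_lt degree_le_natDegree ?_
      exact_mod_cast (by omega : W.natDegree < V.natDegree - 2 * s.natDegree + 1)

theorem bad_g (D : k[X]) (N y v σ : ℕ) (s W : k[X]) :
    ∑ g ∈ box k (y + 1), bad_W D N y v σ s W g ≤
      if v + N + 2 ≤ y + D.natDegree ∧ 2 * σ ≤ v then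
        qq k ^ ((N + 2 - v) / 3) * (qq k ^ ((2 * y + 5 - (D.natDegree + v - 3 * σ)) / 3) + qq k)
      else 0 := by
  have hq := fr_q (k := k)
  by_cases h : v + N + 2 ≤ y + D.natDegree ∧ 2 * σ ≤ v ∧ CF (D * W /ₘ s) ∧
      (D * W /ₘ s).natDegree + 3 * σ = D.natDegree + v
  · rw [if_pos ⟨h.1, h.2.1⟩]
    have h1 := ker_cf h.2.2.1 y
    have h2 : (D * W /ₘ s).natDegree = D.natDegree + v - 3 * σ := by have := h.2.2.2; omega
    rw [h2] at h1
    calc ∑ g ∈ box k (y + 1), bad_W D N y v σ s W g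
        = ∑ g ∈ box k (y + 1), if CF g ∧ CL3.car (D * W /ₘ s * g) = 0 then
            qq k ^ ((N + 2 - v) / 3) else 0 :=
          sum_congr rfl fun g _ => by unfold bad_W; simp only [h, and_self, true_and]
      _ = qq k ^ ((N + 2 - v) / 3) *
            #{g ∈ box k (y + 1) | CF g ∧ CL3.car (D * W /ₘ s * g) = 0} := by
          rw [← sum_filter, sum_const, nsmul_eq_mul, mul_comm]
      _ ≤ _ := mul_le_mul_of_nonneg_left h1 (pow_pos hq _).le
  · have h0 : ∑ g ∈ box k (y + 1), bad_W D N y v σ s W g = 0 :=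
      sum_eq_zero fun g _ => if_neg fun h1 => h h1.1
    rw [h0]
    split_ifs
    · exact mul_nonneg (pow_pos hq _).le (add_nonneg (pow_pos hq _).le hq.le)
    · exact le_rfl

theorem bad_cell {n τ y : ℕ} {D : k[X]} (hn : D.natDegree ≤ n / 2) (h : 3 * τ + y < n / 2)
    (v σ : ℕ) :
    qq k ^ τ * ∑ s ∈ mon k σ, ∑ W ∈ box k (v - 2 * σ + 1), ∑ g ∈ box k (y + 1),
      bad_W D (n - D.natDegree) y v σ s W g ≤ 2 * qq k ^ (n / 2 + 3) := by
  have hq := fr_q (k := k)
  have h1 : (1 : ℝ) ≤ qq k := by have := two_le_qq (k := k); linarith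
  refine le_trans (mul_le_mul_of_nonneg_left (sum_le_sum fun s _ => sum_le_sum fun W _ =>
    bad_g D _ y v σ s W) (pow_pos hq _).le) ?_
  rw [sum_const, sum_const, nsmul_eq_mul, nsmul_eq_mul, card_mon, card_box]
  split_ifs with h2
  · have a1 : qq k ^ (τ + σ + (v - 2 * σ + 1) + (n - D.natDegree + 2 - v) / 3 +
        (2 * y + 5 - (D.natDegree + v - 3 * σ)) / 3) ≤ qq k ^ (n / 2 + 3) :=
      pow_le_pow_right₀ h1 (by omega)
    have a2 : qq k ^ (τ + σ + (v - 2 * σ + 1) + (n - D.natDegree + 2 - v) / 3 + 1) ≤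
        qq k ^ (n / 2 + 3) := pow_le_pow_right₀ h1 (by omega)
    rw [pow_add, pow_add, pow_add (qq k) (τ + σ), pow_add (qq k) τ] at a1 a2
    rw [pow_one] at a2
    linarith
  · rw [mul_zero, mul_zero, mul_zero]
    exact mul_nonneg (by norm_num) (pow_pos hq _).le

theorem bad_row {n : ℕ} {D : k[X]} (hD : D.Monic) (hs : Squarefree D) (hn : D.natDegree ≤ n / 2) :
    ∑ x ∈ PG k n, (if (CL3.kap1 (n - D.natDegree) (x.2 * D) : ℝ) * qq k ^ ((x.2.natDegree + n) / 3) ≤
        qq k ^ (n - D.natDegree) then (0 : ℝ) else CL3.kap1 (n - D.natDegree) (x.2 * D)) ≤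
      2 * ((n : ℝ) + 1) ^ 4 * qq k ^ (n / 2 + 3) := by
  have hq := fr_q (k := k)
  have _ := hD
  have h1 := bad_PG (k := k) n (fun y g => ∑ v ∈ range (n + 1), ∑ σ ∈ range (n + 1), ∑ s ∈ mon k σ,
    ∑ W ∈ box k (v - 2 * σ + 1), bad_W D (n - D.natDegree) y v σ s W g) fun _ _ =>
    sum_nonneg fun _ _ => sum_nonneg fun _ _ => sum_nonneg fun _ _ => sum_nonneg fun _ _ =>
      bad_W_nonneg ..
  refine le_trans (sum_le_sum fun x hx => ?_) (h1.trans ?_)
  · obtain ⟨-, -, h2, h3⟩ := mem_filter.1 hx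
    exact bad_pt hs h2 (by omega) _ (by omega)
  · have h2 : ∀ τ y : ℕ, (if 3 * τ + y < n / 2 then qq k ^ τ * ∑ g ∈ box k (y + 1),
        ∑ v ∈ range (n + 1), ∑ σ ∈ range (n + 1), ∑ s ∈ mon k σ,
          ∑ W ∈ box k (v - 2 * σ + 1), bad_W D (n - D.natDegree) y v σ s W g else 0) ≤
        ∑ _v ∈ range (n + 1), ∑ _σ ∈ range (n + 1), 2 * qq k ^ (n / 2 + 3) := by
      intro τ y
      split_ifs with h
      · rw [sum_comm, mul_sum]
        refine sum_le_sum fun v _ => ?_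
        rw [sum_comm, mul_sum]
        refine sum_le_sum fun σ _ => ?_
        refine le_trans (le_of_eq ?_) (bad_cell hn h v σ)
        rw [sum_comm]
        congr 1
        exact sum_congr rfl fun s _ => sum_comm
      · exact sum_nonneg fun _ _ => sum_nonneg fun _ _ =>
          mul_nonneg (by norm_num) (pow_pos hq _).le
    refine le_trans (sum_le_sum fun τ _ => sum_le_sum fun y _ => h2 τ y) (le_of_eq ?_)
    simp only [sum_const, card_range, nsmul_eq_mul]
    push_cast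
    ring

end

section
variable [CharP k 3]
theorem hi_three : 3 ≤ qq k := by
  obtain ⟨m, -, hm⟩ := FiniteField.card k 3
  have h : 3 ^ 1 ≤ 3 ^ (m : ℕ) := Nat.pow_le_pow_right (by norm_num) m.2
  unfold qq
  rw [hm]
  exact_mod_cast h

omit [CharP k 3] in
theorem hi_grow (A : ℝ) (c : ℕ) (hc : 0 < c) :
    ∀ᶠ n : ℕ in atTop, A * ((n : ℝ) + 1) ^ 4 ≤ qq k ^ (n / c) := by
  have h2 := two_le_qq (k := k)
  have h0 : Tendsto (fun L : ℕ => (L : ℝ) ^ 4 / 2 ^ L) atTop (𝓝 0) :=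
    tendsto_pow_const_div_const_pow_of_one_lt 4 one_lt_two
  have hB : (0 : ℝ) < 1 / ((|A| + 1) * (2 * c) ^ 4) := by positivity
  have h1 := (h0.eventually (gt_mem_nhds hB)).and (eventually_ge_atTop 1)
  have hL : Tendsto (fun n : ℕ => n / c) atTop atTop := Nat.tendsto_div_const_atTop hc.ne'
  filter_upwards [hL.eventually h1] with n hn
  obtain ⟨ha, hb⟩ := hn
  have h3 : n + 1 ≤ 2 * c * (n / c) := by
    have h4 := Nat.lt_mul_div_succ n hc
    nlinarith
  have h5 : (n : ℝ) + 1 ≤ 2 * c * ((n / c : ℕ) : ℝ) := by exact_mod_cast h3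
  rw [div_lt_div_iff₀ (by positivity) (by positivity), one_mul] at ha
  calc A * ((n : ℝ) + 1) ^ 4 ≤ (|A| + 1) * (2 * c * ((n / c : ℕ) : ℝ)) ^ 4 := by
        have := le_abs_self A
        gcongr
        linarith
    _ = ((n / c : ℕ) : ℝ) ^ 4 * ((|A| + 1) * (2 * c) ^ 4) := by ring
    _ ≤ 2 ^ (n / c) := ha.le
    _ ≤ qq k ^ (n / c) := by gcongr

theorem hi_term {n : ℕ} {x : k[X] × k[X]} (hx : x ∈ PG k n) {D : k[X]} (hD : D.Monic)
    (hn : D.natDegree ≤ n) :
    |NT (n - D.natDegree) (x.2 * D) (x.1 ^ 2 * x.2) - qq k ^ (n - D.natDegree) *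
        (if Adm n x then 1 / qq k ^ ((x.2.natDegree + n) / 3) else 0)| ≤
      if (CL3.kap1 (n - D.natDegree) (x.2 * D) : ℝ) * qq k ^ ((x.2.natDegree + n) / 3) ≤
        qq k ^ (n - D.natDegree) then (0 : ℝ) else CL3.kap1 (n - D.natDegree) (x.2 * D) := by
  have hq := fr_q (k := k)
  have h0 : x.2 ≠ 0 := (mem_filter.1 hx).2.2.1.ne_zero
  have hd : (x.2 * D).natDegree + (n - D.natDegree) = x.2.natDegree + n := by
    rw [natDegree_mul h0 hD.ne_zero]; omega
  by_cases hg : (CL3.kap1 (n - D.natDegree) (x.2 * D) : ℝ) * qq k ^ ((x.2.natDegree + n) / 3) ≤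
      qq k ^ (n - D.natDegree)
  · rw [if_pos hg, NT_eq (by rw [hd]; exact hg), hd]
    have ha := adm_row hx hD hn
    by_cases h : Adm n x
    · rw [if_pos (ha.2 h), if_pos h, mul_one_div, sub_self, abs_zero]
    · rw [if_neg fun h' => h (ha.1 h'), if_neg h, mul_zero, sub_self, abs_zero]
  · rw [if_neg hg]
    have h1 := NT_le (n - D.natDegree) (x.2 * D) (x.1 ^ 2 * x.2)
    have h2 := le_kap (n - D.natDegree) (x.2 * D)
    rw [hd, ← div_le_iff₀ (by positivity)] at h2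
    have h3 : 0 ≤ NT (n - D.natDegree) (x.2 * D) (x.1 ^ 2 * x.2) := Nat.cast_nonneg _
    have h4 : 0 ≤ qq k ^ (n - D.natDegree) / qq k ^ ((x.2.natDegree + n) / 3) := by positivity
    rw [abs_le]
    by_cases h : Adm n x
    · rw [if_pos h, mul_one_div]
      constructor <;> linarith
    · rw [if_neg h, mul_zero]
      constructor <;> linarith

theorem hi_row : HI (k := k) bb fun n => CL3.uu n := by
  intro κ hκ
  have hq := hi_three (k := k)
  refine ⟨12 * κ, by omega, ?_⟩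
  filter_upwards [hi_grow (k := k) (3 * qq k ^ 3) (12 * κ) (by omega), eventually_ge_atTop 2]
    with n hA hn2 D hD hs hdeg
  have hn : D.natDegree ≤ n := ((Nat.le_add_right _ _).trans hdeg).trans (Nat.div_le_self n 2)
  have h1 : 2 * (n / (12 * κ)) ≤ n / κ := by
    rw [mul_comm 12 κ, ← Nat.div_div_eq_div_mul]; omega
  have h2 : 2 * (n / (12 * κ)) ≤ n / 6 := by
    rw [← Nat.div_div_eq_div_mul]
    have := Nat.div_le_self (n / 12) κ
    omega
  have hb := bad_row (n := n) hD hs (le_trans (Nat.le_add_right _ _) hdeg)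
  have hc := cst_row (k := k) hq card_fix hn2
  have hm : |∑ f ∈ mon k (n - D.natDegree), bb (D * f) - qq k ^ (n - D.natDegree) * cs k n| ≤
      2 * ((n : ℝ) + 1) ^ 4 * qq k ^ (n / 2 + 3) := by
    rw [dec_row hD hn, cs, mul_sum, ← sum_sub_distrib]
    exact ((abs_sum_le_sum_abs _ _).trans (sum_le_sum fun x hx => hi_term hx hD hn)).trans hb
  generalize n / (12 * κ) = L at hA h1 h2 ⊢
  have hN : n / 2 + 2 * L ≤ n - D.natDegree := by omega
  rw [sum_sub_distrib, sum_const, nsmul_eq_mul, card_mon]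
  generalize n - D.natDegree = N at hm hN ⊢
  have hn1 : (1 : ℝ) ≤ (n : ℝ) + 1 := by
    have : (0 : ℝ) ≤ n := Nat.cast_nonneg n
    linarith
  have hq1 : 1 ≤ qq k := by linarith
  have hL : 0 < qq k ^ L := by positivity
  have e1 : 2 * ((n : ℝ) + 1) ^ 4 * qq k ^ (n / 2 + 3) ≤
      2 * (qq k ^ 3 * ((n : ℝ) + 1) ^ 4) * (qq k ^ N / (qq k ^ L * qq k ^ L)) := by
    have h3 : qq k ^ (n / 2) ≤ qq k ^ N / (qq k ^ L * qq k ^ L) := by
      rw [le_div_iff₀ (by positivity), ← pow_add, ← pow_add]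
      exact pow_le_pow_right₀ hq1 (by omega)
    calc _ = 2 * (qq k ^ 3 * ((n : ℝ) + 1) ^ 4) * qq k ^ (n / 2) := by ring
      _ ≤ _ := by gcongr
  have e2 : qq k ^ N * |cs k n - CL3.uu n| ≤
      (qq k ^ 3 * ((n : ℝ) + 1) ^ 4) * (qq k ^ N / (qq k ^ L * qq k ^ L)) := by
    have h3 : qq k ^ L * qq k ^ L ≤ qq k ^ (n / 6) := by
      rw [← pow_add]
      exact pow_le_pow_right₀ hq1 (by omega)
    have h4 : ((n : ℝ) + 1) * qq k ^ 2 ≤ ((n : ℝ) + 1) ^ 4 * qq k ^ 3 :=
      mul_le_mul (le_self_pow₀ hn1 (by norm_num)) (pow_le_pow_right₀ hq1 (by norm_num))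
        (by positivity) (by positivity)
    calc _ ≤ qq k ^ N * (((n : ℝ) + 1) ^ 4 * qq k ^ 3 / (qq k ^ L * qq k ^ L)) := by
          refine mul_le_mul_of_nonneg_left (hc.trans ?_) (by positivity)
          gcongr
      _ = _ := by ring
  have e3 : 3 * (qq k ^ 3 * ((n : ℝ) + 1) ^ 4) * (qq k ^ N / (qq k ^ L * qq k ^ L)) ≤
      qq k ^ N / qq k ^ L := by
    calc _ ≤ qq k ^ L * (qq k ^ N / (qq k ^ L * qq k ^ L)) := by
          refine mul_le_mul_of_nonneg_right ?_ (by positivity)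
          linarith
      _ = _ := by field_simp
  have e4 := abs_add_le (∑ f ∈ mon k N, bb (D * f) - qq k ^ N * cs k n)
    (qq k ^ N * (cs k n - CL3.uu n))
  rw [abs_mul, abs_of_nonneg (show 0 ≤ qq k ^ N by positivity)] at e4
  have e5 : ∑ f ∈ mon k N, bb (D * f) - qq k ^ N * (CL3.uu n : ℝ) =
      ∑ f ∈ mon k N, bb (D * f) - qq k ^ N * cs k n + qq k ^ N * (cs k n - CL3.uu n) := by ring
  rw [e5]
  linarith

end

section
variable [CharP k 3]
theorem hl2_row : HL2 (k := k) aa := by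
  obtain ⟨K1, k1, h1⟩ := CL3.one_unif (k := k)
  obtain ⟨K2, k2, h2⟩ := CL3.two_unif (k := k)
  refine ⟨1 + K2 + 4 * K1, by linarith, fun n => ?_⟩
  have a1 : ∑ f ∈ mon k n, (#(CL3.Sol f) : ℝ) ≤ K1 * qq k ^ n := h1 n
  have a2 : ∑ f ∈ mon k n, (CL3.II f : ℝ) ≤ K2 * qq k ^ n := h2 n
  have a3 : ∑ f ∈ mon k n, aa f ^ 2 ≤ ∑ f ∈ mon k n, ((CL3.II f : ℝ) + 4 * #(CL3.Sol f)) := by
    refine sum_le_sum fun f hf => ?_
    have e : (#(CL3.Sol f) : ℝ) ^ 2 + 3 = CL3.II f + 4 * #(CL3.Sol f) := by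
      exact_mod_cast CL3.card_Sol_sq (mem_mon.1 hf).1
    have b : aa f ≤ #(CL3.Sol f) := Nat.cast_le.2 card_erase_le
    have c : aa f ^ 2 ≤ _ := pow_le_pow_left₀ (Nat.cast_nonneg _) b 2
    linarith
  rw [sum_add_distrib, ← mul_sum] at a3
  have := pow_pos (fr_q (k := k)) n
  linarith

omit [Fintype k] [CharP k 3] in
theorem ab_cf (y : ℕ) : ∀ g : k[X], g ≠ 0 → g.natDegree = y →
    ∃ t w : k[X], t.Monic ∧ CF w ∧ g = t ^ 3 * w := by
  induction y using Nat.strong_induction_on with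
  | _ y ih =>
    intro g g0 gy
    by_cases h : ∃ p : k[X], Irreducible p ∧ p ^ 3 ∣ g
    · obtain ⟨p, p1, p2⟩ := h
      have m1 := monic_normalize p1.ne_zero
      obtain ⟨w, rfl⟩ : normalize p ^ 3 ∣ g :=
        (pow_dvd_pow_of_dvd (normalize_associated p).dvd 3).trans p2
      have w0 := right_ne_zero_of_mul g0
      have d0 := ((normalize_associated p).symm.irreducible p1).natDegree_pos
      rw [natDegree_mul (pow_ne_zero 3 m1.ne_zero) w0, natDegree_pow] at gy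
      obtain ⟨t, v, t1, v1, rfl⟩ := ih w.natDegree (by omega) w w0 rfl
      exact ⟨normalize p * t, v, m1.mul t1, v1, by ring⟩
    · exact ⟨1, g, monic_one, ⟨g0, fun p p1 p2 => h ⟨p, p1, p2⟩⟩, by simp⟩

theorem ab_big {z : ℕ} {f g : k[X]} (hf : Rough z f) (g0 : g ≠ 0) (hg : CL3.car (g * f) = g)
    (ht : ¬ Tame g) : ∃ p : k[X], p.Monic ∧ z < p.natDegree ∧ p ^ 2 ∣ g := by
  obtain ⟨t, w, t1, w1, rfl⟩ := ab_cf _ g g0 rfl
  have hs : ¬ Squarefree w := fun h => ht ⟨t, w, t1, h, rfl⟩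
  rw [squarefree_iff_irreducible_sq_not_dvd_of_ne_zero w1.1] at hs
  push Not at hs
  obtain ⟨p, p1, v, rfl⟩ := hs
  rw [mul_assoc, CL3.car_pow_mul] at hg
  have e : CL3.car (p ^ 2 * (v * f)) = p * (t ^ 2 * p * v) :=
    mul_left_cancel₀ t1.ne_zero (by rw [← mul_assoc (p ^ 2), sq p, hg]; ring)
  have a := CL3.car_star p (v * f)
  rw [e, dvd_sub_right (dvd_pow (dvd_mul_right _ _) three_ne_zero)] at a
  have c : IsCoprime p (derivative p) := PerfectField.separable_of_irreducible p1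
  have b : p ∣ f := (p1.prime.dvd_or_dvd (c.pow_right.dvd_of_dvd_mul_left a)).resolve_left
    fun ⟨u, hu⟩ => w1.2 p p1 ⟨u, by rw [hu]; ring⟩
  have s := normalize_associated p
  refine ⟨normalize p, monic_normalize p1.ne_zero, hf _ (s.symm.irreducible p1) (s.dvd.trans b),
    (pow_dvd_pow_of_dvd s.dvd 2).trans ⟨t ^ 3 * v, by ring⟩⟩

theorem ab_kp (n z : ℕ) (B : Finset k[X]) (hB : ∀ g ∈ B, g ∈ (box k (n / 2)).erase 0 ∧
    ∃ p : k[X], p.Monic ∧ z < p.natDegree ∧ p ^ 2 ∣ g) :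
    ∑ g ∈ B, (CL5.One20.kp CL3.car n g : ℝ) ≤ (2 * qq k ^ 4 + 1) * qq k ^ n / qq k ^ (z / 2) := by
  have hq := fr_q (k := k)
  have q1 : 1 ≤ qq k := by linarith [two_le_qq (k := k)]
  have h := CL3.one_isCa (k := k)
  obtain ⟨dd, b0, b1, b2, ss, hD⟩ := CL5.One20.exists_fun_dec h
  have a1 : ∑ g ∈ ((box k (n / 2)).erase 0).filter (fun g => ss g + z / 2 ≤ (n / 2 - 1) / 3),
      (CL5.One20.kp CL3.car n g : ℝ) ≤ 2 * qq k ^ 4 * qq k ^ n / qq k ^ (z / 2) :=
    CL5.One20.sum_kp_tail h hD n (z / 2)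
  have a2 : (#B : ℝ) ≤ qq k ^ (n / 2) / qq k ^ z := CL5.One20.card_big_prime _ _ _ hB
  have a3 : ∑ g ∈ B.filter (fun g => ¬ ss g + z / 2 ≤ (n / 2 - 1) / 3),
      (CL5.One20.kp CL3.car n g : ℝ) ≤ qq k ^ n / qq k ^ (z / 2) := by
    refine (sum_le_card_nsmul _ _ (qq k ^ n * qq k ^ (z / 2) / qq k ^ (n / 2))
      fun g hg => ?_).trans ?_
    · obtain ⟨g1, g2⟩ := mem_filter.1 hg
      obtain ⟨h3, h4⟩ := mem_erase.1 (hB g g1).1
      have h5 := (natDegree_lt_iff_degree_lt h3).2 (mem_box.1 h4)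
      have h6 := (hD g h3).2.2.2.2.2.1
      have t1 : (CL5.One20.kp CL3.car n g : ℝ) * qq k ^ (ss g + n / 3) ≤ qq k ^ n :=
        CL5.One20.kp_le h (hD g h3) (by omega)
      rw [le_div_iff₀ (by positivity)]
      calc _ ≤ CL5.One20.kp CL3.car n g * (qq k ^ (ss g + n / 3) * qq k ^ (z / 2)) := by
            rw [← pow_add]
            gcongr
            omega
        _ ≤ _ := by rw [← mul_assoc]; gcongr
    · rw [nsmul_eq_mul]
      calc _ ≤ qq k ^ (n / 2) / qq k ^ z * (qq k ^ n * qq k ^ (z / 2) / qq k ^ (n / 2)) := by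
            gcongr
            exact (Nat.cast_le.2 (card_filter_le _ _)).trans a2
        _ = qq k ^ n * qq k ^ (z / 2) / qq k ^ z := by field_simp
        _ ≤ _ := by
            rw [div_le_div_iff₀ (by positivity) (by positivity), mul_assoc, ← pow_add]
            gcongr
            omega
  rw [← sum_filter_add_sum_filter_not B fun g => ss g + z / 2 ≤ (n / 2 - 1) / 3, add_mul, add_div,
    one_mul]
  exact add_le_add ((sum_le_sum_of_subset_of_nonneg (fun g hg => mem_filter.2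
    ⟨(hB g (mem_filter.1 hg).1).1, (mem_filter.1 hg).2⟩) fun _ _ _ => Nat.cast_nonneg _).trans a1) a3

theorem hab_row : HAB (k := k) aa bb := by
  have hq := fr_q (k := k)
  have e : ∀ f : k[X], (CL3.Sol f).filter Tame = ((CL3.Sol f).erase 0).filter Tame := fun f => by
    ext g
    simp only [mem_filter, mem_erase]
    exact ⟨fun h => ⟨⟨by
      obtain ⟨t, w, t1, w1, rfl⟩ := h.2
      exact mul_ne_zero (pow_ne_zero 3 t1.ne_zero) w1.ne_zero, h.1⟩, h.2⟩, fun h => ⟨h.1.2, h.2⟩⟩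
  have e2 : ∀ f : k[X], aa f - bb f = #{g ∈ (CL3.Sol f).erase 0 | ¬ Tame g} := fun f => by
    rw [aa, bb, e, ← card_filter_add_card_filter_not (s := (CL3.Sol f).erase 0) Tame]
    push_cast
    ring
  refine ⟨fun f => Nat.cast_nonneg _, fun f => sub_nonneg.1 (e2 f ▸ Nat.cast_nonneg _),
    2 * qq k ^ 4 + 1, le_add_of_nonneg_left (by positivity), fun n z => ?_⟩
  set B := ((box k (n / 2)).erase 0).filter fun g =>
    ∃ p : k[X], p.Monic ∧ z < p.natDegree ∧ p ^ 2 ∣ g
  refine le_trans ?_ (ab_kp n z B fun g hg => mem_filter.1 hg)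
  calc _ ≤ ∑ f ∈ mon k n, ∑ g ∈ B, if CL3.car (g * f) = g then (1 : ℝ) else 0 := by
        refine sum_le_sum fun f hf => ?_
        rw [sum_boole, rho, e2]
        split_ifs with h
        · rw [one_mul]
          refine Nat.cast_le.2 (card_le_card fun g hg => ?_)
          obtain ⟨g1, g2⟩ := mem_filter.1 hg
          obtain ⟨g3, g4⟩ := mem_erase.1 g1
          rw [CL3.one_Sol hf] at g4
          obtain ⟨g5, g6⟩ := mem_filter.1 g4
          exact mem_filter.2 ⟨mem_filter.2 ⟨mem_erase.2 ⟨g3, g5⟩, ab_big h g3 g6 g2⟩, g6⟩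
        · rw [zero_mul]
          exact Nat.cast_nonneg _
    _ ≤ _ := by
        rw [sum_comm]
        refine sum_le_sum fun g _ => ?_
        rw [sum_boole]
        refine Nat.cast_le.2 (le_trans (card_le_card fun f hf => ?_)
          (CL5.One20.N1_le CL3.one_isCa (fun _ => True) n g 0))
        simp only [mem_filter, true_and, add_zero] at hf ⊢
        exact hf

end

section
variable [CharP k 3]
theorem end_q : 3 ≤ qq k := by
  obtain ⟨n, -, hn⟩ := FiniteField.card k 3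
  have h : 3 ^ 1 ≤ 3 ^ (n : ℕ) := Nat.pow_le_pow_right (by norm_num) n.2
  unfold qq
  rw [hn]
  exact_mod_cast h

theorem end_aa {f : k[X]} (hm : f.Monic) (hi : Irreducible f) :
    aa f = (CL3.uu f.natDegree : ℝ) *
      (Nat.card {c : CommRing.Pic (QuadraticAlgebra k[X] f 0) // c ^ 3 = 1} : ℝ) - 1 := by
  have h0 : (0 : k[X]) ∈ CL3.Sol f := (CL3.mem_Sol' hm).2 (by simp)
  have h1 := CL3.card_Sol hm hi.squarefree hi.natDegree_pos
  have h2 := card_erase_add_one h0
  rw [h1] at h2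
  have h3 : ((#((CL3.Sol f).erase 0) + 1 : ℕ) : ℝ) = ((CL3.uu f.natDegree *
      Nat.card {c : CommRing.Pic (QuadraticAlgebra k[X] f 0) // c ^ 3 = 1} : ℕ) : ℝ) := by
    rw [h2]
  push_cast at h3
  unfold aa
  linarith

theorem end_row (hM : HM (k := k) aa) (hII : HII (k := k) aa fun n => CL3.uu n) :
    Tendsto (fun n : ℕ =>
      (∑ᶠ f ∈ {f : k[X] | f.Monic ∧ f.natDegree = n ∧ Irreducible f},
          (Nat.card {c : CommRing.Pic (QuadraticAlgebra k[X] f 0) // c ^ 3 = 1} : ℝ)) /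
        ({f : k[X] | f.Monic ∧ f.natDegree = n ∧ Irreducible f}.ncard : ℝ) -
        (if Even n then 4 / 3 else 2)) atTop (𝓝 0) := by
  have hset : ∀ n : ℕ, {f : k[X] | f.Monic ∧ f.natDegree = n ∧ Irreducible f} =
      ((prs k n : Finset k[X]) : Set k[X]) := by
    intro n
    ext f
    simp only [prs, Set.mem_ofPred_eq, Finset.coe_filter, mem_mon, and_assoc]
  have hu : ∀ n : ℕ, (1 : ℝ) ≤ CL3.uu n ∧ (CL3.uu n : ℝ) ≤ 3 := by
    intro n
    unfold CL3.uu
    split_ifs <;> norm_num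
  have h : GOAL (k := k) aa fun n => CL3.uu n :=
    top_row end_q (fun n => ⟨zero_le_one.trans (hu n).1, (hu n).2⟩) hl2_row hab_row hi_row hM hII
  have hfin : ∀ (n : ℕ) (F : k[X] → ℝ),
      ∑ᶠ f ∈ {f : k[X] | f.Monic ∧ f.natDegree = n ∧ Irreducible f}, F f =
        ∑ f ∈ prs k n, F f := by
    intro n F
    rw [hset n]
    exact finsum_mem_coe_finset _ _
  have hcard : ∀ n : ℕ, {f : k[X] | f.Monic ∧ f.natDegree = n ∧ Irreducible f}.ncard =
      #(prs k n) := by
    intro n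
    rw [hset n, Set.ncard_coe_finset]
  simp only [hfin, hcard]
  refine squeeze_zero_norm' (a := fun n : ℕ =>
    2 * ‖(n : ℝ) * (∑ f ∈ prs k n, (aa f - CL3.uu n)) / qq k ^ n‖) ?_ ?_
  · filter_upwards [eventually_ge_atTop 1] with n hn
    have hsum : ∑ f ∈ prs k n, (aa f - (CL3.uu n : ℝ)) =
        (CL3.uu n : ℝ) * ∑ f ∈ prs k n,
          (Nat.card {c : CommRing.Pic (QuadraticAlgebra k[X] f 0) // c ^ 3 = 1} : ℝ) -
          (1 + CL3.uu n) * #(prs k n) := by
      rw [mul_sum, mul_comm (1 + (CL3.uu n : ℝ)), ← nsmul_eq_mul, ← sum_const, ← sum_sub_distrib]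
      refine sum_congr rfl fun f hf => ?_
      obtain ⟨hf1, hf2⟩ := mem_filter.1 hf
      obtain ⟨hm, hd⟩ := mem_mon.1 hf1
      rw [end_aa hm hf2, hd]
      ring
    have hP := card_prs (k := k) (e := n) hn
    have hq : 0 < qq k ^ n := pow_pos (by linarith [end_q (k := k)]) n
    have hn' : (1 : ℝ) ≤ n := by exact_mod_cast hn
    generalize ∑ f ∈ prs k n,
      (Nat.card {c : CommRing.Pic (QuadraticAlgebra k[X] f 0) // c ^ 3 = 1} : ℝ) = A at hsum ⊢
    generalize ∑ f ∈ prs k n, (aa f - (CL3.uu n : ℝ)) = S at hsum ⊢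
    generalize (#(prs k n) : ℝ) = P at hsum hP ⊢
    generalize qq k ^ n = Q at hP hq ⊢
    have hP0 : 0 < P := by
      by_contra hneg
      have := mul_nonpos_of_nonneg_of_nonpos (show (0 : ℝ) ≤ 2 * n by positivity) (not_lt.1 hneg)
      linarith
    have hu1 := (hu n).1
    have key : A / P - (if Even n then 4 / 3 else 2) = S / (CL3.uu n * P) := by
      rw [hsum]
      unfold CL3.uu
      split_ifs <;> push_cast <;> field_simp <;> ring
    have hup : 0 < (CL3.uu n : ℝ) * P := mul_pos (by linarith) hP0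
    rw [key, Real.norm_eq_abs, Real.norm_eq_abs, abs_div, abs_div, abs_of_pos hup, abs_mul,
      abs_of_pos hq, abs_of_nonneg (by linarith : (0 : ℝ) ≤ n), ← mul_div_assoc,
      div_le_div_iff₀ hup hq]
    have h1 : P ≤ CL3.uu n * P := le_mul_of_one_le_left hP0.le hu1
    have h2 : Q ≤ 2 * n * (CL3.uu n * P) :=
      hP.trans (mul_le_mul_of_nonneg_left h1 (by positivity))
    calc |S| * Q ≤ |S| * (2 * n * (CL3.uu n * P)) :=
          mul_le_mul_of_nonneg_left h2 (abs_nonneg _)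
      _ = _ := by ring
  · simpa using (Tendsto.norm h).const_mul 2

end

end Pool.Agent.H68T

end
end
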