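import Pool.Agent.MP_d0fd9b_nt.P3.M4
import Pool.Agent.H92F.Ar2

-- part H86T.Defs
section

/-! h86t: definitions for the bilinear estimate with a short prime variable (characteristic 3). -/

set_option autoImplicit false
open Polynomial Finset UniqueFactorizationMonoid Filter Topology CL5
open scoped Classical

noncomputable section
namespace CL3.T2

variable {k : Type*} [Field k] [Fintype k]

/-- monic divisors -/
def dv (w : k[X]) : Finset k[X] :=
  (box k (w.natDegree + 1)).filter fun d => d.Monic ∧ d ∣ w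

/-- divisor bound up to degree `B` -/
def Tau (k : Type*) [Field k] [Fintype k] (B : ℕ) (τ : ℝ) : Prop :=
  1 ≤ τ ∧ ∀ w : k[X], w ≠ 0 → w.natDegree ≤ B → ((dv w).card : ℝ) ≤ τ

/-- monic primes of degree `j` -/
def irr (k : Type*) [Field k] [Fintype k] (j : ℕ) : Finset k[X] := (mon k j).filter Irreducible

/-- Moebius difference -/
def xi (φ : k[X] → ℝ) (δ : k[X]) : ℝ :=
  ∑ S ∈ (pf δ).powerset, (-1) ^ S.card * φ (δ /ₘ ∏ p ∈ S, p)

/-- truncated singular series -/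
def tr (t : ℕ) (φ : k[X] → ℝ) : ℝ := ∑ δ ∈ (box k (t + 1)).filter Monic, xi φ δ

/-- true value minus model -/
def Dl (t : ℕ) (φ : k[X] → ℝ) : ℝ := φ 0 - tr t φ

/-- `φ D` depends only on `gcd (D, d)` -/
def Stab (φ : k[X] → ℝ) (d : k[X]) (T : ℕ) : Prop :=
  ∀ D D' : k[X], D.Monic → D'.Monic → D.natDegree ≤ T → D' ∣ D →
    (∃ α β : k[X], D' = α * D + β * d) → φ D = φ D'

/-- levels -/
def Lev (T : ℕ) (δ : k[X]) : Prop := δ = 0 ∨ (δ.Monic ∧ δ.natDegree ≤ T)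

/-- multiples of `D` of degree `< L` (`D = 0`: only `0`) -/
def UD (k : Type*) [Field k] [Fintype k] (L : ℕ) (D : k[X]) : Finset k[X] :=
  (box k L).filter fun u => D ∣ u

/-- uniform measure on `UD` -/
def un (L : ℕ) (D u : k[X]) : ℝ := (if u ∈ UD k L D then 1 else 0) / ((UD k L D).card : ℝ)

/-- the quadratic form is anisotropic -/
def Aniso (H1 H2 : k[X]) : Prop := ∀ s t : k[X], H2 * s ^ 2 = H1 * t ^ 2 → s = 0 ∧ t = 0

/-- admissible divisors of the determinant -/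
def Adm2 (H1 H2 D M11 M12 M21 M22 : k[X]) : Prop :=
  Adm D M11 M12 M21 M22 ∧ ∀ p : k[X], Irreducible p → p ∣ D →
    ¬ (p ∣ H2 * M11 ^ 2 - H1 * M21 ^ 2 ∧ p ∣ H2 * M12 ^ 2 - H1 * M22 ^ 2)

/-- matrices (given by rows) with a large exceptional divisor -/
def BadQ (H1 H2 : k[X]) (i1 i2 tq : ℕ) : Finset ((k[X] × k[X]) × (k[X] × k[X])) :=
  ((box k (i1 + 1) ×ˢ box k (i2 + 1)) ×ˢ (box k (i1 + 1) ×ˢ box k (i2 + 1))).filter fun M =>
    M.1.1 * M.2.2 - M.1.2 * M.2.1 ≠ 0 ∧ ∃ D : k[X], D.Monic ∧ Squarefree D ∧ IsCoprime D H1 ∧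
      tq ≤ D.natDegree ∧ D ∣ H2 * M.1.1 ^ 2 - H1 * M.2.1 ^ 2 ∧ D ∣ H2 * M.1.2 ^ 2 - H1 * M.2.2 ^ 2

/-- directions -/
def Vv (v : k[X]) : k[X] := v ^ 3 + X

/-- the polynomial with dual coordinates `F0, F2, T` -/
def mPar (v F0 F2 T : k[X]) : k[X] := F0 ^ 3 + X * T ^ 3 + (X ^ 2 - X * v ^ 3) * F2 ^ 3

/-- the conditions at the primes of `R` and at infinity -/
def Chi2 (n' : ℕ) (v R β1 γ1 β2 γ2 ρ1 ρ2 T : k[X]) : Prop :=
  R ∣ β1 * ρ2 - β2 * ρ1 ∧ R ∣ γ2 * ρ1 - γ1 * ρ2 ∧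
    (mPar v (β1 * ρ2 - β2 * ρ1) (γ2 * ρ1 - γ1 * ρ2) ((β1 * γ2 - γ1 * β2) * T) -
      (β1 * γ2 - γ1 * β2) ^ 3 * X ^ n').degree <
      ((n' + 3 * (β1 * γ2 - γ1 * β2).natDegree : ℕ) : WithBot ℕ)

/-- points of the plane in direction `v` -/
def pl (H v g s : k[X]) : k[X] := g + s ^ 3 * (H ^ 2 * Vv v)

/-- product of the simple primes of `w` that divide neither `B` nor `W` -/
def rgd (w B W : k[X]) : k[X] :=
  ∏ p ∈ (pf w).filter (fun p => ¬ p ^ 2 ∣ w ∧ ¬ p ∣ B ∧ ¬ p ∣ W), p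

/-- the rest of `w` -/
def Rbd (w B W : k[X]) : k[X] := normalize w /ₘ rgd w B W

/-- bad quadruples `((β1, γ1), (β2, γ2))` -/
def Bad4 (E H1 H2 : k[X]) (a b t : ℕ) (z : (k[X] × k[X]) × (k[X] × k[X])) : Prop :=
  z.1.1 * z.2.2 - z.1.2 * z.2.1 = 0 ∨
    (z.1.1 * z.2.2 - z.1.2 * z.2.1).natDegree + 2 * t + 2 < a + b ∨
    (∃ h : k[X], h.Monic ∧ 2 * t ≤ h.natDegree ∧ h ^ 2 ∣ z.1.1 * z.2.2 - z.1.2 * z.2.1) ∨
    goodH t (z.1.1, z.1.2) ∨ goodH t (z.1.2, z.2.2) ∨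
    z.1.2 * z.2.2 * (H1 * z.2.2 ^ 2 - H2 * z.1.2 ^ 2) * E = 0 ∨
    ∃ D : k[X], D.Monic ∧ t ≤ D.natDegree ∧ IsCoprime D z.1.2 ∧
      D ∣ z.1.2 * z.2.2 * (H1 * z.2.2 ^ 2 - H2 * z.1.2 ^ 2) * E ∧
      D ∣ z.1.1 * z.2.2 - z.1.2 * z.2.1

variable [CharP k 3]

/-- centred count of nonzero solutions -/
def cc (f : k[X]) : ℝ := ((Sol f).card : ℝ) - 1 - uu f.natDegree

/-- count minus model -/
def c0 (M L t : ℕ) (f : k[X]) : ℝ :=
  ∑ g ∈ (box k M).erase 0, Dl t fun D => un L D (car (g * f) - g)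

/-- model counts; `md n' L 0 0` is the true count -/
def md (n' L : ℕ) (D1 D2 G1 G2 g1 g2 : k[X]) : ℝ :=
  ∑ m ∈ mon k n', un L D1 (car (G1 * m) - g1) * un L D2 (car (G2 * m) - g2)

/-- the contribution of one pair -/
def FF (n' L t : ℕ) (G1 G2 g1 g2 : k[X]) : ℝ :=
  Dl t fun D1 => Dl t fun D2 => md n' L D1 D2 G1 G2 g1 g2

/-- `d` is the content of the Wronskian -/
def IsCont (d G1 G2 : k[X]) : Prop :=
  d.Monic ∧ d ∣ co 0 (wronskian G1 G2) ∧ d ∣ co 1 (wronskian G1 G2) ∧ d ∣ co 2 (wronskian G1 G2) ∧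
    ∃ t0 t1 t2 : k[X], d = t0 * co 0 (wronskian G1 G2) + t1 * co 1 (wronskian G1 G2) +
      t2 * co 2 (wronskian G1 G2)

/-- first invariant coordinate -/
def be (v G : k[X]) : k[X] := co 0 G - co 1 G * v

/-- the invariant determinant -/
def ww (v G1 G2 : k[X]) : k[X] := be v G1 * co 2 G2 - co 2 G1 * be v G2

/-- the moving determinant -/
def W0 (G1 G2 : k[X]) : k[X] := co 1 G1 * co 2 G2 - co 2 G1 * co 1 G2

/-- degenerate primes divide this -/
def BB (H1 H2 v G1 G2 : k[X]) : k[X] :=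
  co 2 G1 * co 2 G2 * (H1 * co 2 G2 ^ 2 - H2 * co 2 G1 ^ 2) * (H1 * H2 * Vv v)

/-- good part of the determinant -/
def rg (H1 H2 v G1 G2 : k[X]) : k[X] := rgd (ww v G1 G2) (BB H1 H2 v G1 G2) (W0 G1 G2)

/-- bad part of the determinant -/
def RR (H1 H2 v G1 G2 : k[X]) : k[X] := Rbd (ww v G1 G2) (BB H1 H2 v G1 G2) (W0 G1 G2)

/-- the determinant is long -/
def Long (M' θ K1 : ℕ) (v G1 G2 : k[X]) : Prop :=
  ww v G1 G2 ≠ 0 ∧ (M' + 1) / 3 + θ + M' / 3 ≤ (ww v G1 G2).natDegree + K1 + 2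

/-- good pairs for the direction `v` -/
def GoodV (M' θ K1 KR : ℕ) (H1 H2 v G1 G2 : k[X]) : Prop :=
  Long M' θ K1 v G1 G2 ∧ (RR H1 H2 v G1 G2).natDegree ≤ KR

/-- the weight -/
def wv (s0 : ℕ) (v G1 G2 : k[X]) : ℝ :=
  (((irr k s0).filter fun p => ¬ p ∣ co 2 G1 ∧ p ∣ ww v G1 G2).card : ℝ)

/-- the normalised mean of the weight over the directions -/
def om (θ s0 : ℕ) (G1 G2 : k[X]) : ℝ :=
  (∑ v ∈ mon k θ, wv s0 v G1 G2) / (qq k ^ θ * (((irr k s0).card : ℝ) / qq k ^ s0))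

/-- true count minus the model of level `RR` -/
def De (n' L : ℕ) (H1 H2 v g1 g2 : k[X]) : ℝ :=
  md n' L 0 0 (H1 * g1) (H2 * g2) g1 g2 -
    md n' L (RR H1 H2 v (H1 * g1) (H2 * g2)) (RR H1 H2 v (H1 * g1) (H2 * g2))
      (H1 * g1) (H2 * g2) g1 g2

/-- the standing assumptions -/
structure Par (n l y : ℕ) (H1 H2 : k[X]) (τ : ℝ) : Prop where
  lo : 400000 * l ≤ n
  hi : n < 400000 * (l + 1)
  big : 10 ≤ l
  hy : y ≤ l
  m1 : H1.Monic
  m2 : H2.Monic
  d1 : H1.natDegree = y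
  d2 : H2.natDegree = y
  an : Aniso H1 H2
  tau : Tau k (4 * n) τ

end CL3.T2

end
end

-- part H86T.Ud
section

/-! h86t: row Ud. The measures `un` and the counts `md`. -/

set_option autoImplicit false
open Polynomial Finset UniqueFactorizationMonoid Filter Topology CL5
open scoped Classical

noncomputable section
namespace CL3.T2

variable {k : Type*} [Field k] [Fintype k]

theorem mem_UD {L : ℕ} {D u : k[X]} : u ∈ UD k L D ↔ u ∈ box k L ∧ D ∣ u := mem_filter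

theorem t75_zero_mem (L : ℕ) (D : k[X]) : (0 : k[X]) ∈ UD k L D :=
  mem_UD.2 ⟨c91_mem fun h => absurd rfl h, dvd_zero _⟩

theorem UD_zero (L : ℕ) : UD k L 0 = {0} := by
  ext u
  rw [mem_singleton]
  constructor
  · intro h
    exact zero_dvd_iff.1 (mem_UD.1 h).2
  · rintro rfl
    exact t75_zero_mem L 0

theorem card_UD {L : ℕ} {D : k[X]} (hD : D.Monic) (h : D.natDegree ≤ L) :
    ((UD k L D).card : ℝ) = qq k ^ (L - D.natDegree) := by
  have h1 := card_box_class (N := L) hD.ne_zero h 0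
  unfold UD
  simpa only [sub_zero] using h1

theorem card_UD_pos (L : ℕ) (D : k[X]) : (0 : ℝ) < (UD k L D).card := by
  exact_mod_cast card_pos.mpr ⟨0, t75_zero_mem L D⟩

theorem sum_UD {M : Type*} [AddCommMonoid M] {L : ℕ} {D : k[X]} (hD : D.Monic)
    (h : D.natDegree ≤ L) (F : k[X] → M) :
    ∑ u ∈ UD k L D, F u = ∑ s ∈ box k (L - D.natDegree), F (D * s) := by
  symm
  refine Finset.sum_bij (fun s _ => D * s) (fun s hs => ?_)
    (fun a _ b _ hab => mul_left_cancel₀ hD.ne_zero hab) (fun v hv => ?_) fun _ _ => rfl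
  · refine mem_UD.2 ⟨c91_mem fun h0 => ?_, dvd_mul_right _ _⟩
    have hs0 : s ≠ 0 := right_ne_zero_of_mul h0
    have := c91_lt hs hs0
    rw [natDegree_mul hD.ne_zero hs0]
    omega
  · obtain ⟨hv, s, rfl⟩ := mem_UD.1 hv
    refine ⟨s, c91_mem fun h0 => ?_, rfl⟩
    have := c91_lt hv (mul_ne_zero hD.ne_zero h0)
    rw [natDegree_mul hD.ne_zero h0] at this
    omega

theorem un_nonneg (L : ℕ) (D u : k[X]) : 0 ≤ un L D u := by
  unfold un
  refine div_nonneg ?_ (Nat.cast_nonneg _)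
  split_ifs <;> norm_num

theorem un_zero (L : ℕ) (u : k[X]) : un L 0 u = if u = 0 then 1 else 0 := by
  unfold un
  rw [UD_zero]
  simp

theorem un_le {L T : ℕ} {D : k[X]} (hD : D.Monic) (h : D.natDegree ≤ T) (hT : T ≤ L) (u : k[X]) :
    un L D u ≤ qq k ^ T / qq k ^ L := by
  have q0 : 0 < qq k := c91_pos
  have q1 : 1 ≤ qq k := by linarith [two_le_qq (k := k)]
  have h1 : un L D u ≤ 1 / ((UD k L D).card : ℝ) := by
    unfold un
    refine div_le_div_of_nonneg_right ?_ (Nat.cast_nonneg _)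
    split_ifs <;> norm_num
  refine h1.trans ?_
  rw [card_UD hD (h.trans hT), div_le_div_iff₀ (by positivity) (by positivity), one_mul, ← pow_add]
  exact pow_le_pow_right₀ q1 (by omega)

variable [CharP k 3]

theorem md_nonneg (n' L : ℕ) (D1 D2 G1 G2 g1 g2 : k[X]) : 0 ≤ md n' L D1 D2 G1 G2 g1 g2 :=
  sum_nonneg fun _ _ => mul_nonneg (un_nonneg _ _ _) (un_nonneg _ _ _)

theorem md_swap (n' L : ℕ) (D1 D2 G1 G2 g1 g2 : k[X]) :
    md n' L D1 D2 G1 G2 g1 g2 = md n' L D2 D1 G2 G1 g2 g1 :=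
  sum_congr rfl fun _ _ => mul_comm _ _

omit [Fintype k] [CharP k 3] in
theorem t75_ind (U : Finset k[X]) (a g : k[X]) :
    (if a - g ∈ U then (1 : ℝ) else 0) = ∑ u ∈ U, if a = g + u then 1 else 0 := by
  have : ∀ u : k[X], a = g + u ↔ a - g = u := fun u => sub_eq_iff_eq_add'.symm
  simp only [this, sum_ite_eq]

/-- `md` as a mean of true counts -/
theorem md_eq (n' L : ℕ) (D1 D2 G1 G2 g1 g2 : k[X]) : md n' L D1 D2 G1 G2 g1 g2 =
    (∑ u1 ∈ UD k L D1, ∑ u2 ∈ UD k L D2, (((mon k n').filter fun m =>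
      car (G1 * m) = g1 + u1 ∧ car (G2 * m) = g2 + u2).card : ℝ)) /
      (((UD k L D1).card : ℝ) * (UD k L D2).card) := by
  unfold md un
  simp only [div_mul_div_comm, ← sum_div, t75_ind, sum_mul_sum, card_filter, Nat.cast_sum]
  congr 1
  rw [sum_comm]
  refine sum_congr rfl fun u1 _ => ?_
  rw [sum_comm]
  refine sum_congr rfl fun u2 _ => sum_congr rfl fun m _ => ?_
  by_cases a : car (G1 * m) = g1 + u1 <;> by_cases b : car (G2 * m) = g2 + u2 <;> simp [a, b]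

theorem cnt_le_kap {n' N : ℕ} (h : n' ≤ N) (G1 G2 u1 u2 : k[X]) :
    ((mon k n').filter fun m => car (G1 * m) = u1 ∧ car (G2 * m) = u2).card ≤ kap N G1 G2 := by
  rcases ((mon k n').filter fun m =>
    car (G1 * m) = u1 ∧ car (G2 * m) = u2).eq_empty_or_nonempty with h0 | ⟨f0, hf0⟩
  · rw [h0]; exact Nat.zero_le _
  obtain ⟨m0, a0, b0⟩ := mem_filter.mp hf0
  obtain ⟨m1, m2⟩ := mem_mon.mp m0
  unfold kap
  refine card_le_card_of_injOn (fun f => f - f0) (fun f hf => ?_) fun f _ f' _ e => ?_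
  · obtain ⟨n0, a, b⟩ := mem_filter.mp (mem_coe.mp hf)
    obtain ⟨n1, n2⟩ := mem_mon.mp n0
    refine mem_coe.mpr (mem_filter.mpr ⟨mem_box.mpr ?_, ?_, ?_⟩)
    · have d1 : f.degree = n' := by rw [degree_eq_natDegree n1.ne_zero, n2]
      have d0 : f0.degree = n' := by rw [degree_eq_natDegree m1.ne_zero, m2]
      refine lt_of_lt_of_le ?_ (show ((n' : ℕ) : WithBot ℕ) ≤ (N : ℕ) by exact_mod_cast h)
      rw [← d1]
      exact degree_sub_lt_left (d1.trans d0.symm) n1.ne_zero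
        (by rw [n1.leadingCoeff, m1.leadingCoeff])
    · rw [mul_sub, car_sub, a, a0, sub_self]
    · rw [mul_sub, car_sub, b, b0, sub_self]
  · exact sub_left_injective e

theorem md_le_kap {n' N : ℕ} (h : n' ≤ N) (L : ℕ) (D1 D2 G1 G2 g1 g2 : k[X]) :
    md n' L D1 D2 G1 G2 g1 g2 ≤ kap N G1 G2 := by
  have p1 := card_UD_pos (k := k) L D1
  have p2 := card_UD_pos (k := k) L D2
  rw [md_eq, div_le_iff₀ (mul_pos p1 p2)]
  refine (sum_le_card_nsmul _ _ (((UD k L D2).card : ℝ) * kap N G1 G2) fun u1 _ => ?_).trans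
    (le_of_eq ?_)
  · rw [← nsmul_eq_mul]
    exact sum_le_card_nsmul _ _ _ fun u2 _ => by exact_mod_cast cnt_le_kap h G1 G2 _ _
  · rw [nsmul_eq_mul]
    ring

end CL3.T2

end
end

-- part H86T.Plf
section

/-! h86t: row Plf. Planes. -/

set_option autoImplicit false
open Polynomial Finset UniqueFactorizationMonoid Filter Topology CL5
open scoped Classical

noncomputable section
namespace CL3.T2

variable {k : Type*} [Field k] [Fintype k]

variable [CharP k 3]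

omit [CharP k 3] in
theorem t78_mem {a : k[X]} {N : ℕ} : a ∈ box k N ↔ (a ≠ 0 → a.natDegree < N) := by
  rw [mem_box]
  by_cases h : a = 0
  · simp [h]
  · rw [← natDegree_lt_iff_degree_lt h]
    simp [h]

omit [CharP k 3] in
theorem t78_add {a b : k[X]} {N : ℕ} (ha : a ∈ box k N) (hb : b ∈ box k N) : a + b ∈ box k N := by
  rw [mem_box] at ha hb ⊢
  exact (degree_add_le a b).trans_lt (max_lt ha hb)

omit [CharP k 3] in
theorem t78_sub {a b : k[X]} {N : ℕ} (ha : a ∈ box k N) (hb : b ∈ box k N) : a - b ∈ box k N := by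
  rw [mem_box] at ha hb ⊢
  exact (degree_sub_le a b).trans_lt (max_lt ha hb)

omit [CharP k 3] in
theorem t78_mul {a b : k[X]} {A B : ℕ} (ha : a ∈ box k A) (hb : b ∈ box k B) :
    a * b ∈ box k (A + B - 1) := by
  rw [t78_mem] at ha hb ⊢
  intro h
  have h1 := ha (left_ne_zero_of_mul h)
  have h2 := hb (right_ne_zero_of_mul h)
  have h3 := natDegree_mul_le (p := a) (q := b)
  omega

omit [CharP k 3] in
theorem t78_shift {M : ℕ} {c : k[X]} (hc : c ∈ box k M) (F : k[X] → ℝ) :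
    ∑ g ∈ box k M, F (g + c) = ∑ g ∈ box k M, F g :=
  sum_nbij' (fun g => g + c) (fun g => g - c) (fun _ h => t78_add h hc) (fun _ h => t78_sub h hc)
    (fun _ _ => add_sub_cancel_right _ _) (fun _ _ => sub_add_cancel _ _) fun _ _ => rfl

theorem t78_pl (H v g s : k[X]) : H * pl H v g s =
    Phi (co 0 (H * g) + s * H * v) (co 1 (H * g) + s * H) (co 2 (H * g)) := by
  have h := Phi_co (H * g)
  unfold Phi at h ⊢
  unfold pl Vv
  simp only [add_pow_char]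
  linear_combination -h

theorem dir_eq (v G : k[X]) : G = co 1 G ^ 3 * Vv v + be v G ^ 3 + X ^ 2 * co 2 G ^ 3 := by
  have h := Phi_co G
  unfold Phi at h
  unfold be Vv
  rw [sub_pow_char]
  linear_combination -h

theorem pl_co2 (H v g s : k[X]) : co 2 (H * pl H v g s) = co 2 (H * g) := by
  rw [t78_pl, co2_Phi]

theorem pl_co1 (H v g s : k[X]) : co 1 (H * pl H v g s) = co 1 (H * g) + s * H := by
  rw [t78_pl, co1_Phi]

theorem pl_be (H v g s : k[X]) : be v (H * pl H v g s) = be v (H * g) := by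
  unfold be
  rw [t78_pl, co0_Phi, co1_Phi]
  ring

theorem pl_ww (H1 H2 v g1 g2 s1 s2 : k[X]) :
    ww v (H1 * pl H1 v g1 s1) (H2 * pl H2 v g2 s2) = ww v (H1 * g1) (H2 * g2) := by
  unfold ww
  rw [pl_be, pl_be, pl_co2, pl_co2]

theorem pl_BB (H1 H2 v g1 g2 s1 s2 : k[X]) :
    BB H1 H2 v (H1 * pl H1 v g1 s1) (H2 * pl H2 v g2 s2) = BB H1 H2 v (H1 * g1) (H2 * g2) := by
  unfold BB
  rw [pl_co2, pl_co2]

theorem pl_wv (s0 : ℕ) (H1 H2 v g1 g2 s1 s2 : k[X]) :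
    wv s0 v (H1 * pl H1 v g1 s1) (H2 * pl H2 v g2 s2) = wv s0 v (H1 * g1) (H2 * g2) := by
  unfold wv
  rw [pl_ww, pl_co2]

theorem pl_W0 (H1 H2 v g1 g2 s1 s2 : k[X]) : W0 (H1 * pl H1 v g1 s1) (H2 * pl H2 v g2 s2) =
    W0 (H1 * g1) (H2 * g2) + s1 * H1 * co 2 (H2 * g2) - co 2 (H1 * g1) * (s2 * H2) := by
  unfold W0
  rw [pl_co1, pl_co1, pl_co2, pl_co2]
  ring

theorem pl_add (H v g s s' : k[X]) : pl H v g (s + s') = pl H v g s + s' ^ 3 * (H ^ 2 * Vv v) := by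
  unfold pl
  rw [add_pow_char]
  ring

omit [CharP k 3] in
theorem shift_mem {y θ N L : ℕ} {H v s : k[X]} (hH : H.natDegree ≤ y) (hv : v ∈ mon k θ)
    (hθ : 1 ≤ θ) (hs : s ∈ box k N) (h : 3 * N + 2 * y + 3 * θ ≤ L + 2) :
    s ^ 3 * (H ^ 2 * Vv v) ∈ box k L := by
  rw [t78_mem] at hs ⊢
  intro h0
  have h1 := hs fun e => h0 (by rw [e]; ring)
  have h2 : (Vv v).natDegree ≤ 3 * θ := by
    unfold Vv
    refine (natDegree_add_le _ _).trans (max_le ?_ ?_)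
    · rw [natDegree_pow, (mem_mon.1 hv).2]
    · rw [natDegree_X]
      omega
  have h3 := natDegree_mul_le (p := s ^ 3) (q := H ^ 2 * Vv v)
  have h4 := natDegree_mul_le (p := H ^ 2) (q := Vv v)
  rw [natDegree_pow] at h3 h4
  omega

theorem co_mem {M' : ℕ} {G : k[X]} (hG : G ∈ box k M') : co 0 G ∈ box k ((M' + 2) / 3) ∧
    co 1 G ∈ box k ((M' + 1) / 3) ∧ co 2 G ∈ box k (M' / 3) := by
  rw [← Phi_mem_box, Phi_co]
  exact hG

theorem be_mem {M' θ : ℕ} {G v : k[X]} (hG : G ∈ box k M') (hv : v ∈ mon k θ) (hθ : 1 ≤ θ) :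
    be v G ∈ box k ((M' + 1) / 3 + θ) := by
  obtain ⟨h0, h1, -⟩ := co_mem hG
  have h2 : v ∈ box k (θ + 1) := t78_mem.2 fun _ => by rw [(mem_mon.1 hv).2]; omega
  have h3 := t78_mul h1 h2
  refine t78_sub (t78_mem.2 fun h => ?_) h3
  have := t78_mem.1 h0 h
  omega

theorem ww_deg {M' θ : ℕ} {G1 G2 v : k[X]} (h1 : G1 ∈ box k M') (h2 : G2 ∈ box k M')
    (hv : v ∈ mon k θ) (hθ : 1 ≤ θ) (hw : ww v G1 G2 ≠ 0) :
    (ww v G1 G2).natDegree + 2 ≤ (M' + 1) / 3 + θ + M' / 3 := by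
  have a1 := t78_mul (be_mem h1 hv hθ) (co_mem h2).2.2
  have a2 := t78_mul (be_mem h2 hv hθ) (co_mem h1).2.2
  rw [mul_comm] at a2
  have a3 := t78_mem.1 (t78_sub a1 a2) hw
  unfold ww
  omega

omit [CharP k 3] in
theorem avg_plane {y θ N M : ℕ} {H1 H2 v : k[X]} (d1 : H1.natDegree ≤ y) (d2 : H2.natDegree ≤ y)
    (hv : v ∈ mon k θ) (hθ : 1 ≤ θ) (h : 3 * N + 2 * y + 3 * θ ≤ M + 2) (φ : k[X] → k[X] → ℝ) :
    qq k ^ (2 * N) * ∑ g ∈ box k M ×ˢ box k M, φ g.1 g.2 =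
      ∑ g ∈ box k M ×ˢ box k M, ∑ s ∈ box k N ×ˢ box k N,
        φ (pl H1 v g.1 s.1) (pl H2 v g.2 s.2) := by
  have e : ∀ s ∈ box k N ×ˢ box k N, ∑ g ∈ box k M ×ˢ box k M,
      φ (pl H1 v g.1 s.1) (pl H2 v g.2 s.2) = ∑ g ∈ box k M ×ˢ box k M, φ g.1 g.2 := by
    intro s hs
    obtain ⟨s1, s2⟩ := mem_product.1 hs
    rw [sum_product, sum_product]
    unfold pl
    dsimp only
    rw [← t78_shift (shift_mem d1 hv hθ s1 h) fun a => ∑ b ∈ box k M, φ a b]
    exact sum_congr rfl fun a _ => t78_shift (shift_mem d2 hv hθ s2 h) fun b => φ _ b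
  rw [sum_comm, sum_congr rfl e, sum_const, nsmul_eq_mul, card_product, Nat.cast_mul, card_box,
    two_mul, pow_add]

end CL3.T2

end
end

-- part H86T.Cram
section

/-! h86t: row Cram. Cramer rule in the direction `v` and invariance of `Chi2`. -/

set_option autoImplicit false
open Polynomial Finset UniqueFactorizationMonoid Filter Topology CL5
open scoped Classical

noncomputable section
namespace CL3.T2

variable {k : Type*} [Field k] [Fintype k]

variable [CharP k 3]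

theorem t76_mPar (v F0 F2 T : k[X]) : mPar v F0 F2 T = Phi F0 (T - v * F2) F2 := by
  unfold mPar Phi
  rw [sub_pow_char]
  ring

theorem t76_car (v G F0 F2 T : k[X]) :
    car (G * mPar v F0 F2 T) = be v G * F2 + co 1 G * T + co 2 G * F0 := by
  rw [t76_mPar]
  conv_lhs => rw [← Phi_co G]
  rw [car_Phi_mul]
  unfold be
  ring

theorem t76_self (v m : k[X]) : mPar v (co 0 m) (co 2 m) (co 1 m + v * co 2 m) = m := by
  rw [t76_mPar, add_sub_cancel_right, Phi_co]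

theorem t76_mul (v w F0 F2 T : k[X]) :
    mPar v (w * F0) (w * F2) (w * T) = w ^ 3 * mPar v F0 F2 T := by
  unfold mPar
  ring

theorem t76_add (v F0 F2 T E0 E2 E : k[X]) :
    mPar v (F0 + E0) (F2 + E2) (T + E) = mPar v F0 F2 T + mPar v E0 E2 E := by
  unfold mPar
  simp only [add_pow_char]
  ring

omit [CharP k 3] in
theorem t76_deg {θ : ℕ} {v : k[X]} (hv : v ∈ mon k θ) : v.degree < ((θ + 1 : ℕ) : WithBot ℕ) := by
  rw [degree_eq_natDegree (mem_mon.1 hv).1.ne_zero, (mem_mon.1 hv).2]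
  exact_mod_cast Nat.lt_succ_self θ

theorem t76_Psi {v β1 γ1 β2 γ2 ρ1 ρ2 F0 F2 : k[X]} (T : k[X]) (h1 : ρ1 = β1 * F2 + γ1 * F0)
    (h2 : ρ2 = β2 * F2 + γ2 * F0) :
    mPar v (β1 * ρ2 - β2 * ρ1) (γ2 * ρ1 - γ1 * ρ2) ((β1 * γ2 - γ1 * β2) * T) =
      (β1 * γ2 - γ1 * β2) ^ 3 * mPar v F0 F2 T := by
  rw [← t76_mul, h1, h2]
  congr 1 <;> ring

theorem cram {n' θ : ℕ} {v R r μ G1 G2 : k[X]} (hv : v ∈ mon k θ) (hθ : 1 ≤ θ)
    (hw : ww v G1 G2 ≠ 0) (hf : normalize (ww v G1 G2) = R * r) (hc : IsCoprime R r)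
    (hγ : IsCoprime (co 2 G1) r) (hμ : r ∣ co 2 G2 - μ * co 2 G1) (u1 u2 : k[X]) :
    ((mon k n').filter fun m => car (G1 * m) = u1 ∧ car (G2 * m) = u2).card =
      ((box k (θ + n' / 3 + 1)).filter fun T =>
        Chi2 n' v R (be v G1) (co 2 G1) (be v G2) (co 2 G2) (u1 - co 1 G1 * T)
          (u2 - co 1 G2 * T) T ∧
        r ∣ (u2 - co 1 G2 * T) - μ * (u1 - co 1 G1 * T)).card := by
  have hwR : R * r ∣ ww v G1 G2 := by rw [← hf]; exact (normalize_associated _).dvd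
  have hRw : ww v G1 G2 ∣ R * r := by rw [← hf]; exact (associated_normalize _).dvd
  unfold ww at hw hwR hRw
  have hβ : r ∣ be v G2 - μ * be v G1 := by
    refine hγ.symm.dvd_of_dvd_mul_left ?_
    have e : co 2 G1 * (be v G2 - μ * be v G1) =
        be v G1 * (co 2 G2 - μ * co 2 G1) - (be v G1 * co 2 G2 - co 2 G1 * be v G2) := by ring
    rw [e]
    exact dvd_sub (hμ.mul_left _) ((dvd_mul_left _ _).trans hwR)
  have hcar : ∀ G m u : k[X], car (G * m) = u →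
      u - co 1 G * (co 1 m + v * co 2 m) = be v G * co 2 m + co 2 G * co 0 m := by
    intro G m u h
    rw [← h]
    conv_lhs => rw [← t76_self v m, t76_car, t76_self]
    ring
  refine Finset.card_bij (fun m _ => co 1 m + v * co 2 m) ?_ ?_ ?_
  · intro m hm
    rw [Finset.mem_filter] at hm
    obtain ⟨hm, h1, h2⟩ := hm
    have k1 := hcar _ _ _ h1
    have k2 := hcar _ _ _ h2
    have hP := t76_Psi (v := v) (co 1 m + v * co 2 m) k1 k2
    rw [t76_self] at hP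
    have hR : R ∣ be v G1 * co 2 G2 - co 2 G1 * be v G2 := (dvd_mul_right _ _).trans hwR
    rw [Finset.mem_filter]
    refine ⟨?_, ⟨?_, ?_, ?_⟩, ?_⟩
    · have hb : Phi (co 0 m) (co 1 m) (co 2 m) ∈ box k (n' + 1) := by
        rw [Phi_co, mem_box]
        exact t76_deg hm
      obtain ⟨-, b1, b2⟩ := Phi_mem_box.1 hb
      exact mem_box.2 (eqa_add_lt (eqa_lt_mono (mem_box.1 b1) (by omega))
        (eqa_mul_lt (t76_deg hv) (mem_box.1 b2) (by omega)))
    · rw [k1, k2]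
      refine (hR.mul_right (co 0 m)).trans (dvd_of_eq ?_)
      ring
    · rw [k1, k2]
      refine (hR.mul_right (co 2 m)).trans (dvd_of_eq ?_)
      ring
    · rw [hP, eqa_deg_iff hw]
      exact eqa_mem_mon.1 hm
    · rw [k1, k2]
      refine (dvd_add (hβ.mul_right (co 2 m)) (hμ.mul_right (co 0 m))).trans (dvd_of_eq ?_)
      ring
  · intro m hm m' hm' hT
    rw [Finset.mem_filter] at hm hm'
    have hP := t76_Psi (v := v) (co 1 m + v * co 2 m) (hcar _ _ _ hm.2.1) (hcar _ _ _ hm.2.2)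
    have hP' := t76_Psi (v := v) (co 1 m' + v * co 2 m') (hcar _ _ _ hm'.2.1) (hcar _ _ _ hm'.2.2)
    rw [t76_self] at hP hP'
    rw [hT, hP'] at hP
    exact (mul_left_cancel₀ (pow_ne_zero 3 hw) hP).symm
  · intro T hT
    rw [Finset.mem_filter] at hT
    obtain ⟨-, ⟨c1, c2, c3⟩, hd⟩ := hT
    have e0 : r ∣ be v G1 * (u2 - co 1 G2 * T) - be v G2 * (u1 - co 1 G1 * T) := by
      refine (dvd_sub (hd.mul_left (be v G1)) (hβ.mul_right (u1 - co 1 G1 * T))).trans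
        (dvd_of_eq ?_)
      ring
    have e2 : r ∣ co 2 G2 * (u1 - co 1 G1 * T) - co 2 G1 * (u2 - co 1 G2 * T) := by
      refine (dvd_sub (hμ.mul_right (u1 - co 1 G1 * T)) (hd.mul_left (co 2 G1))).trans
        (dvd_of_eq ?_)
      ring
    obtain ⟨F0, hF0⟩ := hRw.trans (hc.mul_dvd c1 e0)
    obtain ⟨F2, hF2⟩ := hRw.trans (hc.mul_dvd c2 e2)
    have h1 : u1 - co 1 G1 * T = be v G1 * F2 + co 2 G1 * F0 := by
      apply mul_left_cancel₀ hw
      linear_combination be v G1 * hF2 + co 2 G1 * hF0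
    have h2 : u2 - co 1 G2 * T = be v G2 * F2 + co 2 G2 * F0 := by
      apply mul_left_cancel₀ hw
      linear_combination be v G2 * hF2 + co 2 G2 * hF0
    refine ⟨mPar v F0 F2 T, ?_, ?_⟩
    · rw [Finset.mem_filter]
      refine ⟨?_, ?_, ?_⟩
      · rw [t76_Psi T h1 h2, eqa_deg_iff hw] at c3
        exact eqa_mem_mon.2 c3
      · rw [t76_car]
        linear_combination -h1
      · rw [t76_car]
        linear_combination -h2
    · rw [t76_mPar, co1_Phi, co2_Phi]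
      ring

theorem chi2_inv {n' θ A Bx L K1 N' : ℕ} {v R β1 γ1 β2 γ2 e1 e2 e : k[X]} (hv : v ∈ mon k θ)
    (hθ : 1 ≤ θ) (b1 : β1 ∈ box k A) (b2 : β2 ∈ box k A) (c1 : γ1 ∈ box k Bx)
    (c2 : γ2 ∈ box k Bx) (hl : A + Bx ≤ (β1 * γ2 - γ1 * β2).natDegree + K1 + 2)
    (h0 : 3 * L + 3 * K1 < n' + 3 * Bx) (h2 : 3 * θ + 1 + 3 * L + 3 * K1 < n' + 3 * A)
    (hN : 3 * N' ≤ n') (he1 : e1 ∈ UD k L R) (he2 : e2 ∈ UD k L R) (he : e ∈ box k N')
    (ρ1 ρ2 T : k[X]) :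
    Chi2 n' v R β1 γ1 β2 γ2 (ρ1 + e1) (ρ2 + e2) (T + e) ↔ Chi2 n' v R β1 γ1 β2 γ2 ρ1 ρ2 T := by
  obtain ⟨he1, d1⟩ := mem_filter.1 he1
  obtain ⟨he2, d2⟩ := mem_filter.1 he2
  rw [mem_box] at b1 b2 c1 c2 he1 he2 he
  have hwd : (β1 * γ2 - γ1 * β2).degree <
      (((β1 * γ2 - γ1 * β2).natDegree + 1 : ℕ) : WithBot ℕ) :=
    degree_le_natDegree.trans_lt (by exact_mod_cast Nat.lt_succ_self _)
  have hvγ : ∀ {γ : k[X]}, γ.degree < (Bx : WithBot ℕ) →
      (v * γ).degree < ((θ + Bx : ℕ) : WithBot ℕ) := fun h =>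
    eqa_mul_lt (t76_deg hv) h (by omega)
  have hG : (mPar v (β1 * e2 - β2 * e1) (γ2 * e1 - γ1 * e2) ((β1 * γ2 - γ1 * β2) * e)).degree <
      ((n' + 3 * (β1 * γ2 - γ1 * β2).natDegree : ℕ) : WithBot ℕ) := by
    rw [t76_mPar, show v * (γ2 * e1 - γ1 * e2) = v * γ2 * e1 - v * γ1 * e2 by ring]
    exact degree_Phi_lt.2
      ⟨eqa_sub_lt (eqa_mul_lt b1 he2 (by omega)) (eqa_mul_lt b2 he1 (by omega)),
        eqa_sub_lt (eqa_mul_lt hwd he (by omega))
          (eqa_sub_lt (eqa_mul_lt (hvγ c2) he1 (by omega)) (eqa_mul_lt (hvγ c1) he2 (by omega))),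
        eqa_sub_lt (eqa_mul_lt c2 he1 (by omega)) (eqa_mul_lt c1 he2 (by omega))⟩
  unfold Chi2
  rw [show β1 * (ρ2 + e2) - β2 * (ρ1 + e1) = β1 * ρ2 - β2 * ρ1 + (β1 * e2 - β2 * e1) by ring,
    show γ2 * (ρ1 + e1) - γ1 * (ρ2 + e2) = γ2 * ρ1 - γ1 * ρ2 + (γ2 * e1 - γ1 * e2) by ring,
    mul_add, t76_add]
  generalize mPar v (β1 * e2 - β2 * e1) (γ2 * e1 - γ1 * e2) ((β1 * γ2 - γ1 * β2) * e) = Δ at *
  generalize mPar v (β1 * ρ2 - β2 * ρ1) (γ2 * ρ1 - γ1 * ρ2) ((β1 * γ2 - γ1 * β2) * T) = S at *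
  refine and_congr (dvd_add_left (dvd_sub (d2.mul_left _) (d1.mul_left _)))
    (and_congr (dvd_add_left (dvd_sub (d1.mul_left _) (d2.mul_left _))) ?_)
  constructor
  · intro h
    have e' : S - (β1 * γ2 - γ1 * β2) ^ 3 * X ^ n' =
      S + Δ - (β1 * γ2 - γ1 * β2) ^ 3 * X ^ n' - Δ := by ring
    rw [e']
    exact eqa_sub_lt h hG
  · intro h
    have e' : S + Δ - (β1 * γ2 - γ1 * β2) ^ 3 * X ^ n' =
      S - (β1 * γ2 - γ1 * β2) ^ 3 * X ^ n' + Δ := by ring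
    rw [e']
    exact eqa_add_lt h hG

end CL3.T2

end
end

-- part H86T.Tau
section

/-! h86t: row Tau. Divisor bound, primes, second moment. -/

set_option autoImplicit false
open Polynomial Finset UniqueFactorizationMonoid Filter Topology CL5
open scoped Classical

noncomputable section
namespace CL3.T2

variable {k : Type*} [Field k] [Fintype k]

theorem mem_dv {w d : k[X]} (hw : w ≠ 0) : d ∈ dv w ↔ d.Monic ∧ d ∣ w := by
  unfold dv
  rw [mem_filter, mem_box]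
  refine ⟨fun h => h.2, fun h => ⟨?_, h⟩⟩
  have h1 := natDegree_le_of_dvd h.2 hw
  rw [degree_eq_natDegree h.1.ne_zero]
  exact_mod_cast Nat.lt_succ_of_le h1

theorem dv_mono {d w : k[X]} (hw : w ≠ 0) (h : d ∣ w) : (dv d).card ≤ (dv w).card := by
  have hd : d ≠ 0 := ne_zero_of_dvd_ne_zero hw h
  exact card_le_card fun e he =>
    (mem_dv hw).2 ⟨((mem_dv hd).1 he).1, ((mem_dv hd).1 he).2.trans h⟩

omit [Fintype k] in
theorem t45_prod_dvd {w : k[X]} {S : Finset k[X]}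
    (hS : ∀ p ∈ S, p.Monic ∧ Irreducible p ∧ p ∣ w) : ∏ p ∈ S, p ∣ w :=
  Finset.prod_dvd_of_coprime (fun p hp p' hp' hne =>
    cnt_coprime (hS p hp).1 (hS p hp).2.1 (hS p' hp').1 (hS p' hp').2.1 hne)
    fun p hp => (hS p hp).2.2

omit [Fintype k] in
theorem t45_sub {S T : Finset k[X]} (hS : ∀ p ∈ S, p.Monic ∧ Irreducible p)
    (hT : ∀ p ∈ T, p.Monic ∧ Irreducible p) (h : ∏ p ∈ S, p = ∏ p ∈ T, p) : S ⊆ T := by
  intro p hp
  have h1 : p ∣ ∏ p ∈ T, p := h ▸ dvd_prod_of_mem (fun p => p) hp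
  obtain ⟨p', hp', hd⟩ := (hS p hp).2.prime.exists_mem_finset_dvd h1
  rw [eq_of_monic_of_associated (hS p hp).1 (hT p' hp').1
    ((hS p hp).2.associated_of_dvd (hT p' hp').2 hd)]
  exact hp'

theorem two_pow_pf_le {w : k[X]} (hw : w ≠ 0) : (2 : ℝ) ^ (pf w).card ≤ (dv w).card := by
  have h : ((pf w).powerset).card ≤ (dv w).card := by
    have hm : ∀ S ∈ (pf w).powerset, ∀ p ∈ S, p.Monic ∧ Irreducible p ∧ p ∣ w :=
      fun S hS p hp => (mem_pf hw).1 (mem_powerset.1 hS hp)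
    refine card_le_card_of_injOn (fun S => ∏ p ∈ S, p) (fun S hS => ?_) fun S hS T hT h => ?_
    · exact mem_coe.2 ((mem_dv hw).2
        ⟨monic_prod_of_monic _ _ fun p hp => (hm S hS p hp).1, t45_prod_dvd (hm S hS)⟩)
    · have a : ∀ p ∈ S, p.Monic ∧ Irreducible p :=
        fun p hp => ⟨(hm S hS p hp).1, (hm S hS p hp).2.1⟩
      have b : ∀ p ∈ T, p.Monic ∧ Irreducible p :=
        fun p hp => ⟨(hm T hT p hp).1, (hm T hT p hp).2.1⟩
      exact Subset.antisymm (t45_sub a b h) (t45_sub b a h.symm)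
  rw [card_powerset] at h
  exact_mod_cast h

theorem t45_dv_mul {p w : k[X]} (hm : p.Monic) (hi : Irreducible p) (hw : w ≠ 0) (a : ℕ) :
    (dv (p ^ a * w)).card ≤ (a + 1) * (dv w).card := by
  have h0 : p ^ a * w ≠ 0 := mul_ne_zero (pow_ne_zero _ hm.ne_zero) hw
  have h : dv (p ^ a * w) ⊆ (range (a + 1) ×ˢ dv w).image fun z => p ^ z.1 * z.2 := by
    intro d hd
    obtain ⟨hdm, hdd⟩ := (mem_dv h0).1 hd
    obtain ⟨d1, d2, h1, h2, rfl⟩ := exists_dvd_and_dvd_of_dvd_mul hdd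
    obtain ⟨i, hi1, u, hu⟩ := (dvd_prime_pow hi.prime a).1 h1
    have e : d1 * d2 = p ^ i * (((u⁻¹ : k[X]ˣ) : k[X]) * d2) := by
      rw [← hu, mul_assoc, ← mul_assoc (u : k[X]), Units.mul_inv, one_mul]
    refine mem_image.2 ⟨(i, ((u⁻¹ : k[X]ˣ) : k[X]) * d2), mem_product.2 ⟨mem_range.2 (by omega),
      (mem_dv hw).2 ⟨?_, ?_⟩⟩, e.symm⟩
    · rw [e] at hdm
      exact (hm.pow i).of_mul_monic_left hdm
    · exact Units.mul_left_dvd.2 h2
  refine (card_le_card h).trans (card_image_le.trans ?_)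
  rw [card_product, card_range]

theorem t45_poly (L : ℕ) : ∃ B : ℝ, 1 ≤ B ∧ ∀ a : ℕ, ((a : ℝ) + 1) ^ L ≤ B * 2 ^ a := by
  obtain ⟨B, hB⟩ := (tendsto_pow_const_div_const_pow_of_one_lt L
    (by norm_num : (1 : ℝ) < 2)).bddAbove_range
  refine ⟨max 1 (2 * B), le_max_left _ _, fun a => ?_⟩
  have h1 : (((a + 1 : ℕ) : ℝ)) ^ L / 2 ^ (a + 1) ≤ B := hB ⟨a + 1, rfl⟩
  rw [div_le_iff₀ (by positivity), pow_succ (2 : ℝ)] at h1
  push_cast at h1
  have h2 : 2 * B * 2 ^ a ≤ max 1 (2 * B) * 2 ^ a :=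
    mul_le_mul_of_nonneg_right (le_max_right _ _) (by positivity)
  linarith

theorem t45_ind (L : ℕ) {B : ℝ} (hB1 : 1 ≤ B) (hB : ∀ a : ℕ, ((a : ℝ) + 1) ^ L ≤ B * 2 ^ a)
    (n : ℕ) : ∀ (w : k[X]) (S : Finset k[X]), w ≠ 0 → w.natDegree = n →
      (∀ p : k[X], p.Monic → Irreducible p → p ∣ w → p.natDegree ≤ L → p ∈ S) →
      ((dv w).card : ℝ) ^ L ≤ B ^ S.card * qq k ^ w.natDegree := by
  have hq := two_le_qq (k := k)
  induction n using Nat.strong_induction_on with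
  | _ n ih =>
    intro w S hw hn hS
    by_cases hu : IsUnit w
    · have h1 : dv w ⊆ {1} := by
        intro d hd
        obtain ⟨a, b⟩ := (mem_dv hw).1 hd
        exact mem_singleton.2 (a.eq_one_of_isUnit (isUnit_of_dvd_unit b hu))
      have h2 : ((dv w).card : ℝ) ≤ 1 := by
        have := card_le_card h1
        rw [card_singleton] at this
        exact_mod_cast this
      calc ((dv w).card : ℝ) ^ L ≤ 1 := pow_le_one₀ (by positivity) h2
        _ ≤ _ := one_le_mul_of_one_le_of_one_le (one_le_pow₀ hB1) (one_le_pow₀ (by linarith))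
    · obtain ⟨p, hm, hi, hpw⟩ := exists_monic_irreducible_factor w hu
      obtain ⟨a, w', hnd, rfl⟩ := WfDvdMonoid.max_power_factor hw hi
      have hw' : w' ≠ 0 := right_ne_zero_of_mul hw
      have ha : a ≠ 0 := by
        rintro rfl
        rw [pow_zero, one_mul] at hpw
        exact hnd hpw
      have hpos := hi.natDegree_pos
      have hdeg : (p ^ a * w').natDegree = a * p.natDegree + w'.natDegree := by
        rw [natDegree_mul (pow_ne_zero _ hm.ne_zero) hw', natDegree_pow]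
      have hlt : w'.natDegree < n := by
        have : 0 < a * p.natDegree := Nat.mul_pos (Nat.pos_of_ne_zero ha) hpos
        omega
      have h1 : ((dv (p ^ a * w')).card : ℝ) ^ L ≤ ((a : ℝ) + 1) ^ L * ((dv w').card : ℝ) ^ L := by
        rw [← mul_pow]
        refine pow_le_pow_left₀ (by positivity) ?_ _
        exact_mod_cast t45_dv_mul hm hi hw' a
      refine h1.trans ?_
      rw [hdeg, pow_add]
      by_cases hL : p.natDegree ≤ L
      · have hpS := hS p hm hi hpw hL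
        have h2 := ih _ hlt w' (S.erase p) hw' rfl fun p' hm' hi' hd' hL' =>
          mem_erase.2 ⟨fun e => hnd (e ▸ hd'), hS p' hm' hi' (hd'.mul_left _) hL'⟩
        have h3 : ((a : ℝ) + 1) ^ L ≤ B * qq k ^ (a * p.natDegree) := by
          refine (hB a).trans (mul_le_mul_of_nonneg_left ?_ (by linarith))
          exact (pow_le_pow_left₀ (by norm_num) hq _).trans
            (pow_le_pow_right₀ (by linarith) (Nat.le_mul_of_pos_right _ hpos))
        rw [← card_erase_add_one hpS, pow_succ]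
        calc _ ≤ (B * qq k ^ (a * p.natDegree)) * (B ^ (S.erase p).card * qq k ^ w'.natDegree) :=
              mul_le_mul h3 h2 (by positivity) (by positivity)
          _ = _ := by ring
      · have h2 := ih _ hlt w' S hw' rfl fun p' hm' hi' hd' hL' =>
          hS p' hm' hi' (hd'.mul_left _) hL'
        have h3 : ((a : ℝ) + 1) ^ L ≤ qq k ^ (a * p.natDegree) := by
          have h4 : (a : ℝ) + 1 ≤ 2 ^ a := by exact_mod_cast Nat.lt_two_pow_self
          calc ((a : ℝ) + 1) ^ L ≤ (qq k ^ a) ^ L :=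
                pow_le_pow_left₀ (by positivity) (h4.trans (pow_le_pow_left₀ (by norm_num) hq _)) _
            _ = qq k ^ (a * L) := (pow_mul _ _ _).symm
            _ ≤ _ := pow_le_pow_right₀ (by linarith) (Nat.mul_le_mul_left _ (by omega))
        calc _ ≤ qq k ^ (a * p.natDegree) * (B ^ S.card * qq k ^ w'.natDegree) :=
              mul_le_mul h3 h2 (by positivity) (by positivity)
          _ = _ := by ring

theorem exists_tau (L : ℕ) : ∃ C : ℝ, 0 < C ∧ ∀ w : k[X], w ≠ 0 →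
    ((dv w).card : ℝ) ^ L ≤ C * qq k ^ w.natDegree := by
  obtain ⟨B, hB1, hB⟩ := t45_poly L
  exact ⟨B ^ (prs k L).card, by positivity, fun w hw =>
    t45_ind L hB1 hB _ w (prs k L) hw rfl fun p hm hi _ hL => mem_prs.2 ⟨hm, hi, hL⟩⟩

theorem exists_Tau : ∃ C : ℝ, 0 < C ∧ ∀ n l : ℕ, n < 400000 * (l + 1) → 10 ≤ l →
    ∃ τ : ℝ, Tau k (4 * n) τ ∧ τ ^ 6 ≤ C * qq k ^ l := by
  have hq := two_le_qq (k := k)
  obtain ⟨M, hM⟩ : ∃ M : ℕ, 2000000 ≤ M := ⟨_, le_rfl⟩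
  have hM0 : M ≠ 0 := by omega
  obtain ⟨C, hC, h⟩ := exists_tau (k := k) (6 * M)
  have hC1 : 1 ≤ max C 1 := le_max_right _ _
  refine ⟨max C 1, by linarith, fun n l hn hl => ?_⟩
  have hx : 1 ≤ max C 1 * qq k ^ l :=
    one_le_mul_of_one_le_of_one_le hC1 (one_le_pow₀ (by linarith))
  have ht : ((max C 1 * qq k ^ l) ^ (((6 : ℕ) : ℝ)⁻¹)) ^ 6 = max C 1 * qq k ^ l :=
    Real.rpow_inv_natCast_pow (by linarith) (by norm_num)
  have h0 : 0 ≤ (max C 1 * qq k ^ l) ^ (((6 : ℕ) : ℝ)⁻¹) := Real.rpow_nonneg (by linarith) _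
  refine ⟨_, ⟨?_, fun w hw hd => ?_⟩, ht.le⟩
  · rw [← pow_le_pow_iff_left₀ zero_le_one h0 (by norm_num : (6 : ℕ) ≠ 0), ht, one_pow]
    exact hx
  · rw [← pow_le_pow_iff_left₀ (by positivity) h0 (by norm_num : (6 : ℕ) ≠ 0), ht,
      ← pow_le_pow_iff_left₀ (by positivity) (by linarith) hM0, ← pow_mul, mul_pow, ← pow_mul]
    refine (h w hw).trans (mul_le_mul ((le_max_left C 1).trans (le_self_pow₀ hC1 hM0))
      (pow_le_pow_right₀ (by linarith) ?_) (by positivity) (by positivity))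
    have : l * 2000000 ≤ l * M := Nat.mul_le_mul_left _ hM
    omega

theorem mem_irr {j : ℕ} {p : k[X]} : p ∈ irr k j ↔ p.Monic ∧ p.natDegree = j ∧ Irreducible p := by
  unfold irr
  rw [mem_filter, mem_mon, and_assoc]

theorem card_irr_le (j : ℕ) : ((irr k j).card : ℝ) ≤ qq k ^ j := by
  rw [← card_mon]
  exact_mod_cast card_filter_le _ _

/-- at most `deg w / j` primes of degree `j` divide `w` -/
theorem card_irr_dvd {j : ℕ} {w : k[X]} (hw : w ≠ 0) :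
    j * ((irr k j).filter fun p => p ∣ w).card ≤ w.natDegree := by
  have hS : ∀ p ∈ (irr k j).filter fun p => p ∣ w, p.Monic ∧ Irreducible p ∧ p ∣ w :=
    fun p hp => ⟨(mem_irr.1 (mem_filter.1 hp).1).1, (mem_irr.1 (mem_filter.1 hp).1).2.2,
      (mem_filter.1 hp).2⟩
  have h := natDegree_le_of_dvd (t45_prod_dvd hS) hw
  rw [natDegree_prod_of_monic _ _ fun p hp => (hS p hp).1,
    sum_congr rfl (g := fun _ => j) fun p hp => (mem_irr.1 (mem_filter.1 hp).1).2.1,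
    sum_const, smul_eq_mul, mul_comm] at h
  exact h

theorem aniso_of_irr {j : ℕ} {p1 p2 : k[X]} (h1 : p1 ∈ irr k j) (h2 : p2 ∈ irr k j)
    (hne : p1 ≠ p2) : Aniso p1 p2 := by
  obtain ⟨m1, -, i1⟩ := mem_irr.1 h1
  obtain ⟨m2, -, i2⟩ := mem_irr.1 h2
  have hnd : ¬ p1 ∣ p2 := fun h =>
    hne (eq_of_monic_of_associated m1 m2 (i1.associated_of_dvd i2 h))
  have key : ∀ (n : ℕ) (s t : k[X]), s.natDegree = n → p2 * s ^ 2 = p1 * t ^ 2 → s = 0 := by
    intro n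
    induction n using Nat.strong_induction_on with
    | _ n ih =>
      intro s t hn h
      by_contra hs
      have a1 : p1 ∣ s :=
        i1.prime.dvd_of_dvd_pow ((i1.prime.dvd_or_dvd (h ▸ dvd_mul_right p1 (t ^ 2))).resolve_left hnd)
      obtain ⟨s', rfl⟩ := a1
      have e1 : t ^ 2 = p1 * (p2 * s' ^ 2) :=
        mul_left_cancel₀ m1.ne_zero (by linear_combination -h)
      obtain ⟨t', rfl⟩ := i1.prime.dvd_of_dvd_pow (n := 2) ⟨_, e1⟩
      have e2 : p2 * s' ^ 2 = p1 * t' ^ 2 :=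
        mul_left_cancel₀ m1.ne_zero (by linear_combination -e1)
      have hs' : s' ≠ 0 := right_ne_zero_of_mul hs
      refine hs' (ih s'.natDegree ?_ s' t' rfl e2)
      rw [natDegree_mul m1.ne_zero hs'] at hn
      have := i1.natDegree_pos
      omega
  intro s t h
  have hs := key _ s t rfl h
  refine ⟨hs, ?_⟩
  rw [hs] at h
  have h3 : p1 * t ^ 2 = 0 := by rw [← h]; ring
  exact pow_eq_zero_iff (two_ne_zero) |>.1 ((mul_eq_zero.1 h3).resolve_left m1.ne_zero)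

omit [Fintype k] in
/-- a monic squarefree polynomial is the product of a set of monic primes -/
theorem t45_sf_prod {f : k[X]} (hm : f.Monic) (hs : Squarefree f) :
    ∃ S : Finset k[X], (∀ p ∈ S, p.Monic ∧ Irreducible p ∧ p ∣ f) ∧ ∏ p ∈ S, p = f := by
  have h0 := hm.ne_zero
  refine ⟨(normalizedFactors f).toFinset, fun p hp => ?_, ?_⟩
  · have := (Polynomial.mem_normalizedFactors_iff h0).1 (Multiset.mem_toFinset.1 hp)
    exact ⟨this.2.1, this.1, this.2.2⟩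
  · have hn := (squarefree_iff_nodup_normalizedFactors h0).1 hs
    have h1 : ∏ p ∈ (normalizedFactors f).toFinset, p = (normalizedFactors f).prod := by
      rw [Finset.prod_eq_multiset_prod, Multiset.toFinset_val, Multiset.dedup_eq_self.2 hn,
        Multiset.map_id']
    rw [h1, prod_normalizedFactors_eq h0, hm.normalize_eq_self]

theorem t45_geom (N : ℕ) : ∑ d ∈ range (N + 1), qq k ^ d ≤ 2 * qq k ^ N := by
  have h2 := two_le_qq (k := k)
  induction N with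
  | zero => simp
  | succ N ih =>
    rw [Finset.sum_range_succ, pow_succ]
    have : 0 < qq k ^ N := by positivity
    nlinarith

/-- prime number theorem, lower bound -/
theorem t45_pnt {j : ℕ} (hj : 1 ≤ j) :
    qq k ^ j - 2 * qq k ^ (j / 2) ≤ (j : ℝ) * (((mon k j).filter Irreducible).card : ℝ) := by
  have h1 : 1 < Fintype.card k := Fintype.one_lt_card
  have hj0 : j ≠ 0 := by omega
  set P : k[X] := X ^ Fintype.card k ^ j - X with hP
  have hdeg : P.natDegree = Fintype.card k ^ j :=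
    FiniteField.X_pow_card_pow_sub_X_natDegree_eq k hj0 h1
  have hlt : 1 < Fintype.card k ^ j := Nat.one_lt_pow hj0 h1
  have hm : P.Monic := by
    refine (monic_X_pow _).sub_of_left ?_
    rw [degree_X, degree_X_pow]
    exact_mod_cast hlt
  have hs : Squarefree P := by
    refine Separable.squarefree ?_
    have hd : derivative P = -1 := by
      rw [hP, derivative_sub, derivative_X_pow, derivative_X]
      have : ((Fintype.card k ^ j : ℕ) : k) = 0 := by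
        rw [Nat.cast_pow, FiniteField.cast_card_eq_zero, zero_pow hj0]
      rw [this]
      simp
    rw [separable_def, hd]
    exact ⟨0, -1, by simp⟩
  obtain ⟨S, hS, hprod⟩ := t45_sf_prod hm hs
  have hdvd : ∀ p ∈ S, p.natDegree ∣ j := fun p hp => by
    have a := hS p hp
    have := a.2.2
    rw [hP, ← Nat.card_eq_fintype_card] at this
    exact a.2.1.natDegree_dvd_of_dvd_X_pow_card_pow_sub_X this
  have hsum : ∑ p ∈ S, (p.natDegree : ℝ) = qq k ^ j := by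
    have := natDegree_prod_of_monic S (fun p => p) (fun p hp => (hS p hp).1)
    rw [hprod, hdeg] at this
    unfold qq
    exact_mod_cast this.symm
  have hfib : ∀ d : ℕ, ∑ p ∈ S.filter (fun p => p.natDegree = d), (p.natDegree : ℝ) ≤
      (d : ℝ) * (((mon k d).filter Irreducible).card : ℝ) := fun d => by
    rw [Finset.sum_congr rfl (g := fun _ => (d : ℝ))
      (fun p hp => by rw [(mem_filter.1 hp).2]), sum_const, nsmul_eq_mul, mul_comm]
    refine mul_le_mul_of_nonneg_left ?_ (by positivity)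
    refine Nat.cast_le.2 (card_le_card fun p hp => ?_)
    obtain ⟨a, b⟩ := mem_filter.1 hp
    exact mem_filter.2 ⟨mem_mon.2 ⟨(hS p a).1, b⟩, (hS p a).2.1⟩
  have hrest : ∑ p ∈ S.filter (fun p => ¬ p.natDegree = j), (p.natDegree : ℝ) ≤
      2 * qq k ^ (j / 2) := by
    rw [← Finset.sum_fiberwise_of_maps_to (t := range (j / 2 + 1)) (g := fun p => p.natDegree)]
    · refine le_trans (sum_le_sum fun d _ => ?_) (t45_geom (j / 2))
      refine le_trans ?_ ((hfib d).trans (card_prs_deg d))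
      refine sum_le_sum_of_subset_of_nonneg (fun p hp => ?_) (fun _ _ _ => by positivity)
      obtain ⟨a, b⟩ := mem_filter.1 hp
      exact mem_filter.2 ⟨(mem_filter.1 a).1, b⟩
    · intro p hp
      obtain ⟨a, b⟩ := mem_filter.1 hp
      obtain ⟨c, hc⟩ := hdvd p a
      rw [mem_range]
      have hc2 : 2 ≤ c := by
        rcases c with _ | _ | c
        · omega
        · exact absurd (by omega) b
        · omega
      have : p.natDegree * 2 ≤ j := hc ▸ Nat.mul_le_mul_left _ hc2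
      omega
  have := Finset.sum_filter_add_sum_filter_not S (fun p => p.natDegree = j)
    (fun p => (p.natDegree : ℝ))
  have h3 := hfib j
  linarith

variable [CharP k 3]

/-- copy `p80_pnt` of /team-store/h68p_Pnt80.lean, then `q ≥ 3` -/
theorem irr_lower {j : ℕ} (hj : 1 ≤ j) : qq k ^ j ≤ 3 * j * ((irr k j).card : ℝ) := by
  have hq : (3 : ℝ) ≤ qq k := three_le_qq
  have h1 := t45_pnt (k := k) hj
  have h2 : qq k ^ (j / 2 + 1) ≤ qq k ^ j := pow_le_pow_right₀ (by linarith) (by omega)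
  have h3 : 0 < qq k ^ (j / 2) := by positivity
  rw [pow_succ] at h2
  have h4 : qq k ^ (j / 2) * 3 ≤ qq k ^ (j / 2) * qq k := by gcongr
  unfold irr
  linarith

theorem t45_sum_sq (s : Finset k[X]) (hs : ∀ f ∈ s, f.Monic) :
    ∑ f ∈ s, ((Sol f).card : ℝ) ^ 2 =
      ∑ f ∈ s, (II f : ℝ) + 4 * ∑ f ∈ s, ((Sol f).card : ℝ) - 3 * s.card := by
  rw [mul_sum, ← sum_add_distrib, card_eq_sum_ones, Nat.cast_sum, mul_sum, ← sum_sub_distrib]
  refine sum_congr rfl fun f hf => ?_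
  have h : ((Sol f).card : ℝ) ^ 2 + 3 = II f + 4 * (Sol f).card := by
    exact_mod_cast card_Sol_sq (hs f hf)
  push_cast
  linarith

theorem l2 : ∃ K : ℝ, 0 < K ∧ ∀ n : ℕ, ∑ f ∈ mon k n, ((Sol f).card : ℝ) ^ 2 ≤ K * qq k ^ n := by
  obtain ⟨K1, hK1, h1u⟩ := one_unif (k := k)
  obtain ⟨K2, hK2, h2u⟩ := two_unif (k := k)
  refine ⟨K2 + 4 * K1, by positivity, fun t => ?_⟩
  rw [t45_sum_sq _ fun f hf => (mem_mon.1 hf).1]
  have := h1u t
  have := h2u t
  have : (0 : ℝ) ≤ (mon k t).card := Nat.cast_nonneg _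
  linarith

end CL3.T2

end
end

-- part H86T.Fac
section

/-! h86t: row Fac. The factorisation `w = R r`. -/

set_option autoImplicit false
open Polynomial Finset UniqueFactorizationMonoid Filter Topology CL5
open scoped Classical

noncomputable section
namespace CL3.T2

variable {k : Type*} [Field k] [Fintype k]

theorem t35_pf {w p : k[X]} (hp : p ∈ pf w) : p.Monic ∧ Irreducible p ∧ p ∣ w := by
  unfold pf at hp
  rw [mem_filter, mem_prs] at hp
  exact ⟨hp.1.1, hp.1.2.1, hp.2⟩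

theorem t35_monic {w : k[X]} (P : k[X] → Prop) [DecidablePred P] : (∏ p ∈ (pf w).filter P, p).Monic :=
  monic_prod_of_monic _ _ fun _ hp => (t35_pf (mem_filter.1 hp).1).1

theorem t35_deg {w : k[X]} (P : k[X] → Prop) [DecidablePred P] :
    (∏ p ∈ (pf w).filter P, p).natDegree = ∑ p ∈ (pf w).filter P, p.natDegree :=
  natDegree_prod_of_monic _ _ fun _ hp => (t35_pf (mem_filter.1 hp).1).1

theorem t35_dvd {w x : k[X]} (P : k[X] → Prop) [DecidablePred P] (h : ∀ p ∈ pf w, P p → p ∣ x) :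
    (∏ p ∈ (pf w).filter P, p) ∣ x :=
  Finset.prod_dvd_of_coprime (fun _ hp _ hp' hne =>
    cnt_coprime (t35_pf (mem_filter.1 hp).1).1 (t35_pf (mem_filter.1 hp).1).2.1
      (t35_pf (mem_filter.1 hp').1).1 (t35_pf (mem_filter.1 hp').1).2.1 hne)
    fun p hp => h p (mem_filter.1 hp).1 (mem_filter.1 hp).2

theorem t35_cop {w x : k[X]} (P : k[X] → Prop) [DecidablePred P] (h : ∀ p ∈ pf w, P p → ¬ p ∣ x) :
    IsCoprime (∏ p ∈ (pf w).filter P, p) x :=
  IsCoprime.prod_left fun p hp => (t35_pf (mem_filter.1 hp).1).2.1.coprime_iff_not_dvd.2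
    (h p (mem_filter.1 hp).1 (mem_filter.1 hp).2)

theorem rgd_monic (w B W : k[X]) : (rgd w B W).Monic := by
  exact t35_monic _

theorem rgd_squarefree (w B W : k[X]) : Squarefree (rgd w B W) := by
  refine Finset.squarefree_prod_of_pairwise_isCoprime (fun p hp p' hp' hne => ?_)
    fun p hp => (t35_pf (mem_filter.1 hp).1).2.1.squarefree
  exact (cnt_coprime (t35_pf (mem_filter.1 hp).1).1 (t35_pf (mem_filter.1 hp).1).2.1
      (t35_pf (mem_filter.1 hp').1).1 (t35_pf (mem_filter.1 hp').1).2.1 hne).isRelPrime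

theorem t35_mul (w B W : k[X]) : normalize w = Rbd w B W * rgd w B W := by
  have hd : rgd w B W ∣ normalize w :=
    t35_dvd _ fun p hp _ => dvd_normalize_iff.2 (t35_pf hp).2.2
  have h1 := modByMonic_add_div (normalize w) (rgd w B W)
  rw [(modByMonic_eq_zero_iff_dvd (rgd_monic w B W)).2 hd, zero_add, mul_comm] at h1
  exact h1.symm

theorem t35_cop_R (w B W : k[X]) : IsCoprime (Rbd w B W) (rgd w B W) := by
  refine (t35_cop _ fun p hp hP hd => hP.1 ?_).symm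
  have h1 : p ∣ rgd w B W := Finset.dvd_prod_of_mem _ (mem_filter.2 ⟨hp, hP⟩)
  rw [← dvd_normalize_iff, t35_mul w B W, sq]
  exact mul_dvd_mul hd h1

theorem fac {w : k[X]} (hw : w ≠ 0) (B W : k[X]) :
    (Rbd w B W).Monic ∧ normalize w = Rbd w B W * rgd w B W ∧
      IsCoprime (Rbd w B W) (rgd w B W) ∧ IsCoprime (rgd w B W) B ∧ IsCoprime (rgd w B W) W ∧
      Rbd w B W ∈ dv w ∧ (Rbd w B W).natDegree + (rgd w B W).natDegree = w.natDegree := by
  have hm : (Rbd w B W).Monic := by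
    have h1 := monic_normalize hw
    rw [t35_mul w B W] at h1
    exact (rgd_monic w B W).of_mul_monic_right h1
  refine ⟨hm, t35_mul w B W, t35_cop_R w B W, t35_cop _ fun p _ hP => hP.2.1,
    t35_cop _ fun p _ hP => hP.2.2, (mem_dv hw).2 ⟨hm, ?_⟩, ?_⟩
  · rw [← dvd_normalize_iff, t35_mul w B W]
    exact dvd_mul_right _ _
  · rw [← hm.natDegree_mul (rgd_monic w B W), ← t35_mul w B W]
    exact natDegree_eq_of_degree_eq (degree_normalize)

theorem rgd_eq_of {w B W W' : k[X]} (hw : w ≠ 0) (h : Rbd w B W' = Rbd w B W) :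
    rgd w B W' = rgd w B W := by
  have h1 := t35_mul w B W'
  rw [h, t35_mul w B W] at h1
  exact (mul_left_cancel₀ (fac hw B W).1.ne_zero h1).symm

theorem Rbd_congr {w B W W' : k[X]} (hw : w ≠ 0) (h : Rbd w B W ∣ W' - W) :
    Rbd w B W' = Rbd w B W ↔ IsCoprime W' (rgd w B W) := by
  constructor
  · intro h1
    rw [← rgd_eq_of hw h1]
    exact (fac hw B W').2.2.2.2.1.symm
  · intro hc
    have h2 : rgd w B W' = rgd w B W := by
      unfold rgd
      refine prod_congr (filter_congr fun p hp => ?_) fun _ _ => rfl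
      have hi := (t35_pf hp).2.1
      refine and_congr_right fun h3 => and_congr_right fun h4 => not_congr ⟨fun h5 => ?_, fun h5 => ?_⟩
      · by_contra h6
        have h7 : p ∣ rgd w B W := Finset.dvd_prod_of_mem _ (mem_filter.2 ⟨hp, h3, h4, h6⟩)
        exact hi.not_isUnit (hc.isUnit_of_dvd' h5 h7)
      · have h6 : p ∣ Rbd w B W * rgd w B W := by
          rw [← t35_mul w B W]; exact dvd_normalize_iff.2 (t35_pf hp).2.2
        rcases hi.prime.dvd_or_dvd h6 with h7 | h7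
        · have := dvd_add (h7.trans h) h5
          rwa [sub_add_cancel] at this
        · exact absurd ((fac hw B W).2.2.2.2.1.isUnit_of_dvd' h7 h5) hi.not_isUnit
    unfold Rbd
    rw [h2]

omit [Fintype k] in
theorem t35_sq : ∀ (N : ℕ) (w : k[X]), w ≠ 0 → w.natDegree ≤ N →
    ∃ h b : k[X], h.Monic ∧ Squarefree b ∧ w = h ^ 2 * b := by
  intro N
  induction N using Nat.strong_induction_on with
  | _ N ih =>
    intro w hw hN
    by_cases hs : Squarefree w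
    · exact ⟨1, w, monic_one, hs, by ring⟩
    · rw [squarefree_iff_irreducible_sq_not_dvd_of_ne_zero hw] at hs
      push Not at hs
      obtain ⟨x, hx, hd⟩ := hs
      have hm := monic_normalize hx.ne_zero
      have ha : Associated (normalize x) x := normalize_associated x
      obtain ⟨c, hc⟩ := (ha.mul_mul ha).dvd.trans hd
      have hc0 : c ≠ 0 := by rintro rfl; exact hw (by rw [hc, mul_zero])
      have hpos : 0 < (normalize x).natDegree := (ha.symm.irreducible hx).natDegree_pos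
      have hdeg : w.natDegree = (normalize x).natDegree + (normalize x).natDegree + c.natDegree := by
        rw [hc, natDegree_mul (hm.mul hm).ne_zero hc0, hm.natDegree_mul hm]
      obtain ⟨h, b, h1, h2, h3⟩ := ih c.natDegree (by omega) c hc0 le_rfl
      exact ⟨normalize x * h, b, hm.mul h1, h2, by rw [hc, h3]; ring⟩

/-- degree of `w` against the simple primes -/
theorem t35_simple {w : k[X]} (hw : w ≠ 0) : ∃ h : k[X], h.Monic ∧ h ^ 2 ∣ w ∧
    w.natDegree ≤ 3 * h.natDegree + ∑ p ∈ (pf w).filter (fun p => ¬ p ^ 2 ∣ w), p.natDegree := by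
  obtain ⟨h, b, hm, hs, hb⟩ := t35_sq _ w hw le_rfl
  refine ⟨h, hm, ⟨b, hb⟩, ?_⟩
  have hb0 : b ≠ 0 := hs.ne_zero
  have hd : b ∣ h * ∏ p ∈ (pf w).filter (fun p => ¬ p ^ 2 ∣ w), p := by
    refine hyp_sqf_dvd hs fun p hp hpb => ?_
    by_cases hph : p ∣ h
    · exact hph.mul_right _
    · refine Dvd.dvd.mul_left ?_ _
      have ha : Associated (normalize p) p := normalize_associated p
      refine ha.symm.dvd.trans (Finset.dvd_prod_of_mem _ (mem_filter.2 ⟨(mem_pf hw).2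
        ⟨monic_normalize hp.ne_zero, ha.symm.irreducible hp, ha.dvd.trans ?_⟩, fun h2 => ?_⟩))
      · rw [hb]; exact hpb.mul_left _
      · have h3 : p ^ 2 ∣ h ^ 2 * b := by
          rw [← hb]; exact (pow_dvd_pow_of_dvd ha.symm.dvd 2).trans h2
        have h4 : IsCoprime (p ^ 2) (h ^ 2) := (hp.coprime_iff_not_dvd.2 hph).pow
        have h5 := h4.dvd_of_dvd_mul_left h3
        rw [sq] at h5
        exact hp.not_isUnit (hs p h5)
  have h1 := natDegree_le_of_dvd hd (hm.mul (t35_monic _)).ne_zero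
  rw [hm.natDegree_mul (t35_monic _), t35_deg] at h1
  have h2 : w.natDegree = 2 * h.natDegree + b.natDegree := by
    conv_lhs => rw [hb]
    rw [natDegree_mul (hm.pow 2).ne_zero hb0, hm.natDegree_pow]
  omega

/-- the bad part is short: powerful part `< 6 t`, primes of `γ1` `< 2 t`, the others `< t` twice -/
theorem Rbd_deg {E H1 H2 β1 γ1 β2 γ2 W : k[X]} {a b t : ℕ}
    (h : ¬ Bad4 E H1 H2 a b t ((β1, γ1), (β2, γ2)))
    (hW : ¬ ∃ D : k[X], D.Monic ∧ t ≤ D.natDegree ∧ IsCoprime D γ1 ∧ D ∣ W ∧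
      D ∣ β1 * γ2 - γ1 * β2) :
    (Rbd (β1 * γ2 - γ1 * β2) (γ1 * γ2 * (H1 * γ2 ^ 2 - H2 * γ1 ^ 2) * E) W).natDegree ≤ 10 * t := by
  unfold Bad4 goodH at h
  simp only [not_or] at h
  obtain ⟨hw, -, hsq, ⟨-, -, hg1⟩, ⟨-, -, hg2⟩, -, hB⟩ := h
  set w := β1 * γ2 - γ1 * β2 with hwd
  set B := γ1 * γ2 * (H1 * γ2 ^ 2 - H2 * γ1 ^ 2) * E with hBd
  obtain ⟨h, hm, hh, hdeg⟩ := t35_simple hw
  have e0 : h.natDegree < 2 * t := by
    by_contra hc
    exact hsq ⟨h, hm, by omega, hh⟩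
  have e1 : ∑ p ∈ (pf w).filter (fun p => p ∣ β1 ∧ p ∣ γ1), p.natDegree < t := by
    by_contra hc
    exact hg1 ⟨_, t35_monic (w := w) (fun p => p ∣ β1 ∧ p ∣ γ1), by rw [t35_deg]; omega,
      t35_dvd _ fun _ _ hp => hp.1, t35_dvd _ fun _ _ hp => hp.2⟩
  have e2 : ∑ p ∈ (pf w).filter (fun p => p ∣ γ1 ∧ p ∣ γ2), p.natDegree < t := by
    by_contra hc
    exact hg2 ⟨_, t35_monic (w := w) (fun p => p ∣ γ1 ∧ p ∣ γ2), by rw [t35_deg]; omega,
      t35_dvd _ fun _ _ hp => hp.1, t35_dvd _ fun _ _ hp => hp.2⟩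
  have e3 : ∑ p ∈ (pf w).filter (fun p => ¬ p ∣ γ1 ∧ p ∣ B), p.natDegree < t := by
    by_contra hc
    exact hB ⟨_, t35_monic (w := w) (fun p => ¬ p ∣ γ1 ∧ p ∣ B), by rw [t35_deg]; omega,
      t35_cop _ fun _ _ hp => hp.1, t35_dvd _ fun _ _ hp => hp.2,
      t35_dvd _ fun _ hp _ => (t35_pf hp).2.2⟩
  have e4 : ∑ p ∈ (pf w).filter (fun p => ¬ p ∣ γ1 ∧ p ∣ W), p.natDegree < t := by
    by_contra hc
    exact hW ⟨_, t35_monic (w := w) (fun p => ¬ p ∣ γ1 ∧ p ∣ W), by rw [t35_deg]; omega,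
      t35_cop _ fun _ _ hp => hp.1, t35_dvd _ fun _ _ hp => hp.2,
      t35_dvd _ fun _ hp _ => (t35_pf hp).2.2⟩
  have e5 := (fac hw B W).2.2.2.2.2.2
  have e6 : (rgd w B W).natDegree =
      ∑ p ∈ (pf w).filter (fun p => ¬ p ^ 2 ∣ w ∧ ¬ p ∣ B ∧ ¬ p ∣ W), p.natDegree := t35_deg _
  have e7 : ∑ p ∈ (pf w).filter (fun p => ¬ p ^ 2 ∣ w), p.natDegree ≤
      ∑ p ∈ (pf w).filter (fun p => ¬ p ^ 2 ∣ w ∧ ¬ p ∣ B ∧ ¬ p ∣ W), p.natDegree +
      ∑ p ∈ (pf w).filter (fun p => p ∣ β1 ∧ p ∣ γ1), p.natDegree +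
      ∑ p ∈ (pf w).filter (fun p => p ∣ γ1 ∧ p ∣ γ2), p.natDegree +
      ∑ p ∈ (pf w).filter (fun p => ¬ p ∣ γ1 ∧ p ∣ B), p.natDegree +
      ∑ p ∈ (pf w).filter (fun p => ¬ p ∣ γ1 ∧ p ∣ W), p.natDegree := by
    simp only [sum_filter, ← sum_add_distrib]
    refine sum_le_sum fun p hp => ?_
    by_cases c0 : p ^ 2 ∣ w
    · rw [if_neg (not_not.2 c0)]; exact Nat.zero_le _
    rw [if_pos c0]
    by_cases c1 : p ∣ γ1
    · have c2 : p ∣ β1 * γ2 := by
        have := dvd_add (t35_pf hp).2.2 (c1.mul_right β2)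
        rwa [hwd, sub_add_cancel] at this
      rcases (t35_pf hp).2.1.prime.dvd_or_dvd c2 with c3 | c3
      · rw [if_pos (⟨c3, c1⟩ : p ∣ β1 ∧ p ∣ γ1)]; omega
      · rw [if_pos (⟨c1, c3⟩ : p ∣ γ1 ∧ p ∣ γ2)]; omega
    · by_cases c2 : p ∣ B
      · rw [if_pos (⟨c1, c2⟩ : ¬ p ∣ γ1 ∧ p ∣ B)]; omega
      · by_cases c3 : p ∣ W
        · rw [if_pos (⟨c1, c3⟩ : ¬ p ∣ γ1 ∧ p ∣ W)]; omega
        · rw [if_pos (⟨c0, c2, c3⟩ : ¬ p ^ 2 ∣ w ∧ ¬ p ∣ B ∧ ¬ p ∣ W)]; omega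
  omega

end CL3.T2

end
end

-- part H86T.Vb
section

/-! h86t: row Vb. `vdc` after rescaling (`R H2`, `μ H1 / H2`, `h V / H2`). -/

set_option autoImplicit false
open Polynomial Finset UniqueFactorizationMonoid Filter Topology CL5
open scoped Classical

noncomputable section
namespace CL3.T2

variable {k : Type*} [Field k] [Fintype k]

theorem t34_alg {Q : Type*} [CommRing Q] (h3 : (3 : Q) = 0)
    {H1 H2 V i1 i2 iV μ A B p1 p2 P T : Q} (e1 : H1 * i1 = 1) (e2 : H2 * i2 = 1) (eV : V * iV = 1)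
    (h1 : H1 * p1 = A ^ 3 * V + P) (h2 : H2 * p2 = B ^ 3 * V + μ ^ 3 * P)
    (hT : T * (B - μ * A) = p2 - μ * p1) :
    T * (H2 * iV) * (B - μ * A) = (B - μ * A) ^ 3 + (μ ^ 3 - μ * H2 * i1) * (H1 * i2) ^ 3 *
      ((A * H2 * i1) ^ 3 + P * iV * (H2 * i1) ^ 3) := by
  have u : (H1 * i2 * (H2 * i1)) ^ 3 = 1 := by
    rw [show H1 * i2 * (H2 * i1) = H1 * i1 * (H2 * i2) by ring, e1, e2]; ring
  have f1 : p1 = i1 * (A ^ 3 * V + P) := by linear_combination i1 * h1 - p1 * e1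
  have f2 : (B - μ * A) ^ 3 = B ^ 3 - μ ^ 3 * A ^ 3 := by
    linear_combination (B * μ ^ 2 * A ^ 2 - B ^ 2 * μ * A) * h3
  rw [f2]
  linear_combination H2 * iV * hT + iV * h2 - μ * H2 * iV * f1 +
    (B ^ 3 - μ * H2 * i1 * A ^ 3) * eV - (μ ^ 3 - μ * H2 * i1) * (A ^ 3 + P * iV) * u

omit [Fintype k] in
theorem t34_inv {r a : k[X]} (h : IsCoprime r a) :
    ∃ i : k[X], AdjoinRoot.mk r a * AdjoinRoot.mk r i = 1 := by
  obtain ⟨y, hy⟩ := (Vdc.unit_iff.2 h.symm).exists_right_inv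
  obtain ⟨y, rfl⟩ := AdjoinRoot.mk_surjective y
  exact ⟨y, hy⟩

variable [CharP k 3]

theorem t34_pl (H v g s : k[X]) : H * pl H v g s =
    (co 1 (H * g) + s * H) ^ 3 * Vv v + (be v (H * g) ^ 3 + X ^ 2 * co 2 (H * g) ^ 3) := by
  have h := dir_eq v (H * pl H v g s)
  rw [pl_co1, pl_be, pl_co2] at h
  rw [h, add_assoc]

theorem vb {r1 r2 R H1 H2 v μ g1 g2 a b h : k[X]} (m1 : r1.Monic) (m2 : r2.Monic)
    (hs : Squarefree (r1 * r2)) (hR : IsCoprime R (r1 * r2))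
    (hB : IsCoprime (r1 * r2) (BB H1 H2 v (H1 * g1) (H2 * g2)))
    (hw : r1 * r2 ∣ ww v (H1 * g1) (H2 * g2))
    (hμ : r1 * r2 ∣ co 2 (H2 * g2) - μ * co 2 (H1 * g1)) {N K3 : ℕ}
    (hh : ∀ e : k[X], e ∣ h → e ∣ r1 * r2 → e.natDegree ≤ K3) (d1 : 1 ≤ r1.natDegree)
    (hN1 : r1.natDegree ≤ N) (hN2 : N ≤ r2.natDegree) (T0 : k[X] → k[X] → k[X])
    (hT : ∀ s1 s2 : k[X],
      IsCoprime (co 1 (H2 * pl H2 v g2 s2) - μ * co 1 (H1 * pl H1 v g1 s1)) (r1 * r2) →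
      r1 * r2 ∣ T0 s1 s2 * (co 1 (H2 * pl H2 v g2 s2) - μ * co 1 (H1 * pl H1 v g1 s1)) -
        (pl H2 v g2 s2 - μ * pl H1 v g1 s1)) :
    ‖∑ z ∈ (box k N ×ˢ box k N).filter (fun z => IsCoprime
        (co 1 (H2 * pl H2 v g2 (b + R * z.2)) - μ * co 1 (H1 * pl H1 v g1 (a + R * z.1))) (r1 * r2)),
      ee (h * T0 (a + R * z.1) (b + R * z.2)) (r1 * r2)‖ ^ 2 ≤
      qq k ^ (2 * N) * (qq k ^ (N + r1.natDegree) + nrm r2 * qq k ^ K3 * 4 ^ (pf r2).card) := by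
  have mr := m1.mul m2
  unfold BB at hB
  unfold ww at hw
  have c1 := hB.of_mul_right_left.of_mul_right_left.of_mul_right_left
  have c2 := hB.of_mul_right_left.of_mul_right_left.of_mul_right_right
  have c3 := hB.of_mul_right_left.of_mul_right_right
  obtain ⟨i1, e1⟩ := t34_inv hB.of_mul_right_right.of_mul_right_left.of_mul_right_left
  obtain ⟨i2, e2⟩ := t34_inv hB.of_mul_right_right.of_mul_right_left.of_mul_right_right
  obtain ⟨iV, eV⟩ := t34_inv hB.of_mul_right_right.of_mul_right_right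
  have p1 := t34_pl H1 v g1
  have p2 := t34_pl H2 v g2
  simp only [pl_co1] at hT ⊢
  generalize co 1 (H1 * g1) = a1 at *
  generalize co 1 (H2 * g2) = b1 at *
  generalize co 2 (H1 * g1) = γ1 at *
  generalize co 2 (H2 * g2) = γ2 at *
  generalize be v (H1 * g1) = β1 at *
  generalize be v (H2 * g2) = β2 at *
  generalize Vv v = V at *
  set φ := AdjoinRoot.mk (r1 * r2) with hφ
  have h3 : (3 : AdjoinRoot (r1 * r2)) = 0 := by
    have := congrArg φ (car_three_eq_zero (k := k))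
    rwa [map_zero, map_ofNat] at this
  have u1 : IsUnit (φ γ1) := Vdc.unit_iff.2 c1.symm
  have u2 : IsUnit (φ γ2) := Vdc.unit_iff.2 c2.symm
  have u3 : IsUnit (φ (H1 * γ2 ^ 2 - H2 * γ1 ^ 2)) := Vdc.unit_iff.2 c3.symm
  have uH1 : IsUnit (φ H1) := IsUnit.of_mul_eq_one _ e1
  have uH2 : IsUnit (φ H2) := IsUnit.of_mul_eq_one _ e2
  have uV : IsUnit (φ V) := IsUnit.of_mul_eq_one _ eV
  have ui1 : IsUnit (φ i1) := IsUnit.of_mul_eq_one_right _ e1
  have ui2 : IsUnit (φ i2) := IsUnit.of_mul_eq_one_right _ e2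
  have eγ : φ γ2 = φ μ * φ γ1 := by rw [← map_mul]; exact AdjoinRoot.mk_eq_mk.2 hμ
  have eβ : φ β2 = φ μ * φ β1 := by
    have := AdjoinRoot.mk_eq_mk.2 hw
    rw [map_mul, map_mul, ← hφ, eγ] at this
    exact u1.mul_left_cancel (by linear_combination -this)
  have uμ : IsUnit (φ μ) := isUnit_of_mul_isUnit_left (eγ ▸ u2)
  have uν : IsUnit (φ ((μ ^ 3 - μ * H2 * i1) * (H1 * i2) ^ 3)) := by
    have u4 : IsUnit (φ γ1 ^ 2 * (φ H1 * φ μ ^ 2 - φ H2)) := by
      convert u3 using 1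
      simp only [map_sub, map_mul, map_pow, eγ]; ring
    have u5 := (uμ.mul ((isUnit_of_mul_isUnit_right u4).mul ui1)).mul ((uH1.mul ui2).pow 3)
    convert u5 using 1
    simp only [map_sub, map_mul, map_pow]
    linear_combination -(φ μ ^ 3 * (φ H1 * φ i2) ^ 3) * e1
  have ez : ∀ α β : k[X], φ (b1 + b * H2 + R * H2 * β - μ * H1 * i2 *
      ((a1 + a * H1) * H2 * i1 + R * H2 * α)) =
      φ (b1 + (b + R * β) * H2) - φ μ * φ (a1 + (a + R * α) * H1) := fun α β => by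
    simp only [map_sub, map_mul, map_add]
    linear_combination -(φ μ * (φ a1 + φ a * φ H1) * φ H2 * φ i2) * e1 -
      (φ μ * (φ a1 + φ a * φ H1) + φ μ * φ H1 * φ R * φ α) * e2
  have hz : ∀ α β : k[X], IsCoprime (b1 + (b + R * β) * H2 - μ * (a1 + (a + R * α) * H1)) (r1 * r2) ↔
      IsCoprime (b1 + b * H2 + R * H2 * β - μ * H1 * i2 *
        ((a1 + a * H1) * H2 * i1 + R * H2 * α)) (r1 * r2) := fun α β => by
    rw [← Vdc.unit_iff, ← Vdc.unit_iff, ← hφ, ez, map_sub, map_mul]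
  have key := vdc (R := R * H2) (ν := (μ ^ 3 - μ * H2 * i1) * (H1 * i2) ^ 3) (μ := μ * H1 * i2)
    (κ := (β1 ^ 3 + X ^ 2 * γ1 ^ 3) * iV * (H2 * i1) ^ 3) (a := (a1 + a * H1) * H2 * i1)
    (b := b1 + b * H2) (h := h * (V * i2)) (K3 := K3) m1 m2 hs (hR.mul_left (Vdc.unit_iff.1 uH2))
    (Vdc.unit_iff.1 uν) (fun e he her => ?_) d1 hN1 hN2
    (fun α β => T0 (a + R * α) (b + R * β) * (H2 * iV)) fun α β hc => ?_
  · rw [Finset.filter_congr fun z _ => hz z.1 z.2]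
    refine le_trans (le_of_eq ?_) key
    congr 2
    refine Finset.sum_congr rfl fun z _ => ee_congr mr (AdjoinRoot.mk_eq_mk.1 ?_)
    rw [← hφ]
    simp only [map_mul]
    linear_combination -(φ h * φ (T0 (a + R * z.1) (b + R * z.2))) * (φ V * φ iV * e2 + eV)
  · have c4 : IsCoprime (V * i2) (r1 * r2) := Vdc.unit_iff.1 (by rw [map_mul]; exact uV.mul ui2)
    exact hh e ((c4.of_isCoprime_of_dvd_right (her.mul_left r1)).symm.dvd_of_dvd_mul_right he)
      (her.mul_left r1)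
  · have hT' := AdjoinRoot.mk_eq_mk.2 (hT _ _ ((hz α β).2 hc))
    refine AdjoinRoot.mk_eq_mk.1 ?_
    rw [← hφ] at hT' ⊢
    have q1 := congrArg φ (p1 (a + R * α))
    have q2 := congrArg φ (p2 (b + R * β))
    rw [map_mul, map_add, map_mul, map_pow] at q1 q2
    rw [map_mul, map_sub, map_sub, map_mul, map_mul] at hT'
    have q3 : φ (β2 ^ 3 + X ^ 2 * γ2 ^ 3) = φ μ ^ 3 * φ (β1 ^ 3 + X ^ 2 * γ1 ^ 3) := by
      simp only [map_add, map_mul, map_pow, eγ, eβ]; ring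
    rw [q3] at q2
    have q4 : φ ((a1 + a * H1) * H2 * i1 + R * H2 * α) =
        φ (a1 + (a + R * α) * H1) * φ H2 * φ i1 := by
      simp only [map_mul, map_add]
      linear_combination -(φ R * φ H2 * φ α) * e1
    have := t34_alg h3 e1 e2 eV q1 q2 hT'
    rw [map_mul, map_add, map_pow, ez, map_mul φ (_ * _) (_ + _), map_add φ (_ ^ 3), map_pow, q4]
    simp only [map_mul φ _ (_ * iV), map_mul φ H2 iV, map_mul φ _ (_ ^ 3), map_pow, map_sub,
      map_mul φ _ i1, map_mul φ _ i2, map_mul φ μ H2, map_mul φ _ iV]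
    exact this

end CL3.T2

end
end

-- part H86T.Model
section

/-! h86t: row Model. The model of level `RR` on good pairs. -/

set_option autoImplicit false
open Polynomial Finset UniqueFactorizationMonoid Filter Topology CL5
open scoped Classical

noncomputable section
namespace CL3.T2

variable {k : Type*} [Field k] [Fintype k]

theorem t64_class {L : ℕ} {R r ν : k[X]} (hR : R.Monic) (hr : r ≠ 0) (hc : IsCoprime R r)
    (hν : IsCoprime ν r) (h : R.natDegree + r.natDegree ≤ L) (c : k[X]) :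
    ∑ u ∈ UD k L R, (if r ∣ c + ν * u then (1 : ℝ) else 0) = (UD k L R).card / nrm r := by
  obtain ⟨a, b, hab⟩ := hν.mul_left hc
  have key : ∀ s : k[X], r ∣ c + ν * (R * s) ↔ r ∣ s - (-(a * c)) := by
    intro s
    constructor
    · rintro ⟨t, ht⟩
      exact ⟨a * t + b * s, by linear_combination a * ht - s * hab⟩
    · rintro ⟨t, ht⟩
      exact ⟨ν * R * t + b * c, by linear_combination ν * R * ht - c * hab⟩
  have hq : qq k ≠ 0 := by have := two_le_qq (k := k); positivity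
  rw [sum_UD hR (by omega), card_UD hR (by omega)]
  simp only [key]
  rw [← Finset.sum_filter, Finset.sum_const, nsmul_eq_mul, mul_one,
    card_box_class hr (by omega), nrm, pow_sub₀ _ hq (by omega), div_eq_mul_inv]

theorem t64_sub {L : ℕ} {R D u : k[X]} (hD : D = R ∨ D = 0) (hu : u ∈ UD k L D) :
    u ∈ UD k L R := by
  rcases hD with rfl | rfl
  · exact hu
  · rw [mem_UD] at hu ⊢
    exact ⟨hu.1, (dvd_zero R).trans hu.2⟩

theorem t64_avg {L : ℕ} {R r μ D1 D2 : k[X]} (hR : R.Monic) (hr : r ≠ 0) (hc : IsCoprime R r)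
    (hμ : IsCoprime μ r) (h : R.natDegree + r.natDegree ≤ L) (hD : D1 = R ∨ D2 = R)
    (ρ1 ρ2 : k[X]) :
    ∑ u1 ∈ UD k L D1, ∑ u2 ∈ UD k L D2,
      (if r ∣ (ρ2 + u2) - μ * (ρ1 + u1) then (1 : ℝ) else 0) =
      ((UD k L D1).card : ℝ) * (UD k L D2).card / nrm r := by
  rcases hD with rfl | rfl
  · rw [Finset.sum_comm]
    have : ∀ u2 ∈ UD k L D2, ∑ u1 ∈ UD k L D1,
        (if r ∣ (ρ2 + u2) - μ * (ρ1 + u1) then (1 : ℝ) else 0) = (UD k L D1).card / nrm r := by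
      intro u2 _
      rw [← t64_class hR hr hc hμ.neg_left h (ρ2 + u2 - μ * ρ1)]
      refine Finset.sum_congr rfl fun u1 _ => ?_
      rw [show ρ2 + u2 - μ * (ρ1 + u1) = ρ2 + u2 - μ * ρ1 + -μ * u1 by ring]
    rw [Finset.sum_congr rfl this, Finset.sum_const, nsmul_eq_mul]
    ring
  · have : ∀ u1 ∈ UD k L D1, ∑ u2 ∈ UD k L D2,
        (if r ∣ (ρ2 + u2) - μ * (ρ1 + u1) then (1 : ℝ) else 0) = (UD k L D2).card / nrm r := by
      intro u1 _
      rw [← t64_class hR hr hc isCoprime_one_left h (ρ2 - μ * (ρ1 + u1))]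
      refine Finset.sum_congr rfl fun u2 _ => ?_
      rw [show ρ2 + u2 - μ * (ρ1 + u1) = ρ2 - μ * (ρ1 + u1) + 1 * u2 by ring]
    rw [Finset.sum_congr rfl this, Finset.sum_const, nsmul_eq_mul]
    ring

theorem t64_mul_mem {M y : ℕ} {H g : k[X]} (hH : H.natDegree = y) (hg : g ∈ box k M) :
    H * g ∈ box k (M + y) := by
  rw [mem_box] at hg ⊢
  by_cases h0 : H * g = 0
  · rw [h0, degree_zero]; exact WithBot.bot_lt_coe _
  · have hg0 : g ≠ 0 := right_ne_zero_of_mul h0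
    have h1 : g.natDegree < M := (natDegree_lt_iff_degree_lt hg0).2 hg
    have h2 := natDegree_mul_le (p := H) (q := g)
    exact (natDegree_lt_iff_degree_lt h0).1 (by omega)

variable [CharP k 3]

theorem model {n l y : ℕ} {H1 H2 : k[X]} {τ : ℝ} (hP : Par n l y H1 H2 τ) {v g1 g2 D1 D2 : k[X]}
    (hv : v ∈ mon k (620 * l)) (hg1 : g1 ∈ box k (n / 2)) (hg2 : g2 ∈ box k (n / 2))
    (hG : GoodV (n / 2 + y) (620 * l) (620 * l) (3100 * l) H1 H2 v (H1 * g1) (H2 * g2))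
    (hD : (D1 = RR H1 H2 v (H1 * g1) (H2 * g2) ∧ D2 = RR H1 H2 v (H1 * g1) (H2 * g2)) ∨
      (D1 = RR H1 H2 v (H1 * g1) (H2 * g2) ∧ D2 = 0) ∨
      (D1 = 0 ∧ D2 = RR H1 H2 v (H1 * g1) (H2 * g2))) :
    md (n - y) (n / 2 - (620 * l + 3)) D1 D2 (H1 * g1) (H2 * g2) g1 g2 =
      (((box k (620 * l + (n - y) / 3 + 1)).filter fun T =>
        Chi2 (n - y) v (RR H1 H2 v (H1 * g1) (H2 * g2)) (be v (H1 * g1)) (co 2 (H1 * g1))
          (be v (H2 * g2)) (co 2 (H2 * g2)) (g1 - co 1 (H1 * g1) * T)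
          (g2 - co 1 (H2 * g2) * T) T).card : ℝ) / nrm (rg H1 H2 v (H1 * g1) (H2 * g2)) := by
  have hlo := hP.lo
  have hbig := hP.big
  have hy := hP.hy
  have hθ : 1 ≤ 620 * l := by omega
  have hG1 := t64_mul_mem hP.d1 hg1
  have hG2 := t64_mul_mem hP.d2 hg2
  generalize H1 * g1 = G1 at *
  generalize H2 * g2 = G2 at *
  obtain ⟨⟨hw, hlong⟩, -⟩ := hG
  obtain ⟨hRm, hf, hc, hB, -, -, hdeg⟩ := fac hw (BB H1 H2 v G1 G2) (W0 G1 G2)
  have hrm := rgd_monic (ww v G1 G2) (BB H1 H2 v G1 G2) (W0 G1 G2)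
  have hwd := ww_deg hG1 hG2 hv hθ hw
  change (RR H1 H2 v G1 G2).Monic at hRm
  change _ = RR H1 H2 v G1 G2 * rg H1 H2 v G1 G2 at hf
  change IsCoprime (RR H1 H2 v G1 G2) (rg H1 H2 v G1 G2) at hc
  change IsCoprime (rg H1 H2 v G1 G2) _ at hB
  change (RR H1 H2 v G1 G2).natDegree + (rg H1 H2 v G1 G2).natDegree = _ at hdeg
  change (rg H1 H2 v G1 G2).Monic at hrm
  generalize RR H1 H2 v G1 G2 = R at *
  generalize rg H1 H2 v G1 G2 = r at *
  have hγ1 : IsCoprime (co 2 G1) r :=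
    (hB.of_mul_right_left.of_mul_right_left.of_mul_right_left).symm
  have hγ2 : IsCoprime (co 2 G2) r :=
    (hB.of_mul_right_left.of_mul_right_left.of_mul_right_right).symm
  obtain ⟨μ, hμ, hμc⟩ : ∃ μ : k[X], r ∣ co 2 G2 - μ * co 2 G1 ∧ IsCoprime μ r := by
    obtain ⟨a, b, hab⟩ := hγ1
    refine ⟨a * co 2 G2, ⟨b * co 2 G2, by linear_combination (-co 2 G2) * hab⟩, ?_⟩
    exact IsCoprime.mul_left ⟨co 2 G1, b, by linear_combination hab⟩ hγ2
  obtain ⟨hD1, hD2, hD3⟩ : (D1 = R ∨ D1 = 0) ∧ (D2 = R ∨ D2 = 0) ∧ (D1 = R ∨ D2 = R) := by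
    rcases hD with ⟨a, b⟩ | ⟨a, b⟩ | ⟨a, b⟩
    exacts [⟨.inl a, .inl b, .inl a⟩, ⟨.inl a, .inr b, .inl a⟩, ⟨.inr a, .inl b, .inr b⟩]
  clear hD
  have hL : R.natDegree + r.natDegree ≤ n / 2 - (620 * l + 3) := by omega
  have hz : (0 : k[X]) ∈ box k 0 := by
    rw [mem_box, degree_zero]; exact WithBot.bot_lt_coe _
  have h1 : ∀ u1 ∈ UD k (n / 2 - (620 * l + 3)) D1, ∀ u2 ∈ UD k (n / 2 - (620 * l + 3)) D2,
      (((mon k (n - y)).filter fun m => car (G1 * m) = g1 + u1 ∧ car (G2 * m) = g2 + u2).card : ℝ)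
      = ∑ T ∈ (box k (620 * l + (n - y) / 3 + 1)).filter fun T =>
          Chi2 (n - y) v R (be v G1) (co 2 G1) (be v G2) (co 2 G2) (g1 - co 1 G1 * T)
            (g2 - co 1 G2 * T) T,
          (if r ∣ (g2 - co 1 G2 * T + u2) - μ * (g1 - co 1 G1 * T + u1) then (1 : ℝ) else 0) := by
    intro u1 hu1 u2 hu2
    rw [cram hv hθ hw hf hc hγ1 hμ, ← Finset.sum_filter, Finset.sum_const, nsmul_eq_mul, mul_one,
      Finset.filter_filter]
    refine congrArg (fun s : Finset k[X] => (s.card : ℝ)) (Finset.ext fun T => ?_)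
    have := chi2_inv (n' := n - y) (K1 := 620 * l) (N' := 0) hv hθ (be_mem hG1 hv hθ)
      (be_mem hG2 hv hθ) (co_mem hG1).2.2 (co_mem hG2).2.2 hlong (by omega) (by omega) (by omega)
      (t64_sub hD1 hu1) (t64_sub hD2 hu2) hz (g1 - co 1 G1 * T) (g2 - co 1 G2 * T) T
    rw [add_zero] at this
    rw [Finset.mem_filter, Finset.mem_filter,
      show g1 + u1 - co 1 G1 * T = g1 - co 1 G1 * T + u1 by ring,
      show g2 + u2 - co 1 G2 * T = g2 - co 1 G2 * T + u2 by ring, this]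
  rw [md_eq, Finset.sum_congr rfl fun u1 hu1 => Finset.sum_congr rfl fun u2 hu2 => h1 u1 hu1 u2 hu2,
    Finset.sum_congr rfl fun u1 _ => Finset.sum_comm, Finset.sum_comm,
    Finset.sum_congr rfl fun T _ => t64_avg hRm hrm.ne_zero hc hμc hL hD3 _ _,
    Finset.sum_const, nsmul_eq_mul]
  have p1 := (card_UD_pos (k := k) (n / 2 - (620 * l + 3)) D1).ne'
  have p2 := (card_UD_pos (k := k) (n / 2 - (620 * l + 3)) D2).ne'
  field_simp

end CL3.T2

end
end

-- part H86T.Eq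
section

/-! h86t: row Eq. Equidistribution on one plane (`shift_bound` with `N1 = Mp - deg R0`, `N2 = L - (M' + 1) / 3 - 3100 l`). -/

set_option autoImplicit false
open Polynomial Finset UniqueFactorizationMonoid Filter Topology CL5
open scoped Classical

noncomputable section
namespace CL3.T2

variable {k : Type*} [Field k] [Fintype k]

theorem t9_num {q τ x : ℝ} (hq : 1 ≤ q) (hτ : 1 ≤ τ) (hx0 : 0 ≤ x) (hx : x ≤ τ ^ 2)
    {N s d K E : ℕ} (h1 : 3 * N + s ≤ 2 * E) (h2 : 2 * N + d + K ≤ 2 * E) :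
    q ^ (2 * N) * (q ^ (N + s) + q ^ d * q ^ K * x) ≤ (2 * τ * q ^ E) ^ 2 := by
  have hq0 : 0 < q := by linarith
  have a1 : q ^ (2 * N) * q ^ (N + s) ≤ q ^ (2 * E) := by
    rw [← pow_add]; exact pow_le_pow_right₀ hq (by omega)
  have a2 : q ^ (2 * N) * (q ^ d * q ^ K) ≤ q ^ (2 * E) := by
    rw [← pow_add, ← pow_add]; exact pow_le_pow_right₀ hq (by omega)
  have a3 : q ^ (2 * N) * (q ^ d * q ^ K) * x ≤ q ^ (2 * E) * τ ^ 2 :=
    mul_le_mul a2 hx hx0 (by positivity)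
  have a4 : 1 ≤ τ ^ 2 := one_le_pow₀ hτ
  have a5 : 0 < q ^ (2 * E) := by positivity
  have e : (2 * τ * q ^ E) ^ 2 = 4 * (q ^ (2 * E) * τ ^ 2) := by ring
  rw [e]
  nlinarith

theorem t9_ar {n l y ρ dw d2 Mp L N1 N2 MT : ℕ} (lo : 400000 * l ≤ n) (big : 10 ≤ l) (hy : y ≤ l)
    (hR : ρ ≤ 3100 * l) (hl : (n / 2 + y + 1) / 3 + 620 * l + (n / 2 + y) / 3 ≤ dw + 620 * l + 2)
    (hw : dw + 2 ≤ (n / 2 + y + 1) / 3 + 620 * l + (n / 2 + y) / 3)
    (fd : ρ + (29000 * l + d2) = dw) (hMp : Mp = n / 2 / 3 - (1241 * l + 6))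
    (hL : L = n / 2 - (620 * l + 3)) (hN1 : N1 = Mp - ρ)
    (hN2 : N2 = L - (n / 2 + y + 1) / 3 - 3100 * l) (hMT : MT = 620 * l + (n - y) / 3 + 1) :
    ∃ E : ℕ, 2 * (Mp - N1) + (MT - N2) + E + 5 * l = 2 * Mp ∧
      (N1 + ρ ≤ Mp ∧ N2 + ρ ≤ MT ∧ N2 ≤ 29000 * l + d2 ∧ 29000 * l + d2 ≤ N2 + 4342 * l) ∧
      (N2 + 3100 * l ≤ MT ∧ L ≤ n / 2 ∧ 3 * Mp + 2 * y + 3 * (620 * l) ≤ L + 2 ∧
        Mp + y + MT ≤ L + 1 ∧ (n / 2 + y + 1) / 3 + (N2 + 3100 * l) ≤ L + 1) ∧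
      (3 * L + 3 * (620 * l) < n - y + 3 * ((n / 2 + y) / 3) ∧
        3 * (620 * l) + 1 + 3 * L + 3 * (620 * l) < n - y + 3 * ((n / 2 + y + 1) / 3 + 620 * l) ∧
        3 * (N2 + 3100 * l) ≤ n - y) ∧
      (29000 * l ≤ N1 ∧ N1 ≤ d2 ∧ d2 ≤ 4 * n ∧ 3 * N1 + 29000 * l ≤ 2 * E ∧
        2 * N1 + d2 + 4342 * l ≤ 2 * E) := by
  refine ⟨2 * Mp - (2 * (Mp - N1) + (MT - N2) + 5 * l), ?_, ⟨?_, ?_, ?_, ?_⟩,
    ⟨?_, ?_, ?_, ?_, ?_⟩, ⟨?_, ?_, ?_⟩, ?_, ?_, ?_, ?_, ?_⟩ <;> omega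

theorem t9_pl_mem {y θ N M : ℕ} {H v g s : k[X]} (hH : H.natDegree ≤ y) (hv : v ∈ mon k θ)
    (hθ : 1 ≤ θ) (hg : g ∈ box k M) (hs : s ∈ box k N) (h : 3 * N + 2 * y + 3 * θ ≤ M + 2) :
    pl H v g s ∈ box k M :=
  Eq9.add_mem_box hg (shift_mem hH hv hθ hs h)

variable [CharP k 3]

/-- the change of the residual under a shift -/
theorem t9_shift {y θ N M L MT N2 : ℕ} {H v g a α T t R : k[X]} (hH : H.natDegree ≤ y)
    (hv : v ∈ mon k θ) (hθ : 1 ≤ θ) (hg : g ∈ box k M) (ha : a ∈ box k N) (hα : R * α ∈ box k N)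
    (hT : T ∈ box k MT) (ht : R * t ∈ box k N2) (h0 : N2 ≤ MT) (hLM : L ≤ M)
    (h1 : 3 * N + 2 * y + 3 * θ ≤ L + 2) (h2 : N + y + MT ≤ L + 1)
    (h3 : (M + y + 1) / 3 + N2 ≤ L + 1) :
    ∃ e ∈ UD k L R, pl H v g (a + R * α) - co 1 (H * pl H v g (a + R * α)) * (T + R * t) =
      pl H v g a - co 1 (H * pl H v g a) * T + e := by
  refine ⟨(R * α) ^ 3 * (H ^ 2 * Vv v) - H * (R * α) * (T + R * t) -
    co 1 (H * pl H v g a) * (R * t), mem_UD.2 ⟨?_, ?_⟩, ?_⟩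
  · refine Eq9.sub_mem_box (Eq9.sub_mem_box (shift_mem hH hv hθ hα h1) ?_) ?_
    · exact eq_mul_mem_box (Eq9.mul_mem_box (M := N + y) (by omega) hα)
        (Eq9.add_mem_box hT (Eq9.box_mono h0 ht)) (by omega)
    · have hm : H * pl H v g a ∈ box k (M + y) :=
        Eq9.mul_mem_box (by omega) (t9_pl_mem hH hv hθ hg ha (by omega))
      exact eq_mul_mem_box (co_mem hm).2.1 ht h3
  · exact ⟨R ^ 2 * α ^ 3 * (H ^ 2 * Vv v) - H * α * (T + R * t) - co 1 (H * pl H v g a) * t,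
      by ring⟩
  · rw [pl_co1, pl_co1, pl_add]
    ring

theorem eq_plane {n l y : ℕ} {H1 H2 : k[X]} {τ : ℝ} (hP : Par n l y H1 H2 τ) {v g1 g2 p0 R0 : k[X]}
    (hv : v ∈ mon k (620 * l)) (hg1 : g1 ∈ box k (n / 2)) (hg2 : g2 ∈ box k (n / 2))
    (hL : Long (n / 2 + y) (620 * l) (620 * l) v (H1 * g1) (H2 * g2))
    (hp : p0 ∈ irr k (29000 * l)) (hp0 : p0 ∣ ww v (H1 * g1) (H2 * g2))
    (hR : R0.natDegree ≤ 3100 * l) :
    |∑ s ∈ (box k (n / 2 / 3 - (1241 * l + 6)) ×ˢ box k (n / 2 / 3 - (1241 * l + 6))).filter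
        (fun s => RR H1 H2 v (H1 * pl H1 v g1 s.1) (H2 * pl H2 v g2 s.2) = R0),
      De (n - y) (n / 2 - (620 * l + 3)) H1 H2 v (pl H1 v g1 s.1) (pl H2 v g2 s.2)| ≤
      2 * τ * qq k ^ (2 * (n / 2 / 3 - (1241 * l + 6))) / qq k ^ (5 * l) := by
  have hP' := hP
  obtain ⟨lo, hi, big, hy, m1, m2, d1, d2, -, hτ1, hτ⟩ := hP'
  have hq1 : (1 : ℝ) ≤ qq k := by linarith [two_le_qq (k := k)]
  have hq0 : (0 : ℝ) < qq k := by linarith
  have hθ : 1 ≤ 620 * l := by omega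
  set Mp := n / 2 / 3 - (1241 * l + 6) with hMp
  rcases Finset.eq_empty_or_nonempty ((box k Mp ×ˢ box k Mp).filter
    (fun s => RR H1 H2 v (H1 * pl H1 v g1 s.1) (H2 * pl H2 v g2 s.2) = R0)) with h0 | ⟨s0, hs0⟩
  · rw [h0, Finset.sum_empty, abs_zero]
    positivity
  obtain ⟨hw, hlong⟩ := hL
  have hG1 : H1 * g1 ∈ box k (n / 2 + y) := Eq9.mul_mem_box (by omega) hg1
  have hG2 : H2 * g2 ∈ box k (n / 2 + y) := Eq9.mul_mem_box (by omega) hg2
  have hwd := ww_deg hG1 hG2 hv hθ hw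
  set w := ww v (H1 * g1) (H2 * g2) with hwdef
  set B := BB H1 H2 v (H1 * g1) (H2 * g2) with hBdef
  set W : k[X] → k[X] → k[X] := fun a b => W0 (H1 * pl H1 v g1 a) (H2 * pl H2 v g2 b) with hWdef
  have hRR : ∀ a b, RR H1 H2 v (H1 * pl H1 v g1 a) (H2 * pl H2 v g2 b) = Rbd w B (W a b) := by
    intro a b
    unfold RR
    rw [pl_ww, pl_BB]
  have hrg : ∀ a b, rg H1 H2 v (H1 * pl H1 v g1 a) (H2 * pl H2 v g2 b) = rgd w B (W a b) := by
    intro a b
    unfold rg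
    rw [pl_ww, pl_BB]
  have hs1 : Rbd w B (W s0.1 s0.2) = R0 := by
    rw [← hRR]; exact (Finset.mem_filter.1 hs0).2
  obtain ⟨fm, ff, fc, fB, -, -, fd⟩ := fac hw B (W s0.1 s0.2)
  have rm := rgd_monic w B (W s0.1 s0.2)
  have rs := rgd_squarefree w B (W s0.1 s0.2)
  have hre : ∀ a b, Rbd w B (W a b) = R0 → rgd w B (W a b) = rgd w B (W s0.1 s0.2) :=
    fun a b h => rgd_eq_of hw (h.trans hs1.symm)
  rw [hs1] at fm ff fc fd
  obtain ⟨pm, pd, pi⟩ := mem_irr.1 hp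
  have hpr : p0 ∣ rgd w B (W s0.1 s0.2) := by
    have h1 : p0 ∣ R0 * rgd w B (W s0.1 s0.2) := by
      rw [← ff]; exact dvd_normalize_iff.2 hp0
    refine (pi.prime.dvd_or_dvd h1).resolve_left fun h => ?_
    have := natDegree_le_of_dvd h fm.ne_zero
    omega
  obtain ⟨r2, hr2⟩ := hpr
  rw [hr2] at rm rs ff fc fB fd hre
  have r2m : r2.Monic := pm.of_mul_monic_left rm
  have hdr : (p0 * r2).natDegree = p0.natDegree + r2.natDegree := pm.natDegree_mul r2m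
  have hrw : p0 * r2 ∣ w := dvd_normalize_iff.1 (by rw [ff]; exact dvd_mul_left _ _)
  have hγ : IsCoprime (co 2 (H1 * g1)) (p0 * r2) := by
    refine (fB.of_isCoprime_of_dvd_right ?_).symm
    rw [hBdef]
    unfold BB
    exact ((dvd_mul_right _ _).mul_right _).mul_right _
  obtain ⟨μ, hμ⟩ : ∃ μ : k[X], p0 * r2 ∣ co 2 (H2 * g2) - μ * co 2 (H1 * g1) := by
    obtain ⟨s, t, hst⟩ := hγ
    exact ⟨s * co 2 (H2 * g2), t * co 2 (H2 * g2), by
      linear_combination (-co 2 (H2 * g2)) * hst⟩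
  have hu : ∀ a b : k[X], IsCoprime (W a b) (p0 * r2) ↔
      IsCoprime (co 1 (H2 * pl H2 v g2 b) - μ * co 1 (H1 * pl H1 v g1 a)) (p0 * r2) := by
    intro a b
    obtain ⟨s, hs⟩ := hμ
    have e : W a b = -(co 2 (H1 * g1) *
        (co 1 (H2 * pl H2 v g2 b) - μ * co 1 (H1 * pl H1 v g1 a))) +
        p0 * r2 * (s * co 1 (H1 * pl H1 v g1 a)) := by
      simp only [hWdef]
      unfold W0
      rw [pl_co2, pl_co2]
      linear_combination (co 1 (H1 * pl H1 v g1 a)) * hs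
    rw [e, IsCoprime.add_mul_left_left_iff, IsCoprime.neg_left_iff]
    exact ⟨fun h => h.of_mul_left_right, fun h => hγ.mul_left h⟩
  have hcop : ∀ a b, Rbd w B (W a b) = R0 → IsCoprime (W a b) (p0 * r2) := by
    intro a b h
    have := (fac hw B (W a b)).2.2.2.2.1
    rw [hre a b h] at this
    exact this.symm
  have hex : ∀ a b : k[X], ∃ T : k[X],
      IsCoprime (co 1 (H2 * pl H2 v g2 b) - μ * co 1 (H1 * pl H1 v g1 a)) (p0 * r2) →
      p0 * r2 ∣ T * (co 1 (H2 * pl H2 v g2 b) - μ * co 1 (H1 * pl H1 v g1 a)) -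
        (pl H2 v g2 b - μ * pl H1 v g1 a) := by
    intro a b
    by_cases h : IsCoprime (co 1 (H2 * pl H2 v g2 b) - μ * co 1 (H1 * pl H1 v g1 a)) (p0 * r2)
    · obtain ⟨s, t, hst⟩ := h
      exact ⟨s * (pl H2 v g2 b - μ * pl H1 v g1 a), fun _ =>
        ⟨-(t * (pl H2 v g2 b - μ * pl H1 v g1 a)), by
          linear_combination (pl H2 v g2 b - μ * pl H1 v g1 a) * hst⟩⟩
    · exact ⟨0, fun h' => absurd h' h⟩
  choose T0 hT0 using hex
  obtain ⟨L, hLdef⟩ : ∃ L, L = n / 2 - (620 * l + 3) := ⟨_, rfl⟩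
  obtain ⟨N1, hN1⟩ : ∃ N1, N1 = Mp - R0.natDegree := ⟨_, rfl⟩
  obtain ⟨N2, hN2⟩ : ∃ N2, N2 = L - (n / 2 + y + 1) / 3 - 3100 * l := ⟨_, rfl⟩
  obtain ⟨MT, hMT⟩ : ∃ MT, MT = 620 * l + (n - y) / 3 + 1 := ⟨_, rfl⟩
  rw [pd] at hdr
  obtain ⟨E, hE, ⟨s1, s2, s3, s4⟩, ⟨t1, t2, t3, t4, t5⟩, ⟨c1, c2, c3⟩, v1, v2, v3, v4, v5⟩ :=
    t9_ar lo big hy hR hlong hwd (by rw [← hdr]; exact fd) hMp hLdef hN1 hN2 hMT
  have key := shift_bound (M := Mp) (MT := MT) (N1 := N1) (N2 := N2) (K3 := 4342 * l)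
    rm fm fc s1 s2 (by rw [hdr]; exact s3) (by rw [hdr]; exact s4)
    (fun a b T => Chi2 (n - y) v R0 (be v (H1 * g1)) (co 2 (H1 * g1)) (be v (H2 * g2))
      (co 2 (H2 * g2)) (pl H1 v g1 a - co 1 (H1 * pl H1 v g1 a) * T)
      (pl H2 v g2 b - co 1 (H2 * pl H2 v g2 b) * T) T)
    (fun a b => RR H1 H2 v (H1 * pl H1 v g1 a) (H2 * pl H2 v g2 b) = R0) T0 ?_
    (B := 2 * τ * qq k ^ E) ?_
  · refine le_trans (le_of_eq ?_) (key.trans (le_of_eq ?_))
    · congr 1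
      refine Finset.sum_congr (Finset.ext fun z => by simp only [Finset.mem_filter]) fun z hz => ?_
      simp only [Finset.mem_filter] at hz
      obtain ⟨hz1, hz2⟩ := hz
      obtain ⟨hz3, hz4⟩ := Finset.mem_product.1 hz1
      have hz5 : Rbd w B (W z.1 z.2) = R0 := by rw [← hRR]; exact hz2
      have hz' := (hu _ _).1 (hcop _ _ hz5)
      have b1 := t9_pl_mem d1.le hv hθ hg1 hz3 (t3.trans (Nat.add_le_add_right t2 2))
      have b2 := t9_pl_mem d2.le hv hθ hg2 hz4 (t3.trans (Nat.add_le_add_right t2 2))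
      have hGV : GoodV (n / 2 + y) (620 * l) (620 * l) (3100 * l) H1 H2 v
          (H1 * pl H1 v g1 z.1) (H2 * pl H2 v g2 z.2) := by
        refine ⟨?_, by rw [hz2]; exact hR⟩
        unfold Long
        rw [pl_ww]
        exact ⟨hw, hlong⟩
      unfold De
      rw [model hP hv b1 b2 hGV (Or.inl ⟨rfl, rfl⟩), hz2, hrg, hre _ _ hz5, md_eq, UD_zero,
        Finset.sum_singleton, Finset.sum_singleton, Finset.card_singleton, Nat.cast_one, mul_one,
        div_one, add_zero, add_zero,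
        cram (R := R0) (r := p0 * r2) (μ := μ) hv hθ (by rw [pl_ww]; exact hw)
          (by rw [pl_ww]; exact ff) fc (by rw [pl_co2]; exact hγ)
          (by rw [pl_co2, pl_co2]; exact hμ), pl_be, pl_be, pl_co2, pl_co2, ← hMT]
      congr 3
      refine Finset.filter_congr fun T _ => and_congr_right fun _ => ?_
      have h3 := hT0 z.1 z.2 hz'
      constructor
      · intro h
        refine hz'.symm.dvd_of_dvd_mul_left ?_
        have := (dvd_add h h3).neg_right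
        convert this using 1; ring
      · intro h
        have := (dvd_add (h.mul_left
          (co 1 (H2 * pl H2 v g2 z.2) - μ * co 1 (H1 * pl H1 v g1 z.1))) h3).neg_right
        convert this using 1; ring
    · rw [← hE, eq_div_iff (by positivity)]
      ring
  · intro a ha b hb T hT α hα β hβ t ht
    have ht' : R0 * t ∈ box k (N2 + 3100 * l) := Eq9.mul_mem_box (by rw [add_comm]; exact Nat.add_le_add_left hR _) ht
    obtain ⟨e1, he1, ee1⟩ := t9_shift (L := L) d1.le hv hθ hg1 ha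
      (Eq9.mul_mem_box (R := R0) (M := Mp) (by rw [add_comm]; exact s1) hα) hT ht' t1 t2 t3 t4 t5
    obtain ⟨e2, he2, ee2⟩ := t9_shift (L := L) d2.le hv hθ hg2 hb
      (Eq9.mul_mem_box (R := R0) (M := Mp) (by rw [add_comm]; exact s1) hβ) hT ht' t1 t2 t3 t4 t5
    rw [ee1, ee2]
    exact chi2_inv (K1 := 620 * l) hv hθ (be_mem hG1 hv hθ) (be_mem hG2 hv hθ) (co_mem hG1).2.2
      (co_mem hG2).2.2 hlong c1 c2 c3 he1 he2 ht' _ _ _
  · intro a b h hh
    by_cases h0 : ∃ z0 : k[X] × k[X],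
      RR H1 H2 v (H1 * pl H1 v g1 (a + R0 * z0.1)) (H2 * pl H2 v g2 (b + R0 * z0.2)) = R0
    swap
    · rw [Finset.sum_eq_zero fun z hz => absurd ⟨z, by
        simp only [Finset.mem_filter] at hz; exact hz.2⟩ h0, norm_zero]
      positivity
    obtain ⟨z0, hz0⟩ := h0
    have hz1 : Rbd w B (W (a + R0 * z0.1) (b + R0 * z0.2)) = R0 := by
      rw [← hRR]; exact hz0
    have hiff : ∀ z : k[X] × k[X],
        RR H1 H2 v (H1 * pl H1 v g1 (a + R0 * z.1)) (H2 * pl H2 v g2 (b + R0 * z.2)) = R0 ↔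
        IsCoprime (co 1 (H2 * pl H2 v g2 (b + R0 * z.2)) -
          μ * co 1 (H1 * pl H1 v g1 (a + R0 * z.1))) (p0 * r2) := by
      intro z
      have h1 := Rbd_congr (B := B) (W := W (a + R0 * z0.1) (b + R0 * z0.2))
        (W' := W (a + R0 * z.1) (b + R0 * z.2)) hw (by
          rw [hz1]
          simp only [hWdef, pl_W0]
          exact ⟨(z.1 - z0.1) * H1 * co 2 (H2 * g2) - co 2 (H1 * g1) * ((z.2 - z0.2) * H2),
            by ring⟩)
      rw [hz1, hre _ _ hz1] at h1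
      rw [hRR, h1, hu]
    refine eq_le_of_sq (le_trans (le_of_eq ?_) ((vb (a := a) (b := b) pm r2m rs fc fB hrw hμ hh
      (pd ▸ hθ.trans (Nat.mul_le_mul_right l (by norm_num))) (pd ▸ v1) v2 T0 hT0).trans ?_))
      (by positivity)
    · congr 3
      exact Finset.ext fun z => by simp only [Finset.mem_filter, hiff z]
    rw [pd]
    refine t9_num hq1 hτ1 (by positivity) ?_ v4 v5
    have h1 := (two_pow_pf_le r2m.ne_zero).trans (hτ r2 r2m.ne_zero v3)
    rw [show (4 : ℝ) = 2 ^ 2 by norm_num, ← pow_mul, mul_comm, pow_mul]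
    exact pow_le_pow_left₀ (by positivity) h1 2

end CL3.T2

end
end

-- part H86T.Lln
section

/-! h86t: row Lln. Law of large numbers over the directions. -/

set_option autoImplicit false
open Polynomial Finset UniqueFactorizationMonoid Filter Topology CL5
open scoped Classical

noncomputable section
namespace CL3

theorem lln_abs {Ω V : Type*} (S : Finset Ω) (T : Finset V) (w : V → Ω → ℝ) {A : ℝ}
    (hA : ∀ v ∈ T, ∑ x ∈ S, w v x ^ 2 ≤ A)
    (hc : ∀ v ∈ T, ∀ v' ∈ T, v ≠ v' → ∑ x ∈ S, w v x * w v' x ≤ 0) :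
    ∑ x ∈ S, (∑ v ∈ T, w v x) ^ 2 ≤ T.card * A := by
  simp only [sq, sum_mul_sum]
  rw [sum_comm, ← nsmul_eq_mul]
  refine sum_le_card_nsmul _ _ _ fun v hv => ?_
  rw [sum_comm, ← add_sum_erase _ _ hv]
  have h1 := hA v hv
  simp only [sq] at h1
  have h2 : ∑ v' ∈ T.erase v, ∑ x ∈ S, w v x * w v' x ≤ 0 :=
    sum_nonpos fun v' h => hc v hv v' (mem_of_mem_erase h) (ne_of_mem_erase h).symm
  linarith

variable {k : Type*} [Field k] [Fintype k]

theorem lln_div {N s : ℕ} (h : s ≤ N) : qq k ^ (N - s) = qq k ^ N / qq k ^ s := by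
  have : qq k ≠ 0 := by linarith [two_le_qq (k := k)]
  rw [pow_sub₀ _ this h, div_eq_mul_inv]

theorem lln_one {p a : k[X]} {s N0 N1 : ℕ} (hp : Irreducible p) (hs : p.natDegree = s)
    (ha : ¬ p ∣ a) (h0 : s ≤ N0) (x : k[X] → k[X]) :
    ∑ b ∈ box k N1 ×ˢ box k N0, (if p ∣ x b.1 - a * b.2 then (1 : ℝ) else 0) =
      qq k ^ N1 * qq k ^ N0 / qq k ^ s := by
  rw [sum_product, sum_congr rfl fun b1 _ => eqa_count hp.ne_zero
    (hp.coprime_iff_not_dvd.2 ha).symm (hs ▸ h0) (x b1), sum_const, nsmul_eq_mul, card_box, hs,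
    lln_div h0, mul_div_assoc]

theorem lln_two {p p' a : k[X]} {s N0 N1 : ℕ} (hp : Irreducible p) (hs : p.natDegree = s)
    (hp' : Irreducible p') (hs' : p'.natDegree = s) (hc : IsCoprime p p')
    (ha : ¬ p ∣ a) (ha' : ¬ p' ∣ a) (h0 : 2 * s ≤ N0) (x x' : k[X] → k[X]) :
    ∑ b ∈ box k N1 ×ˢ box k N0, (if p ∣ x b.1 - a * b.2 then (1 : ℝ) else 0) *
      (if p' ∣ x' b.1 - a * b.2 then (1 : ℝ) else 0) = qq k ^ N1 * qq k ^ N0 / (qq k ^ s) ^ 2 := by
  obtain ⟨u, u', hu⟩ := id hc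
  have hd : (p * p').natDegree = 2 * s := by
    rw [natDegree_mul hp.ne_zero hp'.ne_zero, hs, hs', two_mul]
  have e : ∀ b1 b0 : k[X], (if p ∣ x b1 - a * b0 then (1 : ℝ) else 0) *
      (if p' ∣ x' b1 - a * b0 then (1 : ℝ) else 0) =
        if p * p' ∣ x b1 * (u' * p') + x' b1 * (u * p) - a * b0 then (1 : ℝ) else 0 := by
    intro b1 b0
    rw [ite_zero_mul_ite_zero, mul_one]
    have e1 : x b1 * (u' * p') + x' b1 * (u * p) - a * b0 =
        x b1 - a * b0 + p * (u * (x' b1 - x b1)) := by linear_combination (x b1) * hu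
    have e2 : x b1 * (u' * p') + x' b1 * (u * p) - a * b0 =
        x' b1 - a * b0 + p' * (u' * (x b1 - x' b1)) := by linear_combination (x' b1) * hu
    refine if_congr ⟨fun h => hc.mul_dvd ?_ ?_, fun h => ⟨?_, ?_⟩⟩ rfl rfl
    · rw [e1]; exact h.1.add (dvd_mul_right _ _)
    · rw [e2]; exact h.2.add (dvd_mul_right _ _)
    · exact (dvd_add_left (dvd_mul_right _ _)).1 (e1 ▸ (dvd_mul_right p p').trans h)
    · exact (dvd_add_left (dvd_mul_right _ _)).1 (e2 ▸ (dvd_mul_left p' p).trans h)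
  simp only [e]
  rw [sum_product]
  dsimp only
  rw [sum_congr rfl fun b1 _ => eqa_count (N := N0) (mul_ne_zero hp.ne_zero hp'.ne_zero)
    (((hp.coprime_iff_not_dvd.2 ha).mul_left (hp'.coprime_iff_not_dvd.2 ha')).symm) (hd.le.trans h0) _,
    sum_const, nsmul_eq_mul, card_box, hd, lln_div h0, mul_div_assoc, ← pow_mul, mul_comm s]

theorem lln_same {p a c c' v v' : k[X]} {s N0 N1 : ℕ} (hp : Irreducible p) (hs : p.natDegree = s)
    (ha : ¬ p ∣ a) (hv : ¬ p ∣ v' - v) (h0 : s ≤ N0) (h1 : s ≤ N1) :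
    ∑ b ∈ box k N1 ×ˢ box k N0, (if p ∣ c + a * v * b.1 - a * b.2 then (1 : ℝ) else 0) *
      (if p ∣ c' + a * v' * b.1 - a * b.2 then (1 : ℝ) else 0) =
        qq k ^ N1 * qq k ^ N0 / (qq k ^ s) ^ 2 := by
  have e : ∀ b1 b0 : k[X], (if p ∣ c + a * v * b1 - a * b0 then (1 : ℝ) else 0) *
      (if p ∣ c' + a * v' * b1 - a * b0 then (1 : ℝ) else 0) =
        (if p ∣ c - c' - a * (v' - v) * b1 then (1 : ℝ) else 0) *
          if p ∣ c + a * v * b1 - a * b0 then (1 : ℝ) else 0 := by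
    intro b1 b0
    rw [ite_zero_mul_ite_zero, ite_zero_mul_ite_zero]
    have e1 : c - c' - a * (v' - v) * b1 =
        c + a * v * b1 - a * b0 - (c' + a * v' * b1 - a * b0) := by ring
    refine if_congr ⟨fun h => ⟨e1 ▸ h.1.sub h.2, h.1⟩, fun h => ⟨h.2, ?_⟩⟩ rfl rfl
    exact (dvd_sub_right h.2).1 (e1 ▸ h.1)
  have ca := (hp.coprime_iff_not_dvd.2 ha).symm
  have e2 : ∀ b1 : k[X], ∑ b0 ∈ box k N0,
      (if p ∣ c + a * v * b1 - a * b0 then (1 : ℝ) else 0) *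
        (if p ∣ c' + a * v' * b1 - a * b0 then (1 : ℝ) else 0) =
          (if p ∣ c - c' - a * (v' - v) * b1 then (1 : ℝ) else 0) * qq k ^ (N0 - p.natDegree) :=
    fun b1 => by
      rw [sum_congr rfl fun b0 _ => e b1 b0, ← mul_sum, eqa_count hp.ne_zero ca (hs.le.trans h0)]
  rw [sum_product, sum_congr rfl fun b1 _ => e2 b1, ← sum_mul,
    eqa_count hp.ne_zero (ca.mul_left (hp.coprime_iff_not_dvd.2 hv).symm) (hs.le.trans h1), hs,
    lln_div h0, lln_div h1, div_mul_div_comm, sq]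

/-- pairwise independence -/
theorem lln_var {P : Finset k[X]} {s th N0 N1 : ℕ}
    (hP : ∀ p ∈ P, p.Monic ∧ Irreducible p ∧ p.natDegree = s) (ht : th ≤ s) (h0 : 2 * s ≤ N0)
    (h1 : s ≤ N1) {a : k[X]} (ha : ∀ p ∈ P, ¬ p ∣ a) (c : k[X] → k[X]) :
    ∑ b ∈ box k N1 ×ˢ box k N0, (∑ v ∈ mon k th,
      ((P.filter fun p => p ∣ c v + a * v * b.1 - a * b.2).card : ℝ) -
        qq k ^ th * (P.card / qq k ^ s)) ^ 2 ≤
      qq k ^ th * (P.card / qq k ^ s) * (qq k ^ N1 * qq k ^ N0) := by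
  have q0 : 0 < qq k := by linarith [two_le_qq (k := k)]
  have cB : ((box k N1 ×ˢ box k N0).card : ℝ) = qq k ^ N1 * qq k ^ N0 := by
    rw [card_product, Nat.cast_mul, card_box, card_box]
  have s0 : s ≤ N0 := by omega
  have H := lln_abs (box k N1 ×ˢ box k N0) (mon k th ×ˢ P)
    (fun z b => (if z.2 ∣ c z.1 + a * z.1 * b.1 - a * b.2 then (1 : ℝ) else 0) - 1 / qq k ^ s)
    (A := qq k ^ N1 * qq k ^ N0 / qq k ^ s) (fun z hz => ?_) fun z hz z' hz' hne => ?_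
  · refine le_trans (le_of_eq (sum_congr rfl fun b _ => ?_)) (H.trans (le_of_eq ?_))
    · rw [sum_sub_distrib, sum_const, sum_product, card_product, nsmul_eq_mul, Nat.cast_mul,
        card_mon]
      simp only [card_filter, Nat.cast_sum, Nat.cast_ite, Nat.cast_one, Nat.cast_zero]
      ring
    · rw [card_product, Nat.cast_mul, card_mon]
      ring
  · obtain ⟨-, p1, p2⟩ := hP _ (mem_product.1 hz).2
    have e := lln_one (N1 := N1) p1 p2 (ha _ (mem_product.1 hz).2) s0 fun b1 => c z.1 + a * z.1 * b1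
    have e1 : ∀ (t : Prop) [Decidable t] (r : ℝ), ((if t then (1 : ℝ) else 0) - r) ^ 2 =
        (1 - 2 * r) * (if t then (1 : ℝ) else 0) + r ^ 2 := fun t _ r => by split_ifs <;> ring
    simp only [e1]
    rw [sum_add_distrib, ← mul_sum, e, sum_const, nsmul_eq_mul, cB]
    have : 0 ≤ qq k ^ N1 * qq k ^ N0 * (1 / qq k ^ s) ^ 2 := by positivity
    rw [div_eq_mul_one_div (qq k ^ N1 * qq k ^ N0)]
    nlinarith [this]
  · obtain ⟨m1, p1, p2⟩ := hP _ (mem_product.1 hz).2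
    obtain ⟨m1', p1', p2'⟩ := hP _ (mem_product.1 hz').2
    have a1 := ha _ (mem_product.1 hz).2
    have a2 := ha _ (mem_product.1 hz').2
    have e := lln_one (N1 := N1) p1 p2 a1 s0 fun b1 => c z.1 + a * z.1 * b1
    have e' := lln_one (N1 := N1) p1' p2' a2 s0 fun b1 => c z'.1 + a * z'.1 * b1
    have e2 : ∑ b ∈ box k N1 ×ˢ box k N0,
        (if z.2 ∣ c z.1 + a * z.1 * b.1 - a * b.2 then (1 : ℝ) else 0) *
          (if z'.2 ∣ c z'.1 + a * z'.1 * b.1 - a * b.2 then (1 : ℝ) else 0) =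
            qq k ^ N1 * qq k ^ N0 / (qq k ^ s) ^ 2 := by
      by_cases h : z.2 = z'.2
      · rw [← h]
        refine lln_same p1 p2 a1 (fun hd => ?_) s0 h1
        have v0 : z'.1 - z.1 ≠ 0 := fun g => hne (Prod.ext (sub_eq_zero.1 g).symm h)
        obtain ⟨x1, x2⟩ := mem_mon.1 (mem_product.1 hz).1
        obtain ⟨y1, y2⟩ := mem_mon.1 (mem_product.1 hz').1
        have d1 := degree_sub_lt_left (p := z'.1) (q := z.1) (by
          rw [degree_eq_natDegree y1.ne_zero, degree_eq_natDegree x1.ne_zero, x2, y2]) y1.ne_zero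
          (y1.leadingCoeff.trans x1.leadingCoeff.symm)
        have d2 := natDegree_lt_natDegree v0 d1
        have d3 := natDegree_le_of_dvd hd v0
        omega
      · exact lln_two p1 p2 p1' p2' (p1.coprime_iff_not_dvd.2 fun hd =>
          h (eq_of_monic_of_associated m1 m1' (p1.associated_of_dvd p1' hd))) a1 a2 h0
          (fun b1 => c z.1 + a * z.1 * b1) fun b1 => c z'.1 + a * z'.1 * b1
    simp only [sub_mul, mul_sub, sum_sub_distrib, ← sum_mul, ← mul_sum, e, e', e2, sum_const,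
      nsmul_eq_mul, cB]
    apply le_of_eq
    field_simp
    ring

omit [Fintype k] in
theorem lln_few {P : Finset k[X]} (hP : ∀ p ∈ P, p.Monic ∧ Irreducible p) {a : k[X]}
    (ha : a ≠ 0) : (P.filter fun p => p ∣ a).card ≤ a.natDegree := by
  have hd : ∏ p ∈ P.filter fun p => p ∣ a, p ∣ a := by
    refine prod_dvd_of_coprime (fun p hp p' hp' hne => ?_) fun p hp => (mem_filter.1 hp).2
    obtain ⟨m1, p1⟩ := hP p (mem_filter.1 hp).1
    obtain ⟨m2, p2⟩ := hP p' (mem_filter.1 hp').1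
    exact p1.coprime_iff_not_dvd.2 fun hd =>
      hne (eq_of_monic_of_associated m1 m2 (p1.associated_of_dvd p2 hd))
  refine le_trans ?_ (natDegree_le_of_dvd hd ha)
  rw [natDegree_prod_of_monic _ _ fun p hp => (hP p (mem_filter.1 hp).1).1, card_eq_sum_ones]
  exact sum_le_sum fun p hp => (hP p (mem_filter.1 hp).1).2.natDegree_pos

variable [CharP k 3]

/-- the determinant attached to the direction `v ^ 3 + X` -/
def llnW (v G1 G2 : k[X]) : k[X] :=
  (co 0 G1 - co 1 G1 * v) * co 2 G2 - co 2 G1 * (co 0 G2 - co 1 G2 * v)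

theorem lln_row {P : Finset k[X]} {s th M : ℕ}
    (hP : ∀ p ∈ P, p.Monic ∧ Irreducible p ∧ p.natDegree = s) (hne : P.Nonempty) (ht : th ≤ s)
    (h0 : 2 * s ≤ M / 3) (G1 : k[X]) :
    ∑ G2 ∈ box k M, (1 - (∑ v ∈ mon k th,
      ((P.filter fun p => ¬ p ∣ co 2 G1 ∧ p ∣ llnW v G1 G2).card : ℝ)) /
        (qq k ^ th * (P.card / qq k ^ s))) ^ 2 ≤
      qq k ^ M * (2 / (qq k ^ th * (P.card / qq k ^ s)) +
        2 * (((P.filter fun p => p ∣ co 2 G1).card : ℝ) / P.card) ^ 2) := by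
  have q0 : 0 < qq k := by linarith [two_le_qq (k := k)]
  have P0 : (0 : ℝ) < P.card := Nat.cast_pos.2 hne.card_pos
  obtain ⟨D, hD⟩ : ∃ D, D = qq k ^ th * (P.card / qq k ^ s) := ⟨_, rfl⟩
  obtain ⟨P', hP'⟩ : ∃ P', P' = P.filter fun p => ¬ p ∣ co 2 G1 := ⟨_, rfl⟩
  obtain ⟨D', hD'⟩ : ∃ D', D' = qq k ^ th * (P'.card / qq k ^ s) := ⟨_, rfl⟩
  obtain ⟨e, he⟩ : ∃ e, e = ((P.filter fun p => p ∣ co 2 G1).card : ℝ) / P.card := ⟨_, rfl⟩
  have D0 : 0 < D := by rw [hD]; positivity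
  have c1 : ((P.filter fun p => p ∣ co 2 G1).card : ℝ) + P'.card = P.card := by
    rw [hP']; exact_mod_cast card_filter_add_card_filter_not _
  have e1 : D' = D * (1 - e) := by
    rw [hD, hD', he, ← c1]
    rw [← c1] at P0
    field_simp
    ring
  have e0 : 0 ≤ e := by rw [he]; positivity
  rw [← hD, ← he, sum_box_Phi, sum_comm, ← sum_product' (f := fun b1 b0 => ∑ b2 ∈ box k (M / 3),
    (1 - (∑ v ∈ mon k th, ((P.filter fun p => ¬ p ∣ co 2 G1 ∧
      p ∣ llnW v G1 (Phi b0 b1 b2)).card : ℝ)) / D) ^ 2), sum_comm]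
  have hM : qq k ^ M = qq k ^ (M / 3) * (qq k ^ ((M + 1) / 3) * qq k ^ ((M + 2) / 3)) := by
    rw [← pow_add, ← pow_add]
    congr 1
    omega
  rw [hM, mul_assoc, ← card_box (M / 3), ← nsmul_eq_mul]
  refine sum_le_card_nsmul _ _ _ fun b2 _ => ?_
  have hm : ∀ p ∈ P', p ∈ P ∧ ¬ p ∣ co 2 G1 := fun p hp => by rwa [hP', mem_filter] at hp
  have H := lln_var (P := P') (s := s) (th := th) (N0 := (M + 2) / 3) (N1 := (M + 1) / 3)
    (fun p hp => hP p (hm p hp).1) ht (by omega) (by omega) (a := co 2 G1)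
    (fun p hp => (hm p hp).2) fun v => (co 0 G1 - co 1 G1 * v) * b2
  rw [← hD'] at H
  have cB : ((box k ((M + 1) / 3) ×ˢ box k ((M + 2) / 3)).card : ℝ) =
      qq k ^ ((M + 1) / 3) * qq k ^ ((M + 2) / 3) := by
    rw [card_product, Nat.cast_mul, card_box, card_box]
  rw [← cB] at H ⊢
  have e2 : ∀ (v : k[X]) (b : k[X] × k[X]), (P.filter fun p => ¬ p ∣ co 2 G1 ∧
      p ∣ llnW v G1 (Phi b.2 b.1 b2)) = P'.filter fun p =>
        p ∣ (co 0 G1 - co 1 G1 * v) * b2 + co 2 G1 * v * b.1 - co 2 G1 * b.2 := fun v b => by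
    rw [hP', filter_filter, llnW, co0_Phi, co1_Phi, co2_Phi]
    exact filter_congr fun p _ => and_congr_right fun _ => by
      rw [show (co 0 G1 - co 1 G1 * v) * b2 - co 2 G1 * (b.2 - b.1 * v) =
        (co 0 G1 - co 1 G1 * v) * b2 + co 2 G1 * v * b.1 - co 2 G1 * b.2 by ring]
  simp only [e2]
  have e3 : ∀ S : ℝ, (1 - S / D) ^ 2 ≤ 2 / D ^ 2 * (S - D') ^ 2 + 2 * e ^ 2 := fun S => by
    have : 2 / D ^ 2 * (S - D') ^ 2 = 2 * (S / D - (1 - e)) ^ 2 := by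
      rw [e1]
      field_simp
    rw [this]
    nlinarith [sq_nonneg (S / D - 1 + 2 * e)]
  refine (sum_le_sum fun b _ => e3 _).trans ?_
  rw [sum_add_distrib, ← mul_sum, sum_const, nsmul_eq_mul, mul_add]
  refine add_le_add ?_ le_rfl
  have d1 : D' ≤ D := by nlinarith [mul_nonneg D0.le e0]
  calc _ ≤ 2 / D ^ 2 * (D * (box k ((M + 1) / 3) ×ˢ box k ((M + 2) / 3)).card) :=
        mul_le_mul_of_nonneg_left (H.trans (by gcongr)) (by positivity)
    _ = _ := by field_simp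

/-- LLN -/
theorem lln {P : Finset k[X]} {s th M : ℕ}
    (hP : ∀ p ∈ P, p.Monic ∧ Irreducible p ∧ p.natDegree = s) (hne : P.Nonempty) (ht : th ≤ s)
    (h0 : 2 * s ≤ M / 3) :
    ∑ G ∈ box k M ×ˢ box k M, (1 - (∑ v ∈ mon k th,
      ((P.filter fun p => ¬ p ∣ co 2 G.1 ∧ p ∣ llnW v G.1 G.2).card : ℝ)) /
        (qq k ^ th * (P.card / qq k ^ s))) ^ 2 ≤
      2 * qq k ^ (2 * M) * (1 / (qq k ^ th * (P.card / qq k ^ s)) + ((M : ℝ) / P.card) ^ 2 +
        1 / qq k ^ (M / 3)) := by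
  have q0 : 0 < qq k := by linarith [two_le_qq (k := k)]
  have P0 : (0 : ℝ) < P.card := Nat.cast_pos.2 hne.card_pos
  rw [sum_product]
  refine (sum_le_sum fun G1 _ => lln_row hP hne ht h0 G1).trans ?_
  have h1 : ∀ G1 ∈ box k M, (((P.filter fun p => p ∣ co 2 G1).card : ℝ) / P.card) ^ 2 ≤
      ((M : ℝ) / P.card) ^ 2 + if co 2 G1 = 0 then 1 else 0 := fun G1 hG => by
    split_ifs with h
    · have : (((P.filter fun p => p ∣ co 2 G1).card : ℝ) / P.card) ^ 2 ≤ 1 :=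
        pow_le_one₀ (by positivity) ((div_le_one P0).2 (by exact_mod_cast card_filter_le _ _))
      linarith [sq_nonneg ((M : ℝ) / P.card)]
    · rw [add_zero]
      have h2 := lln_few (P := P) (fun p hp => ⟨(hP p hp).1, (hP p hp).2.1⟩) h
      have h3 := (natDegree_lt_iff_degree_lt h).2
        (mem_box.1 (Phi_mem_box.1 ((Phi_co G1).symm ▸ hG)).2.2)
      gcongr
      omega
  have hs : M - M / 3 = (M + 2) / 3 + (M + 1) / 3 :=
    Nat.sub_eq_of_eq_add (by clear h0 ht; omega)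
  have h2 : ∑ G1 ∈ box k M, (if co 2 G1 = 0 then (1 : ℝ) else 0) ≤
      qq k ^ M / qq k ^ (M / 3) := by
    rw [sum_box_Phi, ← lln_div (Nat.div_le_self _ _), hs, pow_add, ← card_box, ← card_box, ← nsmul_eq_mul]
    refine sum_le_card_nsmul _ _ _ fun a0 _ => ?_
    rw [← mul_one ((box k ((M + 1) / 3)).card : ℝ), ← nsmul_eq_mul]
    refine sum_le_card_nsmul _ _ _ fun a1 _ => ?_
    simp only [co2_Phi, sum_ite_eq']
    split_ifs <;> norm_num
  rw [← mul_sum, sum_add_distrib, ← mul_sum, sum_const, nsmul_eq_mul, card_box]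
  have h3 := (sum_le_sum h1).trans (by rw [sum_add_distrib, sum_const, nsmul_eq_mul, card_box] :
    _ ≤ qq k ^ M * ((M : ℝ) / P.card) ^ 2 + ∑ G1 ∈ box k M, if co 2 G1 = 0 then (1 : ℝ) else 0)
  calc _ ≤ qq k ^ M * (qq k ^ M * (2 / (qq k ^ th * (P.card / qq k ^ s))) +
        2 * (qq k ^ M * ((M : ℝ) / P.card) ^ 2 + qq k ^ M / qq k ^ (M / 3))) := by
        gcongr
        linarith
    _ = _ := by rw [two_mul M, pow_add]; ring

end CL3

namespace CL3.T2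

variable {k : Type*} [Field k] [Fintype k]

variable [CharP k 3]

theorem wv_nonneg (s0 : ℕ) (v G1 G2 : k[X]) : 0 ≤ wv s0 v G1 G2 := Nat.cast_nonneg _

theorem wv_le_pow (s0 : ℕ) (v G1 G2 : k[X]) : wv s0 v G1 G2 ≤ qq k ^ s0 :=
  (Nat.cast_le.2 (card_filter_le _ _)).trans (card_irr_le s0)

theorem wv_le_deg {s0 : ℕ} (hs : 1 ≤ s0) {v G1 G2 : k[X]} (hw : ww v G1 G2 ≠ 0) :
    wv s0 v G1 G2 ≤ (ww v G1 G2).natDegree :=
  Nat.cast_le.2 (((card_le_card (monotone_filter_right _ fun _ _ h => h.2)).trans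
    (Nat.le_mul_of_pos_left _ hs)).trans (card_irr_dvd hw))

theorem t67_sq (s : ℕ) : s ^ 2 ≤ 3 ^ s := by
  induction s with
  | zero => simp
  | succ s ih =>
    have := Nat.lt_pow_self (n := s) (by norm_num : 1 < 3)
    rw [pow_succ 3]
    nlinarith

theorem lln {M' θ s0 : ℕ} (h1 : 1 ≤ θ) (h2 : θ ≤ s0) (h3 : 2 * s0 ≤ M' / 3) :
    ∑ G ∈ box k M' ×ˢ box k M', (1 - om θ s0 G.1 G.2) ^ 2 ≤
      30 * (M' : ℝ) ^ 2 * qq k ^ (2 * M') / qq k ^ θ := by
  have q3 := three_le_qq (k := k)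
  have q0 : 0 < qq k := by linarith
  have hl := irr_lower (k := k) (h1.trans h2)
  have s0' : (1 : ℝ) ≤ s0 := by exact_mod_cast h1.trans h2
  have P0 : (0 : ℝ) < (irr k s0).card := by
    by_contra h
    nlinarith [pow_pos q0 s0, not_lt.1 h]
  refine (CL3.lln (P := irr k s0) (fun p hp => ⟨(mem_irr.1 hp).1, (mem_irr.1 hp).2.2,
    (mem_irr.1 hp).2.1⟩) (card_pos.1 (Nat.cast_pos.1 P0)) h2 h3).trans ?_
  have hM : 6 * (s0 : ℝ) ≤ M' := by exact_mod_cast (by omega : 6 * s0 ≤ M')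
  have e1 : qq k ^ θ ≤ qq k ^ s0 := pow_le_pow_right₀ (by linarith) h2
  have e2 : qq k ^ θ ≤ qq k ^ (M' / 3) := pow_le_pow_right₀ (by linarith) (by omega)
  have e3 : (s0 : ℝ) ^ 2 ≤ qq k ^ s0 :=
    (by exact_mod_cast t67_sq s0 : (s0 : ℝ) ^ 2 ≤ 3 ^ s0).trans (by gcongr)
  have a1 : 1 / (qq k ^ θ * ((irr k s0).card / qq k ^ s0)) ≤ (M' : ℝ) ^ 2 / qq k ^ θ := by
    rw [mul_comm, ← div_div]
    gcongr
    rw [one_div_div, div_le_iff₀ P0]
    exact hl.trans (by gcongr; nlinarith)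
  have a2 : ((M' : ℝ) / (irr k s0).card) ^ 2 ≤ 9 * ((M' : ℝ) ^ 2 / qq k ^ θ) := by
    rw [div_pow, ← mul_div_assoc, div_le_div_iff₀ (by positivity) (by positivity), mul_comm 9,
      mul_assoc]
    gcongr
    have b1 : (qq k ^ s0) ^ 2 ≤ (3 * s0 * ((irr k s0).card : ℝ)) ^ 2 := by gcongr
    have b2 : qq k ^ s0 * qq k ^ s0 ≤ qq k ^ s0 * (9 * ((irr k s0).card : ℝ) ^ 2) := by
      nlinarith [mul_le_mul_of_nonneg_right e3 (sq_nonneg ((irr k s0).card : ℝ))]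
    exact e1.trans (le_of_mul_le_mul_left b2 (pow_pos q0 _))
  have a3 : 1 / qq k ^ (M' / 3) ≤ (M' : ℝ) ^ 2 / qq k ^ θ := by
    gcongr
    nlinarith
  have z : 0 ≤ qq k ^ (2 * M') * ((M' : ℝ) ^ 2 / qq k ^ θ) := by positivity
  calc _ ≤ 2 * qq k ^ (2 * M') * ((M' : ℝ) ^ 2 / qq k ^ θ + 9 * ((M' : ℝ) ^ 2 / qq k ^ θ) +
        (M' : ℝ) ^ 2 / qq k ^ θ) := by gcongr
    _ = 22 * (qq k ^ (2 * M') * ((M' : ℝ) ^ 2 / qq k ^ θ)) := by ring
    _ ≤ 30 * (qq k ^ (2 * M') * ((M' : ℝ) ^ 2 / qq k ^ θ)) := by linarith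
    _ = _ := by ring

end CL3.T2

end
end

-- part H86T.Pln
section

/-! h86t: row Pln. Sum over the good pairs of one direction. -/

set_option autoImplicit false
open Polynomial Finset UniqueFactorizationMonoid Filter Topology CL5
open scoped Classical

noncomputable section
namespace CL3.T2

variable {k : Type*} [Field k] [Fintype k]

theorem t35_mul_mem {M y : ℕ} {H g : k[X]} (hH : H.natDegree = y) (hg : g ∈ box k M) :
    H * g ∈ box k (M + y) := by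
  by_cases h0 : H * g = 0
  · rw [h0, mem_box, degree_zero]; exact WithBot.bot_lt_coe _
  · have hg0 : g ≠ 0 := right_ne_zero_of_mul h0
    rw [mem_box, ← natDegree_lt_iff_degree_lt hg0] at hg
    rw [mem_box, ← natDegree_lt_iff_degree_lt h0]
    have := natDegree_mul_le (p := H) (q := g)
    omega

variable [CharP k 3]

/-- one plane -/
theorem t35_plane {n l y : ℕ} {H1 H2 : k[X]} {τ : ℝ} (hP : Par n l y H1 H2 τ) {v g1 g2 : k[X]}
    (hv : v ∈ mon k (620 * l)) (hg1 : g1 ∈ box k (n / 2)) (hg2 : g2 ∈ box k (n / 2)) :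
    |∑ s ∈ box k (n / 2 / 3 - (1241 * l + 6)) ×ˢ box k (n / 2 / 3 - (1241 * l + 6)),
      (if GoodV (n / 2 + y) (620 * l) (620 * l) (3100 * l) H1 H2 v (H1 * pl H1 v g1 s.1)
          (H2 * pl H2 v g2 s.2) then
        De (n - y) (n / 2 - (620 * l + 3)) H1 H2 v (pl H1 v g1 s.1) (pl H2 v g2 s.2) *
          wv (29000 * l) v (H1 * pl H1 v g1 s.1) (H2 * pl H2 v g2 s.2) else 0)| ≤
      2 * (n : ℝ) * τ ^ 2 * qq k ^ (2 * (n / 2 / 3 - (1241 * l + 6))) / qq k ^ (5 * l) := by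
  have hq : (0 : ℝ) < qq k := by linarith [two_le_qq (k := k)]
  have hτ : 0 ≤ τ := by linarith [hP.tau.1]
  have hlo := hP.lo
  have hbig := hP.big
  have hy := hP.hy
  have hpos : 0 ≤ 2 * (n : ℝ) * τ ^ 2 * qq k ^ (2 * (n / 2 / 3 - (1241 * l + 6))) /
      qq k ^ (5 * l) := by positivity
  set S := box k (n / 2 / 3 - (1241 * l + 6)) ×ˢ box k (n / 2 / 3 - (1241 * l + 6)) with hS
  by_cases hL : Long (n / 2 + y) (620 * l) (620 * l) v (H1 * g1) (H2 * g2)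
  swap
  · rw [sum_eq_zero, abs_zero]
    · exact hpos
    · intro s _
      rw [if_neg]
      intro h
      apply hL
      have := h.1
      unfold Long at this ⊢
      rwa [pl_ww] at this
  by_cases hw0 : wv (29000 * l) v (H1 * g1) (H2 * g2) = 0
  · rw [sum_eq_zero, abs_zero]
    · exact hpos
    · intro s _
      rw [pl_wv, hw0, mul_zero, ite_self]
  obtain ⟨p0, hp0⟩ : ((irr k (29000 * l)).filter fun p =>
      ¬ p ∣ co 2 (H1 * g1) ∧ p ∣ ww v (H1 * g1) (H2 * g2)).Nonempty := by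
    rw [← card_pos]
    unfold wv at hw0
    exact Nat.pos_of_ne_zero (by exact_mod_cast hw0)
  rw [mem_filter] at hp0
  have hw : ww v (H1 * g1) (H2 * g2) ≠ 0 := hL.1
  have hdeg := ww_deg (t35_mul_mem hP.d1 hg1) (t35_mul_mem hP.d2 hg2) hv (by omega) hw
  have hwn : wv (29000 * l) v (H1 * g1) (H2 * g2) ≤ n := by
    refine (wv_le_deg (by omega) hw).trans ?_
    exact_mod_cast (by omega : (ww v (H1 * g1) (H2 * g2)).natDegree ≤ n)
  have hdv : ((dv (ww v (H1 * g1) (H2 * g2))).card : ℝ) ≤ τ := hP.tau.2 _ hw (by omega)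
  set T := (dv (ww v (H1 * g1) (H2 * g2))).filter fun R0 => R0.natDegree ≤ 3100 * l with hT
  have hTc : (T.card : ℝ) ≤ τ :=
    le_trans (by exact_mod_cast card_filter_le _ _) hdv
  have key : ∑ s ∈ S,
      (if GoodV (n / 2 + y) (620 * l) (620 * l) (3100 * l) H1 H2 v (H1 * pl H1 v g1 s.1)
          (H2 * pl H2 v g2 s.2) then
        De (n - y) (n / 2 - (620 * l + 3)) H1 H2 v (pl H1 v g1 s.1) (pl H2 v g2 s.2) *
          wv (29000 * l) v (H1 * pl H1 v g1 s.1) (H2 * pl H2 v g2 s.2) else 0) =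
      (∑ R0 ∈ T, ∑ s ∈ S.filter
        (fun s => RR H1 H2 v (H1 * pl H1 v g1 s.1) (H2 * pl H2 v g2 s.2) = R0),
        De (n - y) (n / 2 - (620 * l + 3)) H1 H2 v (pl H1 v g1 s.1) (pl H2 v g2 s.2)) *
        wv (29000 * l) v (H1 * g1) (H2 * g2) := by
    rw [sum_fiberwise_eq_sum_filter, sum_filter, sum_mul]
    refine sum_congr rfl fun s _ => ?_
    have hiff : GoodV (n / 2 + y) (620 * l) (620 * l) (3100 * l) H1 H2 v (H1 * pl H1 v g1 s.1)
        (H2 * pl H2 v g2 s.2) ↔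
        RR H1 H2 v (H1 * pl H1 v g1 s.1) (H2 * pl H2 v g2 s.2) ∈ T := by
      rw [hT, mem_filter]
      constructor
      · intro h
        refine ⟨?_, h.2⟩
        unfold RR
        rw [pl_ww]
        exact (fac hw _ _).2.2.2.2.2.1
      · intro h
        refine ⟨?_, h.2⟩
        unfold Long at hL ⊢
        rwa [pl_ww]
    rw [pl_wv]
    by_cases h : RR H1 H2 v (H1 * pl H1 v g1 s.1) (H2 * pl H2 v g2 s.2) ∈ T
    · rw [if_pos (hiff.2 h), if_pos h]
    · rw [if_neg (fun h' => h (hiff.1 h')), if_neg h, zero_mul]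
  rw [key, abs_mul, abs_of_nonneg (wv_nonneg _ _ _ _)]
  have hin : |∑ R0 ∈ T, ∑ s ∈ S.filter
        (fun s => RR H1 H2 v (H1 * pl H1 v g1 s.1) (H2 * pl H2 v g2 s.2) = R0),
        De (n - y) (n / 2 - (620 * l + 3)) H1 H2 v (pl H1 v g1 s.1) (pl H2 v g2 s.2)| ≤
      τ * (2 * τ * qq k ^ (2 * (n / 2 / 3 - (1241 * l + 6))) / qq k ^ (5 * l)) := by
    refine (abs_sum_le_sum_abs _ _).trans ?_
    refine (sum_le_card_nsmul _ _
      (2 * τ * qq k ^ (2 * (n / 2 / 3 - (1241 * l + 6))) / qq k ^ (5 * l)) ?_).trans ?_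
    · intro R0 hR0
      exact eq_plane hP hv hg1 hg2 hL hp0.1 hp0.2.2 (mem_filter.1 hR0).2
    · rw [nsmul_eq_mul]
      exact mul_le_mul_of_nonneg_right hTc (by positivity)
  calc _ ≤ (τ * (2 * τ * qq k ^ (2 * (n / 2 / 3 - (1241 * l + 6))) / qq k ^ (5 * l))) * n :=
        mul_le_mul hin hwn (wv_nonneg _ _ _ _) (by positivity)
    _ = _ := by ring

theorem pln {n l y : ℕ} {H1 H2 : k[X]} {τ : ℝ} (hP : Par n l y H1 H2 τ) {v : k[X]} (hv : v ∈ mon k (620 * l)) :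
    |∑ g ∈ (box k (n / 2) ×ˢ box k (n / 2)).filter
        (fun g => GoodV (n / 2 + y) (620 * l) (620 * l) (3100 * l) H1 H2 v (H1 * g.1) (H2 * g.2)),
      De (n - y) (n / 2 - (620 * l + 3)) H1 H2 v g.1 g.2 * wv (29000 * l) v (H1 * g.1) (H2 * g.2)| ≤
      2 * (n : ℝ) * τ ^ 2 * qq k ^ n / qq k ^ (5 * l) := by
  have hq1 : (1 : ℝ) ≤ qq k := by linarith [two_le_qq (k := k)]
  have hq : (0 : ℝ) < qq k := by linarith
  have hτ : 0 ≤ τ := by linarith [hP.tau.1]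
  have hlo := hP.lo
  have hbig := hP.big
  have hy := hP.hy
  have hav := avg_plane (y := y) (θ := 620 * l) (N := n / 2 / 3 - (1241 * l + 6)) (M := n / 2)
    hP.d1.le hP.d2.le hv (by omega) (by omega)
    (fun g1 g2 => if GoodV (n / 2 + y) (620 * l) (620 * l) (3100 * l) H1 H2 v (H1 * g1) (H2 * g2)
      then De (n - y) (n / 2 - (620 * l + 3)) H1 H2 v g1 g2 * wv (29000 * l) v (H1 * g1) (H2 * g2)
      else 0)
  rw [sum_filter]
  have hN : (0 : ℝ) < qq k ^ (2 * (n / 2 / 3 - (1241 * l + 6))) := by positivity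
  refine le_of_mul_le_mul_left ?_ hN
  rw [← abs_of_pos hN, ← abs_mul, hav, abs_of_pos hN]
  refine (abs_sum_le_sum_abs _ _).trans ?_
  refine (sum_le_card_nsmul _ _ _ fun g hg =>
    t35_plane hP hv (mem_product.1 hg).1 (mem_product.1 hg).2).trans ?_
  have hc : ((box k (n / 2) ×ˢ box k (n / 2)).card : ℝ) ≤ qq k ^ n := by
    rw [card_product, Nat.cast_mul, card_box, ← pow_add]
    exact pow_le_pow_right₀ hq1 (by omega)
  rw [nsmul_eq_mul]
  calc _ ≤ qq k ^ n * (2 * (n : ℝ) * τ ^ 2 * qq k ^ (2 * (n / 2 / 3 - (1241 * l + 6))) /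
        qq k ^ (5 * l)) := mul_le_mul_of_nonneg_right hc (by positivity)
    _ = _ := by ring

end CL3.T2

end
end

-- part H86T.Badq
section

/-! h86t: row Badq. The new exceptional case of the tail lemma. -/

set_option autoImplicit false
open Polynomial Finset UniqueFactorizationMonoid Filter Topology CL5
open scoped Classical

noncomputable section
namespace CL3.T2

variable {k : Type*} [Field k] [Fintype k]

theorem t24_mem_dv {w d : k[X]} (hw : w ≠ 0) : d ∈ dv w ↔ d.Monic ∧ d ∣ w := by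
  refine mem_filter.trans ⟨And.right, fun h => ⟨mem_box.2 ?_, h⟩⟩
  exact (natDegree_lt_iff_degree_lt h.1.ne_zero).1 (Nat.lt_succ_of_le (natDegree_le_of_dvd h.2 hw))

theorem t24_biUnion {α β : Type*} [DecidableEq β] (A : Finset α) (f : α → Finset β) {a c : ℝ} (hc : 0 ≤ c)
    (hA : (A.card : ℝ) ≤ a) (h : ∀ x ∈ A, ((f x).card : ℝ) ≤ c) :
    ((A.biUnion f).card : ℝ) ≤ a * c := by
  have h1 : ((A.biUnion f).card : ℝ) ≤ ∑ x ∈ A, ((f x).card : ℝ) := by
    exact_mod_cast card_biUnion_le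
  refine h1.trans ((sum_le_card_nsmul _ _ _ h).trans ?_)
  rw [nsmul_eq_mul]
  exact mul_le_mul_of_nonneg_right hA hc

/-- one class modulo `D` in a box -/
theorem t24_class {D : k[X]} {N t : ℕ} (hD : D ≠ 0) (h1 : t ≤ D.natDegree) (T : Finset k[X])
    (hT : ∀ x ∈ T, x ∈ box k N) (h : ∀ x ∈ T, ∀ x' ∈ T, D ∣ x - x') :
    (T.card : ℝ) ≤ qq k ^ (N - t) := by
  have hq : 1 ≤ qq k := by linarith [two_le_qq (k := k)]
  rcases T.eq_empty_or_nonempty with rfl | ⟨x, hx⟩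
  · rw [card_empty, Nat.cast_zero]
    positivity
  by_cases h2 : D.natDegree ≤ N
  · refine le_trans ?_ ((card_box_class hD h2 x).le.trans (pow_le_pow_right₀ hq (by omega)))
    exact_mod_cast card_le_card fun z hz => mem_filter.2 ⟨hT z hz, h z hz x hx⟩
  · refine le_trans ?_ (one_le_pow₀ hq)
    refine Nat.cast_le_one.2 (card_le_one.2 fun a ha b hb => sub_eq_zero.1
      (eq_zero_of_dvd_of_degree_lt (h a ha b hb) ?_))
    refine ((degree_sub_le a b).trans_lt (max_lt (mem_box.1 (hT a ha)) (mem_box.1 (hT b hb)))).trans ?_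
    rw [degree_eq_natDegree hD]
    exact_mod_cast not_le.1 h2

/-- square roots modulo a squarefree `D` -/
theorem t24_roots {D H c : k[X]} {N t : ℕ} {τ : ℝ} (hD : D.Monic) (hs : Squarefree D)
    (hH : IsCoprime D H) (h1 : t ≤ D.natDegree) (hτ : ((dv D).card : ℝ) ≤ τ) :
    (((box k N).filter fun x => D ∣ c - H * x ^ 2).card : ℝ) ≤ τ * qq k ^ (N - t) := by
  have hq : 0 < qq k := by linarith [two_le_qq (k := k)]
  rcases ((box k N).filter fun x => D ∣ c - H * x ^ 2).eq_empty_or_nonempty with h | ⟨z, hz⟩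
  · rw [h, card_empty, Nat.cast_zero]
    exact mul_nonneg ((Nat.cast_nonneg _).trans hτ) (by positivity)
  refine le_trans ?_ (t24_biUnion (dv D) (fun D1 => (box k N).filter fun x =>
    ∃ D2, D = D1 * D2 ∧ D1 ∣ x - z ∧ D2 ∣ x + z) (by positivity) hτ fun D1 h =>
      t24_class hD.ne_zero h1 _ (fun x hx => (mem_filter.1 hx).1) fun x hx x' hx' => ?_)
  · refine Nat.cast_le.2 (card_le_card fun x hx => ?_)
    have h2 : D ∣ H * ((x - z) * (x + z)) := by
      rw [show H * ((x - z) * (x + z)) = c - H * z ^ 2 - (c - H * x ^ 2) by ring]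
      exact (mem_filter.1 hz).2.sub (mem_filter.1 hx).2
    obtain ⟨a, b, h3, h4, h5⟩ := exists_dvd_and_dvd_of_dvd_mul (hH.dvd_of_dvd_mul_left h2)
    have a0 : a ≠ 0 := left_ne_zero_of_mul (h5 ▸ hD.ne_zero)
    obtain ⟨u, hu⟩ := normalize_associated a
    refine mem_biUnion.2 ⟨normalize a, (t24_mem_dv hD.ne_zero).2 ⟨monic_normalize a0,
      normalize_dvd_iff.2 ⟨b, h5⟩⟩, mem_filter.2 ⟨(mem_filter.1 hx).1, u * b, ?_,
        normalize_dvd_iff.2 h3, Units.mul_left_dvd.2 h4⟩⟩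
    rw [← mul_assoc, hu, h5]
  · obtain ⟨a, a1, a2, a3⟩ := (mem_filter.1 hx).2
    obtain ⟨b, b1, b2, b3⟩ := (mem_filter.1 hx').2
    obtain rfl : a = b :=
      mul_left_cancel₀ (left_ne_zero_of_mul (a1 ▸ hD.ne_zero)) (a1.symm.trans b1)
    rw [a1] at hs ⊢
    refine (IsRelPrime.of_squarefree_mul hs).mul_dvd ?_ ?_
    · simpa using a2.sub b2
    · simpa using a3.sub b3

theorem t24_cols {γ : Type*} (g : k[X] → k[X] → k[X] → k[X] → γ) (W : Finset γ) {H1 H2 : k[X]}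
    {a b t B y : ℕ} {τ : ℝ} (han : Aniso H1 H2) (d1 : H1.natDegree ≤ y) (d2 : H2.natDegree ≤ y)
    (hτ : Tau k B τ) (hB : y + 2 * a ≤ B) (ht : t ≤ b + 1)
    (hW : ∀ w ∈ W, ∃ s ∈ box k (a + 1), ∃ r ∈ box k (a + 1), ∃ s' ∈ box k (b + 1),
      ∃ r' ∈ box k (b + 1), w = g s r s' r' ∧ ¬ (s = 0 ∧ r = 0) ∧ ∃ D : k[X], D.Monic ∧
        Squarefree D ∧ IsCoprime D H1 ∧ t ≤ D.natDegree ∧ D ∣ H2 * s ^ 2 - H1 * r ^ 2 ∧
          D ∣ H2 * s' ^ 2 - H1 * r' ^ 2) :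
    (W.card : ℝ) ≤ τ ^ 2 * qq k ^ (2 * (a + b + 2)) / qq k ^ t := by
  have hq : 0 < qq k := by linarith [two_le_qq (k := k)]
  have τ0 : 0 ≤ τ := zero_le_one.trans hτ.1
  have hd : ∀ {H s : k[X]}, H.natDegree ≤ y → s ∈ box k (a + 1) → (H * s ^ 2).natDegree ≤ B :=
    fun {H s} h hs => by
      have h1 : s.natDegree ≤ a := by
        by_cases h0 : s = 0
        · simp [h0]
        · exact Nat.lt_succ_iff.1 ((natDegree_lt_iff_degree_lt h0).2 (mem_box.1 hs))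
      have h2 := natDegree_mul_le (p := H) (q := s ^ 2)
      have h3 := natDegree_pow_le (p := s) (n := 2)
      omega
  have key := t24_biUnion (((box k (a + 1) ×ˢ box k (a + 1)).filter fun c => ¬ (c.1 = 0 ∧ c.2 = 0)))
    (fun c => ((dv (H2 * c.1 ^ 2 - H1 * c.2 ^ 2)).filter fun D => Squarefree D ∧ IsCoprime D H1 ∧
      t ≤ D.natDegree).biUnion fun D => (box k (b + 1)).biUnion fun s' =>
        ((box k (b + 1)).filter fun x => D ∣ H2 * s' ^ 2 - H1 * x ^ 2).image (g c.1 c.2 s'))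
    (a := qq k ^ (a + 1) * qq k ^ (a + 1))
    (c := τ * (qq k ^ (b + 1) * (τ * qq k ^ (b + 1 - t)))) (by positivity)
    (by
      rw [← card_box, ← Nat.cast_mul, ← card_product]
      exact_mod_cast card_filter_le _ _)
    (fun c hc => by
      obtain ⟨c1, c2⟩ := mem_filter.1 hc
      have q0 : H2 * c.1 ^ 2 - H1 * c.2 ^ 2 ≠ 0 := fun h => c2 (han _ _ (sub_eq_zero.1 h))
      have q1 : (H2 * c.1 ^ 2 - H1 * c.2 ^ 2).natDegree ≤ B := (natDegree_sub_le _ _).trans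
        (max_le (hd d2 (mem_product.1 c1).1) (hd d1 (mem_product.1 c1).2))
      refine t24_biUnion _ _ (by positivity)
        ((Nat.cast_le.2 (card_filter_le _ _)).trans (hτ.2 _ q0 q1)) fun D hD => ?_
      obtain ⟨e1, e2, e3, e4⟩ := mem_filter.1 hD
      obtain ⟨e5, e6⟩ := (t24_mem_dv q0).1 e1
      exact t24_biUnion _ _ (by positivity) (card_box _).le fun s' _ =>
        (Nat.cast_le.2 card_image_le).trans (t24_roots e5 e2 e3 e4
          (hτ.2 _ e5.ne_zero ((natDegree_le_of_dvd e6 q0).trans q1))))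
  refine le_trans (Nat.cast_le.2 (card_le_card fun w hw => ?_)) (key.trans_eq ?_)
  · obtain ⟨s, h1, r, h2, s', h3, r', h4, rfl, h5, D, e1, e2, e3, e4, e5, e6⟩ := hW w hw
    exact mem_biUnion.2 ⟨(s, r), mem_filter.2 ⟨mem_product.2 ⟨h1, h2⟩, h5⟩, mem_biUnion.2 ⟨D,
      mem_filter.2 ⟨(t24_mem_dv fun h => h5 (han _ _ (sub_eq_zero.1 h))).2 ⟨e1, e5⟩, e2, e3, e4⟩,
        mem_biUnion.2 ⟨s', h3, mem_image.2 ⟨r', mem_filter.2 ⟨h4, e6⟩, rfl⟩⟩⟩⟩
  · rw [pow_sub₀ _ hq.ne' ht]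
    field_simp
    ring

theorem card_badQ {H1 H2 : k[X]} {i1 i2 tq B y : ℕ} {τ : ℝ} (han : Aniso H1 H2)
    (d1 : H1.natDegree ≤ y) (d2 : H2.natDegree ≤ y) (hτ : Tau k B τ)
    (hB : y + 2 * (i1 + i2) ≤ B) (ht : 2 * tq ≤ i1 + i2) :
    ((BadQ H1 H2 i1 i2 tq).card : ℝ) ≤ τ ^ 2 * qq k ^ (2 * (i1 + i2 + 2)) / qq k ^ tq := by
  rcases le_total i1 i2 with h | h
  · refine t24_cols (fun s r s' r' => ((s, s'), (r, r'))) _ han d1 d2 hτ (by omega) (by omega)
      fun w hw => ?_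
    obtain ⟨h1, h2, h3⟩ := mem_filter.1 hw
    simp only [mem_product] at h1
    exact ⟨_, h1.1.1, _, h1.2.1, _, h1.1.2, _, h1.2.2, rfl, fun e => h2 (by simp [e.1, e.2]), h3⟩
  · rw [add_comm i1]
    refine t24_cols (fun s r s' r' => ((s', s), (r', r))) _ han d1 d2 hτ (by omega) (by omega)
      fun w hw => ?_
    obtain ⟨h1, h2, D, e1, e2, e3, e4, e5, e6⟩ := mem_filter.1 hw
    simp only [mem_product] at h1
    exact ⟨_, h1.1.2, _, h1.2.2, _, h1.1.1, _, h1.2.1, rfl, fun e => h2 (by simp [e.1, e.2]),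
      D, e1, e2, e3, e4, e6, e5⟩

end CL3.T2

end
end
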