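import Pool.Agent.MP_d0fd9b_nt.P3.T1
import Pool.Agent.MP_d0fd9b_nt.P3.Q
import Pool.Agent.MP_d0fd9b_nt.P3.M4

-- part H86T.Good1
section

/-! h86t: row Good1. Bad quadruples are rare. -/

set_option autoImplicit false
open Polynomial Finset UniqueFactorizationMonoid Filter Topology CL5
open scoped Classical

noncomputable section
namespace CL3.T2

variable {k : Type*} [Field k] [Fintype k]

theorem t33_det0 {a b t : ℕ} (ht : t ≤ b) (hb : b ≤ a) :
    ((((box k a ×ˢ box k b) ×ˢ (box k a ×ˢ box k b)).filter fun z =>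
      z.1.1 * z.2.2 - z.1.2 * z.2.1 = 0).card : ℝ) ≤
      (5 + 2 * qq k) * qq k ^ (2 * a + 2 * b) / qq k ^ t := by
  have hq := two_le_qq (k := k)
  have hq0 : 0 < qq k := by linarith
  have hqt : 0 < qq k ^ t := pow_pos hq0 t
  have hsub : (((box k a ×ˢ box k b) ×ˢ (box k a ×ˢ box k b)).filter fun z =>
      z.1.1 * z.2.2 - z.1.2 * z.2.1 = 0) ⊆
      ((box k a ×ˢ box k b).filter (goodH t)) ×ˢ (box k a ×ˢ box k b) ∪
      ((box k a ×ˢ box k b) ×ˢ (box k a ×ˢ box k b)).filter (fun z =>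
        z.1.1 ≠ 0 ∧ z.1.2 ≠ 0 ∧ z.1.1 * z.2.2 - z.1.2 * z.2.1 ∈ ({0} : Finset k[X])) := by
    intro z hz
    rw [mem_filter] at hz
    obtain ⟨h1, h2⟩ := hz
    have h3 := mem_product.1 h1
    by_cases z1 : z.1.1 = 0
    · exact mem_union_left _ (mem_product.2 ⟨mem_filter.2 ⟨h3.1, Or.inl z1⟩, h3.2⟩)
    by_cases z2 : z.1.2 = 0
    · exact mem_union_left _ (mem_product.2 ⟨mem_filter.2 ⟨h3.1, Or.inr (Or.inl z2)⟩, h3.2⟩)
    exact mem_union_right _ (mem_filter.2 ⟨h1, z1, z2, mem_singleton.2 h2⟩)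
  have h1 := (card_le_card hsub).trans (card_union_le _ _)
  have h2 : ((_ : ℕ) : ℝ) ≤ ((_ : ℕ) : ℝ) := Nat.cast_le.2 h1
  rw [card_product, card_product] at h2
  push_cast at h2
  rw [card_box, card_box] at h2
  have h3 := card_det_le (k := k) a b t {0}
  rw [card_singleton, Nat.cast_one, mul_one] at h3
  have h4 := good_card_H (k := k) (ht.trans hb) ht
  have h5 : qq k ^ (a + b + t) ≤ qq k ^ (2 * a + 2 * b) / qq k ^ t := by
    rw [le_div_iff₀ hqt, ← pow_add]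
    exact pow_le_pow_right₀ (by linarith) (by omega)
  have h6 : (((box k a ×ˢ box k b).filter (goodH t)).card : ℝ) * (qq k ^ a * qq k ^ b) ≤
      4 * qq k ^ (a + b) / qq k ^ t * (qq k ^ a * qq k ^ b) :=
    mul_le_mul_of_nonneg_right h4 (by positivity)
  have h7 : (5 + 2 * qq k) * qq k ^ (2 * a + 2 * b) / qq k ^ t =
      4 * qq k ^ (a + b) / qq k ^ t * (qq k ^ a * qq k ^ b) +
        (qq k ^ (2 * a + 2 * b) / qq k ^ t + 2 * qq k ^ (2 * a + 2 * b + 1) / qq k ^ t) := by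
    ring
  linarith

/-- a residue class of large modulus in a box -/
theorem t33_class {a t : ℕ} {D : k[X]} (hD : D ≠ 0) (ht : t ≤ D.natDegree) (ha : t ≤ a)
    (c : k[X]) :
    (((box k a).filter fun x => D ∣ x - c).card : ℝ) ≤ qq k ^ a / qq k ^ t := by
  have hq := two_le_qq (k := k)
  have hq0 : 0 < qq k := by linarith
  have hqt : 0 < qq k ^ t := pow_pos hq0 t
  rw [le_div_iff₀ hqt]
  by_cases h : D.natDegree ≤ a
  · rw [card_box_class hD h, ← pow_add]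
    exact pow_le_pow_right₀ (by linarith) (by omega)
  · have h1 : ((box k a).filter fun x => D ∣ x - c).card ≤ 1 := by
      refine card_le_one.2 fun x hx x' hx' => ?_
      rw [mem_filter, mem_box] at hx hx'
      have h2 : D ∣ x - x' := by
        have := dvd_sub hx.2 hx'.2
        rwa [sub_sub_sub_cancel_right] at this
      by_contra hne
      have h3 := natDegree_le_of_dvd h2 (sub_ne_zero.2 hne)
      have h4 : (x - x').degree < a := (degree_sub_le _ _).trans_lt (max_lt hx.1 hx'.1)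
      rw [← natDegree_lt_iff_degree_lt (sub_ne_zero.2 hne)] at h4
      omega
    have h2 : (((box k a).filter fun x => D ∣ x - c).card : ℝ) ≤ 1 := by exact_mod_cast h1
    calc _ ≤ 1 * qq k ^ t := mul_le_mul_of_nonneg_right h2 hqt.le
      _ ≤ _ := by rw [one_mul]; exact pow_le_pow_right₀ (by linarith) ha

/-- solutions of a linear congruence with invertible coefficient -/
theorem t33_lin {a t : ℕ} {D g : k[X]} (hD : D ≠ 0) (ht : t ≤ D.natDegree) (ha : t ≤ a)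
    (hg : IsCoprime D g) (c : k[X]) :
    (((box k a).filter fun x => D ∣ c - g * x).card : ℝ) ≤ qq k ^ a / qq k ^ t := by
  obtain ⟨u, v, huv⟩ := hg
  refine le_trans ?_ (t33_class hD ht ha (v * c))
  refine Nat.cast_le.2 (card_le_card fun x hx => ?_)
  rw [mem_filter] at hx ⊢
  refine ⟨hx.1, ?_⟩
  have h1 : x - v * c = D * (u * x) - v * (c - g * x) := by
    linear_combination (-x) * huv
  rw [h1]
  exact dvd_sub (dvd_mul_right _ _) (hx.2.mul_left _)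

omit [Fintype k] in
theorem t33_deg {E H1 H2 g1 g2 : k[X]} {b y : ℕ} (d1 : H1.natDegree ≤ y) (d2 : H2.natDegree ≤ y)
    (h1 : g1.natDegree ≤ b) (h2 : g2.natDegree ≤ b) :
    (g1 * g2 * (H1 * g2 ^ 2 - H2 * g1 ^ 2) * E).natDegree ≤ 4 * b + y + E.natDegree := by
  have e1 : (H1 * g2 ^ 2).natDegree ≤ y + 2 * b :=
    natDegree_mul_le.trans (add_le_add d1 (natDegree_pow_le.trans (by omega)))
  have e2 : (H2 * g1 ^ 2).natDegree ≤ y + 2 * b :=
    natDegree_mul_le.trans (add_le_add d2 (natDegree_pow_le.trans (by omega)))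
  have e3 : (H1 * g2 ^ 2 - H2 * g1 ^ 2).natDegree ≤ y + 2 * b :=
    (natDegree_sub_le _ _).trans (max_le e1 e2)
  have e4 : (g1 * g2).natDegree ≤ b + b := natDegree_mul_le.trans (add_le_add h1 h2)
  have e5 : (g1 * g2 * (H1 * g2 ^ 2 - H2 * g1 ^ 2)).natDegree ≤ b + b + (y + 2 * b) :=
    natDegree_mul_le.trans (add_le_add e4 e3)
  exact natDegree_mul_le.trans (by omega)

theorem t33_nat {b : ℕ} {g : k[X]} (h : g ∈ box k b) : g.natDegree ≤ b := by
  rw [mem_box] at h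
  exact natDegree_le_iff_degree_le.2 h.le

/-- the last alternative of `Bad4` when the product is not zero -/
theorem t33_last {E H1 H2 : k[X]} {a b t y B : ℕ} {τ : ℝ} (d1 : H1.natDegree ≤ y)
    (d2 : H2.natDegree ≤ y) (hτ : Tau k B τ) (hB : 4 * b + y + E.natDegree ≤ B) (ha : t ≤ a) :
    ((((box k a ×ˢ box k b) ×ˢ (box k a ×ˢ box k b)).filter fun z =>
      z.1.2 * z.2.2 * (H1 * z.2.2 ^ 2 - H2 * z.1.2 ^ 2) * E ≠ 0 ∧
      ∃ D : k[X], D.Monic ∧ t ≤ D.natDegree ∧ IsCoprime D z.1.2 ∧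
        D ∣ z.1.2 * z.2.2 * (H1 * z.2.2 ^ 2 - H2 * z.1.2 ^ 2) * E ∧
        D ∣ z.1.1 * z.2.2 - z.1.2 * z.2.1).card : ℝ) ≤
      τ * qq k ^ (2 * a + 2 * b) / qq k ^ t := by
  have hq := two_le_qq (k := k)
  have hq0 : 0 < qq k := by linarith
  have hqt : 0 < qq k ^ t := pow_pos hq0 t
  have hfib : ∀ u ∈ box k a ×ˢ box k b, ∀ g ∈ box k b,
      (((box k a).filter fun x => u.2 * g * (H1 * g ^ 2 - H2 * u.2 ^ 2) * E ≠ 0 ∧
        ∃ D : k[X], D.Monic ∧ t ≤ D.natDegree ∧ IsCoprime D u.2 ∧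
          D ∣ u.2 * g * (H1 * g ^ 2 - H2 * u.2 ^ 2) * E ∧ D ∣ u.1 * g - u.2 * x).card : ℝ) ≤
        τ * (qq k ^ a / qq k ^ t) := by
    intro u hu g hg
    by_cases hw : u.2 * g * (H1 * g ^ 2 - H2 * u.2 ^ 2) * E = 0
    · rw [filter_eq_empty_iff.2 fun x _ hx => hx.1 hw, card_empty, Nat.cast_zero]
      have := hτ.1
      positivity
    set w := u.2 * g * (H1 * g ^ 2 - H2 * u.2 ^ 2) * E with hwd
    have hdeg : w.natDegree ≤ B :=
      (t33_deg d1 d2 (t33_nat (mem_product.1 hu).2) (t33_nat hg)).trans hB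
    have hsub : ((box k a).filter fun x => w ≠ 0 ∧
        ∃ D : k[X], D.Monic ∧ t ≤ D.natDegree ∧ IsCoprime D u.2 ∧ D ∣ w ∧
          D ∣ u.1 * g - u.2 * x) ⊆
        ((dv w).filter fun D => t ≤ D.natDegree ∧ IsCoprime D u.2).biUnion fun D =>
          (box k a).filter fun x => D ∣ u.1 * g - u.2 * x := by
      intro x hx
      rw [mem_filter] at hx
      obtain ⟨hx, -, D, m, e1, e2, e3, e4⟩ := hx
      exact mem_biUnion.2 ⟨D, mem_filter.2 ⟨(mem_dv hw).2 ⟨m, e3⟩, e1, e2⟩, mem_filter.2 ⟨hx, e4⟩⟩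
    have h1 := (card_le_card hsub).trans card_biUnion_le
    have h2 : ((_ : ℕ) : ℝ) ≤ ((_ : ℕ) : ℝ) := Nat.cast_le.2 h1
    refine h2.trans ?_
    push_cast
    refine (sum_le_card_nsmul _ _ (qq k ^ a / qq k ^ t) fun D hD => ?_).trans ?_
    · rw [mem_filter] at hD
      exact t33_lin ((mem_dv hw).1 hD.1).1.ne_zero hD.2.1 ha hD.2.2 _
    · rw [nsmul_eq_mul]
      refine mul_le_mul_of_nonneg_right (le_trans ?_ (hτ.2 w hw hdeg)) (by positivity)
      exact Nat.cast_le.2 (card_filter_le _ _)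
  rw [card_filter]
  push_cast
  rw [sum_product]
  refine (sum_le_card_nsmul _ _ (qq k ^ b * (τ * (qq k ^ a / qq k ^ t))) fun u hu => ?_).trans ?_
  · rw [sum_product_right]
    refine (sum_le_card_nsmul _ _ (τ * (qq k ^ a / qq k ^ t)) fun g hg => ?_).trans ?_
    · have h := hfib u hu g hg
      rw [card_filter] at h
      push_cast at h
      exact h
    · rw [nsmul_eq_mul, card_box]
  · rw [nsmul_eq_mul, card_product]
    push_cast
    rw [card_box, card_box]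
    exact le_of_eq (by ring)

omit [Fintype k] in
theorem t61_roots {H c : k[X]} (hH : H ≠ 0) (T : Finset k[X]) :
    (T.filter fun g => g = 0 ∨ H * g ^ 2 = c).card ≤ 3 := by
  by_cases h : ∃ g0, H * g0 ^ 2 = c
  · obtain ⟨g0, h0⟩ := h
    refine (card_le_card (t := {0, g0, -g0}) fun g hg => ?_).trans card_le_three
    rcases (mem_filter.1 hg).2 with h1 | h1
    · simp [h1]
    · have h2 : g ^ 2 = g0 ^ 2 := mul_left_cancel₀ hH (h1.trans h0.symm)
      rcases sq_eq_sq_iff_eq_or_eq_neg.1 h2 with h3 | h3 <;> simp [h3]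
  · refine (card_le_card (t := {0}) fun g hg => ?_).trans (by simp)
    rcases (mem_filter.1 hg).2 with h1 | h1
    · simp [h1]
    · exact absurd ⟨g, h1⟩ h

theorem t61_pairs {H1 H2 : k[X]} (h1 : H1 ≠ 0) (b : ℕ) :
    (((box k b ×ˢ box k b).filter fun z =>
      z.1 * z.2 * (H1 * z.2 ^ 2 - H2 * z.1 ^ 2) = 0).card : ℝ) ≤ 4 * qq k ^ b := by
  have hs : ((box k b ×ˢ box k b).filter fun z =>
      z.1 * z.2 * (H1 * z.2 ^ 2 - H2 * z.1 ^ 2) = 0) ⊆
      (({0} : Finset k[X]) ×ˢ box k b) ∪ (box k b).biUnion fun x =>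
        ({x} : Finset k[X]) ×ˢ (box k b).filter fun g => g = 0 ∨ H1 * g ^ 2 = H2 * x ^ 2 := by
    intro z hz
    obtain ⟨hz1, hz2⟩ := mem_filter.1 hz
    obtain ⟨ha, hb⟩ := mem_product.1 hz1
    rw [mem_union, mem_biUnion]
    rcases mul_eq_zero.1 hz2 with h | h
    · rcases mul_eq_zero.1 h with h | h
      · exact Or.inl (mem_product.2 ⟨mem_singleton.2 h, hb⟩)
      · exact Or.inr ⟨z.1, ha, mem_product.2 ⟨mem_singleton_self _, mem_filter.2 ⟨hb, Or.inl h⟩⟩⟩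
    · exact Or.inr ⟨z.1, ha, mem_product.2 ⟨mem_singleton_self _,
        mem_filter.2 ⟨hb, Or.inr (sub_eq_zero.1 h)⟩⟩⟩
  have h2 := (card_le_card hs).trans (card_union_le _ _)
  have h3 : ((box k b).biUnion fun x => ({x} : Finset k[X]) ×ˢ
      (box k b).filter fun g => g = 0 ∨ H1 * g ^ 2 = H2 * x ^ 2).card ≤ (box k b).card * 3 :=
    card_biUnion_le_card_mul _ _ _ fun x _ => by
      rw [card_product, card_singleton, one_mul]
      exact t61_roots h1 _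
  rw [card_product, card_singleton, one_mul] at h2
  have h4 := h2.trans (Nat.add_le_add_left h3 _)
  rw [← card_box]
  have h5 : (box k b).card + (box k b).card * 3 = 4 * (box k b).card := by ring
  rw [h5] at h4
  exact_mod_cast h4

theorem t61_alt6 {E H1 H2 : k[X]} {a b t : ℕ} (hE : E ≠ 0) (h1 : H1 ≠ 0) (ht : t ≤ b) :
    ((((box k a ×ˢ box k b) ×ˢ (box k a ×ˢ box k b)).filter fun z =>
      z.1.2 * z.2.2 * (H1 * z.2.2 ^ 2 - H2 * z.1.2 ^ 2) * E = 0).card : ℝ) ≤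
      4 * qq k ^ (2 * a + 2 * b) / qq k ^ t := by
  have hq : 1 ≤ qq k := by linarith [two_le_qq (k := k)]
  have hq0 : 0 < qq k := by linarith
  have h2 : (((box k a ×ˢ box k b) ×ˢ (box k a ×ˢ box k b)).filter fun z =>
      z.1.2 * z.2.2 * (H1 * z.2.2 ^ 2 - H2 * z.1.2 ^ 2) * E = 0).card ≤
      ((box k a ×ˢ box k a) ×ˢ (box k b ×ˢ box k b).filter fun z =>
        z.1 * z.2 * (H1 * z.2 ^ 2 - H2 * z.1 ^ 2) = 0).card := by
    refine card_le_card_of_injOn (fun z => ((z.1.1, z.2.1), (z.1.2, z.2.2))) (fun z hz => ?_)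
      fun z _ z' _ e => ?_
    · simp only [coe_filter, mem_product, Set.mem_ofPred_eq] at hz
      obtain ⟨⟨⟨ha, hb⟩, hc, hd⟩, he⟩ := hz
      exact mem_coe.2 (mem_product.2 ⟨mem_product.2 ⟨ha, hc⟩, mem_filter.2
        ⟨mem_product.2 ⟨hb, hd⟩, (mul_eq_zero.1 he).resolve_right hE⟩⟩)
    · simp only [Prod.mk.injEq] at e
      exact Prod.ext (Prod.ext e.1.1 e.2.1) (Prod.ext e.1.2 e.2.2)
  have h3 := t61_pairs (H2 := H2) h1 b
  rw [card_product, card_product] at h2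
  have h4 := (Nat.cast_le (α := ℝ)).2 h2
  rw [Nat.cast_mul, Nat.cast_mul, card_box] at h4
  refine h4.trans ((mul_le_mul_of_nonneg_left h3 (by positivity)).trans ?_)
  rw [le_div_iff₀ (by positivity)]
  have h5 : qq k ^ t ≤ qq k ^ b := pow_le_pow_right₀ hq ht
  calc qq k ^ a * qq k ^ a * (4 * qq k ^ b) * qq k ^ t
      ≤ qq k ^ a * qq k ^ a * (4 * qq k ^ b) * qq k ^ b :=
        mul_le_mul_of_nonneg_left h5 (by positivity)
    _ = 4 * qq k ^ (2 * a + 2 * b) := by ring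


theorem card_det0 {a b t : ℕ} (ht : t ≤ b) (hb : b ≤ a) :
    ((((box k a ×ˢ box k b) ×ˢ (box k a ×ˢ box k b)).filter fun z =>
      z.1.1 * z.2.2 - z.1.2 * z.2.1 = 0).card : ℝ) ≤
      (5 + 2 * qq k) * qq k ^ (2 * a + 2 * b) / qq k ^ t := t33_det0 ht hb

theorem t61_sq (N s : ℕ) :
    ((((box k N).erase 0).filter fun w =>
      ∃ h : k[X], h.Monic ∧ s ≤ h.natDegree ∧ h ^ 2 ∣ w).card : ℝ) ≤ 2 * qq k ^ N / qq k ^ s := by
  have h0 := c91_pos (k := k)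
  have h1 : (((box k N).erase 0).filter fun w =>
      ∃ h : k[X], h.Monic ∧ s ≤ h.natDegree ∧ h ^ 2 ∣ w) ⊆ (Ico s N).biUnion fun j =>
        (mon k j).biUnion fun c => ((box k N).erase 0).filter fun u => c ^ 2 ∣ u := by
    intro w hw
    obtain ⟨a1, c, a5, a6, a7⟩ := mem_filter.1 hw
    obtain ⟨a2, a3⟩ := mem_erase.1 a1
    refine mem_biUnion.2 ⟨c.natDegree, mem_Ico.2 ⟨a6, ?_⟩,
      mem_biUnion.2 ⟨c, mem_mon.2 ⟨a5, rfl⟩, mem_filter.2 ⟨a1, a7⟩⟩⟩
    exact (natDegree_le_of_dvd ((dvd_pow_self c two_ne_zero).trans a7) a2).trans_lt (c91_lt a3 a2)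
  have h2 := (card_le_card h1).trans (card_biUnion_le.trans (sum_le_sum fun j _ => card_biUnion_le))
  have h3 := (Nat.cast_le (α := ℝ)).2 h2
  rw [Nat.cast_sum] at h3
  refine h3.trans ?_
  have h4 : ∀ j ∈ Ico s N, ((∑ c ∈ mon k j,
      (((box k N).erase 0).filter fun u => c ^ 2 ∣ u).card : ℕ) : ℝ) ≤
      qq k ^ N * (1 / qq k ^ j) := by
    intro j _
    rw [Nat.cast_sum]
    refine (sum_le_card_nsmul _ _ (qq k ^ N / qq k ^ (2 * j)) fun c hc => ?_).trans ?_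
    · rw [mem_mon] at hc
      have b1 := card_box_dvd_le (N := N) (pow_ne_zero 2 hc.1.ne_zero)
      rwa [nrm, natDegree_pow, hc.2] at b1
    · rw [nsmul_eq_mul, card_mon, two_mul, pow_add]
      apply le_of_eq
      field_simp
  refine (sum_le_sum h4).trans ?_
  rw [← mul_sum]
  refine (mul_le_mul_of_nonneg_left (c91_geom s N) (by positivity)).trans (le_of_eq ?_)
  ring

theorem t61_S {N t : ℕ} (h : 2 * t ≤ N) :
    (((box k N).filter fun w => w = 0 ∨ w.natDegree + 2 * t + 2 < N ∨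
      ∃ h : k[X], h.Monic ∧ 2 * t ≤ h.natDegree ∧ h ^ 2 ∣ w).card : ℝ) ≤
      3 * qq k ^ N / qq k ^ (2 * t) := by
  have h0 := c91_pos (k := k)
  have h1 : ((box k N).filter fun w => w = 0 ∨ w.natDegree + 2 * t + 2 < N ∨
      ∃ h : k[X], h.Monic ∧ 2 * t ≤ h.natDegree ∧ h ^ 2 ∣ w) ⊆ box k (N - 2 * t) ∪
        ((box k N).erase 0).filter fun w =>
          ∃ h : k[X], h.Monic ∧ 2 * t ≤ h.natDegree ∧ h ^ 2 ∣ w := by
    intro w hw
    obtain ⟨a1, a2⟩ := mem_filter.1 hw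
    by_cases w0 : w = 0
    · exact mem_union_left _ (c91_mem fun h => absurd w0 h)
    rcases a2 with a2 | a2 | a2
    · exact absurd a2 w0
    · exact mem_union_left _ (c91_mem fun _ => by omega)
    · exact mem_union_right _ (mem_filter.2 ⟨mem_erase.2 ⟨w0, a1⟩, a2⟩)
  have h2 := (Nat.cast_le (α := ℝ)).2 ((card_le_card h1).trans (card_union_le _ _))
  rw [Nat.cast_add, card_box, pow_sub₀ _ h0.ne' h] at h2
  refine h2.trans ((add_le_add le_rfl (t61_sq N (2 * t))).trans (le_of_eq ?_))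
  field_simp
  ring

theorem card_bad4 : ∃ C : ℝ, 0 < C ∧ ∀ {E H1 H2 : k[X]} {a b t y B : ℕ} {τ : ℝ}, E ≠ 0 → H1 ≠ 0 →
    H1.natDegree ≤ y → H2.natDegree ≤ y → Tau k B τ → 4 * b + y + E.natDegree ≤ B → 1 ≤ t →
    t ≤ b → b ≤ a →
    ((((box k a ×ˢ box k b) ×ˢ (box k a ×ˢ box k b)).filter (Bad4 E H1 H2 a b t)).card : ℝ) ≤
      C * τ * qq k ^ (2 * a + 2 * b) / qq k ^ t := by
  have h0 := c91_pos (k := k)
  refine ⟨16 + 2 * qq k, by positivity, ?_⟩
  intro E H1 H2 a b t y B τ hE h1 d1 d2 hτ hB _ ht hb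
  set Z := (box k a ×ˢ box k b) ×ˢ (box k a ×ˢ box k b) with hZ
  set S := (box k (a + b)).filter fun w => w = 0 ∨ w.natDegree + 2 * t + 2 < a + b ∨
      ∃ h : k[X], h.Monic ∧ 2 * t ≤ h.natDegree ∧ h ^ 2 ∣ w with hS
  have e1 := card_det_le (k := k) a b t S
  have eS := t61_S (k := k) (N := a + b) (t := t) (by omega)
  have e6 := t61_alt6 (a := a) (H2 := H2) hE h1 ht
  have e7 := t33_last (a := a) (t := t) d1 d2 hτ hB (ht.trans hb)
  have e4 := good_card_inj (Z.filter fun z => goodH t (z.1.1, z.1.2))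
    ((box k a ×ˢ box k b).filter (goodH t)) (box k a ×ˢ box k b) id Function.injective_id
    fun z hz => by
      obtain ⟨a1, a2⟩ := mem_filter.1 hz
      exact ⟨mem_filter.2 ⟨(mem_product.1 a1).1, a2⟩, (mem_product.1 a1).2⟩
  have e5 := good_card_inj (Z.filter fun z => goodH t (z.1.2, z.2.2))
    ((box k b ×ˢ box k b).filter (goodH t)) (box k a ×ˢ box k a)
    (fun z => ((z.1.2, z.2.2), (z.1.1, z.2.1)))
    (fun z z' e => by
      simp only [Prod.mk.injEq] at e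
      exact Prod.ext (Prod.ext e.2.1 e.1.1) (Prod.ext e.2.2 e.1.2))
    fun z hz => by
      obtain ⟨a1, a2⟩ := mem_filter.1 hz
      obtain ⟨a3, a4⟩ := mem_product.1 a1
      exact ⟨mem_filter.2 ⟨mem_product.2 ⟨(mem_product.1 a3).2, (mem_product.1 a4).2⟩, a2⟩,
        mem_product.2 ⟨(mem_product.1 a3).1, (mem_product.1 a4).1⟩⟩
  rw [card_product, Nat.cast_mul, card_box, card_box] at e4
  rw [card_product, Nat.cast_mul, card_box] at e5
  have g4 := e4.trans (mul_le_mul_of_nonneg_right (good_card_H (ht.trans hb) ht) (by positivity))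
  have g5 := e5.trans (mul_le_mul_of_nonneg_right (good_card_H ht ht) (by positivity))
  have g1 := e1.trans (add_le_add (mul_le_mul_of_nonneg_left eS (by positivity)) le_rfl)
  have hsub : Z.filter (Bad4 E H1 H2 a b t) ⊆
      (Z.filter fun z => z.1.1 ≠ 0 ∧ z.1.2 ≠ 0 ∧ z.1.1 * z.2.2 - z.1.2 * z.2.1 ∈ S) ∪
      ((Z.filter fun z => goodH t (z.1.1, z.1.2)) ∪ ((Z.filter fun z => goodH t (z.1.2, z.2.2)) ∪
      ((Z.filter fun z => z.1.2 * z.2.2 * (H1 * z.2.2 ^ 2 - H2 * z.1.2 ^ 2) * E = 0) ∪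
      (Z.filter fun z => z.1.2 * z.2.2 * (H1 * z.2.2 ^ 2 - H2 * z.1.2 ^ 2) * E ≠ 0 ∧
        ∃ D : k[X], D.Monic ∧ t ≤ D.natDegree ∧ IsCoprime D z.1.2 ∧
          D ∣ z.1.2 * z.2.2 * (H1 * z.2.2 ^ 2 - H2 * z.1.2 ^ 2) * E ∧
          D ∣ z.1.1 * z.2.2 - z.1.2 * z.2.1)))) := by
    intro z hz
    obtain ⟨a1, a2⟩ := mem_filter.1 hz
    simp only [mem_union, mem_filter, a1, true_and]
    by_cases b4 : goodH t (z.1.1, z.1.2)
    · exact Or.inr (Or.inl b4)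
    by_cases b6 : z.1.2 * z.2.2 * (H1 * z.2.2 ^ 2 - H2 * z.1.2 ^ 2) * E = 0
    · exact Or.inr (Or.inr (Or.inr (Or.inl b6)))
    have c1 : z.1.1 ≠ 0 := fun h => b4 (Or.inl h)
    have c2 : z.1.2 ≠ 0 := fun h => b4 (Or.inr (Or.inl h))
    have c3 : z.1.1 * z.2.2 - z.1.2 * z.2.1 ∈ box k (a + b) := by
      obtain ⟨a3, a4⟩ := mem_product.1 a1
      obtain ⟨m1, m2⟩ := mem_product.1 a3
      obtain ⟨m3, m4⟩ := mem_product.1 a4
      refine c91_sub (c91_mem fun h => ?_) (c91_mem fun h => ?_)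
      · have := c91_lt m1 c1
        have := c91_lt m4 (right_ne_zero_of_mul h)
        have := natDegree_mul_le (p := z.1.1) (q := z.2.2)
        omega
      · have := c91_lt m2 c2
        have := c91_lt m3 (right_ne_zero_of_mul h)
        have := natDegree_mul_le (p := z.1.2) (q := z.2.1)
        omega
    rcases a2 with a2 | a2 | a2 | a2 | a2 | a2 | a2
    · exact Or.inl ⟨c1, c2, mem_filter.2 ⟨c3, Or.inl a2⟩⟩
    · exact Or.inl ⟨c1, c2, mem_filter.2 ⟨c3, Or.inr (Or.inl a2)⟩⟩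
    · exact Or.inl ⟨c1, c2, mem_filter.2 ⟨c3, Or.inr (Or.inr a2)⟩⟩
    · exact absurd a2 b4
    · exact Or.inr (Or.inr (Or.inl a2))
    · exact absurd a2 b6
    · exact Or.inr (Or.inr (Or.inr (Or.inr ⟨b6, a2⟩)))
  have h2 := (Nat.cast_le (α := ℝ)).2 ((card_le_card hsub).trans ((card_union_le _ _).trans
    (Nat.add_le_add_left ((card_union_le _ _).trans (Nat.add_le_add_left
      ((card_union_le _ _).trans (Nat.add_le_add_left (card_union_le _ _) _)) _)) _)))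
  simp only [Nat.cast_add] at h2
  refine h2.trans ((add_le_add g1 (add_le_add g4 (add_le_add g5 (add_le_add e6 e7)))).trans ?_)
  have hP : 0 < qq k ^ (2 * a + 2 * b) / qq k ^ t := by positivity
  have q1 : qq k ^ (a + b + t) * (3 * qq k ^ (a + b) / qq k ^ (2 * t)) +
      2 * qq k ^ (2 * a + 2 * b + 1) / qq k ^ t +
      (4 * qq k ^ (a + b) / qq k ^ t * (qq k ^ a * qq k ^ b) +
      (4 * qq k ^ (b + b) / qq k ^ t * (qq k ^ a * qq k ^ a) +
      (4 * qq k ^ (2 * a + 2 * b) / qq k ^ t + τ * qq k ^ (2 * a + 2 * b) / qq k ^ t))) =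
      (15 + 2 * qq k + τ) * (qq k ^ (2 * a + 2 * b) / qq k ^ t) := by
    field_simp
    ring
  rw [q1, mul_div_assoc]
  refine mul_le_mul_of_nonneg_right ?_ hP.le
  nlinarith [hτ.1]

end CL3.T2

end
end

-- part H86T.Good2
section

/-! h86t: row Good2. Most pairs are good for a given direction. -/

set_option autoImplicit false
open Polynomial Finset UniqueFactorizationMonoid Filter Topology CL5
open scoped Classical

noncomputable section
namespace CL3.T2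

variable {k : Type*} [Field k] [Fintype k]

theorem g67_shift {M t : ℕ} (s : k[X] → k[X] × k[X])
    (hs : ∀ d ∈ box k t, s d ∈ box k M ×ˢ box k M) (E : k[X] × k[X] → Prop) [DecidablePred E]
    {τ : ℝ}
    (h : ∀ G ∈ box k M ×ˢ box k M, (((box k t).filter fun d => E (G + s d)).card : ℝ) ≤ τ) :
    (((box k M ×ˢ box k M).filter E).card : ℝ) ≤ τ * (qq k ^ (2 * M) / qq k ^ t) := by
  have q0 := good_qq_pos (k := k)
  have h1 : ∀ d ∈ box k t, (((box k M ×ˢ box k M).filter E).card : ℝ) ≤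
      ∑ G ∈ box k M ×ˢ box k M, if E (G + s d) then (1 : ℝ) else 0 := fun d hd => by
    rw [sum_boole]
    refine Nat.cast_le.2 (card_le_card_of_injOn (fun G => G - s d) (fun G hG => ?_)
      (sub_left_injective.injOn))
    obtain ⟨g1, g2⟩ := mem_filter.1 (mem_coe.1 hG)
    refine mem_coe.2 (mem_filter.2 ⟨mem_product.2 ⟨?_, ?_⟩, by rwa [sub_add_cancel]⟩)
    exacts [good_sub_mem (mem_product.1 g1).1 (mem_product.1 (hs d hd)).1,
      good_sub_mem (mem_product.1 g1).2 (mem_product.1 (hs d hd)).2]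
  have h2 := sum_le_sum h1
  rw [sum_const, nsmul_eq_mul, card_box, sum_comm] at h2
  have h3 := h2.trans (sum_le_card_nsmul _ _ τ fun G hG => by rw [sum_boole]; exact h G hG)
  rw [nsmul_eq_mul, card_product, Nat.cast_mul, card_box, ← pow_add, ← two_mul] at h3
  rw [← mul_div_assoc, le_div_iff₀ (by positivity)]
  linarith

theorem g67_zero (t : ℕ) (c : k[X]) (E : k[X] → Prop) [DecidablePred E]
    (h : ∀ d, E d → c + d = 0) :
    (((box k t).filter E).card : ℝ) ≤ 1 := by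
  refine Nat.cast_le_one.2 (card_le_one.2 fun a ha b hb => ?_)
  exact add_left_cancel ((h a (mem_filter.1 ha).2).trans (h b (mem_filter.1 hb).2).symm)

variable [CharP k 3]

theorem g67_co (G c0 c1 c2 : k[X]) : co 0 (G + Phi c0 c1 c2) = co 0 G + c0 ∧
    co 1 (G + Phi c0 c1 c2) = co 1 G + c1 ∧ co 2 (G + Phi c0 c1 c2) = co 2 G + c2 := by
  simp only [co_add, co0_Phi, co1_Phi, co2_Phi, and_self]

theorem g67_box {M : ℕ} {G : k[X]} (h : G ∈ box k M) :
    co 0 G ∈ box k ((M + 2) / 3) ∧ co 1 G ∈ box k ((M + 1) / 3) ∧ co 2 G ∈ box k (M / 3) :=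
  Phi_mem_box.1 ((Phi_co G).symm ▸ h)

omit [CharP k 3] in
theorem g67_mono {a b : ℕ} (h : a ≤ b) {d : k[X]} (hd : d ∈ box k a) : d ∈ box k b :=
  mem_box.2 ((mem_box.1 hd).trans_le (Nat.cast_le.2 h))

omit [CharP k 3] in
theorem g67_z (a : ℕ) : (0 : k[X]) ∈ box k a := mem_box.2 (by simp)

omit [CharP k 3] in
theorem g67_v {th : ℕ} {v : k[X]} (hv : v ∈ mon k th) : v ∈ box k (th + 1) :=
  mem_box.2 (by
    rw [degree_eq_natDegree (mem_mon.1 hv).1.ne_zero, (mem_mon.1 hv).2]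
    exact_mod_cast Nat.lt_succ_self th)

theorem g67_be {M th : ℕ} (h1 : 1 ≤ th) {v G : k[X]} (hv : v ∈ mon k th) (h : G ∈ box k M) :
    co 0 G - co 1 G * v ∈ box k ((M + 1) / 3 + th) :=
  good_sub_mem (g67_mono (by omega) (g67_box h).1)
    (g67_mono (by omega) (good_mul_mem (g67_box h).2.1 (g67_v hv)))

theorem g67_push {M th : ℕ} (h1 : 1 ≤ th) {v : k[X]} (hv : v ∈ mon k th)
    (E : (k[X] × k[X]) × k[X] × k[X] → Prop) :
    (((box k M ×ˢ box k M).filter fun G => E ((co 0 G.1 - co 1 G.1 * v, co 2 G.1),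
      (co 0 G.2 - co 1 G.2 * v, co 2 G.2))).card : ℝ) ≤
    (((box k ((M + 1) / 3 + th) ×ˢ box k (M / 3)) ×ˢ
      (box k ((M + 1) / 3 + th) ×ˢ box k (M / 3))).filter E).card *
        qq k ^ (2 * ((M + 2) / 3 - th)) := by
  obtain ⟨N, hN⟩ : ∃ N, N = (M + 2) / 3 - th := ⟨_, rfl⟩
  have hX : (X ^ N : k[X]).Monic := monic_X_pow N
  have key : ∀ G ∈ box k M, ∀ G' ∈ box k M, co 0 G - co 1 G * v = co 0 G' - co 1 G' * v →
      co 2 G = co 2 G' → co 1 G %ₘ X ^ N = co 1 G' %ₘ X ^ N → G = G' := by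
    intro G hG G' hG' e0 e2 e1
    have h3 : co 1 G - co 1 G' = 0 := by
      by_contra h0
      have d1 := natDegree_le_of_dvd ((modByMonic_eq_zero_iff_dvd hX).1
        (by rw [sub_modByMonic, e1, sub_self] : (co 1 G - co 1 G') %ₘ X ^ N = 0)) h0
      have e : (co 1 G - co 1 G') * v = co 0 G - co 0 G' := by linear_combination -e0
      have v0 := (mem_mon.1 hv).1.ne_zero
      have d2 := (natDegree_lt_iff_degree_lt (mul_ne_zero h0 v0)).2
        (e ▸ mem_box.1 (good_sub_mem (g67_box hG).1 (g67_box hG').1))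
      rw [natDegree_mul h0 v0, (mem_mon.1 hv).2] at d2
      rw [natDegree_X_pow] at d1
      omega
    have h4 := sub_eq_zero.1 h3
    rw [← Phi_co G, ← Phi_co G', h4, e2, show co 0 G = co 0 G' by
      rw [h4] at e0; linear_combination e0]
  have hb : ∀ a : k[X], a %ₘ X ^ N ∈ box k N := fun a =>
    mem_box.2 ((degree_modByMonic_lt a hX).trans_eq (degree_X_pow N))
  rw [← hN, two_mul, pow_add, ← card_box, ← Nat.cast_mul, ← card_product, ← Nat.cast_mul,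
    ← card_product]
  refine Nat.cast_le.2 (card_le_card_of_injOn (fun G => (((co 0 G.1 - co 1 G.1 * v, co 2 G.1),
    (co 0 G.2 - co 1 G.2 * v, co 2 G.2)), (co 1 G.1 %ₘ X ^ N, co 1 G.2 %ₘ X ^ N)))
    (fun G hG => ?_) fun G hG G' hG' e => ?_)
  · obtain ⟨g1, g2⟩ := mem_filter.1 (mem_coe.1 hG)
    obtain ⟨g3, g4⟩ := mem_product.1 g1
    exact mem_coe.2 (mem_product.2 ⟨mem_filter.2 ⟨mem_product.2
      ⟨mem_product.2 ⟨g67_be h1 hv g3, (g67_box g3).2.2⟩,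
        mem_product.2 ⟨g67_be h1 hv g4, (g67_box g4).2.2⟩⟩, g2⟩, mem_product.2 ⟨hb _, hb _⟩⟩)
  · obtain ⟨g3, g4⟩ := mem_product.1 (mem_filter.1 (mem_coe.1 hG)).1
    obtain ⟨g5, g6⟩ := mem_product.1 (mem_filter.1 (mem_coe.1 hG')).1
    simp only [Prod.mk.injEq] at e
    exact Prod.ext (key _ g3 _ g5 e.1.1.1 e.1.1.2 e.2.1) (key _ g4 _ g6 e.1.2.1 e.1.2.2 e.2.2)


/-- transfer from quadruples to pairs -/
theorem card_transfer {M' θ : ℕ} {v : k[X]} (hv : v ∈ mon k θ) (h1 : 1 ≤ θ) (h2 : θ ≤ M' / 3)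
    (P : (k[X] × k[X]) × (k[X] × k[X]) → Prop) :
    (((box k M' ×ˢ box k M').filter fun G =>
      P ((be v G.1, co 2 G.1), (be v G.2, co 2 G.2))).card : ℝ) ≤
      qq k ^ (2 * ((M' + 2) / 3 - θ)) *
        ((((box k ((M' + 1) / 3 + θ) ×ˢ box k (M' / 3)) ×ˢ
          (box k ((M' + 1) / 3 + θ) ×ˢ box k (M' / 3))).filter P).card : ℝ) := by
  have _ := h2
  rw [mul_comm]
  exact g67_push h1 hv P

/-- a common divisor of `ww` and `W0` divides `a0 b2 - a2 b0` -/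
theorem card_W0 : ∃ C : ℝ, 0 < C ∧ ∀ {M' t B : ℕ} {τ : ℝ} (v : k[X]), Tau k B τ → M' ≤ B →
    t ≤ M' / 3 →
    (((box k M' ×ˢ box k M').filter fun G => ∃ D : k[X], D.Monic ∧ t ≤ D.natDegree ∧
      IsCoprime D (co 2 G.1) ∧ D ∣ W0 G.1 G.2 ∧ D ∣ ww v G.1 G.2).card : ℝ) ≤
      C * τ * qq k ^ (2 * M') / qq k ^ t := by
  refine ⟨3, by norm_num, fun {M t B τ} v hτ hB ht => ?_⟩
  have q0 := good_qq_pos (k := k)
  have z : (0 : k[X]) ∈ box k M := g67_z M
  have c1 := g67_shift (M := M) (t := t) (fun d : k[X] => (Phi 0 0 d, 0))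
    (fun d hd => mem_product.2 ⟨Phi_mem_box.2 ⟨g67_z _, g67_z _, g67_mono ht hd⟩, z⟩)
    (fun G => co 2 G.1 = 0) fun G _ => g67_zero t (co 2 G.1) _ fun d h =>
      (g67_co G.1 0 0 d).2.2.symm.trans h
  have c2 := g67_shift (M := M) (t := t) (τ := 1) (fun d : k[X] => (0, Phi 0 d 0))
    (fun d hd => mem_product.2 ⟨z, Phi_mem_box.2 ⟨g67_z _, g67_mono (by omega) hd, g67_z _⟩⟩)
    (fun G => co 2 G.1 ≠ 0 ∧ W0 G.1 G.2 = 0) fun G _ =>
      Nat.cast_le_one.2 (card_le_one.2 fun a ha b hb => by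
        have h1 := (mem_filter.1 ha).2
        have h2 := (mem_filter.1 hb).2.2
        simp only [W0, Prod.fst_add, Prod.snd_add, add_zero, g67_co] at h1 h2
        exact mul_left_cancel₀ h1.1 (by linear_combination h2 - h1.2))
  have c3 := g67_shift (M := M) (t := t) (τ := τ) (fun d : k[X] => (0, Phi d 0 0))
    (fun d hd => mem_product.2 ⟨z, Phi_mem_box.2 ⟨g67_mono (by omega) hd, g67_z _, g67_z _⟩⟩)
    (fun G => W0 G.1 G.2 ≠ 0 ∧ ∃ D ∈ dv (W0 G.1 G.2), t ≤ D.natDegree ∧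
      IsCoprime D (co 2 G.1) ∧ D ∣ co 0 G.1 * co 2 G.2 - co 2 G.1 * co 0 G.2) fun G hG => by
      have e : ∀ d : k[X], W0 (G + (0, Phi d 0 0)).1 (G + (0, Phi d 0 0)).2 = W0 G.1 G.2 :=
        fun d => by simp only [W0, Prod.fst_add, Prod.snd_add, add_zero, g67_co]
      by_cases h0 : W0 G.1 G.2 = 0
      · rw [filter_false_of_mem fun d _ h => h.1 ((e d).trans h0), card_empty, Nat.cast_zero]
        linarith [hτ.1]
      obtain ⟨g1, g2⟩ := mem_product.1 hG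
      have hb : W0 G.1 G.2 ∈ box k (B + 1) := good_sub_mem
        (g67_mono (by omega) (good_mul_mem (g67_box g1).2.1 (g67_box g2).2.2))
        (g67_mono (by omega) (good_mul_mem (g67_box g1).2.2 (g67_box g2).2.1))
      refine le_trans (Nat.cast_le.2 ?_) (hτ.2 _ h0 (Nat.lt_succ_iff.1
        ((natDegree_lt_iff_degree_lt h0).2 (mem_box.1 hb))))
      refine le_trans (card_le_card (t := (dv (W0 G.1 G.2)).biUnion fun D => (box k t).filter
        fun d => t ≤ D.natDegree ∧ IsCoprime D (co 2 G.1) ∧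
          D ∣ co 0 G.1 * co 2 G.2 - co 2 G.1 * (co 0 G.2 + d)) fun d hd => ?_)
        ((card_biUnion_le_card_mul _ _ 1 fun D _ => card_le_one.2 fun a ha b hb => ?_).trans_eq
          (mul_one _))
      · obtain ⟨d1, -, D, d2, d3⟩ := mem_filter.1 hd
        rw [e] at d2
        simp only [Prod.fst_add, Prod.snd_add, add_zero, g67_co] at d3
        exact mem_biUnion.2 ⟨D, d2, mem_filter.2 ⟨d1, d3⟩⟩
      · obtain ⟨a1, a2, a3, a4⟩ := mem_filter.1 ha
        obtain ⟨b1, -, -, b4⟩ := mem_filter.1 hb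
        have h1 : D ∣ b - a := a3.dvd_of_dvd_mul_left (by
          have := a4.sub b4
          rwa [show co 0 G.1 * co 2 G.2 - co 2 G.1 * (co 0 G.2 + a) -
            (co 0 G.1 * co 2 G.2 - co 2 G.1 * (co 0 G.2 + b)) = co 2 G.1 * (b - a) by ring] at this)
        by_contra hne
        have h2 : b - a ≠ 0 := sub_ne_zero.2 (Ne.symm hne)
        exact absurd ((natDegree_lt_iff_degree_lt h2).2 (mem_box.1 (good_sub_mem b1 a1)))
          (not_lt.2 (a2.trans (natDegree_le_of_dvd h1 h2)))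
  have c4 := add_le_add (add_le_add c1 c2) c3
  rw [← Nat.cast_add, ← Nat.cast_add] at c4
  refine le_trans (Nat.cast_le.2 ((card_le_card fun G hG => ?_).trans ((card_union_le _ _).trans
    (Nat.add_le_add_right (card_union_le _ _) _)))) (c4.trans ?_)
  · obtain ⟨g1, D, d1, d2, d3, d4, d5⟩ := mem_filter.1 hG
    simp only [mem_union, mem_filter]
    by_cases h1 : co 2 G.1 = 0
    · exact Or.inl (Or.inl ⟨g1, h1⟩)
    by_cases h2 : W0 G.1 G.2 = 0
    · exact Or.inl (Or.inr ⟨g1, h1, h2⟩)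
    refine Or.inr ⟨g1, h2, D, (mem_dv h2).2 ⟨d1, d4⟩, d2, d3, ?_⟩
    have := d5.add (d4.mul_left v)
    rwa [show ww v G.1 G.2 + v * W0 G.1 G.2 = co 0 G.1 * co 2 G.2 - co 2 G.1 * co 0 G.2 by
      unfold ww be W0; ring] at this
  · have : 0 ≤ qq k ^ (2 * M) / qq k ^ t := by positivity
    rw [mul_div_assoc]
    nlinarith [hτ.1]

omit [Field k] [CharP k 3] in
theorem g67_pow {M θ : ℕ} (h : θ ≤ M / 3) : qq k ^ (2 * ((M + 2) / 3 - θ)) *
    qq k ^ (2 * ((M + 1) / 3 + θ) + 2 * (M / 3)) = qq k ^ (2 * M) := by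
  rw [← pow_add]
  congr 1
  omega

omit [Fintype k] [CharP k 3] in
theorem g67_V {θ : ℕ} (h : 1 ≤ θ) {v : k[X]} (hv : v.Monic ∧ v.natDegree = θ) :
    (Vv v).Monic ∧ (Vv v).natDegree = 3 * θ := by
  have e : (X : k[X]).natDegree < (v ^ 3).natDegree := by
    rw [natDegree_X, natDegree_pow, hv.2]
    omega
  exact ⟨(hv.1.pow 3).add_of_left (degree_lt_degree e), by
    rw [Vv, natDegree_add_eq_left_of_natDegree_lt e, natDegree_pow, hv.2]⟩

theorem card_not_good : ∃ C : ℝ, 0 < C ∧ ∀ {n l y : ℕ} {H1 H2 : k[X]} {τ : ℝ}, Par n l y H1 H2 τ → ∀ v ∈ mon k (620 * l),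
    (((box k (n / 2 + y) ×ˢ box k (n / 2 + y)).filter fun G =>
      ¬ GoodV (n / 2 + y) (620 * l) (620 * l) (3100 * l) H1 H2 v G.1 G.2).card : ℝ) ≤
      C * τ * qq k ^ (2 * (n / 2 + y)) / qq k ^ (310 * l) := by
  obtain ⟨C1, C10, h1⟩ := card_bad4 (k := k)
  obtain ⟨C2, C20, h2⟩ := card_W0 (k := k)
  refine ⟨C1 + C2, add_pos C10 C20, fun {n l y H1 H2 τ} hP v hv => ?_⟩
  have lo := hP.lo
  have big := hP.big
  have hy := hP.hy
  obtain ⟨M, hM⟩ : ∃ M, M = n / 2 + y := ⟨_, rfl⟩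
  rw [← hM]
  have a1 : 620 * l ≤ M / 3 := by omega
  obtain ⟨v1, v2⟩ := g67_V (by omega : 1 ≤ 620 * l) (mem_mon.1 hv)
  have e0 := (hP.m1.mul hP.m2).mul v1
  have e1 : (H1 * H2 * Vv v).natDegree = y + y + 3 * (620 * l) := by
    rw [(hP.m1.mul hP.m2).natDegree_mul v1, hP.m1.natDegree_mul hP.m2, hP.d1, hP.d2, v2]
  have c1 := (card_transfer hv (by omega) a1
    (Bad4 (H1 * H2 * Vv v) H1 H2 ((M + 1) / 3 + 620 * l) (M / 3) (310 * l))).trans
    (mul_le_mul_of_nonneg_left (h1 e0.ne_zero hP.m1.ne_zero hP.d1.le hP.d2.le hP.tau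
      (by rw [e1]; omega) (by omega) (by omega) (by omega)) (pow_pos good_qq_pos _).le)
  rw [← mul_div_assoc, mul_left_comm, g67_pow a1] at c1
  have c2 := h2 (M' := M) (t := 310 * l) v hP.tau (by omega) (by omega)
  rw [add_mul, add_mul, add_div]
  refine le_trans ?_ (add_le_add c1 c2)
  rw [← Nat.cast_add]
  refine Nat.cast_le.2 ((card_le_card fun G hG => ?_).trans (card_union_le _ _))
  obtain ⟨g1, g2⟩ := mem_filter.1 hG
  by_contra hc
  rw [mem_union, mem_filter, mem_filter, not_or, not_and, not_and] at hc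
  have b1 := hc.1 g1
  refine g2 ⟨⟨fun h => b1 (Or.inl h), not_lt.1 fun h => b1 (Or.inr (Or.inl ?_))⟩,
    (Rbd_deg b1 (hc.2 g1)).trans (by omega)⟩
  rw [show 2 * (310 * l) = 620 * l by omega]
  exact h

theorem card_ww_zero : ∃ C : ℝ, 0 < C ∧ ∀ {n l y : ℕ} {H1 H2 : k[X]} {τ : ℝ}, Par n l y H1 H2 τ → ∀ v ∈ mon k (620 * l),
    (((box k (n / 2 + y) ×ˢ box k (n / 2 + y)).filter fun G => ww v G.1 G.2 = 0).card : ℝ) ≤
      C * qq k ^ (2 * (n / 2 + y)) / qq k ^ ((n / 2 + y) / 3) := by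
  have q0 := good_qq_pos (k := k)
  refine ⟨5 + 2 * qq k, by positivity, fun {n l y H1 H2 τ} hP v hv => ?_⟩
  have lo := hP.lo
  have big := hP.big
  obtain ⟨M, hM⟩ : ∃ M, M = n / 2 + y := ⟨_, rfl⟩
  rw [← hM]
  have a1 : 620 * l ≤ M / 3 := by omega
  have c1 := (card_transfer hv (by omega) a1 fun z => z.1.1 * z.2.2 - z.1.2 * z.2.1 = 0).trans
    (mul_le_mul_of_nonneg_left (le_trans (le_of_eq (by congr))
      (card_det0 (a := (M + 1) / 3 + 620 * l) le_rfl (by omega))) (pow_pos q0 _).le)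
  rw [← mul_div_assoc, mul_left_comm, g67_pow a1] at c1
  exact le_trans (le_of_eq (by congr)) c1

end CL3.T2

end
end

-- part H86T.Mob
section

/-! h86t: row Mob. Moebius inversion on the divisor lattice. -/

set_option autoImplicit false
open Polynomial Finset UniqueFactorizationMonoid Filter Topology CL5
open scoped Classical

noncomputable section
namespace CL3.T2

variable {k : Type*} [Field k] [Fintype k]

theorem t70_stab {φ : k[X] → ℝ} {d : k[X]} {t : ℕ} (h : Stab φ d t) : CL3.Stab φ d t :=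
  fun D D' h1 h2 h3 h4 h5 => h D D' h1 h2 h4 h3 h5

theorem tr_congr {t : ℕ} {φ ψ : k[X] → ℝ}
    (h : ∀ D : k[X], D.Monic → D.natDegree ≤ t → φ D = ψ D) : tr t φ = tr t ψ := by
  exact CL3.tr_congr h

theorem tr_sum {ι : Type*} (s : Finset ι) (t : ℕ) (φ : ι → k[X] → ℝ) :
    tr t (fun D => ∑ i ∈ s, φ i D) = ∑ i ∈ s, tr t (φ i) := by
  exact CL3.tr_sum s φ t

theorem tr_mul (t : ℕ) (c : ℝ) (φ : k[X] → ℝ) : tr t (fun D => c * φ D) = c * tr t φ := by
  exact CL3.tr_mul_left c φ t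

theorem tr_sub (t : ℕ) (φ ψ : k[X] → ℝ) : tr t (fun D => φ D - ψ D) = tr t φ - tr t ψ := by
  exact CL3.tr_sub φ ψ t

/-- `xi` vanishes off the divisors of `d` (pair `S` with `S ∪ {p}`) -/
theorem xi_eq_zero {φ : k[X] → ℝ} {d δ : k[X]} {t : ℕ} (hd : d ≠ 0) (h : Stab φ d t)
    (hm : δ.Monic) (ht : δ.natDegree ≤ t) (hn : ¬ δ ∣ d) : xi φ δ = 0 := by
  exact CL3.xi_eq_zero (t70_stab h) hm ht hn

theorem sum_xi (φ : k[X] → ℝ) {d : k[X]} (hd : d.Monic) : ∑ δ ∈ dv d, xi φ δ = φ d := by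
  exact CL3.sum_xi_dvs φ hd

theorem mob_a {φ : k[X] → ℝ} {d : k[X]} {t : ℕ} (hd : d.Monic) (ht : d.natDegree ≤ t)
    (h : Stab φ d t) : tr t φ = φ d := by
  exact CL3.tr_eq (t70_stab h) hd ht

theorem mob_b {φ : k[X] → ℝ} {d : k[X]} {t : ℕ} {B : ℝ} (hd : d ≠ 0) (h : Stab φ d t)
    (hB : ∀ D : k[X], D.Monic → D.natDegree ≤ t → |φ D| ≤ B) :
    |tr t φ| ≤ ((dv d).card : ℝ) ^ 2 * B := by
  exact CL3.abs_tr_le_dvs (t70_stab h) hd hB

theorem mob_c {φ : k[X] → ℝ} {t : ℕ} {B : ℝ}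
    (hB : ∀ D : k[X], D.Monic → D.natDegree ≤ t → |φ D| ≤ B) :
    |tr t φ| ≤ qq k ^ (2 * t + 1) * B := by
  exact CL3.abs_tr_le hB

end CL3.T2

end
end

-- part H86T.Cokd
section

/-! h86t: row Cokd. `c10_COK` of H86M.Cok10 with an arbitrary modulus `D` in place of `P ^ K`. -/

set_option autoImplicit false
open Polynomial Finset UniqueFactorizationMonoid Filter Topology CL5
open scoped Classical

noncomputable section
namespace CL3.T2

variable {k : Type*} [Field k] [Fintype k]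

variable [CharP k 3]

theorem t70_cn (K : ℕ) (f D : k[X]) :
    ∑ g ∈ box k (f.natDegree / 2), un (f.natDegree / 2 - K) D (car (g * f) - g) = cn K f D := by
  unfold un cn
  rw [← sum_div, natCast_card_filter]
  rfl

theorem cokD {f D : k[X]} {n K : ℕ} (hf : f ∈ mon k n) (hs : Squarefree f) (hD : D.Monic)
    (hK : 1 ≤ K) (hn : 3 * (D.natDegree + K) ≤ n / 2) :
    ∑ g ∈ box k (n / 2), un (n / 2 - K) D (car (g * f) - g) = uu n := by
  obtain ⟨hm, rfl⟩ := mem_mon.1 hf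
  rw [t70_cn, cn_sf hK hm hs hD hn]

end CL3.T2

end
end

-- part H86T.M01
section

/-! h86t: row M01. The Fourier transform of the model takes the values 0 and 1. -/

set_option autoImplicit false
open Polynomial Finset UniqueFactorizationMonoid Filter Topology CL5
open scoped Classical

noncomputable section
namespace CL3.T2

variable {k : Type*} [Field k] [Fintype k]

variable [CharP k 3]

theorem m01 {f : k[X]} {n L t : ℕ} (hf : f ∈ mon k n) (hL : L ≤ n / 2) (ht : 2 * t ≤ L) :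
    |tr t fun D => ∑ g ∈ box k (n / 2), un L D (car (g * f) - g)| ≤ (Sol f).card := by
  obtain ⟨-, rfl⟩ := mem_mon.1 hf
  obtain ⟨K, rfl⟩ : ∃ K, L = f.natDegree / 2 - K := ⟨f.natDegree / 2 - L, by omega⟩
  by_cases hK : K ≤ f.natDegree / 2
  · simp only [t70_cn]
    have h := CL3.m01 (K := K) (t := t) (f := f) (by omega)
    exact abs_le.2 ⟨(neg_nonpos.2 (Nat.cast_nonneg _)).trans h.1, h.2⟩
  · rw [show f.natDegree / 2 - K = f.natDegree / 2 - f.natDegree / 2 by omega]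
    simp only [t70_cn]
    have h := CL3.m01 (K := f.natDegree / 2) (t := t) (f := f) (by omega)
    exact abs_le.2 ⟨(neg_nonpos.2 (Nat.cast_nonneg _)).trans h.1, h.2⟩

end CL3.T2

end
end

-- part H86T.Stab
section

/-! h86t: row Stab. Content of the Wronskian and stability of the model counts. -/

set_option autoImplicit false
open Polynomial Finset UniqueFactorizationMonoid Filter Topology CL5
open scoped Classical

noncomputable section
namespace CL3.T2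

variable {k : Type*} [Field k] [Fintype k]

variable [CharP k 3]

theorem t70_md (n' L : ℕ) (D1 D2 G1 G2 g1 g2 : k[X]) :
    md n' L D1 D2 G1 G2 g1 g2 = CL3.md n' 0 L G1 G2 g1 g2 D1 D2 := by
  rw [md_eq]
  unfold CL3.md av NM
  rw [← sum_div, div_div, mul_comm]
  rfl

theorem t70_ww (v G1 G2 : k[X]) :
    ww v G1 G2 = -co 1 (wronskian G1 G2) - v * co 2 (wronskian G1 G2) := by
  obtain ⟨-, e1, e2⟩ := co_wr G1 G2
  unfold ww be
  rw [e1, e2]
  ring

theorem exists_cont {M' : ℕ} {G1 G2 : k[X]} (h1 : G1 ∈ box k M') (h2 : G2 ∈ box k M')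
    (hW : wronskian G1 G2 ≠ 0) : ∃ d : k[X], IsCont d G1 G2 ∧
      qq k ^ (d.natDegree + 1) ≤ (kap (2 * M') G1 G2 : ℝ) ∧ d.natDegree ≤ M' := by
  obtain ⟨d, hm, hI, d0, d1, d2, hd, hk⟩ := cov hW
  have hlt : (wronskian G1 G2).degree < (2 * M' : ℕ) := by
    have a1 := mem_box.1 h1
    have a2 := mem_box.1 h2
    unfold wronskian
    rw [two_mul]
    exact (degree_sub_le _ _).trans_lt (max_lt (st_deg a1 ((degree_derivative_le).trans_lt a2))
      (st_deg ((degree_derivative_le).trans_lt a1) a2))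
  have := (natDegree_lt_iff_degree_lt hW).2 hlt
  exact ⟨d, ⟨hm, d0, d1, d2, hI⟩, hk _ hlt, by omega⟩

theorem cont_dvd {d G1 G2 : k[X]} (h : IsCont d G1 G2) (v : k[X]) :
    d ∣ ww v G1 G2 ∧ d ∣ W0 G1 G2 := by
  obtain ⟨-, -, d1, d2, -⟩ := h
  obtain ⟨-, e1, e2⟩ := co_wr G1 G2
  refine ⟨?_, by unfold W0; rwa [← e2]⟩
  rw [t70_ww]
  exact dvd_sub (dvd_neg.2 d1) (d2.mul_left _)

theorem wr_ne_of_ww {v G1 G2 : k[X]} (h : ww v G1 G2 ≠ 0) : wronskian G1 G2 ≠ 0 := by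
  intro e
  apply h
  have h1 : co 1 (0 : k[X]) = 0 := by simpa only [Phi_zero] using co1_Phi (0 : k[X]) 0 0
  have h2 : co 2 (0 : k[X]) = 0 := by simpa only [Phi_zero] using co2_Phi (0 : k[X]) 0 0
  rw [t70_ww, e, h1, h2]
  ring

/-- shift `m` by `∑ c_j ^ 3 * wronskian G2 (X ^ i)`, `c_j` reduced mod `D` -/
theorem stab1 {n' L M' T : ℕ} {d G1 G2 : k[X]} (hd : IsCont d G1 G2) (h1 : G1 ∈ box k M')
    (h2 : G2 ∈ box k M') (hT1 : 3 * T + M' + 3 ≤ n') (hT2 : 3 * T + 2 * M' + 3 ≤ 3 * L)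
    (D2 g1 g2 : k[X]) : Stab (fun D1 => md n' L D1 D2 G1 G2 g1 g2) d T := by
  intro D D' a b c e f
  simp only [t70_md]
  exact stab_md1 (K := 0) h1 h2 hd.2.2.2.2 (by omega) (by omega) g1 g2 D2 D D' a b e c f

theorem stab2 {n' L M' T : ℕ} {d G1 G2 : k[X]} (hd : IsCont d G1 G2) (h1 : G1 ∈ box k M')
    (h2 : G2 ∈ box k M') (hT1 : 3 * T + M' + 3 ≤ n') (hT2 : 3 * T + 2 * M' + 3 ≤ 3 * L)
    (D1 g1 g2 : k[X]) : Stab (fun D2 => md n' L D1 D2 G1 G2 g1 g2) d T := by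
  intro D D' a b c e f
  simp only [t70_md]
  exact stab_md2 (K := 0) h1 h2 hd.2.2.2.2 (by omega) (by omega) g1 g2 D1 D D' a b e c f

end CL3.T2

end
end

-- part H86T.Hyp
section

/-! h86t: row Hyp. The hypothesis of the tail lemma for mixed levels. -/

set_option autoImplicit false
open Polynomial Finset UniqueFactorizationMonoid Filter Topology CL5
open scoped Classical

noncomputable section
namespace CL3.T2

variable {k : Type*} [Field k] [Fintype k]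

variable [CharP k 3]

theorem hyp2 {n' L M' T i1 i2 : ℕ} {H1 H2 g1 g2 Z1 Z2 M11 M12 M21 M22 D δ1 δ2 : k[X]}
    (hR : Rep M' (H1 * g1) (H2 * g2) Z1 Z2 M11 M12 M21 M22 i1 i2)
    (hA : Adm2 H1 H2 D M11 M12 M21 M22) (l1 : Lev T δ1) (l2 : Lev T δ2)
    (hT : 2 * M' + 3 * T ≤ 3 * L) (hn : n' ≤ 2 * M')
    (hpos : 0 < md n' L δ1 δ2 (H1 * g1) (H2 * g2) g1 g2) :
    ∃ D1 D2 : k[X], D = D1 * D2 ∧ D1 ∣ H1 * g1 ∧ D1 ∣ H2 * g2 ∧
      md n' L δ1 δ2 (H1 * g1) (H2 * g2) g1 g2 ≤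
        kap (2 * M') (H1 * g1) (H2 * g2) / qq k ^ D2.natDegree := by
  obtain ⟨e1, e2, hdet, -, -, -, -, b11, b21, b12, b22, j1, j2⟩ := hR
  obtain ⟨⟨hm, hs, hdv, hp⟩, hq⟩ := hA
  have hdeg : D.natDegree ≤ i1 + i2 := by
    have a1 := natDegree_le_of_dvd hdv hdet
    have a2 := natDegree_sub_le (M11 * M22) (M12 * M21)
    have a3 := natDegree_mul_le (p := M11) (q := M22)
    have a4 := natDegree_mul_le (p := M12) (q := M21)
    have := hyp_nat_le b11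
    have := hyp_nat_le b12
    have := hyp_nat_le b21
    have := hyp_nat_le b22
    omega
  have lv : ∀ {δ : k[X]}, Lev T δ → (δ = 0 ∨ δ.Monic) ∧ δ.natDegree ≤ T := by
    rintro δ (rfl | h)
    · exact ⟨Or.inl rfl, by simp⟩
    · exact ⟨Or.inr h.1, h.2⟩
  have t1 := (lv l1).2
  have t2 := (lv l2).2
  rw [t70_md] at hpos ⊢
  obtain ⟨D1, D2, hD, -, -, k1, k2, hle⟩ := hyp_md e1 e2
    ⟨hm, hs, hdv, fun p hi h => ⟨(hp p hi h).1, (hp p hi h).2.1, hq p hi h⟩⟩ (lv l1).1 (lv l2).1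
    (by omega) (by omega) hpos
  refine ⟨D1, D2, hD, k1.mul_left _, k2.mul_left _, hle.trans ?_⟩
  have hq0 : (0 : ℝ) < qq k := lt_of_lt_of_le two_pos two_le_qq
  exact div_le_div_of_nonneg_right (by exact_mod_cast kap_mono hn _ _) (pow_pos hq0 _).le

end CL3.T2

end
end

-- part H86T.Pt
section

/-! h86t: row Pt. Pointwise facts on `FF`. -/

set_option autoImplicit false
open Polynomial Finset UniqueFactorizationMonoid Filter Topology CL5
open scoped Classical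

noncomputable section
namespace CL3.T2

variable {k : Type*} [Field k] [Fintype k]

variable [CharP k 3]

omit [CharP k 3] in
theorem t93_box {M y : ℕ} {H g : k[X]} (m : H.Monic) (d : H.natDegree = y) (hg : g ∈ box k M) :
    H * g ∈ box k (M + y) := by
  rw [mem_box] at hg ⊢
  rcases eq_or_ne g 0 with rfl | g0
  · rw [mul_zero, degree_zero]
    exact WithBot.bot_lt_coe _
  · rw [← natDegree_lt_iff_degree_lt g0] at hg
    rw [← natDegree_lt_iff_degree_lt (mul_ne_zero m.ne_zero g0), natDegree_mul m.ne_zero g0]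
    omega

omit [CharP k 3] in
theorem t93_stab {ψ : k[X] → k[X] → ℝ} {d : k[X]} {T : ℕ} (t : ℕ)
    (h : ∀ D2, Stab (fun D1 => ψ D1 D2) d T) : Stab (fun D1 => Dl t (ψ D1)) d T :=
  fun D D' a b c e f => congrArg (Dl t) (funext fun D2 => h D2 D D' a b c e f)

omit [CharP k 3] in
theorem t93_four {ψ : k[X] → k[X] → ℝ} {d : k[X]} {t : ℕ} (hd : d.Monic) (ht : d.natDegree ≤ t)
    (h1 : ∀ D2, Stab (fun D1 => ψ D1 D2) d t) (h2 : ∀ D1, Stab (ψ D1) d t) :
    (Dl t fun D1 => Dl t (ψ D1)) = ψ 0 0 - ψ 0 d - (ψ d 0 - ψ d d) := by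
  rw [Dl, mob_a hd ht (t93_stab t h1)]
  simp only [Dl, mob_a hd ht (h2 _)]

omit [CharP k 3] in
theorem t93_abs {φ : k[X] → ℝ} {d : k[X]} {t : ℕ} {B τ : ℝ} (hd : d ≠ 0) (h : Stab φ d t)
    (hτ : ((dv d).card : ℝ) ≤ τ) (hB : ∀ D, Lev t D → |φ D| ≤ B) :
    |Dl t φ| ≤ (1 + τ ^ 2) * B := by
  have a := hB 0 (Or.inl rfl)
  have b := mob_b hd h fun D d1 d2 => hB D (Or.inr ⟨d1, d2⟩)
  have c := mul_le_mul_of_nonneg_right (pow_le_pow_left₀ (Nat.cast_nonneg _) hτ 2)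
    ((abs_nonneg _).trans a)
  have e := abs_sub (φ 0) (tr t φ)
  rw [Dl]
  linarith

theorem t93_cont {n l y : ℕ} {H1 H2 : k[X]} {τ : ℝ} (hP : Par n l y H1 H2 τ) {g1 g2 : k[X]}
    (hg1 : g1 ∈ box k (n / 2)) (hg2 : g2 ∈ box k (n / 2))
    (hW : wronskian (H1 * g1) (H2 * g2) ≠ 0) : ∃ d : k[X], IsCont d (H1 * g1) (H2 * g2) ∧
      qq k ^ (d.natDegree + 1) ≤ (kap (2 * (n / 2 + y)) (H1 * g1) (H2 * g2) : ℝ) ∧
      d.natDegree ≤ n / 2 + y ∧ ∀ T ≤ 3100 * l, (∀ D2, Stab (fun D1 =>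
        md (n - y) (n / 2 - (620 * l + 3)) D1 D2 (H1 * g1) (H2 * g2) g1 g2) d T) ∧ ∀ D1,
        Stab (fun D2 => md (n - y) (n / 2 - (620 * l + 3)) D1 D2 (H1 * g1) (H2 * g2) g1 g2) d T := by
  have b1 := t93_box hP.m1 hP.d1 hg1
  have b2 := t93_box hP.m2 hP.d2 hg2
  obtain ⟨d, d1, d2, d3⟩ := exists_cont b1 b2 hW
  have := hP.lo
  have := hP.big
  have := hP.hy
  exact ⟨d, d1, d2, d3, fun T hT => ⟨fun D2 => stab1 d1 b1 b2 (by omega) (by omega) D2 g1 g2,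
    fun D1 => stab2 d1 b1 b2 (by omega) (by omega) D1 g1 g2⟩⟩

omit [CharP k 3] in
theorem t93_ypos {n l y : ℕ} {H1 H2 : k[X]} {τ : ℝ} (hP : Par n l y H1 H2 τ) : 1 ≤ y := by
  refine Nat.pos_of_ne_zero fun h => one_ne_zero (hP.an 1 1 ?_).1
  rw [eq_one_of_monic_natDegree_zero hP.m1 (hP.d1.trans h),
    eq_one_of_monic_natDegree_zero hP.m2 (hP.d2.trans h)]

omit [CharP k 3] in
theorem t93_deg {a b : ℕ} (h : qq k ^ (a + 1) ≤ qq k ^ (b + 3)) : a ≤ b + 2 := by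
  have := (pow_le_pow_iff_right₀ (one_lt_two.trans_le two_le_qq)).1 h
  omega

theorem pt_tail {n l y : ℕ} {H1 H2 : k[X]} {τ : ℝ} (hP : Par n l y H1 H2 τ) {g1 g2 : k[X]}
    (hg1 : g1 ∈ box k (n / 2)) (hg2 : g2 ∈ box k (n / 2))
    (hW : wronskian (H1 * g1) (H2 * g2) ≠ 0) :
    ∃ δ1 δ2 : k[X], Lev (3100 * l) δ1 ∧ Lev (3100 * l) δ2 ∧
      |FF (n - y) (n / 2 - (620 * l + 3)) (300 * l + 2) (H1 * g1) (H2 * g2) g1 g2| ≤
        (1 + τ ^ 2) ^ 2 * md (n - y) (n / 2 - (620 * l + 3)) δ1 δ2 (H1 * g1) (H2 * g2) g1 g2 := by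
  obtain ⟨d, d1, -, d3, d4⟩ := t93_cont hP hg1 hg2 hW
  have := hP.lo
  have := hP.big
  have := hP.hy
  obtain ⟨s1, s2⟩ := d4 (300 * l + 2) (by omega)
  have hτ := hP.tau.2 d d1.1.ne_zero (by omega)
  let S : Finset k[X] := (box k (300 * l + 2 + 1)).filter (Lev (300 * l + 2))
  have hS : ∀ D, Lev (300 * l + 2) D → D ∈ S := fun D h => mem_filter.2 ⟨mem_box.2 (by
    rcases h with rfl | h
    · rw [degree_zero]
      exact WithBot.bot_lt_coe _
    · exact (natDegree_lt_iff_degree_lt h.1.ne_zero).1 (Nat.lt_succ_of_le h.2)), h⟩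
  obtain ⟨z, z1, z2⟩ := exists_max_image (S ×ˢ S) (fun z =>
    md (n - y) (n / 2 - (620 * l + 3)) z.1 z.2 (H1 * g1) (H2 * g2) g1 g2)
    ⟨(0, 0), mem_product.2 ⟨hS 0 (Or.inl rfl), hS 0 (Or.inl rfl)⟩⟩
  have up : ∀ D ∈ S, Lev (3100 * l) D := fun D h =>
    (mem_filter.1 h).2.imp_right fun g => ⟨g.1, g.2.trans (by omega)⟩
  refine ⟨z.1, z.2, up _ (mem_product.1 z1).1, up _ (mem_product.1 z1).2, ?_⟩
  rw [sq (1 + τ ^ 2), mul_assoc]
  exact t93_abs d1.1.ne_zero (t93_stab _ s1) hτ fun D1 h1 =>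
    t93_abs d1.1.ne_zero (s2 D1) hτ fun D2 h2 => (abs_of_nonneg (md_nonneg ..)).trans_le
      (z2 (D1, D2) (mem_product.2 ⟨hS _ h1, hS _ h2⟩))

theorem pt_mid {n l y : ℕ} {H1 H2 : k[X]} {τ : ℝ} (hP : Par n l y H1 H2 τ) {g1 g2 : k[X]}
    (hg1 : g1 ∈ box k (n / 2)) (hg2 : g2 ∈ box k (n / 2))
    (hW : wronskian (H1 * g1) (H2 * g2) ≠ 0)
    (hκ : (kap (2 * (n / 2 + y)) (H1 * g1) (H2 * g2) : ℝ) ≤ qq k ^ (300 * l + 3)) :
    |FF (n - y) (n / 2 - (620 * l + 3)) (300 * l + 2) (H1 * g1) (H2 * g2) g1 g2| ≤ 2 * qq k ^ (300 * l + 3) := by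
  obtain ⟨d, d1, d2, -, d4⟩ := t93_cont hP hg1 hg2 hW
  have := hP.big
  have := t93_ypos hP
  obtain ⟨s1, s2⟩ := d4 (300 * l + 2) (by omega)
  have a : ∀ D1 D2, 0 ≤ md (n - y) (n / 2 - (620 * l + 3)) D1 D2 (H1 * g1) (H2 * g2) g1 g2 ∧
      md (n - y) (n / 2 - (620 * l + 3)) D1 D2 (H1 * g1) (H2 * g2) g1 g2 ≤ qq k ^ (300 * l + 3) :=
    fun D1 D2 => ⟨md_nonneg .., (md_le_kap (N := 2 * (n / 2 + y)) (by omega) ..).trans hκ⟩
  rw [FF, t93_four d1.1 (t93_deg (d2.trans hκ)) s1 s2, abs_le]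
  constructor <;> linarith [a 0 0, a 0 d, a d 0, a d d]

theorem pt_good {n l y : ℕ} {H1 H2 : k[X]} {τ : ℝ} (hP : Par n l y H1 H2 τ) {v g1 g2 : k[X]}
    (hv : v ∈ mon k (620 * l)) (hg1 : g1 ∈ box k (n / 2)) (hg2 : g2 ∈ box k (n / 2))
    (hκ : (kap (2 * (n / 2 + y)) (H1 * g1) (H2 * g2) : ℝ) ≤ qq k ^ (300 * l + 3))
    (hG : GoodV (n / 2 + y) (620 * l) (620 * l) (3100 * l) H1 H2 v (H1 * g1) (H2 * g2)) :
    FF (n - y) (n / 2 - (620 * l + 3)) (300 * l + 2) (H1 * g1) (H2 * g2) g1 g2 = De (n - y) (n / 2 - (620 * l + 3)) H1 H2 v g1 g2 := by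
  obtain ⟨d, d1, d2, -, d4⟩ := t93_cont hP hg1 hg2 (wr_ne_of_ww hG.1.1)
  have := hP.big
  obtain ⟨s1, s2⟩ := d4 (300 * l + 2) (by omega)
  obtain ⟨s3, s4⟩ := d4 (3100 * l) le_rfl
  obtain ⟨f1, f2, -, -, f3, -⟩ := fac hG.1.1 (BB H1 H2 v (H1 * g1) (H2 * g2))
    (W0 (H1 * g1) (H2 * g2))
  obtain ⟨c1, c2⟩ := cont_dvd d1 v
  have e : d ∣ RR H1 H2 v (H1 * g1) (H2 * g2) :=
    (f3.of_isCoprime_of_dvd_right c2).symm.dvd_of_dvd_mul_right (f2 ▸ dvd_normalize_iff.2 c1)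
  have a1 := fun D2 => s3 D2 _ d f1 d1.1 hG.2 e ⟨0, 1, by ring⟩
  have a2 := fun D1 => s4 D1 _ d f1 d1.1 hG.2 e ⟨0, 1, by ring⟩
  have m1 := model hP hv hg1 hg2 hG (Or.inl ⟨rfl, rfl⟩)
  have m2 := model hP hv hg1 hg2 hG (Or.inr (Or.inl ⟨rfl, rfl⟩))
  have m3 := model hP hv hg1 hg2 hG (Or.inr (Or.inr ⟨rfl, rfl⟩))
  rw [FF, t93_four d1.1 (t93_deg (d2.trans hκ)) s1 s2, De]
  simp only [RR] at a1 a2 m1 m2 m3 ⊢
  linarith [a1 0, a1 d, a2 0, a2 (Rbd (ww v (H1 * g1) (H2 * g2))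
    (BB H1 H2 v (H1 * g1) (H2 * g2)) (W0 (H1 * g1) (H2 * g2)))]

end CL3.T2

end
end

-- part H86T.Tail
section

/-! h86t: row Tail. The tail lemma (`exists_rep` with `2 * (n / 2 + y)`, `t91_fixed` for `ν / q ^ (tq + y)`). -/

set_option autoImplicit false
open Polynomial Finset UniqueFactorizationMonoid Filter Topology CL5
open scoped Classical

noncomputable section
namespace CL3.T2

variable {k : Type*} [Field k] [Fintype k]

omit [Fintype k] in
theorem t59_split {D : k[X]} (hm : D.Monic) (hs : Squarefree D) (W : k[X]) :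
    ∃ A B : k[X], A.Monic ∧ B.Monic ∧ D = A * B ∧ A ∣ W ∧ IsCoprime B W := by
  have h0 : GCDMonoid.gcd D W ≠ 0 := fun h => hm.ne_zero ((gcd_eq_zero_iff _ _).1 h).1
  obtain ⟨A, a1, -, a3⟩ := exists_monic80 h0
  obtain ⟨B, hB⟩ := (a3 D).2 (gcd_dvd_left D W)
  refine ⟨A, B, a1, a1.of_mul_monic_left (hB ▸ hm), hB, (a3 W).2 (gcd_dvd_right D W), ?_⟩
  refine isRelPrime_iff_isCoprime.1 fun d h1 h2 => hs d ?_
  have h3 : d ∣ GCDMonoid.gcd D W := dvd_gcd (hB ▸ h1.mul_left A) h2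
  have h4 : d ∣ A := h3.trans ((a3 A).1 dvd_rfl)
  rw [hB]
  exact mul_dvd_mul h4 h1

/-- the pairs attached to an exceptional matrix -/
def t59Q (H1 H2 : k[X]) (m i1 i2 : ℕ) : Finset (k[X] × k[X]) :=
  ((box k (m - 3 * i1) ×ˢ box k (m - 3 * i2)) ×ˢ BadQ H1 H2 i1 i2 ((i1 + i2) / 36)).image t91Phi

variable [CharP k 3]

/-- the data attached to a pair of the tail -/
def t59P (H1 H2 : k[X]) (m l y i1 i2 : ℕ) (G : k[X] × k[X]) (x : ℝ) : Prop :=
  (300 * l ≤ i1 + i2 ∧ 3 * i1 < m ∧ 3 * i2 < m) ∧ x ≤ qq k ^ (i1 + i2 + 3) ∧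
    (G ∈ t59Q H1 H2 m i1 i2 ∨ T91Data m i1 i2 G (x / qq k ^ ((i1 + i2) / 36 + y)))

theorem t59_cell {n l y : ℕ} {H1 H2 : k[X]} {τ : ℝ} (hP : Par n l y H1 H2 τ) (i1 i2 : ℕ)
    (S : Finset (k[X] × k[X])) (ν : k[X] × k[X] → ℝ)
    (hS : ∀ G ∈ S, t59P H1 H2 (n / 2 + y) l y i1 i2 G (ν G)) :
    ∑ G ∈ S, ν G ≤ (32 + qq k * Real.exp 16 + 2 * qq k) * qq k ^ 7 * τ ^ 2 * qq k ^ n /
      qq k ^ (5 * l) := by
  have h0 := c91_pos (k := k)
  have hq : 1 ≤ qq k := by linarith [two_le_qq (k := k)]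
  have hτ : 1 ≤ τ ^ 2 := one_le_pow₀ hP.tau.1
  rcases S.eq_empty_or_nonempty with rfl | ⟨G0, hG0⟩
  · rw [sum_empty]
    positivity
  obtain ⟨c0, c1, c2⟩ := (hS G0 hG0).1
  have hlo := hP.lo
  have hy := hP.hy
  set m := n / 2 + y with hm
  set w := qq k ^ 7 * qq k ^ n / qq k ^ (5 * l) with hw
  have w0 : 0 ≤ w := by positivity
  have e1 : qq k ^ (2 * m + 7) / qq k ^ ((i1 + i2) / 36) ≤ w := by
    rw [hw, div_le_div_iff₀ (by positivity) (by positivity), ← pow_add, ← pow_add, ← pow_add]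
    exact pow_le_pow_right₀ hq (by omega)
  have e2 : qq k ^ ((i1 + i2) / 36 + y) * (qq k ^ (2 * m + 7) / qq k ^ ((i1 + i2) / 18)) ≤ w := by
    rw [hw, ← mul_div_assoc, div_le_div_iff₀ (by positivity) (by positivity), ← pow_add, ← pow_add,
      ← pow_add, ← pow_add]
    exact pow_le_pow_right₀ hq (by omega)
  rw [← sum_filter_add_sum_filter_not S (fun G => G ∈ t59Q H1 H2 m i1 i2)]
  have a1 : ∑ G ∈ S.filter (fun G => G ∈ t59Q H1 H2 m i1 i2), ν G ≤ τ ^ 2 * w := by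
    refine (sum_le_card_nsmul _ _ (qq k ^ (i1 + i2 + 3)) fun G hG =>
      (hS G (mem_filter.1 hG).1).2.1).trans ?_
    rw [nsmul_eq_mul]
    have b1 : ((S.filter fun G => G ∈ t59Q H1 H2 m i1 i2).card : ℝ) ≤
        qq k ^ (m - 3 * i1) * qq k ^ (m - 3 * i2) *
          (τ ^ 2 * qq k ^ (2 * (i1 + i2 + 2)) / qq k ^ ((i1 + i2) / 36)) := by
      have b2 : (S.filter fun G => G ∈ t59Q H1 H2 m i1 i2).card ≤ (t59Q H1 H2 m i1 i2).card :=
        card_le_card fun G hG => (mem_filter.1 hG).2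
      refine (Nat.cast_le.2 (b2.trans card_image_le)).trans ?_
      rw [card_product, card_product, Nat.cast_mul, Nat.cast_mul, card_box, card_box]
      exact mul_le_mul_of_nonneg_left
        (card_badQ hP.an hP.d1.le hP.d2.le hP.tau (by omega) (by omega)) (by positivity)
    have ez : qq k ^ (m - 3 * i1) * qq k ^ (m - 3 * i2) * qq k ^ (2 * (i1 + i2 + 2)) *
        qq k ^ (i1 + i2 + 3) = qq k ^ (2 * m + 7) := by
      rw [← pow_add, ← pow_add, ← pow_add]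
      congr 1
      omega
    refine (mul_le_mul_of_nonneg_right b1 (by positivity)).trans ?_
    refine le_trans (le_of_eq ?_) (mul_le_mul_of_nonneg_left e1 (by positivity : 0 ≤ τ ^ 2))
    rw [← ez]
    ring
  have a2 : ∑ G ∈ S.filter (fun G => ¬ G ∈ t59Q H1 H2 m i1 i2), ν G ≤
      (31 + qq k * Real.exp 16 + 2 * qq k) * w := by
    have b1 := t91_fixed c1.le c2.le (S.filter fun G => ¬ G ∈ t59Q H1 H2 m i1 i2)
      (fun G => ν G / qq k ^ ((i1 + i2) / 36 + y)) fun G hG =>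
        (hS G (mem_filter.1 hG).1).2.2.resolve_left (mem_filter.1 hG).2
    rw [← sum_div, div_le_iff₀ (by positivity)] at b1
    refine b1.trans (le_trans (le_of_eq ?_) (mul_le_mul_of_nonneg_left e2 (by positivity)))
    ring
  have a3 : (31 + qq k * Real.exp 16 + 2 * qq k) * w ≤
      (31 + qq k * Real.exp 16 + 2 * qq k) * (τ ^ 2 * w) :=
    mul_le_mul_of_nonneg_left (le_mul_of_one_le_left w0 hτ) (by positivity)
  refine (add_le_add a1 (a2.trans a3)).trans (le_of_eq ?_)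
  rw [hw]
  ring

theorem t59_pt {n l y : ℕ} {H1 H2 : k[X]} {τ : ℝ} (hP : Par n l y H1 H2 τ) {g1 g2 δ1 δ2 : k[X]}
    {x : ℝ} (hx : 0 < x) (b1 : g1 ∈ box k (n / 2)) (b2 : g2 ∈ box k (n / 2))
    (hW : wronskian (H1 * g1) (H2 * g2) ≠ 0)
    (hk : qq k ^ (300 * l + 3) < (kap (2 * (n / 2 + y)) (H1 * g1) (H2 * g2) : ℝ))
    (l1 : Lev (3100 * l) δ1) (l2 : Lev (3100 * l) δ2)
    (hν : x ≤ md (n - y) (n / 2 - (620 * l + 3)) δ1 δ2 (H1 * g1) (H2 * g2) g1 g2) :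
    ∃ i1 i2 : ℕ, t59P H1 H2 (n / 2 + y) l y i1 i2 (H1 * g1, H2 * g2) x := by
  have h0 := c91_pos (k := k)
  have hq : 1 < qq k := by linarith [two_le_qq (k := k)]
  have hlo := hP.lo
  have hy := hP.hy
  have hb := hP.big
  have y0 : y ≠ 0 := fun h => by
    have e1 : H1 = 1 := hP.m1.natDegree_eq_zero.1 (hP.d1.trans h)
    have e2 : H2 = 1 := hP.m2.natDegree_eq_zero.1 (hP.d2.trans h)
    exact one_ne_zero (hP.an 1 1 (by rw [e1, e2])).1
  have e : 2 * (n / 2 + y) / 2 = n / 2 + y := by omega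
  have bx : ∀ {H g : k[X]}, H.natDegree = y → g ∈ box k (n / 2) →
      H * g ∈ box k (2 * (n / 2 + y) / 2) := fun {H g} h1 h2 => c91_mem fun h3 => by
    have := c91_lt h2 (right_ne_zero_of_mul h3)
    have := natDegree_mul_le (p := H) (q := g)
    omega
  obtain ⟨Z1, Z2, M11, M12, M21, M22, i1, i2, hR, hκ⟩ :=
    exists_rep (bx hP.d1 b1) (bx hP.d2 b2) hW
  rw [e] at hR
  have hi := (pow_lt_pow_iff_right₀ hq).1 (hk.trans_le hκ)
  have hx1 : x ≤ qq k ^ (i1 + i2 + 3) := hν.trans ((md_le_kap (by omega) _ _ _ _ _ _ _).trans hκ)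
  have hR' := hR
  obtain ⟨e1, e2, hd, z1, z2, c1, c2, c3, c4, c5, c6, u1, u2⟩ := hR'
  refine ⟨i1, i2, ⟨by omega, u1, u2⟩, hx1, ?_⟩
  by_cases hB : ((M11, M12), (M21, M22)) ∈ BadQ H1 H2 i1 i2 ((i1 + i2) / 36)
  · exact Or.inl (mem_image.2 ⟨((Z1, Z2), ((M11, M12), (M21, M22))),
      mem_product.2 ⟨mem_product.2 ⟨c1, c2⟩, hB⟩, Prod.ext e1.symm e2.symm⟩)
  refine Or.inr ⟨(Z1, Z2), ((M11, M12), (M21, M22)), z1, z2, e1, e2, hd, c1, c2, c3, c5, c4, c6,
    (div_le_self hx.le (one_le_pow₀ hq.le)).trans hx1, fun D hD => ?_⟩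
  obtain ⟨A, B, a1, a2, rfl, a3, a4⟩ := t59_split hD.1 hD.2.1
    (GCDMonoid.gcd (H2 * M11 ^ 2 - H1 * M21 ^ 2) (H2 * M12 ^ 2 - H1 * M22 ^ 2))
  have sA : Squarefree A := hD.2.1.of_mul_left
  obtain ⟨A1, A2, a5, a6, rfl, a7, a8⟩ := t59_split a1 sA H1
  have g1' : A1.natDegree ≤ y := hP.d1 ▸ natDegree_le_of_dvd a7 hP.m1.ne_zero
  have g2' : A2.natDegree ≤ (i1 + i2) / 36 := by
    by_contra h
    exact hB (mem_filter.2 ⟨mem_product.2 ⟨mem_product.2 ⟨c3, c5⟩, mem_product.2 ⟨c4, c6⟩⟩, hd,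
      A2, a6, sA.of_mul_right, a8, by omega,
      (dvd_mul_left A2 A1).trans (a3.trans (gcd_dvd_left _ _)),
      (dvd_mul_left A2 A1).trans (a3.trans (gcd_dvd_right _ _))⟩)
  have hA : Adm2 H1 H2 B M11 M12 M21 M22 :=
    ⟨⟨a2, hD.2.1.of_mul_right, (dvd_mul_left B _).trans hD.2.2.1,
      fun p hp h => hD.2.2.2 p hp (h.mul_left _)⟩,
      fun p hp h h' => hp.not_isUnit (a4.isUnit_of_dvd' h (dvd_gcd h'.1 h'.2))⟩
  obtain ⟨D1, D2, rfl, d1, d2, h⟩ := hyp2 hR hA l1 l2 (by omega) (by omega) (hx.trans_le hν)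
  refine ⟨D1, D2 * (A1 * A2), by ring, d1, d2, ?_⟩
  have n1 := natDegree_mul_le (p := D2) (q := A1 * A2)
  have n2 := natDegree_mul_le (p := A1) (q := A2)
  have h2 : x ≤ qq k ^ (i1 + i2 + 3) / qq k ^ D2.natDegree :=
    hν.trans (h.trans (div_le_div_of_nonneg_right hκ (by positivity)))
  refine (div_le_div_of_nonneg_right h2 (by positivity)).trans ?_
  rw [div_div, ← pow_add]
  exact div_le_div_of_nonneg_left (by positivity) (by positivity)
    (pow_le_pow_right₀ hq.le (by omega))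

theorem tail2 : ∃ C : ℝ, 0 < C ∧ ∀ {n l y : ℕ} {H1 H2 : k[X]} {τ : ℝ}, Par n l y H1 H2 τ →
    ∀ ν : k[X] × k[X] → ℝ, (∀ g, 0 < ν g → ∃ δ1 δ2 : k[X], Lev (3100 * l) δ1 ∧ Lev (3100 * l) δ2 ∧
      ν g ≤ md (n - y) (n / 2 - (620 * l + 3)) δ1 δ2 (H1 * g.1) (H2 * g.2) g.1 g.2) →
    ∑ g ∈ (box k (n / 2) ×ˢ box k (n / 2)).filter (fun g => wronskian (H1 * g.1) (H2 * g.2) ≠ 0 ∧
        qq k ^ (300 * l + 3) < (kap (2 * (n / 2 + y)) (H1 * g.1) (H2 * g.2) : ℝ)), ν g ≤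
      C * (n : ℝ) ^ 2 * τ ^ 2 * qq k ^ n / qq k ^ (5 * l) := by
  have h0 := c91_pos (k := k)
  refine ⟨(32 + qq k * Real.exp 16 + 2 * qq k) * qq k ^ 7, by positivity,
    fun {n l y H1 H2 τ} hP ν hν => ?_⟩
  have hlo := hP.lo
  have hy := hP.hy
  set S := (box k (n / 2) ×ˢ box k (n / 2)).filter (fun g => wronskian (H1 * g.1) (H2 * g.2) ≠ 0 ∧
    qq k ^ (300 * l + 3) < (kap (2 * (n / 2 + y)) (H1 * g.1) (H2 * g.2) : ℝ)) with hS
  have a1 : ∑ g ∈ S, ν g ≤ ∑ g ∈ S.filter (fun g => 0 < ν g), ν g := by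
    rw [sum_filter (fun g => 0 < ν g)]
    refine sum_le_sum fun g _ => ?_
    split_ifs with h
    · exact le_rfl
    · exact not_lt.1 h
  have hS' : ∀ g ∈ S.filter (fun g => 0 < ν g), ∃ i : ℕ × ℕ,
      t59P H1 H2 (n / 2 + y) l y i.1 i.2 (H1 * g.1, H2 * g.2) (ν g) := fun g hg => by
    obtain ⟨h1, h2⟩ := mem_filter.1 hg
    obtain ⟨h3, h4, h5⟩ := mem_filter.1 h1
    obtain ⟨δ1, δ2, l1, l2, h6⟩ := hν g h2
    obtain ⟨i1, i2, h7⟩ := t59_pt hP h2 (mem_product.1 h3).1 (mem_product.1 h3).2 h4 h5 l1 l2 h6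
    exact ⟨(i1, i2), h7⟩
  refine a1.trans ?_
  generalize S.filter (fun g => 0 < ν g) = S' at hS'
  choose! i h using hS'
  rw [← sum_fiberwise_of_maps_to (s := S') (t := range n ×ˢ range n) (g := i) (fun g hg => by
    obtain ⟨-, h1, h2⟩ := (h g hg).1
    exact mem_product.2 ⟨mem_range.2 (by omega), mem_range.2 (by omega)⟩)]
  refine (sum_le_card_nsmul _ _ ((32 + qq k * Real.exp 16 + 2 * qq k) * qq k ^ 7 * τ ^ 2 *
    qq k ^ n / qq k ^ (5 * l)) fun j _ => ?_).trans (le_of_eq ?_)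
  · have inj : ∀ g ∈ S'.filter (fun g => i g = j), ∀ g' ∈ S'.filter (fun g => i g = j),
        (H1 * g.1, H2 * g.2) = (H1 * g'.1, H2 * g'.2) → g = g' := fun g _ g' _ e =>
      Prod.ext (mul_left_cancel₀ hP.m1.ne_zero (congrArg Prod.fst e))
        (mul_left_cancel₀ hP.m2.ne_zero (congrArg Prod.snd e))
    have b1 := t59_cell hP j.1 j.2
      ((S'.filter fun g => i g = j).image fun g => (H1 * g.1, H2 * g.2))
      (fun G => ν (G.1 /ₘ H1, G.2 /ₘ H2)) fun G hG => by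
        obtain ⟨g, hg, rfl⟩ := mem_image.1 hG
        obtain ⟨h1, rfl⟩ := mem_filter.1 hg
        simp only [mul_divByMonic_cancel_left _ hP.m1, mul_divByMonic_cancel_left _ hP.m2]
        exact h g h1
    rw [sum_image inj] at b1
    simpa only [mul_divByMonic_cancel_left _ hP.m1, mul_divByMonic_cancel_left _ hP.m2] using b1
  · rw [card_product, card_range, nsmul_eq_mul]
    push_cast
    ring

end CL3.T2

end
end

-- part H86T.Zer
section

/-! h86t: row Zer. Pairs with vanishing Wronskian. -/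

set_option autoImplicit false
open Polynomial Finset UniqueFactorizationMonoid Filter Topology CL5
open scoped Classical

noncomputable section
namespace CL3.T2

variable {k : Type*} [Field k] [Fintype k]

theorem z40_qq_pos : 0 < qq k := by linarith [two_le_qq (k := k)]

theorem z40_one_le : 1 ≤ qq k := by linarith [two_le_qq (k := k)]

theorem z40_box_mono {a b : ℕ} (h : a ≤ b) {w : k[X]} (hw : w ∈ box k a) : w ∈ box k b := by
  rw [mem_box] at hw ⊢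
  exact lt_of_lt_of_le hw (by exact_mod_cast h)

theorem z40_mul_box {H g : k[X]} {M y : ℕ} (hH : H.Monic) (hy : H.natDegree = y)
    (hg : g ∈ box k M) : H * g ∈ box k (M + y) := by
  rw [mem_box] at hg ⊢
  by_cases h0 : g = 0
  · rw [h0, mul_zero, degree_zero]
    exact WithBot.bot_lt_coe _
  · rw [← natDegree_lt_iff_degree_lt h0] at hg
    rw [← natDegree_lt_iff_degree_lt (mul_ne_zero hH.ne_zero h0), natDegree_mul hH.ne_zero h0]
    omega

theorem z40_ratio {a b c : ℕ} (h : a + c ≤ b) : qq k ^ a / qq k ^ b ≤ 1 / qq k ^ c := by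
  rw [div_le_div_iff₀ (pow_pos z40_qq_pos _) (pow_pos z40_qq_pos _), one_mul, ← pow_add]
  exact pow_le_pow_right₀ z40_one_le h

variable [CharP k 3]

theorem md_zero_of_wr {H1 H2 g1 g2 : k[X]} (han : Aniso H1 H2) (h1 : g1 ≠ 0) (h2 : g2 ≠ 0)
    (hW : wronskian (H1 * g1) (H2 * g2) = 0) (n' L : ℕ) :
    md n' L 0 0 (H1 * g1) (H2 * g2) g1 g2 = 0 := by
  refine Finset.sum_eq_zero fun m _ => ?_
  rw [un_zero, un_zero]
  split_ifs with e1 e2
  · exfalso
    rw [sub_eq_zero] at e1 e2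
    obtain ⟨a0, a1, a2, ha⟩ := exists_Phi (H1 * g1)
    obtain ⟨b0, b1, b2, hb⟩ := exists_Phi (H2 * g2)
    obtain ⟨f0, f1, f2, hf⟩ := exists_Phi m
    have eg : g1 = a0 * f2 + a1 * f1 + a2 * f0 := by rw [← car_Phi_mul, ← ha, ← hf, e1]
    have eh : g2 = b0 * f2 + b1 * f1 + b2 * f0 := by rw [← car_Phi_mul, ← hb, ← hf, e2]
    rw [ha, hb, wronskian_Phi, Phi_eq_zero] at hW
    obtain ⟨m0, m1, m2⟩ := hW
    have c0 : g1 * b0 = g2 * a0 := by rw [eg, eh]; linear_combination -f1 * m0 + f0 * m1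
    have c1 : g1 * b1 = g2 * a1 := by rw [eg, eh]; linear_combination f2 * m0 - f0 * m2
    have c2 : g1 * b2 = g2 * a2 := by rw [eg, eh]; linear_combination -f2 * m1 + f1 * m2
    have e : g1 ^ 3 * (H2 * g2) = g2 ^ 3 * (H1 * g1) := by
      have p1 := Phi_mul g1 b0 b1 b2
      have p2 := Phi_mul g2 a0 a1 a2
      rw [← hb] at p1
      rw [← ha] at p2
      rw [← p1, ← p2, c0, c1, c2]
    have e' : H2 * g1 ^ 2 = H1 * g2 ^ 2 :=
      mul_left_cancel₀ (mul_ne_zero h1 h2) (by linear_combination e)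
    exact h1 (han g1 g2 e').1
  · simp
  · simp
  · simp

theorem card_wr0 {G : k[X]} (hG : G ≠ 0) (M' : ℕ) :
    (((box k M').filter fun G' => wronskian G G' = 0).card : ℝ) ≤ qq k ^ ((M' + 2) / 3) := by
  obtain ⟨a0, a1, a2, rfl⟩ := exists_Phi G
  have hmin : ∀ G' : k[X], wronskian (Phi a0 a1 a2) G' = 0 →
      a0 * co 1 G' - a1 * co 0 G' = 0 ∧ a2 * co 0 G' - a0 * co 2 G' = 0 ∧
        a1 * co 2 G' - a2 * co 1 G' = 0 := by
    intro G' h
    rw [← Phi_co G', wronskian_Phi, Phi_eq_zero] at h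
    exact h
  have hbox : ∀ G' ∈ box k M', co 0 G' ∈ box k ((M' + 2) / 3) ∧ co 1 G' ∈ box k ((M' + 2) / 3) ∧
      co 2 G' ∈ box k ((M' + 2) / 3) := by
    intro G' h
    rw [← Phi_co G', Phi_mem_box] at h
    exact ⟨h.1, z40_box_mono (by omega) h.2.1, z40_box_mono (by omega) h.2.2⟩
  have hext : ∀ u w : k[X], co 0 u = co 0 w → co 1 u = co 1 w → co 2 u = co 2 w → u = w := by
    intro u w e0 e1 e2
    rw [← Phi_co u, e0, e1, e2, Phi_co]
  rw [← card_box]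
  have key : ∀ j : ℕ, (∀ G' ∈ box k M', co j G' ∈ box k ((M' + 2) / 3)) →
      (∀ u w : k[X], wronskian (Phi a0 a1 a2) u = 0 → wronskian (Phi a0 a1 a2) w = 0 →
        co j u = co j w → u = w) →
      (((box k M').filter fun G' => wronskian (Phi a0 a1 a2) G' = 0).card : ℝ) ≤
        ((box k ((M' + 2) / 3)).card : ℝ) := by
    intro j h1 h2
    have := Finset.card_le_card_of_injOn (s := (box k M').filter fun G' =>
      wronskian (Phi a0 a1 a2) G' = 0) (t := box k ((M' + 2) / 3)) (co j)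
      (fun u hu => h1 u (Finset.mem_filter.1 hu).1)
      (fun u hu w hw e => h2 u w (Finset.mem_filter.1 hu).2 (Finset.mem_filter.1 hw).2 e)
    exact_mod_cast this
  by_cases z0 : a0 = 0
  · by_cases z1 : a1 = 0
    · have z2 : a2 ≠ 0 := fun z2 => hG (Phi_eq_zero.2 ⟨z0, z1, z2⟩)
      refine key 2 (fun u hu => (hbox u hu).2.2) fun u w hu hw e => ?_
      obtain ⟨-, u1, u2⟩ := hmin u hu
      obtain ⟨-, w1, w2⟩ := hmin w hw
      exact hext u w (mul_left_cancel₀ z2 (by linear_combination u1 - w1 + a0 * e))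
        (mul_left_cancel₀ z2 (by linear_combination w2 - u2 + a1 * e)) e
    · refine key 1 (fun u hu => (hbox u hu).2.1) fun u w hu hw e => ?_
      obtain ⟨u0, -, u2⟩ := hmin u hu
      obtain ⟨w0, -, w2⟩ := hmin w hw
      exact hext u w (mul_left_cancel₀ z1 (by linear_combination w0 - u0 + a0 * e)) e
        (mul_left_cancel₀ z1 (by linear_combination u2 - w2 + a2 * e))
  · refine key 0 (fun u hu => (hbox u hu).1) fun u w hu hw e => ?_
    obtain ⟨u0, u1, -⟩ := hmin u hu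
    obtain ⟨w0, w1, -⟩ := hmin w hw
    exact hext u w e (mul_left_cancel₀ z0 (by linear_combination u0 - w0 + a1 * e))
      (mul_left_cancel₀ z0 (by linear_combination w1 - u1 + a2 * e))

theorem z40_fib {G H : k[X]} {y : ℕ} (hG : G ≠ 0) (hH : H.Monic) (hy : H.natDegree = y) (M : ℕ) :
    ((((box k M).erase 0).filter fun g => wronskian G (H * g) = 0).card : ℝ) ≤
      qq k ^ ((M + y + 2) / 3) := by
  refine le_trans ?_ (card_wr0 hG (M + y))
  have := Finset.card_le_card_of_injOn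
    (s := ((box k M).erase 0).filter fun g => wronskian G (H * g) = 0)
    (t := (box k (M + y)).filter fun G' => wronskian G G' = 0) (fun g => H * g)
    (fun g hg => Finset.mem_filter.2
      ⟨z40_mul_box hH hy (Finset.mem_erase.1 (Finset.mem_filter.1 hg).1).2,
        (Finset.mem_filter.1 hg).2⟩)
    (fun u _ w _ e => mul_left_cancel₀ hH.ne_zero e)
  exact_mod_cast this

theorem z40_fst {H1 H2 : k[X]} {y : ℕ} (h1 : H1.Monic) (h2 : H2.Monic) (hy : H2.natDegree = y)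
    (M : ℕ) (φ : k[X] → ℝ) (hφ : ∀ g, 0 ≤ φ g) :
    ∑ g ∈ ((box k M).erase 0 ×ˢ (box k M).erase 0).filter
        (fun g => wronskian (H1 * g.1) (H2 * g.2) = 0), φ g.1 ≤
      qq k ^ ((M + y + 2) / 3) * ∑ g ∈ box k M, φ g := by
  rw [Finset.sum_filter, Finset.sum_product, Finset.mul_sum]
  refine le_trans (Finset.sum_le_sum fun g1 hg1 => ?_)
    (Finset.sum_le_sum_of_subset_of_nonneg (Finset.erase_subset 0 _)
      fun g _ _ => mul_nonneg (pow_pos z40_qq_pos _).le (hφ g))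
  dsimp only
  rw [← Finset.sum_filter, Finset.sum_const, nsmul_eq_mul]
  exact mul_le_mul_of_nonneg_right
    (z40_fib (mul_ne_zero h1.ne_zero (Finset.mem_erase.1 hg1).1) h2 hy M) (hφ g1)

theorem z40_snd {H1 H2 : k[X]} {y : ℕ} (h1 : H1.Monic) (h2 : H2.Monic) (hy : H1.natDegree = y)
    (M : ℕ) (φ : k[X] → ℝ) (hφ : ∀ g, 0 ≤ φ g) :
    ∑ g ∈ ((box k M).erase 0 ×ˢ (box k M).erase 0).filter
        (fun g => wronskian (H1 * g.1) (H2 * g.2) = 0), φ g.2 ≤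
      qq k ^ ((M + y + 2) / 3) * ∑ g ∈ box k M, φ g := by
  refine le_trans (le_of_eq ?_) (z40_fst h2 h1 hy M φ hφ)
  refine Finset.sum_nbij' Prod.swap Prod.swap ?_ ?_ ?_ ?_ ?_
  · intro g hg
    simp only [Finset.mem_filter, Finset.mem_product, Prod.fst_swap, Prod.snd_swap] at hg ⊢
    exact ⟨⟨hg.1.2, hg.1.1⟩, by rw [← wronskian_neg_eq, hg.2, neg_zero]⟩
  · intro g hg
    simp only [Finset.mem_filter, Finset.mem_product, Prod.fst_swap, Prod.snd_swap] at hg ⊢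
    exact ⟨⟨hg.1.2, hg.1.1⟩, by rw [← wronskian_neg_eq, hg.2, neg_zero]⟩
  · intro g _; rfl
  · intro g _; rfl
  · intro g _; rfl

/-- number of cofactors with one true equation -/
def z40N (n' L : ℕ) (H g : k[X]) : ℝ := ∑ m ∈ mon k n', un L 0 (car (H * g * m) - g)

theorem z40N_nonneg (n' L : ℕ) (H g : k[X]) : 0 ≤ z40N n' L H g :=
  Finset.sum_nonneg fun _ _ => un_nonneg _ _ _

theorem z40N_sum {n y : ℕ} {H : k[X]} (hH : H.Monic) (hy : H.natDegree = y) (hyn : y ≤ n)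
    (L : ℕ) : ∑ g ∈ box k (n / 2), z40N (n - y) L H g ≤
      ∑ f ∈ mon k n, ((Sol f).card : ℝ) ^ 2 := by
  have hmem : ∀ m ∈ mon k (n - y), H * m ∈ mon k n := by
    intro m hm
    obtain ⟨hmm, hmd⟩ := mem_mon.1 hm
    refine mem_mon.2 ⟨hH.mul hmm, ?_⟩
    rw [hH.natDegree_mul hmm, hy, hmd]
    omega
  simp only [z40N]
  rw [Finset.sum_comm]
  have h1 : ∀ m ∈ mon k (n - y), ∑ g ∈ box k (n / 2), un L 0 (car (H * g * m) - g) ≤
      ((Sol (H * m)).card : ℝ) ^ 2 := by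
    intro m hm
    have h2 : ∑ g ∈ box k (n / 2), un L 0 (car (H * g * m) - g) = ((Sol (H * m)).card : ℝ) := by
      rw [Sol, (mem_mon.1 (hmem m hm)).2, Finset.card_filter]
      push_cast
      refine Finset.sum_congr rfl fun g _ => ?_
      rw [un_zero, show H * g * m = g * (H * m) by ring]
      simp only [sub_eq_zero]
    rw [h2]
    exact_mod_cast Nat.le_self_pow two_ne_zero _
  refine (Finset.sum_le_sum h1).trans ?_
  have hinj : Set.InjOn (fun m => H * m) (mon k (n - y) : Set k[X]) :=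
    fun a _ b _ h => mul_left_cancel₀ hH.ne_zero h
  rw [← Finset.sum_image (f := fun f => ((Sol f).card : ℝ) ^ 2) hinj]
  refine Finset.sum_le_sum_of_subset_of_nonneg ?_ (fun f _ _ => by positivity)
  intro f hf
  obtain ⟨m, hm, rfl⟩ := Finset.mem_image.1 hf
  exact hmem m hm

theorem z40_pt {H1 H2 g1 g2 : k[X]} (han : Aniso H1 H2) (h1 : g1 ≠ 0) (h2 : g2 ≠ 0)
    (hW : wronskian (H1 * g1) (H2 * g2) = 0) (n' : ℕ) {L t : ℕ} (ht : t ≤ L) :
    |FF n' L t (H1 * g1) (H2 * g2) g1 g2| ≤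
      qq k ^ (3 * t + 1) / qq k ^ L * z40N n' L H1 g1 +
        qq k ^ (3 * t + 1) / qq k ^ L * z40N n' L H2 g2 +
        (qq k ^ (3 * t + 1) / qq k ^ L) ^ 2 * qq k ^ n' := by
  have hq := z40_qq_pos (k := k)
  set b : ℝ := qq k ^ t / qq k ^ L with hb
  have hb0 : 0 ≤ b := by positivity
  have ha : qq k ^ (3 * t + 1) / qq k ^ L = qq k ^ (2 * t + 1) * b := by
    rw [hb, show 3 * t + 1 = (2 * t + 1) + t by ring, pow_add (qq k) (2 * t + 1) t]
    ring
  have e1 : ∀ D : k[X], D.Monic → D.natDegree ≤ t →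
      |md n' L 0 D (H1 * g1) (H2 * g2) g1 g2| ≤ b * z40N n' L H1 g1 := by
    intro D hD hd
    rw [abs_of_nonneg (md_nonneg _ _ _ _ _ _ _ _), md, z40N, Finset.mul_sum]
    refine Finset.sum_le_sum fun m _ => ?_
    rw [mul_comm]
    exact mul_le_mul_of_nonneg_right (un_le hD hd ht _) (un_nonneg _ _ _)
  have e2 : ∀ D : k[X], D.Monic → D.natDegree ≤ t →
      |md n' L D 0 (H1 * g1) (H2 * g2) g1 g2| ≤ b * z40N n' L H2 g2 := by
    intro D hD hd
    rw [abs_of_nonneg (md_nonneg _ _ _ _ _ _ _ _), md, z40N, Finset.mul_sum]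
    refine Finset.sum_le_sum fun m _ => ?_
    exact mul_le_mul_of_nonneg_right (un_le hD hd ht _) (un_nonneg _ _ _)
  have e3 : ∀ D1 : k[X], D1.Monic → D1.natDegree ≤ t → ∀ D2 : k[X], D2.Monic → D2.natDegree ≤ t →
      |md n' L D1 D2 (H1 * g1) (H2 * g2) g1 g2| ≤ b * b * qq k ^ n' := by
    intro D1 hD1 hd1 D2 hD2 hd2
    rw [abs_of_nonneg (md_nonneg _ _ _ _ _ _ _ _), md, ← card_mon (k := k) n', mul_comm (b * b),
      ← nsmul_eq_mul, ← Finset.sum_const]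
    refine Finset.sum_le_sum fun m _ => ?_
    exact mul_le_mul (un_le hD1 hd1 ht _) (un_le hD2 hd2 ht _) (un_nonneg _ _ _) hb0
  have f1 := mob_c e1
  have f2 : ∀ D1 : k[X], D1.Monic → D1.natDegree ≤ t →
      |Dl t fun D2 => md n' L D1 D2 (H1 * g1) (H2 * g2) g1 g2| ≤
        b * z40N n' L H2 g2 + qq k ^ (2 * t + 1) * (b * b * qq k ^ n') := by
    intro D1 hD1 hd1
    rw [Dl]
    exact (abs_sub _ _).trans (add_le_add (e2 D1 hD1 hd1) (mob_c (e3 D1 hD1 hd1)))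
  have f3 := mob_c f2
  have f4 : (Dl t fun D2 => md n' L 0 D2 (H1 * g1) (H2 * g2) g1 g2) =
      -tr t fun D2 => md n' L 0 D2 (H1 * g1) (H2 * g2) g1 g2 := by
    rw [Dl, md_zero_of_wr han h1 h2 hW, zero_sub]
  rw [FF, Dl, f4, ha]
  refine (abs_sub _ _).trans ?_
  rw [abs_neg]
  refine (add_le_add f1 f3).trans (le_of_eq ?_)
  ring

theorem zero_part : ∃ C : ℝ, 0 < C ∧ ∀ {n l y : ℕ} {H1 H2 : k[X]} {τ : ℝ}, Par n l y H1 H2 τ →
    ∑ g ∈ ((box k (n / 2)).erase 0 ×ˢ (box k (n / 2)).erase 0).filter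
        (fun g => wronskian (H1 * g.1) (H2 * g.2) = 0),
      |FF (n - y) (n / 2 - (620 * l + 3)) (300 * l + 2) (H1 * g.1) (H2 * g.2) g.1 g.2| ≤
      C * qq k ^ n / qq k ^ (5 * l) := by
  obtain ⟨K2, hK2, hl2⟩ := l2 (k := k)
  refine ⟨2 * K2 + 1, by positivity, ?_⟩
  intro n l y H1 H2 τ hP
  have hq := z40_qq_pos (k := k)
  have hlo := hP.lo
  have hbig := hP.big
  have hy := hP.hy
  set L := n / 2 - (620 * l + 3) with hL
  set t := 300 * l + 2 with ht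
  set a : ℝ := qq k ^ (3 * t + 1) / qq k ^ L with ha
  have ha0 : 0 ≤ a := by positivity
  set W : ℝ := qq k ^ ((n / 2 + y + 2) / 3) with hW
  have hW0 : 0 ≤ W := by positivity
  have s1 := (z40_fst hP.m1 hP.m2 hP.d2 (n / 2) (z40N (n - y) L H1) (z40N_nonneg _ _ _)).trans
    (mul_le_mul_of_nonneg_left ((z40N_sum hP.m1 hP.d1 (by omega) L).trans (hl2 n)) hW0)
  have s2 := (z40_snd hP.m1 hP.m2 hP.d1 (n / 2) (z40N (n - y) L H2) (z40N_nonneg _ _ _)).trans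
    (mul_le_mul_of_nonneg_left ((z40N_sum hP.m2 hP.d2 (by omega) L).trans (hl2 n)) hW0)
  have s3 := z40_fst hP.m1 hP.m2 hP.d2 (n / 2) (fun _ => (1 : ℝ)) (fun _ => zero_le_one)
  rw [Finset.sum_const (s := box k (n / 2)), nsmul_eq_mul, card_box, mul_one] at s3
  have r1 : W * a ≤ 1 / qq k ^ (5 * l) := by
    rw [hW, ha, ← mul_div_assoc, ← pow_add]
    exact z40_ratio (by omega)
  have r2 : W * qq k ^ (n / 2) * a ^ 2 ≤ 1 / qq k ^ (5 * l) := by
    rw [hW, ha, div_pow, ← mul_div_assoc, ← pow_mul, ← pow_mul, ← pow_add, ← pow_add]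
    exact z40_ratio (by omega)
  have r3 : qq k ^ (n - y) ≤ qq k ^ n := pow_le_pow_right₀ z40_one_le (by omega)
  refine (Finset.sum_le_sum fun g hg => ?_ : _ ≤ ∑ g ∈ ((box k (n / 2)).erase 0 ×ˢ
      (box k (n / 2)).erase 0).filter (fun g => wronskian (H1 * g.1) (H2 * g.2) = 0),
      (a * z40N (n - y) L H1 g.1 + a * z40N (n - y) L H2 g.2 +
        a ^ 2 * qq k ^ (n - y) * 1)).trans ?_
  · obtain ⟨hg, hw⟩ := Finset.mem_filter.1 hg
    obtain ⟨hg1, hg2⟩ := Finset.mem_product.1 hg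
    rw [mul_one]
    exact z40_pt hP.an (Finset.mem_erase.1 hg1).1 (Finset.mem_erase.1 hg2).1 hw _ (by omega)
  · rw [Finset.sum_add_distrib, Finset.sum_add_distrib, ← Finset.mul_sum, ← Finset.mul_sum,
      ← Finset.mul_sum]
    have u1 := mul_le_mul_of_nonneg_left s1 ha0
    have u2 := mul_le_mul_of_nonneg_left s2 ha0
    have u3 := mul_le_mul_of_nonneg_left s3 (show 0 ≤ a ^ 2 * qq k ^ (n - y) by positivity)
    have v1 := mul_le_mul_of_nonneg_right r1 (show 0 ≤ K2 * qq k ^ n by positivity)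
    have v2 := mul_le_mul r2 r3 (by positivity) (by positivity)
    have e : (2 * K2 + 1) * qq k ^ n / qq k ^ (5 * l) =
        2 * (1 / qq k ^ (5 * l) * (K2 * qq k ^ n)) + 1 / qq k ^ (5 * l) * qq k ^ n := by ring
    rw [e]
    nlinarith [u1, u2, u3, v1, v2]

end CL3.T2

end
end

-- part H86T.Dir
section

/-! h86t: row Dir. The middle range against the weight of one direction. -/

set_option autoImplicit false
open Polynomial Finset UniqueFactorizationMonoid Filter Topology CL5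
open scoped Classical

noncomputable section
namespace CL3.T2

variable {k : Type*} [Field k] [Fintype k]

theorem t20_split {α : Type*} [DecidableEq α] (S G : Finset α) (F D : α → ℝ)
    (h : ∀ g ∈ S, g ∈ G → F g = D g) :
    |∑ g ∈ S, F g| ≤ |∑ g ∈ G, D g| + ∑ g ∈ G \ S, |D g| + ∑ g ∈ S \ G, |F g| := by
  have h1 := sum_inter_add_sum_sdiff S G F
  have h2 := sum_inter_add_sum_sdiff G S D
  have h3 : ∑ g ∈ S ∩ G, F g = ∑ g ∈ G ∩ S, D g := by
    rw [inter_comm G S]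
    exact sum_congr rfl fun g hg => h g (mem_inter.1 hg).1 (mem_inter.1 hg).2
  have h4 := abs_le.1 (abs_sum_le_sum_abs D (G \ S))
  have h5 := abs_le.1 (abs_sum_le_sum_abs F (S \ G))
  have h6 := le_abs_self (∑ g ∈ G, D g)
  have h7 := neg_abs_le (∑ g ∈ G, D g)
  rw [abs_le]
  constructor <;> linarith [h4.1, h4.2, h5.1, h5.2]

theorem t20_pow {a b c d : ℕ} (h : a + d ≤ c + b) :
    qq k ^ a / qq k ^ b ≤ qq k ^ c / qq k ^ d := by
  have hq : (2 : ℝ) ≤ qq k := two_le_qq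
  rw [div_le_div_iff₀ (by positivity) (by positivity), ← pow_add, ← pow_add]
  exact pow_le_pow_right₀ (by linarith) h

theorem t20_mem {M y : ℕ} {H g : k[X]} (hH : H.natDegree = y) (hg : g ∈ box k M) :
    H * g ∈ box k (M + y) := by
  rw [mem_box] at hg ⊢
  by_cases h0 : H * g = 0
  · rw [h0, degree_zero]
    exact WithBot.bot_lt_coe _
  · rw [← natDegree_lt_iff_degree_lt h0]
    rw [← natDegree_lt_iff_degree_lt (right_ne_zero_of_mul h0)] at hg
    have := natDegree_mul_le (p := H) (q := g)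
    omega

theorem t20_card {M y : ℕ} {H1 H2 : k[X]} (m1 : H1 ≠ 0) (m2 : H2 ≠ 0) (d1 : H1.natDegree = y)
    (d2 : H2.natDegree = y) (S T : Finset (k[X] × k[X])) (P : k[X] × k[X] → Prop)
    (hS : ∀ g ∈ S, g ∈ box k M ×ˢ box k M ∧ P (H1 * g.1, H2 * g.2))
    (hT : ∀ G ∈ box k (M + y) ×ˢ box k (M + y), P G → G ∈ T) : (S.card : ℝ) ≤ T.card := by
  refine Nat.cast_le.2 (card_le_card_of_injOn (fun g => (H1 * g.1, H2 * g.2)) ?_ ?_)
  · intro g hg
    obtain ⟨h1, h2⟩ := hS g hg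
    rw [mem_product] at h1
    exact hT _ (mem_product.2 ⟨t20_mem d1 h1.1, t20_mem d2 h1.2⟩) h2
  · intro g _ g' _ h
    rw [Prod.mk.injEq] at h
    exact Prod.ext (mul_left_cancel₀ m1 h.1) (mul_left_cancel₀ m2 h.2)

variable [CharP k 3]

theorem t20_w {n l y : ℕ} {H1 H2 : k[X]} {τ : ℝ} (hP : Par n l y H1 H2 τ) {v g1 g2 : k[X]}
    (hv : v ∈ mon k (620 * l)) (hg1 : g1 ∈ box k (n / 2)) (hg2 : g2 ∈ box k (n / 2))
    (hw : ww v (H1 * g1) (H2 * g2) ≠ 0) : wv (29000 * l) v (H1 * g1) (H2 * g2) ≤ n := by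
  have h1 := hP.lo
  have h2 := hP.big
  have h3 := hP.hy
  have h4 := ww_deg (t20_mem hP.d1 hg1) (t20_mem hP.d2 hg2) hv (by omega) hw
  refine (wv_le_deg (by omega) hw).trans (Nat.cast_le.2 (by omega))

theorem dir_sum : ∃ C : ℝ, 0 < C ∧ ∀ {n l y : ℕ} {H1 H2 : k[X]} {τ : ℝ}, Par n l y H1 H2 τ → ∀ v ∈ mon k (620 * l),
    |∑ g ∈ (box k (n / 2) ×ˢ box k (n / 2)).filter (fun g => wronskian (H1 * g.1) (H2 * g.2) ≠ 0 ∧
        (kap (2 * (n / 2 + y)) (H1 * g.1) (H2 * g.2) : ℝ) ≤ qq k ^ (300 * l + 3)),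
      FF (n - y) (n / 2 - (620 * l + 3)) (300 * l + 2) (H1 * g.1) (H2 * g.2) g.1 g.2 * wv (29000 * l) v (H1 * g.1) (H2 * g.2)| ≤
      C * (n : ℝ) ^ 3 * τ ^ 2 * qq k ^ n / qq k ^ (5 * l) := by
  obtain ⟨Ct, hCt, tail⟩ := tail2 (k := k)
  obtain ⟨Cg, hCg, ngood⟩ := card_not_good (k := k)
  obtain ⟨Cz, hCz, zero⟩ := card_ww_zero (k := k)
  have hq : (2 : ℝ) ≤ qq k := two_le_qq
  have hq0 : (0 : ℝ) < qq k := by linarith
  refine ⟨2 + 2 * Ct + 2 * qq k ^ 3 * Cg + 2 * qq k ^ 3 * Cz, by positivity, ?_⟩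
  intro n l y H1 H2 τ hP v hv
  have h1 := hP.lo
  have h2 := hP.big
  have h3 := hP.hy
  have hτ : 1 ≤ τ := hP.tau.1
  have hn : (1 : ℝ) ≤ n := by exact_mod_cast (by omega : 1 ≤ n)
  have hpl := pln hP hv
  set L := n / 2 - (620 * l + 3) with hL
  set Gd : k[X] × k[X] → Prop := fun g =>
    GoodV (n / 2 + y) (620 * l) (620 * l) (3100 * l) H1 H2 v (H1 * g.1) (H2 * g.2) with hGd
  have t1 := tail hP (fun g => md (n - y) L 0 0 (H1 * g.1) (H2 * g.2) g.1 g.2)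
    fun g _ => ⟨0, 0, Or.inl rfl, Or.inl rfl, le_rfl⟩
  have t2 := tail hP (fun g => if Gd g then md (n - y) L (RR H1 H2 v (H1 * g.1) (H2 * g.2))
      (RR H1 H2 v (H1 * g.1) (H2 * g.2)) (H1 * g.1) (H2 * g.2) g.1 g.2 else 0) fun g hg => by
    by_cases h : Gd g
    · have hl : Lev (3100 * l) (RR H1 H2 v (H1 * g.1) (H2 * g.2)) :=
        Or.inr ⟨(fac h.1.1 _ _).1, h.2⟩
      refine ⟨_, _, hl, hl, ?_⟩
      rw [if_pos h]
    · rw [if_neg h] at hg
      exact absurd hg (lt_irrefl _)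
  have c1 := ngood hP v hv
  have c2 := zero hP v hv
  clear tail ngood zero
  generalize hT : (box k (n / 2) ×ˢ box k (n / 2)).filter (fun g => wronskian (H1 * g.1) (H2 * g.2) ≠ 0 ∧
    qq k ^ (300 * l + 3) < (kap (2 * (n / 2 + y)) (H1 * g.1) (H2 * g.2) : ℝ)) = T at t1 t2
  generalize hG : (box k (n / 2) ×ˢ box k (n / 2)).filter (fun g =>
    GoodV (n / 2 + y) (620 * l) (620 * l) (3100 * l) H1 H2 v (H1 * g.1) (H2 * g.2)) = G at hpl
  generalize hS : (box k (n / 2) ×ˢ box k (n / 2)).filter (fun g => wronskian (H1 * g.1) (H2 * g.2) ≠ 0 ∧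
    (kap (2 * (n / 2 + y)) (H1 * g.1) (H2 * g.2) : ℝ) ≤ qq k ^ (300 * l + 3)) = S
  have mS : ∀ g, g ∈ S ↔ g ∈ box k (n / 2) ×ˢ box k (n / 2) ∧ wronskian (H1 * g.1) (H2 * g.2) ≠ 0 ∧
      (kap (2 * (n / 2 + y)) (H1 * g.1) (H2 * g.2) : ℝ) ≤ qq k ^ (300 * l + 3) := fun g => by
    rw [← hS, mem_filter]
  have mG : ∀ g, g ∈ G ↔ g ∈ box k (n / 2) ×ˢ box k (n / 2) ∧ Gd g := fun g => by
    rw [← hG, mem_filter]
  have mT : ∀ g, g ∈ T ↔ g ∈ box k (n / 2) ×ˢ box k (n / 2) ∧ wronskian (H1 * g.1) (H2 * g.2) ≠ 0 ∧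
      qq k ^ (300 * l + 3) < (kap (2 * (n / 2 + y)) (H1 * g.1) (H2 * g.2) : ℝ) := fun g => by
    rw [← hT, mem_filter]
  refine (t20_split S G _ (fun g => De (n - y) L H1 H2 v g.1 g.2 *
    wv (29000 * l) v (H1 * g.1) (H2 * g.2)) fun g hs hg => ?_).trans ?_
  · obtain ⟨a, -, b⟩ := (mS g).1 hs
    rw [mem_product] at a
    simp only [pt_good hP hv a.1 a.2 b ((mG g).1 hg).2, hL]
  have sub : G \ S ⊆ T := fun g hg => by
    obtain ⟨a, b⟩ := mem_sdiff.1 hg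
    obtain ⟨c, d⟩ := (mG g).1 a
    have e := wr_ne_of_ww d.1.1
    exact (mT g).2 ⟨c, e, lt_of_not_ge fun f => b ((mS g).2 ⟨c, e, f⟩)⟩
  have b1 : ∑ g ∈ G \ S, |De (n - y) L H1 H2 v g.1 g.2 * wv (29000 * l) v (H1 * g.1) (H2 * g.2)| ≤
      n * (2 * (Ct * (n : ℝ) ^ 2 * τ ^ 2 * qq k ^ n / qq k ^ (5 * l))) := by
    refine le_trans ?_ (mul_le_mul_of_nonneg_left ((add_le_add t1 t2).trans (two_mul _).ge)
      (by positivity))
    rw [← sum_add_distrib, mul_sum]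
    refine le_trans (sum_le_sum fun g hg => ?_) (sum_le_sum_of_subset_of_nonneg sub
      fun g _ _ => mul_nonneg (by positivity) (add_nonneg (md_nonneg ..) ?_))
    · obtain ⟨c, d⟩ := (mG g).1 (mem_sdiff.1 hg).1
      rw [mem_product] at c
      rw [if_pos d, abs_mul, abs_of_nonneg (wv_nonneg ..), mul_comm]
      refine mul_le_mul (t20_w hP hv c.1 c.2 d.1.1) ?_ (abs_nonneg _) (by positivity)
      unfold De
      refine (abs_sub _ _).trans ?_
      rw [abs_of_nonneg (md_nonneg ..), abs_of_nonneg (md_nonneg ..)]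
    · split_ifs
      · exact md_nonneg ..
      · exact le_rfl
  have k1 := (t20_card hP.m1.ne_zero hP.m2.ne_zero hP.d1 hP.d2 (S \ G) _
    (fun G => ¬ GoodV (n / 2 + y) (620 * l) (620 * l) (3100 * l) H1 H2 v G.1 G.2)
    (fun g hg => ⟨((mS g).1 (mem_sdiff.1 hg).1).1, fun h =>
      (mem_sdiff.1 hg).2 ((mG g).2 ⟨((mS g).1 (mem_sdiff.1 hg).1).1, h⟩)⟩)
    (fun G a b => mem_filter.2 ⟨a, b⟩)).trans c1
  have k2 := (t20_card hP.m1.ne_zero hP.m2.ne_zero hP.d1 hP.d2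
    ((S \ G).filter fun g => ww v (H1 * g.1) (H2 * g.2) = 0) _ (fun G => ww v G.1 G.2 = 0)
    (fun g hg => ⟨((mS g).1 (mem_sdiff.1 (mem_filter.1 hg).1).1).1, (mem_filter.1 hg).2⟩)
    (fun G a b => mem_filter.2 ⟨a, b⟩)).trans c2
  have b2 : ∑ g ∈ S \ G, |FF (n - y) L (300 * l + 2) (H1 * g.1) (H2 * g.2) g.1 g.2 *
      wv (29000 * l) v (H1 * g.1) (H2 * g.2)| ≤ 2 * qq k ^ (300 * l + 3) * (n * (S \ G).card +
        qq k ^ (29000 * l) * ((S \ G).filter fun g => ww v (H1 * g.1) (H2 * g.2) = 0).card) := by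
    rw [card_filter, card_eq_sum_ones]
    push_cast
    rw [mul_sum, mul_sum, ← sum_add_distrib, mul_sum]
    refine sum_le_sum fun g hg => ?_
    obtain ⟨a, b, c⟩ := (mS g).1 (mem_sdiff.1 hg).1
    rw [mem_product] at a
    rw [abs_mul, abs_of_nonneg (wv_nonneg ..)]
    refine mul_le_mul (pt_mid hP a.1 a.2 b c) ?_ (wv_nonneg ..) (by positivity)
    split_ifs with h
    · have := wv_le_pow (29000 * l) v (H1 * g.1) (H2 * g.2)
      linarith
    · have := t20_w hP hv a.1 a.2 h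
      linarith
  have p1 : qq k ^ (300 * l + 3 + 2 * (n / 2 + y)) / qq k ^ (310 * l) ≤
      qq k ^ (3 + n) / qq k ^ (5 * l) := t20_pow (by omega)
  have p2 : qq k ^ (300 * l + 3 + 29000 * l + 2 * (n / 2 + y)) / qq k ^ ((n / 2 + y) / 3) ≤
      qq k ^ (3 + n) / qq k ^ (5 * l) := t20_pow (by omega)
  rw [pow_add _ 3 n, mul_div_assoc] at p1 p2
  rw [mul_div_assoc] at hpl b1 ⊢
  generalize hY : qq k ^ n / qq k ^ (5 * l) = Y at *
  have Y0 : 0 ≤ Y := by rw [← hY]; positivity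
  have e1 : (1 : ℝ) ≤ n ^ 3 * τ ^ 2 := one_le_mul_of_one_le_of_one_le (one_le_pow₀ hn) (one_le_pow₀ hτ)
  have e2 : (n : ℝ) ≤ n ^ 3 := le_self_pow₀ hn (by norm_num)
  have e3 : τ ≤ τ ^ 2 := le_self_pow₀ hτ (by norm_num)
  have e4 : n * τ ≤ (n : ℝ) ^ 3 * τ ^ 2 := mul_le_mul e2 e3 (by linarith) (by positivity)
  have s1 : 2 * (n : ℝ) * τ ^ 2 * Y ≤ 2 * (n ^ 3 * τ ^ 2) * Y := by
    rw [mul_assoc 2]
    gcongr
  have s2 : 2 * qq k ^ (300 * l + 3) * (n * ((S \ G).card : ℝ)) ≤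
      2 * qq k ^ 3 * Cg * (n ^ 3 * τ ^ 2) * Y :=
    calc _ ≤ 2 * qq k ^ (300 * l + 3) *
          (n * (Cg * τ * qq k ^ (2 * (n / 2 + y)) / qq k ^ (310 * l))) := by gcongr
      _ = 2 * Cg * (n * τ) * (qq k ^ (300 * l + 3 + 2 * (n / 2 + y)) / qq k ^ (310 * l)) := by
          rw [pow_add _ (300 * l + 3)]; ring
      _ ≤ 2 * Cg * (n ^ 3 * τ ^ 2) * (qq k ^ 3 * Y) := by gcongr
      _ = _ := by ring
  have s3 : 2 * qq k ^ (300 * l + 3) * (qq k ^ (29000 * l) *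
      (((S \ G).filter fun g => ww v (H1 * g.1) (H2 * g.2) = 0).card : ℝ)) ≤
      2 * qq k ^ 3 * Cz * (n ^ 3 * τ ^ 2) * Y :=
    calc _ ≤ 2 * qq k ^ (300 * l + 3) * (qq k ^ (29000 * l) *
          (Cz * qq k ^ (2 * (n / 2 + y)) / qq k ^ ((n / 2 + y) / 3))) := by gcongr
      _ = 2 * Cz * 1 * (qq k ^ (300 * l + 3 + 29000 * l + 2 * (n / 2 + y)) /
          qq k ^ ((n / 2 + y) / 3)) := by
          rw [pow_add _ (300 * l + 3 + 29000 * l), pow_add _ (300 * l + 3)]; ring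
      _ ≤ 2 * Cz * (n ^ 3 * τ ^ 2) * (qq k ^ 3 * Y) := by gcongr
      _ = _ := by ring
  rw [mul_add] at b2
  have s4 : (n : ℝ) * (2 * (Ct * n ^ 2 * τ ^ 2 * Y)) = 2 * Ct * (n ^ 3 * τ ^ 2) * Y := by ring
  have s5 : (2 + 2 * Ct + 2 * qq k ^ 3 * Cg + 2 * qq k ^ 3 * Cz) * (n : ℝ) ^ 3 * τ ^ 2 * Y =
      2 * (n ^ 3 * τ ^ 2) * Y + 2 * Ct * (n ^ 3 * τ ^ 2) * Y +
        (2 * qq k ^ 3 * Cg * (n ^ 3 * τ ^ 2) * Y + 2 * qq k ^ 3 * Cz * (n ^ 3 * τ ^ 2) * Y) := by ring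
  rw [s5]
  exact add_le_add (add_le_add (hpl.trans s1) (b1.trans s4.le)) (b2.trans (add_le_add s2 s3))

end CL3.T2

end
end

-- part H86T.End
section

/-! h86t: row End. The off-diagonal sum. -/

set_option autoImplicit false
open Polynomial Finset UniqueFactorizationMonoid Filter Topology CL5
open scoped Classical

noncomputable section
namespace CL3.T2

variable {k : Type*} [Field k] [Fintype k]

omit [Fintype k] in
theorem t36_mul_deg {H g : k[X]} {y M : ℕ} (hH : H.natDegree = y) (hg : g.degree < (M : ℕ)) :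
    (H * g).degree < ((M + y : ℕ) : WithBot ℕ) := by
  rcases eq_or_ne (H * g) 0 with h | h
  · rw [h, degree_zero]
    exact WithBot.bot_lt_coe _
  · have hg0 : g ≠ 0 := right_ne_zero_of_mul h
    have h1 : g.natDegree < M := (natDegree_lt_iff_degree_lt hg0).2 hg
    rw [← natDegree_lt_iff_degree_lt h]
    have := natDegree_mul_le (p := H) (q := g)
    omega

theorem t36_transfer {H1 H2 : k[X]} {y M : ℕ} (m1 : H1.Monic) (m2 : H2.Monic)
    (d1 : H1.natDegree = y) (d2 : H2.natDegree = y) {S : Finset (k[X] × k[X])}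
    (hS : S ⊆ box k M ×ˢ box k M) (φ : k[X] → k[X] → ℝ) (hφ : ∀ a b, 0 ≤ φ a b) :
    ∑ g ∈ S, φ (H1 * g.1) (H2 * g.2) ≤ ∑ G ∈ box k (M + y) ×ˢ box k (M + y), φ G.1 G.2 := by
  have hinj : Set.InjOn (fun g : k[X] × k[X] => (H1 * g.1, H2 * g.2)) S := by
    intro a _ b _ h
    obtain ⟨h1, h2⟩ := Prod.mk.inj h
    exact Prod.ext (mul_left_cancel₀ m1.ne_zero h1) (mul_left_cancel₀ m2.ne_zero h2)
  have := sum_image (s := S) (g := fun g : k[X] × k[X] => (H1 * g.1, H2 * g.2))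
    (f := fun G : k[X] × k[X] => φ G.1 G.2) hinj
  rw [← this]
  refine sum_le_sum_of_subset_of_nonneg ?_ fun G _ _ => hφ _ _
  intro G hG
  obtain ⟨g, hg, rfl⟩ := mem_image.1 hG
  obtain ⟨h1, h2⟩ := mem_product.1 (hS hg)
  exact mem_product.2 ⟨mem_box.2 (t36_mul_deg d1 (mem_box.1 h1)),
    mem_box.2 (t36_mul_deg d2 (mem_box.1 h2))⟩

theorem t36_abs {x a : ℝ} (ha : 0 < a) : |x| ≤ 1 / a + a * x ^ 2 := by
  have h : 1 / a + a * x ^ 2 - |x| = ((1 - a * |x|) ^ 2 + a * |x|) / a := by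
    rw [← sq_abs x]
    field_simp
    ring
  have h2 : 0 ≤ ((1 - a * |x|) ^ 2 + a * |x|) / a := by positivity
  linarith

variable [CharP k 3]

theorem t36_l1 {M' l : ℕ} (h1 : 1 ≤ l) (h3 : 2 * (29000 * l) ≤ M' / 3) :
    ∑ G ∈ box k M' ×ˢ box k M', |1 - om (620 * l) (29000 * l) G.1 G.2| ≤
      31 * (M' : ℝ) ^ 2 * qq k ^ (2 * M') / qq k ^ (310 * l) := by
  have hq : 0 < qq k := by linarith [two_le_qq (k := k)]
  have ha : 0 < qq k ^ (310 * l) := pow_pos hq _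
  have h := lln (k := k) (M' := M') (θ := 620 * l) (s0 := 29000 * l) (by omega) (by omega) h3
  have hM : (1 : ℝ) ≤ M' := by exact_mod_cast (by omega : 1 ≤ M')
  have e : qq k ^ (620 * l) = qq k ^ (310 * l) * qq k ^ (310 * l) := by
    rw [← pow_add]
    congr 1
    omega
  have hc : ((box k M' ×ˢ box k M').card : ℝ) = qq k ^ (2 * M') := by
    rw [card_product, Nat.cast_mul, card_box, two_mul, pow_add]
  refine (sum_le_sum fun G _ => t36_abs ha).trans ?_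
  rw [sum_add_distrib, sum_const, nsmul_eq_mul, hc, ← mul_sum]
  rw [e] at h
  have hQ : 0 < qq k ^ (2 * M') := pow_pos hq _
  generalize qq k ^ (310 * l) = a at ha h ⊢
  generalize qq k ^ (2 * M') = Q at hQ h ⊢
  have h4 := mul_le_mul_of_nonneg_left h ha.le
  have e2 : a * (30 * (M' : ℝ) ^ 2 * Q / (a * a)) = 30 * (M' : ℝ) ^ 2 * (Q / a) := by
    field_simp
  have h5 : Q / a ≤ (M' : ℝ) ^ 2 * (Q / a) :=
    le_mul_of_one_le_left (by positivity) (one_le_pow₀ hM)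
  rw [e2] at h4
  rw [mul_div_assoc, mul_one_div]
  linarith

theorem mid_sum : ∃ C : ℝ, 0 < C ∧ ∀ {n l y : ℕ} {H1 H2 : k[X]} {τ : ℝ}, Par n l y H1 H2 τ →
    |∑ g ∈ (box k (n / 2) ×ˢ box k (n / 2)).filter (fun g => wronskian (H1 * g.1) (H2 * g.2) ≠ 0 ∧
        (kap (2 * (n / 2 + y)) (H1 * g.1) (H2 * g.2) : ℝ) ≤ qq k ^ (300 * l + 3)),
      FF (n - y) (n / 2 - (620 * l + 3)) (300 * l + 2) (H1 * g.1) (H2 * g.2) g.1 g.2| ≤
      C * (n : ℝ) ^ 4 * τ ^ 2 * qq k ^ n / qq k ^ (5 * l) := by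
  obtain ⟨C, hC, hD⟩ := dir_sum (k := k)
  have hq : 0 < qq k := by linarith [two_le_qq (k := k)]
  have hq1 : 1 ≤ qq k := by linarith [two_le_qq (k := k)]
  refine ⟨62 * qq k ^ 3 + C, by positivity, fun {n l y H1 H2 τ} hP => ?_⟩
  have hlo := hP.lo
  have hbig := hP.big
  have hy := hP.hy
  have hτ : 1 ≤ τ := hP.tau.1
  have hn : (1 : ℝ) ≤ n := by exact_mod_cast (by omega : 1 ≤ n)
  set S := (box k (n / 2) ×ˢ box k (n / 2)).filter (fun g => wronskian (H1 * g.1) (H2 * g.2) ≠ 0 ∧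
        (kap (2 * (n / 2 + y)) (H1 * g.1) (H2 * g.2) : ℝ) ≤ qq k ^ (300 * l + 3)) with hS
  set F : k[X] × k[X] → ℝ := fun g =>
    FF (n - y) (n / 2 - (620 * l + 3)) (300 * l + 2) (H1 * g.1) (H2 * g.2) g.1 g.2 with hF
  have hsplit : ∑ g ∈ S, F g =
      ∑ g ∈ S, F g * (1 - om (620 * l) (29000 * l) (H1 * g.1) (H2 * g.2)) +
        ∑ g ∈ S, F g * om (620 * l) (29000 * l) (H1 * g.1) (H2 * g.2) := by
    rw [← sum_add_distrib]
    exact sum_congr rfl fun g _ => by ring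
  -- first part
  have h1 : |∑ g ∈ S, F g * (1 - om (620 * l) (29000 * l) (H1 * g.1) (H2 * g.2))| ≤
      62 * qq k ^ 3 * (n : ℝ) ^ 2 * (qq k ^ n / qq k ^ (5 * l)) := by
    have a1 : |∑ g ∈ S, F g * (1 - om (620 * l) (29000 * l) (H1 * g.1) (H2 * g.2))| ≤
        2 * qq k ^ (300 * l + 3) *
          ∑ g ∈ S, |1 - om (620 * l) (29000 * l) (H1 * g.1) (H2 * g.2)| := by
      rw [mul_sum]
      refine (abs_sum_le_sum_abs _ _).trans (sum_le_sum fun g hg => ?_)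
      obtain ⟨hg1, hg2, hg3⟩ := mem_filter.1 hg
      rw [abs_mul]
      exact mul_le_mul_of_nonneg_right
        (pt_mid hP (mem_product.1 hg1).1 (mem_product.1 hg1).2 hg2 hg3) (abs_nonneg _)
    have a2 := t36_transfer hP.m1 hP.m2 hP.d1 hP.d2 (S := S) (filter_subset _ _)
      (fun a b => |1 - om (620 * l) (29000 * l) a b|) fun _ _ => abs_nonneg _
    have a3 := t36_l1 (k := k) (M' := n / 2 + y) (l := l) (by omega) (by omega)
    have a4 : ((n / 2 + y : ℕ) : ℝ) ^ 2 ≤ (n : ℝ) ^ 2 :=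
      pow_le_pow_left₀ (Nat.cast_nonneg _) (by exact_mod_cast (by omega : n / 2 + y ≤ n)) 2
    have a5 : qq k ^ (300 * l + 3) * (qq k ^ (2 * (n / 2 + y)) / qq k ^ (310 * l)) ≤
        qq k ^ 3 * (qq k ^ n / qq k ^ (5 * l)) := by
      rw [← mul_div_assoc, ← mul_div_assoc, div_le_div_iff₀ (pow_pos hq _) (pow_pos hq _),
        ← pow_add, ← pow_add, ← pow_add, ← pow_add]
      exact pow_le_pow_right₀ hq1 (by omega)
    have a6 : 0 ≤ qq k ^ (300 * l + 3) * (qq k ^ (2 * (n / 2 + y)) / qq k ^ (310 * l)) := by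
      positivity
    have a7 := mul_le_mul a4 a5 a6 (by positivity)
    have a8 := mul_le_mul_of_nonneg_left (a2.trans a3)
      (show 0 ≤ 2 * qq k ^ (300 * l + 3) by positivity)
    refine a1.trans (a8.trans ?_)
    rw [mul_div_assoc]
    generalize qq k ^ (2 * (n / 2 + y)) / qq k ^ (310 * l) = A at a7 ⊢
    generalize qq k ^ n / qq k ^ (5 * l) = B at a7 ⊢
    generalize qq k ^ (300 * l + 3) = D at a7 ⊢
    generalize ((n / 2 + y : ℕ) : ℝ) ^ 2 = E at a7 ⊢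
    linarith
  -- second part
  have h2 : |∑ g ∈ S, F g * om (620 * l) (29000 * l) (H1 * g.1) (H2 * g.2)| ≤
      C * (n : ℝ) ^ 4 * τ ^ 2 * (qq k ^ n / qq k ^ (5 * l)) := by
    have b0 := irr_lower (k := k) (j := 29000 * l) (by omega)
    have b1 : 3 * ((29000 * l : ℕ) : ℝ) ≤ n := by exact_mod_cast (by omega : 3 * (29000 * l) ≤ n)
    have hs : 0 < qq k ^ (29000 * l) := pow_pos hq _
    have hθ : 0 < qq k ^ (620 * l) := pow_pos hq _
    have b2 : qq k ^ (29000 * l) ≤ n * ((irr k (29000 * l)).card : ℝ) :=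
      b0.trans (mul_le_mul_of_nonneg_right b1 (Nat.cast_nonneg _))
    have hI : (0 : ℝ) < (irr k (29000 * l)).card := by
      by_contra hneg
      have := mul_nonpos_of_nonneg_of_nonpos (show (0 : ℝ) ≤ n by positivity) (not_lt.1 hneg)
      linarith
    have e : ∑ g ∈ S, F g * om (620 * l) (29000 * l) (H1 * g.1) (H2 * g.2) =
        (∑ v ∈ mon k (620 * l), ∑ g ∈ S, F g * wv (29000 * l) v (H1 * g.1) (H2 * g.2)) /
          (qq k ^ (620 * l) * (((irr k (29000 * l)).card : ℝ) / qq k ^ (29000 * l))) := by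
      rw [sum_comm, sum_div]
      refine sum_congr rfl fun g _ => ?_
      rw [om, ← mul_sum, mul_div_assoc]
    have b3 : |∑ v ∈ mon k (620 * l), ∑ g ∈ S, F g * wv (29000 * l) v (H1 * g.1) (H2 * g.2)| ≤
        qq k ^ (620 * l) * (C * (n : ℝ) ^ 3 * τ ^ 2 * qq k ^ n / qq k ^ (5 * l)) := by
      refine (abs_sum_le_sum_abs _ _).trans ?_
      refine (sum_le_card_nsmul _ _ _ fun v hv => hD hP v hv).trans ?_
      rw [nsmul_eq_mul, card_mon]
    rw [e, abs_div, abs_of_pos (mul_pos hθ (div_pos hI hs)), div_le_iff₀ (mul_pos hθ (div_pos hI hs))]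
    refine b3.trans ?_
    have b4 : 1 ≤ n * (((irr k (29000 * l)).card : ℝ) / qq k ^ (29000 * l)) := by
      rw [← mul_div_assoc, le_div_iff₀ hs, one_mul]
      exact b2
    rw [mul_div_assoc]
    have hB : 0 ≤ qq k ^ n / qq k ^ (5 * l) := by positivity
    generalize qq k ^ n / qq k ^ (5 * l) = B at hB ⊢
    generalize ((irr k (29000 * l)).card : ℝ) / qq k ^ (29000 * l) = d at b4 ⊢
    generalize qq k ^ (620 * l) = T at hθ ⊢
    have b5 : 0 ≤ T * (C * (n : ℝ) ^ 3 * τ ^ 2 * B) := by positivity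
    calc T * (C * (n : ℝ) ^ 3 * τ ^ 2 * B)
        ≤ T * (C * (n : ℝ) ^ 3 * τ ^ 2 * B) * (n * d) := le_mul_of_one_le_right b5 b4
      _ = _ := by ring
  rw [hsplit, mul_div_assoc]
  refine (abs_add_le _ _).trans ((add_le_add h1 h2).trans ?_)
  have hB : 0 ≤ qq k ^ n / qq k ^ (5 * l) := by positivity
  generalize qq k ^ n / qq k ^ (5 * l) = B at hB ⊢
  have c1 : (n : ℝ) ^ 2 ≤ (n : ℝ) ^ 4 * τ ^ 2 :=
    (pow_le_pow_right₀ hn (by norm_num)).trans
      (le_mul_of_one_le_right (by positivity) (one_le_pow₀ hτ))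
  have c2 := mul_le_mul_of_nonneg_left c1 (show 0 ≤ 62 * qq k ^ 3 * B by positivity)
  generalize qq k ^ 3 = c at c2 ⊢
  nlinarith [c2]

theorem end2 : ∃ C : ℝ, 0 < C ∧ ∀ {n l y : ℕ} {H1 H2 : k[X]} {τ : ℝ}, Par n l y H1 H2 τ →
    |∑ g ∈ (box k (n / 2)).erase 0 ×ˢ (box k (n / 2)).erase 0,
      FF (n - y) (n / 2 - (620 * l + 3)) (300 * l + 2) (H1 * g.1) (H2 * g.2) g.1 g.2| ≤
      C * (n : ℝ) ^ 4 * τ ^ 6 * qq k ^ n / qq k ^ (5 * l) := by
  obtain ⟨C1, hC1, hZ⟩ := zero_part (k := k)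
  obtain ⟨C2, hC2, hM⟩ := mid_sum (k := k)
  obtain ⟨C3, hC3, hT⟩ := tail2 (k := k)
  have hq : 0 < qq k := by linarith [two_le_qq (k := k)]
  refine ⟨C1 + C2 + 4 * C3, by positivity, fun {n l y H1 H2 τ} hP => ?_⟩
  have hlo := hP.lo
  have hbig := hP.big
  have hτ : 1 ≤ τ := hP.tau.1
  have hn : (1 : ℝ) ≤ n := by exact_mod_cast (by omega : 1 ≤ n)
  have z := hZ hP
  have m := hM hP
  have t := hT hP
  set F : k[X] × k[X] → ℝ := fun g =>
    FF (n - y) (n / 2 - (620 * l + 3)) (300 * l + 2) (H1 * g.1) (H2 * g.2) g.1 g.2 with hF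
  have hu : 0 < (1 + τ ^ 2) ^ 2 := by positivity
  have t1 := t (fun g => if g ∈ box k (n / 2) ×ˢ box k (n / 2) ∧
      wronskian (H1 * g.1) (H2 * g.2) ≠ 0 then |F g| / (1 + τ ^ 2) ^ 2 else 0) (by
    intro g hg
    by_cases h : g ∈ box k (n / 2) ×ˢ box k (n / 2) ∧ wronskian (H1 * g.1) (H2 * g.2) ≠ 0
    · obtain ⟨δ1, δ2, l1, l2, hle⟩ :=
        pt_tail hP (mem_product.1 h.1).1 (mem_product.1 h.1).2 h.2
      refine ⟨δ1, δ2, l1, l2, ?_⟩
      rw [if_pos h, div_le_iff₀ hu, mul_comm]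
      exact hle
    · rw [if_neg h] at hg
      exact absurd hg (lt_irrefl _))
  rw [sum_congr rfl (g := fun g => |F g| / (1 + τ ^ 2) ^ 2) (fun g hg =>
    if_pos ⟨(mem_filter.1 hg).1, (mem_filter.1 hg).2.1⟩), ← sum_div, div_le_iff₀ hu] at t1
  have e1 : ((box k (n / 2)).erase 0 ×ˢ (box k (n / 2)).erase 0).filter
      (fun g => ¬ wronskian (H1 * g.1) (H2 * g.2) = 0) =
      (box k (n / 2) ×ˢ box k (n / 2)).filter (fun g => wronskian (H1 * g.1) (H2 * g.2) ≠ 0) := by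
    ext g
    simp only [mem_filter, mem_product, mem_erase]
    constructor
    · rintro ⟨⟨⟨_, h1⟩, _, h2⟩, h3⟩
      exact ⟨⟨h1, h2⟩, h3⟩
    · rintro ⟨⟨h1, h2⟩, h3⟩
      refine ⟨⟨⟨fun h => h3 ?_, h1⟩, fun h => h3 ?_, h2⟩, h3⟩
      · rw [h, mul_zero, wronskian_zero_left]
      · rw [h, mul_zero, wronskian_zero_right]
  rw [← sum_filter_add_sum_filter_not _ (fun g : k[X] × k[X] => wronskian (H1 * g.1) (H2 * g.2) = 0),
    e1, ← sum_filter_add_sum_filter_not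
      ((box k (n / 2) ×ˢ box k (n / 2)).filter (fun g => wronskian (H1 * g.1) (H2 * g.2) ≠ 0))
      (fun g : k[X] × k[X] =>
        (kap (2 * (n / 2 + y)) (H1 * g.1) (H2 * g.2) : ℝ) ≤ qq k ^ (300 * l + 3)),
    filter_filter, filter_filter]
  simp only [not_le]
  refine (abs_add_le _ _).trans ((add_le_add ((abs_sum_le_sum_abs _ _).trans z)
    ((abs_add_le _ _).trans (add_le_add m ((abs_sum_le_sum_abs _ _).trans t1)))).trans ?_)
  rw [mul_div_assoc, mul_div_assoc, mul_div_assoc, mul_div_assoc]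
  have hB : 0 ≤ qq k ^ n / qq k ^ (5 * l) := by positivity
  generalize qq k ^ n / qq k ^ (5 * l) = B at hB ⊢
  have n4 : (1 : ℝ) ≤ (n : ℝ) ^ 4 := one_le_pow₀ hn
  have c1 : 1 ≤ (n : ℝ) ^ 4 * τ ^ 6 := one_le_mul_of_one_le_of_one_le n4 (one_le_pow₀ hτ)
  have c2 : (n : ℝ) ^ 4 * τ ^ 2 ≤ (n : ℝ) ^ 4 * τ ^ 6 :=
    mul_le_mul_of_nonneg_left (pow_le_pow_right₀ hτ (by norm_num)) (by positivity)
  have c3 : (1 + τ ^ 2) ^ 2 ≤ 4 * τ ^ 4 := by
    have : 1 + τ ^ 2 ≤ 2 * τ ^ 2 := by linarith [one_le_pow₀ (n := 2) hτ]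
    calc (1 + τ ^ 2) ^ 2 ≤ (2 * τ ^ 2) ^ 2 := pow_le_pow_left₀ (by positivity) this 2
      _ = _ := by ring
  have c4 : (n : ℝ) ^ 2 * τ ^ 2 * (1 + τ ^ 2) ^ 2 ≤ (n : ℝ) ^ 4 * τ ^ 2 * (4 * τ ^ 4) :=
    mul_le_mul (mul_le_mul_of_nonneg_right (pow_le_pow_right₀ hn (by norm_num)) (by positivity))
      c3 (by positivity) (by positivity)
  have d1 := mul_le_mul_of_nonneg_left c1 (show 0 ≤ C1 * B by positivity)
  have d2 := mul_le_mul_of_nonneg_left c2 (show 0 ≤ C2 * B by positivity)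
  have d3 := mul_le_mul_of_nonneg_left c4 (show 0 ≤ C3 * B by positivity)
  generalize (1 + τ ^ 2) ^ 2 = u at d3 ⊢
  nlinarith [d1, d2, d3]

end CL3.T2

end
end

-- part H86T.Red
section

/-! h86t: row Red. Reduction to the off-diagonal sums. -/

set_option autoImplicit false
open Polynomial Finset UniqueFactorizationMonoid Filter Topology CL5
open scoped Classical

noncomputable section
namespace CL3.T2

variable {k : Type*} [Field k] [Fintype k]

theorem t40_qq_pos : 0 < qq k := by linarith [two_le_qq (k := k)]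

theorem t40_zero_box (N : ℕ) : (0 : k[X]) ∈ box k N := by
  rw [mem_box, degree_zero]
  exact WithBot.bot_lt_coe N

theorem t40_Dl_sum {ι : Type*} (s : Finset ι) (t : ℕ) (φ : ι → k[X] → ℝ) :
    Dl t (fun D => ∑ i ∈ s, φ i D) = ∑ i ∈ s, Dl t (φ i) := by
  simp only [Dl]
  rw [tr_sum, Finset.sum_sub_distrib]

theorem t40_Dl_mul (t : ℕ) (c : ℝ) (φ : k[X] → ℝ) :
    Dl t (fun D => c * φ D) = c * Dl t φ := by
  simp only [Dl]
  rw [tr_mul, mul_sub]

theorem t40_tr_const (t : ℕ) (c : ℝ) : tr t (fun _ : k[X] => c) = c :=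
  mob_a (φ := fun _ : k[X] => c) (d := 1) monic_one (by simp) (fun _ _ _ _ _ _ _ => rfl)

theorem t40_tr_zero {L t : ℕ} (ht : t ≤ L) :
    |tr t (fun D : k[X] => un L D 0)| ≤ qq k ^ (3 * t + 1) / qq k ^ L := by
  have h := mob_c (k := k) (φ := fun D : k[X] => un L D 0) (t := t) (B := qq k ^ t / qq k ^ L)
    (fun D hD hd => by
      rw [abs_of_nonneg (un_nonneg L D 0)]
      exact un_le hD hd ht 0)
  refine h.trans (le_of_eq ?_)
  rw [show 3 * t + 1 = (2 * t + 1) + t by ring, pow_add (qq k) (2 * t + 1) t]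
  ring

/-- products of a prime and a cofactor -/
theorem t40_mul_sum {n j : ℕ} (hj : 1 ≤ j) (hjn : j ≤ n) (G : k[X] → ℝ) (hG : ∀ f, 0 ≤ G f) :
    ∑ p ∈ irr k j, ∑ m ∈ mon k (n - j), G (p * m) ≤ n * ∑ f ∈ mon k n, G f := by
  have h1 : ∀ p ∈ irr k j, ∑ m ∈ mon k (n - j), G (p * m) ≤
      ∑ f ∈ mon k n, if p ∣ f then G f else 0 := by
    intro p hp
    obtain ⟨hpm, hpd, -⟩ := mem_irr.1 hp
    rw [← Finset.sum_filter]
    have hinj : Set.InjOn (fun m => p * m) (mon k (n - j) : Set k[X]) :=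
      fun a _ b _ h => mul_left_cancel₀ hpm.ne_zero h
    rw [← Finset.sum_image (f := G) hinj]
    refine Finset.sum_le_sum_of_subset_of_nonneg ?_ (fun f _ _ => hG f)
    intro f hf
    obtain ⟨m, hm, rfl⟩ := Finset.mem_image.1 hf
    obtain ⟨hmm, hmd⟩ := mem_mon.1 hm
    refine Finset.mem_filter.2 ⟨mem_mon.2 ⟨hpm.mul hmm, ?_⟩, dvd_mul_right _ _⟩
    rw [hpm.natDegree_mul hmm, hpd, hmd]
    omega
  refine (Finset.sum_le_sum h1).trans ?_
  rw [Finset.sum_comm, Finset.mul_sum]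
  refine Finset.sum_le_sum fun f hf => ?_
  obtain ⟨hfm, hfd⟩ := mem_mon.1 hf
  rw [← Finset.sum_filter, Finset.sum_const, nsmul_eq_mul]
  refine mul_le_mul_of_nonneg_right ?_ (hG f)
  have h2 := card_irr_dvd (k := k) (j := j) hfm.ne_zero
  have h3 : ((irr k j).filter fun p => p ∣ f).card ≤ n := by
    rw [hfd] at h2
    exact (Nat.le_mul_of_pos_left _ hj).trans h2
  exact_mod_cast h3

variable [CharP k 3]

theorem t40_c0_eq {f : k[X]} {n : ℕ} (L t : ℕ) (hf : f ∈ mon k n) :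
    c0 (n / 2) L t f = ((Sol f).card : ℝ) - 1 -
      (tr t fun D => ∑ g ∈ box k (n / 2), un L D (car (g * f) - g)) +
      tr t (fun D : k[X] => un L D 0) := by
  obtain ⟨-, hd⟩ := mem_mon.1 hf
  have h0 := t40_zero_box (k := k) (n / 2)
  have h1 : c0 (n / 2) L t f + Dl t (fun D : k[X] => un L D 0) =
      Dl t fun D => ∑ g ∈ box k (n / 2), un L D (car (g * f) - g) := by
    rw [t40_Dl_sum, c0, ← Finset.sum_erase_add _ _ h0]
    simp only [zero_mul, car_zero, sub_zero]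
  have h2 : ∑ g ∈ box k (n / 2), un L 0 (car (g * f) - g) = ((Sol f).card : ℝ) := by
    rw [Sol, hd, Finset.card_filter]
    push_cast
    refine Finset.sum_congr rfl fun g _ => ?_
    rw [un_zero]
    simp only [sub_eq_zero]
  have h3 : un L (0 : k[X]) 0 = 1 := by rw [un_zero, if_pos rfl]
  simp only [Dl] at h1
  rw [h2, h3] at h1
  linarith

theorem t40_one_le_Sol (f : k[X]) : (1 : ℝ) ≤ (Sol f).card := by
  have h : (0 : k[X]) ∈ Sol f := by
    rw [Sol, Finset.mem_filter]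
    exact ⟨t40_zero_box _, by rw [zero_mul, car_zero]⟩
  exact_mod_cast Finset.card_pos.2 ⟨0, h⟩

theorem c0_le {f : k[X]} {n L t : ℕ} (hf : f ∈ mon k n) (hL : L ≤ n / 2) (ht : 3 * t + 1 ≤ L) :
    |c0 (n / 2) L t f| ≤ 2 * (Sol f).card := by
  have h1 := m01 hf hL (show 2 * t ≤ L by omega)
  have h2 := t40_tr_zero (k := k) (show t ≤ L by omega)
  have h3 : qq k ^ (3 * t + 1) / qq k ^ L ≤ 1 := by
    rw [div_le_one (pow_pos t40_qq_pos _)]
    exact pow_le_pow_right₀ (by linarith [two_le_qq (k := k)]) ht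
  have h4 := t40_one_le_Sol f
  rw [t40_c0_eq L t hf]
  rw [abs_le] at h1 h2 ⊢
  constructor <;> linarith [h1.1, h1.2, h2.1, h2.2]

theorem c0_sf {f : k[X]} {n K t : ℕ} (hf : f ∈ mon k n) (hs : Squarefree f) (hK : 1 ≤ K)
    (hn : 3 * (t + K) ≤ n / 2) :
    |c0 (n / 2) (n / 2 - K) t f - cc f| ≤ qq k ^ (3 * t + 1) / qq k ^ (n / 2 - K) := by
  have h1 : (tr t fun D => ∑ g ∈ box k (n / 2), un (n / 2 - K) D (car (g * f) - g)) =
      (uu n : ℝ) := by
    rw [tr_congr (ψ := fun _ => (uu n : ℝ)) fun D hD hd => cokD hf hs hD hK (by omega)]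
    exact t40_tr_const t _
  have h2 := t40_tr_zero (k := k) (show t ≤ n / 2 - K by omega)
  rw [t40_c0_eq _ t hf, h1, cc, (mem_mon.1 hf).2]
  refine le_trans (le_of_eq ?_) h2
  congr 1
  ring

theorem exp_sum (M L t n' : ℕ) (H1 H2 : k[X]) :
    ∑ m ∈ mon k n', c0 M L t (H1 * m) * c0 M L t (H2 * m) =
      ∑ g ∈ (box k M).erase 0 ×ˢ (box k M).erase 0,
        FF n' L t (H1 * g.1) (H2 * g.2) g.1 g.2 := by
  have h1 : ∀ g1 g2 : k[X], FF n' L t (H1 * g1) (H2 * g2) g1 g2 =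
      ∑ m ∈ mon k n', (Dl t fun D => un L D (car (g1 * (H1 * m)) - g1)) *
        Dl t fun D => un L D (car (g2 * (H2 * m)) - g2) := by
    intro g1 g2
    have h2 : ∀ D1 : k[X], (Dl t fun D2 => md n' L D1 D2 (H1 * g1) (H2 * g2) g1 g2) =
        ∑ m ∈ mon k n', (Dl t fun D => un L D (car (g2 * (H2 * m)) - g2)) *
          un L D1 (car (g1 * (H1 * m)) - g1) := by
      intro D1
      simp only [md]
      rw [t40_Dl_sum]
      refine Finset.sum_congr rfl fun m _ => ?_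
      rw [t40_Dl_mul, mul_comm, show H1 * g1 * m = g1 * (H1 * m) by ring,
        show H2 * g2 * m = g2 * (H2 * m) by ring]
    simp only [FF, h2]
    rw [t40_Dl_sum]
    refine Finset.sum_congr rfl fun m _ => ?_
    rw [t40_Dl_mul, mul_comm]
  simp only [h1]
  rw [Finset.sum_comm]
  refine Finset.sum_congr rfl fun m _ => ?_
  rw [c0, c0, Finset.sum_mul_sum, Finset.sum_product]

theorem red : ∃ C : ℝ, 0 < C ∧ ∀ (n j K t : ℕ) (B : ℝ), 1 ≤ j → j ≤ n → 1 ≤ K →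
    3 * (t + K) ≤ n / 2 → 0 ≤ B →
    (∀ p1 ∈ irr k j, ∀ p2 ∈ irr k j, p1 ≠ p2 → |∑ m ∈ mon k (n - j),
      c0 (n / 2) (n / 2 - K) t (p1 * m) * c0 (n / 2) (n / 2 - K) t (p2 * m)| ≤ B) →
    ∑ m ∈ (mon k (n - j)).filter Squarefree,
      (∑ p ∈ (irr k j).filter (fun p => ¬ p ∣ m), cc (p * m)) ^ 2 ≤
      C * (n : ℝ) ^ 2 * qq k ^ n + 3 * qq k ^ (2 * j) * B +
        3 * qq k ^ (n + j) * (qq k ^ (3 * t + 1) / qq k ^ (n / 2 - K)) ^ 2 := by
  obtain ⟨K2, hK2, hl2⟩ := l2 (k := k)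
  refine ⟨24 * K2, by positivity, ?_⟩
  intro n j K t B hj hjn hK hn hB hoff
  have hq := t40_qq_pos (k := k)
  set c : k[X] → ℝ := c0 (n / 2) (n / 2 - K) t with hc
  set ε : ℝ := qq k ^ (3 * t + 1) / qq k ^ (n / 2 - K) with hε
  have hε0 : 0 ≤ ε := by positivity
  have hn1 : (1 : ℝ) ≤ n := by exact_mod_cast hj.trans hjn
  have hmem : ∀ p ∈ irr k j, ∀ m ∈ mon k (n - j), p * m ∈ mon k n := by
    intro p hp m hm
    obtain ⟨hpm, hpd, -⟩ := mem_irr.1 hp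
    obtain ⟨hmm, hmd⟩ := mem_mon.1 hm
    refine mem_mon.2 ⟨hpm.mul hmm, ?_⟩
    rw [hpm.natDegree_mul hmm, hpd, hmd]
    omega
  -- the diagonal
  have hdiag : ∑ p ∈ irr k j, ∑ m ∈ mon k (n - j), c (p * m) ^ 2 ≤
      4 * n * K2 * qq k ^ n := by
    have h1 : ∑ p ∈ irr k j, ∑ m ∈ mon k (n - j), c (p * m) ^ 2 ≤
        ∑ p ∈ irr k j, ∑ m ∈ mon k (n - j), 4 * ((Sol (p * m)).card : ℝ) ^ 2 := by
      refine Finset.sum_le_sum fun p hp => Finset.sum_le_sum fun m hm => ?_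
      have h2 := c0_le (L := n / 2 - K) (t := t) (hmem p hp m hm) (by omega) (by omega)
      have h3 := sq_le_sq' (abs_le.1 h2).1 (abs_le.1 h2).2
      refine h3.trans (le_of_eq ?_)
      ring
    have h4 := t40_mul_sum hj hjn (fun f : k[X] => 4 * ((Sol f).card : ℝ) ^ 2)
      (fun f => by positivity)
    rw [← Finset.mul_sum] at h4
    have h5 := mul_le_mul_of_nonneg_left (hl2 n) (show (0 : ℝ) ≤ 4 * n by positivity)
    nlinarith [h1, h4, h5]
  -- the full square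
  have hfull : ∑ m ∈ mon k (n - j), (∑ p ∈ irr k j, c (p * m)) ^ 2 ≤
      4 * n * K2 * qq k ^ n + qq k ^ (2 * j) * B := by
    have h1 : ∑ m ∈ mon k (n - j), (∑ p ∈ irr k j, c (p * m)) ^ 2 =
        ∑ p1 ∈ irr k j, ∑ p2 ∈ irr k j, ∑ m ∈ mon k (n - j), c (p1 * m) * c (p2 * m) := by
      simp only [sq, Finset.sum_mul_sum]
      rw [Finset.sum_comm]
      refine Finset.sum_congr rfl fun p1 _ => ?_
      rw [Finset.sum_comm]
    have hcard := card_irr_le (k := k) j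
    have h2 : ∀ p1 ∈ irr k j, ∑ p2 ∈ irr k j, ∑ m ∈ mon k (n - j), c (p1 * m) * c (p2 * m) ≤
        ∑ m ∈ mon k (n - j), c (p1 * m) ^ 2 + qq k ^ j * B := by
      intro p1 hp1
      rw [← Finset.add_sum_erase _ _ hp1]
      have h3 : ∑ p2 ∈ (irr k j).erase p1, ∑ m ∈ mon k (n - j), c (p1 * m) * c (p2 * m) ≤
          ∑ _p2 ∈ (irr k j).erase p1, B := by
        refine Finset.sum_le_sum fun p2 hp2 => ?_
        obtain ⟨hne, hp2⟩ := Finset.mem_erase.1 hp2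
        exact (le_abs_self _).trans (hoff p1 hp1 p2 hp2 hne.symm)
      rw [Finset.sum_const, nsmul_eq_mul] at h3
      have h4 : (((irr k j).erase p1).card : ℝ) ≤ qq k ^ j :=
        le_trans (by exact_mod_cast Finset.card_erase_le) hcard
      have h5 := mul_le_mul_of_nonneg_right h4 hB
      simp only [sq]
      linarith
    rw [h1]
    refine (Finset.sum_le_sum h2).trans ?_
    rw [Finset.sum_add_distrib, Finset.sum_const, nsmul_eq_mul]
    have h6 := mul_le_mul_of_nonneg_right hcard (show 0 ≤ qq k ^ j * B by positivity)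
    have h7 : qq k ^ j * (qq k ^ j * B) = qq k ^ (2 * j) * B := by ring
    linarith
  -- primes dividing the cofactor
  have hdvd : ∑ m ∈ mon k (n - j), (∑ p ∈ (irr k j).filter (fun p => p ∣ m), c (p * m)) ^ 2 ≤
      n * (4 * n * K2 * qq k ^ n) := by
    have h1 : ∀ m ∈ mon k (n - j), (∑ p ∈ (irr k j).filter (fun p => p ∣ m), c (p * m)) ^ 2 ≤
        n * ∑ p ∈ irr k j, c (p * m) ^ 2 := by
      intro m hm
      obtain ⟨hmm, hmd⟩ := mem_mon.1 hm
      have h2 := card_irr_dvd (k := k) (j := j) hmm.ne_zero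
      have h3 : ((irr k j).filter fun p => p ∣ m).card ≤ n := by
        have := (Nat.le_mul_of_pos_left _ hj).trans h2
        omega
      have h3' : (((irr k j).filter fun p => p ∣ m).card : ℝ) ≤ n := by exact_mod_cast h3
      have h4 : ∑ p ∈ (irr k j).filter (fun p => p ∣ m), c (p * m) ^ 2 ≤
          ∑ p ∈ irr k j, c (p * m) ^ 2 :=
        Finset.sum_le_sum_of_subset_of_nonneg (Finset.filter_subset _ _)
          (fun p _ _ => sq_nonneg _)
      refine sq_sum_le_card_mul_sum_sq.trans ?_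
      exact mul_le_mul h3' h4 (Finset.sum_nonneg fun p _ => sq_nonneg _) (by positivity)
    refine (Finset.sum_le_sum h1).trans ?_
    rw [← Finset.mul_sum, Finset.sum_comm]
    exact mul_le_mul_of_nonneg_left hdiag (by positivity)
  -- one cofactor
  have hone : ∀ m ∈ (mon k (n - j)).filter Squarefree,
      (∑ p ∈ (irr k j).filter (fun p => ¬ p ∣ m), cc (p * m)) ^ 2 ≤
        3 * (∑ p ∈ irr k j, c (p * m)) ^ 2 +
          3 * (∑ p ∈ (irr k j).filter (fun p => p ∣ m), c (p * m)) ^ 2 +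
          3 * (qq k ^ j * ε) ^ 2 := by
    intro m hm
    obtain ⟨hm, hsf⟩ := Finset.mem_filter.1 hm
    have h1 := Finset.sum_filter_add_sum_filter_not (irr k j) (fun p => p ∣ m)
      (fun p => c (p * m))
    have h2 : |∑ p ∈ (irr k j).filter (fun p => ¬ p ∣ m), (c (p * m) - cc (p * m))| ≤
        qq k ^ j * ε := by
      refine (Finset.abs_sum_le_sum_abs _ _).trans ?_
      have h3 : ∀ p ∈ (irr k j).filter (fun p => ¬ p ∣ m), |c (p * m) - cc (p * m)| ≤ ε := by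
        intro p hp
        obtain ⟨hp, hnd⟩ := Finset.mem_filter.1 hp
        obtain ⟨-, -, hpi⟩ := mem_irr.1 hp
        have hsq : Squarefree (p * m) :=
          squarefree_mul_iff.2 ⟨hpi.isRelPrime_iff_not_dvd.2 hnd, hpi.squarefree, hsf⟩
        exact c0_sf (hmem p hp m hm) hsq hK hn
      refine (Finset.sum_le_sum h3).trans ?_
      rw [Finset.sum_const, nsmul_eq_mul]
      refine mul_le_mul_of_nonneg_right (le_trans ?_ (card_irr_le (k := k) j)) hε0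
      exact_mod_cast Finset.card_filter_le _ _
    rw [Finset.sum_sub_distrib] at h2
    have h4 := sq_le_sq' (abs_le.1 h2).1 (abs_le.1 h2).2
    rw [← h1]
    set a := ∑ p ∈ (irr k j).filter (fun p => p ∣ m), c (p * m)
    set b := ∑ p ∈ (irr k j).filter (fun p => ¬ p ∣ m), c (p * m)
    set s := ∑ p ∈ (irr k j).filter (fun p => ¬ p ∣ m), cc (p * m)
    nlinarith [sq_nonneg ((a + b) + a), sq_nonneg ((a + b) + (b - s)), sq_nonneg (a - (b - s))]
  refine (Finset.sum_le_sum hone).trans ?_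
  refine (Finset.sum_le_sum_of_subset_of_nonneg (Finset.filter_subset _ _)
    (fun m _ _ => by positivity)).trans ?_
  rw [Finset.sum_add_distrib, Finset.sum_add_distrib, ← Finset.mul_sum, ← Finset.mul_sum,
    Finset.sum_const, nsmul_eq_mul, card_mon]
  have h8 : qq k ^ (n - j) * (3 * (qq k ^ j * ε) ^ 2) = 3 * qq k ^ (n + j) * ε ^ 2 := by
    rw [show n + j = (n - j) + 2 * j by omega, pow_add]
    ring
  have h9 : 4 * n * K2 * qq k ^ n ≤ n * (4 * n * K2 * qq k ^ n) :=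
    le_mul_of_one_le_left (by positivity) hn1
  rw [h8]
  nlinarith [hfull, hdvd, h9]

end CL3.T2

end
end

-- part H86T.Fin
section

/-! h86t: row Fin. Block (II). -/

set_option autoImplicit false
open Polynomial Finset UniqueFactorizationMonoid Filter Topology CL5
open scoped Classical

noncomputable section
namespace CL3.T2

variable {k : Type*} [Field k] [Fintype k]

theorem t36_ev {D : ℝ} (hD : 0 < D) :
    ∃ l0 : ℕ, ∀ l : ℕ, l0 ≤ l → D * (l : ℝ) ^ 4 ≤ qq k ^ l := by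
  have hq : 1 < qq k := by linarith [two_le_qq (k := k)]
  have h := (tendsto_pow_const_div_const_pow_of_one_lt 4 hq).eventually
    (gt_mem_nhds (show (0 : ℝ) < 1 / D by positivity))
  obtain ⟨l0, hl⟩ := eventually_atTop.1 h
  refine ⟨l0, fun l hl0 => ?_⟩
  have h1 := hl l hl0
  rw [div_lt_div_iff₀ (by positivity) hD, one_mul, mul_comm] at h1
  exact h1.le

variable [CharP k 3]

theorem block_II : ∃ (A n0 : ℕ) (K : ℝ), 0 < A ∧ 0 < K ∧ ∀ n : ℕ, n0 ≤ n → ∀ j : ℕ, 1 ≤ j →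
    j ≤ n / A → ∑ m ∈ (mon k (n - j)).filter Squarefree,
      (∑ p ∈ (irr k j).filter (fun p => ¬ p ∣ m), cc (p * m)) ^ 2 ≤
      K * (n : ℝ) ^ 2 * qq k ^ n + qq k ^ (n + j) / qq k ^ (n / A) := by
  obtain ⟨C1, hC1, hE⟩ := end2 (k := k)
  obtain ⟨C2, hC2, hT⟩ := exists_Tau (k := k)
  obtain ⟨C3, hC3, hR⟩ := red (k := k)
  obtain ⟨l0, hl0⟩ := t36_ev (k := k) (D := 6 * C1 * C2 * 800000 ^ 4) (by positivity)
  have hq2 : 2 ≤ qq k := two_le_qq
  have hq : 0 < qq k := by linarith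
  have hq1 : 1 ≤ qq k := by linarith
  refine ⟨400000, 400000 * (l0 + 10), C3, by norm_num, hC3, fun n hn j hj1 hj => ?_⟩
  obtain ⟨l, hl⟩ : ∃ l, l = n / 400000 := ⟨_, rfl⟩
  rw [← hl] at hj ⊢
  have lo : 400000 * l ≤ n := by omega
  have hi : n < 400000 * (l + 1) := by omega
  have big : 10 ≤ l := by omega
  obtain ⟨τ, hτ, hτ6⟩ := hT n l hi big
  have hτ0 : 0 ≤ τ := zero_le_one.trans hτ.1
  have h := hR n j (620 * l + 3) (300 * l + 2)
    (C1 * (n : ℝ) ^ 4 * τ ^ 6 * qq k ^ n / qq k ^ (5 * l)) hj1 (by omega) (by omega) (by omega)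
    (by positivity) (by
      intro p1 hp1 p2 hp2 hne
      rw [exp_sum]
      obtain ⟨m1, d1, -⟩ := mem_irr.1 hp1
      obtain ⟨m2, d2, -⟩ := mem_irr.1 hp2
      exact hE ⟨lo, hi, big, hj, m1, m2, d1, d2, aniso_of_irr hp1 hp2 hne, hτ⟩)
  refine h.trans ?_
  rw [add_assoc]
  refine add_le_add le_rfl ?_
  have hL : 0 < qq k ^ l := pow_pos hq _
  have hN : 0 < qq k ^ (n + j) := pow_pos hq _
  have a1 : 3 * qq k ^ (2 * j) * (C1 * (n : ℝ) ^ 4 * τ ^ 6 * qq k ^ n / qq k ^ (5 * l)) ≤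
      qq k ^ (n + j) / qq k ^ l / 2 := by
    have b1 : (n : ℝ) ≤ 800000 * l := by exact_mod_cast (by omega : n ≤ 800000 * l)
    have b2 : (n : ℝ) ^ 4 ≤ 800000 ^ 4 * (l : ℝ) ^ 4 := by
      rw [← mul_pow]
      exact pow_le_pow_left₀ (Nat.cast_nonneg _) b1 4
    have b3 := hl0 l (by omega)
    have b4 : 6 * C1 * C2 * (n : ℝ) ^ 4 ≤ qq k ^ l := by
      refine le_trans ?_ b3
      rw [mul_assoc (6 * C1 * C2)]
      exact mul_le_mul_of_nonneg_left b2 (by positivity)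
    have b5 : 6 * C1 * (n : ℝ) ^ 4 * τ ^ 6 ≤ qq k ^ l * qq k ^ l :=
      calc 6 * C1 * (n : ℝ) ^ 4 * τ ^ 6 ≤ 6 * C1 * (n : ℝ) ^ 4 * (C2 * qq k ^ l) :=
            mul_le_mul_of_nonneg_left hτ6 (by positivity)
        _ = 6 * C1 * C2 * (n : ℝ) ^ 4 * qq k ^ l := by ring
        _ ≤ _ := mul_le_mul_of_nonneg_right b4 hL.le
    have b6 : qq k ^ l * qq k ^ l * (qq k ^ (2 * j) * qq k ^ n / qq k ^ (5 * l)) ≤
        qq k ^ (n + j) / qq k ^ l := by
      rw [← mul_div_assoc, div_le_div_iff₀ (pow_pos hq _) hL, ← pow_add, ← pow_add, ← pow_add,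
        ← pow_add, ← pow_add]
      exact pow_le_pow_right₀ hq1 (by omega)
    have b7 := mul_le_mul_of_nonneg_right b5
      (show 0 ≤ qq k ^ (2 * j) * qq k ^ n / qq k ^ (5 * l) by positivity)
    have e : 3 * qq k ^ (2 * j) * (C1 * (n : ℝ) ^ 4 * τ ^ 6 * qq k ^ n / qq k ^ (5 * l)) =
        6 * C1 * (n : ℝ) ^ 4 * τ ^ 6 * (qq k ^ (2 * j) * qq k ^ n / qq k ^ (5 * l)) / 2 := by
      generalize qq k ^ (2 * j) = a
      generalize qq k ^ (5 * l) = b
      generalize qq k ^ n = c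
      ring
    rw [e]
    linarith
  have a2 : 3 * qq k ^ (n + j) *
      (qq k ^ (3 * (300 * l + 2) + 1) / qq k ^ (n / 2 - (620 * l + 3))) ^ 2 ≤
      qq k ^ (n + j) / qq k ^ l / 2 := by
    have b1 : qq k ^ (3 * (300 * l + 2) + 1) / qq k ^ (n / 2 - (620 * l + 3)) ≤ 1 / qq k ^ l := by
      rw [div_le_div_iff₀ (pow_pos hq _) hL, one_mul, ← pow_add]
      exact pow_le_pow_right₀ hq1 (by omega)
    have b2 := pow_le_pow_left₀ (by positivity) b1 2
    have b3 : (6 : ℝ) ≤ qq k ^ l :=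
      calc (6 : ℝ) ≤ 2 ^ 3 := by norm_num
        _ ≤ qq k ^ 3 := pow_le_pow_left₀ (by norm_num) hq2 3
        _ ≤ _ := pow_le_pow_right₀ hq1 (by omega)
    refine (mul_le_mul_of_nonneg_left b2 (by positivity)).trans ?_
    generalize qq k ^ l = L at hL b3 ⊢
    generalize qq k ^ (n + j) = N at hN ⊢
    rw [div_div, le_div_iff₀ (by positivity)]
    have e : 3 * N * (1 / L) ^ 2 * (L * 2) = N * (6 / L) := by
      field_simp
      ring
    rw [e]
    exact mul_le_of_le_one_right hN.le ((div_le_one hL).2 b3)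
  linarith

end CL3.T2

end
end
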