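import Pool.Agent.MP_d0fd9b_nt.P3.SB
import Pool.Agent.MP_d0fd9b_nt.P3.T2
import Pool.Agent.MP_d0fd9b_nt.P3.A4

-- part H68T.Ad2
section

/-! h49p: the type II bound in the form used by the sieve. -/

set_option autoImplicit false

open Polynomial Finset Filter Topology
open scoped Classical BigOperators

noncomputable section
namespace Pool.Agent.H68T
open Pool.Agent.MP_a4a062_nt.C2

variable {k : Type*} [Field k] [Fintype k] [CharP k 3]

theorem aa_eq (f : k[X]) : aa f = (#(CL3.Sol f) : ℝ) - 1 := by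
  have h0 : (0 : k[X]) ∈ CL3.Sol f := by
    unfold CL3.Sol
    refine mem_filter.2 ⟨CL5.mem_box.2 ?_, by rw [zero_mul, CL3.car_zero]⟩
    rw [degree_zero]
    exact WithBot.bot_lt_coe _
  unfold aa
  rw [card_erase_of_mem h0, Nat.cast_sub (card_pos.2 ⟨0, h0⟩), Nat.cast_one]

theorem hiis_row : HIIs (k := k) aa fun n => CL3.uu n := by
  obtain ⟨A, n0, K, hA, -, h⟩ := CL3.T2.block_II (k := k)
  refine ⟨A, A, K, hA, hA, (eventually_ge_atTop n0).mono fun n hn y hy hyn => ?_⟩
  have h1 : y ≤ n / A := (Nat.le_div_iff_mul_le hA).2 (by rwa [mul_comm])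
  have h2 : y ≤ n := h1.trans (Nat.div_le_self _ _)
  have h3 := h n hn y hy h1
  refine le_trans (le_of_eq ?_) (h3.trans (le_of_eq ?_))
  · refine sum_congr rfl fun m hm => ?_
    refine congrArg (· ^ 2) (sum_congr rfl fun p hp => ?_)
    have a1 := mem_mon.1 (mem_filter.1 hm).1
    have a2 := mem_mon.1 (mem_filter.1 (mem_filter.1 hp).1).1
    have e : (p * m).natDegree = n := by
      rw [a2.1.natDegree_mul a1.1, a1.2, a2.2]
      omega
    unfold CL3.T2.cc
    rw [aa_eq, e]
  · show K * (n : ℝ) ^ 2 * qq k ^ n + qq k ^ (n + y) / qq k ^ (n / A) = _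
    ring

end Pool.Agent.H68T

end
end

-- part H68T.Lift
section

/-! h49p: transport of the Moebius bound along an isomorphism of finite fields. -/

set_option autoImplicit false

open Polynomial Finset Filter Topology
open scoped Classical BigOperators

noncomputable section
namespace Pool.Agent.H68T
open Pool.Agent.MP_a4a062_nt.C2

section
variable {k K : Type*} [Field k] [Fintype k] [Field K] [Fintype K]

omit [Fintype k] [Fintype K] in
theorem lf_lam (φ : k[X] ≃+* K[X]) (f : k[X]) (hf : f ≠ 0) : lam (φ f) = lam f := by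
  induction f using UniqueFactorizationMonoid.induction_on_prime with
  | h₁ => exact absurd rfl hf
  | h₂ x hx =>
    unfold lam
    rw [UniqueFactorizationMonoid.factors_of_isUnit hx,
      UniqueFactorizationMonoid.factors_of_isUnit (hx.map φ)]
    rfl
  | h₃ a p ha hp ih =>
    have h1 : φ a ≠ 0 := (map_ne_zero_iff φ φ.injective).2 ha
    have h2 : Irreducible (φ p) := (MulEquiv.irreducible_iff φ).2 hp.irreducible
    unfold lam at ih ⊢
    rw [map_mul, Multiset.card_eq_card_of_rel (UniqueFactorizationMonoid.factors_mul h2.ne_zero h1),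
      Multiset.card_eq_card_of_rel (UniqueFactorizationMonoid.factors_mul hp.ne_zero ha),
      Multiset.card_add, Multiset.card_add, pow_add, pow_add, ih ha,
      UniqueFactorizationMonoid.card_factors_of_irreducible h2,
      UniqueFactorizationMonoid.card_factors_of_irreducible hp.irreducible]

omit [Fintype k] [Fintype K] in
theorem lf_sq (φ : k[X] ≃+* K[X]) {f : k[X]} (h : Squarefree (φ f)) : Squarefree f := by
  intro x hx
  have h1 : φ x * φ x ∣ φ f := by
    rw [← map_mul]
    exact map_dvd φ hx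
  simpa using (h _ h1).map φ.symm

omit [Fintype k] [Fintype K] in
theorem lf_mu (φ : k[X] ≃+* K[X]) (f : k[X]) (hf : f ≠ 0) : mu (φ f) = mu f := by
  have h : Squarefree (φ f) ↔ Squarefree f :=
    ⟨lf_sq φ, fun h => lf_sq φ.symm (by rwa [φ.symm_apply_apply])⟩
  unfold mu
  rw [lf_lam φ f hf]
  exact if_congr h rfl rfl

theorem lf_mon (e : k ≃+* K) (n : ℕ) (f : k[X]) : f ∈ mon k n ↔ mapEquiv e f ∈ mon K n := by
  rw [mem_mon, mem_mon, mapEquiv_apply, natDegree_map, monic_map_iff]

theorem lf_sum (e : k ≃+* K) (n : ℕ) (F : K[X] → ℝ) :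
    ∑ f ∈ mon k n, F (mapEquiv e f) = ∑ f ∈ mon K n, F f :=
  sum_equiv (mapEquiv e).toEquiv (lf_mon e n) fun _ _ => rfl

theorem lf_aa [CharP k 3] [CharP K 3] (e : k ≃+* K) {f : k[X]} (hf : f.Monic) :
    aa (mapEquiv e f) = aa f := by
  have hf' : (mapEquiv e f).Monic := by
    rw [mapEquiv_apply]
    exact hf.map _
  rw [aa_eq, aa_eq]
  refine congrArg (fun n : ℕ => (n : ℝ) - 1) (card_equiv (mapEquiv e).toEquiv fun g => ?_).symm
  show g ∈ CL3.Sol f ↔ mapEquiv e g ∈ CL3.Sol (mapEquiv e f)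
  rw [CL3.mem_Sol' hf, CL3.mem_Sol' hf', ← map_mul, ← map_pow, mapEquiv_apply, mapEquiv_apply,
    iterate_derivative_map, ← Polynomial.map_add, Polynomial.map_eq_zero_iff e.injective]

theorem lf_hm [CharP k 3] [CharP K 3] (e : k ≃+* K) (h : HM (k := K) aa) : HM (k := k) aa := by
  have hq : qq k = qq K := by
    unfold qq
    rw [Fintype.card_congr e.toEquiv]
  intro κ hκ
  obtain ⟨κ', h1, h2⟩ := h κ hκ
  refine ⟨κ', h1, h2.mono fun n hn j c hj hc => ?_⟩
  have h3 := hn j (fun x => c ((mapEquiv e).symm x)) hj fun x => hc _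
  rw [hq]
  refine le_trans (le_of_eq (congrArg _ ?_)) h3
  rw [← lf_sum e]
  refine sum_congr rfl fun x hx => ?_
  rw [RingEquiv.symm_apply_apply, ← lf_sum e]
  refine congrArg _ (sum_congr rfl fun y hy => ?_)
  have a1 := (mem_mon.1 hx).1
  have a2 := (mem_mon.1 hy).1
  rw [lf_mu _ y a2.ne_zero, ← map_mul, lf_aa e (a1.mul a2)]

end

theorem hm_lift (h : ∀ (K : Type) [Field K] [Fintype K] [CharP K 3], HM (k := K) aa)
    (k : Type*) [Field k] [Fintype k] [CharP k 3] : HM (k := k) aa := by
  have e : Shrink.{0} k ≃+* k := Shrink.ringEquiv.{0} k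
  have : Fintype (Shrink.{0} k) := Fintype.ofEquiv k e.symm.toEquiv
  have : CharP (Shrink.{0} k) 3 := (RingHom.charP_iff_charP e.toRingHom 3).2 ‹_›
  exact lf_hm e.symm (h (Shrink.{0} k))

end Pool.Agent.H68T

end
end

-- part H68T.Final
section

/-! h49p: the three blocks put together. -/

set_option autoImplicit false

open Polynomial Filter Topology

namespace Pool.Agent.H68T

theorem hm_row (k : Type*) [Field k] [Fintype k] [CharP k 3] : HM (k := k) aa :=
  hm_lift (fun _ _ _ _ => H18M.hm_of_lln (H18M.lln_of_fam26 H18M.fam28)) k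

theorem final (k : Type*) [Field k] [Fintype k] [CharP k 3] :
    Tendsto (fun n : ℕ =>
      (∑ᶠ f ∈ {f : k[X] | f.Monic ∧ f.natDegree = n ∧ Irreducible f},
          (Nat.card {c : CommRing.Pic (QuadraticAlgebra k[X] f 0) // c ^ 3 = 1} : ℝ)) /
        ({f : k[X] | f.Monic ∧ f.natDegree = n ∧ Irreducible f}.ncard : ℝ) -
        (if Even n then 4 / 3 else 2)) atTop (𝓝 0) :=
  end_row (hm_row k) (hii_of hiis_row)

end Pool.Agent.H68T

end
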